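import Pool.Agent.Work.MP_afe918_an.Defs

/-! Bundle of small proof modules (one section per former module). -/

section

/-!
# MP_afe918_an, block L: statements of the local theory (captain helper5)
-/

set_option autoImplicit false

open Complex Set Filter Topology MeasureTheory Metric
open scoped Real ContDiff ComplexConjugate

namespace Pool.Agent.Vx

/-- The Wirtinger derivative `∂_z`. -/
noncomputable def dz (f : ℂ → ℂ) (z : ℂ) : ℂ := (fderiv ℝ f z 1 - I * fderiv ℝ f z I) / 2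

/-! ### Potentials -/

/-- L1 (Riesz). -/
def S_Riesz : Prop := ∀ (c z : ℂ) (r : ℝ), 0 < r →
  IntegrableOn (fun y => 1 / ‖z - y‖) (ball c r) ∧ ∫ y in ball c r, 1 / ‖z - y‖ ≤ 6 * π * r

/-- L2: local integrability of the logarithm and of its powers. -/
def S_LogI : Prop := ∀ (c z : ℂ) (r : ℝ), 0 < r →
  IntegrableOn (fun y => Real.log ‖z - y‖) (ball c r) ∧
  IntegrableOn (fun y => Real.log ‖z - y‖ ^ 2) (ball c r)

/-- L3: the potential is C^1. -/
def S_PotD : Prop := ∀ (r : ℝ) (E : ℂ → ℝ), 0 < r → Continuous E →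
  (∀ z, HasFDerivAt (pot r E)
    ((2 : ℝ) • Complex.reCLM.comp (ContinuousLinearMap.mul ℝ ℂ (dpot r E z))) z) ∧
  Continuous (dpot r E)

/-- L4: potential of a mass away from a ball. -/
def S_Far : Prop := ∀ (q : ℂ) (ρ T : ℝ) (S : Set ℂ) (E : ℂ → ℝ), 0 < ρ → Continuous E →
  MeasurableSet S → S ⊆ ball 0 T → Disjoint S (ball q ρ) →
  ∃ G : ℂ → ℂ, DifferentiableOn ℂ G (ball 0 ρ) ∧
    (∀ w ∈ ball (0 : ℂ) ρ,
      2 * (G w).re = -(1 / (2 * π)) * ∫ y in S, Real.log ‖q + w - y‖ * E y) ∧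
    (∀ w ∈ ball (0 : ℂ) ρ, deriv G w = -(1 / (4 * π)) * ∫ y in S, (E y : ℂ) / (q + w - y))

/-! ### Operations on local densities -/

/-- L5: scaling. -/
def S_Scale : Prop := ∀ (r : ℝ) (n : ℕ) (lam : ℝ) (h : ℂ → ℂ) (E : ℂ → ℝ) (R : ℝ),
  Loc r n lam h E → 0 < R →
  Loc (r / R) n (lam * R ^ 2)
    (fun y => h (R * y) + (((1 + n - ms r E / (4 * π)) * Real.log R : ℝ) : ℂ))
    (fun y => R ^ 2 * E (R * y)) ∧
  ∀ s, 0 < s → ms (s / R) (fun y => R ^ 2 * E (R * y)) = ms s E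

/-- L6: rotation. -/
def S_Rot : Prop := ∀ (r : ℝ) (n : ℕ) (lam : ℝ) (h : ℂ → ℂ) (E : ℂ → ℝ) (u : ℂ),
  Loc r n lam h E → ‖u‖ = 1 →
  Loc r n lam (fun z => h (u * z)) (fun z => E (u * z)) ∧
  (∀ s, ms s (fun z => E (u * z)) = ms s E) ∧
  ∀ (s : ℝ) (f : ℂ → ℂ), mo s (fun z => E (u * z)) f = mo s E (fun z => f (conj u * z))

/-- L7: restriction to a smaller ball. -/
def S_Rec0 : Prop := ∀ (r : ℝ) (n : ℕ) (lam : ℝ) (h : ℂ → ℂ) (E : ℂ → ℝ) (ρ : ℝ),
  Loc r n lam h E → 0 < ρ → ρ ≤ r →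
  ∃ g : ℂ → ℂ, Loc ρ n lam g E ∧
    2 * (g 0).re = 2 * (h 0).re -
      1 / (2 * π) * ∫ y in ball (0 : ℂ) r \ ball 0 ρ, Real.log ‖y‖ * E y ∧
    ∀ w ∈ ball (0 : ℂ) ρ, deriv g w = deriv h w -
      1 / (4 * π) * ∫ y in ball (0 : ℂ) r \ ball 0 ρ, (E y : ℂ) / (w - y)

/-- L8: recentering at a point `q ≠ 0`. -/
def S_Rec1 : Prop := ∀ (r : ℝ) (n : ℕ) (lam : ℝ) (h : ℂ → ℂ) (E : ℂ → ℝ) (q : ℂ) (ρ : ℝ),
  Loc r n lam h E → 0 < ρ → ρ ≤ ‖q‖ → ‖q‖ + ρ ≤ r →
  ∃ g : ℂ → ℂ, Loc ρ 0 lam g (fun w => E (q + w)) ∧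
    2 * (g 0).re = 2 * (h q).re + 2 * n * Real.log ‖q‖ - lam / 4 * ‖q‖ ^ 2 -
      1 / (2 * π) * ∫ y in ball (0 : ℂ) r \ ball q ρ, Real.log ‖q - y‖ * E y ∧
    ∀ w ∈ ball (0 : ℂ) ρ, deriv g w = deriv h (q + w) + n / (q + w) - lam / 4 * conj q -
      1 / (4 * π) * ∫ y in ball (0 : ℂ) r \ ball q ρ, (E y : ℂ) / (q + w - y)

/-! ### Pohozaev identities -/

/-- L9: the exact identity for the vector field `ψ`. -/
def S_Id : Prop := ∀ (r : ℝ) (n : ℕ) (lam : ℝ) (h : ℂ → ℂ) (E : ℂ → ℝ), Loc r n lam h E →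
  ∀ ψ : ℂ → ℂ, ContDiff ℝ 1 ψ → (∃ s, s < r ∧ ∀ z, s ≤ ‖z‖ → ψ z = 0) →
  ∫ z in ball (0 : ℂ) r, (dz ψ z + ψ z * (n / z + deriv h z - lam / 4 * conj z)) * (E z : ℂ) =
    1 / (8 * π) * ∫ z in ball (0 : ℂ) r, ∫ y in ball (0 : ℂ) r,
      (ψ z - ψ y) / (z - y) * (E z : ℂ) * (E y : ℂ)

/-- L10: the exact identity for the vector field `ψ / z` at a simple vortex. -/
def S_Id2 : Prop := ∀ (r : ℝ) (lam : ℝ) (h : ℂ → ℂ) (E : ℂ → ℝ), Loc r 1 lam h E →
  ∀ ψ : ℂ → ℂ, ContDiff ℝ 1 ψ → (∃ s, s < r ∧ ∀ z, s ≤ ‖z‖ → ψ z = 0) →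
  ∫ z in ball (0 : ℂ) r, (dz ψ z / z + ψ z / z * (deriv h z - lam / 4 * conj z)) * (E z : ℂ) =
    1 / (8 * π) * ∫ z in ball (0 : ℂ) r, ∫ y in ball (0 : ℂ) r,
      (ψ z / z - ψ y / y) / (z - y) * (E z : ℂ) * (E y : ℂ)

/-- L11: cut-off functions. -/
def S_Cut : Prop := ∃ K : ℝ, 0 < K ∧ ∀ s : ℝ, 0 < s → ∃ χ : ℂ → ℝ, ContDiff ℝ ∞ χ ∧
  (∀ z, 0 ≤ χ z ∧ χ z ≤ 1) ∧ (∀ z, ‖z‖ ≤ s → χ z = 1) ∧ (∀ z, 3 / 2 * s ≤ ‖z‖ → χ z = 0) ∧
  (∀ z, ‖fderiv ℝ χ z‖ ≤ K / s) ∧ ∀ z y, |χ z - χ y| ≤ K / s * ‖z - y‖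

/-- L12: the Pohozaev identity for polynomial vector fields, up to the height outside. -/
def S_RIp : Prop := ∃ K : ℝ, 0 < K ∧ ∀ (r s lam A η H M0 T : ℝ) (n : ℕ) (h : ℂ → ℂ)
  (E : ℂ → ℝ) (b : ℂ) (c : ℕ → ℂ), 0 < s → 2 * s ≤ r → r ≤ T * s → Loc r n lam h E →
  0 ≤ H → lam * r ^ 2 ≤ H → (∀ z ∈ ball (0 : ℂ) r, ‖deriv h z‖ * r ≤ H) → ms r E ≤ M0 →
  (∀ z ∈ ball (0 : ℂ) r, s ≤ ‖z‖ → E z ≤ η) → ‖b‖ ≤ s →
  (∀ i, i < 6 → ‖c i‖ * (3 * s) ^ i ≤ A * s) →
  ‖mo s E (fun z => (∑ i ∈ Finset.range 6, c i * i * (z - b) ^ (i - 1)) +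
      (∑ i ∈ Finset.range 6, c i * (z - b) ^ i) * (n / z + deriv h z - lam / 4 * conj z)) -
    1 / (8 * π) * ∑ i ∈ Finset.range 6, c i * ∑ k ∈ Finset.range i,
      mo s E (fun z => (z - b) ^ k) * mo s E (fun z => (z - b) ^ (i - 1 - k))‖ ≤
    K * (1 + n + H + M0 * T) * A * η * s ^ 2

/-- L13: the identity for the vector field `1/z` at a simple vortex. -/
def S_RI2 : Prop := ∀ (r s H Λ M0 : ℝ), 0 < s → 2 * s < r → ∃ C : ℝ, 0 ≤ C ∧
  ∀ (lam η : ℝ) (h : ℂ → ℂ) (E : ℂ → ℝ), Loc r 1 lam h E → lam ≤ Λ →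
  (∀ z ∈ ball (0 : ℂ) r, ‖deriv h z‖ ≤ H) → ms r E ≤ M0 →
  (∀ z ∈ ball (0 : ℂ) r, s ≤ ‖z‖ → E z ≤ η) →
  ‖mo s E (fun z => deriv h z / z) - lam / 4 * mo s E (fun z => conj z / z) +
    1 / (8 * π) * mo s E (fun z => 1 / z) ^ 2‖ ≤ C * η * (1 + ‖mo s E (fun z => 1 / z)‖)

/-! ### The toolbox -/

/-- L14: small mass lemma (scale invariant). -/
def S_Small : Prop := ∀ (n : ℕ) (H : ℝ), ∃ C : ℝ, ∀ (r lam : ℝ) (h : ℂ → ℂ) (E : ℂ → ℝ),
  Loc r n lam h E → lam * r ^ 2 ≤ H → (∀ z ∈ ball (0 : ℂ) (r / 2), ‖deriv h z‖ * r ≤ H) →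
  ms r E ≤ 1 →
  ∀ z ∈ ball (0 : ℂ) (r / 4), |pot r E z + ms r E / (2 * π) * Real.log r| ≤ C ∧ r ^ 2 * E z ≤ C

/-- L15: extraction of the concentration set. -/
def S_Ext : Prop := ∀ (μ : ℕ → Measure ℂ) (M0 : ℝ), 0 ≤ M0 → (∀ j, μ j univ ≤ ENNReal.ofReal M0) →
  ∃ (φ : ℕ → ℕ) (Q : Finset ℂ), StrictMono φ ∧ (Q.card : ℝ) ≤ M0 ∧
    (∀ q ∈ Q, ∀ s : ℝ, 0 < s → ∀ᶠ j in atTop, 1 ≤ μ (φ j) (ball q s)) ∧
    ∀ x, x ∉ Q → ∃ s : ℝ, 0 < s ∧ ∀ᶠ j in atTop, μ (φ j) (ball x s) ≤ 1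

/-- L16: Pohozaev identity with the mass of annuli as error. -/
def S_Poh : Prop := ∃ K : ℝ, 0 < K ∧ ∀ (r δ lam H M0 : ℝ) (n : ℕ) (h : ℂ → ℂ) (E : ℂ → ℝ),
  Loc r n lam h E → 0 < δ → 4 * δ ≤ r → 0 ≤ H → ms r E ≤ M0 →
  (∀ z ∈ ball (0 : ℂ) (2 * δ), ‖deriv h z‖ ≤ H) →
  |(1 + n) * ms δ E - ms δ E ^ 2 / (8 * π)| ≤ K * (1 + n + M0) ^ 2 *
    ((ms (4 * δ) E - ms δ E) + H * δ + lam * δ ^ 2 +
      ∫ z in ball (0 : ℂ) r \ ball 0 (4 * δ), δ / ‖z‖ * E z)

/-- L17: lower quantisation. -/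
def S_Quant : Prop := ∀ (r H Λ M0 : ℝ) (n : ℕ) (lam : ℕ → ℝ) (h : ℕ → ℂ → ℂ) (E : ℕ → ℂ → ℝ),
  (∀ j, Loc r n (lam j) (h j) (E j)) → (∀ j, lam j ≤ Λ) →
  (∀ j, ∀ z ∈ ball (0 : ℂ) (r / 2), ‖deriv (h j) z‖ ≤ H) → (∀ j, ms r (E j) ≤ M0) →
  (∀ s, 0 < s → ∀ᶠ j in atTop, 1 ≤ ms s (E j)) →
  ∀ s, 0 < s → ∀ ε, 0 < ε → ∀ᶠ j in atTop, 8 * π * (1 + n) - ε ≤ ms s (E j)

/-- L18: quantisation when the mass concentrates at the origin. -/
def S_QuantE : Prop := ∀ (r H Λ M0 : ℝ) (n : ℕ) (lam : ℕ → ℝ) (h : ℕ → ℂ → ℂ)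
  (E : ℕ → ℂ → ℝ),
  (∀ j, Loc r n (lam j) (h j) (E j)) → (∀ j, lam j ≤ Λ) →
  (∀ j, ∀ z ∈ ball (0 : ℂ) (r / 2), ‖deriv (h j) z‖ ≤ H) → (∀ j, ms r (E j) ≤ M0) →
  (∀ s, 0 < s → ∀ᶠ j in atTop, 1 ≤ ms s (E j)) →
  (∀ s, 0 < s → s < r → Tendsto (fun j => ms r (E j) - ms s (E j)) atTop (𝓝 0)) →
  Tendsto (fun j => ms r (E j)) atTop (𝓝 (8 * π * (1 + n)))

/-- L19: balance of forces at a regular concentration point. -/
def S_Bal : Prop := ∀ (r H Λ M0 : ℝ) (lam : ℕ → ℝ) (h : ℕ → ℂ → ℂ) (E : ℕ → ℂ → ℝ),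
  (∀ j, Loc r 0 (lam j) (h j) (E j)) → (∀ j, lam j ≤ Λ) →
  (∀ j, ∀ z ∈ ball (0 : ℂ) (r / 2), ‖deriv (h j) z‖ ≤ H) → (∀ j, ms r (E j) ≤ M0) →
  (∀ s, 0 < s → s < r → Tendsto (fun j => ms r (E j) - ms s (E j)) atTop (𝓝 0)) →
  Tendsto (fun j => mo (r / 4) (E j) (fun z => deriv (h j) z - lam j / 4 * conj z)) atTop (𝓝 0)

/-! ### Blow-up sequences -/

/-- L20: the second moment is much larger than the height outside. -/
def S_A : Prop := ∀ (r : ℝ) (n : ℕ) (H Λ : ℝ) (lam : ℕ → ℝ) (h : ℕ → ℂ → ℂ) (E : ℕ → ℂ → ℝ),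
  BU r n H Λ lam h E → ∀ b : ℕ → ℂ, Tendsto b atTop (𝓝 0) → ∀ s, 0 < s → s ≤ r →
  Tendsto (fun j => (∫ z in ball (0 : ℂ) s, ‖z - b j‖ ^ 2 * E j z) / et (h j)) atTop atTop

/-- L21: basic facts on blow-up sequences. -/
def S_BUf : Prop := ∀ (r : ℝ) (n : ℕ) (H Λ : ℝ) (lam : ℕ → ℝ) (h : ℕ → ℂ → ℂ) (E : ℕ → ℂ → ℝ),
  BU r n H Λ lam h E → ∀ b : ℕ → ℂ, Tendsto b atTop (𝓝 0) → ∀ s, 0 < s → s < r →
  Tendsto (fun j => ms s (E j)) atTop (𝓝 (8 * π * (1 + n))) ∧
  (∃ C, ∀ j, ms r (E j) - ms s (E j) ≤ C * et (h j)) ∧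
  Tendsto (fun j => ∫ z in ball (0 : ℂ) s, ‖z‖ * E j z) atTop (𝓝 0) ∧
  Tendsto (fun j => ∫ z in ball (0 : ℂ) s, ‖z - b j‖ ^ 2 * E j z) atTop (𝓝 0) ∧
  Tendsto (fun j => (∫ z in ball (0 : ℂ) s, ‖z - b j‖ ^ 3 * E j z) /
    ∫ z in ball (0 : ℂ) s, ‖z - b j‖ ^ 2 * E j z) atTop (𝓝 0)

/-- L22: regular blow-up point. -/
def S_n0 : Prop := ∀ (r H Λ : ℝ) (lam : ℕ → ℝ) (h : ℕ → ℂ → ℂ) (E : ℕ → ℂ → ℝ),
  BU r 0 H Λ lam h E → ∀ s, 0 < s → 2 * s < r →
  ∀ b : ℕ → ℂ, (∀ j, b j = mo s (E j) (fun z => z) / ms s (E j)) →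
  Tendsto b atTop (𝓝 0) ∧
  Tendsto (fun j => (8 * π - ms s (E j)) / (∫ z in ball (0 : ℂ) s, ‖z - b j‖ ^ 2 * E j z) -
    lam j / 4) atTop (𝓝 0) ∧
  Tendsto (fun j => mo s (E j) (fun z => (z - b j) ^ 2) /
    ((∫ z in ball (0 : ℂ) s, ‖z - b j‖ ^ 2 * E j z : ℝ) : ℂ)) atTop (𝓝 0)

/-- L23: blow-up at a vortex of multiplicity at least 2. -/
def S_n2 : Prop := ∀ (r H Λ : ℝ) (n : ℕ) (lam : ℕ → ℝ) (h : ℕ → ℂ → ℂ) (E : ℕ → ℂ → ℝ),
  2 ≤ n → BU r n H Λ lam h E → ∀ s, 0 < s → 2 * s < r →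
  Tendsto (fun j => (1 + n) * (8 * π * (1 + n) - ms s (E j)) /
    (∫ z in ball (0 : ℂ) s, ‖z‖ ^ 2 * E j z) - lam j / 4) atTop (𝓝 0)

/-- L24: blow-up at a vortex of multiplicity 1, first relation. -/
def S_n1a : Prop := ∀ (r H Λ : ℝ) (lam : ℕ → ℝ) (h : ℕ → ℂ → ℂ) (E : ℕ → ℂ → ℝ),
  BU r 1 H Λ lam h E → ∀ s, 0 < s → 2 * s < r →
  Tendsto (fun j => 2 * (16 * π - ms s (E j)) / (∫ z in ball (0 : ℂ) s, ‖z‖ ^ 2 * E j z) -
    lam j / 4 + ((deriv (deriv (h j)) 0 + deriv (h j) 0 ^ 2) *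
      mo s (E j) (fun z => z ^ 2)).re / (∫ z in ball (0 : ℂ) s, ‖z‖ ^ 2 * E j z)) atTop (𝓝 0)

/-- L25: blow-up at a vortex of multiplicity 1, second relation. -/
def S_n1b : Prop := ∀ (r H Λ : ℝ) (lam : ℕ → ℝ) (h : ℕ → ℂ → ℂ) (E : ℕ → ℂ → ℝ),
  BU r 1 H Λ lam h E → ∀ s, 0 < s → 2 * s < r →
  Tendsto (fun j => (deriv (deriv (h j)) 0 + deriv (h j) 0 ^ 2) -
    lam j / 4 * mo s (E j) (fun z => conj z / z) / (16 * π)) atTop (𝓝 0)

/-- L26: if the mass does not approach the critical value from below fast, the mass concentrates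
near a line. -/
def S_n1c : Prop := ∀ (r H Λ lam0 K : ℝ) (lam : ℕ → ℝ) (h : ℕ → ℂ → ℂ) (E : ℕ → ℂ → ℝ),
  BU r 1 H Λ lam h E → 0 < lam0 → (∀ j, lam0 ≤ lam j) →
  (∀ j, 16 * π - ms r (E j) ≤ K * et (h j)) → ∀ s, 0 < s → 2 * s < r →
  Tendsto (fun j => ‖mo s (E j) (fun z => conj z / z)‖) atTop (𝓝 (16 * π))

/-- L27: rotating and rescaling. -/
def S_PLx : Prop := ∀ (r H Λ s : ℝ) (lam : ℕ → ℝ) (h : ℕ → ℂ → ℂ) (E : ℕ → ℂ → ℝ),
  BU r 1 H Λ lam h E → 0 < s → 2 * s < r →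
  Tendsto (fun j => ‖mo s (E j) (fun z => conj z / z)‖) atTop (𝓝 (16 * π)) →
  ∃ (φ : ℕ → ℕ) (R : ℕ → ℝ) (h' : ℕ → ℂ → ℂ) (E' : ℕ → ℂ → ℝ), StrictMono φ ∧
    PL r H Λ R (fun j => lam (φ j)) (fun j => et (h (φ j))) h' E' ∧
    ∀ j, ms (r / R j) (E' j) = ms r (E (φ j))

/-- L28 (block W): a rescaled sequence consists of two bubbles. -/
def S_PLTB : Prop := ∀ (r H Λ : ℝ) (R lam eta : ℕ → ℝ) (h : ℕ → ℂ → ℂ) (E : ℕ → ℂ → ℝ),
  PL r H Λ R lam eta h E → ∃ (φ : ℕ → ℕ) (kap : ℕ → ℝ), StrictMono φ ∧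
    TB r H Λ (fun j => R (φ j)) (fun j => lam (φ j)) (fun j => eta (φ j)) kap
      (fun j => h (φ j)) (fun j => E (φ j))

/-- L29 (block W): the mass of two bubbles at a simple vortex. -/
def S_TBfin : Prop := ∀ (r H Λ : ℝ) (R lam eta kap : ℕ → ℝ) (h : ℕ → ℂ → ℂ) (E : ℕ → ℂ → ℝ),
  TB r H Λ R lam eta kap h E →
  Tendsto (fun j => (16 * π - ms (r / R j) (E j)) / (R j ^ 2 * (ba 1 (E j) + ba (-1) (E j))) -
    lam j / 4) atTop (𝓝 0)

/-- L30: THE LOCAL THEOREM: the mass of a blow-up sequence approaches the critical value from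
below. -/
def S_LT : Prop := ∀ (r : ℝ) (n : ℕ) (H Λ lam0 : ℝ) (lam : ℕ → ℝ) (h : ℕ → ℂ → ℂ)
  (E : ℕ → ℂ → ℝ), BU r n H Λ lam h E → 0 < lam0 → (∀ j, lam0 ≤ lam j) →
  Tendsto (fun j => (8 * π * (1 + n) - ms r (E j)) / et (h j)) atTop atTop

end Pool.Agent.Vx

end

section

/-!
# MP_afe918_an, block V (helper96): existence for noncritical parameters (PART A of the note)
-/

set_option autoImplicit false

open Complex Set Filter Topology MeasureTheory Metric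
open scoped Real ContDiff

namespace Pool.Agent.Vx

/-! ### Definitions of block V -/

/-- The convolution with the Green function. -/
noncomputable def gg (a b : ℝ) (F : ℂ → ℂ) (g : ℂ → ℝ) (x : ℂ) : ℝ :=
  ti a b (fun y => Gr a b F (x - y) * g y)

/-- Bounded measurable doubly periodic functions. -/
structure BM (a b : ℝ) (g : ℂ → ℝ) : Prop where
  meas : Measurable g
  per : Per a b g
  bdd : ∃ M, ∀ z, |g z| ≤ M

/-- Admissible weights. -/
structure Wt (a b : ℝ) (w : ℂ → ℝ) : Prop where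
  cont : Continuous w
  per : Per a b w
  nonneg : ∀ z, 0 ≤ w z
  pos : ∀ᵐ z : ℂ, 0 < w z
  lint : IntegrableOn (fun z => Real.log (w z)) (rect a b 0)
  line : ∃ y0 r c0 : ℝ, 0 < r ∧ 0 < c0 ∧ ∀ z : ℂ, |z.im - y0| ≤ r → c0 ≤ w z

/-- The gradient of `lw ∘ tp`. -/
noncomputable def gw (a b : ℝ) (w : ℂ → ℝ) (m : ℕ) (c : Co m) : Co m :=
  WithLp.toLp 2 fun i =>
    ti a b (fun z => md a b (i.1.1, i.2) z * (w z * Real.exp (tp a b m c z))) /
      ti a b (fun z => w z * Real.exp (tp a b m c z))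

/-- The gradient of `en`. -/
noncomputable def gen (a b : ℝ) (m : ℕ) (c : Co m) : Co m :=
  WithLp.toLp 2 fun i => a * b * nu a b i.1.1 * c i

/-- The projection to trigonometric polynomials. -/
noncomputable def pj (a b : ℝ) (m : ℕ) (u : ℂ → ℝ) : Co m :=
  WithLp.toLp 2 fun i => 2 / (a * b) * ti a b (fun z => u z * md a b (i.1.1, i.2) z)

/-- `C¹` periodic functions with their partial derivatives. -/
structure C1f (a b : ℝ) (u ux uy : ℂ → ℝ) : Prop where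
  cont : Continuous u
  contx : Continuous ux
  conty : Continuous uy
  per : Per a b u
  perx : Per a b ux
  pery : Per a b uy
  dx : ∀ z : ℂ, HasDerivAt (fun t : ℝ => u (z + t)) (ux z) 0
  dy : ∀ z : ℂ, HasDerivAt (fun t : ℝ => u (z + t * I)) (uy z) 0

/-- The trigonometric polynomial in `x` with coefficients `c`. -/
noncomputable def Tc (a : ℝ) {k : ℕ} (c : Pa k) (x : ℝ) : ℝ := ∑ i, c i * cm a i x

/-- A smooth periodic version of the squared distance to the point `t + i y0`. -/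
noncomputable def Dd (a b y0 : ℝ) (x : ℂ) (t : ℝ) : ℝ :=
  (a / π * Real.sin (π * (x.re - t) / a)) ^ 2 + (b / π * Real.sin (π * (x.im - y0) / b)) ^ 2

/-- The bubble `(L / (1 + L² D))²`. -/
noncomputable def kp (a b y0 L : ℝ) (x : ℂ) (t : ℝ) : ℝ := (L / (1 + L ^ 2 * Dd a b y0 x t)) ^ 2

/-- The `x`-derivative of the bubble. -/
noncomputable def kpx (a b y0 L : ℝ) (x : ℂ) (t : ℝ) : ℝ :=
  -2 * L ^ 4 * (2 * (a / π) * Real.sin (π * (x.re - t) / a) * Real.cos (π * (x.re - t) / a)) /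
    (1 + L ^ 2 * Dd a b y0 x t) ^ 3

/-- The `y`-derivative of the bubble. -/
noncomputable def kpy (a b y0 L : ℝ) (x : ℂ) (t : ℝ) : ℝ :=
  -2 * L ^ 4 * (2 * (b / π) * Real.sin (π * (x.im - y0) / b) * Real.cos (π * (x.im - y0) / b)) /
    (1 + L ^ 2 * Dd a b y0 x t) ^ 3

/-- Integral against the weight `exp (β T_c)` over a period. -/
noncomputable def si (a β : ℝ) {k : ℕ} (c : Pa k) (f : ℝ → ℝ) : ℝ :=
  ∫ t in Ioc 0 a, f t * Real.exp (β * Tc a c t)

/-- The test function. -/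
noncomputable def tf (a b y0 L β : ℝ) {k : ℕ} (c : Pa k) (x : ℂ) : ℝ :=
  Real.log (si a β c (kp a b y0 L x) / si a β c (fun _ => 1))

/-- The `x`-derivative of the test function. -/
noncomputable def tfx (a b y0 L β : ℝ) {k : ℕ} (c : Pa k) (x : ℂ) : ℝ :=
  si a β c (kpx a b y0 L x) / si a β c (kp a b y0 L x)

/-- The `y`-derivative of the test function. -/
noncomputable def tfy (a b y0 L β : ℝ) {k : ℕ} (c : Pa k) (x : ℂ) : ℝ :=
  si a β c (kpy a b y0 L x) / si a β c (kp a b y0 L x)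

open Classical in
/-- The weight `exp (β T_c)` is concentrated, up to the proportion `ε`, on the points of the arcs
of radius `θ` around the `t j` at which `T_c ≥ τ`. -/
def Conc (a : ℝ) {k : ℕ} (τ θ ε β : ℝ) (c : Pa k) (t : Fin k → ℝ) : Prop :=
  si a β c (fun x => if (∃ (j : Fin k) (n : ℤ), |x - t j - n * a| ≤ θ) ∧ τ ≤ Tc a c x then 0
    else 1) ≤ ε * si a β c (fun _ => 1)

/-! ### V0: torus toolbox -/

/-- Basic facts on the Green function. -/
def V_G : Prop := ∀ (a b : ℝ) (F : ℂ → ℂ), IsTheta a b F →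
  Continuous (Sf a b F) ∧ (∀ z, 0 ≤ Sf a b F z) ∧ (∀ z, Sf a b F z = 0 ↔ Lat a b z) ∧
  Per a b (Gr a b F) ∧ (∀ z, Gr a b F (-z) = Gr a b F z) ∧
  ∃ C, ∀ z ∈ rect a b 0, z ≠ 0 → |Gr a b F z + 1 / (2 * π) * Real.log ‖z‖| ≤ C

/-- Volume, symmetry and translation invariance. -/
def V_tr : Prop := ∀ (a b : ℝ), 0 < a → 0 < b →
  (∀ c : ℝ, ti a b (fun _ => c) = c * (a * b)) ∧
  (∀ f : ℂ → ℝ, ti a b (fun z => f (-z)) = ti a b f) ∧
  ∀ f : ℂ → ℝ, Per a b f → IntegrableOn f (rect a b 0) → ∀ w : ℂ,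
    IntegrableOn (fun z => f (z + w)) (rect a b 0) ∧ ti a b (fun z => f (z + w)) = ti a b f

/-- Parseval's identity. -/
def V_Pars : Prop := ∀ (a b : ℝ), 0 < a → 0 < b → ∀ f g : ℂ → ℝ, BM a b f → BM a b g →
  Tendsto (fun m : ℕ => 1 / (a * b) * (ti a b f * ti a b g) +
    2 / (a * b) * ∑ i : hm m × Bool, ti a b (fun z => f z * md a b (i.1.1, i.2) z) *
      ti a b (fun z => g z * md a b (i.1.1, i.2) z)) atTop (𝓝 (ti a b (fun z => f z * g z)))

/-- Orthogonality of the modes. -/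
def V_orth : Prop := ∀ (a b : ℝ), 0 < a → 0 < b → ∀ m : ℕ,
  (∀ i : hm m × Bool, ti a b (md a b (i.1.1, i.2)) = 0) ∧
  (∀ i j : hm m × Bool, ti a b (fun z => md a b (i.1.1, i.2) z * md a b (j.1.1, j.2) z) =
    if i = j then a * b / 2 else 0) ∧
  (∀ c : Co m, BM a b (tp a b m c) ∧ Continuous (tp a b m c) ∧ ti a b (tp a b m c) = 0 ∧
    ∀ i : hm m × Bool, ti a b (fun z => tp a b m c z * md a b (i.1.1, i.2) z) = a * b / 2 * c i)

/-- Bessel's inequality and uniqueness of Fourier coefficients. -/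
def V_Bes : Prop := ∀ (a b : ℝ), 0 < a → 0 < b →
  (∀ f : ℂ → ℝ, BM a b f → ∀ m : ℕ, 1 / (a * b) * (ti a b f) ^ 2 + 2 / (a * b) *
    ∑ i : hm m × Bool, (ti a b (fun z => f z * md a b (i.1.1, i.2) z)) ^ 2 ≤
      ti a b (fun z => f z ^ 2)) ∧
  ∀ f : ℂ → ℝ, Continuous f → Per a b f → ti a b f = 0 →
    (∀ (m : ℕ) (i : hm m × Bool), ti a b (fun z => f z * md a b (i.1.1, i.2) z) = 0) → ∀ z, f z = 0

/-- The convolution with the Green function. -/
def V_conv : Prop := ∀ (a b : ℝ) (F : ℂ → ℂ), IsTheta a b F → ∀ g : ℂ → ℝ, BM a b g →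
  (∀ x, IntegrableOn (fun y => Gr a b F (x - y) * g y) (rect a b 0)) ∧
  Continuous (gg a b F g) ∧ Per a b (gg a b F g) ∧ BM a b (gg a b F g)

/-- The Fourier coefficients of the convolution; symmetry. -/
def V_gfou : Prop := ∀ (a b : ℝ) (F : ℂ → ℂ), IsTheta a b F → ∀ g : ℂ → ℝ, BM a b g →
  ti a b (gg a b F g) = 0 ∧
  (∀ f : ℂ → ℝ, BM a b f → ti a b (fun z => f z * gg a b F g z) =
    ti a b (fun z => g z * gg a b F f z)) ∧
  ∀ (ξ : ℤ × ℤ) (s : Bool), ξ ≠ 0 → ti a b (fun z => gg a b F g z * md a b (ξ, s) z) =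
    1 / nu a b ξ * ti a b (fun z => g z * md a b (ξ, s) z)

/-- Positivity and duality. -/
def V_dual : Prop := ∀ (a b : ℝ) (F : ℂ → ℂ), IsTheta a b F → ∀ g : ℂ → ℝ, BM a b g →
  0 ≤ ti a b (fun z => g z * gg a b F g z) ∧
  ∀ (m : ℕ) (c : Co m) (β : ℝ), 0 < β → ti a b (fun z => g z * tp a b m c z) ≤
    en a b m c / (4 * β) + β * ti a b (fun z => g z * gg a b F g z)

/-! ### V1: Moser-Trudinger inequalities -/

/-- Integrability of `Sf ^ (-(1 - ε))`. -/
def V_exp : Prop := ∀ (a b : ℝ) (F : ℂ → ℂ), IsTheta a b F → ∀ ε : ℝ, 0 < ε → ε < 1 →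
  IntegrableOn (fun z => Sf a b F z ^ (-(1 - ε))) (rect a b 0) ∧
    0 < ti a b (fun z => Sf a b F z ^ (-(1 - ε)))

/-- The Gibbs inequality for the Green function. -/
def V_gib : Prop := ∀ (a b : ℝ) (F : ℂ → ℂ), IsTheta a b F → ∀ ε : ℝ, 0 < ε → ε < 1 →
  ∀ g : ℂ → ℝ, BM a b g → (∀ z, 0 ≤ g z) → ti a b g = 1 →
    4 * π * (1 - ε) * ti a b (fun z => g z * gg a b F g z) ≤
      ti a b (fun z => g z * Real.log (g z)) +
        Real.log (ti a b (fun z => Sf a b F z ^ (-(1 - ε))))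

open Classical in
/-- The improved Moser-Trudinger inequality. -/
def V_imt : Prop := ∀ (a b : ℝ) (F : ℂ → ℂ), IsTheta a b F → ∀ w : ℂ → ℝ, Continuous w →
  Per a b w → (∀ z, 0 ≤ w z) → ∀ (k : ℕ) (ε γ CG : ℝ), 0 < ε → ε < 1 → 0 < γ → ∃ C : ℝ,
  ∀ Ω : Fin (k + 1) → Set ℂ, (∀ i, MeasurableSet (Ω i)) →
    (∀ i (z : ℂ), (z + a ∈ Ω i ↔ z ∈ Ω i) ∧ (z + b * I ∈ Ω i ↔ z ∈ Ω i)) →
    (∀ i j, i ≠ j → ∀ x ∈ Ω i, ∀ y ∈ Ω j, Gr a b F (x - y) ≤ CG) →
    ∀ (m : ℕ) (c : Co m), 0 < ti a b (fun z => w z * Real.exp (tp a b m c z)) →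
      (∀ i, γ * ti a b (fun z => w z * Real.exp (tp a b m c z)) ≤
        ti a b (fun z => if z ∈ Ω i then w z * Real.exp (tp a b m c z) else 0)) →
      lw a b w (tp a b m c) ≤ en a b m c / (16 * π * (1 - ε) * (k + 1)) + C

/-- The Moser-Trudinger inequality (`w = 1`, `k = 0`, for `2u`). -/
def V_MT : Prop := ∀ (a b : ℝ) (F : ℂ → ℂ), IsTheta a b F → ∃ C : ℝ, ∀ (m : ℕ) (c : Co m),
  ti a b (fun z => Real.exp (2 * tp a b m c z)) ≤ Real.exp (C * (1 + en a b m c))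

/-- Moments: if the first `k` Fourier moments of a probability measure on the circle vanish then
it charges `k + 1` separated arcs. -/
def V_mom : Prop := ∀ (a : ℝ) (k : ℕ), 0 < a → ∃ δ γ : ℝ, 0 < δ ∧ 0 < γ ∧
  ∀ μ : Measure ℝ, IsProbabilityMeasure μ → (∀ i : Fin k × Bool, ∫ x, cm a i x ∂μ = 0) →
    ∃ A : Fin (k + 1) → Set ℝ, (∀ i, MeasurableSet (A i)) ∧ (∀ i x, x + a ∈ A i ↔ x ∈ A i) ∧
      (∀ i j, i ≠ j → ∀ x ∈ A i, ∀ y ∈ A j, ∀ n : ℤ, δ ≤ |x - y - n * a|) ∧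
      ∀ i, γ ≤ μ.real (A i)

/-- The Green function is bounded above off the vertical lines through the lattice points. -/
def V_Gup : Prop := ∀ (a b : ℝ) (F : ℂ → ℂ), IsTheta a b F → ∀ δ : ℝ, 0 < δ → ∃ CG : ℝ,
  ∀ z : ℂ, (∀ n : ℤ, δ ≤ |z.re - n * a|) → Gr a b F z ≤ CG

/-- The functional is bounded below where the moments vanish. -/
def V_low : Prop := ∀ (a b : ℝ) (F : ℂ → ℂ), IsTheta a b F → ∀ w : ℂ → ℝ, Wt a b w →
  ∀ (k : ℕ) (s2 : ℝ), s2 < 8 * π * (k + 1) → ∃ C0 : ℝ, 0 ≤ C0 ∧ ∀ (m : ℕ) (c : Co m) (ρ : ℝ),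
    0 < ρ → ρ ≤ s2 → mom a b w k (tp a b m c) = 0 → -C0 ≤ Ifun a b w m ρ c

/-- Jensen: lower bound for `log ∫ w e^u`. -/
def V_jen : Prop := ∀ (a b : ℝ), 0 < a → 0 < b → ∀ w : ℂ → ℝ, Wt a b w → ∃ C : ℝ,
  ∀ u : ℂ → ℝ, Continuous u → Per a b u → 0 < ti a b (fun z => w z * Real.exp (u z)) ∧
    1 / (a * b) * ti a b u - C ≤ lw a b w u

/-- The weight `hw` is admissible. -/
def V_hw : Prop := ∀ (a b : ℝ) (F : ℂ → ℂ), IsTheta a b F → ∀ (m : ℕ) (p : Fin m → ℂ)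
  (n : Fin m → ℕ), Wt a b (hw a b F p n)

/-! ### V2: the test functions -/

/-- Covering of the near-maximum set of a trigonometric polynomial of degree `k` by `k` arcs. -/
def V_cov : Prop := ∀ (a : ℝ) (k : ℕ) (θ : ℝ), 0 < a → 0 < θ → ∃ η : ℝ, 0 < η ∧
  ∀ c : Pa k, ‖c‖ = 1 → ∃ t : Fin k → ℝ, ∀ x, (∀ y, Tc a c y ≤ Tc a c x + η) →
    ∃ (j : Fin k) (n : ℤ), |x - t j - n * a| ≤ θ

/-- Lower bound for the maximum. -/
def V_max : Prop := ∀ (a : ℝ) (k : ℕ), 0 < a → ∃ τ : ℝ, 0 < τ ∧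
  ∀ c : Pa k, ‖c‖ = 1 → ∃ x, τ ≤ Tc a c x

/-- Concentration of `exp (β T_c)`. -/
def V_cnc : Prop := ∀ (a : ℝ) (k : ℕ), 0 < a → ∃ τ : ℝ, 0 < τ ∧ ∀ θ ε : ℝ, 0 < θ → 0 < ε →
  ∃ β : ℝ, ∀ c : Pa k, ‖c‖ = 1 → ∃ t : Fin k → ℝ, Conc a τ θ ε β c t

/-- The pseudo-distance: periodicity, comparison with the distance, shifts. -/
def V_D : Prop := ∀ (a b y0 : ℝ), 0 < a → 0 < b →
  (∀ x t, 0 ≤ Dd a b y0 x t ∧ Dd a b y0 x t ≤ a ^ 2 + b ^ 2 ∧
    Dd a b y0 x t ≤ ‖x - (t + y0 * I)‖ ^ 2) ∧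
  (∀ t, Per a b (fun x => Dd a b y0 x t)) ∧
  (∀ (x : ℂ) (t s : ℝ), Dd a b y0 (x + s) (t + s) = Dd a b y0 x t) ∧
  ∀ (x : ℂ) (t t' : ℝ) (n : ℤ) (L δ : ℝ), 0 < L → 0 < δ → δ ≤ 1 → |t - t' - n * a| ≤ δ / L →
    1 + L ^ 2 * Dd a b y0 x t' ≤ (1 + 2 * δ) * (1 + L ^ 2 * Dd a b y0 x t)

/-- The gradient of the bubble. -/
def V_kg : Prop := ∀ (a b y0 L : ℝ), 0 < a → 0 < b → 0 < L → ∀ (x : ℂ) (t : ℝ),
  0 < kp a b y0 L x t ∧
  kpx a b y0 L x t ^ 2 + kpy a b y0 L x t ^ 2 ≤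
    16 * L ^ 2 / (1 + L ^ 2 * Dd a b y0 x t) * kp a b y0 L x t ^ 2 ∧
  HasDerivAt (fun s : ℝ => kp a b y0 L (x + s) t) (kpx a b y0 L x t) 0 ∧
  HasDerivAt (fun s : ℝ => kp a b y0 L (x + s * I) t) (kpy a b y0 L x t) 0

/-- The logarithmic integral. -/
def V_k1 : Prop := ∀ (a b y0 δ : ℝ), 0 < a → 0 < b → 0 < δ → ∃ C : ℝ, ∀ L t : ℝ, 1 ≤ L →
  ti a b (fun x => L ^ 2 / (1 + L ^ 2 * Dd a b y0 x t)) ≤ (2 * π + δ) * Real.log L + C

/-- Mass and first moment of the bubble; integral of the logarithm. -/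
def V_k2 : Prop := ∀ (a b y0 : ℝ), 0 < a → 0 < b → ∃ C : ℝ, ∀ L t : ℝ, 1 ≤ L →
  ti a b (fun x => kp a b y0 L x t) ≤ C ∧
  ti a b (fun x => Real.sqrt (Dd a b y0 x t) * kp a b y0 L x t) ≤ C / L ∧
  ti a b (fun x => Real.log (1 + 1 / (1 / L ^ 2 + Dd a b y0 x t) ^ 2)) ≤ C

/-- Lower bound for the weighted mass of the bubble. -/
def V_k3 : Prop := ∀ (a b y0 r c0 : ℝ), 0 < a → 0 < b → 0 < r → 0 < c0 → ∃ c : ℝ, 0 < c ∧
  ∀ w : ℂ → ℝ, Continuous w → Per a b w → (∀ z, 0 ≤ w z) →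
    (∀ z : ℂ, |z.im - y0| ≤ r → c0 ≤ w z) → ∀ L t : ℝ, 1 ≤ L →
      c ≤ ti a b (fun x => w x * kp a b y0 L x t)

/-- Regularity of the test functions. -/
def V_reg : Prop := ∀ (a b y0 L β : ℝ) (k : ℕ), 0 < a → 0 < b → 0 < L →
  Continuous (fun q : Pa k × ℂ => tf a b y0 L β q.1 q.2) ∧
  Continuous (fun q : Pa k × ℂ => tfx a b y0 L β q.1 q.2) ∧
  Continuous (fun q : Pa k × ℂ => tfy a b y0 L β q.1 q.2) ∧
  ∀ c : Pa k, C1f a b (tf a b y0 L β c) (tfx a b y0 L β c) (tfy a b y0 L β c)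

/-- The energy of the test functions. -/
def V_en : Prop := ∀ (a b y0 τ δ : ℝ) (k : ℕ), 0 < a → 0 < b → 0 < δ → δ ≤ 1 → ∃ C : ℝ,
  ∀ L : ℝ, 1 ≤ L → ∃ ε : ℝ, 0 < ε ∧ ∀ (β : ℝ) (c : Pa k) (t : Fin k → ℝ),
    Conc a τ (δ / L) ε β c t →
    ti a b (fun x => tfx a b y0 L β c x ^ 2 + tfy a b y0 L β c x ^ 2) ≤
      k * (16 * (1 + 2 * δ) * (2 * π + δ)) * Real.log L + C

/-- The mean of the test functions. -/
def V_mean : Prop := ∀ (a b y0 τ : ℝ) (k : ℕ), 0 < a → 0 < b → ∃ C : ℝ,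
  ∀ L : ℝ, 1 ≤ L → ∃ ε : ℝ, 0 < ε ∧ ∀ (θ β : ℝ) (c : Pa k) (t : Fin k → ℝ),
    θ ≤ 1 / L → Conc a τ θ ε β c t →
    ti a b (tf a b y0 L β c) ≤ -2 * Real.log L * (a * b) + C

/-- Lower bound for `∫ w e^φ` for the test functions. -/
def V_lwl : Prop := ∀ (a b y0 r c0 : ℝ) (k : ℕ), 0 < a → 0 < b → 0 < r → 0 < c0 → ∃ C : ℝ,
  ∀ w : ℂ → ℝ, Continuous w → Per a b w → (∀ z, 0 ≤ w z) →
    (∀ z : ℂ, |z.im - y0| ≤ r → c0 ≤ w z) → ∀ (L β : ℝ) (c : Pa k), 1 ≤ L →
      -C ≤ lw a b w (tf a b y0 L β c)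

/-- The moments of the test functions. -/
def V_mpos : Prop := ∀ (a b y0 r c0 τ : ℝ) (k : ℕ) (w : ℂ → ℝ), 0 < a → 0 < b → 0 < r → 0 < c0 →
  0 < τ → Continuous w → Per a b w → (∀ z, 0 ≤ w z) → (∀ z : ℂ, |z.im - y0| ≤ r → c0 ≤ w z) →
  ∃ L0 : ℝ, ∀ L : ℝ, L0 ≤ L → ∃ ε : ℝ, 0 < ε ∧ ∀ (θ β : ℝ) (c : Pa k) (t : Fin k → ℝ),
    ‖c‖ = 1 → Conc a τ θ ε β c t →
      0 < inner ℝ (mom a b w k (tf a b y0 L β c)) c

/-- Existence of test functions. -/
def V_TF : Prop := ∀ (a b : ℝ) (w : ℂ → ℝ), 0 < a → 0 < b → Wt a b w → ∀ (k : ℕ) (s1 s2 K : ℝ),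
  8 * π * k < s1 → s1 < s2 → ∃ φ φx φy : Pa k → ℂ → ℝ,
  Continuous (fun q : Pa k × ℂ => φ q.1 q.2) ∧ Continuous (fun q : Pa k × ℂ => φx q.1 q.2) ∧
  Continuous (fun q : Pa k × ℂ => φy q.1 q.2) ∧ (∀ c, C1f a b (φ c) (φx c) (φy c)) ∧
  ∀ c, ‖c‖ = 1 → (0 < inner ℝ (mom a b w k (φ c)) c ∧ ∀ ρ ∈ Icc s1 s2,
    ti a b (fun z => φx c z ^ 2 + φy c z ^ 2) / (2 * ρ) - lw a b w (φ c) +
      1 / (a * b) * ti a b (φ c) ≤ -K)

/-! ### V3: projection, min-max, limit -/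

/-- Projection to trigonometric polynomials. -/
def V_proj : Prop := ∀ (a b : ℝ), 0 < a → 0 < b → ∃ C : ℝ, ∀ (u ux uy : ℂ → ℝ) (m : ℕ),
  C1f a b u ux uy → 0 < m →
  en a b m (pj a b m u) ≤ ti a b (fun z => ux z ^ 2 + uy z ^ 2) ∧
  ti a b (fun z => (u z - 1 / (a * b) * ti a b u - tp a b m (pj a b m u) z) ^ 2) ≤
    C / m ^ 2 * ti a b (fun z => ux z ^ 2 + uy z ^ 2)

/-- The linking map of trigonometric polynomials. -/
def V_lnk : Prop := ∀ (a b : ℝ) (F : ℂ → ℂ), IsTheta a b F → ∀ w : ℂ → ℝ, Wt a b w →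
  ∀ (k : ℕ) (s1 s2 K : ℝ), 8 * π * k < s1 → s1 < s2 → ∃ (C1 : ℝ) (m0 : ℕ), ∀ m : ℕ, m0 ≤ m →
    ∃ γ0 : Pa k → Co m, Continuous γ0 ∧
      (∀ y, ‖y‖ = 1 → 0 < inner ℝ (mom a b w k (tp a b m (γ0 y))) y ∧
        ∀ ρ ∈ Icc s1 s2, Ifun a b w m ρ (γ0 y) ≤ -K) ∧
      ∀ y, ‖y‖ ≤ 1 → ∀ ρ ∈ Icc s1 s2, Ifun a b w m ρ (γ0 y) ≤ C1

/-- Differentiability of the functional, continuity of the moments. -/
def V_grad : Prop := ∀ (a b : ℝ), 0 < a → 0 < b → ∀ w : ℂ → ℝ, Wt a b w → ∀ (m k : ℕ),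
  Continuous (gw a b w m) ∧ Continuous (gen a b m) ∧
  (∀ c, HasGradientAt (fun c => lw a b w (tp a b m c)) (gw a b w m c) c) ∧
  (∀ c, HasGradientAt (en a b m) (gen a b m c) c) ∧
  Continuous (fun c => mom a b w k (tp a b m c)) ∧ (∀ c, 0 ≤ en a b m c) ∧
  ∀ M : ℝ, ∃ B : ℝ, ∀ c, en a b m c ≤ M → ‖c‖ ≤ B

/-- A consequence of Brouwer's theorem. -/
def V_bro : Prop := ∀ (k : ℕ) (f : Pa k → Pa k), Continuous f →
  (∀ y, ‖y‖ = 1 → 0 < inner ℝ (f y) y) → ∃ y, ‖y‖ ≤ 1 ∧ f y = 0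

/-- The abstract min-max principle. -/
def V_MM : Prop := ∀ (k : ℕ) (C0 C1 s1 s2 : ℝ), 0 < s1 → s1 < s2 → ∃ R : ℝ,
  ∀ (ι : Type) [Fintype ι] (Q W : EuclideanSpace ℝ ι → ℝ)
    (gQ gW : EuclideanSpace ℝ ι → EuclideanSpace ℝ ι), Continuous gQ → Continuous gW →
    (∀ x, HasGradientAt Q (gQ x) x) → (∀ x, HasGradientAt W (gW x) x) → (∀ x, 0 ≤ Q x) →
    (∀ M : ℝ, ∃ B : ℝ, ∀ x, Q x ≤ M → ‖x‖ ≤ B) →
    ∀ γ0 : Pa k → EuclideanSpace ℝ ι, Continuous γ0 →
      (∀ y, ‖y‖ = 1 → ∀ ρ ∈ Icc s1 s2, Q (γ0 y) / (2 * ρ) - W (γ0 y) ≤ -C0 - 1) →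
      (∀ y, ‖y‖ ≤ 1 → ∀ ρ ∈ Icc s1 s2, Q (γ0 y) / (2 * ρ) - W (γ0 y) ≤ C1) →
      (∀ γ : Pa k → EuclideanSpace ℝ ι, Continuous γ → (∀ y, ‖y‖ = 1 → γ y = γ0 y) →
        ∃ y, ‖y‖ ≤ 1 ∧ ∀ ρ ∈ Icc s1 s2, -C0 ≤ Q (γ y) / (2 * ρ) - W (γ y)) →
      ∃ ρ ∈ Icc s1 s2, ∃ x, Q x ≤ R ∧ gQ x = (2 * ρ) • gW x

/-- Critical points of the approximating functionals. -/
def V_crit : Prop := ∀ (a b : ℝ) (F : ℂ → ℂ), IsTheta a b F → ∀ w : ℂ → ℝ, Wt a b w →
  ∀ (k : ℕ) (s1 s2 : ℝ), 8 * π * k < s1 → s1 < s2 → s2 < 8 * π * (k + 1) →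
    ∃ (R : ℝ) (m0 : ℕ), ∀ m : ℕ, m0 ≤ m → ∃ ρ ∈ Icc s1 s2, ∃ c : Co m, en a b m c ≤ R ∧
      gen a b m c = (2 * ρ) • gw a b w m c

/-- A priori bound. -/
def V_ap : Prop := ∀ (a b : ℝ) (F : ℂ → ℂ), IsTheta a b F → ∀ w : ℂ → ℝ, Wt a b w →
  ∀ (R s2 : ℝ), ∃ C : ℝ, ∀ (m : ℕ) (ρ : ℝ) (c : Co m), 0 < ρ → ρ ≤ s2 → en a b m c ≤ R →
    gen a b m c = (2 * ρ) • gw a b w m c → ∑ i : hm m × Bool, (nu a b i.1.1 * c i) ^ 2 ≤ C

/-- Compactness. -/
def V_cpt : Prop := ∀ (a b : ℝ), 0 < a → 0 < b → ∀ (C : ℝ) (M : ℕ → ℕ), Tendsto M atTop atTop →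
  ∀ c : ∀ j, Co (M j), (∀ j, ∑ i : hm (M j) × Bool, (nu a b i.1.1 * c j i) ^ 2 ≤ C) →
    ∃ (s : ℕ → ℕ) (u : ℂ → ℝ), StrictMono s ∧ Continuous u ∧ Per a b u ∧
      ∀ ε : ℝ, 0 < ε → ∀ᶠ j in atTop, ∀ z, |tp a b (M (s j)) (c (s j)) z - u z| ≤ ε

/-- FINAL statement of block V: existence for noncritical parameters. -/
def V_ex : Prop := ∀ (a b : ℝ) (F : ℂ → ℂ), IsTheta a b F → ∀ (m : ℕ) (p : Fin m → ℂ)
  (n : Fin m → ℕ) (k : ℕ) (s1 s2 : ℝ), 8 * π * k < s1 → s1 < s2 → s2 < 8 * π * (k + 1) →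
    ∃ ρ ∈ Icc s1 s2, ∃ (v : ℂ → ℝ) (c : ℝ), IntSol a b F p n ρ v c

end Pool.Agent.Vx

end

section

/-!
# MP_afe918_an, item A: the second moment is much larger than the height outside
-/

set_option autoImplicit false

open Complex Set Filter Topology MeasureTheory Metric
open scoped Real ContDiff ComplexConjugate

namespace Pool.Agent.Vx

namespace ItA

/-- Local integrability of the logarithm of the distance. -/
lemma log_int (z : ℂ) (r : ℝ) :
    IntegrableOn (fun y => Real.log ‖z - y‖) (ball (0 : ℂ) r) := by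
  set ρ : ℝ := |r| + ‖z‖ + 1 with hρ
  have hρ0 : 0 < ρ := by positivity
  have h1 : IntegrableOn (fun y : ℝ => y ^ (Module.finrank ℝ ℂ - 1) •
      (indicator (Iio ρ) Real.log y)) (Ioi 0) := by
    rw [Complex.finrank_real_complex]
    have h2 : IntegrableOn (fun y : ℝ => y * Real.log y) (Ioc 0 ρ) := by
      exact (Real.continuous_mul_log.continuousOn.integrableOn_Icc).mono_set Ioc_subset_Icc_self
    have h3 : IntegrableOn (fun y : ℝ => indicator (Iio ρ) (fun y => y * Real.log y) y)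
        (Ioi 0) := by
      rw [IntegrableOn, integrable_indicator_iff measurableSet_Iio, IntegrableOn,
        Measure.restrict_restrict measurableSet_Iio]
      refine h2.mono_set ?_
      intro y hy
      exact ⟨hy.2, le_of_lt hy.1⟩
    refine h3.congr_fun ?_ measurableSet_Ioi
    intro y hy
    by_cases hy2 : y ∈ Iio ρ
    · simp [indicator_of_mem hy2]
    · simp [indicator_of_notMem hy2]
  have h2 : Integrable (fun y : ℂ => indicator (Iio ρ) Real.log ‖y‖) :=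
    (integrable_fun_norm_addHaar (μ := (volume : Measure ℂ))).2 h1
  have h3 : Integrable (fun y : ℂ => indicator (Iio ρ) Real.log ‖z - y‖) := by
    have := h2.comp_sub_left z
    exact this
  refine (h3.integrableOn (s := ball (0 : ℂ) r)).congr_fun ?_ measurableSet_ball
  intro y hy
  have hy' : ‖y‖ < r := by simpa using hy
  have : ‖z - y‖ ∈ Iio ρ := by
    show ‖z - y‖ < ρ
    have := norm_sub_le z y
    have := le_abs_self r
    linarith
  simp [indicator_of_mem this]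

/-- The integral of `|z|^(-2)` over an annulus. -/
lemma ann (t s : ℝ) (ht : 0 < t) (hts : t < s) :
    (∫ z in {z : ℂ | t ≤ ‖z‖ ∧ ‖z‖ < s}, (‖z‖ ^ 2)⁻¹) = 2 * π * Real.log (s / t) := by
  have hm : MeasurableSet {z : ℂ | t ≤ ‖z‖ ∧ ‖z‖ < s} := by measurability
  rw [← integral_indicator hm]
  have e1 : (fun z : ℂ => indicator {z : ℂ | t ≤ ‖z‖ ∧ ‖z‖ < s} (fun z => (‖z‖ ^ 2)⁻¹) z) =
      fun z : ℂ => (indicator (Ico t s) (fun y : ℝ => (y ^ 2)⁻¹)) ‖z‖ := by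
    funext z
    by_cases hz : t ≤ ‖z‖ ∧ ‖z‖ < s
    · rw [indicator_of_mem (show z ∈ {z : ℂ | t ≤ ‖z‖ ∧ ‖z‖ < s} from hz),
        indicator_of_mem (show ‖z‖ ∈ Ico t s from hz)]
    · rw [indicator_of_notMem (show z ∉ {z : ℂ | t ≤ ‖z‖ ∧ ‖z‖ < s} from hz),
        indicator_of_notMem (show ‖z‖ ∉ Ico t s from hz)]
  rw [e1, integral_fun_norm_addHaar, Complex.finrank_real_complex]
  have e2 : (∫ y in Ioi (0 : ℝ), y ^ (2 - 1) • indicator (Ico t s) (fun y : ℝ => (y ^ 2)⁻¹) y) =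
      Real.log (s / t) := by
    have e3 : (fun y : ℝ => y ^ (2 - 1) • indicator (Ico t s) (fun y : ℝ => (y ^ 2)⁻¹) y) =
        indicator (Ico t s) (fun y : ℝ => y⁻¹) := by
      funext y
      by_cases hy : y ∈ Ico t s
      · rw [indicator_of_mem hy, indicator_of_mem hy]
        have : 0 < y := lt_of_lt_of_le ht hy.1
        simp only [smul_eq_mul, show 2 - 1 = 1 from rfl, pow_one]
        field_simp
      · rw [indicator_of_notMem hy, indicator_of_notMem hy]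
        simp
    rw [e3, setIntegral_indicator measurableSet_Ico]
    have e4 : Ioi (0 : ℝ) ∩ Ico t s = Ico t s := by
      apply inter_eq_right.2
      intro y hy
      exact lt_of_lt_of_le ht hy.1
    rw [e4, integral_Ico_eq_integral_Ioo, ← integral_Ioc_eq_integral_Ioo,
      ← intervalIntegral.integral_of_le hts.le, integral_inv_of_pos ht (ht.trans hts)]
  rw [e2]
  simp [Measure.real, Complex.volume_ball]
  ring

/-- Lower bound of the potential. -/
lemma pot_lb (r t : ℝ) (E : ℂ → ℝ) (hE : Continuous E) (hE0 : ∀ z, 0 ≤ E z) (ht : 0 < t)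
    (htr : t ≤ r) (z : ℂ) (hz : t ≤ ‖z‖) (hzr : ‖z‖ < r) :
    1 / (2 * π) * (-Real.log (2 * ‖z‖) * ms (t / 2) E -
      |Real.log (2 * r)| * (ms r E - ms (t / 2) E)) ≤ pot r E z := by
  have hz0 : 0 < ‖z‖ := ht.trans_le hz
  have hr : 0 < r := ht.trans_le htr
  have hsub : ball (0 : ℂ) (t / 2) ⊆ ball (0 : ℂ) r := ball_subset_ball (by linarith)
  have hEi : IntegrableOn E (ball (0 : ℂ) r) :=
    (hE.continuousOn.integrableOn_compact (isCompact_closedBall (0 : ℂ) r)).mono_set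
      ball_subset_closedBall
  have hEi2 : IntegrableOn E (ball (0 : ℂ) (t / 2)) := hEi.mono_set hsub
  have hli : IntegrableOn (fun y => Real.log ‖z - y‖ * E y) (ball (0 : ℂ) r) := by
    have hb : ∃ C, ∀ y ∈ closedBall (0 : ℂ) r, ‖E y‖ ≤ C :=
      (isCompact_closedBall (0 : ℂ) r).exists_bound_of_continuousOn hE.continuousOn
    obtain ⟨C, hC⟩ := hb
    refine Integrable.mul_bdd (c := C) (log_int z r) hE.aestronglyMeasurable ?_
    rw [ae_restrict_iff' measurableSet_ball]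
    exact Eventually.of_forall fun y hy => hC y (ball_subset_closedBall hy)
  have key : (∫ y in ball (0 : ℂ) r, Real.log ‖z - y‖ * E y) ≤
      ∫ y in ball (0 : ℂ) r, (Real.log (2 * ‖z‖) * indicator (ball (0 : ℂ) (t / 2)) E y +
        |Real.log (2 * r)| * (E y - indicator (ball (0 : ℂ) (t / 2)) E y)) := by
    have hind : IntegrableOn (indicator (ball (0 : ℂ) (t / 2)) E) (ball (0 : ℂ) r) :=
      hEi.indicator measurableSet_ball
    refine setIntegral_mono_on hli ((hind.const_mul _).add ((hEi.sub hind).const_mul _))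
      measurableSet_ball ?_
    intro y hy
    have hy' : ‖y‖ < r := by simpa using hy
    by_cases hyt : y ∈ ball (0 : ℂ) (t / 2)
    · rw [indicator_of_mem hyt, sub_self, mul_zero, add_zero]
      refine mul_le_mul_of_nonneg_right ?_ (hE0 y)
      have hyt' : ‖y‖ < t / 2 := by simpa using hyt
      have h1 : 0 < ‖z - y‖ := by
        have := norm_sub_norm_le z y
        linarith
      apply Real.log_le_log h1
      have := norm_sub_le z y
      linarith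
    · rw [indicator_of_notMem hyt, mul_zero, zero_add, sub_zero]
      refine mul_le_mul_of_nonneg_right ?_ (hE0 y)
      rcases eq_or_lt_of_le (norm_nonneg (z - y)) with h0 | h0
      · rw [← h0, Real.log_zero]
        positivity
      · refine (Real.log_le_log h0 ?_).trans (le_abs_self _)
        have := norm_sub_le z y
        linarith
  have key2 : (∫ y in ball (0 : ℂ) r, (Real.log (2 * ‖z‖) * indicator (ball (0 : ℂ) (t / 2)) E y +
        |Real.log (2 * r)| * (E y - indicator (ball (0 : ℂ) (t / 2)) E y))) =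
      Real.log (2 * ‖z‖) * ms (t / 2) E + |Real.log (2 * r)| * (ms r E - ms (t / 2) E) := by
    have hind : IntegrableOn (indicator (ball (0 : ℂ) (t / 2)) E) (ball (0 : ℂ) r) :=
      hEi.indicator measurableSet_ball
    have e : (∫ y in ball (0 : ℂ) r, indicator (ball (0 : ℂ) (t / 2)) E y) = ms (t / 2) E := by
      rw [setIntegral_indicator measurableSet_ball, inter_eq_right.2 hsub]
      rfl
    have hsb : IntegrableOn (fun y => E y - indicator (ball (0 : ℂ) (t / 2)) E y)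
        (ball (0 : ℂ) r) := hEi.sub hind
    rw [integral_add (hind.const_mul _) (hsb.const_mul _), integral_const_mul,
      integral_const_mul, integral_sub hEi hind, e]
    rfl
  rw [key2] at key
  have hp : 0 < 1 / (2 * π) := by positivity
  unfold pot
  nlinarith [mul_le_mul_of_nonneg_left key hp.le]

/-- Pointwise lower bound. -/
lemma lb (r : ℝ) (n : ℕ) (lam : ℝ) (h : ℂ → ℂ) (E : ℂ → ℝ) (H Λ t ε δ : ℝ) (hL : Loc r n lam h E)
    (hH : ∀ z ∈ ball (0 : ℂ) r, ‖deriv h z‖ ≤ H) (hΛ : lam ≤ Λ) (hH0 : 0 ≤ H) (hΛ0 : 0 ≤ Λ)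
    (ht : 0 < t) (htr : t ≤ r) (hε : 8 * π * (1 + n) - ε ≤ ms (t / 2) E)
    (hδ : ms r E - ms (t / 2) E ≤ δ) (hε0 : 0 ≤ ε)
    (hs : ε * |Real.log (2 * t)| + δ * |Real.log (2 * r)| ≤ 2 * π)
    (z : ℂ) (hz : t ≤ ‖z‖) (hz4 : ‖z‖ ≤ 1 / 4) (hzr : ‖z‖ < r) :
    Real.exp (-(2 * H + Λ + 1)) / 2 ^ (4 * (1 + n)) * et h ≤ E z * ‖z‖ ^ 4 := by
  have hz0 : 0 < ‖z‖ := ht.trans_le hz
  have hr : 0 < r := ht.trans_le htr
  have hzb : z ∈ ball (0 : ℂ) r := by simpa using hzr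
  have h0b : (0 : ℂ) ∈ ball (0 : ℂ) r := by simpa using hr
  have hp := pot_lb r t E hL.cont hL.nonneg ht htr z hz hzr
  -- the holomorphic part
  have hh : (h 0).re - H * ‖z‖ ≤ (h z).re := by
    have h1 : ‖h z - h 0‖ ≤ H * ‖z - 0‖ := by
      refine Convex.norm_image_sub_le_of_norm_deriv_le (s := ball (0 : ℂ) r) ?_ hH
        (convex_ball 0 r) h0b hzb
      intro x hx
      exact (hL.an x hx).differentiableAt (isOpen_ball.mem_nhds hx)
    rw [sub_zero] at h1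
    have h2 := (abs_le.1 ((Complex.abs_re_le_norm (h z - h 0)).trans h1)).1
    rw [Complex.sub_re] at h2
    linarith
  -- the logarithms
  have hlog0 : Real.log (2 * ‖z‖) ≤ 0 := Real.log_nonpos (by positivity) (by linarith)
  have hlogt : -Real.log (2 * ‖z‖) ≤ |Real.log (2 * t)| := by
    have : Real.log (2 * t) ≤ Real.log (2 * ‖z‖) := Real.log_le_log (by positivity) (by linarith)
    have := neg_abs_le (Real.log (2 * t))
    linarith
  have hp2 : -(4 * (1 + n)) * Real.log (2 * ‖z‖) - 1 ≤ pot r E z := by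
    refine le_trans ?_ hp
    have e1 : -Real.log (2 * ‖z‖) * (8 * π * (1 + n) - ε) ≤
        -Real.log (2 * ‖z‖) * ms (t / 2) E :=
      mul_le_mul_of_nonneg_left hε (by linarith)
    have e2 : |Real.log (2 * r)| * (ms r E - ms (t / 2) E) ≤ |Real.log (2 * r)| * δ :=
      mul_le_mul_of_nonneg_left hδ (abs_nonneg _)
    have e3 : -Real.log (2 * ‖z‖) * ε ≤ |Real.log (2 * t)| * ε :=
      mul_le_mul_of_nonneg_right hlogt hε0
    have e4 : 2 * π * (-(4 * (1 + n)) * Real.log (2 * ‖z‖) - 1) ≤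
        -Real.log (2 * ‖z‖) * ms (t / 2) E -
          |Real.log (2 * r)| * (ms r E - ms (t / 2) E) := by nlinarith
    have hpi : 0 < 2 * π := by positivity
    rw [one_div, ← div_eq_inv_mul, le_div_iff₀ hpi]
    linarith
  rw [hL.rep z hzb]
  have hz2 : ‖z‖ ^ 2 ≤ 1 := by nlinarith
  have hexp : 2 * (h 0).re + -(2 * H + Λ + 1) + -(4 * (1 + n)) * Real.log (2 * ‖z‖) ≤
      2 * (h z).re - lam / 4 * ‖z‖ ^ 2 + pot r E z := by
    have e1 : H * ‖z‖ ≤ H := by nlinarith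
    have e2 : lam / 4 * ‖z‖ ^ 2 ≤ Λ := by
      have : lam / 4 * ‖z‖ ^ 2 ≤ lam / 4 * 1 :=
        mul_le_mul_of_nonneg_left hz2 (by linarith [hL.lam0])
      linarith
    linarith
  have hexp2 := Real.exp_le_exp.2 hexp
  rw [Real.exp_add, Real.exp_add] at hexp2
  have hpw : Real.exp (-(4 * (1 + n)) * Real.log (2 * ‖z‖)) =
      ((2 * ‖z‖) ^ (4 * (1 + n)))⁻¹ := by
    rw [← Real.exp_log (show 0 < ((2 * ‖z‖) ^ (4 * (1 + n)))⁻¹ by positivity), Real.log_inv,
      Real.log_pow]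
    congr 1
    push_cast
    ring
  rw [hpw] at hexp2
  have hfin : Real.exp (-(2 * H + Λ + 1)) / 2 ^ (4 * (1 + n)) * et h ≤
      ‖z‖ ^ (2 * n) * (Real.exp (2 * (h 0).re) * Real.exp (-(2 * H + Λ + 1)) *
        ((2 * ‖z‖) ^ (4 * (1 + n)))⁻¹) * ‖z‖ ^ 4 := by
    have e : ‖z‖ ^ (2 * n) * (Real.exp (2 * (h 0).re) * Real.exp (-(2 * H + Λ + 1)) *
        ((2 * ‖z‖) ^ (4 * (1 + n)))⁻¹) * ‖z‖ ^ 4 =
        Real.exp (-(2 * H + Λ + 1)) / 2 ^ (4 * (1 + n)) * et h * (‖z‖ ^ (2 * n))⁻¹ := by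
      rw [mul_pow, et, show 4 * (1 + n) = 2 * n + 2 * n + 4 by ring, pow_add ‖z‖, pow_add ‖z‖]
      field_simp
    rw [e]
    refine le_mul_of_one_le_right (by unfold et; positivity) ?_
    exact (one_le_inv₀ (by positivity)).2 (pow_le_one₀ (norm_nonneg _) (by linarith))
  refine hfin.trans ?_
  refine mul_le_mul_of_nonneg_right ?_ (by positivity)
  exact mul_le_mul_of_nonneg_left hexp2 (by positivity)

end ItA

/-- L20: the second moment is much larger than the height outside. -/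
theorem pr_A : S_A := by
  intro r n H₀ Λ₀ lam h E hB b hb s hs hsr
  have hr : 0 < r := (hB.loc 0).rpos
  set H : ℝ := max H₀ 0 with hHdef
  set Λ : ℝ := max Λ₀ 0 with hΛdef
  have hH0 : 0 ≤ H := le_max_right _ _
  have hΛ0 : 0 ≤ Λ := le_max_right _ _
  set c1 : ℝ := Real.exp (-(2 * H + Λ + 1)) / 2 ^ (4 * (1 + n)) with hc1
  have hc1pos : 0 < c1 := by positivity
  rw [Filter.tendsto_atTop]
  intro K
  set s' : ℝ := min s (1 / 4) with hs'
  have hs'pos : 0 < s' := by positivity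
  have hs's : s' ≤ s := min_le_left _ _
  have hs'4 : s' ≤ 1 / 4 := min_le_right _ _
  set X : ℝ := |K| * 4 / (c1 * (2 * π)) + 1 with hX
  have hXpos : 0 < X := by positivity
  set t : ℝ := s' * Real.exp (-X) with htdef
  have ht : 0 < t := by positivity
  have hts : t < s' := by
    have : Real.exp (-X) < 1 := by
      rw [← Real.exp_zero]
      exact Real.exp_lt_exp.2 (by linarith)
    nlinarith
  have htr : t ≤ r := by linarith
  have hlog : Real.log (s' / t) = X := by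
    rw [htdef, Real.exp_neg]
    field_simp
    rw [Real.log_exp]
  obtain ⟨C, hC⟩ := hB.out (t / 2) (by positivity)
  have hetpos : ∀ j, 0 < et (h j) := fun j => Real.exp_pos _
  -- the mass outside the ball of radius t/2
  have hEi : ∀ j, IntegrableOn (E j) (ball (0 : ℂ) r) := fun j =>
    ((hB.loc j).cont.continuousOn.integrableOn_compact (isCompact_closedBall (0 : ℂ) r)).mono_set
      ball_subset_closedBall
  have hsub : ball (0 : ℂ) (t / 2) ⊆ ball (0 : ℂ) r := ball_subset_ball (by linarith)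
  set V : ℝ := volume.real (ball (0 : ℂ) r \ ball 0 (t / 2)) with hV
  have hdm : ∀ j, ms r (E j) - ms (t / 2) (E j) ≤ |C| * V * et (h j) := by
    intro j
    have e1 : ms r (E j) - ms (t / 2) (E j) = ∫ z in ball (0 : ℂ) r \ ball 0 (t / 2), E j z := by
      unfold ms
      rw [setIntegral_sdiff measurableSet_ball (hEi j) hsub]
    rw [e1]
    have hfin : volume (ball (0 : ℂ) r \ ball 0 (t / 2)) ≠ ⊤ :=
      ne_top_of_le_ne_top measure_ball_lt_top.ne (measure_mono sdiff_subset)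
    calc (∫ z in ball (0 : ℂ) r \ ball 0 (t / 2), E j z) ≤
        ∫ _z in ball (0 : ℂ) r \ ball 0 (t / 2), |C| * et (h j) := by
          refine setIntegral_mono_on ((hEi j).mono_set sdiff_subset)
            (integrableOn_const hfin) (measurableSet_ball.diff measurableSet_ball) ?_
          intro z hz
          have hz2 : t / 2 ≤ ‖z‖ := by
            have := hz.2
            simpa using this
          refine (hC j z hz.1 hz2).trans ?_
          exact mul_le_mul_of_nonneg_right (le_abs_self C) (hetpos j).le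
      _ = |C| * V * et (h j) := by
          rw [setIntegral_const, smul_eq_mul]
          ring
  -- eventually everything is close
  have hsm : Tendsto (fun j => |C| * V * et (h j)) atTop (𝓝 0) := by
    simpa using hB.small.const_mul (|C| * V)
  set M : ℝ := |Real.log (2 * t)| + |Real.log (2 * r)| + 1 with hM
  have hMpos : 0 < M := by positivity
  have hM1 : 0 < 1 / M := by positivity
  have ev1 : ∀ᶠ j in atTop, |C| * V * et (h j) < 1 / M := hsm.eventually_lt_const hM1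
  have ev2 : ∀ᶠ j in atTop, 8 * π * (1 + n) - 1 / M < ms r (E j) :=
    hB.mass.eventually_const_lt (by linarith)
  have ev3 : ∀ᶠ j in atTop, ‖b j‖ < t / 2 := by
    have := (hb.norm).eventually_lt_const (u := t / 2) (by simpa using ht)
    exact this
  filter_upwards [ev1, ev2, ev3] with j h1 h2 h3
  -- the pointwise bound
  have hpt : ∀ z : ℂ, t ≤ ‖z‖ → ‖z‖ < s' → c1 * et (h j) ≤ E j z * ‖z‖ ^ 4 := by
    intro z hz1 hz2
    refine ItA.lb r n (lam j) (h j) (E j) H Λ t (2 / M) (1 / M) (hB.loc j) ?_ ?_ hH0 hΛ0 ht htr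
      ?_ ?_ (by positivity) ?_ z hz1 (by linarith) (by linarith)
    · intro z hz
      exact (hB.hH j z hz).trans (le_max_left _ _)
    · exact (hB.lamb j).trans (le_max_left _ _)
    · have := hdm j
      have e : 2 / M = 1 / M + 1 / M := by ring
      linarith
    · exact (hdm j).trans h1.le
    · have e1 : 2 / M * |Real.log (2 * t)| + 1 / M * |Real.log (2 * r)| ≤ 2 / M * M := by
        have : 2 / M * M = 2 / M * |Real.log (2 * t)| + 2 / M * |Real.log (2 * r)| + 2 / M := by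
          rw [hM]; ring
        rw [this]
        have e3 : 0 ≤ 1 / M * |Real.log (2 * r)| := by positivity
        have e4 : 2 / M * |Real.log (2 * r)| = 1 / M * |Real.log (2 * r)| +
          1 / M * |Real.log (2 * r)| := by ring
        have e5 : 0 ≤ 2 / M := by positivity
        linarith
      rw [div_mul_cancel₀ _ hMpos.ne'] at e1
      have := Real.pi_gt_three
      linarith
  rw [le_div_iff₀ (hetpos j)]
  -- the integral
  set S : Set ℂ := {z : ℂ | t ≤ ‖z‖ ∧ ‖z‖ < s'} with hS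
  have hSm : MeasurableSet S := by
    rw [hS]
    measurability
  have hSs : S ⊆ ball (0 : ℂ) s := by
    intro z hz
    have := hz.2
    simp only [mem_ball, dist_zero_right]
    linarith
  have hgc : Continuous fun z : ℂ => ‖z - b j‖ ^ 2 * E j z := by
    have := (hB.loc j).cont
    fun_prop
  have hgi : IntegrableOn (fun z : ℂ => ‖z - b j‖ ^ 2 * E j z) (ball (0 : ℂ) s) :=
    (hgc.continuousOn.integrableOn_compact (isCompact_closedBall (0 : ℂ) s)).mono_set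
      ball_subset_closedBall
  have hi2 : IntegrableOn (fun z : ℂ => c1 / 4 * et (h j) * (‖z‖ ^ 2)⁻¹) S := by
    refine IntegrableOn.mono_set (t := closedBall (0 : ℂ) s' \ ball 0 t) ?_ ?_
    · refine ContinuousOn.integrableOn_compact
        ((isCompact_closedBall (0 : ℂ) s').diff isOpen_ball) ?_
      refine continuousOn_const.mul (ContinuousOn.inv₀ (by fun_prop) ?_)
      intro z hz
      have : t ≤ ‖z‖ := by simpa using hz.2
      have : 0 < ‖z‖ := ht.trans_le this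
      positivity
    · intro z hz
      refine ⟨by simpa using hz.2.le, ?_⟩
      simpa using hz.1
  have hstep : c1 / 4 * et (h j) * (2 * π * X) ≤
      ∫ z in ball (0 : ℂ) s, ‖z - b j‖ ^ 2 * E j z := by
    rw [← hlog, ← ItA.ann t s' ht hts, ← integral_const_mul]
    refine le_trans ?_ (setIntegral_mono_set hgi ?_ hSs.eventuallyLE)
    · refine setIntegral_mono_on hi2 (hgi.mono_set hSs) hSm ?_
      intro z hz
      have hz0 : 0 < ‖z‖ := ht.trans_le hz.1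
      have hb2 : ‖z‖ / 2 ≤ ‖z - b j‖ := by
        have := norm_sub_norm_le z (b j)
        have := hz.1
        linarith
      have hb3 : (‖z‖ / 2) ^ 2 ≤ ‖z - b j‖ ^ 2 := pow_le_pow_left₀ (by positivity) hb2 2
      have hE0 := (hB.loc j).nonneg z
      have hk := hpt z hz.1 hz.2
      calc c1 / 4 * et (h j) * (‖z‖ ^ 2)⁻¹ = c1 * et (h j) * (4 * ‖z‖ ^ 2)⁻¹ := by
            field_simp
        _ ≤ E j z * ‖z‖ ^ 4 * (4 * ‖z‖ ^ 2)⁻¹ :=
            mul_le_mul_of_nonneg_right hk (by positivity)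
        _ = (‖z‖ / 2) ^ 2 * E j z := by
            field_simp
            try ring
        _ ≤ ‖z - b j‖ ^ 2 * E j z := mul_le_mul_of_nonneg_right hb3 hE0
    · refine Eventually.of_forall fun z => ?_
      have hE0 := (hB.loc j).nonneg z
      simp only [Pi.zero_apply]
      positivity
  refine le_trans ?_ hstep
  have hK : K ≤ c1 / 4 * (2 * π * X) := by
    have e : c1 / 4 * (2 * π * X) = |K| + c1 / 4 * (2 * π) := by
      rw [hX]
      field_simp
    rw [e]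
    have := le_abs_self K
    have e2 : 0 ≤ c1 / 4 * (2 * π) := by positivity
    linarith
  calc K * et (h j) ≤ c1 / 4 * (2 * π * X) * et (h j) :=
        mul_le_mul_of_nonneg_right hK (hetpos j).le
    _ = c1 / 4 * et (h j) * (2 * π * X) := by ring

end Pool.Agent.Vx

end

section

/-! Item BUf: basic facts on blow-up sequences. -/

set_option autoImplicit false

open Complex Set Filter Topology MeasureTheory Metric
open scoped Real ContDiff ComplexConjugate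

namespace Pool.Agent.Vx

lemma BUf_int {E : ℂ → ℝ} (hE : Continuous E) (c : ℂ) (s : ℝ) : IntegrableOn E (ball c s) :=
  (hE.continuousOn.integrableOn_compact (isCompact_closedBall c s)).mono_set
    ball_subset_closedBall

lemma BUf_etpos (h : ℂ → ℂ) : 0 < et h := Real.exp_pos _

lemma BUf_ms_nonneg {E : ℂ → ℝ} (h0 : ∀ z, 0 ≤ E z) (s : ℝ) : 0 ≤ ms s E :=
  setIntegral_nonneg measurableSet_ball fun z _ => h0 z

lemma BUf_ms_mono {E : ℂ → ℝ} (hE : Continuous E) (h0 : ∀ z, 0 ≤ E z) {s r : ℝ} (hsr : s ≤ r) :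
    ms s E ≤ ms r E :=
  setIntegral_mono_set (BUf_int hE 0 r) (Eventually.of_forall h0)
    (LE.le.eventuallyLE (ball_subset_ball hsr))

/-- integral of a constant over a ball -/
lemma BUf_const (s K : ℝ) : ∫ _z in ball (0 : ℂ) s, K = (volume (ball (0 : ℂ) s)).toReal * K := by
  rw [setIntegral_const, smul_eq_mul]; rfl

lemma BUf_lin {f : ℂ → ℝ} (hf : Continuous f) (s a K : ℝ) :
    ∫ z in ball (0 : ℂ) s, (a * f z + K) =
      a * (∫ z in ball (0 : ℂ) s, f z) + (volume (ball (0 : ℂ) s)).toReal * K := by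
  have h1 : Integrable (fun z => a * f z) (volume.restrict (ball (0 : ℂ) s)) :=
    BUf_int (continuous_const.mul hf) 0 s
  have h2 : Integrable (fun _ : ℂ => K) (volume.restrict (ball (0 : ℂ) s)) :=
    BUf_int continuous_const 0 s
  rw [integral_add h1 h2, integral_const_mul, BUf_const]

lemma BUf_out {r : ℝ} {n : ℕ} {H Λ : ℝ} {lam : ℕ → ℝ} {h : ℕ → ℂ → ℂ} {E : ℕ → ℂ → ℝ}
    (hB : BU r n H Λ lam h E) (ε : ℝ) (hε : 0 < ε) :
    ∃ C, 0 ≤ C ∧ ∀ j, ∀ z ∈ ball (0 : ℂ) r, ε ≤ ‖z‖ → E j z ≤ C * et (h j) := by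
  obtain ⟨C, hC⟩ := hB.out ε hε
  refine ⟨max C 0, le_max_right _ _, fun j z hz hz' => (hC j z hz hz').trans ?_⟩
  exact mul_le_mul_of_nonneg_right (le_max_left _ _) (BUf_etpos _).le

/-- integrals with a small weight -/
lemma BUf_weight {r : ℝ} {n : ℕ} {H Λ : ℝ} {lam : ℕ → ℝ} {h : ℕ → ℂ → ℂ} {E : ℕ → ℂ → ℝ}
    (hB : BU r n H Λ lam h E) {s : ℝ} (hsr : s ≤ r) (w : ℕ → ℂ → ℝ)
    (hwc : ∀ j, Continuous (w j)) (hw0 : ∀ j z, 0 ≤ w j z) (W : ℝ)
    (hW : ∀ᶠ j in atTop, ∀ z ∈ ball (0 : ℂ) s, w j z ≤ W)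
    (hw : ∀ δ : ℝ, 0 < δ → ∃ ε : ℝ, 0 < ε ∧ ∀ᶠ j in atTop, ∀ z ∈ ball (0 : ℂ) ε, w j z ≤ δ) :
    Tendsto (fun j => ∫ z in ball (0 : ℂ) s, w j z * E j z) atTop (𝓝 0) := by
  have hr : 0 < r := (hB.loc 0).rpos
  set M : ℝ := 8 * π * (1 + n) + 1 with hM
  have hMpos : 0 < M := by positivity
  rw [Metric.tendsto_atTop]
  intro ρ hρ
  obtain ⟨ε, hε, hwε⟩ := hw (ρ / (2 * M)) (by positivity)
  obtain ⟨C, hC0, hC⟩ := BUf_out hB ε hε
  have hlim : Tendsto (fun j => (volume (ball (0 : ℂ) s)).toReal * (max W 0 * (C * et (h j))))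
      atTop (𝓝 0) := by
    have := ((hB.small.const_mul C).const_mul (max W 0)).const_mul
      (volume (ball (0 : ℂ) s)).toReal
    simpa using this
  have hmass : ∀ᶠ j in atTop, ms r (E j) < M :=
    hB.mass.eventually_lt_const (by rw [hM]; linarith)
  have hlim' := hlim.eventually_lt_const (show (0 : ℝ) < ρ / 2 by linarith)
  obtain ⟨N, hN⟩ := (hwε.and (hW.and (hmass.and hlim'))).exists_forall_of_atTop
  refine ⟨N, fun j hj => ?_⟩
  obtain ⟨h1, h2, h3, h4⟩ := hN j hj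
  have hEc := (hB.loc j).cont
  have hE0 := (hB.loc j).nonneg
  have hnn : 0 ≤ ∫ z in ball (0 : ℂ) s, w j z * E j z :=
    setIntegral_nonneg measurableSet_ball fun z _ => mul_nonneg (hw0 j z) (hE0 z)
  have hle : ∫ z in ball (0 : ℂ) s, w j z * E j z ≤
      ∫ z in ball (0 : ℂ) s, (ρ / (2 * M) * E j z + max W 0 * (C * et (h j))) := by
    refine setIntegral_mono_on (BUf_int ((hwc j).mul hEc) 0 s)
      (BUf_int ((continuous_const.mul hEc).add continuous_const) 0 s) measurableSet_ball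
      fun z hz => ?_
    have hCe : 0 ≤ max W 0 * (C * et (h j)) :=
      mul_nonneg (le_max_right _ _) (mul_nonneg hC0 (BUf_etpos _).le)
    by_cases hzε : ‖z‖ < ε
    · have := mul_le_mul_of_nonneg_right (h1 z (by simpa using hzε)) (hE0 z)
      linarith
    · have hz' := hC j z (ball_subset_ball hsr hz) (not_lt.1 hzε)
      have h5 : w j z * E j z ≤ max W 0 * (C * et (h j)) :=
        mul_le_mul ((h2 z hz).trans (le_max_left _ _)) hz' (hE0 z) (le_max_right _ _)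
      have h6 : 0 ≤ ρ / (2 * M) * E j z := mul_nonneg (by positivity) (hE0 z)
      linarith
  have heq : ∫ z in ball (0 : ℂ) s, (ρ / (2 * M) * E j z + max W 0 * (C * et (h j))) =
      ρ / (2 * M) * ms s (E j) + (volume (ball (0 : ℂ) s)).toReal * (max W 0 * (C * et (h j))) := by
    exact BUf_lin hEc s _ _
  have hms : ms s (E j) < M := (BUf_ms_mono hEc hE0 hsr).trans_lt h3
  have h7 : ρ / (2 * M) * ms s (E j) ≤ ρ / 2 := by
    calc ρ / (2 * M) * ms s (E j) ≤ ρ / (2 * M) * M :=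
          mul_le_mul_of_nonneg_left hms.le (by positivity)
      _ = ρ / 2 := by field_simp
  rw [Real.dist_eq, sub_zero, abs_of_nonneg hnn]
  linarith

theorem pr_BUf (h1 : S_A) : S_BUf := by
  intro r n H Λ lam h E hB b hb s hs hsr
  have hr : 0 < r := (hB.loc 0).rpos
  have hEc := fun j => (hB.loc j).cont
  have hE0 := fun j => (hB.loc j).nonneg
  have hbev : ∀ ε : ℝ, 0 < ε → ∀ᶠ j in atTop, ‖b j‖ < ε := by
    intro ε hε
    have := hb.norm
    rw [norm_zero] at this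
    exact this.eventually_lt_const hε
  have hdiff : ∃ C, ∀ j, ms r (E j) - ms s (E j) ≤ C * et (h j) := by
    obtain ⟨C, hC0, hC⟩ := BUf_out hB s hs
    refine ⟨(volume (ball (0 : ℂ) r)).toReal * C, fun j => ?_⟩
    have h2 : ms r (E j) - ms s (E j) = ∫ z in ball (0 : ℂ) r \ ball 0 s, E j z := by
      have := setIntegral_sdiff (μ := volume) (f := E j) (measurableSet_ball (x := (0 : ℂ)) (ε := s))
        (BUf_int (hEc j) 0 r) (ball_subset_ball hsr.le)
      rw [this]; rfl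
    rw [h2]
    have h3 : ∫ z in ball (0 : ℂ) r \ ball 0 s, E j z ≤
        ∫ z in ball (0 : ℂ) r \ ball 0 s, C * et (h j) := by
      refine setIntegral_mono_on ((BUf_int (hEc j) 0 r).mono_set sdiff_subset)
        ((BUf_int continuous_const 0 r).mono_set sdiff_subset)
        (measurableSet_ball.diff measurableSet_ball) fun z hz => ?_
      exact hC j z hz.1 (by simpa using hz.2)
    have h4 : ∫ z in ball (0 : ℂ) r \ ball 0 s, C * et (h j) ≤
        ∫ z in ball (0 : ℂ) r, C * et (h j) :=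
      setIntegral_mono_set (BUf_int continuous_const 0 r)
        (Eventually.of_forall fun _ => mul_nonneg hC0 (BUf_etpos _).le)
        (LE.le.eventuallyLE sdiff_subset)
    rw [BUf_const] at h4
    linarith [h3, h4]
  have hms : Tendsto (fun j => ms s (E j)) atTop (𝓝 (8 * π * (1 + n))) := by
    obtain ⟨C, hC⟩ := hdiff
    have h2 : Tendsto (fun j => ms r (E j) - ms s (E j)) atTop (𝓝 0) := by
      refine squeeze_zero (fun j => sub_nonneg.2 (BUf_ms_mono (hEc j) (hE0 j) hsr.le)) hC ?_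
      simpa using hB.small.const_mul C
    have h3 := hB.mass.sub h2
    simpa using h3
  have h2s : ∀ᶠ j in atTop, ∀ z ∈ ball (0 : ℂ) s, ‖z - b j‖ ≤ 2 * s := by
    filter_upwards [hbev s hs] with j hj z hz
    have hz' : ‖z‖ < s := by simpa using hz
    linarith [norm_sub_le z (b j)]
  refine ⟨hms, hdiff, ?_, ?_, ?_⟩
  · refine BUf_weight hB hsr.le (fun _ z => ‖z‖) (fun _ => continuous_norm)
      (fun _ z => norm_nonneg z) s (Eventually.of_forall fun _ z hz => ?_) fun δ hδ =>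
      ⟨δ, hδ, Eventually.of_forall fun _ z hz => ?_⟩
    · have : ‖z‖ < s := by simpa using hz
      exact this.le
    · have : ‖z‖ < δ := by simpa using hz
      exact this.le
  · refine BUf_weight hB hsr.le (fun j z => ‖z - b j‖ ^ 2) (fun j => by fun_prop)
      (fun _ z => by positivity) ((2 * s) ^ 2) ?_ fun δ hδ => ⟨min 1 δ / 2, by positivity, ?_⟩
    · filter_upwards [h2s] with j hj z hz
      exact pow_le_pow_left₀ (norm_nonneg _) (hj z hz) 2
    · filter_upwards [hbev (min 1 δ / 2) (by positivity)] with j hj z hz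
      have hz' : ‖z‖ < min 1 δ / 2 := by simpa using hz
      have h3 : ‖z - b j‖ ≤ min 1 δ := by linarith [norm_sub_le z (b j)]
      have h4 : ‖z - b j‖ ≤ 1 := h3.trans (min_le_left _ _)
      have h5 : ‖z - b j‖ ≤ δ := h3.trans (min_le_right _ _)
      nlinarith [norm_nonneg (z - b j)]
  · have hA := h1 r n H Λ lam h E hB b hb s hs hsr.le
    set A : ℕ → ℝ := fun j => ∫ z in ball (0 : ℂ) s, ‖z - b j‖ ^ 2 * E j z with hAdef
    set N : ℕ → ℝ := fun j => ∫ z in ball (0 : ℂ) s, ‖z - b j‖ ^ 3 * E j z with hNdef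
    have hA0 : ∀ j, 0 ≤ A j := fun j =>
      setIntegral_nonneg measurableSet_ball fun z _ => mul_nonneg (by positivity) (hE0 j z)
    have hN0 : ∀ j, 0 ≤ N j := fun j =>
      setIntegral_nonneg measurableSet_ball fun z _ => mul_nonneg (by positivity) (hE0 j z)
    have hApos : ∀ᶠ j in atTop, 0 < A j := by
      filter_upwards [hA.eventually_gt_atTop 0] with j hj
      by_contra hneg
      change 0 < A j / et (h j) at hj
      have : A j = 0 := le_antisymm (not_lt.1 hneg) (hA0 j)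
      rw [this] at hj
      simp at hj
    have hinv : Tendsto (fun j => et (h j) / A j) atTop (𝓝 0) := by
      have := hA.inv_tendsto_atTop
      refine this.congr fun j => ?_
      simp only [Pi.inv_apply]
      rw [inv_div]
    change Tendsto (fun j => N j / A j) atTop (𝓝 0)
    rw [Metric.tendsto_atTop]
    intro ρ hρ
    obtain ⟨C, hC0, hC⟩ := BUf_out hB (ρ / 6) (by positivity)
    set V := (volume (ball (0 : ℂ) s)).toReal with hV
    have hlim : Tendsto (fun j => V * ((2 * s) ^ 3 * C) * (et (h j) / A j)) atTop (𝓝 0) := by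
      simpa using hinv.const_mul (V * ((2 * s) ^ 3 * C))
    have hlim' := hlim.eventually_lt_const (show (0 : ℝ) < ρ / 2 by linarith)
    obtain ⟨N0, hN0'⟩ := (h2s.and ((hbev (ρ / 6) (by positivity)).and
      (hApos.and hlim'))).exists_forall_of_atTop
    refine ⟨N0, fun j hj => ?_⟩
    obtain ⟨g1, g2, g3, g4⟩ := hN0' j hj
    have hle : N j ≤ ∫ z in ball (0 : ℂ) s,
        (ρ / 3 * (‖z - b j‖ ^ 2 * E j z) + (2 * s) ^ 3 * (C * et (h j))) := by
      refine setIntegral_mono_on (BUf_int (by have := hEc j; fun_prop) 0 s)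
        (BUf_int (by have := hEc j; fun_prop) 0 s) measurableSet_ball fun z hz => ?_
      have hK : 0 ≤ (2 * s) ^ 3 * (C * et (h j)) :=
        mul_nonneg (by positivity) (mul_nonneg hC0 (BUf_etpos _).le)
      by_cases hzε : ‖z‖ < ρ / 6
      · have h3 : ‖z - b j‖ ≤ ρ / 3 := by linarith [norm_sub_le z (b j)]
        have h4 : ‖z - b j‖ ^ 3 * E j z ≤ ρ / 3 * (‖z - b j‖ ^ 2 * E j z) := by
          have h5 : 0 ≤ ‖z - b j‖ ^ 2 * E j z := mul_nonneg (by positivity) (hE0 j z)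
          calc ‖z - b j‖ ^ 3 * E j z = ‖z - b j‖ * (‖z - b j‖ ^ 2 * E j z) := by ring
            _ ≤ ρ / 3 * (‖z - b j‖ ^ 2 * E j z) := mul_le_mul_of_nonneg_right h3 h5
        linarith
      · have h3 := hC j z (ball_subset_ball hsr.le hz) (not_lt.1 hzε)
        have h4 : ‖z - b j‖ ^ 3 * E j z ≤ (2 * s) ^ 3 * (C * et (h j)) :=
          mul_le_mul (pow_le_pow_left₀ (norm_nonneg _) (g1 z hz) 3) h3 (hE0 j z) (by positivity)
        have h5 : 0 ≤ ρ / 3 * (‖z - b j‖ ^ 2 * E j z) :=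
          mul_nonneg (by positivity) (mul_nonneg (by positivity) (hE0 j z))
        linarith
    have heq : ∫ z in ball (0 : ℂ) s,
        (ρ / 3 * (‖z - b j‖ ^ 2 * E j z) + (2 * s) ^ 3 * (C * et (h j))) =
        ρ / 3 * A j + V * ((2 * s) ^ 3 * (C * et (h j))) := by
      exact BUf_lin (f := fun z => ‖z - b j‖ ^ 2 * E j z) (by have := hEc j; fun_prop) s _ _
    rw [heq] at hle
    rw [Real.dist_eq, sub_zero, abs_of_nonneg (div_nonneg (hN0 j) g3.le), div_lt_iff₀ g3]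
    have h6 : V * ((2 * s) ^ 3 * (C * et (h j))) =
        V * ((2 * s) ^ 3 * C) * (et (h j) / A j) * A j := by
      field_simp
    have h7 := mul_lt_mul_of_pos_right g4 g3
    rw [← h6] at h7
    nlinarith
end Pool.Agent.Vx

end

section

/-! MP_afe918_an, item Cut: cut-off functions. -/

set_option autoImplicit false

open Complex Set Filter Topology MeasureTheory Metric
open scoped Real ContDiff ComplexConjugate

namespace Pool.Agent.Vx

theorem pr_Cut : S_Cut := by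
  let f : ContDiffBump (0 : ℂ) := ⟨1, 3 / 2, one_pos, by norm_num⟩
  have hf : ContDiff ℝ ∞ (f : ℂ → ℝ) := f.contDiff
  obtain ⟨K0, hK0⟩ : ∃ K, ∀ z, ‖fderiv ℝ (f : ℂ → ℝ) z‖ ≤ K := by
    have hc : Continuous (fderiv ℝ (f : ℂ → ℝ)) := hf.continuous_fderiv (by simp)
    have hs : HasCompactSupport (fderiv ℝ (f : ℂ → ℝ)) := f.hasCompactSupport.fderiv ℝ
    exact hs.exists_bound_of_continuous hc
  obtain ⟨K, hK1, hK⟩ : ∃ K : ℝ, 0 < K ∧ ∀ z, ‖fderiv ℝ (f : ℂ → ℝ) z‖ ≤ K :=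
    ⟨max 1 K0, by positivity, fun z => (hK0 z).trans (le_max_right _ _)⟩
  refine ⟨K, hK1, fun s hs => ?_⟩
  let L : ℂ →L[ℝ] ℂ := (1 / s : ℝ) • ContinuousLinearMap.id ℝ ℂ
  have hL : ∀ z, L z = (1 / s : ℝ) • z := fun z => rfl
  have hLn : ‖L‖ ≤ 1 / s := by
    refine ContinuousLinearMap.opNorm_le_bound _ (by positivity) fun z => ?_
    rw [hL, norm_smul, Real.norm_of_nonneg (by positivity)]
  have hχ : ContDiff ℝ ∞ (fun z => f (L z)) := hf.comp L.contDiff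
  have hder : ∀ z, ‖fderiv ℝ (fun z => f (L z)) z‖ ≤ K / s := by
    intro z
    have h1 : HasFDerivAt (fun z => f (L z)) ((fderiv ℝ (f : ℂ → ℝ) (L z)).comp L) z :=
      ((hf.differentiable (by simp) (L z)).hasFDerivAt).comp z L.hasFDerivAt
    rw [h1.fderiv]
    calc ‖(fderiv ℝ (f : ℂ → ℝ) (L z)).comp L‖ ≤ ‖fderiv ℝ (f : ℂ → ℝ) (L z)‖ * ‖L‖ :=
          ContinuousLinearMap.opNorm_comp_le _ _
      _ ≤ K * (1 / s) := mul_le_mul (hK _) hLn (norm_nonneg _) hK1.le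
      _ = K / s := by ring
  refine ⟨fun z => f (L z), hχ, fun z => ⟨f.nonneg, f.le_one⟩, fun z hz => ?_, fun z hz => ?_,
    hder, fun z y => ?_⟩
  · refine f.one_of_mem_closedBall ?_
    rw [mem_closedBall, dist_zero_right, hL, norm_smul, Real.norm_of_nonneg (by positivity)]
    show 1 / s * ‖z‖ ≤ 1
    rw [one_div_mul_eq_div, div_le_one hs]; exact hz
  · refine f.zero_of_le_dist ?_
    rw [dist_zero_right, hL, norm_smul, Real.norm_of_nonneg (by positivity)]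
    show 3 / 2 ≤ 1 / s * ‖z‖
    rw [one_div_mul_eq_div, le_div_iff₀ hs]; exact hz
  · have h := (convex_univ (𝕜 := ℝ) (E := ℂ)).norm_image_sub_le_of_norm_fderiv_le
      (f := fun z => f (L z)) (C := K / s) (x := y) (y := z)
      (fun x _ => hχ.differentiable (by simp) x) (fun x _ => hder x) (mem_univ _) (mem_univ _)
    simpa using h

end Pool.Agent.Vx

end

section

/-!
# MP_afe918_an, item Ext: extraction of the concentration set (helper10)
-/

set_option autoImplicit false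

open Complex Set Filter Topology MeasureTheory Metric
open scoped Real ContDiff ComplexConjugate ENNReal

namespace Pool.Agent.Vx

/-- Points of concentration. -/
def Ext_P (μ : ℕ → Measure ℂ) (φ : ℕ → ℕ) (F : Finset ℂ) : Prop :=
  ∀ q ∈ F, ∀ s : ℝ, 0 < s → ∀ᶠ j in atTop, 1 ≤ μ (φ j) (ball q s)

theorem Ext_card {μ : ℕ → Measure ℂ} {M0 : ℝ} (hM : 0 ≤ M0)
    (hμ : ∀ j, μ j univ ≤ ENNReal.ofReal M0) {φ : ℕ → ℕ} {F : Finset ℂ} (h : Ext_P μ φ F) :
    (F.card : ℝ) ≤ M0 := by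
  classical
  obtain ⟨ε, hε, hsep⟩ : ∃ ε : ℝ, 0 < ε ∧ ∀ x ∈ F, ∀ y ∈ F, x ≠ y → ε ≤ dist x y := by
    obtain ⟨ε, hε, hsep⟩ := Set.relatively_discrete_of_finite (s := (F : Set ℂ))
    obtain ⟨r, hr0, hr⟩ := ENNReal.lt_iff_exists_nnreal_btwn.1 hε
    refine ⟨r, by exact_mod_cast hr0, fun x hx y hy hxy => ?_⟩
    have h1 := hr.le.trans (hsep x hx y hy hxy)
    rw [edist_nndist] at h1
    have h2 : r ≤ nndist x y := by exact_mod_cast h1
    exact_mod_cast h2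
  have h1 : ∀ᶠ j in atTop, ∀ q ∈ F, 1 ≤ μ (φ j) (ball q (ε / 2)) := by
    rw [Filter.eventually_all_finset]
    exact fun q hq => h q hq (ε / 2) (by positivity)
  obtain ⟨j, hj⟩ := h1.exists
  have h2 : (F.card : ℝ≥0∞) ≤ ENNReal.ofReal M0 := by
    calc (F.card : ℝ≥0∞) = ∑ _q ∈ F, (1 : ℝ≥0∞) := by simp
      _ ≤ ∑ q ∈ F, μ (φ j) (ball q (ε / 2)) := Finset.sum_le_sum hj
      _ = μ (φ j) (⋃ q ∈ F, ball q (ε / 2)) := by
          rw [measure_biUnion_finset]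
          · intro x hx y hy hxy
            refine Metric.ball_disjoint_ball ?_
            have := hsep x hx y hy hxy
            linarith
          · exact fun q _ => measurableSet_ball
      _ ≤ μ (φ j) univ := measure_mono (subset_univ _)
      _ ≤ ENNReal.ofReal M0 := hμ _
  rw [← ENNReal.ofReal_natCast, ENNReal.ofReal_le_ofReal_iff hM] at h2
  exact h2

theorem pr_Ext : S_Ext := by
  classical
  intro μ M0 hM hμ
  set S : Set ℕ := {k | ∃ (φ : ℕ → ℕ) (F : Finset ℂ), StrictMono φ ∧ Ext_P μ φ F ∧ F.card = k}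
    with hS
  have hne : S.Nonempty := ⟨0, id, ∅, strictMono_id, fun q hq => by simp at hq, rfl⟩
  have hbd : BddAbove S := by
    refine ⟨⌊M0⌋₊, ?_⟩
    rintro k ⟨φ, F, -, hF, rfl⟩
    exact Nat.le_floor (Ext_card hM hμ hF)
  obtain ⟨φ, Q, hφ, hQ, hcard⟩ := Nat.sSup_mem hne hbd
  refine ⟨φ, Q, hφ, Ext_card hM hμ hQ, hQ, fun x hx => ?_⟩
  by_contra hcon
  push Not at hcon
  have hfr : ∀ n : ℕ, ∃ᶠ j in atTop, 1 < μ (φ j) (ball x (1 / ((n : ℝ) + 1))) := by
    intro n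
    have := hcon (1 / ((n : ℝ) + 1)) (by positivity)
    refine this.mono fun j hj => ?_
    simpa using hj
  obtain ⟨ψ, hψ, hψx⟩ := extraction_forall_of_frequently hfr
  have hnew : sSup S + 1 ∈ S := by
    refine ⟨φ ∘ ψ, insert x Q, hφ.comp hψ, fun q hq s hs => ?_, ?_⟩
    · rcases Finset.mem_insert.1 hq with rfl | hq
      · obtain ⟨n, hn⟩ := exists_nat_one_div_lt hs
        filter_upwards [eventually_ge_atTop n] with j hj
        refine (hψx j).le.trans (measure_mono (ball_subset_ball ?_))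
        refine le_trans ?_ hn.le
        have : (n : ℝ) ≤ j := by exact_mod_cast hj
        exact one_div_le_one_div_of_le (by positivity) (by linarith)
      · exact hψ.tendsto_atTop.eventually (hQ q hq s hs)
    · rw [Finset.card_insert_of_notMem hx, hcard]
  have := le_csSup hbd hnew
  omega

end Pool.Agent.Vx

end

section

/-!
# MP_afe918_an, item Far: the potential of a mass outside a ball is the real part of a
holomorphic function
-/

set_option autoImplicit false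

open Complex Set Filter Topology MeasureTheory Metric
open scoped Real ContDiff ComplexConjugate

namespace Pool.Agent.Vx

namespace Far

theorem norm_ge {q y : ℂ} {ρ : ℝ} {S : Set ℂ} (hd : Disjoint S (ball q ρ)) (hy : y ∈ S) :
    ρ ≤ ‖q - y‖ := by
  by_contra h
  push Not at h
  refine Set.disjoint_left.1 hd hy ?_
  rw [mem_ball, dist_comm, dist_eq_norm]
  exact h

/-- The integrand. -/
noncomputable def fn (q : ℂ) (E : ℂ → ℝ) (w y : ℂ) : ℂ :=
  (((Real.log ‖q - y‖ : ℝ) : ℂ) + Complex.log (1 + w / (q - y))) * (E y : ℂ)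

theorem fn_meas (q : ℂ) (E : ℂ → ℝ) (hE : Continuous E) (w : ℂ) : Measurable (fn q E w) := by
  unfold fn
  refine Measurable.mul (Measurable.add ?_ ?_) ?_
  · exact Complex.measurable_ofReal.comp
      (Real.measurable_log.comp ((measurable_const.sub measurable_id).norm))
  · exact Complex.measurable_log.comp
      (measurable_const.add (measurable_const.div (measurable_const.sub measurable_id)))
  · exact Complex.measurable_ofReal.comp hE.measurable

theorem quot_lt {q y w : ℂ} {ρ : ℝ} (hρ : 0 < ρ) (hy : ρ ≤ ‖q - y‖) (hw : ‖w‖ < ρ) :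
    ‖w / (q - y)‖ ≤ ‖w‖ / ρ ∧ ‖w‖ / ρ < 1 := by
  constructor
  · rw [norm_div]
    exact div_le_div_of_nonneg_left (norm_nonneg _) hρ hy
  · rw [div_lt_one hρ]
    exact hw

theorem add_norm_ge {q y w : ℂ} {ρ : ℝ} (hy : ρ ≤ ‖q - y‖) : ρ - ‖w‖ ≤ ‖q + w - y‖ := by
  have h1 : q + w - y = (q - y) - (-w) := by ring
  have h2 := norm_sub_norm_le (q - y) (-w)
  rw [norm_neg] at h2
  rw [h1]
  linarith

theorem fn_re {q y w : ℂ} {ρ : ℝ} (E : ℂ → ℝ) (hρ : 0 < ρ) (hy : ρ ≤ ‖q - y‖) (hw : ‖w‖ < ρ) :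
    (fn q E w y).re = Real.log ‖q + w - y‖ * E y := by
  have h0 : q - y ≠ 0 := by
    intro h
    rw [h, norm_zero] at hy
    linarith
  have h1 : (1 : ℂ) + w / (q - y) = (q + w - y) / (q - y) := by
    field_simp
    ring
  have h2 : 0 < ‖q + w - y‖ := lt_of_lt_of_le (by linarith) (add_norm_ge (w := w) hy)
  have h3 : 0 < ‖q - y‖ := lt_of_lt_of_le hρ hy
  unfold fn
  rw [Complex.re_mul_ofReal, Complex.add_re, Complex.ofReal_re, Complex.log_re, h1, norm_div,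
    Real.log_div h2.ne' h3.ne']
  ring

theorem fn_deriv {q y w : ℂ} {ρ : ℝ} (E : ℂ → ℝ) (hρ : 0 < ρ) (hy : ρ ≤ ‖q - y‖)
    (hw : ‖w‖ < ρ) : HasDerivAt (fun v => fn q E v y) ((E y : ℂ) / (q + w - y)) w := by
  have h0 : q - y ≠ 0 := by
    intro h
    rw [h, norm_zero] at hy
    linarith
  have h2 : 0 < ‖q + w - y‖ := lt_of_lt_of_le (by linarith) (add_norm_ge (w := w) hy)
  have h2' : q + w - y ≠ 0 := norm_pos_iff.1 h2
  obtain ⟨h3, h4⟩ := quot_lt hρ hy hw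
  have h5 : (1 : ℂ) + w / (q - y) ∈ slitPlane :=
    Complex.mem_slitPlane_of_norm_lt_one (lt_of_le_of_lt h3 h4)
  have h6 : HasDerivAt (fun v : ℂ => (1 : ℂ) + v / (q - y)) (1 / (q - y)) w :=
    ((hasDerivAt_id w).div_const (q - y)).const_add 1
  have h7 := (h6.clog h5).const_add (((Real.log ‖q - y‖ : ℝ) : ℂ))
  have h8 := h7.mul_const (E y : ℂ)
  have h9 : (1 / (q - y)) / (1 + w / (q - y)) * (E y : ℂ) = (E y : ℂ) / (q + w - y) := by
    have h1 : (1 : ℂ) + w / (q - y) = (q + w - y) / (q - y) := by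
      field_simp
      ring
    rw [h1]
    field_simp
  rw [h9] at h8
  exact h8

theorem fn_bound {q y w : ℂ} {ρ T B : ℝ} (E : ℂ → ℝ) (hρ : 0 < ρ) (hy : ρ ≤ ‖q - y‖)
    (hy2 : ‖y‖ ≤ T) (hw : ‖w‖ < ρ) (hB : |E y| ≤ B) :
    ‖fn q E w y‖ ≤ ((|Real.log ρ| + |Real.log (‖q‖ + T)|) + ((1 - ‖w‖ / ρ)⁻¹ / 2 + 1)) * B := by
  obtain ⟨h3, h4⟩ := quot_lt hρ hy hw
  have hT : ‖q - y‖ ≤ ‖q‖ + T := le_trans (norm_sub_le _ _) (by linarith)
  have hl : |Real.log ‖q - y‖| ≤ |Real.log ρ| + |Real.log (‖q‖ + T)| := by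
    have h5 : Real.log ρ ≤ Real.log ‖q - y‖ := Real.log_le_log hρ hy
    have h6 : Real.log ‖q - y‖ ≤ Real.log (‖q‖ + T) :=
      Real.log_le_log (lt_of_lt_of_le hρ hy) hT
    refine le_trans (abs_le_max_abs_abs h5 h6) (max_le ?_ ?_)
    · linarith [abs_nonneg (Real.log (‖q‖ + T))]
    · linarith [abs_nonneg (Real.log ρ)]
  have hc : ‖Complex.log (1 + w / (q - y))‖ ≤ (1 - ‖w‖ / ρ)⁻¹ / 2 + 1 := by
    have h5 := Complex.norm_log_one_add_le (lt_of_le_of_lt h3 h4)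
    have h6 : (0 : ℝ) ≤ ‖w / (q - y)‖ := norm_nonneg _
    have h7 : ‖w / (q - y)‖ < 1 := lt_of_le_of_lt h3 h4
    have h8 : ‖w / (q - y)‖ ^ 2 ≤ 1 := by nlinarith
    have h9 : (1 - ‖w / (q - y)‖)⁻¹ ≤ (1 - ‖w‖ / ρ)⁻¹ :=
      inv_anti₀ (by linarith) (by linarith)
    have h10 : 0 ≤ (1 - ‖w / (q - y)‖)⁻¹ := inv_nonneg.2 (by linarith)
    have h11 : ‖w / (q - y)‖ ^ 2 * (1 - ‖w / (q - y)‖)⁻¹ ≤ (1 - ‖w‖ / ρ)⁻¹ := by
      calc ‖w / (q - y)‖ ^ 2 * (1 - ‖w / (q - y)‖)⁻¹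
          ≤ 1 * (1 - ‖w / (q - y)‖)⁻¹ := mul_le_mul_of_nonneg_right h8 h10
        _ ≤ (1 - ‖w‖ / ρ)⁻¹ := by linarith
    linarith
  unfold fn
  rw [norm_mul, Complex.norm_real, Real.norm_eq_abs]
  refine mul_le_mul ?_ hB (abs_nonneg _) ?_
  · refine le_trans (norm_add_le _ _) (add_le_add ?_ hc)
    rw [Complex.norm_real, Real.norm_eq_abs]
    exact hl
  · have h5 : 0 ≤ (1 - ‖w‖ / ρ)⁻¹ := inv_nonneg.2 (by linarith)
    have h6 := abs_nonneg (Real.log ρ)
    have h7 := abs_nonneg (Real.log (‖q‖ + T))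
    linarith

end Far

theorem pr_Far : S_Far := by
  intro q ρ T S E hρ hE hS hST hd
  obtain ⟨B0, hB0⟩ := (isCompact_closedBall (0 : ℂ) T).exists_bound_of_continuousOn
    hE.continuousOn
  set B : ℝ := max B0 0 with hBdef
  have hB : ∀ y ∈ S, |E y| ≤ B := by
    intro y hy
    have h1 := hB0 y (ball_subset_closedBall (hST hy))
    rw [Real.norm_eq_abs] at h1
    exact le_trans h1 (le_max_left _ _)
  have hB1 : 0 ≤ B := le_max_right _ _
  have hyT : ∀ y ∈ S, ‖y‖ ≤ T := fun y hy => (mem_ball_zero_iff.1 (hST hy)).le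
  have hfin : volume S ≠ ⊤ :=
    ne_top_of_le_ne_top (measure_ball_lt_top (μ := (volume : Measure ℂ)) (x := (0 : ℂ)) (r := T)).ne
      (measure_mono hST)
  have : IsFiniteMeasure (volume.restrict S : Measure ℂ) :=
    ⟨by rw [Measure.restrict_apply_univ]; exact lt_top_iff_ne_top.2 hfin⟩
  have hint : ∀ w : ℂ, ‖w‖ < ρ → Integrable (Far.fn q E w) (volume.restrict S) := by
    intro w hw
    refine Integrable.mono' (integrable_const
      (((|Real.log ρ| + |Real.log (‖q‖ + T)|) + ((1 - ‖w‖ / ρ)⁻¹ / 2 + 1)) * B))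
      (Far.fn_meas q E hE w).aestronglyMeasurable ?_
    filter_upwards [ae_restrict_mem hS] with y hy
    exact Far.fn_bound E hρ (Far.norm_ge hd hy) (hyT y hy) hw (hB y hy)
  have hder : ∀ w0 : ℂ, ‖w0‖ < ρ → HasDerivAt (fun w => ∫ y in S, Far.fn q E w y)
      (∫ y in S, (E y : ℂ) / (q + w0 - y)) w0 := by
    intro w0 hw0
    set δ : ℝ := (ρ - ‖w0‖) / 2 with hδ
    have hδ0 : 0 < δ := by rw [hδ]; linarith
    have hs : ∀ w ∈ ball w0 δ, ‖w‖ ≤ ρ - δ := by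
      intro w hw
      rw [mem_ball, dist_eq_norm] at hw
      have h1 : ‖w‖ ≤ ‖w0‖ + ‖w - w0‖ := by
        have h2 := norm_add_le w0 (w - w0)
        rwa [add_sub_cancel] at h2
      have h3 : ‖w0‖ = ρ - 2 * δ := by rw [hδ]; ring
      linarith
    refine (hasDerivAt_integral_of_dominated_loc_of_deriv_le (μ := volume.restrict S)
      (F := fun w y => Far.fn q E w y) (F' := fun w y => (E y : ℂ) / (q + w - y))
      (bound := fun _ => B / δ) (ball_mem_nhds w0 hδ0) ?_ (hint w0 hw0) ?_ ?_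
      (integrable_const _) ?_).2
    · exact Eventually.of_forall fun w => (Far.fn_meas q E hE w).aestronglyMeasurable
    · refine Measurable.aestronglyMeasurable ?_
      exact (Complex.measurable_ofReal.comp hE.measurable).div
        (measurable_const.sub measurable_id)
    · filter_upwards [ae_restrict_mem hS] with y hy w hw
      have h1 := Far.add_norm_ge (w := w) (Far.norm_ge hd hy)
      have h2 := hs w hw
      rw [norm_div, Complex.norm_real, Real.norm_eq_abs]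
      exact div_le_div₀ hB1 (hB y hy) hδ0 (by linarith)
    · filter_upwards [ae_restrict_mem hS] with y hy w hw
      exact Far.fn_deriv E hρ (Far.norm_ge hd hy) (by linarith [hs w hw])
  have hder2 : ∀ w : ℂ, ‖w‖ < ρ → HasDerivAt
      (fun w => ((-(1 / (4 * π)) : ℝ) : ℂ) * ∫ y in S, Far.fn q E w y)
      (((-(1 / (4 * π)) : ℝ) : ℂ) * ∫ y in S, (E y : ℂ) / (q + w - y)) w :=
    fun w hw => (hder w hw).const_mul _
  refine ⟨fun w => ((-(1 / (4 * π)) : ℝ) : ℂ) * ∫ y in S, Far.fn q E w y, ?_, ?_, ?_⟩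
  · intro w hw
    rw [mem_ball_zero_iff] at hw
    exact (hder2 w hw).differentiableAt.differentiableWithinAt
  · intro w hw
    rw [mem_ball_zero_iff] at hw
    show 2 * (((-(1 / (4 * π)) : ℝ) : ℂ) * ∫ y in S, Far.fn q E w y).re = _
    rw [Complex.re_ofReal_mul]
    have h1 : (∫ y in S, Far.fn q E w y).re = ∫ y in S, Real.log ‖q + w - y‖ * E y := by
      have h2 : ∫ y in S, (Far.fn q E w y).re = (∫ y in S, Far.fn q E w y).re :=
        integral_re (𝕜 := ℂ) (hint w hw)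
      rw [← h2]
      refine setIntegral_congr_fun hS fun y hy => ?_
      exact Far.fn_re E hρ (Far.norm_ge hd hy) hw
    rw [h1]
    field_simp
    ring
  · intro w hw
    rw [mem_ball_zero_iff] at hw
    rw [(hder2 w hw).deriv]
    push_cast
    ring

end Pool.Agent.Vx

end

section

/-!
# MP_afe918_an: the exact Pohozaev identity (item Id)
-/

set_option autoImplicit false

open Complex Set Filter Topology MeasureTheory Metric
open scoped Real ContDiff ComplexConjugate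

namespace Pool.Agent.Vx

/-- The real linear form `v ↦ 2 Re (c v)`. -/
noncomputable def Id_w (c : ℂ) : ℂ →L[ℝ] ℝ :=
  (2 : ℝ) • Complex.reCLM.comp (ContinuousLinearMap.mul ℝ ℂ c)

theorem Id_w_apply (c v : ℂ) : Id_w c v = 2 * (c * v).re := by
  simp [Id_w]

theorem Id_w_add (c d : ℂ) : Id_w (c + d) = Id_w c + Id_w d := by
  ext v
  simp only [Id_w_apply, _root_.add_apply, add_mul, Complex.add_re]
  ring

theorem Id_w_smul (x : ℝ) (c : ℂ) : x • Id_w c = Id_w ((x : ℂ) * c) := by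
  ext v
  simp only [Id_w_apply, _root_.smul_apply, smul_eq_mul, mul_assoc,
    Complex.re_ofReal_mul]
  ring

theorem Id_w_cont : Continuous Id_w := by
  unfold Id_w
  fun_prop

theorem Id_dh {h : ℂ → ℂ} {z : ℂ} (hd : DifferentiableAt ℂ h z) :
    HasFDerivAt (fun z => 2 * (h z).re) (Id_w (deriv h z)) z := by
  have h1 := (hd.hasDerivAt.hasFDerivAt.restrictScalars ℝ)
  have h2 := (Complex.reCLM.hasFDerivAt (x := h z)).comp z h1
  have h3 := h2.const_mul (2 : ℝ)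
  refine h3.congr_fderiv ?_
  ext v
  simp [Id_w_apply, mul_comm]

theorem Id_dn (z : ℂ) : HasFDerivAt (fun z : ℂ => ‖z‖ ^ 2) (Id_w (conj z)) z := by
  have h1 := (hasStrictFDerivAt_norm_sq z).hasFDerivAt
  refine h1.congr_fderiv ?_
  ext v
  simp [Id_w_apply, Complex.inner, mul_comm]
  ring

/-- The exponent of the local density. -/
noncomputable def Id_L (r lam : ℝ) (h : ℂ → ℂ) (E : ℂ → ℝ) (z : ℂ) : ℝ :=
  2 * (h z).re - lam / 4 * ‖z‖ ^ 2 + pot r E z

/-- The logarithmic derivative without the singular part. -/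
noncomputable def Id_D (r lam : ℝ) (h : ℂ → ℂ) (E : ℂ → ℝ) (z : ℂ) : ℂ :=
  deriv h z - lam / 4 * conj z + dpot r E z

theorem Id_dL (h1 : S_PotD) {r lam : ℝ} {h : ℂ → ℂ} {E : ℂ → ℝ} (hr : 0 < r)
    (hE : Continuous E) {z : ℂ} (hd : DifferentiableAt ℂ h z) :
    HasFDerivAt (Id_L r lam h E) (Id_w (Id_D r lam h E z)) z := by
  have a1 := Id_dh hd
  have a2 := (Id_dn z).const_mul (lam / 4)
  have a3 := (h1 r E hr hE).1 z
  have a4 := (a1.sub a2).add a3
  refine a4.congr_fderiv ?_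
  ext v
  simp only [Id_D, Id_w_apply, _root_.add_apply, _root_.smul_apply, _root_.sub_apply, smul_eq_mul]
  simp
  ring

theorem Id_dpow (n : ℕ) (z : ℂ) : HasFDerivAt (fun z : ℂ => ‖z‖ ^ (2 * n))
    (Id_w (((‖z‖ ^ (2 * n) : ℝ) : ℂ) * (n / z))) z := by
  have a1 := (Id_dn z).pow n
  have e1 : (fun z : ℂ => ‖z‖ ^ (2 * n)) = fun z : ℂ => (‖z‖ ^ 2) ^ n := by
    funext w; rw [pow_mul]
  rw [e1]
  refine a1.congr_fderiv ?_
  have e2 : ((‖z‖ ^ (2 * n) : ℝ) : ℂ) * (n / z) =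
      (((n : ℝ) * (‖z‖ ^ 2) ^ (n - 1) : ℝ) : ℂ) * conj z := by
    rcases Nat.eq_zero_or_pos n with rfl | hn
    · simp
    · by_cases hz : z = 0
      · subst hz
        simp
      · have e3 : ((‖z‖ ^ 2 : ℝ) : ℂ) = z * conj z := by
          rw [Complex.mul_conj, Complex.normSq_eq_norm_sq]
        obtain ⟨k, rfl⟩ : ∃ k, n = k + 1 := ⟨n - 1, by omega⟩
        rw [pow_mul, pow_succ, Complex.ofReal_mul, e3]
        have e4 : k + 1 - 1 = k := by omega
        rw [e4]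
        push_cast
        field_simp
  rw [e2, ← Id_w_smul]
  ext v
  simp

theorem Id_dE (h1 : S_PotD) {r lam : ℝ} {n : ℕ} {h : ℂ → ℂ} {E : ℂ → ℝ}
    (hL : Loc r n lam h E) {z : ℂ} (hz : z ∈ ball (0 : ℂ) r) :
    HasFDerivAt E (Id_w ((E z : ℂ) * (n / z + Id_D r lam h E z))) z := by
  have hd : DifferentiableAt ℂ h z := hL.an.differentiableAt (isOpen_ball.mem_nhds hz)
  have a1 := (Id_dpow n z).mul (Id_dL (lam := lam) h1 hL.rpos hL.cont hd).exp
  have e1 : E =ᶠ[𝓝 z] fun w => ‖w‖ ^ (2 * n) * Real.exp (Id_L r lam h E w) := by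
    filter_upwards [isOpen_ball.mem_nhds hz] with w hw
    exact hL.rep w hw
  refine (a1.congr_of_eventuallyEq e1).congr_fderiv ?_
  rw [e1.eq_of_nhds, Id_w_smul, Id_w_smul, Id_w_smul, ← Id_w_add]
  congr 1
  push_cast
  ring

theorem Id_potC (h1 : S_PotD) {r : ℝ} {E : ℂ → ℝ} (hr : 0 < r) (hE : Continuous E) :
    ContDiff ℝ 1 (pot r E) := by
  obtain ⟨a1, a2⟩ := h1 r E hr hE
  rw [contDiff_one_iff_fderiv]
  refine ⟨fun z => (a1 z).differentiableAt, ?_⟩
  have : fderiv ℝ (pot r E) = fun z => Id_w (dpot r E z) := by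
    funext z; exact (a1 z).fderiv
  rw [this]
  exact Id_w_cont.comp a2

theorem Id_EC (h1 : S_PotD) {r lam : ℝ} {n : ℕ} {h : ℂ → ℂ} {E : ℂ → ℝ}
    (hL : Loc r n lam h E) {z : ℂ} (hz : z ∈ ball (0 : ℂ) r) : ContDiffAt ℝ 1 E z := by
  have e1 : E =ᶠ[𝓝 z] fun w => (‖w‖ ^ 2) ^ n * Real.exp (Id_L r lam h E w) := by
    filter_upwards [isOpen_ball.mem_nhds hz] with w hw
    rw [← pow_mul]
    exact hL.rep w hw
  refine ContDiffAt.congr_of_eventuallyEq ?_ e1
  have b1 : ContDiffAt ℝ 1 (fun w : ℂ => ‖w‖ ^ 2) z := (contDiff_norm_sq ℝ).contDiffAt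
  have b2 : ContDiffAt ℝ 1 h z :=
    ((hL.an.analyticAt (isOpen_ball.mem_nhds hz)).contDiffAt (n := 1)).restrict_scalars ℝ
  have b3 : ContDiffAt ℝ 1 (fun w => (h w).re) z :=
    Complex.reCLM.contDiff.contDiffAt.comp z b2
  have b4 : ContDiffAt ℝ 1 (pot r E) z := (Id_potC h1 hL.rpos hL.cont).contDiffAt
  have b5 : ContDiffAt ℝ 1 (Id_L r lam h E) z :=
    ((contDiffAt_const.mul b3).sub (contDiffAt_const.mul b1)).add b4
  exact (b1.pow n).mul b5.exp

/-- The compactly supported function whose derivative is integrated. -/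
noncomputable def Id_g (ψ : ℂ → ℂ) (E : ℂ → ℝ) (z : ℂ) : ℂ := ψ z * (E z : ℂ)

theorem Id_g0 {ψ : ℂ → ℂ} {E : ℂ → ℝ} {s : ℝ} (h0 : ∀ z, s ≤ ‖z‖ → ψ z = 0) {z : ℂ}
    (hz : s < ‖z‖) : Id_g ψ E =ᶠ[𝓝 z] fun _ => 0 := by
  have : {w : ℂ | s < ‖w‖} ∈ 𝓝 z := (isOpen_lt continuous_const continuous_norm).mem_nhds hz
  filter_upwards [this] with w hw
  have hw' : s < ‖w‖ := hw
  simp [Id_g, h0 w hw'.le]

theorem Id_gC (h1 : S_PotD) {r lam : ℝ} {n : ℕ} {h : ℂ → ℂ} {E : ℂ → ℝ}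
    (hL : Loc r n lam h E) {ψ : ℂ → ℂ} (hψ : ContDiff ℝ 1 ψ) {s : ℝ} (hs : s < r)
    (h0 : ∀ z, s ≤ ‖z‖ → ψ z = 0) : ContDiff ℝ 1 (Id_g ψ E) := by
  rw [contDiff_iff_contDiffAt]
  intro z
  by_cases hz : ‖z‖ < r
  · have hz' : z ∈ ball (0 : ℂ) r := by simpa using hz
    exact hψ.contDiffAt.mul (Complex.ofRealCLM.contDiff.contDiffAt.comp z (Id_EC h1 hL hz'))
  · exact contDiffAt_const.congr_of_eventuallyEq (Id_g0 h0 (by linarith [not_lt.mp hz]))

theorem Id_gS {ψ : ℂ → ℂ} {E : ℂ → ℝ} {s : ℝ} (h0 : ∀ z, s ≤ ‖z‖ → ψ z = 0) :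
    HasCompactSupport (Id_g ψ E) := by
  refine HasCompactSupport.intro (isCompact_closedBall (0 : ℂ) s) fun z hz => ?_
  have : s < ‖z‖ := by simpa using hz
  simp [Id_g, h0 z this.le]

theorem Id_int0 {g : ℂ → ℂ} (hg : ContDiff ℝ 1 g) (hS : HasCompactSupport g) (v : ℂ) :
    Integrable (fun z => fderiv ℝ g z v) ∧ ∫ z, fderiv ℝ g z v = 0 := by
  have c1 : Continuous fun z => fderiv ℝ g z v :=
    (hg.continuous_fderiv (by norm_num)).clm_apply continuous_const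
  have i1 : Integrable fun z => fderiv ℝ g z v :=
    c1.integrable_of_hasCompactSupport (hS.fderiv_apply (𝕜 := ℝ) v)
  refine ⟨i1, ?_⟩
  have := integral_mul_fderiv_eq_neg_fderiv_mul_of_integrable (μ := (volume : Measure ℂ))
    (f := fun _ : ℂ => (1 : ℂ)) (g := g) (v := v) (by simp) (by simpa using i1)
    (by simpa using hg.continuous.integrable_of_hasCompactSupport hS)
    (fun x _ => differentiableAt_const _) (fun x _ => (hg.differentiable (by norm_num)) x)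
  simpa using this

theorem Id_dz0 {g : ℂ → ℂ} (hg : ContDiff ℝ 1 g) (hS : HasCompactSupport g) :
    Integrable (dz g) ∧ ∫ z, dz g z = 0 := by
  obtain ⟨i1, e1⟩ := Id_int0 hg hS 1
  obtain ⟨i2, e2⟩ := Id_int0 hg hS I
  have i3 : Integrable (dz g) := (i1.sub (i2.const_mul I)).div_const 2
  refine ⟨i3, ?_⟩
  unfold dz
  rw [integral_div, integral_sub i1 (i2.const_mul I), integral_const_mul, e1, e2]
  simp

theorem Id_dzg (h1 : S_PotD) {r lam : ℝ} {n : ℕ} {h : ℂ → ℂ} {E : ℂ → ℝ}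
    (hL : Loc r n lam h E) {ψ : ℂ → ℂ} (hψ : ContDiff ℝ 1 ψ) {z : ℂ}
    (hz : z ∈ ball (0 : ℂ) r) :
    dz (Id_g ψ E) z = (dz ψ z + ψ z * (n / z + deriv h z - lam / 4 * conj z)) * (E z : ℂ) +
      ψ z * (E z : ℂ) * dpot r E z := by
  have a1 := (hψ.differentiable (by norm_num)) z |>.hasFDerivAt
  have a2 := Complex.ofRealCLM.hasFDerivAt.comp z (Id_dE h1 hL hz)
  have a3 := a1.mul a2
  have e3 : fderiv ℝ (Id_g ψ E) z = _ := a3.fderiv
  have k1 := Id_w_apply ((E z : ℂ) * (n / z + Id_D r lam h E z)) 1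
  have k2 := Id_w_apply ((E z : ℂ) * (n / z + Id_D r lam h E z)) I
  have k3 : ((Id_w ((E z : ℂ) * (n / z + Id_D r lam h E z)) 1 : ℝ) : ℂ) -
      I * ((Id_w ((E z : ℂ) * (n / z + Id_D r lam h E z)) I : ℝ) : ℂ) =
      2 * ((E z : ℂ) * (n / z + Id_D r lam h E z)) := by
    rw [k1, k2]
    apply Complex.ext <;> simp
  unfold dz
  rw [e3]
  simp only [_root_.add_apply, _root_.smul_apply, ContinuousLinearMap.comp_apply,
    Complex.ofRealCLM_apply, smul_eq_mul, Function.comp_apply]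
  linear_combination (ψ z / 2) * k3 + ψ z * (E z : ℂ) * (by unfold Id_D; ring :
    (n / z + Id_D r lam h E z : ℂ) = n / z + deriv h z - lam / 4 * conj z + dpot r E z)

theorem Id_bd {f : ℂ → ℂ} (hf : Continuous f) (r : ℝ) :
    ∃ M : ℝ, 0 ≤ M ∧ ∀ z ∈ ball (0 : ℂ) r, ‖f z‖ ≤ M := by
  obtain ⟨M, hM⟩ := (isCompact_closedBall (0 : ℂ) r).exists_bound_of_continuousOn hf.continuousOn
  exact ⟨max M 0, le_max_right _ _, fun z hz =>
    (hM z (ball_subset_closedBall hz)).trans (le_max_left _ _)⟩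

/-- Integrability of the kernel on the product of the balls. -/
theorem Id_ker (h2 : S_Riesz) {r : ℝ} (hr : 0 < r) {f g : ℂ → ℂ} (hf : Continuous f)
    (hg : Continuous g) :
    Integrable (fun p : ℂ × ℂ => f p.1 * (g p.2 / (p.1 - p.2)))
      ((volume.restrict (ball (0 : ℂ) r)).prod (volume.restrict (ball (0 : ℂ) r))) := by
  obtain ⟨M1, p1, hM1⟩ := Id_bd hf r
  obtain ⟨M2, p2, hM2⟩ := Id_bd hg r
  have hm : Measurable (fun p : ℂ × ℂ => f p.1 * (g p.2 / (p.1 - p.2))) :=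
    (hf.measurable.comp measurable_fst).mul
      ((hg.measurable.comp measurable_snd).div (measurable_fst.sub measurable_snd))
  have hb : ∀ z, ∀ y ∈ ball (0 : ℂ) r,
      ‖f z * (g y / (z - y))‖ ≤ ‖f z‖ * M2 * (1 / ‖z - y‖) := by
    intro z y hy
    rw [norm_mul, norm_div, mul_assoc, div_eq_mul_one_div]
    exact mul_le_mul_of_nonneg_left (mul_le_mul_of_nonneg_right (hM2 y hy) (by positivity))
      (norm_nonneg _)
  have hi : ∀ z, Integrable (fun y => f z * (g y / (z - y))) (volume.restrict (ball (0 : ℂ) r)) := by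
    intro z
    refine ((h2 0 z r hr).1.const_mul (‖f z‖ * M2)).mono'
      (hm.comp (measurable_const.prodMk measurable_id)).aestronglyMeasurable ?_
    filter_upwards [ae_restrict_mem measurableSet_ball] with y hy
    exact hb z y hy
  rw [integrable_prod_iff hm.aestronglyMeasurable]
  refine ⟨Eventually.of_forall hi, ?_⟩
  have : IsFiniteMeasure (volume.restrict (ball (0 : ℂ) r)) :=
    ⟨by rw [Measure.restrict_apply_univ]; exact measure_ball_lt_top⟩
  refine (integrable_const (M1 * M2 * (6 * π * r))).mono'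
    (hm.aestronglyMeasurable.norm.integral_prod_right') ?_
  filter_upwards [ae_restrict_mem measurableSet_ball] with z hz
  rw [Real.norm_of_nonneg (integral_nonneg fun y => norm_nonneg _)]
  calc ∫ y in ball (0 : ℂ) r, ‖f z * (g y / (z - y))‖
      ≤ ∫ y in ball (0 : ℂ) r, ‖f z‖ * M2 * (1 / ‖z - y‖) := by
        refine integral_mono_ae (hi z).norm ((h2 0 z r hr).1.const_mul _) ?_
        filter_upwards [ae_restrict_mem measurableSet_ball] with y hy
        exact hb z y hy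
    _ = ‖f z‖ * M2 * ∫ y in ball (0 : ℂ) r, 1 / ‖z - y‖ := integral_const_mul _ _
    _ ≤ M1 * M2 * (6 * π * r) := by
        refine mul_le_mul (mul_le_mul_of_nonneg_right (hM1 z hz) p2) (h2 0 z r hr).2
          (integral_nonneg fun y => by positivity) (by positivity)

theorem Id_sym (h2 : S_Riesz) {r : ℝ} (hr : 0 < r) {ψ : ℂ → ℂ} {E : ℂ → ℝ}
    (hψ : Continuous ψ) (hE : Continuous E) :
    2 * ∫ z in ball (0 : ℂ) r, ∫ y in ball (0 : ℂ) r, ψ z * (E z : ℂ) * ((E y : ℂ) / (z - y)) =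
      ∫ z in ball (0 : ℂ) r, ∫ y in ball (0 : ℂ) r,
        (ψ z - ψ y) / (z - y) * (E z : ℂ) * (E y : ℂ) := by
  have hE' : Continuous fun z => (E z : ℂ) := Complex.continuous_ofReal.comp hE
  have i1 : Integrable (fun p : ℂ × ℂ => ψ p.1 * (E p.1 : ℂ) * ((E p.2 : ℂ) / (p.1 - p.2)))
      ((volume.restrict (ball (0 : ℂ) r)).prod (volume.restrict (ball (0 : ℂ) r))) :=
    Id_ker h2 hr (hψ.mul hE') hE'
  have i2 : Integrable (fun p : ℂ × ℂ => ψ p.2 * (E p.2 : ℂ) * ((E p.1 : ℂ) / (p.2 - p.1)))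
      ((volume.restrict (ball (0 : ℂ) r)).prod (volume.restrict (ball (0 : ℂ) r))) := i1.swap
  have e1 : ∫ p : ℂ × ℂ, ψ p.2 * (E p.2 : ℂ) * ((E p.1 : ℂ) / (p.2 - p.1))
      ∂((volume.restrict (ball (0 : ℂ) r)).prod (volume.restrict (ball (0 : ℂ) r))) =
      ∫ p : ℂ × ℂ, ψ p.1 * (E p.1 : ℂ) * ((E p.2 : ℂ) / (p.1 - p.2))
      ∂((volume.restrict (ball (0 : ℂ) r)).prod (volume.restrict (ball (0 : ℂ) r))) :=
    integral_prod_swap (μ := volume.restrict (ball (0 : ℂ) r))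
      (ν := volume.restrict (ball (0 : ℂ) r))
      (fun p : ℂ × ℂ => ψ p.1 * (E p.1 : ℂ) * ((E p.2 : ℂ) / (p.1 - p.2)))
  have e2 : ∫ p : ℂ × ℂ, ψ p.1 * (E p.1 : ℂ) * ((E p.2 : ℂ) / (p.1 - p.2))
      ∂((volume.restrict (ball (0 : ℂ) r)).prod (volume.restrict (ball (0 : ℂ) r))) =
      ∫ z in ball (0 : ℂ) r, ∫ y in ball (0 : ℂ) r, ψ z * (E z : ℂ) * ((E y : ℂ) / (z - y)) :=
    integral_prod _ i1
  have e4 : ∫ p : ℂ × ℂ, (ψ p.1 * (E p.1 : ℂ) * ((E p.2 : ℂ) / (p.1 - p.2)) +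
      ψ p.2 * (E p.2 : ℂ) * ((E p.1 : ℂ) / (p.2 - p.1)))
      ∂((volume.restrict (ball (0 : ℂ) r)).prod (volume.restrict (ball (0 : ℂ) r))) =
      ∫ z in ball (0 : ℂ) r, ∫ y in ball (0 : ℂ) r, (ψ z * (E z : ℂ) * ((E y : ℂ) / (z - y)) +
        ψ y * (E y : ℂ) * ((E z : ℂ) / (y - z))) :=
    integral_prod _ (i1.add i2)
  have e5 : ∀ z y : ℂ, (ψ z - ψ y) / (z - y) * (E z : ℂ) * (E y : ℂ) =
      ψ z * (E z : ℂ) * ((E y : ℂ) / (z - y)) + ψ y * (E y : ℂ) * ((E z : ℂ) / (y - z)) := by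
    intro z y
    by_cases hzy : z = y
    · subst hzy; simp
    · have k1 : z - y ≠ 0 := sub_ne_zero.mpr hzy
      have k2 : y - z ≠ 0 := sub_ne_zero.mpr (Ne.symm hzy)
      have k3 : y - z = -(z - y) := by ring
      rw [k3, div_neg]
      field_simp
      ring
  have e6 : (∫ z in ball (0 : ℂ) r, ∫ y in ball (0 : ℂ) r,
      (ψ z - ψ y) / (z - y) * (E z : ℂ) * (E y : ℂ)) =
      ∫ z in ball (0 : ℂ) r, ∫ y in ball (0 : ℂ) r, (ψ z * (E z : ℂ) * ((E y : ℂ) / (z - y)) +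
        ψ y * (E y : ℂ) * ((E z : ℂ) / (y - z))) := by
    simp_rw [e5]
  rw [e6, ← e4, integral_add i1 i2, e1, e2, two_mul]

theorem pr_Id (h1 : S_PotD) (h2 : S_Riesz) : S_Id := by
  intro r n lam h E hL ψ hψ hψ0
  obtain ⟨s, hs, h0⟩ := hψ0
  obtain ⟨i1, e1⟩ := Id_dz0 (Id_gC h1 hL hψ hs h0) (Id_gS (E := E) h0)
  have hE' : Continuous fun z => (E z : ℂ) := Complex.continuous_ofReal.comp hL.cont
  have key : ∫ z in ball (0 : ℂ) r, dz (Id_g ψ E) z = 0 := by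
    rw [setIntegral_eq_integral_of_forall_compl_eq_zero, e1]
    intro z hz
    have hz' : s < ‖z‖ := by
      have : r ≤ ‖z‖ := by simpa using hz
      linarith
    have := (Id_g0 (E := E) h0 hz').fderiv_eq (𝕜 := ℝ)
    unfold dz
    rw [this]
    simp
  have hP : IntegrableOn (fun z => ψ z * (E z : ℂ) * dpot r E z) (ball (0 : ℂ) r) :=
    (((hψ.continuous.mul hE').mul (h1 r E hL.rpos hL.cont).2).continuousOn.integrableOn_compact
      (isCompact_closedBall (0 : ℂ) r)).mono_set ball_subset_closedBall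
  have e2 : ∫ z in ball (0 : ℂ) r,
      (dz ψ z + ψ z * (n / z + deriv h z - lam / 4 * conj z)) * (E z : ℂ) =
      ∫ z in ball (0 : ℂ) r, (dz (Id_g ψ E) z - ψ z * (E z : ℂ) * dpot r E z) := by
    refine setIntegral_congr_fun measurableSet_ball fun z hz => ?_
    rw [Id_dzg h1 hL hψ hz]
    ring
  have e3 : ∫ z in ball (0 : ℂ) r, ψ z * (E z : ℂ) * dpot r E z =
      -(1 / (4 * π)) * ∫ z in ball (0 : ℂ) r, ∫ y in ball (0 : ℂ) r,
        ψ z * (E z : ℂ) * ((E y : ℂ) / (z - y)) := by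
    rw [← integral_const_mul]
    refine setIntegral_congr_fun measurableSet_ball fun z hz => ?_
    simp only [dpot]
    rw [integral_const_mul]
    ring
  rw [e2, integral_sub i1.integrableOn hP, key, e3, ← Id_sym h2 hL.rpos hψ.continuous hL.cont]
  have hpi : (π : ℂ) ≠ 0 := by exact_mod_cast Real.pi_ne_zero
  field_simp
  ring

end Pool.Agent.Vx

end

section

/-!
# MP_afe918_an, item Id2: the exact identity for `ψ / z` at a simple vortex
-/

set_option autoImplicit false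

open Complex Set Filter Topology MeasureTheory Metric
open scoped Real ContDiff ComplexConjugate

namespace Pool.Agent.Vx

/-- the exponent of the density -/
noncomputable def id2_W (r lam : ℝ) (h : ℂ → ℂ) (E : ℂ → ℝ) (z : ℂ) : ℝ :=
  2 * (h z).re - lam / 4 * ‖z‖ ^ 2 + pot r E z

/-- its derivative `∂_z` -/
noncomputable def id2_q (r lam : ℝ) (h : ℂ → ℂ) (E : ℂ → ℝ) (z : ℂ) : ℂ :=
  deriv h z - lam / 4 * conj z + dpot r E z

/-- the density divided by `z` -/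
noncomputable def id2_g (r lam : ℝ) (h : ℂ → ℂ) (E : ℂ → ℝ) (z : ℂ) : ℂ :=
  conj z * (Real.exp (id2_W r lam h E z) : ℂ)

theorem id2_dW (h1 : S_PotD) {r : ℝ} {n : ℕ} {lam : ℝ} {h : ℂ → ℂ} {E : ℂ → ℝ}
    (L : Loc r n lam h E) {z : ℂ} (hz : z ∈ ball (0 : ℂ) r) :
    HasFDerivAt (id2_W r lam h E)
      ((2 : ℝ) • Complex.reCLM.comp (ContinuousLinearMap.mul ℝ ℂ (id2_q r lam h E z))) z := by
  have a1 : HasDerivAt h (deriv h z) z :=
    (L.an.differentiableAt (isOpen_ball.mem_nhds hz)).hasDerivAt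
  have a2 := (a1.complexToReal_fderiv)
  have a3 : HasFDerivAt (fun w => 2 * (h w).re)
      ((2 : ℝ) • Complex.reCLM.comp (deriv h z • (1 : ℂ →L[ℝ] ℂ))) z :=
    (Complex.reCLM.hasFDerivAt.comp z a2).const_mul 2
  have a4 : HasFDerivAt (fun w : ℂ => lam / 4 * ‖w‖ ^ 2) ((lam / 4) • (2 • (innerSL ℝ z))) z :=
    (hasStrictFDerivAt_norm_sq z).hasFDerivAt.const_mul (lam / 4)
  have a5 := (h1 r E L.rpos L.cont).1 z
  have a6 := (a3.sub a4).add a5
  refine (a6.congr_fderiv ?_)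
  ext v
  simp only [_root_.add_apply, _root_.sub_apply,
    _root_.smul_apply, ContinuousLinearMap.comp_apply, Complex.reCLM_apply,
    ContinuousLinearMap.mul_apply', id2_q, innerSL_apply_apply, Complex.inner,
    one_apply_eq_self, smul_eq_mul, nsmul_eq_mul]
  simp only [Complex.mul_re, Complex.add_re, Complex.sub_re, Complex.add_im, Complex.sub_im,
    Complex.conj_re, Complex.conj_im, Complex.mul_im, Complex.ofReal_re, Complex.ofReal_im,
    Complex.div_ofNat_re, Complex.div_ofNat_im]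
  push_cast
  ring

theorem id2_Wcont (h1 : S_PotD) {r : ℝ} {n : ℕ} {lam : ℝ} {h : ℂ → ℂ} {E : ℂ → ℝ}
    (L : Loc r n lam h E) : ContinuousOn (id2_W r lam h E) (ball (0 : ℂ) r) := fun _ hz =>
  (id2_dW h1 L hz).continuousAt.continuousWithinAt

theorem id2_qcont (h1 : S_PotD) {r : ℝ} {n : ℕ} {lam : ℝ} {h : ℂ → ℂ} {E : ℂ → ℝ}
    (L : Loc r n lam h E) : ContinuousOn (id2_q r lam h E) (ball (0 : ℂ) r) := by
  have a1 : ContinuousOn (deriv h) (ball (0 : ℂ) r) := (L.an.deriv isOpen_ball).continuousOn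
  have a2 : Continuous (dpot r E) := (h1 r E L.rpos L.cont).2
  have a3 : Continuous (fun z : ℂ => (lam : ℂ) / 4 * conj z) := by fun_prop
  exact (a1.sub a3.continuousOn).add a2.continuousOn

theorem id2_dg (h1 : S_PotD) {r : ℝ} {n : ℕ} {lam : ℝ} {h : ℂ → ℂ} {E : ℂ → ℝ}
    (L : Loc r n lam h E) {z : ℂ} (hz : z ∈ ball (0 : ℂ) r) :
    DifferentiableAt ℝ (id2_g r lam h E) z ∧
    ∀ v, fderiv ℝ (id2_g r lam h E) z v = (conj v + conj z *
      ((2 * (id2_q r lam h E z * v).re : ℝ) : ℂ)) * (Real.exp (id2_W r lam h E z) : ℂ) := by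
  have a1 := (id2_dW h1 L hz).exp
  have a2 := Complex.ofRealCLM.hasFDerivAt.comp z a1
  have a3 : HasFDerivAt (fun w : ℂ => conj w) (Complex.conjCLE : ℂ →L[ℝ] ℂ) z :=
    Complex.conjCLE.hasFDerivAt
  have a4 := a3.mul a2
  have a5 : HasFDerivAt (id2_g r lam h E) _ z := a4
  refine ⟨a5.differentiableAt, fun v => ?_⟩
  rw [a5.fderiv]
  simp only [_root_.add_apply, _root_.smul_apply,
    ContinuousLinearMap.comp_apply, Complex.reCLM_apply, ContinuousLinearMap.mul_apply',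
    smul_eq_mul, Complex.ofRealCLM_apply, Function.comp_apply]
  push_cast
  simp only [Complex.conjCLE_apply]
  ring

theorem id2_dzg (h1 : S_PotD) {r : ℝ} {n : ℕ} {lam : ℝ} {h : ℂ → ℂ} {E : ℂ → ℝ}
    (L : Loc r n lam h E) {z : ℂ} (hz : z ∈ ball (0 : ℂ) r) :
    dz (id2_g r lam h E) z = id2_q r lam h E z * id2_g r lam h E z := by
  unfold dz
  rw [(id2_dg h1 L hz).2, (id2_dg h1 L hz).2]
  unfold id2_g
  have e : (((2 * (id2_q r lam h E z * 1).re : ℝ) : ℂ) -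
      I * ((2 * (id2_q r lam h E z * I).re : ℝ) : ℂ)) = 2 * id2_q r lam h E z := by
    apply Complex.ext
    · simp
    · simp
  have e2 : conj (1 : ℂ) - I * conj I = 0 := by
    rw [Complex.conj_I, map_one]
    linear_combination Complex.I_mul_I
  linear_combination (conj z * (Real.exp (id2_W r lam h E z) : ℂ) / 2) * e +
    ((Real.exp (id2_W r lam h E z) : ℂ) / 2) * e2

theorem id2_int {r s : ℝ} (hs : s < r) {a b : ℂ → ℂ} (ha : Continuous a)
    (h0 : ∀ z, s ≤ ‖z‖ → a z = 0) (hb : ContinuousOn b (ball (0 : ℂ) r)) :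
    Integrable (fun z => a z * b z) := by
  have h1 : IntegrableOn (fun z => a z * b z) (closedBall (0 : ℂ) s) := by
    apply ContinuousOn.integrableOn_compact (isCompact_closedBall _ _)
    exact ha.continuousOn.mul (hb.mono (closedBall_subset_ball hs))
  refine h1.integrable_of_forall_notMem_eq_zero fun z hz => ?_
  rw [mem_closedBall_zero_iff, not_le] at hz
  rw [h0 z hz.le, zero_mul]

/-- symmetrisation of a double integral -/
theorem id2_sym {μ : Measure ℂ} [SFinite μ] (A B : ℂ → ℂ)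
    (hk : Integrable (fun p : ℂ × ℂ => A p.1 * B p.2 / (p.1 - p.2)) (μ.prod μ)) :
    ∫ z, ∫ y, (A z * B y - A y * B z) / (z - y) ∂μ ∂μ =
      2 * ∫ z, ∫ y, A z * B y / (z - y) ∂μ ∂μ := by
  have hk2 : Integrable (fun p : ℂ × ℂ => A p.2 * B p.1 / (p.1 - p.2)) (μ.prod μ) := by
    have h1 := hk.swap.neg
    refine h1.congr (Eventually.of_forall fun p => ?_)
    simp only [Pi.neg_apply, Function.comp_apply, Prod.fst_swap, Prod.snd_swap]
    rw [← neg_sub p.1 p.2, div_neg, neg_neg]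
  have e1 : ∫ z, ∫ y, A y * B z / (z - y) ∂μ ∂μ = -∫ z, ∫ y, A z * B y / (z - y) ∂μ ∂μ := by
    have h2 := integral_integral_swap (f := fun z y => A y * B z / (z - y)) (μ := μ) (ν := μ) hk2
    rw [h2, ← integral_neg]
    refine integral_congr_ae (Eventually.of_forall fun z => ?_)
    simp only
    rw [← integral_neg]
    refine integral_congr_ae (Eventually.of_forall fun y => ?_)
    simp only
    rw [← neg_sub z y, div_neg]
  have e2 : ∫ z, ∫ y, (A z * B y - A y * B z) / (z - y) ∂μ ∂μ =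
      (∫ z, ∫ y, A z * B y / (z - y) ∂μ ∂μ) - ∫ z, ∫ y, A y * B z / (z - y) ∂μ ∂μ := by
    rw [← integral_sub hk.integral_prod_left hk2.integral_prod_left]
    refine integral_congr_ae ?_
    filter_upwards [hk.prod_right_ae, hk2.prod_right_ae] with z h3 h4
    rw [← integral_sub h3 h4]
    refine integral_congr_ae (Eventually.of_forall fun y => ?_)
    simp only
    rw [sub_div]
  rw [e2, e1]
  ring

theorem id2_prod (h2 : S_Riesz) {r : ℝ} (hr : 0 < r) {A : ℂ → ℂ} {E : ℂ → ℝ} (hE : Continuous E)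
    (hA : AEStronglyMeasurable A (volume.restrict (ball (0 : ℂ) r)))
    {C : ℝ} (hC : ∀ z ∈ ball (0 : ℂ) r, ‖A z‖ ≤ C) :
    Integrable (fun p : ℂ × ℂ => A p.1 * (E p.2 : ℂ) / (p.1 - p.2))
      ((volume.restrict (ball (0 : ℂ) r)).prod (volume.restrict (ball (0 : ℂ) r))) := by
  obtain ⟨C', hC'⟩ := (isCompact_closedBall (0 : ℂ) r).exists_bound_of_continuousOn
    hE.continuousOn
  have hC0 : 0 ≤ C := (norm_nonneg _).trans (hC 0 (mem_ball_self hr))
  have hC'0 : 0 ≤ C' := (norm_nonneg _).trans (hC' 0 (mem_closedBall_self hr.le))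
  have hm : AEStronglyMeasurable (fun p : ℂ × ℂ => A p.1 * (E p.2 : ℂ) / (p.1 - p.2))
      ((volume.restrict (ball (0 : ℂ) r)).prod (volume.restrict (ball (0 : ℂ) r))) := by
    have a1 := hA.comp_fst (ν := volume.restrict (ball (0 : ℂ) r))
    have a2 : AEStronglyMeasurable (fun p : ℂ × ℂ => (E p.2 : ℂ))
      ((volume.restrict (ball (0 : ℂ) r)).prod (volume.restrict (ball (0 : ℂ) r))) :=
      (by fun_prop : Continuous (fun p : ℂ × ℂ => (E p.2 : ℂ))).aestronglyMeasurable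
    have a3 : AEStronglyMeasurable (fun p : ℂ × ℂ => (p.1 - p.2)⁻¹)
      ((volume.restrict (ball (0 : ℂ) r)).prod (volume.restrict (ball (0 : ℂ) r))) :=
      (by fun_prop : Measurable (fun p : ℂ × ℂ => (p.1 - p.2)⁻¹)).aestronglyMeasurable
    simp only [div_eq_mul_inv]
    exact (a1.mul a2).mul a3
  have hb : ∀ z ∈ ball (0 : ℂ) r, ∀ y ∈ ball (0 : ℂ) r,
      ‖A z * (E y : ℂ) / (z - y)‖ ≤ C * C' * (1 / ‖z - y‖) := by
    intro z hz y hy
    rw [norm_div, norm_mul, Complex.norm_real, div_eq_mul_one_div]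
    exact mul_le_mul_of_nonneg_right (mul_le_mul (hC z hz) (hC' y (ball_subset_closedBall hy))
      (norm_nonneg _) hC0) (by positivity)
  have hR : ∀ z, IntegrableOn (fun y => C * C' * (1 / ‖z - y‖)) (ball (0 : ℂ) r) := fun z =>
    (h2 0 z r hr).1.const_mul _
  rw [integrable_prod_iff hm]
  constructor
  · filter_upwards [hm.prodMk_left, ae_restrict_mem measurableSet_ball] with z h3 hz
    refine (hR z).mono' h3 ?_
    filter_upwards [ae_restrict_mem measurableSet_ball] with y hy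
    exact hb z hz y hy
  · have : IsFiniteMeasure (volume.restrict (ball (0 : ℂ) r)) :=
      ⟨by rw [Measure.restrict_apply_univ]; exact measure_ball_lt_top⟩
    refine Integrable.of_bound (C := C * C' * (6 * π * r)) hm.norm.integral_prod_right' ?_
    filter_upwards [hm.prodMk_left, ae_restrict_mem measurableSet_ball] with z h3 hz
    have h4 : ∫ y in ball (0 : ℂ) r, ‖A z * (E y : ℂ) / (z - y)‖ ≤
        ∫ y in ball (0 : ℂ) r, C * C' * (1 / ‖z - y‖) := by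
      refine integral_mono_ae ?_ (hR z) ?_
      · refine Integrable.norm ((hR z).mono' h3 ?_)
        filter_upwards [ae_restrict_mem measurableSet_ball] with y hy
        exact hb z hz y hy
      · filter_upwards [ae_restrict_mem measurableSet_ball] with y hy
        exact hb z hz y hy
    rw [Real.norm_of_nonneg (integral_nonneg fun y => norm_nonneg _)]
    refine h4.trans ?_
    rw [integral_const_mul]
    exact mul_le_mul_of_nonneg_left (h2 0 z r hr).2 (by positivity)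

theorem pr_Id2 (h1 : S_PotD) (h2 : S_Riesz) : S_Id2 := by
  intro r lam h E L ψ hψ ⟨s, hs, hψ0⟩
  set g := id2_g r lam h E with hg
  set B := ball (0 : ℂ) r with hB
  have hEg : ∀ z ∈ B, (E z : ℂ) / z = g z := by
    intro z hz
    have h3 := L.rep z hz
    rw [h3, hg, id2_g, id2_W]
    by_cases hz0 : z = 0
    · simp [hz0]
    · rw [div_eq_iff hz0]
      push_cast
      rw [← Complex.conj_mul']
      ring
  -- continuity
  have hgc : ContinuousOn g B := fun z hz =>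
    (id2_dg h1 L hz).1.continuousAt.continuousWithinAt
  have hfg : ∀ v, ContinuousOn (fun z => fderiv ℝ g z v) B := by
    intro v
    have h3 : ContinuousOn (fun z => (conj v + conj z *
      ((2 * (id2_q r lam h E z * v).re : ℝ) : ℂ)) * (Real.exp (id2_W r lam h E z) : ℂ)) B := by
      have b1 := id2_qcont h1 L
      have b2 := id2_Wcont h1 L
      have b3 : ContinuousOn (fun z => ((2 * (id2_q r lam h E z * v).re : ℝ) : ℂ)) B :=
        Complex.continuous_ofReal.comp_continuousOn (continuousOn_const.mul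
          (Complex.continuous_re.comp_continuousOn (b1.mul continuousOn_const)))
      have b4 : ContinuousOn (fun z => (Real.exp (id2_W r lam h E z) : ℂ)) B :=
        Complex.continuous_ofReal.comp_continuousOn (Real.continuous_exp.comp_continuousOn b2)
      exact (continuousOn_const.add (Complex.continuous_conj.continuousOn.mul b3)).mul b4
    refine h3.congr fun z hz => ?_
    exact (id2_dg h1 L hz).2 v
  -- the support
  obtain ⟨s', hs1, hs2⟩ := exists_between hs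
  have hd0 : ∀ z, s' ≤ ‖z‖ → fderiv ℝ ψ z = 0 := by
    intro z hz
    have h3 : ψ =ᶠ[𝓝 z] fun _ => 0 := by
      have h4 : ∀ᶠ w in 𝓝 z, s < ‖w‖ :=
        continuous_norm.continuousAt.eventually (lt_mem_nhds (hs1.trans_le hz))
      filter_upwards [h4] with w hw
      exact hψ0 w hw.le
    rw [h3.fderiv_eq]
    simp
  have hcd : ∀ v, Continuous (fun z => fderiv ℝ ψ z v) := fun v =>
    (hψ.continuous_fderiv (by norm_num)).clm_apply continuous_const
  have hts : tsupport ψ ⊆ B := by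
    refine (closure_minimal (fun z hz => ?_) isClosed_closedBall).trans
      (closedBall_subset_ball hs)
    rw [mem_closedBall_zero_iff]
    by_contra hc
    exact hz (hψ0 z (not_le.1 hc).le)
  -- integration by parts
  have i1 : ∀ v, Integrable (fun z => fderiv ℝ ψ z v * g z) := fun v =>
    id2_int hs2 (hcd v) (fun z hz => by rw [hd0 z hz]; rfl) hgc
  have i2 : ∀ v, Integrable (fun z => ψ z * fderiv ℝ g z v) := fun v =>
    id2_int hs hψ.continuous hψ0 (hfg v)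
  have i3 : Integrable (fun z => ψ z * g z) := id2_int hs hψ.continuous hψ0 hgc
  have hp : ∀ v, ∫ z, ψ z * fderiv ℝ g z v = -∫ z, fderiv ℝ ψ z v * g z := fun v =>
    integral_mul_fderiv_eq_neg_fderiv_mul_of_integrable (i1 v) (i2 v) i3
      (fun z _ => (hψ.differentiable (by norm_num)) z) (fun z hz => (id2_dg h1 L (hts hz)).1)
  have ij : ∀ v, Integrable (fun z => ψ z * fderiv ℝ g z v + fderiv ℝ ψ z v * g z) :=
    fun v => (i2 v).add (i1 v)
  have hz0 : ∫ z, (ψ z * dz g z + dz ψ z * g z) = 0 := by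
    have e1 : ∀ z, ψ z * dz g z + dz ψ z * g z =
        (1 / 2) * (ψ z * fderiv ℝ g z 1 + fderiv ℝ ψ z 1 * g z) -
        (I / 2) * (ψ z * fderiv ℝ g z I + fderiv ℝ ψ z I * g z) := by
      intro z
      unfold dz
      ring
    simp only [e1]
    rw [integral_sub ((ij 1).const_mul _) ((ij I).const_mul _),
      integral_const_mul, integral_const_mul, integral_add (i2 1) (i1 1),
      integral_add (i2 I) (i1 I), hp, hp]
    ring
  have hz1 : ∫ z in B, (ψ z * dz g z + dz ψ z * g z) = 0 := by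
    rw [setIntegral_eq_integral_of_forall_compl_eq_zero, hz0]
    intro z hz
    have h3 : r ≤ ‖z‖ := by
      rw [hB, mem_ball_zero_iff, not_lt] at hz
      exact hz
    have h4 : dz ψ z = 0 := by
      unfold dz
      rw [hd0 z (hs2.le.trans h3)]
      simp
    rw [hψ0 z (hs.le.trans h3), h4]
    ring
  -- the product A
  set A : ℂ → ℂ := fun z => ψ z / z * (E z : ℂ) with hA
  have hAg : ∀ z ∈ B, A z = ψ z * g z := by
    intro z hz
    rw [hA, ← hEg z hz]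
    ring
  have hAm : AEStronglyMeasurable A (volume.restrict B) := by
    refine (i3.aestronglyMeasurable.restrict (s := B)).congr ?_
    filter_upwards [ae_restrict_mem measurableSet_ball] with z hz
    exact (hAg z hz).symm
  obtain ⟨C, hC⟩ := (isCompact_closedBall (0 : ℂ) s').exists_bound_of_continuousOn
    (hψ.continuous.continuousOn.mul (hgc.mono (closedBall_subset_ball hs2)))
  have hCA : ∀ z ∈ B, ‖A z‖ ≤ max C 0 := by
    intro z hz
    rw [hAg z hz]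
    rcases le_or_gt ‖z‖ s' with h3 | h3
    · exact (hC z (mem_closedBall_zero_iff.2 h3)).trans (le_max_left _ _)
    · rw [hψ0 z (hs1.le.trans h3.le), zero_mul, norm_zero]
      exact le_max_right _ _
  have hK := id2_prod h2 L.rpos L.cont hAm hCA
  have hsym := id2_sym (μ := volume.restrict B) A (fun y => (E y : ℂ)) hK
  have hdpc : Continuous (dpot r E) := (h1 r E L.rpos L.cont).2
  have hJ : ∫ z in B, A z * dpot r E z =
      -(1 / (4 * π)) * ∫ z in B, ∫ y in B, A z * (E y : ℂ) / (z - y) := by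
    rw [← integral_const_mul]
    refine integral_congr_ae (Eventually.of_forall fun z => ?_)
    simp only [dpot]
    rw [mul_left_comm, ← integral_const_mul]
    congr 1
    refine integral_congr_ae (Eventually.of_forall fun y => ?_)
    simp only
    ring
  have iA : IntegrableOn (fun z => A z * dpot r E z) B := by
    have h3 : Integrable (fun z => ψ z * (g z * dpot r E z)) :=
      id2_int hs hψ.continuous hψ0 (hgc.mul hdpc.continuousOn)
    refine (h3.integrableOn (s := B)).congr ?_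
    filter_upwards [ae_restrict_mem measurableSet_ball] with z hz
    rw [hAg z hz]
    ring
  have iL : IntegrableOn (fun z => (dz ψ z / z + ψ z / z *
      (deriv h z - lam / 4 * conj z)) * (E z : ℂ)) B := by
    have h3 : IntegrableOn (fun z => (ψ z * dz g z + dz ψ z * g z) - A z * dpot r E z) B := by
      refine Integrable.sub ?_ iA
      refine Integrable.integrableOn ?_
      have e1 : (fun z => ψ z * dz g z + dz ψ z * g z) = fun z =>
          (1 / 2) * (ψ z * fderiv ℝ g z 1 + fderiv ℝ ψ z 1 * g z) -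
          (I / 2) * (ψ z * fderiv ℝ g z I + fderiv ℝ ψ z I * g z) := by
        funext z
        unfold dz
        ring
      rw [e1]
      exact (((i2 1).add (i1 1)).const_mul _).sub (((i2 I).add (i1 I)).const_mul _)
    refine h3.congr ?_
    filter_upwards [ae_restrict_mem measurableSet_ball] with z hz
    have h4 : dz g z = id2_q r lam h E z * g z := id2_dzg h1 L hz
    rw [h4, hAg z hz]
    have h5 := hEg z hz
    unfold id2_q
    linear_combination (-(dz ψ z) - ψ z * (deriv h z - lam / 4 * conj z)) * h5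
  have hfin : ∫ z in B, ((dz ψ z / z + ψ z / z * (deriv h z - lam / 4 * conj z)) * (E z : ℂ) +
      A z * dpot r E z) = 0 := by
    rw [← hz1]
    refine setIntegral_congr_fun measurableSet_ball fun z hz => ?_
    have h4 : dz g z = id2_q r lam h E z * g z := id2_dzg h1 L hz
    rw [h4, hAg z hz]
    have h5 := hEg z hz
    unfold id2_q
    linear_combination (dz ψ z + ψ z * (deriv h z - lam / 4 * conj z)) * h5
  rw [integral_add iL iA, hJ] at hfin
  have hD : ∫ z in B, ∫ y in B, (ψ z / z - ψ y / y) / (z - y) * (E z : ℂ) * (E y : ℂ) =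
      ∫ z in B, ∫ y in B, (A z * (E y : ℂ) - A y * (E z : ℂ)) / (z - y) := by
    refine integral_congr_ae (Eventually.of_forall fun z => ?_)
    refine integral_congr_ae (Eventually.of_forall fun y => ?_)
    simp only [hA]
    ring
  rw [hD, hsym]
  linear_combination hfin

end Pool.Agent.Vx

end

section

/-!
# MP_afe918_an, item LT: the local theorem (helper63)
-/

set_option autoImplicit false

open Complex Set Filter Topology MeasureTheory Metric
open scoped Real ContDiff ComplexConjugate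

namespace Pool.Agent.Vx

theorem LT_et_pos (h : ℂ → ℂ) : 0 < et h := Real.exp_pos _

/-- The common end of the cases `n = 0` and `n ≥ 2`. -/
theorem LT_core {D Ds A e lam : ℕ → ℝ} {lam0 c C : ℝ} (hlam0 : 0 < lam0)
    (hl : ∀ j, lam0 ≤ lam j) (hc : 0 < c) (he : ∀ j, 0 < e j)
    (hA : Tendsto (fun j => A j / e j) atTop atTop)
    (hq : Tendsto (fun j => c * Ds j / A j - lam j / 4) atTop (𝓝 0))
    (hD : ∀ j, Ds j - D j ≤ C * e j) : Tendsto (fun j => D j / e j) atTop atTop := by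
  have h1 : Tendsto (fun j => lam0 / (8 * c) * (A j / e j) - C) atTop atTop :=
    tendsto_atTop_add_const_right _ (-C) (hA.const_mul_atTop (by positivity))
  refine tendsto_atTop_mono' atTop ?_ h1
  have h2 : ∀ᶠ j in atTop, -(lam0 / 8) < c * Ds j / A j - lam j / 4 :=
    hq.eventually (lt_mem_nhds (by linarith))
  filter_upwards [h2, hA.eventually_gt_atTop 0] with j hj1 hj2
  have hej := he j
  have hAj : 0 < A j := by
    have := mul_pos hj2 hej
    rwa [div_mul_cancel₀ _ hej.ne'] at this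
  have h3 : lam0 / 8 < c * Ds j / A j := by
    have := hl j
    linarith
  rw [lt_div_iff₀ hAj] at h3
  have h4 : lam0 / (8 * c) * A j ≤ Ds j := by
    have : lam0 / (8 * c) * A j = (lam0 / 8 * A j) / c := by field_simp
    rw [this, div_le_iff₀ hc]
    linarith
  have h5 : lam0 / (8 * c) * (A j / e j) - C = (lam0 / (8 * c) * A j - C * e j) / e j := by
    field_simp
  show lam0 / (8 * c) * (A j / e j) - C ≤ D j / e j
  rw [h5]
  have h6 := hD j
  exact div_le_div_of_nonneg_right (by linarith) hej.le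

theorem LT_BU_sub {r : ℝ} {n : ℕ} {H Λ : ℝ} {lam : ℕ → ℝ} {h : ℕ → ℂ → ℂ} {E : ℕ → ℂ → ℝ}
    (hB : BU r n H Λ lam h E) {φ : ℕ → ℕ} (hφ : StrictMono φ) :
    BU r n H Λ (fun j => lam (φ j)) (fun j => h (φ j)) (fun j => E (φ j)) where
  loc j := hB.loc _
  lamb j := hB.lamb _
  hH j := hB.hH _
  out s hs := by
    obtain ⟨C, hC⟩ := hB.out s hs
    exact ⟨C, fun j => hC _⟩
  small := hB.small.comp hφ.tendsto_atTop
  mass := hB.mass.comp hφ.tendsto_atTop

/-- Two bubbles at a simple vortex whose mass is not below the critical value. -/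
theorem LT_TB (h8 : S_TBfin) {r H Λ lam0 K : ℝ} {R lam eta kap : ℕ → ℝ} {h : ℕ → ℂ → ℂ}
    {E : ℕ → ℂ → ℝ} (hT : TB r H Λ R lam eta kap h E) (hlam0 : 0 < lam0)
    (hl : ∀ j, lam0 ≤ lam j) (hD : ∀ j, 16 * π - ms (r / R j) (E j) ≤ K * eta j) : False := by
  have hf := h8 r H Λ R lam eta kap h E hT
  obtain ⟨C, hC⟩ := hT.eta
  have h2 : ∀ᶠ j in atTop, -(lam0 / 8) < (16 * π - ms (r / R j) (E j)) /
      (R j ^ 2 * (ba 1 (E j) + ba (-1) (E j))) - lam j / 4 :=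
    hf.eventually (lt_mem_nhds (by linarith))
  have hR1 : ∀ᶠ j in atTop, R j < 1 := hT.pl.R0.eventually (gt_mem_nhds (by norm_num))
  have ha1 := hT.a1.eventually_gt_atTop (8 * (|K| * |C|) / lam0)
  have ha10 := hT.a1.eventually_gt_atTop 0
  have ha2 := hT.a2.eventually_gt_atTop 0
  obtain ⟨j, hj2, hjR, hj1, hj10, hja2⟩ := (h2.and (hR1.and (ha1.and (ha10.and ha2)))).exists
  have hk := hT.kpos j
  have hR := hT.pl.Rpos j
  have he := hT.pl.etapos j
  have hb1 : 0 < ba 1 (E j) := by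
    have := mul_pos hj10 hk
    rwa [div_mul_cancel₀ _ hk.ne'] at this
  have hb2 : 0 < ba (-1) (E j) := by
    have := mul_pos hja2 hk
    rwa [div_mul_cancel₀ _ hk.ne'] at this
  have hb : 0 < R j ^ 2 * (ba 1 (E j) + ba (-1) (E j)) := by positivity
  have h3 : lam0 / 8 < (16 * π - ms (r / R j) (E j)) /
      (R j ^ 2 * (ba 1 (E j) + ba (-1) (E j))) := by
    have := hl j
    linarith
  rw [lt_div_iff₀ hb] at h3
  have h4 : 16 * π - ms (r / R j) (E j) ≤ |K| * (|C| * kap j * R j ^ 4) := by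
    calc 16 * π - ms (r / R j) (E j) ≤ K * eta j := hD j
      _ ≤ |K| * eta j := by gcongr; exact le_abs_self K
      _ ≤ |K| * (|C| * kap j * R j ^ 4) := by
          refine mul_le_mul_of_nonneg_left ((hC j).trans ?_) (abs_nonneg K)
          gcongr
          exact le_abs_self C
  have h5 : 8 * (|K| * |C|) < lam0 * (ba 1 (E j) / kap j) := by
    rw [div_lt_iff₀ hlam0] at hj1
    rw [mul_comm lam0]
    exact hj1
  have h6 : 8 * (|K| * |C|) * kap j < lam0 * ba 1 (E j) := by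
    have := mul_lt_mul_of_pos_right h5 hk
    rwa [mul_assoc lam0, div_mul_cancel₀ _ hk.ne'] at this
  have h7 : R j ^ 2 ≤ 1 := by nlinarith
  have h8' : |K| * (|C| * kap j * R j ^ 4) ≤ |K| * |C| * kap j * R j ^ 2 := by
    have : |K| * (|C| * kap j * R j ^ 4) = |K| * |C| * kap j * R j ^ 2 * R j ^ 2 := by ring
    rw [this]
    exact mul_le_of_le_one_right (by positivity) h7
  have h9 : |K| * |C| * kap j * R j ^ 2 ≤ lam0 / 8 * (R j ^ 2 * (ba 1 (E j) + ba (-1) (E j))) := by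
    have e1 : |K| * |C| * kap j * R j ^ 2 = (|K| * |C| * kap j) * R j ^ 2 := by ring
    have e2 : lam0 / 8 * (R j ^ 2 * (ba 1 (E j) + ba (-1) (E j))) =
      (lam0 / 8 * (ba 1 (E j) + ba (-1) (E j))) * R j ^ 2 := by ring
    rw [e1, e2]
    refine mul_le_mul_of_nonneg_right ?_ (by positivity)
    nlinarith [mul_pos hlam0 hb2]
  linarith

/-- L30: the local theorem. -/
theorem pr_LT (h1 : S_A) (h2 : S_BUf) (h3 : S_n0) (h4 : S_n2) (h5 : S_n1c) (h6 : S_PLx)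
    (h7 : S_PLTB) (h8 : S_TBfin) : S_LT := by
  intro r n H Λ lam0 lam h E hB hlam0 hl
  have hr : 0 < r := (hB.loc 0).rpos
  have hs : 0 < r / 4 := by linarith
  have hs2 : 2 * (r / 4) < r := by linarith
  have hsr : r / 4 < r := by linarith
  have hez : ∀ j, 0 < et (h j) := fun j => LT_et_pos _
  obtain ⟨-, ⟨C, hC⟩, -⟩ := h2 r n H Λ lam h E hB (fun _ => 0) tendsto_const_nhds (r / 4) hs hsr
  rcases Nat.lt_or_ge 1 n with hn | hn
  · -- `n ≥ 2`
    have hA := h1 r n H Λ lam h E hB (fun _ => 0) tendsto_const_nhds (r / 4) hs hsr.le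
    have hq := h4 r H Λ n lam h E hn hB (r / 4) hs hs2
    simp only [sub_zero] at hA
    refine LT_core (Ds := fun j => 8 * π * (1 + n) - ms (r / 4) (E j)) (C := C)
      (c := 1 + (n : ℝ)) hlam0 hl (by positivity) hez hA hq ?_
    intro j
    have := hC j
    linarith
  · rcases Nat.lt_or_ge 0 n with hn0 | hn0
    · -- `n = 1`
      obtain rfl : n = 1 := by omega
      by_contra hnot
      rw [Filter.tendsto_atTop] at hnot
      push Not at hnot
      obtain ⟨K, hK⟩ := hnot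
      obtain ⟨φ, hφ, hφK⟩ := extraction_of_frequently_atTop hK
      have hB' := LT_BU_sub hB hφ
      have hD : ∀ j, 16 * π - ms r (E (φ j)) ≤ K * et (h (φ j)) := by
        intro j
        have h1 := hφK j
        rw [div_lt_iff₀ (hez _)] at h1
        push_cast at h1
        linarith
      have hlim := h5 r H Λ lam0 K _ _ _ hB' hlam0 (fun j => hl _) hD (r / 4) hs hs2
      obtain ⟨φ', R, h', E', hφ', hPL, hms⟩ := h6 r H Λ (r / 4) _ _ _ hB' hs hs2 hlim
      obtain ⟨ψ, kap, hψ, hTB⟩ := h7 r H Λ R _ _ h' E' hPL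
      refine LT_TB h8 hTB hlam0 (fun j => hl _) (K := K) ?_
      intro j
      rw [hms]
      exact hD _
    · -- `n = 0`
      obtain rfl : n = 0 := by omega
      obtain ⟨hb, hq, -⟩ := h3 r H Λ lam h E hB (r / 4) hs hs2
        (fun j => mo (r / 4) (E j) (fun z => z) / ms (r / 4) (E j)) (fun j => rfl)
      have hA := h1 r 0 H Λ lam h E hB _ hb (r / 4) hs hsr.le
      refine LT_core (Ds := fun j => 8 * π - ms (r / 4) (E j)) (C := C)
        (c := 1) hlam0 hl one_pos hez hA (by simpa only [one_mul] using hq) ?_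
      intro j
      have := hC j
      push_cast
      linarith

end Pool.Agent.Vx

end

section

/-!
# MP_afe918_an, item LogI: the logarithm and its square are locally integrable in the plane
-/

set_option autoImplicit false

open Complex Set Filter Topology MeasureTheory Metric
open scoped Real

namespace Pool.Agent.Vx

theorem LogI_cont : Continuous fun x : ℝ => 4 * (√x * Real.log √x) ^ 2 :=
  continuous_const.mul ((Real.continuous_mul_log.comp Real.continuous_sqrt).pow 2)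

theorem LogI_eq {x : ℝ} (hx : 0 ≤ x) : x * Real.log x ^ 2 = 4 * (√x * Real.log √x) ^ 2 := by
  rw [Real.log_sqrt hx, mul_pow, Real.sq_sqrt hx]
  ring

theorem LogI_rad (R : ℝ) :
    Integrable (fun y : ℂ => (Iio R).indicator (fun t => Real.log t ^ 2) ‖y‖) := by
  rw [integrable_fun_norm_addHaar (volume : Measure ℂ)
    (f := fun s => (Iio R).indicator (fun t => Real.log t ^ 2) s)]
  have h1 : IntegrableOn (fun x : ℝ => 4 * (√x * Real.log √x) ^ 2) (Icc 0 R) :=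
    LogI_cont.integrableOn_Icc
  have h2 : IntegrableOn (fun x : ℝ => 4 * (√x * Real.log √x) ^ 2) (Iio R ∩ Ioi 0) :=
    h1.mono_set fun x hx => ⟨le_of_lt hx.2, le_of_lt hx.1⟩
  have h3 : IntegrableOn (fun x : ℝ => (Iio R).indicator
      (fun x : ℝ => 4 * (√x * Real.log √x) ^ 2) x) (Ioi 0) := by
    rw [integrableOn_indicator_iff measurableSet_Iio]
    exact h2
  refine h3.congr_fun (fun x hx => ?_) measurableSet_Ioi
  have hx0 : 0 ≤ x := le_of_lt hx
  by_cases hR : x ∈ Iio R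
  · simp only [indicator_of_mem hR, Complex.finrank_real_complex, smul_eq_mul]
    rw [← LogI_eq hx0]
    ring
  · simp [indicator_of_notMem hR]

theorem pr_LogI : S_LogI := by
  intro c z r hr
  have h1 : Integrable (fun y : ℂ => (Iio (‖z - c‖ + r)).indicator
      (fun t => Real.log t ^ 2) ‖z - y‖) := (LogI_rad (‖z - c‖ + r)).comp_sub_left z
  have h2 : IntegrableOn (fun y => Real.log ‖z - y‖ ^ 2) (ball c r) := by
    refine h1.integrableOn.congr_fun (fun y hy => ?_) measurableSet_ball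
    have h3 : ‖z - y‖ < ‖z - c‖ + r := by
      have h4 : ‖c - y‖ < r := by
        rw [← dist_eq_norm, dist_comm]
        exact hy
      calc ‖z - y‖ = ‖(z - c) + (c - y)‖ := by ring_nf
        _ ≤ ‖z - c‖ + ‖c - y‖ := norm_add_le _ _
        _ < ‖z - c‖ + r := by linarith
    exact indicator_of_mem (show ‖z - y‖ ∈ Iio (‖z - c‖ + r) from h3) _
  refine ⟨?_, h2⟩
  have h5 : IntegrableOn (fun _ : ℂ => (1 : ℝ)) (ball c r) :=
    integrableOn_const measure_ball_lt_top.ne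
  refine (h5.add h2).mono' ?_ (Eventually.of_forall fun y => ?_)
  · exact (Real.measurable_log.comp
      (measurable_const.sub measurable_id).norm).aestronglyMeasurable
  · have h6 : ∀ t : ℝ, ‖t‖ ≤ 1 + t ^ 2 := fun t => by
      rw [Real.norm_eq_abs]
      nlinarith [sq_abs t, abs_nonneg t, sq_nonneg (|t| - 1)]
    exact h6 _

end Pool.Agent.Vx

end

section

/-!
# MP_afe918_an: auxiliary facts for the items n1a and n1b (helper85)
-/

set_option autoImplicit false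

open Complex Set Filter Topology MeasureTheory Metric
open scoped Real ContDiff ComplexConjugate

namespace Pool.Agent.Vx

/-- Cauchy estimates for a bounded holomorphic function on a ball. -/
theorem n1x_cauchy (r H : ℝ) (hr : 0 < r) (hH : 0 ≤ H) : ∃ C : ℝ, 0 ≤ C ∧ ∀ h : ℂ → ℂ,
    DifferentiableOn ℂ h (ball 0 r) → (∀ z ∈ ball (0 : ℂ) r, ‖deriv h z‖ ≤ H) →
    ‖deriv (deriv h) 0‖ ≤ C ∧
    (∀ z ∈ ball (0 : ℂ) r, ‖deriv h z - deriv h 0‖ ≤ C * ‖z‖) ∧
    ∀ z ∈ ball (0 : ℂ) r, ‖deriv h z - deriv h 0 - deriv (deriv h) 0 * z‖ ≤ C * ‖z‖ ^ 2 := by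
  set C1 : ℝ := 2 * H / r with hC1
  set C2 : ℝ := 2 * C1 / r with hC2
  have hC1' : 0 ≤ C1 := by positivity
  have hC2' : 0 ≤ C2 := by positivity
  refine ⟨C1 + C2, by positivity, fun h hd hb => ?_⟩
  have h0 : (0 : ℂ) ∈ ball (0 : ℂ) r := mem_ball_self hr
  have hg : DifferentiableOn ℂ (deriv h) (ball 0 r) := hd.deriv isOpen_ball
  set g := deriv h with hgdef
  have hm : MapsTo g (ball 0 r) (closedBall (g 0) (2 * H)) := by
    intro z hz
    rw [mem_closedBall, dist_eq_norm]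
    calc ‖g z - g 0‖ ≤ ‖g z‖ + ‖g 0‖ := norm_sub_le _ _
      _ ≤ 2 * H := by linarith [hb z hz, hb 0 h0]
  have hs1 : ∀ z ∈ ball (0 : ℂ) r, ‖dslope g 0 z‖ ≤ C1 := fun z hz =>
    norm_dslope_le_div_of_mapsTo_ball hg hm hz
  have hg1 : DifferentiableOn ℂ (dslope g 0) (ball 0 r) :=
    (differentiableOn_dslope (ball_mem_nhds _ hr)).2 hg
  have hm1 : MapsTo (dslope g 0) (ball 0 r) (closedBall (dslope g 0 0) (2 * C1)) := by
    intro z hz
    rw [mem_closedBall, dist_eq_norm]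
    calc ‖dslope g 0 z - dslope g 0 0‖ ≤ ‖dslope g 0 z‖ + ‖dslope g 0 0‖ := norm_sub_le _ _
      _ ≤ 2 * C1 := by linarith [hs1 z hz, hs1 0 h0]
  have hs2 : ∀ z ∈ ball (0 : ℂ) r, ‖dslope (dslope g 0) 0 z‖ ≤ C2 := fun z hz =>
    norm_dslope_le_div_of_mapsTo_ball hg1 hm1 hz
  have e1 : ∀ z : ℂ, g z - g 0 = z * dslope g 0 z := by
    intro z
    have := sub_smul_dslope g 0 z
    simpa using this.symm
  have e2 : ∀ z : ℂ, dslope g 0 z - deriv g 0 = z * dslope (dslope g 0) 0 z := by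
    intro z
    have := sub_smul_dslope (dslope g 0) 0 z
    rw [dslope_same] at this
    simpa using this.symm
  refine ⟨?_, fun z hz => ?_, fun z hz => ?_⟩
  · have := hs1 0 h0
    rw [dslope_same] at this
    linarith
  · rw [e1 z, norm_mul, mul_comm]
    have := hs1 z hz
    have : ‖dslope g 0 z‖ ≤ C1 + C2 := by linarith
    exact mul_le_mul_of_nonneg_right this (norm_nonneg _)
  · have : g z - g 0 - deriv g 0 * z = z * (z * dslope (dslope g 0) 0 z) := by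
      rw [e1 z, ← e2 z]; ring
    rw [this, norm_mul, norm_mul, ← mul_assoc, ← pow_two, mul_comm]
    have := hs2 z hz
    have : ‖dslope (dslope g 0) 0 z‖ ≤ C1 + C2 := by linarith
    exact mul_le_mul_of_nonneg_right this (by positivity)

/-- Integrability against the density. -/
theorem n1x_int {r s : ℝ} {E : ℂ → ℝ} (hE : Continuous E) (hs : s < r) {f : ℂ → ℂ}
    (hf : ContinuousOn f (ball 0 r)) :
    IntegrableOn (fun z => f z * (E z : ℂ)) (ball (0 : ℂ) s) := by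
  have hc : ContinuousOn (fun z => f z * (E z : ℂ)) (closedBall (0 : ℂ) s) :=
    (hf.mono (closedBall_subset_ball hs)).mul (continuous_ofReal.comp hE).continuousOn
  exact (hc.integrableOn_compact (isCompact_closedBall _ _)).mono_set ball_subset_closedBall

theorem n1x_intR {s : ℝ} {f : ℂ → ℝ} (hf : Continuous f) :
    IntegrableOn f (ball (0 : ℂ) s) :=
  (hf.continuousOn.integrableOn_compact (isCompact_closedBall (0 : ℂ) s)).mono_set
    ball_subset_closedBall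

theorem n1x_bound {s C : ℝ} {E : ℂ → ℝ} (hE : Continuous E) (hE0 : ∀ z, 0 ≤ E z) {f : ℂ → ℂ}
    {k : ℕ} (hf : ∀ z ∈ ball (0 : ℂ) s, ‖f z‖ ≤ C * ‖z‖ ^ k) :
    ‖mo s E f‖ ≤ C * ∫ z in ball (0 : ℂ) s, ‖z‖ ^ k * E z := by
  unfold mo
  rw [← integral_const_mul]
  refine norm_integral_le_of_norm_le ((n1x_intR (by fun_prop)).const_mul C) ?_
  refine (ae_restrict_iff' measurableSet_ball).2 (Eventually.of_forall fun z hz => ?_)
  rw [norm_mul, Complex.norm_real, Real.norm_of_nonneg (hE0 z), ← mul_assoc]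
  exact mul_le_mul_of_nonneg_right (hf z hz) (hE0 z)

theorem n1x_norm_mo_pow {s : ℝ} {E : ℂ → ℝ} (hE : Continuous E) (hE0 : ∀ z, 0 ≤ E z) (k : ℕ) :
    ‖mo s E (fun z => z ^ k)‖ ≤ ∫ z in ball (0 : ℂ) s, ‖z‖ ^ k * E z := by
  have := n1x_bound (s := s) (C := 1) hE hE0 (f := fun z => z ^ k) (k := k)
    (fun z _ => by simp)
  simpa using this

theorem n1x_mo_const {s : ℝ} {E : ℂ → ℝ} (c : ℂ) :
    mo s E (fun _ => c) = c * (ms s E : ℂ) := by
  unfold mo ms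
  rw [integral_const_mul]
  congr 1
  exact integral_ofReal

/-- The ball sequence is positive. -/
theorem n1x_H {r : ℝ} {n : ℕ} {H Λ : ℝ} {lam : ℕ → ℝ} {h : ℕ → ℂ → ℂ} {E : ℕ → ℂ → ℝ}
    (hb : BU r n H Λ lam h E) : 0 < r ∧ 0 ≤ H ∧ 0 ≤ Λ := by
  have hr := (hb.loc 0).rpos
  exact ⟨hr, (norm_nonneg _).trans (hb.hH 0 0 (mem_ball_self hr)),
    ((hb.loc 0).lam0).trans (hb.lamb 0)⟩

end Pool.Agent.Vx

end

section

/-!
# MP_afe918_an, item PLx: rotating and rescaling a blow-up sequence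
-/

set_option autoImplicit false

open Complex Set Filter Topology MeasureTheory Metric
open scoped Real ContDiff ComplexConjugate Pointwise

namespace Pool.Agent.Vx

theorem PLx_cont (E : ℂ → ℝ) (hE : Continuous E) : Continuous (fun t : ℝ => ms t E) := by
  rw [continuous_iff_continuousAt]
  intro t0
  have hform : (fun t : ℝ => ms t E) = fun t => ∫ z, (ball (0 : ℂ) t).indicator E z := by
    funext t
    rw [integral_indicator measurableSet_ball]
    rfl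
  rw [hform]
  apply continuousAt_of_dominated
    (bound := (closedBall (0 : ℂ) (t0 + 1)).indicator (fun z => ‖E z‖))
  · exact Eventually.of_forall fun t => hE.aestronglyMeasurable.indicator measurableSet_ball
  · filter_upwards [Iio_mem_nhds (show t0 < t0 + 1 by linarith)] with t ht
    refine Eventually.of_forall fun z => ?_
    by_cases hz : z ∈ ball (0 : ℂ) t
    · rw [indicator_of_mem hz, indicator_of_mem]
      have h1 : t < t0 + 1 := ht
      have h2 := mem_ball.1 hz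
      exact mem_closedBall.2 (by linarith)
    · rw [indicator_of_notMem hz, norm_zero]
      exact indicator_nonneg (fun _ _ => norm_nonneg _) _
  · exact (integrable_indicator_iff measurableSet_closedBall).2
      (hE.norm.continuousOn.integrableOn_compact (isCompact_closedBall _ _))
  · have hnull : ∀ᵐ z : ℂ, z ∉ sphere (0 : ℂ) t0 := by
      rw [ae_iff]
      simp only [not_not]
      exact Measure.addHaar_sphere _ _ _
    filter_upwards [hnull] with z hz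
    have hne : ‖z‖ ≠ t0 := by simpa using hz
    rcases lt_or_gt_of_ne hne with hlt | hgt
    · have hev : (fun t : ℝ => (ball (0 : ℂ) t).indicator E z) =ᶠ[𝓝 t0] fun _ => E z := by
        filter_upwards [Ioi_mem_nhds hlt] with t ht
        exact indicator_of_mem (by simpa using ht) _
      exact (continuousAt_const (y := E z)).congr hev.symm
    · have hev : (fun t : ℝ => (ball (0 : ℂ) t).indicator E z) =ᶠ[𝓝 t0] fun _ => 0 := by
        filter_upwards [Iio_mem_nhds hgt] with t ht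
        refine indicator_of_notMem ?_ _
        have h1 : t < ‖z‖ := ht
        simpa using h1.le
      exact (continuousAt_const (y := (0 : ℝ))).congr hev.symm

theorem PLx_int (E : ℂ → ℝ) (hE : Continuous E) (t : ℝ) : IntegrableOn E (ball (0 : ℂ) t) :=
  (hE.continuousOn.integrableOn_compact (isCompact_closedBall _ _)).mono_set ball_subset_closedBall

theorem PLx_mono (E : ℂ → ℝ) (hE : Continuous E) (h0 : ∀ z, 0 ≤ E z) {t t' : ℝ} (h : t ≤ t') :
    ms t E ≤ ms t' E :=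
  setIntegral_mono_set (PLx_int E hE t') (Eventually.of_forall h0)
    (ball_subset_ball h).eventuallyLE

theorem PLx_root (P : ℂ) : ∃ u : ℂ, ‖u‖ = 1 ∧ u ^ 2 * P = (‖P‖ : ℂ) := by
  refine ⟨Complex.exp (((-(arg P) / 2 : ℝ) : ℂ) * I), Complex.norm_exp_ofReal_mul_I _, ?_⟩
  rw [← Complex.exp_nat_mul]
  nth_rewrite 2 [← Complex.norm_mul_exp_arg_mul_I P]
  rw [mul_left_comm, ← Complex.exp_add]
  have : ((2 : ℕ) : ℂ) * (((-(arg P) / 2 : ℝ) : ℂ) * I) + (arg P : ℂ) * I = 0 := by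
    push_cast
    ring
  rw [this, Complex.exp_zero, mul_one]

theorem PLx_re (z : ℂ) (hz : z ≠ 0) : (conj z / z).re = 1 - 2 * (z.im / ‖z‖) ^ 2 := by
  have hN : ‖z‖ ^ 2 = z.re * z.re + z.im * z.im := by
    rw [← Complex.normSq_eq_norm_sq, Complex.normSq_apply]
  have hpos : 0 < ‖z‖ ^ 2 := by positivity
  rw [Complex.div_re, Complex.conj_re, Complex.conj_im, Complex.normSq_eq_norm_sq, div_pow]
  field_simp
  rw [hN]
  ring

theorem PLx_g0 (z : ℂ) : 0 ≤ (z.im / ‖z‖) ^ 2 ∧ (z.im / ‖z‖) ^ 2 ≤ 1 := by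
  refine ⟨sq_nonneg _, ?_⟩
  rw [sq_le_one_iff_abs_le_one, abs_div, abs_norm]
  exact div_le_one_of_le₀ (Complex.abs_im_le_norm z) (norm_nonneg _)

theorem PLx_intg (E : ℂ → ℝ) (hE : Continuous E) (t : ℝ) :
    IntegrableOn (fun z => (z.im / ‖z‖) ^ 2 * E z) (ball (0 : ℂ) t) := by
  refine (PLx_int E hE t).norm.mono' ?_ ?_
  · exact (((Complex.measurable_im.div measurable_norm).pow_const 2).aestronglyMeasurable).mul
      hE.aestronglyMeasurable
  · refine Eventually.of_forall fun z => ?_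
    rw [norm_mul, Real.norm_of_nonneg (PLx_g0 z).1]
    exact mul_le_of_le_one_left (norm_nonneg _) (PLx_g0 z).2

theorem PLx_ang (E : ℂ → ℝ) (hE : Continuous E) (h0 : ∀ z, 0 ≤ E z) {s r : ℝ} (hsr : s ≤ r) :
    ∫ z in ball (0 : ℂ) r, (z.im / ‖z‖) ^ 2 * E z ≤
      ms r E - (mo s E (fun z => conj z / z)).re := by
  have hint : IntegrableOn (fun z : ℂ => conj z / z * (E z : ℂ)) (ball (0 : ℂ) s) := by
    refine (PLx_int E hE s).norm.mono' ?_ ?_
    · exact ((Complex.continuous_conj.measurable.div measurable_id).aestronglyMeasurable).mul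
        (Complex.continuous_ofReal.comp hE).aestronglyMeasurable
    · refine Eventually.of_forall fun z => ?_
      rw [norm_mul, Complex.norm_real, norm_div, Complex.norm_conj]
      exact mul_le_of_le_one_left (norm_nonneg _) (div_self_le_one _)
  have hre : (mo s E (fun z => conj z / z)).re =
      ∫ z in ball (0 : ℂ) s, (E z - 2 * ((z.im / ‖z‖) ^ 2 * E z)) := by
    have h1 := (Complex.reCLM.integral_comp_comm hint)
    have h2 : (mo s E (fun z => conj z / z)).re =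
        Complex.reCLM (∫ z in ball (0 : ℂ) s, conj z / z * (E z : ℂ)) := rfl
    rw [h2, ← h1]
    refine integral_congr_ae (ae_restrict_of_ae ?_)
    have hnull : ∀ᵐ z : ℂ, z ≠ 0 := by
      rw [ae_iff]
      simp
    filter_upwards [hnull] with z hz
    rw [Complex.reCLM_apply, Complex.re_mul_ofReal, PLx_re z hz]
    ring
  have hg := PLx_intg E hE
  have hi := PLx_int E hE
  rw [hre]
  have h3 : ∫ z in ball (0 : ℂ) s, (E z - 2 * ((z.im / ‖z‖) ^ 2 * E z)) ≤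
      ∫ z in ball (0 : ℂ) s, (E z - (z.im / ‖z‖) ^ 2 * E z) := by
    refine integral_mono ((hi s).sub ((hg s).const_mul 2)) ((hi s).sub (hg s)) fun z => ?_
    have := mul_nonneg (PLx_g0 z).1 (h0 z)
    simp only
    linarith
  have h4 : ∫ z in ball (0 : ℂ) s, (E z - (z.im / ‖z‖) ^ 2 * E z) ≤
      ∫ z in ball (0 : ℂ) r, (E z - (z.im / ‖z‖) ^ 2 * E z) := by
    refine setIntegral_mono_set ((hi r).sub (hg r)) (Eventually.of_forall fun z => ?_)
      (ball_subset_ball hsr).eventuallyLE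
    have := mul_le_of_le_one_left (h0 z) (PLx_g0 z).2
    simp only [Pi.zero_apply]
    linarith
  have h5 : ∫ z in ball (0 : ℂ) r, (E z - (z.im / ‖z‖) ^ 2 * E z) =
      ms r E - ∫ z in ball (0 : ℂ) r, (z.im / ‖z‖) ^ 2 * E z := integral_sub (hi r) (hg r)
  linarith

theorem PLx_scale (f : ℂ → ℝ) {R r : ℝ} (hR : 0 < R) :
    ∫ z in ball (0 : ℂ) (r / R), R ^ 2 * f ((R : ℂ) * z) = ∫ z in ball (0 : ℂ) r, f z := by
  have h1 := Measure.setIntegral_comp_smul_of_pos (volume : Measure ℂ) f (ball (0 : ℂ) (r / R)) hR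
  have h2 : R • ball (0 : ℂ) (r / R) = ball (0 : ℂ) r := by
    rw [_root_.smul_ball hR.ne', smul_zero, Real.norm_of_nonneg hR.le, mul_div_cancel₀ _ hR.ne']
  rw [h2, Complex.finrank_real_complex] at h1
  rw [integral_const_mul]
  have h3 : ∫ z in ball (0 : ℂ) (r / R), f ((R : ℂ) * z) =
      ∫ z in ball (0 : ℂ) (r / R), f (R • z) := by
    refine integral_congr_ae (Eventually.of_forall fun z => ?_)
    simp only [Complex.real_smul]
  rw [h3, h1, smul_eq_mul, mul_inv_cancel_left₀ (by positivity)]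

theorem pr_PLx (h1 : S_Scale) (h2 : S_Rot) (h3 : S_BUf) : S_PLx := by
  intro r H Λ s lam h E hBU hs hsr hP
  have hr : 0 < r := (hBU.loc 0).rpos
  have hpi := Real.pi_pos
  choose u hu hu2 using fun j => PLx_root (mo s (E j) (fun z => conj z / z))
  have hmass : ∀ t, 0 < t → t < r → Tendsto (fun j => ms t (E j)) atTop (𝓝 (16 * π)) := by
    intro t ht htr
    have := (h3 r 1 H Λ lam h E hBU (fun _ => 0) tendsto_const_nhds t ht htr).1
    convert this using 2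
    push_cast
    ring
  have hmr : Tendsto (fun j => ms r (E j)) atTop (𝓝 (16 * π)) := by
    convert hBU.mass using 2
    push_cast
    ring
  obtain ⟨j0, hj0⟩ := eventually_atTop.1
    ((hmass (r / 16) (by positivity) (by linarith)).eventually
      (lt_mem_nhds (show 8 * π < 16 * π by linarith)))
  have hR : ∀ j, ∃ R, 0 < R ∧ 8 * R < r ∧ ms R (E (j + j0)) = 8 * π := by
    intro j
    have hc := PLx_cont (E (j + j0)) (hBU.loc _).cont
    have h0 : ms 0 (E (j + j0)) = 0 := by simp [ms]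
    have hiv := intermediate_value_Icc (show (0 : ℝ) ≤ r / 16 by positivity)
      (hc.continuousOn (s := Icc 0 (r / 16)))
    have hmem : 8 * π ∈ Icc (ms 0 (E (j + j0))) (ms (r / 16) (E (j + j0))) :=
      ⟨by rw [h0]; positivity, (hj0 (j + j0) (by omega)).le⟩
    obtain ⟨R, ⟨hR1, hR2⟩, hR3⟩ := hiv hmem
    simp only at hR3
    refine ⟨R, ?_, by linarith, hR3⟩
    rcases hR1.eq_or_lt with h | h
    · exfalso
      rw [← h, h0] at hR3
      linarith
    · exact h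
  choose R hR1 hR2 hR3 using hR
  have hshift : Tendsto (fun j : ℕ => j + j0) atTop atTop := tendsto_add_atTop_nat j0
  have hR0 : Tendsto R atTop (𝓝 0) := by
    rw [Metric.tendsto_atTop]
    intro ε hε
    have ht : 0 < min ε (r / 2) := lt_min hε (by positivity)
    have htr : min ε (r / 2) < r := lt_of_le_of_lt (min_le_right _ _) (by linarith)
    obtain ⟨N, hN⟩ := eventually_atTop.1
      ((hmass _ ht htr).eventually (lt_mem_nhds (show 8 * π < 16 * π by linarith)))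
    refine ⟨N, fun j hj => ?_⟩
    rw [Real.dist_eq, sub_zero, abs_of_pos (hR1 j)]
    by_contra hcon
    push Not at hcon
    have hle : min ε (r / 2) ≤ R j := (min_le_left _ _).trans hcon
    have hm := PLx_mono (E (j + j0)) (hBU.loc _).cont (hBU.loc _).nonneg hle
    have hN' := hN (j + j0) (by omega)
    rw [hR3 j] at hm
    linarith
  have hrot := fun j => h2 r 1 (lam j) (h j) (E j) (u j) (hBU.loc j) (hu j)
  have hsc := fun j => h1 r 1 (lam (j + j0)) _ _ (R j) (hrot (j + j0)).1 (hR1 j)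
  have hms : ∀ (j : ℕ) (t : ℝ), 0 < t → ms (t / R j)
      (fun y => R j ^ 2 * E (j + j0) (u (j + j0) * (R j * y))) = ms t (E (j + j0)) := by
    intro j t ht
    rw [← (hrot (j + j0)).2.1 t]
    exact (hsc j).2 t ht
  refine ⟨fun j => j + j0, R, fun j y => h (j + j0) (u (j + j0) * (R j * y)) +
      (((1 + (1 : ℕ) - ms r (fun z => E (j + j0) (u (j + j0) * z)) / (4 * π)) *
        Real.log (R j) : ℝ) : ℂ),
    fun j y => R j ^ 2 * E (j + j0) (u (j + j0) * (R j * y)), fun a b hab => by simpa using hab,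
    ?_, fun j => hms j r hr⟩
  refine ⟨hr, hR1, hR0, hR2, fun j => (hsc j).1, fun j => ⟨(hBU.loc _).lam0, hBU.lamb _⟩,
    ?_, ?_, ?_, ?_, fun j => Real.exp_pos _, ?_, ?_⟩
  · -- derivative
    intro j z hz
    have hz' : ‖z‖ < r / R j := by simpa using hz
    have hw : u (j + j0) * ((R j : ℂ) * z) ∈ ball (0 : ℂ) r := by
      rw [mem_ball_zero_iff, norm_mul, norm_mul, hu, one_mul, Complex.norm_real,
        Real.norm_of_nonneg (hR1 j).le]
      rwa [lt_div_iff₀' (hR1 j)] at hz'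
    have hd := ((hBU.loc (j + j0)).an.differentiableAt (isOpen_ball.mem_nhds hw)).hasDerivAt
    have hin : HasDerivAt (fun y : ℂ => u (j + j0) * ((R j : ℂ) * y))
        (u (j + j0) * ((R j : ℂ) * 1)) z :=
      ((hasDerivAt_id z).const_mul (R j : ℂ)).const_mul (u (j + j0))
    have hcomp := ((HasDerivAt.comp z hd hin).add_const
      ((((1 + (1 : ℕ) - ms r (fun z => E (j + j0) (u (j + j0) * z)) / (4 * π)) *
        Real.log (R j) : ℝ) : ℂ)))
    have hderiv := hcomp.deriv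
    have hb := hBU.hH (j + j0) _ hw
    have hgoal : ‖deriv (h (j + j0)) (u (j + j0) * ((R j : ℂ) * z)) *
        (u (j + j0) * ((R j : ℂ) * 1))‖ ≤ H * R j := by
      rw [norm_mul, norm_mul, norm_mul, hu, norm_one, one_mul, mul_one, Complex.norm_real,
        Real.norm_of_nonneg (hR1 j).le]
      exact mul_le_mul_of_nonneg_right hb (hR1 j).le
    rw [← hderiv] at hgoal
    exact hgoal
  · -- mass
    have : (fun j => ms (r / R j) (fun y => R j ^ 2 * E (j + j0) (u (j + j0) * (R j * y)))) =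
        fun j => ms r (E (j + j0)) := by
      funext j
      exact hms j r hr
    simp only [this]
    exact hmr.comp hshift
  · -- half
    intro j
    have h4 := hms j (R j) (hR1 j)
    rw [div_self (hR1 j).ne', hR3 j] at h4
    exact h4
  · -- ang
    have hlim : Tendsto (fun j => ms r (E (j + j0)) -
        ‖mo s (E (j + j0)) (fun z => conj z / z)‖) atTop (𝓝 0) := by
      have := (hmr.comp hshift).sub (hP.comp hshift)
      rw [sub_self] at this
      exact this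
    refine squeeze_zero (fun j => ?_) (fun j => ?_) hlim
    · refine integral_nonneg fun z => ?_
      exact mul_nonneg (sq_nonneg _) (mul_nonneg (sq_nonneg _) ((hBU.loc _).nonneg _))
    · have hchg : ∫ z in ball (0 : ℂ) (r / R j), (z.im / ‖z‖) ^ 2 *
          (R j ^ 2 * E (j + j0) (u (j + j0) * (R j * z))) =
          ∫ z in ball (0 : ℂ) r, (z.im / ‖z‖) ^ 2 * E (j + j0) (u (j + j0) * z) := by
        rw [← PLx_scale (fun z => (z.im / ‖z‖) ^ 2 * E (j + j0) (u (j + j0) * z)) (hR1 j)]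
        refine integral_congr_ae (Eventually.of_forall fun z => ?_)
        have hq : ((R j : ℂ) * z).im / ‖(R j : ℂ) * z‖ = z.im / ‖z‖ := by
          rw [Complex.im_ofReal_mul, norm_mul, Complex.norm_real,
            Real.norm_of_nonneg (hR1 j).le, mul_div_mul_left _ _ (hR1 j).ne']
        simp only [hq]
        ring
      rw [hchg]
      have hcE : Continuous (fun z => E (j + j0) (u (j + j0) * z)) :=
        (hrot (j + j0)).1.cont
      have h5 := PLx_ang (fun z => E (j + j0) (u (j + j0) * z)) hcE (hrot (j + j0)).1.nonneg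
        (show s ≤ r by linarith)
      rw [(hrot (j + j0)).2.1 r, (hrot (j + j0)).2.2 s (fun z => conj z / z)] at h5
      have h6 : mo s (E (j + j0)) (fun z => conj (conj (u (j + j0)) * z) /
          (conj (u (j + j0)) * z)) = ((‖mo s (E (j + j0)) (fun z => conj z / z)‖ : ℝ) : ℂ) := by
        rw [← hu2 (j + j0)]
        unfold mo
        rw [← integral_const_mul]
        refine integral_congr_ae (Eventually.of_forall fun z => ?_)
        have hcu : conj (u (j + j0)) = (u (j + j0))⁻¹ := by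
          rw [Complex.inv_def, Complex.normSq_eq_norm_sq, hu]
          simp
        have hune : u (j + j0) ≠ 0 := by
          intro h0
          have := hu (j + j0)
          rw [h0, norm_zero] at this
          exact zero_ne_one this
        simp only [map_mul, Complex.conj_conj]
        rw [hcu]
        by_cases hz : z = 0
        · simp [hz]
        · field_simp
      rw [h6, Complex.ofReal_re] at h5
      exact h5
  · -- etaeq
    intro j
    rw [hms j r hr]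
    have h7 := (hrot (j + j0)).2.1 r
    unfold et
    rw [h7]
    have h8 : R j ^ ((16 * π - ms r (E (j + j0))) / (2 * π) - 4) =
        Real.exp (Real.log (R j) * ((16 * π - ms r (E (j + j0))) / (2 * π) - 4)) :=
      Real.rpow_def_of_pos (hR1 j) _
    rw [h8, ← Real.exp_add]
    congr 1
    rw [Complex.add_re, Complex.ofReal_re]
    simp only [mul_zero]
    push_cast
    field_simp
    ring
  · -- out
    intro t ht
    obtain ⟨C, hC⟩ := hBU.out t ht
    refine ⟨C, fun j z hz htz => ?_⟩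
    have hz' : ‖z‖ < r / R j := by simpa using hz
    have hnorm : ‖u (j + j0) * ((R j : ℂ) * z)‖ = R j * ‖z‖ := by
      rw [norm_mul, norm_mul, hu, one_mul, Complex.norm_real, Real.norm_of_nonneg (hR1 j).le]
    have hw : u (j + j0) * ((R j : ℂ) * z) ∈ ball (0 : ℂ) r := by
      rw [mem_ball_zero_iff, hnorm]
      rwa [lt_div_iff₀' (hR1 j)] at hz'
    have htw : t ≤ ‖u (j + j0) * ((R j : ℂ) * z)‖ := by
      rw [hnorm]
      rwa [div_le_iff₀' (hR1 j)] at htz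
    have := mul_le_mul_of_nonneg_left (hC (j + j0) _ hw htw) (sq_nonneg (R j))
    simp only
    linarith

end Pool.Agent.Vx

end

section

/-!
# MP_afe918_an, item Small: the small mass lemma (helper81)
-/

set_option autoImplicit false

open Complex Set Filter Topology MeasureTheory Metric
open scoped Real ContDiff

namespace Pool.Agent.Vx

lemma Small_exp_le {M t : ℝ} (hM0 : 0 ≤ M) (hM : M ≤ 1) (ht : 0 ≤ t) :
    Real.exp (-(M / π) * Real.log t) ≤ 1 + 1 / t := by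
  have hMπ : M / π ≤ 1 := by
    rw [div_le_one Real.pi_pos]; linarith [Real.pi_gt_three]
  have hMπ0 : 0 ≤ M / π := div_nonneg hM0 Real.pi_pos.le
  rcases eq_or_lt_of_le ht with h | h
  · subst h
    simp
  · rcases le_total t 1 with h1 | h1
    · have hl : Real.log t ≤ 0 := Real.log_nonpos ht h1
      calc Real.exp (-(M/π) * Real.log t) ≤ Real.exp (- Real.log t) := by
            apply Real.exp_le_exp.2; nlinarith
        _ = 1 / t := by rw [Real.exp_neg, Real.exp_log h, one_div]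
        _ ≤ 1 + 1 / t := by linarith
    · have hl : 0 ≤ Real.log t := Real.log_nonneg h1
      calc Real.exp (-(M/π) * Real.log t) ≤ Real.exp 0 := by
            apply Real.exp_le_exp.2
            nlinarith
        _ = 1 := Real.exp_zero
        _ ≤ 1 + 1 / t := by linarith [show 0 ≤ 1 / t by positivity]

lemma Small_logsq_le {t : ℝ} (ht : 0 ≤ t) (ht2 : t ≤ 2) :
    Real.log t ^ 2 ≤ 4 * (1 + 1 / t) := by
  rcases eq_or_lt_of_le ht with h | h
  · subst h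
    simp
  · rcases le_total t 1 with h1 | h1
    · have h3 := Real.abs_log_mul_self_rpow_lt t (1 / 2) h h1 (by norm_num)
      have h4 : (t ^ ((1:ℝ) / 2)) ^ 2 = t := by
        rw [← Real.rpow_natCast, ← Real.rpow_mul ht]; norm_num
      have h5 : Real.log t ^ 2 * t ≤ 4 := by
        have : (Real.log t * t ^ ((1:ℝ)/2)) ^ 2 ≤ 2 ^ 2 := by
          rw [sq_le_sq]
          have : (1:ℝ) / (1/2) = 2 := by norm_num
          rw [this] at h3
          rw [abs_two]; exact h3.le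
        rw [mul_pow, h4] at this
        linarith
      have h6 : Real.log t ^ 2 ≤ 4 / t := by
        rw [le_div_iff₀ h]; exact h5
      have : 4 * (1 + 1 / t) = 4 + 4 / t := by ring
      rw [this]; linarith
    · have hl : 0 ≤ Real.log t := Real.log_nonneg h1
      have hl2 : Real.log t ≤ 1 := by
        have := Real.log_le_sub_one_of_pos h
        linarith
      have : 0 ≤ 1 / t := by positivity
      nlinarith

lemma Small_intE {E : ℂ → ℝ} (hc : Continuous E) (c : ℂ) (r : ℝ) : IntegrableOn E (ball c r) :=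
  (hc.continuousOn.integrableOn_compact (isCompact_closedBall c r)).mono_set
    ball_subset_closedBall

lemma Small_mulE {r : ℝ} {E : ℂ → ℝ} (hc : Continuous E) {f : ℂ → ℝ} (hr : 0 < r)
    (hf : ∀ r, 0 < r → IntegrableOn f (ball 0 r)) :
    IntegrableOn (fun y => f y * E y) (ball 0 r) := by
  have h1 : IntegrableOn f (closedBall 0 r) :=
    (hf (r+1) (by linarith)).mono_set (closedBall_subset_ball (by linarith))
  exact (h1.mul_continuousOn hc.continuousOn (isCompact_closedBall 0 r)).mono_set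
    ball_subset_closedBall

lemma Small_k (h0 : S_Riesz) (z : ℂ) (r : ℝ) (hr : 0 < r) :
    IntegrableOn (fun y => 1 + 1 / ‖z - y‖) (ball 0 r) :=
  (integrableOn_const (by exact (measure_ball_lt_top).ne)).add (h0 0 z r hr).1

lemma Small_vol (c : ℂ) {r : ℝ} (hr : 0 ≤ r) : volume.real (ball c r) = π * r ^ 2 := by
  rw [Measure.real, Complex.volume_ball]
  simp [ENNReal.toReal_ofReal, hr]
  ring

lemma Small_kb (h0 : S_Riesz) (z : ℂ) :
    ∫ y in ball (0:ℂ) 1, (1 + 1 / ‖z - y‖) ≤ 7 * π := by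
  have hc1 : IntegrableOn (fun _ : ℂ => (1:ℝ)) (ball 0 1) :=
    integrableOn_const (by exact (measure_ball_lt_top).ne)
  refine (le_of_eq (integral_add hc1 (h0 0 z 1 one_pos).1)).trans ?_
  have h1 := (h0 0 z 1 one_pos).2
  have h2 : ∫ _ in ball (0:ℂ) 1, (1:ℝ) = π := by
    rw [setIntegral_const, Small_vol _ zero_le_one]; simp
  rw [h2]
  linarith

lemma Small_jensen (h0 : S_Riesz) (h1 : S_LogI) {E : ℂ → ℝ} (hc : Continuous E)
    (hn : ∀ z, 0 ≤ E z) (hM : ms 1 E ≤ 1) (z : ℂ) :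
    ms 1 E * Real.exp (2 * pot 1 E z) ≤ ∫ y in ball (0:ℂ) 1, (1 + 1 / ‖z - y‖) * E y := by
  have hM0 : 0 ≤ ms 1 E := setIntegral_nonneg measurableSet_ball (fun y _ => hn y)
  have hE := Small_intE hc 0 1
  have hlog : IntegrableOn (fun y => Real.log ‖z - y‖ * E y) (ball 0 1) :=
    Small_mulE hc one_pos (fun r hr => (h1 0 z r hr).1)
  have hk : IntegrableOn (fun y => (1 + 1/‖z-y‖) * E y) (ball 0 1) :=
    Small_mulE hc one_pos (fun r hr => Small_k h0 z r hr)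
  have hp : ∫ y in ball (0:ℂ) 1, Real.log ‖z - y‖ * E y = -(2 * π) * pot 1 E z := by
    rw [pot]
    field_simp
  have hms : ∫ y in ball (0:ℂ) 1, E y = ms 1 E := rfl
  generalize ms 1 E = M at *
  generalize pot 1 E z = p at *
  have key : ∀ y, Real.exp (2*p) * (1 - 2 * p) * E y -
      Real.exp (2 * p) * (M / π) * (Real.log ‖z - y‖ * E y) ≤ (1 + 1/‖z-y‖) * E y := by
    intro y
    have e1 : Real.exp (2 * p) * (1 - 2 * p - (M / π) * Real.log ‖z - y‖) ≤
        Real.exp (-(M / π) * Real.log ‖z - y‖) := by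
      have := Real.add_one_le_exp (-(M / π) * Real.log ‖z - y‖ - 2 * p)
      calc Real.exp (2 * p) * (1 - 2 * p - (M / π) * Real.log ‖z - y‖)
          ≤ Real.exp (2 * p) * Real.exp (-(M / π) * Real.log ‖z - y‖ - 2 * p) := by
            apply mul_le_mul_of_nonneg_left _ (Real.exp_pos _).le
            linarith
        _ = Real.exp (-(M / π) * Real.log ‖z - y‖) := by
            rw [← Real.exp_add]; ring_nf
    have e2 := Small_exp_le hM0 hM (norm_nonneg (z - y))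
    calc _ = Real.exp (2 * p) * (1 - 2 * p - (M / π) * Real.log ‖z - y‖) * E y := by ring
      _ ≤ _ := mul_le_mul_of_nonneg_right (e1.trans e2) (hn y)
  have hint := setIntegral_mono ((hE.const_mul (Real.exp (2*p) * (1 - 2 * p))).sub
    (hlog.const_mul (Real.exp (2 * p) * (M / π)))) hk key
  refine le_trans (le_of_eq ?_) hint
  have e3 := integral_sub (hE.const_mul (Real.exp (2*p) * (1 - 2 * p)))
    (hlog.const_mul (Real.exp (2 * p) * (M / π)))
  refine Eq.trans ?_ e3.symm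
  rw [integral_const_mul, integral_const_mul, hp, hms]
  field_simp
  ring

lemma Small_fub (h0 : S_Riesz) (h1 : S_LogI) {E : ℂ → ℝ} (hc : Continuous E)
    (hn : ∀ z, 0 ≤ E z) (hM : ms 1 E ≤ 1) :
    ∫⁻ z in ball (0:ℂ) 1, ENNReal.ofReal (ms 1 E * Real.exp (2 * pot 1 E z)) ≤
      ENNReal.ofReal (7 * π * ms 1 E) := by
  have hEm : Measurable E := hc.measurable
  have hE := Small_intE hc 0 1
  have hkn : ∀ z y : ℂ, 0 ≤ 1 + 1/‖z-y‖ := fun z y => by positivity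
  calc ∫⁻ z in ball (0:ℂ) 1, ENNReal.ofReal (ms 1 E * Real.exp (2 * pot 1 E z))
      ≤ ∫⁻ z in ball (0:ℂ) 1, ∫⁻ y in ball (0:ℂ) 1,
          ENNReal.ofReal ((1 + 1 / ‖z - y‖) * E y) := by
        apply lintegral_mono
        intro z
        dsimp only
        have hk : IntegrableOn (fun y => (1 + 1/‖z-y‖) * E y) (ball 0 1) :=
          Small_mulE hc one_pos (fun r hr => Small_k h0 z r hr)
        rw [← ofReal_integral_eq_lintegral_ofReal hk
          (Eventually.of_forall fun y => mul_nonneg (hkn z y) (hn y))]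
        exact ENNReal.ofReal_le_ofReal (Small_jensen h0 h1 hc hn hM z)
    _ = ∫⁻ y in ball (0:ℂ) 1, ∫⁻ z in ball (0:ℂ) 1,
          ENNReal.ofReal ((1 + 1 / ‖z - y‖) * E y) := by
        apply lintegral_lintegral_swap
        apply Measurable.aemeasurable
        apply Measurable.ennreal_ofReal
        fun_prop
    _ ≤ ∫⁻ y in ball (0:ℂ) 1, ENNReal.ofReal (7 * π * E y) := by
        apply lintegral_mono
        intro y
        dsimp only
        have hk : IntegrableOn (fun z : ℂ => (1 + 1/‖z-y‖) * E y) (ball 0 1) := by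
          have := (Small_k h0 y 1 one_pos).mul_const (E y)
          refine this.congr (Eventually.of_forall fun z => ?_)
          simp only [norm_sub_rev y z]
        rw [← ofReal_integral_eq_lintegral_ofReal hk
          (Eventually.of_forall fun z => mul_nonneg (hkn z y) (hn y))]
        apply ENNReal.ofReal_le_ofReal
        rw [integral_mul_const]
        apply mul_le_mul_of_nonneg_right _ (hn y)
        refine (le_of_eq ?_).trans (Small_kb h0 y)
        refine integral_congr_ae (Eventually.of_forall fun z => ?_)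
        simp only [norm_sub_rev y z]
    _ = ENNReal.ofReal (7 * π * ms 1 E) := by
        rw [← ofReal_integral_eq_lintegral_ofReal (hE.const_mul (7 * π))
          (Eventually.of_forall fun y => mul_nonneg (by positivity) (hn y)),
          integral_const_mul]
        rfl

/-- The harmonic part: `h` is close to `h 0`. -/
lemma Small_h {n : ℕ} {lam H : ℝ} {h : ℂ → ℂ} {E : ℂ → ℝ} (hL : Loc 1 n lam h E)
    (hH : ∀ z ∈ ball (0 : ℂ) (1 / 2), ‖deriv h z‖ ≤ H) (z : ℂ) (hz : z ∈ ball (0:ℂ) (1 / 2)) :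
    |2 * (h z).re - 2 * (h 0).re| ≤ H := by
  have hd : ∀ x ∈ ball (0:ℂ) (1 / 2), DifferentiableAt ℂ h x := fun x hx =>
    hL.an.differentiableAt (isOpen_ball.mem_nhds (ball_subset_ball (by norm_num) hx))
  have h0 : (0:ℂ) ∈ ball (0:ℂ) (1 / 2) := mem_ball_self (by norm_num)
  have h1 := (convex_ball (0:ℂ) (1 / 2)).norm_image_sub_le_of_norm_deriv_le hd hH h0 hz
  have hz' : ‖z‖ < 1 / 2 := by simpa using hz
  have hH0 : 0 ≤ H := (norm_nonneg _).trans (hH 0 h0)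
  have h2 : |(h z - h 0).re| ≤ ‖h z - h 0‖ := Complex.abs_re_le_norm _
  have h3 : 2 * (h z).re - 2 * (h 0).re = 2 * (h z - h 0).re := by simp; ring
  rw [h3, abs_mul, abs_two]
  rw [sub_zero] at h1
  nlinarith [norm_nonneg z]

lemma Small_potlow (h1 : S_LogI) {E : ℂ → ℝ} (hc : Continuous E)
    (hn : ∀ z, 0 ≤ E z) (hM : ms 1 E ≤ 1) (z : ℂ) (hz : ‖z‖ < 1) : -1 ≤ pot 1 E z := by
  have hE := Small_intE hc 0 1
  have hlog : IntegrableOn (fun y => Real.log ‖z - y‖ * E y) (ball 0 1) :=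
    Small_mulE hc one_pos (fun r hr => (h1 0 z r hr).1)
  have h2 : ∫ y in ball (0:ℂ) 1, Real.log ‖z - y‖ * E y ≤ ∫ y in ball (0:ℂ) 1, E y := by
    apply setIntegral_mono_on hlog hE measurableSet_ball
    intro y hy
    have hy' : ‖y‖ < 1 := by simpa using hy
    have h3 : ‖z - y‖ ≤ 2 := (norm_sub_le z y).trans (by linarith)
    have h4 : Real.log ‖z - y‖ ≤ 1 := by
      rcases eq_or_lt_of_le (norm_nonneg (z - y)) with h | h
      · rw [← h]; simp
      · have := Real.log_le_sub_one_of_pos h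
        linarith
    have := mul_le_mul_of_nonneg_right h4 (hn y)
    linarith
  have h3 : ∫ y in ball (0:ℂ) 1, E y ≤ 1 := hM
  rw [pot]
  have h5 : (1 / (2 * π)) ≤ 1 := by
    rw [div_le_one (by positivity)]; linarith [Real.pi_gt_three]
  have h6 : 0 < (1 / (2 * π)) := by positivity
  nlinarith

/-- The height at the centre is bounded. -/
lemma Small_height (h1 : S_LogI) {n : ℕ} {lam H : ℝ} {h : ℂ → ℂ} {E : ℂ → ℝ}
    (hL : Loc 1 n lam h E) (hlam : lam ≤ H)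
    (hH : ∀ z ∈ ball (0 : ℂ) (1 / 2), ‖deriv h z‖ ≤ H) (hM : ms 1 E ≤ 1) :
    0 < ms 1 E ∧ Real.exp (2 * (h 0).re) ≤ Real.exp (2 * H + 1) * 4 ^ (2 * n) * (64 / π) := by
  have hH0 : 0 ≤ H := hL.lam0.trans hlam
  have hsub : ball (3 / 8 : ℂ) (1 / 8) ⊆ ball (0:ℂ) (1 / 2) := by
    apply ball_subset_ball'
    rw [dist_zero_right]
    norm_num
  have hsub1 : ball (3 / 8 : ℂ) (1 / 8) ⊆ ball (0:ℂ) 1 :=
    hsub.trans (ball_subset_ball (by norm_num))
  have hE := Small_intE hL.cont 0 1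
  have hlow : ∀ z ∈ ball (3 / 8 : ℂ) (1 / 8),
      (1 / 4) ^ (2 * n) * Real.exp (2 * (h 0).re - (2 * H + 1)) ≤ E z := by
    intro z hz
    have hz2 := hsub hz
    have hz1 := hsub1 hz
    have hz2' : ‖z‖ < 1 / 2 := by simpa using hz2
    have hz4 : 1 / 4 ≤ ‖z‖ := by
      have h2 : ‖z - 3 / 8‖ < 1 / 8 := by simpa [dist_eq_norm] using hz
      have h3 : ‖(3 / 8 : ℂ)‖ ≤ ‖z‖ + ‖z - 3 / 8‖ := by
        have := norm_sub_le z (z - 3 / 8)
        simpa using this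
      have h4 : ‖(3 / 8 : ℂ)‖ = 3 / 8 := by norm_num
      rw [h4] at h3
      linarith
    rw [hL.rep z hz1]
    have h5 := Small_h hL hH z hz2
    rw [abs_le] at h5
    have h6 := Small_potlow h1 hL.cont hL.nonneg hM z (by linarith)
    have h7 : lam / 4 * ‖z‖ ^ 2 ≤ H := by
      have : ‖z‖ ^ 2 ≤ 1 := by nlinarith [norm_nonneg z]
      nlinarith [sq_nonneg ‖z‖, hL.lam0]
    apply mul_le_mul
    · exact pow_le_pow_left₀ (by norm_num) hz4 _
    · apply Real.exp_le_exp.2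
      linarith
    · exact (Real.exp_pos _).le
    · positivity
  have hvol : volume.real (ball (3 / 8 : ℂ) (1 / 8)) = π / 64 := by
    rw [Small_vol _ (by norm_num)]; ring
  have h8 : (π / 64) * ((1 / 4) ^ (2 * n) * Real.exp (2 * (h 0).re - (2 * H + 1))) ≤ ms 1 E := by
    calc (π / 64) * ((1 / 4) ^ (2 * n) * Real.exp (2 * (h 0).re - (2 * H + 1)))
        = ∫ _ in ball (3 / 8 : ℂ) (1 / 8),
            (1 / 4) ^ (2 * n) * Real.exp (2 * (h 0).re - (2 * H + 1)) := by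
          rw [setIntegral_const, hvol, smul_eq_mul]
      _ ≤ ∫ z in ball (3 / 8 : ℂ) (1 / 8), E z := by
          apply setIntegral_mono_on _ (hE.mono_set hsub1) measurableSet_ball hlow
          exact integrableOn_const (by exact (measure_ball_lt_top).ne)
      _ ≤ ms 1 E := by
          apply setIntegral_mono_set hE (Eventually.of_forall fun z => hL.nonneg z)
            hsub1.eventuallyLE
  refine ⟨lt_of_lt_of_le (by positivity) h8, ?_⟩
  have h9 := h8.trans hM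
  have h10 : Real.exp (2 * (h 0).re - (2 * H + 1)) =
      Real.exp (2 * (h 0).re) / Real.exp (2 * H + 1) := Real.exp_sub _ _
  rw [h10] at h9
  have h11 : (1 / 4 : ℝ) ^ (2 * n) = 1 / 4 ^ (2 * n) := by
    rw [div_pow, one_pow]
  rw [h11] at h9
  have h12 : (π / 64) * (1 / 4 ^ (2 * n) * (Real.exp (2 * (h 0).re) / Real.exp (2 * H + 1))) *
      (Real.exp (2 * H + 1) * 4 ^ (2 * n) * (64 / π)) = Real.exp (2 * (h 0).re) := by
    field_simp
  rw [← h12]
  have : 0 ≤ Real.exp (2 * H + 1) * 4 ^ (2 * n) * (64 / π) := by positivity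
  nlinarith

/-- The constant bounding `E exp (-pot)`. -/
noncomputable def Small_K (n : ℕ) (H : ℝ) : ℝ :=
  Real.exp (2 * H + 1) * 4 ^ (2 * n) * (64 / π) * Real.exp H

lemma Small_K_nonneg (n : ℕ) (H : ℝ) : 0 ≤ Small_K n H := by
  unfold Small_K; positivity

lemma Small_E (h1 : S_LogI) {n : ℕ} {lam H : ℝ} {h : ℂ → ℂ} {E : ℂ → ℝ}
    (hL : Loc 1 n lam h E) (hlam : lam ≤ H)
    (hH : ∀ z ∈ ball (0 : ℂ) (1 / 2), ‖deriv h z‖ ≤ H) (hM : ms 1 E ≤ 1) (z : ℂ)
    (hz : z ∈ ball (0:ℂ) (1 / 2)) : E z ≤ Small_K n H * Real.exp (pot 1 E z) := by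
  have hz1 : z ∈ ball (0:ℂ) 1 := ball_subset_ball (by norm_num) hz
  have hz2 : ‖z‖ < 1 / 2 := by simpa using hz
  rw [hL.rep z hz1]
  have h5 := Small_h hL hH z hz
  rw [abs_le] at h5
  have h6 := (Small_height h1 hL hlam hH hM).2
  have h7 : 0 ≤ lam / 4 * ‖z‖ ^ 2 := by
    have := hL.lam0
    positivity
  calc ‖z‖ ^ (2 * n) * Real.exp (2 * (h z).re - lam / 4 * ‖z‖ ^ 2 + pot 1 E z)
      ≤ 1 * Real.exp (2 * (h 0).re + H + pot 1 E z) := by
        apply mul_le_mul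
        · exact pow_le_one₀ (norm_nonneg z) (by linarith)
        · apply Real.exp_le_exp.2; linarith
        · exact (Real.exp_pos _).le
        · exact zero_le_one
    _ = Real.exp (2 * (h 0).re) * Real.exp H * Real.exp (pot 1 E z) := by
        rw [one_mul, Real.exp_add, Real.exp_add]
    _ ≤ _ := by
        unfold Small_K
        apply mul_le_mul_of_nonneg_right _ (Real.exp_pos _).le
        apply mul_le_mul_of_nonneg_right h6 (Real.exp_pos _).le

lemma Small_sqint {E : ℂ → ℝ} (hc : Continuous E) (r : ℝ) :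
    IntegrableOn (fun y => E y ^ 2) (ball 0 r) :=
  Small_intE (hc.pow 2) 0 r

lemma Small_L2 (h0 : S_Riesz) (h1 : S_LogI) {n : ℕ} {lam H : ℝ} {h : ℂ → ℂ} {E : ℂ → ℝ}
    (hL : Loc 1 n lam h E) (hlam : lam ≤ H)
    (hH : ∀ z ∈ ball (0 : ℂ) (1 / 2), ‖deriv h z‖ ≤ H) (hM : ms 1 E ≤ 1) :
    ∫ y in ball (0:ℂ) (1 / 2), E y ^ 2 ≤ 7 * π * Small_K n H ^ 2 := by
  have hMpos := (Small_height h1 hL hlam hH hM).1
  have hfub := Small_fub h0 h1 hL.cont hL.nonneg hM
  have hsq := Small_sqint hL.cont (1 / 2)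
  have hb : ∫⁻ y in ball (0:ℂ) (1 / 2), ENNReal.ofReal (ms 1 E * E y ^ 2) ≤
      ENNReal.ofReal (Small_K n H ^ 2) * ENNReal.ofReal (7 * π * ms 1 E) := by
    calc ∫⁻ y in ball (0:ℂ) (1 / 2), ENNReal.ofReal (ms 1 E * E y ^ 2)
        ≤ ∫⁻ y in ball (0:ℂ) (1 / 2), ENNReal.ofReal (Small_K n H ^ 2) *
            ENNReal.ofReal (ms 1 E * Real.exp (2 * pot 1 E y)) := by
          apply setLIntegral_mono' measurableSet_ball
          intro y hy
          rw [← ENNReal.ofReal_mul (by positivity)]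
          apply ENNReal.ofReal_le_ofReal
          have h3 := Small_E h1 hL hlam hH hM y hy
          have h4 : E y ^ 2 ≤ Small_K n H ^ 2 * Real.exp (2 * pot 1 E y) := by
            calc E y ^ 2 ≤ (Small_K n H * Real.exp (pot 1 E y)) ^ 2 :=
                  pow_le_pow_left₀ (hL.nonneg y) h3 2
              _ = _ := by
                  rw [mul_pow, ← Real.exp_nat_mul]; norm_num
          calc ms 1 E * E y ^ 2 ≤ ms 1 E * (Small_K n H ^ 2 * Real.exp (2 * pot 1 E y)) :=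
                mul_le_mul_of_nonneg_left h4 hMpos.le
            _ = _ := by ring
      _ = ENNReal.ofReal (Small_K n H ^ 2) *
            ∫⁻ y in ball (0:ℂ) (1 / 2), ENNReal.ofReal (ms 1 E * Real.exp (2 * pot 1 E y)) :=
          lintegral_const_mul' _ _ ENNReal.ofReal_ne_top
      _ ≤ _ := by
          gcongr
          refine le_trans (lintegral_mono_set (ball_subset_ball (by norm_num))) hfub
  rw [← ofReal_integral_eq_lintegral_ofReal (hsq.const_mul (ms 1 E))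
    (Eventually.of_forall fun y => mul_nonneg hMpos.le (sq_nonneg _)),
    ← ENNReal.ofReal_mul (by positivity), integral_const_mul] at hb
  have hb2 := (ENNReal.ofReal_le_ofReal_iff (by positivity)).1 hb
  have hb3 : ms 1 E * ∫ y in ball (0:ℂ) (1 / 2), E y ^ 2 ≤
      ms 1 E * (7 * π * Small_K n H ^ 2) := by linarith
  exact le_of_mul_le_mul_left hb3 hMpos

/-- The constant for the potential. -/
noncomputable def Small_C1 (n : ℕ) (H : ℝ) : ℝ := 14 * π + (7 * π * Small_K n H ^ 2) / 2 + 2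

lemma Small_pot (h0 : S_Riesz) (h1 : S_LogI) {n : ℕ} {lam H : ℝ} {h : ℂ → ℂ} {E : ℂ → ℝ}
    (hL : Loc 1 n lam h E) (hlam : lam ≤ H)
    (hH : ∀ z ∈ ball (0 : ℂ) (1 / 2), ‖deriv h z‖ ≤ H) (hM : ms 1 E ≤ 1) (z : ℂ)
    (hz : z ∈ ball (0:ℂ) (1 / 4)) : |pot 1 E z| ≤ Small_C1 n H := by
  have hz' : ‖z‖ < 1 / 4 := by simpa using hz
  have hE := Small_intE hL.cont 0 1
  have hlog : IntegrableOn (fun y => Real.log ‖z - y‖ * E y) (ball 0 1) :=
    Small_mulE hL.cont one_pos (fun r hr => (h1 0 z r hr).1)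
  have hk := Small_k h0 z 1 one_pos
  have hsq := Small_sqint hL.cont 1
  have hind : IntegrableOn ((ball (0:ℂ) (1 / 2)).indicator (fun y => E y ^ 2)) (ball 0 1) :=
    hsq.indicator measurableSet_ball
  have hpt : ∀ y ∈ ball (0:ℂ) 1, ‖Real.log ‖z - y‖ * E y‖ ≤ 2 * (1 + 1 / ‖z - y‖) +
      ((1 / 2) * (ball (0:ℂ) (1 / 2)).indicator (fun y => E y ^ 2) y + 2 * E y) := by
    intro y hy
    have hy' : ‖y‖ < 1 := by simpa using hy
    have hEn := hL.nonneg y
    have h3 : ‖z - y‖ ≤ 2 := (norm_sub_le z y).trans (by linarith)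
    have h4 := Small_logsq_le (norm_nonneg (z - y)) h3
    rw [Real.norm_eq_abs, abs_mul, abs_of_nonneg hEn]
    by_cases hy2 : y ∈ ball (0:ℂ) (1 / 2)
    · rw [indicator_of_mem hy2]
      have h5 : |Real.log ‖z - y‖| ^ 2 = Real.log ‖z - y‖ ^ 2 := sq_abs _
      nlinarith [sq_nonneg (|Real.log ‖z - y‖| - E y)]
    · rw [indicator_of_notMem hy2]
      have hy3 : 1 / 2 ≤ ‖y‖ := by simpa using hy2
      have h5 : 1 / 4 ≤ ‖z - y‖ := by
        have := norm_sub_norm_le y z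
        rw [norm_sub_rev] at this
        linarith
      have h6 : 0 < ‖z - y‖ := by linarith
      have h7 : |Real.log ‖z - y‖| ≤ 2 := by
        rw [abs_le]
        constructor
        · have h8 := Real.log_le_log (by norm_num) h5
          have h9 : Real.log (1 / 4) = -(2 * Real.log 2) := by
            rw [show (1 / 4 : ℝ) = (2 ^ 2)⁻¹ by norm_num, Real.log_inv, Real.log_pow]
            norm_num
          have h10 : Real.log 2 ≤ 1 := by
            have := Real.log_two_lt_d9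
            linarith
          linarith
        · have := Real.log_le_sub_one_of_pos h6
          linarith
      have h8 : 0 ≤ 1 / ‖z - y‖ := by positivity
      nlinarith
  have hint : ∫ y in ball (0:ℂ) 1, ‖Real.log ‖z - y‖ * E y‖ ≤
      2 * (7 * π) + ((1 / 2) * (7 * π * Small_K n H ^ 2) + 2 * 1) := by
    have hg2 : IntegrableOn (fun y => (1 / 2) * (ball (0:ℂ) (1 / 2)).indicator
        (fun y => E y ^ 2) y + 2 * E y) (ball 0 1) :=
      (hind.const_mul (1 / 2)).add (hE.const_mul 2)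
    have hg1 : IntegrableOn (fun y => 2 * (1 + 1 / ‖z - y‖)) (ball 0 1) := hk.const_mul 2
    refine (setIntegral_mono_on hlog.norm (hg1.add hg2) measurableSet_ball hpt).trans ?_
    have e1 := integral_add hg1 hg2
    have e2 := integral_add (hind.const_mul (1 / 2)) (hE.const_mul 2)
    refine (le_of_eq e1).trans ?_
    refine (le_of_eq (congrArg _ e2)).trans ?_
    rw [integral_const_mul, integral_const_mul, integral_const_mul]
    have h5 := Small_kb h0 z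
    have h6 : ∫ y in ball (0:ℂ) 1, (ball (0:ℂ) (1 / 2)).indicator (fun y => E y ^ 2) y =
        ∫ y in ball (0:ℂ) (1 / 2), E y ^ 2 := by
      rw [setIntegral_indicator measurableSet_ball,
        inter_eq_right.2 (ball_subset_ball (by norm_num))]
    have h7 := Small_L2 h0 h1 hL hlam hH hM
    have h8 : ∫ y in ball (0:ℂ) 1, E y ≤ 1 := hM
    rw [h6]
    linarith
  have hn : ‖∫ y in ball (0:ℂ) 1, Real.log ‖z - y‖ * E y‖ ≤ _ :=
    (norm_integral_le_integral_norm _).trans hint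
  rw [pot, abs_mul, abs_neg, abs_of_nonneg (by positivity : 0 ≤ 1 / (2 * π))]
  rw [Real.norm_eq_abs] at hn
  have h5 : (1 / (2 * π)) ≤ 1 := by
    rw [div_le_one (by positivity)]; linarith [Real.pi_gt_three]
  have h6 : 0 < (1 / (2 * π)) := by positivity
  unfold Small_C1
  have h7 := abs_nonneg (∫ y in ball (0:ℂ) 1, Real.log ‖z - y‖ * E y)
  calc 1 / (2 * π) * |∫ y in ball (0:ℂ) 1, Real.log ‖z - y‖ * E y|
      ≤ 1 * |∫ y in ball (0:ℂ) 1, Real.log ‖z - y‖ * E y| :=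
        mul_le_mul_of_nonneg_right h5 h7
    _ ≤ _ := by linarith

lemma Small_one (h0 : S_Riesz) (h1 : S_LogI) {n : ℕ} {lam H : ℝ} {h : ℂ → ℂ} {E : ℂ → ℝ}
    (hL : Loc 1 n lam h E) (hlam : lam ≤ H)
    (hH : ∀ z ∈ ball (0 : ℂ) (1 / 2), ‖deriv h z‖ ≤ H) (hM : ms 1 E ≤ 1) (z : ℂ)
    (hz : z ∈ ball (0:ℂ) (1 / 4)) : |pot 1 E z| ≤ Small_C1 n H ∧
      E z ≤ Small_K n H * Real.exp (Small_C1 n H) := by
  have h2 := Small_pot h0 h1 hL hlam hH hM z hz
  refine ⟨h2, ?_⟩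
  refine (Small_E h1 hL hlam hH hM z (ball_subset_ball (by norm_num) hz)).trans ?_
  apply mul_le_mul_of_nonneg_left _ (Small_K_nonneg n H)
  exact Real.exp_le_exp.2 (le_of_abs_le h2)

open scoped Pointwise in
/-- Change of variables for the potential. -/
lemma Small_scale (h1 : S_LogI) {r : ℝ} (hr : 0 < r) {E : ℂ → ℝ} (hc : Continuous E) (z : ℂ) :
    pot 1 (fun y => r ^ 2 * E (r * y)) (z / r) = pot r E z + ms r E / (2 * π) * Real.log r := by
  have hrc : (r : ℂ) ≠ 0 := by exact_mod_cast hr.ne'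
  have hE := Small_intE hc 0 r
  have hlog : IntegrableOn (fun y => Real.log ‖z - y‖ * E y) (ball 0 r) :=
    Small_mulE hc hr (fun r hr => (h1 0 z r hr).1)
  have hcv := MeasureTheory.Measure.setIntegral_comp_smul_of_pos (volume : Measure ℂ)
    (fun x : ℂ => Real.log ‖(z - x) / r‖ * (r ^ 2 * E x)) (ball (0:ℂ) 1) hr
  have hball : r • ball (0:ℂ) 1 = ball 0 r := by
    rw [_root_.smul_ball hr.ne']
    simp [abs_of_pos hr]
  rw [hball, Complex.finrank_real_complex, smul_eq_mul] at hcv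
  have e1 : ∫ y in ball (0:ℂ) 1, Real.log ‖z / r - y‖ * (r ^ 2 * E (r * y)) =
      ∫ x in ball (0:ℂ) 1, Real.log ‖(z - r • x) / r‖ * (r ^ 2 * E (r • x)) := by
    refine integral_congr_ae (Eventually.of_forall fun y => ?_)
    dsimp only
    rw [Complex.real_smul, sub_div, mul_div_cancel_left₀ _ hrc]
  have e2 : ∫ x in ball (0:ℂ) r, Real.log ‖(z - x) / r‖ * (r ^ 2 * E x) =
      ∫ x in ball (0:ℂ) r, (r ^ 2 * (Real.log ‖z - x‖ * E x) - r ^ 2 * Real.log r * E x) := by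
    have hae : ∀ᵐ x ∂(volume.restrict (ball (0:ℂ) r)), x ≠ z := by
      have : (volume.restrict (ball (0:ℂ) r)) {z} = 0 := by simp
      exact (measure_eq_zero_iff_ae_notMem.1 this).mono fun x hx => by simpa using hx
    refine integral_congr_ae (hae.mono fun x hx => ?_)
    dsimp only
    have hn : ‖z - x‖ ≠ 0 := by
      rw [norm_ne_zero_iff, sub_ne_zero]; exact fun h => hx h.symm
    rw [norm_div, Complex.norm_real, Real.norm_eq_abs, abs_of_pos hr,
      Real.log_div hn hr.ne']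
    ring
  have e3 : ∫ x in ball (0:ℂ) r, (r ^ 2 * (Real.log ‖z - x‖ * E x) - r ^ 2 * Real.log r * E x) =
      r ^ 2 * (∫ x in ball (0:ℂ) r, Real.log ‖z - x‖ * E x) - r ^ 2 * Real.log r * ms r E := by
    rw [integral_sub (hlog.const_mul _) (hE.const_mul _), integral_const_mul,
      integral_const_mul]
    rfl
  unfold pot
  rw [e1, hcv, e2, e3]
  have hr2 : r ^ 2 ≠ 0 := by positivity
  field_simp
  ring

theorem pr_Small (h0 : S_Riesz) (h1 : S_LogI) (h2 : S_Scale) : S_Small := by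
  intro n H
  refine ⟨Small_C1 n H + Small_K n H * Real.exp (Small_C1 n H), ?_⟩
  intro r lam h E hL hlam hH hM z hz
  have hr := hL.rpos
  obtain ⟨hs1, hs2⟩ := h2 r n lam h E r hL hr
  rw [div_self hr.ne'] at hs1
  have hs3 : ms 1 (fun y => r ^ 2 * E (r * y)) = ms r E := by
    have := hs2 r hr
    rwa [div_self hr.ne'] at this
  have hd : ∀ y ∈ ball (0:ℂ) (1 / 2), ‖deriv (fun y : ℂ => h (r * y) +
      (((1 + n - ms r E / (4 * π)) * Real.log r : ℝ) : ℂ)) y‖ ≤ H := by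
    intro y hy
    have hy' : ‖y‖ < 1 / 2 := by simpa using hy
    rw [deriv_add_const, deriv_comp_mul_left, smul_eq_mul, norm_mul, Complex.norm_real,
      Real.norm_eq_abs, abs_of_pos hr, mul_comm]
    apply hH
    rw [mem_ball_zero_iff, norm_mul, Complex.norm_real, Real.norm_eq_abs, abs_of_pos hr]
    nlinarith
  have hz' : ‖z‖ < r / 4 := by simpa using hz
  have hzr : z / r ∈ ball (0:ℂ) (1 / 4) := by
    rw [mem_ball_zero_iff, norm_div, Complex.norm_real, Real.norm_eq_abs, abs_of_pos hr,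
      div_lt_iff₀ hr]
    linarith
  have h3 := Small_one h0 h1 hs1 hlam hd (hs3.trans_le hM) (z / r) hzr
  rw [Small_scale h1 hr hL.cont z] at h3
  have hrc : (r : ℂ) ≠ 0 := by exact_mod_cast hr.ne'
  rw [mul_div_cancel₀ _ hrc] at h3
  have h4 : 0 ≤ Small_K n H * Real.exp (Small_C1 n H) :=
    mul_nonneg (Small_K_nonneg n H) (Real.exp_pos _).le
  have h5 : 0 ≤ Small_C1 n H := by unfold Small_C1; positivity
  exact ⟨h3.1.trans (by linarith), h3.2.trans (by linarith)⟩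

end Pool.Agent.Vx

end

section

/-!
# MP_afe918_an, block W: two bubbles at a simple vortex (captain helper86)

Notation in the comments: `R`, `lam`, `eta`, `kap`, `h`, `E` with the index `j` suppressed,
`E ≥ 0` the density on `ball 0 (r/R)`, local form with `n = 1` and `lam R²`.
-/

set_option autoImplicit false

open Complex Set Filter Topology MeasureTheory Metric
open scoped Real ContDiff ComplexConjugate

namespace Pool.Agent.Vx

/-- `PL` and the mass tends to `8π` at `1` and at `-1`. -/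
structure PW (r H Λ : ℝ) (R lam eta : ℕ → ℝ) (h : ℕ → ℂ → ℂ) (E : ℕ → ℂ → ℝ) : Prop where
  pl : PL r H Λ R lam eta h E
  two1 : ∀ s, 0 < s → s ≤ 1 / 2 →
    Tendsto (fun j => ∫ z in ball (1 : ℂ) s, E j z) atTop (𝓝 (8 * π))
  two2 : ∀ s, 0 < s → s ≤ 1 / 2 →
    Tendsto (fun j => ∫ z in ball (-1 : ℂ) s, E j z) atTop (𝓝 (8 * π))

/-- `PW` with the height `kap` away from the bubbles and the sharp estimates. -/
structure PX (r H Λ : ℝ) (R lam eta kap : ℕ → ℝ) (h : ℕ → ℂ → ℂ) (E : ℕ → ℂ → ℝ) : Prop where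
  pw : PW r H Λ R lam eta h E
  kpos : ∀ j, 0 < kap j
  k0 : Tendsto kap atTop (𝓝 0)
  upc : ∀ s, 0 < s → ∃ C, ∀ j, ∀ z ∈ ball (0 : ℂ) 4, s ≤ ‖z - 1‖ → s ≤ ‖z + 1‖ →
    E j z ≤ C * kap j
  lowc : ∀ s, 0 < s → ∃ c, 0 < c ∧ ∀ᶠ j in atTop, ∀ z ∈ ball (0 : ℂ) 4, s ≤ ‖z - 1‖ →
    s ≤ ‖z + 1‖ → c * ‖z‖ ^ 2 * kap j ≤ E j z
  tail : ∃ C, ∀ j, ∀ z ∈ ball (0 : ℂ) (r / R j), 2 ≤ ‖z‖ → E j z ≤ C * kap j / ‖z‖ ^ 6
  eta : ∃ C, ∀ j, eta j ≤ C * kap j * R j ^ 4
  dd : ∃ C, ∀ j, |16 * π - ms (r / R j) (E j)| ≤ C * R j ^ 2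

/-! ### From `PL` to two bubbles -/

/-- W1: subsequences. -/
def S_WSub : Prop := ∀ (r H Λ : ℝ) (R lam eta : ℕ → ℝ) (h : ℕ → ℂ → ℂ) (E : ℕ → ℂ → ℝ)
  (φ : ℕ → ℕ), PL r H Λ R lam eta h E → StrictMono φ →
  PL r H Λ (fun j => R (φ j)) (fun j => lam (φ j)) (fun j => eta (φ j)) (fun j => h (φ j))
    (fun j => E (φ j))

/-- W2: local bound where the mass is small. -/
def S_WLoc : Prop := ∀ (r H Λ : ℝ) (R lam eta : ℕ → ℝ) (h : ℕ → ℂ → ℂ) (E : ℕ → ℂ → ℝ),
  PL r H Λ R lam eta h E → ∀ (x : ℂ) (s : ℝ), 0 < s → (x = 0 ∨ s ≤ ‖x‖) →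
  (∀ᶠ j in atTop, ∫ z in ball x s, E j z ≤ 1) →
  ∃ C, ∀ᶠ j in atTop, ∀ z ∈ ball x (s / 4), E j z ≤ C

/-- W3: the mass vanishes locally away from the concentration set. -/
def S_WVan : Prop := ∀ (r H Λ : ℝ) (R lam eta : ℕ → ℝ) (h : ℕ → ℂ → ℂ) (E : ℕ → ℂ → ℝ),
  PL r H Λ R lam eta h E → ∀ (x : ℂ) (s : ℝ), 0 < s → (x = 0 ∨ s ≤ ‖x‖) →
  (∀ᶠ j in atTop, ∫ z in ball x s, E j z ≤ 1) →
  Tendsto (fun j => ∫ z in ball x (s / 4), E j z) atTop (𝓝 0)

/-- W4: no concentration at the vortex. -/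
def S_WNo0 : Prop := ∀ (r H Λ : ℝ) (R lam eta : ℕ → ℝ) (h : ℕ → ℂ → ℂ) (E : ℕ → ℂ → ℝ),
  PL r H Λ R lam eta h E → ¬ ∀ s, 0 < s → ∀ᶠ j in atTop, 1 ≤ ms s (E j)

/-- W5: a concentration point carries at least `8π`. -/
def S_WQ : Prop := ∀ (r H Λ : ℝ) (R lam eta : ℕ → ℝ) (h : ℕ → ℂ → ℂ) (E : ℕ → ℂ → ℝ),
  PL r H Λ R lam eta h E → ∀ q : ℂ, q ≠ 0 →
  (∀ s, 0 < s → ∀ᶠ j in atTop, 1 ≤ ∫ z in ball q s, E j z) →
  ∀ s, 0 < s → ∀ ε, 0 < ε → ∀ᶠ j in atTop, 8 * π - ε ≤ ∫ z in ball q s, E j z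

/-- W6: balance of forces. -/
def S_WBal : Prop := ∀ (r H Λ : ℝ) (R lam eta : ℕ → ℝ) (h : ℕ → ℂ → ℂ) (E : ℕ → ℂ → ℝ),
  PL r H Λ R lam eta h E → ∀ (q q' : ℂ) (m m' s0 : ℝ), q ≠ 0 → q' ≠ q → 0 < m → 0 < s0 →
  (∀ s, 0 < s → s ≤ s0 → Tendsto (fun j => ∫ z in ball q s, E j z) atTop (𝓝 m)) →
  (∀ s, 0 < s → s ≤ s0 → Tendsto (fun j => ∫ z in ball q' s, E j z) atTop (𝓝 m')) →
  (∀ s S, 0 < s → Tendsto (fun j => ∫ z in ball 0 S \ (ball q s ∪ ball q' s), E j z) atTop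
    (𝓝 0)) →
  1 / q = (m' / (4 * π) : ℝ) / (q - q')

/-- W7: two bubbles. -/
def S_WTwo : Prop := ∀ (r H Λ : ℝ) (R lam eta : ℕ → ℝ) (h : ℕ → ℂ → ℂ) (E : ℕ → ℂ → ℝ),
  PL r H Λ R lam eta h E → PW r H Λ R lam eta h E

/-! ### Estimates away from the bubbles -/

/-- W8: the rest of the mass tends to 0; local bound off `±1`. -/
def S_WUB : Prop := ∀ (r H Λ : ℝ) (R lam eta : ℕ → ℝ) (h : ℕ → ℂ → ℂ) (E : ℕ → ℂ → ℝ),
  PW r H Λ R lam eta h E → ∀ s, 0 < s → s ≤ 1 / 2 →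
  Tendsto (fun j => ∫ z in ball 0 (r / R j) \ (ball 1 s ∪ ball (-1) s), E j z) atTop (𝓝 0) ∧
  ∃ C, ∀ᶠ j in atTop, ∀ z ∈ ball (0 : ℂ) 6, s ≤ ‖z - 1‖ → s ≤ ‖z + 1‖ → E j z ≤ C

/-- W9: Harnack inequality off `±1`. -/
def S_WCmp : Prop := ∀ (r H Λ : ℝ) (R lam eta : ℕ → ℝ) (h : ℕ → ℂ → ℂ) (E : ℕ → ℂ → ℝ),
  PW r H Λ R lam eta h E → ∀ s, 0 < s → ∃ C, 0 < C ∧ ∀ᶠ j in atTop,
  ∀ z ∈ ball (0 : ℂ) 5, ∀ z' ∈ ball (0 : ℂ) 5, s ≤ ‖z - 1‖ → s ≤ ‖z + 1‖ → s ≤ ‖z' - 1‖ →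
  s ≤ ‖z' + 1‖ → ‖z'‖ ^ 2 * E j z ≤ C * ‖z‖ ^ 2 * E j z'

/-- W10: the height `kap = E (2i)`. -/
def S_WKap : Prop := ∀ (r H Λ : ℝ) (R lam eta : ℕ → ℝ) (h : ℕ → ℂ → ℂ) (E : ℕ → ℂ → ℝ),
  PW r H Λ R lam eta h E →
  (∀ j, 0 < E j (2 * I)) ∧ Tendsto (fun j => E j (2 * I)) atTop (𝓝 0) ∧
  (∀ s, 0 < s → ∃ C, ∀ᶠ j in atTop, ∀ z ∈ ball (0 : ℂ) 5, s ≤ ‖z - 1‖ → s ≤ ‖z + 1‖ →
    E j z ≤ C * E j (2 * I)) ∧
  ∀ s, 0 < s → ∃ c, 0 < c ∧ ∀ᶠ j in atTop, ∀ z ∈ ball (0 : ℂ) 5, s ≤ ‖z - 1‖ → s ≤ ‖z + 1‖ →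
    c * ‖z‖ ^ 2 * E j (2 * I) ≤ E j z

/-- W11: scale invariant bound away from the bubbles. -/
def S_WScale : Prop := ∀ (r H Λ : ℝ) (R lam eta : ℕ → ℝ) (h : ℕ → ℂ → ℂ) (E : ℕ → ℂ → ℝ),
  PW r H Λ R lam eta h E → ∃ C, ∀ᶠ j in atTop, ∀ z : ℂ, 2 ≤ ‖z‖ → ‖z‖ ≤ r / (4 * R j) →
  ∀ t ∈ ball z (‖z‖ / 16), ‖z‖ ^ 2 * E j t ≤ C

/-- W12: the density near the outer boundary in terms of `eta`. -/
def S_WEta : Prop := ∀ (r H Λ : ℝ) (R lam eta : ℕ → ℝ) (h : ℕ → ℂ → ℂ) (E : ℕ → ℂ → ℝ),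
  PL r H Λ R lam eta h E → ∃ c, 0 < c ∧ ∀ᶠ j in atTop, ∀ z : ℂ, ‖z‖ = r / (8 * R j) →
  c * R j ^ 2 * eta j ≤ E j z

/-- W13: crude tail. -/
def S_WTail1 : Prop := ∀ (r H Λ : ℝ) (R lam eta : ℕ → ℝ) (h : ℕ → ℂ → ℂ) (E : ℕ → ℂ → ℝ),
  PW r H Λ R lam eta h E → ∃ C, ∀ᶠ j in atTop,
  (∀ z ∈ ball (0 : ℂ) (r / R j), 2 ≤ ‖z‖ → E j z ≤ C * E j (2 * I) / ‖z‖ ^ 5) ∧
  eta j ≤ C * E j (2 * I) * R j ^ 3

/-- W14: the second moment is bounded. -/
def S_WMom : Prop := ∀ (r H Λ : ℝ) (R lam eta : ℕ → ℝ) (h : ℕ → ℂ → ℂ) (E : ℕ → ℂ → ℝ),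
  PW r H Λ R lam eta h E → ∃ C, ∀ᶠ j in atTop,
  ∫ z in ball (0 : ℂ) (r / R j), ‖z‖ ^ 2 * E j z ≤ C

/-- W15: Pohozaev identity for polynomial vector fields of degree at most 5, error in terms of
`eta`. -/
def S_WRI : Prop := ∀ (r H Λ : ℝ) (R lam eta : ℕ → ℝ) (h : ℕ → ℂ → ℂ) (E : ℕ → ℂ → ℝ),
  PL r H Λ R lam eta h E → ∃ K, ∀ᶠ j in atTop, ∀ (A : ℝ) (c : ℕ → ℂ),
  (∀ i, i < 6 → ‖c i‖ * (3 * (r / (4 * R j))) ^ i ≤ A * (r / (4 * R j))) →
  ‖mo (r / (4 * R j)) (E j) (fun z => (∑ i ∈ Finset.range 6, c i * i * z ^ (i - 1)) +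
      (∑ i ∈ Finset.range 6, c i * z ^ i) *
        (1 / z + deriv (h j) z - (lam j * R j ^ 2 : ℝ) / 4 * conj z)) -
    1 / (8 * π) * ∑ i ∈ Finset.range 6, c i * ∑ k ∈ Finset.range i,
      mo (r / (4 * R j)) (E j) (fun z => z ^ k) *
        mo (r / (4 * R j)) (E j) (fun z => z ^ (i - 1 - k))‖ ≤ K * A * eta j

/-- W16: Taylor expansion of the holomorphic part. -/
def S_WTay : Prop := ∀ (r H Λ : ℝ) (R lam eta : ℕ → ℝ) (h : ℕ → ℂ → ℂ) (E : ℕ → ℂ → ℝ),
  PL r H Λ R lam eta h E → ∃ C, ∀ j, ‖deriv (h j) 0‖ ≤ C * R j ∧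
  ‖deriv (deriv (h j)) 0‖ ≤ C * R j ^ 2 ∧ ∀ z : ℂ, ‖z‖ ≤ r / (4 * R j) →
  ‖deriv (h j) z - deriv (h j) 0‖ ≤ C * R j ^ 2 * ‖z‖ ∧
  ‖deriv (h j) z - deriv (h j) 0 - deriv (deriv (h j)) 0 * z‖ ≤ C * R j ^ 3 * ‖z‖ ^ 2

/-- W17: the missing mass is `O(R²)`. -/
def S_WD : Prop := ∀ (r H Λ : ℝ) (R lam eta : ℕ → ℝ) (h : ℕ → ℂ → ℂ) (E : ℕ → ℂ → ℝ),
  PW r H Λ R lam eta h E → ∃ C, ∀ᶠ j in atTop, |16 * π - ms (r / R j) (E j)| ≤ C * R j ^ 2

/-- W18: sharp tail. -/
def S_WTail2 : Prop := ∀ (r H Λ : ℝ) (R lam eta : ℕ → ℝ) (h : ℕ → ℂ → ℂ) (E : ℕ → ℂ → ℝ),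
  PW r H Λ R lam eta h E → ∃ C, ∀ᶠ j in atTop,
  (∀ z ∈ ball (0 : ℂ) (r / R j), 2 ≤ ‖z‖ → E j z ≤ C * E j (2 * I) / ‖z‖ ^ 6) ∧
  eta j ≤ C * E j (2 * I) * R j ^ 4

/-- W19: all estimates, along a subsequence. -/
def S_WPX : Prop := ∀ (r H Λ : ℝ) (R lam eta : ℕ → ℝ) (h : ℕ → ℂ → ℂ) (E : ℕ → ℂ → ℝ),
  PL r H Λ R lam eta h E → ∃ (φ : ℕ → ℕ) (kap : ℕ → ℝ), StrictMono φ ∧
  PX r H Λ (fun j => R (φ j)) (fun j => lam (φ j)) (fun j => eta (φ j)) kap
    (fun j => h (φ j)) (fun j => E (φ j))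

/-- W20: recentering at `q = ±1` gives a regular blow-up sequence. -/
def S_WBU : Prop := ∀ (r H Λ : ℝ) (R lam eta kap : ℕ → ℝ) (h : ℕ → ℂ → ℂ) (E : ℕ → ℂ → ℝ),
  PX r H Λ R lam eta kap h E → ∀ q : ℂ, (q = 1 ∨ q = -1) →
  ∃ (H' Λ' c : ℝ) (g : ℕ → ℂ → ℂ), 0 < c ∧
    BU (3 / 4) 0 H' Λ' (fun j => lam j * R j ^ 2) g (fun j w => E j (q + w)) ∧
    ∀ᶠ j in atTop, c * kap j ≤ et (g j)

/-- W21: two bubbles, all properties. -/
def S_WTB : Prop := ∀ (r H Λ : ℝ) (R lam eta kap : ℕ → ℝ) (h : ℕ → ℂ → ℂ) (E : ℕ → ℂ → ℝ),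
  PX r H Λ R lam eta kap h E → TB r H Λ R lam eta kap h E

/-! ### The mass of two bubbles -/

/-- W22: third moments at the bubbles. -/
def S_WThird : Prop := ∀ (r H Λ : ℝ) (R lam eta kap : ℕ → ℝ) (h : ℕ → ℂ → ℂ) (E : ℕ → ℂ → ℝ),
  TB r H Λ R lam eta kap h E → ∀ q : ℂ, (q = 1 ∨ q = -1) →
  Tendsto (fun j => (∫ z in ball q (1 / 4), ‖z - bc q (E j)‖ ^ 3 * E j z) / ba q (E j)) atTop
    (𝓝 0)

/-- W23: moments up to order 3 are bounded; `R * (moment of order 4)` is bounded. -/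
def S_WM3 : Prop := ∀ (r H Λ : ℝ) (R lam eta kap : ℕ → ℝ) (h : ℕ → ℂ → ℂ) (E : ℕ → ℂ → ℝ),
  TB r H Λ R lam eta kap h E → ∃ C, ∀ j,
  ∫ z in ball (0 : ℂ) (r / R j), ‖z‖ ^ 3 * E j z ≤ C ∧
  ∫ z in ball (0 : ℂ) (r / R j), ‖z‖ ^ 2 * E j z ≤ C ∧
  ms (r / R j) (E j) ≤ C ∧
  R j * ∫ z in ball (0 : ℂ) (r / (4 * R j)), ‖z‖ ^ 4 * E j z ≤ C

/-- W24: expansion of the moments of order 1, 2, 3; the mass outside `ball 0 (r/(4R))`. -/
def S_WExp : Prop := ∀ (r H Λ : ℝ) (R lam eta kap : ℕ → ℝ) (h : ℕ → ℂ → ℂ) (E : ℕ → ℂ → ℝ),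
  TB r H Λ R lam eta kap h E → (∀ k : ℕ, 1 ≤ k → k ≤ 3 →
  Tendsto (fun j => (mo (r / (4 * R j)) (E j) (fun z => z ^ k) -
      8 * π * (bc 1 (E j) ^ k + bc (-1) (E j) ^ k)) /
    ((ba 1 (E j) + ba (-1) (E j) : ℝ) : ℂ)) atTop (𝓝 0)) ∧
  Tendsto (fun j => (ms (r / R j) (E j) - ms (r / (4 * R j)) (E j)) /
    (R j ^ 2 * (ba 1 (E j) + ba (-1) (E j)))) atTop (𝓝 0)

/-- W25: the first moment is `O(R)`. -/
def S_WS1 : Prop := ∀ (r H Λ : ℝ) (R lam eta kap : ℕ → ℝ) (h : ℕ → ℂ → ℂ) (E : ℕ → ℂ → ℝ),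
  TB r H Λ R lam eta kap h E → ∃ C, ∀ᶠ j in atTop,
  ‖mo (r / (4 * R j)) (E j) (fun z => z)‖ ≤ C * R j

/-- The two points with the same first and second moments. -/
structure MP (r : ℝ) (R : ℕ → ℝ) (E : ℕ → ℂ → ℝ) (sp sm : ℕ → ℂ) : Prop where
  m1 : ∀ᶠ j in atTop, mo (r / (4 * R j)) (E j) (fun z => z) = 8 * π * (sp j + sm j)
  m2 : ∀ᶠ j in atTop, mo (r / (4 * R j)) (E j) (fun z => z ^ 2) = 8 * π * (sp j ^ 2 + sm j ^ 2)
  p : Tendsto (fun j => (sp j - bc 1 (E j)) / ((ba 1 (E j) + ba (-1) (E j) : ℝ) : ℂ)) atTop (𝓝 0)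
  m : Tendsto (fun j => (sm j - bc (-1) (E j)) / ((ba 1 (E j) + ba (-1) (E j) : ℝ) : ℂ)) atTop
    (𝓝 0)
  p1 : Tendsto sp atTop (𝓝 1)
  p2 : Tendsto sm atTop (𝓝 (-1))
  S : ∃ C, ∀ᶠ j in atTop, ‖sp j + sm j‖ ≤ C * R j

/-- W26: existence of the matched points. -/
def S_WMatch : Prop := ∀ (r H Λ : ℝ) (R lam eta kap : ℕ → ℝ) (h : ℕ → ℂ → ℂ) (E : ℕ → ℂ → ℝ),
  TB r H Λ R lam eta kap h E → ∃ sp sm : ℕ → ℂ, MP r R E sp sm

/-- The coefficients of `f = z (z - sp) (z - sm) (1 + g1 z + g2 z²) / (sp sm)`. -/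
noncomputable def cf (sp sm g1 g2 : ℂ) (i : ℕ) : ℂ :=
  if i = 1 then 1 else if i = 2 then g1 - (sp + sm) / (sp * sm)
  else if i = 3 then (1 - (sp + sm) * g1 + sp * sm * g2) / (sp * sm)
  else if i = 4 then (g1 - (sp + sm) * g2) / (sp * sm)
  else if i = 5 then g2 / (sp * sm) else 0

/-- The vector field `f`. -/
noncomputable def vf (sp sm g1 g2 z : ℂ) : ℂ :=
  z * (z - sp) * (z - sm) * (1 + g1 * z + g2 * z ^ 2) / (sp * sm)

/-- The function `p (g' + h' g) / (sp sm)`, `p = z (z - sp) (z - sm)`, `g = 1 + g1 z + g2 z²`. -/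
noncomputable def qf (sp sm g1 g2 : ℂ) (h : ℂ → ℂ) (z : ℂ) : ℂ :=
  z * (z - sp) * (z - sm) * ((g1 + 2 * g2 * z) + deriv h z * (1 + g1 * z + g2 * z ^ 2)) /
    (sp * sm)

/-- `g1` for the sequence `h`. -/
noncomputable def gg1 (h : ℂ → ℂ) : ℂ := -deriv h 0

/-- `g2` for the sequence `h`. -/
noncomputable def gg2 (h : ℂ → ℂ) : ℂ := (deriv h 0 ^ 2 - deriv (deriv h) 0) / 2

/-- W27: the algebraic identity between the moments. -/
def S_WAlg : Prop := ∀ (m0 m3 m4 sp sm g1 g2 : ℂ), sp ≠ 0 → sm ≠ 0 → ∀ m : ℕ → ℂ,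
  m 0 = m0 → m 1 = 8 * π * (sp + sm) → m 2 = 8 * π * (sp ^ 2 + sm ^ 2) → m 3 = m3 → m 4 = m4 →
  (∑ i ∈ Finset.range 6, cf sp sm g1 g2 i * (i + 1) * m (i - 1)) -
    (sp * sm * g1 * m 1 + (2 * g2 * (sp * sm) - (sp + sm) * g1) * m 2 +
      (g1 - 2 * g2 * (sp + sm)) * m 3 + 2 * g2 * m 4) / (sp * sm) -
    1 / (8 * π) * ∑ i ∈ Finset.range 6, cf sp sm g1 g2 i * ∑ k ∈ Finset.range i,
      m k * m (i - 1 - k) =
  -2 * (16 * π - m0) - (sp + sm) * g2 / (sp * sm) * (m3 - 8 * π * (sp ^ 3 + sm ^ 3)) -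
    1 / (8 * π) * ((16 * π - m0) ^ 2 - 2 * (16 * π - m0) *
      ((g1 - (sp + sm) * g2) / (sp * sm) * (m3 - 8 * π * (sp ^ 3 + sm ^ 3)) +
        g2 / (sp * sm) * (m4 - 8 * π * (sp ^ 4 + sm ^ 4))))

/-- W28: the left hand side of the Pohozaev identity for `f`. -/
def S_WInt : Prop := ∀ (ρ s lam : ℝ) (h : ℂ → ℂ) (E : ℂ → ℝ), Loc ρ 1 lam h E → 0 < s → s < ρ →
  ∀ sp sm g1 g2 : ℂ, sp ≠ 0 → sm ≠ 0 →
  mo s E (fun z => (∑ i ∈ Finset.range 6, cf sp sm g1 g2 i * i * z ^ (i - 1)) +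
      (∑ i ∈ Finset.range 6, cf sp sm g1 g2 i * z ^ i) *
        (1 / z + deriv h z - (lam : ℝ) / 4 * conj z)) =
  (∑ i ∈ Finset.range 6, cf sp sm g1 g2 i * (i + 1) * mo s E (fun z => z ^ (i - 1))) -
    (sp * sm * g1 * mo s E (fun z => z ^ 1) +
      (2 * g2 * (sp * sm) - (sp + sm) * g1) * mo s E (fun z => z ^ 2) +
      (g1 - 2 * g2 * (sp + sm)) * mo s E (fun z => z ^ 3) +
      2 * g2 * mo s E (fun z => z ^ 4)) / (sp * sm) +
    mo s E (qf sp sm g1 g2 h) - lam / 4 * mo s E (fun z => vf sp sm g1 g2 z * conj z)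

/-- W29: the term with `g' + h' g` is negligible. -/
def S_WQf : Prop := ∀ (r H Λ : ℝ) (R lam eta kap : ℕ → ℝ) (h : ℕ → ℂ → ℂ) (E : ℕ → ℂ → ℝ)
  (sp sm : ℕ → ℂ), TB r H Λ R lam eta kap h E → MP r R E sp sm →
  Tendsto (fun j => mo (r / (4 * R j)) (E j) (qf (sp j) (sm j) (gg1 (h j)) (gg2 (h j)) (h j)) /
    ((R j ^ 2 * (ba 1 (E j) + ba (-1) (E j)) : ℝ) : ℂ)) atTop (𝓝 0)

/-- W30: comparison of the density at `z` and at `iz`. -/
def S_WAng : Prop := ∀ (r H Λ : ℝ) (R lam eta kap : ℕ → ℝ) (h : ℕ → ℂ → ℂ) (E : ℕ → ℂ → ℝ),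
  TB r H Λ R lam eta kap h E → ∃ C, ∀ᶠ j in atTop, ∀ z : ℂ, 2 ≤ ‖z‖ → ‖z‖ ≤ r / (4 * R j) →
  |E j z - E j (I * z)| ≤ C * kap j / ‖z‖ ^ 6 * (R j * ‖z‖ + 1 / ‖z‖)

/-- W31: the `lam` term, tail. -/
def S_WLamT : Prop := ∀ (r H Λ : ℝ) (R lam eta kap : ℕ → ℝ) (h : ℕ → ℂ → ℂ) (E : ℕ → ℂ → ℝ)
  (sp sm : ℕ → ℂ), TB r H Λ R lam eta kap h E → MP r R E sp sm → ∃ C, ∀ᶠ j in atTop,
  ‖∫ z in ball (0 : ℂ) (r / (4 * R j)) \ ball 0 2,
    vf (sp j) (sm j) (gg1 (h j)) (gg2 (h j)) z * conj z * (E j z : ℂ)‖ ≤ C * kap j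

/-- W32: the `lam` term, near the bubbles. -/
def S_WLamN : Prop := ∀ (r H Λ : ℝ) (R lam eta kap : ℕ → ℝ) (h : ℕ → ℂ → ℂ) (E : ℕ → ℂ → ℝ)
  (sp sm : ℕ → ℂ), TB r H Λ R lam eta kap h E → MP r R E sp sm →
  Tendsto (fun j => ((∫ z in ball (1 : ℂ) (1 / 4),
      vf (sp j) (sm j) (gg1 (h j)) (gg2 (h j)) z * conj z * (E j z : ℂ)) +
      2 * (ba 1 (E j) : ℂ)) / ((ba 1 (E j) + ba (-1) (E j) : ℝ) : ℂ)) atTop (𝓝 0) ∧
  Tendsto (fun j => ((∫ z in ball (-1 : ℂ) (1 / 4),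
      vf (sp j) (sm j) (gg1 (h j)) (gg2 (h j)) z * conj z * (E j z : ℂ)) +
      2 * (ba (-1) (E j) : ℂ)) / ((ba 1 (E j) + ba (-1) (E j) : ℝ) : ℂ)) atTop (𝓝 0)

/-- W33: the `lam` term. -/
def S_WLam : Prop := ∀ (r H Λ : ℝ) (R lam eta kap : ℕ → ℝ) (h : ℕ → ℂ → ℂ) (E : ℕ → ℂ → ℝ)
  (sp sm : ℕ → ℂ), TB r H Λ R lam eta kap h E → MP r R E sp sm →
  Tendsto (fun j => mo (r / (4 * R j)) (E j)
      (fun z => vf (sp j) (sm j) (gg1 (h j)) (gg2 (h j)) z * conj z) /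
    ((ba 1 (E j) + ba (-1) (E j) : ℝ) : ℂ)) atTop (𝓝 (-2))

/-- W34: the size of the coefficients of `f`. -/
def S_WCf : Prop := ∀ (r H Λ : ℝ) (R lam eta kap : ℕ → ℝ) (h : ℕ → ℂ → ℂ) (E : ℕ → ℂ → ℝ)
  (sp sm : ℕ → ℂ), TB r H Λ R lam eta kap h E → MP r R E sp sm → ∃ C, ∀ᶠ j in atTop,
  ∀ i, i < 6 → ‖cf (sp j) (sm j) (gg1 (h j)) (gg2 (h j)) i‖ * (3 * (r / (4 * R j))) ^ i ≤
    C / R j ^ 2 * (r / (4 * R j))

end Pool.Agent.Vx

end
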