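import Pool.Agent.Work.MP_afe918_an.Bd.B01

/-! Bundle of small proof modules (one section per former module). -/

section

/-!
# MP_afe918_an, item Poh: Pohozaev identity with the masses of annuli as error
-/

set_option autoImplicit false

open Complex Set Filter Topology MeasureTheory Metric
open scoped Real ContDiff ComplexConjugate

namespace Pool.Agent.Vx

theorem poh_lip {δ K : ℝ} (hδ : 0 < δ) (hK : 0 < K) {χ : ℂ → ℝ}
    (h01 : ∀ z, 0 ≤ χ z ∧ χ z ≤ 1) (h0 : ∀ z, 3 / 2 * δ ≤ ‖z‖ → χ z = 0)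
    (hL : ∀ z y, |χ z - χ y| ≤ K / δ * ‖z - y‖) (z y : ℂ) :
    ‖(χ z : ℂ) * z - (χ y : ℂ) * y‖ ≤ (1 + 2 * K) * ‖z - y‖ := by
  have key : ∀ z y : ℂ, ‖y‖ < 2 * δ →
      ‖(χ z : ℂ) * z - (χ y : ℂ) * y‖ ≤ (1 + 2 * K) * ‖z - y‖ := by
    intro z y hy
    have e : (χ z : ℂ) * z - (χ y : ℂ) * y = (χ z : ℂ) * (z - y) + ((χ z - χ y : ℝ) : ℂ) * y := by
      push_cast; ring
    rw [e]
    refine (norm_add_le _ _).trans ?_
    rw [norm_mul, norm_mul, Complex.norm_real, Complex.norm_real, Real.norm_eq_abs,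
      Real.norm_eq_abs, abs_of_nonneg (h01 z).1]
    have a1 : χ z * ‖z - y‖ ≤ 1 * ‖z - y‖ :=
      mul_le_mul_of_nonneg_right (h01 z).2 (norm_nonneg _)
    have a2 : |χ z - χ y| * ‖y‖ ≤ (K / δ * ‖z - y‖) * (2 * δ) :=
      mul_le_mul (hL z y) hy.le (norm_nonneg _) (by positivity)
    have a3 : (K / δ * ‖z - y‖) * (2 * δ) = 2 * K * ‖z - y‖ := by
      field_simp
    linarith
  rcases lt_or_ge ‖y‖ (2 * δ) with h | h
  · exact key z y h
  · rcases lt_or_ge ‖z‖ (2 * δ) with h' | h'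
    · rw [norm_sub_rev, norm_sub_rev z y]
      exact key y z h'
    · rw [h0 z (by linarith), h0 y (by linarith)]
      simp only [Complex.ofReal_zero, zero_mul, sub_self, norm_zero]
      positivity

theorem poh_dz_le (f : ℂ → ℂ) (z : ℂ) : ‖dz f z‖ ≤ ‖fderiv ℝ f z‖ := by
  unfold dz
  rw [norm_div]
  have h1 : ‖fderiv ℝ f z 1‖ ≤ ‖fderiv ℝ f z‖ := by
    have := (fderiv ℝ f z).le_opNorm 1
    simpa using this
  have h2 : ‖I * fderiv ℝ f z I‖ ≤ ‖fderiv ℝ f z‖ := by
    rw [norm_mul, Complex.norm_I, one_mul]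
    have := (fderiv ℝ f z).le_opNorm I
    simpa using this
  have h3 : ‖(2 : ℂ)‖ = 2 := by simp
  rw [h3, div_le_iff₀ (by norm_num)]
  refine (norm_sub_le _ _).trans ?_
  linarith

theorem poh_ms_ind {r s : ℝ} (hs : s ≤ r) (E : ℂ → ℝ) :
    ∫ z in ball (0 : ℂ) r, (ball (0 : ℂ) s).indicator E z = ms s E := by
  rw [setIntegral_indicator measurableSet_ball, ms]
  congr 2
  rw [inter_eq_right.2 (ball_subset_ball hs)]

theorem poh_Eint {r : ℝ} {E : ℂ → ℝ} (hE : Continuous E) : IntegrableOn E (ball (0 : ℂ) r) :=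
  (hE.continuousOn.integrableOn_compact (isCompact_closedBall (0 : ℂ) r)).mono_set
    ball_subset_closedBall

/-- the linear part -/
theorem poh_lin {r δ lam H K : ℝ} {n : ℕ} {h : ℂ → ℂ} {E : ℂ → ℝ} (L : Loc r n lam h E)
    (hδ : 0 < δ) (hδr : 4 * δ ≤ r)
    (hh : ∀ z ∈ ball (0 : ℂ) (2 * δ), ‖deriv h z‖ ≤ H) (hK : 0 < K) {χ : ℂ → ℝ}
    (hχ : ContDiff ℝ ∞ χ) (h01 : ∀ z, 0 ≤ χ z ∧ χ z ≤ 1) (hχ1 : ∀ z, ‖z‖ ≤ δ → χ z = 1)
    (h0 : ∀ z, 3 / 2 * δ ≤ ‖z‖ → χ z = 0) (hL : ∀ z y, |χ z - χ y| ≤ K / δ * ‖z - y‖) :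
    ‖(∫ z in ball (0 : ℂ) r, (dz (fun z => (χ z : ℂ) * z) z + (χ z : ℂ) * z *
      (n / z + deriv h z - lam / 4 * conj z)) * (E z : ℂ)) - (((1 + n) * ms δ E : ℝ) : ℂ)‖ ≤
      (2 * δ * H + lam * δ ^ 2) * ms (2 * δ) E +
        (1 + n) * (1 + 2 * K) * (ms (2 * δ) E - ms δ E) := by
  set B := ball (0 : ℂ) r with hB
  set μ : Measure ℂ := volume.restrict B with hμ
  have hlam := L.lam0
  have hψc : ContDiff ℝ ∞ (fun z : ℂ => (χ z : ℂ) * z) := by
    have : ContDiff ℝ ∞ (fun z : ℂ => (χ z : ℂ)) := Complex.ofRealCLM.contDiff.comp hχ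
    exact this.mul contDiff_id
  have hlip : ∀ z, ‖fderiv ℝ (fun z : ℂ => (χ z : ℂ) * z) z‖ ≤ 1 + 2 * K := by
    intro z
    have h1 : LipschitzWith (Real.toNNReal (1 + 2 * K)) (fun z : ℂ => (χ z : ℂ) * z) := by
      refine LipschitzWith.of_dist_le' fun z y => ?_
      rw [dist_eq_norm, dist_eq_norm]
      exact poh_lip hδ hK h01 h0 hL z y
    have h2 := norm_fderiv_le_of_lipschitz ℝ h1 (x₀ := z)
    rwa [Real.coe_toNNReal _ (by positivity)] at h2
  set f : ℂ → ℂ := fun z => (dz (fun z => (χ z : ℂ) * z) z + (χ z : ℂ) * z *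
      (n / z + deriv h z - lam / 4 * conj z)) * (E z : ℂ) with hf
  set a1 : ℂ → ℝ := (ball (0 : ℂ) δ).indicator E with ha1
  set a2 : ℂ → ℝ := (ball (0 : ℂ) (2 * δ)).indicator E with ha2
  have iE : Integrable E μ := poh_Eint L.cont
  have i1 : Integrable a1 μ := iE.indicator measurableSet_ball
  have i2 : Integrable a2 μ := iE.indicator measurableSet_ball
  have ig : Integrable (fun z => (2 * δ * H + lam * δ ^ 2) * a2 z +
      (1 + n) * (1 + 2 * K) * (a2 z - a1 z)) μ :=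
    (i2.const_mul _).add ((i2.sub i1).const_mul _)
  have hfm : AEStronglyMeasurable f μ := by
    have m1 : AEStronglyMeasurable (fun z => dz (fun z : ℂ => (χ z : ℂ) * z) z) μ := by
      have c1 : Continuous (fderiv ℝ (fun z : ℂ => (χ z : ℂ) * z)) :=
        hψc.continuous_fderiv (by simp)
      have : Continuous (fun z => dz (fun z : ℂ => (χ z : ℂ) * z) z) := by
        unfold dz
        exact ((c1.clm_apply continuous_const).sub
          (continuous_const.mul (c1.clm_apply continuous_const))).div_const _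
      exact this.aestronglyMeasurable
    have m2 : AEStronglyMeasurable (fun z => (χ z : ℂ) * z) μ := hψc.continuous.aestronglyMeasurable
    have m3 : AEStronglyMeasurable (fun z : ℂ => (n : ℂ) / z) μ :=
      (by fun_prop : Measurable (fun z : ℂ => (n : ℂ) / z)).aestronglyMeasurable
    have m4 : AEStronglyMeasurable (deriv h) μ :=
      (L.an.deriv isOpen_ball).continuousOn.aestronglyMeasurable measurableSet_ball
    have m5 : AEStronglyMeasurable (fun z : ℂ => (lam : ℂ) / 4 * conj z) μ :=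
      (by fun_prop : Continuous (fun z : ℂ => (lam : ℂ) / 4 * conj z)).aestronglyMeasurable
    have m6 : AEStronglyMeasurable (fun z : ℂ => (E z : ℂ)) μ :=
      (Complex.continuous_ofReal.comp L.cont).aestronglyMeasurable
    exact (m1.add (m2.mul ((m3.add m4).sub m5))).mul m6
  have hae : ∀ᵐ z ∂μ, ‖f z - (((1 + n) * a1 z : ℝ) : ℂ)‖ ≤
      (2 * δ * H + lam * δ ^ 2) * a2 z + (1 + n) * (1 + 2 * K) * (a2 z - a1 z) := by
    have hne : ∀ᵐ z ∂μ, z ≠ (0 : ℂ) := by
      refine ae_restrict_of_ae ?_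
      exact (measure_eq_zero_iff_ae_notMem.1 (measure_singleton (0 : ℂ)))
    filter_upwards [hne, ae_restrict_mem measurableSet_ball] with z hz hzB
    have hE0 := L.nonneg z
    have hn : ‖(n : ℂ)‖ = n := by simp
    have hbr : ‖z‖ < 2 * δ → ‖(χ z : ℂ) * z * (deriv h z - lam / 4 * conj z)‖ ≤
        2 * δ * H + lam * δ ^ 2 := by
      intro h2
      have b1 : ‖(χ z : ℂ) * z‖ ≤ 2 * δ := by
        rw [norm_mul, Complex.norm_real, Real.norm_eq_abs, abs_of_nonneg (h01 z).1]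
        calc χ z * ‖z‖ ≤ 1 * (2 * δ) :=
              mul_le_mul (h01 z).2 h2.le (norm_nonneg _) zero_le_one
          _ = 2 * δ := one_mul _
      have b2 : ‖deriv h z - lam / 4 * conj z‖ ≤ H + lam / 4 * (2 * δ) := by
        refine (norm_sub_le _ _).trans (add_le_add (hh z (mem_ball_zero_iff.2 h2)) ?_)
        rw [norm_mul, RCLike.norm_conj]
        have : ‖(lam : ℂ) / 4‖ = lam / 4 := by
          rw [norm_div, Complex.norm_real, Real.norm_eq_abs, abs_of_nonneg hlam]
          norm_num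
        rw [this]
        exact mul_le_mul_of_nonneg_left h2.le (by positivity)
      rw [norm_mul]
      calc ‖(χ z : ℂ) * z‖ * ‖deriv h z - lam / 4 * conj z‖
          ≤ (2 * δ) * (H + lam / 4 * (2 * δ)) :=
            mul_le_mul b1 b2 (norm_nonneg _) (by positivity)
        _ = 2 * δ * H + lam * δ ^ 2 := by ring
    rcases lt_or_ge ‖z‖ δ with h1 | h1
    · have e1 : a1 z = E z := indicator_of_mem (mem_ball_zero_iff.2 h1) _
      have e2 : a2 z = E z := indicator_of_mem (mem_ball_zero_iff.2 (by linarith)) _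
      have e3 : dz (fun z : ℂ => (χ z : ℂ) * z) z = 1 := by
        have h3 : (fun z : ℂ => (χ z : ℂ) * z) =ᶠ[𝓝 z] fun w => w := by
          have h4 : ∀ᶠ w in 𝓝 z, ‖w‖ < δ := continuous_norm.continuousAt.eventually (gt_mem_nhds h1)
          filter_upwards [h4] with w hw
          rw [hχ1 w hw.le]
          simp
        unfold dz
        rw [h3.fderiv_eq, fderiv_fun_id]
        simp only [ContinuousLinearMap.id_apply]
        linear_combination (-(1 : ℂ) / 2) * Complex.I_mul_I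
      have e4 : f z - (((1 + n) * a1 z : ℝ) : ℂ) =
          (χ z : ℂ) * z * (deriv h z - lam / 4 * conj z) * (E z : ℂ) := by
        simp only [hf]
        rw [e3, e1, hχ1 z h1.le]
        push_cast
        field_simp
        ring
      rw [e4, norm_mul, e1, e2, sub_self, mul_zero, add_zero, Complex.norm_real,
        Real.norm_eq_abs, abs_of_nonneg hE0]
      exact mul_le_mul_of_nonneg_right (hbr (by linarith)) hE0
    · have e1 : a1 z = 0 := indicator_of_notMem (by
        rw [mem_ball_zero_iff]; exact not_lt.2 h1) _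
      rcases lt_or_ge ‖z‖ (2 * δ) with h2 | h2
      · have e2 : a2 z = E z := indicator_of_mem (mem_ball_zero_iff.2 h2) _
        rw [e1, e2]
        simp only [mul_zero, Complex.ofReal_zero, sub_zero]
        have e4 : f z = (dz (fun z : ℂ => (χ z : ℂ) * z) z + (χ z : ℂ) * n +
            (χ z : ℂ) * z * (deriv h z - lam / 4 * conj z)) * (E z : ℂ) := by
          simp only [hf]
          field_simp
          ring
        rw [e4, norm_mul, Complex.norm_real, Real.norm_eq_abs, abs_of_nonneg hE0, ← add_mul]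
        refine mul_le_mul_of_nonneg_right ?_ hE0
        refine (norm_add_le _ _).trans ?_
        have b3 := (poh_dz_le (fun z : ℂ => (χ z : ℂ) * z) z).trans (hlip z)
        have b4 : ‖(χ z : ℂ) * n‖ ≤ n := by
          rw [norm_mul, Complex.norm_real, Real.norm_eq_abs, abs_of_nonneg (h01 z).1, hn]
          calc χ z * (n : ℝ) ≤ 1 * n := mul_le_mul_of_nonneg_right (h01 z).2 (by positivity)
            _ = n := one_mul _
        have b5 := hbr h2
        have b6 := norm_add_le (dz (fun z : ℂ => (χ z : ℂ) * z) z) ((χ z : ℂ) * n)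
        have b7 : (1 + 2 * K) + (n : ℝ) ≤ (1 + n) * (1 + 2 * K) := by
          have : 0 ≤ (n : ℝ) * K := by positivity
          nlinarith
        linarith
      · have e2 : a2 z = 0 := indicator_of_notMem (by
          rw [mem_ball_zero_iff]; exact not_lt.2 h2) _
        have e3 : dz (fun z : ℂ => (χ z : ℂ) * z) z = 0 := by
          have h3 : (fun z : ℂ => (χ z : ℂ) * z) =ᶠ[𝓝 z] fun w => 0 := by
            have h4 : ∀ᶠ w in 𝓝 z, 3 / 2 * δ < ‖w‖ :=
              continuous_norm.continuousAt.eventually (lt_mem_nhds (by linarith))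
            filter_upwards [h4] with w hw
            rw [h0 w hw.le]
            simp
          unfold dz
          rw [h3.fderiv_eq]
          simp
        rw [e1, e2]
        simp only [hf]
        rw [e3, h0 z (by linarith)]
        simp
  have iF : Integrable (fun z => f z - (((1 + n) * a1 z : ℝ) : ℂ)) μ := by
    refine ig.mono' (hfm.sub ?_) hae
    exact (Complex.continuous_ofReal.comp_aestronglyMeasurable
      (i1.aestronglyMeasurable.const_mul (1 + (n : ℝ))))
  have ia : Integrable (fun z => (((1 + n) * a1 z : ℝ) : ℂ)) μ := (i1.const_mul _).ofReal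
  have if' : Integrable f μ := by
    have := iF.add ia
    refine this.congr (Eventually.of_forall fun z => ?_)
    simp
  have e5 : ∫ z, (((1 + n) * a1 z : ℝ) : ℂ) ∂μ = (((1 + n) * ms δ E : ℝ) : ℂ) := by
    rw [integral_complex_ofReal, integral_const_mul, ha1, hμ, hB,
      poh_ms_ind (by linarith : δ ≤ r)]
  have e6 : ∫ z, a2 z ∂μ = ms (2 * δ) E := by
    rw [ha2, hμ, hB, poh_ms_ind (by linarith : 2 * δ ≤ r)]
  have e7 : ∫ z, a1 z ∂μ = ms δ E := by
    rw [ha1, hμ, hB, poh_ms_ind (by linarith : δ ≤ r)]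
  rw [← e5, ← integral_sub if' ia]
  refine (norm_integral_le_of_norm_le ig hae).trans ?_
  have i21 : Integrable (fun z => a2 z - a1 z) μ := i2.sub i1
  rw [integral_add (i2.const_mul _) (i21.const_mul _), integral_const_mul, integral_const_mul,
    integral_sub i2 i1, e6, e7]

/-- the double integral -/
theorem poh_dbl {r δ K : ℝ} {E : ℂ → ℝ} (hEc : Continuous E) (hE0 : ∀ z, 0 ≤ E z)
    (hδ : 0 < δ) (hδr : 4 * δ ≤ r) (hK : 0 < K) {χ : ℂ → ℝ}
    (hχ : Continuous χ) (h01 : ∀ z, 0 ≤ χ z ∧ χ z ≤ 1) (hχ1 : ∀ z, ‖z‖ ≤ δ → χ z = 1)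
    (h0 : ∀ z, 3 / 2 * δ ≤ ‖z‖ → χ z = 0) (hL : ∀ z y, |χ z - χ y| ≤ K / δ * ‖z - y‖) :
    ‖(∫ z in ball (0 : ℂ) r, ∫ y in ball (0 : ℂ) r,
      ((χ z : ℂ) * z - (χ y : ℂ) * y) / (z - y) * (E z : ℂ) * (E y : ℂ)) -
        ((ms δ E ^ 2 : ℝ) : ℂ)‖ ≤
      (1 + 2 * K) * (ms (4 * δ) E ^ 2 - ms δ E ^ 2) +
        8 * ms r E * ∫ z in ball (0 : ℂ) r \ ball 0 (4 * δ), δ / ‖z‖ * E z := by
  set B := ball (0 : ℂ) r with hB
  set μ : Measure ℂ := volume.restrict B with hμ
  set f : ℂ × ℂ → ℂ := fun p => ((χ p.1 : ℂ) * p.1 - (χ p.2 : ℂ) * p.2) / (p.1 - p.2) *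
    (E p.1 : ℂ) * (E p.2 : ℂ) with hf
  set a1 : ℂ → ℝ := (ball (0 : ℂ) δ).indicator E with ha1
  set a4 : ℂ → ℝ := (ball (0 : ℂ) (4 * δ)).indicator E with ha4
  set t : ℂ → ℝ := (ball (0 : ℂ) (4 * δ))ᶜ.indicator (fun z => 4 * δ / ‖z‖ * E z) with ht
  have iE : Integrable E μ := poh_Eint hEc
  have i1 : Integrable a1 μ := iE.indicator measurableSet_ball
  have i4 : Integrable a4 μ := iE.indicator measurableSet_ball
  have htm : Measurable t := by
    refine Measurable.indicator ?_ measurableSet_ball.compl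
    have := hEc.measurable
    fun_prop
  have ht0 : ∀ z, 0 ≤ t z := fun z => indicator_nonneg (fun z _ => by
    have := hE0 z
    positivity) z
  have htE : ∀ z, t z ≤ E z := by
    intro z
    by_cases hz : z ∈ ball (0 : ℂ) (4 * δ)
    · rw [ht, indicator_of_notMem (by simpa using hz)]
      exact hE0 z
    · rw [ht, indicator_of_mem hz]
      rw [mem_ball_zero_iff, not_lt] at hz
      have h1 : 0 < ‖z‖ := by linarith
      have h2 : 4 * δ / ‖z‖ ≤ 1 := by rw [div_le_one h1]; exact hz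
      calc 4 * δ / ‖z‖ * E z ≤ 1 * E z := mul_le_mul_of_nonneg_right h2 (hE0 z)
        _ = E z := one_mul _
  have it : Integrable t μ := by
    refine iE.mono' htm.aestronglyMeasurable (Eventually.of_forall fun z => ?_)
    rw [Real.norm_of_nonneg (ht0 z)]
    exact htE z
  have h10 : ∀ z, 0 ≤ a1 z := fun z => indicator_nonneg (fun z _ => hE0 z) z
  have h40 : ∀ z, 0 ≤ a4 z := fun z => indicator_nonneg (fun z _ => hE0 z) z
  have h14 : ∀ z, a1 z ≤ a4 z := fun z =>
    indicator_le_indicator_of_subset (ball_subset_ball (by linarith)) (fun z => hE0 z) z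
  set g : ℂ × ℂ → ℝ := fun p => (1 + 2 * K) * (a4 p.1 * a4 p.2 - a1 p.1 * a1 p.2) +
    (E p.1 * t p.2 + t p.1 * E p.2) with hg
  have i44 : Integrable (fun p : ℂ × ℂ => a4 p.1 * a4 p.2) (μ.prod μ) := i4.mul_prod i4
  have i11 : Integrable (fun p : ℂ × ℂ => a1 p.1 * a1 p.2) (μ.prod μ) := i1.mul_prod i1
  have iEt : Integrable (fun p : ℂ × ℂ => E p.1 * t p.2) (μ.prod μ) := iE.mul_prod it
  have itE : Integrable (fun p : ℂ × ℂ => t p.1 * E p.2) (μ.prod μ) := it.mul_prod iE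
  have i41 : Integrable (fun p : ℂ × ℂ => a4 p.1 * a4 p.2 - a1 p.1 * a1 p.2) (μ.prod μ) :=
    i44.sub i11
  have iet : Integrable (fun p : ℂ × ℂ => E p.1 * t p.2 + t p.1 * E p.2) (μ.prod μ) :=
    iEt.add itE
  have ig : Integrable g (μ.prod μ) := (i41.const_mul _).add iet
  have hfm : Measurable f := by
    have h1 := hχ.measurable
    have h2 := hEc.measurable
    simp only [hf]
    fun_prop
  have hq : ∀ z y : ℂ, z ≠ y → ‖((χ z : ℂ) * z - (χ y : ℂ) * y) / (z - y)‖ ≤ 1 + 2 * K := by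
    intro z y hzy
    rw [norm_div, div_le_iff₀ (norm_pos_iff.2 (sub_ne_zero.2 hzy))]
    exact poh_lip hδ hK h01 h0 hL z y
  have hfar : ∀ z y : ℂ, 4 * δ ≤ ‖y‖ →
      ‖((χ z : ℂ) * z - (χ y : ℂ) * y) / (z - y)‖ ≤ 4 * δ / ‖y‖ := by
    intro z y hy
    have hy0 : 0 < ‖y‖ := by linarith
    rw [h0 y (by linarith), Complex.ofReal_zero, zero_mul, sub_zero]
    rcases lt_or_ge ‖z‖ (3 / 2 * δ) with h | h
    · have h1 : ‖y‖ / 2 ≤ ‖z - y‖ := by
        have := norm_sub_norm_le y z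
        rw [norm_sub_rev] at this
        linarith
      have h2 : ‖(χ z : ℂ) * z‖ ≤ 2 * δ := by
        rw [norm_mul, Complex.norm_real, Real.norm_eq_abs, abs_of_nonneg (h01 z).1]
        calc χ z * ‖z‖ ≤ 1 * (2 * δ) :=
              mul_le_mul (h01 z).2 (by linarith) (norm_nonneg _) zero_le_one
          _ = 2 * δ := one_mul _
      rw [norm_div]
      calc ‖(χ z : ℂ) * z‖ / ‖z - y‖ ≤ 2 * δ / (‖y‖ / 2) :=
            div_le_div₀ (by positivity) h2 (by positivity) h1
        _ = 4 * δ / ‖y‖ := by field_simp; ring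
    · rw [h0 z h]
      simp only [Complex.ofReal_zero, zero_mul, zero_div, norm_zero]
      positivity
  have hd : ∀ᵐ p ∂(μ.prod μ), p.1 ≠ p.2 := by
    have hms : MeasurableSet {p : ℂ × ℂ | p.1 ≠ p.2} :=
      (measurableSet_eq_fun measurable_fst measurable_snd).compl
    refine (Measure.ae_prod_iff_ae_ae hms).2 ?_
    refine Eventually.of_forall fun z => ?_
    refine ae_restrict_of_ae ?_
    have := measure_eq_zero_iff_ae_notMem.1 (measure_singleton (μ := (volume : Measure ℂ)) z)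
    filter_upwards [this] with y hy h
    exact hy h.symm
  have hfb : ∀ᵐ p ∂(μ.prod μ), ‖f p‖ ≤ (1 + 2 * K) * (E p.1 * E p.2) := by
    filter_upwards [hd] with p hp
    simp only [hf]
    rw [mul_assoc, norm_mul]
    have h1 : ‖(E p.1 : ℂ) * (E p.2 : ℂ)‖ = E p.1 * E p.2 := by
      rw [norm_mul, Complex.norm_real, Complex.norm_real, Real.norm_of_nonneg (hE0 _),
        Real.norm_of_nonneg (hE0 _)]
    rw [h1]
    exact mul_le_mul_of_nonneg_right (hq _ _ hp) (mul_nonneg (hE0 _) (hE0 _))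
  have iEE : Integrable (fun p : ℂ × ℂ => E p.1 * E p.2) (μ.prod μ) := iE.mul_prod iE
  have if' : Integrable f (μ.prod μ) :=
    (iEE.const_mul _).mono' hfm.aestronglyMeasurable hfb
  have ia : Integrable (fun p : ℂ × ℂ => ((a1 p.1 * a1 p.2 : ℝ) : ℂ)) (μ.prod μ) := i11.ofReal
  have hae : ∀ᵐ p ∂(μ.prod μ), ‖f p - ((a1 p.1 * a1 p.2 : ℝ) : ℂ)‖ ≤ g p := by
    filter_upwards [hd] with p hp
    obtain ⟨z, y⟩ := p
    simp only [hf, hg]
    simp only at hp
    have hEz := hE0 z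
    have hEy := hE0 y
    have h1z := h10 z
    have h1y := h10 y
    have htz := ht0 z
    have hty := ht0 y
    have n1 : ∀ w : ℂ, ‖w * (E z : ℂ) * (E y : ℂ)‖ = ‖w‖ * (E z * E y) := by
      intro w
      rw [norm_mul, norm_mul, Complex.norm_real, Complex.norm_real, Real.norm_of_nonneg hEz,
        Real.norm_of_nonneg hEy, mul_assoc]
    have p1 : 0 ≤ E z * t y := mul_nonneg hEz hty
    have p2 : 0 ≤ t z * E y := mul_nonneg htz hEy
    rcases lt_or_ge ‖y‖ (4 * δ) with hy | hy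
    · rcases lt_or_ge ‖z‖ (4 * δ) with hz | hz
      · have e1 : a4 z = E z := indicator_of_mem (mem_ball_zero_iff.2 hz) _
        have e2 : a4 y = E y := indicator_of_mem (mem_ball_zero_iff.2 hy) _
        by_cases hb : ‖z‖ < δ ∧ ‖y‖ < δ
        · have e3 : a1 z = E z := indicator_of_mem (mem_ball_zero_iff.2 hb.1) _
          have e4 : a1 y = E y := indicator_of_mem (mem_ball_zero_iff.2 hb.2) _
          rw [e1, e2, e3, e4, hχ1 z hb.1.le, hχ1 y hb.2.le]
          have : ((1 : ℝ) : ℂ) * z - ((1 : ℝ) : ℂ) * y = z - y := by simp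
          rw [this, div_self (sub_ne_zero.2 hp), one_mul, Complex.ofReal_mul, sub_self, norm_zero,
            sub_self, mul_zero]
          linarith
        · have e3 : a1 z * a1 y = 0 := by
            rcases not_and_or.1 hb with h | h
            · rw [ha1, indicator_of_notMem (by rw [mem_ball_zero_iff]; exact h), zero_mul]
            · have : a1 y = 0 := indicator_of_notMem (by rw [mem_ball_zero_iff]; exact h) _
              rw [this, mul_zero]
          rw [e1, e2, e3, Complex.ofReal_zero, sub_zero, sub_zero, n1]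
          have := mul_le_mul_of_nonneg_right (hq z y hp) (mul_nonneg hEz hEy)
          linarith
      · have e1 : a1 z = 0 := indicator_of_notMem (by
          rw [mem_ball_zero_iff, not_lt]; linarith) _
        have e2 : a4 z = 0 := indicator_of_notMem (by rw [mem_ball_zero_iff, not_lt]; exact hz) _
        have e3 : t z = 4 * δ / ‖z‖ * E z := indicator_of_mem (by
          rw [mem_compl_iff, mem_ball_zero_iff, not_lt]; exact hz) _
        rw [e1, e2, zero_mul, zero_mul, Complex.ofReal_zero, sub_zero, sub_zero, mul_zero, n1]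
        have h2 := hfar y z hz
        have h3 : ((χ y : ℂ) * y - (χ z : ℂ) * z) / (y - z) =
            ((χ z : ℂ) * z - (χ y : ℂ) * y) / (z - y) := by
          rw [← neg_sub ((χ z : ℂ) * z), ← neg_sub z, neg_div_neg_eq]
        rw [h3] at h2
        have := mul_le_mul_of_nonneg_right h2 (mul_nonneg hEz hEy)
        rw [e3]
        nlinarith
    · have e1 : a1 y = 0 := indicator_of_notMem (by
        rw [mem_ball_zero_iff, not_lt]; linarith) _
      have e2 : a4 y = 0 := indicator_of_notMem (by rw [mem_ball_zero_iff, not_lt]; exact hy) _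
      have e3 : t y = 4 * δ / ‖y‖ * E y := indicator_of_mem (by
        rw [mem_compl_iff, mem_ball_zero_iff, not_lt]; exact hy) _
      rw [e1, e2, mul_zero, mul_zero, Complex.ofReal_zero, sub_zero, sub_zero, mul_zero, n1]
      have := mul_le_mul_of_nonneg_right (hfar z y hy) (mul_nonneg hEz hEy)
      rw [e3]
      nlinarith
  have e5 : ∫ p, ((a1 p.1 * a1 p.2 : ℝ) : ℂ) ∂(μ.prod μ) = ((ms δ E ^ 2 : ℝ) : ℂ) := by
    rw [integral_complex_ofReal, integral_prod_mul, ha1, hμ, hB,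
      poh_ms_ind (by linarith : δ ≤ r), sq]
  have e6 : ∫ p, a1 p.1 * a1 p.2 ∂(μ.prod μ) = ms δ E ^ 2 := by
    rw [integral_prod_mul, ha1, hμ, hB, poh_ms_ind (by linarith : δ ≤ r), sq]
  have e7 : ∫ p, a4 p.1 * a4 p.2 ∂(μ.prod μ) = ms (4 * δ) E ^ 2 := by
    rw [integral_prod_mul, ha4, hμ, hB, poh_ms_ind hδr, sq]
  have e8 : ∫ z, t z ∂μ = 4 * ∫ z in ball (0 : ℂ) r \ ball 0 (4 * δ), δ / ‖z‖ * E z := by
    rw [ht, hμ, setIntegral_indicator measurableSet_ball.compl, ← sdiff_eq, ← integral_const_mul]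
    refine integral_congr_ae (Eventually.of_forall fun z => ?_)
    simp only
    ring
  have e9 : ∫ z, E z ∂μ = ms r E := rfl
  have e10 : ∫ z in B, ∫ y in B,
      ((χ z : ℂ) * z - (χ y : ℂ) * y) / (z - y) * (E z : ℂ) * (E y : ℂ) =
        ∫ p, f p ∂(μ.prod μ) := (integral_prod f if').symm
  rw [e10, ← e5, ← integral_sub if' ia]
  refine (norm_integral_le_of_norm_le ig hae).trans (le_of_eq ?_)
  simp only [hg]
  rw [integral_add (i41.const_mul _) iet, integral_const_mul, integral_sub i44 i11, e6, e7,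
    integral_add iEt itE, integral_prod_mul, integral_prod_mul, e8, e9]
  ring

theorem pr_Poh (h1 : S_Id) (h2 : S_Cut) : S_Poh := by
  obtain ⟨K, hK, hcut⟩ := h2
  refine ⟨2 * (1 + 2 * K) + 8, by positivity, ?_⟩
  intro r δ lam H M0 n h E L hδ hδr hH hM hh
  obtain ⟨χ, hχ, h01, hχ1, h0, -, hL⟩ := hcut δ hδ
  have hψc : ContDiff ℝ ∞ (fun z : ℂ => (χ z : ℂ) * z) := by
    have : ContDiff ℝ ∞ (fun z : ℂ => (χ z : ℂ)) := Complex.ofRealCLM.contDiff.comp hχ
    exact this.mul contDiff_id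
  have a1 := h1 r n lam h E L (fun z : ℂ => (χ z : ℂ) * z) (hψc.of_le (by simp))
    ⟨3 / 2 * δ, by linarith, fun z hz => by rw [h0 z hz]; simp⟩
  have a2 := poh_lin L hδ hδr hh hK hχ h01 hχ1 h0 hL
  have a3 := poh_dbl L.cont L.nonneg hδ hδr hK hχ.continuous h01 hχ1 h0 hL
  rw [a1] at a2
  set D := ∫ z in ball (0 : ℂ) r, ∫ y in ball (0 : ℂ) r,
      ((χ z : ℂ) * z - (χ y : ℂ) * y) / (z - y) * (E z : ℂ) * (E y : ℂ) with hD
  set T := ∫ z in ball (0 : ℂ) r \ ball 0 (4 * δ), δ / ‖z‖ * E z with hT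
  set m1 := ms δ E with hm1
  set m2 := ms (2 * δ) E with hm2
  set m4 := ms (4 * δ) E with hm4
  set mr := ms r E with hmr
  have mono : ∀ {s t : ℝ}, s ≤ t → ms s E ≤ ms t E := by
    intro s t hst
    exact setIntegral_mono_set (poh_Eint L.cont) (Eventually.of_forall fun z => L.nonneg z)
      (ball_subset_ball hst).eventuallyLE
  have p0 : 0 ≤ m1 := integral_nonneg fun z => L.nonneg z
  have p12 : m1 ≤ m2 := mono (by linarith)
  have p24 : m2 ≤ m4 := mono (by linarith)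
  have p4r : m4 ≤ mr := mono hδr
  have pT : 0 ≤ T := by
    refine integral_nonneg fun z => ?_
    have := L.nonneg z
    positivity
  have hlam := L.lam0
  have hn : (0 : ℝ) ≤ n := Nat.cast_nonneg n
  have hπ : 1 ≤ 8 * π := by
    have := Real.pi_gt_three
    linarith
  have c1 : (((1 + n) * m1 - m1 ^ 2 / (8 * π) : ℝ) : ℂ) =
      -((1 / (8 * π) * D) - (((1 + n) * m1 : ℝ) : ℂ)) +
        1 / (8 * π) * (D - ((m1 ^ 2 : ℝ) : ℂ)) := by
    push_cast
    ring
  have c2 : |(1 + n) * m1 - m1 ^ 2 / (8 * π)| ≤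
      ((2 * δ * H + lam * δ ^ 2) * m2 + (1 + n) * (1 + 2 * K) * (m2 - m1)) +
      1 * ((1 + 2 * K) * (m4 ^ 2 - m1 ^ 2) + 8 * mr * T) := by
    rw [← Real.norm_eq_abs, ← Complex.norm_real, c1]
    refine (norm_add_le _ _).trans (add_le_add ?_ ?_)
    · rw [norm_neg]
      exact a2
    · rw [norm_mul]
      refine mul_le_mul ?_ a3 (norm_nonneg _) zero_le_one
      rw [norm_div, norm_one, norm_mul, Complex.norm_real, Real.norm_of_nonneg Real.pi_pos.le]
      rw [div_le_one (by simp [Real.pi_pos])]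
      simpa using hπ
  refine c2.trans ?_
  have hM0 : 0 ≤ M0 := by linarith
  set S := 1 + (n : ℝ) + M0 with hS
  have hS1 : 1 ≤ S := by linarith
  have hS2 : S ≤ S ^ 2 := by nlinarith
  have d1 : (2 * δ * H + lam * δ ^ 2) * m2 ≤ (2 * (H * δ) + lam * δ ^ 2) * S ^ 2 := by
    have : m2 ≤ S ^ 2 := by linarith
    calc (2 * δ * H + lam * δ ^ 2) * m2 ≤ (2 * δ * H + lam * δ ^ 2) * S ^ 2 :=
          mul_le_mul_of_nonneg_left this (by positivity)
      _ = _ := by ring
  have d2 : (1 + n) * (1 + 2 * K) * (m2 - m1) ≤ (1 + 2 * K) * (1 + n) * (m4 - m1) := by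
    have : (1 + (n : ℝ)) * (1 + 2 * K) * (m2 - m1) ≤ (1 + n) * (1 + 2 * K) * (m4 - m1) :=
      mul_le_mul_of_nonneg_left (by linarith) (by positivity)
    linarith
  have d3 : (1 + 2 * K) * (m4 ^ 2 - m1 ^ 2) ≤ (1 + 2 * K) * (2 * M0) * (m4 - m1) := by
    have : m4 ^ 2 - m1 ^ 2 ≤ 2 * M0 * (m4 - m1) := by nlinarith
    have := mul_le_mul_of_nonneg_left this (by positivity : (0 : ℝ) ≤ 1 + 2 * K)
    linarith
  have d4 : (1 + 2 * K) * (1 + n) * (m4 - m1) + (1 + 2 * K) * (2 * M0) * (m4 - m1) ≤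
      2 * (1 + 2 * K) * S ^ 2 * (m4 - m1) := by
    have e1 : (1 + 2 * K) * (1 + n) * (m4 - m1) + (1 + 2 * K) * (2 * M0) * (m4 - m1) =
        (1 + 2 * K) * (m4 - m1) * (1 + n + 2 * M0) := by ring
    have e2 : 1 + (n : ℝ) + 2 * M0 ≤ 2 * S ^ 2 := by nlinarith
    rw [e1]
    have := mul_le_mul_of_nonneg_left e2
      (mul_nonneg (by positivity : (0 : ℝ) ≤ 1 + 2 * K) (by linarith : 0 ≤ m4 - m1))
    linarith
  have d5 : 8 * mr * T ≤ 8 * S ^ 2 * T :=
    mul_le_mul_of_nonneg_right (by linarith) pT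
  have q1 : 0 ≤ H * δ * S ^ 2 := by positivity
  have q2 : 0 ≤ lam * δ ^ 2 * S ^ 2 := by positivity
  have q3 : 0 ≤ (m4 - m1) * S ^ 2 := mul_nonneg (by linarith) (by positivity)
  have q4 : 0 ≤ T * S ^ 2 := by positivity
  have q5 : 0 ≤ K * (H * δ * S ^ 2) := by positivity
  have q6 : 0 ≤ K * (lam * δ ^ 2 * S ^ 2) := by positivity
  have q7 : 0 ≤ K * (T * S ^ 2) := by positivity
  nlinarith

end Pool.Agent.Vx

end

section

/-!
# MP_afe918_an: the logarithmic potential is C^1 (item PotD)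

The kernel `log |x|` is approximated by `(1/2) log (|x|^2 + q)`; the derivatives converge
uniformly.
-/

set_option autoImplicit false

open Complex Set Filter Topology MeasureTheory Metric
open scoped Real ContDiff ComplexConjugate

namespace Pool.Agent.Vx

/-- the regularised kernel -/
noncomputable def PotD_k (q : ℝ) (x : ℂ) : ℂ := conj x / ((‖x‖ ^ 2 + q : ℝ) : ℂ)

/-- `w ↦ (v ↦ 2 Re (w v))` -/
noncomputable def PotD_T : ℂ →L[ℝ] (ℂ →L[ℝ] ℝ) :=
  (2 : ℝ) • ((ContinuousLinearMap.compL ℝ ℂ ℂ ℝ Complex.reCLM).comp (ContinuousLinearMap.mul ℝ ℂ))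

theorem PotD_T_apply (w v : ℂ) : PotD_T w v = 2 * (w * v).re := rfl

theorem PotD_T_eq (w : ℂ) :
    PotD_T w = (2 : ℝ) • Complex.reCLM.comp (ContinuousLinearMap.mul ℝ ℂ w) := rfl

theorem PotD_pos {q : ℝ} (hq : 0 < q) (x : ℂ) : 0 < ‖x‖ ^ 2 + q := by positivity

theorem PotD_k_cont {q : ℝ} (hq : 0 < q) : Continuous (PotD_k q) := by
  unfold PotD_k
  refine Continuous.div (by fun_prop) (by fun_prop) fun x => ?_
  exact_mod_cast (PotD_pos hq x).ne'

theorem PotD_k_norm {q : ℝ} (hq : 0 < q) (x : ℂ) : ‖PotD_k q x‖ = ‖x‖ / (‖x‖ ^ 2 + q) := by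
  unfold PotD_k
  rw [norm_div, Complex.norm_conj, Complex.norm_real, Real.norm_eq_abs,
    abs_of_pos (PotD_pos hq x)]

theorem PotD_k_le {q : ℝ} (hq : 0 < q) (x : ℂ) : ‖PotD_k q x‖ ≤ 1 + 1 / q := by
  rw [PotD_k_norm hq, div_le_iff₀ (PotD_pos hq x)]
  have h1 : (1 + 1 / q) * (‖x‖ ^ 2 + q) = ‖x‖ ^ 2 + q + ‖x‖ ^ 2 / q + 1 := by
    field_simp
    ring
  rw [h1]
  have h2 : 0 ≤ ‖x‖ ^ 2 / q := by positivity
  nlinarith [sq_nonneg (‖x‖ - 1), norm_nonneg x]

theorem PotD_k_sub {d : ℝ} (hd : 0 < d) (x : ℂ) :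
    ‖PotD_k (d ^ 4) x - 1 / x‖ ≤ (if ‖x‖ < d then 1 / ‖x‖ else 0) + d ^ 2 * (1 / ‖x‖) := by
  have hq : 0 < d ^ 4 := by positivity
  by_cases hx : x = 0
  · subst hx
    simp [PotD_k]
  have hx' : 0 < ‖x‖ := norm_pos_iff.2 hx
  have h0 := PotD_pos hq x
  have h1 : PotD_k (d ^ 4) x - 1 / x =
      -(conj x * ((d ^ 4 / ((‖x‖ ^ 2 + d ^ 4) * ‖x‖ ^ 2) : ℝ) : ℂ)) := by
    have h2 : (1 : ℂ) / x = conj x / ((‖x‖ ^ 2 : ℝ) : ℂ) := by
      rw [one_div, Complex.inv_def, Complex.normSq_eq_norm_sq, div_eq_mul_inv]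
      push_cast
      rfl
    have h3 : ((‖x‖ ^ 2 + d ^ 4 : ℝ) : ℂ) ≠ 0 := by exact_mod_cast h0.ne'
    have h4 : ((‖x‖ : ℝ) : ℂ) ≠ 0 := by exact_mod_cast hx'.ne'
    rw [h2, PotD_k]
    push_cast at h3 ⊢
    field_simp
    ring
  rw [h1, norm_neg, norm_mul, Complex.norm_conj, Complex.norm_real, Real.norm_eq_abs,
    abs_of_nonneg (by positivity)]
  have h5 : ‖x‖ * (d ^ 4 / ((‖x‖ ^ 2 + d ^ 4) * ‖x‖ ^ 2)) =
      d ^ 4 / (‖x‖ ^ 2 + d ^ 4) * (1 / ‖x‖) := by
    field_simp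
  rw [h5]
  split_ifs with h
  · have h6 : d ^ 4 / (‖x‖ ^ 2 + d ^ 4) ≤ 1 := by
      rw [div_le_one h0]
      have := sq_nonneg ‖x‖
      linarith
    have h7 : 0 ≤ 1 / ‖x‖ := by positivity
    have h8 : 0 ≤ d ^ 2 * (1 / ‖x‖) := by positivity
    nlinarith [mul_le_mul_of_nonneg_right h6 h7]
  · push Not at h
    have h6 : d ^ 4 / (‖x‖ ^ 2 + d ^ 4) ≤ d ^ 2 := by
      rw [div_le_iff₀ h0]
      have h9 : d ^ 2 ≤ ‖x‖ ^ 2 := pow_le_pow_left₀ hd.le h 2
      nlinarith [pow_pos hd 2, pow_pos hd 4, mul_le_mul_of_nonneg_left h9 (pow_pos hd 2).le]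
    have h7 : 0 ≤ 1 / ‖x‖ := by positivity
    have := mul_le_mul_of_nonneg_right h6 h7
    linarith

theorem PotD_bound {r : ℝ} {E : ℂ → ℝ} (hE : Continuous E) :
    ∃ B : ℝ, 0 ≤ B ∧ ∀ y ∈ ball (0 : ℂ) r, |E y| ≤ B := by
  obtain ⟨B, hB⟩ := (isCompact_closedBall (0 : ℂ) r).exists_bound_of_continuousOn hE.continuousOn
  exact ⟨max B 0, le_max_right _ _, fun y hy =>
    (hB y (ball_subset_closedBall hy)).trans (le_max_left _ _)⟩

theorem PotD_contint {F : Type} [NormedAddCommGroup F] {r : ℝ} {f : ℂ → F} (hf : Continuous f) :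
    IntegrableOn f (ball (0 : ℂ) r) :=
  (hf.continuousOn.integrableOn_compact (isCompact_closedBall (0 : ℂ) r)).mono_set
    ball_subset_closedBall

/-- derivative of the regularised logarithm -/
theorem PotD_hasFDeriv {q : ℝ} (hq : 0 < q) (e : ℝ) (y z : ℂ) :
    HasFDerivAt (fun z : ℂ => Real.log (‖z - y‖ ^ 2 + q) * e)
      (PotD_T (PotD_k q (z - y) * (e : ℂ))) z := by
  have h0 := PotD_pos hq (z - y)
  have h1 := ((((hasFDerivAt_id z).sub_const y).norm_sq.add_const q).log h0.ne').mul_const e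
  refine h1.congr_fderiv ?_
  ext v
  simp only [_root_.smul_apply, ContinuousLinearMap.comp_apply, id_eq,
    innerSL_apply_apply, ContinuousLinearMap.id_apply, smul_eq_mul, PotD_T_apply, PotD_k,
    Complex.inner, nsmul_eq_mul]
  have h3 : conj (z - y) / ((‖z - y‖ ^ 2 + q : ℝ) : ℂ) * (e : ℂ) * v =
      ((e * (‖z - y‖ ^ 2 + q)⁻¹ : ℝ) : ℂ) * (conj (z - y) * v) := by
    push_cast
    rw [div_eq_mul_inv]
    ring
  rw [h3, Complex.re_ofReal_mul]
  push_cast
  ring

theorem PotD_F_cont {q : ℝ} (hq : 0 < q) {E : ℂ → ℝ} (hE : Continuous E) (z : ℂ) :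
    Continuous fun y => Real.log (‖z - y‖ ^ 2 + q) * E y :=
  (Continuous.log (by fun_prop) fun y => (PotD_pos hq (z - y)).ne').mul hE

theorem PotD_F'_cont {q : ℝ} (hq : 0 < q) {E : ℂ → ℝ} (hE : Continuous E) (z : ℂ) :
    Continuous fun y => PotD_k q (z - y) * (E y : ℂ) :=
  ((PotD_k_cont hq).comp (by fun_prop)).mul (Complex.continuous_ofReal.comp hE)

theorem PotD_F'_le {q : ℝ} (hq : 0 < q) {E : ℂ → ℝ} {r B : ℝ}
    (hB : ∀ y ∈ ball (0 : ℂ) r, |E y| ≤ B) (z y : ℂ) (hy : y ∈ ball (0 : ℂ) r) :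
    ‖PotD_k q (z - y) * (E y : ℂ)‖ ≤ (1 + 1 / q) * B := by
  rw [norm_mul, Complex.norm_real, Real.norm_eq_abs]
  exact mul_le_mul (PotD_k_le hq _) (hB y hy) (abs_nonneg _) (by positivity)

/-- the regularised `dpot` -/
noncomputable def PotD_d (q r : ℝ) (E : ℂ → ℝ) (z : ℂ) : ℂ :=
  -(1 / (4 * π)) * ∫ y in ball (0 : ℂ) r, PotD_k q (z - y) * (E y : ℂ)

/-- the regularised potential -/
noncomputable def PotD_p (q r : ℝ) (E : ℂ → ℝ) (z : ℂ) : ℝ :=
  -(1 / (4 * π)) * ∫ y in ball (0 : ℂ) r, Real.log (‖z - y‖ ^ 2 + q) * E y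

theorem PotD_reg {q r : ℝ} (hq : 0 < q) {E : ℂ → ℝ} (hE : Continuous E) (z : ℂ) :
    HasFDerivAt (PotD_p q r E) (PotD_T (PotD_d q r E z)) z := by
  obtain ⟨B, hB0, hB⟩ := PotD_bound (r := r) hE
  have hmeas : MeasurableSet (ball (0 : ℂ) r) := measurableSet_ball
  have h1 := hasFDerivAt_integral_of_dominated_of_fderiv_le
    (μ := volume.restrict (ball (0 : ℂ) r)) (s := univ) (x₀ := z)
    (F := fun z y => Real.log (‖z - y‖ ^ 2 + q) * E y)
    (F' := fun z y => PotD_T (PotD_k q (z - y) * (E y : ℂ)))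
    (bound := fun _ => ‖PotD_T‖ * ((1 + 1 / q) * B)) univ_mem
    (Eventually.of_forall fun x => (PotD_F_cont hq hE x).aestronglyMeasurable)
    (PotD_contint (PotD_F_cont hq hE z))
    ((PotD_T.continuous.comp (PotD_F'_cont hq hE z)).aestronglyMeasurable)
    ((ae_restrict_iff' hmeas).2 (Eventually.of_forall fun y hy x _ =>
      (PotD_T.le_opNorm _).trans
        (mul_le_mul_of_nonneg_left (PotD_F'_le hq hB x y hy) (norm_nonneg _))))
    (integrableOn_const (by finiteness))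
    (Eventually.of_forall fun y x _ => PotD_hasFDeriv hq (E y) y x)
  have h2 := h1.const_mul (-(1 / (4 * π)))
  refine h2.congr_fderiv ?_
  rw [PotD_T.integral_comp_comm (PotD_contint (PotD_F'_cont hq hE z)), ← map_smul, PotD_d,
    Complex.real_smul]
  push_cast
  rfl

theorem PotD_d_cont {q r : ℝ} (hq : 0 < q) {E : ℂ → ℝ} (hE : Continuous E) :
    Continuous (PotD_d q r E) := by
  obtain ⟨B, hB0, hB⟩ := PotD_bound (r := r) hE
  refine continuous_const.mul (continuous_of_dominated (bound := fun _ => (1 + 1 / q) * B)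
    (fun x => (PotD_F'_cont hq hE x).aestronglyMeasurable)
    (fun x => (ae_restrict_iff' measurableSet_ball).2 (Eventually.of_forall fun y hy =>
      PotD_F'_le hq hB x y hy))
    (integrableOn_const (by finiteness)) (Eventually.of_forall fun y => ?_))
  exact ((PotD_k_cont hq).comp (by fun_prop)).mul continuous_const

theorem PotD_diff (h1 : S_Riesz) {r d B : ℝ} (hr : 0 < r) (hd : 0 < d) {E : ℂ → ℝ}
    (hE : Continuous E) (hB0 : 0 ≤ B) (hB : ∀ y ∈ ball (0 : ℂ) r, |E y| ≤ B) (z : ℂ) :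
    ‖PotD_d (d ^ 4) r E z - dpot r E z‖ ≤
      1 / (4 * π) * (B * (6 * π * d + d ^ 2 * (6 * π * r))) := by
  classical
  have hq : 0 < d ^ 4 := by positivity
  obtain ⟨hi1, hi2⟩ := h1 0 z r hr
  obtain ⟨hj1, hj2⟩ := h1 z z d hd
  have hmz : Measurable fun y : ℂ => (E y : ℂ) / (z - y) :=
    (Complex.continuous_ofReal.comp hE).measurable.div (by fun_prop)
  have hint2 : IntegrableOn (fun y => (E y : ℂ) / (z - y)) (ball (0 : ℂ) r) := by
    refine Integrable.mono' (hi1.const_mul B) hmz.aestronglyMeasurable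
      ((ae_restrict_iff' measurableSet_ball).2 (Eventually.of_forall fun y hy => ?_))
    rw [norm_div, Complex.norm_real, Real.norm_eq_abs, div_eq_mul_one_div]
    exact mul_le_mul_of_nonneg_right (hB y hy) (by positivity)
  have hint1 : IntegrableOn (fun y => PotD_k (d ^ 4) (z - y) * (E y : ℂ)) (ball (0 : ℂ) r) :=
    PotD_contint (PotD_F'_cont hq hE z)
  have hind : IntegrableOn ((ball z d).indicator fun y => 1 / ‖z - y‖) (ball (0 : ℂ) r) :=
    hi1.indicator measurableSet_ball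
  have h3 : ‖∫ y in ball (0 : ℂ) r, (PotD_k (d ^ 4) (z - y) * (E y : ℂ) - (E y : ℂ) / (z - y))‖ ≤
      ∫ y in ball (0 : ℂ) r, B * ((ball z d).indicator (fun y => 1 / ‖z - y‖) y +
        d ^ 2 * (1 / ‖z - y‖)) := by
    refine norm_integral_le_of_norm_le ((hind.add (hi1.const_mul _)).const_mul B)
      ((ae_restrict_iff' measurableSet_ball).2 (Eventually.of_forall fun y hy => ?_))
    have h4 : PotD_k (d ^ 4) (z - y) * (E y : ℂ) - (E y : ℂ) / (z - y) =
        (E y : ℂ) * (PotD_k (d ^ 4) (z - y) - 1 / (z - y)) := by ring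
    rw [h4, norm_mul, Complex.norm_real, Real.norm_eq_abs]
    refine mul_le_mul (hB y hy) ?_ (norm_nonneg _) hB0
    refine (PotD_k_sub hd (z - y)).trans (le_of_eq ?_)
    congr 1
    rw [indicator_apply]
    have h5 : (y ∈ ball z d) ↔ ‖z - y‖ < d := by
      rw [mem_ball, dist_eq_norm, norm_sub_rev]
    simp only [h5]
  have h6 : ∫ y in ball (0 : ℂ) r, (ball z d).indicator (fun y => 1 / ‖z - y‖) y ≤
      6 * π * d := by
    rw [setIntegral_indicator measurableSet_ball]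
    refine le_trans (setIntegral_mono_set hj1 (Eventually.of_forall fun y => by positivity)
      (Eventually.of_forall fun y hy => hy.2)) hj2
  have h7 : ∫ y in ball (0 : ℂ) r, B * ((ball z d).indicator (fun y => 1 / ‖z - y‖) y +
        d ^ 2 * (1 / ‖z - y‖)) ≤ B * (6 * π * d + d ^ 2 * (6 * π * r)) := by
    rw [integral_const_mul, integral_add hind (hi1.const_mul _), integral_const_mul]
    refine mul_le_mul_of_nonneg_left ?_ hB0
    have h8 := mul_le_mul_of_nonneg_left hi2 (pow_pos hd 2).le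
    linarith
  have h9 : PotD_d (d ^ 4) r E z - dpot r E z = -(1 / (4 * π)) *
      ∫ y in ball (0 : ℂ) r, (PotD_k (d ^ 4) (z - y) * (E y : ℂ) - (E y : ℂ) / (z - y)) := by
    rw [integral_sub hint1 hint2, PotD_d, dpot]
    ring
  rw [h9, norm_mul]
  have h10 : ‖-(1 / (4 * (π : ℂ)))‖ = 1 / (4 * π) := by
    rw [norm_neg, norm_div, norm_mul, Complex.norm_real, Real.norm_eq_abs,
      abs_of_pos Real.pi_pos]
    simp
  rw [h10]
  exact mul_le_mul_of_nonneg_left (h3.trans h7) (by positivity)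

/-- pointwise convergence of the regularised potentials -/
theorem PotD_lim (h2 : S_LogI) {r : ℝ} (hr : 0 < r) {E : ℂ → ℝ} (hE : Continuous E) (z : ℂ)
    (q : ℕ → ℝ) (hq : ∀ n, 0 < q n) (hq1 : ∀ n, q n ≤ 1) (hq0 : Tendsto q atTop (𝓝 0)) :
    Tendsto (fun n => PotD_p (q n) r E z) atTop (𝓝 (pot r E z)) := by
  obtain ⟨B, hB0, hB⟩ := PotD_bound (r := r) hE
  obtain ⟨hl, -⟩ := h2 0 z r hr
  have hpot : pot r E z = -(1 / (4 * π)) *
      ∫ y in ball (0 : ℂ) r, Real.log (‖z - y‖ ^ 2) * E y := by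
    have h3 : ∀ y, Real.log (‖z - y‖ ^ 2) * E y = 2 * (Real.log ‖z - y‖ * E y) := fun y => by
      rw [Real.log_pow]
      push_cast
      ring
    simp only [h3]
    rw [integral_const_mul, pot]
    ring
  rw [hpot]
  refine Tendsto.const_mul _ ?_
  refine tendsto_integral_of_dominated_convergence
    (fun y => (2 * |Real.log ‖z - y‖| + Real.log (‖z - y‖ ^ 2 + 1)) * B)
    (fun n => (PotD_F_cont (hq n) hE z).aestronglyMeasurable) ?_ (fun n => ?_) ?_
  · exact ((hl.abs.const_mul 2).add (PotD_contint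
      (Continuous.log (by fun_prop) fun y => (PotD_pos one_pos (z - y)).ne'))).mul_const B
  · have hne : ∀ᵐ y ∂(volume.restrict (ball (0 : ℂ) r)), y ≠ z := by
      refine ae_restrict_of_ae ?_
      exact Measure.ae_ne volume z
    filter_upwards [hne, ae_restrict_mem measurableSet_ball] with y hy hyr
    rw [norm_mul, Real.norm_eq_abs, Real.norm_eq_abs]
    refine mul_le_mul ?_ (hB y hyr) (abs_nonneg _) ?_
    · have hx : 0 < ‖z - y‖ := norm_pos_iff.2 (sub_ne_zero.2 (Ne.symm hy))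
      have ha : Real.log (‖z - y‖ ^ 2) = 2 * Real.log ‖z - y‖ := by
        rw [Real.log_pow]
        norm_num
      have hb : Real.log (‖z - y‖ ^ 2) ≤ Real.log (‖z - y‖ ^ 2 + q n) :=
        Real.log_le_log (by positivity) (by linarith [hq n])
      have hc : Real.log (‖z - y‖ ^ 2 + q n) ≤ Real.log (‖z - y‖ ^ 2 + 1) :=
        Real.log_le_log (PotD_pos (hq n) _) (by linarith [hq1 n])
      have hd' : 0 ≤ Real.log (‖z - y‖ ^ 2 + 1) := Real.log_nonneg (by nlinarith [sq_nonneg ‖z - y‖])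
      have he := neg_abs_le (Real.log ‖z - y‖)
      rw [abs_le]
      constructor
      · linarith
      · have := abs_nonneg (Real.log ‖z - y‖)
        linarith
    · have := abs_nonneg (Real.log ‖z - y‖)
      have hd' : 0 ≤ Real.log (‖z - y‖ ^ 2 + 1) := Real.log_nonneg (by nlinarith [sq_nonneg ‖z - y‖])
      linarith
  · have hne : ∀ᵐ y ∂(volume.restrict (ball (0 : ℂ) r)), y ≠ z := by
      refine ae_restrict_of_ae ?_
      exact Measure.ae_ne volume z
    filter_upwards [hne] with y hy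
    have hx : 0 < ‖z - y‖ := norm_pos_iff.2 (sub_ne_zero.2 (Ne.symm hy))
    refine Tendsto.mul_const _ ?_
    have h5 : Tendsto (fun n => ‖z - y‖ ^ 2 + q n) atTop (𝓝 (‖z - y‖ ^ 2)) := by
      simpa using hq0.const_add (‖z - y‖ ^ 2)
    exact ((Real.continuousAt_log (by positivity)).tendsto).comp h5

theorem pr_PotD (h1 : S_Riesz) (h2 : S_LogI) : S_PotD := by
  intro r E hr hE
  obtain ⟨B, hB0, hB⟩ := PotD_bound (r := r) hE
  set d : ℕ → ℝ := fun n => 1 / ((n : ℝ) + 1) with hd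
  have hd0 : ∀ n, 0 < d n := fun n => by
    rw [hd]
    positivity
  have hd1 : ∀ n, d n ≤ 1 := fun n => by
    rw [hd]
    simp only
    rw [div_le_one (by positivity)]
    linarith [(Nat.cast_nonneg n : (0 : ℝ) ≤ n)]
  have hdl : Tendsto d atTop (𝓝 0) := tendsto_one_div_add_atTop_nhds_zero_nat
  have hlim : Tendsto (fun n => 1 / (4 * π) * (B * (6 * π * d n + d n ^ 2 * (6 * π * r)))) atTop
      (𝓝 0) := by
    have h3 : Tendsto (fun n => 1 / (4 * π) * (B * (6 * π * d n + d n ^ 2 * (6 * π * r)))) atTop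
      (𝓝 (1 / (4 * π) * (B * (6 * π * 0 + 0 ^ 2 * (6 * π * r))))) :=
      (((hdl.const_mul _).add ((hdl.pow 2).mul_const _)).const_mul _).const_mul _
    simpa using h3
  have hU : TendstoUniformly (fun n z => PotD_d (d n ^ 4) r E z) (dpot r E) atTop := by
    rw [Metric.tendstoUniformly_iff]
    intro ε hε
    filter_upwards [hlim.eventually (gt_mem_nhds hε)] with n hn z
    rw [dist_comm, dist_eq_norm]
    exact (PotD_diff h1 hr (hd0 n) hE hB0 hB z).trans_lt hn
  have hUT : TendstoUniformly (fun n z => PotD_T (PotD_d (d n ^ 4) r E z))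
      (fun z => PotD_T (dpot r E z)) atTop :=
    PotD_T.uniformContinuous.comp_tendstoUniformly hU
  refine ⟨fun z => ?_, ?_⟩
  · have h3 := hasFDerivAt_of_tendstoUniformly hUT
      (fun n x => PotD_reg (r := r) (pow_pos (hd0 n) 4) hE x)
      (fun x => PotD_lim h2 hr hE x (fun n => d n ^ 4) (fun n => pow_pos (hd0 n) 4)
        (fun n => pow_le_one₀ (hd0 n).le (hd1 n)) (by simpa using hdl.pow 4)) z
    exact h3
  · exact hU.continuous (Frequently.of_forall fun n => PotD_d_cont (pow_pos (hd0 n) 4) hE)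

end Pool.Agent.Vx

end

section

/-!
# MP_afe918_an: lower quantisation by pigeonhole over scales (item Quant)
-/

set_option autoImplicit false

open Complex Set Filter Topology MeasureTheory Metric
open scoped Real ContDiff ComplexConjugate

namespace Pool.Agent.Vx

theorem Quant_int {E : ℂ → ℝ} (hE : Continuous E) (s : ℝ) : IntegrableOn E (ball (0 : ℂ) s) :=
  (hE.continuousOn.integrableOn_compact (isCompact_closedBall (0 : ℂ) s)).mono_set
    ball_subset_closedBall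

theorem Quant_ms_mono {E : ℂ → ℝ} (hE : Continuous E) (h0 : ∀ z, 0 ≤ E z) {s t : ℝ}
    (hst : s ≤ t) : ms s E ≤ ms t E := by
  unfold ms
  apply setIntegral_mono_set (Quant_int hE t)
  · exact Filter.Eventually.of_forall h0
  · exact (ball_subset_ball hst).eventuallyLE

theorem Quant_ms_nonneg {E : ℂ → ℝ} (h0 : ∀ z, 0 ≤ E z) (s : ℝ) : 0 ≤ ms s E := by
  unfold ms
  exact setIntegral_nonneg measurableSet_ball (fun z _ => h0 z)

/-- the pointwise telescoping bound -/
theorem Quant_sum (c x : ℝ) (hc : 0 ≤ c) (hx : 0 ≤ x) (L : ℕ) :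
    ∑ i ∈ Finset.range L, (if c / 4 ^ i ≤ x then c / 4 ^ i else 0) ≤
      4 / 3 * (min x c - min x (c / 4 ^ L)) := by
  induction L with
  | zero => simp
  | succ L ih =>
    rw [Finset.sum_range_succ]
    have hpos : (0 : ℝ) ≤ c / 4 ^ L := by positivity
    have hstep : c / 4 ^ (L + 1) = c / 4 ^ L / 4 := by
      rw [pow_succ]
      field_simp
    rw [hstep]
    set y := c / 4 ^ L with hy
    have key : (if y ≤ x then y else 0) ≤ 4 / 3 * (min x y - min x (y / 4)) := by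
      split_ifs with h
      · rw [min_eq_right h, min_eq_right (by linarith)]
        linarith
      · have : min x (y / 4) ≤ min x y := min_le_min_left _ (by linarith)
        linarith
    linarith

theorem Quant_intann {E : ℂ → ℝ} (hE : Continuous E) {r c d : ℝ} (hc : 0 < c) :
    IntegrableOn (fun z : ℂ => d / ‖z‖ * E z) (ball (0 : ℂ) r \ ball 0 c) := by
  have hK : IsCompact (closedBall (0 : ℂ) r \ ball 0 c) :=
    (isCompact_closedBall (0 : ℂ) r).diff isOpen_ball
  have hcont : ContinuousOn (fun z : ℂ => d / ‖z‖ * E z) (closedBall (0 : ℂ) r \ ball 0 c) := by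
    apply ContinuousOn.mul _ hE.continuousOn
    apply ContinuousOn.div continuousOn_const continuous_norm.continuousOn
    intro z hz
    have h1 : c ≤ ‖z‖ := by
      have := hz.2
      rw [mem_ball_zero_iff, not_lt] at this
      exact this
    exact (lt_of_lt_of_le hc h1).ne'
  exact (hcont.integrableOn_compact hK).mono_set (sdiff_subset_sdiff_left ball_subset_closedBall)

/-- the sum of the errors over the scales -/
theorem Quant_total {E : ℂ → ℝ} (hE : Continuous E) (h0 : ∀ z, 0 ≤ E z) {r c : ℝ} (hc : 0 < c)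
    (hcr : c ≤ r) (L : ℕ) :
    ∑ i ∈ Finset.range L, ((ms (c / 4 ^ i) E - ms (c / 4 ^ (i + 1)) E) +
      ∫ z in ball (0 : ℂ) r \ ball 0 (c / 4 ^ i), (c / 4 ^ (i + 1)) / ‖z‖ * E z) ≤
      2 * ms r E := by
  rw [Finset.sum_add_distrib]
  have h1 : ∑ i ∈ Finset.range L, (ms (c / 4 ^ i) E - ms (c / 4 ^ (i + 1)) E) ≤ ms r E := by
    rw [Finset.sum_range_sub' (fun i => ms (c / 4 ^ i) E)]
    have h2 : ms (c / 4 ^ 0) E ≤ ms r E := by
      apply Quant_ms_mono hE h0
      simpa using hcr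
    have h3 := Quant_ms_nonneg h0 (c / 4 ^ L)
    linarith
  have h2 : ∑ i ∈ Finset.range L,
      (∫ z in ball (0 : ℂ) r \ ball 0 (c / 4 ^ i), (c / 4 ^ (i + 1)) / ‖z‖ * E z) ≤ ms r E := by
    have hcp : ∀ i : ℕ, 0 < c / 4 ^ i := fun i => by positivity
    have e1 : ∀ i : ℕ,
        (∫ z in ball (0 : ℂ) r \ ball 0 (c / 4 ^ i), (c / 4 ^ (i + 1)) / ‖z‖ * E z) =
        ∫ z in ball (0 : ℂ) r, ((ball (0 : ℂ) (c / 4 ^ i))ᶜ).indicator
          (fun z => (c / 4 ^ (i + 1)) / ‖z‖ * E z) z := by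
      intro i
      rw [setIntegral_indicator measurableSet_ball.compl, Set.sdiff_eq]
    have e2 : ∀ i : ℕ, IntegrableOn (((ball (0 : ℂ) (c / 4 ^ i))ᶜ).indicator
          (fun z => (c / 4 ^ (i + 1)) / ‖z‖ * E z)) (ball (0 : ℂ) r) := by
      intro i
      rw [integrableOn_indicator_iff measurableSet_ball.compl, inter_comm, ← Set.sdiff_eq]
      exact Quant_intann hE (hcp i)
    rw [Finset.sum_congr rfl (fun i _ => e1 i), ← integral_finsetSum _ (fun i _ => e2 i)]
    unfold ms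
    apply setIntegral_mono_on _ (Quant_int hE r) measurableSet_ball
    · intro z _
      have e3 : ∑ i ∈ Finset.range L, ((ball (0 : ℂ) (c / 4 ^ i))ᶜ).indicator
          (fun z => (c / 4 ^ (i + 1)) / ‖z‖ * E z) z =
          (∑ i ∈ Finset.range L, (if c / 4 ^ i ≤ ‖z‖ then c / 4 ^ i else 0)) *
            (1 / 4 / ‖z‖ * E z) := by
        rw [Finset.sum_mul]
        apply Finset.sum_congr rfl
        intro i _
        by_cases h : c / 4 ^ i ≤ ‖z‖
        · rw [if_pos h, Set.indicator_of_mem]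
          · rw [pow_succ]
            field_simp
          · rw [mem_compl_iff, mem_ball_zero_iff, not_lt]
            exact h
        · rw [if_neg h, Set.indicator_of_notMem, zero_mul]
          rw [mem_compl_iff, mem_ball_zero_iff, not_lt]
          exact h
      rw [e3]
      rcases (norm_nonneg z).eq_or_lt with hz | hz
      · rw [← hz]
        simp only [div_zero, zero_mul, mul_zero]
        exact h0 z
      · have h4 := Quant_sum c ‖z‖ hc.le hz.le L
        have h5 : min ‖z‖ c ≤ ‖z‖ := min_le_left _ _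
        have h6 : 0 ≤ min ‖z‖ (c / 4 ^ L) := le_min hz.le (hcp L).le
        have h7 : ∑ i ∈ Finset.range L, (if c / 4 ^ i ≤ ‖z‖ then c / 4 ^ i else 0) ≤
            4 * ‖z‖ := by linarith
        have h8 : 0 ≤ 1 / 4 / ‖z‖ * E z := mul_nonneg (by positivity) (h0 z)
        calc (∑ i ∈ Finset.range L, (if c / 4 ^ i ≤ ‖z‖ then c / 4 ^ i else 0)) *
            (1 / 4 / ‖z‖ * E z) ≤ 4 * ‖z‖ * (1 / 4 / ‖z‖ * E z) :=
              mul_le_mul_of_nonneg_right h7 h8
          _ = E z := by field_simp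
    · exact integrable_finsetSum _ (fun i _ => e2 i)
  linarith

theorem pr_Quant (h1 : S_Poh) : S_Quant := by
  obtain ⟨K, hK, hP⟩ := h1
  intro r H Λ M0 n lam h E hloc hlam hder hmass hconc s hs ε hε
  have hr : 0 < r := (hloc 0).rpos
  have hH : 0 ≤ H := by
    refine le_trans (norm_nonneg _) (hder 0 0 ?_)
    rw [mem_ball_zero_iff, norm_zero]
    positivity
  have hΛ : 0 ≤ Λ := (hloc 0).lam0.trans (hlam 0)
  have hM0 : 0 ≤ M0 := (Quant_ms_nonneg (hloc 0).nonneg r).trans (hmass 0)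
  have hn : (0 : ℝ) ≤ n := Nat.cast_nonneg n
  set K' := K * (1 + n + M0) ^ 2 with hK'
  have hK'p : 0 < K' := by
    rw [hK']
    positivity
  have hpi := Real.pi_pos
  set τ := ε / (8 * π * K') with hτ
  have hτp : 0 < τ := by rw [hτ]; positivity
  -- the number of scales
  obtain ⟨L, hL⟩ := exists_nat_gt (6 * M0 / τ)
  have hLp : (0 : ℝ) < L := lt_of_le_of_lt (by positivity) hL
  have hLτ : 2 * M0 / L ≤ τ / 3 := by
    rw [div_lt_iff₀ hτp] at hL
    rw [div_le_iff₀ hLp]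
    linarith
  -- the largest scale
  set δ0 := min (min s (r / 4)) (min 1 (min (τ / (3 * (H + 1))) (τ / (3 * (Λ + 1))))) with hδ0
  have hδs : δ0 ≤ s := (min_le_left _ _).trans (min_le_left _ _)
  have hδr : δ0 ≤ r / 4 := (min_le_left _ _).trans (min_le_right _ _)
  have hδ1 : δ0 ≤ 1 := (min_le_right _ _).trans (min_le_left _ _)
  have hδH : δ0 ≤ τ / (3 * (H + 1)) :=
    (min_le_right _ _).trans ((min_le_right _ _).trans (min_le_left _ _))
  have hδΛ : δ0 ≤ τ / (3 * (Λ + 1)) :=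
    (min_le_right _ _).trans ((min_le_right _ _).trans (min_le_right _ _))
  have hδp : 0 < δ0 := by
    rw [hδ0]
    apply lt_min
    · exact lt_min hs (by linarith)
    · exact lt_min one_pos (lt_min (by positivity) (by positivity))
  have hHδ : H * δ0 ≤ τ / 3 := by
    calc H * δ0 ≤ (H + 1) * (τ / (3 * (H + 1))) := by
          apply mul_le_mul (by linarith) hδH hδp.le (by linarith)
      _ = τ / 3 := by field_simp
  have hΛδ : Λ * δ0 ^ 2 ≤ τ / 3 := by
    have h2 : δ0 ^ 2 ≤ δ0 := by nlinarith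
    calc Λ * δ0 ^ 2 ≤ (Λ + 1) * (τ / (3 * (Λ + 1))) := by
          apply mul_le_mul (by linarith) (h2.trans hδΛ) (by positivity) (by linarith)
      _ = τ / 3 := by field_simp
  have hev := hconc (4 * δ0 / 4 ^ L) (by positivity)
  filter_upwards [hev] with j hj
  have hl := hloc j
  have htot := Quant_total hl.cont hl.nonneg (r := r) (c := 4 * δ0) (by positivity)
    (by linarith) L
  have hLne : (Finset.range L).Nonempty := by
    rw [Finset.nonempty_range_iff]
    rintro rfl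
    simp at hLp
  -- pigeonhole
  obtain ⟨i, hi, hile⟩ : ∃ i ∈ Finset.range L, ((ms (4 * δ0 / 4 ^ i) (E j) -
      ms (4 * δ0 / 4 ^ (i + 1)) (E j)) +
      ∫ z in ball (0 : ℂ) r \ ball 0 (4 * δ0 / 4 ^ i),
        (4 * δ0 / 4 ^ (i + 1)) / ‖z‖ * E j z) ≤ 2 * M0 / L := by
    apply Finset.exists_le_of_sum_le hLne
    rw [Finset.sum_const, Finset.card_range, nsmul_eq_mul]
    have : (L : ℝ) * (2 * M0 / L) = 2 * M0 := by field_simp
    rw [this]
    linarith [hmass j]
  set δ := 4 * δ0 / 4 ^ (i + 1) with hδ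
  have h4δ : 4 * δ0 / 4 ^ i = 4 * δ := by
    rw [hδ, pow_succ]
    field_simp
  have hpow : (1 : ℝ) ≤ 4 ^ i := one_le_pow₀ (by norm_num)
  have hδle : δ ≤ δ0 := by
    have h2 : δ = δ0 / 4 ^ i := by
      rw [hδ, pow_succ]
      field_simp
    rw [h2]
    exact div_le_self hδp.le hpow
  have hδpos : 0 < δ := by rw [hδ]; positivity
  rw [h4δ] at hile
  have hPj := hP r δ (lam j) H M0 n (h j) (E j) hl hδpos (by linarith) hH (hmass j) (by
    intro z hz
    apply hder j z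
    exact ball_subset_ball (by linarith) hz)
  rw [← hK'] at hPj
  -- the mass at scale δ is at least one
  have hx1 : 1 ≤ ms δ (E j) := by
    refine hj.trans (Quant_ms_mono hl.cont hl.nonneg ?_)
    rw [hδ]
    have hiL : i + 1 ≤ L := Finset.mem_range.mp hi
    apply div_le_div_of_nonneg_left (by positivity) (by positivity)
    exact pow_le_pow_right₀ (by norm_num) hiL
  set x := ms δ (E j) with hx
  have herr : |(1 + n) * x - x ^ 2 / (8 * π)| ≤ K' * τ := by
    refine hPj.trans (mul_le_mul_of_nonneg_left ?_ hK'p.le)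
    have h2 : H * δ ≤ H * δ0 := mul_le_mul_of_nonneg_left hδle hH
    have h3 : lam j * δ ^ 2 ≤ Λ * δ0 ^ 2 := by
      apply mul_le_mul (hlam j) _ (by positivity) hΛ
      exact pow_le_pow_left₀ hδpos.le hδle 2
    linarith
  have hKτ : K' * τ = ε / (8 * π) := by
    rw [hτ]
    field_simp
  rw [hKτ] at herr
  have h5 := (abs_le.mp herr).2
  have h6 : x * ((1 + n) - x / (8 * π)) ≤ ε / (8 * π) := by
    calc x * ((1 + n) - x / (8 * π)) = (1 + n) * x - x ^ 2 / (8 * π) := by ring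
      _ ≤ _ := h5
  have h7 : (1 + n) - x / (8 * π) ≤ ε / (8 * π) := by
    by_contra h8
    push Not at h8
    have h9 : 0 < ε / (8 * π) := by positivity
    nlinarith
  have h8 : 8 * π * ((1 + n) - x / (8 * π)) ≤ 8 * π * (ε / (8 * π)) :=
    mul_le_mul_of_nonneg_left h7 (by positivity)
  have h9 : 8 * π * ((1 + n) - x / (8 * π)) = 8 * π * (1 + n) - x := by field_simp
  have h10 : 8 * π * (ε / (8 * π)) = ε := by field_simp
  have h11 : x ≤ ms s (E j) := Quant_ms_mono hl.cont hl.nonneg (by linarith)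
  rw [h9, h10] at h8
  linarith

end Pool.Agent.Vx

end

section

/-!
# MP_afe918_an, item QuantE: quantisation when the mass concentrates (helper10)
-/

set_option autoImplicit false

open Complex Set Filter Topology MeasureTheory Metric
open scoped Real ContDiff ComplexConjugate

namespace Pool.Agent.Vx

theorem QuantE_int {E : ℂ → ℝ} (hE : Continuous E) (s : ℝ) : IntegrableOn E (ball 0 s) :=
  (hE.continuousOn.integrableOn_compact (isCompact_closedBall 0 s)).mono_set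
    ball_subset_closedBall

theorem QuantE_mono {E : ℂ → ℝ} (hE : Continuous E) (h0 : ∀ z, 0 ≤ E z) {s t : ℝ} (h : s ≤ t) :
    ms s E ≤ ms t E :=
  setIntegral_mono_set (QuantE_int hE t) (Eventually.of_forall h0)
    (ball_subset_ball h).eventuallyLE

theorem QuantE_tail {E : ℂ → ℝ} (hE : Continuous E) (h0 : ∀ z, 0 ≤ E z) {r δ : ℝ} (hδ : 0 < δ)
    (h : 4 * δ ≤ r) :
    ∫ z in ball (0 : ℂ) r \ ball 0 (4 * δ), δ / ‖z‖ * E z ≤ 1 / 4 * (ms r E - ms (4 * δ) E) := by
  have h1 : ∫ z in ball (0 : ℂ) r \ ball 0 (4 * δ), E z = ms r E - ms (4 * δ) E :=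
    setIntegral_sdiff measurableSet_ball (QuantE_int hE r) (ball_subset_ball h)
  rw [← h1, ← integral_const_mul]
  refine integral_mono_of_nonneg (Eventually.of_forall fun z => ?_) ?_ ?_
  · have := h0 z
    positivity
  · exact ((QuantE_int hE r).mono_set sdiff_subset).const_mul _
  · filter_upwards [ae_restrict_mem (measurableSet_ball.diff measurableSet_ball)] with z hz
    refine mul_le_mul_of_nonneg_right ?_ (h0 z)
    have h2 : 4 * δ ≤ ‖z‖ := by
      have := hz.2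
      rw [mem_ball_zero_iff, not_lt] at this
      exact this
    rw [div_le_div_iff₀ (by linarith) (by norm_num)]
    linarith

theorem pr_QuantE (h1 : S_Poh) (_h2 : S_Quant) : S_QuantE := by
  obtain ⟨K, hK, hPoh⟩ := h1
  intro r H Λ M0 n lam h E hloc hlam hH hM hone hconc
  have hr : 0 < r := (hloc 0).rpos
  set K' : ℝ := K * (1 + n + M0) ^ 2 with hK'
  have hK'0 : 0 ≤ K' := by positivity
  rw [Metric.tendsto_atTop]
  intro ε hε
  -- choice of delta
  obtain ⟨δ, hδ0, hδr, hδ⟩ : ∃ δ : ℝ, 0 < δ ∧ 4 * δ ≤ r ∧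
      8 * π * K' * (|H| * δ + |Λ| * δ ^ 2) ≤ ε / 2 := by
    have hc : Continuous fun δ : ℝ => 8 * π * K' * (|H| * δ + |Λ| * δ ^ 2) := by fun_prop
    have h3 := hc.tendsto 0
    simp only [mul_zero, ne_eq, OfNat.ofNat_ne_zero, not_false_eq_true, zero_pow, add_zero] at h3
    have h4 := h3.eventually (gt_mem_nhds (show (0 : ℝ) < ε / 2 by positivity))
    have h5 : ∀ᶠ δ in 𝓝[>] (0 : ℝ), 8 * π * K' * (|H| * δ + |Λ| * δ ^ 2) < ε / 2 :=
      h4.filter_mono nhdsWithin_le_nhds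
    have h6 : ∀ᶠ δ in 𝓝[>] (0 : ℝ), δ ∈ Ioc 0 (r / 4) := Ioc_mem_nhdsGT (by positivity)
    obtain ⟨δ, hδ1, hδ2⟩ := (h5.and h6).exists
    exact ⟨δ, hδ2.1, by linarith [hδ2.2], hδ1.le⟩
  have hδr' : δ < r := by linarith
  have hD := hconc δ hδ0 hδr'
  have hD2 : Tendsto (fun j => (1 + 16 * π * K') * (ms r (E j) - ms δ (E j))) atTop (𝓝 0) := by
    simpa using hD.const_mul (1 + 16 * π * K')
  have hev := hD2.eventually (gt_mem_nhds (show (0 : ℝ) < ε / 2 by positivity))
  obtain ⟨N, hN⟩ := eventually_atTop.1 (hev.and (hone δ hδ0))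
  refine ⟨N, fun j hj => ?_⟩
  obtain ⟨hj1, hj2⟩ := hN j hj
  have hE := (hloc j).cont
  have h0 := (hloc j).nonneg
  set x : ℝ := ms δ (E j) with hx
  set D : ℝ := ms r (E j) - x with hDdef
  have hP := hPoh r δ (lam j) |H| M0 n (h j) (E j) (hloc j) hδ0 hδr (abs_nonneg _) (hM j)
    (fun z hz => (hH j z (ball_subset_ball (by linarith) hz)).trans (le_abs_self _))
  have hmono1 : ms (4 * δ) (E j) ≤ ms r (E j) := QuantE_mono hE h0 hδr
  have hmono2 : x ≤ ms (4 * δ) (E j) := QuantE_mono hE h0 (by linarith)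
  have htail := QuantE_tail hE h0 hδ0 hδr
  have hD0 : 0 ≤ D := by rw [hDdef]; linarith
  have hlamΛ : lam j * δ ^ 2 ≤ |Λ| * δ ^ 2 :=
    mul_le_mul_of_nonneg_right ((hlam j).trans (le_abs_self _)) (by positivity)
  have hsum : (ms (4 * δ) (E j) - x) + |H| * δ + lam j * δ ^ 2 +
      ∫ z in ball (0 : ℂ) r \ ball 0 (4 * δ), δ / ‖z‖ * E j z ≤
      2 * D + (|H| * δ + |Λ| * δ ^ 2) := by
    rw [hDdef]
    linarith
  have hP2 : |(1 + n) * x - x ^ 2 / (8 * π)| ≤ K' * (2 * D + (|H| * δ + |Λ| * δ ^ 2)) :=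
    hP.trans (mul_le_mul_of_nonneg_left hsum hK'0)
  set Y : ℝ := K' * (2 * D + (|H| * δ + |Λ| * δ ^ 2)) with hY
  have hY0 : 0 ≤ Y := by positivity
  have hfac : (1 + n) * x - x ^ 2 / (8 * π) = x * ((1 + n) - x / (8 * π)) := by ring
  rw [hfac, abs_mul, abs_of_nonneg (by linarith : (0 : ℝ) ≤ x)] at hP2
  have hP3 : |(1 + n) - x / (8 * π)| ≤ Y := by
    refine le_trans ?_ hP2
    exact le_mul_of_one_le_left (abs_nonneg _) hj2
  have hP4 : |8 * π * (1 + n) - x| ≤ 8 * π * Y := by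
    have h7 : 8 * π * (1 + n) - x = 8 * π * ((1 + n) - x / (8 * π)) := by
      field_simp
    rw [h7, abs_mul, abs_of_nonneg (by positivity : (0 : ℝ) ≤ 8 * π)]
    exact mul_le_mul_of_nonneg_left hP3 (by positivity)
  rw [Real.dist_eq]
  have h8 : ms r (E j) - 8 * π * (1 + n) = D - (8 * π * (1 + n) - x) := by rw [hDdef]; ring
  rw [h8]
  have h9 : |D - (8 * π * (1 + n) - x)| ≤ D + 8 * π * Y := by
    refine (abs_sub _ _).trans ?_
    rw [abs_of_nonneg hD0]
    linarith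
  have h10 : 8 * π * Y = 16 * π * K' * D + 8 * π * K' * (|H| * δ + |Λ| * δ ^ 2) := by
    rw [hY]; ring
  have h11 : (1 + 16 * π * K') * D < ε / 2 := hj1
  linarith

end Pool.Agent.Vx

end

section

/-!
# MP_afe918_an, item RI2 (helper19): the identity for the vector field `1/z` at a simple vortex
-/

set_option autoImplicit false

open Complex Set Filter Topology MeasureTheory Metric
open scoped Real ContDiff ComplexConjugate

namespace Pool.Agent.Vx

/-- Products of a bounded measurable function with `1/z` are integrable. -/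
lemma RI2_int (h3 : S_Riesz) {r : ℝ} (hr : 0 < r) {S : Set ℂ} (hS : S ⊆ ball 0 r)
    (hm : MeasurableSet S) {b : ℂ → ℂ} (hb : Measurable b) {C : ℝ} (hC : ∀ z ∈ S, ‖b z‖ ≤ C) :
    IntegrableOn (fun z => b z * (1 / z)) S := by
  have h0 : IntegrableOn (fun z : ℂ => 1 / z) (ball 0 r) := by
    refine Integrable.mono' (h3 0 0 r hr).1 (by fun_prop) ?_
    filter_upwards with z
    simp
  refine Integrable.bdd_mul (c := C) (h0.mono_set hS) hb.aestronglyMeasurable ?_
  exact (ae_restrict_mem hm).mono fun z hz => hC z hz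

/-- Splitting an integral over a ball. -/
lemma RI2_split {F : ℂ → ℂ} {r s : ℝ} (hsr : s ≤ r) (hF : IntegrableOn F (ball 0 r)) :
    ∫ z in ball (0 : ℂ) r, F z =
      (∫ z in ball (0 : ℂ) s, F z) + ∫ z in ball (0 : ℂ) r \ ball 0 s, F z := by
  rw [setIntegral_sdiff measurableSet_ball hF (ball_subset_ball hsr)]
  ring

/-- The second half of the estimate: the double integral. -/
lemma RI2_dbl (h3 : S_Riesz) {r s K M0 η : ℝ} (hs : 0 < s) (hsr : s < r) (hK : 0 < K)
    (hM : 0 ≤ M0) (hη : 0 ≤ η)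
    {E : ℂ → ℝ} (hEc : Continuous E) (hE0 : ∀ z, 0 ≤ E z) (hEM : ms r E ≤ M0)
    (hEη : ∀ z ∈ ball (0 : ℂ) r, s ≤ ‖z‖ → E z ≤ η) {ψ : ℂ → ℂ} (hψm : Measurable ψ)
    (hψb : ∀ z, ‖ψ z‖ ≤ 1) (hψb' : ∀ z, ‖1 - ψ z‖ ≤ 1) (hψ1 : ∀ z, ‖z‖ ≤ s → ψ z = 1)
    (hψL : ∀ z y, ‖ψ z - ψ y‖ ≤ K / s * ‖z - y‖) :
    ‖(∫ z in ball (0 : ℂ) r, ∫ y in ball (0 : ℂ) r,
      (ψ z / z - ψ y / y) / (z - y) * (E z : ℂ) * (E y : ℂ)) +
      mo s E (fun z => 1 / z) ^ 2‖ ≤ volume.real (ball (0 : ℂ) r) * η *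
        (3 / s * ‖mo s E (fun z => 1 / z)‖ + 2 * M0 * K / s ^ 2 + M0 / s ^ 2) := by
  have hr : 0 < r := hs.trans hsr
  set V := volume.real (ball (0 : ℂ) r) with hV
  have hV0 : 0 ≤ V := measureReal_nonneg
  set R : Set ℂ := ball (0 : ℂ) r \ ball 0 s with hR
  have hRr : R ⊆ ball 0 r := sdiff_subset
  have hRm : MeasurableSet R := measurableSet_ball.diff measurableSet_ball
  have hVR : volume.real R ≤ V := measureReal_mono hRr (measure_ball_lt_top).ne
  have hRfin : volume R < ⊤ := (measure_mono hRr).trans_lt measure_ball_lt_top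
  have hRs : ∀ z ∈ R, s ≤ ‖z‖ := fun z hz => by simpa using hz.2
  have hRE : ∀ z ∈ R, E z ≤ η := fun z hz => hEη z hz.1 (hRs z hz)
  obtain ⟨B, hB⟩ := (isCompact_closedBall (0 : ℂ) r).exists_bound_of_continuousOn
    hEc.continuousOn
  have hBr : ∀ z ∈ ball (0 : ℂ) r, |E z| ≤ B := fun z hz => hB z (ball_subset_closedBall hz)
  have hEcm : Measurable (fun z => (E z : ℂ)) := (Complex.continuous_ofReal.comp hEc).measurable
  have hEint : IntegrableOn E (ball 0 r) :=
    (hEc.continuousOn.integrableOn_compact (isCompact_closedBall 0 r)).mono_set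
      ball_subset_closedBall
  have hms0 : ∫ z in ball (0 : ℂ) r, E z ≤ M0 := hEM
  have hsub : ∀ S : Set ℂ, MeasurableSet S → S ⊆ ball 0 r → ∫ z in S, E z ≤ M0 := by
    intro S hS hSr
    refine le_trans ?_ hms0
    exact setIntegral_mono_set hEint (Eventually.of_forall hE0) hSr.eventuallyLE
  set f : ℂ → ℂ := fun z => 1 / z * (E z : ℂ) with hf
  have hfm : Measurable f := by fun_prop
  have hfint : IntegrableOn f (ball 0 r) := by
    have := RI2_int h3 hr (S := ball 0 r) subset_rfl measurableSet_ball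
      (b := fun z => (E z : ℂ)) hEcm (C := B) (fun z hz => by simpa using hBr z hz)
    refine this.congr_fun (fun z _ => ?_) measurableSet_ball
    simp only [hf]; ring
  have hm_eq : mo s E (fun z => 1 / z) = ∫ z in ball (0 : ℂ) s, f z := rfl
  set m := mo s E (fun z => 1 / z) with hm
  -- bounds for f
  have hfR : ∀ z ∈ R, ‖f z‖ ≤ η / s := by
    intro z hz
    have h1 := hRs z hz
    have h2 := hRE z hz
    simp only [hf, norm_mul, norm_div, norm_one, Complex.norm_real, Real.norm_eq_abs,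
      abs_of_nonneg (hE0 z)]
    calc 1 / ‖z‖ * E z ≤ 1 / s * η := by
          apply mul_le_mul (one_div_le_one_div_of_le hs h1) h2 (hE0 z) (by positivity)
      _ = η / s := by ring
  have hfR' : ∀ z ∈ R, ‖f z‖ ≤ E z / s := by
    intro z hz
    have h1 := hRs z hz
    simp only [hf, norm_mul, norm_div, norm_one, Complex.norm_real, Real.norm_eq_abs,
      abs_of_nonneg (hE0 z)]
    calc 1 / ‖z‖ * E z ≤ 1 / s * E z :=
          mul_le_mul_of_nonneg_right (one_div_le_one_div_of_le hs h1) (hE0 z)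
      _ = E z / s := by ring
  -- P
  set P := ∫ y in ball (0 : ℂ) r, ψ y * f y with hP
  have hψfint : IntegrableOn (fun y => ψ y * f y) (ball 0 r) :=
    Integrable.bdd_mul (c := 1) hfint hψm.aestronglyMeasurable (Eventually.of_forall hψb)
  have hPm : P = m + ∫ y in R, ψ y * f y := by
    rw [hP, RI2_split hsr.le hψfint, hm_eq]
    congr 1
    refine setIntegral_congr_fun measurableSet_ball (fun z hz => ?_)
    have : ‖z‖ ≤ s := by simpa using (mem_ball_zero_iff.1 hz).le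
    simp only [hψ1 z this, one_mul]
  have hPm1 : ‖P - m‖ ≤ η / s * V := by
    have : P - m = ∫ y in R, ψ y * f y := by rw [hPm]; ring
    rw [this]
    refine (norm_setIntegral_le_of_norm_le_const hRfin (C := η / s) (fun z hz => ?_)).trans
      (mul_le_mul_of_nonneg_left hVR (by positivity))
    rw [norm_mul]
    calc ‖ψ z‖ * ‖f z‖ ≤ 1 * (η / s) := mul_le_mul (hψb z) (hfR z hz) (norm_nonneg _) zero_le_one
      _ = η / s := one_mul _
  have hPm2 : ‖P - m‖ ≤ M0 / s := by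
    have : P - m = ∫ y in R, ψ y * f y := by rw [hPm]; ring
    rw [this]
    calc ‖∫ y in R, ψ y * f y‖ ≤ ∫ y in R, E y / s := by
          refine norm_integral_le_of_norm_le ((hEint.mono_set hRr).div_const s) ?_
          refine (ae_restrict_mem hRm).mono fun z hz => ?_
          rw [norm_mul]
          calc ‖ψ z‖ * ‖f z‖ ≤ 1 * (E z / s) :=
                mul_le_mul (hψb z) (hfR' z hz) (norm_nonneg _) zero_le_one
            _ = E z / s := one_mul _
      _ = (∫ y in R, E y) / s := integral_div _ _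
      _ ≤ M0 / s := div_le_div_of_nonneg_right (hsub R hRm hRr) hs.le
  -- G
  have hg : ∀ z y, ‖(ψ z - ψ y) / (z - y)‖ ≤ K / s := by
    intro z y
    rw [norm_div]
    rcases eq_or_ne z y with h | h
    · subst h; simp; positivity
    · rw [div_le_iff₀ (norm_pos_iff.2 (sub_ne_zero.2 h))]
      exact hψL z y
  set G : ℂ → ℂ := fun z => ∫ y in ball (0 : ℂ) r, (ψ z - ψ y) / (z - y) * (E y : ℂ) with hG
  have hGm : StronglyMeasurable G := by
    refine StronglyMeasurable.integral_prod_right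
      (f := fun z y => (ψ z - ψ y) / (z - y) * (E y : ℂ)) ?_
    refine Measurable.stronglyMeasurable ?_
    have h1 : Measurable (fun p : ℂ × ℂ => ψ p.1) := hψm.comp measurable_fst
    have h2 : Measurable (fun p : ℂ × ℂ => ψ p.2) := hψm.comp measurable_snd
    have h3 : Measurable (fun p : ℂ × ℂ => (E p.2 : ℂ)) := hEcm.comp measurable_snd
    exact ((h1.sub h2).div (measurable_fst.sub measurable_snd)).mul h3
  have hgm : ∀ z, Measurable (fun y => (ψ z - ψ y) / (z - y)) := by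
    intro z
    exact (measurable_const.sub hψm).div (measurable_const.sub measurable_id)
  have hEcint : IntegrableOn (fun y => (E y : ℂ)) (ball 0 r) := hEint.ofReal
  have hgint : ∀ z, IntegrableOn (fun y => (ψ z - ψ y) / (z - y) * (E y : ℂ)) (ball 0 r) := by
    intro z
    exact Integrable.bdd_mul (c := K / s) hEcint (hgm z).aestronglyMeasurable
      (Eventually.of_forall (hg z))
  have hGb : ∀ z, ‖G z‖ ≤ K / s * M0 := by
    intro z
    calc ‖G z‖ ≤ ∫ y in ball (0 : ℂ) r, K / s * E y := by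
          refine norm_integral_le_of_norm_le (hEint.const_mul _) (Eventually.of_forall fun y => ?_)
          rw [norm_mul, Complex.norm_real, Real.norm_eq_abs, abs_of_nonneg (hE0 y)]
          exact mul_le_mul_of_nonneg_right (hg z y) (hE0 y)
      _ = K / s * ∫ y in ball (0 : ℂ) r, E y := integral_const_mul _ _
      _ ≤ K / s * M0 := mul_le_mul_of_nonneg_left hms0 (by positivity)
  have hGs : ∀ z, ‖z‖ ≤ s → G z = ∫ y in R, (1 - ψ y) / (z - y) * (E y : ℂ) := by
    intro z hz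
    rw [hG]
    simp only
    rw [RI2_split hsr.le (hgint z)]
    have h0 : ∫ y in ball (0 : ℂ) s, (ψ z - ψ y) / (z - y) * (E y : ℂ) = 0 := by
      refine setIntegral_eq_zero_of_forall_eq_zero (fun y hy => ?_)
      have : ‖y‖ ≤ s := (mem_ball_zero_iff.1 hy).le
      simp [hψ1 z hz, hψ1 y this]
    rw [h0, zero_add, hψ1 z hz]
  have hG0 : ‖G 0‖ ≤ η / s * V := by
    rw [hGs 0 (by simpa using hs.le)]
    refine (norm_setIntegral_le_of_norm_le_const hRfin (C := η / s) (fun y hy => ?_)).trans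
      (mul_le_mul_of_nonneg_left hVR (by positivity))
    rw [norm_mul, norm_div, Complex.norm_real, Real.norm_eq_abs, abs_of_nonneg (hE0 y), zero_sub,
      norm_neg]
    calc ‖1 - ψ y‖ / ‖y‖ * E y ≤ 1 / s * η := by
          refine mul_le_mul ?_ (hRE y hy) (hE0 y) (by positivity)
          exact div_le_div₀ zero_le_one (hψb' y) hs (hRs y hy)
      _ = η / s := by ring
  have hGG : ∀ z ∈ ball (0 : ℂ) s, ‖G z - G 0‖ ≤ ‖z‖ * (K / s ^ 2 * η * V) := by
    intro z hz
    have hzs : ‖z‖ < s := mem_ball_zero_iff.1 hz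
    have hi : ∀ w, ‖w‖ ≤ s → IntegrableOn (fun y => (1 - ψ y) / (w - y) * (E y : ℂ)) R := by
      intro w hw
      have := (hgint w).mono_set hRr
      simpa only [hψ1 w hw] using this
    have e : G z - G 0 = ∫ y in R, z / y * ((1 - ψ y) / (z - y)) * (E y : ℂ) := by
      rw [hGs z hzs.le, hGs 0 (by simpa using hs.le),
        ← integral_sub (hi z hzs.le) (hi 0 (by simpa using hs.le))]
      refine setIntegral_congr_fun hRm (fun y hy => ?_)
      have hy1 := hRs y hy
      have hy0 : y ≠ 0 := by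
        intro h
        rw [h, norm_zero] at hy1
        linarith
      have hzy : z - y ≠ 0 := by
        intro h
        rw [sub_eq_zero.1 h] at hzs
        linarith
      simp only [zero_sub]
      field_simp
      ring
    rw [e]
    refine (norm_setIntegral_le_of_norm_le_const hRfin (C := ‖z‖ * (K / s ^ 2 * η))
      (fun y hy => ?_)).trans ?_
    · rw [norm_mul, norm_mul, Complex.norm_real, Real.norm_eq_abs, abs_of_nonneg (hE0 y)]
      have h1 : ‖z / y‖ ≤ ‖z‖ / s := by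
        rw [norm_div]
        exact div_le_div_of_nonneg_left (norm_nonneg _) hs (hRs y hy)
      have h2 : ‖(1 - ψ y) / (z - y)‖ ≤ K / s := by
        have := hg z y
        rwa [hψ1 z hzs.le] at this
      calc ‖z / y‖ * ‖(1 - ψ y) / (z - y)‖ * E y ≤ (‖z‖ / s) * (K / s) * η := by
            refine mul_le_mul (mul_le_mul h1 h2 (norm_nonneg _) (by positivity)) (hRE y hy)
              (hE0 y) (by positivity)
        _ = ‖z‖ * (K / s ^ 2 * η) := by ring
    · calc ‖z‖ * (K / s ^ 2 * η) * volume.real R ≤ ‖z‖ * (K / s ^ 2 * η) * V :=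
            mul_le_mul_of_nonneg_left hVR (by positivity)
        _ = ‖z‖ * (K / s ^ 2 * η * V) := by ring
  -- the inner integral
  have hin : ∀ z ∈ ball (0 : ℂ) r, z ≠ 0 → ∫ y in ball (0 : ℂ) r,
      (ψ z / z - ψ y / y) / (z - y) * (E z : ℂ) * (E y : ℂ) = f z * (G z - P) := by
    intro z hz hz0
    have e1 : f z * (G z - P) = ∫ y in ball (0 : ℂ) r,
        f z * ((ψ z - ψ y) / (z - y) * (E y : ℂ) - ψ y * f y) := by
      rw [integral_const_mul, integral_sub (hgint z) hψfint]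
    rw [e1]
    refine setIntegral_congr_ae measurableSet_ball ?_
    have hne : ∀ᵐ y : ℂ, y ≠ z ∧ y ≠ 0 := by
      have h1 : ∀ᵐ y : ℂ, y ≠ z := by
        simp [ae_iff]
      have h2 : ∀ᵐ y : ℂ, y ≠ 0 := by
        simp [ae_iff]
      filter_upwards [h1, h2] with y a b using ⟨a, b⟩
    filter_upwards [hne] with y hy _
    have hzy : z - y ≠ 0 := sub_ne_zero.2 (Ne.symm hy.1)
    have hy0 := hy.2
    simp only [hf]
    field_simp
    ring
  have houter : ∫ z in ball (0 : ℂ) r, ∫ y in ball (0 : ℂ) r,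
      (ψ z / z - ψ y / y) / (z - y) * (E z : ℂ) * (E y : ℂ) =
      ∫ z in ball (0 : ℂ) r, f z * (G z - P) := by
    refine setIntegral_congr_ae measurableSet_ball ?_
    have h2 : ∀ᵐ y : ℂ, y ≠ 0 := by
      simp [ae_iff]
    filter_upwards [h2] with z hz0 hz
    exact hin z hz hz0
  have hGPint : IntegrableOn (fun z => f z * (G z - P)) (ball 0 r) := by
    have := Integrable.bdd_mul (f := fun z => G z - P) (c := K / s * M0 + ‖P‖) hfint
      (hGm.aestronglyMeasurable.sub aestronglyMeasurable_const)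
      (Eventually.of_forall fun z => (norm_sub_le _ _).trans (add_le_add_left (hGb z) _))
    refine this.congr (Eventually.of_forall fun z => ?_)
    simp only; ring
  have hGGint : IntegrableOn (fun z => f z * (G z - G 0)) (ball 0 s) := by
    have := Integrable.bdd_mul (f := fun z => G z - G 0) (c := K / s * M0 + ‖G 0‖)
      (hfint.mono_set (ball_subset_ball hsr.le))
      (hGm.aestronglyMeasurable.sub aestronglyMeasurable_const)
      (Eventually.of_forall fun z => (norm_sub_le _ _).trans (add_le_add_left (hGb z) _))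
    refine this.congr (Eventually.of_forall fun z => ?_)
    simp only; ring
  have hsplit : ∫ z in ball (0 : ℂ) r, f z * (G z - P) =
      (∫ z in ball (0 : ℂ) s, f z * (G z - G 0)) + m * (G 0 - P) +
        ∫ z in R, f z * (G z - P) := by
    rw [RI2_split hsr.le hGPint]
    congr 1
    rw [hm_eq, ← integral_mul_const, ← integral_add hGGint
      ((hfint.mono_set (ball_subset_ball hsr.le)).mul_const _)]
    refine setIntegral_congr_fun measurableSet_ball (fun z _ => ?_)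
    ring
  have hb1 : ‖∫ z in ball (0 : ℂ) s, f z * (G z - G 0)‖ ≤ M0 * (K / s ^ 2 * η * V) := by
    calc ‖∫ z in ball (0 : ℂ) s, f z * (G z - G 0)‖ ≤
        ∫ z in ball (0 : ℂ) s, E z * (K / s ^ 2 * η * V) := by
          refine norm_integral_le_of_norm_le
            ((hEint.mono_set (ball_subset_ball hsr.le)).mul_const _) ?_
          refine (ae_restrict_mem measurableSet_ball).mono fun z hz => ?_
          rw [norm_mul]
          have h1 := hGG z hz
          rcases eq_or_ne z 0 with h0 | h0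
          · rw [h0]
            simp only [sub_self, norm_zero, mul_zero]
            have := hE0 0
            positivity
          · have hz0 : 0 < ‖z‖ := norm_pos_iff.2 h0
            calc ‖f z‖ * ‖G z - G 0‖ ≤ ‖f z‖ * (‖z‖ * (K / s ^ 2 * η * V)) :=
                  mul_le_mul_of_nonneg_left h1 (norm_nonneg _)
              _ = E z * (K / s ^ 2 * η * V) := by
                  simp only [hf, norm_mul, norm_div, norm_one, Complex.norm_real,
                    Real.norm_eq_abs, abs_of_nonneg (hE0 z)]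
                  field_simp
      _ = (∫ z in ball (0 : ℂ) s, E z) * (K / s ^ 2 * η * V) := integral_mul_const _ _
      _ ≤ M0 * (K / s ^ 2 * η * V) :=
          mul_le_mul_of_nonneg_right (hsub _ measurableSet_ball (ball_subset_ball hsr.le))
            (by positivity)
  have hPb : ‖P‖ ≤ ‖m‖ + M0 / s := by
    calc ‖P‖ = ‖m + (P - m)‖ := by ring_nf
      _ ≤ ‖m‖ + ‖P - m‖ := norm_add_le _ _
      _ ≤ ‖m‖ + M0 / s := by linarith
  have hb2 : ‖∫ z in R, f z * (G z - P)‖ ≤ η / s * (K / s * M0 + (‖m‖ + M0 / s)) * V := by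
    refine (norm_setIntegral_le_of_norm_le_const hRfin
      (C := η / s * (K / s * M0 + (‖m‖ + M0 / s))) (fun z hz => ?_)).trans
      (mul_le_mul_of_nonneg_left hVR (by positivity))
    rw [norm_mul]
    refine mul_le_mul (hfR z hz) ?_ (norm_nonneg _) (by positivity)
    exact (norm_sub_le _ _).trans (add_le_add (hGb z) hPb)
  have hb3 : ‖m * (G 0 - (P - m))‖ ≤ ‖m‖ * (η / s * V + η / s * V) := by
    rw [norm_mul]
    refine mul_le_mul_of_nonneg_left ?_ (norm_nonneg _)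
    exact (norm_sub_le _ _).trans (add_le_add hG0 hPm1)
  rw [houter, hsplit]
  have e : (∫ z in ball (0 : ℂ) s, f z * (G z - G 0)) + m * (G 0 - P) +
        (∫ z in R, f z * (G z - P)) + m ^ 2 =
      (∫ z in ball (0 : ℂ) s, f z * (G z - G 0)) + m * (G 0 - (P - m)) +
        ∫ z in R, f z * (G z - P) := by ring
  rw [e]
  calc _ ≤ ‖∫ z in ball (0 : ℂ) s, f z * (G z - G 0)‖ + ‖m * (G 0 - (P - m))‖ +
        ‖∫ z in R, f z * (G z - P)‖ := norm_add₃_le
    _ ≤ M0 * (K / s ^ 2 * η * V) + ‖m‖ * (η / s * V + η / s * V) +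
        η / s * (K / s * M0 + (‖m‖ + M0 / s)) * V := by linarith
    _ = V * η * (3 / s * ‖m‖ + 2 * M0 * K / s ^ 2 + M0 / s ^ 2) := by
        field_simp
        ring

/-- The first half of the estimate: the single integral. -/
lemma RI2_sgl (h3 : S_Riesz) {r s K H Λ lam η : ℝ} (hs : 0 < s) (hsr : s < r) (hK : 0 < K)
    (hH : 0 ≤ H) (hl0 : 0 ≤ lam) (hlΛ : lam ≤ Λ) (hη : 0 ≤ η)
    {E : ℂ → ℝ} (hEc : Continuous E) (hE0 : ∀ z, 0 ≤ E z)
    (hEη : ∀ z ∈ ball (0 : ℂ) r, s ≤ ‖z‖ → E z ≤ η) {h : ℂ → ℂ}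
    (hh : ∀ z ∈ ball (0 : ℂ) r, ‖deriv h z‖ ≤ H) {χ : ℂ → ℝ} (hχc : ContDiff ℝ ∞ χ)
    (hχ01 : ∀ z, 0 ≤ χ z ∧ χ z ≤ 1) (hχ1 : ∀ z, ‖z‖ ≤ s → χ z = 1)
    (hχd : ∀ z, ‖fderiv ℝ χ z‖ ≤ K / s) :
    ‖(∫ z in ball (0 : ℂ) r, (dz (fun z => (χ z : ℂ)) z / z +
        (χ z : ℂ) / z * (deriv h z - lam / 4 * conj z)) * (E z : ℂ)) -
      (mo s E (fun z => deriv h z / z) - lam / 4 * mo s E (fun z => conj z / z))‖ ≤
      (K / s ^ 2 + (H + Λ / 4 * r) / s) * η * volume.real (ball (0 : ℂ) r) := by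
  have hr : 0 < r := hs.trans hsr
  set V := volume.real (ball (0 : ℂ) r) with hV
  set ψ : ℂ → ℂ := fun z => (χ z : ℂ) with hψ
  have hV0 : 0 ≤ V := measureReal_nonneg
  set R : Set ℂ := ball (0 : ℂ) r \ ball 0 s with hR
  have hRr : R ⊆ ball 0 r := sdiff_subset
  have hRm : MeasurableSet R := measurableSet_ball.diff measurableSet_ball
  have hVR : volume.real R ≤ V := measureReal_mono hRr (measure_ball_lt_top).ne
  have hRfin : volume R < ⊤ := (measure_mono hRr).trans_lt measure_ball_lt_top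
  have hRs : ∀ z ∈ R, s ≤ ‖z‖ := fun z hz => by simpa using hz.2
  have hRE : ∀ z ∈ R, E z ≤ η := fun z hz => hEη z hz.1 (hRs z hz)
  obtain ⟨B, hB⟩ := (isCompact_closedBall (0 : ℂ) r).exists_bound_of_continuousOn
    hEc.continuousOn
  have hBr : ∀ z ∈ ball (0 : ℂ) r, |E z| ≤ B := fun z hz => hB z (ball_subset_closedBall hz)
  have hB0 : 0 ≤ B := (abs_nonneg _).trans (hBr 0 (mem_ball_self hr))
  have hEcm : Measurable (fun z => (E z : ℂ)) := (Complex.continuous_ofReal.comp hEc).measurable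
  have hd : ∀ z, HasFDerivAt ψ (Complex.ofRealCLM.comp (fderiv ℝ χ z)) z := by
    intro z
    exact Complex.ofRealCLM.hasFDerivAt.comp z
      ((hχc.differentiable (by simp)) z).hasFDerivAt
  have hdz : ∀ z, dz ψ z = ((fderiv ℝ χ z 1 : ℝ) - I * (fderiv ℝ χ z I : ℝ)) / 2 := by
    intro z
    rw [dz, (hd z).fderiv]
    simp
  have hdzb : ∀ z, ‖dz ψ z‖ ≤ K / s := by
    intro z
    rw [hdz]
    have h1 : ‖fderiv ℝ χ z 1‖ ≤ K / s := by
      refine ((fderiv ℝ χ z).le_opNorm 1).trans ?_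
      simpa using hχd z
    have h2 : ‖fderiv ℝ χ z I‖ ≤ K / s := by
      refine ((fderiv ℝ χ z).le_opNorm I).trans ?_
      simpa using hχd z
    rw [norm_div]
    have h3 : ‖((fderiv ℝ χ z 1 : ℝ) : ℂ) - I * (fderiv ℝ χ z I : ℝ)‖ ≤ K / s + K / s := by
      refine (norm_sub_le _ _).trans (add_le_add ?_ ?_)
      · rwa [Complex.norm_real]
      · rw [norm_mul, Complex.norm_I, one_mul, Complex.norm_real]
        exact h2
    have h4 : ‖(2 : ℂ)‖ = 2 := by simp
    rw [h4]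
    linarith
  have hdz0 : ∀ z ∈ ball (0 : ℂ) s, dz ψ z = 0 := by
    intro z hz
    have : ψ =ᶠ[𝓝 z] fun _ => (1 : ℂ) := by
      filter_upwards [isOpen_ball.mem_nhds hz] with w hw
      simp [hψ, hχ1 w (mem_ball_zero_iff.1 hw).le]
    rw [dz, this.fderiv_eq]
    simp
  have hdm : Measurable (fun z => dz ψ z) := by
    have hc : Continuous (fun z => fderiv ℝ χ z) := hχc.continuous_fderiv (by simp)
    have h1 : Continuous (fun z => fderiv ℝ χ z 1) := hc.clm_apply continuous_const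
    have h2 : Continuous (fun z => fderiv ℝ χ z I) := hc.clm_apply continuous_const
    simp only [hdz]
    refine Continuous.measurable ?_
    fun_prop
  have hhm : Measurable (deriv h) := measurable_deriv h
  have hψm : Measurable ψ := (Complex.continuous_ofReal.comp hχc.continuous).measurable
  have hψb : ∀ z, ‖ψ z‖ ≤ 1 := by
    intro z
    simp only [hψ, Complex.norm_real, Real.norm_eq_abs, abs_of_nonneg (hχ01 z).1]
    exact (hχ01 z).2
  have hcm : Measurable (fun z : ℂ => conj z) := Complex.continuous_conj.measurable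
  -- the bracket
  have hbr : ∀ z ∈ ball (0 : ℂ) r, ‖dz ψ z + ψ z * (deriv h z - lam / 4 * conj z)‖ ≤
      K / s + (H + Λ / 4 * r) := by
    intro z hz
    have hzr : ‖z‖ ≤ r := (mem_ball_zero_iff.1 hz).le
    refine (norm_add_le _ _).trans (add_le_add (hdzb z) ?_)
    rw [norm_mul]
    have h1 : ‖deriv h z - lam / 4 * conj z‖ ≤ H + Λ / 4 * r := by
      refine (norm_sub_le _ _).trans (add_le_add (hh z hz) ?_)
      rw [norm_mul, Complex.norm_conj]
      have : ‖((lam : ℂ) / 4)‖ = lam / 4 := by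
        rw [norm_div, Complex.norm_real, Real.norm_eq_abs, abs_of_nonneg hl0]
        simp
      rw [this]
      exact mul_le_mul (by linarith) hzr (norm_nonneg _) (by linarith)
    calc ‖ψ z‖ * ‖deriv h z - lam / 4 * conj z‖ ≤ 1 * (H + Λ / 4 * r) :=
          mul_le_mul (hψb z) h1 (norm_nonneg _) zero_le_one
      _ = H + Λ / 4 * r := one_mul _
  have hC0 : 0 ≤ K / s + (H + Λ / 4 * r) := (norm_nonneg _).trans (hbr 0 (mem_ball_self hr))
  have hform : ∀ z : ℂ, (dz ψ z / z + ψ z / z * (deriv h z - lam / 4 * conj z)) * (E z : ℂ) =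
      ((dz ψ z + ψ z * (deriv h z - lam / 4 * conj z)) * (E z : ℂ)) * (1 / z) := by
    intro z
    rw [div_eq_mul_one_div (dz ψ z) z, div_eq_mul_one_div (ψ z) z]
    ring
  have hLint : IntegrableOn (fun z => (dz ψ z / z + ψ z / z * (deriv h z - lam / 4 * conj z)) *
      (E z : ℂ)) (ball 0 r) := by
    simp only [hform]
    refine RI2_int h3 hr subset_rfl measurableSet_ball ?_
      (C := (K / s + (H + Λ / 4 * r)) * B) ?_
    · exact (hdm.add (hψm.mul (hhm.sub (measurable_const.mul hcm)))).mul hEcm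
    · intro z hz
      rw [norm_mul]
      exact mul_le_mul (hbr z hz) (by simpa using hBr z hz) (norm_nonneg _) hC0
  have hsub : ball (0 : ℂ) s ⊆ ball 0 r := ball_subset_ball hsr.le
  have hi1 : IntegrableOn (fun z => deriv h z / z * (E z : ℂ)) (ball 0 s) := by
    have := RI2_int h3 hr hsub measurableSet_ball (b := fun z => deriv h z * (E z : ℂ))
      (hhm.mul hEcm) (C := H * B) (fun z hz => by
        rw [norm_mul]
        exact mul_le_mul (hh z (hsub hz)) (by simpa using hBr z (hsub hz)) (norm_nonneg _) hH)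
    refine this.congr_fun (fun z _ => ?_) measurableSet_ball
    simp only; ring
  have hi2 : IntegrableOn (fun z => conj z / z * (E z : ℂ)) (ball 0 s) := by
    have := RI2_int h3 hr hsub measurableSet_ball (b := fun z => conj z * (E z : ℂ))
      (hcm.mul hEcm) (C := r * B) (fun z hz => by
        rw [norm_mul, Complex.norm_conj]
        exact mul_le_mul (mem_ball_zero_iff.1 (hsub hz)).le (by simpa using hBr z (hsub hz))
          (norm_nonneg _) hr.le)
    refine this.congr_fun (fun z _ => ?_) measurableSet_ball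
    simp only; ring
  have hin : ∫ z in ball (0 : ℂ) s, (dz ψ z / z + ψ z / z * (deriv h z - lam / 4 * conj z)) *
      (E z : ℂ) = mo s E (fun z => deriv h z / z) - lam / 4 * mo s E (fun z => conj z / z) := by
    rw [mo, mo, ← integral_const_mul, ← integral_sub hi1 (hi2.const_mul _)]
    refine setIntegral_congr_fun measurableSet_ball (fun z hz => ?_)
    have h1 : ψ z = 1 := by simp [hψ, hχ1 z (mem_ball_zero_iff.1 hz).le]
    simp only [hdz0 z hz, h1]
    ring
  rw [RI2_split hsr.le hLint, hin, add_sub_cancel_left]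
  refine (norm_setIntegral_le_of_norm_le_const hRfin
    (C := (K / s ^ 2 + (H + Λ / 4 * r) / s) * η) (fun z hz => ?_)).trans ?_
  · rw [hform, norm_mul, norm_mul, Complex.norm_real, Real.norm_eq_abs, abs_of_nonneg (hE0 z),
      norm_div, norm_one]
    calc _ ≤ (K / s + (H + Λ / 4 * r)) * η * (1 / s) := by
          refine mul_le_mul (mul_le_mul (hbr z hz.1) (hRE z hz) (hE0 z) hC0)
            (one_div_le_one_div_of_le hs (hRs z hz)) (by positivity) (by positivity)
      _ = (K / s ^ 2 + (H + Λ / 4 * r) / s) * η := by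
          field_simp
  · refine mul_le_mul_of_nonneg_left hVR ?_
    have : 0 ≤ (K / s + (H + Λ / 4 * r)) / s := div_nonneg hC0 hs.le
    have e : K / s ^ 2 + (H + Λ / 4 * r) / s = (K / s + (H + Λ / 4 * r)) / s := by
      field_simp
    rw [e]
    positivity

theorem pr_RI2 (h1 : S_Id2) (h2 : S_Cut) (h3 : S_Riesz) : S_RI2 := by
  intro r s H Λ M0 hs hsr2
  have hsr : s < r := by linarith
  have hr : 0 < r := hs.trans hsr
  obtain ⟨K, hK, h2⟩ := h2
  obtain ⟨χ, hχc, hχ01, hχ1, hχ0, hχd, hχL⟩ := h2 s hs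
  set V := volume.real (ball (0 : ℂ) r) with hV
  have hV0 : 0 ≤ V := measureReal_nonneg
  refine ⟨(K / s ^ 2 + (|H| + |Λ| / 4 * r) / s) * V + 1 / (8 * π) * (V * (3 / s +
    2 * |M0| * K / s ^ 2 + |M0| / s ^ 2)), by positivity, ?_⟩
  intro lam η h E hL hlΛ hh hM hEη
  have hη : 0 ≤ η := by
    have h0 : ((s : ℝ) : ℂ) ∈ ball (0 : ℂ) r := by
      simp [abs_of_pos hs, hsr]
    exact (hL.nonneg _).trans (hEη (s : ℂ) h0 (by simp [abs_of_pos hs]))
  have hH : 0 ≤ H := (norm_nonneg _).trans (hh 0 (mem_ball_self hr))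
  have hms : 0 ≤ ms r E := integral_nonneg hL.nonneg
  have hM0 : 0 ≤ M0 := hms.trans hM
  have hΛ : 0 ≤ Λ := hL.lam0.trans hlΛ
  rw [abs_of_nonneg hH, abs_of_nonneg hM0, abs_of_nonneg hΛ]
  set ψ : ℂ → ℂ := fun z => (χ z : ℂ) with hψ
  have hψc : ContDiff ℝ 1 ψ := by
    have : ContDiff ℝ 1 χ := hχc.of_le (by simp)
    exact Complex.ofRealCLM.contDiff.comp this
  have hId := h1 r lam h E hL ψ hψc ⟨3 / 2 * s, by linarith, fun z hz => by
    simp [hψ, hχ0 z hz]⟩
  have hA := RI2_sgl h3 hs hsr hK hH hL.lam0 hlΛ hη hL.cont hL.nonneg hEη hh hχc hχ01 hχ1 hχd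
  have hB := RI2_dbl h3 hs hsr hK hM0 hη hL.cont hL.nonneg hM hEη (ψ := ψ)
    ((Complex.continuous_ofReal.comp hχc.continuous).measurable)
    (fun z => by
      simp only [hψ, Complex.norm_real, Real.norm_eq_abs, abs_of_nonneg (hχ01 z).1]
      exact (hχ01 z).2)
    (fun z => by
      have : (1 : ℂ) - ψ z = ((1 - χ z : ℝ) : ℂ) := by simp [hψ]
      rw [this, Complex.norm_real, Real.norm_eq_abs, abs_of_nonneg (by linarith [(hχ01 z).2])]
      linarith [(hχ01 z).1])
    (fun z hz => by simp [hψ, hχ1 z hz])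
    (fun z y => by
      have : ψ z - ψ y = ((χ z - χ y : ℝ) : ℂ) := by simp [hψ]
      rw [this, Complex.norm_real, Real.norm_eq_abs]
      exact hχL z y)
  set m := mo s E (fun z => 1 / z) with hm
  set L := ∫ z in ball (0 : ℂ) r, (dz ψ z / z + ψ z / z * (deriv h z - lam / 4 * conj z)) *
      (E z : ℂ) with hLdef
  set D := ∫ z in ball (0 : ℂ) r, ∫ y in ball (0 : ℂ) r,
      (ψ z / z - ψ y / y) / (z - y) * (E z : ℂ) * (E y : ℂ) with hD
  set X := mo s E (fun z => deriv h z / z) - lam / 4 * mo s E (fun z => conj z / z) with hX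
  have e : X + 1 / (8 * π) * m ^ 2 = -(L - X) + 1 / (8 * π) * (D + m ^ 2) := by
    rw [hId]; ring
  rw [e]
  have hpi : ‖(1 / (8 * π) : ℂ)‖ = 1 / (8 * π) := by
    rw [norm_div, norm_one, norm_mul, Complex.norm_real, Real.norm_eq_abs,
      abs_of_pos Real.pi_pos]
    simp
  have hm0 := norm_nonneg m
  calc ‖-(L - X) + 1 / (8 * π) * (D + m ^ 2)‖ ≤ ‖-(L - X)‖ + ‖(1 / (8 * π) : ℂ) * (D + m ^ 2)‖ :=
        norm_add_le _ _
    _ = ‖L - X‖ + 1 / (8 * π) * ‖D + m ^ 2‖ := by rw [norm_neg, norm_mul, hpi]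
    _ ≤ (K / s ^ 2 + (H + Λ / 4 * r) / s) * η * V +
        1 / (8 * π) * (V * η * (3 / s * ‖m‖ + 2 * M0 * K / s ^ 2 + M0 / s ^ 2)) :=
        add_le_add hA (mul_le_mul_of_nonneg_left hB (by positivity))
    _ ≤ (K / s ^ 2 + (H + Λ / 4 * r) / s) * η * V * (1 + ‖m‖) +
        1 / (8 * π) * (V * η * ((3 / s + 2 * M0 * K / s ^ 2 + M0 / s ^ 2) * (1 + ‖m‖))) := by
        refine add_le_add ?_ ?_
        · exact le_mul_of_one_le_right (by positivity) (by linarith)
        · refine mul_le_mul_of_nonneg_left (mul_le_mul_of_nonneg_left ?_ (by positivity))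
            (by positivity)
          have h1 : 0 ≤ 3 / s := by positivity
          have h2 : 0 ≤ (2 * M0 * K / s ^ 2 + M0 / s ^ 2) * ‖m‖ := by positivity
          nlinarith
    _ = _ := by ring

end Pool.Agent.Vx

end

section

/-!
# MP_afe918_an, item RIp: the Pohozaev identity for polynomial vector fields
-/

set_option autoImplicit false

open Complex Set Filter Topology MeasureTheory Metric
open scoped Real ContDiff ComplexConjugate

namespace Pool.Agent.Vx

/-- The polynomial vector field. -/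
noncomputable def RIp_f (b : ℂ) (c : ℕ → ℂ) (z : ℂ) : ℂ :=
  ∑ i ∈ Finset.range 6, c i * (z - b) ^ i

/-- Its derivative. -/
noncomputable def RIp_g (b : ℂ) (c : ℕ → ℂ) (z : ℂ) : ℂ :=
  ∑ i ∈ Finset.range 6, c i * i * (z - b) ^ (i - 1)

/-- The force. -/
noncomputable def RIp_w (n : ℕ) (lam : ℝ) (h : ℂ → ℂ) (z : ℂ) : ℂ :=
  n / z + deriv h z - lam / 4 * conj z

theorem RIp_hasDerivAt (b : ℂ) (c : ℕ → ℂ) (z : ℂ) :
    HasDerivAt (RIp_f b c) (RIp_g b c z) z := by
  unfold RIp_f RIp_g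
  refine HasDerivAt.fun_sum fun i _ => ?_
  have h1 : HasDerivAt (fun z : ℂ => z - b) 1 z := (hasDerivAt_id z).sub_const b
  have h2 := (h1.pow i).const_mul (c i)
  exact h2.congr_deriv (by ring)

theorem RIp_fdiff (b : ℂ) (c : ℕ → ℂ) : ContDiff ℝ 1 (RIp_f b c) := by
  unfold RIp_f
  refine ContDiff.sum fun i _ => ?_
  exact contDiff_const.mul ((contDiff_id.sub contDiff_const).pow i)

theorem RIp_f_bound {s A : ℝ} {b : ℂ} {c : ℕ → ℂ}
    (hc : ∀ i, i < 6 → ‖c i‖ * (3 * s) ^ i ≤ A * s) {z : ℂ} (hz : ‖z - b‖ ≤ 3 * s) :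
    ‖RIp_f b c z‖ ≤ 6 * (A * s) := by
  unfold RIp_f
  calc ‖∑ i ∈ Finset.range 6, c i * (z - b) ^ i‖
      ≤ ∑ i ∈ Finset.range 6, ‖c i * (z - b) ^ i‖ := norm_sum_le _ _
    _ ≤ ∑ i ∈ Finset.range 6, A * s := by
        refine Finset.sum_le_sum fun i hi => ?_
        rw [norm_mul, norm_pow]
        exact le_trans (mul_le_mul_of_nonneg_left
          (pow_le_pow_left₀ (norm_nonneg _) hz i) (norm_nonneg _)) (hc i (Finset.mem_range.1 hi))
    _ = 6 * (A * s) := by simp

theorem RIp_g_bound {s A : ℝ} {b : ℂ} {c : ℕ → ℂ} (hs : 0 < s)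
    (hc : ∀ i, i < 6 → ‖c i‖ * (3 * s) ^ i ≤ A * s) {z : ℂ} (hz : ‖z - b‖ ≤ 3 * s) :
    ‖RIp_g b c z‖ ≤ 5 * A := by
  unfold RIp_g
  calc ‖∑ i ∈ Finset.range 6, c i * i * (z - b) ^ (i - 1)‖
      ≤ ∑ i ∈ Finset.range 6, ‖c i * i * (z - b) ^ (i - 1)‖ := norm_sum_le _ _
    _ ≤ ∑ i ∈ Finset.range 6, (i : ℝ) * (A / 3) := by
        refine Finset.sum_le_sum fun i hi => ?_
        rw [norm_mul, norm_mul, norm_pow, Complex.norm_natCast]
        rcases Nat.eq_zero_or_pos i with h0 | h0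
        · subst h0; simp
        · have h1 := hc i (Finset.mem_range.1 hi)
          have h2 : (3 * s) ^ i = (3 * s) ^ (i - 1) * (3 * s) := by
            rw [← pow_succ]; congr 1; omega
          have h3 : ‖c i‖ * (3 * s) ^ (i - 1) ≤ A / 3 := by
            rw [h2, ← mul_assoc] at h1
            have : ‖c i‖ * (3 * s) ^ (i - 1) * 3 ≤ A := by
              refine le_of_mul_le_mul_right ?_ hs
              linarith
            linarith
          have h4 : ‖c i‖ * ‖z - b‖ ^ (i - 1) ≤ A / 3 :=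
            le_trans (mul_le_mul_of_nonneg_left
              (pow_le_pow_left₀ (norm_nonneg _) hz _) (norm_nonneg _)) h3
          calc ‖c i‖ * (i : ℝ) * ‖z - b‖ ^ (i - 1)
              = (i : ℝ) * (‖c i‖ * ‖z - b‖ ^ (i - 1)) := by ring
            _ ≤ (i : ℝ) * (A / 3) := mul_le_mul_of_nonneg_left h4 (Nat.cast_nonneg _)
    _ = 5 * A := by
        simp only [Finset.sum_range_succ, Finset.sum_range_zero]
        push_cast
        ring

theorem RIp_quot (b : ℂ) (c : ℕ → ℂ) {z y : ℂ} (h : z ≠ y) :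
    (RIp_f b c z - RIp_f b c y) / (z - y) = ∑ i ∈ Finset.range 6, c i *
      ∑ k ∈ Finset.range i, (z - b) ^ k * (y - b) ^ (i - 1 - k) := by
  have h1 : z - y ≠ 0 := sub_ne_zero.2 h
  rw [div_eq_iff h1]
  unfold RIp_f
  rw [Finset.sum_mul, ← Finset.sum_sub_distrib]
  refine Finset.sum_congr rfl fun i _ => ?_
  have h2 := geom_sum₂_mul (z - b) (y - b) i
  rw [← mul_sub, ← h2]
  ring

theorem RIp_dz {χ : ℂ → ℝ} (hχ : ContDiff ℝ ∞ χ) (b : ℂ) (c : ℕ → ℂ) (z : ℂ) :
    dz (fun z => (χ z : ℂ) * RIp_f b c z) z =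
      χ z * RIp_g b c z + RIp_f b c z *
        ((((fderiv ℝ χ z 1 : ℝ) : ℂ) - I * ((fderiv ℝ χ z I : ℝ) : ℂ)) / 2) := by
  have h1 : HasFDerivAt χ (fderiv ℝ χ z) z :=
    (hχ.differentiable (by simp) z).hasFDerivAt
  have h2 : HasFDerivAt (fun z => (χ z : ℂ)) (Complex.ofRealCLM.comp (fderiv ℝ χ z)) z :=
    Complex.ofRealCLM.hasFDerivAt.comp z h1
  have h3 := (RIp_hasDerivAt b c z).hasFDerivAt.restrictScalars ℝ
  have h4 := h2.mul h3
  unfold dz
  have h5 : fderiv ℝ (fun z => (χ z : ℂ) * RIp_f b c z) z = _ := h4.fderiv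
  rw [h5]
  simp
  linear_combination (-(χ z : ℂ) * RIp_g b c z / 2) * Complex.I_sq

theorem RIp_dz_in {χ : ℂ → ℝ} (hχ : ContDiff ℝ ∞ χ) {s : ℝ} (h1 : ∀ z, ‖z‖ ≤ s → χ z = 1)
    (b : ℂ) (c : ℕ → ℂ) {z : ℂ} (hz : ‖z‖ < s) :
    dz (fun z => (χ z : ℂ) * RIp_f b c z) z = RIp_g b c z := by
  have h2 : χ =ᶠ[𝓝 z] fun _ => (1 : ℝ) := by
    have : ball (0 : ℂ) s ∈ 𝓝 z := isOpen_ball.mem_nhds (by simpa using hz)
    filter_upwards [this] with y hy
    exact h1 y (le_of_lt (by simpa using hy))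
  have h3 : fderiv ℝ χ z = 0 := by rw [h2.fderiv_eq]; simp
  rw [RIp_dz hχ, h3, h1 z hz.le]
  simp

theorem RIp_dz_out {χ : ℂ → ℝ} (hχ : ContDiff ℝ ∞ χ) {s : ℝ} (h1 : ∀ z, 3 / 2 * s ≤ ‖z‖ → χ z = 0)
    (b : ℂ) (c : ℕ → ℂ) {z : ℂ} (hz : 3 / 2 * s < ‖z‖) :
    dz (fun z => (χ z : ℂ) * RIp_f b c z) z = 0 := by
  have h2 : χ =ᶠ[𝓝 z] fun _ => (0 : ℝ) := by
    have : {y : ℂ | 3 / 2 * s < ‖y‖} ∈ 𝓝 z :=
      (isOpen_lt continuous_const continuous_norm).mem_nhds hz
    filter_upwards [this] with y hy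
    exact h1 y (le_of_lt hy)
  have h3 : fderiv ℝ χ z = 0 := by rw [h2.fderiv_eq]; simp
  rw [RIp_dz hχ, h3, h1 z hz.le]
  simp

theorem RIp_dz_bound {χ : ℂ → ℝ} (hχ : ContDiff ℝ ∞ χ) {s A K : ℝ} (hs : 0 < s)
    (h01 : ∀ z, 0 ≤ χ z ∧ χ z ≤ 1) (hK : ∀ z, ‖fderiv ℝ χ z‖ ≤ K / s)
    {b : ℂ} {c : ℕ → ℂ} (hc : ∀ i, i < 6 → ‖c i‖ * (3 * s) ^ i ≤ A * s) {z : ℂ}
    (hz : ‖z - b‖ ≤ 3 * s) :
    ‖dz (fun z => (χ z : ℂ) * RIp_f b c z) z‖ ≤ (5 + 6 * K) * A := by
  rw [RIp_dz hχ]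
  have h1 : ‖(χ z : ℂ)‖ ≤ 1 := by
    rw [Complex.norm_real, Real.norm_eq_abs, abs_of_nonneg (h01 z).1]; exact (h01 z).2
  have h2 : |fderiv ℝ χ z 1| ≤ K / s := by
    have := (fderiv ℝ χ z).le_opNorm 1
    rw [norm_one, mul_one, Real.norm_eq_abs] at this
    exact this.trans (hK z)
  have h3 : |fderiv ℝ χ z I| ≤ K / s := by
    have := (fderiv ℝ χ z).le_opNorm I
    rw [Complex.norm_I, mul_one, Real.norm_eq_abs] at this
    exact this.trans (hK z)
  have h4 : ‖(((fderiv ℝ χ z 1 : ℝ) : ℂ) - I * ((fderiv ℝ χ z I : ℝ) : ℂ)) / 2‖ ≤ K / s := by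
    rw [norm_div, Complex.norm_ofNat]
    have h5 : ‖((fderiv ℝ χ z 1 : ℝ) : ℂ) - I * ((fderiv ℝ χ z I : ℝ) : ℂ)‖ ≤ K / s + K / s := by
      refine (norm_sub_le _ _).trans (add_le_add ?_ ?_)
      · rw [Complex.norm_real]; exact h2
      · rw [norm_mul, Complex.norm_I, one_mul, Complex.norm_real]; exact h3
    linarith
  have h5 := RIp_f_bound hc hz
  have h6 := RIp_g_bound hs hc hz
  have hKs : 0 ≤ K / s := le_trans (norm_nonneg _) (hK z)
  calc ‖(χ z : ℂ) * RIp_g b c z + RIp_f b c z *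
        ((((fderiv ℝ χ z 1 : ℝ) : ℂ) - I * ((fderiv ℝ χ z I : ℝ) : ℂ)) / 2)‖
      ≤ ‖(χ z : ℂ)‖ * ‖RIp_g b c z‖ + ‖RIp_f b c z‖ *
        ‖(((fderiv ℝ χ z 1 : ℝ) : ℂ) - I * ((fderiv ℝ χ z I : ℝ) : ℂ)) / 2‖ := by
        refine (norm_add_le _ _).trans ?_
        rw [norm_mul, norm_mul]
    _ ≤ 1 * (5 * A) + 6 * (A * s) * (K / s) := by
        refine add_le_add ?_ ?_
        · exact mul_le_mul h1 h6 (norm_nonneg _) zero_le_one
        · exact mul_le_mul h5 h4 (norm_nonneg _) (le_trans (norm_nonneg _) h5)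
    _ = (5 + 6 * K) * A := by field_simp

/-- The double integral outside the small ball. -/
theorem RIp_double (h3 : S_Riesz) {r s η P : ℝ} {L : NNReal} (hs : 0 < s) (hsr : s < r)
    {E : ℂ → ℝ} (hE : Continuous E) (hE0 : ∀ z, 0 ≤ E z)
    (hη : ∀ z ∈ ball (0 : ℂ) r, s ≤ ‖z‖ → E z ≤ η)
    {ψ : ℂ → ℂ} (hL : LipschitzWith L ψ) (hP : ∀ z, ‖ψ z‖ ≤ P) :
    ‖(∫ z in ball (0 : ℂ) r, ∫ y in ball (0 : ℂ) r,
        (ψ z - ψ y) / (z - y) * (E z : ℂ) * (E y : ℂ)) -
      ∫ z in ball (0 : ℂ) s, ∫ y in ball (0 : ℂ) s,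
        (ψ z - ψ y) / (z - y) * (E z : ℂ) * (E y : ℂ)‖ ≤
      2 * (2 * P * η * (6 * π * r)) * ms r E := by
  set F : ℂ → ℂ → ℂ := fun z y => (ψ z - ψ y) / (z - y) * (E z : ℂ) * (E y : ℂ) with hF
  have hr : 0 < r := hs.trans hsr
  have hP0 : 0 ≤ P := le_trans (norm_nonneg _) (hP 0)
  obtain ⟨M, hM⟩ := (isCompact_closedBall (0 : ℂ) r).exists_bound_of_continuousOn
    hE.continuousOn
  have hM' : ∀ z ∈ ball (0 : ℂ) r, E z ≤ M := fun z hz =>
    le_trans (le_abs_self _) (hM z (ball_subset_closedBall hz))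
  have hM0 : 0 ≤ M := le_trans (hE0 0) (hM' 0 (by simpa using hr))
  have hη0 : 0 ≤ η := by
    have h1 : ((s : ℝ) : ℂ) ∈ ball (0 : ℂ) r := by
      simp [abs_of_pos hs, hsr]
    exact le_trans (hE0 _) (hη _ h1 (by simp [abs_of_pos hs]))
  have hEi : IntegrableOn E (ball (0 : ℂ) r) :=
    (hE.continuousOn.integrableOn_compact (isCompact_closedBall (0 : ℂ) r)).mono_set
      ball_subset_closedBall
  have hψm : Measurable ψ := hL.continuous.measurable
  have hEm : Measurable fun z => (E z : ℂ) :=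
    Complex.continuous_ofReal.measurable.comp hE.measurable
  have hmeas : Measurable (Function.uncurry F) := by
    have h1 : Measurable fun p : ℂ × ℂ => ψ p.1 - ψ p.2 :=
      (hψm.comp measurable_fst).sub (hψm.comp measurable_snd)
    have h2 : Measurable fun p : ℂ × ℂ => p.1 - p.2 := measurable_fst.sub measurable_snd
    exact ((h1.div h2).mul (hEm.comp measurable_fst)).mul (hEm.comp measurable_snd)
  have hk : ∀ z y, ‖(ψ z - ψ y) / (z - y)‖ ≤ L := by
    intro z y
    rw [norm_div]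
    refine div_le_of_le_mul₀ (norm_nonneg _) L.coe_nonneg ?_
    have := hL.dist_le_mul z y
    rwa [dist_eq_norm, dist_eq_norm] at this
  have hFn : ∀ z y, ‖F z y‖ = ‖(ψ z - ψ y) / (z - y)‖ * E z * E y := by
    intro z y
    simp only [hF]
    rw [norm_mul, norm_mul, Complex.norm_real, Complex.norm_real, Real.norm_eq_abs,
      Real.norm_eq_abs, abs_of_nonneg (hE0 z), abs_of_nonneg (hE0 y)]
  have hFb : ∀ z ∈ ball (0 : ℂ) r, ∀ y ∈ ball (0 : ℂ) r, ‖F z y‖ ≤ L * M * M := by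
    intro z hz y hy
    rw [hFn]
    have h1 := hk z y
    have h2 := hM' z hz
    have h3 := hM' y hy
    have h4 := hE0 z
    have h5 := hE0 y
    gcongr
  have hvf : volume (ball (0 : ℂ) r) ≠ ⊤ := measure_ball_lt_top.ne
  have hbig : IntegrableOn (Function.uncurry F) (ball (0 : ℂ) r ×ˢ ball (0 : ℂ) r)
      (volume.prod volume) := by
    refine Measure.integrableOn_of_bounded (M := L * M * M) ?_ hmeas.aestronglyMeasurable ?_
    · rw [Measure.prod_prod]; exact ENNReal.mul_ne_top hvf hvf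
    · filter_upwards [ae_restrict_mem (measurableSet_ball.prod measurableSet_ball)] with p hp
      exact hFb p.1 hp.1 p.2 hp.2
  have hint : ∀ S T : Set ℂ, S ⊆ ball 0 r → T ⊆ ball 0 r →
      Integrable (Function.uncurry F) ((volume.restrict S).prod (volume.restrict T)) := by
    intro S T hS hT
    rw [Measure.prod_restrict]
    exact hbig.mono_set (Set.prod_mono hS hT)
  have hone : ∀ z, IntegrableOn (F z) (ball (0 : ℂ) r) := by
    intro z
    refine Measure.integrableOn_of_bounded (M := L * E z * M) hvf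
      (hmeas.comp measurable_prodMk_left).aestronglyMeasurable ?_
    filter_upwards [ae_restrict_mem measurableSet_ball] with y hy
    rw [hFn]
    have h1 := hk z y
    have h3 := hM' y hy
    have h4 := hE0 z
    have h5 := hE0 y
    gcongr
  -- the main bound
  have hJ : ∀ S : Set ℂ, MeasurableSet S → S ⊆ ball 0 r →
      ‖∫ z in S, ∫ y in ball (0 : ℂ) r \ ball 0 s, F z y‖ ≤
        2 * P * η * (6 * π * r) * ms r E := by
    intro S hSm hS
    have h1 : ∀ z, ‖∫ y in ball (0 : ℂ) r \ ball 0 s, F z y‖ ≤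
        2 * P * η * (6 * π * r) * E z := by
      intro z
      obtain ⟨hr1, hr2⟩ := h3 0 z r hr
      have hr3 : IntegrableOn (fun y => 2 * P * η * E z * (1 / ‖z - y‖))
          (ball (0 : ℂ) r \ ball 0 s) := (hr1.mono_set sdiff_subset).const_mul _
      have hr4 : ‖∫ y in ball (0 : ℂ) r \ ball 0 s, F z y‖ ≤
          ∫ y in ball (0 : ℂ) r \ ball 0 s, 2 * P * η * E z * (1 / ‖z - y‖) := by
        refine norm_integral_le_of_norm_le hr3 ?_
        filter_upwards [ae_restrict_mem (measurableSet_ball.diff measurableSet_ball)] with y hy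
        have hy1 : E y ≤ η := hη y hy.1 (by simpa using hy.2)
        have hy2 : ‖(ψ z - ψ y) / (z - y)‖ ≤ (P + P) * (1 / ‖z - y‖) := by
          rw [norm_div, div_eq_mul_one_div]
          refine mul_le_mul_of_nonneg_right ?_ (by positivity)
          exact (norm_sub_le _ _).trans (add_le_add (hP _) (hP _))
        rw [hFn]
        have h4 := hE0 z
        have h5 := hE0 y
        calc ‖(ψ z - ψ y) / (z - y)‖ * E z * E y ≤ (P + P) * (1 / ‖z - y‖) * E z * η := by
              gcongr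
          _ = 2 * P * η * E z * (1 / ‖z - y‖) := by ring
      have hr5 : ∫ y in ball (0 : ℂ) r \ ball 0 s, 2 * P * η * E z * (1 / ‖z - y‖) ≤
          2 * P * η * E z * (6 * π * r) := by
        rw [integral_const_mul]
        refine mul_le_mul_of_nonneg_left ?_ (by have := hE0 z; positivity)
        refine le_trans ?_ hr2
        refine setIntegral_mono_set hr1 ?_ (LE.le.eventuallyLE sdiff_subset)
        exact Filter.Eventually.of_forall fun y => by positivity
      refine hr4.trans (hr5.trans (le_of_eq (by ring)))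
    have h2 : ‖∫ z in S, ∫ y in ball (0 : ℂ) r \ ball 0 s, F z y‖ ≤
        ∫ z in S, 2 * P * η * (6 * π * r) * E z :=
      norm_integral_le_of_norm_le ((hEi.mono_set hS).const_mul _)
        (Filter.Eventually.of_forall h1)
    refine h2.trans ?_
    rw [integral_const_mul]
    refine mul_le_mul_of_nonneg_left ?_ (by positivity)
    exact setIntegral_mono_set hEi (Filter.Eventually.of_forall hE0)
      (LE.le.eventuallyLE hS)
  have hsub : ball (0 : ℂ) s ⊆ ball 0 r := ball_subset_ball hsr.le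
  have hinter : ball (0 : ℂ) r ∩ ball 0 s = ball 0 s := inter_eq_right.2 hsub
  -- splitting
  have e1 : ∫ z in ball (0 : ℂ) r, ∫ y in ball (0 : ℂ) r, F z y =
      (∫ z in ball (0 : ℂ) s, ∫ y in ball (0 : ℂ) r, F z y) +
        ∫ z in ball (0 : ℂ) r \ ball 0 s, ∫ y in ball (0 : ℂ) r, F z y := by
    have h1 : IntegrableOn (fun z => ∫ y in ball (0 : ℂ) r, F z y) (ball (0 : ℂ) r) :=
      (hint _ _ subset_rfl subset_rfl).integral_prod_left
    have h2 := integral_inter_add_sdiff (measurableSet_ball (x := (0 : ℂ)) (ε := s)) h1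
    rw [hinter] at h2
    exact h2.symm
  have e2 : ∫ z in ball (0 : ℂ) s, ∫ y in ball (0 : ℂ) r, F z y =
      (∫ z in ball (0 : ℂ) s, ∫ y in ball (0 : ℂ) s, F z y) +
        ∫ z in ball (0 : ℂ) s, ∫ y in ball (0 : ℂ) r \ ball 0 s, F z y := by
    have h1 : IntegrableOn (fun z => ∫ y in ball (0 : ℂ) s, F z y) (ball (0 : ℂ) s) :=
      (hint _ _ hsub hsub).integral_prod_left
    have h2 : IntegrableOn (fun z => ∫ y in ball (0 : ℂ) r \ ball 0 s, F z y)
        (ball (0 : ℂ) s) := (hint _ _ hsub sdiff_subset).integral_prod_left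
    rw [← integral_add h1 h2]
    refine integral_congr_ae (Filter.Eventually.of_forall fun z => ?_)
    have h4 := integral_inter_add_sdiff (measurableSet_ball (x := (0 : ℂ)) (ε := s)) (hone z)
    rw [hinter] at h4
    exact h4.symm
  have e3 : ∫ z in ball (0 : ℂ) r \ ball 0 s, ∫ y in ball (0 : ℂ) r, F z y =
      ∫ z in ball (0 : ℂ) r, ∫ y in ball (0 : ℂ) r \ ball 0 s, F z y := by
    rw [integral_integral_swap (hint _ _ sdiff_subset subset_rfl)]
    refine integral_congr_ae (Filter.Eventually.of_forall fun z => ?_)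
    refine integral_congr_ae (Filter.Eventually.of_forall fun y => ?_)
    simp only [hF]
    rw [← neg_sub (ψ z) (ψ y), ← neg_sub z y, neg_div_neg_eq]
    ring
  have h5 := hJ (ball 0 s) measurableSet_ball hsub
  have h6 := hJ (ball 0 r) measurableSet_ball subset_rfl
  rw [e1, e2, e3]
  have e4 : (∫ z in ball (0 : ℂ) s, ∫ y in ball (0 : ℂ) s, F z y) +
        (∫ z in ball (0 : ℂ) s, ∫ y in ball (0 : ℂ) r \ ball 0 s, F z y) +
        (∫ z in ball (0 : ℂ) r, ∫ y in ball (0 : ℂ) r \ ball 0 s, F z y) -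
        (∫ z in ball (0 : ℂ) s, ∫ y in ball (0 : ℂ) s, F z y) =
      (∫ z in ball (0 : ℂ) s, ∫ y in ball (0 : ℂ) r \ ball 0 s, F z y) +
        ∫ z in ball (0 : ℂ) r, ∫ y in ball (0 : ℂ) r \ ball 0 s, F z y := by ring
  rw [e4]
  refine (norm_add_le _ _).trans ?_
  linarith

theorem RIp_sq {E : ℂ → ℝ} (hE : Continuous E) (b : ℂ) (c : ℕ → ℂ) (s : ℝ) {ψ : ℂ → ℂ}
    (hψ : ∀ z ∈ ball (0 : ℂ) s, ψ z = RIp_f b c z) :
    ∫ z in ball (0 : ℂ) s, ∫ y in ball (0 : ℂ) s,
        (ψ z - ψ y) / (z - y) * (E z : ℂ) * (E y : ℂ) =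
      ∑ i ∈ Finset.range 6, c i * ∑ k ∈ Finset.range i,
        mo s E (fun z => (z - b) ^ k) * mo s E (fun z => (z - b) ^ (i - 1 - k)) := by
  have hmi : ∀ k : ℕ, IntegrableOn (fun z : ℂ => (z - b) ^ k * (E z : ℂ)) (ball (0 : ℂ) s) := by
    intro k
    have h1 : Continuous fun z : ℂ => (z - b) ^ k * (E z : ℂ) :=
      ((continuous_id.sub continuous_const).pow k).mul (Complex.continuous_ofReal.comp hE)
    exact (h1.continuousOn.integrableOn_compact (isCompact_closedBall (0 : ℂ) s)).mono_set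
      ball_subset_closedBall
  have hin : ∀ z ∈ ball (0 : ℂ) s, ∫ y in ball (0 : ℂ) s,
      (ψ z - ψ y) / (z - y) * (E z : ℂ) * (E y : ℂ) =
      ∑ i ∈ Finset.range 6, ∑ k ∈ Finset.range i,
        (c i * mo s E (fun z => (z - b) ^ (i - 1 - k))) * ((z - b) ^ k * (E z : ℂ)) := by
    intro z hz
    have h1 : ∫ y in ball (0 : ℂ) s, (ψ z - ψ y) / (z - y) * (E z : ℂ) * (E y : ℂ) =
        ∫ y in ball (0 : ℂ) s, ∑ i ∈ Finset.range 6, ∑ k ∈ Finset.range i,
          (c i * ((z - b) ^ k * (E z : ℂ))) * ((y - b) ^ (i - 1 - k) * (E y : ℂ)) := by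
      refine integral_congr_ae ?_
      have h2 : ∀ᵐ y ∂(volume.restrict (ball (0 : ℂ) s)), y ≠ z :=
        ae_restrict_of_ae (by simp [ae_iff, measure_singleton])
      filter_upwards [h2, ae_restrict_mem measurableSet_ball] with y hy hys
      rw [hψ z hz, hψ y hys, RIp_quot b c (Ne.symm hy), Finset.sum_mul, Finset.sum_mul]
      refine Finset.sum_congr rfl fun i _ => ?_
      rw [Finset.mul_sum, Finset.sum_mul, Finset.sum_mul]
      refine Finset.sum_congr rfl fun k _ => ?_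
      ring
    rw [h1, integral_finsetSum _ fun i _ => integrable_finsetSum _ fun k _ =>
      (hmi (i - 1 - k)).const_mul _]
    refine Finset.sum_congr rfl fun i _ => ?_
    rw [integral_finsetSum _ fun k _ => (hmi (i - 1 - k)).const_mul _]
    refine Finset.sum_congr rfl fun k _ => ?_
    rw [integral_const_mul]
    unfold mo
    ring
  rw [setIntegral_congr_fun measurableSet_ball hin,
    integral_finsetSum _ fun i _ => integrable_finsetSum _ fun k _ => (hmi k).const_mul _]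
  refine Finset.sum_congr rfl fun i _ => ?_
  rw [integral_finsetSum _ fun k _ => (hmi k).const_mul _, Finset.mul_sum]
  refine Finset.sum_congr rfl fun k _ => ?_
  rw [integral_const_mul]
  unfold mo
  ring

/-- **Item RIp.** -/
theorem pr_RIp (h1 : S_Id) (h2 : S_Cut) (h3 : S_Riesz) : S_RIp := by
  obtain ⟨K, hK, hcut⟩ := h2
  refine ⟨54 * (1 + K), by positivity, ?_⟩
  intro r s lam A η H M0 T n h E b c hs h2s hrT hloc hH hlam hh hms hη hb hc
  have hr : 0 < r := hloc.rpos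
  have hsr : s < r := by linarith
  have hE := hloc.cont
  have hE0 := hloc.nonneg
  have hlam0 := hloc.lam0
  obtain ⟨χ, hχ, h01, hχ1, hχ0, hχd, -⟩ := hcut s hs
  have hA0 : 0 ≤ A := by
    have h4 := hc 0 (by norm_num)
    rw [pow_zero, mul_one] at h4
    exact nonneg_of_mul_nonneg_left (le_trans (norm_nonneg _) h4) hs
  have hη0 : 0 ≤ η := by
    have h4 : ((s : ℝ) : ℂ) ∈ ball (0 : ℂ) r := by simp [abs_of_pos hs, hsr]
    exact le_trans (hE0 _) (hη _ h4 (by simp [abs_of_pos hs]))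
  have hms0 : 0 ≤ ms r E := setIntegral_nonneg measurableSet_ball fun z _ => hE0 z
  have hM0 : 0 ≤ M0 := le_trans hms0 hms
  have hT : 2 ≤ T := le_of_mul_le_mul_right (h2s.trans hrT) hs
  set ψ : ℂ → ℂ := fun z => (χ z : ℂ) * RIp_f b c z with hψ
  have hψd : ContDiff ℝ 1 ψ :=
    (Complex.ofRealCLM.contDiff.comp (hχ.of_le (by exact_mod_cast le_top))).mul (RIp_fdiff b c)
  have hψ0 : ∀ z, 3 / 2 * s ≤ ‖z‖ → ψ z = 0 := by
    intro z hz
    simp [hψ, hχ0 z hz]
  have hψ1 : ∀ z ∈ ball (0 : ℂ) s, ψ z = RIp_f b c z := by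
    intro z hz
    have : ‖z‖ < s := by simpa using hz
    simp [hψ, hχ1 z this.le]
  have hsupp : HasCompactSupport ψ :=
    HasCompactSupport.intro (isCompact_closedBall (0 : ℂ) (3 / 2 * s)) fun z hz =>
      hψ0 z (le_of_lt (by simpa using hz))
  obtain ⟨L, hL⟩ := hψd.lipschitzWith_of_hasCompactSupport hsupp one_ne_zero
  have hzb : ∀ z : ℂ, ‖z‖ ≤ 3 / 2 * s → ‖z - b‖ ≤ 3 * s := fun z hz =>
    (norm_sub_le _ _).trans (by linarith)
  have hP : ∀ z, ‖ψ z‖ ≤ 6 * (A * s) := by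
    intro z
    rcases le_total ‖z‖ (3 / 2 * s) with hz | hz
    · have h4 := RIp_f_bound hc (hzb z hz)
      have h5 : ‖(χ z : ℂ)‖ ≤ 1 := by
        rw [Complex.norm_real, Real.norm_eq_abs, abs_of_nonneg (h01 z).1]; exact (h01 z).2
      simp only [hψ]
      rw [norm_mul]
      calc ‖(χ z : ℂ)‖ * ‖RIp_f b c z‖ ≤ 1 * (6 * (A * s)) :=
            mul_le_mul h5 h4 (norm_nonneg _) zero_le_one
        _ = 6 * (A * s) := one_mul _
    · rw [hψ0 z hz, norm_zero]; positivity
  have hD : ∀ z, ‖dz ψ z‖ ≤ (5 + 6 * K) * A := by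
    intro z
    rcases le_or_gt ‖z‖ (3 / 2 * s) with hz | hz
    · exact RIp_dz_bound hχ hs h01 hχd hc (hzb z hz)
    · rw [RIp_dz_out hχ hχ0 b c hz, norm_zero]; positivity
  have hid := h1 r n lam h E hloc ψ hψd ⟨3 / 2 * s, by linarith, hψ0⟩
  have hw : ∀ z ∈ ball (0 : ℂ) r, ‖RIp_w n lam h z‖ ≤ n * (1 / ‖z‖) + H / r + lam / 4 * ‖z‖ := by
    intro z hz
    unfold RIp_w
    have h4 : ‖deriv h z‖ ≤ H / r := by rw [le_div_iff₀ hr]; exact hh z hz
    have h5 : ‖(n : ℂ) / z‖ = n * (1 / ‖z‖) := by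
      rw [norm_div, Complex.norm_natCast]; ring
    have h6 : ‖(lam : ℂ) / 4 * conj z‖ = lam / 4 * ‖z‖ := by
      rw [norm_mul, norm_div, Complex.norm_real, RCLike.norm_conj, Complex.norm_ofNat,
        Real.norm_eq_abs, abs_of_nonneg hlam0]
    calc ‖(n : ℂ) / z + deriv h z - (lam : ℂ) / 4 * conj z‖
        ≤ ‖(n : ℂ) / z‖ + ‖deriv h z‖ + ‖(lam : ℂ) / 4 * conj z‖ :=
          (norm_sub_le _ _).trans (add_le_add (norm_add_le _ _) le_rfl)
      _ ≤ _ := by rw [h5, h6]; linarith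
  set G : ℂ → ℂ := fun z => (dz ψ z + ψ z * RIp_w n lam h z) * (E z : ℂ) with hG
  obtain ⟨M, hM⟩ := (isCompact_closedBall (0 : ℂ) r).exists_bound_of_continuousOn
    hE.continuousOn
  have hM' : ∀ z ∈ ball (0 : ℂ) r, E z ≤ M := fun z hz =>
    le_trans (le_abs_self _) (hM z (ball_subset_closedBall hz))
  have hMnn : 0 ≤ M := le_trans (hE0 0) (hM' 0 (by simpa using hr))
  have hGn : ∀ z ∈ ball (0 : ℂ) r, ‖G z‖ ≤
      ((5 + 6 * K) * A + 6 * (A * s) * (n * (1 / ‖z‖) + H / r + lam / 4 * ‖z‖)) * E z := by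
    intro z hz
    simp only [hG]
    rw [norm_mul, Complex.norm_real, Real.norm_eq_abs, abs_of_nonneg (hE0 z)]
    refine mul_le_mul_of_nonneg_right ?_ (hE0 z)
    refine (norm_add_le _ _).trans (add_le_add (hD z) ?_)
    rw [norm_mul]
    exact mul_le_mul (hP z) (hw z hz) (norm_nonneg _) (by positivity)
  have hGm : AEStronglyMeasurable G (volume.restrict (ball (0 : ℂ) r)) := by
    refine Measurable.aestronglyMeasurable ?_
    have m1 : Measurable (dz ψ) := by
      unfold dz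
      exact ((measurable_fderiv_apply_const ℝ ψ 1).sub
        (measurable_const.mul (measurable_fderiv_apply_const ℝ ψ I))).div_const _
    have m2 : Measurable (RIp_w n lam h) := by
      unfold RIp_w
      exact ((measurable_const.div measurable_id).add (measurable_deriv h)).sub
        (measurable_const.mul Complex.continuous_conj.measurable)
    have m3 : Measurable fun z => (E z : ℂ) :=
      Complex.continuous_ofReal.measurable.comp hE.measurable
    exact (m1.add (hψd.continuous.measurable.mul m2)).mul m3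
  have hGi : IntegrableOn G (ball (0 : ℂ) r) := by
    have h5 : IntegrableOn (fun z : ℂ => ((5 + 6 * K) * A + 6 * (A * s) * (H / r + lam / 4 * r)) * M
        + 6 * (A * s) * n * M * (1 / ‖(0 : ℂ) - z‖)) (ball (0 : ℂ) r) := by
      refine Integrable.add ?_ ?_
      · exact integrableOn_const measure_ball_lt_top.ne
      · exact (h3 0 0 r hr).1.const_mul _
    refine Integrable.mono' h5 hGm ?_
    filter_upwards [ae_restrict_mem measurableSet_ball] with z hz
    refine (hGn z hz).trans ?_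
    have hzr : ‖z‖ ≤ r := le_of_lt (by simpa using hz)
    have h6 := hM' z hz
    have h7 := hE0 z
    rw [zero_sub, norm_neg]
    calc ((5 + 6 * K) * A + 6 * (A * s) * (n * (1 / ‖z‖) + H / r + lam / 4 * ‖z‖)) * E z
        ≤ ((5 + 6 * K) * A + 6 * (A * s) * (n * (1 / ‖z‖) + H / r + lam / 4 * r)) * M := by
          gcongr
      _ = _ := by ring
  have hsub : ball (0 : ℂ) s ⊆ ball 0 r := ball_subset_ball hsr.le
  have hinter : ball (0 : ℂ) r ∩ ball 0 s = ball 0 s := inter_eq_right.2 hsub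
  have e1 := integral_inter_add_sdiff (measurableSet_ball (x := (0 : ℂ)) (ε := s)) hGi
  rw [hinter] at e1
  -- the small ball
  have e2 : ∫ z in ball (0 : ℂ) s, G z =
      mo s E (fun z => (∑ i ∈ Finset.range 6, c i * i * (z - b) ^ (i - 1)) +
        (∑ i ∈ Finset.range 6, c i * (z - b) ^ i) * (n / z + deriv h z - lam / 4 * conj z)) := by
    unfold mo
    refine setIntegral_congr_fun measurableSet_ball fun z hz => ?_
    have hz' : ‖z‖ < s := by simpa using hz
    simp only [hG]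
    rw [RIp_dz_in hχ hχ1 b c hz', hψ1 z hz]
    rfl
  -- the error in the first integral
  have e3 : ‖∫ z in ball (0 : ℂ) r \ ball 0 s, G z‖ ≤
      54 * (1 + K) * (1 + n + H) * A * η * s ^ 2 := by
    have hsub2 : closedBall (0 : ℂ) (3 / 2 * s) \ ball 0 s ⊆ ball (0 : ℂ) r \ ball 0 s := by
      intro z hz
      refine ⟨?_, hz.2⟩
      have h4 : ‖z‖ ≤ 3 / 2 * s := by simpa using hz.1
      have h5 : ‖z‖ < r := by linarith
      simpa using h5
    have h4 : ∫ z in ball (0 : ℂ) r \ ball 0 s, G z =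
        ∫ z in closedBall (0 : ℂ) (3 / 2 * s) \ ball 0 s, G z := by
      refine setIntegral_eq_of_subset_of_forall_sdiff_eq_zero
        (measurableSet_ball.diff measurableSet_ball) hsub2 fun z hz => ?_
      have h5 : 3 / 2 * s < ‖z‖ := by
        by_contra h6
        exact hz.2 ⟨by simpa using not_lt.1 h6, hz.1.2⟩
      simp only [hG]
      rw [RIp_dz_out hχ hχ0 b c h5, hψ0 z h5.le]
      simp
    rw [h4]
    have h5 : ∀ z ∈ closedBall (0 : ℂ) (3 / 2 * s) \ ball 0 s, ‖G z‖ ≤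
        ((5 + 6 * K) * A + 6 * A * (n + H)) * η := by
      intro z hz
      have hz1 : ‖z‖ ≤ 3 / 2 * s := by simpa using hz.1
      have hz2 : s ≤ ‖z‖ := by simpa using hz.2
      have hz3 : z ∈ ball (0 : ℂ) r := (hsub2 hz).1
      have h6 := hGn z hz3
      have h7 := hη z hz3 hz2
      have hz0 : 0 < ‖z‖ := lt_of_lt_of_le hs hz2
      have h8 : s * (1 / ‖z‖) ≤ 1 := by
        rw [mul_one_div, div_le_one hz0]; exact hz2
      have h9 : s * (H / r) ≤ H / 2 := by
        rw [mul_div_assoc', div_le_div_iff₀ hr two_pos]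
        nlinarith
      have h10 : s * (lam / 4 * ‖z‖) ≤ H / 2 := by
        have h11 : s * ‖z‖ ≤ r ^ 2 := by nlinarith
        have h12 : lam * (s * ‖z‖) ≤ H :=
          (mul_le_mul_of_nonneg_left h11 hlam0).trans hlam
        nlinarith
      have h13 : 6 * (A * s) * (n * (1 / ‖z‖) + H / r + lam / 4 * ‖z‖) ≤ 6 * A * (n + H) := by
        have h14 : s * (n * (1 / ‖z‖) + H / r + lam / 4 * ‖z‖) ≤ n + H := by
          have h15 : (n : ℝ) * (s * (1 / ‖z‖)) ≤ n * 1 :=
            mul_le_mul_of_nonneg_left h8 (Nat.cast_nonneg _)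
          linarith
        calc 6 * (A * s) * (n * (1 / ‖z‖) + H / r + lam / 4 * ‖z‖)
            = 6 * A * (s * (n * (1 / ‖z‖) + H / r + lam / 4 * ‖z‖)) := by ring
          _ ≤ 6 * A * (n + H) := mul_le_mul_of_nonneg_left h14 (by positivity)
      refine h6.trans ?_
      have h16 := hE0 z
      calc ((5 + 6 * K) * A + 6 * (A * s) * (n * (1 / ‖z‖) + H / r + lam / 4 * ‖z‖)) * E z
          ≤ ((5 + 6 * K) * A + 6 * A * (n + H)) * E z :=
            mul_le_mul_of_nonneg_right (by linarith) h16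
        _ ≤ _ := mul_le_mul_of_nonneg_left h7 (by positivity)
    have hvt : volume (closedBall (0 : ℂ) (3 / 2 * s) \ ball 0 s) < ⊤ :=
      (measure_mono sdiff_subset).trans_lt (isCompact_closedBall _ _).measure_lt_top
    have h6 := norm_setIntegral_le_of_norm_le_const hvt h5
    have h7 : volume.real (closedBall (0 : ℂ) (3 / 2 * s) \ ball 0 s) ≤ 9 * s ^ 2 := by
      have h8 : volume.real (closedBall (0 : ℂ) (3 / 2 * s) \ ball 0 s) ≤
          volume.real (closedBall (0 : ℂ) (3 / 2 * s)) :=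
        measureReal_mono sdiff_subset (isCompact_closedBall _ _).measure_lt_top.ne
      have h9 : volume.real (closedBall (0 : ℂ) (3 / 2 * s)) = (3 / 2 * s) ^ 2 * π := by
        rw [Measure.real, Complex.volume_closedBall, ENNReal.toReal_mul, ENNReal.toReal_pow,
          ENNReal.toReal_ofReal (by positivity)]
        rfl
      have h10 := Real.pi_le_four
      have h11 : (3 / 2 * s) ^ 2 * π ≤ (3 / 2 * s) ^ 2 * 4 :=
        mul_le_mul_of_nonneg_left h10 (by positivity)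
      rw [h9] at h8
      nlinarith
    refine h6.trans ?_
    calc ((5 + 6 * K) * A + 6 * A * (n + H)) * η *
          volume.real (closedBall (0 : ℂ) (3 / 2 * s) \ ball 0 s)
        ≤ ((5 + 6 * K) * A + 6 * A * (n + H)) * η * (9 * s ^ 2) :=
          mul_le_mul_of_nonneg_left h7 (by positivity)
      _ = 9 * (5 + 6 * K + 6 * (n + H)) * (A * η * s ^ 2) := by ring
      _ ≤ 54 * (1 + K) * (1 + n + H) * (A * η * s ^ 2) := by
          refine mul_le_mul_of_nonneg_right ?_ (by positivity)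
          have hn : (0 : ℝ) ≤ n := Nat.cast_nonneg _
          have h20 : 0 ≤ K * (n + H) := by positivity
          nlinarith
      _ = _ := by ring
  -- the double integral
  have e4 := RIp_double h3 hs hsr hE hE0 hη hL hP
  rw [RIp_sq hE b c s hψ1] at e4
  set D2 : ℂ := ∑ i ∈ Finset.range 6, c i * ∑ k ∈ Finset.range i,
      mo s E (fun z => (z - b) ^ k) * mo s E (fun z => (z - b) ^ (i - 1 - k)) with hD2
  set D1 : ℂ := ∫ z in ball (0 : ℂ) r, ∫ y in ball (0 : ℂ) r,
      (ψ z - ψ y) / (z - y) * (E z : ℂ) * (E y : ℂ) with hD1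
  have e5 : ∫ z in ball (0 : ℂ) r, G z = 1 / (8 * π) * D1 := hid
  rw [e2] at e1
  set X : ℂ := mo s E (fun z => (∑ i ∈ Finset.range 6, c i * i * (z - b) ^ (i - 1)) +
        (∑ i ∈ Finset.range 6, c i * (z - b) ^ i) * (n / z + deriv h z - lam / 4 * conj z))
    with hX
  have e6 : X - 1 / (8 * π) * D2 = 1 / (8 * π) * (D1 - D2) -
      ∫ z in ball (0 : ℂ) r \ ball 0 s, G z := by
    linear_combination e1 + e5
  rw [e6]
  refine (norm_sub_le _ _).trans ?_
  have e7 : ‖(1 / (8 * π) * (D1 - D2) : ℂ)‖ ≤ 18 * (M0 * T) * A * η * s ^ 2 := by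
    have h4 : ‖(1 / (8 * π) : ℂ)‖ = 1 / (8 * π) := by
      have : (1 / (8 * π) : ℂ) = ((1 / (8 * π) : ℝ) : ℂ) := by push_cast; ring
      rw [this, Complex.norm_real, Real.norm_eq_abs, abs_of_nonneg (by positivity)]
    rw [norm_mul, h4]
    have h5 : 2 * (2 * (6 * (A * s)) * η * (6 * π * r)) * ms r E ≤
        2 * (2 * (6 * (A * s)) * η * (6 * π * (T * s))) * M0 := by
      have hTs : 0 ≤ T * s := by positivity
      gcongr
    calc 1 / (8 * π) * ‖D1 - D2‖
        ≤ 1 / (8 * π) * (2 * (2 * (6 * (A * s)) * η * (6 * π * (T * s))) * M0) :=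
          mul_le_mul_of_nonneg_left (e4.trans h5) (by positivity)
      _ = 18 * (M0 * T) * A * η * s ^ 2 := by
          field_simp
          ring
  have hn : (0 : ℝ) ≤ n := Nat.cast_nonneg _
  have e8 : 18 * (M0 * T) * A * η * s ^ 2 ≤ 54 * (1 + K) * (M0 * T) * A * η * s ^ 2 := by
    have : 18 * (M0 * T) * (A * η * s ^ 2) ≤ 54 * (1 + K) * (M0 * T) * (A * η * s ^ 2) := by
      refine mul_le_mul_of_nonneg_right ?_ (by positivity)
      have h20 : 0 ≤ M0 * T := by positivity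
      have h21 : 0 ≤ K * (M0 * T) := by positivity
      nlinarith
    linarith
  calc ‖(1 / (8 * π) * (D1 - D2) : ℂ)‖ + ‖∫ z in ball (0 : ℂ) r \ ball 0 s, G z‖
      ≤ 54 * (1 + K) * (M0 * T) * A * η * s ^ 2 +
        54 * (1 + K) * (1 + n + H) * A * η * s ^ 2 := add_le_add (e7.trans e8) e3
    _ = 54 * (1 + K) * (1 + n + H + M0 * T) * A * η * s ^ 2 := by ring

end Pool.Agent.Vx

end

section

set_option autoImplicit false

open Complex Set Filter Topology MeasureTheory Metric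
open scoped Real ContDiff ComplexConjugate

namespace Pool.Agent.Vx

/-- integrability of `log |z - y| E(y)` on a ball -/
theorem Rec0_int (h2 : S_LogI) (E : ℂ → ℝ) (hE : Continuous E) (r : ℝ) (hr : 0 < r) (z : ℂ) :
    IntegrableOn (fun y => Real.log ‖z - y‖ * E y) (ball (0 : ℂ) r) := by
  have h3 : IntegrableOn (fun y => Real.log ‖z - y‖) (closedBall (0 : ℂ) r) :=
    ((h2 0 z (r + 1) (by linarith)).1).mono_set
      (closedBall_subset_ball (by linarith))
  exact (h3.mul_continuousOn hE.continuousOn (isCompact_closedBall 0 r)).mono_set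
    ball_subset_closedBall

/-- splitting of the potential -/
theorem Rec0_split (h2 : S_LogI) (E : ℂ → ℝ) (hE : Continuous E) (r ρ : ℝ) (hr : 0 < r)
    (hρ : ρ ≤ r) (z : ℂ) :
    (∫ y in ball (0 : ℂ) r, Real.log ‖z - y‖ * E y) =
      (∫ y in ball (0 : ℂ) ρ, Real.log ‖z - y‖ * E y) +
        ∫ y in ball (0 : ℂ) r \ ball 0 ρ, Real.log ‖z - y‖ * E y := by
  have h3 := integral_inter_add_diff (μ := volume) (s := ball (0 : ℂ) r) (t := ball (0 : ℂ) ρ)
    measurableSet_ball (Rec0_int h2 E hE r hr z)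
  rw [inter_eq_self_of_subset_right (ball_subset_ball hρ)] at h3
  exact h3.symm

/-- restriction of a local density to a smaller ball -/
theorem pr_Rec0 (h1 : S_Far) (h2 : S_LogI) : S_Rec0 := by
  intro r n lam h E ρ L hρ hρr
  obtain ⟨G, hG1, hG2, hG3⟩ := h1 0 ρ r (ball (0 : ℂ) r \ ball 0 ρ) E hρ L.cont
    (measurableSet_ball.diff measurableSet_ball) diff_subset disjoint_sdiff_left
  have hh : DifferentiableOn ℂ h (ball 0 ρ) := L.an.mono (ball_subset_ball hρr)
  refine ⟨fun z => h z + G z, ⟨hρ, L.lam0, hh.add hG1, L.cont, L.nonneg, fun z hz => ?_⟩, ?_,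
    fun w hw => ?_⟩
  · rw [L.rep z (ball_subset_ball hρr hz)]
    congr 2
    have h3 := hG2 z hz
    rw [zero_add] at h3
    have h4 : pot r E z = pot ρ E z + 2 * (G z).re := by
      rw [h3]
      unfold pot
      rw [Rec0_split h2 E L.cont r ρ L.rpos hρr z]
      ring
    rw [h4, Complex.add_re]
    ring
  · have h3 := hG2 0 (mem_ball_self hρ)
    have h5 : ∀ y : ℂ, ‖(0 : ℂ) + 0 - y‖ = ‖y‖ := fun y => by
      rw [add_zero, zero_sub, norm_neg]
    simp only [h5] at h3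
    rw [Complex.add_re, mul_add, h3]
    ring
  · have h3 := hG3 w hw
    have hd1 : DifferentiableAt ℂ h w := hh.differentiableAt (isOpen_ball.mem_nhds hw)
    have hd2 : DifferentiableAt ℂ G w := hG1.differentiableAt (isOpen_ball.mem_nhds hw)
    have h4 : deriv (fun z => h z + G z) w = deriv h w + deriv G w := deriv_fun_add hd1 hd2
    rw [h4, h3]
    simp only [zero_add]
    ring

end Pool.Agent.Vx

end

section

/-! MP_afe918_an, item Rec1: recentering a local density at a point different from 0. -/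

set_option autoImplicit false

open Complex Set Filter Topology MeasureTheory Metric
open scoped Real ContDiff ComplexConjugate

namespace Pool.Agent.Vx

theorem Rec1_int (h2 : S_LogI) (r : ℝ) (hr : 0 < r) (E : ℂ → ℝ) (hE : Continuous E) (z : ℂ) :
    IntegrableOn (fun y => Real.log ‖z - y‖ * E y) (ball 0 r) := by
  have h3 := (h2 0 z (r + 1) (by linarith)).1
  have h4 : IntegrableOn (fun y => Real.log ‖z - y‖) (closedBall (0 : ℂ) r) :=
    h3.mono_set (closedBall_subset_ball (by linarith))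
  exact (h4.mul_continuousOn hE.continuousOn (isCompact_closedBall _ _)).mono_set
    ball_subset_closedBall

theorem Rec1_tr (q : ℂ) (ρ : ℝ) (f : ℂ → ℝ) :
    ∫ y in ball q ρ, f y = ∫ y in ball (0 : ℂ) ρ, f (q + y) := by
  have h := (measurePreserving_add_left (volume : Measure ℂ) q).setIntegral_preimage_emb
    (measurableEmbedding_addLeft q) f (ball q ρ)
  rw [← h]
  congr 1
  congr 1
  ext y
  simp [mem_ball, dist_eq_norm]

theorem Rec1_dist (q w : ℂ) :
    ‖q + w‖ ^ 2 = ‖q‖ ^ 2 + 2 * (conj q * w).re + ‖w‖ ^ 2 := by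
  rw [← Complex.normSq_eq_norm_sq, ← Complex.normSq_eq_norm_sq, ← Complex.normSq_eq_norm_sq]
  simp only [Complex.normSq_apply, Complex.add_re, Complex.add_im, Complex.mul_re,
    Complex.conj_re, Complex.conj_im]
  ring

theorem pr_Rec1 (h1 : S_Far) (h2 : S_LogI) : S_Rec1 := by
  intro r n lam h E q ρ hL hρ hρq hqr
  have hq0 : 0 < ‖q‖ := lt_of_lt_of_le hρ hρq
  have hqne : q ≠ 0 := norm_pos_iff.mp hq0
  have hSm : MeasurableSet (ball (0 : ℂ) r \ ball q ρ) := measurableSet_ball.diff measurableSet_ball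
  obtain ⟨G, hGd, hGre, hGder⟩ := h1 q ρ r (ball (0 : ℂ) r \ ball q ρ) E hρ hL.cont hSm
    sdiff_subset disjoint_sdiff_left
  have hsub : ball q ρ ⊆ ball (0 : ℂ) r := by
    intro z hz
    rw [mem_ball, dist_zero_right]
    rw [mem_ball, dist_eq_norm] at hz
    calc ‖z‖ = ‖q + (z - q)‖ := by ring_nf
      _ ≤ ‖q‖ + ‖z - q‖ := norm_add_le _ _
      _ < ‖q‖ + ρ := by linarith
      _ ≤ r := hqr
  have hin : ∀ w ∈ ball (0 : ℂ) ρ, q + w ∈ ball (0 : ℂ) r := by
    intro w hw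
    apply hsub
    rw [mem_ball, dist_eq_norm]
    rw [mem_ball, dist_zero_right] at hw
    simpa using hw
  have hne : ∀ w ∈ ball (0 : ℂ) ρ, q + w ≠ 0 := by
    intro w hw h0
    rw [mem_ball, dist_zero_right] at hw
    have h3 : w = -q := by linear_combination h0
    rw [h3, norm_neg] at hw
    linarith
  have hslit : ∀ w ∈ ball (0 : ℂ) ρ, 1 + w / q ∈ Complex.slitPlane := by
    intro w hw
    rw [mem_ball, dist_zero_right] at hw
    left
    have h3 : ‖w / q‖ < 1 := by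
      rw [norm_div, div_lt_one hq0]; linarith
    have h4 := Complex.abs_re_le_norm (w / q)
    have h5 := (abs_lt.mp (lt_of_le_of_lt h4 h3)).1
    simp only [Complex.add_re, Complex.one_re]
    linarith
  let g : ℂ → ℂ := fun w => h (q + w) + n * (Complex.log q + Complex.log (1 + w / q)) -
    lam / 4 * (conj q * w + ((‖q‖ ^ 2 / 2 : ℝ) : ℂ)) + G w
  have hgd : ∀ w ∈ ball (0 : ℂ) ρ, HasDerivAt g (deriv h (q + w) + n / (q + w) -
      lam / 4 * conj q + deriv G w) w := by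
    intro w hw
    have e1 : HasDerivAt (fun w => h (q + w)) (deriv h (q + w)) w := by
      have e2 : HasDerivAt h (deriv h (q + w)) (q + w) :=
        (hL.an.differentiableAt (isOpen_ball.mem_nhds (hin w hw))).hasDerivAt
      exact e2.comp_const_add q w
    have e3 : HasDerivAt (fun w : ℂ => Complex.log (1 + w / q)) (1 / (q + w)) w := by
      have e4 : HasDerivAt (fun w : ℂ => 1 + w / q) (1 / q) w := by
        simpa using ((hasDerivAt_id w).div_const q).const_add 1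
      have e5 := e4.clog (hslit w hw)
      convert e5 using 1
      have := hne w hw
      field_simp
    have e6 : HasDerivAt (fun w : ℂ => (n : ℂ) * (Complex.log q + Complex.log (1 + w / q)))
        (n / (q + w)) w := by
      have := (e3.const_add (Complex.log q)).const_mul (n : ℂ)
      rwa [mul_one_div] at this
    have e7 : HasDerivAt (fun w : ℂ => (lam : ℂ) / 4 * (conj q * w + ((‖q‖ ^ 2 / 2 : ℝ) : ℂ)))
        (lam / 4 * conj q) w := by
      have := (((hasDerivAt_id w).const_mul (conj q)).add_const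
        ((‖q‖ ^ 2 / 2 : ℝ) : ℂ)).const_mul ((lam : ℂ) / 4)
      simpa using this
    have e8 : HasDerivAt G (deriv G w) w :=
      (hGd.differentiableAt (isOpen_ball.mem_nhds hw)).hasDerivAt
    exact ((e1.add e6).sub e7).add e8
  have hlog : ∀ w ∈ ball (0 : ℂ) ρ,
      (Complex.log q + Complex.log (1 + w / q)).re = Real.log ‖q + w‖ := by
    intro w hw
    rw [Complex.add_re, Complex.log_re, Complex.log_re, ← Real.log_mul hq0.ne', ← norm_mul]
    · congr 2
      field_simp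
    · rw [norm_ne_zero_iff]
      exact Complex.slitPlane_ne_zero (hslit w hw)
  have hgre : ∀ w ∈ ball (0 : ℂ) ρ, 2 * (g w).re = 2 * (h (q + w)).re +
      2 * n * Real.log ‖q + w‖ - lam / 4 * (2 * (conj q * w).re + ‖q‖ ^ 2) + 2 * (G w).re := by
    intro w hw
    have e1 : (g w).re = (h (q + w)).re + n * (Complex.log q + Complex.log (1 + w / q)).re -
        lam / 4 * ((conj q * w).re + ‖q‖ ^ 2 / 2) + (G w).re := by
      have e2 : (lam : ℂ) / 4 = ((lam / 4 : ℝ) : ℂ) := by push_cast; rfl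
      show (h (q + w) + n * (Complex.log q + Complex.log (1 + w / q)) -
        lam / 4 * (conj q * w + ((‖q‖ ^ 2 / 2 : ℝ) : ℂ)) + G w).re = _
      rw [e2, Complex.add_re, Complex.sub_re, Complex.add_re, Complex.re_ofReal_mul,
        ← Complex.ofReal_natCast, Complex.re_ofReal_mul, Complex.add_re (conj q * w),
        Complex.ofReal_re]
    rw [e1, hlog w hw]
    ring
  have h0m : (0 : ℂ) ∈ ball (0 : ℂ) ρ := mem_ball_self hρ
  refine ⟨g, ⟨hρ, hL.lam0, fun w hw => (hgd w hw).differentiableAt.differentiableWithinAt,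
    hL.cont.comp (continuous_const.add continuous_id), fun z => hL.nonneg _, ?_⟩, ?_, ?_⟩
  · intro w hw
    show E (q + w) = _
    rw [hL.rep (q + w) (hin w hw), hgre w hw, Rec1_dist]
    have hsplit : pot r E (q + w) = 2 * (G w).re + pot ρ (fun w => E (q + w)) w := by
      have e1 : ∫ y in ball (0 : ℂ) r, Real.log ‖q + w - y‖ * E y =
          (∫ y in ball (0 : ℂ) r \ ball q ρ, Real.log ‖q + w - y‖ * E y) +
            ∫ y in ball q ρ, Real.log ‖q + w - y‖ * E y := by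
        have hi := Rec1_int h2 r hL.rpos E hL.cont (q + w)
        rw [← setIntegral_union disjoint_sdiff_left measurableSet_ball
          (hi.mono_set sdiff_subset) (hi.mono_set hsub), sdiff_union_of_subset hsub]
      have e2 := Rec1_tr q ρ (fun y => Real.log ‖q + w - y‖ * E y)
      have e3 : ∀ y, q + w - (q + y) = w - y := fun y => by ring
      simp only [e3] at e2
      unfold pot
      rw [e1, hGre w hw, e2]
      ring
    rw [hsplit]
    have hpos : 0 < ‖q + w‖ := norm_pos_iff.mpr (hne w hw)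
    have e4 : ‖q + w‖ ^ (2 * n) = Real.exp (2 * n * Real.log ‖q + w‖) := by
      rw [show (2 * (n : ℝ)) = ((2 * n : ℕ) : ℝ) by push_cast; ring, ← Real.log_pow,
        Real.exp_log (pow_pos hpos _)]
    rw [e4, ← Real.exp_add]
    simp only [mul_zero, pow_zero, one_mul]
    congr 1
    ring
  · have e1 := hgre 0 h0m
    have e2 := hGre 0 h0m
    simp only [add_zero, mul_zero, Complex.zero_re, zero_add] at e1 e2
    rw [e1, e2]
    ring
  · intro w hw
    rw [(hgd w hw).deriv, hGder w hw]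
    ring

end Pool.Agent.Vx

end

section

/-!
# MP_afe918_an, item Riesz: the integral of `1 / |z - y|` over a disc
-/

set_option autoImplicit false

open Complex Set Filter Topology MeasureTheory Metric
open scoped Real ContDiff ComplexConjugate

namespace Pool.Agent.Vx

/-- the truncated kernel -/
noncomputable def Riesz_f (R : ℝ) : ℝ → ℝ := (Iio R).indicator fun t => 1 / t

theorem Riesz_f_nonneg (R : ℝ) (w : ℂ) : 0 ≤ Riesz_f R ‖w‖ := by
  unfold Riesz_f
  refine Set.indicator_apply_nonneg fun _ => ?_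
  positivity

theorem Riesz_f_eq {R t : ℝ} (h : t < R) : Riesz_f R t = 1 / t :=
  Set.indicator_of_mem (show t ∈ Iio R from h) _

theorem Riesz_aux (R : ℝ) : ∀ y ∈ Ioi (0 : ℝ),
    y ^ (Module.finrank ℝ ℂ - 1) • Riesz_f R y = (Ioo 0 R).indicator (fun _ => (1 : ℝ)) y := by
  intro y hy
  have hy0 : (0 : ℝ) < y := hy
  have h2 : Module.finrank ℝ ℂ - 1 = 1 := by rw [Complex.finrank_real_complex]
  rw [h2, pow_one, smul_eq_mul]
  by_cases hyR : y < R
  · rw [Riesz_f_eq hyR, Set.indicator_of_mem (show y ∈ Ioo 0 R from ⟨hy0, hyR⟩)]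
    field_simp
  · rw [Riesz_f, Set.indicator_of_notMem (show y ∉ Iio R from hyR),
      Set.indicator_of_notMem (show y ∉ Ioo 0 R from fun h => hyR h.2), mul_zero]

theorem Riesz_int0 (R : ℝ) : Integrable (fun w : ℂ => Riesz_f R ‖w‖) := by
  rw [integrable_fun_norm_addHaar (volume : Measure ℂ) (f := Riesz_f R)]
  rw [integrableOn_congr_fun (Riesz_aux R) measurableSet_Ioi]
  have h1 : Integrable ((Ioo 0 R).indicator (fun _ => (1 : ℝ))) := by
    rw [integrable_indicator_iff measurableSet_Ioo]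
    exact integrableOn_const (by simp)
  exact h1.integrableOn

theorem Riesz_val0 {R : ℝ} (hR : 0 < R) : ∫ w : ℂ, Riesz_f R ‖w‖ = 2 * π * R := by
  rw [integral_fun_norm_addHaar (volume : Measure ℂ) (Riesz_f R),
    setIntegral_congr_fun measurableSet_Ioi (Riesz_aux R)]
  have h1 : ∫ y in Ioi (0 : ℝ), (Ioo 0 R).indicator (fun _ => (1 : ℝ)) y = R := by
    rw [setIntegral_indicator measurableSet_Ioo]
    have h2 : Ioi (0 : ℝ) ∩ Ioo 0 R = Ioo 0 R :=
      Set.inter_eq_right.mpr fun y hy => hy.1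
    rw [h2, setIntegral_const, smul_eq_mul, mul_one, measureReal_def, Real.volume_Ioo, sub_zero,
      ENNReal.toReal_ofReal hR.le]
  have h3 : (volume : Measure ℂ).real (ball 0 1) = π := by
    rw [measureReal_def, Complex.volume_ball]
    simp
  rw [h1, h3, Complex.finrank_real_complex]
  simp only [nsmul_eq_mul, smul_eq_mul]
  push_cast
  ring

theorem Riesz_int (R : ℝ) (z : ℂ) : Integrable (fun y : ℂ => Riesz_f R ‖z - y‖) :=
  (Riesz_int0 R).comp_sub_left z

theorem Riesz_val {R : ℝ} (hR : 0 < R) (z : ℂ) : ∫ y : ℂ, Riesz_f R ‖z - y‖ = 2 * π * R := by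
  rw [← Riesz_val0 hR]
  exact integral_sub_left_eq_self (fun w : ℂ => Riesz_f R ‖w‖) volume z

theorem pr_Riesz : S_Riesz := by
  intro c z r hr
  by_cases hz : ‖z - c‖ < 2 * r
  · have hsub : ∀ y ∈ ball c r, Riesz_f (3 * r) ‖z - y‖ = 1 / ‖z - y‖ := by
      intro y hy
      apply Riesz_f_eq
      have h1 : ‖z - y‖ ≤ ‖z - c‖ + ‖c - y‖ := by
        have := norm_add_le (z - c) (c - y)
        rwa [sub_add_sub_cancel] at this
      have h2 : ‖c - y‖ < r := by
        rw [← dist_eq_norm, dist_comm]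
        exact hy
      linarith
    have hI : IntegrableOn (fun y => Riesz_f (3 * r) ‖z - y‖) (ball c r) :=
      (Riesz_int (3 * r) z).integrableOn
    refine ⟨(integrableOn_congr_fun hsub measurableSet_ball).mp hI, ?_⟩
    rw [← setIntegral_congr_fun measurableSet_ball hsub]
    calc ∫ y in ball c r, Riesz_f (3 * r) ‖z - y‖ ≤ ∫ y, Riesz_f (3 * r) ‖z - y‖ :=
          setIntegral_le_integral (Riesz_int (3 * r) z)
            (Filter.Eventually.of_forall fun y => Riesz_f_nonneg _ _)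
      _ = 6 * π * r := by
          rw [Riesz_val (by linarith) z]
          ring
  · push Not at hz
    have hbd : ∀ y ∈ ball c r, 1 / ‖z - y‖ ≤ 1 / r := by
      intro y hy
      have h1 : ‖z - c‖ ≤ ‖z - y‖ + ‖y - c‖ := by
        have := norm_add_le (z - y) (y - c)
        rwa [sub_add_sub_cancel] at this
      have h2 : ‖y - c‖ < r := by
        rw [← dist_eq_norm]
        exact hy
      exact one_div_le_one_div_of_le hr (by linarith)
    have hfin : volume (ball c r) ≠ ⊤ := measure_ball_lt_top.ne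
    have hI : IntegrableOn (fun y => 1 / ‖z - y‖) (ball c r) := by
      have hm : Measurable fun y : ℂ => 1 / ‖z - y‖ := by fun_prop
      refine Measure.integrableOn_of_bounded (M := 1 / r) hfin hm.aestronglyMeasurable ?_
      refine (ae_restrict_iff' measurableSet_ball).mpr (Filter.Eventually.of_forall fun y hy => ?_)
      rw [Real.norm_of_nonneg (by positivity)]
      exact hbd y hy
    refine ⟨hI, ?_⟩
    calc ∫ y in ball c r, 1 / ‖z - y‖ ≤ ∫ _y in ball c r, 1 / r :=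
          setIntegral_mono_on hI (integrableOn_const hfin) measurableSet_ball hbd
      _ = π * r := by
          rw [setIntegral_const, measureReal_def, Complex.volume_ball, smul_eq_mul]
          simp only [ENNReal.toReal_mul, ENNReal.toReal_pow, ENNReal.toReal_ofReal hr.le,
            ENNReal.coe_toReal, NNReal.coe_real_pi]
          field_simp
      _ ≤ 6 * π * r := by
          have := mul_pos Real.pi_pos hr
          linarith

end Pool.Agent.Vx

end

section

/-! Item Rot (L6): rotation of local densities (helper50). -/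

set_option autoImplicit false

open Complex Set Filter Topology MeasureTheory Metric
open scoped Real ContDiff ComplexConjugate

namespace Pool.Agent.Vx

theorem Rot_int {F : Type*} [NormedAddCommGroup F] [NormedSpace ℝ F] {u : ℂ} (hu : ‖u‖ = 1)
    (s : ℝ) (g : ℂ → F) :
    ∫ z in ball (0 : ℂ) s, g (u * z) = ∫ z in ball (0 : ℂ) s, g z := by
  let c : Circle := ⟨u, mem_sphere_zero_iff_norm.2 hu⟩
  have hc : ∀ z, rotation c z = u * z := fun z => rotation_apply c z
  have h1 : MeasurePreserving (rotation c : ℂ → ℂ) := (rotation c).measurePreserving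
  have h2 : MeasurableEmbedding (rotation c : ℂ → ℂ) :=
    (rotation c).toHomeomorph.measurableEmbedding
  have h3 := h1.setIntegral_preimage_emb h2 g (ball (0 : ℂ) s)
  have h4 : (rotation c : ℂ → ℂ) ⁻¹' ball (0 : ℂ) s = ball (0 : ℂ) s := by
    ext z
    simp only [mem_preimage, mem_ball_zero_iff, hc, norm_mul, hu, one_mul]
  rw [h4] at h3
  exact h3

theorem Rot_conj {u : ℂ} (hu : ‖u‖ = 1) : conj u * u = 1 := by
  rw [mul_comm, Complex.mul_conj, Complex.normSq_eq_norm_sq, hu]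
  norm_num

theorem Rot_pot {u : ℂ} (hu : ‖u‖ = 1) (r : ℝ) (E : ℂ → ℝ) (z : ℂ) :
    pot r (fun z => E (u * z)) z = pot r E (u * z) := by
  unfold pot
  congr 1
  rw [← Rot_int hu r (fun y => Real.log ‖u * z - y‖ * E y)]
  refine setIntegral_congr_fun measurableSet_ball fun y _ => ?_
  show Real.log ‖z - y‖ * E (u * y) = Real.log ‖u * z - u * y‖ * E (u * y)
  rw [← mul_sub, norm_mul, hu, one_mul]

theorem pr_Rot : S_Rot := by
  intro r n lam h E u hL hu
  refine ⟨⟨hL.rpos, hL.lam0, ?_, ?_, fun z => hL.nonneg _, fun z hz => ?_⟩, fun s => ?_,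
    fun s f => ?_⟩
  · refine hL.an.comp (Differentiable.differentiableOn (by fun_prop)) fun z hz => ?_
    simp only [mem_ball_zero_iff, norm_mul, hu, one_mul] at hz ⊢
    exact hz
  · exact hL.cont.comp (continuous_const.mul continuous_id)
  · have hz' : u * z ∈ ball (0 : ℂ) r := by
      simp only [mem_ball_zero_iff, norm_mul, hu, one_mul] at hz ⊢
      exact hz
    have h1 := hL.rep (u * z) hz'
    rw [Rot_pot hu, h1, norm_mul, hu, one_mul]
  · exact Rot_int hu s E
  · unfold mo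
    rw [← Rot_int hu s (fun z => f (conj u * z) * (E z : ℂ))]
    refine setIntegral_congr_fun measurableSet_ball fun y _ => ?_
    show f y * (E (u * y) : ℂ) = f (conj u * (u * y)) * (E (u * y) : ℂ)
    rw [← mul_assoc, Rot_conj hu, one_mul]

end Pool.Agent.Vx

end

section

/-!
# MP_afe918_an, block G: statements on the torus (Part B, captain helper5)
-/

set_option autoImplicit false

open Complex Set Filter Topology MeasureTheory Metric
open scoped Real ContDiff ComplexConjugate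

namespace Pool.Agent.Vx

/-! ### Periodic functions, the Green function -/

/-- G1: integrals of periodic functions over period rectangles. -/
def S_Ti : Prop := ∀ (a b : ℝ) (f : ℂ → ℝ), 0 < a → 0 < b → Per a b f → ∀ q : ℂ,
  (IntegrableOn f (rect a b q) ↔ IntegrableOn f (rect a b 0)) ∧
  ∫ z in rect a b q, f z = ti a b f ∧ ∫ z in cell a b, f z = ti a b f

/-- G2: elementary facts on `Sf`. -/
def S_GSf : Prop := ∀ (a b : ℝ) (F : ℂ → ℂ), IsTheta a b F →
  Continuous (Sf a b F) ∧ (∀ z, 0 ≤ Sf a b F z) ∧ (∀ z, Sf a b F z = 0 ↔ Lat a b z) ∧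
  ∃ C, ∀ z, Sf a b F z ≤ C

/-- G3: the local expansion of the Green function. -/
def S_GPhi : Prop := ∀ (a b : ℝ) (F : ℂ → ℂ), IsTheta a b F → ∃ φ : ℂ → ℂ,
  DifferentiableOn ℂ φ {z | |z.re| < a ∧ |z.im| < b} ∧
  ∀ z : ℂ, |z.re| < a → |z.im| < b → z ≠ 0 →
    Gr a b F z = -(1 / (2 * π)) * Real.log ‖z‖ + (φ z).re + ‖z‖ ^ 2 / (4 * a * b)

/-- G4: elementary facts on the Green function. -/
def S_GGr : Prop := ∀ (a b : ℝ) (F : ℂ → ℂ), IsTheta a b F →
  Per a b (Gr a b F) ∧ (∀ z, Gr a b F (-z) = Gr a b F z) ∧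
  (∀ z, ¬ Lat a b z → ContinuousAt (Gr a b F) z) ∧ (∃ C, ∀ z, -C ≤ Gr a b F z) ∧
  ∀ T : ℝ, IntegrableOn (Gr a b F) (ball 0 T)

/-- G5: translations of the Green function are continuous in `L¹`. -/
def S_GTr : Prop := ∀ (a b : ℝ) (F : ℂ → ℂ), IsTheta a b F → ∀ ε, 0 < ε → ∃ δ, 0 < δ ∧
  ∀ x x' : ℂ, ‖x - x'‖ < δ →
    IntegrableOn (fun y => |Gr a b F (x - y) - Gr a b F (x' - y)|) (rect a b 0) ∧
    ti a b (fun y => |Gr a b F (x - y) - Gr a b F (x' - y)|) ≤ ε

/-- G6: the weight. -/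
def S_GHw : Prop := ∀ (a b : ℝ) (F : ℂ → ℂ) (m : ℕ) (p : Fin m → ℂ) (n : Fin m → ℕ),
  IsTheta a b F → Dist a b p →
  (Continuous (hw a b F p n) ∧ Per a b (hw a b F p n) ∧ (∀ z, 0 ≤ hw a b F p n z) ∧
    (∃ C, ∀ z, hw a b F p n z ≤ C) ∧ (∀ z, (∀ l, ¬ Lat a b (z - p l)) → 0 < hw a b F p n z)) ∧
  ∀ q : ℂ, ∃ r0 : ℝ, 0 < r0 ∧ ∃ g : ℂ → ℂ, DifferentiableOn ℂ g (ball 0 r0) ∧
    ∀ z ∈ ball (0 : ℂ) r0, hw a b F p n (q + z) =
      ‖z‖ ^ (2 * nq a b p n q) * Real.exp (2 * (g z).re - π * Nv n / (a * b) * ‖z‖ ^ 2)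

/-! ### Solutions -/

/-- G7: local representation of a solution. -/
def S_LocRep : Prop := ∀ (a b : ℝ) (F : ℂ → ℂ) (m : ℕ) (p : Fin m → ℂ) (n : Fin m → ℕ),
  IsTheta a b F → Dist a b p → ∀ q : ℂ, ∃ r0 : ℝ, 0 < r0 ∧ ∀ r, 0 < r → r ≤ r0 → ∃ C : ℝ,
  ∀ (ρ : ℝ) (v : ℂ → ℝ) (c : ℝ), 0 ≤ ρ → ρ ≤ 4 * π * Nv n → IntSol a b F p n ρ v c →
  ∃ h : ℂ → ℂ, Loc r (nq a b p n q) ((4 * π * Nv n - ρ) / (a * b)) h
      (fun z => dE a b F p n v (q + z)) ∧
    |2 * (h 0).re - c| ≤ C ∧ (∀ z ∈ ball (0 : ℂ) (r / 2), ‖deriv h z‖ ≤ C) ∧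
    (∀ z ∈ ball (0 : ℂ) (r / 2),
      |v (q + z) - c - pot r (fun z => dE a b F p n v (q + z)) z| ≤ C) ∧
    ∀ K : ℝ, 0 ≤ K → (∀ y, r ≤ ‖y - q‖ → ‖y - q‖ ≤ 2 * r → dE a b F p n v y ≤ K) →
      ∀ z ∈ ball (0 : ℂ) r, ‖deriv h z‖ ≤ C * (1 + K)

/-- G8: upper bound for the constants. -/
def S_cUp : Prop := ∀ (a b : ℝ) (F : ℂ → ℂ) (m : ℕ) (p : Fin m → ℂ) (n : Fin m → ℕ),
  IsTheta a b F → Dist a b p → ∃ C : ℝ, ∀ (ρ : ℝ) (v : ℂ → ℝ) (c : ℝ), 0 ≤ ρ →
  ρ ≤ 4 * π * Nv n → IntSol a b F p n ρ v c → c ≤ C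

/-- G9: concentration set on the torus. -/
def S_TExt : Prop := ∀ (a b M0 : ℝ) (E : ℕ → ℂ → ℝ), 0 < a → 0 < b → (∀ j, Continuous (E j)) →
  (∀ j z, 0 ≤ E j z) → (∀ j, Per a b (E j)) → (∀ j, ti a b (E j) ≤ M0) →
  ∃ (φ : ℕ → ℕ) (Q : Finset ℂ), StrictMono φ ∧
    (∀ q ∈ Q, ∀ s : ℝ, 0 < s → ∀ᶠ j in atTop, 1 ≤ ∫ z in ball q s, E (φ j) z) ∧
    (∀ x, (∀ q ∈ Q, ¬ Lat a b (x - q)) →
      ∃ s : ℝ, 0 < s ∧ ∀ᶠ j in atTop, ∫ z in ball x s, E (φ j) z ≤ 1) ∧
    ∀ q ∈ Q, ∀ q' ∈ Q, q ≠ q' → ¬ Lat a b (q - q')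

/-- A sequence of solutions. -/
structure Sq {m : ℕ} (a b : ℝ) (F : ℂ → ℂ) (p : Fin m → ℂ) (n : Fin m → ℕ)
    (ρ : ℕ → ℝ) (v : ℕ → ℂ → ℝ) (c : ℕ → ℝ) : Prop where
  th : IsTheta a b F
  dist : Dist a b p
  pos : ∀ j, 0 ≤ ρ j
  le : ∀ j, ρ j ≤ 4 * π * Nv n
  sol : ∀ j, IntSol a b F p n (ρ j) (v j) (c j)

/-- The points outside `Q` (mod the lattice) are points of small mass. -/
def Good {m : ℕ} (a b : ℝ) (F : ℂ → ℂ) (p : Fin m → ℂ) (n : Fin m → ℕ) (v : ℕ → ℂ → ℝ)
    (Q : Finset ℂ) : Prop :=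
  ∀ x, (∀ q ∈ Q, ¬ Lat a b (x - q)) →
    ∃ s : ℝ, 0 < s ∧ ∀ᶠ j in atTop, ∫ z in ball x s, dE a b F p n (v j) z ≤ 1

/-- G10: bounds near a point of small mass. -/
def S_Off : Prop := ∀ (a b : ℝ) (F : ℂ → ℂ) (m : ℕ) (p : Fin m → ℂ) (n : Fin m → ℕ)
  (ρ : ℕ → ℝ) (v : ℕ → ℂ → ℝ) (c : ℕ → ℝ), Sq a b F p n ρ v c → ∀ (x : ℂ) (s : ℝ), 0 < s →
  (∀ᶠ j in atTop, ∫ z in ball x s, dE a b F p n (v j) z ≤ 1) →
  ∃ s' : ℝ, 0 < s' ∧ ∃ C : ℝ, ∀ᶠ j in atTop, ∀ z ∈ ball x s', |v j z - c j| ≤ C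

/-- G11: bounds away from the concentration set. -/
def S_OffK : Prop := ∀ (a b : ℝ) (F : ℂ → ℂ) (m : ℕ) (p : Fin m → ℂ) (n : Fin m → ℕ)
  (ρ : ℕ → ℝ) (v : ℕ → ℂ → ℝ) (c : ℕ → ℝ) (Q : Finset ℂ), Sq a b F p n ρ v c →
  Good a b F p n v Q → ∀ s, 0 < s → ∃ C : ℝ, ∀ᶠ j in atTop, ∀ z,
    (∀ q ∈ Q, ∀ t, Lat a b t → s ≤ ‖z - q - t‖) → |v j z - c j| ≤ C

/-- G12: compactness when there is no concentration. -/
def S_Case1 : Prop := ∀ (a b : ℝ) (F : ℂ → ℂ) (m : ℕ) (p : Fin m → ℂ) (n : Fin m → ℕ)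
  (ρ : ℕ → ℝ) (v : ℕ → ℂ → ℝ) (c : ℕ → ℝ) (ρ0 : ℝ), Sq a b F p n ρ v c → 0 < ρ0 →
  Tendsto ρ atTop (𝓝 ρ0) → (∃ C : ℝ, ∀ᶠ j in atTop, ∀ z, |v j z - c j| ≤ C) →
  ∃ (v0 : ℂ → ℝ) (c0 : ℝ), IntSol a b F p n ρ0 v0 c0

/-- G13: lower bound for the mass at a concentration point. -/
def S_Conc : Prop := ∀ (a b : ℝ) (F : ℂ → ℂ) (m : ℕ) (p : Fin m → ℂ) (n : Fin m → ℕ)
  (ρ : ℕ → ℝ) (v : ℕ → ℂ → ℝ) (c : ℕ → ℝ) (q : ℂ), Sq a b F p n ρ v c →
  (∀ s : ℝ, 0 < s → ∀ᶠ j in atTop, 1 ≤ ∫ z in ball q s, dE a b F p n (v j) z) →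
  ∀ s : ℝ, 0 < s → ∀ ε : ℝ, 0 < ε → ∀ᶠ j in atTop,
    8 * π * (1 + nq a b p n q) - ε ≤ ∫ z in ball q s, dE a b F p n (v j) z

/-- G14: the constants tend to `-∞` when there is concentration. -/
def S_cDown : Prop := ∀ (a b : ℝ) (F : ℂ → ℂ) (m : ℕ) (p : Fin m → ℂ) (n : Fin m → ℕ)
  (ρ : ℕ → ℝ) (v : ℕ → ℂ → ℝ) (c : ℕ → ℝ) (q : ℂ), Sq a b F p n ρ v c →
  (∀ s : ℝ, 0 < s → ∀ ε : ℝ, 0 < ε → ∀ᶠ j in atTop,
    8 * π * (1 + nq a b p n q) - ε ≤ ∫ z in ball q s, dE a b F p n (v j) z) →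
  Tendsto c atTop atBot

/-- G15: blow-up sequences at the concentration points. -/
def S_BUq : Prop := ∀ (a b : ℝ) (F : ℂ → ℂ) (m : ℕ) (p : Fin m → ℂ) (n : Fin m → ℕ)
  (ρ : ℕ → ℝ) (v : ℕ → ℂ → ℝ) (c : ℕ → ℝ) (Q : Finset ℂ), Sq a b F p n ρ v c →
  Good a b F p n v Q → (∀ q ∈ Q, ∀ q' ∈ Q, q ≠ q' → ¬ Lat a b (q - q')) →
  (∀ q ∈ Q, ∀ s : ℝ, 0 < s → ∀ᶠ j in atTop, 1 ≤ ∫ z in ball q s, dE a b F p n (v j) z) →
  Tendsto c atTop atBot →
  ∀ q ∈ Q, ∃ r0 : ℝ, 0 < r0 ∧ ∀ r, 0 < r → r ≤ r0 →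
    ∃ (j0 : ℕ) (H Λ C : ℝ) (h : ℕ → ℂ → ℂ),
    BU r (nq a b p n q) H Λ (fun j => (4 * π * Nv n - ρ (j + j0)) / (a * b)) h
      (fun j z => dE a b F p n (v (j + j0)) (q + z)) ∧
    ∀ j, |2 * (h j 0).re - c (j + j0)| ≤ C

/-- G16: in case of concentration the masses approach their limit from below. -/
def S_Case2 : Prop := ∀ (a b : ℝ) (F : ℂ → ℂ) (m : ℕ) (p : Fin m → ℂ) (n : Fin m → ℕ)
  (ρ : ℕ → ℝ) (v : ℕ → ℂ → ℝ) (c : ℕ → ℝ) (Q : Finset ℂ) (ρ0 : ℝ), Sq a b F p n ρ v c →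
  Good a b F p n v Q → (∀ q ∈ Q, ∀ q' ∈ Q, q ≠ q' → ¬ Lat a b (q - q')) →
  (∀ q ∈ Q, ∀ s : ℝ, 0 < s → ∀ᶠ j in atTop, 1 ≤ ∫ z in ball q s, dE a b F p n (v j) z) →
  Q.Nonempty → Tendsto ρ atTop (𝓝 ρ0) → 0 < ρ0 → ρ0 < 4 * π * Nv n →
  ∀ᶠ j in atTop, ρ j < ρ0

/-- G17: PART B: the set of `ρ` with a solution is closed from above. -/
def S_Closed : Prop := ∀ (a b : ℝ) (F : ℂ → ℂ) (m : ℕ) (p : Fin m → ℂ) (n : Fin m → ℕ) (ρ0 : ℝ),
  IsTheta a b F → Dist a b p → 0 < ρ0 → ρ0 < 4 * π * Nv n →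
  (∀ ε : ℝ, 0 < ε → ∃ ρ : ℝ, ρ0 ≤ ρ ∧ ρ < ρ0 + ε ∧
    ∃ (v : ℂ → ℝ) (c : ℝ), IntSol a b F p n ρ v c) →
  ∃ (v : ℂ → ℝ) (c : ℝ), IntSol a b F p n ρ0 v c

end Pool.Agent.Vx

end
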