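import Pool.Agent.Work.MP_afe918_an.Bd.B01
import Pool.Agent.Work.MP_476501_co.Brouwer

/-! Bundle of small proof modules (one section per former module). -/

section

/-!
# MP_afe918_an, block V: Bessel's inequality and uniqueness of Fourier coefficients
-/

set_option autoImplicit false

open Complex Set Filter Topology MeasureTheory Metric
open scoped Real ContDiff

namespace Pool.Agent.Vx

theorem V_Bes_sum (m : ℕ) (G : (ℤ × ℤ) → Bool → ℝ) :
    ∑ i : hm m × Bool, G i.1.1 i.2 = ∑ ξ ∈ hm m, ∑ s : Bool, G ξ s := by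
  rw [Fintype.sum_prod_type]
  exact Finset.sum_coe_sort (hm m) (fun ξ => ∑ s, G ξ s)

theorem V_Bes_hm {m m' : ℕ} (h : m ≤ m') : hm m ⊆ hm m' := by
  intro ξ hξ
  simp only [hm, Finset.mem_filter, Finset.mem_product, Finset.mem_Icc] at *
  exact ⟨⟨⟨by omega, by omega⟩, ⟨by omega, by omega⟩⟩, hξ.2⟩

theorem V_Bes_per {α : Type} {f : ℂ → α} {a b : ℝ} (hf : Per a b f) (m k : ℤ) (z : ℂ) :
    f (z + (m * a + k * b * I)) = f z := by
  have h1 : ∀ (m : ℤ) (z : ℂ), f (z + m * a) = f z := by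
    intro m
    induction m using Int.induction_on with
    | zero => intro z; simp
    | succ n ih =>
      intro z
      have : z + ((n + 1 : ℤ) : ℂ) * a = (z + ((n : ℤ) : ℂ) * a) + a := by push_cast; ring
      rw [this, (hf _).1, ih]
    | pred n ih =>
      intro z
      have : z + ((-(n : ℤ) : ℤ) : ℂ) * a = (z + ((-(n : ℤ) - 1 : ℤ) : ℂ) * a) + a := by
        push_cast; ring
      rw [← ih z, this, (hf _).1]
  have h2 : ∀ (k : ℤ) (z : ℂ), f (z + k * (b * I)) = f z := by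
    intro k
    induction k using Int.induction_on with
    | zero => intro z; simp
    | succ n ih =>
      intro z
      have : z + ((n + 1 : ℤ) : ℂ) * (b * I) = (z + ((n : ℤ) : ℂ) * (b * I)) + b * I := by
        push_cast; ring
      rw [this, (hf _).2, ih]
    | pred n ih =>
      intro z
      have : z + ((-(n : ℤ) : ℤ) : ℂ) * (b * I) =
          (z + ((-(n : ℤ) - 1 : ℤ) : ℂ) * (b * I)) + b * I := by
        push_cast; ring
      rw [← ih z, this, (hf _).2]
  have e : z + (m * a + k * b * I) = (z + m * a) + k * (b * I) := by ring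
  rw [e, h2, h1]

/-- The closed period rectangle centred at 0. -/
def V_Bes_K (a b : ℝ) : Set ℂ := Icc (-(a / 2)) (a / 2) ×ℂ Icc (-(b / 2)) (b / 2)

theorem V_Bes_K_comp (a b : ℝ) : IsCompact (V_Bes_K a b) :=
  Metric.isCompact_of_isClosed_isBounded (isClosed_Icc.reProdIm isClosed_Icc)
    ((isBounded_Icc _ _).reProdIm (isBounded_Icc _ _))

theorem V_Bes_red {a b : ℝ} (ha : 0 < a) (hb : 0 < b) (z : ℂ) :
    ∃ m k : ℤ, z + (m * a + k * b * I) ∈ V_Bes_K a b := by
  refine ⟨-round (z.re / a), -round (z.im / b), ?_⟩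
  have h1 := abs_sub_round (z.re / a)
  have h2 := abs_sub_round (z.im / b)
  rw [abs_le] at h1 h2
  have e1 : z.re = z.re / a * a := by field_simp
  have e2 : z.im = z.im / b * b := by field_simp
  show _ ∈ Icc (-(a / 2)) (a / 2) ×ℂ Icc (-(b / 2)) (b / 2)
  rw [mem_reProdIm]
  simp only [add_re, add_im, mul_re, mul_im, Int.cast_neg, neg_re, neg_im, intCast_re, intCast_im,
    ofReal_re, ofReal_im, I_re, I_im, mem_Icc]
  refine ⟨⟨?_, ?_⟩, ?_, ?_⟩ <;> nlinarith

theorem V_Bes_BM {a b : ℝ} (ha : 0 < a) (hb : 0 < b) {f : ℂ → ℝ} (hf : Continuous f)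
    (hp : Per a b f) : BM a b f := by
  refine ⟨hf.measurable, hp, ?_⟩
  obtain ⟨M, hM⟩ := (V_Bes_K_comp a b).exists_bound_of_continuousOn hf.continuousOn
  refine ⟨M, fun z => ?_⟩
  obtain ⟨m, k, hz⟩ := V_Bes_red ha hb z
  have := hM _ hz
  rwa [V_Bes_per hp, Real.norm_eq_abs] at this

theorem V_Bes_open (a b : ℝ) : IsOpen (rect a b 0) := by
  have h1 : Continuous fun z : ℂ => |z.re - (0 : ℂ).re| := by fun_prop
  have h2 : Continuous fun z : ℂ => |z.im - (0 : ℂ).im| := by fun_prop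
  exact (isOpen_lt h1 continuous_const).inter (isOpen_lt h2 continuous_const)

theorem V_Bes_bdd (a b : ℝ) : rect a b 0 ⊆ V_Bes_K a b := by
  rintro z ⟨h1, h2⟩
  simp only [zero_re, sub_zero, zero_im, abs_lt] at h1 h2
  show _ ∈ Icc (-(a / 2)) (a / 2) ×ℂ Icc (-(b / 2)) (b / 2)
  rw [mem_reProdIm]
  exact ⟨⟨h1.1.le, h1.2.le⟩, ⟨h2.1.le, h2.2.le⟩⟩

/-- A continuous periodic function whose square has integral zero vanishes. -/
theorem V_Bes_zero {a b : ℝ} (ha : 0 < a) (hb : 0 < b) {f : ℂ → ℝ} (hf : Continuous f)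
    (hp : Per a b f) (h0 : ti a b (fun z => f z ^ 2) = 0) : ∀ z, f z = 0 := by
  have hint : IntegrableOn (fun z => f z ^ 2) (rect a b 0) :=
    ((hf.pow 2).continuousOn.integrableOn_compact (V_Bes_K_comp a b)).mono_set (V_Bes_bdd a b)
  have h1 : (fun z => f z ^ 2) =ᵐ[volume.restrict (rect a b 0)] 0 :=
    (integral_eq_zero_iff_of_nonneg (fun z => sq_nonneg (f z)) hint).1 h0
  have h2 : EqOn (fun z => f z ^ 2) (0 : ℂ → ℝ) (rect a b 0) :=
    Measure.eqOn_open_of_ae_eq h1 (V_Bes_open a b) (hf.pow 2).continuousOn continuousOn_const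
  have h3 : ∀ z ∈ rect a b 0, f z = 0 := fun z hz => by
    have := h2 hz
    simpa using this
  have h4 : ∀ z ∈ V_Bes_K a b, f z = 0 := by
    intro z hz
    have hz' : z ∈ Icc (-(a / 2)) (a / 2) ×ℂ Icc (-(b / 2)) (b / 2) := hz
    rw [mem_reProdIm] at hz'
    obtain ⟨⟨p1, p2⟩, p3, p4⟩ := hz'
    have hg : Continuous fun t : ℝ => f (t * z) := by fun_prop
    have hc : IsClosed {t : ℝ | f (t * z) = 0} := isClosed_eq hg continuous_const
    have hs : Ioo (0 : ℝ) 1 ⊆ {t : ℝ | f (t * z) = 0} := by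
      intro t ht
      refine h3 _ ⟨?_, ?_⟩
      · simp only [re_ofReal_mul, zero_re, sub_zero, abs_lt]
        constructor <;> nlinarith [ht.1, ht.2, mul_nonneg ht.1.le (sub_nonneg.2 p2),
          mul_nonneg ht.1.le (sub_nonneg.2 p1)]
      · simp only [im_ofReal_mul, zero_im, sub_zero, abs_lt]
        constructor <;> nlinarith [ht.1, ht.2, mul_nonneg ht.1.le (sub_nonneg.2 p3),
          mul_nonneg ht.1.le (sub_nonneg.2 p4)]
    have h1m : (1 : ℝ) ∈ closure (Ioo (0 : ℝ) 1) := by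
      rw [closure_Ioo (by norm_num)]; simp
    have := hc.closure_subset_iff.2 hs h1m
    simpa using this
  intro z
  obtain ⟨m, k, hz⟩ := V_Bes_red ha hb z
  have := h4 _ hz
  rwa [V_Bes_per hp] at this

theorem pr_V_Bes (hPars : V_Pars) : V_Bes := by
  intro a b ha hb
  constructor
  · intro f hf m
    have hT := hPars a b ha hb f f hf hf
    have hmono : Monotone (fun m : ℕ => 1 / (a * b) * (ti a b f * ti a b f) +
        2 / (a * b) * ∑ i : hm m × Bool, ti a b (fun z => f z * md a b (i.1.1, i.2) z) *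
          ti a b (fun z => f z * md a b (i.1.1, i.2) z)) := by
      intro m m' hmm
      have : (∑ i : hm m × Bool, ti a b (fun z => f z * md a b (i.1.1, i.2) z) *
          ti a b (fun z => f z * md a b (i.1.1, i.2) z)) ≤
          ∑ i : hm m' × Bool, ti a b (fun z => f z * md a b (i.1.1, i.2) z) *
          ti a b (fun z => f z * md a b (i.1.1, i.2) z) := by
        rw [V_Bes_sum m (fun ξ s => ti a b (fun z => f z * md a b (ξ, s) z) *
          ti a b (fun z => f z * md a b (ξ, s) z)),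
          V_Bes_sum m' (fun ξ s => ti a b (fun z => f z * md a b (ξ, s) z) *
          ti a b (fun z => f z * md a b (ξ, s) z))]
        exact Finset.sum_le_sum_of_subset_of_nonneg (V_Bes_hm hmm)
          (fun _ _ _ => Finset.sum_nonneg (fun _ _ => mul_self_nonneg _))
      have h2 : 0 ≤ 2 / (a * b) := by positivity
      have h3 := mul_le_mul_of_nonneg_left this h2
      simp only
      linarith
    have h := hmono.ge_of_tendsto hT m
    simp only [sq]
    exact h
  · intro f hf hp h0 hmm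
    refine V_Bes_zero ha hb hf hp ?_
    have hB := V_Bes_BM ha hb hf hp
    have hT := hPars a b ha hb f f hB hB
    have hz : (fun m : ℕ => 1 / (a * b) * (ti a b f * ti a b f) +
        2 / (a * b) * ∑ i : hm m × Bool, ti a b (fun z => f z * md a b (i.1.1, i.2) z) *
          ti a b (fun z => f z * md a b (i.1.1, i.2) z)) = fun _ => 0 := by
      funext m
      simp [h0, hmm m]
    rw [hz] at hT
    have := tendsto_nhds_unique hT tendsto_const_nhds
    simp only [sq]
    exact this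

end Pool.Agent.Vx

end

section

/-!
# MP_afe918_an: the pseudo-distance on the torus (item VD)
-/

set_option autoImplicit false

open Complex Set Filter Topology MeasureTheory Metric
open scoped Real ContDiff

namespace Pool.Agent.Vx

theorem V_D_sq_le {a : ℝ} (ha : 0 < a) (u : ℝ) : (a / π * Real.sin u) ^ 2 ≤ a ^ 2 := by
  have hpi : 1 ≤ π := by linarith [Real.pi_gt_three]
  rw [mul_pow]
  have h1 : Real.sin u ^ 2 ≤ 1 := Real.sin_sq_le_one u
  have h2 : a / π ≤ a := div_le_self ha.le hpi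
  have h3 : (a / π) ^ 2 ≤ a ^ 2 := pow_le_pow_left₀ (by positivity) h2 2
  calc (a / π) ^ 2 * Real.sin u ^ 2 ≤ (a / π) ^ 2 * 1 := by gcongr
    _ ≤ a ^ 2 := by linarith

theorem V_D_sq_dist {a : ℝ} (ha : 0 < a) (u : ℝ) :
    (a / π * Real.sin (π * u / a)) ^ 2 ≤ u ^ 2 := by
  have hpi := Real.pi_pos
  rw [sq_le_sq, abs_mul, abs_of_pos (by positivity : 0 < a / π)]
  have h1 : |Real.sin (π * u / a)| ≤ |π * u / a| := Real.abs_sin_le_abs
  calc a / π * |Real.sin (π * u / a)| ≤ a / π * |π * u / a| := by gcongr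
    _ = |u| := by
      rw [abs_div, abs_mul, abs_of_pos hpi, abs_of_pos ha]
      field_simp

/-- shift by a multiple of the period plus a small number -/
theorem V_D_shift {a : ℝ} (ha : 0 < a) (x t t' : ℝ) (n : ℤ) :
    |a / π * Real.sin (π * (x - t') / a)| ≤ |a / π * Real.sin (π * (x - t) / a)| +
      |t - t' - n * a| := by
  have hpi := Real.pi_pos
  have e1 : π * (x - t') / a = (π * (x - t) / a + π * (t - t' - n * a) / a) + n * π := by
    field_simp
    ring
  have e2 : |Real.sin (π * (x - t') / a)| =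
      |Real.sin (π * (x - t) / a + π * (t - t' - n * a) / a)| := by
    rw [e1, Real.sin_add_int_mul_pi, abs_mul, abs_zpow, abs_neg, abs_one, one_zpow, one_mul]
  have e3 : |Real.sin (π * (x - t) / a + π * (t - t' - n * a) / a)| ≤
      |Real.sin (π * (x - t) / a)| + |π * (t - t' - n * a) / a| := by
    rw [Real.sin_add]
    refine (abs_add_le _ _).trans ?_
    rw [abs_mul, abs_mul]
    have h1 : |Real.cos (π * (t - t' - n * a) / a)| ≤ 1 := Real.abs_cos_le_one _
    have h2 : |Real.cos (π * (x - t) / a)| ≤ 1 := Real.abs_cos_le_one _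
    have h3 : |Real.sin (π * (t - t' - n * a) / a)| ≤ |π * (t - t' - n * a) / a| :=
      Real.abs_sin_le_abs
    have h4 := abs_nonneg (Real.sin (π * (x - t) / a))
    have h5 := abs_nonneg (Real.sin (π * (t - t' - n * a) / a))
    nlinarith
  rw [abs_mul, abs_mul, abs_of_pos (by positivity : 0 < a / π), e2]
  calc a / π * |Real.sin (π * (x - t) / a + π * (t - t' - n * a) / a)| ≤
      a / π * (|Real.sin (π * (x - t) / a)| + |π * (t - t' - n * a) / a|) := by gcongr
    _ = a / π * |Real.sin (π * (x - t) / a)| + |t - t' - n * a| := by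
      rw [abs_div, abs_mul, abs_of_pos hpi, abs_of_pos ha]
      field_simp

theorem pr_V_D : V_D := by
  intro a b y0 ha hb
  refine ⟨?_, ?_, ?_, ?_⟩
  · intro x t
    unfold Dd
    refine ⟨by positivity, add_le_add (V_D_sq_le ha _) (V_D_sq_le hb _), ?_⟩
    have h1 : ‖x - (t + y0 * I)‖ ^ 2 = (x.re - t) ^ 2 + (x.im - y0) ^ 2 := by
      rw [← Complex.normSq_eq_norm_sq, Complex.normSq_apply]
      simp
      ring
    rw [h1]
    exact add_le_add (V_D_sq_dist ha _) (V_D_sq_dist hb _)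
  · intro t z
    unfold Dd
    constructor
    · have h1 : (z + (a : ℂ)).re = z.re + a := by simp
      have h2 : (z + (a : ℂ)).im = z.im := by simp
      have h3 : π * (z.re + a - t) / a = π * (z.re - t) / a + π := by
        field_simp
        ring
      simp only [h1, h2, h3, Real.sin_add_pi]
      ring
    · have h1 : (z + (b : ℂ) * I).re = z.re := by simp
      have h2 : (z + (b : ℂ) * I).im = z.im + b := by simp
      have h3 : π * (z.im + b - y0) / b = π * (z.im - y0) / b + π := by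
        field_simp
        ring
      simp only [h1, h2, h3, Real.sin_add_pi]
      ring
  · intro x t s
    unfold Dd
    have h1 : (x + (s : ℂ)).re - (t + s) = x.re - t := by simp
    have h2 : (x + (s : ℂ)).im = x.im := by simp
    rw [h1, h2]
  · intro x t t' n L δ hL hδ hδ1 hs
    unfold Dd
    have h1 := V_D_shift ha x.re t t' n
    set A := |a / π * Real.sin (π * (x.re - t) / a)| with hA
    set A' := |a / π * Real.sin (π * (x.re - t') / a)| with hA'
    have hA0 : 0 ≤ A := abs_nonneg _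
    have hA'0 : 0 ≤ A' := abs_nonneg _
    have e1 : (a / π * Real.sin (π * (x.re - t) / a)) ^ 2 = A ^ 2 := by rw [hA, sq_abs]
    have e2 : (a / π * Real.sin (π * (x.re - t') / a)) ^ 2 = A' ^ 2 := by rw [hA', sq_abs]
    rw [e1, e2]
    set B := b / π * Real.sin (π * (x.im - y0) / b) with hB
    have h2 : A' ≤ A + δ / L := h1.trans (by linarith)
    have h3 : L * A' ≤ L * A + δ := by
      have := mul_le_mul_of_nonneg_left h2 hL.le
      rw [mul_add, mul_div_cancel₀ _ hL.ne'] at this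
      exact this
    have h4 : 0 ≤ L * A := by positivity
    have h5 : 0 ≤ L * A' := by positivity
    have h6 : (L * A') ^ 2 ≤ (L * A + δ) ^ 2 := pow_le_pow_left₀ h5 h3 2
    have h7 : 0 ≤ (L * B) ^ 2 := sq_nonneg _
    have h8 : 0 ≤ (L * A - 1) ^ 2 := sq_nonneg _
    have h9 : δ * (2 * (L * A)) ≤ δ * ((L * A) ^ 2 + 1) :=
      mul_le_mul_of_nonneg_left (by nlinarith) hδ.le
    have h10 : δ ^ 2 ≤ δ := by nlinarith
    have h11 : 0 ≤ δ * (L * B) ^ 2 := by positivity
    have h12 : 0 ≤ δ * (L * A) ^ 2 := by positivity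
    nlinarith

end Pool.Agent.Vx

end

section

/-!
# MP_afe918_an, item VGup: upper bound of the Green function off the vertical lattice lines
-/

set_option autoImplicit false

open Complex Set Filter Topology MeasureTheory Metric
open scoped Real ContDiff

namespace Pool.Agent.Vx

theorem V_Gup_round (x a : ℝ) (ha : 0 < a) : |x - round (x / a) * a| ≤ a / 2 := by
  have h := abs_sub_round (x / a)
  have h2 : x - round (x / a) * a = (x / a - round (x / a)) * a := by
    field_simp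
  rw [h2, abs_mul, abs_of_pos ha]
  nlinarith

theorem pr_V_Gup (hG : V_G) : V_Gup := by
  intro a b F hT δ hδ
  have ha := hT.apos
  have hb := hT.bpos
  obtain ⟨hc, h0, hz, hper, -, -⟩ := hG a b F hT
  set K : Set ℂ := {z | |z.re| ≤ a / 2 ∧ |z.im| ≤ b / 2 ∧ δ ≤ |z.re|} with hK
  have hKc : IsCompact K := by
    refine Metric.isCompact_of_isClosed_isBounded ?_ ?_
    · have h1 : IsClosed {z : ℂ | |z.re| ≤ a / 2} :=
        isClosed_le (continuous_abs.comp Complex.continuous_re) continuous_const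
      have h2 : IsClosed {z : ℂ | |z.im| ≤ b / 2} :=
        isClosed_le (continuous_abs.comp Complex.continuous_im) continuous_const
      have h3 : IsClosed {z : ℂ | δ ≤ |z.re|} :=
        isClosed_le continuous_const (continuous_abs.comp Complex.continuous_re)
      exact h1.inter (h2.inter h3)
    · refine (Metric.isBounded_closedBall (x := (0 : ℂ)) (r := a / 2 + b / 2)).subset ?_
      rintro z ⟨h1, h2, -⟩
      rw [mem_closedBall, dist_zero_right]
      exact (Complex.norm_le_abs_re_add_abs_im z).trans (add_le_add h1 h2)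
  have hpos : ∀ z ∈ K, 0 < Sf a b F z := by
    rintro z ⟨h1, -, h3⟩
    refine lt_of_le_of_ne (h0 z) fun h => ?_
    obtain ⟨m, k, hmk⟩ := (hz z).1 h.symm
    have hre : z.re = m * a := by
      rw [hmk]
      simp
    rw [hre, abs_mul, abs_of_pos ha] at h1 h3
    have hm : m ≠ 0 := by
      rintro rfl
      simp at h3
      linarith
    have h4 : (1 : ℝ) ≤ |(m : ℝ)| := by
      have := Int.one_le_abs hm
      exact_mod_cast this
    nlinarith
  have hcont : ContinuousOn (Gr a b F) K := by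
    unfold Gr
    refine ContinuousOn.mul continuousOn_const ?_
    exact ContinuousOn.log hc.continuousOn fun z hz => (hpos z hz).ne'
  obtain ⟨C, hC⟩ := hKc.exists_bound_of_continuousOn hcont
  refine ⟨C, fun z hzδ => ?_⟩
  have p1 : Function.Periodic (Gr a b F) (a : ℂ) := fun z => (hper z).1
  have p2 : Function.Periodic (Gr a b F) ((b : ℂ) * I) := fun z => (hper z).2
  set m : ℤ := round (z.re / a) with hm
  set k : ℤ := round (z.im / b) with hk
  have e1 : Gr a b F (z - m * a - k * (b * I)) = Gr a b F z := by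
    rw [(p2.int_mul k).sub_eq, (p1.int_mul m).sub_eq]
  have hre : (z - m * a - k * (b * I)).re = z.re - m * a := by simp
  have him : (z - m * a - k * (b * I)).im = z.im - k * b := by simp
  have hmem : z - m * a - k * (b * I) ∈ K := by
    refine ⟨?_, ?_, ?_⟩
    · rw [hre]; exact V_Gup_round _ _ ha
    · rw [him]; exact V_Gup_round _ _ hb
    · rw [hre]; exact hzδ m
  rw [← e1]
  exact le_trans (le_abs_self _) (hC _ hmem)

end Pool.Agent.Vx

end

section

/-!
# MP_afe918_an, block V: the abstract min-max principle (`V_MM`)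
-/

set_option autoImplicit false

open Set Filter Topology Metric

namespace Pool.Agent.Vx

/-- One step of descent, uniformly over a compact set without critical points. -/
theorem mm_descent {ι : Type} [Fintype ι] (Q W : EuclideanSpace ℝ ι → ℝ)
    (gQ gW : EuclideanSpace ℝ ι → EuclideanSpace ℝ ι) (cQ : Continuous gQ) (cW : Continuous gW)
    (hQ : ∀ x, HasGradientAt Q (gQ x) x) (hW : ∀ x, HasGradientAt W (gW x) x)
    (r1 r2 R ε : ℝ) (hε : 0 < ε) (hB : ∃ B : ℝ, ∀ x, Q x ≤ R → ‖x‖ ≤ B)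
    (hno : ∀ r ∈ Icc r1 r2, ∀ x, Q x ≤ R → ε ≤ ‖r • gQ x - gW x‖) :
    ∃ s : ℝ, 0 < s ∧ ∀ r ∈ Icc r1 r2, ∀ x, Q x ≤ R → ∀ t ∈ Icc 0 s,
      r * Q (x - t • (r • gQ x - gW x)) - W (x - t • (r • gQ x - gW x)) ≤
        r * Q x - W x - t * (ε ^ 2 / 2) := by
  have hQc : Continuous Q :=
    continuous_iff_continuousAt.2 fun x => (hQ x).hasFDerivAt.continuousAt
  obtain ⟨B, hB⟩ := hB
  have hK1 : IsCompact {x : EuclideanSpace ℝ ι | Q x ≤ R} := by
    refine Metric.isCompact_of_isClosed_isBounded (isClosed_le hQc continuous_const) ?_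
    refine (Metric.isBounded_closedBall (x := (0 : EuclideanSpace ℝ ι)) (r := B)).subset ?_
    intro x hx
    rw [mem_closedBall_zero_iff]
    exact hB x hx
  have hK : IsCompact (Icc r1 r2 ×ˢ ({x : EuclideanSpace ℝ ι | Q x ≤ R} ×ˢ Icc (0 : ℝ) 1)) :=
    isCompact_Icc.prod (hK1.prod isCompact_Icc)
  let g : ℝ → EuclideanSpace ℝ ι → EuclideanSpace ℝ ι := fun r x => r • gQ x - gW x
  have hFc : Continuous fun q : ℝ × (EuclideanSpace ℝ ι × ℝ) =>
      g q.1 (q.2.1 - q.2.2 • g q.1 q.2.1) - g q.1 q.2.1 := by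
    simp only [g]
    fun_prop
  have huc := hK.uniformContinuousOn_of_continuous hFc.continuousOn
  rw [Metric.uniformContinuousOn_iff] at huc
  obtain ⟨δ, hδ, huc⟩ := huc (ε / 2) (by positivity)
  refine ⟨min 1 (δ / 2), by positivity, ?_⟩
  intro r hr x hx t ht
  have key : ∀ τ ∈ Icc (0 : ℝ) (min 1 (δ / 2)), ‖g r (x - τ • g r x) - g r x‖ ≤ ε / 2 := by
    intro τ hτ
    have h1 := huc (r, x, τ) ⟨hr, hx, ⟨hτ.1, hτ.2.trans (min_le_left _ _)⟩⟩ (r, x, 0)
      ⟨hr, hx, ⟨le_refl _, zero_le_one⟩⟩ (by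
        have : τ ≤ δ / 2 := hτ.2.trans (min_le_right _ _)
        simp only [Prod.dist_eq, dist_self, Real.dist_eq, sub_zero]
        rw [abs_of_nonneg hτ.1]
        simp only [max_lt_iff]
        refine ⟨hδ, hδ, by linarith⟩)
    simp only [zero_smul, sub_zero, sub_self, dist_zero_right] at h1
    exact h1.le
  have hv : ε ≤ ‖g r x‖ := hno r hr x hx
  -- derivative along the segment
  have hder : ∀ τ : ℝ, HasDerivAt (fun τ : ℝ => r * Q (x - τ • g r x) - W (x - τ • g r x))
      (inner ℝ (g r (x - τ • g r x)) (-(g r x))) τ := by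
    intro τ
    have hc : HasDerivAt (fun τ : ℝ => x - τ • g r x) (-(g r x)) τ := by
      have := ((hasDerivAt_id τ).smul_const (g r x)).const_sub x
      simpa using this
    have h1 := (hQ (x - τ • g r x)).hasFDerivAt.comp_hasDerivAt τ hc
    have h2 := (hW (x - τ • g r x)).hasFDerivAt.comp_hasDerivAt τ hc
    have h3 := (h1.const_mul r).sub h2
    have e : inner ℝ (g r (x - τ • g r x)) (-(g r x)) =
        r * ((InnerProductSpace.toDual ℝ (EuclideanSpace ℝ ι)) (gQ (x - τ • g r x))) (-(g r x)) -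
        ((InnerProductSpace.toDual ℝ (EuclideanSpace ℝ ι)) (gW (x - τ • g r x))) (-(g r x)) := by
      simp only [g, InnerProductSpace.toDual_apply_apply, inner_sub_left, inner_smul_left,
        RCLike.conj_to_real]
    rw [e]
    exact h3
  have hle : ∀ τ ∈ Icc (0 : ℝ) (min 1 (δ / 2)),
      inner ℝ (g r (x - τ • g r x)) (-(g r x)) ≤ -(ε ^ 2 / 2) := by
    intro τ hτ
    have h1 := key τ hτ
    have e : inner ℝ (g r (x - τ • g r x)) (-(g r x)) =
        -(‖g r x‖ ^ 2) - inner ℝ (g r (x - τ • g r x) - g r x) (g r x) := by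
      have e2 := inner_sub_left (𝕜 := ℝ) (g r (x - τ • g r x)) (g r x) (g r x)
      rw [inner_neg_right, e2, real_inner_self_eq_norm_sq]
      ring
    rw [e]
    have h2 : -(‖g r (x - τ • g r x) - g r x‖ * ‖g r x‖) ≤
        inner ℝ (g r (x - τ • g r x) - g r x) (g r x) :=
      neg_le_of_abs_le (abs_real_inner_le_norm _ _)
    have h3 : ‖g r (x - τ • g r x) - g r x‖ * ‖g r x‖ ≤ ε / 2 * ‖g r x‖ :=
      mul_le_mul_of_nonneg_right h1 (norm_nonneg _)
    nlinarith
  have hmv := Convex.image_sub_le_mul_sub_of_deriv_le (D := Icc (0 : ℝ) (min 1 (δ / 2)))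
    (convex_Icc _ _) (f := fun τ : ℝ => r * Q (x - τ • g r x) - W (x - τ • g r x))
    (fun τ _ => (hder τ).continuousAt.continuousWithinAt)
    (fun τ _ => (hder τ).differentiableAt.differentiableWithinAt) (C := -(ε ^ 2 / 2))
    (fun τ hτ => by
      rw [(hder τ).deriv]
      exact hle τ (interior_subset hτ)) 0 ⟨le_refl _, ht.1.trans ht.2⟩ t ht ht.1
  simp only [zero_smul, sub_zero] at hmv
  have : g r x = r • gQ x - gW x := rfl
  rw [← this]
  linarith

theorem prf_V_MM : V_MM := by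
  intro k C0 C1 s1 s2 hs1 hs12
  obtain ⟨M, hM⟩ : ∃ M : ℝ, M = |C0 + C1| / (s2 - s1) := ⟨_, rfl⟩
  have hM0 : 0 ≤ M := by rw [hM]; exact div_nonneg (abs_nonneg _) (by linarith)
  refine ⟨2 * s2 ^ 2 * (M + 2), ?_⟩
  intro ι _ Q W gQ gW cQ cW hQ hW hQ0 hco γ0 cγ0 hsph hball hlink
  obtain ⟨R, hR⟩ : ∃ R : ℝ, R = 2 * s2 ^ 2 * (M + 2) := ⟨_, rfl⟩
  rw [← hR]
  by_contra hcon
  push Not at hcon
  have hQc : Continuous Q :=
    continuous_iff_continuousAt.2 fun x => (hQ x).hasFDerivAt.continuousAt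
  have hWc : Continuous W :=
    continuous_iff_continuousAt.2 fun x => (hW x).hasFDerivAt.continuousAt
  -- uniform lower bound for the gradient
  obtain ⟨B, hB⟩ := hco R
  have hK1 : IsCompact {x : EuclideanSpace ℝ ι | Q x ≤ R} := by
    refine Metric.isCompact_of_isClosed_isBounded (isClosed_le hQc continuous_const) ?_
    refine (Metric.isBounded_closedBall (x := (0 : EuclideanSpace ℝ ι)) (r := B)).subset ?_
    intro x hx
    rw [mem_closedBall_zero_iff]
    exact hB x hx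
  have hrho : ∀ r ∈ Icc (1 / (2 * s2)) (1 / (2 * s1)), 0 < r ∧ 1 / (2 * r) ∈ Icc s1 s2 := by
    intro r hr
    have hr0 : 0 < r := lt_of_lt_of_le (by have : 0 < s2 := by linarith
                                           positivity) hr.1
    refine ⟨hr0, ?_, ?_⟩
    · have := hr.2
      rw [le_div_iff₀ (by positivity)] at this ⊢
      nlinarith
    · have h2 : 0 < s2 := by linarith
      have := hr.1
      rw [div_le_iff₀ (by positivity)] at this ⊢
      nlinarith
  obtain ⟨ε, hε, hno⟩ : ∃ ε : ℝ, 0 < ε ∧ ∀ r ∈ Icc (1 / (2 * s2)) (1 / (2 * s1)), ∀ x, Q x ≤ R →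
      ε ≤ ‖r • gQ x - gW x‖ := by
    have hK : IsCompact (Icc (1 / (2 * s2)) (1 / (2 * s1)) ×ˢ
        {x : EuclideanSpace ℝ ι | Q x ≤ R}) := isCompact_Icc.prod hK1
    have hc : Continuous fun q : ℝ × EuclideanSpace ℝ ι => ‖q.1 • gQ q.2 - gW q.2‖ := by
      fun_prop
    obtain ⟨ε, hε, h⟩ := hK.exists_forall_le' hc.continuousOn (a := 0) (by
      rintro ⟨r, x⟩ ⟨hr, hx⟩
      obtain ⟨hr0, hr1⟩ := hrho r hr
      have h1 := hcon _ hr1 x hx
      rw [norm_pos_iff]
      intro h0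
      apply h1
      have h2 : gW x = r • gQ x := (sub_eq_zero.1 h0).symm
      rw [h2, smul_smul]
      have : 2 * (1 / (2 * r)) * r = 1 := by field_simp
      rw [this, one_smul])
    exact ⟨ε, hε, fun r hr x hx => h (r, x) ⟨hr, hx⟩⟩
  obtain ⟨s, hs, hdes⟩ := mm_descent Q W gQ gW cQ cW hQ hW _ _ R ε hε ⟨B, hB⟩ hno
  -- the min-max levels
  let S : ℝ → Set ℝ := fun ρ => {m | ∃ γ : Pa k → EuclideanSpace ℝ ι, Continuous γ ∧
    (∀ y, ‖y‖ = 1 → γ y = γ0 y) ∧ ∀ y, ‖y‖ ≤ 1 → Q (γ y) / (2 * ρ) - W (γ y) ≤ m}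
  have hSne : ∀ ρ ∈ Icc s1 s2, C1 ∈ S ρ := fun ρ hρ =>
    ⟨γ0, cγ0, fun _ _ => rfl, fun y hy => hball y hy ρ hρ⟩
  have hSbd : ∀ ρ ∈ Icc s1 s2, ∀ m ∈ S ρ, -C0 ≤ m := by
    rintro ρ hρ m ⟨γ, cγ, hγ, hm⟩
    obtain ⟨y, hy, h⟩ := hlink γ cγ hγ
    exact (h ρ hρ).trans (hm y hy)
  have hbdd : ∀ ρ ∈ Icc s1 s2, BddBelow (S ρ) := fun ρ hρ => ⟨-C0, hSbd ρ hρ⟩
  let c : ℝ → ℝ := fun ρ => sInf (S ρ)
  have hc1 : c s1 ≤ C1 := csInf_le (hbdd s1 ⟨le_refl _, hs12.le⟩) (hSne s1 ⟨le_refl _, hs12.le⟩)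
  have hclow : ∀ ρ ∈ Icc s1 s2, -C0 ≤ c ρ := fun ρ hρ =>
    le_csInf ⟨C1, hSne ρ hρ⟩ (hSbd ρ hρ)
  -- choice of n
  obtain ⟨n, hn⟩ := exists_nat_gt (max (max 1 (2 * (s2 - s1)))
    ((M + 2) * (s2 - s1) / (s * (ε ^ 2 / 2))))
  have hn1 : (1 : ℝ) < n := lt_of_le_of_lt ((le_max_left _ _).trans (le_max_left _ _)) hn
  have hn2 : 2 * (s2 - s1) < n := lt_of_le_of_lt ((le_max_right _ _).trans (le_max_left _ _)) hn
  have hn3 : (M + 2) * (s2 - s1) / (s * (ε ^ 2 / 2)) < n := lt_of_le_of_lt (le_max_right _ _) hn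
  have hn0 : (0 : ℝ) < n := by linarith
  obtain ⟨δ, hδ⟩ : ∃ δ : ℝ, δ = (s2 - s1) / n := ⟨_, rfl⟩
  have hδ0 : 0 < δ := by rw [hδ]; exact div_pos (by linarith) hn0
  have hnδ : n * δ = s2 - s1 := by rw [hδ]; field_simp
  have hδ1 : δ < 1 := by
    rw [hδ, div_lt_one hn0]; linarith
  have hδs : (M + 2) * δ < s * (ε ^ 2 / 2) := by
    rw [div_lt_iff₀ (by positivity)] at hn3
    rw [hδ, ← mul_div_assoc, div_lt_iff₀ hn0]
    linarith
  -- pigeonhole
  obtain ⟨i, hi, hdec⟩ : ∃ i < n, c (s1 + i * δ) - c (s1 + (i + 1 : ℕ) * δ) ≤ M * δ := by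
    by_contra hno2
    push Not at hno2
    have h1 : ∀ j < n, c (s1 + (j + 1 : ℕ) * δ) < C1 - (j + 1 : ℕ) * (M * δ) := by
      intro j
      induction j with
      | zero =>
        intro h0
        have h2 := hno2 0 h0
        simp only [Nat.cast_zero, zero_mul, add_zero] at h2
        push_cast at h2 ⊢
        linarith
      | succ j ih =>
        intro hj
        have h2 := ih (by omega)
        have h3 := hno2 (j + 1) hj
        push_cast at h3 h2 ⊢
        linarith
    obtain ⟨n', rfl⟩ : ∃ n', n = n' + 1 := by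
      cases n with
      | zero => norm_num at hn1
      | succ n' => exact ⟨n', rfl⟩
    have h2 := h1 n' (by omega)
    have h3 := hclow (s1 + (n' + 1 : ℕ) * δ) (by rw [hnδ]; constructor <;> linarith)
    have h5 : ((n' + 1 : ℕ) : ℝ) * (M * δ) = |C0 + C1| := by
      have : ((n' + 1 : ℕ) : ℝ) * (M * δ) = M * ((n' + 1 : ℕ) * δ) := by ring
      rw [this, hnδ, hM]
      have : s2 - s1 ≠ 0 := by linarith
      field_simp
    have h6 := le_abs_self (C0 + C1)
    rw [h5] at h2
    linarith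
  obtain ⟨ρ', hρ'⟩ : ∃ ρ' : ℝ, ρ' = s1 + i * δ := ⟨_, rfl⟩
  obtain ⟨ρ, hρ⟩ : ∃ ρ : ℝ, ρ = s1 + (i + 1 : ℕ) * δ := ⟨_, rfl⟩
  rw [← hρ', ← hρ] at hdec
  have hρρ : ρ = ρ' + δ := by rw [hρ, hρ']; push_cast; ring
  have hmem' : ρ' ∈ Icc s1 s2 := by
    have h1 : (i : ℝ) ≤ n := by exact_mod_cast hi.le
    have h2 : (i : ℝ) * δ ≤ n * δ := mul_le_mul_of_nonneg_right h1 hδ0.le
    have h3 : 0 ≤ (i : ℝ) * δ := by positivity
    rw [hρ']
    constructor <;> linarith
  have hmem : ρ ∈ Icc s1 s2 := by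
    have h1 : ((i + 1 : ℕ) : ℝ) ≤ n := by exact_mod_cast hi
    have h2 : ((i + 1 : ℕ) : ℝ) * δ ≤ n * δ := mul_le_mul_of_nonneg_right h1 hδ0.le
    have h3 : 0 ≤ ((i + 1 : ℕ) : ℝ) * δ := by positivity
    rw [hρ]
    constructor <;> linarith
  have hρ0 : 0 < ρ := by linarith [hmem.1]
  have hρ'0 : 0 < ρ' := by linarith [hmem'.1]
  -- an almost optimal family for `ρ'`
  obtain ⟨m, ⟨γ, cγ, hγs, hγm⟩, hm⟩ := exists_lt_of_csInf_lt ⟨C1, hSne ρ' hmem'⟩
    (show sInf (S ρ') < c ρ' + δ by simp only [c]; linarith)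
  have hup : ∀ y, ‖y‖ ≤ 1 → Q (γ y) / (2 * ρ') - W (γ y) ≤ c ρ + (M + 1) * δ := by
    intro y hy
    have := hγm y hy
    linarith
  have hdiff : ∀ x, Q x / (2 * ρ') - Q x / (2 * ρ) = Q x * δ / (2 * ρ * ρ') := by
    intro x
    rw [hρρ]
    have : ρ' + δ ≠ 0 := by linarith
    field_simp
    ring
  have hup2 : ∀ y, ‖y‖ ≤ 1 → Q (γ y) / (2 * ρ) - W (γ y) ≤ c ρ + (M + 1) * δ := by
    intro y hy
    have h1 := hup y hy
    have h2 := hdiff (γ y)
    have h3 : 0 ≤ Q (γ y) * δ / (2 * ρ * ρ') := by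
      have := hQ0 (γ y)
      positivity
    linarith
  have hQR : ∀ y, ‖y‖ ≤ 1 → c ρ - δ ≤ Q (γ y) / (2 * ρ) - W (γ y) → Q (γ y) ≤ R := by
    intro y hy h
    have h1 := hup y hy
    have h2 := hdiff (γ y)
    have h3 : Q (γ y) * δ / (2 * ρ * ρ') ≤ (M + 2) * δ := by linarith
    rw [div_le_iff₀ (by positivity)] at h3
    have h4 : Q (γ y) ≤ (M + 2) * (2 * ρ * ρ') := by
      have : Q (γ y) * δ ≤ (M + 2) * (2 * ρ * ρ') * δ := by linarith
      exact le_of_mul_le_mul_right this hδ0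
    have h5 : ρ * ρ' ≤ s2 * s2 := mul_le_mul hmem.2 hmem'.2 hρ'0.le (by linarith)
    rw [hR]
    nlinarith
  -- the deformation
  obtain ⟨r, hr⟩ : ∃ r : ℝ, r = 1 / (2 * ρ) := ⟨_, rfl⟩
  have hrm : r ∈ Icc (1 / (2 * s2)) (1 / (2 * s1)) := by
    rw [hr]
    constructor
    · apply one_div_le_one_div_of_le (by positivity); linarith [hmem.2]
    · apply one_div_le_one_div_of_le (by positivity); linarith [hmem.1]
  have hQr : ∀ x, Q x / (2 * ρ) = r * Q x := by
    intro x; rw [hr]; ring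
  let χ : EuclideanSpace ℝ ι → ℝ := fun x =>
    max 0 (min 1 ((r * Q x - W x - (c ρ - δ)) / (δ / 2)))
  have cχ : Continuous χ := by
    simp only [χ]
    fun_prop
  have hχ0 : ∀ x, 0 ≤ χ x := fun x => le_max_left _ _
  have hχ1 : ∀ x, χ x ≤ 1 := fun x => max_le zero_le_one (min_le_left _ _)
  let γ' : Pa k → EuclideanSpace ℝ ι := fun y =>
    γ y - (s * χ (γ y)) • (r • gQ (γ y) - gW (γ y))
  have cγ' : Continuous γ' := by
    simp only [γ']
    fun_prop
  have hγ's : ∀ y, ‖y‖ = 1 → γ' y = γ0 y := by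
    intro y hy
    have h1 := hsph y hy ρ hmem
    have h2 := hclow ρ hmem
    have h3 : χ (γ y) = 0 := by
      simp only [χ]
      rw [max_eq_left]
      refine (min_le_right _ _).trans (div_nonpos_of_nonpos_of_nonneg ?_ (by positivity))
      rw [hγs y hy, ← hQr]
      linarith
    simp only [γ', h3, mul_zero, zero_smul, sub_zero]
    exact hγs y hy
  have hfin : ∀ y, ‖y‖ ≤ 1 → Q (γ' y) / (2 * ρ) - W (γ' y) ≤ c ρ - δ / 2 := by
    intro y hy
    rcases le_or_gt (r * Q (γ y) - W (γ y)) (c ρ - δ) with h | h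
    · have h3 : χ (γ y) = 0 := by
        simp only [χ]
        rw [max_eq_left]
        refine (min_le_right _ _).trans (div_nonpos_of_nonpos_of_nonneg ?_ (by positivity))
        linarith
      have h4 : γ' y = γ y := by simp only [γ', h3, mul_zero, zero_smul, sub_zero]
      rw [h4, hQr]
      linarith
    · have hQy : Q (γ y) ≤ R := hQR y hy (by rw [hQr]; exact h.le)
      have hd := hdes r hrm (γ y) hQy (s * χ (γ y)) ⟨mul_nonneg hs.le (hχ0 _), by
        have := mul_le_mul_of_nonneg_left (hχ1 (γ y)) hs.le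
        linarith⟩
      have hd2 : Q (γ' y) / (2 * ρ) - W (γ' y) ≤
          r * Q (γ y) - W (γ y) - s * χ (γ y) * (ε ^ 2 / 2) := by
        rw [hQr]
        exact hd
      refine hd2.trans ?_
      rcases le_or_gt (r * Q (γ y) - W (γ y)) (c ρ - δ / 2) with h5 | h5
      · have : 0 ≤ s * χ (γ y) * (ε ^ 2 / 2) := by
          have := hχ0 (γ y)
          positivity
        linarith
      · have h6 : χ (γ y) = 1 := by
          simp only [χ]
          rw [min_eq_left, max_eq_right zero_le_one]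
          rw [le_div_iff₀ (by positivity)]
          linarith
        rw [h6]
        have h7 := hup2 y hy
        rw [hQr] at h7
        linarith
  have := csInf_le (hbdd ρ hmem) (show c ρ - δ / 2 ∈ S ρ from ⟨γ', cγ', hγ's, hfin⟩)
  simp only [c] at this
  linarith

end Pool.Agent.Vx

end

section

/-!
# MP_afe918_an, item VMT: the Moser-Trudinger inequality from the improved one
-/

set_option autoImplicit false

open Complex Set Filter Topology MeasureTheory Metric
open scoped Real ContDiff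

namespace Pool.Agent.Vx

theorem V_MT_nu (a b : ℝ) (ξ : ℤ × ℤ) : 0 ≤ nu a b ξ := by
  unfold nu
  positivity

theorem V_MT_en {a b : ℝ} (ha : 0 < a) (hb : 0 < b) (m : ℕ) (c : Co m) : 0 ≤ en a b m c := by
  unfold en
  refine mul_nonneg (by positivity) (Finset.sum_nonneg fun i _ => ?_)
  exact mul_nonneg (V_MT_nu a b _) (sq_nonneg _)

theorem V_MT_tp (a b : ℝ) (m : ℕ) (c : Co m) (z : ℂ) :
    tp a b m ((2 : ℝ) • c) z = 2 * tp a b m c z := by
  unfold tp
  rw [Finset.mul_sum]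
  refine Finset.sum_congr rfl fun i _ => ?_
  rw [PiLp.smul_apply, smul_eq_mul]
  ring

theorem V_MT_en2 (a b : ℝ) (m : ℕ) (c : Co m) : en a b m ((2 : ℝ) • c) = 4 * en a b m c := by
  unfold en
  have h : ∑ i : hm m × Bool, nu a b i.1.1 * ((2 : ℝ) • c) i ^ 2 =
      4 * ∑ i : hm m × Bool, nu a b i.1.1 * c i ^ 2 := by
    rw [Finset.mul_sum]
    refine Finset.sum_congr rfl fun i _ => ?_
    rw [PiLp.smul_apply, smul_eq_mul]
    ring
  rw [h]
  ring

theorem V_MT_of (himt : V_imt) : V_MT := by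
  classical
  intro a b F hθ
  obtain ⟨C, hC⟩ := himt a b F hθ (fun _ => 1) continuous_const (fun _ => ⟨rfl, rfl⟩)
    (fun _ => zero_le_one) 0 (1 / 2) 1 0 (by norm_num) (by norm_num) one_pos
  refine ⟨1 + |C|, fun m c => ?_⟩
  have hE := V_MT_en hθ.apos hθ.bpos m c
  have h1 : ti a b (fun z => Real.exp (2 * tp a b m c z)) =
      ti a b (fun z => 1 * Real.exp (tp a b m ((2 : ℝ) • c) z)) := by
    congr 1
    funext z
    rw [one_mul, V_MT_tp]
  rw [h1]
  by_cases hpos : 0 < ti a b (fun z => 1 * Real.exp (tp a b m ((2 : ℝ) • c) z))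
  · have h2 := hC (fun _ => Set.univ) (fun _ => MeasurableSet.univ)
      (fun _ z => ⟨by simp, by simp⟩)
      (fun i j hij => absurd (Fin.ext (by omega)) hij) m ((2 : ℝ) • c) hpos
      (fun i => by
        rw [one_mul]
        refine le_of_eq ?_
        congr 1
        funext z
        rw [if_pos (Set.mem_univ z)])
    rw [V_MT_en2] at h2
    unfold lw at h2
    rw [← Real.exp_log hpos]
    refine Real.exp_le_exp.mpr (h2.trans ?_)
    have hpi := Real.pi_gt_three
    have h3 : 4 * en a b m c / (16 * π * (1 - 1 / 2) * ((0 : ℕ) + 1)) ≤ en a b m c := by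
      rw [div_le_iff₀ (by push_cast; positivity)]
      push_cast
      nlinarith
    have h4 : C ≤ |C| := le_abs_self C
    have h5 : 0 ≤ |C| * en a b m c := mul_nonneg (abs_nonneg C) hE
    calc 4 * en a b m c / (16 * π * (1 - 1 / 2) * ((0 : ℕ) + 1)) + C ≤ en a b m c + |C| := by
          linarith
      _ ≤ (1 + |C|) * (1 + en a b m c) := by
          have e : (1 + |C|) * (1 + en a b m c) =
            1 + en a b m c + |C| + |C| * en a b m c := by ring
          rw [e]
          linarith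
  · push Not at hpos
    exact hpos.trans (Real.exp_pos _).le

theorem pr_V_MT (himt : V_imt) (_htr : V_tr) : V_MT := V_MT_of himt

end Pool.Agent.Vx

end

section

/-!
# MP_afe918_an, item VPars: Parseval's identity on the torus (helper81)
-/

set_option autoImplicit false

open Complex Set Filter Topology MeasureTheory Metric UnitAddTorus
open scoped Real ContDiff ComplexConjugate

namespace Pool.Agent.Vx

noncomputable local instance V_Pars_ms : MeasureSpace UnitAddCircle := ⟨AddCircle.haarAddCircle⟩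

local instance V_Pars_haar : Measure.IsAddHaarMeasure (volume : Measure UnitAddCircle) :=
  inferInstanceAs (Measure.IsAddHaarMeasure AddCircle.haarAddCircle)

local instance V_Pars_prob : IsProbabilityMeasure (volume : Measure UnitAddCircle) :=
  inferInstanceAs (IsProbabilityMeasure AddCircle.haarAddCircle)

/-- Scaled coordinates. -/
noncomputable def V_Pars_D (a b : ℝ) (x : Fin 2 → ℝ) : ℂ := ⟨a * x 0, b * x 1⟩

lemma V_Pars_D_meas (a b : ℝ) : Measurable (V_Pars_D a b) := by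
  have : V_Pars_D a b = fun x => ((a * x 0 : ℝ) : ℂ) + ((b * x 1 : ℝ) : ℂ) * I := by
    funext x; apply Complex.ext <;> simp [V_Pars_D]
  rw [this]
  fun_prop

lemma V_Pars_vol {a b : ℝ} (ha : 0 < a) (hb : 0 < b) :
    (volume : Measure ℂ) = ENNReal.ofReal (a * b) • Measure.map (V_Pars_D a b) volume := by
  have hdet : (Matrix.diagonal ![a, b]).det = a * b := by
    rw [Matrix.det_diagonal, Fin.prod_univ_two]; rfl
  have hne : (Matrix.diagonal ![a, b]).det ≠ 0 := by
    rw [hdet]; positivity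
  have h2 := Real.smul_map_diagonal_volume_pi hne
  rw [hdet, abs_of_pos (mul_pos ha hb)] at h2
  have h1 := Complex.volume_preserving_equiv_pi.symm.map_eq
  have h3 : V_Pars_D a b = (Complex.measurableEquivPi.symm : (Fin 2 → ℝ) → ℂ) ∘
      (Matrix.toLin' (Matrix.diagonal ![a, b])) := by
    funext x
    apply Complex.ext <;>
    simp [V_Pars_D, Complex.measurableEquivPi_symm_apply, Matrix.toLin'_apply]
  rw [h3, ← Measure.map_map Complex.measurableEquivPi.symm.measurable
    (LinearMap.continuous_of_finiteDimensional _).measurable, ← Measure.map_smul, h2, h1]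

/-- The fundamental cube. -/
def V_Pars_Q : Set (Fin 2 → ℝ) := {x | ∀ i, x i ∈ Ioc (-1 / 2 : ℝ) (-1 / 2 + 1)}

lemma V_Pars_cv {a b : ℝ} (ha : 0 < a) (hb : 0 < b) {H : ℂ → ℂ} (hH : Measurable H) :
    ∫ x in V_Pars_Q, H (V_Pars_D a b x) = (1 / (a * b) : ℝ) * ∫ z in rect a b 0, H z := by
  have hrect : MeasurableSet (rect a b 0) := by
    have e1 : rect a b 0 = {z : ℂ | |z.re - (0:ℂ).re| < a / 2} ∩
        {z : ℂ | |z.im - (0:ℂ).im| < b / 2} := rfl
    rw [e1]
    apply MeasurableSet.inter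
    · exact (isOpen_lt (by fun_prop) (by fun_prop)).measurableSet
    · exact (isOpen_lt (by fun_prop) (by fun_prop)).measurableSet
  have h1 : ∫ z in rect a b 0, H z =
      (a * b : ℝ) • ∫ x in (V_Pars_D a b) ⁻¹' (rect a b 0), H (V_Pars_D a b x) := by
    conv_lhs => rw [V_Pars_vol ha hb]
    rw [Measure.restrict_smul, integral_smul_measure, setIntegral_map hrect
      hH.aestronglyMeasurable (V_Pars_D_meas a b).aemeasurable,
      ENNReal.toReal_ofReal (mul_pos ha hb).le]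
  have h2 : (V_Pars_D a b) ⁻¹' (rect a b 0) =ᵐ[volume] V_Pars_Q := by
    have e1 : (V_Pars_D a b) ⁻¹' (rect a b 0) =
        Set.pi univ (fun _ : Fin 2 => Ioo (-1 / 2 : ℝ) (-1 / 2 + 1)) := by
      ext x
      simp only [mem_preimage, rect, V_Pars_D, Set.mem_ofPred_eq, Complex.zero_re,
        Complex.zero_im, sub_zero, Set.mem_pi, mem_univ, true_implies, Fin.forall_fin_two, mem_Ioo]
      rw [abs_lt, abs_lt]
      constructor
      · rintro ⟨⟨h1, h2⟩, h3, h4⟩
        refine ⟨⟨?_, ?_⟩, ?_, ?_⟩ <;> nlinarith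
      · rintro ⟨⟨h1, h2⟩, h3, h4⟩
        refine ⟨⟨?_, ?_⟩, ?_, ?_⟩ <;> nlinarith
    have e2 : V_Pars_Q = Set.pi univ (fun _ : Fin 2 => Ioc (-1 / 2 : ℝ) (-1 / 2 + 1)) := by
      ext x; simp [V_Pars_Q]
    rw [e1, e2]
    exact Measure.univ_pi_Ioo_ae_eq_Icc.trans Measure.univ_pi_Ioc_ae_eq_Icc.symm
  rw [h1, setIntegral_congr_set h2]
  have hab : (a * b : ℝ) ≠ 0 := by positivity
  rw [Complex.real_smul, ← mul_assoc, ← Complex.ofReal_mul, one_div, inv_mul_cancel₀ hab,
    Complex.ofReal_one, one_mul]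

/-- The function on the torus. -/
noncomputable def V_Pars_F (a b : ℝ) (f : ℂ → ℝ) (x : UnitAddTorus (Fin 2)) : ℂ :=
  (f (V_Pars_D a b (fun i => ((AddCircle.equivIoc (1:ℝ) (-1 / 2) (x i)) : ℝ))) : ℂ)

lemma V_Pars_F_meas {a b : ℝ} {f : ℂ → ℝ} (hf : Measurable f) : Measurable (V_Pars_F a b f) := by
  unfold V_Pars_F
  apply Complex.measurable_ofReal.comp
  apply hf.comp
  apply (V_Pars_D_meas a b).comp
  apply measurable_pi_lambda
  intro i
  exact measurable_subtype_coe.comp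
    ((AddCircle.measurableEquivIoc (1:ℝ) (-1 / 2)).measurable.comp (measurable_pi_apply i))

lemma V_Pars_F_apply {a b : ℝ} {f : ℂ → ℝ} {x : Fin 2 → ℝ} (hx : x ∈ V_Pars_Q) :
    V_Pars_F a b f (fun i => (x i : UnitAddCircle)) = f (V_Pars_D a b x) := by
  unfold V_Pars_F
  have : (fun i => ((AddCircle.equivIoc (1:ℝ) (-1 / 2) ((x i : ℝ) : UnitAddCircle)) : ℝ)) = x := by
    funext i
    rw [AddCircle.equivIoc_coe_eq (hx i)]
  rw [this]

lemma V_Pars_memLp {a b : ℝ} {f : ℂ → ℝ} (hf : BM a b f) :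
    MemLp (V_Pars_F a b f) 2 (volume : Measure (UnitAddTorus (Fin 2))) := by
  obtain ⟨M, hM⟩ := hf.bdd
  refine MemLp.of_bound (V_Pars_F_meas hf.meas).aestronglyMeasurable M
    (Eventually.of_forall fun x => ?_)
  unfold V_Pars_F
  rw [Complex.norm_real]
  exact hM _

lemma V_Pars_Qmeas : MeasurableSet V_Pars_Q :=
  MeasurableSet.univ_pi' (fun _ => measurableSet_Ioc)

lemma V_Pars_rectfin (a b : ℝ) : volume (rect a b 0) ≠ ⊤ := by
  have hsub : rect a b 0 ⊆ closedBall (0:ℂ) (|a| + |b|) := by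
    intro z hz
    obtain ⟨h1, h2⟩ := hz
    simp only [Complex.zero_re, Complex.zero_im, sub_zero] at h1 h2
    rw [mem_closedBall_zero_iff]
    have h3 := Complex.norm_le_abs_re_add_abs_im z
    have h4 : a ≤ |a| := le_abs_self a
    have h5 : b ≤ |b| := le_abs_self b
    have h6 := abs_nonneg z.re
    have h7 := abs_nonneg z.im
    linarith
  exact ((measure_mono hsub).trans_lt measure_closedBall_lt_top).ne

lemma V_Pars_int {a b : ℝ} {f : ℂ → ℝ} (hf : BM a b f) {k : ℂ → ℝ} (hk : Measurable k)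
    (hk1 : ∀ z, |k z| ≤ 1) : IntegrableOn (fun z => f z * k z) (rect a b 0) := by
  obtain ⟨M, hM⟩ := hf.bdd
  have : IsFiniteMeasure (volume.restrict (rect a b 0)) := ⟨by
    rw [Measure.restrict_apply_univ]; exact lt_top_iff_ne_top.2 (V_Pars_rectfin a b)⟩
  apply Integrable.of_bound (C := M)
  · exact (hf.meas.mul hk).aestronglyMeasurable
  · refine Eventually.of_forall fun z => ?_
    rw [Real.norm_eq_abs, abs_mul]
    calc |f z| * |k z| ≤ |f z| * 1 := mul_le_mul_of_nonneg_left (hk1 z) (abs_nonneg _)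
      _ ≤ M := by rw [mul_one]; exact hM z

lemma V_Pars_ph_meas (a b : ℝ) (ξ : ℤ × ℤ) : Measurable (ph a b ξ) := by
  unfold ph; fun_prop

/-- The Fourier coefficients on the torus. -/
lemma V_Pars_coeff {a b : ℝ} (ha : 0 < a) (hb : 0 < b) {f : ℂ → ℝ} (hf : BM a b f)
    (n : Fin 2 → ℤ) :
    mFourierCoeff (V_Pars_F a b f) n = (1 / (a * b) : ℝ) *
      ((ti a b (fun z => f z * Real.cos (ph a b (n 0, n 1) z)) : ℂ) -
        (ti a b (fun z => f z * Real.sin (ph a b (n 0, n 1) z)) : ℂ) * I) := by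
  rw [mFourierCoeff_eq_integral _ _ (fun _ => -1 / 2)]
  have e1 : ∫ (x : Fin 2 → ℝ) in {x : Fin 2 → ℝ | ∀ i, x i ∈ Ioc (-1 / 2 : ℝ) (-1 / 2 + 1)},
      mFourier (-n) (fun i => (x i : UnitAddCircle)) •
        V_Pars_F a b f (fun i => (x i : UnitAddCircle)) =
      ∫ x in V_Pars_Q, (fun z => cexp (-(ph a b (n 0, n 1) z : ℝ) * I) * f z)
        (V_Pars_D a b x) := by
    apply setIntegral_congr_fun V_Pars_Qmeas
    intro x hx
    dsimp only
    rw [V_Pars_F_apply hx, smul_eq_mul]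
    congr 1
    rw [mFourier, ContinuousMap.coe_mk, Fin.prod_univ_two, Pi.neg_apply, Pi.neg_apply,
      fourier_coe_apply, fourier_coe_apply, ← Complex.exp_add]
    congr 1
    simp only [ph, V_Pars_D]
    have ha' : (a : ℂ) ≠ 0 := by exact_mod_cast ha.ne'
    have hb' : (b : ℂ) ≠ 0 := by exact_mod_cast hb.ne'
    push_cast
    field_simp
    ring
  have hpm := V_Pars_ph_meas a b (n 0, n 1)
  have hfm := hf.meas
  rw [e1, V_Pars_cv ha hb (H := fun z => cexp (-(ph a b (n 0, n 1) z : ℝ) * I) * f z)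
    (by fun_prop)]
  congr 1
  have hc := V_Pars_int hf (k := fun z => Real.cos (ph a b (n 0, n 1) z)) (by fun_prop)
    (fun z => Real.abs_cos_le_one _)
  have hs := V_Pars_int hf (k := fun z => Real.sin (ph a b (n 0, n 1) z)) (by fun_prop)
    (fun z => Real.abs_sin_le_one _)
  have e2 : (fun z : ℂ => cexp (-(ph a b (n 0, n 1) z : ℝ) * I) * (f z : ℂ)) =
      fun z => ((f z * Real.cos (ph a b (n 0, n 1) z) : ℝ) : ℂ) -
        ((f z * Real.sin (ph a b (n 0, n 1) z) : ℝ) : ℂ) * I := by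
    funext z
    rw [← Complex.ofReal_neg, Complex.exp_mul_I, ← Complex.ofReal_cos, ← Complex.ofReal_sin,
      Real.cos_neg, Real.sin_neg]
    push_cast
    ring
  have hc' : IntegrableOn (fun z => ((f z * Real.cos (ph a b (n 0, n 1) z) : ℝ) : ℂ))
      (rect a b 0) := hc.ofReal
  have hs' : IntegrableOn (fun z => ((f z * Real.sin (ph a b (n 0, n 1) z) : ℝ) : ℂ) * I)
      (rect a b 0) := hs.ofReal.mul_const I
  rw [e2, integral_sub hc' hs', integral_mul_const, integral_complex_ofReal,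
    integral_complex_ofReal]
  rfl

/-- The summands of Parseval's identity. -/
noncomputable def V_Pars_A (a b : ℝ) (f g : ℂ → ℝ) (ξ : ℤ × ℤ) : ℝ :=
  ti a b (fun z => f z * Real.cos (ph a b ξ z)) * ti a b (fun z => g z * Real.cos (ph a b ξ z)) +
  ti a b (fun z => f z * Real.sin (ph a b ξ z)) * ti a b (fun z => g z * Real.sin (ph a b ξ z))

lemma V_Pars_hasSum {a b : ℝ} (ha : 0 < a) (hb : 0 < b) {f g : ℂ → ℝ} (hf : BM a b f)
    (hg : BM a b g) : HasSum (V_Pars_A a b f g) (a * b * ti a b (fun z => f z * g z)) := by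
  have h1 := hasSum_prod_mFourierCoeff ((V_Pars_memLp hf).toLp _) ((V_Pars_memLp hg).toLp _)
  have c1 : ∀ {k : ℂ → ℝ} (hk : BM a b k) (n : Fin 2 → ℤ),
      mFourierCoeff ((V_Pars_memLp hk).toLp (V_Pars_F a b k)) n =
        mFourierCoeff (V_Pars_F a b k) n := by
    intro k hk n
    unfold mFourierCoeff
    apply integral_congr_ae
    filter_upwards [(V_Pars_memLp hk).coeFn_toLp] with x hx
    rw [hx]
  have c2 : ∫ (t : UnitAddTorus (Fin 2)), conj ((V_Pars_memLp hf).toLp (V_Pars_F a b f) t) *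
      ((V_Pars_memLp hg).toLp (V_Pars_F a b g) t) =
      (1 / (a * b) : ℝ) * (ti a b (fun z => f z * g z) : ℂ) := by
    have e1 : ∫ (t : UnitAddTorus (Fin 2)), conj ((V_Pars_memLp hf).toLp (V_Pars_F a b f) t) *
        ((V_Pars_memLp hg).toLp (V_Pars_F a b g) t) =
        ∫ (t : UnitAddTorus (Fin 2)), conj (V_Pars_F a b f t) * V_Pars_F a b g t := by
      apply integral_congr_ae
      filter_upwards [(V_Pars_memLp hf).coeFn_toLp, (V_Pars_memLp hg).coeFn_toLp] with x hx hy
      rw [hx, hy]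
    rw [e1, integral_preimage _ (fun _ => -1 / 2)]
    have e2 : ∫ (x : Fin 2 → ℝ) in {x : Fin 2 → ℝ | ∀ i, x i ∈ Ioc (-1 / 2 : ℝ) (-1 / 2 + 1)},
        conj (V_Pars_F a b f (fun i => (x i : UnitAddCircle))) *
          V_Pars_F a b g (fun i => (x i : UnitAddCircle)) =
        ∫ x in V_Pars_Q, (fun z => ((f z * g z : ℝ) : ℂ)) (V_Pars_D a b x) := by
      apply setIntegral_congr_fun V_Pars_Qmeas
      intro x hx
      dsimp only
      rw [V_Pars_F_apply hx, V_Pars_F_apply hx, Complex.conj_ofReal, Complex.ofReal_mul]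
    have hfm := hf.meas
    have hgm := hg.meas
    rw [e2, V_Pars_cv ha hb (H := fun z => ((f z * g z : ℝ) : ℂ)) (by fun_prop),
      integral_complex_ofReal]
    rfl
  rw [c2] at h1
  have h2 := Complex.hasSum_re h1
  have h3 : HasSum (V_Pars_A a b f g ∘ (finTwoArrowEquiv ℤ))
      (a * b * ti a b (fun z => f z * g z)) := by
    have h4 := h2.mul_left ((a * b) ^ 2)
    have hab : a * b ≠ 0 := by positivity
    have e3 : (a * b) ^ 2 * ((1 / (a * b) : ℝ) * (ti a b (fun z => f z * g z) : ℂ)).re =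
        a * b * ti a b (fun z => f z * g z) := by
      rw [← Complex.ofReal_mul, Complex.ofReal_re]
      field_simp
    rw [e3] at h4
    have e4 : (fun n : Fin 2 → ℤ => (a * b) ^ 2 *
        (conj (mFourierCoeff ((V_Pars_memLp hf).toLp (V_Pars_F a b f)) n) *
          mFourierCoeff ((V_Pars_memLp hg).toLp (V_Pars_F a b g)) n).re) =
        V_Pars_A a b f g ∘ (finTwoArrowEquiv ℤ) := by
      funext n
      rw [c1 hf, c1 hg, V_Pars_coeff ha hb hf, V_Pars_coeff ha hb hg]
      have e5 : (finTwoArrowEquiv ℤ) n = (n 0, n 1) := rfl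
      rw [Function.comp_apply, e5, V_Pars_A]
      simp only [map_mul, map_sub, Complex.conj_ofReal, Complex.conj_I, Complex.mul_re,
        Complex.mul_im, Complex.sub_re, Complex.sub_im, Complex.ofReal_re, Complex.ofReal_im,
        Complex.I_re, Complex.I_im, Complex.neg_re, Complex.neg_im]
      field_simp
      ring
    rw [← e4]
    exact h4
  exact (finTwoArrowEquiv ℤ).hasSum_iff.1 h3

/-- The boxes of modes. -/
noncomputable def V_Pars_box (m : ℕ) : Finset (ℤ × ℤ) := Finset.Icc (-(m : ℤ)) m ×ˢ Finset.Icc (-(m : ℤ)) m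

lemma V_Pars_box_tendsto : Tendsto V_Pars_box atTop atTop := by
  apply tendsto_atTop_finset_of_monotone
  · intro m n hmn x hx
    simp only [V_Pars_box, Finset.mem_product, Finset.mem_Icc] at hx ⊢
    omega
  · intro x
    refine ⟨x.1.natAbs + x.2.natAbs, ?_⟩
    simp only [V_Pars_box, Finset.mem_product, Finset.mem_Icc]
    omega

lemma V_Pars_ph_neg (a b : ℝ) (ξ : ℤ × ℤ) (z : ℂ) : ph a b (-ξ) z = -ph a b ξ z := by
  unfold ph
  simp only [Prod.fst_neg, Prod.snd_neg, Int.cast_neg]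
  ring

lemma V_Pars_A_neg (a b : ℝ) (f g : ℂ → ℝ) (ξ : ℤ × ℤ) :
    V_Pars_A a b f g (-ξ) = V_Pars_A a b f g ξ := by
  have hn : ∀ h : ℂ → ℝ, ti a b (fun z => -h z) = -ti a b h := by
    intro h
    unfold ti
    exact integral_neg _
  unfold V_Pars_A
  simp only [V_Pars_ph_neg, Real.cos_neg, Real.sin_neg, mul_neg, hn]
  ring

lemma V_Pars_A_zero (a b : ℝ) (f g : ℂ → ℝ) :
    V_Pars_A a b f g 0 = ti a b f * ti a b g := by
  have h0 : ∀ z, ph a b 0 z = 0 := by
    intro z; unfold ph; simp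
  have hz : ti a b (fun _ => (0:ℝ)) = 0 := by unfold ti; simp
  unfold V_Pars_A
  simp only [h0, Real.cos_zero, Real.sin_zero, mul_one, mul_zero, hz, add_zero]

lemma V_Pars_sum_box (a b : ℝ) (f g : ℂ → ℝ) (m : ℕ) :
    ∑ ξ ∈ V_Pars_box m, V_Pars_A a b f g ξ =
      ti a b f * ti a b g + 2 * ∑ ξ ∈ hm m, V_Pars_A a b f g ξ := by
  have hhm : hm m = (V_Pars_box m).filter fun ξ => 0 < ξ.1 ∨ (ξ.1 = 0 ∧ 0 < ξ.2) := by
    rfl
  rw [← Finset.sum_filter_add_sum_filter_not (V_Pars_box m)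
    (fun ξ => 0 < ξ.1 ∨ (ξ.1 = 0 ∧ 0 < ξ.2)), ← hhm]
  have h2 : (V_Pars_box m).filter (fun ξ => ¬ (0 < ξ.1 ∨ (ξ.1 = 0 ∧ 0 < ξ.2))) =
      insert 0 ((hm m).map (Equiv.neg (ℤ × ℤ)).toEmbedding) := by
    ext ξ
    rw [hhm]
    simp only [Finset.mem_filter, Finset.mem_insert, Finset.mem_map, Equiv.coe_toEmbedding,
      Equiv.neg_apply, V_Pars_box, Finset.mem_product, Finset.mem_Icc]
    constructor
    · rintro ⟨⟨⟨h1, h2⟩, h3, h4⟩, h5⟩
      by_cases h0 : ξ = 0
      · exact Or.inl h0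
      · right
        refine ⟨-ξ, ⟨⟨⟨?_, ?_⟩, ?_, ?_⟩, ?_⟩, neg_neg ξ⟩
        · rw [Prod.fst_neg]; omega
        · rw [Prod.fst_neg]; omega
        · rw [Prod.snd_neg]; omega
        · rw [Prod.snd_neg]; omega
        · rw [Prod.fst_neg, Prod.snd_neg]
          have : ¬ (ξ.1 = 0 ∧ ξ.2 = 0) := fun h => h0 (Prod.ext h.1 h.2)
          omega
    · rintro (h | ⟨η, ⟨⟨⟨h1, h2⟩, h3, h4⟩, h5⟩, rfl⟩)
      · subst h
        simp
      · rw [Prod.fst_neg, Prod.snd_neg]
        omega
  rw [h2, Finset.sum_insert, Finset.sum_map]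
  · simp only [Equiv.coe_toEmbedding, Equiv.neg_apply, V_Pars_A_neg, V_Pars_A_zero]
    ring
  · rw [hhm]
    simp only [Finset.mem_map, Finset.mem_filter, Equiv.coe_toEmbedding, Equiv.neg_apply,
      not_exists, not_and]
    rintro η ⟨-, h5⟩ h6
    have h7 : η = 0 := by simpa using h6
    subst h7
    simp at h5

theorem pr_V_Pars : V_Pars := by
  intro a b ha hb f g hf hg
  have h1 := (V_Pars_hasSum ha hb hf hg).comp V_Pars_box_tendsto
  have h2 := h1.const_mul (1 / (a * b))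
  have hab : a * b ≠ 0 := by positivity
  have e1 : 1 / (a * b) * (a * b * ti a b (fun z => f z * g z)) =
      ti a b (fun z => f z * g z) := by field_simp
  rw [e1] at h2
  refine h2.congr fun m => ?_
  rw [Function.comp_apply, V_Pars_sum_box]
  have e2 : ∑ i : hm m × Bool, ti a b (fun z => f z * md a b (i.1.1, i.2) z) *
      ti a b (fun z => g z * md a b (i.1.1, i.2) z) = ∑ ξ ∈ hm m, V_Pars_A a b f g ξ := by
    rw [Fintype.sum_prod_type, ← Finset.sum_coe_sort (hm m)]
    apply Finset.sum_congr rfl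
    intro ξ _
    rw [Fintype.sum_bool]
    simp only [md, if_true, Bool.false_eq_true, if_false, V_Pars_A]
    ring
  rw [e2]
  ring

end Pool.Agent.Vx

end

section

set_option autoImplicit false

open Complex Set Filter Topology MeasureTheory Metric
open scoped Real ContDiff

namespace Pool.Agent.Vx

theorem V_TF_si_nonneg (a β : ℝ) {k : ℕ} (c : Pa k) : 0 ≤ si a β c (fun _ => 1) := by
  unfold si
  refine integral_nonneg fun t => ?_
  simp only [one_mul]
  exact (Real.exp_pos _).le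

theorem V_TF_conc_mono {a : ℝ} {k : ℕ} {τ θ ε ε' β : ℝ} {c : Pa k} {t : Fin k → ℝ}
    (h : Conc a τ θ ε β c t) (he : ε ≤ ε') : Conc a τ θ ε' β c t :=
  le_trans h (mul_le_mul_of_nonneg_right he (V_TF_si_nonneg a β c))

theorem V_TF_delta (k : ℕ) (s1 : ℝ) (h : 8 * π * k < s1) :
    ∃ δ : ℝ, 0 < δ ∧ δ ≤ 1 ∧ 8 * k * (1 + 2 * δ) * (2 * π + δ) < 2 * s1 := by
  have h1 : Continuous (fun δ : ℝ => 8 * k * (1 + 2 * δ) * (2 * π + δ)) := by fun_prop
  have h2 : ∀ᶠ δ in 𝓝[>] (0 : ℝ), 8 * k * (1 + 2 * δ) * (2 * π + δ) < 2 * s1 := by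
    refine (h1.tendsto 0).mono_left nhdsWithin_le_nhds |>.eventually_lt_const ?_
    nlinarith
  have h3 : ∀ᶠ δ in 𝓝[>] (0 : ℝ), δ ∈ Ioc (0 : ℝ) 1 := Ioc_mem_nhdsGT one_pos
  obtain ⟨δ, h4, h5⟩ := (h2.and h3).exists
  exact ⟨δ, h5.1, h5.2, h4⟩

theorem V_TF_L (L0 κ A : ℝ) (hκ : 0 < κ) : ∃ L : ℝ, 1 ≤ L ∧ L0 ≤ L ∧ A ≤ κ * Real.log L := by
  have h1 := (Real.tendsto_log_atTop.const_mul_atTop hκ).eventually_ge_atTop A
  obtain ⟨L, h2, h3, h4⟩ := ((eventually_ge_atTop (1 : ℝ)).and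
    ((eventually_ge_atTop L0).and h1)).exists
  exact ⟨L, h2, h3, h4⟩

theorem V_TF_num {k : ℕ} {s1 ρ δ l Ce Cl Cm ab E M W K : ℝ} (hs1 : 0 < s1) (hρ : s1 ≤ ρ)
    (hl : 0 ≤ l) (hδ : 0 < δ) (hab : 0 < ab)
    (hE : E ≤ k * (16 * (1 + 2 * δ) * (2 * π + δ)) * l + Ce)
    (hM : M ≤ -2 * l * ab + Cm) (hW : -Cl ≤ W)
    (hK : K + |Ce| / (2 * s1) + Cl + Cm / ab ≤
      (2 - 8 * k * (1 + 2 * δ) * (2 * π + δ) / s1) * l) :
    E / (2 * ρ) - W + 1 / ab * M ≤ -K := by
  have hρ0 : 0 < ρ := lt_of_lt_of_le hs1 hρ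
  have hπ := Real.pi_pos
  have h1 : E / (2 * ρ) ≤ 8 * k * (1 + 2 * δ) * (2 * π + δ) / s1 * l + |Ce| / (2 * s1) := by
    have h2 : E ≤ k * (16 * (1 + 2 * δ) * (2 * π + δ)) * l + |Ce| :=
      hE.trans (by have := le_abs_self Ce; linarith)
    have h3 : 0 ≤ k * (16 * (1 + 2 * δ) * (2 * π + δ)) * l + |Ce| := by positivity
    calc E / (2 * ρ) ≤ (k * (16 * (1 + 2 * δ) * (2 * π + δ)) * l + |Ce|) / (2 * ρ) := by
          gcongr
      _ ≤ (k * (16 * (1 + 2 * δ) * (2 * π + δ)) * l + |Ce|) / (2 * s1) := by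
          gcongr
      _ = 8 * k * (1 + 2 * δ) * (2 * π + δ) / s1 * l + |Ce| / (2 * s1) := by
          field_simp
          ring
  have h4 : 1 / ab * M ≤ -2 * l + Cm / ab := by
    calc 1 / ab * M ≤ 1 / ab * (-2 * l * ab + Cm) := by gcongr
      _ = -2 * l + Cm / ab := by field_simp
  nlinarith

/-- existence of the test functions -/
theorem pr_V_TF (hcnc : V_cnc) (hreg : V_reg) (hen : V_en) (hmean : V_mean) (hlwl : V_lwl)
    (hmpos : V_mpos) : V_TF := by
  intro a b w ha hb hw k s1 s2 K hks hs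
  obtain ⟨y0, r, c0, hr, hc0, hline⟩ := hw.line
  obtain ⟨τ, hτ, hcn⟩ := hcnc a k ha
  obtain ⟨δ, hδ, hδ1, hδs⟩ := V_TF_delta k s1 hks
  obtain ⟨Ce, hCe⟩ := hen a b y0 τ δ k ha hb hδ hδ1
  obtain ⟨Cm, hCm⟩ := hmean a b y0 τ k ha hb
  obtain ⟨Cl, hCl⟩ := hlwl a b y0 r c0 k ha hb hr hc0
  obtain ⟨L0, hL0⟩ := hmpos a b y0 r c0 τ k w ha hb hr hc0 hτ hw.cont hw.per hw.nonneg hline
  have hs1 : 0 < s1 := lt_of_le_of_lt (by positivity) hks
  have hκ : 0 < 2 - 8 * k * (1 + 2 * δ) * (2 * π + δ) / s1 := by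
    rw [sub_pos, div_lt_iff₀ hs1]
    exact hδs
  obtain ⟨L, hL1, hLL0, hLK⟩ := V_TF_L L0 _ (K + |Ce| / (2 * s1) + Cl + Cm / (a * b)) hκ
  have hLpos : 0 < L := by linarith
  obtain ⟨ε1, hε1, h1⟩ := hCe L hL1
  obtain ⟨ε2, hε2, h2⟩ := hCm L hL1
  obtain ⟨ε3, hε3, h3⟩ := hL0 L hLL0
  obtain ⟨β, hβ⟩ := hcn (δ / L) (min ε1 (min ε2 ε3)) (by positivity)
    (lt_min hε1 (lt_min hε2 hε3))
  obtain ⟨r1, r2, r3, r4⟩ := hreg a b y0 L β k ha hb hLpos
  refine ⟨fun c => tf a b y0 L β c, fun c => tfx a b y0 L β c, fun c => tfy a b y0 L β c,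
    r1, r2, r3, r4, fun c hc => ?_⟩
  obtain ⟨t, ht⟩ := hβ c hc
  have hθ : δ / L ≤ 1 / L := by gcongr
  refine ⟨h3 (δ / L) β c t hc (V_TF_conc_mono ht ((min_le_right _ _).trans (min_le_right _ _))),
    fun ρ hρ => ?_⟩
  exact V_TF_num hs1 hρ.1 (Real.log_nonneg hL1) hδ (mul_pos ha hb)
    (h1 β c t (V_TF_conc_mono ht (min_le_left _ _)))
    (h2 (δ / L) β c t hθ (V_TF_conc_mono ht ((min_le_right _ _).trans (min_le_left _ _))))
    (hCl w hw.cont hw.per hw.nonneg hline L β c hL1) hLK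

end Pool.Agent.Vx

end

section

/-!
# MP_afe918_an, item Vap: a priori bound for the critical points
-/

set_option autoImplicit false

open Complex Set Filter Topology MeasureTheory Metric
open scoped Real ContDiff

namespace Pool.Agent.Vx

theorem V_ap_int {f : ℂ → ℝ} (a b : ℝ) (hf : Continuous f) :
    IntegrableOn f (rect a b 0) := by
  have : rect a b 0 ⊆ closedBall (0 : ℂ) (a / 2 + b / 2) := by
    intro z hz
    simp only [rect, mem_ofPred_eq] at hz
    rw [mem_closedBall, dist_eq_norm]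
    refine (Complex.norm_le_abs_re_add_abs_im _).trans ?_
    rw [Complex.sub_re, Complex.sub_im]
    linarith [hz.1, hz.2]
  exact (hf.continuousOn.integrableOn_compact (isCompact_closedBall _ _)).mono_set this

theorem V_ap_bdd {a b : ℝ} (ha : 0 < a) (hb : 0 < b) {f : ℂ → ℝ} (hf : Continuous f)
    (hp : Per a b f) : ∃ M, ∀ z, |f z| ≤ M := by
  obtain ⟨M, hM⟩ := (isCompact_closedBall (0 : ℂ) (a + b)).exists_bound_of_continuousOn
    hf.continuousOn
  refine ⟨M, fun z => ?_⟩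
  have h1 : Function.Periodic f (a : ℂ) := fun z => (hp z).1
  have h2 : Function.Periodic f (b * I : ℂ) := fun z => (hp z).2
  have h3 : Function.Periodic f (((-⌊z.re / a⌋ : ℤ) : ℂ) * a) := h1.int_mul _
  have h4 : Function.Periodic f (((-⌊z.im / b⌋ : ℤ) : ℂ) * (b * I)) := h2.int_mul _
  have h5 := (h3.add_period h4) z
  rw [← h5, ← Real.norm_eq_abs]
  apply hM
  rw [mem_closedBall, dist_zero_right]
  refine (Complex.norm_le_abs_re_add_abs_im _).trans ?_
  have e1 := Int.floor_le (z.re / a)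
  have e2 := Int.lt_floor_add_one (z.re / a)
  have e3 := Int.floor_le (z.im / b)
  have e4 := Int.lt_floor_add_one (z.im / b)
  rw [le_div_iff₀ ha] at e1
  rw [div_lt_iff₀ ha] at e2
  rw [le_div_iff₀ hb] at e3
  rw [div_lt_iff₀ hb] at e4
  have r1 : (z + (((-⌊z.re / a⌋ : ℤ) : ℂ) * a + ((-⌊z.im / b⌋ : ℤ) : ℂ) * (b * I))).re
      = z.re - ⌊z.re / a⌋ * a := by
    simp
    ring
  have r2 : (z + (((-⌊z.re / a⌋ : ℤ) : ℂ) * a + ((-⌊z.im / b⌋ : ℤ) : ℂ) * (b * I))).im
      = z.im - ⌊z.im / b⌋ * b := by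
    simp
    ring
  rw [r1, r2, abs_of_nonneg (by linarith), abs_of_nonneg (by linarith)]
  linarith

theorem V_ap_en {a b : ℝ} (ha : 0 < a) (hb : 0 < b) (m : ℕ) (c : Co m) : 0 ≤ en a b m c := by
  unfold en
  have h : 0 ≤ ∑ i : hm m × Bool, nu a b i.1.1 * c i ^ 2 := by
    refine Finset.sum_nonneg fun i _ => ?_
    unfold nu
    positivity
  positivity

theorem pr_V_ap (hBes : V_Bes) (hMT : V_MT) (hjen : V_jen) (horth : V_orth) : V_ap := by
  intro a b F hth w hw R s2
  have ha := hth.apos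
  have hb := hth.bpos
  obtain ⟨C1, hC1⟩ := hMT a b F hth
  obtain ⟨C2, hC2⟩ := hjen a b ha hb w hw
  obtain ⟨W, hW⟩ := V_ap_bdd ha hb hw.cont hw.per
  set E : ℝ := Real.exp (|C1| * (1 + |R|)) with hE
  refine ⟨(2 * s2 / (a * b)) ^ 2 * ((Real.exp C2) ^ 2 * (a * b / 2 * (W ^ 2 * E))), ?_⟩
  intro m ρ c hρ hρs hen hg
  obtain ⟨-, -, h3⟩ := horth a b ha hb m
  obtain ⟨hBM, hcu, hm0, -⟩ := h3 c
  set u : ℂ → ℝ := tp a b m c with hu
  set f : ℂ → ℝ := fun z => w z * Real.exp (u z) with hf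
  have hfc : Continuous f := hw.cont.mul (Real.continuous_exp.comp hcu)
  have hfp : Per a b f := fun z => by
    simp only [hf]
    rw [(hw.per z).1, (hw.per z).2, (hBM.per z).1, (hBM.per z).2]
    exact ⟨rfl, rfl⟩
  obtain ⟨hZ, hl⟩ := hC2 u hcu hBM.per
  set Z : ℝ := ti a b f with hZd
  have hZ' : 0 < Z := hZ
  have hZ2 : Real.exp (-C2) ≤ Z := by
    rw [hm0, mul_zero, zero_sub] at hl
    exact (Real.le_log_iff_exp_le hZ).1 hl
  have hZ3 : 1 / Z ≤ Real.exp C2 := by
    rw [div_le_iff₀ hZ']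
    calc (1 : ℝ) = Real.exp C2 * Real.exp (-C2) := by rw [← Real.exp_add, add_neg_cancel, Real.exp_zero]
      _ ≤ Real.exp C2 * Z := mul_le_mul_of_nonneg_left hZ2 (Real.exp_pos _).le
  have h5 := (hBes a b ha hb).1 f ⟨hfc.measurable, hfp, V_ap_bdd ha hb hfc hfp⟩ m
  set S : ℝ := ∑ i : hm m × Bool, (ti a b (fun z => f z * md a b (i.1.1, i.2) z)) ^ 2 with hS
  have hab : 0 < a * b := mul_pos ha hb
  have h7 : ti a b (fun z => f z ^ 2) ≤ W ^ 2 * E := by
    have e1 : ti a b (fun z => f z ^ 2) ≤ ti a b (fun z => W ^ 2 * Real.exp (2 * u z)) := by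
      unfold ti
      refine setIntegral_mono (V_ap_int a b (hfc.pow 2)) (V_ap_int a b ?_) fun z => ?_
      · exact continuous_const.mul (Real.continuous_exp.comp (continuous_const.mul hcu))
      · simp only [hf, mul_pow]
        have e2 : Real.exp (u z) ^ 2 = Real.exp (2 * u z) := by
          rw [← Real.exp_nat_mul]
          norm_num
        rw [e2]
        refine mul_le_mul_of_nonneg_right ?_ (Real.exp_pos _).le
        rw [← sq_abs (w z)]
        exact pow_le_pow_left₀ (abs_nonneg _) (hW z) 2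
    have e3 : ti a b (fun z => W ^ 2 * Real.exp (2 * u z)) =
        W ^ 2 * ti a b (fun z => Real.exp (2 * u z)) := integral_const_mul _ _
    have e4 : ti a b (fun z => Real.exp (2 * u z)) ≤ E := by
      refine (hC1 m c).trans (Real.exp_le_exp.2 ?_)
      have h0 := V_ap_en ha hb m c
      have h1 : 1 + en a b m c ≤ 1 + |R| := by linarith [le_abs_self R]
      calc C1 * (1 + en a b m c) ≤ |C1| * (1 + en a b m c) :=
            mul_le_mul_of_nonneg_right (le_abs_self _) (by linarith)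
        _ ≤ |C1| * (1 + |R|) := mul_le_mul_of_nonneg_left h1 (abs_nonneg _)
    rw [e3] at e1
    exact e1.trans (mul_le_mul_of_nonneg_left e4 (sq_nonneg _))
  have h6 : S ≤ a * b / 2 * (W ^ 2 * E) := by
    have e1 : 0 ≤ 1 / (a * b) * (ti a b f) ^ 2 := by positivity
    have e2 : 2 / (a * b) * S ≤ W ^ 2 * E := by linarith
    rw [div_mul_eq_mul_div, div_le_iff₀ hab] at e2
    linarith
  have h8 : ∀ i : hm m × Bool, nu a b i.1.1 * c i =
      2 * ρ / (a * b) * (1 / Z * ti a b (fun z => f z * md a b (i.1.1, i.2) z)) := by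
    intro i
    have e1 := congrArg (fun v : Co m => v i) hg
    have e2 : a * b * nu a b i.1.1 * c i = 2 * ρ *
        (ti a b (fun z => md a b (i.1.1, i.2) z * (w z * Real.exp (tp a b m c z))) /
          ti a b (fun z => w z * Real.exp (tp a b m c z))) := e1
    have e3 : (fun z => md a b (i.1.1, i.2) z * (w z * Real.exp (tp a b m c z))) =
        fun z => f z * md a b (i.1.1, i.2) z := by
      funext z
      rw [mul_comm]
    rw [e3] at e2
    have e4 : ti a b (fun z => w z * Real.exp (tp a b m c z)) = Z := rfl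
    rw [e4] at e2
    field_simp
    rw [div_eq_mul_inv] at e2
    field_simp at e2
    linarith
  have h9 : ∑ i : hm m × Bool, (nu a b i.1.1 * c i) ^ 2 =
      (2 * ρ / (a * b)) ^ 2 * ((1 / Z) ^ 2 * S) := by
    rw [hS, Finset.mul_sum, Finset.mul_sum]
    refine Finset.sum_congr rfl fun i _ => ?_
    rw [h8 i]
    ring
  rw [h9]
  have hS0 : 0 ≤ S := by
    rw [hS]
    exact Finset.sum_nonneg fun i _ => sq_nonneg (ti a b (fun z => f z * md a b (i.1.1, i.2) z))
  have k1 : (2 * ρ / (a * b)) ^ 2 ≤ (2 * s2 / (a * b)) ^ 2 := by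
    refine pow_le_pow_left₀ (by positivity) ?_ 2
    exact div_le_div_of_nonneg_right (by linarith) hab.le
  have k2 : (1 / Z) ^ 2 ≤ Real.exp C2 ^ 2 := pow_le_pow_left₀ (by positivity) hZ3 2
  have k3 : (1 / Z) ^ 2 * S ≤ Real.exp C2 ^ 2 * (a * b / 2 * (W ^ 2 * E)) :=
    mul_le_mul k2 h6 hS0 (sq_nonneg _)
  exact mul_le_mul k1 k3 (mul_nonneg (sq_nonneg _) hS0) (sq_nonneg _)

end Pool.Agent.Vx

end

section

/-!
# MP_afe918_an, item Vbro: a consequence of Brouwer's theorem
-/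

set_option autoImplicit false

open Complex Set Filter Topology MeasureTheory Metric
open scoped Real ContDiff

namespace Pool.Agent.Vx

theorem V_bro_fix (k : ℕ) (g : Pa k → Pa k) (hg : Continuous g) (hb : ∀ y, ‖g y‖ ≤ 1) :
    ∃ y, g y = y := by
  classical
  let d := Fintype.card (Fin k × Bool)
  let e : (Fin k × Bool) ≃ Fin d := Fintype.equivFin _
  let Y : (Fin d → ℝ) → Pa k := fun x => WithLp.toLp 2 fun i => 2 * x (e i) - 1
  have hY : Continuous Y := by
    refine (PiLp.continuous_toLp 2 _).comp ?_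
    exact continuous_pi fun i => by fun_prop
  let G : (Fin d → ℝ) → (Fin d → ℝ) := fun x j => (g (Y x) (e.symm j) + 1) / 2
  have hG : Continuous G := by
    refine continuous_pi fun j => ?_
    have h1 : Continuous fun y : Pa k => y (e.symm j) := by fun_prop
    have h2 : Continuous fun x => g (Y x) (e.symm j) := h1.comp (hg.comp hY)
    exact (h2.add continuous_const).div_const _
  have hcoord : ∀ (y : Pa k) (i), ‖y‖ ≤ 1 → -1 ≤ y i ∧ y i ≤ 1 := by
    intro y i hy
    have h1 : ‖y i‖ ≤ ‖y‖ := PiLp.norm_apply_le y i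
    rw [Real.norm_eq_abs] at h1
    exact abs_le.mp (h1.trans hy)
  have hmap : Set.MapsTo G (Set.Icc 0 1) (Set.Icc 0 1) := by
    intro x _
    refine ⟨fun j => ?_, fun j => ?_⟩
    · have := (hcoord _ (e.symm j) (hb (Y x))).1
      show (0 : ℝ) ≤ (g (Y x) (e.symm j) + 1) / 2
      linarith
    · have := (hcoord _ (e.symm j) (hb (Y x))).2
      show (g (Y x) (e.symm j) + 1) / 2 ≤ 1
      linarith
  obtain ⟨x, -, hx⟩ := Pool.Agent.Brouwer.brouwer_cube d G hG.continuousOn hmap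
  refine ⟨Y x, ?_⟩
  ext i
  have h1 : (g (Y x) (e.symm (e i)) + 1) / 2 = x (e i) := congrFun hx (e i)
  rw [e.symm_apply_apply] at h1
  show g (Y x) i = 2 * x (e i) - 1
  linarith

theorem pr_V_bro : V_bro := by
  intro k f hf hpos
  by_contra hno
  push Not at hno
  let R : Pa k → Pa k := fun y => (max 1 ‖y‖)⁻¹ • y
  have hm : ∀ y : Pa k, 0 < max 1 ‖y‖ := fun y => lt_of_lt_of_le one_pos (le_max_left _ _)
  have hR : Continuous R := by
    have h1 : Continuous fun y : Pa k => (max 1 ‖y‖)⁻¹ :=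
      (continuous_const.max continuous_norm).inv₀ fun y => (hm y).ne'
    exact h1.smul continuous_id
  have hR1 : ∀ y, ‖R y‖ ≤ 1 := by
    intro y
    show ‖(max 1 ‖y‖)⁻¹ • y‖ ≤ 1
    rw [norm_smul, norm_inv, Real.norm_of_nonneg (hm y).le, inv_mul_le_iff₀ (hm y), mul_one]
    exact le_max_right _ _
  have hfR : ∀ y, f (R y) ≠ 0 := fun y => hno (R y) (hR1 y)
  have hfn : ∀ y, 0 < ‖f (R y)‖ := fun y => norm_pos_iff.mpr (hfR y)
  obtain ⟨y, hy⟩ := V_bro_fix k (fun y => -(‖f (R y)‖⁻¹ • f (R y)))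
    (((((hf.comp hR).norm.inv₀ fun y => (hfn y).ne')).smul (hf.comp hR)).neg)
    (fun y => by
      rw [norm_neg, norm_smul, norm_inv, norm_norm, inv_mul_cancel₀ (hfn y).ne'])
  have hy1 : ‖y‖ = 1 := by
    rw [← hy, norm_neg, norm_smul, norm_inv, norm_norm, inv_mul_cancel₀ (hfn y).ne']
  have hRy : R y = y := by
    show (max 1 ‖y‖)⁻¹ • y = y
    rw [hy1, max_self, inv_one, one_smul]
  have h1 := hpos y hy1
  rw [hRy] at hy
  have h2 : inner ℝ (f y) y = -(‖f y‖⁻¹ * ‖f y‖ ^ 2) := by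
    have h3 : inner ℝ (f y) (-(‖f y‖⁻¹ • f y)) = -(‖f y‖⁻¹ * ‖f y‖ ^ 2) := by
      rw [inner_neg_right, inner_smul_right, real_inner_self_eq_norm_sq]
    have hy' : -(‖f y‖⁻¹ • f y) = y := hy
    rw [hy'] at h3
    exact h3
  rw [h2] at h1
  have : 0 ≤ ‖f y‖⁻¹ * ‖f y‖ ^ 2 := by positivity
  linarith

end Pool.Agent.Vx

end

section

/-! MP_afe918_an, item Vcpt: compactness of trigonometric polynomials. -/

set_option autoImplicit false

open Complex Set Filter Topology MeasureTheory Metric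
open scoped Real ContDiff

namespace Pool.Agent.Vx

/-- extension of the coefficients by zero -/
noncomputable def V_cpt_ext (M : ℕ) (c : Co M) (i : (ℤ × ℤ) × Bool) : ℝ :=
  if h : i.1 ∈ hm M then c (⟨i.1, h⟩, i.2) else 0

lemma V_cpt_hs (M : ℕ) (c : Co M) (G : (ℤ × ℤ) × Bool → ℝ → ℝ) (hG : ∀ i, G i 0 = 0) :
    HasSum (fun i => G i (V_cpt_ext M c i)) (∑ i : hm M × Bool, G (i.1.1, i.2) (c i)) := by
  have h1 : ∀ i ∉ (hm M ×ˢ (Finset.univ : Finset Bool)), G i (V_cpt_ext M c i) = 0 := by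
    intro i hi
    have : i.1 ∉ hm M := by
      intro h
      exact hi (Finset.mem_product.mpr ⟨h, Finset.mem_univ _⟩)
    rw [V_cpt_ext, dif_neg this, hG]
  have h2 := hasSum_sum_of_ne_finset_zero (L := SummationFilter.unconditional _) h1
  have h3 : ∑ i ∈ hm M ×ˢ (Finset.univ : Finset Bool), G i (V_cpt_ext M c i) =
      ∑ i : hm M × Bool, G (i.1.1, i.2) (c i) := by
    rw [Finset.sum_product, Fintype.sum_prod_type, ← Finset.sum_coe_sort (hm M)]
    refine Finset.sum_congr rfl fun x _ => Finset.sum_congr rfl fun y _ => ?_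
    rw [V_cpt_ext, dif_pos x.2]
  rwa [h3] at h2

lemma V_cpt_sumZ : Summable (fun m : ℤ => 1 / (1 + (m : ℝ) ^ 2)) := by
  have h1 : Summable (fun m : ℤ => 1 / (m : ℝ) ^ 2) :=
    Real.summable_one_div_int_pow.mpr (by norm_num)
  have h2 : Summable (fun m : ℤ => if m = 0 then (1 : ℝ) else 0) :=
    (hasSum_sum_of_ne_finset_zero (L := SummationFilter.unconditional _)
      (f := fun m : ℤ => if m = 0 then (1 : ℝ) else 0) (s := {0}) (by
        intro b hb
        have : b ≠ 0 := by simpa using hb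
        simp [this])).summable
  refine Summable.of_nonneg_of_le (fun m => by positivity) (fun m => ?_) (h1.add h2)
  by_cases hm0 : m = 0
  · subst hm0; norm_num
  · rw [if_neg hm0, add_zero]
    have : (0 : ℝ) < (m : ℝ) ^ 2 := by positivity
    apply one_div_le_one_div_of_le this
    linarith

lemma V_cpt_summable {a b : ℝ} (ha : 0 < a) (hb : 0 < b) :
    Summable (fun i : (ℤ × ℤ) × Bool => 1 / nu a b i.1 ^ 2) := by
  obtain ⟨κ, hκ⟩ : ∃ κ : ℝ, κ = 4 * π ^ 2 * min (1 / a ^ 2) (1 / b ^ 2) := ⟨_, rfl⟩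
  have hκ0 : 0 < κ := by
    rw [hκ]
    have h1 : 0 < min (1 / a ^ 2) (1 / b ^ 2) := lt_min (by positivity) (by positivity)
    positivity
  have hnu : ∀ ξ : ℤ × ℤ, κ * ((ξ.1 : ℝ) ^ 2 + (ξ.2 : ℝ) ^ 2) ≤ nu a b ξ := by
    intro ξ
    rw [hκ, nu, mul_assoc]
    apply mul_le_mul_of_nonneg_left _ (by positivity)
    rw [div_pow, div_pow, mul_add]
    have h1 := min_le_left (1 / a ^ 2) (1 / b ^ 2)
    have h2 := min_le_right (1 / a ^ 2) (1 / b ^ 2)
    have h3 := mul_le_mul_of_nonneg_right h1 (sq_nonneg (ξ.1 : ℝ))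
    have h4 := mul_le_mul_of_nonneg_right h2 (sq_nonneg (ξ.2 : ℝ))
    have e1 : 1 / a ^ 2 * (ξ.1 : ℝ) ^ 2 = (ξ.1 : ℝ) ^ 2 / a ^ 2 := by ring
    have e2 : 1 / b ^ 2 * (ξ.2 : ℝ) ^ 2 = (ξ.2 : ℝ) ^ 2 / b ^ 2 := by ring
    linarith
  have h1 : Summable (fun ξ : ℤ × ℤ => (1 / (1 + (ξ.1 : ℝ) ^ 2)) * (1 / (1 + (ξ.2 : ℝ) ^ 2))) :=
    V_cpt_sumZ.mul_of_nonneg V_cpt_sumZ (fun m => by positivity) (fun m => by positivity)
  have h2 : Summable (fun i : (ℤ × ℤ) × Bool =>
      ((1 / (1 + (i.1.1 : ℝ) ^ 2)) * (1 / (1 + (i.1.2 : ℝ) ^ 2))) * (fun _ : Bool => (1 : ℝ)) i.2) :=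
    h1.mul_of_nonneg (Summable.of_finite) (fun ξ => by positivity) (fun _ => zero_le_one)
  refine Summable.of_nonneg_of_le (fun i => by positivity) (fun i => ?_)
    (h2.mul_left (4 / κ ^ 2))
  obtain ⟨⟨m, n⟩, s⟩ := i
  simp only [mul_one]
  by_cases h0 : (m, n) = ((0, 0) : ℤ × ℤ)
  · rw [h0]
    have : nu a b (0, 0) = 0 := by simp [nu]
    rw [this]
    simp only [ne_eq, OfNat.ofNat_ne_zero, not_false_eq_true, zero_pow, div_zero]
    positivity
  · have hmn : (1 : ℝ) ≤ (m : ℝ) ^ 2 + (n : ℝ) ^ 2 := by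
      have : 1 ≤ m ^ 2 + n ^ 2 := by
        by_contra hcon
        push Not at hcon
        have hm1 : m ^ 2 = 0 := le_antisymm (by nlinarith [sq_nonneg n]) (sq_nonneg m)
        have hn1 : n ^ 2 = 0 := le_antisymm (by nlinarith [sq_nonneg m]) (sq_nonneg n)
        have hm0 : m = 0 := by simpa using hm1
        have hn0 : n = 0 := by simpa using hn1
        exact h0 (by rw [hm0, hn0])
      exact_mod_cast this
    have h3 := hnu (m, n)
    simp only at h3
    have hp : 0 < κ * ((m : ℝ) ^ 2 + (n : ℝ) ^ 2) := by positivity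
    have h4 : (κ * ((m : ℝ) ^ 2 + (n : ℝ) ^ 2)) ^ 2 ≤ nu a b (m, n) ^ 2 :=
      pow_le_pow_left₀ hp.le h3 2
    have h5 : (1 + (m : ℝ) ^ 2) * (1 + (n : ℝ) ^ 2) ≤ 4 * ((m : ℝ) ^ 2 + (n : ℝ) ^ 2) ^ 2 := by
      have h6 : 1 + (m : ℝ) ^ 2 ≤ 2 * ((m : ℝ) ^ 2 + (n : ℝ) ^ 2) := by
        nlinarith [sq_nonneg (m : ℝ), sq_nonneg (n : ℝ)]
      have h7 : 1 + (n : ℝ) ^ 2 ≤ 2 * ((m : ℝ) ^ 2 + (n : ℝ) ^ 2) := by
        nlinarith [sq_nonneg (m : ℝ), sq_nonneg (n : ℝ)]
      calc (1 + (m : ℝ) ^ 2) * (1 + (n : ℝ) ^ 2) ≤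
          (2 * ((m : ℝ) ^ 2 + (n : ℝ) ^ 2)) * (2 * ((m : ℝ) ^ 2 + (n : ℝ) ^ 2)) := by gcongr
        _ = _ := by ring
    calc 1 / nu a b (m, n) ^ 2 ≤ 1 / (κ * ((m : ℝ) ^ 2 + (n : ℝ) ^ 2)) ^ 2 :=
          one_div_le_one_div_of_le (by positivity) h4
      _ = 4 / κ ^ 2 * (1 / (4 * ((m : ℝ) ^ 2 + (n : ℝ) ^ 2) ^ 2)) := by
          field_simp
      _ ≤ 4 / κ ^ 2 * (1 / ((1 + (m : ℝ) ^ 2) * (1 + (n : ℝ) ^ 2))) := by
          gcongr
      _ = 4 / κ ^ 2 * (1 / (1 + (m : ℝ) ^ 2) * (1 / (1 + (n : ℝ) ^ 2))) := by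
          rw [one_div_mul_one_div]

lemma V_cpt_md_le (a b : ℝ) (i : (ℤ × ℤ) × Bool) (z : ℂ) : |md a b i z| ≤ 1 := by
  unfold md
  split_ifs
  · exact Real.abs_sin_le_one _
  · exact Real.abs_cos_le_one _

lemma V_cpt_md_per {a b : ℝ} (ha : 0 < a) (hb : 0 < b) (i : (ℤ × ℤ) × Bool) :
    Per a b (md a b i) := by
  intro z
  have e1 : ph a b i.1 (z + a) = ph a b i.1 z + i.1.1 * (2 * π) := by
    unfold ph
    simp only [Complex.add_re, Complex.add_im, Complex.ofReal_re, Complex.ofReal_im, add_zero]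
    field_simp
    ring
  have e2 : ph a b i.1 (z + b * I) = ph a b i.1 z + i.1.2 * (2 * π) := by
    unfold ph
    simp only [Complex.add_re, Complex.add_im, Complex.mul_re, Complex.mul_im, Complex.ofReal_re,
      Complex.ofReal_im, Complex.I_re, Complex.I_im, mul_zero, mul_one, sub_zero,
      add_zero]
    field_simp
    ring
  unfold md
  rw [e1, e2]
  split_ifs
  · exact ⟨Real.sin_add_int_mul_two_pi _ _, Real.sin_add_int_mul_two_pi _ _⟩
  · exact ⟨Real.cos_add_int_mul_two_pi _ _, Real.cos_add_int_mul_two_pi _ _⟩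

lemma V_cpt_md_cont (a b : ℝ) (i : (ℤ × ℤ) × Bool) : Continuous (md a b i) := by
  unfold md
  have hph : Continuous (ph a b i.1) := by
    unfold ph
    fun_prop
  split_ifs
  · exact Real.continuous_sin.comp hph
  · exact Real.continuous_cos.comp hph

lemma V_cpt_tp_cont (a b : ℝ) (M : ℕ) (c : Co M) : Continuous (tp a b M c) := by
  unfold tp
  exact continuous_finsetSum _ fun i _ => continuous_const.mul (V_cpt_md_cont a b _)

lemma V_cpt_tp_per {a b : ℝ} (ha : 0 < a) (hb : 0 < b) (M : ℕ) (c : Co M) :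
    Per a b (tp a b M c) := by
  intro z
  unfold tp
  constructor
  · refine Finset.sum_congr rfl fun i _ => ?_
    rw [(V_cpt_md_per ha hb _ z).1]
  · refine Finset.sum_congr rfl fun i _ => ?_
    rw [(V_cpt_md_per ha hb _ z).2]

/-- the analytic core: uniform smallness of the sum of the differences -/
lemma V_cpt_core {ι : Type} {w : ι → ℝ} (hw : ∀ i, 0 ≤ w i) (hws : Summable (fun i => w i ^ 2))
    {C : ℝ} {D : ℕ → ι → ℝ} {D0 : ι → ℝ} (hD : ∀ j, Summable (fun i => D j i ^ 2))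
    (hDC : ∀ j, ∑' i, D j i ^ 2 ≤ C) (hD0 : Summable (fun i => D0 i ^ 2))
    (hD0C : ∑' i, D0 i ^ 2 ≤ C) (hlim : ∀ i, Tendsto (fun j => D j i) atTop (𝓝 (D0 i)))
    {ε : ℝ} (hε : 0 < ε) :
    (∀ j, Summable (fun i => |D j i - D0 i| * w i)) ∧
    ∀ᶠ j in atTop, ∑' i, |D j i - D0 i| * w i ≤ ε := by
  have hC : 0 ≤ C := (tsum_nonneg fun i => sq_nonneg (D0 i)).trans hD0C
  have hdd : ∀ j, Summable (fun i => (D j i - D0 i) ^ 2) ∧
      ∑' i, (D j i - D0 i) ^ 2 ≤ 4 * C := by
    intro j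
    have hb : ∀ i, (D j i - D0 i) ^ 2 ≤ 2 * D j i ^ 2 + 2 * D0 i ^ 2 := by
      intro i
      nlinarith [sq_nonneg (D j i + D0 i)]
    have hs : Summable (fun i => 2 * D j i ^ 2 + 2 * D0 i ^ 2) :=
      ((hD j).mul_left 2).add (hD0.mul_left 2)
    have h1 : Summable (fun i => (D j i - D0 i) ^ 2) :=
      Summable.of_nonneg_of_le (fun i => sq_nonneg _) hb hs
    refine ⟨h1, (h1.tsum_le_tsum hb hs).trans ?_⟩
    rw [((hD j).mul_left 2).tsum_add (hD0.mul_left 2), tsum_mul_left, tsum_mul_left]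
    linarith [hDC j]
  -- pointwise bound with a parameter
  have hpt : ∀ (t : ℝ), 0 < t → ∀ j i, |D j i - D0 i| * w i ≤
      t * (D j i - D0 i) ^ 2 + 1 / t * w i ^ 2 := by
    intro t ht j i
    have h1 : 0 ≤ (t * |D j i - D0 i| - w i) ^ 2 := sq_nonneg _
    have h2 : |D j i - D0 i| ^ 2 = (D j i - D0 i) ^ 2 := sq_abs _
    have h3 := abs_nonneg (D j i - D0 i)
    have h4 : t * (D j i - D0 i) ^ 2 + 1 / t * w i ^ 2 =
        (t ^ 2 * |D j i - D0 i| ^ 2 + w i ^ 2) / t := by
      rw [h2]; field_simp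
    rw [h4, le_div_iff₀ ht]
    nlinarith [mul_nonneg h3 (hw i), mul_nonneg ht.le (mul_nonneg h3 (hw i))]
  have hsum : ∀ j, Summable (fun i => |D j i - D0 i| * w i) := by
    intro j
    refine Summable.of_nonneg_of_le (fun i => mul_nonneg (abs_nonneg _) (hw i))
      (fun i => hpt 1 one_pos j i) ?_
    exact ((hdd j).1.mul_left 1).add (hws.mul_left (1 / 1))
  refine ⟨hsum, ?_⟩
  obtain ⟨t, ht⟩ : ∃ t : ℝ, t = ε / (3 * (4 * C + 1)) := ⟨_, rfl⟩
  have ht0 : 0 < t := by rw [ht]; positivity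
  -- choice of the finite set
  classical
  have hη : 0 < ε * t / 3 := by positivity
  obtain ⟨S, hS⟩ : ∃ S : Finset ι, ∑' i, w i ^ 2 - ε * t / 3 < ∑ i ∈ S, w i ^ 2 := by
    have h1 : ∀ᶠ S : Finset ι in atTop, ∑' i, w i ^ 2 - ε * t / 3 < ∑ i ∈ S, w i ^ 2 :=
      hws.hasSum.eventually_const_lt (by linarith)
    exact h1.exists
  have hfin : ∀ g : ι → ℝ, HasSum (fun i => if i ∈ S then g i else 0) (∑ i ∈ S, g i) := by
    intro g
    have h1 := hasSum_sum_of_ne_finset_zero (L := SummationFilter.unconditional _)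
      (f := fun i => if i ∈ S then g i else 0) (s := S) (fun i hi => by simp [hi])
    have h2 : ∑ i ∈ S, (if i ∈ S then g i else 0) = ∑ i ∈ S, g i :=
      Finset.sum_congr rfl fun i hi => by simp [hi]
    rwa [h2] at h1
  have hlimS : Tendsto (fun j => ∑ i ∈ S, |D j i - D0 i| * w i) atTop (𝓝 0) := by
    have h1 : Tendsto (fun j => ∑ i ∈ S, |D j i - D0 i| * w i) atTop
        (𝓝 (∑ i ∈ S, |D0 i - D0 i| * w i)) := by
      apply tendsto_finsetSum
      intro i _
      exact ((hlim i).sub_const (D0 i)).abs.mul_const (w i)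
    simpa using h1
  filter_upwards [hlimS.eventually_le_const (show (0 : ℝ) < ε / 3 by positivity)] with j hj
  have htail : HasSum (fun i => w i ^ 2 - (if i ∈ S then w i ^ 2 else 0))
      (∑' i, w i ^ 2 - ∑ i ∈ S, w i ^ 2) := hws.hasSum.sub (hfin fun i => w i ^ 2)
  have hB : HasSum (fun i => (if i ∈ S then |D j i - D0 i| * w i else 0) +
      (t * (D j i - D0 i) ^ 2 + 1 / t * (w i ^ 2 - (if i ∈ S then w i ^ 2 else 0))))
      (∑ i ∈ S, |D j i - D0 i| * w i + (t * ∑' i, (D j i - D0 i) ^ 2 +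
        1 / t * (∑' i, w i ^ 2 - ∑ i ∈ S, w i ^ 2))) :=
    (hfin fun i => |D j i - D0 i| * w i).add
      (((hdd j).1.hasSum.mul_left t).add (htail.mul_left (1 / t)))
  have hle : ∀ i, |D j i - D0 i| * w i ≤ (if i ∈ S then |D j i - D0 i| * w i else 0) +
      (t * (D j i - D0 i) ^ 2 + 1 / t * (w i ^ 2 - (if i ∈ S then w i ^ 2 else 0))) := by
    intro i
    by_cases hi : i ∈ S
    · simp only [hi, if_true, sub_self, mul_zero, add_zero]
      have : 0 ≤ t * (D j i - D0 i) ^ 2 := by positivity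
      linarith
    · simp only [hi, if_false, sub_zero, zero_add]
      exact hpt t ht0 j i
  have h1 := (hsum j).tsum_le_tsum hle hB.summable
  rw [hB.tsum_eq] at h1
  have h2 : t * ∑' i, (D j i - D0 i) ^ 2 ≤ ε / 3 := by
    calc t * ∑' i, (D j i - D0 i) ^ 2 ≤ t * (4 * C + 1) := by
          have := (hdd j).2
          gcongr
          linarith
      _ = ε / 3 := by rw [ht]; field_simp
  have h3 : 1 / t * (∑' i, w i ^ 2 - ∑ i ∈ S, w i ^ 2) ≤ ε / 3 := by
    calc 1 / t * (∑' i, w i ^ 2 - ∑ i ∈ S, w i ^ 2) ≤ 1 / t * (ε * t / 3) := by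
          gcongr
          linarith
      _ = ε / 3 := by field_simp
  linarith

theorem pr_V_cpt : V_cpt := by
  intro a b ha hb C M _ c hc
  have hws := V_cpt_summable ha hb
  obtain ⟨w, hw⟩ : ∃ w : (ℤ × ℤ) × Bool → ℝ, w = fun i => 1 / nu a b i.1 := ⟨_, rfl⟩
  have hnu0 : ∀ ξ : ℤ × ℤ, 0 ≤ nu a b ξ := fun ξ => by unfold nu; positivity
  have hw0 : ∀ i, 0 ≤ w i := fun i => by rw [hw]; exact one_div_nonneg.mpr (hnu0 _)
  have hws' : Summable (fun i => w i ^ 2) := by
    refine hws.congr fun i => ?_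
    rw [hw]
    simp only [one_div, inv_pow]
  obtain ⟨D, hD⟩ : ∃ D : ℕ → (ℤ × ℤ) × Bool → ℝ,
      D = fun j i => nu a b i.1 * V_cpt_ext (M j) (c j) i := ⟨_, rfl⟩
  have hC : 0 ≤ C := (Finset.sum_nonneg fun i _ => sq_nonneg _).trans (hc 0)
  have hDs : ∀ j, HasSum (fun i => D j i ^ 2)
      (∑ i : hm (M j) × Bool, (nu a b i.1.1 * c j i) ^ 2) := by
    intro j
    have := V_cpt_hs (M j) (c j) (fun i x => (nu a b i.1 * x) ^ 2) (by intro i; simp)
    rw [hD]
    exact this
  have hDs1 : ∀ j, Summable (fun i => D j i ^ 2) := fun j => (hDs j).summable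
  have hDC : ∀ j, ∑' i, D j i ^ 2 ≤ C := fun j => by rw [(hDs j).tsum_eq]; exact hc j
  have hDi : ∀ j i, D j i ∈ Icc (-Real.sqrt C) (Real.sqrt C) := by
    intro j i
    have h1 : D j i ^ 2 ≤ C := ((hDs1 j).le_tsum i fun _ _ => sq_nonneg _).trans (hDC j)
    have h2 : |D j i| ≤ Real.sqrt C := Real.abs_le_sqrt h1
    exact abs_le.mp h2
  have hcomp : IsCompact (Set.pi univ (fun _ : (ℤ × ℤ) × Bool =>
      Icc (-Real.sqrt C) (Real.sqrt C))) := isCompact_univ_pi fun _ => isCompact_Icc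
  obtain ⟨D0, _, s, hs, hlim⟩ := hcomp.tendsto_subseq (x := D) (fun j i _ => hDi j i)
  rw [tendsto_pi_nhds] at hlim
  -- the limit
  have hfinle : ∀ S : Finset ((ℤ × ℤ) × Bool), ∑ i ∈ S, D0 i ^ 2 ≤ C := by
    intro S
    have h1 : Tendsto (fun j => ∑ i ∈ S, D (s j) i ^ 2) atTop (𝓝 (∑ i ∈ S, D0 i ^ 2)) := by
      apply tendsto_finsetSum
      intro i _
      exact (hlim i).pow 2
    refine le_of_tendsto h1 (Eventually.of_forall fun j => ?_)
    exact ((hDs1 (s j)).sum_le_tsum S fun _ _ => sq_nonneg _).trans (hDC (s j))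
  have hD0s : Summable (fun i => D0 i ^ 2) :=
    summable_of_sum_le (fun i => sq_nonneg _) hfinle
  have hD0C : ∑' i, D0 i ^ 2 ≤ C := hD0s.tsum_le_of_sum_le hfinle
  have hcore := fun {ε : ℝ} (hε : 0 < ε) => V_cpt_core hw0 hws' (D := fun j => D (s j)) (D0 := D0)
    (fun j => hDs1 (s j)) (fun j => hDC (s j)) hD0s hD0C hlim hε
  -- the limit function
  obtain ⟨u, hu⟩ : ∃ u : ℂ → ℝ, u = fun z => ∑' i, D0 i * w i * md a b i z := ⟨_, rfl⟩
  have hu1 : ∀ z, Summable (fun i => D0 i * w i * md a b i z) := by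
    intro z
    have h1 : Summable (fun i => D0 i ^ 2 + w i ^ 2) := hD0s.add hws'
    refine Summable.of_norm_bounded h1 fun i => ?_
    rw [Real.norm_eq_abs, abs_mul, abs_mul, abs_of_nonneg (hw0 i)]
    have h2 := V_cpt_md_le a b i z
    have h3 := abs_nonneg (D0 i)
    have h4 := hw0 i
    have h5 : |D0 i| ^ 2 = D0 i ^ 2 := sq_abs _
    calc |D0 i| * w i * |md a b i z| ≤ |D0 i| * w i * 1 := by gcongr
      _ ≤ D0 i ^ 2 + w i ^ 2 := by
          rw [← h5]
          nlinarith [sq_nonneg (|D0 i| - w i), mul_nonneg h3 h4]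
  have htp : ∀ j z, HasSum (fun i => D j i * w i * md a b i z) (tp a b (M j) (c j) z) := by
    intro j z
    have h1 := V_cpt_hs (M j) (c j) (fun i x => x * md a b i z) (by intro i; simp)
    have h2 : (fun i => D j i * w i * md a b i z) =
        fun i => V_cpt_ext (M j) (c j) i * md a b i z := by
      funext i
      rw [hD, hw]
      simp only
      by_cases h0 : nu a b i.1 = 0
      · have h3 : i.1 ∉ hm (M j) := by
          intro hmem
          have h4 : i.1 ≠ (0, 0) := by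
            intro h5
            rw [h5, hm, Finset.mem_filter] at hmem
            have := hmem.2
            simp at this
          have h5 : 0 < nu a b i.1 := by
            unfold nu
            have h6 : i.1.1 ≠ 0 ∨ i.1.2 ≠ 0 := by
              by_contra hcon
              push Not at hcon
              exact h4 (Prod.ext hcon.1 hcon.2)
            rcases h6 with h6 | h6
            · have : (0 : ℝ) < (((i.1.1 : ℤ) : ℝ) / a) ^ 2 := by
                have : ((i.1.1 : ℤ) : ℝ) ≠ 0 := by exact_mod_cast h6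
                positivity
              positivity
            · have : (0 : ℝ) < (((i.1.2 : ℤ) : ℝ) / b) ^ 2 := by
                have : ((i.1.2 : ℤ) : ℝ) ≠ 0 := by exact_mod_cast h6
                positivity
              positivity
          exact h5.ne' h0
        rw [V_cpt_ext, dif_neg h3]
        simp
      · field_simp
    rw [h2]
    exact h1
  have hunif : ∀ ε : ℝ, 0 < ε → ∀ᶠ j in atTop, ∀ z,
      |tp a b (M (s j)) (c (s j)) z - u z| ≤ ε := by
    intro ε hε
    obtain ⟨hsm, hev⟩ := hcore hε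
    filter_upwards [hev] with j hj z
    have h1 : HasSum (fun i => D (s j) i * w i * md a b i z - D0 i * w i * md a b i z)
        (tp a b (M (s j)) (c (s j)) z - u z) := by
      rw [hu]
      exact (htp (s j) z).sub (hu1 z).hasSum
    have h2 := h1.norm_le_of_bounded (hsm j).hasSum (fun i => by
      rw [Real.norm_eq_abs]
      have e : D (s j) i * w i * md a b i z - D0 i * w i * md a b i z =
          (D (s j) i - D0 i) * w i * md a b i z := by ring
      rw [e, abs_mul, abs_mul, abs_of_nonneg (hw0 i)]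
      have h3 := V_cpt_md_le a b i z
      have h4 : 0 ≤ |D (s j) i - D0 i| * w i := mul_nonneg (abs_nonneg _) (hw0 i)
      calc |D (s j) i - D0 i| * w i * |md a b i z| ≤ |D (s j) i - D0 i| * w i * 1 := by gcongr
        _ = |D (s j) i - D0 i| * w i := mul_one _)
    rw [Real.norm_eq_abs] at h2
    exact h2.trans hj
  have hptw : ∀ z, Tendsto (fun j => tp a b (M (s j)) (c (s j)) z) atTop (𝓝 (u z)) := by
    intro z
    rw [Metric.tendsto_atTop']
    intro ε hε
    obtain ⟨N, hN⟩ := eventually_atTop.mp (hunif (ε / 2) (by positivity))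
    refine ⟨N, fun j hj => ?_⟩
    rw [Real.dist_eq]
    have := hN j hj.le z
    linarith
  refine ⟨s, u, hs, ?_, ?_, hunif⟩
  · have htu : TendstoUniformly (fun j => tp a b (M (s j)) (c (s j))) u atTop := by
      rw [Metric.tendstoUniformly_iff]
      intro ε hε
      filter_upwards [hunif (ε / 2) (by positivity)] with j hj z
      rw [dist_comm, Real.dist_eq]
      have := hj z
      linarith
    exact htu.continuous (Eventually.of_forall fun j => V_cpt_tp_cont a b _ _).frequently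
  · intro z
    constructor
    · refine tendsto_nhds_unique (hptw (z + a)) ?_
      refine (hptw z).congr fun j => ?_
      exact (V_cpt_tp_per ha hb _ _ z).1.symm
    · refine tendsto_nhds_unique (hptw (z + b * I)) ?_
      refine (hptw z).congr fun j => ?_
      exact (V_cpt_tp_per ha hb _ _ z).2.symm

end Pool.Agent.Vx

end

section

/-! MP_afe918_an, item Vcrit: critical points of the approximating functionals (assembly). -/

set_option autoImplicit false

open Complex Set Filter Topology MeasureTheory Metric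
open scoped Real ContDiff

namespace Pool.Agent.Vx

theorem pr_V_crit (hlow : V_low) (hlnk : V_lnk) (hMM : V_MM) (hbro : V_bro) (hgrad : V_grad) :
    V_crit := by
  intro a b F hF w hw k s1 s2 h1 h12 h2
  obtain ⟨C0, hC0, low⟩ := hlow a b F hF w hw k s2 h2
  obtain ⟨C1, m0, lnk⟩ := hlnk a b F hF w hw k s1 s2 (C0 + 1) h1 h12
  have hs1 : 0 < s1 := by
    have : 0 ≤ 8 * π * (k : ℝ) := by positivity
    linarith
  obtain ⟨R, MM⟩ := hMM k C0 C1 s1 s2 hs1 h12
  refine ⟨R, m0, fun m hm => ?_⟩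
  obtain ⟨γ0, hγ0, sph, bal⟩ := lnk m hm
  obtain ⟨cgw, cgen, gradW, gradQ, cmom, en0, cpt⟩ := hgrad a b hF.apos hF.bpos w hw m k
  refine MM _ (en a b m) (fun c => lw a b w (tp a b m c)) (gen a b m) (gw a b w m) cgen cgw gradQ
    gradW en0 cpt γ0 hγ0 ?_ ?_ ?_
  · intro y hy ρ hρ
    have h := (sph y hy).2 ρ hρ
    unfold Ifun at h
    linarith
  · intro y hy ρ hρ
    exact bal y hy ρ hρ
  · intro γ hγ hγb
    have hfc : Continuous (fun y => mom a b w k (tp a b m (γ y))) := cmom.comp hγ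
    obtain ⟨y, hy, hfy⟩ := hbro k (fun y => mom a b w k (tp a b m (γ y))) hfc (by
      intro y hy
      have := (sph y hy).1
      simp only [hγb y hy]
      exact this)
    refine ⟨y, hy, fun ρ hρ => ?_⟩
    exact low m (γ y) ρ (hs1.trans_le hρ.1) hρ.2 hfy

end Pool.Agent.Vx

end

section

/-!
# MP_afe918_an, item Vdual: positivity and duality for the Green function
-/

set_option autoImplicit false

open Complex Set Filter Topology MeasureTheory Metric
open scoped Real ContDiff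

namespace Pool.Agent.Vx

theorem V_dual_nu_pos {a b : ℝ} (ha : 0 < a) (hb : 0 < b) {ξ : ℤ × ℤ} (h : ξ ≠ 0) :
    0 < nu a b ξ := by
  unfold nu
  have h1 : 0 < ((ξ.1 : ℝ) / a) ^ 2 + ((ξ.2 : ℝ) / b) ^ 2 := by
    by_cases h0 : ξ.1 = 0
    · have h2 : ξ.2 ≠ 0 := fun h2 => h (Prod.ext h0 h2)
      have : (ξ.2 : ℝ) / b ≠ 0 := div_ne_zero (by exact_mod_cast h2) hb.ne'
      positivity
    · have : (ξ.1 : ℝ) / a ≠ 0 := div_ne_zero (by exact_mod_cast h0) ha.ne'
      positivity
  positivity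

theorem V_dual_ne {m : ℕ} {ξ : ℤ × ℤ} (h : ξ ∈ hm m) : ξ ≠ 0 := by
  rintro rfl
  simp [hm] at h

theorem V_dual_hm_mono {m m' : ℕ} (h : m ≤ m') : hm m ⊆ hm m' := by
  intro ξ hξ
  simp only [hm, Finset.mem_filter, Finset.mem_product, Finset.mem_Icc] at hξ ⊢
  have : (m : ℤ) ≤ m' := by exact_mod_cast h
  refine ⟨⟨⟨?_, ?_⟩, ⟨?_, ?_⟩⟩, hξ.2⟩ <;> linarith [hξ.1.1.1, hξ.1.1.2, hξ.1.2.1, hξ.1.2.2]

theorem V_dual_sum (m : ℕ) (f : (ℤ × ℤ) × Bool → ℝ) :
    ∑ i : hm m × Bool, f (i.1.1, i.2) = ∑ ξ ∈ hm m, ∑ s : Bool, f (ξ, s) := by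
  rw [Fintype.sum_prod_type]
  exact Finset.sum_coe_sort (hm m) (fun ξ => ∑ s : Bool, f (ξ, s))

theorem V_dual_sum_mono {m m' : ℕ} (h : m ≤ m') (f : (ℤ × ℤ) × Bool → ℝ)
    (hf : ∀ ξ ∈ hm m', ∀ s, 0 ≤ f (ξ, s)) :
    ∑ i : hm m × Bool, f (i.1.1, i.2) ≤ ∑ i : hm m' × Bool, f (i.1.1, i.2) := by
  rw [V_dual_sum, V_dual_sum]
  exact Finset.sum_le_sum_of_subset_of_nonneg (V_dual_hm_mono h)
    fun ξ hξ _ => Finset.sum_nonneg fun s _ => hf ξ hξ s

theorem V_dual_md_cont (a b : ℝ) (i : (ℤ × ℤ) × Bool) : Continuous (md a b i) := by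
  have hp : Continuous (ph a b i.1) := by
    unfold ph
    fun_prop
  unfold md
  cases i.2
  · simp only [Bool.false_eq_true, if_false]
    exact Real.continuous_cos.comp hp
  · simp only [if_true]
    exact Real.continuous_sin.comp hp

theorem V_dual_md_le (a b : ℝ) (i : (ℤ × ℤ) × Bool) (z : ℂ) : |md a b i z| ≤ 1 := by
  unfold md
  split
  · exact Real.abs_sin_le_one _
  · exact Real.abs_cos_le_one _

theorem V_dual_rect_fin (a b : ℝ) : volume (rect a b 0) < ⊤ := by
  have : rect a b 0 ⊆ closedBall (0 : ℂ) (a / 2 + b / 2) := by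
    intro z hz
    simp only [rect, mem_ofPred_eq, Complex.zero_re, Complex.zero_im, sub_zero] at hz
    rw [mem_closedBall, dist_zero_right]
    exact (Complex.norm_le_abs_re_add_abs_im z).trans (by linarith [hz.1, hz.2])
  exact (measure_mono this).trans_lt (isCompact_closedBall _ _).measure_lt_top

theorem V_dual_intOn {a b M : ℝ} {f : ℂ → ℝ} (hf : Measurable f) (hM : ∀ z, |f z| ≤ M) :
    IntegrableOn f (rect a b 0) := by
  refine Measure.integrableOn_of_bounded (M := M) (V_dual_rect_fin a b).ne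
    hf.aestronglyMeasurable ?_
  exact Eventually.of_forall fun z => by rw [Real.norm_eq_abs]; exact hM z

theorem V_dual_amgm (K β c x : ℝ) (hK : 0 < K) (hβ : 0 < β) :
    c * x ≤ K / (8 * β) * c ^ 2 + 2 * β / K * x ^ 2 := by
  have : K / (8 * β) * c ^ 2 + 2 * β / K * x ^ 2 - c * x =
      (K * c - 4 * β * x) ^ 2 / (8 * β * K) := by
    field_simp
    ring
  have h2 : 0 ≤ (K * c - 4 * β * x) ^ 2 / (8 * β * K) := by positivity
  linarith

theorem pr_V_dual (hPars : V_Pars) (_horth : V_orth) (hconv : V_conv) (hgfou : V_gfou) :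
    V_dual := by
  intro a b F hth g hg
  have ha := hth.apos
  have hb := hth.bpos
  obtain ⟨-, -, -, hbm⟩ := hconv a b F hth g hg
  obtain ⟨hmean, -, hfou⟩ := hgfou a b F hth g hg
  -- the Fourier coefficients of g
  set gh : (ℤ × ℤ) × Bool → ℝ := fun i => ti a b (fun z => g z * md a b i z) with hgh
  set f : (ℤ × ℤ) × Bool → ℝ := fun i => gh i * (1 / nu a b i.1 * gh i) with hf
  have hP := hPars a b ha hb g (gg a b F g) hg hbm
  have hP' : Tendsto (fun m : ℕ => 2 / (a * b) * ∑ i : hm m × Bool, f (i.1.1, i.2)) atTop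
      (𝓝 (ti a b (fun z => g z * gg a b F g z))) := by
    refine hP.congr fun m => ?_
    rw [hmean, mul_zero, mul_zero, zero_add]
    congr 1
    refine Finset.sum_congr rfl fun i _ => ?_
    rw [hfou i.1.1 i.2 (V_dual_ne i.1.2)]
  have hfnn : ∀ m : ℕ, ∀ ξ ∈ hm m, ∀ s, 0 ≤ f (ξ, s) := by
    intro m ξ hξ s
    have h1 := V_dual_nu_pos ha hb (V_dual_ne hξ)
    rw [hf]
    simp only
    have : gh (ξ, s) * (1 / nu a b ξ * gh (ξ, s)) = gh (ξ, s) ^ 2 / nu a b ξ := by ring
    rw [this]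
    positivity
  have hsnn : ∀ m : ℕ, 0 ≤ ∑ i : hm m × Bool, f (i.1.1, i.2) := fun m =>
    Finset.sum_nonneg fun i _ => hfnn m _ i.1.2 _
  have hab : 0 < 2 / (a * b) := by positivity
  refine ⟨ge_of_tendsto' hP' fun m => mul_nonneg hab.le (hsnn m), ?_⟩
  intro m c β hβ
  have hle : 2 / (a * b) * ∑ i : hm m × Bool, f (i.1.1, i.2) ≤
      ti a b (fun z => g z * gg a b F g z) := by
    refine ge_of_tendsto hP' ?_
    filter_upwards [eventually_ge_atTop m] with m' hm'
    exact mul_le_mul_of_nonneg_left (V_dual_sum_mono hm' f (hfnn m')) hab.le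
  obtain ⟨M, hM⟩ := hg.bdd
  have hint : ∀ i : hm m × Bool, IntegrableOn (fun z => c i * (g z * md a b (i.1.1, i.2) z))
      (rect a b 0) := by
    intro i
    refine Integrable.const_mul ?_ _
    refine V_dual_intOn (M := M) (hg.meas.mul (V_dual_md_cont a b _).measurable) ?_
    intro z
    rw [abs_mul]
    calc |g z| * |md a b (i.1.1, i.2) z| ≤ |g z| * 1 :=
          mul_le_mul_of_nonneg_left (V_dual_md_le a b _ z) (abs_nonneg _)
      _ ≤ M := by rw [mul_one]; exact hM z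
  have hsum : ti a b (fun z => g z * tp a b m c z) =
      ∑ i : hm m × Bool, c i * gh (i.1.1, i.2) := by
    unfold ti
    have e1 : ∀ z, g z * tp a b m c z =
        ∑ i : hm m × Bool, c i * (g z * md a b (i.1.1, i.2) z) := by
      intro z
      unfold tp
      rw [Finset.mul_sum]
      exact Finset.sum_congr rfl fun i _ => by ring
    simp_rw [e1]
    rw [integral_finsetSum _ fun i _ => hint i]
    refine Finset.sum_congr rfl fun i _ => ?_
    rw [integral_const_mul]
    rfl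
  rw [hsum]
  have hterm : ∀ i : hm m × Bool, c i * gh (i.1.1, i.2) ≤
      a * b * nu a b i.1.1 / (8 * β) * c i ^ 2 + β * (2 / (a * b)) * f (i.1.1, i.2) := by
    intro i
    have hν := V_dual_nu_pos ha hb (V_dual_ne i.1.2)
    refine (V_dual_amgm (a * b * nu a b i.1.1) β (c i) (gh (i.1.1, i.2)) (by positivity)
      hβ).trans (le_of_eq ?_)
    rw [hf]
    simp only
    field_simp
  calc ∑ i : hm m × Bool, c i * gh (i.1.1, i.2)
      ≤ ∑ i : hm m × Bool, (a * b * nu a b i.1.1 / (8 * β) * c i ^ 2 +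
          β * (2 / (a * b)) * f (i.1.1, i.2)) := Finset.sum_le_sum fun i _ => hterm i
    _ = en a b m c / (4 * β) + β * (2 / (a * b) * ∑ i : hm m × Bool, f (i.1.1, i.2)) := by
        rw [Finset.sum_add_distrib]
        congr 1
        · unfold en
          rw [mul_div_right_comm, Finset.mul_sum]
          refine Finset.sum_congr rfl fun i _ => ?_
          field_simp
          ring
        · rw [Finset.mul_sum, Finset.mul_sum]
          refine Finset.sum_congr rfl fun i _ => ?_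
          ring
    _ ≤ _ := by
        have := mul_le_mul_of_nonneg_left hle hβ.le
        linarith

end Pool.Agent.Vx

end

section

/-!
# MP_afe918_an, item Vexp: integrability of `Sf ^ (-(1 - ε))`
-/

set_option autoImplicit false

open Complex Set Filter Topology MeasureTheory Metric
open scoped Real ContDiff

namespace Pool.Agent.Vx

theorem V_exp_rad {s : ℝ} (R : ℝ) (hs : s < 2) :
    Integrable (fun y : ℂ => (Iio R).indicator (fun t => t ^ (-s)) ‖y‖) := by
  rw [integrable_fun_norm_addHaar (volume : Measure ℂ)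
    (f := fun t => (Iio R).indicator (fun t => t ^ (-s)) t)]
  rcases le_or_gt R 0 with hR | hR
  · refine (integrableOn_zero (s := Ioi (0 : ℝ)) (μ := volume)).congr_fun (fun x hx => ?_)
      measurableSet_Ioi
    have : x ∉ Iio R := fun h => absurd (lt_trans (mem_Ioi.mp hx) (mem_Iio.mp h)) (not_lt.mpr hR)
    simp [indicator_of_notMem this]
  have h1 : IntegrableOn (fun x : ℝ => x ^ (1 - s)) (Ioc 0 R) := by
    rw [← intervalIntegrable_iff_integrableOn_Ioc_of_le hR.le]
    exact intervalIntegral.intervalIntegrable_rpow' (by linarith)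
  have h2 : IntegrableOn (fun x : ℝ => x ^ (1 - s)) (Iio R ∩ Ioi 0) :=
    h1.mono_set fun x hx => ⟨hx.2, le_of_lt hx.1⟩
  have h3 : IntegrableOn (fun x : ℝ => (Iio R).indicator (fun x : ℝ => x ^ (1 - s)) x)
      (Ioi 0) := by
    rw [integrableOn_indicator_iff measurableSet_Iio]
    exact h2
  refine h3.congr_fun (fun x hx => ?_) measurableSet_Ioi
  have hx0 : (0 : ℝ) < x := hx
  by_cases hR : x ∈ Iio R
  · simp only [indicator_of_mem hR, Complex.finrank_real_complex, smul_eq_mul]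
    rw [sub_eq_add_neg, Real.rpow_add hx0, Real.rpow_one]
    simp
  · simp [indicator_of_notMem hR]

theorem V_exp_int {s : ℝ} (R : ℝ) (hs : s < 2) :
    IntegrableOn (fun y : ℂ => ‖y‖ ^ (-s)) (ball 0 R) := by
  have h := (V_exp_rad R hs).integrableOn (s := ball (0 : ℂ) R)
  refine h.congr_fun (fun y hy => ?_) measurableSet_ball
  have : ‖y‖ ∈ Iio R := by simpa using hy
  simp only [indicator_of_mem this]

theorem V_exp_rect_ball (a b : ℝ) : rect a b 0 ⊆ ball (0 : ℂ) (a / 2 + b / 2) := by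
  intro z hz
  simp only [rect, mem_ofPred_eq, Complex.zero_re, Complex.zero_im, sub_zero] at hz
  rw [mem_ball, dist_zero_right]
  exact (Complex.norm_le_abs_re_add_abs_im z).trans_lt (add_lt_add hz.1 hz.2)

theorem V_exp_rect_open (a b : ℝ) : IsOpen (rect a b 0) := by
  have e1 : IsOpen {z : ℂ | |z.re - (0 : ℂ).re| < a / 2} :=
    isOpen_lt ((Complex.continuous_re.sub continuous_const).abs) continuous_const
  have e2 : IsOpen {z : ℂ | |z.im - (0 : ℂ).im| < b / 2} :=
    isOpen_lt ((Complex.continuous_im.sub continuous_const).abs) continuous_const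
  exact e1.inter e2

theorem V_exp_lat {a b : ℝ} (ha : 0 < a) (hb : 0 < b) {z : ℂ} (hz : z ∈ rect a b 0)
    (h : Lat a b z) : z = 0 := by
  simp only [rect, mem_ofPred_eq, Complex.zero_re, Complex.zero_im, sub_zero] at hz
  obtain ⟨m, k, h⟩ := h
  have h1 : z.re = m * a := by rw [h]; simp
  have h2 : z.im = k * b := by rw [h]; simp
  have h3 := hz.1
  have h4 := hz.2
  rw [h1, abs_mul, abs_of_pos ha] at h3
  rw [h2, abs_mul, abs_of_pos hb] at h4
  have m0 : m = 0 := by
    by_contra hne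
    have : (1 : ℝ) ≤ |(m : ℝ)| := by
      have := Int.one_le_abs hne
      exact_mod_cast this
    nlinarith
  have k0 : k = 0 := by
    by_contra hne
    have : (1 : ℝ) ≤ |(k : ℝ)| := by
      have := Int.one_le_abs hne
      exact_mod_cast this
    nlinarith
  rw [h, m0, k0]
  simp

theorem pr_V_exp (hG : V_G) : V_exp := by
  intro a b F hth ε hε hε1
  have ha := hth.apos
  have hb := hth.bpos
  obtain ⟨hc, h0, hz, -, -, C, hC⟩ := hG a b F hth
  have hpos : ∀ z ∈ rect a b 0, z ≠ 0 → 0 < Sf a b F z := by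
    intro z hzr hz0
    refine lt_of_le_of_ne (h0 z) fun h => ?_
    exact hz0 (V_exp_lat ha hb hzr ((hz z).mp h.symm))
  have hbd : ∀ z ∈ rect a b 0, z ≠ 0 → Sf a b F z ^ (-(1 - ε)) ≤
      Real.exp (4 * π * (1 - ε) * C) * ‖z‖ ^ (-(2 * (1 - ε))) := by
    intro z hzr hz0
    have hS := hpos z hzr hz0
    have h1 := (abs_le.mp (hC z hzr hz0)).2
    have hn : 0 < ‖z‖ := norm_pos_iff.mpr hz0
    rw [Real.rpow_def_of_pos hS, Real.rpow_def_of_pos hn, ← Real.exp_add]
    refine Real.exp_le_exp.mpr ?_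
    have h2 : Real.log (Sf a b F z) = -(4 * π) * Gr a b F z := by
      unfold Gr
      field_simp
    rw [h2]
    have h3 : Gr a b F z ≤ C - 1 / (2 * π) * Real.log ‖z‖ := by linarith
    have h4 : 0 ≤ 4 * π * (1 - ε) := by
      have : 0 ≤ 1 - ε := by linarith
      positivity
    calc -(4 * π) * Gr a b F z * -(1 - ε) = 4 * π * (1 - ε) * Gr a b F z := by ring
      _ ≤ 4 * π * (1 - ε) * (C - 1 / (2 * π) * Real.log ‖z‖) := mul_le_mul_of_nonneg_left h3 h4
      _ = _ := by
        field_simp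
        ring
  have hnn : ∀ z, 0 ≤ Sf a b F z ^ (-(1 - ε)) := fun z => Real.rpow_nonneg (h0 z) _
  have hne : ∀ᵐ z ∂(volume.restrict (rect a b 0)), z ≠ (0 : ℂ) :=
    ae_restrict_of_ae (measure_eq_zero_iff_ae_notMem.mp (measure_singleton (0 : ℂ)))
  have hi : IntegrableOn (fun z => Sf a b F z ^ (-(1 - ε))) (rect a b 0) := by
    have hg : IntegrableOn (fun z : ℂ => Real.exp (4 * π * (1 - ε) * C) *
        ‖z‖ ^ (-(2 * (1 - ε)))) (rect a b 0) :=
      ((V_exp_int (a / 2 + b / 2) (s := 2 * (1 - ε)) (by linarith)).mono_set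
        (V_exp_rect_ball a b)).const_mul _
    refine Integrable.mono' hg ?_ ?_
    · exact (hc.measurable.pow_const _).aestronglyMeasurable
    · filter_upwards [hne, ae_restrict_mem (V_exp_rect_open a b).measurableSet] with z hz0 hzr
      rw [Real.norm_eq_abs, abs_of_nonneg (hnn z)]
      exact hbd z hzr hz0
  refine ⟨hi, ?_⟩
  unfold ti
  rw [setIntegral_pos_iff_support_of_nonneg_ae (Eventually.of_forall hnn) hi]
  have h1 : 0 < volume (rect a b 0) := by
    refine (V_exp_rect_open a b).measure_pos volume ⟨0, ?_⟩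
    simp only [rect, mem_ofPred_eq, Complex.zero_re, Complex.zero_im, sub_zero, abs_zero]
    exact ⟨by linarith, by linarith⟩
  calc 0 < volume (rect a b 0) := h1
    _ = volume (rect a b 0 \ {(0 : ℂ)}) := (measure_sdiff_null (measure_singleton _)).symm
    _ ≤ _ := by
        refine measure_mono ?_
        rintro z ⟨hzr, hz0⟩
        refine ⟨?_, hzr⟩
        rw [Function.mem_support]
        exact (Real.rpow_pos_of_pos (hpos z hzr hz0) _).ne'

end Pool.Agent.Vx

end

section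

/-!
# MP_afe918_an, item V_jen: Jensen's lower bound for `log ∫ w e^u`
-/

set_option autoImplicit false

open Complex Set Filter Topology MeasureTheory Metric
open scoped Real

namespace Pool.Agent.Vx

theorem V_jen_int {a b : ℝ} {f : ℂ → ℝ} (hf : Continuous f) : IntegrableOn f (rect a b 0) := by
  refine (hf.continuousOn.integrableOn_compact (isCompact_closedBall (0 : ℂ) (a + b))).mono_set ?_
  intro z hz
  have h1 : |z.re| < a / 2 := by simpa using hz.1
  have h2 : |z.im| < b / 2 := by simpa using hz.2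
  have h3 := Complex.norm_le_abs_re_add_abs_im z
  have h4 := abs_nonneg z.re
  have h5 := abs_nonneg z.im
  simp only [mem_closedBall, dist_zero_right]
  linarith

theorem pr_V_jen (htr : V_tr) : V_jen := by
  intro a b ha hb w hw
  have hab : 0 < a * b := mul_pos ha hb
  obtain ⟨hvol, -, -⟩ := htr a b ha hb
  refine ⟨-Real.log (a * b) - 1 / (a * b) * ti a b (fun z => Real.log (w z)),
    fun u hu _ => ?_⟩
  set A : ℝ := 1 / (a * b) * (ti a b (fun z => Real.log (w z)) + ti a b u) with hA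
  have hA' : A * (a * b) = ti a b (fun z => Real.log (w z)) + ti a b u := by
    rw [hA]
    field_simp
  have hi1 : IntegrableOn (fun z => w z * Real.exp (u z)) (rect a b 0) :=
    V_jen_int (hw.cont.mul (Real.continuous_exp.comp hu))
  have hi2 : IntegrableOn (fun z => Real.log (w z) + u z) (rect a b 0) :=
    hw.lint.add (V_jen_int hu)
  have hi3 : IntegrableOn (fun _ : ℂ => 1 - A) (rect a b 0) := V_jen_int continuous_const
  have h1 : Real.exp A * (a * b) ≤ ti a b (fun z => w z * Real.exp (u z)) := by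
    have h2 : ti a b (fun z => Real.exp A * ((1 - A) + (Real.log (w z) + u z))) =
        Real.exp A * (a * b) := by
      unfold ti
      rw [integral_const_mul, integral_add hi3 hi2, integral_add hw.lint (V_jen_int hu)]
      have h3 : ∫ _z in rect a b 0, (1 - A) = (1 - A) * (a * b) := hvol (1 - A)
      rw [h3]
      unfold ti at hA'
      rw [← hA']
      ring
    rw [← h2]
    unfold ti
    refine setIntegral_mono_ae ((hi3.add hi2).const_mul _) hi1 ?_
    filter_upwards [hw.pos] with z hz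
    have h3 : w z * Real.exp (u z) =
        Real.exp A * Real.exp (Real.log (w z) + u z - A) := by
      rw [← Real.exp_add, show A + (Real.log (w z) + u z - A) = Real.log (w z) + u z by ring,
        Real.exp_add, Real.exp_log hz]
    rw [h3]
    refine mul_le_mul_of_nonneg_left ?_ (Real.exp_pos A).le
    have h4 := Real.add_one_le_exp (Real.log (w z) + u z - A)
    linarith
  have h5 : 0 < Real.exp A * (a * b) := mul_pos (Real.exp_pos A) hab
  refine ⟨lt_of_lt_of_le h5 h1, ?_⟩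
  have h6 : Real.log (Real.exp A * (a * b)) ≤ lw a b w u := Real.log_le_log h5 h1
  rw [Real.log_mul (Real.exp_pos A).ne' hab.ne', Real.log_exp] at h6
  rw [hA] at h6
  linarith

end Pool.Agent.Vx

end
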