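import Pool.Agent.Work.MP_afe918_an.Bd.B01
import Pool.Agent.Work.MP_afe918_an.Bd.B02

/-! Bundle of small proof modules (one section per former module). -/

section

/-! Item Ven: the energy of the test functions. -/

set_option autoImplicit false

open Complex Set Filter Topology MeasureTheory Metric
open scoped Real ContDiff

namespace Pool.Agent.Vx

lemma V_en_rect_sub (a b : ℝ) :
    rect a b 0 ⊆ closedBall (0 : ℂ) (|a| + |b|) := by
  intro z hz
  obtain ⟨h1, h2⟩ := hz
  simp only [zero_re, zero_im, sub_zero] at h1 h2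
  rw [mem_closedBall, dist_zero_right]
  have := Complex.norm_le_abs_re_add_abs_im z
  have ha := abs_nonneg a
  have hb := abs_nonneg b
  have ha' := le_abs_self a
  have hb' := le_abs_self b
  linarith

lemma V_en_integrable {g : ℂ → ℝ} (hg : Continuous g) (a b : ℝ) :
    Integrable g (volume.restrict (rect a b 0)) :=
  (hg.continuousOn.integrableOn_compact (isCompact_closedBall 0 (|a| + |b|))).mono_set
    (V_en_rect_sub a b)

lemma V_en_cm (a : ℝ) {k : ℕ} (i : Fin k × Bool) : Continuous (cm a i) := by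
  unfold cm
  split_ifs <;> fun_prop

lemma V_en_Tc (a : ℝ) {k : ℕ} (c : Pa k) : Continuous (Tc a c) := by
  unfold Tc
  exact continuous_finsetSum _ fun i _ => continuous_const.mul (V_en_cm a i)

/-- integrability against the weight -/
def V_en_I (a β : ℝ) {k : ℕ} (c : Pa k) (f : ℝ → ℝ) : Prop :=
  Integrable (fun t => f t * Real.exp (β * Tc a c t)) (volume.restrict (Ioc 0 a))

lemma V_en_Icont (a β : ℝ) {k : ℕ} (c : Pa k) {f : ℝ → ℝ} (hf : Continuous f) :
    V_en_I a β c f := by
  have h1 : Continuous fun t => f t * Real.exp (β * Tc a c t) := by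
    have := V_en_Tc a c
    fun_prop
  exact (h1.continuousOn.integrableOn_compact (isCompact_Icc (a := (0 : ℝ)) (b := a))).mono_set
    Ioc_subset_Icc_self

lemma V_en_mono (a β : ℝ) {k : ℕ} (c : Pa k) {f g : ℝ → ℝ} (hf : V_en_I a β c f)
    (hg : V_en_I a β c g) (h : ∀ t, f t ≤ g t) : si a β c f ≤ si a β c g :=
  integral_mono hf hg fun t => mul_le_mul_of_nonneg_right (h t) (Real.exp_pos _).le

lemma V_en_nonneg (a β : ℝ) {k : ℕ} (c : Pa k) {f : ℝ → ℝ} (h : ∀ t, 0 ≤ f t) :
    0 ≤ si a β c f :=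
  integral_nonneg fun t => mul_nonneg (h t) (Real.exp_pos _).le

lemma V_en_lin (a β : ℝ) {k : ℕ} (c : Pa k) {f g : ℝ → ℝ} (hf : V_en_I a β c f)
    (hg : V_en_I a β c g) (p q : ℝ) :
    si a β c (fun t => p * f t + q * g t) = p * si a β c f + q * si a β c g := by
  unfold si
  rw [← integral_const_mul, ← integral_const_mul, ← integral_add (hf.const_mul p)
    (hg.const_mul q)]
  refine integral_congr_ae (Eventually.of_forall fun t => ?_)
  simp only
  ring

lemma V_en_Ilin (a β : ℝ) {k : ℕ} (c : Pa k) {f g : ℝ → ℝ} (hf : V_en_I a β c f)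
    (hg : V_en_I a β c g) (p q : ℝ) : V_en_I a β c (fun t => p * f t + q * g t) := by
  refine ((hf.const_mul p).add (hg.const_mul q)).congr (Eventually.of_forall fun t => ?_)
  simp only [Pi.add_apply]
  ring

lemma V_en_pos (a β : ℝ) (ha : 0 < a) {k : ℕ} (c : Pa k) {f : ℝ → ℝ} (hf : Continuous f)
    (h : ∀ t, 0 < f t) : 0 < si a β c f := by
  unfold si
  rw [← intervalIntegral.integral_of_le ha.le]
  refine intervalIntegral.intervalIntegral_pos_of_pos ?_
    (fun t => mul_pos (h t) (Real.exp_pos _)) ha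
  have h1 : Continuous fun t => f t * Real.exp (β * Tc a c t) := by
    have := V_en_Tc a c
    fun_prop
  exact h1.intervalIntegrable _ _

/-- Cauchy-Schwarz -/
lemma V_en_cs (a β : ℝ) (ha : 0 < a) {k : ℕ} (c : Pa k) {f g : ℝ → ℝ} (hf : Continuous f)
    (hg : Continuous g) (h : ∀ t, 0 < g t) :
    (si a β c f / si a β c g) ^ 2 ≤ si a β c (fun t => f t ^ 2 / g t) / si a β c g := by
  have hG := V_en_pos a β ha c hg h
  set u := si a β c f / si a β c g with hu
  have h1 : 0 ≤ si a β c (fun t => (f t - u * g t) ^ 2 / g t) :=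
    V_en_nonneg a β c fun t => div_nonneg (sq_nonneg _) (h t).le
  have hfg : Continuous fun t => f t ^ 2 / g t := (hf.pow 2).div hg fun t => (h t).ne'
  have i1 := V_en_Icont a β c hf
  have i2 := V_en_Icont a β c hg
  have i3 := V_en_Icont a β c hfg
  have h2 : (fun t => (f t - u * g t) ^ 2 / g t) =
      fun t => 1 * (f t ^ 2 / g t) + 1 * ((-(2 * u)) * f t + u ^ 2 * g t) := by
    ext t
    have := (h t).ne'
    field_simp
    ring
  rw [h2, V_en_lin a β c i3 (V_en_Ilin a β c i1 i2 _ _), V_en_lin a β c i1 i2] at h1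
  have h3 : si a β c f = u * si a β c g := by
    rw [hu]; field_simp
  rw [h3] at h1
  rw [le_div_iff₀ hG]
  nlinarith

lemma V_en_Dd (a b y0 : ℝ) (x : ℂ) : Continuous (Dd a b y0 x) := by
  unfold Dd
  fun_prop

lemma V_en_Ddx (a b y0 t : ℝ) : Continuous fun x : ℂ => Dd a b y0 x t := by
  unfold Dd
  fun_prop

open Classical in
lemma V_en_badI (a β : ℝ) {k : ℕ} (c : Pa k) (τ θ : ℝ) (t : Fin k → ℝ) :
    V_en_I a β c (fun x => if (∃ (j : Fin k) (n : ℤ), |x - t j - n * a| ≤ θ) ∧ τ ≤ Tc a c x then 0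
      else 1) := by
  have hm1 : MeasurableSet {x : ℝ | ∃ (j : Fin k) (n : ℤ), |x - t j - n * a| ≤ θ} := by
    have : {x : ℝ | ∃ (j : Fin k) (n : ℤ), |x - t j - n * a| ≤ θ} =
        ⋃ (j : Fin k) (n : ℤ), {x : ℝ | |x - t j - n * a| ≤ θ} := by
      ext x; simp
    rw [this]
    refine MeasurableSet.iUnion fun j => MeasurableSet.iUnion fun n => ?_
    exact (isClosed_le (by fun_prop) continuous_const).measurableSet
  have hm2 : MeasurableSet {x : ℝ | τ ≤ Tc a c x} :=
    (isClosed_le continuous_const (V_en_Tc a c)).measurableSet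
  have hm : Measurable (fun x : ℝ => if (∃ (j : Fin k) (n : ℤ), |x - t j - n * a| ≤ θ) ∧
      τ ≤ Tc a c x then (0 : ℝ) else 1) :=
    Measurable.ite (hm1.inter hm2) measurable_const measurable_const
  have h1 := V_en_Icont a β c (f := fun _ => 1) continuous_const
  refine Integrable.mono h1 ?_ (Eventually.of_forall fun x => ?_)
  · have := V_en_Tc a c
    exact (hm.mul (by fun_prop : Continuous fun x => Real.exp (β * Tc a c x)).measurable
      ).aestronglyMeasurable
  · rw [norm_mul, norm_mul]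
    refine mul_le_mul_of_nonneg_right ?_ (norm_nonneg _)
    beta_reduce
    split_ifs <;> simp

lemma V_en_slice {X : Type*} [TopologicalSpace X] {f : X → ℂ → ℝ}
    (hf : Continuous fun q : X × ℂ => f q.1 q.2) (c : X) : Continuous fun x => f c x :=
  hf.comp (Continuous.prodMk_right c)

theorem pr_V_en (hD : V_D) (hkg : V_kg) (hk1 : V_k1) (hreg : V_reg) : V_en := by
  classical
  intro a b y0 τ δ k ha hb hδ hδ1
  obtain ⟨C1, hC1⟩ := hk1 a b y0 δ ha hb hδ
  refine ⟨k * (16 * (1 + 2 * δ)) * C1 + ti a b (fun _ => 1), fun L hL => ?_⟩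
  have hL0 : 0 < L := by linarith
  set Q : ℝ := (1 + L ^ 2 * (a ^ 2 + b ^ 2)) with hQ
  have hQ0 : 0 < Q := by positivity
  refine ⟨1 / (16 * L ^ 2 * Q ^ 2), by positivity, fun β c t hconc => ?_⟩
  obtain ⟨hD1, -, -, hD4⟩ := hD a b y0 ha hb
  obtain ⟨-, hrx, hry, -⟩ := hreg a b y0 L β k ha hb hL0
  have hcx : Continuous fun x => tfx a b y0 L β c x := V_en_slice hrx c
  have hcy : Continuous fun x => tfy a b y0 L β c x := V_en_slice hry c
  have hden : ∀ x t, 0 < 1 + L ^ 2 * Dd a b y0 x t := fun x t => by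
    have := (hD1 x t).1
    positivity
  -- pointwise bound
  have key : ∀ x : ℂ, tfx a b y0 L β c x ^ 2 + tfy a b y0 L β c x ^ 2 ≤
      ∑ j : Fin k, 16 * (1 + 2 * δ) * (L ^ 2 / (1 + L ^ 2 * Dd a b y0 x (t j))) + 1 := by
    intro x
    have hDc := V_en_Dd a b y0 x
    have hdc : Continuous fun s => 1 + L ^ 2 * Dd a b y0 x s := by fun_prop
    have hK : Continuous (kp a b y0 L x) := by
      unfold kp
      exact (continuous_const.div hdc fun s => (hden x s).ne').pow 2
    have hKX : Continuous (kpx a b y0 L x) := by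
      unfold kpx
      refine Continuous.div (by fun_prop) (hdc.pow 3) fun s => pow_ne_zero 3 (hden x s).ne'
    have hKY : Continuous (kpy a b y0 L x) := by
      unfold kpy
      refine Continuous.div (by fun_prop) (hdc.pow 3) fun s => pow_ne_zero 3 (hden x s).ne'
    have hKpos : ∀ s, 0 < kp a b y0 L x s := fun s => (hkg a b y0 L ha hb hL0 x s).1
    have hSK := V_en_pos a β ha c hK hKpos
    have hS1 := V_en_pos a β ha c (f := fun _ => 1) continuous_const fun _ => one_pos
    have g1 := V_en_cs a β ha c hKX hK hKpos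
    have g2 := V_en_cs a β ha c hKY hK hKpos
    have i1 := V_en_Icont a β c (f := fun s => kpx a b y0 L x s ^ 2 / kp a b y0 L x s)
      ((hKX.pow 2).div hK fun s => (hKpos s).ne')
    have i2 := V_en_Icont a β c (f := fun s => kpy a b y0 L x s ^ 2 / kp a b y0 L x s)
      ((hKY.pow 2).div hK fun s => (hKpos s).ne')
    have iK := V_en_Icont a β c hK
    have ibad := V_en_badI a β c τ (δ / L) t
    set S := ∑ j : Fin k, 16 * (1 + 2 * δ) * (L ^ 2 / (1 + L ^ 2 * Dd a b y0 x (t j))) with hS
    have hterm : ∀ j : Fin k, 0 ≤ 16 * (1 + 2 * δ) * (L ^ 2 / (1 + L ^ 2 * Dd a b y0 x (t j))) :=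
      fun j => mul_nonneg (by positivity) (div_nonneg (by positivity) (hden x _).le)
    have hS0 : 0 ≤ S := Finset.sum_nonneg fun j _ => hterm j
    have g3 : si a β c (fun s => 1 * (kpx a b y0 L x s ^ 2 / kp a b y0 L x s) +
        1 * (kpy a b y0 L x s ^ 2 / kp a b y0 L x s)) ≤
        si a β c (fun s => S * kp a b y0 L x s + 16 * L ^ 4 *
          (if (∃ (j : Fin k) (n : ℤ), |s - t j - n * a| ≤ δ / L) ∧ τ ≤ Tc a c s then 0
            else 1)) := by
      refine V_en_mono a β c (V_en_Ilin a β c i1 i2 1 1) (V_en_Ilin a β c iK ibad _ _)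
        fun s => ?_
      obtain ⟨hp, hle, -, -⟩ := hkg a b y0 L ha hb hL0 x s
      have h5 : 1 * (kpx a b y0 L x s ^ 2 / kp a b y0 L x s) +
          1 * (kpy a b y0 L x s ^ 2 / kp a b y0 L x s) ≤
          16 * L ^ 2 / (1 + L ^ 2 * Dd a b y0 x s) * kp a b y0 L x s := by
        rw [one_mul, one_mul, ← add_div, div_le_iff₀ hp]
        calc _ ≤ _ := hle
          _ = _ := by ring
      refine h5.trans ?_
      split_ifs with hgood
      · obtain ⟨⟨j, n, hjn⟩, -⟩ := hgood
        have h6 := hD4 x s (t j) n L δ hL0 hδ hδ1 hjn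
        have h7 : 16 * L ^ 2 / (1 + L ^ 2 * Dd a b y0 x s) ≤
            16 * (1 + 2 * δ) * (L ^ 2 / (1 + L ^ 2 * Dd a b y0 x (t j))) := by
          rw [← mul_div_assoc, div_le_div_iff₀ (hden x s) (hden x _)]
          nlinarith [mul_le_mul_of_nonneg_left h6 (show (0 : ℝ) ≤ 16 * L ^ 2 by positivity)]
        have h8 : 16 * (1 + 2 * δ) * (L ^ 2 / (1 + L ^ 2 * Dd a b y0 x (t j))) ≤ S :=
          Finset.single_le_sum (f := fun j : Fin k =>
            16 * (1 + 2 * δ) * (L ^ 2 / (1 + L ^ 2 * Dd a b y0 x (t j))))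
            (fun j _ => hterm j) (Finset.mem_univ j)
        have h9 := mul_le_mul_of_nonneg_right (h7.trans h8) hp.le
        linarith
      · have h6 : 16 * L ^ 2 / (1 + L ^ 2 * Dd a b y0 x s) ≤ 16 * L ^ 2 := by
          rw [div_le_iff₀ (hden x s)]
          have := (hD1 x s).1
          nlinarith [mul_nonneg (show (0 : ℝ) ≤ 16 * L ^ 2 by positivity)
            (mul_nonneg (sq_nonneg L) this)]
        have h7 : kp a b y0 L x s ≤ L ^ 2 := by
          unfold kp
          refine pow_le_pow_left₀ (div_nonneg hL0.le (hden x s).le) ?_ 2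
          rw [div_le_iff₀ (hden x s)]
          have := (hD1 x s).1
          nlinarith [mul_nonneg hL0.le (mul_nonneg (sq_nonneg L) this)]
        have h8 := mul_le_mul h6 h7 hp.le (show (0 : ℝ) ≤ 16 * L ^ 2 by positivity)
        have h9 : 0 ≤ S * kp a b y0 L x s := mul_nonneg hS0 hp.le
        nlinarith
    rw [V_en_lin a β c i1 i2, V_en_lin a β c iK ibad] at g3
    have g4 : (L / Q) ^ 2 * si a β c (fun _ => 1) ≤ si a β c (kp a b y0 L x) := by
      have h5 := V_en_lin a β c (V_en_Icont a β c (f := fun _ => 1) continuous_const)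
        (V_en_Icont a β c (f := fun _ => 1) continuous_const) ((L / Q) ^ 2) 0
      have h5' : (L / Q) ^ 2 * si a β c (fun _ => 1) =
          si a β c (fun _ => (L / Q) ^ 2 * 1 + 0 * 1) := by
        rw [h5]; ring
      rw [h5']
      refine V_en_mono a β c (V_en_Icont a β c (by fun_prop)) iK fun s => ?_
      simp only [mul_one, add_zero]
      unfold kp
      refine pow_le_pow_left₀ (by positivity) ?_ 2
      refine div_le_div_of_nonneg_left hL0.le (hden x s) ?_
      rw [hQ]
      have := (hD1 x s).2.1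
      nlinarith [mul_le_mul_of_nonneg_left this (sq_nonneg L)]
    have g5 : si a β c (fun s => if (∃ (j : Fin k) (n : ℤ), |s - t j - n * a| ≤ δ / L) ∧
        τ ≤ Tc a c s then 0 else 1) ≤ 1 / (16 * L ^ 2 * Q ^ 2) * si a β c (fun _ => 1) := by
      unfold Conc at hconc
      convert hconc using 4
    have g6 : 16 * L ^ 4 * si a β c (fun s => if (∃ (j : Fin k) (n : ℤ),
        |s - t j - n * a| ≤ δ / L) ∧ τ ≤ Tc a c s then 0 else 1) ≤ si a β c (kp a b y0 L x) := by
      refine le_trans ?_ g4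
      have h6 := mul_le_mul_of_nonneg_left g5 (show (0 : ℝ) ≤ 16 * L ^ 4 by positivity)
      refine h6.trans (le_of_eq ?_)
      field_simp
    have g7 : tfx a b y0 L β c x ^ 2 + tfy a b y0 L β c x ^ 2 ≤
        (si a β c (fun s => kpx a b y0 L x s ^ 2 / kp a b y0 L x s) +
          si a β c (fun s => kpy a b y0 L x s ^ 2 / kp a b y0 L x s)) /
            si a β c (kp a b y0 L x) := by
      rw [add_div]
      exact add_le_add g1 g2
    refine g7.trans ?_
    rw [div_le_iff₀ hSK]
    nlinarith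
  -- integration
  have hcont : ∀ j : Fin k, Continuous fun x : ℂ =>
      16 * (1 + 2 * δ) * (L ^ 2 / (1 + L ^ 2 * Dd a b y0 x (t j))) := fun j => by
    have := V_en_Ddx a b y0 (t j)
    exact continuous_const.mul (continuous_const.div (by fun_prop) fun x => (hden x _).ne')
  have hsum : Continuous fun x : ℂ =>
      ∑ j : Fin k, 16 * (1 + 2 * δ) * (L ^ 2 / (1 + L ^ 2 * Dd a b y0 x (t j))) :=
    continuous_finsetSum _ fun j _ => hcont j
  have h1 : ti a b (fun x => tfx a b y0 L β c x ^ 2 + tfy a b y0 L β c x ^ 2) ≤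
      ti a b (fun x => ∑ j : Fin k,
        16 * (1 + 2 * δ) * (L ^ 2 / (1 + L ^ 2 * Dd a b y0 x (t j))) + 1) :=
    integral_mono (V_en_integrable ((hcx.pow 2).add (hcy.pow 2)) a b)
      (V_en_integrable (hsum.add continuous_const) a b) key
  have h2 : ti a b (fun x => ∑ j : Fin k,
        16 * (1 + 2 * δ) * (L ^ 2 / (1 + L ^ 2 * Dd a b y0 x (t j))) + 1) =
      ∑ j : Fin k, 16 * (1 + 2 * δ) * ti a b (fun x => L ^ 2 / (1 + L ^ 2 * Dd a b y0 x (t j))) +
        ti a b (fun _ => 1) := by
    unfold ti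
    rw [integral_add (V_en_integrable hsum a b) (V_en_integrable continuous_const a b),
      integral_finsetSum _ (fun j _ => V_en_integrable (hcont j) a b)]
    simp_rw [integral_const_mul]
  have h3 : ∑ j : Fin k, 16 * (1 + 2 * δ) *
      ti a b (fun x => L ^ 2 / (1 + L ^ 2 * Dd a b y0 x (t j))) ≤
      ∑ _j : Fin k, 16 * (1 + 2 * δ) * ((2 * π + δ) * Real.log L + C1) :=
    Finset.sum_le_sum fun j _ => mul_le_mul_of_nonneg_left (hC1 L (t j) hL) (by positivity)
  rw [Finset.sum_const, Finset.card_univ, Fintype.card_fin, nsmul_eq_mul] at h3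
  rw [h2] at h1
  have h4 : (k : ℝ) * (16 * (1 + 2 * δ) * ((2 * π + δ) * Real.log L + C1)) =
      k * (16 * (1 + 2 * δ) * (2 * π + δ)) * Real.log L + k * (16 * (1 + 2 * δ)) * C1 := by ring
  linarith

end Pool.Agent.Vx

end

section

/-!
# MP_afe918_an, item Vex (helper78): existence for noncritical parameters (assembly of block V)
-/

set_option autoImplicit false

open Complex Set Filter Topology MeasureTheory Metric
open scoped Real ContDiff

namespace Pool.Agent.Vx

lemma V_ex_finite (a b : ℝ) : IsFiniteMeasure (volume.restrict (rect a b 0)) := by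
  refine ⟨?_⟩
  rw [Measure.restrict_apply_univ]
  have hb : Bornology.IsBounded (rect a b 0) := by
    rw [Metric.isBounded_iff_subset_closedBall (0 : ℂ)]
    refine ⟨a / 2 + b / 2, ?_⟩
    intro z hz
    rw [rect, Set.mem_ofPred_eq] at hz
    simp only [zero_re, zero_im, sub_zero] at hz
    rw [mem_closedBall, dist_zero_right]
    exact (Complex.norm_le_abs_re_add_abs_im z).trans (by linarith [hz.1, hz.2])
  exact hb.measure_lt_top

/-- Continuous doubly periodic functions are bounded. -/
lemma V_ex_bdd (a b : ℝ) (ha : 0 < a) (hb : 0 < b) (f : ℂ → ℝ) (hf : Continuous f)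
    (hp : Per a b f) : ∃ M, ∀ z, |f z| ≤ M := by
  have hK : IsCompact (Icc (0 : ℝ) a ×ℂ Icc (0 : ℝ) b) := isCompact_Icc.reProdIm isCompact_Icc
  obtain ⟨M, hM⟩ := hK.exists_bound_of_continuousOn hf.continuousOn
  refine ⟨M, fun z => ?_⟩
  have h1 : Function.Periodic f (a : ℂ) := fun z => (hp z).1
  have h2 : Function.Periodic f (b * I : ℂ) := fun z => (hp z).2
  have e1 := h1.sub_zsmul_eq (x := z - ⌊z.im / b⌋ • (b * I : ℂ)) ⌊z.re / a⌋
  have e2 := h2.sub_zsmul_eq (x := z) ⌊z.im / b⌋
  rw [← e2, ← e1]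
  rw [← Real.norm_eq_abs]
  apply hM
  rw [mem_reProdIm]
  have hre : (z - ⌊z.im / b⌋ • (b * I : ℂ) - ⌊z.re / a⌋ • (a : ℂ)).re = z.re - ⌊z.re / a⌋ * a := by
    simp
  have him : (z - ⌊z.im / b⌋ • (b * I : ℂ) - ⌊z.re / a⌋ • (a : ℂ)).im = z.im - ⌊z.im / b⌋ * b := by
    simp
  rw [hre, him]
  have g1 := Int.floor_le (z.re / a)
  have g2 := (Int.lt_floor_add_one (z.re / a)).le
  have g3 := Int.floor_le (z.im / b)
  have g4 := (Int.lt_floor_add_one (z.im / b)).le
  rw [le_div_iff₀ ha] at g1
  rw [div_le_iff₀ ha] at g2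
  rw [le_div_iff₀ hb] at g3
  rw [div_le_iff₀ hb] at g4
  exact ⟨⟨by linarith, by linarith⟩, ⟨by linarith, by linarith⟩⟩

/-- Passage to the limit under the integral. -/
lemma V_ex_lim (a b : ℝ) (h : ℂ → ℝ) (hh : Continuous h) (Mh : ℝ) (hM : ∀ z, |h z| ≤ Mh)
    (f : ℕ → ℂ → ℝ) (g : ℂ → ℝ) (hf : ∀ j, Continuous (f j)) (Mg : ℝ) (hg : ∀ z, |g z| ≤ Mg)
    (G : ℝ → ℝ) (hG : Continuous G)
    (hlim : ∀ ε : ℝ, 0 < ε → ∀ᶠ j in atTop, ∀ z, |f j z - g z| ≤ ε) :
    Tendsto (fun j => ti a b (fun z => h z * G (f j z))) atTop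
      (𝓝 (ti a b (fun z => h z * G (g z)))) := by
  have hfin := V_ex_finite a b
  obtain ⟨K, hK⟩ := (isCompact_Icc (a := -(Mg + 1)) (b := Mg + 1)).exists_bound_of_continuousOn
    hG.continuousOn
  unfold ti
  refine tendsto_integral_filter_of_dominated_convergence (fun _ => Mh * K) ?_ ?_ ?_ ?_
  · exact Eventually.of_forall fun j =>
      (hh.mul (hG.comp (hf j))).aestronglyMeasurable
  · filter_upwards [hlim 1 one_pos] with j hj
    refine Eventually.of_forall fun z => ?_
    rw [norm_mul]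
    have h0 : 0 ≤ Mh := (abs_nonneg _).trans (hM z)
    refine mul_le_mul (hM z) (hK _ ?_) (norm_nonneg _) h0
    have h1 := hj z
    have h2 := hg z
    rw [abs_le] at h1 h2
    exact ⟨by linarith [h1.1, h2.1], by linarith [h1.2, h2.2]⟩
  · exact integrable_const _
  · refine Eventually.of_forall fun z => ?_
    refine Tendsto.const_mul _ ?_
    refine (hG.tendsto _).comp ?_
    rw [Metric.tendsto_atTop]
    intro ε hε
    obtain ⟨N, hN⟩ := eventually_atTop.1 (hlim (ε / 2) (by linarith))
    refine ⟨N, fun j hj => ?_⟩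
    rw [Real.dist_eq]
    exact (hN j hj z).trans_lt (by linarith)

lemma V_ex_md_cont (a b : ℝ) (i : (ℤ × ℤ) × Bool) : Continuous (md a b i) := by
  have h1 : Continuous (ph a b i.1) := by
    unfold ph
    fun_prop
  unfold md
  rcases i.2 with _ | _
  · simp only [Bool.false_eq_true, if_false]
    exact Real.continuous_cos.comp h1
  · simp only [if_true]
    exact Real.continuous_sin.comp h1

lemma V_ex_md_le (a b : ℝ) (i : (ℤ × ℤ) × Bool) (z : ℂ) : |md a b i z| ≤ 1 := by
  unfold md
  split_ifs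
  · exact Real.abs_sin_le_one _
  · exact Real.abs_cos_le_one _

lemma V_ex_hm_ne (m : ℕ) (ξ : ℤ × ℤ) (h : ξ ∈ hm m) : ξ ≠ 0 := by
  rintro rfl
  unfold hm at h
  simp at h

lemma V_ex_hm_mono (m m' : ℕ) (hmm : m ≤ m') (ξ : ℤ × ℤ) (h : ξ ∈ hm m) : ξ ∈ hm m' := by
  unfold hm at h ⊢
  simp only [Finset.mem_filter, Finset.mem_product, Finset.mem_Icc] at h ⊢
  refine ⟨⟨⟨?_, ?_⟩, ⟨?_, ?_⟩⟩, h.2⟩ <;> omega

lemma V_ex_nu_pos (a b : ℝ) (ha : 0 < a) (hb : 0 < b) (ξ : ℤ × ℤ) (h : ξ ≠ 0) :
    0 < nu a b ξ := by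
  unfold nu
  have h1 : 0 < ((ξ.1 : ℝ) / a) ^ 2 + ((ξ.2 : ℝ) / b) ^ 2 := by
    by_cases h1 : ξ.1 = 0
    · have h2 : ξ.2 ≠ 0 := fun h2 => h (Prod.ext h1 h2)
      have h3 : (ξ.2 : ℝ) ≠ 0 := by exact_mod_cast h2
      have : 0 < ((ξ.2 : ℝ) / b) ^ 2 := by positivity
      have : 0 ≤ ((ξ.1 : ℝ) / a) ^ 2 := by positivity
      linarith
    · have h3 : (ξ.1 : ℝ) ≠ 0 := by exact_mod_cast h1
      have : 0 < ((ξ.1 : ℝ) / a) ^ 2 := by positivity
      have : 0 ≤ ((ξ.2 : ℝ) / b) ^ 2 := by positivity
      linarith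
  have := Real.pi_pos
  positivity

lemma V_ex_int (a b : ℝ) (f : ℂ → ℝ) (hf : Continuous f) (M : ℝ) (hM : ∀ z, |f z| ≤ M) :
    IntegrableOn f (rect a b 0) := by
  have := V_ex_finite a b
  exact Integrable.of_bound hf.aestronglyMeasurable M (Eventually.of_forall hM)

theorem pr_V_ex (hcrit : V_crit) (hap : V_ap) (hcpt : V_cpt) (hhw : V_hw) (hBes : V_Bes)
    (hgfou : V_gfou) (hconv : V_conv) (horth : V_orth) (hjen : V_jen) : V_ex := by
  intro a b F hF m p n k s1 s2 hs1 hs12 hs2
  have ha := hF.apos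
  have hb := hF.bpos
  have hw0 := hhw a b F hF m p n
  set w : ℂ → ℝ := hw a b F p n with hwdef
  have hs1p : 0 < s1 := by
    have := Real.pi_pos
    have h0 : (0 : ℝ) ≤ 8 * π * k := by positivity
    linarith
  obtain ⟨R, m0, hm0⟩ := hcrit a b F hF w hw0 k s1 s2 hs1 hs12 hs2
  choose ρ' hρ' c' hen' hgen' using fun j : ℕ => hm0 (m0 + j) (Nat.le_add_right _ _)
  obtain ⟨C, hC⟩ := hap a b F hF w hw0 R s2
  obtain ⟨ρ, hρ, φ, hφ, hρlim⟩ := isCompact_Icc.tendsto_subseq hρ'
  have hρp : 0 < ρ := lt_of_lt_of_le hs1p hρ.1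
  have hMlim : Tendsto (fun j => m0 + φ j) atTop atTop :=
    tendsto_atTop_mono (fun j => Nat.le_add_left _ _) hφ.tendsto_atTop
  obtain ⟨s, u, hs, hu, hup, hulim⟩ := hcpt a b ha hb C (fun j => m0 + φ j) hMlim
    (fun j => c' (φ j)) (fun j => hC _ (ρ' (φ j)) _ (lt_of_lt_of_le hs1p (hρ' _).1) (hρ' _).2
      (hen' _) (hgen' _))
  -- the sequences
  obtain ⟨Mu, hMu⟩ := V_ex_bdd a b ha hb u hu hup
  obtain ⟨Mw, hMw⟩ := V_ex_bdd a b ha hb w hw0.cont hw0.per
  obtain ⟨C1, hC1⟩ := hjen a b ha hb w hw0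
  have hZ := (hC1 u hu hup).1
  set Z := ti a b (fun z => w z * Real.exp (u z)) with hZdef
  have htp : ∀ j, Continuous (tp a b (m0 + φ (s j)) (c' (φ (s j)))) := fun j =>
    ((horth a b ha hb (m0 + φ (s j))).2.2 _).2.1
  have hρlim' : Tendsto (fun j => ρ' (φ (s j))) atTop (𝓝 ρ) := hρlim.comp hs.tendsto_atTop
  have hZlim : Tendsto (fun j => ti a b (fun z => w z *
      Real.exp (tp a b (m0 + φ (s j)) (c' (φ (s j))) z))) atTop (𝓝 Z) :=
    V_ex_lim a b w hw0.cont Mw hMw _ u htp Mu hMu Real.exp Real.continuous_exp hulim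
  -- the density
  have hgc : Continuous (fun z => w z * Real.exp (u z) / Z) := by
    have := hw0.cont
    fun_prop
  have hgp : Per a b (fun z => w z * Real.exp (u z) / Z) := by
    intro z
    simp only
    rw [(hw0.per z).1, (hw0.per z).2, (hup z).1, (hup z).2]
    exact ⟨rfl, rfl⟩
  have hgBM : BM a b (fun z => w z * Real.exp (u z) / Z) :=
    ⟨hgc.measurable, hgp, V_ex_bdd a b ha hb _ hgc hgp⟩
  set g : ℂ → ℝ := fun z => w z * Real.exp (u z) / Z with hgdef
  obtain ⟨-, hggc, hggp, -⟩ := hconv a b F hF g hgBM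
  obtain ⟨hgg0, -, hggF⟩ := hgfou a b F hF g hgBM
  -- mean value of `u`
  have hu0 : ti a b u = 0 := by
    have h1 := V_ex_lim a b (fun _ => 1) continuous_const 1 (fun _ => by simp) _ u htp Mu hMu
      (fun t => t) continuous_id hulim
    simp only [one_mul] at h1
    have h2 : ∀ j, ti a b (fun z => tp a b (m0 + φ (s j)) (c' (φ (s j))) z) = 0 := fun j =>
      ((horth a b ha hb (m0 + φ (s j))).2.2 _).2.2.1
    simp only [h2] at h1
    exact (tendsto_nhds_unique h1 tendsto_const_nhds)
  -- Fourier coefficients of `u`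
  have hfou : ∀ (m' : ℕ) (i : hm m' × Bool), ti a b (fun z => u z * md a b (i.1.1, i.2) z) =
      ρ * ti a b (fun z => gg a b F g z * md a b (i.1.1, i.2) z) := by
    intro m' i
    have hne := V_ex_hm_ne m' i.1.1 i.1.2
    have hnu := V_ex_nu_pos a b ha hb _ hne
    rw [hggF i.1.1 i.2 hne]
    -- limits
    have l1 : Tendsto (fun j => ti a b (fun z => md a b (i.1.1, i.2) z *
        tp a b (m0 + φ (s j)) (c' (φ (s j))) z)) atTop
        (𝓝 (ti a b (fun z => md a b (i.1.1, i.2) z * u z))) :=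
      V_ex_lim a b (md a b (i.1.1, i.2)) (V_ex_md_cont a b _) 1 (V_ex_md_le a b _) _ u htp Mu hMu
        (fun t => t) continuous_id hulim
    have l2 : Tendsto (fun j => ti a b (fun z => md a b (i.1.1, i.2) z * w z *
        Real.exp (tp a b (m0 + φ (s j)) (c' (φ (s j))) z))) atTop
        (𝓝 (ti a b (fun z => md a b (i.1.1, i.2) z * w z * Real.exp (u z)))) := by
      refine V_ex_lim a b (fun z => md a b (i.1.1, i.2) z * w z)
        ((V_ex_md_cont a b _).mul hw0.cont) (1 * Mw) (fun z => ?_) _ u htp Mu hMu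
        Real.exp Real.continuous_exp hulim
      rw [abs_mul]
      exact mul_le_mul (V_ex_md_le a b _ z) (hMw z) (abs_nonneg _) zero_le_one
    have l3 : Tendsto (fun j => ρ' (φ (s j)) * (ti a b (fun z => md a b (i.1.1, i.2) z * w z *
        Real.exp (tp a b (m0 + φ (s j)) (c' (φ (s j))) z)) / ti a b (fun z => w z *
      Real.exp (tp a b (m0 + φ (s j)) (c' (φ (s j))) z)))) atTop
      (𝓝 (ρ * (ti a b (fun z => md a b (i.1.1, i.2) z * w z * Real.exp (u z)) / Z))) :=
      hρlim'.mul (l2.div hZlim hZ.ne')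
    have l4 : Tendsto (fun j => nu a b i.1.1 * ti a b (fun z => md a b (i.1.1, i.2) z *
        tp a b (m0 + φ (s j)) (c' (φ (s j))) z)) atTop
        (𝓝 (nu a b i.1.1 * ti a b (fun z => md a b (i.1.1, i.2) z * u z))) := l1.const_mul _
    have hev : (fun j => ρ' (φ (s j)) * (ti a b (fun z => md a b (i.1.1, i.2) z * w z *
        Real.exp (tp a b (m0 + φ (s j)) (c' (φ (s j))) z)) / ti a b (fun z => w z *
      Real.exp (tp a b (m0 + φ (s j)) (c' (φ (s j))) z)))) =ᶠ[atTop]
      (fun j => nu a b i.1.1 * ti a b (fun z => md a b (i.1.1, i.2) z *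
        tp a b (m0 + φ (s j)) (c' (φ (s j))) z)) := by
      have hMs : Tendsto (fun j => m0 + φ (s j)) atTop atTop := hMlim.comp hs.tendsto_atTop
      filter_upwards [hMs.eventually_ge_atTop m'] with j hj
      have hmem : i.1.1 ∈ hm (m0 + φ (s j)) := V_ex_hm_mono _ _ hj _ i.1.2
      have e1 := ((horth a b ha hb (m0 + φ (s j))).2.2 (c' (φ (s j)))).2.2.2 (⟨i.1.1, hmem⟩, i.2)
      have e2 := congrArg (fun x : Co (m0 + φ (s j)) => x (⟨i.1.1, hmem⟩, i.2))
        (hgen' (φ (s j)))
      simp only [gen, gw, PiLp.smul_apply, smul_eq_mul] at e2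
      simp only at e1
      have e3 : ti a b (fun z => md a b (i.1.1, i.2) z * tp a b (m0 + φ (s j)) (c' (φ (s j))) z) =
          a * b / 2 * c' (φ (s j)) (⟨i.1.1, hmem⟩, i.2) := by
        rw [← e1]
        congr 1
        funext z
        ring
      have e4 : ti a b (fun z => md a b (i.1.1, i.2) z * w z *
        Real.exp (tp a b (m0 + φ (s j)) (c' (φ (s j))) z)) = ti a b (fun z =>
          md a b (i.1.1, i.2) z * (w z * Real.exp (tp a b (m0 + φ (s j)) (c' (φ (s j))) z))) := by
        congr 1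
        funext z
        ring
      rw [e3, e4]
      linarith
    have hl := tendsto_nhds_unique (l3.congr' hev) l4
    have e5 : ti a b (fun z => g z * md a b (i.1.1, i.2) z) =
        ti a b (fun z => md a b (i.1.1, i.2) z * w z * Real.exp (u z)) / Z := by
      unfold ti
      rw [← integral_div]
      congr 1
      funext z
      rw [hgdef]
      ring
    have e6 : ti a b (fun z => u z * md a b (i.1.1, i.2) z) =
        ti a b (fun z => md a b (i.1.1, i.2) z * u z) := by
      congr 1
      funext z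
      ring
    rw [e5, e6]
    field_simp at hl ⊢
    linarith
  -- uniqueness
  have hmdle := V_ex_md_le a b
  obtain ⟨Mgg, hMgg⟩ := V_ex_bdd a b ha hb _ hggc hggp
  have hueq : ∀ z, u z - ρ * gg a b F g z = 0 := by
    refine (hBes a b ha hb).2 (fun z => u z - ρ * gg a b F g z) (by fun_prop) ?_ ?_ ?_
    · intro z
      simp only
      rw [(hup z).1, (hup z).2, (hggp z).1, (hggp z).2]
      exact ⟨rfl, rfl⟩
    · have h1 : ti a b (fun z => u z - ρ * gg a b F g z) =
          ti a b u - ρ * ti a b (gg a b F g) := by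
        unfold ti
        rw [integral_sub (V_ex_int a b u hu Mu hMu)
          ((V_ex_int a b _ hggc Mgg hMgg).const_mul ρ), integral_const_mul]
      rw [h1, hu0, hgg0]
      ring
    · intro m' i
      have hmc := V_ex_md_cont a b (i.1.1, i.2)
      have h1 : ti a b (fun z => (u z - ρ * gg a b F g z) * md a b (i.1.1, i.2) z) =
          ti a b (fun z => u z * md a b (i.1.1, i.2) z) -
            ρ * ti a b (fun z => gg a b F g z * md a b (i.1.1, i.2) z) := by
        unfold ti
        rw [← integral_const_mul, ← integral_sub]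
        · congr 1
          funext z
          ring
        · refine V_ex_int a b _ (hu.mul hmc) (Mu * 1) fun z => ?_
          rw [abs_mul]
          exact mul_le_mul (hMu z) (hmdle _ z) (abs_nonneg _) ((abs_nonneg _).trans (hMu z))
        · refine (V_ex_int a b _ (hggc.mul hmc) (Mgg * 1) fun z => ?_).const_mul ρ
          rw [Pi.mul_apply, abs_mul]
          exact mul_le_mul (hMgg z) (hmdle _ z) (abs_nonneg _) ((abs_nonneg _).trans (hMgg z))
      rw [h1, hfou m' i]
      ring
  -- the solution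
  have hdE : ∀ z, dE a b F p n (fun z => u z + (Real.log ρ - Real.log Z)) z = ρ * g z := by
    intro z
    rw [dE, ← hwdef, Real.exp_add, Real.exp_sub, Real.exp_log hρp, Real.exp_log hZ, hgdef]
    ring
  refine ⟨ρ, hρ, fun z => u z + (Real.log ρ - Real.log Z), Real.log ρ - Real.log Z,
    ⟨by fun_prop, ?_, ?_, ?_⟩⟩
  · intro z
    simp only
    rw [(hup z).1, (hup z).2]
    exact ⟨rfl, rfl⟩
  · have h1 : ti a b (dE a b F p n (fun z => u z + (Real.log ρ - Real.log Z))) =
        ρ * (Z / Z) := by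
      have h2 : dE a b F p n (fun z => u z + (Real.log ρ - Real.log Z)) =
          fun z => ρ * (w z * Real.exp (u z) / Z) := funext hdE
      rw [h2]
      conv_rhs => rw [hZdef]
      unfold ti
      rw [integral_const_mul, integral_div]
      rfl
    rw [h1, div_self hZ.ne', mul_one]
  · intro x
    simp only [hdE]
    have h1 : ti a b (fun y => Gr a b F (x - y) * (ρ * g y)) = ρ * gg a b F g x := by
      unfold gg ti
      rw [← integral_const_mul]
      congr 1
      funext y
      ring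
    rw [h1]
    linarith [hueq x]

end Pool.Agent.Vx

end

section

/-! Item Vgrad: differentiability of the Galerkin functional, continuity of the moments. -/

set_option autoImplicit false

open Complex Set Filter Topology MeasureTheory Metric
open scoped Real ContDiff

namespace Pool.Agent.Vx

lemma V_grad_rect_sub (a b : ℝ) :
    rect a b 0 ⊆ closedBall (0 : ℂ) (|a| + |b|) := by
  intro z hz
  obtain ⟨h1, h2⟩ := hz
  simp only [zero_re, zero_im, sub_zero] at h1 h2
  rw [mem_closedBall, dist_zero_right]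
  have := Complex.norm_le_abs_re_add_abs_im z
  have ha := abs_nonneg a
  have hb := abs_nonneg b
  have ha' := le_abs_self a
  have hb' := le_abs_self b
  linarith

lemma V_grad_rect_open (a b : ℝ) : IsOpen (rect a b 0) := by
  have h1 : Continuous fun z : ℂ => |z.re - (0 : ℂ).re| := by fun_prop
  have h2 : Continuous fun z : ℂ => |z.im - (0 : ℂ).im| := by fun_prop
  exact (isOpen_lt h1 continuous_const).inter (isOpen_lt h2 continuous_const)

theorem V_grad_fin (a b : ℝ) : IsFiniteMeasure (volume.restrict (rect a b 0)) := by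
  refine ⟨?_⟩
  rw [Measure.restrict_apply_univ]
  exact (measure_mono (V_grad_rect_sub a b)).trans_lt measure_closedBall_lt_top

attribute [local instance] V_grad_fin

lemma V_grad_ae {a b : ℝ} {p : ℂ → Prop} (h : ∀ z ∈ closedBall (0 : ℂ) (|a| + |b|), p z) :
    ∀ᵐ z ∂(volume.restrict (rect a b 0)), p z :=
  (ae_restrict_iff' (V_grad_rect_open a b).measurableSet).2
    (Eventually.of_forall fun z hz => h z (V_grad_rect_sub a b hz))

/-- bound of a continuous function near a compact set -/
lemma V_grad_bound {E G : Type*} [NormedAddCommGroup E] [NormedSpace ℝ E]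
    [FiniteDimensional ℝ E] [NormedAddCommGroup G] {g : E → ℂ → G}
    (hg : Continuous (Function.uncurry g)) (a b : ℝ) (c0 : E) :
    ∃ M : ℝ, ∀ c ∈ ball c0 1, ∀ z ∈ closedBall (0 : ℂ) (|a| + |b|), ‖g c z‖ ≤ M := by
  have : ProperSpace E := FiniteDimensional.proper ℝ E
  obtain ⟨M, hM⟩ := ((isCompact_closedBall c0 1).prod
    (isCompact_closedBall (0 : ℂ) (|a| + |b|))).exists_bound_of_continuousOn hg.continuousOn
  exact ⟨M, fun c hc z hz => hM (c, z) ⟨ball_subset_closedBall hc, hz⟩⟩

lemma V_grad_cont {E G : Type*} [NormedAddCommGroup E] [NormedSpace ℝ E]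
    [FiniteDimensional ℝ E] [NormedAddCommGroup G] [NormedSpace ℝ G] {g : E → ℂ → G}
    (hg : Continuous (Function.uncurry g)) (a b : ℝ) :
    Continuous fun c => ∫ z in rect a b 0, g c z := by
  rw [continuous_iff_continuousAt]
  intro c0
  obtain ⟨M, hM⟩ := V_grad_bound hg a b c0
  refine continuousAt_of_dominated (bound := fun _ => M) ?_ ?_ (integrable_const _) ?_
  · refine Eventually.of_forall fun c => ?_
    exact (hg.comp (Continuous.prodMk_right c)).aestronglyMeasurable
  · filter_upwards [ball_mem_nhds c0 one_pos] with c hc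
    exact V_grad_ae (hM c hc)
  · exact Eventually.of_forall fun z =>
      (hg.comp (Continuous.prodMk_left z)).continuousAt

lemma V_grad_integrable {G : Type*} [NormedAddCommGroup G] {g : ℂ → G} (hg : Continuous g)
    (a b : ℝ) : Integrable g (volume.restrict (rect a b 0)) :=
  (hg.continuousOn.integrableOn_compact (isCompact_closedBall 0 (|a| + |b|))).mono_set
    (V_grad_rect_sub a b)

/-- the vector of the modes -/
noncomputable def V_grad_e (a b : ℝ) (m : ℕ) (z : ℂ) : Co m :=
  WithLp.toLp 2 fun i => md a b (i.1.1, i.2) z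

lemma V_grad_md (a b : ℝ) (i : (ℤ × ℤ) × Bool) : Continuous (md a b i) := by
  unfold md ph
  split_ifs <;> fun_prop

lemma V_grad_e_cont (a b : ℝ) (m : ℕ) : Continuous (V_grad_e a b m) := by
  unfold V_grad_e
  refine (PiLp.continuous_toLp 2 _).comp ?_
  exact continuous_pi fun i => V_grad_md a b _

lemma V_grad_tp (a b : ℝ) (m : ℕ) (c : Co m) (z : ℂ) :
    tp a b m c z = inner ℝ (V_grad_e a b m z) c := by
  rw [PiLp.inner_apply]
  unfold tp
  refine Finset.sum_congr rfl fun i _ => ?_
  rfl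

lemma V_grad_hasFD (a b : ℝ) (m : ℕ) (w : ℂ → ℝ) (hw : Continuous w) (c0 : Co m) :
    HasFDerivAt (fun c : Co m => ∫ z in rect a b 0, w z * Real.exp (tp a b m c z))
      (∫ z in rect a b 0, (w z * Real.exp (tp a b m c0 z)) • innerSL ℝ (V_grad_e a b m z)) c0 := by
  have he := V_grad_e_cont a b m
  have hF : Continuous (Function.uncurry fun (c : Co m) (z : ℂ) =>
      w z * Real.exp (tp a b m c z)) := by
    simp only [V_grad_tp]
    change Continuous fun q : Co m × ℂ => w q.2 * Real.exp (inner ℝ (V_grad_e a b m q.2) q.1)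
    have := he.comp (continuous_snd (X := Co m) (Y := ℂ))
    fun_prop
  have hF' : Continuous (Function.uncurry fun (c : Co m) (z : ℂ) =>
      (w z * Real.exp (tp a b m c z)) • innerSL ℝ (V_grad_e a b m z)) := by
    change Continuous fun q : Co m × ℂ => (Function.uncurry fun (c : Co m) (z : ℂ) =>
      w z * Real.exp (tp a b m c z)) q • innerSL ℝ (V_grad_e a b m q.2)
    exact hF.smul ((innerSL ℝ).continuous.comp (he.comp continuous_snd))
  obtain ⟨M, hM⟩ := V_grad_bound hF' a b c0
  refine hasFDerivAt_integral_of_dominated_of_fderiv_le (𝕜 := ℝ)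
    (F := fun (c : Co m) (z : ℂ) => w z * Real.exp (tp a b m c z))
    (F' := fun (c : Co m) (z : ℂ) =>
      (w z * Real.exp (tp a b m c z)) • innerSL ℝ (V_grad_e a b m z)) (s := ball c0 1)
    (bound := fun _ => M) (ball_mem_nhds c0 one_pos) ?_ ?_ ?_ ?_
    (V_grad_integrable continuous_const a b) ?_
  · exact Eventually.of_forall fun c =>
      (hF.comp (Continuous.prodMk_right c)).aestronglyMeasurable
  · exact V_grad_integrable (hF.comp (Continuous.prodMk_right c0)) a b
  · exact (hF'.comp (Continuous.prodMk_right c0)).aestronglyMeasurable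
  · exact V_grad_ae fun z hz c hc => hM c hc z hz
  · refine Eventually.of_forall fun z c _ => ?_
    have h1 : HasFDerivAt (fun c : Co m => tp a b m c z) (innerSL ℝ (V_grad_e a b m z)) c := by
      have h2 : (fun c : Co m => tp a b m c z) = fun c => innerSL ℝ (V_grad_e a b m z) c := by
        ext c; rw [V_grad_tp]; rfl
      rw [h2]
      exact (innerSL ℝ (V_grad_e a b m z)).hasFDerivAt
    have h3 := (h1.exp).const_mul (w z)
    rw [smul_smul] at h3
    exact h3

lemma V_grad_nu {a b : ℝ} (ha : 0 < a) (hb : 0 < b) {m : ℕ} (i : hm m × Bool) :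
    0 < nu a b i.1.1 := by
  obtain ⟨⟨ξ, hξ⟩, s⟩ := i
  have h1 : 0 < ξ.1 ∨ (ξ.1 = 0 ∧ 0 < ξ.2) := (Finset.mem_filter.1 hξ).2
  change 0 < nu a b ξ
  unfold nu
  have hpi := Real.pi_pos
  have h2 : 0 < ((ξ.1 : ℝ) / a) ^ 2 + ((ξ.2 : ℝ) / b) ^ 2 := by
    rcases h1 with h1 | h1
    · have : (0 : ℝ) < ξ.1 := by exact_mod_cast h1
      positivity
    · have : (0 : ℝ) < ξ.2 := by exact_mod_cast h1.2
      positivity
  positivity

theorem pr_V_grad (hjen : V_jen) (horth : V_orth) : V_grad := by
  intro a b ha hb w hw m k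
  obtain ⟨CJ, hJ⟩ := hjen a b ha hb w hw
  have htc : ∀ c : Co m, Continuous (tp a b m c) ∧ Per a b (tp a b m c) := fun c =>
    ⟨((horth a b ha hb m).2.2 c).2.1, (((horth a b ha hb m).2.2 c).1).per⟩
  have hpos : ∀ c : Co m, 0 < ti a b (fun z => w z * Real.exp (tp a b m c z)) := fun c =>
    (hJ _ (htc c).1 (htc c).2).1
  have he := V_grad_e_cont a b m
  have hF : Continuous (Function.uncurry fun (c : Co m) (z : ℂ) =>
      w z * Real.exp (tp a b m c z)) := by
    simp only [V_grad_tp]
    change Continuous fun q : Co m × ℂ => w q.2 * Real.exp (inner ℝ (V_grad_e a b m q.2) q.1)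
    have := he.comp (continuous_snd (X := Co m) (Y := ℂ))
    have := hw.cont
    fun_prop
  have hW : Continuous fun c : Co m => ti a b (fun z => w z * Real.exp (tp a b m c z)) :=
    V_grad_cont hF a b
  have hq : ∀ g : ℂ → ℝ, Continuous g → Continuous fun c : Co m =>
      ti a b (fun z => g z * (w z * Real.exp (tp a b m c z))) /
        ti a b (fun z => w z * Real.exp (tp a b m c z)) := by
    intro g hg
    refine Continuous.div ?_ hW fun c => (hpos c).ne'
    refine V_grad_cont (g := fun (c : Co m) (z : ℂ) =>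
      g z * (w z * Real.exp (tp a b m c z))) ?_ a b
    exact (hg.comp continuous_snd).mul hF
  have hen0 : ∀ c : Co m, 0 ≤ en a b m c := by
    intro c
    unfold en
    refine mul_nonneg (by positivity) (Finset.sum_nonneg fun i _ => ?_)
    exact mul_nonneg (V_grad_nu ha hb i).le (sq_nonneg _)
  refine ⟨?_, ?_, ?_, ?_, ?_, hen0, ?_⟩
  · unfold gw
    exact (PiLp.continuous_toLp 2 _).comp (continuous_pi fun i => hq _ (V_grad_md a b _))
  · unfold gen
    refine (PiLp.continuous_toLp 2 _).comp (continuous_pi fun i => ?_)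
    fun_prop
  · intro c
    have h1 := V_grad_hasFD a b m w hw.cont c
    have h2 := h1.log (hpos c).ne'
    rw [hasGradientAt_iff_hasFDerivAt]
    have h3 : (InnerProductSpace.toDual ℝ (Co m)) (gw a b w m c) =
        (ti a b (fun z => w z * Real.exp (tp a b m c z)))⁻¹ •
          ∫ z in rect a b 0, (w z * Real.exp (tp a b m c z)) • innerSL ℝ (V_grad_e a b m z) := by
      ext h
      have hint : Integrable (fun z => (w z * Real.exp (tp a b m c z)) •
          innerSL ℝ (V_grad_e a b m z)) (volume.restrict (rect a b 0)) := by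
        refine V_grad_integrable ?_ a b
        exact (hF.comp (Continuous.prodMk_right c)).smul ((innerSL ℝ).continuous.comp he)
      rw [smul_apply, ContinuousLinearMap.integral_apply hint]
      simp only [smul_apply, innerSL_apply_apply,
        InnerProductSpace.toDual_apply_apply, smul_eq_mul, PiLp.inner_apply, RCLike.inner_apply,
        conj_trivial]
      have h4 : ∀ z, w z * Real.exp (tp a b m c z) * ∑ i, h i * (V_grad_e a b m z) i =
          ∑ i : hm m × Bool, h i * (md a b (i.1.1, i.2) z *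
            (w z * Real.exp (tp a b m c z))) := by
        intro z
        rw [Finset.mul_sum]
        refine Finset.sum_congr rfl fun i _ => ?_
        change w z * Real.exp (tp a b m c z) * (h i * md a b (i.1.1, i.2) z) = _
        ring
      simp_rw [h4]
      rw [integral_finsetSum _ (fun i _ => ?_)]
      · rw [Finset.mul_sum]
        refine Finset.sum_congr rfl fun i _ => ?_
        rw [integral_const_mul]
        change h i * (ti a b (fun z => md a b (i.1.1, i.2) z *
          (w z * Real.exp (tp a b m c z))) / ti a b (fun z => w z * Real.exp (tp a b m c z))) = _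
        rw [div_eq_mul_inv]
        unfold ti
        ring
      · refine V_grad_integrable ?_ a b
        exact continuous_const.mul ((V_grad_md a b _).mul (hF.comp (Continuous.prodMk_right c)))
    rw [h3]
    exact h2
  · intro c
    rw [hasGradientAt_iff_hasFDerivAt]
    have h1 : ∀ i : hm m × Bool, HasFDerivAt (fun c : Co m => nu a b i.1.1 * c i ^ 2)
        (nu a b i.1.1 • ((2 * c i) • (EuclideanSpace.proj i : Co m →L[ℝ] ℝ))) c := by
      intro i
      have h2 := ((EuclideanSpace.proj (𝕜 := ℝ) i : Co m →L[ℝ] ℝ).hasFDerivAt (x := c)).pow 2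
      have h3 := h2.const_mul (nu a b i.1.1)
      have h4 : (2 • (EuclideanSpace.proj (𝕜 := ℝ) i : Co m →L[ℝ] ℝ) c ^ (2 - 1)) = 2 * c i := by
        simp
      rw [h4] at h3
      exact h3
    have h2 := (HasFDerivAt.fun_sum fun i (_ : i ∈ Finset.univ) => h1 i).const_mul (a * b / 2)
    have h3 : (InnerProductSpace.toDual ℝ (Co m)) (gen a b m c) = (a * b / 2) •
        ∑ i : hm m × Bool, nu a b i.1.1 •
          ((2 * c i) • (EuclideanSpace.proj i : Co m →L[ℝ] ℝ)) := by
      ext h
      rw [smul_apply, sum_apply]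
      simp only [smul_apply, InnerProductSpace.toDual_apply_apply,
        smul_eq_mul, PiLp.inner_apply, RCLike.inner_apply, conj_trivial]
      rw [Finset.mul_sum]
      refine Finset.sum_congr rfl fun i _ => ?_
      change h i * (a * b * nu a b i.1.1 * c i) = a * b / 2 * (nu a b i.1.1 * (2 * c i * h i))
      ring
    rw [h3]
    exact h2
  · unfold mom
    refine (PiLp.continuous_toLp 2 _).comp (continuous_pi fun i => hq _ ?_)
    unfold cm
    split_ifs <;> fun_prop
  · intro M
    refine ⟨Real.sqrt (∑ i : hm m × Bool, 2 * M / (a * b * nu a b i.1.1)), fun c hc => ?_⟩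
    rw [EuclideanSpace.norm_eq]
    refine Real.sqrt_le_sqrt (Finset.sum_le_sum fun i _ => ?_)
    have h1 := V_grad_nu ha hb i
    rw [le_div_iff₀ (by positivity)]
    have h2 : nu a b i.1.1 * c i ^ 2 ≤ ∑ i : hm m × Bool, nu a b i.1.1 * c i ^ 2 :=
      Finset.single_le_sum (f := fun i : hm m × Bool => nu a b i.1.1 * c i ^ 2)
        (fun j _ => mul_nonneg (V_grad_nu ha hb j).le (sq_nonneg _)) (Finset.mem_univ i)
    have h3 : a * b / 2 * (nu a b i.1.1 * c i ^ 2) ≤ M :=
      (mul_le_mul_of_nonneg_left h2 (by positivity)).trans hc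
    rw [Real.norm_eq_abs, sq_abs]
    nlinarith

end Pool.Agent.Vx

end

section

/-!
# MP_afe918_an, item Vimt: the improved Moser-Trudinger inequality
-/

set_option autoImplicit false

open Complex Set Filter Topology MeasureTheory Metric
open scoped Real ContDiff

namespace Pool.Agent.Vx

theorem V_imt_rect (a b : ℝ) : volume (rect a b 0) < ⊤ := by
  have h : rect a b 0 ⊆ ball 0 (a / 2 + b / 2) := by
    rintro z ⟨h1, h2⟩
    rw [Complex.zero_re, sub_zero] at h1
    rw [Complex.zero_im, sub_zero] at h2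
    rw [mem_ball_zero_iff]
    exact (Complex.norm_le_abs_re_add_abs_im z).trans_lt (add_lt_add h1 h2)
  exact (measure_mono h).trans_lt measure_ball_lt_top

theorem V_imt_int {a b : ℝ} {g : ℂ → ℝ} (hg : Measurable g) (M : ℝ) (hM : ∀ z, |g z| ≤ M) :
    IntegrableOn g (rect a b 0) :=
  Measure.integrableOn_of_bounded (M := M) (V_imt_rect a b).ne hg.aestronglyMeasurable
    (Eventually.of_forall hM)

theorem V_imt_BMint {a b : ℝ} {g : ℂ → ℝ} (hg : BM a b g) : IntegrableOn g (rect a b 0) := by
  obtain ⟨M, hM⟩ := hg.bdd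
  exact V_imt_int hg.meas M hM

theorem V_imt_BMmul {a b : ℝ} {f g : ℂ → ℝ} (hf : BM a b f) (hg : BM a b g) :
    BM a b (fun z => f z * g z) := by
  obtain ⟨M, hM⟩ := hf.bdd
  obtain ⟨N, hN⟩ := hg.bdd
  refine ⟨hf.meas.mul hg.meas, fun z => ?_, M * N, fun z => ?_⟩
  · simp only [(hf.per z).1, (hf.per z).2, (hg.per z).1, (hg.per z).2, and_self]
  · rw [abs_mul]
    exact mul_le_mul (hM z) (hN z) (abs_nonneg _) ((abs_nonneg _).trans (hM z))

theorem V_imt_mono {a b : ℝ} {f g : ℂ → ℝ} (hf : IntegrableOn f (rect a b 0))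
    (hg : IntegrableOn g (rect a b 0)) (h : ∀ z, f z ≤ g z) : ti a b f ≤ ti a b g :=
  integral_mono hf hg h

theorem V_imt_per {α : Type} {a b : ℝ} {f : ℂ → α} (h : Per a b f) (m k : ℤ) (z : ℂ) :
    f (z + (m * a + k * (b * I))) = f z := by
  have h1 : Function.Periodic f (a : ℂ) := fun z => (h z).1
  have h2 : Function.Periodic f ((b : ℂ) * I) := fun z => (h z).2
  have h3 : Function.Periodic f (m * (a : ℂ)) := h1.int_mul m
  have h4 : Function.Periodic f (k * ((b : ℂ) * I)) := h2.int_mul k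
  exact (h3.add_period h4) z

theorem V_imt_bdd {a b : ℝ} (ha : 0 < a) (hb : 0 < b) {f : ℂ → ℝ} (hf : Continuous f)
    (hp : Per a b f) : ∃ M, ∀ z, |f z| ≤ M := by
  obtain ⟨M, hM⟩ := (isCompact_closedBall (0 : ℂ) (a + b)).exists_bound_of_continuousOn
    hf.continuousOn
  refine ⟨M, fun z => ?_⟩
  have h1 := V_imt_per hp (-⌊z.re / a⌋) (-⌊z.im / b⌋) z
  set w : ℂ := z + (((-⌊z.re / a⌋ : ℤ) : ℂ) * a + ((-⌊z.im / b⌋ : ℤ) : ℂ) * (b * I)) with hw
  rw [← h1]
  have hre : w.re = z.re - ⌊z.re / a⌋ * a := by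
    rw [hw]
    simp
    ring
  have him : w.im = z.im - ⌊z.im / b⌋ * b := by
    rw [hw]
    simp
    ring
  have h2 : (⌊z.re / a⌋ : ℝ) * a ≤ z.re := (le_div_iff₀ ha).1 (Int.floor_le _)
  have h3 : z.re < (⌊z.re / a⌋ + 1 : ℝ) * a := (div_lt_iff₀ ha).1 (Int.lt_floor_add_one _)
  have h4 : (⌊z.im / b⌋ : ℝ) * b ≤ z.im := (le_div_iff₀ hb).1 (Int.floor_le _)
  have h5 : z.im < (⌊z.im / b⌋ + 1 : ℝ) * b := (div_lt_iff₀ hb).1 (Int.lt_floor_add_one _)
  have h6 : w ∈ closedBall (0 : ℂ) (a + b) := by
    rw [mem_closedBall_zero_iff]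
    refine (Complex.norm_le_abs_re_add_abs_im w).trans (add_le_add ?_ ?_)
    · rw [hre, abs_le]
      constructor <;> linarith
    · rw [him, abs_le]
      constructor <;> linarith
  exact hM w h6

theorem V_imt_md {a b : ℝ} (ha : 0 < a) (hb : 0 < b) (i : (ℤ × ℤ) × Bool) :
    Continuous (md a b i) ∧ Per a b (md a b i) := by
  obtain ⟨⟨j, k⟩, s⟩ := i
  have hph : Continuous (ph a b (j, k)) := by
    unfold ph
    exact continuous_const.mul (((continuous_const.mul Complex.continuous_re).div_const _).add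
      ((continuous_const.mul Complex.continuous_im).div_const _))
  have h1 : ∀ z, ph a b (j, k) (z + a) = ph a b (j, k) z + j * (2 * π) := by
    intro z
    unfold ph
    simp only [Complex.add_re, Complex.ofReal_re, Complex.add_im, Complex.ofReal_im, add_zero]
    field_simp
    ring
  have h2 : ∀ z, ph a b (j, k) (z + b * I) = ph a b (j, k) z + k * (2 * π) := by
    intro z
    unfold ph
    have e1 : (z + b * I).re = z.re := by simp
    have e2 : (z + b * I).im = z.im + b := by simp
    rw [e1, e2]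
    field_simp
    ring
  cases s
  · constructor
    · have : md a b ((j, k), false) = fun z => Real.cos (ph a b (j, k) z) := by
        funext z
        simp [md]
      rw [this]
      exact Real.continuous_cos.comp hph
    · intro z
      simp only [md, h1, h2, Real.cos_add_int_mul_two_pi, Bool.false_eq_true, if_false, and_self]
  · constructor
    · have : md a b ((j, k), true) = fun z => Real.sin (ph a b (j, k) z) := by
        funext z
        simp [md]
      rw [this]
      exact Real.continuous_sin.comp hph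
    · intro z
      simp only [md, h1, h2, Real.sin_add_int_mul_two_pi, if_true, and_self]

theorem V_imt_tp {a b : ℝ} (ha : 0 < a) (hb : 0 < b) (m : ℕ) (c : Co m) :
    Continuous (tp a b m c) ∧ Per a b (tp a b m c) := by
  constructor
  · unfold tp
    exact continuous_finsetSum _ fun i _ => continuous_const.mul (V_imt_md ha hb _).1
  · intro z
    unfold tp
    constructor
    · exact Finset.sum_congr rfl fun i _ => by rw [((V_imt_md ha hb _).2 z).1]
    · exact Finset.sum_congr rfl fun i _ => by rw [((V_imt_md ha hb _).2 z).2]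

/-- The averaging argument. -/
theorem V_imt_avg {k : ℕ} {ε CG L C1 en0 Lε Q : ℝ} (hε1 : ε < 1) (U E : Fin (k + 1) → ℝ)
    (A : Fin (k + 1) → Fin (k + 1) → ℝ) (h1 : ∀ i, L ≤ C1 + U i - E i)
    (h2 : 1 / ((k : ℝ) + 1) * ∑ i, U i ≤
      en0 / (4 * (4 * π * (1 - ε) * (k + 1))) + 4 * π * (1 - ε) * (k + 1) * Q)
    (hQ : Q = (1 / ((k : ℝ) + 1)) ^ 2 * ∑ i, ∑ j, A i j)
    (hA : ∀ i j, i ≠ j → A i j ≤ CG) (hg : ∀ i, 4 * π * (1 - ε) * A i i ≤ E i + Lε) :
    L ≤ en0 / (16 * π * (1 - ε) * (k + 1)) +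
      (C1 + Lε + 4 * π * (1 - ε) * (k + 1) * |CG|) := by
  classical
  have hk : (0 : ℝ) < (k : ℝ) + 1 := by positivity
  have hπ := Real.pi_pos
  have hβ : 0 < 4 * π * (1 - ε) := by
    have : 0 < 1 - ε := by linarith
    positivity
  have hcard : ∀ x : ℝ, ∑ _i : Fin (k + 1), x = ((k : ℝ) + 1) * x := by
    intro x
    rw [Finset.sum_const, Finset.card_univ, Fintype.card_fin, nsmul_eq_mul]
    push_cast
    ring
  have hS : ∑ i, ∑ j, A i j ≤ ∑ i, A i i + ((k : ℝ) + 1) ^ 2 * |CG| := by
    have h3 : ∀ i, ∑ j, A i j ≤ A i i + ((k : ℝ) + 1) * |CG| := by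
      intro i
      have h4 : ∀ j ∈ (Finset.univ : Finset (Fin (k + 1))),
          A i j ≤ (if i = j then A i i else 0) + |CG| := by
        intro j _
        split_ifs with h
        · subst h
          have := abs_nonneg CG
          linarith
        · rw [zero_add]
          exact (hA i j h).trans (le_abs_self _)
      refine (Finset.sum_le_sum h4).trans ?_
      rw [Finset.sum_add_distrib, Finset.sum_ite_eq, if_pos (Finset.mem_univ _), hcard]
    refine (Finset.sum_le_sum fun i _ => h3 i).trans ?_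
    rw [Finset.sum_add_distrib, hcard]
    apply le_of_eq
    ring
  have hL : ((k : ℝ) + 1) * L ≤ ((k : ℝ) + 1) * C1 + ∑ i, U i - ∑ i, E i := by
    have h5 : ∑ _i : Fin (k + 1), L ≤ ∑ i, (C1 + U i - E i) :=
      Finset.sum_le_sum fun i _ => h1 i
    rw [hcard, Finset.sum_sub_distrib, Finset.sum_add_distrib, hcard] at h5
    exact h5
  have hG : 4 * π * (1 - ε) * ∑ i, A i i ≤ ∑ i, E i + ((k : ℝ) + 1) * Lε := by
    have h6 : ∑ i, 4 * π * (1 - ε) * A i i ≤ ∑ i, (E i + Lε) :=
      Finset.sum_le_sum fun i _ => hg i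
    rw [← Finset.mul_sum, Finset.sum_add_distrib, hcard] at h6
    exact h6
  have h7 : ∑ i, U i ≤ ((k : ℝ) + 1) * (en0 / (16 * π * (1 - ε) * (k + 1))) +
      4 * π * (1 - ε) * (∑ i, ∑ j, A i j) := by
    have h8 := mul_le_mul_of_nonneg_left h2 hk.le
    rw [hQ] at h8
    have e1 : ((k : ℝ) + 1) * (1 / ((k : ℝ) + 1) * ∑ i, U i) = ∑ i, U i := by
      field_simp
    have e2 : ((k : ℝ) + 1) * (en0 / (4 * (4 * π * (1 - ε) * (k + 1))) +
        4 * π * (1 - ε) * (k + 1) * ((1 / ((k : ℝ) + 1)) ^ 2 * ∑ i, ∑ j, A i j)) =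
        ((k : ℝ) + 1) * (en0 / (16 * π * (1 - ε) * (k + 1))) +
          4 * π * (1 - ε) * (∑ i, ∑ j, A i j) := by
      have e3 : 4 * (4 * π * (1 - ε) * ((k : ℝ) + 1)) = 16 * π * (1 - ε) * (k + 1) := by ring
      rw [e3, mul_add]
      congr 1
      field_simp
    rw [e1, e2] at h8
    exact h8
  have h9 : 4 * π * (1 - ε) * (∑ i, ∑ j, A i j) ≤
      4 * π * (1 - ε) * (∑ i, A i i + ((k : ℝ) + 1) ^ 2 * |CG|) :=
    mul_le_mul_of_nonneg_left hS hβ.le
  have h10 : ((k : ℝ) + 1) * L ≤ ((k : ℝ) + 1) * (en0 / (16 * π * (1 - ε) * (k + 1)) +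
      (C1 + Lε + 4 * π * (1 - ε) * (k + 1) * |CG|)) := by
    nlinarith [h9, h7, hG, hL]
  exact le_of_mul_le_mul_left h10 hk

theorem pr_V_imt (_hG : V_G) (_htr : V_tr) (hconv : V_conv) (_hgfou : V_gfou) (hdual : V_dual)
    (_hexp : V_exp) (hgib : V_gib) : V_imt := by
  classical
  intro a b F hF w hwc hwp hw0 k ε γ CG hε hε1 hγ
  have ha := hF.apos
  have hb := hF.bpos
  obtain ⟨W0, hW0⟩ := V_imt_bdd ha hb hwc hwp
  set W := max W0 1 with hW
  have hW1 : 1 ≤ W := le_max_right _ _
  have hwW : ∀ z, w z ≤ W := fun z => (le_abs_self _).trans ((hW0 z).trans (le_max_left _ _))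
  refine ⟨(Real.log W - Real.log γ) + Real.log (ti a b (fun z => Sf a b F z ^ (-(1 - ε)))) +
    4 * π * (1 - ε) * (k + 1) * |CG|, ?_⟩
  intro Ω hΩm hΩp hsep m c hZ hZi
  obtain ⟨huc, hup⟩ := V_imt_tp ha hb m c
  set u := tp a b m c with hu
  set Z := ti a b (fun z => w z * Real.exp (u z)) with hZdef
  set Zi : Fin (k + 1) → ℝ := fun i =>
    ti a b (fun z => if z ∈ Ω i then w z * Real.exp (u z) else 0) with hZidef
  have hZipos : ∀ i, 0 < Zi i := fun i => (mul_pos hγ hZ).trans_le (hZi i)
  set f : ℂ → ℝ := fun z => w z * Real.exp (u z) with hf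
  have hfc : Continuous f := hwc.mul (Real.continuous_exp.comp huc)
  have hfp : Per a b f := fun z => by
    simp only [hf, (hwp z).1, (hwp z).2, (hup z).1, (hup z).2, and_self]
  obtain ⟨Mf, hMf⟩ := V_imt_bdd ha hb hfc hfp
  have hf0 : ∀ z, 0 ≤ f z := fun z => mul_nonneg (hw0 z) (Real.exp_pos _).le
  set g : Fin (k + 1) → ℂ → ℝ := fun i z => if z ∈ Ω i then f z / Zi i else 0 with hg
  have hgBM : ∀ i, BM a b (g i) := by
    intro i
    refine ⟨Measurable.ite (hΩm i) (hfc.measurable.div_const _) measurable_const, fun z => ?_,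
      Mf / Zi i, fun z => ?_⟩
    · simp only [hg, (hΩp i z).1, (hΩp i z).2, (hfp z).1, (hfp z).2, and_self]
    · simp only [hg]
      split_ifs with h
      · rw [abs_div, abs_of_pos (hZipos i)]
        exact div_le_div_of_nonneg_right (hMf z) (hZipos i).le
      · rw [abs_zero]
        exact div_nonneg ((abs_nonneg _).trans (hMf z)) (hZipos i).le
  have hg0 : ∀ i z, 0 ≤ g i z := by
    intro i z
    simp only [hg]
    split_ifs with h
    · exact div_nonneg (hf0 z) (hZipos i).le
    · exact le_refl _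
  have hg1 : ∀ i, ti a b (g i) = 1 := by
    intro i
    have h1 : g i = fun z => (Zi i)⁻¹ * (if z ∈ Ω i then w z * Real.exp (u z) else 0) := by
      funext z
      simp only [hg, hf]
      split_ifs with h
      · rw [div_eq_inv_mul]
      · rw [mul_zero]
    rw [h1]
    unfold ti
    rw [integral_const_mul]
    exact inv_mul_cancel₀ (hZipos i).ne'
  have huBM : BM a b u := ⟨huc.measurable, hup, V_imt_bdd ha hb huc hup⟩
  -- the entropy
  set U : Fin (k + 1) → ℝ := fun i => ti a b (fun z => g i z * u z) with hU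
  set E : Fin (k + 1) → ℝ := fun i => ti a b (fun z => g i z * Real.log (g i z)) with hE
  have hEint : ∀ i, IntegrableOn (fun z => g i z * Real.log (g i z)) (rect a b 0) := by
    intro i
    obtain ⟨M, hM⟩ := (hgBM i).bdd
    obtain ⟨M', hM'⟩ := (isCompact_closedBall (0 : ℝ) M).exists_bound_of_continuousOn
      Real.continuous_mul_log.continuousOn
    refine V_imt_int ((hgBM i).meas.mul (Real.measurable_log.comp (hgBM i).meas)) M'
      fun z => hM' _ ?_
    rw [mem_closedBall_zero_iff]
    exact hM z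
  have hent : ∀ i, Real.log Z ≤ (Real.log W - Real.log γ) + U i - E i := by
    intro i
    have h1 : ∀ z, g i z * Real.log (g i z) ≤
        (Real.log W - Real.log (Zi i)) * g i z + g i z * u z := by
      intro z
      rcases (hg0 i z).eq_or_lt with h | h
      · rw [← h]
        simp
      · have hz : z ∈ Ω i := by
          by_contra hn
          simp only [hg, if_neg hn, lt_irrefl] at h
        have hgz : g i z = f z / Zi i := by
          simp only [hg, if_pos hz]
        have hfz : 0 < f z := by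
          rcases (hf0 z).eq_or_lt with h' | h'
          · rw [hgz, ← h', zero_div] at h
            exact absurd h (lt_irrefl _)
          · exact h'
        have hwz : 0 < w z := by
          rcases (hw0 z).eq_or_lt with h' | h'
          · simp only [hf, ← h', zero_mul, lt_irrefl] at hfz
          · exact h'
        have hlog : Real.log (g i z) ≤ Real.log W - Real.log (Zi i) + u z := by
          rw [hgz, Real.log_div hfz.ne' (hZipos i).ne']
          simp only [hf]
          rw [Real.log_mul hwz.ne' (Real.exp_pos _).ne', Real.log_exp]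
          have := Real.log_le_log hwz (hwW z)
          linarith
        have := mul_le_mul_of_nonneg_left hlog h.le
        linarith
    have h2 : E i ≤ ti a b (fun z => (Real.log W - Real.log (Zi i)) * g i z + g i z * u z) :=
      V_imt_mono (hEint i) (((V_imt_BMint (hgBM i)).const_mul _).add
        (V_imt_BMint (V_imt_BMmul (hgBM i) huBM))) h1
    have h3 : ti a b (fun z => (Real.log W - Real.log (Zi i)) * g i z + g i z * u z) =
        (Real.log W - Real.log (Zi i)) * ti a b (g i) + U i := by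
      have e1 := integral_add ((V_imt_BMint (hgBM i)).const_mul (Real.log W - Real.log (Zi i)))
        (V_imt_BMint (V_imt_BMmul (hgBM i) huBM))
      have e2 : ∫ z in rect a b 0, (Real.log W - Real.log (Zi i)) * g i z =
          (Real.log W - Real.log (Zi i)) * ∫ z in rect a b 0, g i z := integral_const_mul _ _
      rw [e2] at e1
      exact e1
    rw [h3, hg1, mul_one] at h2
    have h4 : Real.log γ + Real.log Z ≤ Real.log (Zi i) := by
      rw [← Real.log_mul hγ.ne' hZ.ne']
      exact Real.log_le_log (mul_pos hγ hZ) (hZi i)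
    linarith
  -- the average
  set gb : ℂ → ℝ := fun z => 1 / ((k : ℝ) + 1) * ∑ i, g i z with hgb
  have hgbBM : BM a b gb := by
    choose M hM using fun i => (hgBM i).bdd
    refine ⟨measurable_const.mul (Finset.measurable_sum _ fun i _ => (hgBM i).meas), fun z => ?_,
      1 / ((k : ℝ) + 1) * ∑ i, M i, fun z => ?_⟩
    · simp only [hgb]
      constructor
      · congr 1
        exact Finset.sum_congr rfl fun i _ => ((hgBM i).per z).1
      · congr 1
        exact Finset.sum_congr rfl fun i _ => ((hgBM i).per z).2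
    · simp only [hgb]
      rw [abs_mul, abs_of_pos (by positivity : (0 : ℝ) < 1 / ((k : ℝ) + 1))]
      refine mul_le_mul_of_nonneg_left ?_ (by positivity)
      exact (Finset.abs_sum_le_sum_abs _ _).trans (Finset.sum_le_sum fun i _ => hM i z)
  set A : Fin (k + 1) → Fin (k + 1) → ℝ := fun i j =>
    ti a b (fun z => g i z * gg a b F (g j) z) with hA
  have hggBM : ∀ j, BM a b (gg a b F (g j)) := fun j => (hconv a b F hF (g j) (hgBM j)).2.2.2
  have hggb : ∀ x, gg a b F gb x = 1 / ((k : ℝ) + 1) * ∑ j, gg a b F (g j) x := by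
    intro x
    unfold gg ti
    rw [← integral_finsetSum _ fun j _ => (hconv a b F hF (g j) (hgBM j)).1 x,
      ← integral_const_mul]
    refine integral_congr_ae (Eventually.of_forall fun y => ?_)
    simp only [hgb, Finset.mul_sum]
    exact Finset.sum_congr rfl fun j _ => by ring
  have hQ : ti a b (fun z => gb z * gg a b F gb z) =
      (1 / ((k : ℝ) + 1)) ^ 2 * ∑ i, ∑ j, A i j := by
    have e1 : (fun z => gb z * gg a b F gb z) = fun z => (1 / ((k : ℝ) + 1)) ^ 2 *
        ∑ i, ∑ j, g i z * gg a b F (g j) z := by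
      funext z
      rw [hggb, ← Finset.sum_mul_sum]
      simp only [hgb]
      ring
    rw [e1]
    unfold ti
    rw [integral_const_mul, integral_finsetSum]
    · congr 1
      refine Finset.sum_congr rfl fun i _ => ?_
      rw [integral_finsetSum]
      · rfl
      · intro j _
        exact V_imt_BMint (V_imt_BMmul (hgBM i) (hggBM j))
    · intro i _
      exact integrable_finsetSum _ fun j _ => V_imt_BMint (V_imt_BMmul (hgBM i) (hggBM j))
  have hUb : ti a b (fun z => gb z * u z) = 1 / ((k : ℝ) + 1) * ∑ i, U i := by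
    have e1 : (fun z => gb z * u z) = fun z => 1 / ((k : ℝ) + 1) * ∑ i, g i z * u z := by
      funext z
      rw [← Finset.sum_mul]
      simp only [hgb]
      ring
    rw [e1]
    unfold ti
    rw [integral_const_mul, integral_finsetSum]
    · rfl
    · intro i _
      exact V_imt_BMint (V_imt_BMmul (hgBM i) huBM)
  have hAij : ∀ i j, i ≠ j → A i j ≤ CG := by
    intro i j hij
    have h1 : ∀ x, g i x * gg a b F (g j) x ≤ CG * g i x := by
      intro x
      have hInt := (hconv a b F hF (g j) (hgBM j)).1 x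
      have e1 : g i x * gg a b F (g j) x = ti a b (fun y => g i x * (Gr a b F (x - y) * g j y)) :=
        (integral_const_mul _ _).symm
      have e2 : ti a b (fun y => CG * g i x * g j y) = CG * g i x := by
        have : ti a b (fun y => CG * g i x * g j y) = CG * g i x * ti a b (g j) :=
          integral_const_mul _ _
        rw [this, hg1, mul_one]
      rw [e1, ← e2]
      refine V_imt_mono (hInt.const_mul _) ((V_imt_BMint (hgBM j)).const_mul _) fun y => ?_
      by_cases hx : x ∈ Ω i
      · by_cases hy : y ∈ Ω j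
        · have h2 := hsep i j hij x hx y hy
          have h3 := mul_le_mul_of_nonneg_right h2 (mul_nonneg (hg0 i x) (hg0 j y))
          linarith
        · have : g j y = 0 := by simp only [hg, if_neg hy]
          rw [this]
          simp
      · have : g i x = 0 := by simp only [hg, if_neg hx]
        rw [this]
        simp
    have h2 : A i j ≤ ti a b (fun x => CG * g i x) :=
      V_imt_mono (V_imt_BMint (V_imt_BMmul (hgBM i) (hggBM j)))
        ((V_imt_BMint (hgBM i)).const_mul _) h1
    have h3 : ti a b (fun x => CG * g i x) = CG * ti a b (g i) := integral_const_mul _ _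
    rw [h3, hg1, mul_one] at h2
    exact h2
  have hk : (0 : ℝ) < (k : ℝ) + 1 := by positivity
  have hβ : 0 < 4 * π * (1 - ε) * ((k : ℝ) + 1) := by
    have := Real.pi_pos
    have : 0 < 1 - ε := by linarith
    positivity
  have hd := (hdual a b F hF gb hgbBM).2 m c _ hβ
  rw [← hu, hUb] at hd
  exact V_imt_avg hε1 U E A hent hd hQ hAij fun i =>
    hgib a b F hF ε hε hε1 (g i) (hgBM i) (hg0 i) (hg1 i)

end Pool.Agent.Vx

end

section

/-!
# MP_afe918_an, item Vk1 (helper19): the logarithmic integral of the bubble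
-/

set_option autoImplicit false

open Complex Set Filter Topology MeasureTheory Metric
open scoped Real ContDiff

namespace Pool.Agent.Vx

lemma V_k1_sin0 {v δ : ℝ} (h0 : 0 < v) (h : v ≤ δ) (hδ : δ ≤ 1) :
    (1 - δ) * v ^ 2 ≤ Real.sin v ^ 2 := by
  have h1 := Real.sin_gt_sub_cube h0
  have h2 : 0 ≤ v - v ^ 3 / 6 := by
    have : v ^ 3 = v * v ^ 2 := by ring
    nlinarith
  have h3 : (v - v ^ 3 / 6) ^ 2 ≤ Real.sin v ^ 2 := pow_le_pow_left₀ h2 h1.le 2
  refine le_trans ?_ h3
  have e : (v - v ^ 3 / 6) ^ 2 = v ^ 2 * (1 - v ^ 2 / 6) ^ 2 := by ring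
  rw [e, mul_comm]
  refine mul_le_mul_of_nonneg_left ?_ (sq_nonneg v)
  have h4 : v ^ 2 ≤ v := by nlinarith
  nlinarith [sq_nonneg (v ^ 2)]

lemma V_k1_sin {u δ : ℝ} (h : |u| ≤ δ) (hδ : δ ≤ 1) : (1 - δ) * u ^ 2 ≤ Real.sin u ^ 2 := by
  rcases lt_trichotomy u 0 with h0 | h0 | h0
  · have := V_k1_sin0 (v := -u) (by linarith) (by rwa [abs_of_neg h0] at h) hδ
    rw [Real.sin_neg] at this
    nlinarith
  · subst h0; simp
  · exact V_k1_sin0 h0 (by rwa [abs_of_pos h0] at h) hδ

lemma V_k1_jor {u : ℝ} (h : |u| ≤ π / 2) : (2 / π) ^ 2 * u ^ 2 ≤ Real.sin u ^ 2 := by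
  have h1 := Real.mul_abs_le_abs_sin h
  have h2 := pow_le_pow_left₀ (by positivity) h1 2
  rw [mul_pow, sq_abs, sq_abs] at h2
  exact h2

/-- The radial integral. -/
lemma V_k1_rad {κ L r : ℝ} (hκ : 0 < κ) (hL : 0 < L) (hr : 0 < r) :
    ∫ y in (0 : ℝ)..r, y * (L ^ 2 / (1 + κ * L ^ 2 * y ^ 2)) =
      1 / (2 * κ) * Real.log (1 + κ * L ^ 2 * r ^ 2) := by
  have hd : ∀ y ∈ uIcc 0 r, HasDerivAt (fun y => 1 / (2 * κ) *
      Real.log (1 + κ * L ^ 2 * y ^ 2)) (y * (L ^ 2 / (1 + κ * L ^ 2 * y ^ 2))) y := by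
    intro y _
    have hp : 0 < 1 + κ * L ^ 2 * y ^ 2 := by positivity
    have h := ((((hasDerivAt_pow 2 y).const_mul (κ * L ^ 2)).const_add 1).log hp.ne').const_mul
      (1 / (2 * κ))
    refine h.congr_deriv ?_
    field_simp
    norm_num
  have hc : Continuous (fun y : ℝ => y * (L ^ 2 / (1 + κ * L ^ 2 * y ^ 2))) := by
    refine continuous_id.mul (continuous_const.div (by fun_prop) (fun y => ?_))
    positivity
  rw [intervalIntegral.integral_eq_sub_of_hasDerivAt hd (hc.intervalIntegrable _ _)]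
  simp

/-- The integral over the ball. -/
lemma V_k1_ball {κ L r : ℝ} (hκ : 0 < κ) (hL : 0 < L) (hr : 0 < r) :
    ∫ x : ℂ, (ball (0 : ℂ) r).indicator (fun x => L ^ 2 / (1 + κ * L ^ 2 * ‖x‖ ^ 2)) x =
      π / κ * Real.log (1 + κ * L ^ 2 * r ^ 2) := by
  set f : ℝ → ℝ := (Iio r).indicator (fun y => L ^ 2 / (1 + κ * L ^ 2 * y ^ 2)) with hf
  have e : ∀ x : ℂ, (ball (0 : ℂ) r).indicator (fun x => L ^ 2 / (1 + κ * L ^ 2 * ‖x‖ ^ 2)) x =
      f ‖x‖ := by
    intro x
    by_cases h : ‖x‖ < r
    · rw [indicator_of_mem (mem_ball_zero_iff.2 h), hf, indicator_of_mem (mem_Iio.2 h)]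
    · rw [indicator_of_notMem (fun h' => h (mem_ball_zero_iff.1 h')), hf,
        indicator_of_notMem (fun h' => h (mem_Iio.1 h'))]
  simp only [e]
  rw [integral_fun_norm_addHaar volume f, Complex.finrank_real_complex]
  have hv : volume.real (ball (0 : ℂ) 1) = π := by
    rw [measureReal_def, Complex.volume_ball]
    simp
  have hin : ∫ y in Ioi (0 : ℝ), y ^ (2 - 1) • f y =
      ∫ y in (0 : ℝ)..r, y * (L ^ 2 / (1 + κ * L ^ 2 * y ^ 2)) := by
    rw [intervalIntegral.integral_of_le hr.le, integral_Ioc_eq_integral_Ioo]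
    have e2 : ∀ y, y ^ (2 - 1) • f y =
        (Iio r).indicator (fun y => y * (L ^ 2 / (1 + κ * L ^ 2 * y ^ 2))) y := by
      intro y
      by_cases h : y < r
      · rw [hf, indicator_of_mem (mem_Iio.2 h), indicator_of_mem (mem_Iio.2 h)]
        simp
      · rw [hf, indicator_of_notMem (fun h' => h (mem_Iio.1 h')),
          indicator_of_notMem (fun h' => h (mem_Iio.1 h'))]
        simp
    simp only [e2]
    rw [setIntegral_indicator measurableSet_Iio]
    rfl
  rw [hin, hv, V_k1_rad hκ hL hr]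
  simp
  field_simp

theorem pr_V_k1 (htr : V_tr) : V_k1 := by
  intro a b y0 δ ha hb hδ
  have hpi := Real.pi_pos
  set δ' : ℝ := δ / (2 * π + δ) with hδ'
  have hδ0 : 0 < δ' := by positivity
  have hδ1 : δ' < 1 := by
    rw [hδ', div_lt_one (by positivity)]
    linarith
  set κ : ℝ := 1 - δ' with hκ
  have hκ0 : 0 < κ := by linarith
  have hκ' : 2 * π / κ = 2 * π + δ := by
    have : κ = 2 * π / (2 * π + δ) := by
      rw [hκ, hδ']
      field_simp
      ring
    rw [this]
    field_simp
  set r : ℝ := min a b * δ' / π with hr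
  have hmin : 0 < min a b := lt_min ha hb
  have hr0 : 0 < r := by positivity
  set K : ℝ := π ^ 2 / (4 * r ^ 2) with hK
  have hK0 : 0 < K := by positivity
  refine ⟨π / κ * Real.log (1 + κ * r ^ 2) + K * (a * b), ?_⟩
  intro L t hL
  have hL0 : 0 < L := by linarith
  -- translation
  set f : ℂ → ℝ := fun x => L ^ 2 / (1 + L ^ 2 * Dd a b y0 x t) with hf
  have hDn : ∀ (y1 : ℝ) x s, 0 ≤ Dd a b y1 x s := fun y1 x s => by unfold Dd; positivity
  have hfc : Continuous f := by
    refine continuous_const.div ?_ (fun x => ?_)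
    · simp only [Dd]
      fun_prop
    · have := hDn y0 x t
      positivity
  have hDper : Per a b (fun x => Dd a b y0 x t) := by
    intro z
    constructor
    · have : π * ((z + a).re - t) / a = π * (z.re - t) / a + π := by
        simp
        field_simp
        ring
      simp only [Dd, this, Real.sin_add_pi]
      simp
    · have : π * ((z + b * I).im - y0) / b = π * (z.im - y0) / b + π := by
        simp
        field_simp
        ring
      simp only [Dd, this, Real.sin_add_pi]
      simp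
  have hfper : Per a b f := by
    intro z
    have := hDper z
    simp only at this
    simp only [hf, this.1, this.2, and_self]
  have hrb : rect a b 0 ⊆ ball (0 : ℂ) (a + b) := by
    intro z hz
    rw [mem_ball_zero_iff]
    have h1 : |z.re| < a / 2 := by simpa using hz.1
    have h2 : |z.im| < b / 2 := by simpa using hz.2
    have := Complex.norm_le_abs_re_add_abs_im z
    linarith
  have hrm : MeasurableSet (rect a b 0) := by
    have h1 : IsOpen {z : ℂ | |z.re - (0 : ℂ).re| < a / 2} :=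
      isOpen_lt (by fun_prop) continuous_const
    have h2 : IsOpen {z : ℂ | |z.im - (0 : ℂ).im| < b / 2} :=
      isOpen_lt (by fun_prop) continuous_const
    exact (h1.inter h2).measurableSet
  have hint : ∀ g : ℂ → ℝ, Continuous g → IntegrableOn g (rect a b 0) := by
    intro g hg
    exact (hg.continuousOn.integrableOn_compact (isCompact_closedBall 0 (a + b))).mono_set
      (hrb.trans ball_subset_closedBall)
  have htrans := ((htr a b ha hb).2.2 f hfper (hint f hfc) (t + y0 * I)).2
  rw [← htrans]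
  set f0 : ℂ → ℝ := fun x => f (x + (t + y0 * I)) with hf0
  have hf0c : Continuous f0 := hfc.comp (by fun_prop)
  set D0 : ℂ → ℝ := fun x => (a / π * Real.sin (π * x.re / a)) ^ 2 +
    (b / π * Real.sin (π * x.im / b)) ^ 2 with hD0
  have hf0e : ∀ x, f0 x = L ^ 2 / (1 + L ^ 2 * D0 x) := by
    intro x
    simp only [hf0, hf, Dd, hD0]
    simp
  have hD0n : ∀ x, 0 ≤ D0 x := fun x => by simp only [hD0]; positivity
  set g : ℂ → ℝ := (ball (0 : ℂ) r).indicator (fun x => L ^ 2 / (1 + κ * L ^ 2 * ‖x‖ ^ 2)) with hg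
  have hgc : Continuous (fun x : ℂ => L ^ 2 / (1 + κ * L ^ 2 * ‖x‖ ^ 2)) := by
    refine continuous_const.div (by fun_prop) (fun x => ?_)
    positivity
  have hgint : Integrable g := by
    rw [hg, integrable_indicator_iff measurableSet_ball]
    exact (hgc.continuousOn.integrableOn_compact (isCompact_closedBall 0 r)).mono_set
      ball_subset_closedBall
  have hg0 : ∀ x, 0 ≤ g x := by
    intro x
    rw [hg]
    refine indicator_nonneg (fun x _ => ?_) x
    positivity
  -- pointwise bound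
  have hpt : ∀ x ∈ rect a b 0, f0 x ≤ g x + K := by
    intro x hx
    have h1 : |x.re| < a / 2 := by simpa using hx.1
    have h2 : |x.im| < b / 2 := by simpa using hx.2
    have hn : ‖x‖ ^ 2 = x.re ^ 2 + x.im ^ 2 := by
      rw [Complex.sq_norm, Complex.normSq_apply]
      ring
    rw [hf0e]
    by_cases h : ‖x‖ < r
    · have hx1 : |π * x.re / a| ≤ δ' := by
        have h3 : |x.re| ≤ r := (Complex.abs_re_le_norm x).trans h.le
        rw [abs_div, abs_mul, abs_of_pos hpi, abs_of_pos ha, div_le_iff₀ ha]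
        calc π * |x.re| ≤ π * r := mul_le_mul_of_nonneg_left h3 hpi.le
          _ = δ' * min a b := by rw [hr]; field_simp
          _ ≤ δ' * a := mul_le_mul_of_nonneg_left (min_le_left _ _) hδ0.le
      have hx2 : |π * x.im / b| ≤ δ' := by
        have h3 : |x.im| ≤ r := (Complex.abs_im_le_norm x).trans h.le
        rw [abs_div, abs_mul, abs_of_pos hpi, abs_of_pos hb, div_le_iff₀ hb]
        calc π * |x.im| ≤ π * r := mul_le_mul_of_nonneg_left h3 hpi.le
          _ = δ' * min a b := by rw [hr]; field_simp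
          _ ≤ δ' * b := mul_le_mul_of_nonneg_left (min_le_right _ _) hδ0.le
      have hs1 := V_k1_sin hx1 hδ1.le
      have hs2 := V_k1_sin hx2 hδ1.le
      have hD : κ * ‖x‖ ^ 2 ≤ D0 x := by
        rw [hn]
        have e1 : κ * x.re ^ 2 ≤ (a / π * Real.sin (π * x.re / a)) ^ 2 := by
          rw [mul_pow]
          calc κ * x.re ^ 2 = (a / π) ^ 2 * ((1 - δ') * (π * x.re / a) ^ 2) := by
                rw [hκ]; field_simp
            _ ≤ _ := mul_le_mul_of_nonneg_left hs1 (by positivity)
        have e2 : κ * x.im ^ 2 ≤ (b / π * Real.sin (π * x.im / b)) ^ 2 := by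
          rw [mul_pow]
          calc κ * x.im ^ 2 = (b / π) ^ 2 * ((1 - δ') * (π * x.im / b) ^ 2) := by
                rw [hκ]; field_simp
            _ ≤ _ := mul_le_mul_of_nonneg_left hs2 (by positivity)
        simp only [hD0]
        linarith
      rw [hg, indicator_of_mem (mem_ball_zero_iff.2 h)]
      have : L ^ 2 / (1 + L ^ 2 * D0 x) ≤ L ^ 2 / (1 + κ * L ^ 2 * ‖x‖ ^ 2) := by
        refine div_le_div_of_nonneg_left (by positivity) (by positivity) ?_
        have := mul_le_mul_of_nonneg_left hD (sq_nonneg L)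
        linarith
      linarith
    · have hrx : r ≤ ‖x‖ := not_lt.1 h
      have hx1 : |π * x.re / a| ≤ π / 2 := by
        rw [abs_div, abs_mul, abs_of_pos hpi, abs_of_pos ha, div_le_iff₀ ha]
        calc π * |x.re| ≤ π * (a / 2) := mul_le_mul_of_nonneg_left h1.le hpi.le
          _ = π / 2 * a := by ring
      have hx2 : |π * x.im / b| ≤ π / 2 := by
        rw [abs_div, abs_mul, abs_of_pos hpi, abs_of_pos hb, div_le_iff₀ hb]
        calc π * |x.im| ≤ π * (b / 2) := mul_le_mul_of_nonneg_left h2.le hpi.le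
          _ = π / 2 * b := by ring
      have hs1 := V_k1_jor hx1
      have hs2 := V_k1_jor hx2
      have hD : (4 / π ^ 2) * r ^ 2 ≤ D0 x := by
        have hr2 : r ^ 2 ≤ ‖x‖ ^ 2 := pow_le_pow_left₀ hr0.le hrx 2
        rw [hn] at hr2
        have e1 : (4 / π ^ 2) * x.re ^ 2 ≤ (a / π * Real.sin (π * x.re / a)) ^ 2 := by
          rw [mul_pow]
          calc (4 / π ^ 2) * x.re ^ 2 = (a / π) ^ 2 * ((2 / π) ^ 2 * (π * x.re / a) ^ 2) := by
                field_simp; norm_num; ring
            _ ≤ _ := mul_le_mul_of_nonneg_left hs1 (by positivity)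
        have e2 : (4 / π ^ 2) * x.im ^ 2 ≤ (b / π * Real.sin (π * x.im / b)) ^ 2 := by
          rw [mul_pow]
          calc (4 / π ^ 2) * x.im ^ 2 = (b / π) ^ 2 * ((2 / π) ^ 2 * (π * x.im / b) ^ 2) := by
                field_simp; norm_num; ring
            _ ≤ _ := mul_le_mul_of_nonneg_left hs2 (by positivity)
        have e3 : (4 / π ^ 2) * r ^ 2 ≤ (4 / π ^ 2) * (x.re ^ 2 + x.im ^ 2) :=
          mul_le_mul_of_nonneg_left hr2 (by positivity)
        simp only [hD0]
        linarith
      have hDpos : 0 < (4 / π ^ 2) * r ^ 2 := by positivity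
      have : L ^ 2 / (1 + L ^ 2 * D0 x) ≤ K := by
        rw [div_le_iff₀ (by have := hD0n x; positivity)]
        have h5 : K * ((4 / π ^ 2) * r ^ 2) = 1 := by
          rw [hK]
          field_simp
        have h6 : 1 ≤ K * D0 x := by
          rw [← h5]
          exact mul_le_mul_of_nonneg_left hD hK0.le
        have h7 : L ^ 2 * 1 ≤ L ^ 2 * (K * D0 x) := mul_le_mul_of_nonneg_left h6 (sq_nonneg L)
        nlinarith
      have := hg0 x
      linarith
  have hbd : ti a b f0 ≤ (∫ x : ℂ, g x) + K * (a * b) := by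
    calc ti a b f0 ≤ ∫ x in rect a b 0, (g x + K) := by
          refine setIntegral_mono_on (hint f0 hf0c)
            (hgint.integrableOn.add (hint _ continuous_const)) hrm hpt
      _ = (∫ x in rect a b 0, g x) + ∫ x in rect a b 0, K :=
          integral_add hgint.integrableOn (hint _ continuous_const)
      _ ≤ (∫ x : ℂ, g x) + K * (a * b) := by
          refine add_le_add ?_ ((htr a b ha hb).1 K).le
          exact setIntegral_le_integral hgint (Eventually.of_forall hg0)
  refine hbd.trans ?_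
  rw [hg, V_k1_ball hκ0 hL0 hr0]
  have hlog : Real.log (1 + κ * L ^ 2 * r ^ 2) ≤ 2 * Real.log L + Real.log (1 + κ * r ^ 2) := by
    have h1 : 1 + κ * L ^ 2 * r ^ 2 ≤ L ^ 2 * (1 + κ * r ^ 2) := by nlinarith
    calc Real.log (1 + κ * L ^ 2 * r ^ 2) ≤ Real.log (L ^ 2 * (1 + κ * r ^ 2)) :=
          Real.log_le_log (by positivity) h1
      _ = 2 * Real.log L + Real.log (1 + κ * r ^ 2) := by
          rw [Real.log_mul (by positivity) (by positivity), Real.log_pow]
          push_cast
          ring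
  calc π / κ * Real.log (1 + κ * L ^ 2 * r ^ 2) + K * (a * b) ≤
      π / κ * (2 * Real.log L + Real.log (1 + κ * r ^ 2)) + K * (a * b) := by
        have := mul_le_mul_of_nonneg_left hlog (by positivity : 0 ≤ π / κ)
        linarith
    _ = (2 * π / κ) * Real.log L + (π / κ * Real.log (1 + κ * r ^ 2) + K * (a * b)) := by ring
    _ = _ := by rw [hκ']

end Pool.Agent.Vx

end

section

set_option autoImplicit false

open Complex Set Filter Topology MeasureTheory Metric
open scoped Real ContDiff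

namespace Pool.Agent.Vx

/-! ### Common facts -/

theorem V_k3_measRect (a b : ℝ) (q : ℂ) : MeasurableSet (rect a b q) := by
  apply IsOpen.measurableSet
  unfold rect
  apply IsOpen.inter
  · exact isOpen_lt (continuous_re.sub continuous_const).abs continuous_const
  · exact isOpen_lt (continuous_im.sub continuous_const).abs continuous_const

/-- the closed rectangle -/
theorem V_k3_crect (a b : ℝ) : ∃ K : Set ℂ, IsCompact K ∧ rect a b 0 ⊆ K := by
  refine ⟨closedBall 0 (|a / 2| + |b / 2|), isCompact_closedBall _ _, ?_⟩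
  rintro z ⟨h1, h2⟩
  simp only [zero_re, zero_im, sub_zero] at h1 h2
  rw [mem_closedBall, dist_zero_right]
  have h3 := Complex.norm_le_abs_re_add_abs_im z
  have h4 := le_abs_self (a / 2)
  have h5 := le_abs_self (b / 2)
  linarith

theorem V_k3_intRect {a b : ℝ} {f : ℂ → ℝ} (hf : Continuous f) :
    IntegrableOn f (rect a b 0) := by
  obtain ⟨K, hK, hs⟩ := V_k3_crect a b
  exact (hf.continuousOn.integrableOn_compact hK).mono_set hs

theorem V_k3_Dd_cont {X : Type} [TopologicalSpace X] (a b y0 : ℝ) {f : X → ℂ} {g : X → ℝ}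
    (hf : Continuous f) (hg : Continuous g) : Continuous (fun q => Dd a b y0 (f q) (g q)) := by
  have h1 : Continuous fun q => (f q).re := continuous_re.comp hf
  have h2 : Continuous fun q => (f q).im := continuous_im.comp hf
  unfold Dd
  fun_prop

theorem V_k3_Dd_nonneg (a b y0 : ℝ) (x : ℂ) (t : ℝ) : 0 ≤ Dd a b y0 x t := by
  unfold Dd
  positivity

theorem V_k3_den_pos (a b y0 L : ℝ) (x : ℂ) (t : ℝ) : 0 < 1 + L ^ 2 * Dd a b y0 x t := by
  have := V_k3_Dd_nonneg a b y0 x t
  positivity

theorem V_k3_kp_cont {X : Type} [TopologicalSpace X] (a b y0 L : ℝ) {f : X → ℂ} {g : X → ℝ}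
    (hf : Continuous f) (hg : Continuous g) : Continuous (fun q => kp a b y0 L (f q) (g q)) := by
  unfold kp
  refine Continuous.pow (Continuous.div continuous_const ?_ ?_) 2
  · exact continuous_const.add (continuous_const.mul (V_k3_Dd_cont a b y0 hf hg))
  · intro q
    exact (V_k3_den_pos a b y0 L (f q) (g q)).ne'

theorem V_k3_kp_contx (a b y0 L t : ℝ) : Continuous (fun x : ℂ => kp a b y0 L x t) :=
  V_k3_kp_cont a b y0 L continuous_id continuous_const

theorem V_k3_kp_contt (a b y0 L : ℝ) (x : ℂ) : Continuous (fun t : ℝ => kp a b y0 L x t) :=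
  V_k3_kp_cont a b y0 L continuous_const continuous_id

theorem V_k3_kp_nonneg (a b y0 L : ℝ) (x : ℂ) (t : ℝ) : 0 ≤ kp a b y0 L x t := by
  unfold kp
  positivity

theorem pr_V_k3 (htr : V_tr) (hD : V_D) : V_k3 := by
  intro a b y0 r c0 ha hb hr hc0
  obtain ⟨hDb, hDper, hDshift, -⟩ := hD a b y0 ha hb
  obtain ⟨ρ, hρ, hρr, hρa, hρb, hρ1⟩ : ∃ ρ : ℝ, 0 < ρ ∧ ρ ≤ r ∧ ρ < a / 2 ∧ ρ < b / 2 ∧ ρ ≤ 1 := by
    refine ⟨min (min r (a / 4)) (min (b / 4) 1), by positivity, ?_, ?_, ?_, ?_⟩
    · exact (min_le_left _ _).trans (min_le_left _ _)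
    · have := (min_le_left (min r (a / 4)) (min (b / 4) 1)).trans (min_le_right _ _)
      linarith
    · have := (min_le_right (min r (a / 4)) (min (b / 4) 1)).trans (min_le_left _ _)
      linarith
    · exact (min_le_right _ _).trans (min_le_right _ _)
  refine ⟨c0 * π * ρ ^ 2 / 4, by positivity, ?_⟩
  intro w hwc hwp hw0 hwr L t hL
  have hLpos : 0 < L := by linarith
  set f : ℂ → ℝ := fun x => w x * kp a b y0 L x t with hf
  have hfc : Continuous f := hwc.mul (V_k3_kp_contx a b y0 L t)
  have hfp : Per a b f := by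
    intro z
    have h1 := hwp z
    have h2 : Dd a b y0 (z + a) t = Dd a b y0 z t ∧ Dd a b y0 (z + b * I) t = Dd a b y0 z t :=
      hDper t z
    constructor
    · simp only [hf, kp]
      rw [h1.1, h2.1]
    · simp only [hf, kp]
      rw [h1.2, h2.2]
  have hf0 : ∀ z, 0 ≤ f z := fun z => mul_nonneg (hw0 z) (V_k3_kp_nonneg _ _ _ _ _ _)
  have h3 := ((htr a b ha hb).2.2 f hfp (V_k3_intRect hfc) ((t : ℂ) + y0 * I)).2
  rw [← h3]
  have hsub : ball (0 : ℂ) (ρ / L) ⊆ rect a b 0 := by
    intro z hz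
    rw [mem_ball, dist_zero_right] at hz
    have h4 : ‖z‖ < ρ := lt_of_lt_of_le hz (div_le_self hρ.le hL)
    have h5 := Complex.abs_re_le_norm z
    have h6 := Complex.abs_im_le_norm z
    constructor
    · simp only [zero_re, sub_zero]
      linarith
    · simp only [zero_im, sub_zero]
      linarith
  have hgc : Continuous (fun z => f (z + ((t : ℂ) + y0 * I))) := hfc.comp (by fun_prop)
  have h7 : ∫ z in ball (0 : ℂ) (ρ / L), f (z + ((t : ℂ) + y0 * I)) ≤
      ti a b (fun z => f (z + ((t : ℂ) + y0 * I))) := by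
    unfold ti
    apply setIntegral_mono_set (V_k3_intRect hgc)
    · exact Eventually.of_forall fun z => hf0 _
    · exact Eventually.of_forall hsub
  refine le_trans ?_ h7
  have h8 : ∀ z ∈ ball (0 : ℂ) (ρ / L), c0 * (L / 2) ^ 2 ≤ f (z + ((t : ℂ) + y0 * I)) := by
    intro z hz
    rw [mem_ball, dist_zero_right] at hz
    have h4 : ‖z‖ < ρ := lt_of_lt_of_le hz (div_le_self hρ.le hL)
    have h9 : c0 ≤ w (z + ((t : ℂ) + y0 * I)) := by
      apply hwr
      have h6 := Complex.abs_im_le_norm z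
      simp only [add_im, ofReal_im, mul_im, ofReal_re, I_im, mul_one, I_re, mul_zero, add_zero,
        zero_add, add_sub_cancel_right]
      linarith
    have h10 : Dd a b y0 (z + ((t : ℂ) + y0 * I)) t ≤ (1 / L) ^ 2 := by
      have h11 := (hDb (z + ((t : ℂ) + y0 * I)) t).2.2
      rw [add_sub_cancel_right] at h11
      refine h11.trans ?_
      have h12 : ‖z‖ ≤ 1 / L := hz.le.trans (by gcongr)
      gcongr
    have h13 : L ^ 2 * Dd a b y0 (z + ((t : ℂ) + y0 * I)) t ≤ 1 := by
      calc L ^ 2 * Dd a b y0 (z + ((t : ℂ) + y0 * I)) t ≤ L ^ 2 * (1 / L) ^ 2 := by gcongr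
        _ = 1 := by field_simp
    have h14 : (L / 2) ^ 2 ≤ kp a b y0 L (z + ((t : ℂ) + y0 * I)) t := by
      unfold kp
      have h15 := V_k3_den_pos a b y0 L (z + ((t : ℂ) + y0 * I)) t
      gcongr
      linarith
    exact mul_le_mul h9 h14 (by positivity) (hw0 _)
  have h16 : ∫ z in ball (0 : ℂ) (ρ / L), c0 * (L / 2) ^ 2 ≤
      ∫ z in ball (0 : ℂ) (ρ / L), f (z + ((t : ℂ) + y0 * I)) := by
    apply setIntegral_mono_on
    · exact integrableOn_const (by rw [Complex.volume_ball]; exact ENNReal.mul_ne_top (by simp) (by simp))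
    · exact (V_k3_intRect hgc).mono_set hsub
    · exact measurableSet_ball
    · exact h8
  refine le_trans (le_of_eq ?_) h16
  rw [setIntegral_const, Measure.real, Complex.volume_ball]
  simp only [ENNReal.toReal_mul, ENNReal.toReal_pow, ENNReal.toReal_ofReal (by positivity : (0:ℝ) ≤ ρ / L),
    smul_eq_mul, ENNReal.coe_toReal, NNReal.coe_real_pi]
  field_simp
  ring

end Pool.Agent.Vx

end

section

/-!
# MP_afe918_an, item Vkg: the gradient of the bubble
-/

set_option autoImplicit false

open Complex Set Filter Topology MeasureTheory Metric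
open scoped Real ContDiff

namespace Pool.Agent.Vx

theorem V_kg_D0 (a b y0 : ℝ) (x : ℂ) (t : ℝ) : 0 ≤ Dd a b y0 x t := by
  unfold Dd
  positivity

theorem V_kg_one (a b y0 L : ℝ) (x : ℂ) (t : ℝ) : 0 < 1 + L ^ 2 * Dd a b y0 x t := by
  have := V_kg_D0 a b y0 x t
  positivity

/-- derivative of the bubble from the derivative of the distance -/
theorem V_kg_der {a b y0 L : ℝ} {t D' : ℝ} {p : ℝ → ℂ} {s : ℝ}
    (h : HasDerivAt (fun s : ℝ => Dd a b y0 (p s) t) D' s) :
    HasDerivAt (fun s : ℝ => kp a b y0 L (p s) t)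
      (-2 * L ^ 4 * D' / (1 + L ^ 2 * Dd a b y0 (p s) t) ^ 3) s := by
  have h0 := (V_kg_one a b y0 L (p s) t).ne'
  have h1 : HasDerivAt (fun s : ℝ => 1 + L ^ 2 * Dd a b y0 (p s) t) (L ^ 2 * D') s :=
    (h.const_mul (L ^ 2)).const_add 1
  have h2 := ((hasDerivAt_const s L).fun_div h1 h0).fun_pow 2
  refine h2.congr_deriv ?_
  generalize 1 + L ^ 2 * Dd a b y0 (p s) t = Q at h0 ⊢
  norm_num
  field_simp

theorem V_kg_sin {a : ℝ} (ha : 0 < a) (u : ℝ) (t : ℝ) :
    HasDerivAt (fun s : ℝ => (a / π * Real.sin (π * (u + s - t) / a)) ^ 2)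
      (2 * (a / π) * Real.sin (π * (u - t) / a) * Real.cos (π * (u - t) / a)) 0 := by
  have hπ := Real.pi_pos
  have h1 : HasDerivAt (fun s : ℝ => π * (u + s - t) / a) (π / a) 0 := by
    have := ((((hasDerivAt_id (0 : ℝ)).const_add u).sub_const t).const_mul π).div_const a
    simpa using this
  have h2 := ((h1.sin.const_mul (a / π)).fun_pow 2)
  refine h2.congr_deriv ?_
  simp only [add_zero]
  generalize Real.sin (π * (u - t) / a) = S
  generalize Real.cos (π * (u - t) / a) = T
  have ha' := ha.ne'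
  have hπ' := Real.pi_ne_zero
  norm_num
  field_simp

theorem pr_V_kg : V_kg := by
  intro a b y0 L ha hb hL x t
  have hD := V_kg_D0 a b y0 x t
  have h1 := V_kg_one a b y0 L x t
  refine ⟨?_, ?_, ?_, ?_⟩
  · unfold kp
    positivity
  · set D := Dd a b y0 x t with hDd
    set s1 := Real.sin (π * (x.re - t) / a) with hs1
    set c1 := Real.cos (π * (x.re - t) / a) with hc1
    set s2 := Real.sin (π * (x.im - y0) / b) with hs2
    set c2 := Real.cos (π * (x.im - y0) / b) with hc2
    have hD2 : D = (a / π * s1) ^ 2 + (b / π * s2) ^ 2 := rfl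
    have e1 : kpx a b y0 L x t ^ 2 + kpy a b y0 L x t ^ 2 =
        4 * L ^ 8 * ((2 * (a / π) * s1 * c1) ^ 2 + (2 * (b / π) * s2 * c2) ^ 2) /
          (1 + L ^ 2 * D) ^ 6 := by
      simp only [kpx, kpy, ← hDd, ← hs1, ← hc1, ← hs2, ← hc2]
      generalize 2 * (a / π) * s1 * c1 = P
      generalize 2 * (b / π) * s2 * c2 = Q
      field_simp
      ring
    have e2 : 16 * L ^ 2 / (1 + L ^ 2 * D) * kp a b y0 L x t ^ 2 =
        16 * L ^ 6 * (1 + L ^ 2 * D) / (1 + L ^ 2 * D) ^ 6 := by
      simp only [kp, ← hDd]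
      field_simp
    rw [e1, e2]
    refine div_le_div_of_nonneg_right ?_ (by positivity)
    have e3 : (2 * (a / π) * s1 * c1) ^ 2 + (2 * (b / π) * s2 * c2) ^ 2 ≤ 4 * D := by
      have q1 : c1 ^ 2 ≤ 1 := Real.cos_sq_le_one _
      have q2 : c2 ^ 2 ≤ 1 := Real.cos_sq_le_one _
      have q3 : (a / π * s1) ^ 2 * c1 ^ 2 ≤ (a / π * s1) ^ 2 * 1 :=
        mul_le_mul_of_nonneg_left q1 (sq_nonneg _)
      have q4 : (b / π * s2) ^ 2 * c2 ^ 2 ≤ (b / π * s2) ^ 2 * 1 :=
        mul_le_mul_of_nonneg_left q2 (sq_nonneg _)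
      rw [hD2]
      linarith
    have e4 := mul_le_mul_of_nonneg_left e3 (by positivity : (0 : ℝ) ≤ 4 * L ^ 8)
    have e5 : 0 < L ^ 6 := by positivity
    nlinarith
  · have h2 : HasDerivAt (fun s : ℝ => Dd a b y0 (x + s) t)
        (2 * (a / π) * Real.sin (π * (x.re - t) / a) * Real.cos (π * (x.re - t) / a)) 0 := by
      have := (V_kg_sin ha x.re t).add_const ((b / π * Real.sin (π * (x.im - y0) / b)) ^ 2)
      refine this.congr_of_eventuallyEq (Eventually.of_forall fun s => ?_)
      simp [Dd]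
    have h3 := V_kg_der (L := L) h2
    refine h3.congr_deriv ?_
    simp only [Complex.ofReal_zero, add_zero]
    rfl
  · have h2 : HasDerivAt (fun s : ℝ => Dd a b y0 (x + s * I) t)
        (2 * (b / π) * Real.sin (π * (x.im - y0) / b) * Real.cos (π * (x.im - y0) / b)) 0 := by
      have := (V_kg_sin hb x.im y0).const_add ((a / π * Real.sin (π * (x.re - t) / a)) ^ 2)
      refine this.congr_of_eventuallyEq (Eventually.of_forall fun s => ?_)
      simp [Dd]
    have h3 := V_kg_der (L := L) h2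
    refine h3.congr_deriv ?_
    simp only [Complex.ofReal_zero, zero_mul, add_zero]
    rfl

end Pool.Agent.Vx

end

section

/-!
# MP_afe918_an, block V, item Vlnk: the linking map of trigonometric polynomials
-/

set_option autoImplicit false

open Complex Set Filter Topology MeasureTheory Metric
open scoped Real ContDiff

namespace Pool.Agent.Vx

/-- The closed period rectangle. -/
def V_lnk_R (a b : ℝ) : Set ℂ := Icc (-(a / 2)) (a / 2) ×ℂ Icc (-(b / 2)) (b / 2)

theorem V_lnk_cpt (a b : ℝ) : IsCompact (V_lnk_R a b) := isCompact_Icc.reProdIm isCompact_Icc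

theorem V_lnk_sub (a b : ℝ) : rect a b 0 ⊆ V_lnk_R a b := by
  intro z hz
  simp only [rect, mem_ofPred_eq, Complex.zero_re, Complex.zero_im, sub_zero] at hz
  exact ⟨abs_le.1 hz.1.le, abs_le.1 hz.2.le⟩

theorem V_lnk_meas (a b : ℝ) : MeasurableSet (rect a b 0) := by
  have h1 : IsOpen {z : ℂ | |z.re - (0 : ℂ).re| < a / 2} :=
    isOpen_lt (by fun_prop) continuous_const
  have h2 : IsOpen {z : ℂ | |z.im - (0 : ℂ).im| < b / 2} :=
    isOpen_lt (by fun_prop) continuous_const
  exact (h1.inter h2).measurableSet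

theorem V_lnk_int (a b : ℝ) {f : ℂ → ℝ} (hf : Continuous f) : IntegrableOn f (rect a b 0) :=
  (hf.continuousOn.integrableOn_compact (V_lnk_cpt a b)).mono_set (V_lnk_sub a b)

theorem V_lnk_mono (a b : ℝ) {f g : ℂ → ℝ} (hf : Continuous f) (hg : Continuous g)
    (h : ∀ z ∈ rect a b 0, f z ≤ g z) : ti a b f ≤ ti a b g :=
  setIntegral_mono_on (V_lnk_int a b hf) (V_lnk_int a b hg) (V_lnk_meas a b) h

theorem V_lnk_add (a b : ℝ) {f g : ℂ → ℝ} (hf : Continuous f) (hg : Continuous g) :
    ti a b (fun z => f z + g z) = ti a b f + ti a b g :=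
  integral_add (V_lnk_int a b hf) (V_lnk_int a b hg)

theorem V_lnk_sub' (a b : ℝ) {f g : ℂ → ℝ} (hf : Continuous f) (hg : Continuous g) :
    ti a b (fun z => f z - g z) = ti a b f - ti a b g :=
  integral_sub (V_lnk_int a b hf) (V_lnk_int a b hg)

theorem V_lnk_mul (a b c : ℝ) (f : ℂ → ℝ) : ti a b (fun z => c * f z) = c * ti a b f :=
  integral_const_mul _ _

theorem V_lnk_abs (a b : ℝ) (f : ℂ → ℝ) : |ti a b f| ≤ ti a b (fun z => |f z|) :=
  abs_integral_le_integral_abs

theorem V_lnk_nn (a b : ℝ) {f : ℂ → ℝ} (h : ∀ z, 0 ≤ f z) : 0 ≤ ti a b f :=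
  integral_nonneg h

/-- Continuity of parametric integrals. -/
theorem V_lnk_cont (a b : ℝ) {k : ℕ} {f : Pa k → ℂ → ℝ}
    (hf : Continuous (fun q : Pa k × ℂ => f q.1 q.2)) : Continuous (fun y => ti a b (f y)) := by
  rw [continuous_iff_continuousAt]
  intro y0
  obtain ⟨M, hM⟩ := ((isCompact_closedBall y0 1).prod (V_lnk_cpt a b)).exists_bound_of_continuousOn
    hf.continuousOn
  have hfin : volume (rect a b 0) < ⊤ :=
    lt_of_le_of_lt (measure_mono (V_lnk_sub a b)) (V_lnk_cpt a b).measure_lt_top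
  have : IsFiniteMeasure (volume.restrict (rect a b 0)) := ⟨by
    simpa using hfin⟩
  refine continuousAt_of_dominated (bound := fun _ => M) ?_ ?_ (integrable_const M) ?_
  · refine Eventually.of_forall fun y => ?_
    exact (hf.comp (by fun_prop : Continuous fun z : ℂ => (y, z))).aestronglyMeasurable
  · filter_upwards [closedBall_mem_nhds y0 one_pos] with y hy
    filter_upwards [ae_restrict_mem (V_lnk_meas a b)] with z hz
    exact hM (y, z) ⟨hy, V_lnk_sub a b hz⟩
  · refine ae_of_all _ fun z => ?_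
    exact (hf.comp (by fun_prop : Continuous fun y : Pa k => (y, z))).continuousAt

/-- Bounds on the closed unit ball. -/
theorem V_lnk_bdd {k : ℕ} {f : Pa k → ℝ} (hf : Continuous f) :
    ∃ M : ℝ, 0 ≤ M ∧ ∀ y, ‖y‖ ≤ 1 → f y ≤ M := by
  obtain ⟨M, hM⟩ := (isCompact_closedBall (0 : Pa k) 1).exists_bound_of_continuousOn
    hf.continuousOn
  refine ⟨max M 0, le_max_right _ _, fun y hy => ?_⟩
  have := hM y (by simpa using hy)
  exact le_trans (le_trans (le_abs_self _) this) (le_max_left _ _)

/-- Lower bounds on the unit sphere. -/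
theorem V_lnk_low {k : ℕ} {f : Pa k → ℝ} (hf : Continuous f) (hp : ∀ y, ‖y‖ = 1 → 0 < f y) :
    ∃ κ : ℝ, 0 < κ ∧ ∀ y, ‖y‖ = 1 → κ ≤ f y := by
  rcases (sphere (0 : Pa k) 1).eq_empty_or_nonempty with h | h
  · refine ⟨1, one_pos, fun y hy => ?_⟩
    have : y ∈ sphere (0 : Pa k) 1 := by simpa using hy
    rw [h] at this
    exact absurd this (notMem_empty _)
  · obtain ⟨y0, hy0, hmin⟩ := (isCompact_sphere (0 : Pa k) 1).exists_isMinOn h hf.continuousOn
    refine ⟨f y0, hp y0 (by simpa using hy0), fun y hy => ?_⟩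
    exact hmin (by simpa using hy)

/-- The elementary inequality `|x| ≤ (1/t + t x²)/2`. -/
theorem V_lnk_amgm (x t : ℝ) (ht : 0 < t) : |x| ≤ 1 / 2 * (1 / t + t * x ^ 2) := by
  have h : 0 ≤ (|x| * t - 1) ^ 2 / t := by positivity
  have h2 : (|x| * t - 1) ^ 2 / t = t * x ^ 2 - 2 * |x| + 1 / t := by
    rw [← sq_abs x]
    field_simp
    ring
  linarith

theorem V_lnk_amgm2 (x y t : ℝ) (ht : 0 < t) : |x| * y ≤ 1 / 2 * (y ^ 2 / t + t * x ^ 2) := by
  have h : 0 ≤ (|x| * t - y) ^ 2 / t := by positivity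
  have h2 : (|x| * t - y) ^ 2 / t = t * x ^ 2 - 2 * (|x| * y) + y ^ 2 / t := by
    rw [← sq_abs x]
    field_simp
    ring
  linarith

/-- `|e^u - e^v| ≤ |u - v| (e^u + e^v)`. -/
theorem V_lnk_exp (u v : ℝ) :
    |Real.exp u - Real.exp v| ≤ |v - u| * (Real.exp u + Real.exp v) := by
  have key : ∀ s t : ℝ, s ≤ t → Real.exp t - Real.exp s ≤ (t - s) * Real.exp t := by
    intro s t hst
    have h1 : Real.exp s = Real.exp t * Real.exp (s - t) := by rw [← Real.exp_add]; ring_nf
    have h2 := Real.add_one_le_exp (s - t)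
    have h3 := Real.exp_pos t
    rw [h1]
    nlinarith
  rcases le_total u v with h | h
  · rw [abs_sub_comm, abs_of_nonneg (by simpa using Real.exp_le_exp.2 h),
      abs_of_nonneg (by linarith : 0 ≤ v - u)]
    have := key u v h
    nlinarith [Real.exp_pos u, Real.exp_pos v]
  · rw [abs_of_nonneg (by simpa using Real.exp_le_exp.2 h),
      abs_of_nonpos (by linarith : v - u ≤ 0)]
    have := key v u h
    nlinarith [Real.exp_pos u, Real.exp_pos v]

/-- The `L¹` norm of the difference. -/
theorem V_lnk_L1 (a b : ℝ) {d : ℂ → ℝ} (hd : Continuous d) (t Q : ℝ) (ht : 0 < t)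
    (hQ : ti a b (fun z => d z ^ 2) ≤ Q / t ^ 2) :
    ti a b (fun z => |d z|) ≤ (ti a b (fun _ => 1) + Q) / (2 * t) := by
  have h1 : ti a b (fun z => |d z|) ≤
      ti a b (fun z => 1 / 2 * (1 / t * 1 + t * d z ^ 2)) := by
    refine V_lnk_mono a b (by fun_prop) (by fun_prop) fun z _ => ?_
    have := V_lnk_amgm (d z) t ht
    linarith
  rw [V_lnk_mul, V_lnk_add a b (by fun_prop) (by fun_prop), V_lnk_mul a b (1 / t) (fun _ => 1),
    V_lnk_mul a b t (fun z => d z ^ 2)] at h1
  have h2 : t * ti a b (fun z => d z ^ 2) ≤ t * (Q / t ^ 2) := by gcongr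
  have h3 : t * (Q / t ^ 2) = Q / t := by field_simp
  have h4 : (ti a b (fun _ => 1) + Q) / (2 * t) =
      1 / 2 * (1 / t * ti a b (fun _ => 1) + Q / t) := by
    field_simp
  rw [h4]
  linarith

/-- The `L¹` norm of the difference of the exponentials. -/
theorem V_lnk_L1e (a b : ℝ) {u v : ℂ → ℝ} (hu : Continuous u) (hv : Continuous v)
    (t Q A B : ℝ) (ht : 0 < t) (hQ : ti a b (fun z => (v z - u z) ^ 2) ≤ Q / t ^ 2)
    (hA : ti a b (fun z => Real.exp (2 * u z)) ≤ A)
    (hB : ti a b (fun z => Real.exp (2 * v z)) ≤ B) :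
    ti a b (fun z => |Real.exp (u z) - Real.exp (v z)|) ≤ (2 * A + 2 * B + Q) / (2 * t) := by
  have h1 : ti a b (fun z => |Real.exp (u z) - Real.exp (v z)|) ≤
      ti a b (fun z => 1 / 2 * (1 / t * (2 * Real.exp (2 * u z) + 2 * Real.exp (2 * v z)) +
        t * (v z - u z) ^ 2)) := by
    refine V_lnk_mono a b (by fun_prop) (by fun_prop) fun z _ => ?_
    refine (V_lnk_exp _ _).trans ((V_lnk_amgm2 _ _ t ht).trans ?_)
    have e1 : Real.exp (2 * u z) = Real.exp (u z) ^ 2 := by rw [← Real.exp_nat_mul]; norm_num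
    have e2 : Real.exp (2 * v z) = Real.exp (v z) ^ 2 := by rw [← Real.exp_nat_mul]; norm_num
    rw [e1, e2]
    have h : (Real.exp (u z) + Real.exp (v z)) ^ 2 / t ≤
        1 / t * (2 * Real.exp (u z) ^ 2 + 2 * Real.exp (v z) ^ 2) := by
      rw [div_eq_mul_one_div, mul_comm]
      gcongr
      nlinarith [sq_nonneg (Real.exp (u z) - Real.exp (v z))]
    linarith
  rw [V_lnk_mul, V_lnk_add a b (by fun_prop) (by fun_prop),
    V_lnk_mul a b (1 / t) (fun z => 2 * Real.exp (2 * u z) + 2 * Real.exp (2 * v z)),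
    V_lnk_add a b (by fun_prop) (by fun_prop),
    V_lnk_mul a b 2 (fun z => Real.exp (2 * u z)), V_lnk_mul a b 2 (fun z => Real.exp (2 * v z)),
    V_lnk_mul a b t (fun z => (v z - u z) ^ 2)] at h1
  have h2 : t * ti a b (fun z => (v z - u z) ^ 2) ≤ t * (Q / t ^ 2) := by gcongr
  have h3 : t * (Q / t ^ 2) = Q / t := by field_simp
  have h5 : 1 / t * (2 * ti a b (fun z => Real.exp (2 * u z)) +
      2 * ti a b (fun z => Real.exp (2 * v z))) ≤ 1 / t * (2 * A + 2 * B) := by gcongr
  have h4 : (2 * A + 2 * B + Q) / (2 * t) = 1 / 2 * (1 / t * (2 * A + 2 * B) + Q / t) := by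
    field_simp
  rw [h4]
  linarith

/-- Lower bound for `lw`. -/
theorem V_lnk_lw (a b : ℝ) {w u v : ℂ → ℝ} (hw : Continuous w) (hw0 : ∀ z, 0 ≤ w z)
    (hu : Continuous u) (hv : Continuous v) (W M A : ℝ)
    (hW : ∀ z ∈ rect a b 0, w z ≤ W) (hM : ∀ z ∈ rect a b 0, v z ≤ M) (hA : 0 < A)
    (hv1 : A ≤ ti a b (fun z => w z * Real.exp (v z)))
    (hs : W * Real.exp M * ti a b (fun z => |v z - u z|) ≤ A / 2) :
    lw a b w v - 1 ≤ lw a b w u := by
  set D := ti a b (fun z => w z * Real.exp (v z)) with hD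
  have h1 : D - ti a b (fun z => W * Real.exp M * |v z - u z|) ≤
      ti a b (fun z => w z * Real.exp (u z)) := by
    rw [hD, ← V_lnk_sub' a b (by fun_prop) (by fun_prop)]
    refine V_lnk_mono a b (by fun_prop) (by fun_prop) fun z hz => ?_
    have e1 : Real.exp (u z) = Real.exp (v z) * Real.exp (u z - v z) := by
      rw [← Real.exp_add]; ring_nf
    have e2 := Real.add_one_le_exp (u z - v z)
    have e3 : w z * Real.exp (v z) ≤ W * Real.exp M := by
      have := hW z hz
      have := hM z hz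
      have := hw0 z
      gcongr
      linarith
    have e4 : -|v z - u z| ≤ u z - v z := by
      have := le_abs_self (v z - u z)
      linarith
    have e5 : 0 ≤ w z * Real.exp (v z) := mul_nonneg (hw0 z) (Real.exp_pos _).le
    have e6 : w z * Real.exp (v z) * (1 - |v z - u z|) ≤ w z * Real.exp (u z) := by
      rw [e1, ← mul_assoc]
      gcongr
      linarith
    have e7 : w z * Real.exp (v z) * |v z - u z| ≤ W * Real.exp M * |v z - u z| := by
      gcongr
    nlinarith
  rw [V_lnk_mul] at h1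
  have h2 : D / 2 ≤ ti a b (fun z => w z * Real.exp (u z)) := by linarith
  have hDp : 0 < D := by linarith
  have h3 : Real.log (D / 2) ≤ lw a b w u := Real.log_le_log (by positivity) h2
  rw [Real.log_div hDp.ne' (by norm_num)] at h3
  have h4 : Real.log 2 ≤ 1 := by
    have := Real.log_two_lt_d9
    linarith
  have h5 : lw a b w v = Real.log D := rfl
  rw [h5]
  linarith

/-- The moments of two functions. -/
theorem V_lnk_mom (a b : ℝ) {k : ℕ} {w u v : ℂ → ℝ} (hw : Continuous w) (hw0 : ∀ z, 0 ≤ w z)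
    (hu : Continuous u) (hv : Continuous v) (W A Δ : ℝ) (hW0 : 0 ≤ W)
    (hW : ∀ z ∈ rect a b 0, w z ≤ W) (hA : 0 < A)
    (hu1 : A ≤ ti a b (fun z => w z * Real.exp (u z)))
    (hv1 : 0 < ti a b (fun z => w z * Real.exp (v z)))
    (hΔ : ti a b (fun z => |Real.exp (u z) - Real.exp (v z)|) ≤ Δ) (i : Fin k × Bool) :
    |mom a b w k u i - mom a b w k v i| ≤ 2 * W * Δ / A := by
  have hcm : Continuous (fun z : ℂ => cm a i z.re) := by
    unfold cm
    split_ifs
    · fun_prop
    · fun_prop
  have hcm1 : ∀ z : ℂ, |cm a i z.re| ≤ 1 := by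
    intro z
    unfold cm
    split_ifs
    · exact Real.abs_sin_le_one _
    · exact Real.abs_cos_le_one _
  set N := ti a b (fun z => cm a i z.re * (w z * Real.exp (u z))) with hN
  set D := ti a b (fun z => w z * Real.exp (u z)) with hD
  set N0 := ti a b (fun z => cm a i z.re * (w z * Real.exp (v z))) with hN0
  set D0 := ti a b (fun z => w z * Real.exp (v z)) with hD0
  have hm1 : mom a b w k u i = N / D := rfl
  have hm2 : mom a b w k v i = N0 / D0 := rfl
  have hDp : 0 < D := lt_of_lt_of_le hA hu1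
  have hΔ0 : 0 ≤ Δ := le_trans (V_lnk_nn a b fun z => abs_nonneg _) hΔ
  have h1 : |N - N0| ≤ W * Δ := by
    rw [hN, hN0, ← V_lnk_sub' a b (by fun_prop) (by fun_prop)]
    refine (V_lnk_abs a b _).trans ?_
    refine le_trans (V_lnk_mono a b (g := fun z => W * |Real.exp (u z) - Real.exp (v z)|)
      (by fun_prop) (by fun_prop) fun z hz => ?_) ?_
    · have e1 : cm a i z.re * (w z * Real.exp (u z)) - cm a i z.re * (w z * Real.exp (v z)) =
          cm a i z.re * (w z * (Real.exp (u z) - Real.exp (v z))) := by ring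
      rw [e1, abs_mul, abs_mul, abs_of_nonneg (hw0 z)]
      calc |cm a i z.re| * (w z * |Real.exp (u z) - Real.exp (v z)|)
          ≤ 1 * (w z * |Real.exp (u z) - Real.exp (v z)|) := by
            have := hw0 z
            gcongr
            exact hcm1 z
        _ ≤ W * |Real.exp (u z) - Real.exp (v z)| := by
            rw [one_mul]
            have := hW z hz
            gcongr
    · rw [V_lnk_mul]
      gcongr
  have h2 : |D - D0| ≤ W * Δ := by
    rw [hD, hD0, ← V_lnk_sub' a b (by fun_prop) (by fun_prop)]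
    refine (V_lnk_abs a b _).trans ?_
    refine le_trans (V_lnk_mono a b (g := fun z => W * |Real.exp (u z) - Real.exp (v z)|)
      (by fun_prop) (by fun_prop) fun z hz => ?_) ?_
    · have e1 : w z * Real.exp (u z) - w z * Real.exp (v z) =
          w z * (Real.exp (u z) - Real.exp (v z)) := by ring
      rw [e1, abs_mul, abs_of_nonneg (hw0 z)]
      have := hW z hz
      gcongr
    · rw [V_lnk_mul]
      gcongr
  have h3 : |N0| ≤ D0 := by
    rw [hN0, hD0]
    refine (V_lnk_abs a b _).trans (V_lnk_mono a b (by fun_prop) (by fun_prop) fun z _ => ?_)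
    have e0 : 0 ≤ w z * Real.exp (v z) := mul_nonneg (hw0 z) (Real.exp_pos _).le
    rw [abs_mul, abs_of_nonneg e0]
    calc |cm a i z.re| * (w z * Real.exp (v z)) ≤ 1 * (w z * Real.exp (v z)) := by
          gcongr
          exact hcm1 z
      _ = _ := one_mul _
  rw [hm1, hm2]
  have h4 : N / D - N0 / D0 = ((N - N0) * D0 - N0 * (D - D0)) / (D * D0) := by
    field_simp
    ring
  rw [h4, abs_div, abs_of_pos (mul_pos hDp hv1)]
  have h5 : |(N - N0) * D0 - N0 * (D - D0)| ≤ 2 * W * Δ * D0 := by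
    refine (abs_sub _ _).trans ?_
    rw [abs_mul, abs_mul, abs_of_pos hv1]
    have e1 : |N - N0| * D0 ≤ W * Δ * D0 := by gcongr
    have e2 : |N0| * |D - D0| ≤ D0 * (W * Δ) := by gcongr
    linarith
  calc |(N - N0) * D0 - N0 * (D - D0)| / (D * D0) ≤ 2 * W * Δ * D0 / (D * D0) := by gcongr
    _ = 2 * W * Δ / D := by field_simp
    _ ≤ 2 * W * Δ / A := by gcongr

/-- The inner product with a unit vector. -/
theorem V_lnk_inner {k : ℕ} (p q y : Pa k) (δ : ℝ) (hy : ‖y‖ = 1) (h : ∀ i, |p i - q i| ≤ δ) :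
    inner ℝ q y - (Fintype.card (Fin k × Bool) : ℝ) * δ ≤ inner ℝ p y := by
  have h1 : inner ℝ q y - inner ℝ p y = ∑ i, y i * (q i - p i) := by
    rw [← inner_sub_left, PiLp.inner_apply]
    refine Finset.sum_congr rfl fun i _ => ?_
    simp
  have h2 : ∑ i, y i * (q i - p i) ≤ ∑ _i : Fin k × Bool, δ := by
    refine Finset.sum_le_sum fun i _ => ?_
    have e1 : |y i| ≤ 1 := by
      have := EuclideanSpace.norm_eq y
      have h3 : ‖y i‖ ≤ ‖y‖ := PiLp.norm_apply_le y i
      rw [hy] at h3
      simpa using h3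
    have e2 : |q i - p i| ≤ δ := by rw [abs_sub_comm]; exact h i
    calc y i * (q i - p i) ≤ |y i * (q i - p i)| := le_abs_self _
      _ = |y i| * |q i - p i| := abs_mul _ _
      _ ≤ 1 * δ := by gcongr
      _ = δ := one_mul _
  rw [Finset.sum_const, Finset.card_univ, nsmul_eq_mul] at h2
  linarith

theorem V_lnk_lwshift (a b : ℝ) (w u : ℂ → ℝ) (c : ℝ)
    (h : 0 < ti a b (fun z => w z * Real.exp (u z))) :
    lw a b w (fun z => u z - c) = lw a b w u - c := by
  unfold lw
  have h1 : (fun z => w z * Real.exp (u z - c)) =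
      fun z => Real.exp (-c) * (w z * Real.exp (u z)) := by
    funext z
    rw [sub_eq_add_neg, Real.exp_add]
    ring
  rw [h1, V_lnk_mul, Real.log_mul (Real.exp_pos _).ne' h.ne', Real.log_exp]
  ring

theorem V_lnk_momshift (a b : ℝ) (k : ℕ) (w u : ℂ → ℝ) (c : ℝ) (i : Fin k × Bool) :
    mom a b w k (fun z => u z - c) i = mom a b w k u i := by
  have h1 : (fun z => w z * Real.exp (u z - c)) =
      fun z => Real.exp (-c) * (w z * Real.exp (u z)) := by
    funext z
    rw [sub_eq_add_neg, Real.exp_add]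
    ring
  have h2 : (fun z : ℂ => cm a i z.re * (w z * Real.exp (u z - c))) =
      fun z => Real.exp (-c) * (cm a i z.re * (w z * Real.exp (u z))) := by
    funext z
    rw [sub_eq_add_neg, Real.exp_add]
    ring
  change ti a b (fun z => cm a i z.re * (w z * Real.exp (u z - c))) /
    ti a b (fun z => w z * Real.exp (u z - c)) = ti a b (fun z => cm a i z.re *
      (w z * Real.exp (u z))) / ti a b (fun z => w z * Real.exp (u z))
  rw [h1, h2, V_lnk_mul, V_lnk_mul]
  exact mul_div_mul_left _ _ (Real.exp_pos _).ne'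

theorem V_lnk_cmc (a : ℝ) {k : ℕ} (i : Fin k × Bool) : Continuous (cm a i) := by
  unfold cm
  split_ifs
  · fun_prop
  · fun_prop

theorem V_lnk_mdc (a b : ℝ) (i : (ℤ × ℤ) × Bool) : Continuous (md a b i) := by
  unfold md ph
  split_ifs
  · fun_prop
  · fun_prop

theorem V_lnk_inner_cont (a b : ℝ) {k : ℕ} {w : ℂ → ℝ} {φ : Pa k → ℂ → ℝ} (hw : Continuous w)
    (hφ : Continuous (fun q : Pa k × ℂ => φ q.1 q.2))
    (hp : ∀ y, 0 < ti a b (fun z => w z * Real.exp (φ y z))) :
    Continuous (fun y => inner ℝ (mom a b w k (φ y)) y) := by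
  have h : (fun y => inner ℝ (mom a b w k (φ y)) y) = fun y => ∑ i, y i *
      (ti a b (fun z => cm a i z.re * (w z * Real.exp (φ y z))) /
        ti a b (fun z => w z * Real.exp (φ y z))) := by
    funext y
    rw [PiLp.inner_apply]
    refine Finset.sum_congr rfl fun i _ => ?_
    simp [mom]
  rw [h]
  refine continuous_finsetSum _ fun i _ => ?_
  refine Continuous.mul (by fun_prop) (Continuous.div ?_ ?_ fun y => (hp y).ne')
  · refine V_lnk_cont a b (f := fun y z => cm a i z.re * (w z * Real.exp (φ y z))) ?_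
    have := V_lnk_cmc a i
    fun_prop
  · refine V_lnk_cont a b (f := fun y z => w z * Real.exp (φ y z)) ?_
    fun_prop

theorem pr_V_lnk' (hTF : V_TF) (hproj : V_proj) (hMT : V_MT) (hjen : V_jen) (horth : V_orth) :
    V_lnk := by
  intro a b F hF w hw k s1 s2 K hs1 hs12
  have ha := hF.apos
  have hb := hF.bpos
  obtain ⟨φ, φx, φy, cφ, cφx, cφy, hC1, hsph⟩ := hTF a b w ha hb hw k s1 s2 (K + 1) hs1 hs12
  obtain ⟨Cp, hCp⟩ := hproj a b ha hb
  obtain ⟨CM, hCM⟩ := hMT a b F hF
  obtain ⟨Cj, hCj⟩ := hjen a b ha hb w hw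
  have hs1p : 0 < s1 := lt_of_le_of_lt (by positivity) hs1
  have hwc := hw.cont
  have hpos : ∀ y, 0 < ti a b (fun z => w z * Real.exp (φ y z)) := fun y =>
    (hCj (φ y) (hC1 y).cont (hC1 y).per).1
  set μ : Pa k → ℝ := fun y => 1 / (a * b) * ti a b (φ y) with hμ
  have cμ : Continuous μ := continuous_const.mul (V_lnk_cont a b cφ)
  obtain ⟨E, hE0, hE⟩ := V_lnk_bdd (V_lnk_cont a b (f := fun y z => φx y z ^ 2 + φy y z ^ 2)
    ((cφx.pow 2).add (cφy.pow 2)))
  obtain ⟨B, hB0, hB⟩ := V_lnk_bdd (V_lnk_cont a b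
    (f := fun y z => Real.exp (2 * (φ y z - μ y))) (by fun_prop))
  obtain ⟨M, hM⟩ := ((isCompact_closedBall (0 : Pa k) 1).prod
    (V_lnk_cpt a b)).exists_bound_of_continuousOn (f := fun q : Pa k × ℂ => φ q.1 q.2 - μ q.1)
    (Continuous.continuousOn (by fun_prop))
  obtain ⟨W, hW⟩ := (V_lnk_cpt a b).exists_bound_of_continuousOn hwc.continuousOn
  obtain ⟨κ, hκ, hκ2⟩ := V_lnk_low (V_lnk_inner_cont a b hwc cφ hpos) (fun y hy => (hsph y hy).1)
  have hW' : ∀ z ∈ rect a b 0, w z ≤ |W| := fun z hz =>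
    (le_abs_self _).trans ((hW z (V_lnk_sub a b hz)).trans (le_abs_self _))
  have hM' : ∀ y, ‖y‖ ≤ 1 → ∀ z ∈ rect a b 0, φ y z - μ y ≤ M := fun y hy z hz =>
    (le_abs_self _).trans (hM (y, z) ⟨by simpa using hy, V_lnk_sub a b hz⟩)
  set V := ti a b (fun _ => 1) with hV
  have hV0 : 0 ≤ V := V_lnk_nn a b fun _ => zero_le_one
  set Q := |Cp| * E with hQ
  have hQ0 : 0 ≤ Q := by positivity
  set A := Real.exp (-Cj) with hA
  have hAp : 0 < A := Real.exp_pos _
  set P1 := |W| * Real.exp M * ((V + Q) / 2) with hP1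
  set P2 := (2 * Real.exp (|CM| * (1 + E)) + 2 * B + Q) / 2 with hP2
  have hP20 : 0 ≤ P2 := by positivity
  set P3 := (Fintype.card (Fin k × Bool) : ℝ) * (2 * |W| * P2 / A) with hP3
  obtain ⟨n1, hn1⟩ := exists_nat_gt (2 * P1 / A)
  obtain ⟨n2, hn2⟩ := exists_nat_gt (P3 / κ)
  refine ⟨E / (2 * s1) + Cj, max 1 (max n1 n2), fun m hm => ?_⟩
  have hm1 : 1 ≤ m := le_trans (le_max_left _ _) hm
  have hmn1 : n1 ≤ m := le_trans (le_trans (le_max_left _ _) (le_max_right _ _)) hm
  have hmn2 : n2 ≤ m := le_trans (le_trans (le_max_right _ _) (le_max_right _ _)) hm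
  have hmp : (0 : ℝ) < m := by exact_mod_cast hm1
  -- basic facts on the projection
  have htp := horth a b ha hb m
  have hen : ∀ y, en a b m (pj a b m (φ y)) ≤ ti a b (fun z => φx y z ^ 2 + φy y z ^ 2) :=
    fun y => (hCp _ _ _ m (hC1 y) hm1).1
  have hψ : ∀ y, Continuous (tp a b m (pj a b m (φ y))) := fun y => (htp.2.2 _).2.1
  have hlw : ∀ y, 0 < ti a b (fun z => w z * Real.exp (tp a b m (pj a b m (φ y)) z)) ∧
      -Cj ≤ lw a b w (tp a b m (pj a b m (φ y))) := by
    intro y
    have h := hCj (tp a b m (pj a b m (φ y))) (hψ y) (htp.2.2 _).1.per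
    rw [(htp.2.2 _).2.2.1] at h
    exact ⟨h.1, by linarith [h.2]⟩
  have henE : ∀ y, ‖y‖ ≤ 1 → en a b m (pj a b m (φ y)) ≤ E := fun y hy => (hen y).trans (hE y hy)
  refine ⟨fun y => pj a b m (φ y), ?_, ?_, ?_⟩
  · -- continuity
    refine (PiLp.continuous_toLp 2 _).comp (continuous_pi fun i => ?_)
    refine continuous_const.mul ?_
    refine V_lnk_cont a b (f := fun y z => φ y z * md a b (i.1.1, i.2) z) ?_
    have := V_lnk_mdc a b (i.1.1, i.2)
    fun_prop
  · intro y hy
    have hy1 : ‖y‖ ≤ 1 := hy.le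
    set u := tp a b m (pj a b m (φ y)) with hu
    set v : ℂ → ℝ := fun z => φ y z - μ y with hv
    have cu : Continuous u := hψ y
    have cφy' : Continuous (φ y) := (hC1 y).cont
    have cv : Continuous v := by fun_prop
    have hd : ti a b (fun z => (v z - u z) ^ 2) ≤ Q / (m : ℝ) ^ 2 := by
      have h := (hCp _ _ _ m (hC1 y) hm1).2
      refine le_trans h ?_
      have e1 : Cp / (m : ℝ) ^ 2 * ti a b (fun z => φx y z ^ 2 + φy y z ^ 2) ≤
          |Cp| / (m : ℝ) ^ 2 * E := by
        have : 0 ≤ ti a b (fun z => φx y z ^ 2 + φy y z ^ 2) :=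
          V_lnk_nn a b fun z => by positivity
        have h2 := hE y hy1
        have h3 := le_abs_self Cp
        gcongr
      rw [hQ]
      calc _ ≤ |Cp| / (m : ℝ) ^ 2 * E := e1
        _ = _ := by ring
    have hv1 : A ≤ ti a b (fun z => w z * Real.exp (v z)) := by
      have h := hCj (φ y) (hC1 y).cont (hC1 y).per
      have h2 := V_lnk_lwshift a b w (φ y) (μ y) h.1
      have h3 : -Cj ≤ lw a b w v := by
        rw [hv, h2]
        have := h.2
        simp only [hμ]
        linarith
      have h4 : 0 < ti a b (fun z => w z * Real.exp (v z)) := by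
        have e1 : (fun z => w z * Real.exp (v z)) =
            fun z => Real.exp (-μ y) * (w z * Real.exp (φ y z)) := by
          funext z
          simp only [hv]
          rw [sub_eq_add_neg, Real.exp_add]
          ring
        rw [e1, V_lnk_mul]
        exact mul_pos (Real.exp_pos _) (hpos y)
      rw [hA]
      exact (Real.le_log_iff_exp_le h4).1 h3
    have hu1 : A ≤ ti a b (fun z => w z * Real.exp (u z)) := by
      rw [hA]
      exact (Real.le_log_iff_exp_le (hlw y).1).1 (hlw y).2
    have hL1 := V_lnk_L1 a b (cv.sub cu) (m : ℝ) Q hmp hd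
    have hL2 : ti a b (fun z => |Real.exp (u z) - Real.exp (v z)|) ≤ P2 / m := by
      have hMTu : ti a b (fun z => Real.exp (2 * u z)) ≤ Real.exp (|CM| * (1 + E)) := by
        refine (hCM m _).trans (Real.exp_le_exp.2 ?_)
        have e1 := henE y hy1
        have e2 : 0 ≤ en a b m (pj a b m (φ y)) := by
          unfold en nu
          positivity
        have e3 := le_abs_self CM
        gcongr
      have h := V_lnk_L1e a b cu cv (m : ℝ) Q _ _ hmp hd hMTu (hB y hy1)
      refine h.trans (le_of_eq ?_)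
      rw [hP2]
      field_simp
    constructor
    · -- the moments
      have hi : ∀ i, |mom a b w k u i - mom a b w k (φ y) i| ≤ 2 * |W| * (P2 / m) / A := by
        intro i
        have h := V_lnk_mom a b hwc hw.nonneg cu cv |W| A (P2 / m) (abs_nonneg _) hW' hAp hu1
          (lt_of_lt_of_le hAp hv1) hL2 i
        rwa [hv, V_lnk_momshift] at h
      have h2 := V_lnk_inner (mom a b w k u) (mom a b w k (φ y)) y _ hy hi
      have h3 := hκ2 y hy
      have h4 : (Fintype.card (Fin k × Bool) : ℝ) * (2 * |W| * (P2 / m) / A) = P3 / m := by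
        rw [hP3]
        field_simp
      have h5 : P3 / m < κ := by
        rw [div_lt_iff₀ hmp]
        have e1 : P3 / κ < m := lt_of_lt_of_le hn2 (by exact_mod_cast hmn2)
        rw [div_lt_iff₀ hκ] at e1
        linarith
      rw [h4] at h2
      linarith
    · intro ρ hρ
      have hρp : 0 < ρ := lt_of_lt_of_le hs1p hρ.1
      have hs : |W| * Real.exp M * ti a b (fun z => |v z - u z|) ≤ A / 2 := by
        have e1 : |W| * Real.exp M * ti a b (fun z => |v z - u z|) ≤
            |W| * Real.exp M * ((V + Q) / (2 * m)) := by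
          gcongr
          exact hL1
        have e2 : |W| * Real.exp M * ((V + Q) / (2 * m)) = P1 / m := by
          rw [hP1]
          field_simp
        have e3 : P1 / m ≤ A / 2 := by
          rw [div_le_iff₀ hmp]
          have e1 : 2 * P1 / A < m := lt_of_lt_of_le hn1 (by exact_mod_cast hmn1)
          rw [div_lt_iff₀ hAp] at e1
          linarith
        linarith
      have h1 := V_lnk_lw a b hwc hw.nonneg cu cv |W| M A hW' (hM' y hy1) hAp hv1 hs
      have h2 := V_lnk_lwshift a b w (φ y) (μ y) (hpos y)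
      have h3 := (hsph y hy).2 ρ hρ
      have h4 : en a b m (pj a b m (φ y)) / (2 * ρ) ≤
          ti a b (fun z => φx y z ^ 2 + φy y z ^ 2) / (2 * ρ) := by
        gcongr
        exact hen y
      have h5 : lw a b w v = lw a b w (φ y) - μ y := h2
      unfold Ifun
      rw [h5] at h1
      have h6 : μ y = 1 / (a * b) * ti a b (φ y) := rfl
      rw [← hu]
      linarith
  · intro y hy ρ hρ
    have hρp : 0 < ρ := lt_of_lt_of_le hs1p hρ.1
    have h1 := (hlw y).2
    have h2 : en a b m (pj a b m (φ y)) / (2 * ρ) ≤ E / (2 * s1) := by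
      have := henE y hy
      have := hρ.1
      gcongr
    unfold Ifun
    linarith

theorem pr_V_lnk (hTF : V_TF) (hproj : V_proj) (hMT : V_MT) (hjen : V_jen) (_hgrad : V_grad)
    (horth : V_orth) : V_lnk := pr_V_lnk' hTF hproj hMT hjen horth

end Pool.Agent.Vx

end

section

/-!
# MP_afe918_an, item Vlow: the functional is bounded below where the moments vanish (helper63)
-/

set_option autoImplicit false

open Complex Set Filter Topology MeasureTheory Metric
open scoped Real ContDiff

namespace Pool.Agent.Vx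

theorem V_low_ph_add {a b : ℝ} (ha : a ≠ 0) (hb : b ≠ 0) (ξ : ℤ × ℤ) (z : ℂ) :
    ph a b ξ (z + a) = ph a b ξ z + ξ.1 * (2 * π) ∧
      ph a b ξ (z + b * I) = ph a b ξ z + ξ.2 * (2 * π) := by
  unfold ph
  constructor
  · simp only [add_re, ofReal_re, add_im, ofReal_im, add_zero]
    field_simp
    ring
  · simp only [add_re, mul_re, ofReal_re, I_re, mul_zero, ofReal_im, I_im, mul_one, sub_self,
      add_zero, add_im, mul_im, zero_add]
    field_simp
    ring

theorem V_low_ph_cont (a b : ℝ) (ξ : ℤ × ℤ) : Continuous (ph a b ξ) := by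
  unfold ph
  fun_prop

theorem V_low_md_cont (a b : ℝ) (i : (ℤ × ℤ) × Bool) : Continuous (md a b i) := by
  obtain ⟨ξ, s⟩ := i
  have h := V_low_ph_cont a b ξ
  cases s
  · have e : md a b (ξ, false) = fun z => Real.cos (ph a b ξ z) := by
      funext z
      simp [md]
    rw [e]
    exact Real.continuous_cos.comp h
  · have e : md a b (ξ, true) = fun z => Real.sin (ph a b ξ z) := by
      funext z
      simp [md]
    rw [e]
    exact Real.continuous_sin.comp h

theorem V_low_md_per {a b : ℝ} (ha : a ≠ 0) (hb : b ≠ 0) (i : (ℤ × ℤ) × Bool) :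
    Per a b (md a b i) := by
  intro z
  obtain ⟨h1, h2⟩ := V_low_ph_add ha hb i.1 z
  unfold md
  rw [h1, h2, Real.sin_add_int_mul_two_pi, Real.sin_add_int_mul_two_pi,
    Real.cos_add_int_mul_two_pi, Real.cos_add_int_mul_two_pi]
  exact ⟨rfl, rfl⟩

theorem V_low_tp_cont (a b : ℝ) (m : ℕ) (c : Co m) : Continuous (tp a b m c) := by
  unfold tp
  exact continuous_finsetSum _ fun i _ => continuous_const.mul (V_low_md_cont a b _)

theorem V_low_tp_per {a b : ℝ} (ha : a ≠ 0) (hb : b ≠ 0) (m : ℕ) (c : Co m) :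
    Per a b (tp a b m c) := by
  intro z
  unfold tp
  exact ⟨Finset.sum_congr rfl fun i _ => by rw [(V_low_md_per ha hb _ z).1],
    Finset.sum_congr rfl fun i _ => by rw [(V_low_md_per ha hb _ z).2]⟩

theorem V_low_rect_meas (a b : ℝ) (q : ℂ) : MeasurableSet (rect a b q) := by
  unfold rect
  apply IsOpen.measurableSet
  exact (isOpen_lt (Complex.continuous_re.sub continuous_const).abs continuous_const).inter
    (isOpen_lt (Complex.continuous_im.sub continuous_const).abs continuous_const)

theorem V_low_int {a b : ℝ} {f : ℂ → ℝ} (hf : Continuous f) : IntegrableOn f (rect a b 0) := by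
  refine (hf.continuousOn.integrableOn_compact (isCompact_closedBall (0 : ℂ)
    (a / 2 + b / 2))).mono_set ?_
  intro z hz
  have h1 := hz.1
  have h2 := hz.2
  simp only [zero_re, zero_im, sub_zero] at h1 h2
  rw [mem_closedBall_zero_iff]
  exact (Complex.norm_le_abs_re_add_abs_im z).trans (by linarith)

theorem V_low_en_nonneg {a b : ℝ} (ha : 0 < a) (hb : 0 < b) (m : ℕ) (c : Co m) :
    0 ≤ en a b m c := by
  unfold en nu
  positivity

/-- L: the functional is bounded below where the moments vanish. -/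
theorem pr_V_low (himt : V_imt) (hmom : V_mom) (hGup : V_Gup) (hjen : V_jen) (_htr : V_tr) :
    V_low := by
  classical
  intro a b F hF w hw k s2 hs2
  have ha := hF.apos
  have hb := hF.bpos
  obtain ⟨δ, γ, hδ, hγ, hm⟩ := hmom a k ha
  obtain ⟨CG, hCG⟩ := hGup a b F hF δ hδ
  have hk : (0 : ℝ) < 8 * π * (k + 1) := by positivity
  obtain ⟨ε, hε0, hε1, hεs⟩ : ∃ ε : ℝ, 0 < ε ∧ ε < 1 ∧ s2 ≤ 8 * π * (k + 1) * (1 - ε) := by
    refine ⟨min (1 / 2) ((8 * π * (k + 1) - s2) / (8 * π * (k + 1))), ?_, ?_, ?_⟩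
    · exact lt_min (by norm_num) (div_pos (by linarith) hk)
    · exact (min_le_left _ _).trans_lt (by norm_num)
    · have h1 := min_le_right (1 / 2 : ℝ) ((8 * π * (k + 1) - s2) / (8 * π * (k + 1)))
      have h2 := mul_le_mul_of_nonneg_left h1 hk.le
      rw [mul_div_cancel₀ _ hk.ne'] at h2
      linarith
  obtain ⟨C, hC⟩ := himt a b F hF w hw.cont hw.per hw.nonneg k ε γ CG hε0 hε1 hγ
  refine ⟨max C 0, le_max_right _ _, ?_⟩
  intro m c ρ hρ hρs hm0
  set u := tp a b m c with hu
  have hucont : Continuous u := V_low_tp_cont a b m c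
  have huper : Per a b u := V_low_tp_per ha.ne' hb.ne' m c
  obtain ⟨Cj, hCj⟩ := hjen a b ha hb w hw
  have hZ := (hCj u hucont huper).1
  set Z := ti a b (fun z => w z * Real.exp (u z)) with hZdef
  set g0 : ℂ → ℝ := fun z => w z * Real.exp (u z) with hg0
  have hg0c : Continuous g0 := hw.cont.mul (Real.continuous_exp.comp hucont)
  have hg0n : ∀ z, 0 ≤ g0 z := fun z => mul_nonneg (hw.nonneg z) (Real.exp_pos _).le
  set g : ℂ → ℝ := fun z => g0 z / Z with hg
  have hgc : Continuous g := hg0c.div_const _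
  have hgn : ∀ z, 0 ≤ g z := fun z => div_nonneg (hg0n z) hZ.le
  have hgi : Integrable g (volume.restrict (rect a b 0)) := V_low_int hgc
  set μ0 : Measure ℂ := (volume.restrict (rect a b 0)).withDensity (fun z => ENNReal.ofReal (g z))
    with hμ0
  have hgm : Measurable (fun z => ENNReal.ofReal (g z)) := hgc.measurable.ennreal_ofReal
  have hint : ∫ z in rect a b 0, g z = 1 := by
    have : ∫ z in rect a b 0, g z = Z / Z := by
      rw [hg, integral_div]
      rfl
    rw [this, div_self hZ.ne']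
  have hμ0p : μ0 univ = 1 := by
    rw [hμ0, withDensity_apply _ MeasurableSet.univ, Measure.restrict_univ,
      ← ofReal_integral_eq_lintegral_ofReal hgi (Eventually.of_forall hgn), hint,
      ENNReal.ofReal_one]
  have hset : ∀ S : Set ℂ, MeasurableSet S → μ0.real S = ∫ z in rect a b 0, if z ∈ S then g z else 0 := by
    intro S hS
    have h1 : μ0 S = ENNReal.ofReal (∫ z in rect a b 0, if z ∈ S then g z else 0) := by
      rw [hμ0, withDensity_apply _ hS, ← ofReal_integral_eq_lintegral_ofReal hgi.restrict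
        (Eventually.of_forall hgn)]
      congr 1
      rw [← integral_indicator hS]
      rfl
    rw [Measure.real, h1, ENNReal.toReal_ofReal]
    refine integral_nonneg fun z => ?_
    dsimp only
    split_ifs
    · exact hgn z
    · exact le_rfl
  set μ : Measure ℝ := μ0.map Complex.re with hμ
  have hre : Measurable Complex.re := Complex.measurable_re
  have hμp : IsProbabilityMeasure μ := ⟨by rw [hμ, Measure.map_apply hre MeasurableSet.univ,
    preimage_univ, hμ0p]⟩
  have hcm : ∀ i : Fin k × Bool, Continuous (cm a i) := by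
    rintro ⟨i, s⟩
    cases s
    · have e : cm a (i, false) = fun x => Real.cos (2 * π * ((i : ℕ) + 1) * x / a) := by
        funext x
        simp [cm]
      rw [e]
      fun_prop
    · have e : cm a (i, true) = fun x => Real.sin (2 * π * ((i : ℕ) + 1) * x / a) := by
        funext x
        simp [cm]
      rw [e]
      fun_prop
  have hmoments : ∀ i : Fin k × Bool, ∫ x, cm a i x ∂μ = 0 := by
    intro i
    rw [hμ, integral_map hre.aemeasurable (hcm i).aestronglyMeasurable, hμ0,
      integral_withDensity_eq_integral_toReal_smul hgm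
        (Eventually.of_forall fun _ => ENNReal.ofReal_lt_top)]
    have h1 : ∀ z, (ENNReal.ofReal (g z)).toReal • cm a i z.re =
        (cm a i z.re * (w z * Real.exp (u z))) / Z := by
      intro z
      rw [ENNReal.toReal_ofReal (hgn z), smul_eq_mul, hg, hg0]
      ring
    simp only [h1]
    rw [integral_div]
    have h2 : mom a b w k u i = 0 := by
      rw [hm0]
      rfl
    exact h2
  obtain ⟨A, hAm, hAper, hAsep, hAγ⟩ := hm μ hμp hmoments
  have hkey := hC (fun i => Complex.re ⁻¹' A i) (fun i => hre (hAm i)) ?_ ?_ m c hZ ?_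
  · have h1 : Ifun a b w m ρ c = en a b m c / (2 * ρ) - lw a b w u := rfl
    rw [h1]
    have h2 : en a b m c / (16 * π * (1 - ε) * (k + 1)) ≤ en a b m c / (2 * ρ) := by
      refine div_le_div_of_nonneg_left (V_low_en_nonneg ha hb m c) (by positivity) ?_
      nlinarith
    have h3 := le_max_left C 0
    linarith
  · intro i z
    have e1 : (z + (a : ℂ)).re = z.re + a := by simp
    have e2 : (z + (b : ℂ) * I).re = z.re := by simp
    simp only [mem_preimage, e1, e2, iff_self, and_true]
    exact hAper i z.re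
  · intro i j hij x hx y hy
    refine hCG (x - y) fun n => ?_
    rw [Complex.sub_re]
    exact hAsep i j hij x.re hx y.re hy n
  · intro i
    have h1 := hAγ i
    have h2 : μ.real (A i) = μ0.real (Complex.re ⁻¹' A i) := by
      rw [Measure.real, Measure.real, hμ, Measure.map_apply hre (hAm i)]
    rw [h2, hset _ (hre (hAm i))] at h1
    have h3 : (∫ z in rect a b 0, if z ∈ Complex.re ⁻¹' A i then g z else 0) =
        (ti a b fun z => if z ∈ Complex.re ⁻¹' A i then w z * Real.exp (u z) else 0) / Z := by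
      unfold ti
      rw [← integral_div]
      refine integral_congr_ae (Eventually.of_forall fun z => ?_)
      dsimp only
      split_ifs
      · rfl
      · simp
    rw [h3, le_div_iff₀ hZ] at h1
    convert h1 using 4

end Pool.Agent.Vx

end

section

/-!
# MP_afe918_an, block V, item V_max: lower bound for the maximum of a trigonometric polynomial
-/

set_option autoImplicit false

open Complex Set Filter Topology MeasureTheory Metric
open scoped Real ContDiff

namespace Pool.Agent.Vx

theorem V_max_cos (a : ℝ) (ha : 0 < a) (n : ℤ) :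
    ∫ x in (0 : ℝ)..a, Real.cos (2 * π * n * x / a) = if n = 0 then a else 0 := by
  split_ifs with h
  · subst h
    simp
  · have hn : (n : ℝ) ≠ 0 := by exact_mod_cast h
    have hc : 2 * π * n / a ≠ 0 := by
      have := Real.pi_ne_zero
      positivity
    have h1 : ∀ x : ℝ, Real.cos (2 * π * n * x / a) = Real.cos (2 * π * n / a * x) := by
      intro x; congr 1; ring
    simp_rw [h1]
    rw [intervalIntegral.integral_comp_mul_left (fun x => Real.cos x) hc, integral_cos]
    have h2 : 2 * π * n / a * a = ((2 * n : ℤ) : ℝ) * π := by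
      push_cast
      field_simp
    rw [h2, mul_zero, Real.sin_zero, Real.sin_int_mul_pi]
    simp

theorem V_max_sin (a : ℝ) (ha : 0 < a) (n : ℤ) :
    ∫ x in (0 : ℝ)..a, Real.sin (2 * π * n * x / a) = 0 := by
  by_cases h : n = 0
  · subst h
    simp
  · have hn : (n : ℝ) ≠ 0 := by exact_mod_cast h
    have hc : 2 * π * n / a ≠ 0 := by
      have := Real.pi_ne_zero
      positivity
    have h1 : ∀ x : ℝ, Real.sin (2 * π * n * x / a) = Real.sin (2 * π * n / a * x) := by
      intro x; congr 1; ring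
    simp_rw [h1]
    rw [intervalIntegral.integral_comp_mul_left (fun x => Real.sin x) hc, integral_sin]
    have h2 : 2 * π * n / a * a = n * (2 * π) := by
      field_simp
    rw [h2, mul_zero, Real.cos_zero, Real.cos_int_mul_two_pi]
    simp

theorem V_max_cont (a : ℝ) {k : ℕ} (i : Fin k × Bool) : Continuous (cm a i) := by
  unfold cm
  split_ifs
  · fun_prop
  · fun_prop

theorem V_max_Tcont (a : ℝ) {k : ℕ} (c : Pa k) : Continuous (Tc a c) := by
  unfold Tc
  exact continuous_finsetSum _ fun i _ => continuous_const.mul (V_max_cont a i)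

theorem V_max_int1 (a : ℝ) (ha : 0 < a) {k : ℕ} (i : Fin k × Bool) :
    ∫ x in (0 : ℝ)..a, cm a i x = 0 := by
  unfold cm
  split_ifs
  · have h := V_max_sin a ha ((i.1 : ℕ) + 1)
    push_cast at h
    exact h
  · have h := V_max_cos a ha ((i.1 : ℕ) + 1)
    push_cast at h
    rw [h, if_neg (by omega)]

theorem V_max_int2 (a : ℝ) (ha : 0 < a) {k : ℕ} (i j : Fin k × Bool) :
    ∫ x in (0 : ℝ)..a, cm a i x * cm a j x = if i = j then a / 2 else 0 := by
  obtain ⟨l, s⟩ := i
  obtain ⟨l', s'⟩ := j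
  have hcc : ∀ n : ℤ, IntervalIntegrable (fun x => Real.cos (2 * π * n * x / a)) volume 0 a :=
    fun n => Continuous.intervalIntegrable (by fun_prop) _ _
  have hss : ∀ n : ℤ, IntervalIntegrable (fun x => Real.sin (2 * π * n * x / a)) volume 0 a :=
    fun n => Continuous.intervalIntegrable (by fun_prop) _ _
  set m : ℤ := (l : ℕ) + 1 with hm
  set m' : ℤ := (l' : ℕ) + 1 with hm'
  have hmr : ((m : ℤ) : ℝ) = (l : ℕ) + 1 := by rw [hm]; push_cast; ring
  have hmr' : ((m' : ℤ) : ℝ) = (l' : ℕ) + 1 := by rw [hm']; push_cast; ring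
  have hll : (m - m' = 0) ↔ l = l' := by
    constructor
    · intro h; apply Fin.ext; omega
    · intro h; subst h; omega
  have hpos : ¬ (m + m' = 0) := by omega
  cases s <;> cases s'
  · have h1 : ∀ x : ℝ, cm a (l, false) x * cm a (l', false) x =
        (1 / 2) * Real.cos (2 * π * ((m - m' : ℤ) : ℝ) * x / a) +
        (1 / 2) * Real.cos (2 * π * ((m + m' : ℤ) : ℝ) * x / a) := by
      intro x
      simp only [cm, Bool.false_eq_true, if_false]
      rw [← hmr, ← hmr']
      push_cast
      have e1 : 2 * π * ((m : ℝ) - m') * x / a = 2 * π * m * x / a - 2 * π * m' * x / a := by ring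
      have e2 : 2 * π * ((m : ℝ) + m') * x / a = 2 * π * m * x / a + 2 * π * m' * x / a := by ring
      rw [e1, e2, Real.cos_sub, Real.cos_add]
      ring
    simp_rw [h1]
    rw [intervalIntegral.integral_add ((hcc _).const_mul _) ((hcc _).const_mul _),
      intervalIntegral.integral_const_mul, intervalIntegral.integral_const_mul,
      V_max_cos a ha, V_max_cos a ha, if_neg hpos]
    by_cases h : l = l'
    · rw [if_pos (hll.2 h), if_pos (by rw [h])]; ring
    · rw [if_neg (fun h' => h (hll.1 h')), if_neg (by simpa using h)]; ring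
  · have h1 : ∀ x : ℝ, cm a (l, false) x * cm a (l', true) x =
        (1 / 2) * Real.sin (2 * π * ((m + m' : ℤ) : ℝ) * x / a) +
        (1 / 2) * Real.sin (2 * π * ((m' - m : ℤ) : ℝ) * x / a) := by
      intro x
      simp only [cm, Bool.false_eq_true, if_false, if_true]
      rw [← hmr, ← hmr']
      push_cast
      have e1 : 2 * π * ((m' : ℝ) - m) * x / a = 2 * π * m' * x / a - 2 * π * m * x / a := by ring
      have e2 : 2 * π * ((m : ℝ) + m') * x / a = 2 * π * m * x / a + 2 * π * m' * x / a := by ring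
      rw [e1, e2, Real.sin_sub, Real.sin_add]
      ring
    simp_rw [h1]
    rw [intervalIntegral.integral_add ((hss _).const_mul _) ((hss _).const_mul _),
      intervalIntegral.integral_const_mul, intervalIntegral.integral_const_mul,
      V_max_sin a ha, V_max_sin a ha, if_neg (by simp)]
    ring
  · have h1 : ∀ x : ℝ, cm a (l, true) x * cm a (l', false) x =
        (1 / 2) * Real.sin (2 * π * ((m + m' : ℤ) : ℝ) * x / a) +
        (1 / 2) * Real.sin (2 * π * ((m - m' : ℤ) : ℝ) * x / a) := by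
      intro x
      simp only [cm, Bool.false_eq_true, if_false, if_true]
      rw [← hmr, ← hmr']
      push_cast
      have e1 : 2 * π * ((m : ℝ) - m') * x / a = 2 * π * m * x / a - 2 * π * m' * x / a := by ring
      have e2 : 2 * π * ((m : ℝ) + m') * x / a = 2 * π * m * x / a + 2 * π * m' * x / a := by ring
      rw [e1, e2, Real.sin_sub, Real.sin_add]
      ring
    simp_rw [h1]
    rw [intervalIntegral.integral_add ((hss _).const_mul _) ((hss _).const_mul _),
      intervalIntegral.integral_const_mul, intervalIntegral.integral_const_mul,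
      V_max_sin a ha, V_max_sin a ha, if_neg (by simp)]
    ring
  · have h1 : ∀ x : ℝ, cm a (l, true) x * cm a (l', true) x =
        (1 / 2) * Real.cos (2 * π * ((m - m' : ℤ) : ℝ) * x / a) +
        (-(1 / 2)) * Real.cos (2 * π * ((m + m' : ℤ) : ℝ) * x / a) := by
      intro x
      simp only [cm, if_true]
      rw [← hmr, ← hmr']
      push_cast
      have e1 : 2 * π * ((m : ℝ) - m') * x / a = 2 * π * m * x / a - 2 * π * m' * x / a := by ring
      have e2 : 2 * π * ((m : ℝ) + m') * x / a = 2 * π * m * x / a + 2 * π * m' * x / a := by ring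
      rw [e1, e2, Real.cos_sub, Real.cos_add]
      ring
    simp_rw [h1]
    rw [intervalIntegral.integral_add ((hcc _).const_mul _) ((hcc _).const_mul _),
      intervalIntegral.integral_const_mul, intervalIntegral.integral_const_mul,
      V_max_cos a ha, V_max_cos a ha, if_neg hpos]
    by_cases h : l = l'
    · rw [if_pos (hll.2 h), if_pos (by rw [h])]; ring
    · rw [if_neg (fun h' => h (hll.1 h')), if_neg (by simpa using h)]; ring

theorem V_max_T1 (a : ℝ) (ha : 0 < a) {k : ℕ} (c : Pa k) : ∫ x in (0 : ℝ)..a, Tc a c x = 0 := by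
  unfold Tc
  rw [intervalIntegral.integral_finsetSum]
  · refine Finset.sum_eq_zero fun i _ => ?_
    rw [intervalIntegral.integral_const_mul, V_max_int1 a ha i, mul_zero]
  · intro i _
    exact (continuous_const.mul (V_max_cont a i)).intervalIntegrable _ _

theorem V_max_T2 (a : ℝ) (ha : 0 < a) {k : ℕ} (c : Pa k) :
    ∫ x in (0 : ℝ)..a, Tc a c x * Tc a c x = a / 2 * ‖c‖ ^ 2 := by
  have h1 : ∀ x : ℝ, Tc a c x * Tc a c x = ∑ i, ∑ j, (c i * c j) * (cm a i x * cm a j x) := by
    intro x
    unfold Tc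
    rw [Finset.sum_mul_sum]
    refine Finset.sum_congr rfl fun i _ => Finset.sum_congr rfl fun j _ => ?_
    ring
  simp_rw [h1]
  rw [intervalIntegral.integral_finsetSum]
  · have h2 : ∀ i : Fin k × Bool, ∫ x in (0 : ℝ)..a, ∑ j, (c i * c j) * (cm a i x * cm a j x) =
        a / 2 * c i ^ 2 := by
      intro i
      rw [intervalIntegral.integral_finsetSum]
      · rw [Finset.sum_eq_single i]
        · rw [intervalIntegral.integral_const_mul, V_max_int2 a ha, if_pos rfl]
          ring
        · intro j _ hj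
          rw [intervalIntegral.integral_const_mul, V_max_int2 a ha, if_neg (Ne.symm hj), mul_zero]
        · intro h
          exact absurd (Finset.mem_univ i) h
      · intro j _
        exact (continuous_const.mul ((V_max_cont a i).mul (V_max_cont a j))).intervalIntegrable _ _
    rw [Finset.sum_congr rfl fun i _ => h2 i, ← Finset.mul_sum, EuclideanSpace.real_norm_sq_eq]
  · intro i _
    refine Continuous.intervalIntegrable ?_ _ _
    exact continuous_finsetSum _ fun j _ =>
      continuous_const.mul ((V_max_cont a i).mul (V_max_cont a j))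

theorem V_max_bd (a : ℝ) {k : ℕ} (c : Pa k) (x : ℝ) : |Tc a c x| ≤ (2 * k + 1) * ‖c‖ := by
  unfold Tc
  have h1 : |∑ i, c i * cm a i x| ≤ ∑ _i : Fin k × Bool, ‖c‖ := by
    refine le_trans (Finset.abs_sum_le_sum_abs _ _) (Finset.sum_le_sum fun i _ => ?_)
    rw [abs_mul]
    have h2 : |cm a i x| ≤ 1 := by
      unfold cm
      split_ifs
      · exact Real.abs_sin_le_one _
      · exact Real.abs_cos_le_one _
    have h3 : |c i| ≤ ‖c‖ := by
      have := EuclideanSpace.norm_eq c
      rw [← Real.norm_eq_abs]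
      exact PiLp.norm_apply_le c i
    calc |c i| * |cm a i x| ≤ ‖c‖ * 1 := mul_le_mul h3 h2 (abs_nonneg _) (norm_nonneg _)
      _ = ‖c‖ := mul_one _
  refine le_trans h1 ?_
  rw [Finset.sum_const, Finset.card_univ, Fintype.card_prod, Fintype.card_fin, Fintype.card_bool,
    nsmul_eq_mul]
  push_cast
  have := norm_nonneg c
  nlinarith

theorem pr_V_max : V_max := by
  intro a k ha
  refine ⟨1 / (4 * (2 * k + 1)), by positivity, fun c hc => ?_⟩
  by_contra hcon
  push Not at hcon
  set B : ℝ := 2 * k + 1 with hB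
  have hBpos : 0 < B := by positivity
  set τ : ℝ := 1 / (4 * B) with hτ
  have hbd : ∀ x, |Tc a c x| ≤ B := fun x => by
    have := V_max_bd a c x
    rwa [hc, mul_one] at this
  have hT := V_max_Tcont a c
  have h1 : ∫ x in (0 : ℝ)..a, Tc a c x * (Tc a c x + B) ≤ ∫ x in (0 : ℝ)..a, τ * (Tc a c x + B) := by
    refine intervalIntegral.integral_mono_on ha.le ?_ ?_ fun x _ => ?_
    · exact (hT.mul (hT.add continuous_const)).intervalIntegrable _ _
    · exact (continuous_const.mul (hT.add continuous_const)).intervalIntegrable _ _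
    · have h2 := (abs_le.1 (hbd x)).1
      exact mul_le_mul_of_nonneg_right (hcon x).le (by linarith)
  have h3 : ∫ x in (0 : ℝ)..a, Tc a c x * (Tc a c x + B) = a / 2 := by
    have h4 : ∀ x, Tc a c x * (Tc a c x + B) = Tc a c x * Tc a c x + B * Tc a c x := by
      intro x; ring
    simp_rw [h4]
    have i1 : IntervalIntegrable (fun x => Tc a c x * Tc a c x) volume 0 a :=
      (hT.mul hT).intervalIntegrable _ _
    have i2 : IntervalIntegrable (fun x => B * Tc a c x) volume 0 a :=
      (continuous_const.mul hT).intervalIntegrable _ _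
    rw [intervalIntegral.integral_add i1 i2, intervalIntegral.integral_const_mul,
      V_max_T1 a ha, V_max_T2 a ha, hc]
    ring
  have h5 : ∫ x in (0 : ℝ)..a, τ * (Tc a c x + B) = τ * (B * a) := by
    rw [intervalIntegral.integral_const_mul, intervalIntegral.integral_add
      (hT.intervalIntegrable _ _) (continuous_const.intervalIntegrable _ _), V_max_T1 a ha,
      intervalIntegral.integral_const, sub_zero, smul_eq_mul]
    ring
  rw [h3, h5] at h1
  have h6 : τ * (B * a) = a / 4 := by
    rw [hτ]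
    field_simp
  rw [h6] at h1
  linarith

end Pool.Agent.Vx

end

section

/-!
# MP_afe918_an, item Vmom: vanishing moments on the circle force separated arcs (helper81)
-/

set_option autoImplicit false

open Complex Set Filter Topology MeasureTheory Metric
open scoped Real ContDiff

namespace Pool.Agent.Vx

/-- Index of the arc of `x`. -/
noncomputable def V_mom_J (a : ℝ) (P : ℕ) (x : ℝ) : ZMod P := ((⌊x * P / a⌋ : ℤ) : ZMod P)

/-- Equal or adjacent arcs. -/
def V_mom_near {P : ℕ} (j j' : ZMod P) : Prop := j - j' = 0 ∨ j - j' = 1 ∨ j - j' = -1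

lemma V_mom_near_symm {P : ℕ} {j j' : ZMod P} (h : V_mom_near j j') : V_mom_near j' j := by
  unfold V_mom_near at *
  rcases h with h | h | h
  · left; rw [← neg_sub, h, neg_zero]
  · right; right; rw [← neg_sub, h]
  · right; left; rw [← neg_sub, h, neg_neg]

lemma V_mom_sep {a : ℝ} (ha : 0 < a) {P : ℕ} (hP : 0 < P) {x y : ℝ} {n : ℤ}
    (h : |x - y - n * a| < a / P) : V_mom_near (V_mom_J a P x) (V_mom_J a P y) := by
  have hP' : (0:ℝ) < P := by exact_mod_cast hP
  have h1 : |x * P / a - y * P / a - ((n * P : ℤ) : ℝ)| < 1 := by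
    have e : x * P / a - y * P / a - ((n * P : ℤ):ℝ) = (x - y - n * a) * (P / a) := by
      push_cast; field_simp
    rw [e, abs_mul, abs_of_pos (by positivity : 0 < (P:ℝ) / a)]
    calc _ < a / P * (P / a) := mul_lt_mul_of_pos_right h (by positivity)
      _ = 1 := by field_simp
  unfold V_mom_J
  generalize x * P / a = u at *
  generalize y * P / a = v at *
  have h2 := Int.floor_le u
  have h3 := Int.lt_floor_add_one u
  have h4 := Int.floor_le v
  have h5 := Int.lt_floor_add_one v
  rw [abs_lt] at h1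
  have h6 : ⌊u⌋ - ⌊v⌋ - n * P < 2 := by
    have : ((⌊u⌋ - ⌊v⌋ - n * P : ℤ) : ℝ) < 2 := by push_cast at h1 ⊢; linarith
    exact_mod_cast this
  have h7 : -2 < ⌊u⌋ - ⌊v⌋ - n * P := by
    have : (-2 : ℝ) < ((⌊u⌋ - ⌊v⌋ - n * P : ℤ) : ℝ) := by push_cast at h1 ⊢; linarith
    exact_mod_cast this
  have h8 : ⌊u⌋ - ⌊v⌋ - n * P = 0 ∨ ⌊u⌋ - ⌊v⌋ - n * P = 1 ∨ ⌊u⌋ - ⌊v⌋ - n * P = -1 := by omega
  have h9 : ((⌊u⌋ : ℤ) : ZMod P) - ((⌊v⌋ : ℤ) : ZMod P) =
      ((⌊u⌋ - ⌊v⌋ - n * P : ℤ) : ZMod P) := by
    push_cast; simp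
  unfold V_mom_near
  rw [h9]
  rcases h8 with h | h | h <;> rw [h] <;> simp

/-- The point of the unit circle. -/
noncomputable def V_mom_z (a x : ℝ) : ℂ := cexp ((2 * π * x / a : ℝ) * I)

lemma V_mom_z_norm (a x : ℝ) : ‖V_mom_z a x‖ = 1 := Complex.norm_exp_ofReal_mul_I _

lemma V_mom_z_cont (a : ℝ) : Continuous (V_mom_z a) := by
  unfold V_mom_z; fun_prop

lemma V_mom_zpow (a x : ℝ) (m : ℕ) : V_mom_z a x ^ (m + 1) =
    ((Real.cos (2 * π * ((m : ℕ) + 1) * x / a) : ℝ) : ℂ) +
      ((Real.sin (2 * π * ((m : ℕ) + 1) * x / a) : ℝ) : ℂ) * I := by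
  unfold V_mom_z
  rw [← Complex.exp_nat_mul, Complex.ofReal_cos, Complex.ofReal_sin, ← Complex.exp_mul_I]
  congr 1
  push_cast
  ring

lemma V_mom_zint {a : ℝ} {k : ℕ} {μ : Measure ℝ} [IsProbabilityMeasure μ]
    (h : ∀ i : Fin k × Bool, ∫ x, cm a i x ∂μ = 0) (m : ℕ) (hm : m < k) :
    ∫ x, V_mom_z a x ^ (m + 1) ∂μ = 0 := by
  have hc := h (⟨m, hm⟩, false)
  have hs := h (⟨m, hm⟩, true)
  simp only [cm, if_true, Bool.false_eq_true, if_false] at hc hs
  have ic : Integrable (fun x : ℝ => Real.cos (2 * π * ((m : ℕ) + 1) * x / a)) μ := by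
    apply Integrable.of_bound (C := 1) (by fun_prop)
    exact Eventually.of_forall fun x => by
      rw [Real.norm_eq_abs]; exact Real.abs_cos_le_one _
  have is : Integrable (fun x : ℝ => Real.sin (2 * π * ((m : ℕ) + 1) * x / a)) μ := by
    apply Integrable.of_bound (C := 1) (by fun_prop)
    exact Eventually.of_forall fun x => by
      rw [Real.norm_eq_abs]; exact Real.abs_sin_le_one _
  have ic' : Integrable (fun x : ℝ => ((Real.cos (2 * π * ((m : ℕ) + 1) * x / a) : ℝ) : ℂ)) μ :=
    ic.ofReal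
  have is' : Integrable (fun x : ℝ =>
      ((Real.sin (2 * π * ((m : ℕ) + 1) * x / a) : ℝ) : ℂ) * I) μ := is.ofReal.mul_const I
  simp_rw [V_mom_zpow]
  rw [integral_add ic' is', integral_mul_const, integral_complex_ofReal, integral_complex_ofReal,
    hc, hs]
  simp

lemma V_mom_polyint {a : ℝ} {k : ℕ} {μ : Measure ℝ} [IsProbabilityMeasure μ]
    (h : ∀ i : Fin k × Bool, ∫ x, cm a i x ∂μ = 0) (q : Polynomial ℂ) (hq : q.natDegree ≤ k) :
    Integrable (fun x => q.eval (V_mom_z a x)) μ ∧
      ∫ x, q.eval (V_mom_z a x) ∂μ = q.eval 0 := by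
  have hcont : Continuous fun x => q.eval (V_mom_z a x) := by
    have := V_mom_z_cont a
    fun_prop
  have hzi : ∀ m : ℕ, Integrable (fun x => q.coeff m * V_mom_z a x ^ m) μ := by
    intro m
    have hz := V_mom_z_cont a
    apply Integrable.of_bound (C := ‖q.coeff m‖) (by fun_prop)
    refine Eventually.of_forall fun x => ?_
    rw [norm_mul, norm_pow, V_mom_z_norm, one_pow, mul_one]
  have e1 : (fun x => q.eval (V_mom_z a x)) =
      fun x => ∑ m ∈ Finset.range (k + 1), q.coeff m * V_mom_z a x ^ m := by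
    funext x
    exact Polynomial.eval_eq_sum_range' (by omega) _
  refine ⟨?_, ?_⟩
  · rw [e1]
    exact integrable_finsetSum _ fun m _ => hzi m
  · rw [e1, integral_finsetSum _ fun m _ => hzi m, Finset.sum_range_succ']
    have h2 : ∑ m ∈ Finset.range k, ∫ x, q.coeff (m + 1) * V_mom_z a x ^ (m + 1) ∂μ = 0 := by
      apply Finset.sum_eq_zero
      intro m hm
      rw [integral_const_mul, V_mom_zint h m (Finset.mem_range.1 hm), mul_zero]
    rw [h2]
    simp [Polynomial.coeff_zero_eq_eval_zero]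

/-- The square of the norm has integral at least `1`. -/
lemma V_mom_ge_one {a : ℝ} {k : ℕ} {μ : Measure ℝ} [IsProbabilityMeasure μ]
    (h : ∀ i : Fin k × Bool, ∫ x, cm a i x ∂μ = 0) (q : Polynomial ℂ) (hq : q.natDegree ≤ k)
    (hq0 : q.eval 0 = 1) {g : ℝ → ℝ} (hg : Integrable g μ)
    (hle : ∀ x, ‖q.eval (V_mom_z a x)‖ ^ 2 ≤ g x) : 1 ≤ ∫ x, g x ∂μ := by
  obtain ⟨hi, he⟩ := V_mom_polyint h q hq
  have hre : ∫ x, (q.eval (V_mom_z a x)).re ∂μ = 1 := by
    have := integral_re hi
    have e : ∀ w : ℂ, RCLike.re w = w.re := fun w => rfl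
    simp only [e] at this
    rw [this, he, hq0]; simp
  have hri : Integrable (fun x => (q.eval (V_mom_z a x)).re) μ := hi.re
  have h1 : ∫ x, (2 * (q.eval (V_mom_z a x)).re - 1) ∂μ = 1 := by
    rw [integral_sub (hri.const_mul 2) (integrable_const 1), integral_const_mul, hre]
    simp
    norm_num
  rw [← h1]
  apply integral_mono ((hri.const_mul 2).sub (integrable_const 1)) hg
  intro x
  refine le_trans ?_ (hle x)
  have h2 := Complex.sq_norm (q.eval (V_mom_z a x))
  rw [Complex.normSq_apply] at h2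
  show 2 * (q.eval (V_mom_z a x)).re - 1 ≤ _
  nlinarith [sq_nonneg ((q.eval (V_mom_z a x)).re - 1), sq_nonneg (q.eval (V_mom_z a x)).im]

/-- The root of the factor belonging to the arc `j` (inverse). -/
noncomputable def V_mom_w (P : ℕ) (j : ZMod P) : ℂ := cexp ((-(2 * π * (j.val : ℝ) / P) : ℝ) * I)

lemma V_mom_w_norm (P : ℕ) (j : ZMod P) : ‖V_mom_w P j‖ = 1 := Complex.norm_exp_ofReal_mul_I _

lemma V_mom_factor_le (a : ℝ) {P : ℕ} (x : ℝ) (j : ZMod P) :
    ‖1 - V_mom_w P j * V_mom_z a x‖ ≤ 2 := by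
  refine (norm_sub_le _ _).trans ?_
  rw [norm_mul, V_mom_w_norm, V_mom_z_norm, norm_one]
  norm_num

lemma V_mom_factor_near {a : ℝ} (ha : 0 < a) {P : ℕ} [NeZero P] {x : ℝ} {j : ZMod P}
    (h : V_mom_near (V_mom_J a P x) j) : ‖1 - V_mom_w P j * V_mom_z a x‖ ≤ 4 * π / P := by
  have hP : (0:ℝ) < P := by exact_mod_cast Nat.pos_of_ne_zero (NeZero.ne P)
  have hj : (((j.val : ℕ) : ℤ) : ZMod P) = j := by
    rw [Int.cast_natCast, ZMod.natCast_zmod_val]
  -- integer representative
  have h1 : ∃ n : ℤ, |x * P / a - j.val - n * P| ≤ 2 := by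
    have h2 := Int.floor_le (x * P / a)
    have h3 := Int.lt_floor_add_one (x * P / a)
    have key : ∃ e n : ℤ, (e = 0 ∨ e = 1 ∨ e = -1) ∧ ⌊x * P / a⌋ = j.val + e + n * P := by
      unfold V_mom_near V_mom_J at h
      have key2 : ∀ e : ℤ, (((⌊x * P / a⌋ : ℤ) : ZMod P) - j = (e : ZMod P)) →
          ∃ n : ℤ, ⌊x * P / a⌋ = j.val + e + n * P := by
        intro e he
        have h4 : ((⌊x * P / a⌋ - j.val - e : ℤ) : ZMod P) = 0 := by
          push_cast at hj ⊢
          rw [hj, he, sub_self]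
        rw [ZMod.intCast_zmod_eq_zero_iff_dvd] at h4
        obtain ⟨n, hn⟩ := h4
        exact ⟨n, by linarith [mul_comm (P : ℤ) n]⟩
      rcases h with h | h | h
      · obtain ⟨n, hn⟩ := key2 0 (by simpa using h)
        exact ⟨0, n, Or.inl rfl, hn⟩
      · obtain ⟨n, hn⟩ := key2 1 (by simpa using h)
        exact ⟨1, n, Or.inr (Or.inl rfl), hn⟩
      · obtain ⟨n, hn⟩ := key2 (-1) (by simpa using h)
        exact ⟨-1, n, Or.inr (Or.inr rfl), hn⟩
    obtain ⟨e, n, he, hn⟩ := key
    refine ⟨n, ?_⟩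
    rw [hn] at h2 h3
    push_cast at h2 h3
    have he1 : (e : ℝ) ≤ 1 := by
      rcases he with h | h | h <;> rw [h] <;> norm_num
    have he2 : (-1 : ℝ) ≤ e := by
      rcases he with h | h | h <;> rw [h] <;> norm_num
    rw [abs_le]
    constructor <;> linarith
  obtain ⟨n, hn⟩ := h1
  have e1 : V_mom_w P j * V_mom_z a x =
      cexp (I * ((2 * π / P * (x * P / a - j.val - n * P) : ℝ) : ℂ)) := by
    unfold V_mom_w V_mom_z
    rw [← Complex.exp_add]
    have h5 := (Complex.exp_periodic.int_mul n)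
      (I * ((2 * π / P * (x * P / a - j.val - n * P) : ℝ) : ℂ))
    rw [← h5]
    congr 1
    have hPc : (P : ℂ) ≠ 0 := by exact_mod_cast NeZero.ne P
    have hac : (a : ℂ) ≠ 0 := by exact_mod_cast ha.ne'
    push_cast
    field_simp
    ring
  rw [e1, norm_sub_rev]
  refine Real.norm_exp_I_mul_ofReal_sub_one_le.trans ?_
  rw [Real.norm_eq_abs, abs_mul, abs_of_pos (by positivity : 0 < 2 * π / P)]
  calc 2 * π / P * |x * P / a - j.val - n * P| ≤ 2 * π / P * 2 :=
        mul_le_mul_of_nonneg_left hn (by positivity)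
    _ = 4 * π / P := by ring

/-- The polynomial attached to a set of arcs. -/
noncomputable def V_mom_q {P : ℕ} (s : Finset (ZMod P)) : Polynomial ℂ :=
  ∏ j ∈ s, (1 - Polynomial.C (V_mom_w P j) * Polynomial.X)

lemma V_mom_q_eval {P : ℕ} (s : Finset (ZMod P)) (z : ℂ) :
    (V_mom_q s).eval z = ∏ j ∈ s, (1 - V_mom_w P j * z) := by
  unfold V_mom_q
  rw [Polynomial.eval_prod]
  simp

lemma V_mom_q_zero {P : ℕ} (s : Finset (ZMod P)) : (V_mom_q s).eval 0 = 1 := by
  rw [V_mom_q_eval]; simp

lemma V_mom_q_deg {P : ℕ} (s : Finset (ZMod P)) : (V_mom_q s).natDegree ≤ s.card := by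
  unfold V_mom_q
  refine (Polynomial.natDegree_prod_le _ _).trans ?_
  refine (Finset.sum_le_card_nsmul s _ 1 fun j _ => ?_).trans (by simp)
  compute_degree

lemma V_mom_J_meas (a : ℝ) (P : ℕ) (T : Set (ZMod P)) :
    MeasurableSet {x | V_mom_J a P x ∈ T} := by
  have e : {x | V_mom_J a P x ∈ T} =
      (fun x : ℝ => ⌊x * P / a⌋) ⁻¹' {n : ℤ | ((n : ℤ) : ZMod P) ∈ T} := rfl
  rw [e]
  have h1 : Measurable (fun x : ℝ => ⌊x * P / a⌋) := Int.measurable_floor.comp (by fun_prop)
  exact h1 (MeasurableSet.of_discrete)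

lemma V_mom_J_per {a : ℝ} (ha : 0 < a) (P : ℕ) (x : ℝ) :
    V_mom_J a P (x + a) = V_mom_J a P x := by
  unfold V_mom_J
  have e : (x + a) * P / a = x * P / a + ((P : ℤ) : ℝ) := by
    push_cast; field_simp
  rw [e, Int.floor_add_intCast]
  simp

lemma V_mom_bound1 (a : ℝ) {P k : ℕ} {s : Finset (ZMod P)} (hs : s.card ≤ k) (x : ℝ) :
    ‖(V_mom_q s).eval (V_mom_z a x)‖ ^ 2 ≤ 4 ^ k := by
  have h1 : ‖(V_mom_q s).eval (V_mom_z a x)‖ ≤ 2 ^ k := by
    rw [V_mom_q_eval, norm_prod]
    refine (Finset.prod_le_prod (fun _ _ => norm_nonneg _)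
      fun j _ => V_mom_factor_le a x j).trans ?_
    rw [Finset.prod_const]
    exact pow_le_pow_right₀ (by norm_num) hs
  calc ‖(V_mom_q s).eval (V_mom_z a x)‖ ^ 2 ≤ (2 ^ k) ^ 2 :=
        pow_le_pow_left₀ (norm_nonneg _) h1 2
    _ = 4 ^ k := by rw [← pow_mul, mul_comm, pow_mul]; norm_num

lemma V_mom_bound2 {a : ℝ} (ha : 0 < a) {P k : ℕ} [NeZero P] {s : Finset (ZMod P)}
    (hs : s.card ≤ k) {x : ℝ} {j : ZMod P} (hj : j ∈ s) (h : V_mom_near (V_mom_J a P x) j) :
    ‖(V_mom_q s).eval (V_mom_z a x)‖ ^ 2 ≤ 4 ^ k * (4 * π / P) ^ 2 := by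
  classical
  have hP : (0:ℝ) < P := by exact_mod_cast Nat.pos_of_ne_zero (NeZero.ne P)
  have h1 : ‖(V_mom_q s).eval (V_mom_z a x)‖ ≤ 4 * π / P * 2 ^ k := by
    rw [V_mom_q_eval, norm_prod, ← Finset.mul_prod_erase s _ hj]
    apply mul_le_mul (V_mom_factor_near ha h) _ (Finset.prod_nonneg fun _ _ => norm_nonneg _)
      (by positivity)
    refine (Finset.prod_le_prod (fun _ _ => norm_nonneg _)
      fun j _ => V_mom_factor_le a x j).trans ?_
    rw [Finset.prod_const]
    apply pow_le_pow_right₀ (by norm_num)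
    exact (Finset.card_erase_le).trans hs
  calc ‖(V_mom_q s).eval (V_mom_z a x)‖ ^ 2 ≤ (4 * π / P * 2 ^ k) ^ 2 :=
        pow_le_pow_left₀ (norm_nonneg _) h1 2
    _ = 4 ^ k * (4 * π / P) ^ 2 := by
        rw [mul_pow, ← pow_mul 2, mul_comm k 2, pow_mul 2]; norm_num; ring

theorem pr_V_mom : V_mom := by
  classical
  intro a k ha
  obtain ⟨P, hPdef⟩ : ∃ P : ℕ, P = 32 * 2 ^ k := ⟨_, rfl⟩
  have hPpos : 0 < P := by rw [hPdef]; positivity
  have hne : NeZero P := ⟨hPpos.ne'⟩
  have hP : (0:ℝ) < P := by exact_mod_cast hPpos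
  have hPr : (P : ℝ) = 32 * 2 ^ k := by rw [hPdef]; push_cast; ring
  obtain ⟨γ, hγdef⟩ : ∃ γ : ℝ, γ = 1 / (2 * 4 ^ k * P) := ⟨_, rfl⟩
  have hγ : 0 < γ := by rw [hγdef]; positivity
  refine ⟨a / P, γ, by positivity, hγ, ?_⟩
  intro μ hμ h
  obtain ⟨H, hH⟩ : ∃ H : Finset (ZMod P),
      H = Finset.univ.filter (fun j => γ ≤ μ.real {x | V_mom_J a P x = j}) := ⟨_, rfl⟩
  -- a maximal separated set of heavy arcs
  obtain ⟨s, hs, hmax⟩ := Finset.exists_max_image
    (H.powerset.filter fun s => ∀ i ∈ s, ∀ j ∈ s, i ≠ j → ¬ V_mom_near i j) Finset.card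
    ⟨∅, by simp⟩
  rw [Finset.mem_filter, Finset.mem_powerset] at hs
  obtain ⟨hsH, hsep⟩ := hs
  by_cases hk : k + 1 ≤ s.card
  · obtain ⟨t, hts, htc⟩ := Finset.exists_subset_card_eq hk
    let e : Fin (k + 1) ≃ t := (t.equivFinOfCardEq htc).symm
    refine ⟨fun i => {x | V_mom_J a P x = (e i : ZMod P)}, ?_, ?_, ?_, ?_⟩
    · intro i
      exact V_mom_J_meas a P {(e i : ZMod P)}
    · intro i x
      show V_mom_J a P (x + a) = _ ↔ V_mom_J a P x = _
      rw [V_mom_J_per ha]
    · intro i j hij x hx y hy n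
      by_contra hlt
      rw [not_le] at hlt
      have h1 := V_mom_sep ha hPpos hlt
      have hx' : V_mom_J a P x = (e i : ZMod P) := hx
      have hy' : V_mom_J a P y = (e j : ZMod P) := hy
      rw [hx', hy'] at h1
      refine hsep _ (hts (e i).2) _ (hts (e j).2) ?_ h1
      intro heq
      exact hij (e.injective (Subtype.ext heq))
    · intro i
      have h1 := hsH (hts (e i).2)
      rw [hH, Finset.mem_filter] at h1
      exact h1.2
  · exfalso
    have hsk : s.card ≤ k := by omega
    have hnear : ∀ j ∈ H, ∃ i ∈ s, V_mom_near j i := by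
      intro j hj
      by_contra hno
      push Not at hno
      have hjs : j ∉ s := fun hjs => hno j hjs (Or.inl (sub_self j))
      have h1 := hmax (insert j s) (by
        rw [Finset.mem_filter, Finset.mem_powerset]
        refine ⟨Finset.insert_subset hj hsH, ?_⟩
        intro p hp q hq hpq
        rw [Finset.mem_insert] at hp hq
        rcases hp with rfl | hp
        · rcases hq with rfl | hq
          · exact absurd rfl hpq
          · exact hno q hq
        · rcases hq with rfl | hq
          · exact fun hh => hno p hp (V_mom_near_symm hh)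
          · exact hsep p hp q hq hpq)
      rw [Finset.card_insert_of_notMem hjs] at h1
      omega
    -- the light arcs
    obtain ⟨N, hN⟩ : ∃ N : Set ℝ, N = {x | V_mom_J a P x ∈ {j : ZMod P | j ∉ H}} :=
      ⟨_, rfl⟩
    have hNm : MeasurableSet N := by rw [hN]; exact V_mom_J_meas a P _
    have hNμ : μ.real N ≤ P * γ := by
      have hsub : N ⊆ ⋃ j ∈ Hᶜ, {x | V_mom_J a P x = j} := by
        intro x hx
        rw [hN] at hx
        have hx' : V_mom_J a P x ∉ H := hx
        simp only [Set.mem_iUnion]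
        exact ⟨V_mom_J a P x, Finset.mem_compl.2 hx', rfl⟩
      calc μ.real N ≤ μ.real (⋃ j ∈ Hᶜ, {x | V_mom_J a P x = j}) :=
            measureReal_mono hsub (measure_ne_top _ _)
        _ ≤ ∑ j ∈ Hᶜ, μ.real {x | V_mom_J a P x = j} := measureReal_biUnion_finset_le _ _
        _ ≤ ∑ j ∈ Hᶜ, γ := by
            apply Finset.sum_le_sum
            intro j hj
            have h1 := Finset.mem_compl.1 hj
            rw [hH, Finset.mem_filter] at h1
            push Not at h1
            exact (h1 (Finset.mem_univ j)).le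
        _ ≤ P * γ := by
            rw [Finset.sum_const, nsmul_eq_mul]
            apply mul_le_mul_of_nonneg_right _ hγ.le
            have := Finset.card_le_univ Hᶜ
            rw [ZMod.card] at this
            exact_mod_cast this
    have hg : Integrable (fun x => 1 / 4 + 4 ^ k * N.indicator (fun _ => (1:ℝ)) x) μ :=
      (integrable_const _).add (((integrable_const (1:ℝ)).indicator hNm).const_mul _)
    have hpi : π ^ 2 < 10 := by
      have h1 := Real.pi_lt_d2
      have h2 := Real.pi_pos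
      nlinarith
    have hle : ∀ x, ‖(V_mom_q s).eval (V_mom_z a x)‖ ^ 2 ≤
        1 / 4 + 4 ^ k * N.indicator (fun _ => (1:ℝ)) x := by
      intro x
      by_cases hx : x ∈ N
      · rw [indicator_of_mem hx]
        have := V_mom_bound1 a hsk x
        linarith
      · rw [indicator_of_notMem hx]
        have hxH : V_mom_J a P x ∈ H := by
          by_contra hc
          exact hx (by rw [hN]; exact hc)
        obtain ⟨i, his, hi⟩ := hnear _ hxH
        have h1 := V_mom_bound2 ha hsk his hi
        have h2 : (4:ℝ) ^ k * (4 * π / P) ^ 2 = π ^ 2 / 64 := by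
          rw [hPr]
          have : ((2:ℝ) ^ k) ^ 2 = 4 ^ k := by
            rw [← pow_mul, mul_comm, pow_mul]; norm_num
          rw [div_pow, mul_pow, mul_pow, this]
          field_simp
          norm_num
        rw [h2] at h1
        linarith
    have hfin := V_mom_ge_one h (V_mom_q s) ((V_mom_q_deg s).trans hsk) (V_mom_q_zero s) hg hle
    rw [integral_add (integrable_const _) (((integrable_const (1:ℝ)).indicator hNm).const_mul _),
      integral_const_mul, integral_indicator hNm, integral_const, setIntegral_const] at hfin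
    simp only [probReal_univ, smul_eq_mul, one_mul, mul_one] at hfin
    have h5 : (4:ℝ) ^ k * μ.real N ≤ 1 / 2 := by
      calc (4:ℝ) ^ k * μ.real N ≤ 4 ^ k * (P * γ) :=
            mul_le_mul_of_nonneg_left hNμ (by positivity)
        _ = 1 / 2 := by rw [hγdef]; field_simp
    linarith

end Pool.Agent.Vx

end

section

/-!
# MP_afe918_an, item Vmpos: the moments of the test functions
-/

set_option autoImplicit false

open Complex Set Filter Topology MeasureTheory Metric
open scoped Real ContDiff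

namespace Pool.Agent.Vx

/-! ### Trigonometric polynomials -/

theorem V_mpos_cm_cont (a : ℝ) {k : ℕ} (i : Fin k × Bool) : Continuous (cm a i) := by
  unfold cm
  split_ifs <;> fun_prop

theorem V_mpos_Tc_cont (a : ℝ) {k : ℕ} (c : Pa k) : Continuous (Tc a c) := by
  unfold Tc
  exact continuous_finsetSum _ fun i _ => continuous_const.mul (V_mpos_cm_cont a i)

theorem V_mpos_cm_abs (a : ℝ) {k : ℕ} (i : Fin k × Bool) (x : ℝ) : |cm a i x| ≤ 1 := by
  unfold cm
  split_ifs
  · exact Real.abs_sin_le_one _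
  · exact Real.abs_cos_le_one _

theorem V_mpos_c_abs {k : ℕ} (c : Pa k) (hc : ‖c‖ = 1) (i : Fin k × Bool) : |c i| ≤ 1 := by
  have h := PiLp.norm_apply_le c i
  rwa [hc, Real.norm_eq_abs] at h

theorem V_mpos_Tc_abs (a : ℝ) {k : ℕ} (c : Pa k) (hc : ‖c‖ = 1) (x : ℝ) :
    |Tc a c x| ≤ 2 * k := by
  unfold Tc
  refine (Finset.abs_sum_le_sum_abs _ _).trans ?_
  have h : ∀ i ∈ (Finset.univ : Finset (Fin k × Bool)), |c i * cm a i x| ≤ 1 := by
    intro i _
    rw [abs_mul]
    exact mul_le_one₀ (V_mpos_c_abs c hc i) (abs_nonneg _) (V_mpos_cm_abs a i x)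
  refine (Finset.sum_le_sum h).trans ?_
  simp [mul_comm]

theorem V_mpos_cm_lip {a : ℝ} (ha : 0 < a) {k : ℕ} (i : Fin k × Bool) (x y : ℝ) :
    |cm a i x - cm a i y| ≤ 2 * π * k / a * |x - y| := by
  have hl : ((i.1 : ℕ) : ℝ) + 1 ≤ k := by
    have := i.1.isLt
    exact_mod_cast this
  have h0 : |2 * π * (((i.1 : ℕ) : ℝ) + 1) * x / a - 2 * π * (((i.1 : ℕ) : ℝ) + 1) * y / a| ≤
      2 * π * k / a * |x - y| := by
    have e : 2 * π * (((i.1 : ℕ) : ℝ) + 1) * x / a - 2 * π * (((i.1 : ℕ) : ℝ) + 1) * y / a =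
        2 * π * (((i.1 : ℕ) : ℝ) + 1) / a * (x - y) := by ring
    rw [e, abs_mul, abs_of_nonneg (by positivity)]
    gcongr
  unfold cm
  split_ifs
  · exact (Real.abs_sin_sub_sin_le _ _).trans h0
  · exact (Real.abs_cos_sub_cos_le _ _).trans h0

theorem V_mpos_cm_per {a : ℝ} (ha : 0 < a) {k : ℕ} (i : Fin k × Bool) (x : ℝ) (n : ℤ) :
    cm a i (x + n * a) = cm a i x := by
  have e : 2 * π * (((i.1 : ℕ) : ℝ) + 1) * (x + n * a) / a =
      2 * π * (((i.1 : ℕ) : ℝ) + 1) * x / a +
        ((((((i.1 : ℕ) : ℤ) + 1) * n : ℤ)) : ℝ) * (2 * π) := by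
    push_cast
    field_simp
  unfold cm
  rw [e, Real.sin_add_int_mul_two_pi, Real.cos_add_int_mul_two_pi]

/-- The distance modulo the period is controlled by `D`. -/
theorem V_mpos_dist {a b y0 : ℝ} (ha : 0 < a) (z : ℂ) (t : ℝ) :
    ∃ n : ℤ, |z.re - t - n * a| ≤ π / 2 * Real.sqrt (Dd a b y0 z t) := by
  refine ⟨round ((z.re - t) / a), ?_⟩
  set n : ℤ := round ((z.re - t) / a) with hn
  set u : ℝ := z.re - t - n * a with hu
  have hu2 : |u| ≤ a / 2 := by
    have h := abs_sub_round ((z.re - t) / a)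
    rw [← hn] at h
    have e : u = ((z.re - t) / a - n) * a := by
      rw [hu]
      field_simp
    rw [e, abs_mul, abs_of_pos ha]
    calc |(z.re - t) / a - n| * a ≤ 1 / 2 * a := by gcongr
      _ = a / 2 := by ring
  have h1 : |Real.sin (π * (z.re - t) / a)| = |Real.sin (π * u / a)| := by
    have e : π * (z.re - t) / a = π * u / a + n * π := by
      rw [hu]
      field_simp
      ring
    rw [e, Real.sin_add_int_mul_pi, abs_mul, abs_zpow, abs_neg, abs_one, one_zpow, one_mul]
  have h2 : 2 / π * |π * u / a| ≤ |Real.sin (π * u / a)| := by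
    refine Real.mul_abs_le_abs_sin ?_
    rw [abs_div, abs_mul, abs_of_pos Real.pi_pos, abs_of_pos ha, div_le_iff₀ ha]
    calc π * |u| ≤ π * (a / 2) := by gcongr
      _ = π / 2 * a := by ring
  have h3 : 2 / π * |π * u / a| = 2 / a * |u| := by
    rw [abs_div, abs_mul, abs_of_pos Real.pi_pos, abs_of_pos ha]
    field_simp
  have h4 : a / π * |Real.sin (π * (z.re - t) / a)| ≤ Real.sqrt (Dd a b y0 z t) := by
    refine Real.le_sqrt_of_sq_le ?_
    unfold Dd
    have e : (a / π * |Real.sin (π * (z.re - t) / a)|) ^ 2 =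
        (a / π * Real.sin (π * (z.re - t) / a)) ^ 2 := by
      rw [mul_pow, mul_pow, sq_abs]
    rw [e]
    nlinarith [sq_nonneg (b / π * Real.sin (π * (z.im - y0) / b))]
  calc |u| = π / 2 * (a / π * (2 / a * |u|)) := by field_simp
    _ ≤ π / 2 * (a / π * |Real.sin (π * (z.re - t) / a)|) := by
        rw [h1]
        have := h3 ▸ h2
        have hp := Real.pi_pos
        gcongr
    _ ≤ π / 2 * Real.sqrt (Dd a b y0 z t) := by
        have hp := Real.pi_pos
        gcongr

theorem V_mpos_Tc_cmp {a b y0 : ℝ} (ha : 0 < a) {k : ℕ} (c : Pa k) (hc : ‖c‖ = 1) (z : ℂ)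
    (t : ℝ) : |Tc a c z.re - Tc a c t| ≤
      2 * k * (2 * π * k / a * (π / 2)) * Real.sqrt (Dd a b y0 z t) := by
  obtain ⟨n, hn⟩ := V_mpos_dist (b := b) (y0 := y0) ha z t
  unfold Tc
  rw [← Finset.sum_sub_distrib]
  refine (Finset.abs_sum_le_sum_abs _ _).trans ?_
  have h : ∀ i ∈ (Finset.univ : Finset (Fin k × Bool)),
      |c i * cm a i z.re - c i * cm a i t| ≤
        2 * π * k / a * (π / 2) * Real.sqrt (Dd a b y0 z t) := by
    intro i _
    rw [← mul_sub, abs_mul]
    have h1 : |cm a i z.re - cm a i t| ≤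
        2 * π * k / a * (π / 2) * Real.sqrt (Dd a b y0 z t) := by
      rw [← V_mpos_cm_per ha i t n]
      refine (V_mpos_cm_lip ha i _ _).trans ?_
      rw [mul_assoc (2 * π * k / a) (π / 2)]
      have e : z.re - (t + n * a) = z.re - t - n * a := by ring
      rw [e]
      gcongr
    calc |c i| * |cm a i z.re - cm a i t| ≤ 1 * |cm a i z.re - cm a i t| :=
          mul_le_mul_of_nonneg_right (V_mpos_c_abs c hc i) (abs_nonneg _)
      _ ≤ _ := by rw [one_mul]; exact h1
  refine (Finset.sum_le_sum h).trans ?_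
  rw [Finset.sum_const, Finset.card_univ, Fintype.card_prod, Fintype.card_fin,
    Fintype.card_bool, nsmul_eq_mul]
  push_cast
  exact le_of_eq (by ring)

/-! ### Continuity and integrability -/

theorem V_mpos_rect_meas (a b : ℝ) (q : ℂ) : MeasurableSet (rect a b q) := by
  have h1 : IsOpen {z : ℂ | |z.re - q.re| < a / 2} := isOpen_lt (by fun_prop) continuous_const
  have h2 : IsOpen {z : ℂ | |z.im - q.im| < b / 2} := isOpen_lt (by fun_prop) continuous_const
  exact (h1.inter h2).measurableSet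

theorem V_mpos_rect_sub {a b : ℝ} (ha : 0 < a) (hb : 0 < b) :
    rect a b 0 ⊆ closedBall (0 : ℂ) (a + b) := by
  intro z hz
  obtain ⟨h1, h2⟩ := hz
  rw [Complex.zero_re, sub_zero] at h1
  rw [Complex.zero_im, sub_zero] at h2
  rw [mem_closedBall_zero_iff]
  have h3 := Complex.norm_le_abs_re_add_abs_im z
  linarith

theorem V_mpos_int {a b : ℝ} (ha : 0 < a) (hb : 0 < b) {f : ℂ → ℝ} (hf : Continuous f) :
    IntegrableOn f (rect a b 0) := by
  have h := (hf.continuousOn (s := closedBall (0 : ℂ) (a + b))).integrableOn_compact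
    (μ := volume) (isCompact_closedBall _ _)
  exact h.mono_set (V_mpos_rect_sub ha hb)

theorem V_mpos_Dd_cont (a b y0 : ℝ) : Continuous (fun q : ℂ × ℝ => Dd a b y0 q.1 q.2) := by
  unfold Dd
  fun_prop

theorem V_mpos_Dd_nonneg (a b y0 : ℝ) (x : ℂ) (t : ℝ) : 0 ≤ Dd a b y0 x t := by
  unfold Dd
  positivity

theorem V_mpos_kp_cont (a b y0 L : ℝ) : Continuous (fun q : ℂ × ℝ => kp a b y0 L q.1 q.2) := by
  unfold kp
  have h := V_mpos_Dd_cont a b y0
  refine (Continuous.div continuous_const (by fun_prop) fun q => ?_).pow 2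
  have := V_mpos_Dd_nonneg a b y0 q.1 q.2
  positivity

theorem V_mpos_kp_cont1 (a b y0 L t : ℝ) : Continuous (fun z : ℂ => kp a b y0 L z t) :=
  Continuous.comp (g := fun q : ℂ × ℝ => kp a b y0 L q.1 q.2) (f := fun z : ℂ => (z, t))
    (V_mpos_kp_cont a b y0 L) (by fun_prop)

theorem V_mpos_Dd_cont1 (a b y0 t : ℝ) : Continuous (fun z : ℂ => Dd a b y0 z t) :=
  Continuous.comp (g := fun q : ℂ × ℝ => Dd a b y0 q.1 q.2) (f := fun z : ℂ => (z, t))
    (V_mpos_Dd_cont a b y0) (by fun_prop)

theorem V_mpos_kp_cont2 (a b y0 L : ℝ) (z : ℂ) : Continuous (kp a b y0 L z) :=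
  Continuous.comp (g := fun q : ℂ × ℝ => kp a b y0 L q.1 q.2) (f := fun t : ℝ => (z, t))
    (V_mpos_kp_cont a b y0 L) (by fun_prop)

theorem V_mpos_kp_pos {a b y0 L : ℝ} (hL : 0 < L) (x : ℂ) (t : ℝ) : 0 < kp a b y0 L x t := by
  unfold kp
  have := V_mpos_Dd_nonneg a b y0 x t
  positivity

theorem V_mpos_si_pos {a β : ℝ} (ha : 0 < a) {k : ℕ} (c : Pa k) {f : ℝ → ℝ}
    (hf : Continuous f) (hpos : ∀ t, 0 < f t) : 0 < si a β c f := by
  unfold si
  rw [← intervalIntegral.integral_of_le ha.le]
  have hT := V_mpos_Tc_cont a c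
  have hc : Continuous (fun t => f t * Real.exp (β * Tc a c t)) := by fun_prop
  exact intervalIntegral.intervalIntegral_pos_of_pos (hc.intervalIntegrable 0 a)
    (fun t => mul_pos (hpos t) (Real.exp_pos _)) ha

/-- Fubini. -/
theorem V_mpos_fub {a b y0 L β : ℝ} (ha : 0 < a) (hb : 0 < b) {k : ℕ} (c : Pa k)
    {φ : ℂ → ℝ} (hφ : Continuous φ) :
    IntegrableOn (fun t => ti a b (fun z => φ z * kp a b y0 L z t) *
      Real.exp (β * Tc a c t)) (Ioc 0 a) ∧
    ti a b (fun z => φ z * (si a β c (kp a b y0 L z) / si a β c (fun _ => 1))) =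
      si a β c (fun t => ti a b (fun z => φ z * kp a b y0 L z t)) / si a β c (fun _ => 1) := by
  have hT := V_mpos_Tc_cont a c
  have hk := V_mpos_kp_cont a b y0 L
  set f : ℂ × ℝ → ℝ := fun q => φ q.1 * kp a b y0 L q.1 q.2 * Real.exp (β * Tc a c q.2) with hf
  have hfc : Continuous f := by
    rw [hf]
    fun_prop
  have hint : Integrable f ((volume.restrict (rect a b 0)).prod
      (volume.restrict (Ioc 0 a))) := by
    rw [Measure.prod_restrict]
    have h := (hfc.continuousOn (s := closedBall (0 : ℂ) (a + b) ×ˢ Icc 0 a)).integrableOn_compact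
      (μ := (volume : Measure ℂ).prod (volume : Measure ℝ))
      ((isCompact_closedBall _ _).prod isCompact_Icc)
    exact h.mono_set (Set.prod_mono (V_mpos_rect_sub ha hb) Ioc_subset_Icc_self)
  have e1 : ∀ t, ∫ z in rect a b 0, f (z, t) =
      ti a b (fun z => φ z * kp a b y0 L z t) * Real.exp (β * Tc a c t) := by
    intro t
    rw [ti, ← integral_mul_const]
  have e2 : ∀ z, ∫ t in Ioc 0 a, f (z, t) = φ z * si a β c (kp a b y0 L z) := by
    intro z
    rw [si, ← integral_const_mul]
    refine integral_congr_ae (Eventually.of_forall fun t => ?_)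
    show φ z * kp a b y0 L z t * Real.exp (β * Tc a c t) = _
    ring
  constructor
  · have h := hint.integral_prod_right
    refine h.congr (Eventually.of_forall fun t => ?_)
    exact e1 t
  · have h := MeasureTheory.integral_integral_swap (f := fun z t => f (z, t)) hint
    simp only [e1, e2] at h
    have h2 : ti a b (fun z => φ z * (si a β c (kp a b y0 L z) / si a β c (fun _ => 1))) =
        (∫ z in rect a b 0, φ z * si a β c (kp a b y0 L z)) / si a β c (fun _ => 1) := by
      rw [ti, ← integral_div]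
      refine integral_congr_ae (Eventually.of_forall fun z => ?_)
      show φ z * (si a β c (kp a b y0 L z) / si a β c (fun _ => 1)) = _
      ring
    rw [h2, h]
    rfl

/-- The bad set is measurable. -/
theorem V_mpos_bad_meas (a τ θ : ℝ) {k : ℕ} (c : Pa k) (t : Fin k → ℝ) :
    MeasurableSet {x : ℝ | (∃ (j : Fin k) (n : ℤ), |x - t j - n * a| ≤ θ) ∧ τ ≤ Tc a c x} := by
  have h1 : MeasurableSet {x : ℝ | ∃ (j : Fin k) (n : ℤ), |x - t j - n * a| ≤ θ} := by
    have e : {x : ℝ | ∃ (j : Fin k) (n : ℤ), |x - t j - n * a| ≤ θ} =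
        ⋃ (j : Fin k), ⋃ (n : ℤ), {x : ℝ | |x - t j - n * a| ≤ θ} := by
      ext x
      simp
    rw [e]
    refine MeasurableSet.iUnion fun j => MeasurableSet.iUnion fun n => ?_
    exact (isClosed_le (by fun_prop) continuous_const).measurableSet
  have h2 : MeasurableSet {x : ℝ | τ ≤ Tc a c x} :=
    (isClosed_le continuous_const (V_mpos_Tc_cont a c)).measurableSet
  exact h1.inter h2

theorem V_mpos_si_int {a β : ℝ} {k : ℕ} (c : Pa k) {f : ℝ → ℝ} (hf : Measurable f)
    {B : ℝ} (hB : ∀ t, |f t| ≤ B) :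
    IntegrableOn (fun t => f t * Real.exp (β * Tc a c t)) (Ioc 0 a) := by
  have hT := V_mpos_Tc_cont a c
  have hc : Continuous (fun t => Real.exp (β * Tc a c t)) := by fun_prop
  have h1 : IntegrableOn (fun t => Real.exp (β * Tc a c t)) (Ioc 0 a) :=
    (hc.continuousOn.integrableOn_compact isCompact_Icc).mono_set Ioc_subset_Icc_self
  exact h1.bdd_mul (c := B) hf.aestronglyMeasurable (Eventually.of_forall hB)

/-- The weighted moment of the bubble is almost the value at its centre. -/
theorem V_mpos_A {a b y0 L W C2 : ℝ} (ha : 0 < a) (hb : 0 < b) (hL : 0 < L) {k : ℕ} (c : Pa k)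
    (hc : ‖c‖ = 1) {w : ℂ → ℝ} (hw : Continuous w) (hw0 : ∀ z, 0 ≤ w z)
    (hW : ∀ z ∈ rect a b 0, w z ≤ W) (t : ℝ)
    (hC : ti a b (fun x => Real.sqrt (Dd a b y0 x t) * kp a b y0 L x t) ≤ C2 / L) :
    Tc a c t * ti a b (fun z => w z * kp a b y0 L z t) -
      2 * k * (2 * π * k / a * (π / 2)) * W * (C2 / L) ≤
      ti a b (fun z => Tc a c z.re * w z * kp a b y0 L z t) := by
  have hT := V_mpos_Tc_cont a c
  have hk := V_mpos_kp_cont1 a b y0 L t
  have hD := V_mpos_Dd_cont1 a b y0 t
  have hW0 : 0 ≤ W := (hw0 0).trans (hW 0 ⟨by simp; positivity, by simp; positivity⟩)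
  have hmeas := V_mpos_rect_meas a b 0
  set Lp : ℝ := 2 * k * (2 * π * k / a * (π / 2)) with hLp
  have hLp0 : 0 ≤ Lp := by positivity
  have i1 : IntegrableOn (fun z : ℂ => w z * kp a b y0 L z t) (rect a b 0) :=
    V_mpos_int ha hb (by fun_prop)
  have i2 : IntegrableOn (fun z : ℂ => Real.sqrt (Dd a b y0 z t) * kp a b y0 L z t)
      (rect a b 0) := V_mpos_int ha hb (by fun_prop)
  have i3 : IntegrableOn (fun z : ℂ => Tc a c z.re * w z * kp a b y0 L z t) (rect a b 0) :=
    V_mpos_int ha hb (by fun_prop)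
  have i4 : IntegrableOn (fun z : ℂ => Tc a c t * (w z * kp a b y0 L z t)) (rect a b 0) :=
    V_mpos_int ha hb (by fun_prop)
  have i5 : IntegrableOn (fun z : ℂ => Lp * W * (Real.sqrt (Dd a b y0 z t) *
      kp a b y0 L z t)) (rect a b 0) := V_mpos_int ha hb (by fun_prop)
  have i6 : IntegrableOn (fun z : ℂ => Tc a c t * (w z * kp a b y0 L z t) -
      Lp * W * (Real.sqrt (Dd a b y0 z t) * kp a b y0 L z t)) (rect a b 0) :=
    V_mpos_int ha hb (by fun_prop)
  have h1 : ∫ z in rect a b 0, (Tc a c t * (w z * kp a b y0 L z t) -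
      Lp * W * (Real.sqrt (Dd a b y0 z t) * kp a b y0 L z t)) ≤
      ∫ z in rect a b 0, Tc a c z.re * w z * kp a b y0 L z t := by
    refine setIntegral_mono_on i6 i3 hmeas fun z hz => ?_
    have h2 := (abs_le.1 (V_mpos_Tc_cmp (b := b) (y0 := y0) ha c hc z t)).1
    rw [← hLp] at h2
    have h3 := V_mpos_kp_pos (a := a) (b := b) (y0 := y0) hL z t
    have h4 := hw0 z
    have h5 := hW z hz
    have h6 : 0 ≤ Real.sqrt (Dd a b y0 z t) := Real.sqrt_nonneg _
    have h7 : (Tc a c t - Lp * Real.sqrt (Dd a b y0 z t)) * (w z * kp a b y0 L z t) ≤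
        Tc a c z.re * (w z * kp a b y0 L z t) := by
      refine mul_le_mul_of_nonneg_right (by linarith) (by positivity)
    have h8 : Lp * Real.sqrt (Dd a b y0 z t) * (w z * kp a b y0 L z t) ≤
        Lp * Real.sqrt (Dd a b y0 z t) * (W * kp a b y0 L z t) := by gcongr
    nlinarith [h7, h8]
  rw [integral_sub i4 i5, integral_const_mul, integral_const_mul] at h1
  have h2 : Lp * W * ∫ z in rect a b 0, Real.sqrt (Dd a b y0 z t) * kp a b y0 L z t ≤
      Lp * W * (C2 / L) := mul_le_mul_of_nonneg_left hC (by positivity)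
  unfold ti
  linarith

theorem V_mpos_upper {a b y0 L W C2 : ℝ} (ha : 0 < a) (hb : 0 < b) (hL : 0 < L)
    {w : ℂ → ℝ} (hw : Continuous w) (hw0 : ∀ z, 0 ≤ w z)
    (hW : ∀ z ∈ rect a b 0, w z ≤ W) (t : ℝ)
    (hC : ti a b (fun x => kp a b y0 L x t) ≤ C2) :
    ti a b (fun z => w z * kp a b y0 L z t) ≤ W * C2 := by
  have hk := V_mpos_kp_cont1 a b y0 L t
  have hW0 : 0 ≤ W := (hw0 0).trans (hW 0 ⟨by simp; positivity, by simp; positivity⟩)
  have i1 : IntegrableOn (fun z : ℂ => w z * kp a b y0 L z t) (rect a b 0) :=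
    V_mpos_int ha hb (by fun_prop)
  have i2 : IntegrableOn (fun z : ℂ => W * kp a b y0 L z t) (rect a b 0) :=
    V_mpos_int ha hb (by fun_prop)
  have h1 : ∫ z in rect a b 0, w z * kp a b y0 L z t ≤
      ∫ z in rect a b 0, W * kp a b y0 L z t :=
    setIntegral_mono_on i1 i2 (V_mpos_rect_meas a b 0) fun z hz =>
      mul_le_mul_of_nonneg_right (hW z hz) (V_mpos_kp_pos hL z t).le
  rw [integral_const_mul] at h1
  exact h1.trans (mul_le_mul_of_nonneg_left hC hW0)

theorem pr_V_mpos (hk2 : V_k2) (hk3 : V_k3) (hreg : V_reg) : V_mpos := by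
  intro a b y0 r c0 τ k w ha hb hr hc0 hτ hw hper hw0 hwc
  obtain ⟨C2, hC2⟩ := hk2 a b y0 ha hb
  obtain ⟨c1, hc1, hk3'⟩ := hk3 a b y0 r c0 ha hb hr hc0
  have hlow := hk3' w hw hper hw0 hwc
  obtain ⟨W, hW'⟩ := (isCompact_closedBall (0 : ℂ) (a + b)).exists_bound_of_continuousOn
    hw.continuousOn
  have hW : ∀ z ∈ rect a b 0, w z ≤ W := fun z hz =>
    (le_abs_self _).trans (hW' z (V_mpos_rect_sub ha hb hz))
  have hW0 : 0 ≤ W := (hw0 0).trans (hW 0 ⟨by simp; positivity, by simp; positivity⟩)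
  have hC20 : 0 ≤ C2 := by
    refine le_trans ?_ (hC2 1 0 le_rfl).1
    exact integral_nonneg fun z => (V_mpos_kp_pos one_pos z 0).le
  set Dc : ℝ := 2 * k * (2 * π * k / a * (π / 2)) * W * C2 with hDc
  have hDc0 : 0 ≤ Dc := by positivity
  set Bm : ℝ := 2 * k * (W * C2) with hBm
  have hBm0 : 0 ≤ Bm := by positivity
  have hτc : 0 < τ * c1 := mul_pos hτ hc1
  refine ⟨max 1 (4 * Dc / (τ * c1)), fun L hL => ?_⟩
  have hL1 : 1 ≤ L := (le_max_left _ _).trans hL
  have hL0 : 0 < L := by linarith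
  have hDL : Dc / L ≤ τ * c1 / 4 := by
    have h := (le_max_right _ _).trans hL
    rw [div_le_iff₀ hτc] at h
    rw [div_le_iff₀ hL0]
    linarith
  refine ⟨τ * c1 / (2 * (τ * c1 + Bm)), by positivity, fun θ β c t hc hconc => ?_⟩
  set ε : ℝ := τ * c1 / (2 * (τ * c1 + Bm)) with hε
  have hεe : (τ * c1 + Bm) * ε = τ * c1 / 2 := by
    rw [hε]
    field_simp
  have hT := V_mpos_Tc_cont a c
  have hS1 : 0 < si a β c (fun _ => 1) := V_mpos_si_pos ha c continuous_const fun _ => one_pos
  -- the exponential of the test function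
  have hexp : ∀ z, Real.exp (tf a b y0 L β c z) =
      si a β c (kp a b y0 L z) / si a β c (fun _ => 1) := by
    intro z
    have hk := V_mpos_kp_cont2 a b y0 L z
    unfold tf
    rw [Real.exp_log]
    exact div_pos (V_mpos_si_pos ha c hk fun t => V_mpos_kp_pos hL0 z t) hS1
  have hu : Continuous (tf a b y0 L β c) := ((hreg a b y0 L β k ha hb hL0).2.2.2 c).cont
  -- the functions of `t`
  set mm : ℝ → ℝ := fun t => ti a b (fun z => w z * kp a b y0 L z t) with hmm
  set AA : ℝ → ℝ := fun t => ti a b (fun z => Tc a c z.re * w z * kp a b y0 L z t) with hAA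
  obtain ⟨-, hden⟩ := V_mpos_fub (y0 := y0) (L := L) (β := β) ha hb c hw
  obtain ⟨hAi, hnum⟩ := V_mpos_fub (y0 := y0) (L := L) (β := β) ha hb c
    (φ := fun z => Tc a c z.re * w z) (by fun_prop)
  have hmlow : ∀ s, c1 ≤ mm s := fun s => hlow L s hL1
  have hmup : ∀ s, mm s ≤ W * C2 := fun s => V_mpos_upper ha hb hL0 hw hw0 hW s (hC2 L s hL1).1
  have hAlow : ∀ s, Tc a c s * mm s - Dc / L ≤ AA s := by
    intro s
    have h := V_mpos_A ha hb hL0 c hc hw hw0 hW s (hC2 L s hL1).2.1
    have e : Dc / L = 2 * k * (2 * π * k / a * (π / 2)) * W * (C2 / L) := by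
      rw [hDc]
      ring
    rw [e]
    exact h
  -- denominator
  have hdenpos : 0 < ti a b (fun z => w z * Real.exp (tf a b y0 L β c z)) := by
    have e : (fun z => w z * Real.exp (tf a b y0 L β c z)) =
        fun z => w z * (si a β c (kp a b y0 L z) / si a β c (fun _ => 1)) := by
      funext z
      rw [hexp z]
    rw [e, hden]
    refine div_pos ?_ hS1
    have hmi := (V_mpos_fub (y0 := y0) (L := L) (β := β) ha hb c hw).1
    have h1 : ∫ s in Ioc 0 a, c1 * Real.exp (β * Tc a c s) ≤
        ∫ s in Ioc 0 a, mm s * Real.exp (β * Tc a c s) := by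
      refine setIntegral_mono_on ?_ hmi measurableSet_Ioc fun s _ => ?_
      · exact V_mpos_si_int c (f := fun _ => c1) measurable_const (B := |c1|) fun _ => le_rfl
      · exact mul_le_mul_of_nonneg_right (hmlow s) (Real.exp_pos _).le
    refine lt_of_lt_of_le ?_ h1
    exact V_mpos_si_pos ha c (f := fun _ => c1) continuous_const fun _ => hc1
  -- numerator
  have hnumpos : 0 < ti a b (fun z => Tc a c z.re * (w z * Real.exp (tf a b y0 L β c z))) := by
    have e : (fun z : ℂ => Tc a c z.re * (w z * Real.exp (tf a b y0 L β c z))) =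
        fun z => Tc a c z.re * w z *
          (si a β c (kp a b y0 L z) / si a β c (fun _ => 1)) := by
      funext z
      rw [hexp z]
      ring
    rw [e, hnum]
    refine div_pos ?_ hS1
    classical
    set g : ℝ → ℝ := fun x => if (∃ (j : Fin k) (n : ℤ), |x - t j - n * a| ≤ θ) ∧
      τ ≤ Tc a c x then 0 else 1 with hg
    have hgm : Measurable g :=
      Measurable.ite (V_mpos_bad_meas a τ θ c t) measurable_const measurable_const
    have hg1 : ∀ s, |g s| ≤ 1 := by
      intro s
      rw [hg]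
      dsimp only
      split_ifs <;> simp
    have hgint := V_mpos_si_int (a := a) (β := β) c hgm hg1
    have h1int := V_mpos_si_int (a := a) (β := β) c (f := fun _ => 1) measurable_const
      (B := 1) (fun _ => by simp)
    have hconc' : ∫ s in Ioc 0 a, g s * Real.exp (β * Tc a c s) ≤
        ε * ∫ s in Ioc 0 a, 1 * Real.exp (β * Tc a c s) := by
      have h := hconc
      unfold Conc si at h
      convert h using 2
    have h1 : ∫ s in Ioc 0 a, ((τ * c1 - Dc / L) * (1 * Real.exp (β * Tc a c s)) -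
        (τ * c1 + Bm) * (g s * Real.exp (β * Tc a c s))) ≤
        ∫ s in Ioc 0 a, AA s * Real.exp (β * Tc a c s) := by
      refine setIntegral_mono_on ((h1int.const_mul _).sub (hgint.const_mul _)) hAi
        measurableSet_Ioc fun s _ => ?_
      have hE := Real.exp_pos (β * Tc a c s)
      have hm1 := hmlow s
      have hm2 := hmup s
      have hT2 := V_mpos_Tc_abs a c hc s
      have h3 : (τ * c1 - Dc / L) - (τ * c1 + Bm) * g s ≤ AA s := by
        refine le_trans ?_ (hAlow s)
        by_cases hs : (∃ (j : Fin k) (n : ℤ), |s - t j - n * a| ≤ θ) ∧ τ ≤ Tc a c s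
        · have hg0 : g s = 0 := by rw [hg]; exact if_pos hs
          rw [hg0]
          have h4 : τ * c1 ≤ Tc a c s * mm s :=
            mul_le_mul hs.2 hm1 hc1.le (hτ.le.trans hs.2)
          linarith
        · have hg0 : g s = 1 := by rw [hg]; exact if_neg hs
          rw [hg0]
          have h4 : -Bm ≤ Tc a c s * mm s := by
            have h5 : |Tc a c s * mm s| ≤ Bm := by
              rw [abs_mul, abs_of_pos (lt_of_lt_of_le hc1 hm1), hBm]
              exact mul_le_mul hT2 hm2 (le_trans hc1.le hm1) (by positivity)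
            exact (abs_le.1 h5).1
          linarith
      have h4 := mul_le_mul_of_nonneg_right h3 hE.le
      linarith
    rw [integral_sub (h1int.const_mul _) (hgint.const_mul _),
      integral_const_mul (τ * c1 - Dc / L), integral_const_mul (τ * c1 + Bm)] at h1
    have h2 : (τ * c1 + Bm) * ∫ s in Ioc 0 a, g s * Real.exp (β * Tc a c s) ≤
        (τ * c1 + Bm) * (ε * ∫ s in Ioc 0 a, 1 * Real.exp (β * Tc a c s)) :=
      mul_le_mul_of_nonneg_left hconc' (by positivity)
    have h3 : (τ * c1 + Bm) * (ε * ∫ s in Ioc 0 a, 1 * Real.exp (β * Tc a c s)) =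
        τ * c1 / 2 * ∫ s in Ioc 0 a, 1 * Real.exp (β * Tc a c s) := by
      rw [← mul_assoc, hεe]
    have hS1' : 0 < ∫ s in Ioc 0 a, 1 * Real.exp (β * Tc a c s) := hS1
    have h4 : 0 < (τ * c1 - Dc / L - τ * c1 / 2) *
        ∫ s in Ioc 0 a, 1 * Real.exp (β * Tc a c s) := mul_pos (by linarith) hS1'
    show 0 < ∫ s in Ioc 0 a, AA s * Real.exp (β * Tc a c s)
    linarith [h1, h2, h3, h4]
  -- assembly
  have hinner : inner ℝ (mom a b w k (tf a b y0 L β c)) c =
      ti a b (fun z => Tc a c z.re * (w z * Real.exp (tf a b y0 L β c z))) /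
        ti a b (fun z => w z * Real.exp (tf a b y0 L β c z)) := by
    rw [PiLp.inner_apply]
    have e1 : ∀ i, inner ℝ (mom a b w k (tf a b y0 L β c) i) (c i) =
        c i * ti a b (fun z => cm a i z.re * (w z * Real.exp (tf a b y0 L β c z))) /
        ti a b (fun z => w z * Real.exp (tf a b y0 L β c z)) := by
      intro i
      rw [mom]
      simp only [RCLike.inner_apply, conj_trivial]
      ring
    rw [Finset.sum_congr rfl fun i _ => e1 i, ← Finset.sum_div]
    congr 1
    have e2 : ∀ i, c i * ti a b (fun z => cm a i z.re *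
        (w z * Real.exp (tf a b y0 L β c z))) =
        ∫ z in rect a b 0, c i * (cm a i z.re * (w z * Real.exp (tf a b y0 L β c z))) := by
      intro i
      rw [ti, integral_const_mul]
    rw [Finset.sum_congr rfl fun i _ => e2 i, ← integral_finsetSum]
    · unfold ti Tc
      refine integral_congr_ae (Eventually.of_forall fun z => ?_)
      show ∑ i, c i * (cm a i z.re * (w z * Real.exp (tf a b y0 L β c z))) =
        (∑ i, c i * cm a i z.re) * (w z * Real.exp (tf a b y0 L β c z))
      rw [Finset.sum_mul]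
      exact Finset.sum_congr rfl fun i _ => by ring
    · intro i _
      have hcm := V_mpos_cm_cont a i
      exact V_mpos_int ha hb (by fun_prop)
  rw [hinner]
  exact div_pos hnumpos hdenpos

end Pool.Agent.Vx

end

section

/-!
# MP_afe918_an, G15: blow-up sequences at the concentration points
-/

set_option autoImplicit false

open Complex Set Filter Topology MeasureTheory Metric
open scoped Real ContDiff

namespace Pool.Agent.Vx

theorem BUq_unif {P : ℕ → ℝ → Prop} (hm : ∀ j C C', C ≤ C' → P j C → P j C')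
    (h1 : ∃ C, ∀ᶠ j in atTop, P j C) (h2 : ∀ j, ∃ C, P j C) : ∃ C, ∀ j, P j C := by
  obtain ⟨C0, h1⟩ := h1
  obtain ⟨N, hN⟩ := eventually_atTop.1 h1
  choose f hf using h2
  refine ⟨max C0 (∑ i ∈ Finset.range N, |f i|), fun j => ?_⟩
  rcases lt_or_ge j N with h | h
  · refine hm j _ _ (le_trans ?_ (le_max_right _ _)) (hf j)
    exact (le_abs_self _).trans (Finset.single_le_sum (f := fun i => |f i|)
      (fun i _ => abs_nonneg _) (Finset.mem_range.2 h))
  · exact hm j _ _ (le_max_left _ _) (hN j h)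

theorem BUq_lat {a b : ℝ} (ha : 0 < a) (hb : 0 < b) {t : ℂ} (ht : Lat a b t) (h0 : t ≠ 0) :
    min a b ≤ ‖t‖ := by
  obtain ⟨m, k, rfl⟩ := ht
  have hre : ((m : ℂ) * a + k * b * I).re = m * a := by simp
  have him : ((m : ℂ) * a + k * b * I).im = k * b := by simp
  by_cases hm : m = 0
  · have hk : k ≠ 0 := by
      rintro rfl
      apply h0
      simp [hm]
    refine (min_le_right _ _).trans ?_
    refine le_trans ?_ (Complex.abs_im_le_norm _)
    rw [him, abs_mul, abs_of_pos hb]
    have : (1 : ℝ) ≤ |(k : ℝ)| := by exact_mod_cast Int.one_le_abs hk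
    nlinarith
  · refine (min_le_left _ _).trans ?_
    refine le_trans ?_ (Complex.abs_re_le_norm _)
    rw [hre, abs_mul, abs_of_pos ha]
    have : (1 : ℝ) ≤ |(m : ℝ)| := by exact_mod_cast Int.one_le_abs hm
    nlinarith

theorem BUq_sub {a b : ℝ} {t t' : ℂ} (ht : Lat a b t) (ht' : Lat a b t') :
    Lat a b (t - t') := by
  obtain ⟨m, k, rfl⟩ := ht
  obtain ⟨m', k', rfl⟩ := ht'
  refine ⟨m - m', k - k', ?_⟩
  push_cast
  ring

theorem BUq_disc {a b : ℝ} (ha : 0 < a) (hb : 0 < b) (q q' : ℂ) :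
    ∃ r, 0 < r ∧ ∀ t, Lat a b t → q' + t ≠ q → r ≤ ‖q' + t - q‖ := by
  by_cases h : ∃ t, Lat a b t ∧ q' + t ≠ q ∧ ‖q' + t - q‖ < min a b / 2
  · obtain ⟨t, ht, hne, hlt⟩ := h
    refine ⟨‖q' + t - q‖, norm_pos_iff.2 (sub_ne_zero.2 hne), fun t' ht' hne' => ?_⟩
    by_cases he : t' = t
    · rw [he]
    · have h1 := BUq_lat ha hb (BUq_sub ht' ht) (sub_ne_zero.2 he)
      have h2 : ‖t' - t‖ ≤ ‖q' + t' - q‖ + ‖q' + t - q‖ := by
        have : t' - t = (q' + t' - q) - (q' + t - q) := by ring
        rw [this]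
        exact norm_sub_le _ _
      linarith
  · push Not at h
    exact ⟨min a b / 2, by positivity, fun t ht hne => h t ht hne⟩

theorem BUq_disc2 {a b : ℝ} (ha : 0 < a) (hb : 0 < b) (q : ℂ) (Q : Finset ℂ) :
    ∃ r, 0 < r ∧ ∀ q' ∈ Q, ∀ t, Lat a b t → q' + t ≠ q → r ≤ ‖q' + t - q‖ := by
  have : ∀ᶠ r in 𝓝[>] (0 : ℝ), ∀ q' ∈ Q, ∀ t, Lat a b t → q' + t ≠ q →
      r ≤ ‖q' + t - q‖ := by
    rw [Filter.eventually_all_finset]
    intro q' _
    obtain ⟨r, hr, h⟩ := BUq_disc ha hb q q'
    filter_upwards [Ioo_mem_nhdsGT hr] with x hx t ht hne using hx.2.le.trans (h t ht hne)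
  obtain ⟨r1, h, hpos⟩ := (this.and self_mem_nhdsWithin).exists
  exact ⟨r1, hpos, h⟩

theorem BUq_ms (f : ℂ → ℝ) (q : ℂ) (s : ℝ) :
    ms s (fun z => f (q + z)) = ∫ z in ball q s, f z := by
  have h := (measurePreserving_add_left (volume : Measure ℂ) q).setIntegral_preimage_emb
    (measurableEmbedding_addLeft q) f (ball q s)
  have h2 : (fun x : ℂ => q + x) ⁻¹' ball q s = ball 0 s := by
    ext x
    simp [dist_eq_norm]
  rw [h2] at h
  exact h

theorem BUq_int {f : ℂ → ℝ} (hf : Continuous f) {S : Set ℂ} {q : ℂ} {T : ℝ}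
    (h : S ⊆ closedBall q T) : IntegrableOn f S :=
  (hf.continuousOn.integrableOn_compact (isCompact_closedBall q T)).mono_set h

theorem BUq_rect {a b : ℝ} (q : ℂ) : rect a b q ⊆ closedBall q (a / 2 + b / 2) := by
  intro z hz
  rw [mem_closedBall, dist_eq_norm]
  have h := Complex.norm_le_abs_re_add_abs_im (z - q)
  simp only [Complex.sub_re, Complex.sub_im] at h
  have h1 := hz.1
  have h2 := hz.2
  linarith

theorem BUq_ball {a b r : ℝ} (q : ℂ) (h1 : r ≤ a / 2) (h2 : r ≤ b / 2) :
    ball q r ⊆ rect a b q := by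
  intro z hz
  rw [mem_ball, dist_eq_norm] at hz
  have h3 := Complex.abs_re_le_norm (z - q)
  have h4 := Complex.abs_im_le_norm (z - q)
  simp only [Complex.sub_re, Complex.sub_im] at h3 h4
  exact ⟨by linarith, by linarith⟩

theorem pr_BUq (h1 : S_LocRep) (h2 : S_OffK) (h3 : S_QuantE) (h4 : S_GHw) (h5 : S_Ti) :
    S_BUq := by
  intro a b F m p n ρ v c Q hS hG hQ hconc hc q hq
  have ha := hS.th.apos
  have hb := hS.th.bpos
  obtain ⟨⟨hwc, hwp, hw0, ⟨Ch, hCh⟩, -⟩, -⟩ := h4 a b F m p n hS.th hS.dist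
  have hCh0 : 0 ≤ Ch := (hw0 0).trans (hCh 0)
  have Ec : ∀ j, Continuous (dE a b F p n (v j)) := fun j =>
    hwc.mul (Real.continuous_exp.comp (hS.sol j).cont)
  have E0 : ∀ j z, 0 ≤ dE a b F p n (v j) z := fun j z =>
    mul_nonneg (hw0 z) (Real.exp_pos _).le
  have Ep : ∀ j, Per a b (dE a b F p n (v j)) := by
    intro j z
    have h6 := (hS.sol j).per z
    exact ⟨by simp only [dE, (hwp z).1, h6.1], by simp only [dE, (hwp z).2, h6.2]⟩
  obtain ⟨r1, hr1, hdisc⟩ := BUq_disc2 ha hb q Q
  obtain ⟨r2, hr2, hloc⟩ := h1 a b F m p n hS.th hS.dist q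
  refine ⟨min r2 (min (min a b / 8) (r1 / 4)), by positivity, fun r hr hrr => ?_⟩
  have hrr2 : r ≤ r2 := hrr.trans (min_le_left _ _)
  have hrab : r ≤ min a b / 8 := hrr.trans ((min_le_right _ _).trans (min_le_left _ _))
  have hra : r ≤ a / 8 := hrab.trans (by have := min_le_left a b; linarith)
  have hrb : r ≤ b / 8 := hrab.trans (by have := min_le_right a b; linarith)
  have hrr1 : r ≤ r1 / 4 := hrr.trans ((min_le_right _ _).trans (min_le_right _ _))
  obtain ⟨C0, hC0⟩ := hloc r hr hrr2
  -- bounds off the concentration point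
  have key : ∀ s, 0 < s → s ≤ r → ∃ C : ℝ, ∀ᶠ j in atTop, ∀ y, s ≤ ‖y - q‖ → ‖y - q‖ ≤ 2 * r →
      dE a b F p n (v j) y ≤ C * Real.exp (c j) := by
    intro s hs hsr
    obtain ⟨C, hC⟩ := h2 a b F m p n ρ v c Q hS hG s hs
    refine ⟨Ch * Real.exp C, ?_⟩
    filter_upwards [hC] with j hj y hy1 hy2
    have h6 : |v j y - c j| ≤ C := by
      apply hj y
      intro q' hq' t ht
      by_cases he : q' + t = q
      · have : y - q' - t = y - q := by rw [← he]; ring
        rw [this]
        exact hy1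
      · have h7 := hdisc q' hq' t ht he
        have h8 : ‖q' + t - q‖ ≤ ‖y - q‖ + ‖y - q' - t‖ := by
          have : q' + t - q = (y - q) - (y - q' - t) := by ring
          rw [this]
          exact norm_sub_le _ _
        linarith
    have h9 : v j y ≤ C + c j := by
      have := (abs_le.1 h6).2
      linarith
    calc dE a b F p n (v j) y ≤ Ch * Real.exp (C + c j) :=
          mul_le_mul (hCh y) (Real.exp_le_exp.2 h9) (Real.exp_pos _).le hCh0
      _ = Ch * Real.exp C * Real.exp (c j) := by rw [Real.exp_add]; ring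
  have hexp : Tendsto (fun j => Real.exp (c j)) atTop (𝓝 0) :=
    Real.tendsto_exp_atBot.comp hc
  -- the starting index
  obtain ⟨C1, hC1⟩ := key r hr le_rfl
  have hsm : ∀ᶠ j in atTop, C1 * Real.exp (c j) ≤ 1 := by
    have h6 : Tendsto (fun j => C1 * Real.exp (c j)) atTop (𝓝 0) := by
      simpa using hexp.const_mul C1
    exact (h6.eventually (eventually_lt_nhds one_pos)).mono fun j hj => hj.le
  obtain ⟨j0, hj0⟩ := eventually_atTop.1 (hC1.and hsm)
  have hK : ∀ j, ∀ y, r ≤ ‖y - q‖ → ‖y - q‖ ≤ 2 * r → dE a b F p n (v (j + j0)) y ≤ 1 := by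
    intro j y hy1 hy2
    obtain ⟨h6, h7⟩ := hj0 (j + j0) (Nat.le_add_left _ _)
    exact (h6 y hy1 hy2).trans h7
  have hex : ∀ j, ∃ h : ℂ → ℂ, Loc r (nq a b p n q) ((4 * π * Nv n - ρ (j + j0)) / (a * b)) h
      (fun z => dE a b F p n (v (j + j0)) (q + z)) ∧
      |2 * (h 0).re - c (j + j0)| ≤ C0 ∧ ∀ z ∈ ball (0 : ℂ) r, ‖deriv h z‖ ≤ C0 * (1 + 1) := by
    intro j
    obtain ⟨h, h6, h7, -, -, h8⟩ := hC0 (ρ (j + j0)) (v (j + j0)) (c (j + j0)) (hS.pos _)
      (hS.le _) (hS.sol _)
    exact ⟨h, h6, h7, h8 1 zero_le_one (hK j)⟩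
  choose h hL hh0 hhd using hex
  have hshift : Tendsto (fun j : ℕ => j + j0) atTop atTop := tendsto_add_atTop_nat j0
  have hlam : ∀ j, (4 * π * Nv n - ρ (j + j0)) / (a * b) ≤ 4 * π * Nv n / (a * b) := by
    intro j
    have := hS.pos (j + j0)
    gcongr
    linarith
  have het1 : ∀ j, Real.exp (c (j + j0)) ≤ Real.exp C0 * et (h j) := by
    intro j
    have h6 := (abs_le.1 (hh0 j)).1
    rw [et, ← Real.exp_add]
    exact Real.exp_le_exp.2 (by linarith)
  have het2 : ∀ j, et (h j) ≤ Real.exp C0 * Real.exp (c (j + j0)) := by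
    intro j
    have h6 := (abs_le.1 (hh0 j)).2
    rw [et, ← Real.exp_add]
    exact Real.exp_le_exp.2 (by linarith)
  have hmsE : ∀ j s, ms s (fun z => dE a b F p n (v (j + j0)) (q + z)) =
      ∫ z in ball q s, dE a b F p n (v (j + j0)) z := fun j s => BUq_ms _ q s
  refine ⟨j0, C0 * (1 + 1), 4 * π * Nv n / (a * b), C0, h, ⟨hL, hlam, hhd, ?_, ?_, ?_⟩, hh0⟩
  · -- out
    intro s hs
    rcases le_or_gt r s with hrs | hsr
    · refine ⟨0, fun j z hz hsz => ?_⟩
      rw [mem_ball_zero_iff] at hz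
      exact absurd hz (not_lt.2 (hrs.trans hsz))
    · apply BUq_unif (P := fun j C => ∀ z ∈ ball (0 : ℂ) r, s ≤ ‖z‖ →
        dE a b F p n (v (j + j0)) (q + z) ≤ C * et (h j))
      · intro j C C' hCC hP z hz hsz
        exact (hP z hz hsz).trans (mul_le_mul_of_nonneg_right hCC (Real.exp_pos _).le)
      · obtain ⟨C, hC⟩ := key s hs hsr.le
        refine ⟨|C| * Real.exp C0, ?_⟩
        filter_upwards [hshift.eventually hC] with j hj z hz hsz
        rw [mem_ball_zero_iff] at hz
        have h6 := hj (q + z) (by simpa using hsz) (by simp; linarith)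
        calc dE a b F p n (v (j + j0)) (q + z) ≤ C * Real.exp (c (j + j0)) := h6
          _ ≤ |C| * Real.exp (c (j + j0)) :=
            mul_le_mul_of_nonneg_right (le_abs_self C) (Real.exp_pos _).le
          _ ≤ |C| * (Real.exp C0 * et (h j)) :=
            mul_le_mul_of_nonneg_left (het1 j) (abs_nonneg _)
          _ = |C| * Real.exp C0 * et (h j) := by ring
      · intro j
        obtain ⟨M, hM⟩ := (isCompact_closedBall (0 : ℂ) r).exists_bound_of_continuousOn
          (f := fun z => dE a b F p n (v (j + j0)) (q + z))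
          ((Ec (j + j0)).comp (continuous_const.add continuous_id)).continuousOn
        refine ⟨M / et (h j), fun z hz _ => ?_⟩
        have h6 := hM z (ball_subset_closedBall hz)
        have h7 : 0 < et (h j) := Real.exp_pos _
        rw [div_mul_cancel₀ _ h7.ne']
        exact (le_abs_self _).trans h6
  · -- small
    have h6 : Tendsto (fun j => Real.exp C0 * Real.exp (c (j + j0))) atTop (𝓝 0) := by
      simpa using (hexp.comp hshift).const_mul (Real.exp C0)
    exact squeeze_zero (fun j => (Real.exp_pos _).le) het2 h6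
  · -- mass
    refine h3 r (C0 * (1 + 1)) (4 * π * Nv n / (a * b)) (4 * π * Nv n) (nq a b p n q)
      (fun j => (4 * π * Nv n - ρ (j + j0)) / (a * b)) h
      (fun j z => dE a b F p n (v (j + j0)) (q + z)) hL hlam ?_ ?_ ?_ ?_
    · intro j z hz
      exact hhd j z (ball_subset_ball (by linarith) hz)
    · intro j
      show ms r (fun z => dE a b F p n (v (j + j0)) (q + z)) ≤ _
      rw [hmsE]
      have h6 := h5 a b (dE a b F p n (v (j + j0))) ha hb (Ep _) q
      have h7 : ∫ z in ball q r, dE a b F p n (v (j + j0)) z ≤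
          ∫ z in rect a b q, dE a b F p n (v (j + j0)) z :=
        setIntegral_mono_set (BUq_int (Ec _) (BUq_rect q))
          (Eventually.of_forall fun z => E0 _ z)
          (LE.le.eventuallyLE (BUq_ball q (by linarith) (by linarith)))
      rw [h6.2.1, (hS.sol _).mass] at h7
      exact h7.trans (hS.le _)
    · intro s hs
      filter_upwards [hshift.eventually (hconc q hq s hs)] with j hj
      show 1 ≤ ms s (fun z => dE a b F p n (v (j + j0)) (q + z))
      rw [hmsE]
      exact hj
    · intro s hs hsr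
      obtain ⟨C, hC⟩ := key s hs hsr.le
      have h6 : Tendsto (fun j => |C| * (volume (ball q r)).toReal *
          Real.exp (c (j + j0))) atTop (𝓝 0) := by
        simpa using (hexp.comp hshift).const_mul (|C| * (volume (ball q r)).toReal)
      have h7 : ∀ j, ms r (fun z => dE a b F p n (v (j + j0)) (q + z)) -
          ms s (fun z => dE a b F p n (v (j + j0)) (q + z)) =
          ∫ z in ball q r \ ball q s, dE a b F p n (v (j + j0)) z := by
        intro j
        rw [hmsE, hmsE]
        rw [setIntegral_sdiff measurableSet_ball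
          (BUq_int (Ec _) ball_subset_closedBall) (ball_subset_ball hsr.le)]
      refine squeeze_zero' (Eventually.of_forall fun j => ?_) ?_ h6
      · show 0 ≤ ms r (fun z => dE a b F p n (v (j + j0)) (q + z)) -
          ms s (fun z => dE a b F p n (v (j + j0)) (q + z))
        rw [h7]
        exact setIntegral_nonneg (measurableSet_ball.diff measurableSet_ball)
          fun z _ => E0 _ z
      · filter_upwards [hshift.eventually hC] with j hj
        show ms r (fun z => dE a b F p n (v (j + j0)) (q + z)) -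
          ms s (fun z => dE a b F p n (v (j + j0)) (q + z)) ≤ _
        rw [h7]
        have h8 : ∀ z ∈ ball q r \ ball q s,
            dE a b F p n (v (j + j0)) z ≤ |C| * Real.exp (c (j + j0)) := by
          intro z hz
          have h9 : ‖z - q‖ < r := by
            have := hz.1
            rwa [mem_ball, dist_eq_norm] at this
          have h10 : s ≤ ‖z - q‖ := by
            have := hz.2
            rwa [mem_ball, dist_eq_norm, not_lt] at this
          exact (hj z h10 (by linarith)).trans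
            (mul_le_mul_of_nonneg_right (le_abs_self C) (Real.exp_pos _).le)
        have hfin : volume (ball q r \ ball q s) ≠ ⊤ :=
          ne_top_of_le_ne_top (measure_ball_lt_top (μ := volume) (x := q) (r := r)).ne
            (measure_mono sdiff_subset)
        calc ∫ z in ball q r \ ball q s, dE a b F p n (v (j + j0)) z
            ≤ ∫ z in ball q r \ ball q s, |C| * Real.exp (c (j + j0)) := by
              refine setIntegral_mono_on (BUq_int (Ec _)
                (sdiff_subset.trans ball_subset_closedBall)) ?_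
                (measurableSet_ball.diff measurableSet_ball) h8
              exact integrableOn_const hfin
          _ = (volume (ball q r \ ball q s)).toReal * (|C| * Real.exp (c (j + j0))) := by
              rw [setIntegral_const, smul_eq_mul, Measure.real]
          _ ≤ (volume (ball q r)).toReal * (|C| * Real.exp (c (j + j0))) := by
              refine mul_le_mul_of_nonneg_right ?_ (by positivity)
              exact ENNReal.toReal_mono (measure_ball_lt_top).ne (measure_mono sdiff_subset)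
          _ = |C| * (volume (ball q r)).toReal * Real.exp (c (j + j0)) := by ring

end Pool.Agent.Vx

end
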