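import Pool.Agent.Work.MP_afe918_an.Bd.B01
import Pool.Agent.Work.MP_afe918_an.Bd.B02

/-! Bundle of small proof modules (one section per former module). -/

section

/-!
# MP_afe918_an, item Vorth: orthogonality of the Fourier modes on the torus
-/

set_option autoImplicit false

open Complex Set Filter Topology MeasureTheory Metric
open scoped Real ContDiff

namespace Pool.Agent.Vx

theorem V_orth_int {a b : ℝ} {f : ℂ → ℝ} (hf : Continuous f) : IntegrableOn f (rect a b 0) := by
  refine (hf.continuousOn.integrableOn_compact (isCompact_closedBall (0 : ℂ) (a / 2 + b / 2))).mono_set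
    ?_
  intro z hz
  have h1 : |z.re - (0 : ℂ).re| < a / 2 := hz.1
  have h2 : |z.im - (0 : ℂ).im| < b / 2 := hz.2
  rw [Complex.zero_re, sub_zero] at h1
  rw [Complex.zero_im, sub_zero] at h2
  rw [mem_closedBall_zero_iff]
  exact (Complex.norm_le_abs_re_add_abs_im z).trans (by linarith)

theorem V_orth_add {a b : ℝ} {f g : ℂ → ℝ} (hf : Continuous f) (hg : Continuous g) :
    ti a b (fun z => f z + g z) = ti a b f + ti a b g :=
  integral_add (V_orth_int hf) (V_orth_int hg)

theorem V_orth_sub {a b : ℝ} {f g : ℂ → ℝ} (hf : Continuous f) (hg : Continuous g) :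
    ti a b (fun z => f z - g z) = ti a b f - ti a b g :=
  integral_sub (V_orth_int hf) (V_orth_int hg)

theorem V_orth_mul {a b : ℝ} (c : ℝ) (f : ℂ → ℝ) :
    ti a b (fun z => c * f z) = c * ti a b f :=
  integral_const_mul c f

theorem V_orth_prod (a b : ℝ) (g h : ℝ → ℝ) :
    ti a b (fun z => g z.re * h z.im) =
      (∫ x in Ioo (-(a / 2)) (a / 2), g x) * ∫ y in Ioo (-(b / 2)) (b / 2), h y := by
  have hr : rect a b 0 = Complex.measurableEquivRealProd ⁻¹'
      (Ioo (-(a / 2)) (a / 2) ×ˢ Ioo (-(b / 2)) (b / 2)) := by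
    ext z
    simp only [rect, mem_ofPred_eq, mem_preimage, mem_prod, mem_Ioo,
      Complex.measurableEquivRealProd_apply, Complex.zero_re, Complex.zero_im, sub_zero, abs_lt]
  unfold ti
  rw [hr]
  have := Complex.volume_preserving_equiv_real_prod.setIntegral_preimage_emb
    Complex.measurableEquivRealProd.measurableEmbedding (fun p : ℝ × ℝ => g p.1 * h p.2)
    (Ioo (-(a / 2)) (a / 2) ×ˢ Ioo (-(b / 2)) (b / 2))
  simp only [Complex.measurableEquivRealProd_apply] at this
  rw [this]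
  exact setIntegral_prod_mul g h _ _

theorem V_orth_cos {a : ℝ} (ha : 0 < a) (k : ℤ) :
    ∫ x in Ioo (-(a / 2)) (a / 2), Real.cos (2 * π * (k * x / a)) = if k = 0 then a else 0 := by
  rw [← integral_Ioc_eq_integral_Ioo,
    ← intervalIntegral.integral_of_le (by linarith : -(a / 2) ≤ a / 2)]
  by_cases hk : k = 0
  · subst hk
    simp
  · rw [if_neg hk]
    have hk' : (k : ℝ) ≠ 0 := by exact_mod_cast hk
    have hc : 2 * π * k / a ≠ 0 := by positivity
    have e : (fun x : ℝ => Real.cos (2 * π * (k * x / a))) =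
        fun x => Real.cos (2 * π * k / a * x) := by
      funext x; congr 1; ring
    rw [e, intervalIntegral.integral_comp_mul_left (fun x => Real.cos x) hc, integral_cos]
    have e1 : 2 * π * k / a * (a / 2) = k * π := by field_simp
    have e2 : 2 * π * k / a * (-(a / 2)) = -(k * π) := by field_simp
    rw [e1, e2, Real.sin_neg, Real.sin_int_mul_pi]
    simp

theorem V_orth_sin {a : ℝ} (k : ℤ) :
    ∫ x in Ioo (-(a / 2)) (a / 2), Real.sin (2 * π * (k * x / a)) = 0 := by
  by_cases ha : 0 < a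
  · rw [← integral_Ioc_eq_integral_Ioo,
      ← intervalIntegral.integral_of_le (by linarith : -(a / 2) ≤ a / 2)]
    have h := intervalIntegral.integral_comp_neg (a := -(a / 2)) (b := a / 2)
      (fun x : ℝ => Real.sin (2 * π * (k * x / a)))
    rw [neg_neg] at h
    have e : ∀ x : ℝ, Real.sin (2 * π * (k * -x / a)) = -Real.sin (2 * π * (k * x / a)) := by
      intro x
      rw [← Real.sin_neg]
      congr 1; ring
    simp only [e] at h
    rw [intervalIntegral.integral_neg] at h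
    linarith
  · rw [Ioo_eq_empty (by linarith), Measure.restrict_empty, integral_zero_measure]

theorem V_orth_ph (a b : ℝ) (ξ : ℤ × ℤ) (z : ℂ) :
    ph a b ξ z = 2 * π * (ξ.1 * z.re / a) + 2 * π * (ξ.2 * z.im / b) := by
  unfold ph; ring

theorem V_orth_phc (a b : ℝ) (ξ : ℤ × ℤ) : Continuous (ph a b ξ) := by
  unfold ph
  have h1 : Continuous fun z : ℂ => z.re := Complex.continuous_re
  have h2 : Continuous fun z : ℂ => z.im := Complex.continuous_im
  exact continuous_const.mul (((continuous_const.mul h1).div_const a).add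
    ((continuous_const.mul h2).div_const b))

theorem V_orth_tcos {a b : ℝ} (ha : 0 < a) (hb : 0 < b) (ξ : ℤ × ℤ) :
    ti a b (fun z => Real.cos (ph a b ξ z)) = if ξ = 0 then a * b else 0 := by
  have h1 : Continuous fun z : ℂ => z.re := Complex.continuous_re
  have h2 : Continuous fun z : ℂ => z.im := Complex.continuous_im
  have e : (fun z : ℂ => Real.cos (ph a b ξ z)) = fun z : ℂ =>
      Real.cos (2 * π * (ξ.1 * z.re / a)) * Real.cos (2 * π * (ξ.2 * z.im / b)) -
      Real.sin (2 * π * (ξ.1 * z.re / a)) * Real.sin (2 * π * (ξ.2 * z.im / b)) := by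
    funext z
    rw [V_orth_ph, Real.cos_add]
  have c1 : Continuous fun z : ℂ => 2 * π * ((ξ.1 : ℝ) * z.re / a) :=
    continuous_const.mul ((continuous_const.mul h1).div_const a)
  have c2 : Continuous fun z : ℂ => 2 * π * ((ξ.2 : ℝ) * z.im / b) :=
    continuous_const.mul ((continuous_const.mul h2).div_const b)
  rw [e, V_orth_sub (f := fun z : ℂ =>
      Real.cos (2 * π * (ξ.1 * z.re / a)) * Real.cos (2 * π * (ξ.2 * z.im / b)))
      (g := fun z : ℂ =>
      Real.sin (2 * π * (ξ.1 * z.re / a)) * Real.sin (2 * π * (ξ.2 * z.im / b)))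
      ((Real.continuous_cos.comp c1).mul (Real.continuous_cos.comp c2))
      ((Real.continuous_sin.comp c1).mul (Real.continuous_sin.comp c2)),
    V_orth_prod a b (fun x => Real.cos (2 * π * (ξ.1 * x / a)))
      (fun x => Real.cos (2 * π * (ξ.2 * x / b))),
    V_orth_prod a b (fun x => Real.sin (2 * π * (ξ.1 * x / a)))
      (fun x => Real.sin (2 * π * (ξ.2 * x / b))),
    V_orth_cos ha, V_orth_cos hb, V_orth_sin, V_orth_sin]
  by_cases hx : ξ = 0
  · subst hx; simp
  · rw [if_neg hx]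
    by_cases h1 : ξ.1 = 0
    · have h2 : ξ.2 ≠ 0 := fun h2 => hx (Prod.ext h1 h2)
      simp [h2]
    · simp [h1]

theorem V_orth_tsin {a b : ℝ} (ξ : ℤ × ℤ) :
    ti a b (fun z => Real.sin (ph a b ξ z)) = 0 := by
  have h1 : Continuous fun z : ℂ => z.re := Complex.continuous_re
  have h2 : Continuous fun z : ℂ => z.im := Complex.continuous_im
  have e : (fun z : ℂ => Real.sin (ph a b ξ z)) = fun z : ℂ =>
      Real.sin (2 * π * (ξ.1 * z.re / a)) * Real.cos (2 * π * (ξ.2 * z.im / b)) +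
      Real.cos (2 * π * (ξ.1 * z.re / a)) * Real.sin (2 * π * (ξ.2 * z.im / b)) := by
    funext z
    rw [V_orth_ph, Real.sin_add]
  have c1 : Continuous fun z : ℂ => 2 * π * ((ξ.1 : ℝ) * z.re / a) :=
    continuous_const.mul ((continuous_const.mul h1).div_const a)
  have c2 : Continuous fun z : ℂ => 2 * π * ((ξ.2 : ℝ) * z.im / b) :=
    continuous_const.mul ((continuous_const.mul h2).div_const b)
  rw [e, V_orth_add (f := fun z : ℂ =>
      Real.sin (2 * π * (ξ.1 * z.re / a)) * Real.cos (2 * π * (ξ.2 * z.im / b)))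
      (g := fun z : ℂ =>
      Real.cos (2 * π * (ξ.1 * z.re / a)) * Real.sin (2 * π * (ξ.2 * z.im / b)))
      ((Real.continuous_sin.comp c1).mul (Real.continuous_cos.comp c2))
      ((Real.continuous_cos.comp c1).mul (Real.continuous_sin.comp c2)),
    V_orth_prod a b (fun x => Real.sin (2 * π * (ξ.1 * x / a)))
      (fun x => Real.cos (2 * π * (ξ.2 * x / b))),
    V_orth_prod a b (fun x => Real.cos (2 * π * (ξ.1 * x / a)))
      (fun x => Real.sin (2 * π * (ξ.2 * x / b))),
    V_orth_sin, V_orth_sin]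
  simp

theorem V_orth_phadd (a b : ℝ) (ξ η : ℤ × ℤ) (z : ℂ) :
    ph a b (ξ + η) z = ph a b ξ z + ph a b η z := by
  unfold ph
  rw [Prod.fst_add, Prod.snd_add]
  push_cast
  ring

theorem V_orth_phsub (a b : ℝ) (ξ η : ℤ × ℤ) (z : ℂ) :
    ph a b (ξ - η) z = ph a b ξ z - ph a b η z := by
  unfold ph
  rw [Prod.fst_sub, Prod.snd_sub]
  push_cast
  ring

theorem V_orth_mdc (a b : ℝ) (i : (ℤ × ℤ) × Bool) : Continuous (md a b i) := by
  unfold md
  cases i.2
  · simp only [Bool.false_eq_true, if_false]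
    exact Real.continuous_cos.comp (V_orth_phc a b i.1)
  · simp only [if_true]
    exact Real.continuous_sin.comp (V_orth_phc a b i.1)

theorem V_orth_mdb (a b : ℝ) (i : (ℤ × ℤ) × Bool) (z : ℂ) : |md a b i z| ≤ 1 := by
  unfold md
  cases i.2
  · simpa using Real.abs_cos_le_one _
  · simpa using Real.abs_sin_le_one _

theorem V_orth_mdp {a b : ℝ} (ha : 0 < a) (hb : 0 < b) (i : (ℤ × ℤ) × Bool) :
    Per a b (md a b i) := by
  intro z
  have h1 : ph a b i.1 (z + a) = ph a b i.1 z + i.1.1 * (2 * π) := by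
    unfold ph
    simp only [Complex.add_re, Complex.add_im, Complex.ofReal_re, Complex.ofReal_im]
    field_simp
    ring
  have h2 : ph a b i.1 (z + b * I) = ph a b i.1 z + i.1.2 * (2 * π) := by
    unfold ph
    simp only [Complex.add_re, Complex.add_im, Complex.mul_re, Complex.mul_im, Complex.ofReal_re,
      Complex.ofReal_im, Complex.I_re, Complex.I_im]
    field_simp
    ring
  unfold md
  rw [h1, h2, Real.sin_add_int_mul_two_pi, Real.sin_add_int_mul_two_pi,
    Real.cos_add_int_mul_two_pi, Real.cos_add_int_mul_two_pi]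
  exact ⟨rfl, rfl⟩

theorem V_orth_hm {m : ℕ} (i : hm m) : 0 < i.1.1 ∨ (i.1.1 = 0 ∧ 0 < i.1.2) := by
  have := i.2
  unfold hm at this
  exact (Finset.mem_filter.1 this).2

theorem V_orth_ne {m : ℕ} (i : hm m) : (i.1 : ℤ × ℤ) ≠ 0 := by
  intro h
  have h' := V_orth_hm i
  rw [h] at h'
  simp at h'

theorem V_orth_addne {m : ℕ} (i j : hm m) : (i.1 + j.1 : ℤ × ℤ) ≠ 0 := by
  intro h
  have h1 := V_orth_hm i
  have h2 := V_orth_hm j
  have e1 : i.1.1 + j.1.1 = 0 := by simpa using congrArg Prod.fst h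
  have e2 : i.1.2 + j.1.2 = 0 := by simpa using congrArg Prod.snd h
  omega

/-- orthogonality -/
theorem V_orth_md {a b : ℝ} (ha : 0 < a) (hb : 0 < b) {m : ℕ} (i j : hm m × Bool) :
    ti a b (fun z => md a b (i.1.1, i.2) z * md a b (j.1.1, j.2) z) =
      if i = j then a * b / 2 else 0 := by
  obtain ⟨ξ, s⟩ := i
  obtain ⟨η, t⟩ := j
  have cs := (Real.continuous_cos.comp (V_orth_phc a b (ξ.1 - η.1)))
  have ca := (Real.continuous_cos.comp (V_orth_phc a b (ξ.1 + η.1)))
  have ss := (Real.continuous_sin.comp (V_orth_phc a b (ξ.1 - η.1)))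
  have sa := (Real.continuous_sin.comp (V_orth_phc a b (ξ.1 + η.1)))
  have t1 : ti a b (fun z => Real.cos (ph a b (ξ.1 + η.1) z)) = 0 := by
    rw [V_orth_tcos ha hb, if_neg (V_orth_addne ξ η)]
  have t2 : ti a b (fun z => Real.cos (ph a b (ξ.1 - η.1) z)) = if ξ = η then a * b else 0 := by
    rw [V_orth_tcos ha hb]
    by_cases h : ξ = η
    · rw [if_pos h, if_pos (by rw [h]; exact sub_self _)]
    · rw [if_neg h, if_neg (fun h' => h (Subtype.ext (sub_eq_zero.1 h')))]
  have t3 : ti a b (fun z => Real.sin (ph a b (ξ.1 + η.1) z)) = 0 := V_orth_tsin _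
  have t4 : ti a b (fun z => Real.sin (ph a b (ξ.1 - η.1) z)) = 0 := V_orth_tsin _
  have key : ∀ (x y : ℝ) (f g : ℂ → ℝ), Continuous f → Continuous g →
      ti a b (fun z => x * f z + y * g z) = x * ti a b f + y * ti a b g := by
    intro x y f g hf hg
    rw [V_orth_add (f := fun z => x * f z) (g := fun z => y * g z) (continuous_const.mul hf)
      (continuous_const.mul hg), V_orth_mul, V_orth_mul]
  cases s <;> cases t
  · have e : (fun z => md a b (ξ.1, false) z * md a b (η.1, false) z) = fun z =>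
        1 / 2 * Real.cos (ph a b (ξ.1 - η.1) z) + 1 / 2 * Real.cos (ph a b (ξ.1 + η.1) z) := by
      funext z
      simp only [md, Bool.false_eq_true, if_false]
      rw [V_orth_phsub, V_orth_phadd, Real.cos_sub, Real.cos_add]
      ring
    have := key (1 / 2) (1 / 2) _ _ cs ca
    simp only [Function.comp_apply] at this
    rw [e, this]
    change 1 / 2 * ti a b (fun z => Real.cos (ph a b (ξ.1 - η.1) z)) +
      1 / 2 * ti a b (fun z => Real.cos (ph a b (ξ.1 + η.1) z)) = _
    rw [t1, t2]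
    by_cases h : ξ = η
    · subst h; simp; ring
    · have h' : ¬ ((ξ, false) = (η, false)) := fun h' => h (congrArg Prod.fst h')
      rw [if_neg h, if_neg h']; simp
  · have e : (fun z => md a b (ξ.1, false) z * md a b (η.1, true) z) = fun z =>
        1 / 2 * Real.sin (ph a b (ξ.1 + η.1) z) + -(1 / 2) * Real.sin (ph a b (ξ.1 - η.1) z) := by
      funext z
      simp only [md, Bool.false_eq_true, if_false, if_true]
      rw [V_orth_phsub, V_orth_phadd, Real.sin_sub, Real.sin_add]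
      ring
    have := key (1 / 2) (-(1 / 2)) _ _ sa ss
    simp only [Function.comp_apply] at this
    rw [e, this]
    change 1 / 2 * ti a b (fun z => Real.sin (ph a b (ξ.1 + η.1) z)) +
      -(1 / 2) * ti a b (fun z => Real.sin (ph a b (ξ.1 - η.1) z)) = _
    rw [t3, t4]
    have h' : ¬ ((ξ, false) = (η, true)) := fun h' => by
      have := congrArg Prod.snd h'
      simp at this
    rw [if_neg h']; simp
  · have e : (fun z => md a b (ξ.1, true) z * md a b (η.1, false) z) = fun z =>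
        1 / 2 * Real.sin (ph a b (ξ.1 + η.1) z) + 1 / 2 * Real.sin (ph a b (ξ.1 - η.1) z) := by
      funext z
      simp only [md, Bool.false_eq_true, if_false, if_true]
      rw [V_orth_phsub, V_orth_phadd, Real.sin_sub, Real.sin_add]
      ring
    have := key (1 / 2) (1 / 2) _ _ sa ss
    simp only [Function.comp_apply] at this
    rw [e, this]
    change 1 / 2 * ti a b (fun z => Real.sin (ph a b (ξ.1 + η.1) z)) +
      1 / 2 * ti a b (fun z => Real.sin (ph a b (ξ.1 - η.1) z)) = _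
    rw [t3, t4]
    have h' : ¬ ((ξ, true) = (η, false)) := fun h' => by
      have := congrArg Prod.snd h'
      simp at this
    rw [if_neg h']; simp
  · have e : (fun z => md a b (ξ.1, true) z * md a b (η.1, true) z) = fun z =>
        1 / 2 * Real.cos (ph a b (ξ.1 - η.1) z) + -(1 / 2) * Real.cos (ph a b (ξ.1 + η.1) z) := by
      funext z
      simp only [md, if_true]
      rw [V_orth_phsub, V_orth_phadd, Real.cos_sub, Real.cos_add]
      ring
    have := key (1 / 2) (-(1 / 2)) _ _ cs ca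
    simp only [Function.comp_apply] at this
    rw [e, this]
    change 1 / 2 * ti a b (fun z => Real.cos (ph a b (ξ.1 - η.1) z)) +
      -(1 / 2) * ti a b (fun z => Real.cos (ph a b (ξ.1 + η.1) z)) = _
    rw [t1, t2]
    by_cases h : ξ = η
    · subst h; simp; ring
    · have h' : ¬ ((ξ, true) = (η, true)) := fun h' => h (congrArg Prod.fst h')
      rw [if_neg h, if_neg h']; simp

theorem V_orth_zero {a b : ℝ} (ha : 0 < a) (hb : 0 < b) {m : ℕ} (i : hm m × Bool) :
    ti a b (md a b (i.1.1, i.2)) = 0 := by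
  obtain ⟨ξ, s⟩ := i
  cases s
  · have := V_orth_tcos ha hb ξ.1
    rw [if_neg (V_orth_ne ξ)] at this
    rw [← this]
    congr 1
  · have := V_orth_tsin (a := a) (b := b) ξ.1
    rw [← this]
    congr 1

theorem V_orth_sum {a b : ℝ} {ι : Type} (S : Finset ι) (c : ι → ℝ) (f : ι → ℂ → ℝ)
    (hf : ∀ i, Continuous (f i)) :
    ti a b (fun z => ∑ i ∈ S, c i * f i z) = ∑ i ∈ S, c i * ti a b (f i) := by
  unfold ti
  have h := integral_finsetSum (μ := volume.restrict (rect a b 0)) S
    (f := fun i z => c i * f i z)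
    (fun i _ => V_orth_int (a := a) (b := b) (continuous_const.mul (hf i)))
  rw [h]
  exact Finset.sum_congr rfl fun i _ => integral_const_mul _ _

theorem pr_V_orth : V_orth := by
  intro a b ha hb m
  refine ⟨fun i => V_orth_zero ha hb i, fun i j => V_orth_md ha hb i j, ?_⟩
  intro c
  have hc : Continuous (tp a b m c) := by
    unfold tp
    exact continuous_finsetSum _ fun i _ => continuous_const.mul (V_orth_mdc a b _)
  refine ⟨⟨hc.measurable, ?_, ∑ i, |c i|, ?_⟩, hc, ?_, ?_⟩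
  · intro z
    unfold tp
    constructor
    · exact Finset.sum_congr rfl fun i _ => by rw [(V_orth_mdp ha hb _ z).1]
    · exact Finset.sum_congr rfl fun i _ => by rw [(V_orth_mdp ha hb _ z).2]
  · intro z
    unfold tp
    refine (Finset.abs_sum_le_sum_abs _ _).trans (Finset.sum_le_sum fun i _ => ?_)
    rw [abs_mul]
    exact mul_le_of_le_one_right (abs_nonneg _) (V_orth_mdb a b _ z)
  · have := V_orth_sum (a := a) (b := b) Finset.univ (fun i : hm m × Bool => c i)
      (fun i => md a b (i.1.1, i.2)) (fun i => V_orth_mdc a b _)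
    unfold tp
    rw [this]
    exact Finset.sum_eq_zero fun i _ => by rw [V_orth_zero ha hb, mul_zero]
  · intro i
    have e : (fun z => tp a b m c z * md a b (i.1.1, i.2) z) = fun z =>
        ∑ j : hm m × Bool, c j * (md a b (j.1.1, j.2) z * md a b (i.1.1, i.2) z) := by
      funext z
      unfold tp
      rw [Finset.sum_mul]
      exact Finset.sum_congr rfl fun j _ => mul_assoc _ _ _
    rw [e, V_orth_sum (a := a) (b := b) Finset.univ (fun i : hm m × Bool => c i)
      (fun j z => md a b (j.1.1, j.2) z * md a b (i.1.1, i.2) z)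
      (fun j => (V_orth_mdc a b _).mul (V_orth_mdc a b _))]
    simp only [V_orth_md ha hb]
    rw [Finset.sum_eq_single i]
    · rw [if_pos rfl, mul_comm]
    · intro j _ hj
      rw [if_neg hj, mul_zero]
    · intro h
      exact absurd (Finset.mem_univ i) h

end Pool.Agent.Vx

end

section

/-!
# MP_afe918_an: regularity of the test functions (item Vreg)
-/

set_option autoImplicit false

open Complex Set Filter Topology MeasureTheory Metric
open scoped Real ContDiff

namespace Pool.Agent.Vx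

theorem V_reg_Dd (a b y0 : ℝ) : Continuous (fun q : ℂ × ℝ => Dd a b y0 q.1 q.2) := by
  unfold Dd
  fun_prop

theorem V_reg_one_le (a b y0 L : ℝ) (x : ℂ) (t : ℝ) : 1 ≤ 1 + L ^ 2 * Dd a b y0 x t := by
  have : 0 ≤ L ^ 2 * Dd a b y0 x t := by
    unfold Dd
    positivity
  linarith

theorem V_reg_kp (a b y0 L : ℝ) : Continuous (fun q : ℂ × ℝ => kp a b y0 L q.1 q.2) := by
  unfold kp
  apply Continuous.pow
  apply Continuous.div continuous_const
  · exact continuous_const.add (continuous_const.mul (V_reg_Dd a b y0))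
  · intro q
    linarith [V_reg_one_le a b y0 L q.1 q.2]

theorem V_reg_kpx (a b y0 L : ℝ) : Continuous (fun q : ℂ × ℝ => kpx a b y0 L q.1 q.2) := by
  unfold kpx
  apply Continuous.div
  · fun_prop
  · exact (continuous_const.add (continuous_const.mul (V_reg_Dd a b y0))).pow 3
  · intro q
    have := V_reg_one_le a b y0 L q.1 q.2
    positivity

theorem V_reg_kpy (a b y0 L : ℝ) : Continuous (fun q : ℂ × ℝ => kpy a b y0 L q.1 q.2) := by
  unfold kpy
  apply Continuous.div
  · fun_prop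
  · exact (continuous_const.add (continuous_const.mul (V_reg_Dd a b y0))).pow 3
  · intro q
    have := V_reg_one_le a b y0 L q.1 q.2
    positivity

theorem V_reg_cm (a : ℝ) {k : ℕ} (i : Fin k × Bool) : Continuous (cm a i) := by
  unfold cm
  split_ifs
  · fun_prop
  · fun_prop

theorem V_reg_Tc (a : ℝ) {k : ℕ} : Continuous (fun q : Pa k × ℝ => Tc a q.1 q.2) := by
  unfold Tc
  apply continuous_finsetSum
  intro i _
  apply Continuous.mul
  · fun_prop
  · exact (V_reg_cm a i).comp continuous_snd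

/-- joint continuity of the integral -/
theorem V_reg_si {a β : ℝ} (ha : 0 < a) {k : ℕ} {f : ℂ → ℝ → ℝ}
    (hf : Continuous (fun q : ℂ × ℝ => f q.1 q.2)) :
    Continuous (fun q : Pa k × ℂ => si a β q.1 (f q.2)) := by
  have h1 : ∀ q : Pa k × ℂ, si a β q.1 (f q.2) =
      ∫ t in (0 : ℝ)..a, f q.2 t * Real.exp (β * Tc a q.1 t) := by
    intro q
    unfold si
    rw [intervalIntegral.integral_of_le ha.le]
  simp_rw [h1]
  apply intervalIntegral.continuous_parametric_intervalIntegral_of_continuous' (μ := volume)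
  have h2 : Continuous (fun q : (Pa k × ℂ) × ℝ => f q.1.2 q.2) :=
    hf.comp (by fun_prop : Continuous (fun q : (Pa k × ℂ) × ℝ => (q.1.2, q.2)))
  have h3 : Continuous (fun q : (Pa k × ℂ) × ℝ => Tc a q.1.1 q.2) :=
    (V_reg_Tc a).comp (by fun_prop : Continuous (fun q : (Pa k × ℂ) × ℝ => (q.1.1, q.2)))
  exact h2.mul (Real.continuous_exp.comp (continuous_const.mul h3))

theorem V_reg_si_pos {a β : ℝ} (ha : 0 < a) {k : ℕ} (c : Pa k) {f : ℝ → ℝ} (hf : Continuous f)
    (hpos : ∀ t, 0 < f t) : 0 < si a β c f := by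
  have h3 : Continuous (fun t : ℝ => Tc a c t) :=
    (V_reg_Tc a).comp (by fun_prop : Continuous (fun t : ℝ => (c, t)))
  have h1 : si a β c f = ∫ t in (0 : ℝ)..a, f t * Real.exp (β * Tc a c t) := by
    unfold si
    rw [intervalIntegral.integral_of_le ha.le]
  rw [h1]
  apply intervalIntegral.intervalIntegral_pos_of_pos _ _ ha
  · exact (hf.mul (Real.continuous_exp.comp (continuous_const.mul h3))).intervalIntegrable _ _
  · intro t
    exact mul_pos (hpos t) (Real.exp_pos _)

/-- derivative under the integral -/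
theorem V_reg_deriv {a β M : ℝ} {k : ℕ} (c : Pa k) {G G' : ℝ → ℝ → ℝ}
    (hG : ∀ s, Continuous (G s)) (hG' : ∀ s, Continuous (G' s)) (hM : ∀ s t, |G' s t| ≤ M)
    (hd : ∀ s t, HasDerivAt (fun s' => G s' t) (G' s t) s) :
    HasDerivAt (fun s => si a β c (G s)) (si a β c (G' 0)) 0 := by
  have h3 : Continuous (fun t : ℝ => Real.exp (β * Tc a c t)) :=
    Real.continuous_exp.comp (continuous_const.mul ((V_reg_Tc a).comp
      (by fun_prop : Continuous (fun t : ℝ => (c, t)))))
  have hint : ∀ f : ℝ → ℝ, Continuous f →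
      Integrable (fun t => f t * Real.exp (β * Tc a c t)) (volume.restrict (Ioc 0 a)) := by
    intro f hf
    exact ((hf.mul h3).continuousOn.integrableOn_compact (isCompact_Icc (a := 0) (b := a))).mono_set
      Ioc_subset_Icc_self
  unfold si
  have := hasDerivAt_integral_of_dominated_loc_of_deriv_le
    (F := fun s t => G s t * Real.exp (β * Tc a c t))
    (F' := fun s t => G' s t * Real.exp (β * Tc a c t)) (x₀ := (0 : ℝ))
    (bound := fun t => M * Real.exp (β * Tc a c t)) (μ := volume.restrict (Ioc 0 a))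
    (s := univ) Filter.univ_mem
    (Filter.Eventually.of_forall fun s => (hint _ (hG s)).aestronglyMeasurable) (hint _ (hG 0))
    (hint _ (hG' 0)).aestronglyMeasurable
    (Filter.Eventually.of_forall fun t s _ => by
      rw [Real.norm_eq_abs, abs_mul, abs_of_pos (Real.exp_pos _)]
      exact mul_le_mul_of_nonneg_right (hM s t) (Real.exp_pos _).le)
    (hint (fun _ => M) continuous_const)
    (Filter.Eventually.of_forall fun t s _ => (hd s t).mul_const _)
  exact this.2

theorem V_reg_bdx (a b y0 L : ℝ) (ha : 0 < a) (x : ℂ) (t : ℝ) :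
    |kpx a b y0 L x t| ≤ 4 * L ^ 4 * (a / π) := by
  unfold kpx
  have hpi := Real.pi_pos
  have h1 := V_reg_one_le a b y0 L x t
  have h2 : (1 : ℝ) ≤ (1 + L ^ 2 * Dd a b y0 x t) ^ 3 := one_le_pow₀ h1
  rw [abs_div, abs_of_pos (by linarith : (0 : ℝ) < (1 + L ^ 2 * Dd a b y0 x t) ^ 3)]
  refine (div_le_self (abs_nonneg _) h2).trans ?_
  set S := Real.sin (π * (x.re - t) / a)
  set C := Real.cos (π * (x.re - t) / a)
  have hS : |S| ≤ 1 := Real.abs_sin_le_one _
  have hC : |C| ≤ 1 := Real.abs_cos_le_one _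
  have e : -2 * L ^ 4 * (2 * (a / π) * S * C) = -(4 * L ^ 4 * (a / π)) * (S * C) := by ring
  rw [e, abs_mul, abs_neg, abs_of_nonneg (by positivity : 0 ≤ 4 * L ^ 4 * (a / π)), abs_mul]
  have h3 : |S| * |C| ≤ 1 := mul_le_one₀ hS (abs_nonneg _) hC
  calc 4 * L ^ 4 * (a / π) * (|S| * |C|) ≤ 4 * L ^ 4 * (a / π) * 1 := by gcongr
    _ = _ := mul_one _

theorem V_reg_bdy (a b y0 L : ℝ) (hb : 0 < b) (x : ℂ) (t : ℝ) :
    |kpy a b y0 L x t| ≤ 4 * L ^ 4 * (b / π) := by
  unfold kpy
  have hpi := Real.pi_pos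
  have h1 := V_reg_one_le a b y0 L x t
  have h2 : (1 : ℝ) ≤ (1 + L ^ 2 * Dd a b y0 x t) ^ 3 := one_le_pow₀ h1
  rw [abs_div, abs_of_pos (by linarith : (0 : ℝ) < (1 + L ^ 2 * Dd a b y0 x t) ^ 3)]
  refine (div_le_self (abs_nonneg _) h2).trans ?_
  set S := Real.sin (π * (x.im - y0) / b)
  set C := Real.cos (π * (x.im - y0) / b)
  have hS : |S| ≤ 1 := Real.abs_sin_le_one _
  have hC : |C| ≤ 1 := Real.abs_cos_le_one _
  have e : -2 * L ^ 4 * (2 * (b / π) * S * C) = -(4 * L ^ 4 * (b / π)) * (S * C) := by ring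
  rw [e, abs_mul, abs_neg, abs_of_nonneg (by positivity : 0 ≤ 4 * L ^ 4 * (b / π)), abs_mul]
  have h3 : |S| * |C| ≤ 1 := mul_le_one₀ hS (abs_nonneg _) hC
  calc 4 * L ^ 4 * (b / π) * (|S| * |C|) ≤ 4 * L ^ 4 * (b / π) * 1 := by gcongr
    _ = _ := mul_one _

theorem V_reg_per (a b y0 L : ℝ) (ha : 0 < a) (hb : 0 < b) (hD : V_D) (t : ℝ) :
    Per a b (fun x => kp a b y0 L x t) ∧ Per a b (fun x => kpx a b y0 L x t) ∧
      Per a b (fun x => kpy a b y0 L x t) := by
  have hper := (hD a b y0 ha hb).2.1 t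
  have h1 : ∀ z : ℂ, (z + (a : ℂ)).re = z.re + a := by intro z; simp
  have h2 : ∀ z : ℂ, (z + (a : ℂ)).im = z.im := by intro z; simp
  have h3 : ∀ z : ℂ, (z + (b : ℂ) * I).re = z.re := by intro z; simp
  have h4 : ∀ z : ℂ, (z + (b : ℂ) * I).im = z.im + b := by intro z; simp
  have h5 : ∀ z : ℂ, π * (z.re + a - t) / a = π * (z.re - t) / a + π := by
    intro z
    field_simp
    ring
  have h6 : ∀ z : ℂ, π * (z.im + b - y0) / b = π * (z.im - y0) / b + π := by
    intro z
    field_simp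
    ring
  have hpa : ∀ z : ℂ, Dd a b y0 (z + a) t = Dd a b y0 z t := fun z => (hper z).1
  have hpb : ∀ z : ℂ, Dd a b y0 (z + b * I) t = Dd a b y0 z t := fun z => (hper z).2
  refine ⟨fun z => ?_, fun z => ?_, fun z => ?_⟩
  · constructor
    · simp only [kp, hpa]
    · simp only [kp, hpb]
  · constructor
    · simp only [kpx, hpa, h1, h5, Real.sin_add_pi, Real.cos_add_pi]
      congr 1
      ring
    · simp only [kpx, hpb, h3]
  · constructor
    · simp only [kpy, hpa, h2]
    · simp only [kpy, hpb, h4, h6, Real.sin_add_pi, Real.cos_add_pi]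
      congr 1
      ring

/-- translate a one dimensional derivative -/
theorem V_reg_shift {g : ℝ → ℝ} {d s : ℝ} (h : HasDerivAt g d 0) :
    HasDerivAt (fun s' : ℝ => g (s' - s)) d s := by
  have h2 : HasDerivAt (fun s' : ℝ => s' - s) 1 s := (hasDerivAt_id s).sub_const s
  have h3 : HasDerivAt g d (s - s) := by rw [sub_self]; exact h
  have h4 : HasDerivAt (g ∘ fun s' : ℝ => s' - s) (d * 1) s :=
    HasDerivAt.comp (h₂ := g) (h := fun s' : ℝ => s' - s) s h3 h2
  rw [mul_one] at h4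
  exact h4

/-- the logarithm of a quotient of integrals -/
theorem V_reg_log {u : ℝ → ℝ} {u' v : ℝ} (hu : HasDerivAt u u' 0) (hu0 : 0 < u 0) (hv : 0 < v) :
    HasDerivAt (fun s => Real.log (u s / v)) (u' / u 0) 0 := by
  have h1 : HasDerivAt (fun s => u s / v) (u' / v) 0 := hu.div_const v
  have h2 : HasDerivAt (fun s => Real.log (u s / v)) (u' / v / (u 0 / v)) 0 :=
    HasDerivAt.log h1 (div_pos hu0 hv).ne'
  have h3 : u' / v / (u 0 / v) = u' / u 0 := by
    field_simp
  rw [h3] at h2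
  exact h2

theorem V_reg_kx (hkg : V_kg) {a b y0 L : ℝ} (ha : 0 < a) (hb : 0 < b)
    (hL : 0 < L) (z : ℂ) (s t : ℝ) : HasDerivAt (fun s' : ℝ => kp a b y0 L (z + (s' : ℂ)) t)
      (kpx a b y0 L (z + (s : ℂ)) t) s := by
  have h1 := (hkg a b y0 L ha hb hL (z + (s : ℂ)) t).2.2.1
  have h4 := V_reg_shift (s := s) h1
  have h5 : (fun s' : ℝ => kp a b y0 L (z + (s : ℂ) + ((s' - s : ℝ) : ℂ)) t) =
      fun s' : ℝ => kp a b y0 L (z + (s' : ℂ)) t := by
    funext s'
    have h6 : z + (s : ℂ) + ((s' - s : ℝ) : ℂ) = z + (s' : ℂ) := by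
      push_cast
      ring
    rw [h6]
  rw [h5] at h4
  exact h4

theorem V_reg_ky (hkg : V_kg) {a b y0 L : ℝ} (ha : 0 < a) (hb : 0 < b)
    (hL : 0 < L) (z : ℂ) (s t : ℝ) : HasDerivAt (fun s' : ℝ => kp a b y0 L (z + (s' : ℂ) * I) t)
      (kpy a b y0 L (z + (s : ℂ) * I) t) s := by
  have h1 := (hkg a b y0 L ha hb hL (z + (s : ℂ) * I) t).2.2.2
  have h4 := V_reg_shift (s := s) h1
  have h5 : (fun s' : ℝ => kp a b y0 L (z + (s : ℂ) * I + ((s' - s : ℝ) : ℂ) * I) t) =
      fun s' : ℝ => kp a b y0 L (z + (s' : ℂ) * I) t := by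
    funext s'
    have h6 : z + (s : ℂ) * I + ((s' - s : ℝ) : ℂ) * I = z + (s' : ℂ) * I := by
      push_cast
      ring
    rw [h6]
  rw [h5] at h4
  exact h4

theorem V_reg_ct {f : ℂ → ℝ → ℝ} (hf : Continuous (fun q : ℂ × ℝ => f q.1 q.2)) (x : ℂ) :
    Continuous (f x) :=
  hf.comp (by fun_prop : Continuous (fun t : ℝ => (x, t)))

theorem V_reg_sx (hkg : V_kg) {a b y0 L : ℝ} (β : ℝ) {k : ℕ} (ha : 0 < a) (hb : 0 < b)
    (hL : 0 < L) (c : Pa k) (z : ℂ) :
    HasDerivAt (fun s : ℝ => si a β c (kp a b y0 L (z + (s : ℂ))))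
      (si a β c (kpx a b y0 L (z + ((0 : ℝ) : ℂ)))) 0 :=
  V_reg_deriv (a := a) (β := β) (M := 4 * L ^ 4 * (a / π)) c
      (G := fun s => kp a b y0 L (z + (s : ℂ))) (G' := fun s => kpx a b y0 L (z + (s : ℂ)))
      (fun _ => V_reg_ct (V_reg_kp a b y0 L) _) (fun _ => V_reg_ct (V_reg_kpx a b y0 L) _)
      (fun _ t => V_reg_bdx a b y0 L ha _ t) (V_reg_kx hkg ha hb hL z)

theorem V_reg_sy (hkg : V_kg) {a b y0 L : ℝ} (β : ℝ) {k : ℕ} (ha : 0 < a) (hb : 0 < b)
    (hL : 0 < L) (c : Pa k) (z : ℂ) :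
    HasDerivAt (fun s : ℝ => si a β c (kp a b y0 L (z + (s : ℂ) * I)))
      (si a β c (kpy a b y0 L (z + ((0 : ℝ) : ℂ) * I))) 0 :=
  V_reg_deriv (a := a) (β := β) (M := 4 * L ^ 4 * (b / π)) c
      (G := fun s => kp a b y0 L (z + (s : ℂ) * I)) (G' := fun s => kpy a b y0 L (z + (s : ℂ) * I))
      (fun _ => V_reg_ct (V_reg_kp a b y0 L) _) (fun _ => V_reg_ct (V_reg_kpy a b y0 L) _)
      (fun _ t => V_reg_bdy a b y0 L hb _ t) (V_reg_ky hkg ha hb hL z)

theorem V_reg_dx (hkg : V_kg) {a b y0 L : ℝ} (β : ℝ) {k : ℕ} (ha : 0 < a) (hb : 0 < b)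
    (hL : 0 < L) (c : Pa k) (z : ℂ) (hkp : 0 < si a β c (kp a b y0 L z))
    (hone : 0 < si a β c (fun _ => 1)) :
    HasDerivAt (fun s : ℝ => tf a b y0 L β c (z + (s : ℂ))) (tfx a b y0 L β c z) 0 := by
  have hd := V_reg_sx hkg (y0 := y0) (β := β) ha hb hL c z
  have e0 : z + ((0 : ℝ) : ℂ) = z := by simp
  have hq := V_reg_log hd (by rw [e0]; exact hkp) hone
  simp only [e0] at hq
  unfold tf tfx
  exact hq

theorem V_reg_dy (hkg : V_kg) {a b y0 L : ℝ} (β : ℝ) {k : ℕ} (ha : 0 < a) (hb : 0 < b)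
    (hL : 0 < L) (c : Pa k) (z : ℂ) (hkp : 0 < si a β c (kp a b y0 L z))
    (hone : 0 < si a β c (fun _ => 1)) :
    HasDerivAt (fun s : ℝ => tf a b y0 L β c (z + (s : ℂ) * I)) (tfy a b y0 L β c z) 0 := by
  have hd := V_reg_sy hkg (y0 := y0) (β := β) ha hb hL c z
  have e0 : z + ((0 : ℝ) : ℂ) * I = z := by simp
  have hq := V_reg_log hd (by rw [e0]; exact hkp) hone
  simp only [e0] at hq
  unfold tf tfy
  exact hq

theorem V_reg_cc {k : ℕ} {f : Pa k → ℂ → ℝ} (hf : Continuous (fun q : Pa k × ℂ => f q.1 q.2))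
    (c : Pa k) : Continuous (f c) :=
  hf.comp (by fun_prop : Continuous (fun x : ℂ => (c, x)))

theorem V_reg_quo {k : ℕ} {f g : Pa k → ℂ → ℝ} (hf : Continuous (fun q : Pa k × ℂ => f q.1 q.2))
    (hg : Continuous (fun q : Pa k × ℂ => g q.1 q.2)) (h0 : ∀ c x, 0 < g c x) :
    Continuous (fun q : Pa k × ℂ => f q.1 q.2 / g q.1 q.2) :=
  hf.div hg (fun q => (h0 q.1 q.2).ne')

theorem V_reg_lg {k : ℕ} {f g : Pa k → ℂ → ℝ} (hf : Continuous (fun q : Pa k × ℂ => f q.1 q.2))
    (hg : Continuous (fun q : Pa k × ℂ => g q.1 q.2)) (h0 : ∀ c x, 0 < g c x)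
    (h1 : ∀ c x, 0 < f c x) :
    Continuous (fun q : Pa k × ℂ => Real.log (f q.1 q.2 / g q.1 q.2)) :=
  (V_reg_quo hf hg h0).log (fun q => (div_pos (h1 q.1 q.2) (h0 q.1 q.2)).ne')

theorem V_reg_c3 (hkg : V_kg) {a b y0 L : ℝ} (β : ℝ) (k : ℕ) (ha : 0 < a) (hb : 0 < b)
    (hL : 0 < L) :
    Continuous (fun q : Pa k × ℂ => tf a b y0 L β q.1 q.2) ∧
    Continuous (fun q : Pa k × ℂ => tfx a b y0 L β q.1 q.2) ∧
    Continuous (fun q : Pa k × ℂ => tfy a b y0 L β q.1 q.2) := by
  have hkpos : ∀ (c : Pa k) (x : ℂ), 0 < si a β c (kp a b y0 L x) := fun c x =>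
    V_reg_si_pos ha c (V_reg_ct (V_reg_kp a b y0 L) x)
      (fun t => (hkg a b y0 L ha hb hL x t).1)
  have hone : ∀ c : Pa k, 0 < si a β c (fun _ => 1) := fun c =>
    V_reg_si_pos ha c continuous_const (fun _ => one_pos)
  have ck := V_reg_si (β := β) ha (k := k) (V_reg_kp a b y0 L)
  have ckx := V_reg_si (β := β) ha (k := k) (V_reg_kpx a b y0 L)
  have cky := V_reg_si (β := β) ha (k := k) (V_reg_kpy a b y0 L)
  have c1 : Continuous (fun q : Pa k × ℂ => si a β q.1 (fun _ => 1)) :=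
    V_reg_si (β := β) ha (k := k) (f := fun _ _ => 1) continuous_const
  unfold tf tfx tfy
  exact ⟨V_reg_lg (f := fun c x => si a β c (kp a b y0 L x)) (g := fun c _ => si a β c (fun _ => 1))
      ck c1 (fun c _ => hone c) hkpos,
    V_reg_quo (f := fun c x => si a β c (kpx a b y0 L x)) (g := fun c x => si a β c (kp a b y0 L x))
      ckx ck hkpos,
    V_reg_quo (f := fun c x => si a β c (kpy a b y0 L x)) (g := fun c x => si a β c (kp a b y0 L x))
      cky ck hkpos⟩

theorem V_reg_p3 (hD : V_D) {a b y0 L : ℝ} (β : ℝ) {k : ℕ} (ha : 0 < a) (hb : 0 < b) (c : Pa k) :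
    Per a b (tf a b y0 L β c) ∧ Per a b (tfx a b y0 L β c) ∧ Per a b (tfy a b y0 L β c) := by
  have p1 : ∀ z : ℂ, kp a b y0 L (z + a) = kp a b y0 L z := fun z =>
    funext fun t => ((V_reg_per a b y0 L ha hb hD t).1 z).1
  have p2 : ∀ z : ℂ, kp a b y0 L (z + b * I) = kp a b y0 L z := fun z =>
    funext fun t => ((V_reg_per a b y0 L ha hb hD t).1 z).2
  have p3 : ∀ z : ℂ, kpx a b y0 L (z + a) = kpx a b y0 L z := fun z =>
    funext fun t => ((V_reg_per a b y0 L ha hb hD t).2.1 z).1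
  have p4 : ∀ z : ℂ, kpx a b y0 L (z + b * I) = kpx a b y0 L z := fun z =>
    funext fun t => ((V_reg_per a b y0 L ha hb hD t).2.1 z).2
  have p5 : ∀ z : ℂ, kpy a b y0 L (z + a) = kpy a b y0 L z := fun z =>
    funext fun t => ((V_reg_per a b y0 L ha hb hD t).2.2 z).1
  have p6 : ∀ z : ℂ, kpy a b y0 L (z + b * I) = kpy a b y0 L z := fun z =>
    funext fun t => ((V_reg_per a b y0 L ha hb hD t).2.2 z).2
  refine ⟨fun z => ?_, fun z => ?_, fun z => ?_⟩
  · constructor
    · simp only [tf, p1]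
    · simp only [tf, p2]
  · constructor
    · simp only [tfx, p1, p3]
    · simp only [tfx, p2, p4]
  · constructor
    · simp only [tfy, p1, p5]
    · simp only [tfy, p2, p6]

theorem pr_V_reg (hkg : V_kg) (hD : V_D) : V_reg := by
  intro a b y0 L β k ha hb hL
  obtain ⟨ctf, ctfx, ctfy⟩ := V_reg_c3 (y0 := y0) hkg β k ha hb hL
  have hkpos : ∀ (c : Pa k) (x : ℂ), 0 < si a β c (kp a b y0 L x) := fun c x =>
    V_reg_si_pos ha c (V_reg_ct (V_reg_kp a b y0 L) x)
      (fun t => (hkg a b y0 L ha hb hL x t).1)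
  have hone : ∀ c : Pa k, 0 < si a β c (fun _ => 1) := fun c =>
    V_reg_si_pos ha c continuous_const (fun _ => one_pos)
  refine ⟨ctf, ctfx, ctfy, fun c => ?_⟩
  obtain ⟨q1, q2, q3⟩ := V_reg_p3 (y0 := y0) (L := L) hD β ha hb c
  exact ⟨V_reg_cc ctf c, V_reg_cc ctfx c, V_reg_cc ctfy c, q1, q2, q3,
    fun z => V_reg_dx hkg β ha hb hL c z (hkpos c z) (hone c),
    fun z => V_reg_dy hkg β ha hb hL c z (hkpos c z) (hone c)⟩

end Pool.Agent.Vx

end

section

/-!
# MP_afe918_an, item n0: regular blow-up point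
-/

set_option autoImplicit false

open Complex Set Filter Topology MeasureTheory Metric
open scoped Real ContDiff ComplexConjugate

namespace Pool.Agent.Vx

theorem n0_int {s : ℝ} {F : Type*} [NormedAddCommGroup F] {g : ℂ → F}
    (hg : ContinuousOn g (closedBall 0 s)) : IntegrableOn g (ball (0 : ℂ) s) :=
  (hg.integrableOn_compact (isCompact_closedBall 0 s)).mono_set ball_subset_closedBall

theorem n0_mo_add {s : ℝ} {E : ℂ → ℝ} (hE : Continuous E) {f g : ℂ → ℂ}
    (hf : ContinuousOn f (closedBall 0 s)) (hg : ContinuousOn g (closedBall 0 s)) :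
    mo s E (fun z => f z + g z) = mo s E f + mo s E g := by
  have hE' : ContinuousOn (fun z => (E z : ℂ)) (closedBall 0 s) :=
    (Complex.continuous_ofReal.comp hE).continuousOn
  unfold mo
  simp only [add_mul]
  exact integral_add (n0_int (hf.mul hE')) (n0_int (hg.mul hE'))

theorem n0_mo_sub {s : ℝ} {E : ℂ → ℝ} (hE : Continuous E) {f g : ℂ → ℂ}
    (hf : ContinuousOn f (closedBall 0 s)) (hg : ContinuousOn g (closedBall 0 s)) :
    mo s E (fun z => f z - g z) = mo s E f - mo s E g := by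
  have hE' : ContinuousOn (fun z => (E z : ℂ)) (closedBall 0 s) :=
    (Complex.continuous_ofReal.comp hE).continuousOn
  unfold mo
  simp only [sub_mul]
  exact integral_sub (n0_int (hf.mul hE')) (n0_int (hg.mul hE'))

theorem n0_mo_mul (s : ℝ) (E : ℂ → ℝ) (c : ℂ) (f : ℂ → ℂ) :
    mo s E (fun z => c * f z) = c * mo s E f := by
  unfold mo
  simp only [mul_assoc]
  exact integral_const_mul c _

theorem n0_mo_one (s : ℝ) (E : ℂ → ℝ) : mo s E (fun _ => 1) = (ms s E : ℂ) := by
  unfold mo ms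
  simp only [one_mul]
  exact integral_ofReal

theorem n0_mo_real (s : ℝ) (E : ℂ → ℝ) (g : ℂ → ℝ) :
    mo s E (fun z => (g z : ℂ)) = ((∫ z in ball (0 : ℂ) s, g z * E z : ℝ) : ℂ) := by
  unfold mo
  simp only [← Complex.ofReal_mul]
  exact integral_ofReal

theorem n0_mo_norm {s : ℝ} {E : ℂ → ℝ} (hE : Continuous E) (hE0 : ∀ z, 0 ≤ E z) {f : ℂ → ℂ}
    {g : ℂ → ℝ} (hg : ContinuousOn g (closedBall 0 s)) (h : ∀ z ∈ ball (0 : ℂ) s, ‖f z‖ ≤ g z) :
    ‖mo s E f‖ ≤ ∫ z in ball (0 : ℂ) s, g z * E z := by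
  unfold mo
  refine norm_integral_le_of_norm_le (n0_int (hg.mul hE.continuousOn)) ?_
  refine (ae_restrict_iff' measurableSet_ball).2 (Eventually.of_forall fun z hz => ?_)
  rw [norm_mul, Complex.norm_real, Real.norm_of_nonneg (hE0 z)]
  exact mul_le_mul_of_nonneg_right (h z hz) (hE0 z)

/-- Taylor expansion of a bounded holomorphic function. -/
theorem n0_taylor {f : ℂ → ℂ} {r s H : ℝ} (hs : 0 < s) (hsr : 2 * s < r)
    (hf : DifferentiableOn ℂ f (ball 0 r)) (hb : ∀ z ∈ ball (0 : ℂ) r, ‖f z‖ ≤ H) :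
    ∀ b z : ℂ, ‖b‖ < s → ‖z‖ < s → ‖deriv f b‖ ≤ H / (r / 5) ∧
      ‖f z - f b - deriv f b * (z - b)‖ ≤ H / (r / 5) / (r / 5) * ‖z - b‖ ^ 2 := by
  have hr : 0 < r := by linarith
  have hr5 : 0 < r / 5 := by positivity
  have hH : 0 ≤ H := (norm_nonneg _).trans (hb 0 (mem_ball_self hr))
  have sub1 : ∀ z : ℂ, ‖z‖ < 3 / 4 * r → closedBall z (r / 5) ⊆ ball 0 r := by
    intro z hz w hw
    rw [mem_closedBall, dist_eq_norm] at hw
    rw [mem_ball_zero_iff]
    calc ‖w‖ = ‖(w - z) + z‖ := by rw [sub_add_cancel]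
      _ ≤ ‖w - z‖ + ‖z‖ := norm_add_le _ _
      _ < r := by linarith
  have sub2 : ∀ z : ℂ, ‖z‖ < r / 2 → closedBall z (r / 5) ⊆ ball 0 (3 / 4 * r) := by
    intro z hz w hw
    rw [mem_closedBall, dist_eq_norm] at hw
    rw [mem_ball_zero_iff]
    calc ‖w‖ = ‖(w - z) + z‖ := by rw [sub_add_cancel]
      _ ≤ ‖w - z‖ + ‖z‖ := norm_add_le _ _
      _ < 3 / 4 * r := by linarith
  have d1 : ∀ z : ℂ, ‖z‖ < 3 / 4 * r → ‖deriv f z‖ ≤ H / (r / 5) := by
    intro z hz
    refine Complex.norm_deriv_le_of_forall_mem_sphere_norm_le hr5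
      (hf.diffContOnCl_ball (sub1 z hz)) ?_
    intro w hw
    exact hb w (sub1 z hz (sphere_subset_closedBall hw))
  have hf' : DifferentiableOn ℂ (deriv f) (ball 0 r) := hf.deriv isOpen_ball
  have hf'' : DifferentiableOn ℂ (deriv f) (ball 0 (3 / 4 * r)) :=
    hf'.mono (ball_subset_ball (by linarith))
  have d2 : ∀ z : ℂ, ‖z‖ < r / 2 → ‖deriv (deriv f) z‖ ≤ H / (r / 5) / (r / 5) := by
    intro z hz
    refine Complex.norm_deriv_le_of_forall_mem_sphere_norm_le hr5
      (hf''.diffContOnCl_ball (sub2 z hz)) ?_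
    intro w hw
    have hw' := sub2 z hz (sphere_subset_closedBall hw)
    rw [mem_ball_zero_iff] at hw'
    exact d1 w hw'
  have at1 : ∀ z ∈ ball (0 : ℂ) (r / 2), DifferentiableAt ℂ f z := fun z hz =>
    hf.differentiableAt (isOpen_ball.mem_nhds (ball_subset_ball (by linarith) hz))
  have at2 : ∀ z ∈ ball (0 : ℂ) (r / 2), DifferentiableAt ℂ (deriv f) z := fun z hz =>
    hf'.differentiableAt (isOpen_ball.mem_nhds (ball_subset_ball (by linarith) hz))
  intro b z hbs hzs
  have hbm : b ∈ ball (0 : ℂ) (r / 2) := by rw [mem_ball_zero_iff]; linarith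
  have hzm : z ∈ ball (0 : ℂ) (r / 2) := by rw [mem_ball_zero_iff]; linarith
  refine ⟨d1 b (by linarith), ?_⟩
  have hseg : segment ℝ b z ⊆ ball (0 : ℂ) (r / 2) :=
    (convex_ball (0 : ℂ) (r / 2)).segment_subset hbm hzm
  have hd : ∀ w ∈ segment ℝ b z, ‖deriv f w - deriv f b‖ ≤ H / (r / 5) / (r / 5) * ‖z - b‖ := by
    intro w hw
    have h1 := (convex_ball (0 : ℂ) (r / 2)).norm_image_sub_le_of_norm_deriv_le
      (f := deriv f) at2 (fun x hx => d2 x (mem_ball_zero_iff.1 hx)) hbm (hseg hw)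
    refine h1.trans (mul_le_mul_of_nonneg_left ?_ (by positivity))
    have h2 : w ∈ segment ℝ b z := hw
    rw [segment_eq_image'] at h2
    obtain ⟨t, ht, rfl⟩ := h2
    simp only [add_sub_cancel_left, norm_smul, Real.norm_of_nonneg ht.1]
    exact mul_le_of_le_one_left (norm_nonneg _) ht.2
  have hg := (convex_segment b z).norm_image_sub_le_of_norm_hasDerivWithin_le
    (f := fun w => f w - deriv f b * w) (f' := fun w => deriv f w - deriv f b * 1)
    (C := H / (r / 5) / (r / 5) * ‖z - b‖)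
    (fun w hw => (((at1 w (hseg hw)).hasDerivAt).sub
      ((hasDerivAt_id w).const_mul (deriv f b))).hasDerivWithinAt)
    (fun w hw => by rw [mul_one]; exact hd w hw) (left_mem_segment ℝ b z)
    (right_mem_segment ℝ b z)
  calc ‖f z - f b - deriv f b * (z - b)‖ = ‖f z - deriv f b * z - (f b - deriv f b * b)‖ := by
        congr 1; ring
    _ ≤ H / (r / 5) / (r / 5) * ‖z - b‖ * ‖z - b‖ := hg
    _ = _ := by ring

/-- The identity for `ζ` and `ζ³`. -/
theorem n0_key (h1 : S_RIp) {r H Λ : ℝ} {s : ℝ} (hs : 0 < s) (hsr : 2 * s < r) (hH : 0 ≤ H)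
    (hΛ : 0 ≤ Λ) (M0 : ℝ) : ∃ K : ℝ, 0 ≤ K ∧ ∀ (lam : ℝ) (h : ℂ → ℂ) (E : ℂ → ℝ) (η : ℝ) (b : ℂ),
    Loc r 0 lam h E → lam ≤ Λ → (∀ z ∈ ball (0 : ℂ) r, ‖deriv h z‖ ≤ H) → ms r E ≤ M0 →
    (∀ z ∈ ball (0 : ℂ) r, s ≤ ‖z‖ → E z ≤ η) → ‖b‖ < s → 0 < ms s E →
    b = mo s E (fun z => z) / ms s E →
    ‖mo s E (fun z => (z - b) ^ 2)‖ * |3 - 2 * ms s E / (8 * π)| ≤
      K * (|η| + ∫ z in ball (0 : ℂ) s, ‖z - b‖ ^ 3 * E z) ∧
    |ms s E * (8 * π - ms s E) / (8 * π) - lam / 4 * ∫ z in ball (0 : ℂ) s, ‖z - b‖ ^ 2 * E z| ≤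
      K * (|η| + ‖mo s E (fun z => (z - b) ^ 2)‖ + ∫ z in ball (0 : ℂ) s, ‖z - b‖ ^ 3 * E z) := by
  obtain ⟨K0, hK0, h1⟩ := h1
  have hr : 0 < r := by linarith
  set H' : ℝ := H * r + Λ * r ^ 2 with hH'
  have hH'0 : 0 ≤ H' := by positivity
  set K1 : ℝ := K0 * (1 + 0 + H' + |M0| * (r / s)) with hK1
  have hK1' : 0 ≤ K1 := by positivity
  set K : ℝ := K1 * (27 * s ^ 2) * s ^ 2 + K1 * 3 * s ^ 2 + (H + Λ * s / 4) + H / (r / 5) +
    H / (r / 5) / (r / 5) with hK
  refine ⟨K, by positivity, ?_⟩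
  intro lam h E η b hL hlam hh hM hη hb hms hbm
  have hπ := Real.pi_pos
  have hE := hL.cont
  have hE0 := hL.nonneg
  have hlam0 := hL.lam0
  have hh' : DifferentiableOn ℂ (deriv h) (ball 0 r) := hL.an.deriv isOpen_ball
  have hcb : closedBall (0 : ℂ) s ⊆ ball 0 r := closedBall_subset_ball (by linarith)
  have ch : ContinuousOn (deriv h) (closedBall 0 s) := hh'.continuousOn.mono hcb
  have cc : ContinuousOn (fun z : ℂ => conj z) (closedBall 0 s) :=
    Complex.continuous_conj.continuousOn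
  have cp : ∀ k : ℕ, ContinuousOn (fun z : ℂ => (z - b) ^ k) (closedBall 0 s) := fun k => by
    fun_prop
  have hmsC : (ms s E : ℂ) ≠ 0 := by exact_mod_cast hms.ne'
  -- the first moment
  have mo1 : mo s E (fun z => z - b) = 0 := by
    have e := n0_mo_sub (s := s) hE (f := fun z => z) (g := fun _ => b * 1)
      continuousOn_id continuousOn_const
    rw [n0_mo_mul, n0_mo_one] at e
    rw [mul_one] at e
    rw [e, hbm]
    field_simp
    ring
  have hM' : ms r E ≤ |M0| := hM.trans (le_abs_self _)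
  have hlam' : lam * r ^ 2 ≤ H' := by
    have : lam * r ^ 2 ≤ Λ * r ^ 2 := mul_le_mul_of_nonneg_right hlam (by positivity)
    have h0 : 0 ≤ H * r := by positivity
    linarith
  have hh'' : ∀ z ∈ ball (0 : ℂ) r, ‖deriv h z‖ * r ≤ H' := by
    intro z hz
    have : ‖deriv h z‖ * r ≤ H * r := mul_le_mul_of_nonneg_right (hh z hz) hr.le
    have h0 : 0 ≤ Λ * r ^ 2 := by positivity
    linarith
  have hη' : ∀ z ∈ ball (0 : ℂ) r, s ≤ ‖z‖ → E z ≤ |η| := fun z hz hz' =>
    (hη z hz hz').trans (le_abs_self _)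
  have hrT : r ≤ r / s * s := by rw [div_mul_cancel₀ _ hs.ne']
  have hB3 : 0 ≤ ∫ z in ball (0 : ℂ) s, ‖z - b‖ ^ 3 * E z :=
    integral_nonneg fun z => mul_nonneg (by positivity) (hE0 z)
  set A : ℝ := ∫ z in ball (0 : ℂ) s, ‖z - b‖ ^ 2 * E z with hA
  set B3 : ℝ := ∫ z in ball (0 : ℂ) s, ‖z - b‖ ^ 3 * E z with hB3d
  set mt : ℂ := mo s E (fun z => (z - b) ^ 2) with hmt
  have ccb3 : ContinuousOn (fun z : ℂ => ‖z - b‖ ^ 3) (closedBall 0 s) := by fun_prop
  constructor
  · -- `ζ³`
    have key := h1 r s lam (27 * s ^ 2) |η| H' |M0| (r / s) 0 h E b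
      (fun i => if i = 3 then 1 else 0) hs hsr.le hrT hL hH'0 hlam' hh'' hM' hη' hb.le
      (by
        intro i hi
        by_cases h3 : i = 3
        · subst h3; simp only [if_true, norm_one]; apply le_of_eq; ring
        · simp only [h3, if_false, norm_zero, zero_mul]; positivity)
    have e1 : (fun z : ℂ => (∑ i ∈ Finset.range 6, (if i = 3 then (1 : ℂ) else 0) * i *
        (z - b) ^ (i - 1)) + (∑ i ∈ Finset.range 6, (if i = 3 then (1 : ℂ) else 0) *
        (z - b) ^ i) * (((0 : ℕ) : ℂ) / z + deriv h z - lam / 4 * conj z)) =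
        fun z : ℂ => 3 * (z - b) ^ 2 + (z - b) ^ 3 * (deriv h z - lam / 4 * conj z) := by
      funext z
      simp
    have e2 : (∑ i ∈ Finset.range 6, (if i = 3 then (1 : ℂ) else 0) * ∑ k ∈ Finset.range i,
        mo s E (fun z => (z - b) ^ k) * mo s E (fun z => (z - b) ^ (i - 1 - k))) =
        2 * ms s E * mt := by
      simp only [Finset.sum_range_succ, Finset.range_zero, Finset.sum_empty]
      simp [mo1, n0_mo_one]
      ring
    rw [e1, e2] at key
    have c3 : ContinuousOn (fun z : ℂ => (z - b) ^ 3 * (deriv h z - lam / 4 * conj z))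
        (closedBall 0 s) := (cp 3).mul (ch.sub (continuousOn_const.mul cc))
    rw [n0_mo_add hE (f := fun z : ℂ => 3 * (z - b) ^ 2) (continuousOn_const.mul (cp 2)) c3,
      n0_mo_mul] at key
    have hR : ‖mo s E (fun z : ℂ => (z - b) ^ 3 * (deriv h z - lam / 4 * conj z))‖ ≤
        (H + Λ * s / 4) * B3 := by
      have hx := n0_mo_norm (s := s) hE hE0
        (f := fun z : ℂ => (z - b) ^ 3 * (deriv h z - lam / 4 * conj z))
        (g := fun z => (H + Λ * s / 4) * ‖z - b‖ ^ 3) (continuousOn_const.mul ccb3) (by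
          intro z hz
          rw [norm_mul, norm_pow, mul_comm]
          refine mul_le_mul_of_nonneg_right ?_ (by positivity)
          refine (norm_sub_le _ _).trans (add_le_add (hh z (hcb (ball_subset_closedBall hz))) ?_)
          rw [norm_mul, norm_div, Complex.norm_real, Real.norm_of_nonneg hlam0,
            Complex.norm_conj]
          have hz' := (mem_ball_zero_iff.1 hz).le
          have : lam * ‖z‖ ≤ Λ * s := mul_le_mul hlam hz' (norm_nonneg _) hΛ
          have h4 : ‖(4 : ℂ)‖ = 4 := by norm_num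
          rw [h4]
          linarith)
      simp only [mul_assoc] at hx
      rw [integral_const_mul] at hx
      simpa only [mul_assoc] using hx
    have e3 : ‖mt‖ * |3 - 2 * ms s E / (8 * π)| = ‖3 * mt - 1 / (8 * π) * (2 * ms s E * mt)‖ := by
      have : 3 * mt - 1 / (8 * π) * (2 * ms s E * mt) =
          mt * ((3 - 2 * ms s E / (8 * π) : ℝ) : ℂ) := by
        push_cast
        ring
      rw [this, norm_mul, Complex.norm_real, Real.norm_eq_abs]
    rw [e3]
    have e4 : 3 * mt - 1 / (8 * π) * (2 * ms s E * mt) =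
        (3 * mt + mo s E (fun z : ℂ => (z - b) ^ 3 * (deriv h z - lam / 4 * conj z)) -
          1 / (8 * π) * (2 * ms s E * mt)) -
        mo s E (fun z : ℂ => (z - b) ^ 3 * (deriv h z - lam / 4 * conj z)) := by ring
    rw [e4]
    refine (norm_sub_le _ _).trans ?_
    refine (add_le_add key hR).trans ?_
    have k1 : K0 * (1 + ((0 : ℕ) : ℝ) + H' + |M0| * (r / s)) * (27 * s ^ 2) * |η| * s ^ 2 =
        K1 * (27 * s ^ 2) * s ^ 2 * |η| := by
      rw [hK1]; push_cast; ring
    rw [k1, mul_add]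
    have hη0 := abs_nonneg η
    refine add_le_add (mul_le_mul_of_nonneg_right ?_ hη0) (mul_le_mul_of_nonneg_right ?_ hB3)
    · have a1 : 0 ≤ K1 * 3 * s ^ 2 := by positivity
      have a2 : 0 ≤ H + Λ * s / 4 := by positivity
      have a3 : 0 ≤ H / (r / 5) := by positivity
      have a4 : 0 ≤ H / (r / 5) / (r / 5) := by positivity
      rw [hK]; linarith
    · have a1 : 0 ≤ K1 * 3 * s ^ 2 := by positivity
      have a2 : 0 ≤ K1 * (27 * s ^ 2) * s ^ 2 := by positivity
      have a3 : 0 ≤ H / (r / 5) := by positivity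
      have a4 : 0 ≤ H / (r / 5) / (r / 5) := by positivity
      rw [hK]; linarith
  · -- `ζ`
    have key := h1 r s lam 3 |η| H' |M0| (r / s) 0 h E b
      (fun i => if i = 1 then 1 else 0) hs hsr.le hrT hL hH'0 hlam' hh'' hM' hη' hb.le
      (by
        intro i hi
        by_cases h3 : i = 1
        · subst h3; simp only [if_true, norm_one]; apply le_of_eq; ring
        · simp only [h3, if_false, norm_zero, zero_mul]; positivity)
    have e1 : (fun z : ℂ => (∑ i ∈ Finset.range 6, (if i = 1 then (1 : ℂ) else 0) * i *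
        (z - b) ^ (i - 1)) + (∑ i ∈ Finset.range 6, (if i = 1 then (1 : ℂ) else 0) *
        (z - b) ^ i) * (((0 : ℕ) : ℂ) / z + deriv h z - lam / 4 * conj z)) =
        fun z : ℂ => (1 + deriv h b * (z - b) + deriv (deriv h) b * (z - b) ^ 2) +
          ((z - b) * (deriv h z - deriv h b - deriv (deriv h) b * (z - b)) -
          (lam / 4 * conj b * (z - b) + lam / 4 * ((‖z - b‖ ^ 2 : ℝ) : ℂ))) := by
      funext z
      have hz : ((‖z - b‖ ^ 2 : ℝ) : ℂ) = (z - b) * (conj z - conj b) := by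
        rw [← map_sub, Complex.mul_conj, Complex.normSq_eq_norm_sq]
      rw [hz]
      simp
      ring
    have e2 : (∑ i ∈ Finset.range 6, (if i = 1 then (1 : ℂ) else 0) * ∑ k ∈ Finset.range i,
        mo s E (fun z => (z - b) ^ k) * mo s E (fun z => (z - b) ^ (i - 1 - k))) =
        ms s E * ms s E := by
      simp only [Finset.sum_range_succ, Finset.range_zero, Finset.sum_empty]
      simp [n0_mo_one]
    rw [e1, e2] at key
    have c1 : ContinuousOn (fun z : ℂ => z - b) (closedBall 0 s) := by fun_prop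
    have cn : ContinuousOn (fun z : ℂ => ((‖z - b‖ ^ 2 : ℝ) : ℂ)) (closedBall 0 s) := by fun_prop
    have cR : ContinuousOn (fun z : ℂ =>
        (z - b) * (deriv h z - deriv h b - deriv (deriv h) b * (z - b))) (closedBall 0 s) :=
      c1.mul ((ch.sub continuousOn_const).sub (continuousOn_const.mul c1))
    rw [n0_mo_add hE
        (f := fun z : ℂ => 1 + deriv h b * (z - b) + deriv (deriv h) b * (z - b) ^ 2)
        (g := fun z : ℂ => (z - b) * (deriv h z - deriv h b - deriv (deriv h) b * (z - b)) -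
          (lam / 4 * conj b * (z - b) + lam / 4 * ((‖z - b‖ ^ 2 : ℝ) : ℂ)))
        ((continuousOn_const.add (continuousOn_const.mul c1)).add
        (continuousOn_const.mul (cp 2))) (cR.sub ((continuousOn_const.mul c1).add
        (continuousOn_const.mul cn))),
      n0_mo_add hE (f := fun z : ℂ => 1 + deriv h b * (z - b))
        (g := fun z : ℂ => deriv (deriv h) b * (z - b) ^ 2)
        (continuousOn_const.add (continuousOn_const.mul c1))
        (continuousOn_const.mul (cp 2)),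
      n0_mo_add hE (f := fun _ : ℂ => 1) (g := fun z : ℂ => deriv h b * (z - b))
        continuousOn_const (continuousOn_const.mul c1),
      n0_mo_sub hE
        (f := fun z : ℂ => (z - b) * (deriv h z - deriv h b - deriv (deriv h) b * (z - b)))
        (g := fun z : ℂ => lam / 4 * conj b * (z - b) + lam / 4 * ((‖z - b‖ ^ 2 : ℝ) : ℂ))
        cR ((continuousOn_const.mul c1).add (continuousOn_const.mul cn)),
      n0_mo_add hE (f := fun z : ℂ => lam / 4 * conj b * (z - b))
        (g := fun z : ℂ => lam / 4 * ((‖z - b‖ ^ 2 : ℝ) : ℂ))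
        (continuousOn_const.mul c1) (continuousOn_const.mul cn),
      n0_mo_mul, n0_mo_mul, n0_mo_mul, n0_mo_mul, n0_mo_one, mo1, n0_mo_real, ← hA, ← hmt] at key
    have hR : ‖mo s E (fun z : ℂ =>
        (z - b) * (deriv h z - deriv h b - deriv (deriv h) b * (z - b)))‖ ≤
        H / (r / 5) / (r / 5) * B3 := by
      have hx := n0_mo_norm (s := s) hE hE0
        (f := fun z : ℂ => (z - b) * (deriv h z - deriv h b - deriv (deriv h) b * (z - b)))
        (g := fun z => H / (r / 5) / (r / 5) * ‖z - b‖ ^ 3) (continuousOn_const.mul ccb3) (by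
          intro z hz
          have ht := (n0_taylor hs hsr hh' hh b z hb (mem_ball_zero_iff.1 hz)).2
          rw [norm_mul]
          calc ‖z - b‖ * ‖deriv h z - deriv h b - deriv (deriv h) b * (z - b)‖ ≤
                ‖z - b‖ * (H / (r / 5) / (r / 5) * ‖z - b‖ ^ 2) :=
                mul_le_mul_of_nonneg_left ht (norm_nonneg _)
            _ = _ := by ring)
      simp only [mul_assoc] at hx
      rw [integral_const_mul] at hx
      simpa only [mul_assoc] using hx
    have hR2 : ‖deriv (deriv h) b * mt‖ ≤ H / (r / 5) * ‖mt‖ := by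
      rw [norm_mul]
      exact mul_le_mul_of_nonneg_right
        (n0_taylor hs hsr hh' hh b 0 hb (by simpa using hs)).1 (norm_nonneg _)
    set R4 : ℂ := mo s E (fun z : ℂ =>
        (z - b) * (deriv h z - deriv h b - deriv (deriv h) b * (z - b))) with hR4
    have e3 : |ms s E * (8 * π - ms s E) / (8 * π) - lam / 4 * A| =
        ‖(ms s E : ℂ) - lam / 4 * (A : ℂ) - 1 / (8 * π) * (ms s E * ms s E)‖ := by
      have : (ms s E : ℂ) - lam / 4 * (A : ℂ) - 1 / (8 * π) * (ms s E * ms s E) =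
          ((ms s E * (8 * π - ms s E) / (8 * π) - lam / 4 * A : ℝ) : ℂ) := by
        push_cast
        have : (π : ℂ) ≠ 0 := by exact_mod_cast hπ.ne'
        field_simp
        ring
      rw [this, Complex.norm_real, Real.norm_eq_abs]
    rw [e3]
    have e4 : (ms s E : ℂ) - lam / 4 * (A : ℂ) - 1 / (8 * π) * (ms s E * ms s E) =
        ((ms s E : ℂ) + deriv h b * 0 + deriv (deriv h) b * mt +
          (R4 - (lam / 4 * conj b * 0 + lam / 4 * (A : ℂ))) - 1 / (8 * π) * (ms s E * ms s E)) -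
        deriv (deriv h) b * mt - R4 := by ring
    rw [e4]
    refine (norm_sub_le _ _).trans ?_
    refine (add_le_add ((norm_sub_le _ _).trans (add_le_add key hR2)) hR).trans ?_
    have k1 : K0 * (1 + ((0 : ℕ) : ℝ) + H' + |M0| * (r / s)) * 3 * |η| * s ^ 2 =
        K1 * 3 * s ^ 2 * |η| := by
      rw [hK1]; push_cast; ring
    rw [k1, mul_add, mul_add]
    have hη0 := abs_nonneg η
    have b1 : 0 ≤ K1 * 3 * s ^ 2 := by positivity
    have b2 : 0 ≤ K1 * (27 * s ^ 2) * s ^ 2 := by positivity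
    have b3 : 0 ≤ H / (r / 5) := by positivity
    have b4 : 0 ≤ H / (r / 5) / (r / 5) := by positivity
    have b5 : 0 ≤ H + Λ * s / 4 := by positivity
    refine add_le_add (add_le_add (mul_le_mul_of_nonneg_right ?_ hη0)
      (mul_le_mul_of_nonneg_right ?_ (norm_nonneg _))) (mul_le_mul_of_nonneg_right ?_ hB3)
    · rw [hK]; linarith
    · rw [hK]; linarith
    · rw [hK]; linarith

theorem pr_n0 (h1 : S_RIp) (h2 : S_A) (h3 : S_BUf) : S_n0 := by
  intro r H Λ lam h E hBU s hs hsr b hb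
  have hr : 0 < r := by linarith
  have hπ := Real.pi_pos
  have hH : 0 ≤ H := (norm_nonneg _).trans (hBU.hH 0 0 (mem_ball_self hr))
  have hΛ : 0 ≤ Λ := (hBU.loc 0).lam0.trans (hBU.lamb 0)
  have hE0 : ∀ j z, 0 ≤ E j z := fun j => (hBU.loc j).nonneg
  have hEc : ∀ j, Continuous (E j) := fun j => (hBU.loc j).cont
  obtain ⟨t1, -, t2, -, -⟩ := h3 r 0 H Λ lam h E hBU (fun _ => 0) tendsto_const_nhds s hs
    (by linarith)
  have tM : Tendsto (fun j => ms s (E j)) atTop (𝓝 (8 * π)) := by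
    have e : 8 * π * (1 + ((0 : ℕ) : ℝ)) = 8 * π := by push_cast; ring
    rw [e] at t1
    exact t1
  have hMpos : ∀ᶠ j in atTop, 0 < ms s (E j) := tM.eventually (lt_mem_nhds (by positivity))
  -- the centre of mass
  have tb : Tendsto b atTop (𝓝 0) := by
    have hq : Tendsto (fun j => (∫ z in ball (0 : ℂ) s, ‖z‖ * E j z) / ms s (E j)) atTop
        (𝓝 (0 / (8 * π))) := t2.div tM (by positivity)
    rw [zero_div] at hq
    refine squeeze_zero_norm' ?_ hq
    filter_upwards [hMpos] with j hj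
    rw [hb j, norm_div, Complex.norm_real, Real.norm_of_nonneg hj.le]
    refine div_le_div_of_nonneg_right ?_ hj.le
    exact n0_mo_norm (hEc j) (hE0 j) (g := fun z => ‖z‖) (by fun_prop) (fun z _ => le_rfl)
  obtain ⟨-, -, -, tA, tB⟩ := h3 r 0 H Λ lam h E hBU b tb s hs (by linarith)
  have tAe := h2 r 0 H Λ lam h E hBU b tb s hs (by linarith)
  set A : ℕ → ℝ := fun j => ∫ z in ball (0 : ℂ) s, ‖z - b j‖ ^ 2 * E j z with hA
  set B3 : ℕ → ℝ := fun j => ∫ z in ball (0 : ℂ) s, ‖z - b j‖ ^ 3 * E j z with hB3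
  set M : ℕ → ℝ := fun j => ms s (E j) with hM
  set mt : ℕ → ℂ := fun j => mo s (E j) (fun z => (z - b j) ^ 2) with hmt
  have hetpos : ∀ j, 0 < et (h j) := fun j => Real.exp_pos _
  have hApos : ∀ᶠ j in atTop, 0 < A j := by
    filter_upwards [tAe.eventually_gt_atTop 0] with j hj
    exact (div_pos_iff_of_pos_right (hetpos j)).1 hj
  obtain ⟨C, hC⟩ := hBU.out s hs
  have tη : Tendsto (fun j => |C * et (h j)| / A j) atTop (𝓝 0) := by
    have h0 : Tendsto (fun j => et (h j) / A j) atTop (𝓝 0) := by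
      have := tAe.inv_tendsto_atTop
      refine this.congr fun j => ?_
      simp only [Pi.inv_apply, inv_div, hA]
    have h00 := h0.const_mul |C|
    rw [mul_zero] at h00
    refine h00.congr fun j => ?_
    rw [abs_mul, abs_of_pos (hetpos j), mul_div_assoc]
  obtain ⟨M0, hM0⟩ := hBU.mass.bddAbove_range
  obtain ⟨K, hK0, hK⟩ := n0_key h1 (r := r) (H := H) (Λ := Λ) (s := s) hs hsr hH hΛ M0
  have hbs : ∀ᶠ j in atTop, ‖b j‖ < s := by
    have := tb.norm
    rw [norm_zero] at this
    exact this.eventually (gt_mem_nhds hs)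
  have hkey : ∀ᶠ j in atTop,
      ‖mt j‖ * |3 - 2 * M j / (8 * π)| ≤ K * (|C * et (h j)| + B3 j) ∧
      |M j * (8 * π - M j) / (8 * π) - lam j / 4 * A j| ≤
        K * (|C * et (h j)| + ‖mt j‖ + B3 j) := by
    filter_upwards [hMpos, hbs] with j hj1 hj2
    exact hK (lam j) (h j) (E j) (C * et (h j)) (b j) (hBU.loc j) (hBU.lamb j) (hBU.hH j)
      (hM0 ⟨j, rfl⟩) (hC j) hj2 hj1 (hb j)
  -- the third claim
  have tc : Tendsto (fun j => |3 - 2 * M j / (8 * π)|) atTop (𝓝 1) := by
    have h0 : Tendsto (fun j => |3 - 2 * M j / (8 * π)|) atTop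
        (𝓝 |3 - 2 * (8 * π) / (8 * π)|) :=
      (tendsto_const_nhds.sub ((tM.const_mul 2).div_const _)).abs
    have e : |3 - 2 * (8 * π) / (8 * π)| = (1 : ℝ) := by
      rw [mul_div_assoc, div_self (by positivity)]
      norm_num
    rwa [e] at h0
  have hhalf : ∀ᶠ j in atTop, 1 / 2 < |3 - 2 * M j / (8 * π)| :=
    tc.eventually (lt_mem_nhds (by norm_num))
  have tmt : Tendsto (fun j => ‖mt j‖ / A j) atTop (𝓝 0) := by
    have h0 : Tendsto (fun j => 2 * (K * (|C * et (h j)| / A j + B3 j / A j))) atTop (𝓝 0) := by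
      have := ((tη.add tB).const_mul K).const_mul 2
      simpa using this
    refine squeeze_zero' ?_ ?_ h0
    · filter_upwards [hApos] with j hj
      positivity
    · filter_upwards [hApos, hkey, hhalf] with j hj hk hh
      rw [← add_div, ← mul_div_assoc, ← mul_div_assoc]
      refine div_le_div_of_nonneg_right ?_ hj.le
      have h5 : ‖mt j‖ * (1 / 2) ≤ ‖mt j‖ * |3 - 2 * M j / (8 * π)| :=
        mul_le_mul_of_nonneg_left hh.le (norm_nonneg _)
      linarith [hk.1]
  refine ⟨tb, ?_, ?_⟩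
  · -- the second claim
    have ty : Tendsto (fun j => (M j * (8 * π - M j) / (8 * π) - lam j / 4 * A j) / A j) atTop
        (𝓝 0) := by
      have h0 : Tendsto (fun j => K * (|C * et (h j)| / A j + ‖mt j‖ / A j + B3 j / A j)) atTop
          (𝓝 0) := by
        have := ((tη.add tmt).add tB).const_mul K
        simpa using this
      refine squeeze_zero_norm' ?_ h0
      filter_upwards [hApos, hkey] with j hj hk
      rw [Real.norm_eq_abs, abs_div, abs_of_pos hj, ← add_div, ← add_div, ← mul_div_assoc]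
      exact div_le_div_of_nonneg_right hk.2 hj.le
    have tq : Tendsto (fun j => 8 * π / M j) atTop (𝓝 1) := by
      have : Tendsto (fun j => 8 * π / M j) atTop (𝓝 (8 * π / (8 * π))) :=
        tendsto_const_nhds.div tM (by positivity)
      rwa [div_self (by positivity)] at this
    have t3 : Tendsto (fun j => (M j * (8 * π - M j) / (8 * π) - lam j / 4 * A j) / A j *
        (8 * π / M j)) atTop (𝓝 0) := by
      have := ty.mul tq
      rwa [zero_mul] at this
    have t4 : Tendsto (fun j => lam j / 4 * (8 * π / M j - 1)) atTop (𝓝 0) := by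
      have h0 : Tendsto (fun j => Λ / 4 * |8 * π / M j - 1|) atTop (𝓝 0) := by
        have := ((tq.sub_const 1).abs).const_mul (Λ / 4)
        simpa using this
      refine squeeze_zero_norm (fun j => ?_) h0
      rw [norm_mul, Real.norm_eq_abs, Real.norm_eq_abs]
      refine mul_le_mul_of_nonneg_right ?_ (abs_nonneg _)
      rw [abs_of_nonneg (by have := (hBU.loc j).lam0; positivity)]
      exact div_le_div_of_nonneg_right (hBU.lamb j) (by norm_num)
    have t5 := t3.add t4
    rw [add_zero] at t5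
    refine t5.congr' ?_
    filter_upwards [hApos, hMpos] with j hj hj'
    have hj'' : M j ≠ 0 := hj'.ne'
    have hAj : A j ≠ 0 := hj.ne'
    change (M j * (8 * π - M j) / (8 * π) - lam j / 4 * A j) / A j * (8 * π / M j) +
      lam j / 4 * (8 * π / M j - 1) = (8 * π - M j) / A j - lam j / 4
    field_simp
    ring
  · rw [tendsto_zero_iff_norm_tendsto_zero]
    refine tmt.congr' ?_
    filter_upwards [hApos] with j hj
    rw [norm_div, Complex.norm_real, Real.norm_of_nonneg hj.le]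

end Pool.Agent.Vx

end

section

/-! Item n1c: slow approach forces concentration near a line. -/

set_option autoImplicit false

open Complex Set Filter Topology MeasureTheory Metric
open scoped Real ContDiff ComplexConjugate

namespace Pool.Agent.Vx

lemma n1c_int {E : ℂ → ℝ} (hE : Continuous E) (c : ℂ) (s : ℝ) : IntegrableOn E (ball c s) :=
  (hE.continuousOn.integrableOn_compact (isCompact_closedBall c s)).mono_set
    ball_subset_closedBall

lemma n1c_P {E : ℂ → ℝ} (hE : Continuous E) (h0 : ∀ z, 0 ≤ E z) (s : ℝ) :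
    ‖mo s E (fun z => conj z / z)‖ ≤ ms s E := by
  unfold mo ms
  refine norm_integral_le_of_norm_le (n1c_int hE 0 s) (Eventually.of_forall fun z => ?_)
  rw [norm_mul, norm_div, Complex.norm_real, Real.norm_of_nonneg (h0 z), RCLike.norm_conj]
  by_cases hz : ‖z‖ = 0
  · rw [hz]; simp [h0 z]
  · rw [div_self hz, one_mul]

lemma n1c_m2 {E : ℂ → ℝ} (hE : Continuous E) (h0 : ∀ z, 0 ≤ E z) (s : ℝ) :
    ‖mo s E (fun z => z ^ 2)‖ ≤ ∫ z in ball (0 : ℂ) s, ‖z‖ ^ 2 * E z := by
  unfold mo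
  refine norm_integral_le_of_norm_le (n1c_int (by fun_prop) 0 s)
    (Eventually.of_forall fun z => ?_)
  rw [norm_mul, norm_pow, Complex.norm_real, Real.norm_of_nonneg (h0 z)]

theorem pr_n1c (h1 : S_n1a) (h2 : S_n1b) (h3 : S_A) (h4 : S_BUf) : S_n1c := by
  intro r H Λ lam0 K lam h E hB hlam0 hlam hK s hs hsr
  have hr : 0 < r := (hB.loc 0).rpos
  have hEc := fun j => (hB.loc j).cont
  have hE0 := fun j => (hB.loc j).nonneg
  have hA := h3 r 1 H Λ lam h E hB (fun _ => 0) tendsto_const_nhds s hs (by linarith)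
  obtain ⟨b1, ⟨C, hC⟩, -, -, -⟩ := h4 r 1 H Λ lam h E hB (fun _ => 0) tendsto_const_nhds s hs
    (by linarith)
  have ha := h1 r H Λ lam h E hB s hs hsr
  have hb := h2 r H Λ lam h E hB s hs hsr
  simp only [sub_zero] at hA
  set A : ℕ → ℝ := fun j => ∫ z in ball (0 : ℂ) s, ‖z‖ ^ 2 * E j z with hAdef
  set P : ℕ → ℂ := fun j => mo s (E j) (fun z => conj z / z) with hPdef
  set κ : ℕ → ℂ := fun j => deriv (deriv (h j)) 0 + deriv (h j) 0 ^ 2 with hκdef
  set m2 : ℕ → ℂ := fun j => mo s (E j) (fun z => z ^ 2) with hm2def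
  have etpos : ∀ j, 0 < et (h j) := fun j => Real.exp_pos _
  have hA0 : ∀ j, 0 ≤ A j := fun j =>
    setIntegral_nonneg measurableSet_ball fun z _ => mul_nonneg (by positivity) (hE0 j z)
  change Tendsto (fun j => A j / et (h j)) atTop atTop at hA
  change Tendsto (fun j => 2 * (16 * π - ms s (E j)) / A j - lam j / 4 +
    (κ j * m2 j).re / A j) atTop (𝓝 0) at ha
  change Tendsto (fun j => κ j - lam j / 4 * P j / (16 * π)) atTop (𝓝 0) at hb
  change Tendsto (fun j => ‖P j‖) atTop (𝓝 (16 * π))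
  have hApos : ∀ᶠ j in atTop, 0 < A j := by
    filter_upwards [hA.eventually_gt_atTop 0] with j hj
    by_contra hneg
    have : A j = 0 := le_antisymm (not_lt.1 hneg) (hA0 j)
    rw [this] at hj
    simp at hj
  have hinv : Tendsto (fun j => et (h j) / A j) atTop (𝓝 0) := by
    have := hA.inv_tendsto_atTop
    refine this.congr fun j => ?_
    simp only [Pi.inv_apply]
    rw [inv_div]
  have hbn : Tendsto (fun j => ‖κ j - lam j / 4 * P j / (16 * π)‖) atTop (𝓝 0) := by
    simpa using hb.norm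
  set τ : ℕ → ℝ := fun j => 2 * (K + C) * (et (h j) / A j) +
    ‖κ j - lam j / 4 * P j / (16 * π)‖ - (2 * (16 * π - ms s (E j)) / A j - lam j / 4 +
      (κ j * m2 j).re / A j) with hτ
  have hτ0 : Tendsto (fun j => |τ j|) atTop (𝓝 0) := by
    have h5 : Tendsto τ atTop (𝓝 0) := by
      have := ((hinv.const_mul (2 * (K + C))).add hbn).sub ha
      rw [mul_zero, add_zero, sub_zero] at this
      exact this
    simpa using h5.abs
  have hpi := Real.pi_pos
  have hlow : ∀ᶠ j in atTop, 16 * π - 64 * π / lam0 * |τ j| ≤ ‖P j‖ := by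
    filter_upwards [hApos] with j hj
    have g1 : ‖κ j‖ ≤ lam j / 4 * (‖P j‖ / (16 * π)) +
        ‖κ j - lam j / 4 * P j / (16 * π)‖ := by
      have hl : 0 ≤ lam j := hlam0.le.trans (hlam j)
      have g2 : ‖(lam j / 4 * P j / (16 * π) : ℂ)‖ = lam j / 4 * (‖P j‖ / (16 * π)) := by
        rw [norm_div, norm_mul, norm_div, norm_mul, Complex.norm_real, Complex.norm_real,
          Real.norm_of_nonneg hl, Real.norm_of_nonneg hpi.le]
        simp
        ring
      calc ‖κ j‖ = ‖(lam j / 4 * P j / (16 * π) : ℂ) + (κ j - lam j / 4 * P j / (16 * π))‖ := by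
            congr 1; ring
        _ ≤ ‖(lam j / 4 * P j / (16 * π) : ℂ)‖ + ‖κ j - lam j / 4 * P j / (16 * π)‖ :=
            norm_add_le _ _
        _ = _ := by rw [g2]
    have g3 : (κ j * m2 j).re / A j ≤ ‖κ j‖ := by
      rw [div_le_iff₀ hj]
      calc (κ j * m2 j).re ≤ ‖κ j * m2 j‖ := Complex.re_le_norm _
        _ = ‖κ j‖ * ‖m2 j‖ := norm_mul _ _
        _ ≤ ‖κ j‖ * A j := mul_le_mul_of_nonneg_left (n1c_m2 (hEc j) (hE0 j) s) (norm_nonneg _)
    have g4 : 2 * (16 * π - ms s (E j)) / A j ≤ 2 * (K + C) * (et (h j) / A j) := by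
      rw [div_le_iff₀ hj]
      have : 2 * (K + C) * (et (h j) / A j) * A j = 2 * ((K + C) * et (h j)) := by
        field_simp
      rw [this]
      have := hC j
      have := hK j
      linarith
    have g5 : lam j / 4 * (1 - ‖P j‖ / (16 * π)) ≤ τ j := by
      rw [hτ]
      simp only
      linarith
    have g6 : 1 - ‖P j‖ / (16 * π) ≤ 4 / lam0 * |τ j| := by
      by_cases hneg : 1 - ‖P j‖ / (16 * π) ≤ 0
      · exact hneg.trans (by positivity)
      · push Not at hneg
        have g7 : lam0 / 4 * (1 - ‖P j‖ / (16 * π)) ≤ |τ j| :=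
          (mul_le_mul_of_nonneg_right (by linarith [hlam j]) hneg.le).trans
            (g5.trans (le_abs_self _))
        have g8 := mul_le_mul_of_nonneg_left g7 (show (0 : ℝ) ≤ 4 / lam0 by positivity)
        have g9 : 4 / lam0 * (lam0 / 4 * (1 - ‖P j‖ / (16 * π))) = 1 - ‖P j‖ / (16 * π) := by
          field_simp
        rwa [g9] at g8
    have g10 := mul_le_mul_of_nonneg_left g6 (show (0 : ℝ) ≤ 16 * π by positivity)
    have g11 : 16 * π * (1 - ‖P j‖ / (16 * π)) = 16 * π - ‖P j‖ := by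
      field_simp
    have g12 : 16 * π * (4 / lam0 * |τ j|) = 64 * π / lam0 * |τ j| := by ring
    rw [g11, g12] at g10
    linarith
  have hl1 : Tendsto (fun j => 16 * π - 64 * π / lam0 * |τ j|) atTop (𝓝 (16 * π)) := by
    simpa using (hτ0.const_mul (64 * π / lam0)).const_sub (16 * π)
  have hl2 : Tendsto (fun j => ms s (E j)) atTop (𝓝 (16 * π)) := by
    have : (8 * π * (1 + ((1 : ℕ) : ℝ))) = 16 * π := by push_cast; ring
    rwa [this] at b1
  exact tendsto_of_tendsto_of_tendsto_of_le_of_le' hl1 hl2 hlow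
    (Eventually.of_forall fun j => n1c_P (hEc j) (hE0 j) s)

end Pool.Agent.Vx

end

section

/-! MP_afe918_an, item n2: blow-up at a vortex of multiplicity at least 2. -/

set_option autoImplicit false

open Complex Set Filter Topology MeasureTheory Metric
open scoped Real ContDiff ComplexConjugate

namespace Pool.Agent.Vx

/-- second order Taylor expansion with bounds -/
lemma n2_taylor {g : ℂ → ℂ} {r H : ℝ} (hr : 0 < r) (hg : DifferentiableOn ℂ g (ball 0 r))
    (hb : ∀ z ∈ ball (0 : ℂ) r, ‖g z‖ ≤ H) :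
    ∃ (g1 : ℂ) (g2 : ℂ → ℂ), ContinuousOn g2 (ball 0 r) ∧ ‖g1‖ ≤ 2 * H / r ∧
      (∀ z ∈ ball (0 : ℂ) r, ‖g2 z‖ ≤ 4 * H / r / r) ∧
      ∀ z ∈ ball (0 : ℂ) r, g z = g 0 + g1 * z + g2 z * z ^ 2 := by
  have h0 : (0 : ℂ) ∈ ball (0 : ℂ) r := mem_ball_self hr
  have hn : ball (0 : ℂ) r ∈ 𝓝 (0 : ℂ) := ball_mem_nhds 0 hr
  have hd1 : DifferentiableOn ℂ (dslope g 0) (ball 0 r) := (Complex.differentiableOn_dslope hn).mpr hg
  have hd2 : DifferentiableOn ℂ (dslope (dslope g 0) 0) (ball 0 r) :=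
    (Complex.differentiableOn_dslope hn).mpr hd1
  have hb1 : ∀ z ∈ ball (0 : ℂ) r, ‖dslope g 0 z‖ ≤ 2 * H / r := by
    intro z hz
    apply Complex.norm_dslope_le_div_of_mapsTo_ball hg _ hz
    intro w hw
    rw [mem_closedBall, dist_eq_norm]
    calc ‖g w - g 0‖ ≤ ‖g w‖ + ‖g 0‖ := norm_sub_le _ _
      _ ≤ H + H := add_le_add (hb w hw) (hb 0 h0)
      _ = 2 * H := by ring
  have hb2 : ∀ z ∈ ball (0 : ℂ) r, ‖dslope (dslope g 0) 0 z‖ ≤ 4 * H / r / r := by
    intro z hz
    apply Complex.norm_dslope_le_div_of_mapsTo_ball hd1 _ hz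
    intro w hw
    rw [mem_closedBall, dist_eq_norm]
    calc ‖dslope g 0 w - dslope g 0 0‖ ≤ ‖dslope g 0 w‖ + ‖dslope g 0 0‖ := norm_sub_le _ _
      _ ≤ 2 * H / r + 2 * H / r := add_le_add (hb1 w hw) (hb1 0 h0)
      _ = 4 * H / r := by ring
  refine ⟨dslope g 0 0, dslope (dslope g 0) 0, hd2.continuousOn, hb1 0 h0, hb2, ?_⟩
  intro z _
  have e1 := sub_smul_dslope g 0 z
  have e2 := sub_smul_dslope (dslope g 0) 0 z
  simp only [sub_zero, smul_eq_mul] at e1 e2
  have : g z = g 0 + z * (dslope g 0 0 + z * dslope (dslope g 0) 0 z) := by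
    rw [e2, add_sub_cancel, e1]; ring
  rw [this]; ring

lemma n2_int {E : ℂ → ℝ} (hE : Continuous E) {s r : ℝ} (hsr : s < r) {f : ℂ → ℂ}
    (hf : ContinuousOn f (ball 0 r)) : IntegrableOn (fun z => f z * (E z : ℂ)) (ball 0 s) := by
  have h1 : ContinuousOn (fun z => f z * (E z : ℂ)) (closedBall (0 : ℂ) s) := by
    apply ContinuousOn.mul
    · exact hf.mono (closedBall_subset_ball hsr)
    · exact (Complex.continuous_ofReal.comp hE).continuousOn
  exact (h1.integrableOn_compact (isCompact_closedBall 0 s)).mono_set ball_subset_closedBall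

lemma n2_intR {E : ℂ → ℝ} (hE : Continuous E) (s : ℝ) (k : ℕ) :
    IntegrableOn (fun z : ℂ => ‖z‖ ^ k * E z) (ball 0 s) := by
  have h1 : Continuous (fun z : ℂ => ‖z‖ ^ k * E z) := by fun_prop
  exact (h1.continuousOn.integrableOn_compact (isCompact_closedBall 0 s)).mono_set
    ball_subset_closedBall

lemma n2_mo_add {E : ℂ → ℝ} (hE : Continuous E) {s r : ℝ} (hsr : s < r) {f g : ℂ → ℂ}
    (hf : ContinuousOn f (ball 0 r)) (hg : ContinuousOn g (ball 0 r)) :
    mo s E (fun z => f z + g z) = mo s E f + mo s E g := by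
  unfold mo
  rw [← integral_add (n2_int hE hsr hf) (n2_int hE hsr hg)]
  congr 1
  funext z
  ring

lemma n2_mo_mul (s : ℝ) (E : ℂ → ℝ) (c : ℂ) (f : ℂ → ℂ) :
    mo s E (fun z => c * f z) = c * mo s E f := by
  unfold mo
  rw [← integral_const_mul]
  congr 1
  funext z
  ring

lemma n2_mo_le {E : ℂ → ℝ} (hE : Continuous E) (hE0 : ∀ z, 0 ≤ E z) {s C : ℝ} (k : ℕ)
    {f : ℂ → ℂ} (hf : ∀ z ∈ ball (0 : ℂ) s, ‖f z‖ ≤ C * ‖z‖ ^ k) :
    ‖mo s E f‖ ≤ C * ∫ z in ball (0 : ℂ) s, ‖z‖ ^ k * E z := by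
  unfold mo
  rw [← integral_const_mul]
  apply norm_integral_le_of_norm_le ((n2_intR hE s k).const_mul C)
  filter_upwards [ae_restrict_mem measurableSet_ball] with z hz
  rw [norm_mul, Complex.norm_real, Real.norm_eq_abs, abs_of_nonneg (hE0 z)]
  calc ‖f z‖ * E z ≤ (C * ‖z‖ ^ k) * E z := mul_le_mul_of_nonneg_right (hf z hz) (hE0 z)
    _ = C * (‖z‖ ^ k * E z) := by ring

lemma n2_mo_congr {E : ℂ → ℝ} {s : ℝ} {f g : ℂ → ℂ}
    (h : ∀ z ∈ ball (0 : ℂ) s, z ≠ 0 → f z = g z) : mo s E f = mo s E g := by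
  unfold mo
  apply setIntegral_congr_ae measurableSet_ball
  have h0 : ∀ᵐ z : ℂ, z ≠ 0 := by
    rw [ae_iff]
    simp
  filter_upwards [h0] with z hz hzs
  rw [h z hzs hz]

lemma n2_mo_real (s : ℝ) (E : ℂ → ℝ) (f : ℂ → ℝ) :
    mo s E (fun z => (f z : ℂ)) = ((∫ z in ball (0 : ℂ) s, f z * E z : ℝ) : ℂ) := by
  unfold mo
  rw [← integral_complex_ofReal]
  congr 1
  funext z
  push_cast
  ring

lemma n2_mo_one (s : ℝ) (E : ℂ → ℝ) : mo s E (fun _ => 1) = (ms s E : ℂ) := by
  have := n2_mo_real s E (fun _ => 1)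
  simp only [Complex.ofReal_one, one_mul] at this
  exact this

/-- the Pohozaev identity for `f = c1 z + c2 z^2 + c3 z^3` along a blow-up sequence -/
lemma n2_rip (h1 : S_RIp) {r H Λ : ℝ} {n : ℕ} {lam : ℕ → ℝ} {h : ℕ → ℂ → ℂ} {E : ℕ → ℂ → ℝ}
    (hB : BU r n H Λ lam h E) {s : ℝ} (hs : 0 < s) (hsr : 2 * s < r) {Cc : ℝ} (hCc : 0 ≤ Cc) :
    ∃ C, 0 ≤ C ∧ ∀ (j : ℕ) (c1 c2 c3 : ℂ), ‖c1‖ ≤ Cc → ‖c2‖ ≤ Cc → ‖c3‖ ≤ Cc →
    ‖mo s (E j) (fun z => (c1 + 2 * c2 * z + 3 * c3 * z ^ 2) + (c1 * z + c2 * z ^ 2 + c3 * z ^ 3) *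
        (n / z + deriv (h j) z - lam j / 4 * conj z)) -
      1 / (8 * π) * (c1 * (ms s (E j) : ℂ) ^ 2 +
        2 * c2 * (ms s (E j) : ℂ) * mo s (E j) (fun z => z) +
        c3 * (2 * (ms s (E j) : ℂ) * mo s (E j) (fun z => z ^ 2) +
          mo s (E j) (fun z => z) ^ 2))‖ ≤ C * et (h j) := by
  obtain ⟨K, hK, hR⟩ := h1
  have hr : 0 < r := by linarith
  obtain ⟨C0, hC0⟩ := hB.out s hs
  obtain ⟨M0, hM0⟩ := hB.mass.bddAbove_range
  have hM0' : ∀ j, ms r (E j) ≤ M0 := fun j => hM0 ⟨j, rfl⟩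
  have hms : 0 ≤ ms r (E 0) := by
    unfold ms
    exact integral_nonneg fun z => (hB.loc 0).nonneg z
  have hM00 : 0 ≤ M0 := hms.trans (hM0' 0)
  have hH0 : 0 ≤ H := (norm_nonneg _).trans (hB.hH 0 0 (mem_ball_self hr))
  have hL0 : 0 ≤ Λ := (hB.loc 0).lam0.trans (hB.lamb 0)
  have hC00 : 0 ≤ |C0| := abs_nonneg _
  obtain ⟨H', hH'⟩ : ∃ H', H' = H * r + Λ * r ^ 2 := ⟨_, rfl⟩
  obtain ⟨A', hA'⟩ : ∃ A', A' = Cc * (3 * s + (3 * s) ^ 2 + (3 * s) ^ 3) / s := ⟨_, rfl⟩
  have hH'0 : 0 ≤ H' := by rw [hH']; positivity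
  have hA'0 : 0 ≤ A' := by rw [hA']; positivity
  refine ⟨K * (1 + n + H' + M0 * (r / s)) * A' * |C0| * s ^ 2, by positivity, ?_⟩
  intro j c1 c2 c3 h1 h2 h3
  have het : 0 < et (h j) := Real.exp_pos _
  have key := hR r s (lam j) A' (|C0| * et (h j)) H' M0 (r / s) n (h j) (E j) 0
    (fun i => if i = 1 then c1 else if i = 2 then c2 else if i = 3 then c3 else 0)
    hs hsr.le (by rw [div_mul_cancel₀ _ hs.ne']) (hB.loc j) hH'0
    (by
      rw [hH']
      have := mul_le_mul_of_nonneg_right (hB.lamb j) (sq_nonneg r)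
      have : 0 ≤ H * r := by positivity
      linarith)
    (by
      intro z hz
      rw [hH']
      have := mul_le_mul_of_nonneg_right (hB.hH j z hz) hr.le
      have : 0 ≤ Λ * r ^ 2 := by positivity
      linarith)
    (hM0' j)
    (by
      intro z hz hsz
      exact (hC0 j z hz hsz).trans (mul_le_mul_of_nonneg_right (le_abs_self C0) het.le))
    (by simpa using hs.le)
    (by
      intro i hi
      have hAs : A' * s = Cc * (3 * s + (3 * s) ^ 2 + (3 * s) ^ 3) := by
        rw [hA']; field_simp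
      rw [hAs]
      have p1 : 0 ≤ Cc * (3 * s) := by positivity
      have p2 : 0 ≤ Cc * (3 * s) ^ 2 := by positivity
      have p3 : 0 ≤ Cc * (3 * s) ^ 3 := by positivity
      have hsp : 0 ≤ 3 * s := by positivity
      interval_cases i
      · simp; nlinarith
      · have := mul_le_mul_of_nonneg_right h1 hsp
        simp; nlinarith
      · have := mul_le_mul_of_nonneg_right h2 (pow_nonneg hsp 2)
        simp only [OfNat.ofNat_ne_one, if_false, if_true]; nlinarith
      · have := mul_le_mul_of_nonneg_right h3 (pow_nonneg hsp 3)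
        simp only [OfNat.ofNat_ne_one, if_false, if_true]
        norm_num
        nlinarith
      · norm_num; nlinarith
      · norm_num; nlinarith)
  have e1 : (fun z : ℂ => (∑ i ∈ Finset.range 6,
      (if i = 1 then c1 else if i = 2 then c2 else if i = 3 then c3 else 0) * i *
        (z - 0) ^ (i - 1)) + (∑ i ∈ Finset.range 6,
      (if i = 1 then c1 else if i = 2 then c2 else if i = 3 then c3 else 0) * (z - 0) ^ i) *
      (n / z + deriv (h j) z - lam j / 4 * conj z)) =
      (fun z => (c1 + 2 * c2 * z + 3 * c3 * z ^ 2) + (c1 * z + c2 * z ^ 2 + c3 * z ^ 3) *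
        (n / z + deriv (h j) z - lam j / 4 * conj z)) := by
    funext z
    simp only [Finset.sum_range_succ, Finset.sum_range_zero, sub_zero]
    norm_num
    ring
  have e2 : (∑ i ∈ Finset.range 6,
      (if i = 1 then c1 else if i = 2 then c2 else if i = 3 then c3 else 0) *
      ∑ k ∈ Finset.range i,
      mo s (E j) (fun z => (z - 0) ^ k) * mo s (E j) (fun z => (z - 0) ^ (i - 1 - k))) =
      c1 * (ms s (E j) : ℂ) ^ 2 + 2 * c2 * (ms s (E j) : ℂ) * mo s (E j) (fun z => z) +
        c3 * (2 * (ms s (E j) : ℂ) * mo s (E j) (fun z => z ^ 2) +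
          mo s (E j) (fun z => z) ^ 2) := by
    rw [← n2_mo_one]
    simp only [Finset.sum_range_succ, Finset.sum_range_zero, sub_zero]
    norm_num
    ring
  rw [e1, e2] at key
  refine key.trans (le_of_eq ?_)
  ring

lemma n2_contg {r : ℝ} {n : ℕ} {lam : ℝ} {h : ℂ → ℂ} {E : ℂ → ℝ} (hL : Loc r n lam h E) :
    DifferentiableOn ℂ (deriv h) (ball 0 r) := hL.an.deriv isOpen_ball

/-- the first relation: `m_1 = O(A + et)` -/
lemma n2_first (h1 : S_RIp) {r H Λ : ℝ} {n : ℕ} {lam : ℕ → ℝ} {h : ℕ → ℂ → ℂ}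
    {E : ℕ → ℂ → ℝ} (hB : BU r n H Λ lam h E) {s : ℝ} (hs : 0 < s) (hsr : 2 * s < r) :
    ∃ C, 0 ≤ C ∧ ∀ j : ℕ,
      |-(n : ℝ) + (8 * π * (1 + n) - ms s (E j)) / (4 * π)| * ‖mo s (E j) (fun z => z)‖ ≤
        C * ((∫ z in ball (0 : ℂ) s, ‖z‖ ^ 2 * E j z) + et (h j)) := by
  obtain ⟨C, hC, hR⟩ := n2_rip h1 hB hs hsr (Cc := 1) zero_le_one
  have hr : 0 < r := by linarith
  have hH0 : 0 ≤ H := (norm_nonneg _).trans (hB.hH 0 0 (mem_ball_self hr))
  have hL0 : 0 ≤ Λ := (hB.loc 0).lam0.trans (hB.lamb 0)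
  refine ⟨C + (H + Λ / 4 * s), by positivity, fun j => ?_⟩
  have hL := hB.loc j
  have key := hR j 0 1 0 (by simp) (by simp) (by simp)
  have hcont : ContinuousOn (deriv (h j)) (ball 0 r) := (n2_contg hL).continuousOn
  have e1 : mo s (E j) (fun z => ((0 : ℂ) + 2 * 1 * z + 3 * 0 * z ^ 2) +
      (0 * z + 1 * z ^ 2 + 0 * z ^ 3) * (n / z + deriv (h j) z - lam j / 4 * conj z)) =
      mo s (E j) (fun z => (2 + n) * z + z ^ 2 * (deriv (h j) z - lam j / 4 * conj z)) := by
    apply n2_mo_congr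
    intro z _ hz
    field_simp
    ring
  have hQc : ContinuousOn (fun z => z ^ 2 * (deriv (h j) z - (lam j : ℂ) / 4 * conj z))
      (ball 0 r) := by
    apply ContinuousOn.mul (by fun_prop)
    apply hcont.sub
    exact (continuous_const.mul Complex.continuous_conj).continuousOn
  have e2 : mo s (E j) (fun z => (2 + n) * z + z ^ 2 * (deriv (h j) z - lam j / 4 * conj z)) =
      (2 + n) * mo s (E j) (fun z => z) +
        mo s (E j) (fun z => z ^ 2 * (deriv (h j) z - lam j / 4 * conj z)) := by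
    rw [n2_mo_add hL.cont (by linarith : s < r) (by fun_prop) hQc, n2_mo_mul]
  have hQ : ‖mo s (E j) (fun z => z ^ 2 * (deriv (h j) z - lam j / 4 * conj z))‖ ≤
      (H + Λ / 4 * s) * ∫ z in ball (0 : ℂ) s, ‖z‖ ^ 2 * E j z := by
    apply n2_mo_le hL.cont hL.nonneg
    intro z hz
    have hzr : z ∈ ball (0 : ℂ) r := ball_subset_ball (by linarith) hz
    have hzs : ‖z‖ < s := by simpa using hz
    rw [norm_mul, norm_pow, mul_comm]
    apply mul_le_mul_of_nonneg_right _ (by positivity)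
    calc ‖deriv (h j) z - lam j / 4 * conj z‖ ≤ ‖deriv (h j) z‖ + ‖(lam j : ℂ) / 4 * conj z‖ :=
          norm_sub_le _ _
      _ ≤ H + Λ / 4 * s := by
          apply add_le_add (hB.hH j z hzr)
          rw [norm_mul, RCLike.norm_conj, norm_div, Complex.norm_real, Real.norm_eq_abs,
            abs_of_nonneg hL.lam0]
          norm_num
          have := hB.lamb j
          have := hL.lam0
          gcongr
  rw [e1, e2] at key
  have hA0 : 0 ≤ ∫ z in ball (0 : ℂ) s, ‖z‖ ^ 2 * E j z :=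
    integral_nonneg fun z => mul_nonneg (by positivity) (hL.nonneg z)
  have het : 0 < et (h j) := Real.exp_pos _
  obtain ⟨m1, hm1⟩ : ∃ m1, m1 = mo s (E j) (fun z => z) := ⟨_, rfl⟩
  obtain ⟨Q, hQd⟩ : ∃ Q, Q = mo s (E j) (fun z => z ^ 2 * (deriv (h j) z - lam j / 4 * conj z)) :=
    ⟨_, rfl⟩
  rw [← hm1] at key ⊢
  rw [← hQd] at key hQ
  obtain ⟨A, hA⟩ : ∃ A, A = ∫ z in ball (0 : ℂ) s, ‖z‖ ^ 2 * E j z := ⟨_, rfl⟩
  rw [← hA] at hQ hA0 ⊢
  have hpi : (π : ℂ) ≠ 0 := by exact_mod_cast Real.pi_ne_zero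
  have e3 : ((-(n : ℝ) + (8 * π * (1 + n) - ms s (E j)) / (4 * π) : ℝ) : ℂ) * m1 =
      ((2 + n) * m1 + Q - 1 / (8 * π) * (0 * (ms s (E j) : ℂ) ^ 2 +
        2 * 1 * (ms s (E j) : ℂ) * m1 +
        0 * (2 * (ms s (E j) : ℂ) * mo s (E j) (fun z => z ^ 2) + m1 ^ 2))) - Q := by
    push_cast
    field_simp
    ring
  have e4 : |-(n : ℝ) + (8 * π * (1 + n) - ms s (E j)) / (4 * π)| * ‖m1‖ =
      ‖((-(n : ℝ) + (8 * π * (1 + n) - ms s (E j)) / (4 * π) : ℝ) : ℂ) * m1‖ := by
    rw [norm_mul, Complex.norm_real, Real.norm_eq_abs]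
  rw [e4, e3]
  calc _ ≤ C * et (h j) + (H + Λ / 4 * s) * A := (norm_sub_le _ _).trans (add_le_add key hQ)
    _ ≤ (C + (H + Λ / 4 * s)) * (A + et (h j)) := by
        have h5 : 0 ≤ H + Λ / 4 * s := by positivity
        nlinarith [mul_nonneg hC hA0, mul_nonneg h5 het.le]

/-- the second relation -/
lemma n2_second (h1 : S_RIp) {r H Λ : ℝ} {n : ℕ} (hn : 2 ≤ n) {lam : ℕ → ℝ} {h : ℕ → ℂ → ℂ}
    {E : ℕ → ℂ → ℝ} (hB : BU r n H Λ lam h E) {s : ℝ} (hs : 0 < s) (hsr : 2 * s < r) :
    ∃ C, 0 ≤ C ∧ ∀ j : ℕ,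
      |ms s (E j) * (8 * π * (1 + n) - ms s (E j)) / (8 * π) -
        lam j / 4 * ∫ z in ball (0 : ℂ) s, ‖z‖ ^ 2 * E j z| ≤
      C * (et (h j) + (∫ z in ball (0 : ℂ) s, ‖z‖ ^ 3 * E j z) +
        |8 * π * (1 + n) - ms s (E j)| * (‖mo s (E j) (fun z => z)‖ +
          ∫ z in ball (0 : ℂ) s, ‖z‖ ^ 2 * E j z) + ‖mo s (E j) (fun z => z)‖ ^ 2) := by
  have hr : 0 < r := by linarith
  have hH0 : 0 ≤ H := (norm_nonneg _).trans (hB.hH 0 0 (mem_ball_self hr))
  have hL0 : 0 ≤ Λ := (hB.loc 0).lam0.trans (hB.lamb 0)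
  obtain ⟨Cc, hCc⟩ : ∃ Cc, Cc = 1 + H + (2 * H / r + H * H) := ⟨_, rfl⟩
  have hCc0 : 0 ≤ Cc := by rw [hCc]; positivity
  have hCc1 : 1 ≤ Cc := by
    rw [hCc]
    have : 0 ≤ 2 * H / r + H * H := by positivity
    linarith
  obtain ⟨C, hC, hR⟩ := n2_rip h1 hB hs hsr hCc0
  obtain ⟨G, hG⟩ : ∃ G, G = 4 * H / r / r := ⟨_, rfl⟩
  have hG0 : 0 ≤ G := by rw [hG]; positivity
  obtain ⟨Cq, hCq⟩ : ∃ Cq, Cq = G + Cc * (2 * H / r) + Cc * G * s + Cc * H +
    Cc * (2 * H / r) * s + Cc * G * s ^ 2 + Λ / 4 * (Cc + Cc * s) := ⟨_, rfl⟩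
  have hCq0 : 0 ≤ Cq := by rw [hCq]; positivity
  refine ⟨C + Cq + Cc, by positivity, fun j => ?_⟩
  have hL := hB.loc j
  have hdg := n2_contg hL
  obtain ⟨h2, g2, hg2c, hh2, hg2, htay⟩ := n2_taylor hr hdg (hB.hH j)
  obtain ⟨k1, hk1⟩ : ∃ k1, k1 = deriv (h j) 0 := ⟨_, rfl⟩
  rw [← hk1] at htay
  have hk1n : ‖k1‖ ≤ H := by rw [hk1]; exact hB.hH j 0 (mem_ball_self hr)
  have hn1 : (1 : ℝ) ≤ n := by exact_mod_cast (by omega : 1 ≤ n)
  have hn2 : (1 : ℝ) ≤ (n : ℝ) - 1 := by
    have : (2 : ℝ) ≤ n := by exact_mod_cast hn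
    linarith
  have hnC : (n : ℂ) ≠ 0 := by exact_mod_cast (by omega : n ≠ 0)
  have hnC1 : (n : ℂ) - 1 ≠ 0 := by
    have h0 : ((n : ℝ) - 1 : ℝ) ≠ 0 := by linarith
    exact_mod_cast h0
  obtain ⟨f2, hf2⟩ : ∃ f2, f2 = k1 / n := ⟨_, rfl⟩
  obtain ⟨f3, hf3⟩ : ∃ f3, f3 = (h2 + f2 * k1) / (n - 1) := ⟨_, rfl⟩
  have ek1 : k1 = n * f2 := by rw [hf2]; field_simp
  have eh2 : h2 = (n - 1) * f3 - f2 * k1 := by rw [hf3]; field_simp; ring
  have hf2n : ‖f2‖ ≤ H := by
    rw [hf2, norm_div, Complex.norm_natCast]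
    exact (div_le_self (norm_nonneg _) hn1).trans hk1n
  have hf3n : ‖f3‖ ≤ 2 * H / r + H * H := by
    rw [hf3, norm_div]
    have e : ‖(n : ℂ) - 1‖ = (n : ℝ) - 1 := by
      have : (n : ℂ) - 1 = (((n : ℝ) - 1 : ℝ) : ℂ) := by push_cast; ring
      rw [this, Complex.norm_real, Real.norm_eq_abs, abs_of_nonneg (by linarith)]
    rw [e]
    refine (div_le_self (norm_nonneg _) hn2).trans ?_
    refine (norm_add_le _ _).trans (add_le_add hh2 ?_)
    rw [norm_mul]
    exact mul_le_mul hf2n hk1n (norm_nonneg _) hH0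
  have hf2c : ‖f2‖ ≤ Cc := by
    have : 0 ≤ 2 * H / r + H * H := by positivity
    rw [hCc]; linarith
  have hf3c : ‖f3‖ ≤ Cc := by rw [hCc]; linarith
  have key := hR j 1 f2 f3 (by simpa using hCc1) hf2c hf3c
  obtain ⟨Qf, hQf⟩ : ∃ Qf : ℂ → ℂ, Qf = fun z => z ^ 3 * (g2 z + f2 * h2 + f2 * g2 z * z +
    f3 * k1 + f3 * h2 * z + f3 * g2 z * z ^ 2) -
    (lam j : ℂ) / 4 * (f2 * z ^ 2 * conj z + f3 * z ^ 3 * conj z) := ⟨_, rfl⟩
  have hconj : Continuous (fun z : ℂ => conj z) := Complex.continuous_conj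
  have hQfc : ContinuousOn Qf (ball 0 r) := by
    rw [hQf]
    have hc : ∀ f : ℂ → ℂ, Continuous f → ContinuousOn f (ball (0 : ℂ) r) :=
      fun f hf => hf.continuousOn
    apply ContinuousOn.sub
    · apply ContinuousOn.mul (by fun_prop)
      exact ((((hg2c.add (hc _ continuous_const)).add
        ((hc _ continuous_const |>.mul hg2c).mul (hc _ continuous_id))).add
        (hc _ continuous_const)).add (hc _ (by fun_prop))).add
        ((hc _ continuous_const |>.mul hg2c).mul (hc _ (by fun_prop)))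
    · exact hc _ (by fun_prop)
  have e1 : mo s (E j) (fun z => ((1 : ℂ) + 2 * f2 * z + 3 * f3 * z ^ 2) +
      (1 * z + f2 * z ^ 2 + f3 * z ^ 3) * (n / z + deriv (h j) z - lam j / 4 * conj z)) =
      mo s (E j) (fun z => ((1 + n) * 1 + (((2 + n) * f2 + k1) * z +
        (((3 + n) * f3 + h2 + f2 * k1) * z ^ 2 +
        (-(lam j : ℂ) / 4) * ((‖z‖ ^ 2 : ℝ) : ℂ)))) + Qf z) := by
    apply n2_mo_congr
    intro z hz hz0
    have hzr : z ∈ ball (0 : ℂ) r := ball_subset_ball (by linarith) hz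
    have hzz : z * conj z = ((‖z‖ ^ 2 : ℝ) : ℂ) := by
      rw [Complex.mul_conj']; push_cast; ring
    rw [← hzz, htay z hzr, hQf]
    field_simp
    ring
  have c0 : ContinuousOn (fun _ : ℂ => (1 + (n : ℂ)) * 1) (ball 0 r) := by fun_prop
  have c1 : ContinuousOn (fun z : ℂ => ((2 + n) * f2 + k1) * z) (ball 0 r) := by fun_prop
  have c2 : ContinuousOn (fun z : ℂ => ((3 + n) * f3 + h2 + f2 * k1) * z ^ 2) (ball 0 r) := by
    fun_prop
  have c3 : ContinuousOn (fun z : ℂ => (-(lam j : ℂ) / 4) * ((‖z‖ ^ 2 : ℝ) : ℂ)) (ball 0 r) := by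
    apply Continuous.continuousOn
    exact continuous_const.mul (Complex.continuous_ofReal.comp (by fun_prop))
  have hsr' : s < r := by linarith
  have c23 : ContinuousOn (fun z : ℂ => ((3 + n) * f3 + h2 + f2 * k1) * z ^ 2 +
      (-(lam j : ℂ) / 4) * ((‖z‖ ^ 2 : ℝ) : ℂ)) (ball 0 r) := c2.add c3
  have c123 : ContinuousOn (fun z : ℂ => ((2 + n) * f2 + k1) * z +
      (((3 + n) * f3 + h2 + f2 * k1) * z ^ 2 +
      (-(lam j : ℂ) / 4) * ((‖z‖ ^ 2 : ℝ) : ℂ))) (ball 0 r) := c1.add c23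
  have c0123 : ContinuousOn (fun z : ℂ => (1 + (n : ℂ)) * 1 + (((2 + n) * f2 + k1) * z +
      (((3 + n) * f3 + h2 + f2 * k1) * z ^ 2 +
      (-(lam j : ℂ) / 4) * ((‖z‖ ^ 2 : ℝ) : ℂ)))) (ball 0 r) := c0.add c123
  have e2 := n2_mo_add hL.cont hsr' c0123 hQfc
  have e3 := n2_mo_add hL.cont hsr' c0 c123
  have e4 := n2_mo_add hL.cont hsr' c1 c23
  have e5 := n2_mo_add hL.cont hsr' c2 c3
  have e6 := n2_mo_mul s (E j) (1 + (n : ℂ)) (fun _ => 1)
  have e7 := n2_mo_mul s (E j) ((2 + n) * f2 + k1) (fun z => z)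
  have e8 := n2_mo_mul s (E j) ((3 + n) * f3 + h2 + f2 * k1) (fun z => z ^ 2)
  have e9 := n2_mo_mul s (E j) (-(lam j : ℂ) / 4) (fun z => ((‖z‖ ^ 2 : ℝ) : ℂ))
  have e10 := n2_mo_real s (E j) (fun z => ‖z‖ ^ 2)
  have e11 := n2_mo_one s (E j)
  rw [e1, e2, e3, e4, e5, e6, e7, e8, e9, e10, e11] at key
  -- bounds
  have hQ : ‖mo s (E j) Qf‖ ≤ Cq * ∫ z in ball (0 : ℂ) s, ‖z‖ ^ 3 * E j z := by
    apply n2_mo_le hL.cont hL.nonneg
    intro z hz
    have hzr : z ∈ ball (0 : ℂ) r := ball_subset_ball (by linarith) hz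
    have hzs : ‖z‖ < s := by simpa using hz
    have hz0 := norm_nonneg z
    have hg2z := hg2 z hzr
    rw [← hG] at hg2z
    have b1 : ‖g2 z + f2 * h2 + f2 * g2 z * z + f3 * k1 + f3 * h2 * z + f3 * g2 z * z ^ 2‖ ≤
        G + Cc * (2 * H / r) + Cc * G * s + Cc * H + Cc * (2 * H / r) * s + Cc * G * s ^ 2 := by
      refine (norm_add_le _ _).trans (add_le_add ((norm_add_le _ _).trans (add_le_add
        ((norm_add_le _ _).trans (add_le_add ((norm_add_le _ _).trans (add_le_add
        ((norm_add_le _ _).trans (add_le_add hg2z ?_)) ?_)) ?_)) ?_)) ?_)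
      · rw [norm_mul]; gcongr
      · rw [norm_mul, norm_mul]; gcongr
      · rw [norm_mul]; gcongr
      · rw [norm_mul, norm_mul]; gcongr
      · rw [norm_mul, norm_mul, norm_pow]; gcongr
    have b2 : ‖(lam j : ℂ) / 4 * (f2 * z ^ 2 * conj z + f3 * z ^ 3 * conj z)‖ ≤
        Λ / 4 * (Cc + Cc * s) * ‖z‖ ^ 3 := by
      rw [norm_mul, norm_div, Complex.norm_real, Real.norm_eq_abs, abs_of_nonneg hL.lam0]
      have e : ‖(4 : ℂ)‖ = 4 := by norm_num
      rw [e]
      have b3 : ‖f2 * z ^ 2 * conj z + f3 * z ^ 3 * conj z‖ ≤ (Cc + Cc * s) * ‖z‖ ^ 3 := by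
        refine (norm_add_le _ _).trans ?_
        rw [norm_mul, norm_mul, norm_mul, norm_mul, RCLike.norm_conj, norm_pow, norm_pow]
        calc ‖f2‖ * ‖z‖ ^ 2 * ‖z‖ + ‖f3‖ * ‖z‖ ^ 3 * ‖z‖
            ≤ Cc * ‖z‖ ^ 2 * ‖z‖ + Cc * ‖z‖ ^ 3 * s := by gcongr
          _ = (Cc + Cc * s) * ‖z‖ ^ 3 := by ring
      calc lam j / 4 * ‖f2 * z ^ 2 * conj z + f3 * z ^ 3 * conj z‖
          ≤ Λ / 4 * ((Cc + Cc * s) * ‖z‖ ^ 3) := by
            have := hB.lamb j
            have := hL.lam0
            gcongr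
        _ = _ := by ring
    rw [hQf]
    refine (norm_sub_le _ _).trans ?_
    rw [norm_mul, norm_pow]
    calc ‖z‖ ^ 3 * ‖g2 z + f2 * h2 + f2 * g2 z * z + f3 * k1 + f3 * h2 * z +
          f3 * g2 z * z ^ 2‖ + ‖(lam j : ℂ) / 4 * (f2 * z ^ 2 * conj z + f3 * z ^ 3 * conj z)‖
        ≤ ‖z‖ ^ 3 * (G + Cc * (2 * H / r) + Cc * G * s + Cc * H + Cc * (2 * H / r) * s +
          Cc * G * s ^ 2) + Λ / 4 * (Cc + Cc * s) * ‖z‖ ^ 3 := by gcongr
      _ = Cq * ‖z‖ ^ 3 := by rw [hCq]; ring
  have hm2 : ‖mo s (E j) (fun z => z ^ 2)‖ ≤ 1 * ∫ z in ball (0 : ℂ) s, ‖z‖ ^ 2 * E j z := by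
    apply n2_mo_le hL.cont hL.nonneg
    intro z _
    rw [norm_pow, one_mul]
  rw [one_mul] at hm2
  have hA0 : 0 ≤ ∫ z in ball (0 : ℂ) s, ‖z‖ ^ 2 * E j z :=
    integral_nonneg fun z => mul_nonneg (by positivity) (hL.nonneg z)
  have hI0 : 0 ≤ ∫ z in ball (0 : ℂ) s, ‖z‖ ^ 3 * E j z :=
    integral_nonneg fun z => mul_nonneg (by positivity) (hL.nonneg z)
  have het : 0 < et (h j) := Real.exp_pos _
  generalize mo s (E j) (fun z => z) = m1 at *
  generalize mo s (E j) (fun z => z ^ 2) = m2 at *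
  generalize mo s (E j) Qf = Q at *
  generalize (∫ z in ball (0 : ℂ) s, ‖z‖ ^ 2 * E j z) = A at *
  generalize (∫ z in ball (0 : ℂ) s, ‖z‖ ^ 3 * E j z) = I3 at *
  obtain ⟨M, hM⟩ : ∃ M, M = ms s (E j) := ⟨_, rfl⟩
  rw [← hM] at key ⊢
  obtain ⟨D, hD⟩ : ∃ D, D = 8 * π * (1 + n) - M := ⟨_, rfl⟩
  rw [← hD]
  have hpi : (π : ℂ) ≠ 0 := by exact_mod_cast Real.pi_ne_zero
  have hpM : 1 / (8 * π) * (M : ℂ) = (1 + n) - 1 / (8 * π) * (D : ℂ) := by
    rw [hD]; push_cast; field_simp; ring
  have hid : ((M * D / (8 * π) - lam j / 4 * A : ℝ) : ℂ) =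
      ((1 + n) * (M : ℂ) + (((2 + n) * f2 + k1) * m1 + (((3 + n) * f3 + h2 + f2 * k1) * m2 +
        -(lam j : ℂ) / 4 * (A : ℂ))) + Q -
      1 / (8 * π) * (1 * (M : ℂ) ^ 2 + 2 * f2 * (M : ℂ) * m1 +
        f3 * (2 * (M : ℂ) * m2 + m1 ^ 2))) - Q - (D : ℂ) * (1 / (4 * π) * (f2 * m1 + f3 * m2)) +
        1 / (8 * π) * f3 * m1 ^ 2 := by
    have hpM2 : (1 / (4 * π) : ℂ) = 2 * (1 / (8 * π)) := by field_simp; norm_num
    have hMD : ((M * D / (8 * π) - lam j / 4 * A : ℝ) : ℂ) =
        1 / (8 * π) * (M : ℂ) * D - lam j / 4 * A := by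
      push_cast; field_simp
    rw [hpM2, hMD]
    linear_combination ((M : ℂ) + 2 * f2 * m1 + 2 * f3 * m2) * hpM - m1 * ek1 - m2 * eh2
  have h8 : ‖(1 / (8 * π) : ℂ)‖ ≤ 1 := by
    have : (1 / (8 * π) : ℂ) = ((1 / (8 * π) : ℝ) : ℂ) := by push_cast; ring
    rw [this, Complex.norm_real, Real.norm_eq_abs, abs_of_pos (by positivity),
      div_le_one (by positivity)]
    have := Real.pi_gt_three
    linarith
  have h4 : ‖(1 / (4 * π) : ℂ)‖ ≤ 1 := by
    have : (1 / (4 * π) : ℂ) = ((1 / (4 * π) : ℝ) : ℂ) := by push_cast; ring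
    rw [this, Complex.norm_real, Real.norm_eq_abs, abs_of_pos (by positivity),
      div_le_one (by positivity)]
    have := Real.pi_gt_three
    linarith
  have hnorm : |M * D / (8 * π) - lam j / 4 * A| =
      ‖((M * D / (8 * π) - lam j / 4 * A : ℝ) : ℂ)‖ := by
    rw [Complex.norm_real, Real.norm_eq_abs]
  rw [hnorm, hid]
  have hDn : ‖(D : ℂ)‖ = |D| := by rw [Complex.norm_real, Real.norm_eq_abs]
  have hD0 := abs_nonneg D
  have hm10 := norm_nonneg m1
  have t1 : ‖(D : ℂ) * (1 / (4 * π) * (f2 * m1 + f3 * m2))‖ ≤ |D| * (Cc * (‖m1‖ + A)) := by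
    rw [norm_mul, hDn]
    apply mul_le_mul_of_nonneg_left _ hD0
    rw [norm_mul]
    calc ‖(1 / (4 * π) : ℂ)‖ * ‖f2 * m1 + f3 * m2‖ ≤ 1 * (‖f2 * m1‖ + ‖f3 * m2‖) := by
          apply mul_le_mul h4 (norm_add_le _ _) (norm_nonneg _) zero_le_one
      _ ≤ Cc * ‖m1‖ + Cc * A := by
          rw [norm_mul, norm_mul, one_mul]
          gcongr
      _ = _ := by ring
  have t2 : ‖1 / (8 * π) * f3 * m1 ^ 2‖ ≤ Cc * ‖m1‖ ^ 2 := by
    rw [norm_mul, norm_mul, norm_pow]
    calc ‖(1 / (8 * π) : ℂ)‖ * ‖f3‖ * ‖m1‖ ^ 2 ≤ 1 * Cc * ‖m1‖ ^ 2 := by gcongr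
      _ = _ := by ring
  refine (norm_add_le _ _).trans ?_
  refine (add_le_add ((norm_sub_le _ _).trans (add_le_add ((norm_sub_le _ _).trans
    (add_le_add key hQ)) t1)) t2).trans ?_
  have p1 : 0 ≤ |D| * (‖m1‖ + A) := by positivity
  have p2 : 0 ≤ ‖m1‖ ^ 2 := by positivity
  nlinarith [mul_nonneg hC hI0, mul_nonneg hC p1, mul_nonneg hC p2, mul_nonneg hCq0 het.le,
    mul_nonneg hCq0 p1, mul_nonneg hCq0 p2, mul_nonneg hCc0 het.le, mul_nonneg hCc0 hI0]

/-- the limit argument -/
lemma n2_limit {n : ℕ} (hn : 2 ≤ n) {M A e I3 μ lam : ℕ → ℝ} {Λ C1 C2 : ℝ} (hC1 : 0 ≤ C1)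
    (hC2 : 0 ≤ C2) (hA : ∀ᶠ j in atTop, 0 < A j)
    (hμ : ∀ j, 0 ≤ μ j) (hlam : ∀ j, 0 ≤ lam j ∧ lam j ≤ Λ)
    (hM : Tendsto M atTop (𝓝 (8 * π * (1 + n)))) (hA0 : Tendsto A atTop (𝓝 0))
    (heA : Tendsto (fun j => e j / A j) atTop (𝓝 0))
    (hIA : Tendsto (fun j => I3 j / A j) atTop (𝓝 0))
    (b1 : ∀ j, |-(n : ℝ) + (8 * π * (1 + n) - M j) / (4 * π)| * μ j ≤ C1 * (A j + e j))
    (b2 : ∀ j, |M j * (8 * π * (1 + n) - M j) / (8 * π) - lam j / 4 * A j| ≤
      C2 * (e j + I3 j + |8 * π * (1 + n) - M j| * (μ j + A j) + μ j ^ 2)) :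
    Tendsto (fun j => (1 + n) * (8 * π * (1 + n) - M j) / A j - lam j / 4) atTop (𝓝 0) := by
  have hpi := Real.pi_pos
  obtain ⟨D, hD⟩ : ∃ D : ℕ → ℝ, D = fun j => 8 * π * (1 + n) - M j := ⟨_, rfl⟩
  have hDj : ∀ j, 8 * π * (1 + n) - M j = D j := fun j => by rw [hD]
  have hMj : ∀ j, M j = 8 * π * (1 + n) - D j := fun j => by rw [hD]; ring
  simp only [hDj] at b1 b2 ⊢
  have hD0 : Tendsto D atTop (𝓝 0) := by
    have := (tendsto_const_nhds (x := 8 * π * (1 + (n : ℝ)))).sub hM
    rw [sub_self] at this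
    rw [hD]; exact this
  have hDabs : Tendsto (fun j => |D j|) atTop (𝓝 0) := by
    have := hD0.abs
    rwa [abs_zero] at this
  have hΛ : 0 ≤ Λ := (hlam 0).1.trans (hlam 0).2
  -- eventually
  have ev1 : ∀ᶠ j in atTop, |D j| ≤ 4 * π := (hDabs.eventually_lt_const (by positivity)).mono
    fun j hj => hj.le
  have ev2 : ∀ᶠ j in atTop, e j / A j ≤ 1 := (heA.eventually_lt_const one_pos).mono
    fun j hj => hj.le
  have hμA : ∀ᶠ j in atTop, μ j ≤ 2 * C1 * A j := by
    filter_upwards [ev1, ev2, hA] with j h1 h2 h3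
    have h4 := b1 j
    have hn2 : (2 : ℝ) ≤ n := by exact_mod_cast hn
    have h5 : 1 ≤ |-(n : ℝ) + D j / (4 * π)| := by
      have h6 : |D j / (4 * π)| ≤ 1 := by
        rw [abs_div, abs_of_pos (by positivity : (0 : ℝ) < 4 * π), div_le_one (by positivity)]
        exact h1
      have h7 := (abs_le.mp h6).2
      rw [abs_of_neg (by linarith)]
      linarith
    have h8 : e j ≤ A j := by rwa [div_le_one h3] at h2
    calc μ j = 1 * μ j := (one_mul _).symm
      _ ≤ |-(n : ℝ) + D j / (4 * π)| * μ j := mul_le_mul_of_nonneg_right h5 (hμ j)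
      _ ≤ C1 * (A j + e j) := h4
      _ ≤ C1 * (A j + A j) := by gcongr
      _ = _ := by ring
  -- the main quotient
  obtain ⟨X, hX⟩ : ∃ X : ℕ → ℝ, X = fun j => M j * D j / (8 * π) / A j - lam j / 4 := ⟨_, rfl⟩
  have hX0 : Tendsto X atTop (𝓝 0) := by
    have hup : Tendsto (fun j => C2 * (e j / A j + I3 j / A j + |D j| * (2 * C1 + 1) +
        4 * C1 ^ 2 * A j)) atTop (𝓝 0) := by
      have := ((((heA.add hIA).add (hDabs.mul_const (2 * C1 + 1))).add
        (hA0.const_mul (4 * C1 ^ 2))).const_mul C2)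
      simpa using this
    apply squeeze_zero_norm' _ hup
    filter_upwards [hμA, hA] with j h1 h2
    rw [hX, Real.norm_eq_abs]
    have h3 : M j * D j / (8 * π) / A j - lam j / 4 =
        (M j * D j / (8 * π) - lam j / 4 * A j) / A j := by field_simp
    simp only
    rw [h3, abs_div, abs_of_pos h2, div_le_iff₀ h2]
    refine (b2 j).trans ?_
    have h4 : μ j ^ 2 ≤ (2 * C1 * A j) ^ 2 := pow_le_pow_left₀ (hμ j) h1 2
    have h5 := abs_nonneg (D j)
    calc C2 * (e j + I3 j + |D j| * (μ j + A j) + μ j ^ 2)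
        ≤ C2 * (e j + I3 j + |D j| * (2 * C1 * A j + A j) + (2 * C1 * A j) ^ 2) := by gcongr
      _ = C2 * (e j / A j + I3 j / A j + |D j| * (2 * C1 + 1) + 4 * C1 ^ 2 * A j) * A j := by
          field_simp
          ring
  -- D / A is bounded
  have hM0 : ∀ᶠ j in atTop, 4 * π ≤ M j := by
    filter_upwards [ev1] with j h1
    rw [hMj j]
    have h2 := (abs_le.mp h1).2
    have : (0 : ℝ) ≤ n := by positivity
    nlinarith
  have hXb : ∀ᶠ j in atTop, |X j| ≤ 1 := by
    have := hX0.abs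
    rw [abs_zero] at this
    exact (this.eventually_lt_const one_pos).mono fun j hj => hj.le
  have hDA : ∀ᶠ j in atTop, |D j / A j| ≤ 2 * (1 + Λ / 4) := by
    filter_upwards [hM0, hXb, hA] with j h1 h2 h3
    have hMp : 0 < M j := by linarith
    have e1 : D j / A j = (X j + lam j / 4) * (8 * π / M j) := by
      rw [hX]; field_simp; ring
    have h4 : 8 * π / M j ≤ 2 := by
      rw [div_le_iff₀ hMp]; linarith
    rw [e1, abs_mul, abs_of_pos (by positivity : 0 < 8 * π / M j)]
    have h5 : |X j + lam j / 4| ≤ 1 + Λ / 4 := by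
      refine (abs_add_le _ _).trans (add_le_add h2 ?_)
      have := (hlam j).1
      rw [abs_of_nonneg (by positivity)]
      linarith [(hlam j).2]
    calc |X j + lam j / 4| * (8 * π / M j) ≤ (1 + Λ / 4) * 2 := by
          apply mul_le_mul h5 h4 (by positivity) (by positivity)
      _ = _ := by ring
  have hY0 : Tendsto (fun j => D j / A j * D j / (8 * π)) atTop (𝓝 0) := by
    have hup : Tendsto (fun j => 2 * (1 + Λ / 4) * |D j| / (8 * π)) atTop (𝓝 0) := by
      have := (hDabs.const_mul (2 * (1 + Λ / 4))).div_const (8 * π)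
      simpa using this
    apply squeeze_zero_norm' _ hup
    filter_upwards [hDA] with j h1
    rw [Real.norm_eq_abs, abs_div, abs_mul, abs_of_pos (by positivity : (0 : ℝ) < 8 * π)]
    gcongr
  have hsum := hX0.add hY0
  rw [add_zero] at hsum
  refine hsum.congr' ?_
  filter_upwards [hA] with j h1
  rw [hX]
  simp only
  have : (1 + (n : ℝ)) = (M j + D j) / (8 * π) := by
    rw [hMj j]; field_simp; ring
  rw [this]
  field_simp
  ring

theorem pr_n2 (h1 : S_RIp) (h2 : S_A) (h3 : S_BUf) : S_n2 := by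
  intro r H Λ n lam h E hn hB s hs hsr
  have hz : Tendsto (fun _ : ℕ => (0 : ℂ)) atTop (𝓝 0) := tendsto_const_nhds
  have hsr' : s < r := by linarith
  obtain ⟨f1, _, _, f4, f5⟩ := h3 r n H Λ lam h E hB (fun _ => 0) hz s hs hsr'
  have f6 := h2 r n H Λ lam h E hB (fun _ => 0) hz s hs hsr'.le
  simp only [sub_zero] at f4 f5 f6
  obtain ⟨C1, hC1, b1⟩ := n2_first h1 hB hs hsr
  obtain ⟨C2, hC2, b2⟩ := n2_second h1 hn hB hs hsr
  have het : ∀ j, 0 < et (h j) := fun j => Real.exp_pos _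
  have hA : ∀ᶠ j in atTop, 0 < ∫ z in ball (0 : ℂ) s, ‖z‖ ^ 2 * E j z := by
    filter_upwards [f6.eventually_gt_atTop 0] with j hj
    have := mul_pos hj (het j)
    rwa [div_mul_cancel₀ _ (het j).ne'] at this
  have heA : Tendsto (fun j => et (h j) / ∫ z in ball (0 : ℂ) s, ‖z‖ ^ 2 * E j z) atTop
      (𝓝 0) := by
    have := f6.inv_tendsto_atTop
    refine this.congr fun j => ?_
    simp only [Pi.inv_apply, inv_div]
  exact n2_limit hn hC1 hC2 hA
    (fun j => norm_nonneg _) (fun j => ⟨(hB.loc j).lam0, hB.lamb j⟩) f1 f4 heA f5 b1 b2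

end Pool.Agent.Vx

end

section

set_option autoImplicit false

open Complex Set Filter Topology MeasureTheory Metric
open scoped Real ContDiff

namespace Pool.Agent.Vx

theorem Case1_rect_meas (a b : ℝ) (q : ℂ) : MeasurableSet (rect a b q) := by
  have h1 : Measurable fun z : ℂ => |z.re - q.re| := by fun_prop
  have h2 : Measurable fun z : ℂ => |z.im - q.im| := by fun_prop
  exact (measurableSet_lt h1 measurable_const).inter (measurableSet_lt h2 measurable_const)

theorem Case1_rect_sub (a b : ℝ) : rect a b 0 ⊆ ball 0 ((a + b) / 2) := by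
  rintro z ⟨h1, h2⟩
  simp at h1 h2
  rw [mem_ball_zero_iff]
  calc ‖z‖ ≤ |z.re| + |z.im| := Complex.norm_le_abs_re_add_abs_im z
    _ < _ := by linarith

theorem Case1_rect_fin (a b : ℝ) : volume (rect a b 0) < ⊤ :=
  lt_of_le_of_lt (measure_mono (Case1_rect_sub a b)) measure_ball_lt_top

/-- `y ↦ G (x - y)` is integrable over the period rectangle. -/
theorem Case1_GI (a b : ℝ) (G : ℂ → ℝ) (hG : ∀ T : ℝ, IntegrableOn G (ball 0 T)) (x : ℂ) :
    IntegrableOn (fun y => G (x - y)) (rect a b 0) := by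
  have mp : MeasurePreserving (fun y : ℂ => x - y) volume volume :=
    Measure.measurePreserving_sub_left volume x
  have me : MeasurableEmbedding (fun y : ℂ => x - y) :=
    (MeasurableEquiv.subLeft x).measurableEmbedding
  have h := (mp.integrableOn_comp_preimage me).2 (hG (‖x‖ + (a + b) / 2))
  refine h.mono_set ?_
  intro y hy
  have := Case1_rect_sub a b hy
  rw [mem_ball_zero_iff] at this
  simp only [mem_preimage, mem_ball_zero_iff]
  calc ‖x - y‖ ≤ ‖x‖ + ‖y‖ := norm_sub_le _ _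
    _ < _ := by linarith

theorem Case1_per {f : ℂ → ℝ} {a b : ℝ} (hf : Per a b f) (m k : ℤ) (z : ℂ) :
    f (z + (m * a + k * b * I)) = f z := by
  have h1 : ∀ (m : ℤ) (z : ℂ), f (z + m * a) = f z := by
    intro m
    induction m using Int.induction_on with
    | zero => intro z; simp
    | succ n ih =>
      intro z
      have : z + ((n + 1 : ℤ) : ℂ) * a = (z + ((n : ℤ) : ℂ) * a) + a := by push_cast; ring
      rw [this, (hf _).1, ih]
    | pred n ih =>
      intro z
      have : z + ((-(n : ℤ) : ℤ) : ℂ) * a = (z + ((-(n : ℤ) - 1 : ℤ) : ℂ) * a) + a := by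
        push_cast; ring
      rw [← ih z, this, (hf _).1]
  have h2 : ∀ (k : ℤ) (z : ℂ), f (z + k * (b * I)) = f z := by
    intro k
    induction k using Int.induction_on with
    | zero => intro z; simp
    | succ n ih =>
      intro z
      have : z + ((n + 1 : ℤ) : ℂ) * (b * I) = (z + ((n : ℤ) : ℂ) * (b * I)) + b * I := by
        push_cast; ring
      rw [this, (hf _).2, ih]
    | pred n ih =>
      intro z
      have : z + ((-(n : ℤ) : ℤ) : ℂ) * (b * I) =
          (z + ((-(n : ℤ) - 1 : ℤ) : ℂ) * (b * I)) + b * I := by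
        push_cast; ring
      rw [← ih z, this, (hf _).2]
  have e : z + (m * a + k * b * I) = (z + m * a) + k * (b * I) := by ring
  rw [e, h2, h1]

/-- The closed fundamental rectangle. -/
def Case1_K (a b : ℝ) : Set ℂ := Icc 0 a ×ℂ Icc 0 b

theorem Case1_K_comp (a b : ℝ) : IsCompact (Case1_K a b) :=
  Metric.isCompact_of_isClosed_isBounded (isClosed_Icc.reProdIm isClosed_Icc)
    ((isBounded_Icc 0 a).reProdIm (isBounded_Icc 0 b))

theorem Case1_red (a b : ℝ) (ha : 0 < a) (hb : 0 < b) (z : ℂ) :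
    ∃ m k : ℤ, z + (m * a + k * b * I) ∈ Case1_K a b := by
  refine ⟨-⌊z.re / a⌋, -⌊z.im / b⌋, ?_⟩
  have h1 := Int.floor_le (z.re / a)
  have h2 := Int.lt_floor_add_one (z.re / a)
  have h3 := Int.floor_le (z.im / b)
  have h4 := Int.lt_floor_add_one (z.im / b)
  rw [le_div_iff₀ ha] at h1
  rw [div_lt_iff₀ ha] at h2
  rw [le_div_iff₀ hb] at h3
  rw [div_lt_iff₀ hb] at h4
  show _ ∈ Icc 0 a ×ℂ Icc 0 b
  rw [mem_reProdIm]
  simp
  constructor <;> constructor <;> nlinarith

theorem pr_Case1 (h1 : S_GGr) (h2 : S_GTr) (h3 : S_GHw) (h4 : S_cUp) (h5 : S_Ti) : S_Case1 := by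
  intro a b F m p n ρ v c ρ0 hS hρ0 hρ hC
  obtain ⟨C0, hC0⟩ := hC
  have ha := hS.th.apos
  have hb := hS.th.bpos
  obtain ⟨-, -, -, -, hGint⟩ := h1 a b F hS.th
  have hGtr := h2 a b F hS.th
  obtain ⟨⟨hwc, hwp, hw0, ⟨Ch, hCh⟩, -⟩, -⟩ := h3 a b F m p n hS.th hS.dist
  obtain ⟨Cc, hCc⟩ := h4 a b F m p n hS.th hS.dist
  set G := Gr a b F with hG
  set w := hw a b F p n with hw'
  set R := rect a b 0 with hR
  have hRm : MeasurableSet R := Case1_rect_meas a b 0
  have hRf : volume R < ⊤ := Case1_rect_fin a b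
  have hGI := Case1_GI a b G hGint
  set Ch' : ℝ := max Ch 1 with hCh'
  have hCh1 : 1 ≤ Ch' := le_max_right _ _
  have hwC : ∀ z, w z ≤ Ch' := fun z => (hCh z).trans (le_max_left _ _)
  set V : ℝ := (volume R).toReal with hV
  have hV0 : 0 ≤ V := ENNReal.toReal_nonneg
  -- densities
  have hdE : ∀ j y, dE a b F p n (v j) y = w y * Real.exp (v j y) := fun j y => rfl
  have hdc : ∀ j, Continuous (dE a b F p n (v j)) := fun j =>
    hwc.mul (Real.continuous_exp.comp (hS.sol j).cont)
  have hd0 : ∀ j y, 0 ≤ dE a b F p n (v j) y := fun j y =>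
    mul_nonneg (hw0 y) (Real.exp_pos _).le
  -- lower bound for c j
  set κ : ℝ := ρ0 / 2 / (Ch' * (V + 1)) with hκ
  have hκ0 : 0 < κ := by positivity
  have hlow : ∀ᶠ j in atTop, Real.log κ ≤ c j + C0 := by
    filter_upwards [hC0, hρ.eventually_const_lt (show ρ0 / 2 < ρ0 by linarith)] with j hj hj2
    have e1 : ρ j = ∫ y in R, dE a b F p n (v j) y := (hS.sol j).mass.symm
    have e2 : ∫ y in R, dE a b F p n (v j) y ≤ ∫ y in R, Ch' * Real.exp (c j + C0) := by
      refine setIntegral_mono_on ?_ (integrableOn_const hRf.ne enorm_ne_top) hRm ?_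
      · refine Measure.integrableOn_of_bounded (M := Ch' * Real.exp (c j + C0)) hRf.ne
          (hdc j).aestronglyMeasurable (ae_of_all _ fun y => ?_)
        rw [Real.norm_eq_abs, abs_of_nonneg (hd0 j y), hdE]
        have := (abs_le.1 (hj y)).2
        exact mul_le_mul (hwC y) (Real.exp_le_exp.2 (by linarith)) (Real.exp_pos _).le
          (by linarith)
      · intro y _
        rw [hdE]
        have := (abs_le.1 (hj y)).2
        exact mul_le_mul (hwC y) (Real.exp_le_exp.2 (by linarith)) (Real.exp_pos _).le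
          (by linarith)
    rw [setIntegral_const, smul_eq_mul, measureReal_def] at e2
    have e3 : κ ≤ Real.exp (c j + C0) := by
      rw [hκ, div_le_iff₀ (by positivity)]
      have hp := Real.exp_pos (c j + C0)
      have : V * (Ch' * Real.exp (c j + C0)) ≤ Real.exp (c j + C0) * (Ch' * (V + 1)) := by
        nlinarith [mul_nonneg hV0 hp.le, mul_pos (lt_of_lt_of_le one_pos hCh1) hp]
      linarith
    calc Real.log κ ≤ Real.log (Real.exp (c j + C0)) := Real.log_le_log hκ0 e3
      _ = _ := Real.log_exp _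
  set B0 : ℝ := |Cc| + 2 * |C0| + |Real.log κ| with hB0
  have hvb : ∀ᶠ j in atTop, ∀ z, |v j z| ≤ B0 := by
    filter_upwards [hC0, hlow] with j hj hj2 z
    have k1 := abs_le.1 (hj z)
    have k2 := hCc (ρ j) (v j) (c j) (hS.pos j) (hS.le j) (hS.sol j)
    have k3 := le_abs_self Cc
    have k4 := le_abs_self C0
    have k5 := neg_abs_le (Real.log κ)
    have k6 := abs_nonneg (Real.log κ)
    have k7 := abs_nonneg Cc
    have k8 := abs_nonneg C0
    rw [abs_le]
    constructor <;> linarith [k1.1, k1.2]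
  obtain ⟨j0, hj0⟩ := eventually_atTop.1 hvb
  set B : ℝ := Ch' * Real.exp B0 with hB
  have hB0' : 0 < B := by positivity
  have hEb : ∀ j, j0 ≤ j → ∀ y, |dE a b F p n (v j) y| ≤ B := by
    intro j hj y
    rw [abs_of_nonneg (hd0 j y), hdE]
    have := (abs_le.1 (hj0 j hj y)).2
    exact mul_le_mul (hwC y) (Real.exp_le_exp.2 this) (Real.exp_pos _).le (by linarith)
  have hGEI : ∀ j, j0 ≤ j → ∀ x, IntegrableOn (fun y => G (x - y) * dE a b F p n (v j) y) R := by
    intro j hj x
    refine Integrable.mul_bdd (c := B) (hGI x) (hdc j).aestronglyMeasurable ?_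
    exact ae_of_all _ fun y => by rw [Real.norm_eq_abs]; exact hEb j hj y
  -- equicontinuity
  have hequi : ∀ ε, 0 < ε → ∃ δ, 0 < δ ∧ ∀ j, j0 ≤ j → ∀ x x' : ℂ, ‖x - x'‖ < δ →
      |v j x - v j x'| < ε := by
    intro ε hε
    obtain ⟨δ, hδ, hδ'⟩ := hGtr (ε / (2 * B)) (by positivity)
    refine ⟨δ, hδ, fun j hj x x' hx => ?_⟩
    obtain ⟨i1, i2⟩ := hδ' x x' hx
    have e1 : v j x - v j x' =
        ∫ y in R, (G (x - y) - G (x' - y)) * dE a b F p n (v j) y := by
      rw [(hS.sol j).eq x, (hS.sol j).eq x']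
      have : ∫ y in R, (G (x - y) - G (x' - y)) * dE a b F p n (v j) y =
          (∫ y in R, G (x - y) * dE a b F p n (v j) y) -
            ∫ y in R, G (x' - y) * dE a b F p n (v j) y := by
        rw [← integral_sub (hGEI j hj x) (hGEI j hj x')]
        congr 1; ext y; ring
      rw [this]
      unfold ti
      ring
    rw [e1]
    have e2 : |∫ y in R, (G (x - y) - G (x' - y)) * dE a b F p n (v j) y| ≤
        ∫ y in R, |G (x - y) - G (x' - y)| * B := by
      rw [← Real.norm_eq_abs]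
      refine norm_integral_le_of_norm_le (i1.mul_const B) (ae_of_all _ fun y => ?_)
      rw [norm_mul, Real.norm_eq_abs, Real.norm_eq_abs]
      exact mul_le_mul_of_nonneg_left (hEb j hj y) (abs_nonneg _)
    have e3 : ∫ y in R, |G (x - y) - G (x' - y)| * B ≤ ε / (2 * B) * B := by
      rw [integral_mul_const]
      exact mul_le_mul_of_nonneg_right i2 hB0'.le
    have e4 : ε / (2 * B) * B = ε / 2 := by field_simp
    linarith
  -- Arzela-Ascoli on the closed rectangle
  have : CompactSpace (Case1_K a b) := isCompact_iff_compactSpace.1 (Case1_K_comp a b)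
  let f : ℕ → BoundedContinuousFunction (Case1_K a b) ℝ := fun j =>
    BoundedContinuousFunction.mkOfCompact
      ⟨fun z => v (j + j0) z, (hS.sol (j + j0)).cont.comp continuous_subtype_val⟩
  have hf : ∀ j (z : Case1_K a b), f j z = v (j + j0) z := fun j z => rfl
  have hcomp : IsCompact (closure (range f)) := by
    refine BoundedContinuousFunction.arzela_ascoli (Icc (-B0) B0) isCompact_Icc (range f) ?_ ?_
    · rintro g z ⟨j, rfl⟩
      rw [hf]
      exact abs_le.1 (hj0 (j + j0) (Nat.le_add_left _ _) z)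
    · intro x
      rw [Metric.equicontinuousAt_iff]
      intro ε hε
      obtain ⟨δ, hδ, hδ'⟩ := hequi ε hε
      refine ⟨δ, hδ, fun y hy i => ?_⟩
      obtain ⟨g, j, rfl⟩ := i
      show dist (f j x) (f j y) < ε
      rw [hf, hf, Real.dist_eq]
      refine hδ' (j + j0) (Nat.le_add_left _ _) x y ?_
      rw [← dist_eq_norm, dist_comm]
      exact hy
  obtain ⟨g, -, φ, hφ, hlim⟩ := hcomp.tendsto_subseq (x := f)
    (fun j => subset_closure (mem_range_self j))
  have hunif := BoundedContinuousFunction.tendsto_iff_tendstoUniformly.1 hlim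
  choose mm kk hmk using Case1_red a b ha hb
  let red : ℂ → Case1_K a b := fun z => ⟨_, hmk z⟩
  have hred : ∀ j z, v j (red z) = v j z := fun j z => Case1_per (hS.sol j).per _ _ _
  let v0 : ℂ → ℝ := fun z => g (red z)
  let ψ : ℕ → ℕ := fun i => φ i + j0
  have hψ : Tendsto ψ atTop atTop := tendsto_atTop_mono (fun i => Nat.le_add_right _ _) hφ.tendsto_atTop
  have hψ0 : ∀ i, j0 ≤ ψ i := fun i => Nat.le_add_left _ _
  have hU : TendstoUniformly (fun i z => v (ψ i) z) v0 atTop := by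
    rw [Metric.tendstoUniformly_iff] at hunif ⊢
    intro ε hε
    filter_upwards [hunif ε hε] with i hi z
    have := hi (red z)
    rw [← hred (ψ i) z]
    exact this
  have hpt : ∀ z, Tendsto (fun i => v (ψ i) z) atTop (𝓝 (v0 z)) := fun z => hU.tendsto_at z
  have hv0c : Continuous v0 :=
    hU.continuous (Frequently.of_forall fun i => (hS.sol (ψ i)).cont)
  have hv0p : Per a b v0 := by
    intro z
    constructor
    · refine tendsto_nhds_unique (hpt (z + a)) ?_
      refine (hpt z).congr fun i => ?_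
      exact (((hS.sol (ψ i)).per z).1).symm
    · refine tendsto_nhds_unique (hpt (z + b * I)) ?_
      refine (hpt z).congr fun i => ?_
      exact (((hS.sol (ψ i)).per z).2).symm
  have hEpt : ∀ y, Tendsto (fun i => dE a b F p n (v (ψ i)) y) atTop
      (𝓝 (dE a b F p n v0 y)) := by
    intro y
    exact Tendsto.const_mul _ ((Real.continuous_exp.tendsto _).comp (hpt y))
  -- limits of the integrals
  have hmass : Tendsto (fun i => ti a b (dE a b F p n (v (ψ i)))) atTop
      (𝓝 (ti a b (dE a b F p n v0))) := by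
    refine tendsto_integral_of_dominated_convergence (fun _ => B) ?_ ?_ ?_ ?_
    · exact fun i => (hdc (ψ i)).aestronglyMeasurable
    · exact integrableOn_const hRf.ne enorm_ne_top
    · exact fun i => ae_of_all _ fun y => by
        rw [Real.norm_eq_abs]; exact hEb _ (hψ0 i) y
    · exact ae_of_all _ fun y => hEpt y
  have hpotl : ∀ x, Tendsto (fun i => ti a b (fun y => G (x - y) * dE a b F p n (v (ψ i)) y))
      atTop (𝓝 (ti a b (fun y => G (x - y) * dE a b F p n v0 y))) := by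
    intro x
    refine tendsto_integral_of_dominated_convergence (fun y => |G (x - y)| * B) ?_ ?_ ?_ ?_
    · exact fun i => (hGEI _ (hψ0 i) x).aestronglyMeasurable
    · exact (hGI x).abs.mul_const B
    · exact fun i => ae_of_all _ fun y => by
        rw [norm_mul, Real.norm_eq_abs, Real.norm_eq_abs]
        exact mul_le_mul_of_nonneg_left (hEb _ (hψ0 i) y) (abs_nonneg _)
    · exact ae_of_all _ fun y => (hEpt y).const_mul _
  refine ⟨v0, v0 0 - ti a b (fun y => G (0 - y) * dE a b F p n v0 y), hv0c, hv0p, ?_, ?_⟩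
  · refine tendsto_nhds_unique hmass ?_
    refine (hρ.comp hψ).congr fun i => ?_
    exact (hS.sol (ψ i)).mass.symm
  · intro x
    have hcl : Tendsto (fun i => c (ψ i)) atTop
        (𝓝 (v0 0 - ti a b (fun y => G (0 - y) * dE a b F p n v0 y))) := by
      refine ((hpt 0).sub (hpotl 0)).congr fun i => ?_
      rw [(hS.sol (ψ i)).eq 0]
      ring
    refine tendsto_nhds_unique (hpt x) ?_
    refine (hcl.add (hpotl x)).congr fun i => ?_
    exact ((hS.sol (ψ i)).eq x).symm

end Pool.Agent.Vx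

end

section

/-!
# MP_afe918_an, item Case2: concentration forces `ρ j < ρ0` (helper47)
-/

set_option autoImplicit false

open Complex Set Filter Topology MeasureTheory Metric
open scoped Real ContDiff ComplexConjugate

namespace Pool.Agent.Vx

theorem case2_setint (q : ℂ) (r : ℝ) (f : ℂ → ℝ) :
    ∫ z in ball (0 : ℂ) r, f (q + z) = ∫ z in ball q r, f z := by
  have h := (measurePreserving_add_left (volume : Measure ℂ) q).setIntegral_preimage_emb
    (measurableEmbedding_addLeft q) f (ball q r)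
  have e : (fun x => q + x) ⁻¹' ball q r = ball (0 : ℂ) r := by
    ext z; simp [dist_eq_norm]
  rw [e] at h
  exact h

theorem case2_sep {a b : ℝ} (ha : 0 < a) (hb : 0 < b) {x : ℂ} (hx : ¬ Lat a b x) :
    ∃ δ : ℝ, 0 < δ ∧ ∀ t, Lat a b t → δ ≤ ‖x - t‖ := by
  refine ⟨max |x.re - round (x.re / a) * a| |x.im - round (x.im / b) * b|, ?_, ?_⟩
  · by_contra hcon
    push Not at hcon
    have h1 : |x.re - round (x.re / a) * a| ≤ 0 := le_trans (le_max_left _ _) hcon
    have h2 : |x.im - round (x.im / b) * b| ≤ 0 := le_trans (le_max_right _ _) hcon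
    have h1' := abs_nonpos_iff.mp h1
    have h2' := abs_nonpos_iff.mp h2
    apply hx
    refine ⟨round (x.re / a), round (x.im / b), ?_⟩
    apply Complex.ext
    · simp; linarith
    · simp; linarith
  · rintro t ⟨m, k, rfl⟩
    have key : ∀ (y s : ℝ) (j : ℤ), 0 < s → |y - round (y / s) * s| ≤ |y - j * s| := by
      intro y s j hs
      have := round_le (y / s) j
      have e1 : y - round (y / s) * s = (y / s - round (y / s)) * s := by field_simp
      have e2 : y - j * s = (y / s - j) * s := by field_simp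
      rw [e1, e2, abs_mul, abs_mul]
      exact mul_le_mul_of_nonneg_right this (abs_nonneg _)
    apply max_le
    · refine (key x.re a m ha).trans ?_
      have := Complex.abs_re_le_norm (x - (m * a + k * b * I))
      simpa using this
    · refine (key x.im b k hb).trans ?_
      have := Complex.abs_im_le_norm (x - (m * a + k * b * I))
      simpa using this

theorem case2_BU_shift {r : ℝ} {n : ℕ} {H Λ : ℝ} {lam : ℕ → ℝ} {h : ℕ → ℂ → ℂ}
    {E : ℕ → ℂ → ℝ} (hb : BU r n H Λ lam h E) (J : ℕ) :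
    BU r n H Λ (fun j => lam (j + J)) (fun j => h (j + J)) (fun j => E (j + J)) where
  loc j := hb.loc (j + J)
  lamb j := hb.lamb (j + J)
  hH j := hb.hH (j + J)
  out s hs := by
    obtain ⟨C, hC⟩ := hb.out s hs
    exact ⟨C, fun j => hC (j + J)⟩
  small := (tendsto_add_atTop_iff_nat J).mpr hb.small
  mass := (tendsto_add_atTop_iff_nat J).mpr hb.mass

/-- The union of the balls around the translates of `q`. -/
def case2_S (a b r : ℝ) (q : ℂ) : Set ℂ := {z | ∃ t, Lat a b t ∧ ‖z - q - t‖ < r}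

theorem case2_S_open (a b r : ℝ) (q : ℂ) : IsOpen (case2_S a b r q) := by
  have : case2_S a b r q = ⋃ t ∈ {t | Lat a b t}, ball (q + t) r := by
    ext z
    simp only [case2_S, mem_ofPred_eq, mem_iUnion, mem_ball, dist_eq_norm, exists_prop]
    constructor
    · rintro ⟨t, ht, h⟩
      exact ⟨t, ht, by rwa [← sub_sub]⟩
    · rintro ⟨t, ht, h⟩
      exact ⟨t, ht, by rwa [← sub_sub] at h⟩
  rw [this]
  exact isOpen_biUnion fun t _ => isOpen_ball

theorem case2_S_per1 (a b r : ℝ) (q z : ℂ) :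
    z + a ∈ case2_S a b r q ↔ z ∈ case2_S a b r q := by
  constructor
  · rintro ⟨t, ⟨m, k, rfl⟩, h⟩
    refine ⟨(m - 1 : ℤ) * a + k * b * I, ⟨m - 1, k, rfl⟩, ?_⟩
    convert h using 2
    push_cast; ring
  · rintro ⟨t, ⟨m, k, rfl⟩, h⟩
    refine ⟨(m + 1 : ℤ) * a + k * b * I, ⟨m + 1, k, rfl⟩, ?_⟩
    convert h using 2
    push_cast; ring

theorem case2_S_per2 (a b r : ℝ) (q z : ℂ) :
    z + b * I ∈ case2_S a b r q ↔ z ∈ case2_S a b r q := by
  constructor
  · rintro ⟨t, ⟨m, k, rfl⟩, h⟩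
    refine ⟨m * a + (k - 1 : ℤ) * b * I, ⟨m, k - 1, rfl⟩, ?_⟩
    convert h using 2
    push_cast; ring
  · rintro ⟨t, ⟨m, k, rfl⟩, h⟩
    refine ⟨m * a + (k + 1 : ℤ) * b * I, ⟨m, k + 1, rfl⟩, ?_⟩
    convert h using 2
    push_cast; ring

theorem case2_S_rect {a b r : ℝ} (ha : 0 < a) (hb : 0 < b) (hra : r ≤ a / 4) (hrb : r ≤ b / 4)
    (q : ℂ) : case2_S a b r q ∩ rect a b q = ball q r := by
  have key : ∀ (x s : ℝ) (m : ℤ), 0 < s → |x| < s / 2 → |x - m * s| < s / 4 → m = 0 := by
    intro x s m hs h1 h2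
    by_contra hm
    have h3 : (1 : ℝ) ≤ |(m : ℝ)| := by exact_mod_cast Int.one_le_abs hm
    have h4 : |(m : ℝ) * s| < s := by
      have : (m : ℝ) * s = x - (x - m * s) := by ring
      rw [this]
      calc |x - (x - m * s)| ≤ |x| + |x - m * s| := abs_sub _ _
        _ < s := by linarith
    rw [abs_mul, abs_of_pos hs] at h4
    nlinarith
  ext z
  constructor
  · rintro ⟨⟨t, ⟨m, k, rfl⟩, h⟩, h1, h2⟩
    have hre := Complex.abs_re_le_norm (z - q - (m * a + k * b * I))
    have him := Complex.abs_im_le_norm (z - q - (m * a + k * b * I))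
    simp at hre him
    have hm : m = 0 := key (z.re - q.re) a m ha h1 (by linarith)
    have hk : k = 0 := key (z.im - q.im) b k hb h2 (by linarith)
    subst hm; subst hk
    rw [mem_ball, dist_eq_norm]
    simpa using h
  · intro h
    rw [mem_ball, dist_eq_norm] at h
    have hre := Complex.abs_re_le_norm (z - q)
    have him := Complex.abs_im_le_norm (z - q)
    simp only [sub_re, sub_im] at hre him
    refine ⟨⟨0, ⟨0, 0, by simp⟩, by simpa using h⟩, ?_, ?_⟩
    · show |z.re - q.re| < a / 2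
      linarith
    · show |z.im - q.im| < b / 2
      linarith

theorem case2_rect_meas (a b : ℝ) (q : ℂ) : MeasurableSet (rect a b q) := by
  have h1 : IsOpen {z : ℂ | |z.re - q.re| < a / 2} :=
    isOpen_lt (Complex.continuous_re.sub continuous_const).abs continuous_const
  have h2 : IsOpen {z : ℂ | |z.im - q.im| < b / 2} :=
    isOpen_lt (Complex.continuous_im.sub continuous_const).abs continuous_const
  exact (h1.inter h2).measurableSet

theorem case2_rect_fin (a b : ℝ) (q : ℂ) : volume (rect a b q) < ⊤ := by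
  have : rect a b q ⊆ ball q (|a| + |b| + 1) := by
    rintro z ⟨h1, h2⟩
    rw [mem_ball, dist_eq_norm]
    have h := Complex.norm_le_abs_re_add_abs_im (z - q)
    simp only [sub_re, sub_im] at h
    have := le_abs_self a
    have := le_abs_self b
    have := abs_nonneg a
    have := abs_nonneg b
    linarith
  exact (measure_mono this).trans_lt measure_ball_lt_top

/-- Decomposition of the integral over the torus. -/
theorem case2_dec (hTi : S_Ti) {a b r : ℝ} (ha : 0 < a) (hb : 0 < b) (hra : r ≤ a / 4)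
    (hrb : r ≤ b / 4) (Q : Finset ℂ)
    (hsep : ∀ q ∈ Q, ∀ q' ∈ Q, q ≠ q' → ∀ t, Lat a b t → 2 * r ≤ ‖q - q' - t‖)
    (f : ℂ → ℝ) (hf : Continuous f) (hp : Per a b f) (hf0 : ∀ z, 0 ≤ f z) (M : ℝ) (hM : 0 ≤ M)
    (hfM : ∀ z, (∀ q ∈ Q, ∀ t, Lat a b t → r ≤ ‖z - q - t‖) → f z ≤ M)
    (B : ℝ) (hfB : ∀ z, f z ≤ B) :
    ∑ q ∈ Q, ∫ z in ball q r, f z ≤ ti a b f ∧
    ti a b f ≤ (∑ q ∈ Q, ∫ z in ball q r, f z) + M * volume.real (rect a b 0) := by
  classical
  have hint : ∀ g : ℂ → ℝ, AEStronglyMeasurable g → (∀ z, |g z| ≤ B) →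
      IntegrableOn g (rect a b 0) := by
    intro g hg hgB
    refine Measure.integrableOn_of_bounded (M := B) (case2_rect_fin a b 0).ne hg ?_
    exact Eventually.of_forall fun z => hgB z
  have hB0 : 0 ≤ B := (hf0 0).trans (hfB 0)
  have hiq : ∀ q ∈ Q, IntegrableOn ((case2_S a b r q).indicator f) (rect a b 0) := by
    intro q _
    refine hint _ ?_ ?_
    · exact hf.aestronglyMeasurable.indicator (case2_S_open a b r q).measurableSet
    · intro z
      by_cases hz : z ∈ case2_S a b r q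
      · rw [indicator_of_mem hz, abs_of_nonneg (hf0 z)]; exact hfB z
      · rw [indicator_of_notMem hz, abs_zero]; exact hB0
  have hi : IntegrableOn f (rect a b 0) := by
    refine hint _ hf.aestronglyMeasurable ?_
    intro z
    rw [abs_of_nonneg (hf0 z)]; exact hfB z
  have hq : ∀ q ∈ Q, ∫ z in ball q r, f z = ti a b ((case2_S a b r q).indicator f) := by
    intro q _
    have hper : Per a b ((case2_S a b r q).indicator f) := by
      intro z
      constructor
      · by_cases hz : z ∈ case2_S a b r q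
        · rw [indicator_of_mem hz, indicator_of_mem ((case2_S_per1 a b r q z).mpr hz), (hp z).1]
        · rw [indicator_of_notMem hz,
            indicator_of_notMem (fun h => hz ((case2_S_per1 a b r q z).mp h))]
      · by_cases hz : z ∈ case2_S a b r q
        · rw [indicator_of_mem hz, indicator_of_mem ((case2_S_per2 a b r q z).mpr hz), (hp z).2]
        · rw [indicator_of_notMem hz,
            indicator_of_notMem (fun h => hz ((case2_S_per2 a b r q z).mp h))]
    rw [← (hTi a b _ ha hb hper q).2.1,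
      setIntegral_indicator (case2_S_open a b r q).measurableSet, inter_comm,
      case2_S_rect ha hb hra hrb q]
  have hsum : ∑ q ∈ Q, ∫ z in ball q r, f z =
      ∫ z in rect a b 0, ∑ q ∈ Q, (case2_S a b r q).indicator f z := by
    rw [integral_finsetSum Q hiq]
    exact Finset.sum_congr rfl hq
  have hdisj : ∀ z, ∀ q ∈ Q, ∀ q' ∈ Q, z ∈ case2_S a b r q → z ∈ case2_S a b r q' → q = q' := by
    rintro z q hq q' hq' ⟨t, ⟨m, k, rfl⟩, h⟩ ⟨t', ⟨m', k', rfl⟩, h'⟩
    by_contra hne
    have h1 := hsep q hq q' hq' hne ((m' - m : ℤ) * a + (k' - k : ℤ) * b * I) ⟨_, _, rfl⟩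
    have h2 : q - q' - ((m' - m : ℤ) * a + (k' - k : ℤ) * b * I) =
        (z - q' - (m' * a + k' * b * I)) - (z - q - (m * a + k * b * I)) := by
      push_cast; ring
    rw [h2] at h1
    have h3 := norm_sub_le (z - q' - (m' * a + k' * b * I)) (z - q - (m * a + k * b * I))
    linarith
  have hsf : ∀ z, (∑ q ∈ Q, (case2_S a b r q).indicator f z ≤ f z) ∧
      f z ≤ ∑ q ∈ Q, (case2_S a b r q).indicator f z + M := by
    intro z
    by_cases hz : ∃ q ∈ Q, z ∈ case2_S a b r q
    · obtain ⟨q, hqQ, hz⟩ := hz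
      have : ∑ q ∈ Q, (case2_S a b r q).indicator f z = f z := by
        rw [Finset.sum_eq_single q, indicator_of_mem hz]
        · intro q' hq' hne
          exact indicator_of_notMem (fun h => hne (hdisj z q' hq' q hqQ h hz)) _
        · exact fun h => absurd hqQ h
      rw [this]
      exact ⟨le_rfl, by linarith⟩
    · push Not at hz
      have : ∑ q ∈ Q, (case2_S a b r q).indicator f z = 0 :=
        Finset.sum_eq_zero fun q hq => indicator_of_notMem (hz q hq) _
      rw [this]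
      refine ⟨hf0 z, ?_⟩
      rw [zero_add]
      refine hfM z fun q hq t ht => ?_
      by_contra hlt
      push Not at hlt
      exact hz q hq ⟨t, ht, hlt⟩
  have his : IntegrableOn (fun z => ∑ q ∈ Q, (case2_S a b r q).indicator f z) (rect a b 0) :=
    integrable_finsetSum Q hiq
  have hMi : IntegrableOn (fun _ : ℂ => M) (rect a b 0) :=
    integrableOn_const (case2_rect_fin a b 0).ne
  constructor
  · rw [hsum]
    exact integral_mono his hi fun z => (hsf z).1
  · have h1 : ti a b f ≤ ∫ z in rect a b 0, (∑ q ∈ Q, (case2_S a b r q).indicator f z + M) :=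
      integral_mono hi (his.add hMi) fun z => (hsf z).2
    rw [integral_add his hMi, ← hsum, setIntegral_const, smul_eq_mul, mul_comm] at h1
    exact h1

theorem pr_Case2 (h1 : S_Conc) (h2 : S_cDown) (h3 : S_OffK) (h4 : S_BUq) (h5 : S_GHw)
    (h6 : S_Ti) (h7 : S_LT) : S_Case2 := by
  intro a b F m p n ρ v c Q ρ0 hS hG hD hc1 hne hρ hρ0 hρN
  have ha := hS.th.apos
  have hb := hS.th.bpos
  have hab : 0 < a * b := mul_pos ha hb
  obtain ⟨q0, hq0⟩ := hne
  have hc : Tendsto c atTop atBot :=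
    h2 a b F m p n ρ v c q0 hS (h1 a b F m p n ρ v c q0 hS (hc1 q0 hq0))
  have hB := h4 a b F m p n ρ v c Q hS hG hD hc1 hc
  choose! r0 hr0 hB using hB
  have hsep : ∀ x : ℂ, ∃ δ : ℝ, 0 < δ ∧ (¬ Lat a b x → ∀ t, Lat a b t → δ ≤ ‖x - t‖) := by
    intro x
    by_cases hx : Lat a b x
    · exact ⟨1, one_pos, fun h => absurd hx h⟩
    · obtain ⟨δ, h, h'⟩ := case2_sep ha hb hx
      exact ⟨δ, h, fun _ => h'⟩
  choose δ hδ hδ' using hsep
  have hr : ∀ᶠ r in 𝓝[>] (0 : ℝ), 0 < r ∧ r ≤ a / 4 ∧ r ≤ b / 4 ∧ (∀ q ∈ Q, r ≤ r0 q) ∧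
      ∀ q ∈ Q, ∀ q' ∈ Q, r ≤ δ (q - q') / 2 := by
    have hle : ∀ s : ℝ, 0 < s → ∀ᶠ r in 𝓝[>] (0 : ℝ), r ≤ s := fun s hs =>
      eventually_nhdsWithin_of_eventually_nhds (eventually_le_nhds hs)
    refine Filter.Eventually.and self_mem_nhdsWithin ?_
    refine (hle _ (by positivity)).and ((hle _ (by positivity)).and (.and ?_ ?_))
    · rw [Filter.eventually_all_finset]
      exact fun q hq => hle _ (hr0 q hq)
    · rw [Filter.eventually_all_finset]
      intro q hq
      rw [Filter.eventually_all_finset]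
      exact fun q' hq' => hle _ (half_pos (hδ _))
  obtain ⟨r, hrpos, hra, hrb, hrq, hrs⟩ := hr.exists
  -- the weight
  obtain ⟨⟨hwc, hwp, hw0, ⟨Ch, hCh⟩, -⟩, -⟩ := h5 a b F m p n hS.th hS.dist
  have hCh0 : 0 ≤ Ch := (hw0 0).trans (hCh 0)
  -- the mass at the points of `Q`
  have hlamlim : Tendsto (fun j => (4 * π * Nv n - ρ j) / (a * b)) atTop
      (𝓝 ((4 * π * Nv n - ρ0) / (a * b))) := (tendsto_const_nhds.sub hρ).div_const _
  have hlam0 : 0 < (4 * π * Nv n - ρ0) / (a * b) := div_pos (by linarith) hab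
  have hq1 : ∀ q ∈ Q, Tendsto (fun j => ∫ z in ball q r, dE a b F p n (v j) z) atTop
      (𝓝 (8 * π * (1 + nq a b p n q))) := by
    intro q hq
    obtain ⟨j0, H, Λ, C, h, hBU, -⟩ := hB q hq r hrpos (hrq q hq)
    have := hBU.mass
    unfold ms at this
    rw [← tendsto_add_atTop_iff_nat j0]
    refine this.congr fun j => ?_
    exact case2_setint q r (fun z => dE a b F p n (v (j + j0)) z)
  have hq2 : ∀ q ∈ Q, ∀ K : ℝ, 0 ≤ K → ∀ᶠ j in atTop,
      ∫ z in ball q r, dE a b F p n (v j) z ≤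
        8 * π * (1 + nq a b p n q) - K * Real.exp (c j) := by
    intro q hq K hK
    obtain ⟨j0, H, Λ, C, h, hBU, hC⟩ := hB q hq r hrpos (hrq q hq)
    obtain ⟨J, hJ⟩ := eventually_atTop.mp (hlamlim.eventually (eventually_ge_nhds
      (half_lt_self hlam0)))
    have hLT := h7 r (nq a b p n q) H Λ ((4 * π * Nv n - ρ0) / (a * b) / 2) _ _ _
      (case2_BU_shift hBU J) (half_pos hlam0) (fun j => hJ (j + J + j0) (by omega))
    have hev := hLT.eventually_ge_atTop (K * Real.exp C)
    have hev2 : ∀ᶠ j in atTop, ∫ z in ball q r, dE a b F p n (v (j + J + j0)) z ≤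
        8 * π * (1 + nq a b p n q) - K * Real.exp (c (j + J + j0)) := by
      filter_upwards [hev] with j hj
      have het : 0 < et (h (j + J)) := Real.exp_pos _
      rw [le_div_iff₀ het] at hj
      have h8 : ms r (fun z => dE a b F p n (v (j + J + j0)) (q + z)) =
          ∫ z in ball q r, dE a b F p n (v (j + J + j0)) z :=
        case2_setint q r (fun z => dE a b F p n (v (j + J + j0)) z)
      rw [h8] at hj
      have h9 : Real.exp (c (j + J + j0)) ≤ Real.exp C * et (h (j + J)) := by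
        unfold et
        rw [← Real.exp_add]
        apply Real.exp_le_exp.mpr
        have := (abs_le.mp (hC (j + J))).1
        linarith
      have h10 : K * Real.exp (c (j + J + j0)) ≤ K * Real.exp C * et (h (j + J)) := by
        rw [mul_assoc]
        exact mul_le_mul_of_nonneg_left h9 hK
      linarith
    obtain ⟨J', hJ'⟩ := eventually_atTop.mp hev2
    refine eventually_atTop.mpr ⟨J' + J + j0, fun j hj => ?_⟩
    have := hJ' (j - J - j0) (by omega)
    have e : j - J - j0 + J + j0 = j := by omega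
    rw [e] at this
    exact this
  -- bounds on the rest
  obtain ⟨C1, hC1⟩ := h3 a b F m p n ρ v c Q hS hG r hrpos
  have hper : ∀ j, Per a b (dE a b F p n (v j)) := by
    intro j z
    unfold dE
    rw [(hwp z).1, (hwp z).2, ((hS.sol j).per z).1, ((hS.sol j).per z).2]
    exact ⟨rfl, rfl⟩
  have hcont : ∀ j, Continuous (dE a b F p n (v j)) := fun j =>
    hwc.mul (Real.continuous_exp.comp (hS.sol j).cont)
  have hnn : ∀ j z, 0 ≤ dE a b F p n (v j) z := fun j z =>
    mul_nonneg (hw0 z) (Real.exp_pos _).le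
  have hbd : ∀ j, ∃ B, ∀ z, dE a b F p n (v j) z ≤ B := by
    intro j
    obtain ⟨B, hB⟩ := (isCompact_closedBall (0 : ℂ) (a + b)).bddAbove_image
      (hcont j).continuousOn
    refine ⟨B, fun z => ?_⟩
    have hmem : z - (⌊z.re / a⌋ * a + ⌊z.im / b⌋ * b * I) ∈ closedBall (0 : ℂ) (a + b) := by
      rw [mem_closedBall, dist_zero_right]
      refine (Complex.norm_le_abs_re_add_abs_im _).trans ?_
      have k1 : ∀ (x s : ℝ), 0 < s → |x - ⌊x / s⌋ * s| ≤ s := by
        intro x s hs
        have e1 : x - ⌊x / s⌋ * s = (x / s - ⌊x / s⌋) * s := by field_simp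
        rw [e1, abs_mul, abs_of_pos hs, abs_of_nonneg (by linarith [Int.floor_le (x / s)])]
        have := Int.lt_floor_add_one (x / s)
        nlinarith
      have e1 := k1 z.re a ha
      have e2 := k1 z.im b hb
      simp only [sub_re, add_re, mul_re, intCast_re, intCast_im, ofReal_re, ofReal_im, I_re, I_im,
        mul_im, sub_im, add_im, mul_zero, zero_mul, sub_zero, add_zero, mul_one, zero_add]
      linarith
    have hval : dE a b F p n (v j) (z - (⌊z.re / a⌋ * a + ⌊z.im / b⌋ * b * I)) =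
        dE a b F p n (v j) z := by
      have g1 : Function.Periodic (dE a b F p n (v j)) (a : ℂ) := fun z => (hper j z).1
      have g2 : Function.Periodic (dE a b F p n (v j)) (b * I : ℂ) := fun z => (hper j z).2
      rw [← sub_sub, mul_assoc, g2.sub_int_mul_eq, g1.sub_int_mul_eq]
    rw [← hval]
    exact hB ⟨_, hmem, rfl⟩
  have hsepr : ∀ q ∈ Q, ∀ q' ∈ Q, q ≠ q' → ∀ t, Lat a b t → 2 * r ≤ ‖q - q' - t‖ := by
    intro q hq q' hq' hne t ht
    have e1 := hδ' (q - q') (hD q hq q' hq' hne) t ht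
    have e2 := hrs q hq q' hq'
    linarith
  have hlow : ∀ᶠ j in atTop, ∑ q ∈ Q, ∫ z in ball q r, dE a b F p n (v j) z ≤ ρ j ∧
      ρ j ≤ (∑ q ∈ Q, ∫ z in ball q r, dE a b F p n (v j) z) +
        Ch * Real.exp C1 * Real.exp (c j) * volume.real (rect a b 0) := by
    filter_upwards [hC1] with j hj
    obtain ⟨B, hB⟩ := hbd j
    have := case2_dec h6 ha hb hra hrb Q hsepr _ (hcont j) (hper j) (hnn j)
      (Ch * Real.exp C1 * Real.exp (c j)) (by positivity) ?_ B hB
    · rwa [(hS.sol j).mass] at this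
    · intro z hz
      have e1 := (abs_le.mp (hj z hz)).2
      unfold dE
      rw [mul_assoc, ← Real.exp_add]
      exact mul_le_mul (hCh z) (Real.exp_le_exp.mpr (by linarith)) (Real.exp_pos _).le hCh0
  have hρ0le : ∑ q ∈ Q, 8 * π * (1 + (nq a b p n q : ℝ)) ≤ ρ0 :=
    le_of_tendsto_of_tendsto (tendsto_finsetSum Q hq1) hρ (hlow.mono fun j hj => hj.1)
  set K : ℝ := Ch * Real.exp C1 * volume.real (rect a b 0) + 1 with hK
  have hK0 : 0 ≤ Ch * Real.exp C1 * volume.real (rect a b 0) := by positivity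
  have hall : ∀ᶠ j in atTop, ∀ q ∈ Q, ∫ z in ball q r, dE a b F p n (v j) z ≤
        8 * π * (1 + nq a b p n q) - K * Real.exp (c j) := by
    rw [Filter.eventually_all_finset]
    exact fun q hq => hq2 q hq K (by linarith)
  filter_upwards [hlow, hall] with j hj1 hj2
  have e1 := Finset.sum_le_sum hj2
  rw [Finset.sum_sub_distrib, Finset.sum_const, nsmul_eq_mul] at e1
  have e2 : (1 : ℝ) ≤ Q.card := by
    exact_mod_cast Finset.card_pos.mpr ⟨q0, hq0⟩
  have e3 : 0 < Real.exp (c j) := Real.exp_pos _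
  have e4 : K * Real.exp (c j) ≤ Q.card * (K * Real.exp (c j)) := by
    have : 0 ≤ K * Real.exp (c j) := by
      have : 0 ≤ K := by linarith
      positivity
    nlinarith
  have e5 : K * Real.exp (c j) =
      Ch * Real.exp C1 * Real.exp (c j) * volume.real (rect a b 0) + Real.exp (c j) := by
    rw [hK]; ring
  linarith [hj1.2]

end Pool.Agent.Vx

end

section

/-! Item Closed of MP_afe918_an: PART B, closedness from above. -/

set_option autoImplicit false

open Complex Set Filter Topology MeasureTheory Metric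
open scoped Real ContDiff ComplexConjugate

namespace Pool.Agent.Vx

theorem pr_Closed (h1 : S_TExt) (h2 : S_OffK) (h3 : S_Case1) (h4 : S_Case2) (h5 : S_GHw) :
    S_Closed := by
  intro a b F m p n ρ0 hth hdist hρ0 hρ1 hex
  have hgap : 0 < 4 * π * (Nv n : ℝ) - ρ0 := by linarith
  have hε : ∀ j : ℕ, 0 < min (1 / ((j : ℝ) + 1)) (4 * π * (Nv n : ℝ) - ρ0) := fun j =>
    lt_min (by positivity) hgap
  choose ρ hρle hρlt v c hsol using fun j : ℕ => hex _ (hε j)
  have hSq : Sq a b F p n ρ v c :=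
    { th := hth
      dist := hdist
      pos := fun j => hρ0.le.trans (hρle j)
      le := fun j => by
        have h := hρlt j
        have h' := min_le_right (1 / ((j : ℝ) + 1)) (4 * π * (Nv n : ℝ) - ρ0)
        linarith
      sol := hsol }
  have hlim : Tendsto ρ atTop (𝓝 ρ0) := by
    have hu : Tendsto (fun j : ℕ => ρ0 + 1 / ((j : ℝ) + 1)) atTop (𝓝 ρ0) := by
      have := (tendsto_one_div_add_atTop_nhds_zero_nat (𝕜 := ℝ)).const_add ρ0
      simpa using this
    refine tendsto_of_tendsto_of_tendsto_of_le_of_le tendsto_const_nhds hu hρle ?_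
    intro j
    have h := hρlt j
    have h' := min_le_left (1 / ((j : ℝ) + 1)) (4 * π * (Nv n : ℝ) - ρ0)
    show ρ j ≤ ρ0 + 1 / ((j : ℝ) + 1)
    linarith
  obtain ⟨⟨hwc, hwp, hw0, -, -⟩, -⟩ := h5 a b F m p n hth hdist
  have hEc : ∀ j, Continuous (dE a b F p n (v j)) := fun j => by
    unfold dE
    exact hwc.mul (Real.continuous_exp.comp (hsol j).cont)
  have hE0 : ∀ j z, 0 ≤ dE a b F p n (v j) z := fun j z =>
    mul_nonneg (hw0 z) (Real.exp_pos _).le
  have hEp : ∀ j, Per a b (dE a b F p n (v j)) := fun j z => by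
    unfold dE
    rw [(hwp z).1, (hwp z).2, ((hsol j).per z).1, ((hsol j).per z).2]
    exact ⟨rfl, rfl⟩
  have hEm : ∀ j, ti a b (dE a b F p n (v j)) ≤ 4 * π * (Nv n : ℝ) := fun j => by
    rw [(hsol j).mass]; exact hSq.le j
  obtain ⟨φ, Q, hφ, hQ1, hQ2, hQ3⟩ := h1 a b (4 * π * (Nv n : ℝ))
    (fun j => dE a b F p n (v j)) hth.apos hth.bpos hEc hE0 hEp hEm
  have hSq' : Sq a b F p n (fun j => ρ (φ j)) (fun j => v (φ j)) (fun j => c (φ j)) :=
    { th := hth
      dist := hdist
      pos := fun j => hSq.pos _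
      le := fun j => hSq.le _
      sol := fun j => hsol _ }
  have hGood : Good a b F p n (fun j => v (φ j)) Q := hQ2
  have hlim' : Tendsto (fun j => ρ (φ j)) atTop (𝓝 ρ0) := hlim.comp hφ.tendsto_atTop
  rcases Q.eq_empty_or_nonempty with hQe | hQne
  · obtain ⟨C, hC⟩ := h2 a b F m p n _ _ _ Q hSq' hGood 1 one_pos
    refine h3 a b F m p n _ _ _ ρ0 hSq' hρ0 hlim' ⟨C, ?_⟩
    filter_upwards [hC] with j hj z
    refine hj z ?_
    intro q hq
    rw [hQe] at hq
    exact absurd hq (Finset.notMem_empty q)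
  · have hlt := h4 a b F m p n _ _ _ Q ρ0 hSq' hGood hQ3 hQ1 hQne hlim' hρ0 hρ1
    obtain ⟨j, hj⟩ := hlt.exists
    exact absurd (hρle (φ j)) (not_le.2 hj)

end Pool.Agent.Vx

end

section

/-!
# MP_afe918_an: lower bound for the mass at a concentration point (item Conc)
-/

set_option autoImplicit false

open Complex Set Filter Topology MeasureTheory Metric
open scoped Real ContDiff ComplexConjugate

namespace Pool.Agent.Vx

theorem Conc_trans (E : ℂ → ℝ) (x : ℂ) (r : ℝ) :
    ms r (fun z => E (x + z)) = ∫ z in ball x r, E z := by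
  unfold ms
  have h := (measurePreserving_add_left (volume : Measure ℂ) x).setIntegral_preimage_emb
    (measurableEmbedding_addLeft x) E (ball x r)
  rw [← h]
  congr 2
  ext z
  simp [mem_ball, dist_eq_norm]

theorem Conc_per {m : ℕ} {a b : ℝ} {F : ℂ → ℂ} {p : Fin m → ℂ} {n : Fin m → ℕ} {v : ℂ → ℝ}
    (hF : IsTheta a b F) (hv : Per a b v) : Per a b (dE a b F p n v) := by
  intro z
  unfold dE hw
  constructor
  · rw [(hv z).1]
    congr 1
    apply Finset.prod_congr rfl
    intro l _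
    have h : z + (a : ℂ) - p l = (z - p l) + a := by ring
    rw [h, (hF.per (z - p l)).1]
  · rw [(hv z).2]
    congr 1
    apply Finset.prod_congr rfl
    intro l _
    have h : z + (b : ℂ) * I - p l = (z - p l) + b * I := by ring
    rw [h, (hF.per (z - p l)).2]

theorem pr_Conc (h1 : S_LocRep) (h2 : S_Quant) (h3 : S_Ti) : S_Conc := by
  intro a b F m p n ρ v c q hS hconc
  have ha := hS.th.apos
  have hb := hS.th.bpos
  have hab : 0 < a * b := mul_pos ha hb
  obtain ⟨r0, hr0, hrep⟩ := h1 a b F m p n hS.th hS.dist q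
  set r := min r0 (min a b / 4) with hr
  have hrp : 0 < r := lt_min hr0 (by have := lt_min ha hb; positivity)
  obtain ⟨C, hC⟩ := hrep r hrp (min_le_left _ _)
  choose h hloc h4 hder h5 h6 using
    fun j => hC (ρ j) (v j) (c j) (hS.pos j) (hS.le j) (hS.sol j)
  have hcont : ∀ j, Continuous (dE a b F p n (v j)) := by
    intro j
    have h3 : dE a b F p n (v j) = fun z => (fun z => dE a b F p n (v j) (q + z)) (z - q) := by
      funext z
      simp
    rw [h3]
    exact (hloc j).cont.comp (continuous_id.sub continuous_const)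
  have hnn : ∀ j z, 0 ≤ dE a b F p n (v j) z := by
    intro j z
    have := (hloc j).nonneg (z - q)
    simpa using this
  have hsub : ball q r ⊆ rect a b q := by
    intro z hz
    rw [mem_ball, dist_eq_norm] at hz
    have hr4 : r ≤ min a b / 4 := min_le_right _ _
    have h7 : min a b ≤ a := min_le_left _ _
    have h8 : min a b ≤ b := min_le_right _ _
    constructor
    · have := Complex.abs_re_le_norm (z - q)
      rw [Complex.sub_re] at this
      linarith
    · have := Complex.abs_im_le_norm (z - q)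
      rw [Complex.sub_im] at this
      linarith
  have hbdd : rect a b q ⊆ closedBall q (a + b) := by
    intro z hz
    rw [mem_closedBall, dist_eq_norm]
    have h7 := Complex.norm_le_abs_re_add_abs_im (z - q)
    rw [Complex.sub_re, Complex.sub_im] at h7
    have h8 := hz.1
    have h9 := hz.2
    linarith
  have hint : ∀ j, IntegrableOn (dE a b F p n (v j)) (rect a b q) := fun j =>
    ((hcont j).continuousOn.integrableOn_compact (isCompact_closedBall q (a + b))).mono_set hbdd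
  have hM : ∀ j, ms r (fun z => dE a b F p n (v j) (q + z)) ≤ 4 * π * Nv n := by
    intro j
    rw [Conc_trans]
    refine le_trans ?_ (hS.le j)
    rw [← (hS.sol j).mass, ← (h3 a b (dE a b F p n (v j)) ha hb
      (Conc_per hS.th (hS.sol j).per) q).2.1]
    apply setIntegral_mono_set (hint j)
    · exact Filter.Eventually.of_forall (hnn j)
    · exact hsub.eventuallyLE
  have hlam : ∀ j, (4 * π * Nv n - ρ j) / (a * b) ≤ 4 * π * Nv n / (a * b) := by
    intro j
    apply div_le_div_of_nonneg_right _ hab.le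
    linarith [hS.pos j]
  intro s hs ε hε
  have hfin := h2 r C (4 * π * Nv n / (a * b)) (4 * π * Nv n) (nq a b p n q)
    (fun j => (4 * π * Nv n - ρ j) / (a * b)) h
    (fun j z => dE a b F p n (v j) (q + z)) hloc hlam hder hM (by
      intro s hs
      filter_upwards [hconc s hs] with j hj
      rw [Conc_trans]
      exact hj) s hs ε hε
  filter_upwards [hfin] with j hj
  rw [Conc_trans] at hj
  exact hj

end Pool.Agent.Vx

end

section

/-!
# MP_afe918_an, item GGr: elementary facts on the Green function (helper75)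
-/

set_option autoImplicit false

open Complex Set Filter Topology MeasureTheory Metric
open scoped Real ContDiff ComplexConjugate

namespace Pool.Agent.Vx

theorem GGr_per {a b : ℝ} {F : ℂ → ℂ} (h : IsTheta a b F) : Per a b (Gr a b F) := by
  intro z
  constructor
  · simp only [Gr, (h.per z).1]
  · simp only [Gr, (h.per z).2]

theorem GGr_rect {a b : ℝ} (ha : 0 < a) (hb : 0 < b) (x : ℂ) : rect a b x ∈ 𝓝 x := by
  have h1 : IsOpen (rect a b x) := by
    have e1 : IsOpen {z : ℂ | |z.re - x.re| < a / 2} :=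
      isOpen_lt ((Complex.continuous_re.sub continuous_const).abs) continuous_const
    have e2 : IsOpen {z : ℂ | |z.im - x.im| < b / 2} :=
      isOpen_lt ((Complex.continuous_im.sub continuous_const).abs) continuous_const
    exact e1.inter e2
  exact h1.mem_nhds (by simp [rect, ha, hb])

theorem pr_GGr (h1 : S_GSf) (_h2 : S_GPhi) (h3 : S_Ti) : S_GGr := by
  intro a b F h
  obtain ⟨hc, hnn, hz, C, hC⟩ := h1 a b F h
  refine ⟨GGr_per h, ?_, ?_, ?_, ?_⟩
  · intro z
    simp only [Gr, h.even z]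
  · intro z hl
    have h4 : Sf a b F z ≠ 0 := fun h5 => hl ((hz z).1 h5)
    have h6 : ContinuousAt (fun z => -(1 / (4 * π)) * Real.log (Sf a b F z)) z :=
      (hc.continuousAt.log h4).const_mul _
    exact h6
  · refine ⟨1 / (4 * π) * |Real.log C|, fun z => ?_⟩
    have hpi : 0 < 1 / (4 * π) := by positivity
    have h4 : Real.log (Sf a b F z) ≤ |Real.log C| := by
      rcases (hnn z).eq_or_lt with h5 | h5
      · rw [← h5, Real.log_zero]
        exact abs_nonneg _
      · exact (Real.log_le_log h5 (hC z)).trans (le_abs_self _)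
    have h7 := mul_le_mul_of_nonneg_left h4 hpi.le
    simp only [Gr]
    linarith
  · intro T
    have h4 : LocallyIntegrable (Gr a b F) := by
      intro x
      exact ⟨rect a b x, GGr_rect h.apos h.bpos x,
        ((h3 a b (Gr a b F) h.apos h.bpos (GGr_per h) x).1).2 h.integ⟩
    exact (h4.integrableOn_isCompact (isCompact_closedBall (0 : ℂ) T)).mono_set
      ball_subset_closedBall

end Pool.Agent.Vx

end

section

/-!
# MP_afe918_an, item GPhi: local expansion of the Green function (helper61)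
-/

set_option autoImplicit false

open Complex Set Filter Topology MeasureTheory Metric
open scoped Real ContDiff ComplexConjugate

namespace Pool.Agent.Vx

/-- Holomorphic functions on convex open sets have primitives. -/
theorem GPhi_prim {U : Set ℂ} (hU : IsOpen U) (hc : Convex ℝ U) (h0 : (0 : ℂ) ∈ U) {g : ℂ → ℂ}
    (hg : DifferentiableOn ℂ g U) : ∃ L : ℂ → ℂ, ∀ z ∈ U, HasDerivAt L (g z) z := by
  refine ⟨fun z => ∫ t in (0 : ℝ)..1, z * g ((t : ℂ) * z), fun z0 hz0 => ?_⟩
  have hseg : ∀ z ∈ U, ∀ t ∈ Icc (0 : ℝ) 1, (t : ℂ) * z ∈ U := by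
    intro z hz t ht
    have := hc h0 hz (sub_nonneg.2 ht.2) ht.1 (by ring)
    simpa using this
  obtain ⟨ε, hε, hball⟩ := Metric.nhds_basis_closedBall.mem_iff.1 (hU.mem_nhds hz0)
  have hgc : ContinuousOn g U := hg.continuousOn
  have hdg : DifferentiableOn ℂ (deriv g) U := hg.deriv hU
  have hdgc : ContinuousOn (deriv g) U := hdg.continuousOn
  have hmaps : MapsTo (fun q : ℝ × ℂ => (q.1 : ℂ) * q.2) (Icc (0 : ℝ) 1 ×ˢ closedBall z0 ε) U := by
    rintro ⟨t, z⟩ ⟨ht, hz⟩
    exact hseg z (hball hz) t ht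
  have hmulc : Continuous (fun q : ℝ × ℂ => (q.1 : ℂ) * q.2) := by fun_prop
  have hcont : ContinuousOn (fun q : ℝ × ℂ => g ((q.1 : ℂ) * q.2) +
      q.2 * ((q.1 : ℂ) * deriv g ((q.1 : ℂ) * q.2))) (Icc (0 : ℝ) 1 ×ˢ closedBall z0 ε) := by
    apply ContinuousOn.add
    · exact hgc.comp hmulc.continuousOn hmaps
    · apply ContinuousOn.mul (by fun_prop)
      apply ContinuousOn.mul (by fun_prop)
      exact hdgc.comp hmulc.continuousOn hmaps
  obtain ⟨C, hC⟩ := (isCompact_Icc.prod (isCompact_closedBall z0 ε)).exists_bound_of_continuousOn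
    hcont
  have hgt : ∀ z ∈ U, ContinuousOn (fun t : ℝ => g ((t : ℂ) * z)) (Icc 0 1) := by
    intro z hz
    refine hgc.comp (by fun_prop) ?_
    intro t ht
    exact hseg z hz t ht
  have hdgt : ∀ z ∈ U, ContinuousOn (fun t : ℝ => deriv g ((t : ℂ) * z)) (Icc 0 1) := by
    intro z hz
    refine hdgc.comp (by fun_prop) ?_
    intro t ht
    exact hseg z hz t ht
  have huIcc : Set.uIcc (0 : ℝ) 1 = Icc 0 1 := uIcc_of_le zero_le_one
  have hkey := (intervalIntegral.hasDerivAt_integral_of_dominated_loc_of_deriv_le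
    (μ := volume) (a := 0) (b := 1) (𝕜 := ℂ) (E := ℂ)
    (F := fun z t => z * g ((t : ℂ) * z))
    (F' := fun z t => g ((t : ℂ) * z) + z * ((t : ℂ) * deriv g ((t : ℂ) * z)))
    (x₀ := z0) (s := ball z0 ε) (bound := fun _ => C) (ball_mem_nhds z0 hε) ?_ ?_ ?_ ?_ ?_ ?_).2
  · have hint : ∫ t in (0 : ℝ)..1, (g ((t : ℂ) * z0) + z0 * ((t : ℂ) * deriv g ((t : ℂ) * z0))) =
        g z0 := by
      have := intervalIntegral.integral_eq_sub_of_hasDerivAt (a := 0) (b := 1)
        (f := fun t : ℝ => (t : ℂ) * g ((t : ℂ) * z0))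
        (f' := fun t : ℝ => g ((t : ℂ) * z0) + z0 * ((t : ℂ) * deriv g ((t : ℂ) * z0))) ?_ ?_
      · rw [this]; simp
      · intro t ht
        rw [huIcc] at ht
        have h1 : HasDerivAt g (deriv g ((t : ℂ) * z0)) ((t : ℂ) * z0) :=
          (hg.differentiableAt (hU.mem_nhds (hseg z0 hz0 t ht))).hasDerivAt
        have h2 : HasDerivAt (fun t : ℝ => (t : ℂ) * z0) z0 t := by
          have := (HasDerivAt.ofReal_comp (hasDerivAt_id t)).mul_const z0
          simpa using this
        have h3 : HasDerivAt (fun t : ℝ => (t : ℂ)) 1 t := by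
          simpa using HasDerivAt.ofReal_comp (hasDerivAt_id t)
        have h4 := h3.mul (h1.scomp_of_eq t h2 rfl)
        refine h4.congr_deriv ?_
        simp only [smul_eq_mul, Function.comp]
        ring
      · apply ContinuousOn.intervalIntegrable
        rw [huIcc]
        exact (hgt z0 hz0).add (continuousOn_const.mul
          ((by fun_prop : ContinuousOn (fun t : ℝ => (t : ℂ)) (Icc 0 1)).mul (hdgt z0 hz0)))
    rw [hint] at hkey
    exact hkey
  · filter_upwards [ball_mem_nhds z0 hε] with z hz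
    have : ContinuousOn (fun t : ℝ => z * g ((t : ℂ) * z)) (Icc 0 1) :=
      continuousOn_const.mul (hgt z (hball (ball_subset_closedBall hz)))
    rw [uIoc_of_le zero_le_one]
    exact (this.mono Ioc_subset_Icc_self).aestronglyMeasurable measurableSet_Ioc
  · apply ContinuousOn.intervalIntegrable
    rw [huIcc]
    exact continuousOn_const.mul (hgt z0 hz0)
  · have : ContinuousOn (fun t : ℝ => g ((t : ℂ) * z0) + z0 * ((t : ℂ) * deriv g ((t : ℂ) * z0)))
        (Icc 0 1) := (hgt z0 hz0).add (continuousOn_const.mul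
          ((by fun_prop : ContinuousOn (fun t : ℝ => (t : ℂ)) (Icc 0 1)).mul (hdgt z0 hz0)))
    rw [uIoc_of_le zero_le_one]
    exact (this.mono Ioc_subset_Icc_self).aestronglyMeasurable measurableSet_Ioc
  · refine Filter.Eventually.of_forall fun t ht z hz => ?_
    rw [uIoc_of_le zero_le_one] at ht
    exact hC (t, z) ⟨⟨ht.1.le, ht.2⟩, ball_subset_closedBall hz⟩
  · exact intervalIntegrable_const
  · refine Filter.Eventually.of_forall fun t ht z hz => ?_
    rw [uIoc_of_le zero_le_one] at ht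
    have hz' : z ∈ U := hball (ball_subset_closedBall hz)
    have h1 : HasDerivAt g (deriv g ((t : ℂ) * z)) ((t : ℂ) * z) :=
      (hg.differentiableAt (hU.mem_nhds (hseg z hz' t ⟨ht.1.le, ht.2⟩))).hasDerivAt
    have h2 : HasDerivAt (fun z : ℂ => (t : ℂ) * z) (t : ℂ) z := by
      simpa using (hasDerivAt_id z).const_mul (t : ℂ)
    have h4 := (hasDerivAt_id z).mul (h1.comp z h2)
    refine h4.congr_deriv ?_
    simp only [id, Function.comp]
    ring

/-- Holomorphic functions without zeros on convex open sets have logarithms. -/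
theorem GPhi_log {U : Set ℂ} (hU : IsOpen U) (hc : Convex ℝ U) (h0 : (0 : ℂ) ∈ U) {K : ℂ → ℂ}
    (hK : DifferentiableOn ℂ K U) (hne : ∀ z ∈ U, K z ≠ 0) :
    ∃ L : ℂ → ℂ, DifferentiableOn ℂ L U ∧ ∀ z ∈ U, K z = exp (L z) := by
  obtain ⟨L, hL⟩ := GPhi_prim hU hc h0 (g := fun z => deriv K z / K z)
    ((hK.deriv hU).div hK hne)
  have hLd : DifferentiableOn ℂ L U := fun z hz => (hL z hz).differentiableAt.differentiableWithinAt
  have hQd : DifferentiableOn ℂ (fun z => K z * exp (-L z)) U := hK.mul (hLd.neg.cexp)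
  have hQ0 : ∀ z ∈ U, deriv (fun z => K z * exp (-L z)) z = 0 := by
    intro z hz
    have h1 : HasDerivAt K (deriv K z) z := (hK.differentiableAt (hU.mem_nhds hz)).hasDerivAt
    have h2 : HasDerivAt (fun z => K z * exp (-L z))
        (deriv K z * exp (-L z) + K z * (exp (-L z) * -(deriv K z / K z))) z :=
      h1.mul ((hL z hz).neg.cexp)
    rw [h2.deriv]
    field_simp [hne z hz]
    ring
  have hconst : ∀ z ∈ U, K z * exp (-L z) = K 0 * exp (-L 0) := by
    intro z hz
    exact hU.is_const_of_deriv_eq_zero hc.isPreconnected hQd (fun w hw => hQ0 w hw) hz h0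
  have hc0 : K 0 * exp (-L 0) ≠ 0 := mul_ne_zero (hne 0 h0) (exp_ne_zero _)
  refine ⟨fun z => L z + Complex.log (K 0 * exp (-L 0)), hLd.add_const _, fun z hz => ?_⟩
  rw [exp_add, exp_log hc0, ← hconst z hz, ← mul_assoc, mul_comm (exp (L z)), mul_assoc,
    ← exp_add]
  simp

/-- The only lattice point of the open rectangle of sides `2a`, `2b` is `0`. -/
theorem GPhi_lat {a b : ℝ} (ha : 0 < a) (hb : 0 < b) {z : ℂ} (h : Lat a b z) (h1 : |z.re| < a)
    (h2 : |z.im| < b) : z = 0 := by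
  obtain ⟨m, k, rfl⟩ := h
  have hre : ((m : ℂ) * a + k * b * I).re = m * a := by simp
  have him : ((m : ℂ) * a + k * b * I).im = k * b := by simp
  rw [hre, abs_mul, abs_of_pos ha] at h1
  rw [him, abs_mul, abs_of_pos hb] at h2
  have hm : m = 0 := by
    have : |(m : ℝ)| < 1 := by
      by_contra hcon
      have := mul_le_mul_of_nonneg_right (not_lt.1 hcon) ha.le
      linarith
    have h3 : |m| < 1 := by exact_mod_cast this
    exact Int.abs_lt_one_iff.1 h3
  have hk : k = 0 := by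
    have : |(k : ℝ)| < 1 := by
      by_contra hcon
      have := mul_le_mul_of_nonneg_right (not_lt.1 hcon) hb.le
      linarith
    have h3 : |k| < 1 := by exact_mod_cast this
    exact Int.abs_lt_one_iff.1 h3
  simp [hm, hk]

/-- G3. -/
theorem pr_GPhi : S_GPhi := by
  intro a b F hF
  have ha := hF.apos
  have hb := hF.bpos
  set U : Set ℂ := {z | |z.re| < a ∧ |z.im| < b} with hUdef
  have hU : IsOpen U := by
    apply IsOpen.and
    · exact isOpen_lt (by fun_prop) continuous_const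
    · exact isOpen_lt (by fun_prop) continuous_const
  have hc : Convex ℝ U := by
    intro x hx y hy s t hs ht hst
    constructor
    · have h1 : (s • x + t • y).re = s * x.re + t * y.re := by simp
      rw [h1]
      calc |s * x.re + t * y.re| ≤ s * |x.re| + t * |y.re| := by
            refine (abs_add_le _ _).trans ?_
            rw [abs_mul, abs_mul, abs_of_nonneg hs, abs_of_nonneg ht]
        _ < a := by
            rcases hs.eq_or_lt with h | h
            · have : t = 1 := by linarith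
              subst this; subst h; simpa using hy.1
            · have e1 := mul_lt_mul_of_pos_left hx.1 h
              have e2 := mul_le_mul_of_nonneg_left hy.1.le ht
              have e3 : s * a + t * a = a := by rw [← add_mul, hst, one_mul]
              linarith
    · have h1 : (s • x + t • y).im = s * x.im + t * y.im := by simp
      rw [h1]
      calc |s * x.im + t * y.im| ≤ s * |x.im| + t * |y.im| := by
            refine (abs_add_le _ _).trans ?_
            rw [abs_mul, abs_mul, abs_of_nonneg hs, abs_of_nonneg ht]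
        _ < b := by
            rcases hs.eq_or_lt with h | h
            · have : t = 1 := by linarith
              subst this; subst h; simpa using hy.2
            · have e1 := mul_lt_mul_of_pos_left hx.2 h
              have e2 := mul_le_mul_of_nonneg_left hy.2.le ht
              have e3 : s * b + t * b = b := by rw [← add_mul, hst, one_mul]
              linarith
  have h0 : (0 : ℂ) ∈ U := by simp [hUdef, ha, hb]
  have hF0 : F 0 = 0 := (hF.zero 0).2 ⟨0, 0, by simp⟩
  have hKd : DifferentiableOn ℂ (dslope F 0) U :=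
    (Complex.differentiableOn_dslope (hU.mem_nhds h0)).2 hF.diff.differentiableOn
  have hKz : ∀ z, z ≠ 0 → F z = z * dslope F 0 z := by
    intro z hz
    have := sub_smul_dslope F 0 z
    rw [hF0, sub_zero, sub_zero, smul_eq_mul] at this
    exact this.symm
  have hKne : ∀ z ∈ U, dslope F 0 z ≠ 0 := by
    intro z hz hK
    by_cases hz0 : z = 0
    · subst hz0
      rw [dslope_same] at hK
      exact hF.simple 0 ⟨0, 0, by simp⟩ hK
    · have : F z = 0 := by rw [hKz z hz0, hK, mul_zero]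
      exact hz0 (GPhi_lat ha hb ((hF.zero z).1 this) hz.1 hz.2)
  obtain ⟨L, hL, hexp⟩ := GPhi_log hU hc h0 hKd hKne
  refine ⟨fun z => -(1 / (2 * π) : ℝ) * L z - (1 / (4 * a * b) : ℝ) * z ^ 2 +
    (1 / (2 * a) : ℝ) * (I * z), ?_, ?_⟩
  · apply DifferentiableOn.add
    · apply DifferentiableOn.sub
      · exact (differentiableOn_const _).mul hL
      · fun_prop
    · fun_prop
  · intro z hza hzb hz0
    have hzU : z ∈ U := ⟨hza, hzb⟩
    have hFz : F z = z * exp (L z) := by rw [hKz z hz0, hexp z hzU]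
    have hnF : ‖F z‖ = ‖z‖ * Real.exp (L z).re := by rw [hFz, norm_mul, norm_exp]
    have hzpos : 0 < ‖z‖ := norm_pos_iff.2 hz0
    have hlog : Real.log (Sf a b F z) = 2 * (Real.log ‖z‖ + (L z).re) +
        (-(2 * π / (a * b)) * z.im ^ 2 + 2 * π / a * z.im) := by
      unfold Sf
      rw [hnF, Real.log_mul (by positivity) (Real.exp_ne_zero _), Real.log_exp, Real.log_pow,
        Real.log_mul hzpos.ne' (Real.exp_ne_zero _), Real.log_exp]
      push_cast
      ring
    have hre : (-(1 / (2 * π) : ℝ) * L z - (1 / (4 * a * b) : ℝ) * z ^ 2 +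
        (1 / (2 * a) : ℝ) * (I * z)).re =
        -(1 / (2 * π)) * (L z).re - 1 / (4 * a * b) * (z.re ^ 2 - z.im ^ 2) -
          1 / (2 * a) * z.im := by
      have e1 : (-((1 / (2 * π) : ℝ) : ℂ) * L z).re = -(1 / (2 * π)) * (L z).re := by
        rw [← ofReal_neg, re_ofReal_mul]
      have e2 : (((1 / (4 * a * b) : ℝ) : ℂ) * z ^ 2).re =
          1 / (4 * a * b) * (z.re ^ 2 - z.im ^ 2) := by
        rw [re_ofReal_mul]; congr 1; simp [pow_two]
      have e3 : (((1 / (2 * a) : ℝ) : ℂ) * (I * z)).re = -(1 / (2 * a) * z.im) := by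
        rw [re_ofReal_mul]; simp
      rw [add_re, sub_re, e1, e2, e3]
      ring
    have hn2 : ‖z‖ ^ 2 = z.re ^ 2 + z.im ^ 2 := by
      rw [← normSq_eq_norm_sq, normSq_apply]; ring
    unfold Gr
    rw [hlog]
    dsimp only
    rw [hre, hn2]
    have hpi := Real.pi_pos
    field_simp
    ring

end Pool.Agent.Vx

end

section

/-!
# MP_afe918_an, item GSf: elementary facts on `Sf`
-/

set_option autoImplicit false

open Complex Set Filter Topology MeasureTheory Metric
open scoped Real ContDiff ComplexConjugate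

namespace Pool.Agent.Vx

lemma GSf_per {α : Type} {a b : ℝ} {f : ℂ → α} (h : Per a b f) (m k : ℤ) (z : ℂ) :
    f (z + m * a + k * b * I) = f z := by
  have h1 : Function.Periodic f (a : ℂ) := fun z => (h z).1
  have h2 : Function.Periodic f ((b : ℂ) * I) := fun z => (h z).2
  rw [mul_assoc]
  exact (h2.int_mul k (z + m * a)).trans (h1.int_mul m z)

theorem pr_GSf : S_GSf := by
  intro a b F hF
  have ha := hF.apos
  have hb := hF.bpos
  have hc : Continuous (Sf a b F) := by
    unfold Sf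
    refine Continuous.mul (hF.diff.continuous.norm.pow 2) (Real.continuous_exp.comp ?_)
    have : Continuous Complex.im := Complex.continuous_im
    fun_prop
  have h0 : ∀ z, 0 ≤ Sf a b F z := fun z => by
    unfold Sf
    positivity
  refine ⟨hc, h0, fun z => ?_, ?_⟩
  · rw [← hF.zero z]
    unfold Sf
    rw [mul_eq_zero, or_iff_left (Real.exp_pos _).ne', sq_eq_zero_iff, norm_eq_zero]
  · have hK : IsCompact (Icc (0 : ℝ) a ×ℂ Icc (0 : ℝ) b) := isCompact_Icc.reProdIm isCompact_Icc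
    obtain ⟨C, hC⟩ := hK.bddAbove_image hc.continuousOn
    refine ⟨C, fun z => ?_⟩
    set m : ℤ := ⌊z.re / a⌋ with hm
    set k : ℤ := ⌊z.im / b⌋ with hk
    set w : ℂ := ⟨z.re - m * a, z.im - k * b⟩ with hw
    have hz : w + m * a + k * b * I = z := by
      apply Complex.ext
      · simp [hw]
      · simp [hw]
    rw [← hz, GSf_per hF.per m k w]
    refine hC ⟨w, ?_, rfl⟩
    rw [Complex.mem_reProdIm]
    have e1 : (m : ℝ) * a ≤ z.re := by
      rw [← le_div_iff₀ ha]
      exact Int.floor_le _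
    have e2 : z.re < ((m : ℝ) + 1) * a := by
      rw [← div_lt_iff₀ ha]
      exact Int.lt_floor_add_one _
    have e3 : (k : ℝ) * b ≤ z.im := by
      rw [← le_div_iff₀ hb]
      exact Int.floor_le _
    have e4 : z.im < ((k : ℝ) + 1) * b := by
      rw [← div_lt_iff₀ hb]
      exact Int.lt_floor_add_one _
    refine ⟨⟨?_, ?_⟩, ⟨?_, ?_⟩⟩
    · simp only [hw]; linarith
    · simp only [hw]; linarith
    · simp only [hw]; linarith
    · simp only [hw]; linarith

end Pool.Agent.Vx

end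

section

set_option autoImplicit false

open Complex Set Filter Topology MeasureTheory Metric
open scoped Real ContDiff

namespace Pool.Agent.Vx

/-- Continuity of translations in `L¹(ℂ)`. -/
theorem GTr_cont (f : ℂ → ℝ) (hf : Integrable f) (ε : ℝ) (hε : 0 < ε) :
    ∃ δ, 0 < δ ∧ ∀ h : ℂ, ‖h‖ < δ → ∫ w, |f w - f (w + h)| ≤ ε := by
  obtain ⟨g, hgs, hg, hgc, hgi⟩ := hf.exists_hasCompactSupport_integral_sub_le
    (show (0 : ℝ) < ε / 3 by positivity)
  have huc : UniformContinuous g := hgs.uniformContinuous_of_continuous hgc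
  obtain ⟨R, hR0, hR⟩ : ∃ R : ℝ, 0 < R ∧ tsupport g ⊆ closedBall 0 R := by
    obtain ⟨R, hR⟩ := hgs.isBounded.subset_closedBall (0 : ℂ)
    exact ⟨max R 1, by positivity, hR.trans (closedBall_subset_closedBall (le_max_left _ _))⟩
  have hz : ∀ w : ℂ, R < ‖w‖ → g w = 0 := by
    intro w hw
    by_contra hne
    have : w ∈ tsupport g := subset_tsupport g hne
    have := hR this
    simp at this
    linarith
  set V : ℝ := (volume (closedBall (0 : ℂ) (R + 1))).toReal with hV
  have hVf : volume (closedBall (0 : ℂ) (R + 1)) ≠ ⊤ := measure_closedBall_lt_top.ne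
  have hV0 : 0 ≤ V := ENNReal.toReal_nonneg
  obtain ⟨δ, hδ, hδg⟩ := Metric.uniformContinuous_iff.1 huc (ε / 3 / (V + 1)) (by positivity)
  refine ⟨min δ 1, lt_min hδ one_pos, fun h hh => ?_⟩
  have hh1 : ‖h‖ < δ := lt_of_lt_of_le hh (min_le_left _ _)
  have hh2 : ‖h‖ < 1 := lt_of_lt_of_le hh (min_le_right _ _)
  have hgh : Integrable (fun w => g (w + h)) := hgi.comp_add_right h
  have hfh : Integrable (fun w => f (w + h)) := hf.comp_add_right h
  have h1 : ∫ w, |f w - f (w + h)| ≤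
      ∫ w, (|f w - g w| + |g w - g (w + h)| + |f (w + h) - g (w + h)|) := by
    refine integral_mono (hf.sub hfh).abs ?_ ?_
    · exact ((hf.sub hgi).abs.add (hgi.sub hgh).abs).add (hfh.sub hgh).abs
    · intro w
      have e : f w - f (w + h) = (f w - g w) + (g w - g (w + h)) - (f (w + h) - g (w + h)) := by
        ring
      show |f w - f (w + h)| ≤ |f w - g w| + |g w - g (w + h)| + |f (w + h) - g (w + h)|
      rw [e]
      exact (abs_sub _ _).trans (add_le_add (abs_add_le _ _) le_rfl)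
  have h2 : ∫ w, |f w - g w| ≤ ε / 3 := hg
  have h3 : ∫ w, |f (w + h) - g (w + h)| ≤ ε / 3 := by
    have : ∫ w, |f (w + h) - g (w + h)| = ∫ w, |f w - g w| :=
      integral_add_right_eq_self (fun w => |f w - g w|) h
    rw [this]; exact hg
  have h4 : ∫ w, |g w - g (w + h)| ≤ ε / 3 := by
    have hle : ∀ w, |g w - g (w + h)| ≤
        (closedBall (0 : ℂ) (R + 1)).indicator (fun _ => ε / 3 / (V + 1)) w := by
      intro w
      by_cases hw : w ∈ closedBall (0 : ℂ) (R + 1)
      · rw [indicator_of_mem hw]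
        have hd : dist w (w + h) < δ := by
          rw [dist_eq_norm]; simpa using hh1
        have := hδg hd
        rw [Real.dist_eq] at this
        exact this.le
      · rw [indicator_of_notMem hw]
        have hw' : R + 1 < ‖w‖ := by simpa using hw
        have a1 : g w = 0 := hz w (by linarith)
        have a2 : g (w + h) = 0 := by
          refine hz _ ?_
          have : ‖w‖ ≤ ‖w + h‖ + ‖h‖ := by
            calc ‖w‖ = ‖(w + h) - h‖ := by ring_nf
              _ ≤ _ := norm_sub_le _ _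
          linarith
        rw [a1, a2]; simp
    calc ∫ w, |g w - g (w + h)| ≤
        ∫ w, (closedBall (0 : ℂ) (R + 1)).indicator (fun _ => ε / 3 / (V + 1)) w := by
          refine integral_mono (hgi.sub hgh).abs ?_ hle
          exact (integrable_indicator_iff measurableSet_closedBall).2
            (integrableOn_const hVf (by simp))
      _ = V * (ε / 3 / (V + 1)) := by
          rw [integral_indicator measurableSet_closedBall, setIntegral_const, smul_eq_mul,
            measureReal_def]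
      _ ≤ ε / 3 := by
          rw [mul_div_assoc', div_le_iff₀ (by positivity)]
          nlinarith
  have h5 : ∫ w, (|f w - g w| + |g w - g (w + h)| + |f (w + h) - g (w + h)|) =
      (∫ w, |f w - g w|) + (∫ w, |g w - g (w + h)|) + ∫ w, |f (w + h) - g (w + h)| := by
    rw [integral_add, integral_add]
    · exact (hf.sub hgi).abs
    · exact (hgi.sub hgh).abs
    · exact (hf.sub hgi).abs.add (hgi.sub hgh).abs
    · exact (hfh.sub hgh).abs
  linarith

theorem GTr_rect_meas (a b : ℝ) (q : ℂ) : MeasurableSet (rect a b q) := by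
  have h1 : Measurable fun z : ℂ => |z.re - q.re| := by fun_prop
  have h2 : Measurable fun z : ℂ => |z.im - q.im| := by fun_prop
  exact (measurableSet_lt h1 measurable_const).inter (measurableSet_lt h2 measurable_const)

theorem GTr_rect_sub (a b : ℝ) (z : ℂ) (hz : z ∈ rect a b 0) : ‖z‖ < (a + b) / 2 := by
  obtain ⟨h1, h2⟩ := hz
  simp at h1 h2
  calc ‖z‖ ≤ |z.re| + |z.im| := Complex.norm_le_abs_re_add_abs_im z
    _ < _ := by linarith

/-- Integrals over translated rectangles. -/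
theorem GTr_shift (a b : ℝ) (f : ℂ → ℝ) (x : ℂ) :
    (IntegrableOn f (rect a b x) ↔ IntegrableOn (fun w => f (w + x)) (rect a b 0)) ∧
    ∫ y in rect a b x, f y = ∫ w in rect a b 0, f (w + x) := by
  have e : (fun w => w + x) ⁻¹' (rect a b x) = rect a b 0 := by
    ext w; simp [rect]
  have mp : MeasurePreserving (fun w : ℂ => w + x) volume volume :=
    measurePreserving_add_right volume x
  have me : MeasurableEmbedding (fun w : ℂ => w + x) := measurableEmbedding_addRight x
  constructor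
  · rw [← e]
    exact (mp.integrableOn_comp_preimage me).symm
  · rw [← e]
    exact (mp.setIntegral_preimage_emb me f _).symm

theorem pr_GTr (h1 : S_GGr) (h2 : S_Ti) : S_GTr := by
  intro a b F hT ε hε
  obtain ⟨hper, heven, -, -, hint⟩ := h1 a b F hT
  have ha := hT.apos
  have hb := hT.bpos
  set G := Gr a b F with hG
  set T : ℝ := (a + b) / 2 + 1 with hTd
  have hfi : Integrable ((ball (0 : ℂ) T).indicator G) :=
    (integrable_indicator_iff measurableSet_ball).2 (hint T)
  obtain ⟨δ, hδ, hδf⟩ := GTr_cont _ hfi ε hε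
  refine ⟨min δ 1, lt_min hδ one_pos, fun x x' hx => ?_⟩
  have hx1 : ‖x - x'‖ < δ := lt_of_lt_of_le hx (min_le_left _ _)
  have hx2 : ‖x - x'‖ < 1 := lt_of_lt_of_le hx (min_le_right _ _)
  set g : ℂ → ℝ := fun y => |G (x - y) - G (x' - y)| with hg
  have hm : ∀ z, G (z - a) = G z ∧ G (z - b * I) = G z := by
    intro z
    constructor
    · have := (hper (z - a)).1
      rw [sub_add_cancel] at this
      exact this.symm
    · have := (hper (z - b * I)).2
      rw [sub_add_cancel] at this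
      exact this.symm
  have hgp : Per a b g := by
    intro y
    simp only [hg]
    rw [← sub_sub, ← sub_sub, ← sub_sub, ← sub_sub, (hm _).1, (hm _).1, (hm _).2, (hm _).2]
    exact ⟨rfl, rfl⟩
  have hTi := h2 a b g ha hb hgp x
  have hsh := GTr_shift a b g x
  -- the shifted function
  have hfun : ∀ w ∈ rect a b 0, g (w + x) =
      |(ball (0 : ℂ) T).indicator G w - (ball (0 : ℂ) T).indicator G (w + (x - x'))| := by
    intro w hw
    have n1 := GTr_rect_sub a b w hw
    have m1 : w ∈ ball (0 : ℂ) T := by simp; linarith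
    have m2 : w + (x - x') ∈ ball (0 : ℂ) T := by
      simp only [mem_ball_zero_iff]
      calc ‖w + (x - x')‖ ≤ ‖w‖ + ‖x - x'‖ := norm_add_le _ _
        _ < T := by linarith
    rw [indicator_of_mem m1, indicator_of_mem m2]
    simp only [hg]
    have e1 : G (x - (w + x)) = G w := by
      rw [show x - (w + x) = -w by ring]; exact heven w
    have e2 : G (x' - (w + x)) = G (w + (x - x')) := by
      rw [show x' - (w + x) = -(w + (x - x')) by ring]; exact heven _
    rw [e1, e2]
  have hIf : Integrable (fun w =>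
      |(ball (0 : ℂ) T).indicator G w - (ball (0 : ℂ) T).indicator G (w + (x - x'))|) :=
    (hfi.sub (hfi.comp_add_right (x - x'))).abs
  have hI : IntegrableOn (fun w => g (w + x)) (rect a b 0) :=
    (hIf.integrableOn).congr_fun (fun w hw => (hfun w hw).symm) (GTr_rect_meas a b 0)
  refine ⟨hTi.1.1 (hsh.1.2 hI), ?_⟩
  show ti a b g ≤ ε
  rw [← hTi.2.1, hsh.2, setIntegral_congr_fun (GTr_rect_meas a b 0) hfun]
  refine le_trans (setIntegral_le_integral hIf (ae_of_all _ fun w => abs_nonneg _)) ?_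
  exact hδf _ hx1

end Pool.Agent.Vx

end

section

/-!
# MP_afe918_an: bounds near a point of small mass (item Off)
-/

set_option autoImplicit false

open Complex Set Filter Topology MeasureTheory Metric
open scoped Real ContDiff ComplexConjugate

namespace Pool.Agent.Vx

theorem Off_trans (E : ℂ → ℝ) (x : ℂ) (r : ℝ) :
    ms r (fun z => E (x + z)) = ∫ z in ball x r, E z := by
  unfold ms
  have h := (measurePreserving_add_left (volume : Measure ℂ) x).setIntegral_preimage_emb
    (measurableEmbedding_addLeft x) E (ball x r)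
  rw [← h]
  congr 2
  ext z
  simp [mem_ball, dist_eq_norm]

theorem pr_Off (h1 : S_LocRep) (h2 : S_Small) : S_Off := by
  intro a b F m p n ρ v c hS x s hs hmass
  have ha := hS.th.apos
  have hb := hS.th.bpos
  have hab : 0 < a * b := mul_pos ha hb
  obtain ⟨r0, hr0, hrep⟩ := h1 a b F m p n hS.th hS.dist x
  set r := min r0 s with hr
  have hrp : 0 < r := lt_min hr0 hs
  obtain ⟨C, hC⟩ := hrep r hrp (min_le_left _ _)
  have hN : (0 : ℝ) ≤ Nv n := Nat.cast_nonneg _
  have hpi := Real.pi_pos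
  set H := max (4 * π * Nv n / (a * b) * r ^ 2) (C * r) with hH
  obtain ⟨C', hC'⟩ := h2 (nq a b p n x) H
  refine ⟨r / 4, by positivity, C + C' + |Real.log r| / (2 * π), ?_⟩
  filter_upwards [hmass] with j hj
  obtain ⟨h, hloc, -, hder, hpot, -⟩ := hC (ρ j) (v j) (c j) (hS.pos j) (hS.le j) (hS.sol j)
  set E := fun z => dE a b F p n (v j) (x + z) with hE
  have hcont : Continuous (dE a b F p n (v j)) := by
    have h3 : dE a b F p n (v j) = fun z => E (z - x) := by
      funext z
      simp [hE]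
    rw [h3]
    exact hloc.cont.comp (continuous_id.sub continuous_const)
  have hnn : ∀ z, 0 ≤ dE a b F p n (v j) z := by
    intro z
    have := hloc.nonneg (z - x)
    simpa [hE] using this
  have hms : ms r E ≤ 1 := by
    rw [hE, Off_trans]
    refine le_trans ?_ hj
    apply setIntegral_mono_set
    · exact (hcont.continuousOn.integrableOn_compact (isCompact_closedBall x s)).mono_set
        ball_subset_closedBall
    · exact Filter.Eventually.of_forall hnn
    · exact (ball_subset_ball (min_le_right _ _)).eventuallyLE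
  have hms0 : 0 ≤ ms r E := by
    unfold ms
    exact setIntegral_nonneg measurableSet_ball (fun z _ => hloc.nonneg z)
  have hlam : (4 * π * Nv n - ρ j) / (a * b) * r ^ 2 ≤ H := by
    refine le_trans ?_ (le_max_left _ _)
    apply mul_le_mul_of_nonneg_right _ (by positivity)
    apply div_le_div_of_nonneg_right _ hab.le
    linarith [hS.pos j]
  have hder' : ∀ z ∈ ball (0 : ℂ) (r / 2), ‖deriv h z‖ * r ≤ H := by
    intro z hz
    refine le_trans ?_ (le_max_right _ _)
    exact mul_le_mul_of_nonneg_right (hder z hz) hrp.le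
  have hsm := hC' r _ h E hloc hlam hder' hms
  intro z hz
  have hz' : z - x ∈ ball (0 : ℂ) (r / 4) := by
    rw [mem_ball_zero_iff]
    rw [mem_ball, dist_eq_norm] at hz
    exact hz
  have h4 := (hsm (z - x) hz').1
  have h5 := hpot (z - x) (ball_subset_ball (by linarith) hz')
  rw [add_sub_cancel] at h5
  have h6 : |ms r E / (2 * π) * Real.log r| ≤ |Real.log r| / (2 * π) := by
    rw [abs_mul, abs_of_nonneg (by positivity : 0 ≤ ms r E / (2 * π))]
    rw [div_mul_eq_mul_div]
    apply div_le_div_of_nonneg_right _ (by positivity)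
    calc ms r E * |Real.log r| ≤ 1 * |Real.log r| :=
          mul_le_mul_of_nonneg_right hms (abs_nonneg _)
      _ = |Real.log r| := one_mul _
  have h7 : v j z - c j = (v j z - c j - pot r E (z - x)) +
      (pot r E (z - x) + ms r E / (2 * π) * Real.log r) - ms r E / (2 * π) * Real.log r := by ring
  rw [h7]
  have h8 := abs_sub ((v j z - c j - pot r E (z - x)) +
      (pot r E (z - x) + ms r E / (2 * π) * Real.log r)) (ms r E / (2 * π) * Real.log r)
  have h9 := abs_add_le (v j z - c j - pot r E (z - x))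
    (pot r E (z - x) + ms r E / (2 * π) * Real.log r)
  linarith

end Pool.Agent.Vx

end
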