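import Pool.Agent.Work.MP_afe918_an.Bd.B02
import Pool.Agent.Work.MP_afe918_an.Bd.B01
import Pool.Agent.Work.MP_afe918_an.Bd.B04
import Pool.Agent.Work.MP_afe918_an.Bd.B05

/-! Bundle of small proof modules (one section per former module). -/

section

/-!
# MP_afe918_an, item LocRep: local representation of a solution of the integral equation
-/

set_option autoImplicit false

open Complex Set Filter Topology MeasureTheory Metric
open scoped Real ContDiff ComplexConjugate

namespace Pool.Agent.Vx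

namespace LocRep

/-! ### Geometry of the period rectangle -/

theorem isOpen_rect (a b : ℝ) (q : ℂ) : IsOpen (rect a b q) := by
  have h1 : IsOpen {z : ℂ | |z.re - q.re| < a / 2} :=
    isOpen_lt (by fun_prop) continuous_const
  have h2 : IsOpen {z : ℂ | |z.im - q.im| < b / 2} :=
    isOpen_lt (by fun_prop) continuous_const
  exact h1.inter h2

theorem rect_sub_ball {a b : ℝ} (ha : 0 < a) (hb : 0 < b) : rect a b 0 ⊆ ball (0 : ℂ) (a + b) := by
  intro z hz
  obtain ⟨h1, h2⟩ := hz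
  rw [Complex.zero_re, sub_zero] at h1
  rw [Complex.zero_im, sub_zero] at h2
  rw [mem_ball_zero_iff]
  have h3 := Complex.norm_le_abs_re_add_abs_im z
  linarith

theorem ball_sub_rect {a b r : ℝ} (h1 : r ≤ a / 8) (h2 : r ≤ b / 8) (ha : 0 < a) (hb : 0 < b) :
    ball (0 : ℂ) r ⊆ rect a b 0 := by
  intro z hz
  rw [mem_ball_zero_iff] at hz
  have h3 := Complex.abs_re_le_norm z
  have h4 := Complex.abs_im_le_norm z
  constructor
  · rw [Complex.zero_re, sub_zero]; linarith
  · rw [Complex.zero_im, sub_zero]; linarith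

theorem rect_shift (a b : ℝ) (q : ℂ) (f : ℂ → ℝ) :
    ∫ y in rect a b q, f y = ∫ w in rect a b 0, f (q + w) := by
  have h := (measurePreserving_add_left (volume : Measure ℂ) q).setIntegral_preimage_emb
    (measurableEmbedding_addLeft q) f (rect a b q)
  rw [← h]
  have h2 : (fun x => q + x) ⁻¹' rect a b q = rect a b 0 := by
    ext z
    simp [rect]
  rw [h2]

/-- The compact set which contains all differences. -/
def K0 (a b : ℝ) : Set ℂ := {z | |z.re| ≤ 5 * a / 8 ∧ |z.im| ≤ 5 * b / 8}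

theorem K0_compact (a b : ℝ) : IsCompact (K0 a b) := by
  refine Metric.isCompact_of_isClosed_isBounded ?_ ?_
  · have h1 : IsClosed {z : ℂ | |z.re| ≤ 5 * a / 8} :=
      isClosed_le (by fun_prop) continuous_const
    have h2 : IsClosed {z : ℂ | |z.im| ≤ 5 * b / 8} :=
      isClosed_le (by fun_prop) continuous_const
    exact h1.inter h2
  · refine (Metric.isBounded_iff_subset_closedBall (0 : ℂ)).2 ⟨5 * a / 8 + 5 * b / 8, ?_⟩
    intro z hz
    rw [mem_closedBall_zero_iff]
    have h3 := Complex.norm_le_abs_re_add_abs_im z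
    linarith [hz.1, hz.2]

theorem sub_mem_K0 {a b r : ℝ} (h1 : r ≤ a / 8) (h2 : r ≤ b / 8) {z w : ℂ}
    (hz : z ∈ ball (0 : ℂ) r) (hw : w ∈ rect a b 0) : z - w ∈ K0 a b := by
  rw [mem_ball_zero_iff] at hz
  obtain ⟨h5, h6⟩ := hw
  rw [Complex.zero_re, sub_zero] at h5
  rw [Complex.zero_im, sub_zero] at h6
  have h3 := Complex.abs_re_le_norm z
  have h4 := Complex.abs_im_le_norm z
  constructor
  · rw [Complex.sub_re]
    have := abs_sub z.re w.re
    linarith
  · rw [Complex.sub_im]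
    have := abs_sub z.im w.im
    linarith

/-- The domain of the expansion of the Green function. -/
def U0 (a b : ℝ) : Set ℂ := {z | |z.re| < a ∧ |z.im| < b}

theorem U0_open (a b : ℝ) : IsOpen (U0 a b) := by
  have h1 : IsOpen {z : ℂ | |z.re| < a} := isOpen_lt (by fun_prop) continuous_const
  have h2 : IsOpen {z : ℂ | |z.im| < b} := isOpen_lt (by fun_prop) continuous_const
  exact h1.inter h2

theorem K0_sub_U0 {a b : ℝ} (ha : 0 < a) (hb : 0 < b) : K0 a b ⊆ U0 a b := by
  intro z hz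
  exact ⟨by linarith [hz.1], by linarith [hz.2]⟩

/-! ### Integrability -/

theorem cont_int {a b : ℝ} (ha : 0 < a) (hb : 0 < b) {E : Type} [NormedAddCommGroup E]
    {f : ℂ → E} (hf : Continuous f) : IntegrableOn f (rect a b 0) := by
  have h := (hf.continuousOn (s := closedBall (0 : ℂ) (a + b))).integrableOn_compact
    (μ := volume) (isCompact_closedBall _ _)
  exact h.mono_set ((rect_sub_ball ha hb).trans ball_subset_closedBall)

/-- bounded times density -/
theorem bdd_int {S : Set ℂ} (hS : MeasurableSet S) {e : ℂ → ℝ} (he : IntegrableOn e S)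
    {f : ℂ → ℂ} {B : ℝ} (hf : AEStronglyMeasurable f (volume.restrict S))
    (hB : ∀ w ∈ S, ‖f w‖ ≤ B) : IntegrableOn (fun w => f w * (e w : ℂ)) S := by
  refine MeasureTheory.Integrable.bdd_mul (c := B) he.ofReal hf ?_
  exact (ae_restrict_iff' hS).2 (Eventually.of_forall hB)

theorem norm_int_le {S : Set ℂ} (hS : MeasurableSet S) {e : ℂ → ℝ} (he : IntegrableOn e S)
    (he0 : ∀ w, 0 ≤ e w) {f : ℂ → ℂ} {B : ℝ} (hB : ∀ w ∈ S, ‖f w‖ ≤ B) :
    ‖∫ w in S, f w * (e w : ℂ)‖ ≤ B * ∫ w in S, e w := by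
  rw [← integral_const_mul]
  refine norm_integral_le_of_norm_le (he.const_mul B) ?_
  refine (ae_restrict_iff' hS).2 (Eventually.of_forall fun w hw => ?_)
  rw [norm_mul, Complex.norm_real, Real.norm_of_nonneg (he0 w)]
  exact mul_le_mul_of_nonneg_right (hB w hw) (he0 w)

/-- The holomorphic part of the Green potential. -/
theorem phi_int {a b r : ℝ} (ha : 0 < a) (hb : 0 < b) (h1 : r ≤ a / 8) (h2 : r ≤ b / 8)
    {φ : ℂ → ℂ} (hφ : DifferentiableOn ℂ φ (U0 a b)) {M0 M1 : ℝ}
    (hM0 : ∀ z ∈ K0 a b, ‖φ z‖ ≤ M0) (hM1 : ∀ z ∈ K0 a b, ‖deriv φ z‖ ≤ M1)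
    {e : ℂ → ℝ} (he : Continuous e) (he0 : ∀ w, 0 ≤ e w) :
    (∀ z ∈ ball (0 : ℂ) r, IntegrableOn (fun w => φ (z - w) * (e w : ℂ)) (rect a b 0)) ∧
    (∀ z ∈ ball (0 : ℂ) r, HasDerivAt (fun z => ∫ w in rect a b 0, φ (z - w) * (e w : ℂ))
       (∫ w in rect a b 0, deriv φ (z - w) * (e w : ℂ)) z) ∧
    (∀ z ∈ ball (0 : ℂ) r, ‖∫ w in rect a b 0, φ (z - w) * (e w : ℂ)‖ ≤
      M0 * ∫ w in rect a b 0, e w) ∧
    (∀ z ∈ ball (0 : ℂ) r, ‖∫ w in rect a b 0, deriv φ (z - w) * (e w : ℂ)‖ ≤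
      M1 * ∫ w in rect a b 0, e w) := by
  have hmeas : MeasurableSet (rect a b 0) := (isOpen_rect a b 0).measurableSet
  have hint : IntegrableOn e (rect a b 0) := cont_int ha hb he
  have hcont : ∀ z ∈ ball (0 : ℂ) r, ∀ f : ℂ → ℂ, ContinuousOn f (U0 a b) →
      AEStronglyMeasurable (fun w => f (z - w)) (volume.restrict (rect a b 0)) := by
    intro z hz f hf
    refine ContinuousOn.aestronglyMeasurable ?_ hmeas
    refine hf.comp (by fun_prop) ?_
    intro w hw
    exact K0_sub_U0 ha hb (sub_mem_K0 h1 h2 hz hw)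
  have hφ' : ContinuousOn (deriv φ) (U0 a b) := (hφ.deriv (U0_open a b)).continuousOn
  have hI : ∀ z ∈ ball (0 : ℂ) r, IntegrableOn (fun w => φ (z - w) * (e w : ℂ)) (rect a b 0) :=
    fun z hz => bdd_int hmeas hint (hcont z hz φ hφ.continuousOn)
      fun w hw => hM0 _ (sub_mem_K0 h1 h2 hz hw)
  refine ⟨hI, ?_, ?_, ?_⟩
  · intro z hz
    have hs : ball (0 : ℂ) r ∈ 𝓝 z := isOpen_ball.mem_nhds hz
    refine (hasDerivAt_integral_of_dominated_loc_of_deriv_le
      (μ := volume.restrict (rect a b 0))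
      (F := fun z w => φ (z - w) * (e w : ℂ)) (F' := fun z w => deriv φ (z - w) * (e w : ℂ))
      (bound := fun w => M1 * e w) hs ?_ (hI z hz) ?_ ?_ (hint.const_mul M1) ?_).2
    · filter_upwards [hs] with z' hz'
      exact (hI z' hz').aestronglyMeasurable
    · exact (bdd_int hmeas hint (hcont z hz _ hφ')
        fun w hw => hM1 _ (sub_mem_K0 h1 h2 hz hw)).aestronglyMeasurable
    · filter_upwards [ae_restrict_mem hmeas] with w hw z' hz'
      rw [norm_mul, Complex.norm_real, Real.norm_of_nonneg (he0 w)]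
      exact mul_le_mul_of_nonneg_right (hM1 _ (sub_mem_K0 h1 h2 hz' hw)) (he0 w)
    · filter_upwards [ae_restrict_mem hmeas] with w hw z' hz'
      have h3 : HasDerivAt φ (deriv φ (z' - w)) (z' - w) :=
        (hφ.differentiableAt ((U0_open a b).mem_nhds
          (K0_sub_U0 ha hb (sub_mem_K0 h1 h2 hz' hw)))).hasDerivAt
      have h4 : HasDerivAt (fun z : ℂ => φ (z - w)) (deriv φ (z' - w)) z' := by
        have h5 := h3.comp z' ((hasDerivAt_id z').sub_const w)
        rw [mul_one] at h5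
        exact h5
      exact h4.mul_const _
  · intro z hz
    exact norm_int_le hmeas hint he0 fun w hw => hM0 _ (sub_mem_K0 h1 h2 hz hw)
  · intro z hz
    exact norm_int_le hmeas hint he0 fun w hw => hM1 _ (sub_mem_K0 h1 h2 hz hw)

theorem log_int (h : S_LogI) {T : ℝ} (hT : 0 < T) {e : ℂ → ℝ} (he : Continuous e) (z : ℂ) :
    IntegrableOn (fun w => Real.log ‖z - w‖ * e w) (ball 0 T) := by
  obtain ⟨B, hB⟩ := (isCompact_closedBall (0 : ℂ) T).exists_bound_of_continuousOn
    he.continuousOn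
  have h1 := MeasureTheory.Integrable.bdd_mul (c := B) (h 0 z T hT).1
    (he.aestronglyMeasurable.restrict (s := ball (0 : ℂ) T))
    ((ae_restrict_iff' measurableSet_ball).2 (Eventually.of_forall fun w hw =>
      hB w (ball_subset_closedBall hw)))
  refine h1.congr (Eventually.of_forall fun w => ?_)
  show e w * Real.log ‖z - w‖ = Real.log ‖z - w‖ * e w
  ring

theorem norm_sub_sq (z w : ℂ) :
    ‖z - w‖ ^ 2 = ‖z‖ ^ 2 - 2 * (conj z * w).re + ‖w‖ ^ 2 := by
  rw [Complex.sq_norm, Complex.sq_norm, Complex.sq_norm, Complex.normSq_apply,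
    Complex.normSq_apply, Complex.normSq_apply]
  simp only [Complex.sub_re, Complex.sub_im, Complex.mul_re, Complex.conj_re, Complex.conj_im]
  ring

/-- The Green potential on the period rectangle. -/
theorem expand {a b r : ℝ} (ha : 0 < a) (hb : 0 < b) (h1 : r ≤ a / 8) (h2 : r ≤ b / 8)
    (hlog : S_LogI) {F φ : ℂ → ℂ}
    (hφ2 : ∀ z : ℂ, |z.re| < a → |z.im| < b → z ≠ 0 →
      Gr a b F z = -(1 / (2 * π)) * Real.log ‖z‖ + (φ z).re + ‖z‖ ^ 2 / (4 * a * b))
    {e : ℂ → ℝ} (he : Continuous e) {z : ℂ} (hz : z ∈ ball (0 : ℂ) r)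
    (hI : IntegrableOn (fun w => φ (z - w) * (e w : ℂ)) (rect a b 0)) :
    ∫ w in rect a b 0, Gr a b F (z - w) * e w =
      -(1 / (2 * π)) * (∫ w in rect a b 0, Real.log ‖z - w‖ * e w) +
      (∫ w in rect a b 0, φ (z - w) * (e w : ℂ)).re +
      (‖z‖ ^ 2 * (∫ w in rect a b 0, e w) - 2 * (conj z * ∫ w in rect a b 0, w * (e w : ℂ)).re +
        ∫ w in rect a b 0, ‖w‖ ^ 2 * e w) / (4 * a * b) := by
  have hmeas : MeasurableSet (rect a b 0) := (isOpen_rect a b 0).measurableSet
  have hae : ∀ᵐ w : ℂ ∂(volume.restrict (rect a b 0)), w ≠ z := by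
    refine ae_restrict_of_ae ?_
    exact (Set.countable_singleton z).ae_notMem volume
  have e1 : ∫ w in rect a b 0, Gr a b F (z - w) * e w =
      ∫ w in rect a b 0, (-(1 / (2 * π)) * (Real.log ‖z - w‖ * e w) +
        (φ (z - w) * (e w : ℂ)).re +
        (‖z‖ ^ 2 * e w - 2 * (conj z * (w * (e w : ℂ))).re + ‖w‖ ^ 2 * e w) / (4 * a * b)) := by
    refine integral_congr_ae ?_
    filter_upwards [hae, ae_restrict_mem hmeas] with w hw hw2
    have h3 := K0_sub_U0 ha hb (sub_mem_K0 h1 h2 hz hw2)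
    have h4 : z - w ≠ 0 := fun h => hw (sub_eq_zero.1 h).symm
    rw [hφ2 _ h3.1 h3.2 h4, norm_sub_sq, ← mul_assoc (conj z) w, Complex.re_mul_ofReal,
      Complex.re_mul_ofReal]
    ring
  have i1 : IntegrableOn (fun w => Real.log ‖z - w‖ * e w) (rect a b 0) :=
    (log_int hlog (by linarith) he z).mono_set (rect_sub_ball ha hb)
  have i2 : IntegrableOn (fun w => (φ (z - w) * (e w : ℂ)).re) (rect a b 0) := hI.re
  have i3 : IntegrableOn (fun w => ‖z‖ ^ 2 * e w) (rect a b 0) :=
    cont_int ha hb (by fun_prop)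
  have i4 : IntegrableOn (fun w => 2 * (conj z * (w * (e w : ℂ))).re) (rect a b 0) :=
    cont_int ha hb (by fun_prop)
  have i5 : IntegrableOn (fun w => ‖w‖ ^ 2 * e w) (rect a b 0) :=
    cont_int ha hb (by fun_prop)
  have i6 : IntegrableOn (fun w : ℂ => conj z * (w * (e w : ℂ))) (rect a b 0) :=
    cont_int ha hb (by fun_prop)
  have e2 : ∫ w in rect a b 0, (φ (z - w) * (e w : ℂ)).re =
      (∫ w in rect a b 0, φ (z - w) * (e w : ℂ)).re := integral_re (𝕜 := ℂ) hI
  have e3 : ∫ w in rect a b 0, (conj z * (w * (e w : ℂ))).re =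
      (conj z * ∫ w in rect a b 0, w * (e w : ℂ)).re := by
    have h3 : ∫ w in rect a b 0, (conj z * (w * (e w : ℂ))).re =
      (∫ w in rect a b 0, conj z * (w * (e w : ℂ))).re := integral_re (𝕜 := ℂ) i6
    rw [h3, integral_const_mul]
  have i7 : Integrable (fun w => -(1 / (2 * π)) * (Real.log ‖z - w‖ * e w))
      (volume.restrict (rect a b 0)) := i1.const_mul _
  have i8 : Integrable (fun w => -(1 / (2 * π)) * (Real.log ‖z - w‖ * e w) +
      (φ (z - w) * (e w : ℂ)).re) (volume.restrict (rect a b 0)) := i7.add i2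
  have i9 : Integrable (fun w => ‖z‖ ^ 2 * e w - 2 * (conj z * (w * (e w : ℂ))).re)
      (volume.restrict (rect a b 0)) := i3.sub i4
  have i10 : Integrable (fun w => ‖z‖ ^ 2 * e w - 2 * (conj z * (w * (e w : ℂ))).re +
      ‖w‖ ^ 2 * e w) (volume.restrict (rect a b 0)) := i9.add i5
  have i11 : Integrable (fun w => (‖z‖ ^ 2 * e w - 2 * (conj z * (w * (e w : ℂ))).re +
      ‖w‖ ^ 2 * e w) / (4 * a * b)) (volume.restrict (rect a b 0)) := i10.div_const _
  rw [e1, integral_add i8 i11, integral_add i7 i2, integral_div, integral_add i9 i5,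
    integral_sub i3 i4, integral_const_mul, integral_const_mul, integral_const_mul, e2, e3]

/-- The equation on the period rectangle centred at `q`. -/
theorem eq_rect {a b : ℝ} {F : ℂ → ℂ} {m : ℕ} {p : Fin m → ℂ} {n : Fin m → ℕ} (ha : 0 < a)
    (hb : 0 < b) (hTi : S_Ti) (hG : Per a b (Gr a b F)) (hH : Per a b (hw a b F p n)) {ρ : ℝ}
    {v : ℂ → ℝ} {c : ℝ} (hs : IntSol a b F p n ρ v c) (q z : ℂ) :
    v (q + z) = c + ∫ w in rect a b 0, Gr a b F (z - w) * dE a b F p n v (q + w) := by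
  have hE : Per a b (dE a b F p n v) := by
    intro y
    unfold dE
    rw [(hH y).1, (hH y).2, (hs.per y).1, (hs.per y).2]
    exact ⟨rfl, rfl⟩
  have hP : Per a b (fun y => Gr a b F (q + z - y) * dE a b F p n v y) := by
    intro y
    have e1 := (hG (q + z - (y + a))).1
    have e2 := (hG (q + z - (y + b * I))).2
    rw [show q + z - (y + a) + a = q + z - y by ring] at e1
    rw [show q + z - (y + b * I) + b * I = q + z - y by ring] at e2
    show Gr a b F (q + z - (y + a)) * dE a b F p n v (y + a) =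
        Gr a b F (q + z - y) * dE a b F p n v y ∧
      Gr a b F (q + z - (y + b * I)) * dE a b F p n v (y + b * I) =
        Gr a b F (q + z - y) * dE a b F p n v y
    rw [← e1, ← e2, (hE y).1, (hE y).2]
    exact ⟨rfl, rfl⟩
  rw [hs.eq (q + z), ← (hTi a b _ ha hb hP q).2.1, rect_shift]
  congr 1
  refine integral_congr_ae (Eventually.of_forall fun w => ?_)
  show Gr a b F (q + z - (q + w)) * dE a b F p n v (q + w) = _
  rw [show q + z - (q + w) = z - w by ring]

theorem mass_rect {a b : ℝ} {F : ℂ → ℂ} {m : ℕ} {p : Fin m → ℂ} {n : Fin m → ℕ} (ha : 0 < a)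
    (hb : 0 < b) (hTi : S_Ti) (hH : Per a b (hw a b F p n)) {ρ : ℝ}
    {v : ℂ → ℝ} {c : ℝ} (hs : IntSol a b F p n ρ v c) (q : ℂ) :
    ∫ w in rect a b 0, dE a b F p n v (q + w) = ρ := by
  have hE : Per a b (dE a b F p n v) := by
    intro y
    unfold dE
    rw [(hH y).1, (hH y).2, (hs.per y).1, (hs.per y).2]
    exact ⟨rfl, rfl⟩
  rw [← rect_shift a b q (dE a b F p n v), (hTi a b _ ha hb hE q).2.1, hs.mass]

/-- The part of the period rectangle outside the ball. -/
def So (a b r : ℝ) : Set ℂ := rect a b 0 \ ball 0 r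

theorem So_meas (a b r : ℝ) : MeasurableSet (So a b r) :=
  (isOpen_rect a b 0).measurableSet.diff measurableSet_ball

theorem So_int {a b r : ℝ} (ha : 0 < a) (hb : 0 < b) {E : Type} [NormedAddCommGroup E]
    {f : ℂ → E} (hf : Continuous f) : IntegrableOn f (So a b r) :=
  (cont_int ha hb hf).mono_set sdiff_subset

theorem So_mass {a b r : ℝ} (ha : 0 < a) (hb : 0 < b) {e : ℂ → ℝ} (he : Continuous e)
    (he0 : ∀ w, 0 ≤ e w) : ∫ y in So a b r, e y ≤ ∫ y in rect a b 0, e y := by
  refine setIntegral_mono_set (cont_int ha hb he) ?_ ?_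
  · exact Eventually.of_forall he0
  · exact Filter.Eventually.of_forall sdiff_subset

theorem So_norm {a b r : ℝ} {z y : ℂ} (hy : y ∈ So a b r) : r - ‖z‖ ≤ ‖z - y‖ := by
  have h1 : r ≤ ‖y‖ := by
    by_contra h
    exact hy.2 (mem_ball_zero_iff.2 (not_le.1 h))
  have h2 := norm_sub_norm_le y z
  rw [norm_sub_rev] at h2
  linarith

theorem b1 {a b r : ℝ} (ha : 0 < a) (hb : 0 < b) (hr : 0 < r) (hra : r ≤ a / 8) {e : ℂ → ℝ}
    (he : Continuous e) (he0 : ∀ w, 0 ≤ e w) {z : ℂ} (hz : z ∈ ball (0 : ℂ) (r / 2)) :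
    |∫ y in So a b r, Real.log ‖z - y‖ * e y| ≤
      (|Real.log (r / 2)| + |Real.log (2 * (a + b))|) * ∫ y in rect a b 0, e y := by
  rw [mem_ball_zero_iff] at hz
  have hL : ∀ y ∈ So a b r, |Real.log ‖z - y‖| ≤
      |Real.log (r / 2)| + |Real.log (2 * (a + b))| := by
    intro y hy
    have h1 : r / 2 ≤ ‖z - y‖ := by linarith [So_norm (z := z) hy]
    have h2 : ‖z - y‖ ≤ 2 * (a + b) := by
      have h3 := norm_sub_le z y
      have h4 := mem_ball_zero_iff.1 (rect_sub_ball ha hb hy.1)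
      linarith
    have h5 : Real.log (r / 2) ≤ Real.log ‖z - y‖ := Real.log_le_log (by linarith) h1
    have h6 : Real.log ‖z - y‖ ≤ Real.log (2 * (a + b)) :=
      Real.log_le_log (by linarith) h2
    refine le_trans (abs_le_max_abs_abs h5 h6) (max_le ?_ ?_)
    · linarith [abs_nonneg (Real.log (2 * (a + b)))]
    · linarith [abs_nonneg (Real.log (r / 2))]
  have h1 : ‖∫ y in So a b r, Real.log ‖z - y‖ * e y‖ ≤
      ∫ y in So a b r, (|Real.log (r / 2)| + |Real.log (2 * (a + b))|) * e y := by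
    refine norm_integral_le_of_norm_le ((So_int ha hb he).const_mul _) ?_
    filter_upwards [ae_restrict_mem (So_meas a b r)] with y hy
    rw [norm_mul, Real.norm_eq_abs, Real.norm_of_nonneg (he0 y)]
    exact mul_le_mul_of_nonneg_right (hL y hy) (he0 y)
  rw [Real.norm_eq_abs, integral_const_mul] at h1
  refine le_trans h1 (mul_le_mul_of_nonneg_left (So_mass ha hb he he0) ?_)
  positivity

theorem b2 {a b r : ℝ} (ha : 0 < a) (hb : 0 < b) (hr : 0 < r) {e : ℂ → ℝ}
    (he : Continuous e) (he0 : ∀ w, 0 ≤ e w) {z : ℂ} (hz : z ∈ ball (0 : ℂ) (r / 2)) :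
    ‖∫ y in So a b r, (e y : ℂ) / (z - y)‖ ≤ 2 / r * ∫ y in rect a b 0, e y := by
  rw [mem_ball_zero_iff] at hz
  have h1 : ‖∫ y in So a b r, (e y : ℂ) / (z - y)‖ ≤ ∫ y in So a b r, 2 / r * e y := by
    refine norm_integral_le_of_norm_le ((So_int ha hb he).const_mul _) ?_
    filter_upwards [ae_restrict_mem (So_meas a b r)] with y hy
    rw [norm_div, Complex.norm_real, Real.norm_of_nonneg (he0 y)]
    have h1 : r / 2 ≤ ‖z - y‖ := by linarith [So_norm (z := z) hy]
    rw [div_le_iff₀ (by linarith)]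
    have h2 : 2 / r * e y * (r / 2) ≤ 2 / r * e y * ‖z - y‖ := by
      have := he0 y
      gcongr
    have h3 : 2 / r * e y * (r / 2) = e y := by field_simp
    linarith
  rw [integral_const_mul] at h1
  refine le_trans h1 (mul_le_mul_of_nonneg_left (So_mass ha hb he he0) ?_)
  positivity

theorem b3 {a b r K : ℝ} (ha : 0 < a) (hb : 0 < b) (hr : 0 < r) (hR : S_Riesz) {e : ℂ → ℝ}
    (he : Continuous e) (he0 : ∀ w, 0 ≤ e w) (hK0 : 0 ≤ K)
    (hK : ∀ y, r ≤ ‖y‖ → ‖y‖ ≤ 2 * r → e y ≤ K) {z : ℂ} (hz : z ∈ ball (0 : ℂ) r) :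
    ‖∫ y in So a b r, (e y : ℂ) / (z - y)‖ ≤
      12 * π * r * K + 1 / r * ∫ y in rect a b 0, e y := by
  rw [mem_ball_zero_iff] at hz
  obtain ⟨r1, r2⟩ := hR 0 z (2 * r) (by linarith)
  have i1 : IntegrableOn ((ball (0 : ℂ) (2 * r)).indicator (fun y => 1 / ‖z - y‖))
      (So a b r) := by
    have h : Integrable ((ball (0 : ℂ) (2 * r)).indicator (fun y => 1 / ‖z - y‖)) :=
      (integrable_indicator_iff measurableSet_ball).2 r1
    exact h.integrableOn
  have h1 : ‖∫ y in So a b r, (e y : ℂ) / (z - y)‖ ≤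
      ∫ y in So a b r, (K * (ball (0 : ℂ) (2 * r)).indicator (fun y => 1 / ‖z - y‖) y +
        1 / r * e y) := by
    refine norm_integral_le_of_norm_le ((i1.const_mul K).add
      ((So_int ha hb he).const_mul (1 / r))) ?_
    filter_upwards [ae_restrict_mem (So_meas a b r)] with y hy
    rw [norm_div, Complex.norm_real, Real.norm_of_nonneg (he0 y)]
    have h2 : r ≤ ‖y‖ := by
      by_contra h
      exact hy.2 (mem_ball_zero_iff.2 (not_le.1 h))
    have h3 := So_norm (z := z) hy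
    by_cases h4 : ‖y‖ < 2 * r
    · rw [Set.indicator_of_mem (mem_ball_zero_iff.2 h4)]
      have h5 : e y / ‖z - y‖ ≤ K * (1 / ‖z - y‖) := by
        rw [mul_one_div]
        exact div_le_div_of_nonneg_right (hK y h2 h4.le) (norm_nonneg _)
      have h6 : 0 ≤ 1 / r * e y := mul_nonneg (by positivity) (he0 y)
      linarith
    · rw [Set.indicator_of_notMem (fun h => h4 (mem_ball_zero_iff.1 h)), mul_zero, zero_add]
      have h5 : r ≤ ‖z - y‖ := by
        have h6 := norm_sub_norm_le y z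
        rw [norm_sub_rev] at h6
        linarith [not_lt.1 h4]
      rw [one_div, inv_mul_eq_div]
      exact div_le_div_of_nonneg_left (he0 y) hr h5
  have h2 : ∫ y in So a b r, (K * (ball (0 : ℂ) (2 * r)).indicator (fun y => 1 / ‖z - y‖) y +
        1 / r * e y) = K * (∫ y in So a b r, (ball (0 : ℂ) (2 * r)).indicator
          (fun y => 1 / ‖z - y‖) y) + 1 / r * ∫ y in So a b r, e y := by
    rw [integral_add (i1.const_mul K) ((So_int ha hb he).const_mul (1 / r)),
      integral_const_mul, integral_const_mul]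
  have h3 : ∫ y in So a b r, (ball (0 : ℂ) (2 * r)).indicator (fun y => 1 / ‖z - y‖) y ≤
      ∫ y in ball (0 : ℂ) (2 * r), 1 / ‖z - y‖ := by
    rw [← integral_indicator (measurableSet_ball (x := (0 : ℂ)) (ε := 2 * r))]
    refine setIntegral_le_integral
      ((integrable_indicator_iff measurableSet_ball).2 r1) ?_
    refine Eventually.of_forall fun y => ?_
    exact Set.indicator_nonneg (fun _ _ => by positivity) y
  have h4 : 1 / r * ∫ y in So a b r, e y ≤ 1 / r * ∫ y in rect a b 0, e y :=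
    mul_le_mul_of_nonneg_left (So_mass ha hb he he0) (by positivity)
  have h5 : K * ∫ y in So a b r, (ball (0 : ℂ) (2 * r)).indicator (fun y => 1 / ‖z - y‖) y ≤
      K * (6 * π * (2 * r)) := mul_le_mul_of_nonneg_left (h3.trans r2) hK0
  rw [h2] at h1
  linarith

theorem split_log {a b r : ℝ} (ha : 0 < a) (hb : 0 < b) (h1 : r ≤ a / 8) (h2 : r ≤ b / 8)
    (hlog : S_LogI) {e : ℂ → ℝ} (he : Continuous e) (z : ℂ) :
    ∫ w in rect a b 0, Real.log ‖z - w‖ * e w =
      (∫ w in ball (0 : ℂ) r, Real.log ‖z - w‖ * e w) +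
        ∫ w in So a b r, Real.log ‖z - w‖ * e w := by
  have i1 : IntegrableOn (fun w => Real.log ‖z - w‖ * e w) (rect a b 0) :=
    (log_int hlog (by linarith) he z).mono_set (rect_sub_ball ha hb)
  have h3 := MeasureTheory.integral_inter_add_sdiff (μ := (volume : Measure ℂ))
    (measurableSet_ball (x := (0 : ℂ)) (ε := r)) i1
  rw [Set.inter_eq_self_of_subset_right (ball_sub_rect h1 h2 ha hb)] at h3
  exact h3.symm

/-- The representation of the solution for a fixed density. -/
theorem core {a b r : ℝ} (ha : 0 < a) (hb : 0 < b) (hr : 0 < r) (h1 : r ≤ a / 8)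
    (h2 : r ≤ b / 8) (hlog : S_LogI) (hR : S_Riesz) (hFar : S_Far) {F φ : ℂ → ℂ}
    (hφ : DifferentiableOn ℂ φ (U0 a b))
    (hφ2 : ∀ z : ℂ, |z.re| < a → |z.im| < b → z ≠ 0 →
      Gr a b F z = -(1 / (2 * π)) * Real.log ‖z‖ + (φ z).re + ‖z‖ ^ 2 / (4 * a * b))
    {M0 M1 : ℝ} (hM0 : ∀ z ∈ K0 a b, ‖φ z‖ ≤ M0) (hM1 : ∀ z ∈ K0 a b, ‖deriv φ z‖ ≤ M1)
    {e : ℂ → ℝ} (he : Continuous e) (he0 : ∀ w, 0 ≤ e w) {ρ : ℝ}
    (hρ : ∫ w in rect a b 0, e w = ρ) :
    ∃ H : ℂ → ℂ, DifferentiableOn ℂ H (ball 0 r) ∧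
      (∀ z ∈ ball (0 : ℂ) r, ∫ w in rect a b 0, Gr a b F (z - w) * e w =
        pot r e z + 2 * (H z).re + ρ / (4 * a * b) * ‖z‖ ^ 2) ∧
      (∀ z ∈ ball (0 : ℂ) (r / 2), |2 * (H z).re| ≤
        (|Real.log (r / 2)| + |Real.log (2 * (a + b))| + M0 +
          3 * (a + b) ^ 2 / (4 * a * b)) * ρ) ∧
      (∀ z ∈ ball (0 : ℂ) (r / 2), ‖deriv H z‖ ≤
        (2 / r + M1 + (a + b) / (4 * a * b)) * ρ) ∧
      ∀ K : ℝ, 0 ≤ K → (∀ y, r ≤ ‖y‖ → ‖y‖ ≤ 2 * r → e y ≤ K) →
        ∀ z ∈ ball (0 : ℂ) r, ‖deriv H z‖ ≤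
          3 * r * K + (1 / r + M1 + (a + b) / (4 * a * b)) * ρ := by
  obtain ⟨hI, hΦ, hΦ0, hΦ1⟩ := phi_int ha hb h1 h2 hφ hM0 hM1 he he0
  have hdis : Disjoint (So a b r) (ball (0 : ℂ) r) := disjoint_sdiff_left
  obtain ⟨G, hGd, hGr, hG'⟩ := hFar 0 r (a + b) (So a b r) e hr he (So_meas a b r)
    (sdiff_subset.trans (rect_sub_ball ha hb)) hdis
  rw [hρ] at hΦ0 hΦ1
  have hmeas : MeasurableSet (rect a b 0) := (isOpen_rect a b 0).measurableSet
  have hρ0 : 0 ≤ ρ := by rw [← hρ]; exact integral_nonneg he0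
  have hM00 : 0 ≤ M0 := (norm_nonneg _).trans (hM0 0 ⟨by simp; positivity, by simp; positivity⟩)
  have hM10 : 0 ≤ M1 := (norm_nonneg _).trans (hM1 0 ⟨by simp; positivity, by simp; positivity⟩)
  set M : ℂ := ∫ w in rect a b 0, w * (e w : ℂ) with hM
  set m2 : ℝ := ∫ w in rect a b 0, ‖w‖ ^ 2 * e w with hm2
  have hMb : ‖M‖ ≤ (a + b) * ρ := by
    have h := norm_int_le hmeas (cont_int ha hb he) he0 (f := fun w => w) (B := a + b)
      (fun w hw => (mem_ball_zero_iff.1 (rect_sub_ball ha hb hw)).le)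
    rwa [hρ] at h
  have hm20 : 0 ≤ m2 := integral_nonneg fun w => by have := he0 w; positivity
  have hm2b : m2 ≤ (a + b) ^ 2 * ρ := by
    rw [hm2, ← hρ, ← integral_const_mul]
    refine setIntegral_mono_on (cont_int ha hb (by fun_prop))
      ((cont_int ha hb he).const_mul _) hmeas fun w hw => ?_
    have h3 := (mem_ball_zero_iff.1 (rect_sub_ball ha hb hw)).le
    have h4 := he0 w
    gcongr
  set Φ : ℂ → ℂ := fun z => ∫ w in rect a b 0, φ (z - w) * (e w : ℂ) with hΦdef
  set kc : ℂ := (((1 / (4 * a * b) : ℝ)) : ℂ) * conj M with hkc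
  have hkcb : ‖kc‖ ≤ (a + b) / (4 * a * b) * ρ := by
    rw [hkc, norm_mul, Complex.norm_real, Complex.norm_conj, Real.norm_of_nonneg (by positivity)]
    calc 1 / (4 * a * b) * ‖M‖ ≤ 1 / (4 * a * b) * ((a + b) * ρ) := by gcongr
      _ = (a + b) / (4 * a * b) * ρ := by ring
  set H : ℂ → ℂ := fun z => G z + Φ z / 2 + ((m2 / (8 * a * b) : ℝ) : ℂ) - z * kc with hH
  have hHd : ∀ z ∈ ball (0 : ℂ) r, HasDerivAt H (deriv G z +
      (∫ w in rect a b 0, deriv φ (z - w) * (e w : ℂ)) / 2 - kc) z := by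
    intro z hz
    have d1 : HasDerivAt G (deriv G z) z :=
      (hGd.differentiableAt (isOpen_ball.mem_nhds hz)).hasDerivAt
    have d2 := (hΦ z hz).div_const 2
    have d3 : HasDerivAt (fun z : ℂ => z * kc) kc z := by
      have h := (hasDerivAt_id z).mul_const kc
      rw [one_mul] at h
      exact h
    exact ((d1.add d2).add_const _).sub d3
  have hHre : ∀ z ∈ ball (0 : ℂ) r, 2 * (H z).re =
      -(1 / (2 * π)) * (∫ y in So a b r, Real.log ‖z - y‖ * e y) + (Φ z).re +
        (m2 - 2 * (conj z * M).re) / (4 * a * b) := by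
    intro z hz
    have h3 := hGr z hz
    rw [zero_add] at h3
    have h4 : (z * kc).re = 1 / (4 * a * b) * (conj z * M).re := by
      rw [hkc, mul_left_comm, Complex.re_ofReal_mul]
      simp only [Complex.mul_re, Complex.conj_re, Complex.conj_im]
      ring
    have h5 : (Φ z / 2).re = (Φ z).re / 2 := by
      rw [show (2 : ℂ) = ((2 : ℝ) : ℂ) by norm_num, Complex.div_ofReal_re]
    rw [← h3, hH]
    simp only [Complex.sub_re, Complex.add_re, Complex.ofReal_re]
    rw [h4, h5]
    field_simp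
    ring
  refine ⟨H, fun z hz => (hHd z hz).differentiableAt.differentiableWithinAt, ?_, ?_, ?_, ?_⟩
  · intro z hz
    rw [expand ha hb h1 h2 hlog hφ2 he hz (hI z hz), hHre z hz, hρ,
      split_log ha hb h1 h2 hlog he z]
    unfold pot
    field_simp
    ring
  · intro z hz
    have hz' : z ∈ ball (0 : ℂ) r := ball_subset_ball (by linarith) hz
    rw [hHre z hz']
    have c1 := b1 ha hb hr h1 he he0 hz
    rw [hρ] at c1
    have c2 : |(Φ z).re| ≤ M0 * ρ := (Complex.abs_re_le_norm _).trans (hΦ0 z hz')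
    have hzn : ‖z‖ ≤ a + b := by
      rw [mem_ball_zero_iff] at hz'
      linarith
    have c3 : |(conj z * M).re| ≤ (a + b) ^ 2 * ρ := by
      refine (Complex.abs_re_le_norm _).trans ?_
      rw [norm_mul, Complex.norm_conj]
      calc ‖z‖ * ‖M‖ ≤ (a + b) * ((a + b) * ρ) := by gcongr
        _ = (a + b) ^ 2 * ρ := by ring
    have c4 : |(m2 - 2 * (conj z * M).re) / (4 * a * b)| ≤
        3 * (a + b) ^ 2 / (4 * a * b) * ρ := by
      rw [abs_div, abs_of_pos (show (0 : ℝ) < 4 * a * b by positivity)]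
      have h3 : |m2 - 2 * (conj z * M).re| ≤ 3 * (a + b) ^ 2 * ρ := by
        rw [abs_le] at c3 ⊢
        constructor <;> linarith [c3.1, c3.2]
      calc |m2 - 2 * (conj z * M).re| / (4 * a * b) ≤ 3 * (a + b) ^ 2 * ρ / (4 * a * b) := by
            gcongr
        _ = 3 * (a + b) ^ 2 / (4 * a * b) * ρ := by ring
    have c5 : |-(1 / (2 * π)) * (∫ y in So a b r, Real.log ‖z - y‖ * e y)| ≤
        (|Real.log (r / 2)| + |Real.log (2 * (a + b))|) * ρ := by
      rw [abs_mul, abs_neg, abs_of_pos (show (0 : ℝ) < 1 / (2 * π) by positivity)]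
      have h3 : 1 / (2 * π) ≤ 1 := by
        rw [div_le_one (by positivity)]
        linarith [Real.pi_gt_three]
      calc 1 / (2 * π) * |∫ y in So a b r, Real.log ‖z - y‖ * e y| ≤
          1 * ((|Real.log (r / 2)| + |Real.log (2 * (a + b))|) * ρ) := by gcongr
        _ = (|Real.log (r / 2)| + |Real.log (2 * (a + b))|) * ρ := one_mul _
    calc _ ≤ |-(1 / (2 * π)) * (∫ y in So a b r, Real.log ‖z - y‖ * e y)| + |(Φ z).re| +
          |(m2 - 2 * (conj z * M).re) / (4 * a * b)| := abs_add_three _ _ _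
      _ ≤ _ := by linarith
  · intro z hz
    have hz' : z ∈ ball (0 : ℂ) r := ball_subset_ball (by linarith) hz
    rw [(hHd z hz').deriv, hG' z hz']
    have c1 := b2 ha hb hr he he0 hz
    rw [hρ] at c1
    have c2 := hΦ1 z hz'
    rw [zero_add]
    have c3 : ‖-(1 / (4 * (π : ℂ))) * ∫ y in So a b r, (e y : ℂ) / (z - y)‖ ≤ 2 / r * ρ := by
      rw [norm_mul]
      have h3 : ‖-(1 / (4 * (π : ℂ)))‖ ≤ 1 := by
        rw [show -(1 / (4 * (π : ℂ))) = ((-(1 / (4 * π)) : ℝ) : ℂ) by push_cast; ring,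
          Complex.norm_real, Real.norm_eq_abs, abs_neg, abs_of_pos (by positivity),
          div_le_one (by positivity)]
        linarith [Real.pi_gt_three]
      calc _ ≤ 1 * (2 / r * ρ) := by gcongr
        _ = 2 / r * ρ := one_mul _
    have c4 : ‖(∫ w in rect a b 0, deriv φ (z - w) * (e w : ℂ)) / 2‖ ≤ M1 * ρ := by
      rw [norm_div, Complex.norm_ofNat]
      have h3 : 0 ≤ M1 * ρ := by positivity
      linarith
    calc _ ≤ ‖-(1 / (4 * (π : ℂ))) * ∫ y in So a b r, (e y : ℂ) / (z - y)‖ +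
          ‖(∫ w in rect a b 0, deriv φ (z - w) * (e w : ℂ)) / 2‖ + ‖kc‖ :=
          (norm_sub_le _ _).trans (add_le_add_left (norm_add_le _ _) _)
      _ ≤ _ := by linarith
  · intro K hK0 hK z hz
    rw [(hHd z hz).deriv, hG' z hz]
    have c1 := b3 ha hb hr hR he he0 hK0 hK hz
    rw [hρ] at c1
    have c2 := hΦ1 z hz
    rw [zero_add]
    have c3 : ‖-(1 / (4 * (π : ℂ))) * ∫ y in So a b r, (e y : ℂ) / (z - y)‖ ≤
        3 * r * K + 1 / r * ρ := by
      rw [norm_mul]
      have h3 : ‖-(1 / (4 * (π : ℂ)))‖ = 1 / (4 * π) := by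
        rw [show -(1 / (4 * (π : ℂ))) = ((-(1 / (4 * π)) : ℝ) : ℂ) by push_cast; ring,
          Complex.norm_real, Real.norm_eq_abs, abs_neg, abs_of_pos (by positivity)]
      rw [h3]
      have h4 : 1 / (4 * π) ≤ 1 := by
        rw [div_le_one (by positivity)]
        linarith [Real.pi_gt_three]
      have h5 : 0 ≤ 1 / r * ρ := by positivity
      calc 1 / (4 * π) * ‖∫ y in So a b r, (e y : ℂ) / (z - y)‖ ≤
          1 / (4 * π) * (12 * π * r * K + 1 / r * ρ) := by gcongr
        _ = 3 * r * K + 1 / (4 * π) * (1 / r * ρ) := by field_simp; ring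
        _ ≤ 3 * r * K + 1 * (1 / r * ρ) := by gcongr
        _ = 3 * r * K + 1 / r * ρ := by ring
    have c4 : ‖(∫ w in rect a b 0, deriv φ (z - w) * (e w : ℂ)) / 2‖ ≤ M1 * ρ := by
      rw [norm_div, Complex.norm_ofNat]
      have h3 : 0 ≤ M1 * ρ := by positivity
      linarith
    calc _ ≤ ‖-(1 / (4 * (π : ℂ))) * ∫ y in So a b r, (e y : ℂ) / (z - y)‖ +
          ‖(∫ w in rect a b 0, deriv φ (z - w) * (e w : ℂ)) / 2‖ + ‖kc‖ :=
          (norm_sub_le _ _).trans (add_le_add_left (norm_add_le _ _) _)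
      _ ≤ _ := by linarith

end LocRep

open LocRep in
theorem pr_LocRep (h1 : S_GPhi) (h2 : S_GHw) (h3 : S_Ti) (h4 : S_GGr) (h5 : S_LogI)
    (h6 : S_Riesz) (h7 : S_Far) : S_LocRep := by
  intro a b F m p n hT hD q
  have ha := hT.apos
  have hb := hT.bpos
  obtain ⟨⟨hw1, hw2, hw3, -, -⟩, hwq⟩ := h2 a b F m p n hT hD
  obtain ⟨R0, hR0, g, hg, hgq⟩ := hwq q
  obtain ⟨φ, hφ, hφ2⟩ := h1 a b F hT
  obtain ⟨hG, -, -, -, -⟩ := h4 a b F hT
  have hφ' : ContinuousOn (deriv φ) (U0 a b) := (hφ.deriv (U0_open a b)).continuousOn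
  obtain ⟨M0, hM0⟩ := (K0_compact a b).exists_bound_of_continuousOn
    (hφ.continuousOn.mono (K0_sub_U0 ha hb))
  obtain ⟨M1, hM1⟩ := (K0_compact a b).exists_bound_of_continuousOn
    (hφ'.mono (K0_sub_U0 ha hb))
  have hM00 : 0 ≤ M0 := (norm_nonneg _).trans (hM0 0 ⟨by simp; positivity, by simp; positivity⟩)
  have hM10 : 0 ≤ M1 := (norm_nonneg _).trans (hM1 0 ⟨by simp; positivity, by simp; positivity⟩)
  refine ⟨min (R0 / 2) (min (a / 8) (b / 8)), by positivity, fun r hr hrr => ?_⟩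
  have hrR : r ≤ R0 / 2 := hrr.trans (min_le_left _ _)
  have hra : r ≤ a / 8 := hrr.trans ((min_le_right _ _).trans (min_le_left _ _))
  have hrb : r ≤ b / 8 := hrr.trans ((min_le_right _ _).trans (min_le_right _ _))
  have hsub : closedBall (0 : ℂ) r ⊆ ball 0 R0 := closedBall_subset_ball (by linarith)
  have hg' : ContinuousOn (deriv g) (ball 0 R0) := (hg.deriv isOpen_ball).continuousOn
  obtain ⟨Mg, hMg⟩ := (isCompact_closedBall (0 : ℂ) r).exists_bound_of_continuousOn
    (hg'.mono hsub)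
  have hMg0 : 0 ≤ Mg := (norm_nonneg _).trans (hMg 0 (mem_closedBall_self hr.le))
  set N4 : ℝ := 4 * π * Nv n with hN4
  have hN40 : 0 ≤ N4 := by positivity
  set D1 : ℝ := |Real.log (r / 2)| + |Real.log (2 * (a + b))| + M0 +
          3 * (a + b) ^ 2 / (4 * a * b) with hD1
  have hD10 : 0 ≤ D1 := by positivity
  set D2 : ℝ := 2 / r + M1 + (a + b) / (4 * a * b) with hD2
  have hD20 : 0 ≤ D2 := by positivity
  set D3 : ℝ := 1 / r + M1 + (a + b) / (4 * a * b) with hD3
  have hD30 : 0 ≤ D3 := by positivity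
  set C : ℝ := 2 * ‖g 0‖ + D1 * N4 + Mg + D2 * N4 + (a + b) ^ 2 / (4 * a * b) * N4 +
    3 * r + D3 * N4 with hC
  refine ⟨C, fun ρ v c hρ0 hρ4 hs => ?_⟩
  have hecont : Continuous (fun w => dE a b F p n v (q + w)) := by
    have : Continuous (dE a b F p n v) := hw1.mul (Real.continuous_exp.comp hs.cont)
    exact this.comp (continuous_const.add continuous_id)
  have he0 : ∀ w, 0 ≤ dE a b F p n v (q + w) := fun w =>
    mul_nonneg (hw3 _) (Real.exp_pos _).le
  obtain ⟨H, hHd, hHrep, hHb, hHd2, hHd3⟩ := core ha hb hr hra hrb h5 h6 h7 hφ hφ2 hM0 hM1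
    hecont he0 (mass_rect ha hb h3 hw2 hs q)
  have hv : ∀ z ∈ ball (0 : ℂ) r, v (q + z) = c +
      (pot r (fun w => dE a b F p n v (q + w)) z + 2 * (H z).re +
        ρ / (4 * a * b) * ‖z‖ ^ 2) := by
    intro z hz
    rw [eq_rect ha hb h3 hG hw2 hs q z, hHrep z hz]
  have hgd : ∀ z ∈ ball (0 : ℂ) r, HasDerivAt g (deriv g z) z := fun z hz =>
    (hg.differentiableAt (isOpen_ball.mem_nhds (hsub (ball_subset_closedBall hz)))).hasDerivAt
  have hHd' : ∀ z ∈ ball (0 : ℂ) r, HasDerivAt H (deriv H z) z := fun z hz =>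
    (hHd.differentiableAt (isOpen_ball.mem_nhds hz)).hasDerivAt
  have hder : ∀ z ∈ ball (0 : ℂ) r, HasDerivAt (fun z => g z + H z + ((c / 2 : ℝ) : ℂ))
      (deriv g z + deriv H z) z := fun z hz => ((hgd z hz).add (hHd' z hz)).add_const _
  have hρD : ∀ D : ℝ, 0 ≤ D → D * ρ ≤ D * N4 := fun D hD => mul_le_mul_of_nonneg_left hρ4 hD
  have hre : ∀ z, 2 * (g z + H z + ((c / 2 : ℝ) : ℂ)).re = 2 * (g z).re + 2 * (H z).re + c := by
    intro z
    simp only [Complex.add_re, Complex.ofReal_re]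
    ring
  have hp1 : 0 ≤ D1 * N4 := by positivity
  have hp2 : 0 ≤ D2 * N4 := by positivity
  have hp3 : 0 ≤ D3 * N4 := by positivity
  have hp4 : 0 ≤ (a + b) ^ 2 / (4 * a * b) * N4 := by positivity
  have hp5 : 0 ≤ ‖g 0‖ := norm_nonneg _
  refine ⟨fun z => g z + H z + ((c / 2 : ℝ) : ℂ), ⟨hr, ?_, ?_, hecont, he0, ?_⟩, ?_, ?_, ?_, ?_⟩
  · exact div_nonneg (by linarith) (by positivity)
  · exact fun z hz => (hder z hz).differentiableAt.differentiableWithinAt
  · intro z hz
    show dE a b F p n v (q + z) = _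
    have hz2 : z ∈ ball (0 : ℂ) R0 := hsub (ball_subset_closedBall hz)
    rw [show dE a b F p n v (q + z) = hw a b F p n (q + z) * Real.exp (v (q + z)) from rfl,
      hgq z hz2, hv z hz, mul_assoc, ← Real.exp_add, hre z]
    congr 2
    field_simp
    ring
  · show |2 * (g 0 + H 0 + ((c / 2 : ℝ) : ℂ)).re - c| ≤ C
    rw [hre 0]
    have e1 := hHb 0 (mem_ball_self (by positivity))
    have e2 := hρD D1 hD10
    have e3 := Complex.abs_re_le_norm (g 0)
    calc |2 * (g 0).re + 2 * (H 0).re + c - c| = |2 * (g 0).re + 2 * (H 0).re| := by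
          congr 1; ring
      _ ≤ |2 * (g 0).re| + |2 * (H 0).re| := abs_add_le _ _
      _ ≤ 2 * ‖g 0‖ + D1 * N4 := by
          rw [abs_mul, abs_two]
          linarith
      _ ≤ C := by rw [hC]; linarith
  · intro z hz
    have hz' : z ∈ ball (0 : ℂ) r := ball_subset_ball (by linarith) hz
    rw [(hder z hz').deriv]
    have e1 := hHd2 z hz
    have e2 := hρD D2 hD20
    have e3 := hMg z (ball_subset_closedBall hz')
    calc ‖deriv g z + deriv H z‖ ≤ ‖deriv g z‖ + ‖deriv H z‖ := norm_add_le _ _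
      _ ≤ Mg + D2 * N4 := by linarith
      _ ≤ C := by rw [hC]; linarith
  · intro z hz
    have hz' : z ∈ ball (0 : ℂ) r := ball_subset_ball (by linarith) hz
    rw [hv z hz']
    have e1 := hHb z hz
    have e2 := hρD D1 hD10
    have hzn : ‖z‖ ≤ a + b := by
      rw [mem_ball_zero_iff] at hz'
      linarith
    have e3 : |ρ / (4 * a * b) * ‖z‖ ^ 2| ≤ (a + b) ^ 2 / (4 * a * b) * N4 := by
      rw [abs_of_nonneg (by positivity)]
      calc ρ / (4 * a * b) * ‖z‖ ^ 2 ≤ N4 / (4 * a * b) * (a + b) ^ 2 := by gcongr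
        _ = (a + b) ^ 2 / (4 * a * b) * N4 := by ring
    have e4 : c + (pot r (fun w => dE a b F p n v (q + w)) z + 2 * (H z).re +
        ρ / (4 * a * b) * ‖z‖ ^ 2) - c - pot r (fun z => dE a b F p n v (q + z)) z =
        2 * (H z).re + ρ / (4 * a * b) * ‖z‖ ^ 2 := by ring
    rw [e4]
    calc _ ≤ |2 * (H z).re| + |ρ / (4 * a * b) * ‖z‖ ^ 2| := abs_add_le _ _
      _ ≤ D1 * N4 + (a + b) ^ 2 / (4 * a * b) * N4 := by linarith
      _ ≤ C := by rw [hC]; linarith
  · intro K hK0 hK z hz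
    rw [(hder z hz).deriv]
    have e1 := hHd3 K hK0 (fun y hy1 hy2 => hK (q + y) (by simpa using hy1) (by simpa using hy2))
      z hz
    have e2 := hρD D3 hD30
    have e3 := hMg z (ball_subset_closedBall hz)
    have e4 : 3 * r * K ≤ C * K := by
      have : 3 * r ≤ C := by rw [hC]; linarith
      exact mul_le_mul_of_nonneg_right this hK0
    have e5 : Mg + D3 * N4 ≤ C := by rw [hC]; linarith
    calc ‖deriv g z + deriv H z‖ ≤ ‖deriv g z‖ + ‖deriv H z‖ := norm_add_le _ _
      _ ≤ C * (1 + K) := by linarith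

end Pool.Agent.Vx

end

section

/-!
# MP_afe918_an, item OffK: bounds away from the concentration set (helper75)
-/

set_option autoImplicit false

open Complex Set Filter Topology MeasureTheory Metric
open scoped Real ContDiff ComplexConjugate

namespace Pool.Agent.Vx

theorem OffK_per {α : Type} {a b : ℝ} {f : ℂ → α} (h : Per a b f) {t : ℂ} (ht : Lat a b t)
    (z : ℂ) : f (z + t) = f z := by
  obtain ⟨m, k, rfl⟩ := ht
  have h1 : Function.Periodic f (a : ℂ) := fun z => (h z).1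
  have h2 : Function.Periodic f ((b : ℂ) * I) := fun z => (h z).2
  have h3 := h1.int_mul m
  have h4 := h2.int_mul k
  have h5 : z + ((m : ℂ) * a + k * b * I) = z + (m : ℂ) * a + (k : ℂ) * (b * I) := by ring
  rw [h5, h4, h3]

theorem OffK_red {a b : ℝ} (ha : 0 < a) (hb : 0 < b) (z : ℂ) :
    ∃ t, Lat a b t ∧ 0 ≤ (z + t).re ∧ (z + t).re ≤ a ∧ 0 ≤ (z + t).im ∧ (z + t).im ≤ b := by
  refine ⟨((-⌊z.re / a⌋ : ℤ) : ℂ) * a + ((-⌊z.im / b⌋ : ℤ) : ℂ) * b * I,
    ⟨-⌊z.re / a⌋, -⌊z.im / b⌋, rfl⟩, ?_⟩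
  have h1 := Int.floor_le (z.re / a)
  have h2 := Int.lt_floor_add_one (z.re / a)
  have h3 := Int.floor_le (z.im / b)
  have h4 := Int.lt_floor_add_one (z.im / b)
  rw [le_div_iff₀ ha] at h1
  rw [div_lt_iff₀ ha] at h2
  rw [le_div_iff₀ hb] at h3
  rw [div_lt_iff₀ hb] at h4
  have hre : (z + (((-⌊z.re / a⌋ : ℤ) : ℂ) * a + ((-⌊z.im / b⌋ : ℤ) : ℂ) * b * I)).re
      = z.re - ⌊z.re / a⌋ * a := by
    simp [sub_eq_add_neg]
  have him : (z + (((-⌊z.re / a⌋ : ℤ) : ℂ) * a + ((-⌊z.im / b⌋ : ℤ) : ℂ) * b * I)).im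
      = z.im - ⌊z.im / b⌋ * b := by
    simp [sub_eq_add_neg]
  rw [hre, him]
  refine ⟨by linarith, by linarith, by linarith, by linarith⟩

theorem OffK_cpt (a b : ℝ) : IsCompact {z : ℂ | 0 ≤ z.re ∧ z.re ≤ a ∧ 0 ≤ z.im ∧ z.im ≤ b} := by
  have h : {z : ℂ | 0 ≤ z.re ∧ z.re ≤ a ∧ 0 ≤ z.im ∧ z.im ≤ b} = Icc (0 : ℝ) a ×ℂ Icc (0 : ℝ) b := by
    ext z
    simp [Complex.mem_reProdIm, and_assoc]
  rw [h]
  exact (isCompact_Icc).reProdIm isCompact_Icc

theorem pr_OffK (h1 : S_Off) : S_OffK := by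
  intro a b F m p n ρ v c Q hS hG s hs
  have ha := hS.th.apos
  have hb := hS.th.bpos
  have key : ∃ C : ℝ, ∀ᶠ j in atTop, ∀ z ∈ {z : ℂ | 0 ≤ z.re ∧ z.re ≤ a ∧ 0 ≤ z.im ∧ z.im ≤ b},
      (∀ q ∈ Q, ∀ t, Lat a b t → s ≤ ‖z - q - t‖) → |v j z - c j| ≤ C := by
    refine (OffK_cpt a b).induction_on (p := fun A => ∃ C : ℝ, ∀ᶠ j in atTop, ∀ z ∈ A,
      (∀ q ∈ Q, ∀ t, Lat a b t → s ≤ ‖z - q - t‖) → |v j z - c j| ≤ C) ?_ ?_ ?_ ?_
    · exact ⟨0, Eventually.of_forall fun j z hz => absurd hz (notMem_empty z)⟩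
    · rintro A B hAB ⟨C, hC⟩
      exact ⟨C, hC.mono fun j hj z hz => hj z (hAB hz)⟩
    · rintro A B ⟨C, hC⟩ ⟨D, hD⟩
      refine ⟨max C D, ?_⟩
      filter_upwards [hC, hD] with j h3 h4 z hz hq
      rcases hz with hz | hz
      · exact (h3 z hz hq).trans (le_max_left _ _)
      · exact (h4 z hz hq).trans (le_max_right _ _)
    · intro x _
      by_cases hx : ∀ q ∈ Q, ¬ Lat a b (x - q)
      · obtain ⟨r, hr, hr'⟩ := hG x hx
        obtain ⟨s', hs', C, hC⟩ := h1 a b F m p n ρ v c hS x r hr hr'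
        exact ⟨ball x s', mem_nhdsWithin_of_mem_nhds (ball_mem_nhds x hs'), C,
          hC.mono fun j hj z hz _ => hj z hz⟩
      · push Not at hx
        obtain ⟨q, hq, hl⟩ := hx
        refine ⟨ball x s, mem_nhdsWithin_of_mem_nhds (ball_mem_nhds x hs), 0,
          Eventually.of_forall fun j z hz hh => ?_⟩
        have h5 := hh q hq (x - q) hl
        have h6 : z - q - (x - q) = z - x := by ring
        rw [h6] at h5
        rw [mem_ball, dist_eq_norm] at hz
        exact absurd hz (not_lt.mpr h5)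
  obtain ⟨C, hC⟩ := key
  refine ⟨C, hC.mono fun j hj z hz => ?_⟩
  obtain ⟨t, ht, h3⟩ := OffK_red ha hb z
  have h4 := hj (z + t) h3 (by
    intro q hq t' ht'
    obtain ⟨m1, k1, e1⟩ := ht
    obtain ⟨m2, k2, e2⟩ := ht'
    have h7 := hz q hq (t' - t) ⟨m2 - m1, k2 - k1, by rw [e1, e2]; push_cast; ring⟩
    have h8 : z - q - (t' - t) = z + t - q - t' := by ring
    rwa [h8] at h7)
  rwa [OffK_per (hS.sol j).per ht z] at h4

end Pool.Agent.Vx

end

section

/-! Item Scale (L5): scaling of local densities (helper22). -/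

set_option autoImplicit false

open Complex Set Filter Topology MeasureTheory Metric
open scoped Real ContDiff ComplexConjugate Pointwise

namespace Pool.Agent.Vx

theorem Scale_int {R : ℝ} (hR : 0 < R) (s : ℝ) (g : ℂ → ℝ) :
    ∫ z in ball (0 : ℂ) (s / R), R ^ 2 * g (R * z) = ∫ z in ball (0 : ℂ) s, g z := by
  have h0 : ∀ z : ℂ, (R : ℂ) * z = R • z := fun z => by rw [Complex.real_smul]
  have h1 : R • ball (0 : ℂ) (s / R) = ball (0 : ℂ) s := by
    rw [_root_.smul_ball hR.ne', smul_zero, Real.norm_eq_abs, abs_of_pos hR,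
      mul_div_cancel₀ _ hR.ne']
  simp only [h0]
  rw [integral_const_mul, MeasureTheory.Measure.setIntegral_comp_smul_of_pos volume _ _ hR, h1,
    Complex.finrank_real_complex, smul_eq_mul, ← mul_assoc, mul_inv_cancel₀ (by positivity),
    one_mul]

theorem Scale_log {r : ℝ} (hr : 0 < r) {E : ℂ → ℝ} (hE : Continuous E) (x : ℂ) :
    IntegrableOn (fun y => Real.log ‖x - y‖ * E y) (ball (0 : ℂ) r) := by
  have h1 : IntegrableOn (fun y => Real.log ‖x - y‖) (closedBall (0 : ℂ) r) :=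
    (pr_LogI 0 x (r + 1) (by linarith)).1.mono_set (closedBall_subset_ball (by linarith))
  exact (h1.mul_continuousOn hE.continuousOn (isCompact_closedBall 0 r)).mono_set
    ball_subset_closedBall

theorem Scale_pot {R : ℝ} (hR : 0 < R) {r : ℝ} (hr : 0 < r) {E : ℂ → ℝ} (hE : Continuous E)
    (y : ℂ) :
    pot (r / R) (fun y => R ^ 2 * E (R * y)) y =
      pot r E (R * y) + ms r E / (2 * π) * Real.log R := by
  have h1 : ∫ t in ball (0 : ℂ) (r / R), Real.log ‖y - t‖ * (R ^ 2 * E (R * t)) =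
      ∫ x in ball (0 : ℂ) r, Real.log (‖R * y - x‖ / R) * E x := by
    rw [← Scale_int hR r]
    refine setIntegral_congr_fun measurableSet_ball fun t _ => ?_
    have : ‖(R : ℂ) * y - R * t‖ / R = ‖y - t‖ := by
      rw [← mul_sub, norm_mul, Complex.norm_real, Real.norm_eq_abs, abs_of_pos hR,
        mul_div_cancel_left₀ _ hR.ne']
    show Real.log ‖y - t‖ * (R ^ 2 * E (R * t)) =
      R ^ 2 * (Real.log (‖(R : ℂ) * y - R * t‖ / R) * E (R * t))
    rw [this]
    ring
  have h2 : ∫ x in ball (0 : ℂ) r, Real.log (‖R * y - x‖ / R) * E x =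
      ∫ x in ball (0 : ℂ) r, (Real.log ‖R * y - x‖ * E x - Real.log R * E x) := by
    refine integral_congr_ae ?_
    have h3 : ∀ᵐ x ∂(volume.restrict (ball (0 : ℂ) r)), x ≠ (R : ℂ) * y :=
      Measure.ae_ne _ _
    filter_upwards [h3] with x hx
    rw [Real.log_div (norm_ne_zero_iff.2 (sub_ne_zero.2 hx.symm)) hR.ne']
    ring
  have h4 : IntegrableOn E (ball (0 : ℂ) r) :=
    (hE.continuousOn.integrableOn_compact (isCompact_closedBall 0 r)).mono_set
      ball_subset_closedBall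
  unfold pot
  rw [h1, h2, integral_sub (Scale_log hr hE _) (h4.const_mul _), integral_const_mul]
  unfold ms
  have hpi := Real.pi_pos
  field_simp
  ring

theorem pr_Scale : S_Scale := by
  intro r n lam h E R hL hR
  refine ⟨⟨div_pos hL.rpos hR, mul_nonneg hL.lam0 (by positivity), ?_, ?_, fun z => ?_,
    fun z hz => ?_⟩, fun s hs => ?_⟩
  · refine DifferentiableOn.add_const _ (hL.an.comp (Differentiable.differentiableOn (by fun_prop))
      fun z hz => ?_)
    simp only [mem_ball_zero_iff, norm_mul, Complex.norm_real, Real.norm_eq_abs,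
      abs_of_pos hR] at hz ⊢
    rwa [lt_div_iff₀ hR, mul_comm] at hz
  · exact continuous_const.mul (hL.cont.comp (continuous_const.mul continuous_id))
  · exact mul_nonneg (by positivity) (hL.nonneg _)
  · have hz' : (R : ℂ) * z ∈ ball (0 : ℂ) r := by
      simp only [mem_ball_zero_iff, norm_mul, Complex.norm_real, Real.norm_eq_abs,
        abs_of_pos hR] at hz ⊢
      rwa [lt_div_iff₀ hR, mul_comm] at hz
    have h1 := hL.rep _ hz'
    have h2 : ‖(R : ℂ) * z‖ = R * ‖z‖ := by
      rw [norm_mul, Complex.norm_real, Real.norm_eq_abs, abs_of_pos hR]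
    rw [Scale_pot hR hL.rpos hL.cont, h1, h2, mul_pow]
    have h3 : (h (R * z) + (((1 + n - ms r E / (4 * π)) * Real.log R : ℝ) : ℂ)).re =
        (h (R * z)).re + (1 + n - ms r E / (4 * π)) * Real.log R := by
      rw [Complex.add_re, Complex.ofReal_re]
    rw [h3]
    have h4 : 2 * ((h (R * z)).re + (1 + n - ms r E / (4 * π)) * Real.log R) -
        lam * R ^ 2 / 4 * ‖z‖ ^ 2 +
        (pot r E (R * z) + ms r E / (2 * π) * Real.log R) =
        (2 * (h (R * z)).re - lam / 4 * (R * ‖z‖) ^ 2 + pot r E (R * z)) +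
        ((2 * (n + 1) : ℕ) : ℝ) * Real.log R := by
      have hpi := Real.pi_pos
      push_cast
      field_simp
      ring
    have h5 : Real.exp (((2 * (n + 1) : ℕ) : ℝ) * Real.log R) = R ^ (2 * (n + 1)) := by
      rw [← Real.log_pow, Real.exp_log (by positivity)]
    rw [h4, Real.exp_add _ (((2 * (n + 1) : ℕ) : ℝ) * Real.log R), h5]
    ring
  · exact Scale_int hR s E

end Pool.Agent.Vx

end

section

/-!
# MP_afe918_an, blocks T and R: theta function, regularity, equation, necessity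
-/

set_option autoImplicit false

open Complex Set Filter Topology MeasureTheory Metric
open scoped Real ContDiff ComplexConjugate

namespace Pool.Agent.Vx

/-! ### Block T: the theta function -/

/-- The multiplicative theta function. -/
noncomputable def thP (Q : ℝ) (w : ℂ) : ℂ :=
  (1 - w) * ∏' n : ℕ, ((1 - (Q : ℂ) ^ (n + 1) * w) * (1 - (Q : ℂ) ^ (n + 1) / w))

/-- T1: zeros and functional equations of the product. -/
def S_Tprod : Prop := ∀ Q : ℝ, 0 < Q → Q < 1 →
  DifferentiableOn ℂ (thP Q) {0}ᶜ ∧ (∀ w : ℂ, w ≠ 0 → (thP Q w = 0 ↔ ∃ k : ℤ, w = (Q : ℂ) ^ k)) ∧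
  (∀ k : ℤ, deriv (thP Q) ((Q : ℂ) ^ k) ≠ 0) ∧
  (∀ w : ℂ, w ≠ 0 → thP Q (Q * w) = -w⁻¹ * thP Q w) ∧
  ∀ w : ℂ, w ≠ 0 → thP Q w⁻¹ = -w⁻¹ * thP Q w

/-- T2: the logarithm of the product. -/
def S_Tlog : Prop := ∀ Q : ℝ, 0 < Q → Q < 1 → ∀ w : ℂ, Q < ‖w‖ → ‖w‖ < 1 →
  HasSum (fun k : ℕ => ((w ^ (k + 1) + (Q / w) ^ (k + 1)) / ((k + 1) * (1 - Q ^ (k + 1)))).re)
    (-Real.log ‖thP Q w‖)

/-- The additive theta function of the lattice. -/
noncomputable def thA (a b : ℝ) (z : ℂ) : ℂ :=
  thP (Real.exp (-(2 * π * b / a))) (Complex.exp (2 * π * I * z / a))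

/-- T3: zeros, periodicity, symmetry. -/
def S_Tadd : Prop := ∀ a b : ℝ, 0 < a → 0 < b →
  Differentiable ℂ (thA a b) ∧ (∀ z, thA a b z = 0 ↔ Lat a b z) ∧
  (∀ z, Lat a b z → deriv (thA a b) z ≠ 0) ∧ Per a b (Sf a b (thA a b)) ∧
  ∀ z, Sf a b (thA a b) (-z) = Sf a b (thA a b) z

/-- T4: integrability. -/
def S_Tint : Prop := ∀ a b : ℝ, 0 < a → 0 < b → IntegrableOn (Gr a b (thA a b)) (rect a b 0)

/-- T5: Fourier coefficients. -/
def S_Tfou : Prop := ∀ a b : ℝ, 0 < a → 0 < b → ∀ ξ : ℤ × ℤ, ξ ≠ 0 →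
  ti a b (fun z => Gr a b (thA a b) z * Real.cos (ph a b ξ z)) = 1 / nu a b ξ

/-- T6: existence of a theta function. -/
def S_ThetaEx : Prop := ∀ a b : ℝ, 0 < a → 0 < b → ∃ F : ℂ → ℂ, IsTheta a b F

/-! ### Block R: regularity, the equation -/

/-- R1: the potential is smoother than the density. -/
def S_R1 : Prop := ∀ (r : ℝ) (E : ℂ → ℝ) (k : ℕ), 0 < r → Continuous E →
  ContDiffAt ℝ k E 0 → ContDiffAt ℝ (k + 1) (pot r E) 0

/-- R2: the weight and the solution are smooth. -/
def S_R2 : Prop := ∀ (a b : ℝ) (F : ℂ → ℂ) (m : ℕ) (p : Fin m → ℂ) (n : Fin m → ℕ) (ρ : ℝ)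
  (v : ℂ → ℝ) (c : ℝ), IsTheta a b F → Dist a b p → 0 ≤ ρ → ρ ≤ 4 * π * Nv n →
  IntSol a b F p n ρ v c → ContDiff ℝ ∞ (hw a b F p n) ∧ ContDiff ℝ ∞ v

/-- R3: integration by parts on the torus. -/
def S_R3 : Prop := ∀ (a b : ℝ) (φ : ℂ → ℝ), 0 < a → 0 < b → ContDiff ℝ ∞ φ → Per a b φ →
  Continuous (Laplacian.laplacian φ) ∧ Per a b (Laplacian.laplacian φ) ∧
  ti a b (Laplacian.laplacian φ) = 0 ∧
  ∀ (ξ : ℤ × ℤ) (t : Bool), ti a b (fun z => Laplacian.laplacian φ z * md a b (ξ, t) z) =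
    -nu a b ξ * ti a b (fun z => φ z * md a b (ξ, t) z)

/-- Convolution with the Green function. -/
noncomputable def cG (a b : ℝ) (F : ℂ → ℂ) (g : ℂ → ℝ) (x : ℂ) : ℝ :=
  ti a b (fun y => Gr a b F (x - y) * g y)

/-- R4: convolution with the Green function: continuity, symmetry, Fourier coefficients. -/
def S_R4 : Prop := ∀ (a b : ℝ) (F : ℂ → ℂ) (g g' : ℂ → ℝ), IsTheta a b F → Continuous g →
  Per a b g → Continuous g' → Per a b g' →
  Continuous (cG a b F g) ∧ Per a b (cG a b F g) ∧ ti a b (cG a b F g) = 0 ∧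
  (∀ (ξ : ℤ × ℤ) (t : Bool), ξ ≠ 0 → ti a b (fun z => cG a b F g z * md a b (ξ, t) z) =
    1 / nu a b ξ * ti a b (fun z => g z * md a b (ξ, t) z)) ∧
  ti a b (fun z => cG a b F g z * g' z) = ti a b (fun z => g z * cG a b F g' z)

/-- R5: a continuous periodic function whose Fourier coefficients vanish is zero. -/
def S_R5 : Prop := ∀ (a b : ℝ) (f : ℂ → ℝ), 0 < a → 0 < b → Continuous f → Per a b f →
  ti a b f = 0 → (∀ (ξ : ℤ × ℤ) (t : Bool), ξ ≠ 0 → ti a b (fun z => f z * md a b (ξ, t) z) = 0) →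
  ∀ z, f z = 0

/-- R6: the Green function inverts the Laplacian. -/
def S_R6 : Prop := ∀ (a b : ℝ) (F : ℂ → ℂ) (φ : ℂ → ℝ), IsTheta a b F → ContDiff ℝ ∞ φ →
  Per a b φ → ∀ x, cG a b F (Laplacian.laplacian φ) x = -φ x + 1 / (a * b) * ti a b φ

/-- R7: solutions of the integral equation are solutions of the vortex equation. -/
def S_Reg : Prop := ∀ (a b mW e : ℝ) (F : ℂ → ℂ) (m : ℕ) (p : Fin m → ℂ) (n : Fin m → ℕ)
  (v : ℂ → ℝ) (c : ℝ), IsTheta a b F → Dist a b p → 0 < e →
  IntSol a b F p n (4 * π * Nv n - 2 * mW ^ 2 * (a * b)) v c → ∃ u, IsSol a b mW e p n u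

/-- R8: necessity. -/
def S_Nec : Prop := ∀ (a b mW e : ℝ) (m : ℕ) (p : Fin m → ℂ) (n : Fin m → ℕ) (u : ℂ → ℝ),
  0 < a → 0 < b → 0 < e → Dist a b p → IsSol a b mW e p n u → mW ^ 2 < 2 * π * Nv n / (a * b)

end Pool.Agent.Vx

end

section

/-!
# MP_afe918_an, item Ti (G1): integrals of periodic functions over period rectangles
-/

set_option autoImplicit false

open Complex Set Filter Topology MeasureTheory Metric
open scoped Real ContDiff ComplexConjugate

namespace Pool.Agent.Vx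

/-- The period lattice as an additive subgroup. -/
def Ti_L (a b : ℝ) : AddSubgroup ℂ where
  carrier := {z | Lat a b z}
  zero_mem' := ⟨0, 0, by simp⟩
  add_mem' := by
    rintro x y ⟨m, k, rfl⟩ ⟨m', k', rfl⟩
    refine ⟨m + m', k + k', ?_⟩
    push_cast
    ring
  neg_mem' := by
    rintro x ⟨m, k, rfl⟩
    refine ⟨-m, -k, ?_⟩
    push_cast
    ring

instance Ti_countable (a b : ℝ) : Countable (Ti_L a b) := by
  have h : Function.Surjective (fun mk : ℤ × ℤ =>
      (⟨mk.1 * a + mk.2 * b * I, ⟨mk.1, mk.2, rfl⟩⟩ : Ti_L a b)) := by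
    rintro ⟨z, m, k, rfl⟩
    exact ⟨(m, k), rfl⟩
  exact h.countable

/-- The half-open rectangle. -/
def Ti_E (a b x0 y0 : ℝ) : Set ℂ :=
  {z | z.re ∈ Ioc x0 (x0 + a) ∧ z.im ∈ Ioc y0 (y0 + b)}

theorem Ti_E_meas (a b x0 y0 : ℝ) : MeasurableSet (Ti_E a b x0 y0) := by
  have h1 : MeasurableSet {z : ℂ | z.re ∈ Ioc x0 (x0 + a)} := measurable_re measurableSet_Ioc
  have h2 : MeasurableSet {z : ℂ | z.im ∈ Ioc y0 (y0 + b)} := measurable_im measurableSet_Ioc
  exact h1.inter h2

theorem Ti_fund (a b x0 y0 : ℝ) (ha : 0 < a) (hb : 0 < b) :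
    IsAddFundamentalDomain (Ti_L a b) (Ti_E a b x0 y0) (volume : Measure ℂ) := by
  refine IsAddFundamentalDomain.mk' (Ti_E_meas a b x0 y0).nullMeasurableSet fun z => ?_
  obtain ⟨m, hm, hmu⟩ := existsUnique_add_zsmul_mem_Ioc ha z.re x0
  obtain ⟨k, hk, hku⟩ := existsUnique_add_zsmul_mem_Ioc hb z.im y0
  refine ⟨⟨m * a + k * b * I, ⟨m, k, rfl⟩⟩, ?_, ?_⟩
  · show ((m : ℂ) * a + k * b * I) + z ∈ Ti_E a b x0 y0
    have h1 : (((m : ℂ) * a + k * b * I) + z).re = z.re + m • a := by
      simp; ring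
    have h2 : (((m : ℂ) * a + k * b * I) + z).im = z.im + k • b := by
      simp; ring
    refine ⟨?_, ?_⟩
    · rw [h1]; exact hm
    · rw [h2]; exact hk
  · rintro ⟨g, m', k', rfl⟩ hg
    have hg' : ((m' : ℂ) * a + k' * b * I) + z ∈ Ti_E a b x0 y0 := hg
    have h1 : (((m' : ℂ) * a + k' * b * I) + z).re = z.re + m' • a := by
      simp; ring
    have h2 : (((m' : ℂ) * a + k' * b * I) + z).im = z.im + k' • b := by
      simp; ring
    obtain ⟨e1, e2⟩ := hg'
    rw [h1] at e1
    rw [h2] at e2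
    have := hmu m' e1
    have := hku k' e2
    subst m' k'
    rfl

theorem Ti_per_int (a b : ℝ) (f : ℂ → ℝ) (hf : Per a b f) (m k : ℤ) (z : ℂ) :
    f (z + (m * a + k * b * I)) = f z := by
  have h1 : Function.Periodic f (a : ℂ) := fun z => (hf z).1
  have h2 : Function.Periodic f ((b : ℂ) * I) := fun z => (hf z).2
  have h3 := h1.int_mul m
  have h4 := h2.int_mul k
  have e : z + ((m : ℂ) * a + k * b * I) = (z + m * a) + k * (b * I) := by ring
  rw [e, h4, h3]

theorem Ti_inv (a b : ℝ) (f : ℂ → ℝ) (hf : Per a b f) (g : Ti_L a b) (x : ℂ) :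
    f (g +ᵥ x) = f x := by
  obtain ⟨g, m, k, rfl⟩ := g
  show f (((m : ℂ) * a + k * b * I) + x) = f x
  rw [add_comm]
  exact Ti_per_int a b f hf m k x

theorem Ti_prod_ae {S S' T T' : Set ℝ} (hS : S =ᵐ[volume] S') (hT : T =ᵐ[volume] T') :
    {z : ℂ | z.re ∈ S ∧ z.im ∈ T} =ᵐ[volume] {z : ℂ | z.re ∈ S' ∧ z.im ∈ T'} := by
  have h := Measure.set_prod_ae_eq (μ := (volume : Measure ℝ)) (ν := (volume : Measure ℝ)) hS hT
  exact Complex.volume_preserving_equiv_real_prod.quasiMeasurePreserving.preimage_ae_eq h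

theorem Ti_rect_ae (a b : ℝ) (q : ℂ) :
    rect a b q =ᵐ[volume] Ti_E a b (q.re - a / 2) (q.im - b / 2) := by
  have h : rect a b q = {z : ℂ | z.re ∈ Ioo (q.re - a / 2) (q.re - a / 2 + a) ∧
      z.im ∈ Ioo (q.im - b / 2) (q.im - b / 2 + b)} := by
    ext z
    simp only [rect, mem_ofPred_eq, mem_Ioo, abs_lt]
    constructor
    · rintro ⟨⟨h1, h2⟩, h3, h4⟩
      refine ⟨⟨?_, ?_⟩, ?_, ?_⟩ <;> linarith
    · rintro ⟨⟨h1, h2⟩, h3, h4⟩
      refine ⟨⟨?_, ?_⟩, ?_, ?_⟩ <;> linarith
  rw [h]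
  exact Ti_prod_ae Ioo_ae_eq_Ioc Ioo_ae_eq_Ioc

theorem Ti_cell_ae (a b : ℝ) : cell a b =ᵐ[volume] Ti_E a b 0 0 := by
  have h : cell a b = {z : ℂ | z.re ∈ Ico 0 (0 + a) ∧ z.im ∈ Ico 0 (0 + b)} := by
    ext z
    simp only [cell, mem_ofPred_eq, mem_Ico, zero_add]
    tauto
  rw [h]
  exact Ti_prod_ae Ico_ae_eq_Ioc Ico_ae_eq_Ioc

theorem pr_Ti : S_Ti := by
  intro a b f ha hb hf q
  have h0 := Ti_fund a b (0 - a / 2) (0 - b / 2) ha hb
  have hq := Ti_fund a b (q.re - a / 2) (q.im - b / 2) ha hb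
  have hc := Ti_fund a b 0 0 ha hb
  have e0 : rect a b 0 =ᵐ[volume] Ti_E a b (0 - a / 2) (0 - b / 2) := by
    simpa using Ti_rect_ae a b 0
  have eq := Ti_rect_ae a b q
  have ec := Ti_cell_ae a b
  refine ⟨?_, ?_, ?_⟩
  · rw [integrableOn_congr_set_ae eq, integrableOn_congr_set_ae e0]
    exact hq.integrableOn_iff h0 (Ti_inv a b f hf)
  · rw [ti, setIntegral_congr_set eq, setIntegral_congr_set e0]
    exact hq.setIntegral_eq h0 (Ti_inv a b f hf)
  · rw [ti, setIntegral_congr_set ec, setIntegral_congr_set e0]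
    exact hc.setIntegral_eq h0 (Ti_inv a b f hf)

end Pool.Agent.Vx

end

section

/-! # MP_afe918_an, block V: basic facts `V_tr`, `V_G` from block G -/

set_option autoImplicit false

open Complex Set Filter Topology MeasureTheory Metric
open scoped Real ContDiff

namespace Pool.Agent.Vx

theorem VG_rect_eq (a b : ℝ) (q : ℂ) : rect a b q =
    Complex.equivRealProdCLM ⁻¹' (ball q.re (a / 2) ×ˢ ball q.im (b / 2)) := by
  ext z
  simp only [rect, mem_setOf_eq, mem_preimage, mem_prod, mem_ball, Real.dist_eq]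
  exact Iff.rfl

theorem VG_rect_open (a b : ℝ) (q : ℂ) : IsOpen (rect a b q) := by
  rw [VG_rect_eq]
  exact (isOpen_ball.prod isOpen_ball).preimage Complex.equivRealProdCLM.continuous

theorem VG_rect_vol (a b : ℝ) (ha : 0 < a) (hb : 0 < b) (q : ℂ) :
    volume (rect a b q) = ENNReal.ofReal (a * b) := by
  have h1 : rect a b q = Complex.measurableEquivRealProd ⁻¹'
      (ball q.re (a / 2) ×ˢ ball q.im (b / 2)) := VG_rect_eq a b q
  rw [h1, Complex.volume_preserving_equiv_real_prod.measure_preimage_equiv, Measure.volume_eq_prod,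
    Measure.prod_prod, Real.volume_ball, Real.volume_ball, ← ENNReal.ofReal_mul (by linarith)]
  congr 1
  ring

theorem VG_neg (a b : ℝ) (f : ℂ → ℝ) : ti a b (fun z => f (-z)) = ti a b f := by
  unfold ti
  have h1 : (rect a b 0) = Neg.neg ⁻¹' (rect a b 0) := by
    ext z
    simp [rect]
  conv_lhs => rw [h1]
  rw [← (Measure.measurePreserving_neg (volume : Measure ℂ)).setIntegral_preimage_emb
    (MeasurableEquiv.neg ℂ).measurableEmbedding f (rect a b 0)]

theorem pr_V_tr (hTi : S_Ti) : V_tr := by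
  intro a b ha hb
  refine ⟨fun c => ?_, fun f => VG_neg a b f, fun f hf hi w => ?_⟩
  · unfold ti
    rw [setIntegral_const, Measure.real, VG_rect_vol a b ha hb, ENNReal.toReal_ofReal
      (by positivity), smul_eq_mul, mul_comm]
  · have h1 : (rect a b 0) = (fun z => z + w) ⁻¹' (rect a b w) := by
      ext z
      simp [rect]
    have hmp : MeasurePreserving (fun z : ℂ => z + w) volume volume :=
      measurePreserving_add_right volume w
    have hemb : MeasurableEmbedding (fun z : ℂ => z + w) := measurableEmbedding_addRight w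
    obtain ⟨h2, h3, -⟩ := hTi a b f ha hb hf w
    constructor
    · rw [h1]
      exact (hmp.integrableOn_comp_preimage hemb).2 (h2.2 hi)
    · unfold ti
      conv_lhs => rw [h1]
      rw [hmp.setIntegral_preimage_emb hemb f, h3]
      rfl

theorem pr_V_G (hSf : S_GSf) (hPhi : S_GPhi) (hGr : S_GGr) : V_G := by
  intro a b F hF
  have ha := hF.apos
  have hb := hF.bpos
  obtain ⟨h1, h2, h3, h4⟩ := hSf a b F hF
  obtain ⟨φ, hφ, hφ2⟩ := hPhi a b F hF
  obtain ⟨g1, g2, g3, g4, g5⟩ := hGr a b F hF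
  refine ⟨h1, h2, h3, g1, g2, ?_⟩
  set K : Set ℂ := {z | |z.re| ≤ a / 2 ∧ |z.im| ≤ b / 2} with hK
  have hKc : IsCompact K := by
    have h5 : K = Complex.equivRealProdCLM ⁻¹' (closedBall (0 : ℝ) (a / 2) ×ˢ
        closedBall (0 : ℝ) (b / 2)) := by
      ext z
      simp [hK, Real.dist_eq]
    rw [h5]
    exact (Complex.equivRealProdCLM.toHomeomorph.isCompact_preimage).2
      ((isCompact_closedBall _ _).prod (isCompact_closedBall _ _))
  have hc : ContinuousOn (fun z => |(φ z).re + ‖z‖ ^ 2 / (4 * a * b)|) K := by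
    have h6 : ContinuousOn φ K := hφ.continuousOn.mono (by
      intro z hz
      exact ⟨lt_of_le_of_lt hz.1 (by linarith), lt_of_le_of_lt hz.2 (by linarith)⟩)
    exact ((Complex.continuous_re.comp_continuousOn h6).add (by fun_prop)).abs
  obtain ⟨C, hC⟩ := hKc.bddAbove_image hc
  refine ⟨C, fun z hz hz0 => ?_⟩
  have hz1 : |z.re| < a / 2 := by simpa using hz.1
  have hz2 : |z.im| < b / 2 := by simpa using hz.2
  rw [hφ2 z (by linarith) (by linarith) hz0]
  have h7 : -(1 / (2 * π)) * Real.log ‖z‖ + (φ z).re + ‖z‖ ^ 2 / (4 * a * b) +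
      1 / (2 * π) * Real.log ‖z‖ = (φ z).re + ‖z‖ ^ 2 / (4 * a * b) := by ring
  rw [h7]
  exact hC ⟨z, ⟨hz1.le, hz2.le⟩, rfl⟩

end Pool.Agent.Vx

end

section

/-!
# MP_afe918_an, block V, item V_cnc: concentration of `exp (β T_c)`
-/

set_option autoImplicit false

open Complex Set Filter Topology MeasureTheory Metric
open scoped Real ContDiff

namespace Pool.Agent.Vx

theorem V_cnc_cm_per (a : ℝ) (ha : 0 < a) {k : ℕ} (i : Fin k × Bool) (x : ℝ) (n : ℤ) :
    cm a i (x + n * a) = cm a i x := by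
  have h1 : 2 * π * ((i.1 : ℕ) + 1) * (x + n * a) / a =
      2 * π * ((i.1 : ℕ) + 1) * x / a + ((n * ((i.1 : ℕ) + 1) : ℤ) : ℝ) * (2 * π) := by
    push_cast
    field_simp
  unfold cm
  rw [h1]
  split_ifs
  · rw [Real.sin_add_int_mul_two_pi]
  · rw [Real.cos_add_int_mul_two_pi]

theorem V_cnc_T_per (a : ℝ) (ha : 0 < a) {k : ℕ} (c : Pa k) (x : ℝ) (n : ℤ) :
    Tc a c (x + n * a) = Tc a c x := by
  unfold Tc
  exact Finset.sum_congr rfl fun i _ => by rw [V_cnc_cm_per a ha]

/-- reduction to the fundamental interval -/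
theorem V_cnc_red (a : ℝ) (ha : 0 < a) (x : ℝ) : ∃ n : ℤ, x + n * a ∈ Icc 0 a := by
  refine ⟨-⌊x / a⌋, ?_⟩
  have h1 := Int.floor_le (x / a)
  have h2 := Int.lt_floor_add_one (x / a)
  rw [le_div_iff₀ ha] at h1
  rw [div_lt_iff₀ ha] at h2
  push_cast
  constructor <;> linarith

theorem V_cnc_exmax (a : ℝ) (ha : 0 < a) {k : ℕ} (c : Pa k) :
    ∃ x₀ ∈ Icc 0 a, ∀ y, Tc a c y ≤ Tc a c x₀ := by
  obtain ⟨x₀, hx₀, hmax⟩ := isCompact_Icc.exists_isMaxOn (nonempty_Icc.2 ha.le)
    (V_max_Tcont a c).continuousOn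
  refine ⟨x₀, hx₀, fun y => ?_⟩
  obtain ⟨n, hn⟩ := V_cnc_red a ha y
  rw [← V_cnc_T_per a ha c y n]
  exact hmax hn

theorem V_cnc_cm_lip (a : ℝ) (ha : 0 < a) {k : ℕ} (i : Fin k × Bool) (x y : ℝ) :
    |cm a i x - cm a i y| ≤ 2 * π * k / a * |x - y| := by
  have h0 : |2 * π * ((i.1 : ℕ) + 1) * x / a - 2 * π * ((i.1 : ℕ) + 1) * y / a| ≤
      2 * π * k / a * |x - y| := by
    have h1 : 2 * π * ((i.1 : ℕ) + 1) * x / a - 2 * π * ((i.1 : ℕ) + 1) * y / a =
        2 * π * ((i.1 : ℕ) + 1) / a * (x - y) := by ring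
    have hp := Real.pi_pos
    have h2 : (((i.1 : ℕ) : ℝ) + 1) ≤ k := by exact_mod_cast i.1.isLt
    rw [h1, abs_mul, abs_of_nonneg (by positivity)]
    gcongr
  unfold cm
  split_ifs
  · have h := Real.lipschitzWith_sin.dist_le_mul (2 * π * ((i.1 : ℕ) + 1) * x / a)
      (2 * π * ((i.1 : ℕ) + 1) * y / a)
    rw [Real.dist_eq, Real.dist_eq] at h
    simp only [NNReal.coe_one, one_mul] at h
    exact h.trans h0
  · have h := Real.lipschitzWith_cos.dist_le_mul (2 * π * ((i.1 : ℕ) + 1) * x / a)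
      (2 * π * ((i.1 : ℕ) + 1) * y / a)
    rw [Real.dist_eq, Real.dist_eq] at h
    simp only [NNReal.coe_one, one_mul] at h
    exact h.trans h0

theorem V_cnc_T_lip (a : ℝ) (ha : 0 < a) {k : ℕ} (c : Pa k) (hc : ‖c‖ = 1) (x y : ℝ) :
    |Tc a c x - Tc a c y| ≤ 4 * π * k ^ 2 / a * |x - y| := by
  have h1 : Tc a c x - Tc a c y = ∑ i, c i * (cm a i x - cm a i y) := by
    unfold Tc
    rw [← Finset.sum_sub_distrib]
    exact Finset.sum_congr rfl fun i _ => by ring
  rw [h1]
  have h2 : |∑ i, c i * (cm a i x - cm a i y)| ≤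
      ∑ _i : Fin k × Bool, 2 * π * k / a * |x - y| := by
    refine le_trans (Finset.abs_sum_le_sum_abs _ _) (Finset.sum_le_sum fun i _ => ?_)
    rw [abs_mul]
    have h3 : |c i| ≤ 1 := by
      rw [← hc, ← Real.norm_eq_abs]
      exact PiLp.norm_apply_le c i
    calc |c i| * |cm a i x - cm a i y| ≤ 1 * (2 * π * k / a * |x - y|) :=
          mul_le_mul h3 (V_cnc_cm_lip a ha i x y) (abs_nonneg _) zero_le_one
      _ = _ := one_mul _
  refine h2.trans (le_of_eq ?_)
  rw [Finset.sum_const, Finset.card_univ, Fintype.card_prod, Fintype.card_fin, Fintype.card_bool,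
    nsmul_eq_mul]
  push_cast
  ring

theorem pr_V_cnc (hcov : V_cov) (hmax : V_max) : V_cnc := by
  intro a k ha
  obtain ⟨τ₀, hτ₀, hτ⟩ := hmax a k ha
  refine ⟨τ₀ / 2, by positivity, fun θ ε hθ hε => ?_⟩
  obtain ⟨η, hη, hcv⟩ := hcov a k θ ha hθ
  set η' : ℝ := min η (τ₀ / 2) with hη'
  have hη'pos : 0 < η' := lt_min hη (by positivity)
  have hη'1 : η' ≤ η := min_le_left _ _
  have hη'2 : η' ≤ τ₀ / 2 := min_le_right _ _
  have hp := Real.pi_pos
  set Λ : ℝ := 4 * π * k ^ 2 / a + 1 with hΛ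
  have hΛpos : 0 < Λ := by positivity
  set ℓ : ℝ := min (η' / (2 * Λ)) (a / 2) with hℓ
  have hℓpos : 0 < ℓ := lt_min (by positivity) (by positivity)
  have hℓ1 : Λ * ℓ ≤ η' / 2 := by
    have h := min_le_left (η' / (2 * Λ)) (a / 2)
    rw [← hℓ, le_div_iff₀ (by positivity)] at h
    linarith
  have hℓ2 : ℓ ≤ a / 2 := min_le_right _ _
  set β : ℝ := 2 / η' * |Real.log (ε * ℓ / a)| with hβ
  have hβ0 : 0 ≤ β := by positivity
  have hexp : Real.exp (-(β * (η' / 2))) ≤ ε * ℓ / a := by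
    have h1 : β * (η' / 2) = |Real.log (ε * ℓ / a)| := by
      rw [hβ]
      field_simp
    rw [h1]
    have h2 : -|Real.log (ε * ℓ / a)| ≤ Real.log (ε * ℓ / a) := neg_abs_le _
    calc Real.exp (-|Real.log (ε * ℓ / a)|) ≤ Real.exp (Real.log (ε * ℓ / a)) :=
          Real.exp_le_exp.2 h2
      _ = ε * ℓ / a := Real.exp_log (by positivity)
  refine ⟨β, fun c hc => ?_⟩
  obtain ⟨t, ht⟩ := hcv c hc
  refine ⟨t, ?_⟩
  obtain ⟨x₀, hx₀, hM⟩ := V_cnc_exmax a ha c
  set M : ℝ := Tc a c x₀ with hMdef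
  have hMτ : τ₀ ≤ M := by
    obtain ⟨x, hx⟩ := hτ c hc
    exact hx.trans (hM x)
  have hT := V_max_Tcont a c
  classical
  unfold Conc si
  -- the left side
  have hL : ∫ x in Ioc 0 a, (if (∃ (j : Fin k) (n : ℤ), |x - t j - n * a| ≤ θ) ∧
      τ₀ / 2 ≤ Tc a c x then (0 : ℝ) else 1) * Real.exp (β * Tc a c x) ≤
      a * Real.exp (β * (M - η')) := by
    have h1 : ∫ x in Ioc (0 : ℝ) a, Real.exp (β * (M - η')) = a * Real.exp (β * (M - η')) := by
      rw [setIntegral_const, smul_eq_mul]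
      simp [ha.le]
    rw [← h1]
    refine integral_mono_of_nonneg ?_ ?_ ?_
    · refine Eventually.of_forall fun x => ?_
      simp only [Pi.zero_apply]
      split_ifs
      · simp
      · rw [one_mul]; exact (Real.exp_pos _).le
    · exact integrableOn_const (by simp)
    · refine Eventually.of_forall fun x => ?_
      simp only
      split_ifs with h
      · rw [zero_mul]; exact (Real.exp_pos _).le
      · rw [one_mul]
        refine Real.exp_le_exp.2 (mul_le_mul_of_nonneg_left ?_ hβ0)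
        by_contra hlt
        push Not at hlt
        refine h ⟨ht x fun y => ?_, by linarith⟩
        have := hM y
        linarith
  -- the right side
  have hR : ℓ * Real.exp (β * (M - η' / 2)) ≤
      ∫ x in Ioc 0 a, (1 : ℝ) * Real.exp (β * Tc a c x) := by
    obtain ⟨u, hu1, hu2, hu3⟩ : ∃ u, 0 ≤ u ∧ u + ℓ ≤ a ∧ ∀ x ∈ Ioc u (u + ℓ), |x - x₀| ≤ ℓ := by
      rcases le_total x₀ (a / 2) with h | h
      · refine ⟨x₀, hx₀.1, by linarith, fun x hx => ?_⟩
        rw [abs_of_nonneg (by linarith [hx.1])]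
        linarith [hx.2]
      · refine ⟨x₀ - ℓ, by linarith, by linarith [hx₀.2], fun x hx => ?_⟩
        rw [abs_le]
        constructor <;> linarith [hx.1, hx.2]
    have hcont : Continuous fun x => (1 : ℝ) * Real.exp (β * Tc a c x) := by fun_prop
    have h1 : ∫ x in Ioc u (u + ℓ), Real.exp (β * (M - η' / 2)) =
        ℓ * Real.exp (β * (M - η' / 2)) := by
      rw [setIntegral_const, smul_eq_mul]
      simp [hℓpos.le]
    rw [← h1]
    have hi : IntegrableOn (fun x => (1 : ℝ) * Real.exp (β * Tc a c x)) (Ioc 0 a) :=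
      (hcont.integrableOn_Icc).mono_set Ioc_subset_Icc_self
    refine le_trans (setIntegral_mono_on (integrableOn_const (by simp))
      (hi.mono_set (Ioc_subset_Ioc hu1 hu2)) measurableSet_Ioc fun x hx => ?_)
      (setIntegral_mono_set hi (Eventually.of_forall fun x => ?_)
        (Ioc_subset_Ioc hu1 hu2).eventuallyLE)
    · rw [one_mul]
      refine Real.exp_le_exp.2 (mul_le_mul_of_nonneg_left ?_ hβ0)
      have h2 := V_cnc_T_lip a ha c hc x x₀
      have h3 : 4 * π * k ^ 2 / a * |x - x₀| ≤ Λ * ℓ := by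
        refine mul_le_mul (by rw [hΛ]; linarith) (hu3 x hx) (abs_nonneg _) hΛpos.le
      have h4 := (abs_le.1 (h2.trans h3)).1
      linarith
    · simp only [Pi.zero_apply, one_mul]
      exact (Real.exp_pos _).le
  refine hL.trans ?_
  refine le_trans ?_ (mul_le_mul_of_nonneg_left hR hε.le)
  have h1 : Real.exp (β * (M - η')) =
      Real.exp (β * (M - η' / 2)) * Real.exp (-(β * (η' / 2))) := by
    rw [← Real.exp_add]
    congr 1
    ring
  rw [h1]
  have h2 : a * (Real.exp (β * (M - η' / 2)) * Real.exp (-(β * (η' / 2)))) ≤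
      a * (Real.exp (β * (M - η' / 2)) * (ε * ℓ / a)) := by
    gcongr
  refine h2.trans (le_of_eq ?_)
  field_simp

end Pool.Agent.Vx

end

section

/-!
# MP_afe918_an, item Vconv: convolution with the Green function
-/

set_option autoImplicit false

open Complex Set Filter Topology MeasureTheory Metric
open scoped Real ContDiff

namespace Pool.Agent.Vx

theorem V_conv_int (hG : V_G) (htr : V_tr) (a b : ℝ) (F : ℂ → ℂ) (hT : IsTheta a b F) (x : ℂ) :
    IntegrableOn (fun y => Gr a b F (x - y)) (rect a b 0) ∧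
    ti a b (fun y => |Gr a b F (x - y)|) = ti a b (fun y => |Gr a b F y|) := by
  obtain ⟨-, -, -, hper, heven, -⟩ := hG a b F hT
  obtain ⟨-, -, h3⟩ := htr a b hT.apos hT.bpos
  have e : ∀ y, Gr a b F (y + -x) = Gr a b F (x - y) := by
    intro y
    rw [← heven]
    congr 1
    ring
  constructor
  · have h := (h3 (Gr a b F) hper hT.integ (-x)).1
    simp only [e] at h
    exact h
  · have hper2 : Per a b (fun y => |Gr a b F y|) := fun z => ⟨by
      show |Gr a b F (z + a)| = |Gr a b F z|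
      rw [(hper z).1], by
      show |Gr a b F (z + b * I)| = |Gr a b F z|
      rw [(hper z).2]⟩
    have h := (h3 (fun y => |Gr a b F y|) hper2 hT.integ.abs (-x)).2
    simp only [e] at h
    exact h

theorem V_conv_prod (a b : ℝ) (f g : ℂ → ℝ) (M : ℝ) (hf : IntegrableOn f (rect a b 0))
    (hg : Measurable g) (hM : ∀ z, |g z| ≤ M) :
    IntegrableOn (fun y => f y * g y) (rect a b 0) ∧
    |ti a b (fun y => f y * g y)| ≤ M * ti a b (fun y => |f y|) := by
  have hint : IntegrableOn (fun y => f y * g y) (rect a b 0) := by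
    refine Integrable.mono' (hf.abs.const_mul M) (hf.aestronglyMeasurable.mul
      hg.aestronglyMeasurable) (Eventually.of_forall fun y => ?_)
    rw [Real.norm_eq_abs, abs_mul, mul_comm]
    exact mul_le_mul_of_nonneg_right (hM y) (abs_nonneg _)
  refine ⟨hint, ?_⟩
  unfold ti
  rw [← integral_const_mul]
  refine (abs_integral_le_integral_abs (μ := volume.restrict (rect a b 0))
    (f := fun y => f y * g y)).trans ?_
  refine integral_mono hint.abs (hf.abs.const_mul M) fun y => ?_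
  show |f y * g y| ≤ M * |f y|
  rw [abs_mul, mul_comm]
  exact mul_le_mul_of_nonneg_right (hM y) (abs_nonneg _)

theorem pr_V_conv (hG : V_G) (htr : V_tr) (hGTr : S_GTr) : V_conv := by
  intro a b F hT g hg
  obtain ⟨-, -, -, hper, -, -⟩ := hG a b F hT
  obtain ⟨M, hM⟩ := hg.bdd
  have hM0 : 0 ≤ M := le_trans (abs_nonneg _) (hM 0)
  have hint : ∀ x, IntegrableOn (fun y => Gr a b F (x - y) * g y) (rect a b 0) := fun x =>
    (V_conv_prod a b _ g M (V_conv_int hG htr a b F hT x).1 hg.meas hM).1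
  have hcont : Continuous (gg a b F g) := by
    rw [Metric.continuous_iff]
    intro x ε hε
    obtain ⟨δ, hδ, h⟩ := hGTr a b F hT (ε / (2 * (M + 1))) (by positivity)
    refine ⟨δ, hδ, fun x' hx' => ?_⟩
    rw [dist_eq_norm] at hx'
    obtain ⟨-, h2⟩ := h x' x hx'
    have h3 : IntegrableOn (fun y => Gr a b F (x' - y) - Gr a b F (x - y)) (rect a b 0) :=
      (V_conv_int hG htr a b F hT x').1.sub (V_conv_int hG htr a b F hT x).1
    have h4 := (V_conv_prod a b _ g M h3 hg.meas hM).2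
    have h5 : gg a b F g x' - gg a b F g x =
        ti a b (fun y => (Gr a b F (x' - y) - Gr a b F (x - y)) * g y) := by
      unfold gg ti
      rw [← integral_sub (hint x') (hint x)]
      refine integral_congr_ae (Eventually.of_forall fun y => ?_)
      show Gr a b F (x' - y) * g y - Gr a b F (x - y) * g y = _
      ring
    rw [Real.dist_eq, h5]
    refine lt_of_le_of_lt (h4.trans (mul_le_mul_of_nonneg_left h2 hM0)) ?_
    have h6 : M * (ε / (2 * (M + 1))) = ε * (M / (2 * (M + 1))) := by ring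
    have h7 : M / (2 * (M + 1)) < 1 := by
      rw [div_lt_one (by positivity)]
      linarith
    rw [h6]
    nlinarith
  have hperg : Per a b (gg a b F g) := by
    intro x
    constructor
    · unfold gg
      congr 1
      funext y
      have : x + a - y = (x - y) + a := by ring
      rw [this, (hper _).1]
    · unfold gg
      congr 1
      funext y
      have : x + b * I - y = (x - y) + b * I := by ring
      rw [this, (hper _).2]
  refine ⟨hint, hcont, hperg, hcont.measurable, hperg,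
    M * ti a b (fun y => |Gr a b F y|), fun x => ?_⟩
  have h1 := V_conv_int hG htr a b F hT x
  have h2 := (V_conv_prod a b _ g M h1.1 hg.meas hM).2
  rw [h1.2] at h2
  exact h2

end Pool.Agent.Vx

end

section

/-!
# MP_afe918_an, block V, item V_k2: mass, first moment, logarithm of the bubble
-/

set_option autoImplicit false

open Complex Set Filter Topology MeasureTheory Metric
open scoped Real ContDiff

namespace Pool.Agent.Vx

/-- the pseudo-distance to the origin -/
noncomputable def V_k2_D (a b : ℝ) (z : ℂ) : ℝ :=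
  (a / π * Real.sin (π * z.re / a)) ^ 2 + (b / π * Real.sin (π * z.im / b)) ^ 2

theorem V_k2_Deq (a b y0 t : ℝ) (z : ℂ) : Dd a b y0 (z + (t + y0 * I)) t = V_k2_D a b z := by
  unfold Dd V_k2_D
  have h1 : (z + ((t : ℂ) + y0 * I)).re - t = z.re := by simp
  have h2 : (z + ((t : ℂ) + y0 * I)).im - y0 = z.im := by simp
  rw [h1, h2]

theorem V_k2_rect_sub (a b : ℝ) : rect a b 0 ⊆ ball (0 : ℂ) (a + b) := by
  intro z hz
  have h1 : |z.re| < a / 2 := by simpa using hz.1
  have h2 : |z.im| < b / 2 := by simpa using hz.2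
  rw [mem_ball_zero_iff]
  have h3 := Complex.norm_le_abs_re_add_abs_im z
  have h4 := abs_nonneg z.re
  have h5 := abs_nonneg z.im
  linarith

theorem V_k2_rect_meas (a b : ℝ) : MeasurableSet (rect a b 0) := by
  have h1 : IsOpen {z : ℂ | |z.re - (0 : ℂ).re| < a / 2} := isOpen_lt (by fun_prop) continuous_const
  have h2 : IsOpen {z : ℂ | |z.im - (0 : ℂ).im| < b / 2} := isOpen_lt (by fun_prop) continuous_const
  exact (h1.inter h2).measurableSet

theorem V_k2_intc (a b : ℝ) (f : ℂ → ℝ) (hf : Continuous f) : IntegrableOn f (rect a b 0) :=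
  (hf.continuousOn.integrableOn_compact (isCompact_closedBall (0 : ℂ) (a + b))).mono_set
    ((V_k2_rect_sub a b).trans ball_subset_closedBall)

theorem V_k2_low (a b : ℝ) (ha : 0 < a) (hb : 0 < b) (z : ℂ) (hz : z ∈ rect a b 0) :
    4 / π ^ 2 * ‖z‖ ^ 2 ≤ V_k2_D a b z := by
  have hp := Real.pi_pos
  have key : ∀ (a x : ℝ), 0 < a → |x| < a / 2 → 4 / π ^ 2 * x ^ 2 ≤
      (a / π * Real.sin (π * x / a)) ^ 2 := by
    intro a x ha hx
    have h1 : |π * x / a| ≤ π / 2 := by
      rw [abs_div, abs_mul, abs_of_pos hp, abs_of_pos ha, div_le_div_iff₀ ha two_pos]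
      nlinarith
    have h2 := Real.mul_abs_le_abs_sin h1
    have h3 : 2 / π * |π * x / a| = 2 / a * |x| := by
      rw [abs_div, abs_mul, abs_of_pos hp, abs_of_pos ha]
      field_simp
    rw [h3] at h2
    have h4 : (2 / a * |x|) ^ 2 ≤ |Real.sin (π * x / a)| ^ 2 := by gcongr
    rw [sq_abs, mul_pow, sq_abs] at h4
    calc 4 / π ^ 2 * x ^ 2 = (a / π) ^ 2 * ((2 / a) ^ 2 * x ^ 2) := by field_simp; ring
      _ ≤ (a / π) ^ 2 * Real.sin (π * x / a) ^ 2 := by gcongr
      _ = _ := by ring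
  have h1 : |z.re| < a / 2 := by simpa using hz.1
  have h2 : |z.im| < b / 2 := by simpa using hz.2
  unfold V_k2_D
  rw [← Complex.normSq_eq_norm_sq, Complex.normSq_apply]
  have h3 := key a z.re ha h1
  have h4 := key b z.im hb h2
  nlinarith

theorem V_k2_Dc (a b : ℝ) : Continuous (V_k2_D a b) := by
  unfold V_k2_D
  fun_prop

theorem V_k2_D0 (a b : ℝ) (z : ℂ) : 0 ≤ V_k2_D a b z := by
  unfold V_k2_D
  positivity

theorem V_k2_trans (htr : V_tr) (a b : ℝ) (ha : 0 < a) (hb : 0 < b) (F : ℂ → ℝ)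
    (hF : Continuous F) (hp : Per a b F) (w : ℂ) : ti a b F = ti a b (fun z => F (z + w)) :=
  (((htr a b ha hb).2.2 F hp (V_k2_intc a b F hF) w).2).symm

/-- domination of the integral over the rectangle by a scaled integral over the plane -/
theorem V_k2_dom (a b L K : ℝ) (hL : 0 < L) (hK : 0 ≤ K) (f F : ℂ → ℝ) (hF : Integrable F)
    (hF0 : ∀ z, 0 ≤ F z) (hf0 : ∀ z, 0 ≤ f z)
    (hf : ∀ z ∈ rect a b 0, f z ≤ K * F (L • z)) :
    ti a b f ≤ K * (1 / L ^ 2 * ∫ z : ℂ, F z) := by
  have hi : Integrable (fun z : ℂ => K * F (L • z)) := (hF.comp_smul hL.ne').const_mul K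
  unfold ti
  have h1 : ∫ z in rect a b 0, f z ≤ ∫ z in rect a b 0, K * F (L • z) := by
    refine integral_mono_of_nonneg (Eventually.of_forall hf0) hi.integrableOn ?_
    exact (ae_restrict_iff' (V_k2_rect_meas a b)).2 (Eventually.of_forall hf)
  have h2 : ∫ z in rect a b 0, K * F (L • z) ≤ ∫ z : ℂ, K * F (L • z) :=
    setIntegral_le_integral hi (Eventually.of_forall fun z => mul_nonneg hK (hF0 _))
  have h3 : ∫ z : ℂ, K * F (L • z) = K * (1 / L ^ 2 * ∫ z : ℂ, F z) := by
    rw [integral_const_mul, Measure.integral_comp_smul, Complex.finrank_real_complex, smul_eq_mul,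
      abs_of_pos (by positivity), one_div]
  exact (h1.trans h2).trans h3.le

theorem pr_V_k2 (htr : V_tr) (hD : V_D) : V_k2 := by
  intro a b y0 ha hb
  obtain ⟨hD1, hD2, -, -⟩ := hD a b y0 ha hb
  have hp := Real.pi_pos
  set c : ℝ := 4 / π ^ 2 with hc
  have hc0 : 0 < c := by positivity
  have hc1 : c ≤ 1 := by
    rw [hc, div_le_one (by positivity)]
    nlinarith [Real.two_le_pi]
  have hfr : (Module.finrank ℝ ℂ : ℝ) = 2 := by rw [Complex.finrank_real_complex]; norm_num
  have hI1 : Integrable (fun z : ℂ => ((1 : ℝ) + ‖z‖ ^ 2) ^ (-(4 : ℝ) / 2)) :=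
    integrable_rpow_neg_one_add_norm_sq (by rw [hfr]; norm_num)
  have hI2 : Integrable (fun z : ℂ => ((1 : ℝ) + ‖z‖ ^ 2) ^ (-(3 : ℝ) / 2)) :=
    integrable_rpow_neg_one_add_norm_sq (by rw [hfr]; norm_num)
  set J1 : ℝ := ∫ z : ℂ, ((1 : ℝ) + ‖z‖ ^ 2) ^ (-(4 : ℝ) / 2) with hJ1
  set J2 : ℝ := ∫ z : ℂ, ((1 : ℝ) + ‖z‖ ^ 2) ^ (-(3 : ℝ) / 2) with hJ2
  have hJ10 : 0 ≤ J1 := integral_nonneg fun z => by positivity
  have hJ20 : 0 ≤ J2 := integral_nonneg fun z => by positivity
  set U : ℂ → ℝ := fun z => Real.log (1 + (a ^ 2 + b ^ 2) ^ 2) - 2 * Real.log c -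
    4 * Real.log ‖0 - z‖ with hU
  have hUi : IntegrableOn U (rect a b 0) := by
    have h1 := (pr_LogI 0 0 (a + b) (by positivity)).1.mono_set (V_k2_rect_sub a b)
    refine Integrable.sub ?_ (h1.const_mul 4)
    exact V_k2_intc a b _ continuous_const
  set J3 : ℝ := |∫ z in rect a b 0, U z| with hJ3
  have hJ30 : 0 ≤ J3 := abs_nonneg _
  have hcc : 0 ≤ c ^ (-(3 : ℝ) / 2) := by positivity
  refine ⟨(c ^ 2)⁻¹ * J1 + c ^ (-(3 : ℝ) / 2) * J2 + J3, fun L t hL => ?_⟩
  have hL0 : 0 < L := by linarith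
  have hpD : ∀ z ∈ rect a b 0, c * (1 + ‖L • z‖ ^ 2) ≤ 1 + L ^ 2 * V_k2_D a b z := by
    intro z hz
    have h1 := V_k2_low a b ha hb z hz
    rw [norm_smul, Real.norm_eq_abs, abs_of_pos hL0]
    have h2 : L ^ 2 * (c * ‖z‖ ^ 2) ≤ L ^ 2 * V_k2_D a b z := by gcongr
    nlinarith
  have hDc : Continuous fun x => Dd a b y0 x t := by
    unfold Dd
    fun_prop
  have hD0 : ∀ x, 0 ≤ Dd a b y0 x t := fun x => (hD1 x t).1
  have hDper := hD2 t
  have hpos : ∀ x, 1 + L ^ 2 * Dd a b y0 x t ≠ 0 := fun x => by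
    have := hD0 x
    positivity
  have hkc : Continuous fun x => kp a b y0 L x t := by
    unfold kp
    exact (continuous_const.div (by fun_prop) hpos).pow 2
  have hkper : Per a b fun x => kp a b y0 L x t := by
    intro z
    unfold kp
    simp only [(hDper z).1, (hDper z).2, and_self]
  refine ⟨?_, ?_, ?_⟩
  · rw [V_k2_trans htr a b ha hb _ hkc hkper (t + y0 * I)]
    have h1 := V_k2_dom a b L (L ^ 2 * (c ^ 2)⁻¹) hL0 (by positivity)
      (fun z => kp a b y0 L (z + (t + y0 * I)) t) _ hI1 (fun z => by positivity)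
      (fun z => by unfold kp; positivity) (fun z hz => by
        unfold kp
        rw [V_k2_Deq, div_pow]
        have h2 := hpD z hz
        have h3 : 0 < c * (1 + ‖L • z‖ ^ 2) := by positivity
        have h4 : ((1 : ℝ) + ‖L • z‖ ^ 2) ^ (-(4 : ℝ) / 2) = ((1 + ‖L • z‖ ^ 2) ^ 2)⁻¹ := by
          rw [show (-(4 : ℝ) / 2) = -((2 : ℕ) : ℝ) by norm_num, Real.rpow_neg (by positivity),
            Real.rpow_natCast]
        rw [h4]
        calc L ^ 2 / (1 + L ^ 2 * V_k2_D a b z) ^ 2 ≤ L ^ 2 / (c * (1 + ‖L • z‖ ^ 2)) ^ 2 := by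
              gcongr
          _ = _ := by
              rw [mul_pow, div_eq_mul_inv, mul_inv]
              ring)
    refine h1.trans ?_
    have h5 : L ^ 2 * (c ^ 2)⁻¹ * (1 / L ^ 2 * ∫ z : ℂ, ((1 : ℝ) + ‖z‖ ^ 2) ^ (-(4 : ℝ) / 2)) =
        (c ^ 2)⁻¹ * J1 := by
      rw [← hJ1]
      field_simp
    rw [h5]
    have h6 : 0 ≤ c ^ (-(3 : ℝ) / 2) * J2 := by positivity
    linarith
  · have hper : Per a b fun x => Real.sqrt (Dd a b y0 x t) * kp a b y0 L x t := by
      intro z
      simp only [(hDper z).1, (hDper z).2, (hkper z).1, (hkper z).2, and_self]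
    have hsc : Continuous fun x => Real.sqrt (Dd a b y0 x t) * kp a b y0 L x t :=
      (hDc.sqrt).mul hkc
    rw [V_k2_trans htr a b ha hb _ hsc hper (t + y0 * I)]
    have h1 := V_k2_dom a b L (L * c ^ (-(3 : ℝ) / 2)) hL0 (by positivity)
      (fun z => Real.sqrt (Dd a b y0 (z + (t + y0 * I)) t) * kp a b y0 L (z + (t + y0 * I)) t)
      _ hI2 (fun z => by positivity)
      (fun z => by unfold kp; positivity) (fun z hz => by
        unfold kp
        rw [V_k2_Deq, div_pow]
        have h2 := hpD z hz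
        have h3 : 0 < c * (1 + ‖L • z‖ ^ 2) := by positivity
        set D := V_k2_D a b z with hDz
        have hDn : 0 ≤ D := V_k2_D0 a b z
        set u : ℝ := 1 + L ^ 2 * D with hu
        have hu0 : 0 < u := by positivity
        have h4 : Real.sqrt D ≤ Real.sqrt u / L := by
          rw [le_div_iff₀ hL0]
          calc Real.sqrt D * L = Real.sqrt (D * L ^ 2) := by
                rw [Real.sqrt_mul hDn, Real.sqrt_sq hL0.le]
            _ ≤ Real.sqrt u := Real.sqrt_le_sqrt (by rw [hu]; linarith)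
        have h5 : Real.sqrt u / u ^ 2 = u ^ (-(3 : ℝ) / 2) := by
          rw [Real.sqrt_eq_rpow, ← Real.rpow_natCast u 2, ← Real.rpow_sub hu0]
          congr 1
          norm_num
        calc Real.sqrt D * (L ^ 2 / u ^ 2) ≤ Real.sqrt u / L * (L ^ 2 / u ^ 2) := by gcongr
          _ = L * (Real.sqrt u / u ^ 2) := by field_simp
          _ = L * u ^ (-(3 : ℝ) / 2) := by rw [h5]
          _ ≤ L * (c * (1 + ‖L • z‖ ^ 2)) ^ (-(3 : ℝ) / 2) := by
              have h6 := Real.rpow_le_rpow_of_nonpos h3 h2 (show (-(3 : ℝ) / 2) ≤ 0 by norm_num)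
              gcongr
          _ = L * c ^ (-(3 : ℝ) / 2) * (1 + ‖L • z‖ ^ 2) ^ (-(3 : ℝ) / 2) := by
              rw [Real.mul_rpow hc0.le (by positivity)]
              ring)
    refine h1.trans ?_
    have h5 : L * c ^ (-(3 : ℝ) / 2) * (1 / L ^ 2 * ∫ z : ℂ, ((1 : ℝ) + ‖z‖ ^ 2) ^ (-(3 : ℝ) / 2)) =
        c ^ (-(3 : ℝ) / 2) * J2 / L := by
      rw [← hJ2]
      field_simp
    rw [h5]
    have h6 : 0 ≤ (c ^ 2)⁻¹ * J1 := by positivity
    have h7 : c ^ (-(3 : ℝ) / 2) * J2 ≤ (c ^ 2)⁻¹ * J1 + c ^ (-(3 : ℝ) / 2) * J2 + J3 := by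
      linarith
    gcongr
  · have hne : ∀ x, (1 / L ^ 2 + Dd a b y0 x t) ^ 2 ≠ 0 := fun x => by
      have := hD0 x
      positivity
    have hgc : Continuous fun x => Real.log (1 + 1 / (1 / L ^ 2 + Dd a b y0 x t) ^ 2) := by
      refine Continuous.log ?_ fun x => ?_
      · exact continuous_const.add (continuous_const.div (by fun_prop) hne)
      · have := hD0 x
        positivity
    have hper : Per a b fun x => Real.log (1 + 1 / (1 / L ^ 2 + Dd a b y0 x t) ^ 2) := by
      intro z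
      simp only [(hDper z).1, (hDper z).2, and_self]
    rw [V_k2_trans htr a b ha hb _ hgc hper (t + y0 * I)]
    have h1 : ti a b (fun z => Real.log (1 + 1 / (1 / L ^ 2 + Dd a b y0 (z + (t + y0 * I)) t) ^ 2)) ≤
        ∫ z in rect a b 0, U z := by
      unfold ti
      refine integral_mono_of_nonneg (Eventually.of_forall fun z => ?_) hUi ?_
      · simp only [Pi.zero_apply]
        refine Real.log_nonneg ?_
        have h2 : 0 ≤ 1 / (1 / L ^ 2 + Dd a b y0 (z + (t + y0 * I)) t) ^ 2 := by positivity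
        linarith
      · have hz0 : ∀ᵐ z : ℂ ∂(volume.restrict (rect a b 0)), z ≠ 0 := by
          refine ae_restrict_of_ae ?_
          rw [ae_iff]
          simp
        filter_upwards [hz0, ae_restrict_mem (V_k2_rect_meas a b)] with z hz hzr
        rw [V_k2_Deq]
        have h2 := V_k2_low a b ha hb z hzr
        have h3 : 0 < ‖z‖ := norm_pos_iff.2 hz
        set D := V_k2_D a b z with hDz
        have hDpos : 0 < D := lt_of_lt_of_le (by positivity) h2
        have hDB : D ≤ a ^ 2 + b ^ 2 := by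
          have h4 := (hD1 (z + (t + y0 * I)) t).2.1
          rwa [V_k2_Deq] at h4
        have h5 : 1 + 1 / (1 / L ^ 2 + D) ^ 2 ≤ (1 + (a ^ 2 + b ^ 2) ^ 2) / D ^ 2 := by
          have h6 : 1 / (1 / L ^ 2 + D) ^ 2 ≤ 1 / D ^ 2 := by
            have h7 : D ≤ 1 / L ^ 2 + D := by
              have : 0 ≤ 1 / L ^ 2 := by positivity
              linarith
            gcongr
          have h8 : D ^ 2 ≤ (a ^ 2 + b ^ 2) ^ 2 := by gcongr
          have h9 : 1 + 1 / D ^ 2 = (1 + D ^ 2) / D ^ 2 := by field_simp; ring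
          calc 1 + 1 / (1 / L ^ 2 + D) ^ 2 ≤ 1 + 1 / D ^ 2 := by linarith
            _ = (1 + D ^ 2) / D ^ 2 := h9
            _ ≤ (1 + (a ^ 2 + b ^ 2) ^ 2) / D ^ 2 := by gcongr
        have h10 : 0 < 1 + 1 / (1 / L ^ 2 + D) ^ 2 := by positivity
        calc Real.log (1 + 1 / (1 / L ^ 2 + D) ^ 2) ≤
            Real.log ((1 + (a ^ 2 + b ^ 2) ^ 2) / D ^ 2) := Real.log_le_log h10 h5
          _ = Real.log (1 + (a ^ 2 + b ^ 2) ^ 2) - 2 * Real.log D := by
              rw [Real.log_div (by positivity) (by positivity), Real.log_pow]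
              push_cast
              ring
          _ ≤ Real.log (1 + (a ^ 2 + b ^ 2) ^ 2) - 2 * Real.log (c * ‖z‖ ^ 2) := by
              have := Real.log_le_log (by positivity) h2
              linarith
          _ = U z := by
              rw [Real.log_mul hc0.ne' (by positivity), Real.log_pow, hU]
              simp only [zero_sub, norm_neg]
              push_cast
              ring
    refine h1.trans ?_
    have h2 := le_abs_self (∫ z in rect a b 0, U z)
    have h6 : 0 ≤ (c ^ 2)⁻¹ * J1 := by positivity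
    have h7 : 0 ≤ c ^ (-(3 : ℝ) / 2) * J2 := by positivity
    linarith

end Pool.Agent.Vx

end

section

set_option autoImplicit false

open Complex Set Filter Topology MeasureTheory Metric
open scoped Real ContDiff

namespace Pool.Agent.Vx

theorem V_lwl_cm_cont (a : ℝ) {k : ℕ} (i : Fin k × Bool) : Continuous (cm a i) := by
  unfold cm
  split_ifs <;> fun_prop

theorem V_lwl_Tc_cont (a : ℝ) {k : ℕ} (c : Pa k) : Continuous (Tc a c) := by
  unfold Tc
  exact continuous_finsetSum _ fun i _ => continuous_const.mul (V_lwl_cm_cont a i)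

theorem V_lwl_exp_cont (a β : ℝ) {k : ℕ} (c : Pa k) :
    Continuous fun t => Real.exp (β * Tc a c t) :=
  Real.continuous_exp.comp (continuous_const.mul (V_lwl_Tc_cont a c))

theorem V_lwl_int {a β : ℝ} {k : ℕ} (c : Pa k) {f : ℝ → ℝ} (hf : Continuous f) :
    IntegrableOn (fun t => f t * Real.exp (β * Tc a c t)) (Ioc 0 a) :=
  ((hf.mul (V_lwl_exp_cont a β c)).continuousOn.integrableOn_compact isCompact_Icc).mono_set
    Ioc_subset_Icc_self

theorem V_lwl_si_pos {a β : ℝ} (ha : 0 < a) {k : ℕ} (c : Pa k) {f : ℝ → ℝ} (hf : Continuous f)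
    (hpos : ∀ t, 0 < f t) : 0 < si a β c f := by
  unfold si
  rw [← intervalIntegral.integral_of_le ha.le]
  apply intervalIntegral.intervalIntegral_pos_of_pos_on
  · exact (hf.mul (V_lwl_exp_cont a β c)).intervalIntegrable _ _
  · intro t _
    exact mul_pos (hpos t) (Real.exp_pos _)
  · exact ha

theorem V_lwl_kp_pos {a b y0 L : ℝ} (hL : 0 < L) (x : ℂ) (t : ℝ) : 0 < kp a b y0 L x t := by
  unfold kp
  have := V_k3_den_pos a b y0 L x t
  positivity

/-- integrability on the product of the rectangle and the period. -/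
theorem V_lwl_intProd {a b : ℝ} {F : ℂ × ℝ → ℝ} (hF : Continuous F) :
    Integrable F ((volume.restrict (rect a b 0)).prod (volume.restrict (Ioc 0 a))) := by
  rw [Measure.prod_restrict, ← Measure.volume_eq_prod]
  obtain ⟨K, hK, hs⟩ := V_k3_crect a b
  have h1 : IntegrableOn F (K ×ˢ Icc 0 a) :=
    hF.continuousOn.integrableOn_compact (hK.prod isCompact_Icc)
  exact h1.mono_set (Set.prod_mono hs Ioc_subset_Icc_self)

theorem V_lwl_exp_tf {a b y0 L β : ℝ} (ha : 0 < a) (hL : 0 < L) {k : ℕ} (c : Pa k) (x : ℂ) :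
    Real.exp (tf a b y0 L β c x) =
      si a β c (kp a b y0 L x) / si a β c (fun _ => 1) := by
  unfold tf
  rw [Real.exp_log]
  exact div_pos (V_lwl_si_pos ha c (V_k3_kp_contt a b y0 L x) fun t => V_lwl_kp_pos hL x t)
    (V_lwl_si_pos ha c continuous_const fun _ => one_pos)

theorem V_lwl_main {a b y0 L β C : ℝ} (ha : 0 < a) (hL : 0 < L) {k : ℕ} (c : Pa k) {w : ℂ → ℝ}
    (hw : Continuous w) (hC : ∀ t, C ≤ ti a b (fun x => w x * kp a b y0 L x t)) :
    C ≤ ti a b (fun z => w z * Real.exp (tf a b y0 L β c z)) := by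
  have hS : 0 < si a β c (fun _ => 1) := V_lwl_si_pos ha c continuous_const fun _ => one_pos
  have hF : Continuous fun q : ℂ × ℝ => w q.1 * (kp a b y0 L q.1 q.2 * Real.exp (β * Tc a c q.2)) :=
    (hw.comp continuous_fst).mul ((V_k3_kp_cont a b y0 L continuous_fst continuous_snd).mul
      ((V_lwl_exp_cont a β c).comp continuous_snd))
  have hint := V_lwl_intProd (a := a) (b := b) hF
  have h1 : ti a b (fun z => w z * Real.exp (tf a b y0 L β c z)) =
      (∫ z in rect a b 0, ∫ t in Ioc 0 a, w z * (kp a b y0 L z t * Real.exp (β * Tc a c t))) /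
        si a β c (fun _ => 1) := by
    unfold ti
    rw [← integral_div]
    refine integral_congr_ae (Eventually.of_forall fun z => ?_)
    show w z * Real.exp (tf a b y0 L β c z) =
      (∫ t in Ioc 0 a, w z * (kp a b y0 L z t * Real.exp (β * Tc a c t))) / si a β c (fun _ => 1)
    rw [V_lwl_exp_tf ha hL c z, integral_const_mul]
    unfold si
    ring
  rw [h1, integral_integral_swap (f := fun z t => w z * (kp a b y0 L z t * Real.exp (β * Tc a c t)))
    hint, le_div_iff₀ hS]
  have h2 : C * si a β c (fun _ => 1) = ∫ t in Ioc 0 a, C * Real.exp (β * Tc a c t) := by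
    unfold si
    simp only [one_mul]
    exact (integral_const_mul _ _).symm
  rw [h2]
  apply integral_mono
  · have := V_lwl_int (a := a) (β := β) c (continuous_const : Continuous fun _ : ℝ => C)
    exact this
  · exact hint.integral_prod_right
  · intro t
    show C * Real.exp (β * Tc a c t) ≤
      ∫ z in rect a b 0, w z * (kp a b y0 L z t * Real.exp (β * Tc a c t))
    have h3 : ∫ z in rect a b 0, w z * (kp a b y0 L z t * Real.exp (β * Tc a c t)) =
        ti a b (fun x => w x * kp a b y0 L x t) * Real.exp (β * Tc a c t) := by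
      unfold ti
      rw [← integral_mul_const]
      refine integral_congr_ae (Eventually.of_forall fun z => ?_)
      show w z * (kp a b y0 L z t * Real.exp (β * Tc a c t)) =
        w z * kp a b y0 L z t * Real.exp (β * Tc a c t)
      ring
    rw [h3]
    exact mul_le_mul_of_nonneg_right (hC t) (Real.exp_pos _).le

theorem pr_V_lwl (hk3 : V_k3) (_ : V_reg) : V_lwl := by
  intro a b y0 r c0 k ha hb hr hc0
  obtain ⟨C, hC, h⟩ := hk3 a b y0 r c0 ha hb hr hc0
  refine ⟨-Real.log C, ?_⟩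
  intro w hw hwp hw0 hwr L β c hL
  rw [neg_neg]
  unfold lw
  apply Real.log_le_log hC
  exact V_lwl_main ha (by linarith) c hw fun t => h w hw hwp hw0 hwr L t hL

end Pool.Agent.Vx

end

section

/-!
# MP_afe918_an, item Vproj: projection to trigonometric polynomials (helper63)
-/

set_option autoImplicit false

open Complex Set Filter Topology MeasureTheory Metric
open scoped Real ContDiff

namespace Pool.Agent.Vx

/-! ### Periodic continuous functions are bounded -/

theorem V_proj_per_int {α : Type} {a b : ℝ} {f : ℂ → α} (hf : Per a b f) (n k : ℤ) (z : ℂ) :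
    f (z + n * a + k * b * I) = f z := by
  have h1 : ∀ (n : ℤ) (z : ℂ), f (z + n * a) = f z := by
    intro n
    induction n using Int.induction_on with
    | zero => intro z; simp
    | succ i ih =>
      intro z
      have e : z + ((i + 1 : ℤ) : ℂ) * a = (z + (i : ℤ) * a) + a := by push_cast; ring
      rw [e, (hf _).1, ih]
    | pred i ih =>
      intro z
      have e : z + ((-i : ℤ) : ℂ) * a = (z + ((-i - 1 : ℤ) : ℂ) * a) + a := by push_cast; ring
      rw [← ih z, e, (hf _).1]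
  have h2 : ∀ (k : ℤ) (z : ℂ), f (z + k * b * I) = f z := by
    intro k
    induction k using Int.induction_on with
    | zero => intro z; simp
    | succ i ih =>
      intro z
      have e : z + ((i + 1 : ℤ) : ℂ) * b * I = (z + (i : ℤ) * b * I) + b * I := by push_cast; ring
      rw [e, (hf _).2, ih]
    | pred i ih =>
      intro z
      have e : z + ((-i : ℤ) : ℂ) * b * I = (z + ((-i - 1 : ℤ) : ℂ) * b * I) + b * I := by
        push_cast; ring
      rw [← ih z, e, (hf _).2]
  rw [h2, h1]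

theorem V_proj_bdd {a b : ℝ} (ha : 0 < a) (hb : 0 < b) {f : ℂ → ℝ} (hc : Continuous f)
    (hf : Per a b f) : ∃ M, ∀ z, |f z| ≤ M := by
  obtain ⟨M, hM⟩ := (isCompact_closedBall (0 : ℂ) (a + b)).exists_bound_of_continuousOn
    hc.continuousOn
  refine ⟨M, fun z => ?_⟩
  set n := ⌊z.re / a⌋
  set k := ⌊z.im / b⌋
  have h1 : f z = f (z - n * a - k * b * I) := by
    have := V_proj_per_int hf n k (z - n * a - k * b * I)
    rw [← this]
    congr 1
    ring
  rw [h1]
  refine hM _ ?_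
  rw [mem_closedBall_zero_iff]
  refine (Complex.norm_le_abs_re_add_abs_im _).trans ?_
  have e1 : (z - n * a - k * b * I).re = z.re - n * a := by simp
  have e2 : (z - n * a - k * b * I).im = z.im - k * b := by simp
  rw [e1, e2]
  have f1 : (n : ℝ) * a ≤ z.re := by
    have := Int.floor_le (z.re / a)
    rwa [le_div_iff₀ ha] at this
  have f2 : z.re ≤ (n : ℝ) * a + a := by
    have := (Int.lt_floor_add_one (z.re / a)).le
    rw [div_le_iff₀ ha] at this
    linarith
  have f3 : (k : ℝ) * b ≤ z.im := by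
    have := Int.floor_le (z.im / b)
    rwa [le_div_iff₀ hb] at this
  have f4 : z.im ≤ (k : ℝ) * b + b := by
    have := (Int.lt_floor_add_one (z.im / b)).le
    rw [div_le_iff₀ hb] at this
    linarith
  have g1 : |z.re - n * a| ≤ a := abs_le.2 ⟨by linarith, by linarith⟩
  have g2 : |z.im - k * b| ≤ b := abs_le.2 ⟨by linarith, by linarith⟩
  linarith

theorem V_proj_BM {a b : ℝ} (ha : 0 < a) (hb : 0 < b) {f : ℂ → ℝ} (hc : Continuous f)
    (hf : Per a b f) : BM a b f := ⟨hc.measurable, hf, V_proj_bdd ha hb hc hf⟩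

theorem V_proj_ti_add (a b : ℝ) {f g : ℂ → ℝ} (hf : Continuous f) (hg : Continuous g) :
    ti a b (fun z => f z + g z) = ti a b f + ti a b g :=
  integral_add (V_low_int hf) (V_low_int hg)

theorem V_proj_ti_sub (a b : ℝ) {f g : ℂ → ℝ} (hf : Continuous f) (hg : Continuous g) :
    ti a b (fun z => f z - g z) = ti a b f - ti a b g :=
  integral_sub (V_low_int hf) (V_low_int hg)

theorem V_proj_ti_cmul (a b c : ℝ) (f : ℂ → ℝ) :
    ti a b (fun z => c * f z) = c * ti a b f := integral_const_mul _ _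

/-! ### Integration by parts -/

theorem V_proj_ti (a b : ℝ) (f : ℂ → ℝ) (hf : Continuous f) :
    ti a b f = (∫ x in Ioo (-(a / 2)) (a / 2), ∫ y in Ioo (-(b / 2)) (b / 2), f (x + y * I)) ∧
    ti a b f = ∫ y in Ioo (-(b / 2)) (b / 2), ∫ x in Ioo (-(a / 2)) (a / 2), f (x + y * I) := by
  set g : ℝ × ℝ → ℝ := fun p => f (p.1 + p.2 * I) with hg
  have hgc : Continuous g := hf.comp (by fun_prop)
  have hrect : rect a b 0 = Complex.measurableEquivRealProd ⁻¹'
      (Ioo (-(a / 2)) (a / 2) ×ˢ Ioo (-(b / 2)) (b / 2)) := by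
    ext z
    simp only [rect, zero_re, zero_im, sub_zero, abs_lt, mem_ofPred_eq, mem_preimage,
      Complex.measurableEquivRealProd_apply, mem_prod, mem_Ioo]
  have h0 : ti a b f = ∫ p in Ioo (-(a / 2)) (a / 2) ×ˢ Ioo (-(b / 2)) (b / 2), g p := by
    rw [← Complex.volume_preserving_equiv_real_prod.setIntegral_preimage_emb
      Complex.measurableEquivRealProd.measurableEmbedding]
    unfold ti
    rw [hrect]
    refine setIntegral_congr_fun (Complex.measurableEquivRealProd.measurable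
      (measurableSet_Ioo.prod measurableSet_Ioo)) fun z _ => ?_
    rw [hg]
    simp only [Complex.measurableEquivRealProd_apply, Complex.re_add_im]
  have hint : IntegrableOn g (Ioo (-(a / 2)) (a / 2) ×ˢ Ioo (-(b / 2)) (b / 2)) := by
    refine (hgc.continuousOn.integrableOn_compact (isCompact_Icc.prod isCompact_Icc)).mono_set
      (prod_mono Ioo_subset_Icc_self Ioo_subset_Icc_self)
  rw [Measure.volume_eq_prod] at h0 hint
  refine ⟨by rw [h0, setIntegral_prod g hint], ?_⟩
  rw [h0, setIntegral_prod g hint]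
  rw [IntegrableOn, ← Measure.prod_restrict] at hint
  exact integral_integral_swap (f := fun x y => g (x, y)) hint

theorem V_proj_zero {a b : ℝ} (ha : 0 < a) (hb : 0 < b) {w wx wy : ℂ → ℝ}
    (h : C1f a b w wx wy) : ti a b wx = 0 ∧ ti a b wy = 0 := by
  constructor
  · rw [(V_proj_ti a b wx h.contx).2]
    refine (setIntegral_congr_fun measurableSet_Ioo fun y _ => ?_).trans
      (integral_zero _ _)
    have hd : ∀ x : ℝ, HasDerivAt (fun s : ℝ => w (s + y * I)) (wx (x + y * I)) x := by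
      intro x
      have h1 := h.dx (x + y * I)
      rw [← sub_self x] at h1
      have h2 := h1.comp_sub_const x x
      refine h2.congr_of_eventuallyEq (Eventually.of_forall fun s => ?_)
      show w (s + y * I) = w (x + y * I + ((s - x : ℝ) : ℂ))
      congr 1
      push_cast
      ring
    have hcx : Continuous fun x : ℝ => wx (x + y * I) := h.contx.comp (by fun_prop)
    show ∫ x in Ioo (-(a / 2)) (a / 2), wx (x + y * I) = 0
    rw [← integral_Ioc_eq_integral_Ioo, ← intervalIntegral.integral_of_le (by linarith),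
      intervalIntegral.integral_eq_sub_of_hasDerivAt (fun x _ => hd x)
        (hcx.intervalIntegrable _ _)]
    have h3 := (h.per (((-(a / 2) : ℝ) : ℂ) + y * I)).1
    have e : ((-(a / 2) : ℝ) : ℂ) + y * I + a = ((a / 2 : ℝ) : ℂ) + y * I := by
      push_cast; ring
    rw [e] at h3
    rw [h3, sub_self]
  · rw [(V_proj_ti a b wy h.conty).1]
    refine (setIntegral_congr_fun measurableSet_Ioo fun x _ => ?_).trans
      (integral_zero _ _)
    have hd : ∀ y : ℝ, HasDerivAt (fun s : ℝ => w (x + s * I)) (wy (x + y * I)) y := by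
      intro y
      have h1 := h.dy (x + y * I)
      rw [← sub_self y] at h1
      have h2 := h1.comp_sub_const y y
      refine h2.congr_of_eventuallyEq (Eventually.of_forall fun s => ?_)
      show w (x + s * I) = w (x + y * I + ((s - y : ℝ) : ℂ) * I)
      congr 1
      push_cast
      ring
    have hcx : Continuous fun y : ℝ => wy (x + y * I) := h.conty.comp (by fun_prop)
    show ∫ y in Ioo (-(b / 2)) (b / 2), wy (x + y * I) = 0
    rw [← integral_Ioc_eq_integral_Ioo, ← intervalIntegral.integral_of_le (by linarith),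
      intervalIntegral.integral_eq_sub_of_hasDerivAt (fun y _ => hd y)
        (hcx.intervalIntegrable _ _)]
    have h3 := (h.per ((x : ℂ) + ((-(b / 2) : ℝ) : ℂ) * I)).2
    have e : (x : ℂ) + ((-(b / 2) : ℝ) : ℂ) * I + b * I = (x : ℂ) + ((b / 2 : ℝ) : ℂ) * I := by
      push_cast; ring
    rw [e] at h3
    rw [h3, sub_self]

theorem V_proj_mul {a b : ℝ} {u ux uy v vx vy : ℂ → ℝ} (hu : C1f a b u ux uy)
    (hv : C1f a b v vx vy) : C1f a b (fun z => u z * v z) (fun z => ux z * v z + u z * vx z)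
      (fun z => uy z * v z + u z * vy z) where
  cont := hu.cont.mul hv.cont
  contx := (hu.contx.mul hv.cont).add (hu.cont.mul hv.contx)
  conty := (hu.conty.mul hv.cont).add (hu.cont.mul hv.conty)
  per z := by
    simp only [(hu.per z).1, (hu.per z).2, (hv.per z).1, (hv.per z).2, and_self]
  perx z := by
    simp only [(hu.per z).1, (hu.per z).2, (hv.per z).1, (hv.per z).2, (hu.perx z).1,
      (hu.perx z).2, (hv.perx z).1, (hv.perx z).2, and_self]
  pery z := by
    simp only [(hu.per z).1, (hu.per z).2, (hv.per z).1, (hv.per z).2, (hu.pery z).1,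
      (hu.pery z).2, (hv.pery z).1, (hv.pery z).2, and_self]
  dx z := by
    have := (hu.dx z).fun_mul (hv.dx z)
    simpa using this
  dy z := by
    have := (hu.dy z).fun_mul (hv.dy z)
    simpa using this

/-! ### The modes -/

theorem V_proj_ph_x (a b : ℝ) (ξ : ℤ × ℤ) (z : ℂ) (t : ℝ) :
    ph a b ξ (z + t) = ph a b ξ z + 2 * π * ξ.1 / a * t := by
  unfold ph
  simp only [add_re, ofReal_re, add_im, ofReal_im, add_zero]
  ring

theorem V_proj_ph_y (a b : ℝ) (ξ : ℤ × ℤ) (z : ℂ) (t : ℝ) :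
    ph a b ξ (z + t * I) = ph a b ξ z + 2 * π * ξ.2 / b * t := by
  unfold ph
  simp only [add_re, mul_re, ofReal_re, I_re, mul_zero, ofReal_im, I_im, mul_one, sub_self,
      add_zero, add_im, mul_im]
  ring

/-- The sign in the derivative of a mode. -/
def V_proj_sg (s : Bool) : ℝ := if s then 1 else -1

theorem V_proj_dm (ξ : ℤ × ℤ) (s : Bool) (a b p c : ℝ) (z : ℂ) (F : ℝ → ℂ)
    (hp : ph a b ξ z = p) (hF : ∀ t, ph a b ξ (F t) = p + c * t) :
    HasDerivAt (fun t : ℝ => md a b (ξ, s) (F t)) (V_proj_sg s * c * md a b (ξ, !s) z) 0 := by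
  have h1 : HasDerivAt (fun t : ℝ => p + c * t) c 0 := by
    simpa using ((hasDerivAt_id (0 : ℝ)).const_mul c).const_add p
  cases s
  · have e : (fun t : ℝ => md a b (ξ, false) (F t)) = fun t => Real.cos (p + c * t) := by
      funext t
      simp [md, hF]
    rw [e]
    have h2 := h1.cos
    convert h2 using 1
    simp [V_proj_sg, md, hp]
    ring
  · have e : (fun t : ℝ => md a b (ξ, true) (F t)) = fun t => Real.sin (p + c * t) := by
      funext t
      simp [md, hF]
    rw [e]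
    have h2 := h1.sin
    convert h2 using 1
    simp [V_proj_sg, md, hp]
    ring

theorem V_proj_md {a b : ℝ} (ha : 0 < a) (hb : 0 < b) (ξ : ℤ × ℤ) (s : Bool) :
    C1f a b (md a b (ξ, s)) (fun z => V_proj_sg s * (2 * π * ξ.1 / a) * md a b (ξ, !s) z)
      (fun z => V_proj_sg s * (2 * π * ξ.2 / b) * md a b (ξ, !s) z) where
  cont := V_low_md_cont a b _
  contx := continuous_const.mul (V_low_md_cont a b _)
  conty := continuous_const.mul (V_low_md_cont a b _)
  per := V_low_md_per ha.ne' hb.ne' _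
  perx z := by
    have h := V_low_md_per ha.ne' hb.ne' (ξ, !s) z
    simp only [h.1, h.2, and_self]
  pery z := by
    have h := V_low_md_per ha.ne' hb.ne' (ξ, !s) z
    simp only [h.1, h.2, and_self]
  dx z := V_proj_dm ξ s a b _ _ z _ rfl fun t => V_proj_ph_x a b ξ z t
  dy z := V_proj_dm ξ s a b _ _ z _ rfl fun t => V_proj_ph_y a b ξ z t

/-- Fourier coefficients of the derivatives. -/
theorem V_proj_hat {a b : ℝ} (ha : 0 < a) (hb : 0 < b) {u ux uy : ℂ → ℝ}
    (hu : C1f a b u ux uy) (ξ : ℤ × ℤ) (s : Bool) :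
    ti a b (fun z => ux z * md a b (ξ, s) z) =
      -(V_proj_sg s * (2 * π * ξ.1 / a)) * ti a b (fun z => u z * md a b (ξ, !s) z) ∧
    ti a b (fun z => uy z * md a b (ξ, s) z) =
      -(V_proj_sg s * (2 * π * ξ.2 / b)) * ti a b (fun z => u z * md a b (ξ, !s) z) := by
  obtain ⟨h1, h2⟩ := V_proj_zero ha hb (V_proj_mul hu (V_proj_md ha hb ξ s))
  have hm := V_low_md_cont a b (ξ, s)
  have hm' := V_low_md_cont a b (ξ, !s)
  have i1 : IntegrableOn (fun z => ux z * md a b (ξ, s) z) (rect a b 0) :=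
    V_low_int (hu.contx.mul hm)
  have i2 : IntegrableOn (fun z => uy z * md a b (ξ, s) z) (rect a b 0) :=
    V_low_int (hu.conty.mul hm)
  have i3 : ∀ c : ℝ, IntegrableOn (fun z => u z * (c * md a b (ξ, !s) z)) (rect a b 0) :=
    fun c => V_low_int (hu.cont.mul (continuous_const.mul hm'))
  have e : ∀ c : ℝ, ti a b (fun z => u z * (c * md a b (ξ, !s) z)) =
      c * ti a b (fun z => u z * md a b (ξ, !s) z) := by
    intro c
    unfold ti
    rw [← integral_const_mul]
    congr 1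
    funext z
    ring
  constructor
  · have h3 : ti a b (fun z => ux z * md a b (ξ, s) z) +
        ti a b (fun z => u z * (V_proj_sg s * (2 * π * ξ.1 / a) * md a b (ξ, !s) z)) = 0 := by
      rw [← h1]
      unfold ti
      rw [← integral_add i1 (i3 _)]
    rw [e] at h3
    linarith
  · have h3 : ti a b (fun z => uy z * md a b (ξ, s) z) +
        ti a b (fun z => u z * (V_proj_sg s * (2 * π * ξ.2 / b) * md a b (ξ, !s) z)) = 0 := by
      rw [← h2]
      unfold ti
      rw [← integral_add i2 (i3 _)]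
    rw [e] at h3
    linarith

/-- The sum of the energies of the Fourier coefficients of the derivatives. -/
theorem V_proj_sum {a b : ℝ} (ha : 0 < a) (hb : 0 < b) {u ux uy : ℂ → ℝ}
    (hu : C1f a b u ux uy) (m : ℕ) :
    (∑ i : hm m × Bool, ti a b (fun z => ux z * md a b (i.1.1, i.2) z) ^ 2) +
      ∑ i : hm m × Bool, ti a b (fun z => uy z * md a b (i.1.1, i.2) z) ^ 2 =
      ∑ i : hm m × Bool, nu a b i.1.1 * ti a b (fun z => u z * md a b (i.1.1, i.2) z) ^ 2 := by
  rw [Fintype.sum_prod_type, Fintype.sum_prod_type, Fintype.sum_prod_type,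
    ← Finset.sum_add_distrib]
  refine Finset.sum_congr rfl fun ξ _ => ?_
  rw [Fintype.sum_bool, Fintype.sum_bool, Fintype.sum_bool]
  have h1 := V_proj_hat ha hb hu ξ.1 true
  have h2 := V_proj_hat ha hb hu ξ.1 false
  rw [h1.1, h1.2, h2.1, h2.2]
  simp only [V_proj_sg, nu, Bool.not_true, Bool.not_false]
  simp only [if_true, Bool.false_eq_true, if_false]
  ring

/-- Bessel's inequality for the derivatives. -/
theorem V_proj_bes (hBes : V_Bes) {a b : ℝ} (ha : 0 < a) (hb : 0 < b) {u ux uy : ℂ → ℝ}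
    (hu : C1f a b u ux uy) (m : ℕ) :
    2 / (a * b) * (∑ i : hm m × Bool,
      nu a b i.1.1 * ti a b (fun z => u z * md a b (i.1.1, i.2) z) ^ 2) ≤
      ti a b (fun z => ux z ^ 2 + uy z ^ 2) := by
  have h1 := (hBes a b ha hb).1 ux (V_proj_BM ha hb hu.contx hu.perx) m
  have h2 := (hBes a b ha hb).1 uy (V_proj_BM ha hb hu.conty hu.pery) m
  have h3 : ti a b (fun z => ux z ^ 2 + uy z ^ 2) =
      ti a b (fun z => ux z ^ 2) + ti a b (fun z => uy z ^ 2) :=
    integral_add (V_low_int (hu.contx.pow 2)) (V_low_int (hu.conty.pow 2))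
  have h4 : 0 ≤ 1 / (a * b) * (ti a b ux) ^ 2 := by positivity
  have h5 : 0 ≤ 1 / (a * b) * (ti a b uy) ^ 2 := by positivity
  rw [← V_proj_sum ha hb hu m, h3, mul_add]
  linarith

/-- Modes outside `hm m` have a large eigenvalue. -/
theorem V_proj_nu {a b : ℝ} (ha : 0 < a) (hb : 0 < b) {m M : ℕ} {ξ : ℤ × ℤ}
    (h1 : ξ ∈ hm M) (h2 : ξ ∉ hm m) :
    4 * π ^ 2 * m ^ 2 / (max a b) ^ 2 ≤ nu a b ξ := by
  have hM : 0 < max a b := lt_max_of_lt_left ha
  have h3 : ((m : ℝ) < |(ξ.1 : ℝ)|) ∨ ((m : ℝ) < |(ξ.2 : ℝ)|) := by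
    by_contra hcon
    push Not at hcon
    obtain ⟨h4, h5⟩ := hcon
    apply h2
    simp only [hm, Finset.mem_filter, Finset.mem_product, Finset.mem_Icc] at h1 ⊢
    rw [abs_le] at h4 h5
    refine ⟨⟨⟨?_, ?_⟩, ⟨?_, ?_⟩⟩, h1.2⟩
    · have := h4.1
      exact_mod_cast this
    · have := h4.2
      exact_mod_cast this
    · have := h5.1
      exact_mod_cast this
    · have := h5.2
      exact_mod_cast this
  have key : ∀ (x c : ℝ), 0 < c → c ≤ max a b → (m : ℝ) < |x| →
      (m : ℝ) ^ 2 / (max a b) ^ 2 ≤ (x / c) ^ 2 := by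
    intro x c hc hcm hx
    rw [div_pow]
    have e1 : (m : ℝ) ^ 2 ≤ x ^ 2 := by
      rw [← sq_abs x]
      exact pow_le_pow_left₀ (Nat.cast_nonneg m) hx.le 2
    have e2 : c ^ 2 ≤ (max a b) ^ 2 := pow_le_pow_left₀ hc.le hcm 2
    exact div_le_div₀ (sq_nonneg x) e1 (by positivity) e2
  unfold nu
  rw [mul_div_assoc]
  refine mul_le_mul_of_nonneg_left ?_ (by positivity)
  rcases h3 with h3 | h3
  · have := key _ a ha (le_max_left _ _) h3
    have h6 := sq_nonneg ((ξ.2 : ℝ) / b)
    linarith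
  · have := key _ b hb (le_max_right _ _) h3
    have h6 := sq_nonneg ((ξ.1 : ℝ) / a)
    linarith

theorem V_proj_sub {m M : ℕ} (h : m ≤ M) {ξ : ℤ × ℤ} (hξ : ξ ∈ hm m) : ξ ∈ hm M := by
  simp only [hm, Finset.mem_filter, Finset.mem_product, Finset.mem_Icc] at hξ ⊢
  have : (m : ℤ) ≤ M := by exact_mod_cast h
  exact ⟨⟨⟨by linarith [hξ.1.1.1], by linarith [hξ.1.1.2]⟩,
    ⟨by linarith [hξ.1.2.1], by linarith [hξ.1.2.2]⟩⟩, hξ.2⟩

/-- Projection to trigonometric polynomials. -/
theorem pr_V_proj (hPars : V_Pars) (hBes : V_Bes) (horth : V_orth) (htr : V_tr) : V_proj := by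
  intro a b ha hb
  have hab : 0 < a * b := mul_pos ha hb
  refine ⟨(max a b) ^ 2 / (4 * π ^ 2), ?_⟩
  intro u ux uy m hu hm
  have hmax : 0 < max a b := lt_max_of_lt_left ha
  constructor
  · refine le_trans (le_of_eq ?_) (V_proj_bes hBes ha hb hu m)
    unfold en pj
    rw [Finset.mul_sum, Finset.mul_sum]
    refine Finset.sum_congr rfl fun i _ => ?_
    show a * b / 2 * (nu a b i.1.1 * (2 / (a * b) * ti a b (fun z => u z *
      md a b (i.1.1, i.2) z)) ^ 2) = _
    field_simp
  · set c : Co m := pj a b m u with hc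
    set f : ℂ → ℝ := fun z => u z - 1 / (a * b) * ti a b u - tp a b m c z with hf
    have htpc := V_low_tp_cont a b m c
    have hfc : Continuous f := (hu.cont.sub continuous_const).sub htpc
    have hfp : Per a b f := by
      intro z
      have h1 := hu.per z
      have h2 := V_low_tp_per ha.ne' hb.ne' m c z
      simp only [hf, h1.1, h1.2, h2.1, h2.2, and_self]
    have hfB := V_proj_BM ha hb hfc hfp
    obtain ⟨-, -, hom⟩ := horth a b ha hb m
    obtain ⟨-, -, htp0, htpi⟩ := hom c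
    have iu : IntegrableOn u (rect a b 0) := V_low_int hu.cont
    have itp : IntegrableOn (tp a b m c) (rect a b 0) := V_low_int htpc
    have hti0 : ti a b f = 0 := by
      have h1 : ti a b f = ti a b u - ti a b (fun _ => 1 / (a * b) * ti a b u) -
          ti a b (tp a b m c) := by
        have e1 : Continuous (fun z => u z - 1 / (a * b) * ti a b u) :=
          hu.cont.sub continuous_const
        rw [← V_proj_ti_sub a b hu.cont continuous_const, ← V_proj_ti_sub a b e1 htpc]
      rw [h1, htp0, (htr a b ha hb).1]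
      field_simp
      ring
    -- the Fourier coefficients of `f`
    have hhat : ∀ (M : ℕ) (i : Vx.hm M × Bool),
        ti a b (fun z => f z * md a b (i.1.1, i.2) z) =
          ti a b (fun z => u z * md a b (i.1.1, i.2) z) -
            ti a b (fun z => tp a b m c z * md a b (i.1.1, i.2) z) := by
      intro M i
      have hmc := V_low_md_cont a b (i.1.1, i.2)
      have h0 := ((horth a b ha hb M).1 i)
      have j1 : Continuous (fun z => u z * md a b (i.1.1, i.2) z) := hu.cont.mul hmc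
      have j2 : Continuous (fun z => 1 / (a * b) * ti a b u * md a b (i.1.1, i.2) z) :=
        continuous_const.mul hmc
      have j3 : Continuous (fun z => tp a b m c z * md a b (i.1.1, i.2) z) := htpc.mul hmc
      have h1 : ti a b (fun z => f z * md a b (i.1.1, i.2) z) =
          ti a b (fun z => u z * md a b (i.1.1, i.2) z) -
          ti a b (fun z => 1 / (a * b) * ti a b u * md a b (i.1.1, i.2) z) -
          ti a b (fun z => tp a b m c z * md a b (i.1.1, i.2) z) := by
        have e1 : Continuous (fun z => u z * md a b (i.1.1, i.2) z -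
          1 / (a * b) * ti a b u * md a b (i.1.1, i.2) z) := j1.sub j2
        rw [← V_proj_ti_sub a b j1 j2, ← V_proj_ti_sub a b e1 j3]
        congr 1
        funext z
        simp only [hf]
        ring
      have h2 : ti a b (fun z => 1 / (a * b) * ti a b u * md a b (i.1.1, i.2) z) = 0 := by
        rw [V_proj_ti_cmul, h0, mul_zero]
      rw [h1, h2, sub_zero]
    have hin : ∀ (M : ℕ) (i : Vx.hm M × Bool), i.1.1 ∈ Vx.hm m →
        ti a b (fun z => f z * md a b (i.1.1, i.2) z) = 0 := by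
      intro M i hi
      rw [hhat M i]
      have h1 := htpi (⟨i.1.1, hi⟩, i.2)
      have h2 : c (⟨i.1.1, hi⟩, i.2) = 2 / (a * b) *
        ti a b (fun z => u z * md a b (i.1.1, i.2) z) := rfl
      rw [h2] at h1
      simp only at h1
      rw [h1]
      field_simp
      ring
    have hout : ∀ (M : ℕ) (i : Vx.hm M × Bool), m ≤ M → i.1.1 ∉ Vx.hm m →
        ti a b (fun z => f z * md a b (i.1.1, i.2) z) =
          ti a b (fun z => u z * md a b (i.1.1, i.2) z) := by
      intro M i hmM hi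
      rw [hhat M i]
      have h1 : ti a b (fun z => tp a b m c z * md a b (i.1.1, i.2) z) = 0 := by
        have h2 : ti a b (fun z => tp a b m c z * md a b (i.1.1, i.2) z) =
            ∑ j : Vx.hm m × Bool, c j *
              ti a b (fun z => md a b (j.1.1, j.2) z * md a b (i.1.1, i.2) z) := by
          unfold ti tp
          simp only [Finset.sum_mul]
          rw [integral_finsetSum]
          · refine Finset.sum_congr rfl fun j _ => ?_
            rw [← integral_const_mul]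
            congr 1
            funext z
            ring
          · intro j _
            exact V_low_int ((continuous_const.mul (V_low_md_cont a b _)).mul
              (V_low_md_cont a b _))
        rw [h2]
        refine Finset.sum_eq_zero fun j _ => ?_
        have h3 := (horth a b ha hb M).2.1 (⟨j.1.1, V_proj_sub hmM j.1.2⟩, j.2) i
        simp only at h3
        rw [h3, if_neg, mul_zero]
        intro h4
        apply hi
        rw [← h4]
        exact j.1.2
      rw [h1, sub_zero]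
    have hP := hPars a b ha hb f f hfB hfB
    have hm' : (0 : ℝ) < m := by exact_mod_cast hm
    have hbound : ∀ᶠ M : ℕ in atTop, 1 / (a * b) * (ti a b f * ti a b f) +
        2 / (a * b) * ∑ i : Vx.hm M × Bool, ti a b (fun z => f z * md a b (i.1.1, i.2) z) *
          ti a b (fun z => f z * md a b (i.1.1, i.2) z) ≤
        (max a b) ^ 2 / (4 * π ^ 2) / m ^ 2 * ti a b (fun z => ux z ^ 2 + uy z ^ 2) := by
      filter_upwards [eventually_ge_atTop m] with M hM
      rw [hti0, mul_zero, mul_zero, zero_add]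
      have h1 := V_proj_bes hBes ha hb hu M
      have h2 : ∑ i : Vx.hm M × Bool, ti a b (fun z => f z * md a b (i.1.1, i.2) z) *
          ti a b (fun z => f z * md a b (i.1.1, i.2) z) ≤
          (max a b) ^ 2 / (4 * π ^ 2) / m ^ 2 * ∑ i : Vx.hm M × Bool,
            nu a b i.1.1 * ti a b (fun z => u z * md a b (i.1.1, i.2) z) ^ 2 := by
        rw [Finset.mul_sum]
        refine Finset.sum_le_sum fun i _ => ?_
        by_cases hi : i.1.1 ∈ Vx.hm m
        · rw [hin M i hi]
          have h3 : 0 ≤ nu a b i.1.1 := by unfold nu; positivity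
          have h4 : 0 ≤ (max a b) ^ 2 / (4 * π ^ 2) / (m : ℝ) ^ 2 := by positivity
          rw [mul_zero]
          exact mul_nonneg h4 (mul_nonneg h3 (sq_nonneg _))
        · rw [hout M i hM hi, ← sq]
          have h3 := V_proj_nu ha hb i.1.2 hi
          have h4 : 1 ≤ (max a b) ^ 2 / (4 * π ^ 2) / m ^ 2 * nu a b i.1.1 := by
            rw [div_le_iff₀ (by positivity)] at h3
            rw [div_div, div_mul_eq_mul_div, le_div_iff₀ (by positivity)]
            linarith
          have h5 := mul_le_mul_of_nonneg_right h4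
            (sq_nonneg (ti a b (fun z => u z * md a b (i.1.1, i.2) z)))
          linarith
      have h6 : 0 < 2 / (a * b) := by positivity
      have h7 := mul_le_mul_of_nonneg_left h2 h6.le
      have h8 : 0 ≤ (max a b) ^ 2 / (4 * π ^ 2) / m ^ 2 := by positivity
      have h9 := mul_le_mul_of_nonneg_left h1 h8
      calc _ ≤ _ := h7
        _ = _ := by ring
        _ ≤ _ := h9
    have hfin := le_of_tendsto hP hbound
    have e : (fun z => f z * f z) =
        fun z => (u z - 1 / (a * b) * ti a b u - tp a b m c z) ^ 2 := by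
      funext z
      simp only [hf]
      ring
    rw [e] at hfin
    exact hfin

end Pool.Agent.Vx

end

section

/-!
# MP_afe918_an, block W: auxiliary lemmas (helper86)
-/

set_option autoImplicit false

open Complex Set Filter Topology MeasureTheory Metric
open scoped Real ContDiff ComplexConjugate

namespace Pool.Agent.Vx

/-- Bounds for all large indices and for every single index give uniform bounds. -/
theorem W_evall (P : ℕ → ℝ → Prop) (mono : ∀ j C C', C ≤ C' → P j C → P j C')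
    (h1 : ∀ j, ∃ C, P j C) (h2 : ∃ C, ∀ᶠ j in atTop, P j C) : ∃ C, ∀ j, P j C := by
  obtain ⟨C, hC⟩ := h2
  obtain ⟨J, hJ⟩ := eventually_atTop.1 hC
  choose c hc using h1
  refine ⟨max C (∑ i ∈ Finset.range J, |c i|), fun j => ?_⟩
  rcases le_or_gt J j with h | h
  · exact mono j _ _ (le_max_left _ _) (hJ j h)
  · refine mono j _ _ ?_ (hc j)
    refine le_trans (le_abs_self _) (le_trans ?_ (le_max_right _ _))
    exact Finset.single_le_sum (f := fun i => |c i|) (fun i _ => abs_nonneg _)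
      (Finset.mem_range.2 h)

/-- A continuous function is bounded by a multiple of a positive number on a bounded set. -/
theorem W_bdd (E : ℂ → ℝ) (hE : Continuous E) (ρ k : ℝ) (hk : 0 < k) :
    ∃ C, ∀ z ∈ closedBall (0 : ℂ) ρ, E z ≤ C * k := by
  obtain ⟨C, hC⟩ := (isCompact_closedBall (0 : ℂ) ρ).bddAbove_image hE.continuousOn
  refine ⟨C / k, fun z hz => ?_⟩
  rw [div_mul_cancel₀ _ hk.ne']
  exact hC ⟨z, hz, rfl⟩

/-- The masses of a `PL` sequence are bounded. -/
theorem W_mass {r H Λ : ℝ} {R lam eta : ℕ → ℝ} {h : ℕ → ℂ → ℂ} {E : ℕ → ℂ → ℝ}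
    (hp : PL r H Λ R lam eta h E) : ∃ M, 0 ≤ M ∧ ∀ j, ms (r / R j) (E j) ≤ M := by
  obtain ⟨M, hM⟩ := (Metric.isBounded_range_of_tendsto _ hp.mass).bddAbove
  exact ⟨max M 0, le_max_right _ _, fun j => le_trans (hM ⟨j, rfl⟩) (le_max_left _ _)⟩

/-- The radius of a `PL` sequence is more than 8. -/
theorem W_rad {r H Λ : ℝ} {R lam eta : ℕ → ℝ} {h : ℕ → ℂ → ℂ} {E : ℕ → ℂ → ℝ}
    (hp : PL r H Λ R lam eta h E) (j : ℕ) : 8 < r / R j := by
  rw [lt_div_iff₀ (hp.Rpos j)]
  exact hp.small j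

/-- The radius of a `PL` sequence tends to infinity. -/
theorem W_radT {r H Λ : ℝ} {R lam eta : ℕ → ℝ} {h : ℕ → ℂ → ℂ} {E : ℕ → ℂ → ℝ}
    (hp : PL r H Λ R lam eta h E) : Tendsto (fun j => r / R j) atTop atTop := by
  have h1 : Tendsto (fun j => (R j)⁻¹) atTop atTop := by
    apply Tendsto.comp tendsto_inv_nhdsGT_zero
    rw [tendsto_nhdsWithin_iff]
    exact ⟨hp.R0, Eventually.of_forall hp.Rpos⟩
  have h2 := h1.const_mul_atTop hp.rpos
  simpa [div_eq_mul_inv] using h2

theorem pr_WSub : S_WSub := by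
  intro r H Λ R lam eta h E φ hp hφ
  have ht := hφ.tendsto_atTop
  exact
    { rpos := hp.rpos
      Rpos := fun j => hp.Rpos _
      R0 := hp.R0.comp ht
      small := fun j => hp.small _
      loc := fun j => hp.loc _
      lamb := fun j => hp.lamb _
      hH := fun j => hp.hH _
      mass := hp.mass.comp ht
      half := fun j => hp.half _
      ang := hp.ang.comp ht
      etapos := fun j => hp.etapos _
      etaeq := fun j => hp.etaeq _
      out := fun s hs => by
        obtain ⟨C, hC⟩ := hp.out s hs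
        exact ⟨C, fun j => hC _⟩ }

end Pool.Agent.Vx

end

section

/-!
# MP_afe918_an: item cDown (helper73)
-/

set_option autoImplicit false

open Complex Set Filter Topology MeasureTheory Metric
open scoped Real ContDiff ComplexConjugate

namespace Pool.Agent.Vx

/-- The kernel of the potential is integrable. -/
theorem cDown_int {E : ℂ → ℝ} (hE : Continuous E) (hn : ∀ z, 0 ≤ E z) {r : ℝ} (hr : 0 < r)
    (hr8 : r ≤ 1 / 8) {z : ℂ} (hz : ‖z‖ < r) :
    IntegrableOn (fun y => Real.log ‖z - y‖ * E y) (ball (0 : ℂ) r) := by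
  obtain ⟨M, hM⟩ := (isCompact_closedBall (0 : ℂ) r).exists_bound_of_continuousOn hE.continuousOn
  have h1 := (pr_Riesz (0 : ℂ) z r hr).1
  have h2 : IntegrableOn (fun y => M * (1 / ‖z - y‖)) (ball (0 : ℂ) r) := h1.const_mul M
  refine Integrable.mono' h2 ?_ ?_
  · apply Measurable.aestronglyMeasurable
    exact (Real.measurable_log.comp ((measurable_const.sub measurable_id).norm)).mul
      hE.measurable
  · refine (ae_restrict_iff' measurableSet_ball).2 (Eventually.of_forall fun y hy => ?_)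
    have hy' : ‖y‖ < r := by simpa using hy
    have hM' : E y ≤ M := by
      have := hM y (ball_subset_closedBall hy)
      rwa [Real.norm_eq_abs, abs_of_nonneg (hn y)] at this
    rw [norm_mul, Real.norm_eq_abs, Real.norm_eq_abs, abs_of_nonneg (hn y), mul_comm]
    have hM0 : 0 ≤ M := (hn y).trans hM'
    rcases eq_or_lt_of_le (norm_nonneg (z - y)) with h0 | h0
    · rw [← h0]; simp
    have hlt : ‖z - y‖ < 1 := by
      have := norm_sub_le z y
      linarith
    have hl : |Real.log ‖z - y‖| ≤ 1 / ‖z - y‖ := by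
      rw [abs_of_nonpos (Real.log_nonpos h0.le hlt.le), ← Real.log_inv]
      have := Real.log_le_sub_one_of_pos (inv_pos.2 h0)
      rw [one_div]
      linarith
    exact mul_le_mul hM' hl (abs_nonneg _) hM0

/-- Lower bound for the potential. -/
theorem cDown_pot {E : ℂ → ℝ} (hE : Continuous E) (hn : ∀ z, 0 ≤ E z) {r d : ℝ} (hr : 0 < r)
    (hr8 : r ≤ 1 / 8) (hd : 0 < d) {z : ℂ} (hz : ‖z‖ < r / 2) (hdz : 2 * d ≤ ‖z‖) :
    -(1 / (2 * π)) * (ms d E * Real.log (2 * ‖z‖)) ≤ pot r E z := by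
  have hI := cDown_int hE hn hr hr8 (z := z) (by linarith)
  have hz0 : 0 < ‖z‖ := by linarith
  unfold pot
  have hπ : 0 < 1 / (2 * π) := by positivity
  have hsub : ball (0 : ℂ) d ⊆ ball 0 r := ball_subset_ball (by linarith)
  have hle : ∫ y in ball (0 : ℂ) r, Real.log ‖z - y‖ * E y ≤ ms d E * Real.log (2 * ‖z‖) := by
    have hneg : ∀ y ∈ ball (0 : ℂ) r, Real.log ‖z - y‖ * E y ≤ 0 := by
      intro y hy
      have hy' : ‖y‖ < r := by simpa using hy
      refine mul_nonpos_of_nonpos_of_nonneg (Real.log_nonpos (norm_nonneg _) ?_) (hn y)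
      have := norm_sub_le z y
      linarith
    have hint : IntegrableOn E (ball (0 : ℂ) d) :=
      (hE.continuousOn.integrableOn_compact (isCompact_closedBall (0 : ℂ) d)).mono_set
        ball_subset_closedBall
    calc ∫ y in ball (0 : ℂ) r, Real.log ‖z - y‖ * E y
        ≤ ∫ y in ball (0 : ℂ) d, Real.log ‖z - y‖ * E y := by
          have h1 : ∫ y in ball (0 : ℂ) d, -(Real.log ‖z - y‖ * E y) ≤
              ∫ y in ball (0 : ℂ) r, -(Real.log ‖z - y‖ * E y) := by
            apply setIntegral_mono_set hI.neg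
            · exact (ae_restrict_iff' measurableSet_ball).2
                (Eventually.of_forall fun y hy => by
                  have := hneg y hy
                  simp only [Pi.zero_apply, Pi.neg_apply]
                  linarith)
            · exact LE.le.eventuallyLE hsub
          rw [integral_neg, integral_neg] at h1
          linarith
      _ ≤ ∫ y in ball (0 : ℂ) d, E y * Real.log (2 * ‖z‖) := by
          refine setIntegral_mono_on (hI.mono_set hsub) (hint.mul_const _) measurableSet_ball ?_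
          intro y hy
          have hy' : ‖y‖ < d := by simpa using hy
          have h1 : ‖z - y‖ ≤ 2 * ‖z‖ := by
            have := norm_sub_le z y
            linarith
          have h2 : 0 < ‖z - y‖ := by
            have := norm_sub_norm_le z y
            linarith
          rw [mul_comm]
          exact mul_le_mul_of_nonneg_left (Real.log_le_log h2 h1) (hn y)
      _ = ms d E * Real.log (2 * ‖z‖) := by
          rw [integral_mul_const]; rfl
  have := mul_le_mul_of_nonneg_left hle hπ.le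
  linarith

/-- Translation of an integral over a ball. -/
theorem cDown_tr (E : ℂ → ℝ) (q : ℂ) (s : ℝ) :
    ms s (fun z => E (q + z)) = ∫ z in ball q s, E z := by
  unfold ms
  have h := (measurePreserving_add_left (volume : Measure ℂ) q).setIntegral_preimage_emb
    (MeasurableEquiv.addLeft q).measurableEmbedding E (ball q s)
  have h2 : (fun x => q + x) ⁻¹' ball q s = ball (0 : ℂ) s := by
    ext x; simp [mem_ball, dist_eq_norm]
  rw [h2] at h
  exact h

theorem pr_cDown (h1 : S_LocRep) (h2 : S_Ti) : S_cDown := by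
  intro a b F m p n ρ v c q hS hconc
  have ha := hS.th.apos
  have hb := hS.th.bpos
  obtain ⟨r0, hr0, hloc⟩ := h1 a b F m p n hS.th hS.dist q
  obtain ⟨r, hr, hrr0, hr8, hra, hrb⟩ : ∃ r : ℝ, 0 < r ∧ r ≤ r0 ∧ r ≤ 1 / 8 ∧ r ≤ a / 4 ∧
      r ≤ b / 4 := by
    refine ⟨min (min r0 (1 / 8)) (min (a / 4) (b / 4)), ?_, ?_, ?_, ?_, ?_⟩
    · positivity
    · exact (min_le_left _ _).trans (min_le_left _ _)
    · exact (min_le_left _ _).trans (min_le_right _ _)
    · exact (min_le_right _ _).trans (min_le_left _ _)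
    · exact (min_le_right _ _).trans (min_le_right _ _)
  obtain ⟨C, hC⟩ := hloc r hr hrr0
  set N : ℝ := (Nv n : ℝ) with hN
  have hN0 : 0 ≤ N := Nat.cast_nonneg _
  set k : ℕ := nq a b p n q with hk
  rw [tendsto_atBot]
  intro K
  by_contra hcon
  -- the constant
  set L : ℝ := (4 * π * N) / (a * b) / 4 * r ^ 2 with hL
  have hL0 : 0 ≤ L := by positivity
  have hC0 : 0 ≤ C := by
    obtain ⟨h, -, h5, -⟩ := hC (ρ 0) (v 0) (c 0) (hS.pos 0) (hS.le 0) (hS.sol 0)
    exact (abs_nonneg _).trans h5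
  set B : ℝ := K - C - C * r - L - 1 with hB
  set c0 : ℝ := Real.exp B * (2 : ℝ) ^ (-(4 * (1 + k) : ℝ)) with hc0
  have hc0p : 0 < c0 := by positivity
  -- choice of `t`
  obtain ⟨t, ht0, htr, hmass⟩ : ∃ t : ℝ, 0 < t ∧ 4 * t < r ∧
      4 * π * N < c0 / (2 * t) ^ 4 * (3 * π * t ^ 2) := by
    have hlim : Tendsto (fun t : ℝ => c0 * 3 * π / 16 * (t ^ 2)⁻¹) (𝓝[>] 0) atTop := by
      apply Tendsto.const_mul_atTop (by positivity)
      have h3 : Tendsto (fun t : ℝ => t ^ 2) (𝓝[>] 0) (𝓝[>] 0) := by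
        apply tendsto_nhdsWithin_iff.2
        refine ⟨?_, ?_⟩
        · have : Tendsto (fun t : ℝ => t ^ 2) (𝓝 0) (𝓝 (0 ^ 2)) := (continuous_pow 2).tendsto 0
          rw [zero_pow two_ne_zero] at this
          exact this.mono_left nhdsWithin_le_nhds
        · filter_upwards [self_mem_nhdsWithin] with t ht
          exact pow_pos (show (0 : ℝ) < t from ht) 2
      exact tendsto_inv_nhdsGT_zero.comp h3
    have e1 := hlim.eventually_gt_atTop (4 * π * N)
    have e2 : ∀ᶠ t : ℝ in 𝓝[>] 0, t < r / 4 := by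
      apply eventually_nhdsWithin_of_eventually_nhds
      exact eventually_lt_nhds (by positivity)
    obtain ⟨t, h5, h6, h7⟩ := (e1.and (e2.and self_mem_nhdsWithin)).exists
    have h7' : (0 : ℝ) < t := h7
    refine ⟨t, h7', by linarith, lt_of_lt_of_eq h5 ?_⟩
    field_simp
    ring
  -- the error
  have hlog : 0 < Real.log (1 / (2 * t)) := by
    apply Real.log_pos
    rw [lt_div_iff₀ (by positivity)]
    linarith
  set ε : ℝ := 2 * π / Real.log (1 / (2 * t)) with hε
  have hεp : 0 < ε := by positivity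
  have hev := hconc (t / 2) (by positivity) ε hεp
  have hfr : ∃ᶠ j in atTop, ¬ c j ≤ K := not_eventually.1 hcon
  obtain ⟨j, hj1, hj2⟩ := (hfr.and_eventually hev).exists
  have hj1' : K < c j := not_le.1 hj1
  obtain ⟨h, hL1, hh0, hhd, -, -⟩ := hC (ρ j) (v j) (c j) (hS.pos j) (hS.le j) (hS.sol j)
  set E : ℂ → ℝ := fun z => dE a b F p n (v j) (q + z) with hE
  have hEc : Continuous E := hL1.cont
  have hEn : ∀ z, 0 ≤ E z := hL1.nonneg
  have hms : 8 * π * (1 + k) - ε ≤ ms (t / 2) E := by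
    rw [hE, cDown_tr]
    exact hj2
  -- lower bound on the annulus
  have hlow : ∀ z : ℂ, t ≤ ‖z‖ → ‖z‖ < 2 * t → c0 / (2 * t) ^ 4 ≤ E z := by
    intro z hz1 hz2
    have hzp : 0 < ‖z‖ := by linarith
    have hzr : ‖z‖ < r / 2 := by linarith
    have hzb : z ∈ ball (0 : ℂ) r := by
      rw [mem_ball_zero_iff]; linarith
    rw [hL1.rep z hzb]
    have hpot := cDown_pot hEc hEn hr hr8 (d := t / 2) (by positivity) hzr (by linarith)
    -- the holomorphic part
    have hre : 2 * (h 0).re - 2 * (C * ‖z‖) ≤ 2 * (h z).re := by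
      have hmv : ‖h z - h 0‖ ≤ C * ‖z - 0‖ := by
        refine Convex.norm_image_sub_le_of_norm_deriv_le (s := ball (0 : ℂ) (r / 2))
          (fun x hx => ?_) (fun x hx => hhd x hx) (convex_ball _ _) ?_ ?_
        · refine (hL1.an x ?_).differentiableAt (isOpen_ball.mem_nhds ?_)
          · exact ball_subset_ball (by linarith) hx
          · exact ball_subset_ball (by linarith) hx
        · exact mem_ball_self (by positivity)
        · rw [mem_ball_zero_iff]; exact hzr
      rw [sub_zero] at hmv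
      have h8 : |(h z - h 0).re| ≤ C * ‖z‖ := (Complex.abs_re_le_norm _).trans hmv
      rw [Complex.sub_re, abs_le] at h8
      linarith [h8.1]
    have hre2 : K - C - C * r ≤ 2 * (h z).re := by
      have h9 := (abs_le.1 hh0).1
      have h10 : 2 * (C * ‖z‖) ≤ C * r := by nlinarith
      linarith
    have hlam : (4 * π * N - ρ j) / (a * b) / 4 * ‖z‖ ^ 2 ≤ L := by
      rw [hL]
      have hab : 0 < a * b := by positivity
      have h11 : (4 * π * N - ρ j) / (a * b) / 4 ≤ (4 * π * N) / (a * b) / 4 := by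
        have := hS.pos j
        gcongr
        linarith
      have h12 : ‖z‖ ^ 2 ≤ r ^ 2 := by
        have : ‖z‖ ≤ r := by linarith
        gcongr
      exact mul_le_mul h11 h12 (by positivity) (by positivity)
    -- the potential
    have hlz : Real.log (2 * ‖z‖) < 0 := by
      apply Real.log_neg (by positivity)
      linarith
    have hlz2 : -Real.log (2 * ‖z‖) ≤ Real.log (1 / (2 * t)) := by
      rw [one_div, Real.log_inv, neg_le_neg_iff]
      exact Real.log_le_log (by positivity) (by linarith)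
    have hpot2 : -(4 * (1 + k)) * Real.log (2 * ‖z‖) - 1 ≤ pot r E z := by
      refine le_trans ?_ hpot
      have h13 : (8 * π * (1 + k) - ε) * (-Real.log (2 * ‖z‖)) ≤
          ms (t / 2) E * (-Real.log (2 * ‖z‖)) :=
        mul_le_mul_of_nonneg_right hms (by linarith)
      have h14 : ε * (-Real.log (2 * ‖z‖)) ≤ 2 * π := by
        calc ε * (-Real.log (2 * ‖z‖)) ≤ ε * Real.log (1 / (2 * t)) :=
              mul_le_mul_of_nonneg_left hlz2 hεp.le
          _ = 2 * π := by
              rw [hε]; field_simp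
      have h15 : (1 / (2 * π)) * ((8 * π * (1 + k) - ε) * (-Real.log (2 * ‖z‖))) ≤
          (1 / (2 * π)) * (ms (t / 2) E * (-Real.log (2 * ‖z‖))) :=
        mul_le_mul_of_nonneg_left h13 (by positivity)
      have h16 : (1 / (2 * π)) * (ε * (-Real.log (2 * ‖z‖))) ≤ 1 := by
        calc (1 / (2 * π)) * (ε * (-Real.log (2 * ‖z‖))) ≤ (1 / (2 * π)) * (2 * π) :=
              mul_le_mul_of_nonneg_left h14 (by positivity)
          _ = 1 := by field_simp
      have h17 : (1 / (2 * π)) * ((8 * π * (1 + k) - ε) * (-Real.log (2 * ‖z‖))) =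
          -(4 * (1 + k)) * Real.log (2 * ‖z‖) -
            (1 / (2 * π)) * (ε * (-Real.log (2 * ‖z‖))) := by
        field_simp
        ring
      have h18 : -(1 / (2 * π)) * (ms (t / 2) E * Real.log (2 * ‖z‖)) =
          (1 / (2 * π)) * (ms (t / 2) E * (-Real.log (2 * ‖z‖))) := by ring
      rw [h18]
      linarith
    have hexp : Real.exp B * Real.exp (-(4 * (1 + k)) * Real.log (2 * ‖z‖)) ≤
        Real.exp (2 * (h z).re - (4 * π * N - ρ j) / (a * b) / 4 * ‖z‖ ^ 2 + pot r E z) := by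
      rw [← Real.exp_add]
      apply Real.exp_le_exp.2
      rw [hB]
      linarith
    have h19 : Real.exp (-(4 * (1 + k)) * Real.log (2 * ‖z‖)) =
        (2 : ℝ) ^ (-(4 * (1 + k) : ℝ)) * ‖z‖ ^ (-(4 * (1 + k) : ℝ)) := by
      rw [← Real.mul_rpow (by norm_num) hzp.le, Real.rpow_def_of_pos (by positivity)]
      congr 1
      ring
    calc c0 / (2 * t) ^ 4 ≤ c0 / ‖z‖ ^ 4 := by
          apply div_le_div_of_nonneg_left hc0p.le (by positivity)
          gcongr
      _ ≤ c0 * (‖z‖ ^ (2 * k) * ‖z‖ ^ (-(4 * (1 + k) : ℝ))) := by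
          rw [div_eq_mul_inv]
          apply mul_le_mul_of_nonneg_left _ hc0p.le
          have h20 : (‖z‖ ^ 4)⁻¹ = ‖z‖ ^ (-(4 : ℝ)) := by
            rw [Real.rpow_neg hzp.le]
            norm_num
          have h21 : ‖z‖ ^ (2 * k) * ‖z‖ ^ (-(4 * (1 + k) : ℝ)) = ‖z‖ ^ (-(4 + 2 * k : ℝ)) := by
            rw [← Real.rpow_natCast, ← Real.rpow_add hzp]
            congr 1
            push_cast
            ring
          rw [h20, h21]
          apply Real.rpow_le_rpow_of_exponent_ge hzp (by linarith)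
          have : (0 : ℝ) ≤ k := Nat.cast_nonneg _
          linarith
      _ = ‖z‖ ^ (2 * k) * (Real.exp B * Real.exp (-(4 * (1 + k)) * Real.log (2 * ‖z‖))) := by
          rw [h19, hc0]; ring
      _ ≤ _ := by
          exact mul_le_mul_of_nonneg_left hexp (by positivity)
  -- the mass of the annulus
  have hrect : ball q r ⊆ rect a b q := by
    intro z hz
    rw [mem_ball, dist_eq_norm] at hz
    refine ⟨?_, ?_⟩
    · have := Complex.abs_re_le_norm (z - q)
      rw [Complex.sub_re] at this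
      linarith
    · have := Complex.abs_im_le_norm (z - q)
      rw [Complex.sub_im] at this
      linarith
  have hdE : Continuous (dE a b F p n (v j)) := by
    have : dE a b F p n (v j) = fun z => E (z - q) := by
      funext z; simp [hE]
    rw [this]
    exact hEc.comp (continuous_id.sub continuous_const)
  have hdEn : ∀ z, 0 ≤ dE a b F p n (v j) z := by
    intro z
    have := hEn (z - q)
    simpa [hE] using this
  have hper : Per a b (dE a b F p n (v j)) := by
    intro z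
    have hs : ∀ w : ℂ, (hw a b F p n (w + a) = hw a b F p n w) ∧
        (hw a b F p n (w + b * I) = hw a b F p n w) := by
      intro w
      unfold hw
      refine ⟨?_, ?_⟩
      · refine Finset.prod_congr rfl fun l _ => ?_
        rw [show w + a - p l = (w - p l) + a by ring, (hS.th.per (w - p l)).1]
      · refine Finset.prod_congr rfl fun l _ => ?_
        rw [show w + b * I - p l = (w - p l) + b * I by ring, (hS.th.per (w - p l)).2]
    unfold dE
    rw [(hs z).1, (hs z).2, ((hS.sol j).per z).1, ((hS.sol j).per z).2]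
    exact ⟨rfl, rfl⟩
  have hbd : Bornology.IsBounded (rect a b q) := by
    refine (isBounded_closedBall (x := q) (r := a + b)).subset fun z hz => ?_
    rw [mem_closedBall, dist_eq_norm]
    have h3 := Complex.norm_le_abs_re_add_abs_im (z - q)
    rw [Complex.sub_re, Complex.sub_im] at h3
    have h4 := hz.1
    have h5 := hz.2
    linarith
  have hintR : IntegrableOn (dE a b F p n (v j)) (rect a b q) :=
    (hdE.continuousOn.integrableOn_compact hbd.isCompact_closure).mono_set subset_closure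
  have hρ : ms r E ≤ ρ j := by
    rw [hE, cDown_tr, ← (hS.sol j).mass, ← (h2 a b _ ha hb hper q).2.1]
    apply setIntegral_mono_set hintR
    · exact Eventually.of_forall fun z => hdEn z
    · exact LE.le.eventuallyLE hrect
  -- the annulus
  set A : Set ℂ := ball (0 : ℂ) (2 * t) \ ball 0 t with hA
  have hAm : MeasurableSet A := measurableSet_ball.diff measurableSet_ball
  have hAsub : A ⊆ ball 0 r := sdiff_subset.trans (ball_subset_ball (by linarith))
  have hvol : (volume A).toReal = 3 * π * t ^ 2 := by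
    rw [hA, measure_sdiff (ball_subset_ball (by linarith)) measurableSet_ball.nullMeasurableSet
      measure_ball_lt_top.ne, Complex.volume_ball, Complex.volume_ball]
    rw [ENNReal.toReal_sub_of_le]
    · simp only [ENNReal.toReal_mul, ENNReal.toReal_pow, ENNReal.toReal_ofReal ht0.le,
        ENNReal.toReal_ofReal (by positivity : (0 : ℝ) ≤ 2 * t), ENNReal.coe_toReal,
        NNReal.coe_real_pi]
      ring
    · gcongr
      linarith
    · exact ENNReal.mul_ne_top (ENNReal.pow_ne_top ENNReal.ofReal_ne_top) ENNReal.coe_ne_top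
  have hEint : IntegrableOn E (ball (0 : ℂ) r) :=
    (hEc.continuousOn.integrableOn_compact (isCompact_closedBall (0 : ℂ) r)).mono_set
      ball_subset_closedBall
  have hann : c0 / (2 * t) ^ 4 * (3 * π * t ^ 2) ≤ ms r E := by
    calc c0 / (2 * t) ^ 4 * (3 * π * t ^ 2) = ∫ _ in A, c0 / (2 * t) ^ 4 := by
          rw [setIntegral_const, Measure.real, hvol, smul_eq_mul]
          ring
      _ ≤ ∫ z in A, E z := by
          refine setIntegral_mono_on ?_ (hEint.mono_set hAsub) hAm ?_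
          · refine integrableOn_const ?_
            exact ((measure_mono hAsub).trans_lt measure_ball_lt_top).ne
          · intro z hz
            have h5 : ‖z‖ < 2 * t := by simpa using hz.1
            have h6 : t ≤ ‖z‖ := by simpa using hz.2
            exact hlow z h6 h5
      _ ≤ ms r E := by
          apply setIntegral_mono_set hEint
          · exact Eventually.of_forall fun z => hEn z
          · exact LE.le.eventuallyLE hAsub
  have hfin := hS.le j
  linarith

end Pool.Agent.Vx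

end

section

/-!
# MP_afe918_an, item cUp: upper bound for the constants
-/

set_option autoImplicit false

open Complex Set Filter Topology MeasureTheory Metric
open scoped Real ContDiff ComplexConjugate

namespace Pool.Agent.Vx

theorem cUp_rect_sub (a b : ℝ) : rect a b 0 ⊆ closedBall (0 : ℂ) (a / 2 + b / 2) := by
  intro z hz
  simp only [rect, mem_ofPred_eq, Complex.zero_re, Complex.zero_im, sub_zero] at hz
  rw [mem_closedBall, dist_zero_right]
  exact (Complex.norm_le_abs_re_add_abs_im z).trans (by linarith [hz.1, hz.2])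

theorem cUp_intOn {f : ℂ → ℝ} (a b : ℝ) (hf : Continuous f) : IntegrableOn f (rect a b 0) :=
  (hf.continuousOn.integrableOn_compact (isCompact_closedBall _ _)).mono_set (cUp_rect_sub a b)

theorem cUp_rect_open (a b : ℝ) (q : ℂ) : IsOpen (rect a b q) := by
  have e1 : IsOpen {z : ℂ | |z.re - q.re| < a / 2} :=
    isOpen_lt ((Complex.continuous_re.sub continuous_const).abs) continuous_const
  have e2 : IsOpen {z : ℂ | |z.im - q.im| < b / 2} :=
    isOpen_lt ((Complex.continuous_im.sub continuous_const).abs) continuous_const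
  exact e1.inter e2

theorem cUp_rect_meas (a b : ℝ) (q : ℂ) : MeasurableSet (rect a b q) :=
  (cUp_rect_open a b q).measurableSet

theorem cUp_lat_countable (a b : ℝ) : {z : ℂ | Lat a b z}.Countable := by
  have : {z : ℂ | Lat a b z} ⊆ Set.range (fun w : ℤ × ℤ => (w.1 * a + w.2 * b * I : ℂ)) := by
    rintro z ⟨m, k, h⟩
    exact ⟨(m, k), h.symm⟩
  exact (Set.countable_range _).mono this

theorem cUp_bad_countable {m : ℕ} (a b : ℝ) (p : Fin m → ℂ) :
    {z : ℂ | ∃ l, Lat a b (z - p l)}.Countable := by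
  have : {z : ℂ | ∃ l, Lat a b (z - p l)} = ⋃ l, (fun z => z - p l) ⁻¹' {z : ℂ | Lat a b z} := by
    ext z
    simp
  rw [this]
  refine Set.countable_iUnion fun l => ?_
  exact (cUp_lat_countable a b).preimage_of_injOn (fun x _ y _ h => by simpa using h)

theorem cUp_hw_pos {m : ℕ} (a b : ℝ) (F : ℂ → ℂ) (p : Fin m → ℂ) (n : Fin m → ℕ)
    (ha : 0 < a) (hb : 0 < b) (hc : Continuous (hw a b F p n)) (h0 : ∀ z, 0 ≤ hw a b F p n z)
    (hp : ∀ z, (∀ l, ¬ Lat a b (z - p l)) → 0 < hw a b F p n z) :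
    0 < ti a b (hw a b F p n) := by
  unfold ti
  rw [setIntegral_pos_iff_support_of_nonneg_ae (Eventually.of_forall fun z => h0 z)
    (cUp_intOn a b hc)]
  have h1 : 0 < volume (rect a b 0) := by
    refine (cUp_rect_open a b 0).measure_pos volume ⟨0, ?_⟩
    simp only [rect, mem_ofPred_eq, Complex.zero_re, Complex.zero_im, sub_zero, abs_zero]
    exact ⟨by linarith, by linarith⟩
  have h2 : volume {z : ℂ | ∃ l, Lat a b (z - p l)} = 0 := (cUp_bad_countable a b p).measure_zero _
  calc 0 < volume (rect a b 0) := h1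
    _ = volume (rect a b 0 \ {z : ℂ | ∃ l, Lat a b (z - p l)}) :=
        (measure_sdiff_null h2).symm
    _ ≤ _ := by
        refine measure_mono ?_
        rintro z ⟨hz, hz'⟩
        refine ⟨?_, hz⟩
        rw [Function.mem_support]
        refine (hp z ?_).ne'
        intro l hl
        exact hz' ⟨l, hl⟩

theorem pr_cUp (h1 : S_GGr) (h2 : S_GHw) (_h3 : S_Ti) : S_cUp := by
  intro a b F m p n hth hd
  obtain ⟨-, -, -, ⟨C0, hC0⟩, -⟩ := h1 a b F hth
  obtain ⟨⟨hwc, -, hw0, -, hwp⟩, -⟩ := h2 a b F m p n hth hd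
  set CG : ℝ := max C0 0 with hCG
  have hG : ∀ z, -CG ≤ Gr a b F z := fun z => (neg_le_neg (le_max_left _ _)).trans (hC0 z)
  have hG0 : 0 ≤ CG := le_max_right _ _
  set T := ti a b (hw a b F p n) with hT
  have hTpos : 0 < T := cUp_hw_pos a b F p n hth.apos hth.bpos hwc hw0 hwp
  set M : ℝ := 4 * π * Nv n with hM
  have hM0 : 0 ≤ M := by positivity
  refine ⟨CG * M + Real.log ((M + 1) / T), ?_⟩
  intro ρ v c hρ hρM hs
  have hEc : Continuous (dE a b F p n v) := by
    unfold dE
    exact hwc.mul (Real.continuous_exp.comp hs.cont)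
  have hE0 : ∀ z, 0 ≤ dE a b F p n v z := fun z => mul_nonneg (hw0 z) (Real.exp_pos _).le
  have hv : ∀ x, c - CG * M ≤ v x := by
    intro x
    rw [hs.eq x]
    have : -(CG * ρ) ≤ ti a b (fun y => Gr a b F (x - y) * dE a b F p n v y) := by
      by_cases hi : IntegrableOn (fun y => Gr a b F (x - y) * dE a b F p n v y) (rect a b 0)
      · calc -(CG * ρ) = ∫ y in rect a b 0, -CG * dE a b F p n v y := by
              rw [integral_const_mul]
              have := hs.mass
              unfold ti at this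
              rw [this]; ring
          _ ≤ _ := by
              refine setIntegral_mono ((cUp_intOn a b hEc).const_mul _) hi ?_
              intro y
              exact mul_le_mul_of_nonneg_right (hG _) (hE0 y)
      · unfold ti
        rw [integral_undef hi]
        have := mul_nonneg hG0 hρ
        linarith
    have h4 : CG * ρ ≤ CG * M := mul_le_mul_of_nonneg_left hρM hG0
    linarith
  have h5 : Real.exp (c - CG * M) * T ≤ ρ := by
    rw [← hs.mass, hT]
    unfold ti
    rw [← integral_const_mul]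
    refine setIntegral_mono ((cUp_intOn a b hwc).const_mul _) (cUp_intOn a b hEc) ?_
    intro y
    show Real.exp (c - CG * M) * hw a b F p n y ≤ hw a b F p n y * Real.exp (v y)
    rw [mul_comm]
    exact mul_le_mul_of_nonneg_left (Real.exp_le_exp.mpr (hv y)) (hw0 y)
  have h6 : Real.exp (c - CG * M) ≤ (M + 1) / T := by
    rw [le_div_iff₀ hTpos]
    linarith
  have h7 : c - CG * M ≤ Real.log ((M + 1) / T) := by
    rw [Real.le_log_iff_exp_le (by positivity)]
    exact h6
  linarith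

end Pool.Agent.Vx

end

section

/-!
# MP_afe918_an, item n1a (helper85): simple vortex, first relation
-/

set_option autoImplicit false

open Complex Set Filter Topology MeasureTheory Metric
open scoped Real ContDiff ComplexConjugate

namespace Pool.Agent.Vx

theorem n1a_add {s : ℝ} {E : ℂ → ℝ} {f g : ℂ → ℂ}
    (hf : IntegrableOn (fun z => f z * (E z : ℂ)) (ball (0 : ℂ) s))
    (hg : IntegrableOn (fun z => g z * (E z : ℂ)) (ball (0 : ℂ) s)) :
    mo s E (fun z => f z + g z) = mo s E f + mo s E g := by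
  unfold mo
  rw [← integral_add hf hg]
  congr 1
  funext z
  ring

theorem n1a_cmul {s : ℝ} {E : ℂ → ℝ} (c : ℂ) (f : ℂ → ℂ) :
    mo s E (fun z => c * f z) = c * mo s E f := by
  unfold mo
  rw [← integral_const_mul]
  congr 1
  funext z
  ring

theorem n1a_sq {s : ℝ} {E : ℂ → ℝ} :
    mo s E (fun z => (‖z‖ : ℂ) ^ 2) = ((∫ z in ball (0 : ℂ) s, ‖z‖ ^ 2 * E z : ℝ) : ℂ) := by
  unfold mo
  rw [← integral_complex_ofReal]
  congr 1
  funext z
  push_cast
  ring

theorem n1a_step (hR : S_RIp) (r s H Λ M0 : ℝ) (hs : 0 < s) (hsr : 2 * s < r) (hH : 0 ≤ H)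
    (hΛ : 0 ≤ Λ) : ∃ C : ℝ, 0 ≤ C ∧ ∀ (lam η : ℝ) (h : ℂ → ℂ) (E : ℂ → ℝ), Loc r 1 lam h E →
    lam ≤ Λ → (∀ z ∈ ball (0 : ℂ) r, ‖deriv h z‖ ≤ H) → ms r E ≤ M0 →
    (∀ z ∈ ball (0 : ℂ) r, s ≤ ‖z‖ → E z ≤ η) →
    ‖((16 * π - ms s E : ℝ) : ℂ) * ((ms s E : ℂ) / (8 * π) +
        deriv h 0 * mo s E (fun z => z) / (4 * π)) +
      (deriv (deriv h) 0 + deriv h 0 ^ 2) * mo s E (fun z => z ^ 2) -
      lam / 4 * ((∫ z in ball (0 : ℂ) s, ‖z‖ ^ 2 * E z : ℝ) : ℂ)‖ ≤
    C * (η + ∫ z in ball (0 : ℂ) s, ‖z‖ ^ 3 * E z) := by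
  obtain ⟨K, hK, hRI⟩ := hR
  have hr : 0 < r := by linarith
  obtain ⟨C0, hC0, hCau⟩ := n1x_cauchy r H hr hH
  set A0 : ℝ := 3 + 9 * H * s with hA0
  set H' : ℝ := Λ * r ^ 2 + H * r with hH'
  set C1 : ℝ := K * (1 + ((1 : ℕ) : ℝ) + H' + |M0| * (r / s)) * A0 * s ^ 2 with hC1
  set C2 : ℝ := C0 + H * C0 + Λ / 4 * H with hC2
  have hA0' : 0 ≤ A0 := by positivity
  have hH'0 : 0 ≤ H' := by positivity
  have hC1' : 0 ≤ C1 := by positivity
  have hC2' : 0 ≤ C2 := by positivity
  refine ⟨C1 + C2, by positivity, fun lam η h E hL hlam hh hM hη => ?_⟩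
  have hE := hL.cont
  have hE0 := hL.nonneg
  have hlam0 := hL.lam0
  obtain ⟨hc2, hc1, hcq⟩ := hCau h hL.an hh
  have h00 : (0 : ℂ) ∈ ball (0 : ℂ) r := mem_ball_self hr
  have hh0 : ‖deriv h 0‖ ≤ H := hh 0 h00
  set h1 : ℂ := deriv h 0 with hh1
  set h2 : ℂ := deriv (deriv h) 0 with hh2
  -- the sequence of coefficients
  set c : ℕ → ℂ := fun i => if i = 1 then 1 else if i = 2 then h1 else 0 with hc
  have hηge : 0 ≤ η := by
    have hz : ((s : ℝ) : ℂ) ∈ ball (0 : ℂ) r := by
      rw [mem_ball_zero_iff, Complex.norm_real, Real.norm_of_nonneg hs.le]; linarith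
    have := hη (s : ℂ) hz (by rw [Complex.norm_real, Real.norm_of_nonneg hs.le])
    exact (hE0 _).trans this
  have key := hRI r s lam A0 η H' |M0| (r / s) 1 h E 0 c hs hsr.le
    (by rw [div_mul_cancel₀ _ hs.ne']) hL hH'0
    (by
      have : lam * r ^ 2 ≤ Λ * r ^ 2 := by gcongr
      have : 0 ≤ H * r := by positivity
      rw [hH']; linarith)
    (by
      intro z hz
      have h1' : ‖deriv h z‖ * r ≤ H * r := by gcongr; exact hh z hz
      have : 0 ≤ Λ * r ^ 2 := by positivity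
      rw [hH']; linarith)
    (hM.trans (le_abs_self _)) hη (by simpa using hs.le)
    (by
      intro i hi
      by_cases i1 : i = 1
      · subst i1
        simp only [hc, if_true, norm_one, pow_one, one_mul]
        have : 0 ≤ 9 * H * s * s := by positivity
        rw [hA0]; nlinarith
      · by_cases i2 : i = 2
        · subst i2
          simp only [hc, if_true]
          norm_num
          have : ‖h1‖ * (3 * s) ^ 2 ≤ H * (3 * s) ^ 2 := by gcongr
          rw [hA0]; nlinarith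
        · simp only [hc, i1, i2, if_false, norm_zero, zero_mul]
          positivity)
  -- rewriting the first integral
  have hhc : ContinuousOn (deriv h) (ball 0 r) :=
    (hL.an.deriv isOpen_ball).continuousOn
  have hI : ∀ f : ℂ → ℂ, ContinuousOn f (ball 0 r) →
      IntegrableOn (fun z => f z * (E z : ℂ)) (ball (0 : ℂ) s) := fun f hf =>
    n1x_int hE (by linarith) hf
  set Err : ℂ → ℂ := fun z => z * (deriv h z - h1 - h2 * z) + h1 * z ^ 2 * (deriv h z - h1) -
    lam / 4 * h1 * z * (‖z‖ : ℂ) ^ 2 with hErr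
  have hErrc : ContinuousOn Err (ball 0 r) := by
    rw [hErr]
    apply ContinuousOn.sub
    · apply ContinuousOn.add
      · exact continuousOn_id.mul ((hhc.sub continuousOn_const).sub
          (continuousOn_const.mul continuousOn_id))
      · exact (by fun_prop : ContinuousOn (fun z : ℂ => h1 * z ^ 2) (ball 0 r)).mul
          (hhc.sub continuousOn_const)
    · fun_prop
  have hF : mo s E (fun z => (∑ i ∈ Finset.range 6, c i * i * (z - 0) ^ (i - 1)) +
      (∑ i ∈ Finset.range 6, c i * (z - 0) ^ i) *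
        (((1 : ℕ) : ℂ) / z + deriv h z - lam / 4 * conj z)) =
      2 * (ms s E : ℂ) + 4 * h1 * mo s E (fun z => z) + (h2 + h1 ^ 2) * mo s E (fun z => z ^ 2) +
        -(lam / 4) * ((∫ z in ball (0 : ℂ) s, ‖z‖ ^ 2 * E z : ℝ) : ℂ) + mo s E Err := by
    rw [← n1x_mo_const, ← n1a_sq, ← n1a_cmul (4 * h1), ← n1a_cmul (h2 + h1 ^ 2),
      ← n1a_cmul (-((lam : ℂ) / 4))]
    rw [← n1a_add (hI _ (by fun_prop)) (hI _ (by fun_prop)),
      ← n1a_add (hI _ (by fun_prop)) (hI _ (by fun_prop)),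
      ← n1a_add (hI _ (by fun_prop)) (hI _ (by fun_prop)),
      ← n1a_add (hI _ (by fun_prop)) (hI _ hErrc)]
    unfold mo
    apply integral_congr_ae
    have hne : ∀ᵐ z : ℂ ∂(volume.restrict (ball (0 : ℂ) s)), z ≠ 0 := by
      have : ∀ᵐ z : ℂ ∂(volume : Measure ℂ), z ≠ 0 := by
        rw [ae_iff]; simp
      exact ae_restrict_of_ae this
    filter_upwards [hne] with z hz
    congr 1
    simp only [Finset.sum_range_succ, Finset.sum_range_zero, hc, hErr]
    have hcz : z * conj z = (‖z‖ : ℂ) ^ 2 := Complex.mul_conj' z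
    norm_num
    have e1 : (z + h1 * z ^ 2) * (1 / z) = 1 + h1 * z := by
      field_simp
    have e2 : (z + h1 * z ^ 2) * (1 / z + deriv h z - (lam : ℂ) / 4 * conj z) =
        (z + h1 * z ^ 2) * (1 / z) + (z + h1 * z ^ 2) * deriv h z -
          (lam : ℂ) / 4 * ((z * conj z) + h1 * z * (z * conj z)) := by ring
    rw [← one_div, e2, e1, hcz]
    ring
  have hErrb : ‖mo s E Err‖ ≤ C2 * ∫ z in ball (0 : ℂ) s, ‖z‖ ^ 3 * E z := by
    apply n1x_bound hE hE0
    intro z hz
    have hz' : z ∈ ball (0 : ℂ) r := ball_subset_ball (by linarith) hz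
    have b1 : ‖z * (deriv h z - h1 - h2 * z)‖ ≤ C0 * ‖z‖ ^ 3 := by
      rw [norm_mul]
      calc ‖z‖ * ‖deriv h z - h1 - h2 * z‖ ≤ ‖z‖ * (C0 * ‖z‖ ^ 2) := by
            gcongr; exact hcq z hz'
        _ = C0 * ‖z‖ ^ 3 := by ring
    have b2 : ‖h1 * z ^ 2 * (deriv h z - h1)‖ ≤ H * C0 * ‖z‖ ^ 3 := by
      rw [norm_mul, norm_mul, norm_pow]
      calc ‖h1‖ * ‖z‖ ^ 2 * ‖deriv h z - h1‖ ≤ H * ‖z‖ ^ 2 * (C0 * ‖z‖) := by
            gcongr; exact hc1 z hz'
        _ = H * C0 * ‖z‖ ^ 3 := by ring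
    have b3 : ‖(lam : ℂ) / 4 * h1 * z * (‖z‖ : ℂ) ^ 2‖ ≤ Λ / 4 * H * ‖z‖ ^ 3 := by
      rw [norm_mul, norm_mul, norm_mul, norm_pow, Complex.norm_real, norm_norm, norm_div,
        Complex.norm_real, Real.norm_of_nonneg hlam0]
      have : ‖(4 : ℂ)‖ = 4 := by norm_num
      rw [this]
      calc lam / 4 * ‖h1‖ * ‖z‖ * ‖z‖ ^ 2 ≤ Λ / 4 * H * ‖z‖ * ‖z‖ ^ 2 := by gcongr
        _ = Λ / 4 * H * ‖z‖ ^ 3 := by ring
    calc ‖Err z‖ ≤ ‖z * (deriv h z - h1 - h2 * z)‖ + ‖h1 * z ^ 2 * (deriv h z - h1)‖ +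
          ‖(lam : ℂ) / 4 * h1 * z * (‖z‖ : ℂ) ^ 2‖ :=
          (norm_sub_le _ _).trans (by gcongr; exact norm_add_le _ _)
      _ ≤ C2 * ‖z‖ ^ 3 := by rw [hC2]; linarith
  have hker : (∑ i ∈ Finset.range 6, c i * ∑ k ∈ Finset.range i,
      mo s E (fun z => (z - 0) ^ k) * mo s E (fun z => (z - 0) ^ (i - 1 - k))) =
      (ms s E : ℂ) ^ 2 + 2 * h1 * (ms s E : ℂ) * mo s E (fun z => z) := by
    have e0 : mo s E (fun z => (z - 0) ^ 0) = (ms s E : ℂ) := by
      simpa using n1x_mo_const (s := s) (E := E) 1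
    have e1 : mo s E (fun z => (z - 0) ^ 1) = mo s E (fun z => z) := by simp
    simp only [Finset.sum_range_succ, Finset.sum_range_zero, hc]
    norm_num
    have e0' : mo s E (fun _ => (1 : ℂ)) = (ms s E : ℂ) := by
      simpa using n1x_mo_const (s := s) (E := E) 1
    rw [e0']
    ring
  rw [hF, hker] at key
  have hkey : ‖(2 * (ms s E : ℂ) + 4 * h1 * mo s E (fun z => z) +
      (h2 + h1 ^ 2) * mo s E (fun z => z ^ 2) +
        -(lam / 4) * ((∫ z in ball (0 : ℂ) s, ‖z‖ ^ 2 * E z : ℝ) : ℂ) + mo s E Err) -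
      1 / (8 * π) * ((ms s E : ℂ) ^ 2 + 2 * h1 * (ms s E : ℂ) * mo s E (fun z => z))‖ ≤
      C1 * η := by
    refine key.trans (le_of_eq ?_)
    rw [hC1]; ring
  have hpi : (π : ℂ) ≠ 0 := by exact_mod_cast Real.pi_ne_zero
  have hid : ((16 * π - ms s E : ℝ) : ℂ) * ((ms s E : ℂ) / (8 * π) +
        h1 * mo s E (fun z => z) / (4 * π)) +
      (h2 + h1 ^ 2) * mo s E (fun z => z ^ 2) -
      lam / 4 * ((∫ z in ball (0 : ℂ) s, ‖z‖ ^ 2 * E z : ℝ) : ℂ) =
      ((2 * (ms s E : ℂ) + 4 * h1 * mo s E (fun z => z) +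
      (h2 + h1 ^ 2) * mo s E (fun z => z ^ 2) +
        -(lam / 4) * ((∫ z in ball (0 : ℂ) s, ‖z‖ ^ 2 * E z : ℝ) : ℂ) + mo s E Err) -
      1 / (8 * π) * ((ms s E : ℂ) ^ 2 + 2 * h1 * (ms s E : ℂ) * mo s E (fun z => z))) -
      mo s E Err := by
    push_cast
    field_simp
    ring
  rw [hid]
  have hT3 : 0 ≤ ∫ z in ball (0 : ℂ) s, ‖z‖ ^ 3 * E z :=
    integral_nonneg fun z => mul_nonneg (by positivity) (hE0 z)
  calc _ ≤ C1 * η + C2 * ∫ z in ball (0 : ℂ) s, ‖z‖ ^ 3 * E z :=
        (norm_sub_le _ _).trans (add_le_add hkey hErrb)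
    _ ≤ (C1 + C2) * (η + ∫ z in ball (0 : ℂ) s, ‖z‖ ^ 3 * E z) := by nlinarith

theorem pr_n1a (h1 : S_RIp) (h2 : S_A) (h3 : S_BUf) : S_n1a := by
  intro r H Λ lam h E hB s hs hsr
  obtain ⟨hr, hH, hΛ⟩ := n1x_H hB
  obtain ⟨M0, hM0⟩ : ∃ M0, ∀ j, ms r (E j) ≤ M0 := by
    obtain ⟨M0, hM0⟩ := hB.mass.bddAbove_range
    exact ⟨M0, fun j => hM0 ⟨j, rfl⟩⟩
  obtain ⟨C0, hC0, hCau⟩ := n1x_cauchy r H hr hH
  obtain ⟨C, hC, hstep⟩ := n1a_step h1 r s H Λ M0 hs hsr hH hΛ
  obtain ⟨Cs, hCs⟩ := hB.out s hs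
  obtain ⟨f1, -, f3, -, f5⟩ := h3 r 1 H Λ lam h E hB (fun _ => 0) tendsto_const_nhds s hs
    (by linarith)
  have f2 := h2 r 1 H Λ lam h E hB (fun _ => 0) tendsto_const_nhds s hs (by linarith)
  simp only [sub_zero] at f2 f5
  set A : ℕ → ℝ := fun j => ∫ z in ball (0 : ℂ) s, ‖z‖ ^ 2 * E j z with hA
  set T3 : ℕ → ℝ := fun j => ∫ z in ball (0 : ℂ) s, ‖z‖ ^ 3 * E j z with hT3
  set D : ℕ → ℝ := fun j => 16 * π - ms s (E j) with hD
  set kap : ℕ → ℂ := fun j => deriv (deriv (h j)) 0 + deriv (h j) 0 ^ 2 with hkap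
  set m2 : ℕ → ℂ := fun j => mo s (E j) (fun z => z ^ 2) with hm2
  set w : ℕ → ℂ := fun j => (ms s (E j) : ℂ) / (8 * π) +
        deriv (h j) 0 * mo s (E j) (fun z => z) / (4 * π) with hw
  set X : ℕ → ℂ := fun j => (D j : ℂ) * w j + kap j * m2 j - lam j / 4 * (A j : ℂ) with hX
  have hpi : (π : ℂ) ≠ 0 := by exact_mod_cast Real.pi_ne_zero
  have het : ∀ j, 0 < et (h j) := fun j => Real.exp_pos _
  -- A > 0 eventually
  have hApos : ∀ᶠ j in atTop, 0 < A j := by
    filter_upwards [f2.eventually_gt_atTop 0] with j hj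
    have := mul_pos hj (het j)
    rwa [div_mul_cancel₀ _ (het j).ne'] at this
  -- X / A -> 0
  have hXA : Tendsto (fun j => ‖X j‖ / A j) atTop (𝓝 0) := by
    have hlim : Tendsto (fun j => C * (|Cs| * (et (h j) / A j) + T3 j / A j)) atTop (𝓝 0) := by
      have g1 : Tendsto (fun j => et (h j) / A j) atTop (𝓝 0) := by
        have := f2.inv_tendsto_atTop
        refine this.congr fun j => ?_
        simp [hA, inv_div]
      have := ((g1.const_mul |Cs|).add f5).const_mul C
      simpa using this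
    refine squeeze_zero' ?_ ?_ hlim
    · filter_upwards [hApos] with j hj
      positivity
    · filter_upwards [hApos] with j hj
      have hst := hstep (lam j) (|Cs| * et (h j)) (h j) (E j) (hB.loc j) (hB.lamb j) (hB.hH j)
        (hM0 j) (fun z hz hsz => (hCs j z hz hsz).trans
          (mul_le_mul_of_nonneg_right (le_abs_self _) (het j).le))
      rw [div_le_iff₀ hj]
      calc ‖X j‖ ≤ C * (|Cs| * et (h j) + T3 j) := hst
        _ = C * (|Cs| * (et (h j) / A j) + T3 j / A j) * A j := by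
          field_simp
  -- w -> 2
  have hm1 : Tendsto (fun j => mo s (E j) (fun z => z)) atTop (𝓝 0) := by
    refine squeeze_zero_norm (fun j => ?_) f3
    have := n1x_norm_mo_pow (s := s) (hB.loc j).cont (hB.loc j).nonneg 1
    simpa using this
  have hh1 : ∀ j, ‖deriv (h j) 0‖ ≤ H := fun j => hB.hH j 0 (mem_ball_self hr)
  have hhm : Tendsto (fun j => deriv (h j) 0 * mo s (E j) (fun z => z)) atTop (𝓝 0) := by
    have hg : Tendsto (fun j => H * ‖mo s (E j) (fun z => z)‖) atTop (𝓝 0) := by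
      have := (tendsto_norm_zero.comp hm1).const_mul H
      simpa using this
    refine squeeze_zero_norm (fun j => ?_) hg
    rw [norm_mul]
    exact mul_le_mul_of_nonneg_right (hh1 j) (norm_nonneg _)
  have hMc : Tendsto (fun j => (ms s (E j) : ℂ)) atTop (𝓝 ((16 * π : ℝ) : ℂ)) := by
    refine (continuous_ofReal.tendsto _).comp ?_
    have : (8 * π * (1 + ((1 : ℕ) : ℝ))) = 16 * π := by push_cast; ring
    rw [← this]
    exact f1
  have hw2 : Tendsto w atTop (𝓝 2) := by
    have := (hMc.div_const (8 * (π : ℂ))).add (hhm.div_const (4 * (π : ℂ)))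
    have e : ((16 * π : ℝ) : ℂ) / (8 * (π : ℂ)) + 0 / (4 * (π : ℂ)) = 2 := by
      push_cast
      field_simp
      ring
    rw [e] at this
    exact this
  -- D / A is bounded
  have hkb : ∀ j, ‖kap j‖ ≤ C0 + H ^ 2 := by
    intro j
    obtain ⟨hc2, -, -⟩ := hCau (h j) (hB.loc j).an (hB.hH j)
    calc ‖kap j‖ ≤ ‖deriv (deriv (h j)) 0‖ + ‖deriv (h j) 0 ^ 2‖ := norm_add_le _ _
      _ ≤ C0 + H ^ 2 := by
        rw [norm_pow]
        gcongr
        exact hh1 j
  have hm2A : ∀ j, ‖m2 j‖ ≤ A j := fun j =>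
    n1x_norm_mo_pow (s := s) (hB.loc j).cont (hB.loc j).nonneg 2
  set B : ℝ := 1 + (C0 + H ^ 2) + Λ / 4 with hBdef
  have hDA : ∀ᶠ j in atTop, |D j / A j| ≤ B := by
    have hw1 : ∀ᶠ j in atTop, (1 : ℝ) ≤ ‖w j‖ := by
      have : Tendsto (fun j => ‖w j‖) atTop (𝓝 ‖(2 : ℂ)‖) := hw2.norm
      have h2n : ‖(2 : ℂ)‖ = 2 := by norm_num
      rw [h2n] at this
      exact (this.eventually (lt_mem_nhds (by norm_num : (1 : ℝ) < 2))).mono fun j hj => hj.le
    filter_upwards [hApos, hw1, hXA.eventually (gt_mem_nhds (zero_lt_one))] with j hj hwj hXj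
    have hAne : ((A j : ℝ) : ℂ) ≠ 0 := by exact_mod_cast hj.ne'
    have e : ((D j / A j : ℝ) : ℂ) * w j = X j / A j - kap j * m2 j / A j + lam j / 4 := by
      rw [hX]
      push_cast
      field_simp
      ring
    have hn : ‖((D j / A j : ℝ) : ℂ) * w j‖ ≤ B := by
      rw [e]
      have n1 : ‖X j / (A j : ℂ)‖ ≤ 1 := by
        rw [norm_div, Complex.norm_real, Real.norm_of_nonneg hj.le]
        exact hXj.le
      have n2 : ‖kap j * m2 j / (A j : ℂ)‖ ≤ C0 + H ^ 2 := by
        rw [norm_div, norm_mul, Complex.norm_real, Real.norm_of_nonneg hj.le, div_le_iff₀ hj]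
        exact mul_le_mul (hkb j) (hm2A j) (norm_nonneg _) (by positivity)
      have n3 : ‖(lam j : ℂ) / 4‖ ≤ Λ / 4 := by
        rw [norm_div, Complex.norm_real, Real.norm_of_nonneg (hB.loc j).lam0]
        have : ‖(4 : ℂ)‖ = 4 := by norm_num
        rw [this]
        have := hB.lamb j
        gcongr
      calc _ ≤ ‖X j / (A j : ℂ) - kap j * m2 j / (A j : ℂ)‖ + ‖(lam j : ℂ) / 4‖ :=
            norm_add_le _ _
        _ ≤ (‖X j / (A j : ℂ)‖ + ‖kap j * m2 j / (A j : ℂ)‖) + ‖(lam j : ℂ) / 4‖ := by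
            gcongr; exact norm_sub_le _ _
        _ ≤ B := by rw [hBdef]; linarith
    rw [norm_mul, Complex.norm_real, Real.norm_eq_abs] at hn
    calc |D j / A j| = |D j / A j| * 1 := (mul_one _).symm
      _ ≤ |D j / A j| * ‖w j‖ := by gcongr
      _ ≤ B := hn
  -- conclusion
  have hBnn : 0 ≤ B := by positivity
  have hfin : Tendsto (fun j => ‖X j‖ / A j + B * ‖2 - w j‖) atTop (𝓝 0) := by
    have g : Tendsto (fun j => ‖2 - w j‖) atTop (𝓝 0) := by
      have := (hw2.const_sub 2).norm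
      simpa using this
    have := hXA.add (g.const_mul B)
    simpa using this
  refine squeeze_zero_norm' ?_ hfin
  filter_upwards [hApos, hDA] with j hj hDj
  have hAne : ((A j : ℝ) : ℂ) ≠ 0 := by exact_mod_cast hj.ne'
  have e : 2 * (16 * π - ms s (E j)) / A j - lam j / 4 + (kap j * m2 j).re / A j =
      (X j / (A j : ℂ) + ((D j / A j : ℝ) : ℂ) * (2 - w j)).re := by
    have e1 : X j / (A j : ℂ) + ((D j / A j : ℝ) : ℂ) * (2 - w j) =
        ((2 * (16 * π - ms s (E j)) / A j - lam j / 4 : ℝ) : ℂ) +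
          kap j * m2 j / ((A j : ℝ) : ℂ) := by
      rw [hX, hD]
      push_cast
      field_simp
      ring
    rw [e1, Complex.add_re, Complex.ofReal_re, Complex.div_ofReal_re]
  rw [e, Real.norm_eq_abs]
  calc _ ≤ ‖X j / (A j : ℂ) + ((D j / A j : ℝ) : ℂ) * (2 - w j)‖ := Complex.abs_re_le_norm _
    _ ≤ ‖X j / (A j : ℂ)‖ + ‖((D j / A j : ℝ) : ℂ) * (2 - w j)‖ := norm_add_le _ _
    _ ≤ ‖X j‖ / A j + B * ‖2 - w j‖ := by
      rw [norm_div, norm_mul, Complex.norm_real, Complex.norm_real, Real.norm_of_nonneg hj.le,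
        Real.norm_eq_abs]
      gcongr

end Pool.Agent.Vx

end

section

/-!
# MP_afe918_an, item GHw: the weight near a point (helper61)
-/

set_option autoImplicit false

open Complex Set Filter Topology MeasureTheory Metric
open scoped Real ContDiff ComplexConjugate

namespace Pool.Agent.Vx

open Classical in
/-- Local form of `Sf` at a point. -/
theorem GHw_loc {a b : ℝ} {F : ℂ → ℂ} (hF : IsTheta a b F) (w : ℂ) :
    ∃ r0 : ℝ, 0 < r0 ∧ ∃ g : ℂ → ℂ, DifferentiableOn ℂ g (ball 0 r0) ∧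
    ∀ z ∈ ball (0 : ℂ) r0, Sf a b F (w + z) =
      ‖z‖ ^ (2 * (if Lat a b w then 1 else 0)) *
        Real.exp (2 * (g z).re - π / (a * b) * ‖z‖ ^ 2) := by
  have ha := hF.apos
  have hb := hF.bpos
  -- the function without zero
  obtain ⟨K, hKd, hK0, hKF⟩ : ∃ K : ℂ → ℂ, Differentiable ℂ K ∧ K 0 ≠ 0 ∧
      ∀ z, ‖F (w + z)‖ ^ 2 = ‖z‖ ^ (2 * (if Lat a b w then 1 else 0)) * ‖K z‖ ^ 2 := by
    by_cases hw : Lat a b w
    · refine ⟨fun z => dslope F w (w + z), ?_, ?_, ?_⟩
      · have h1 : Differentiable ℂ (dslope F w) := by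
          rw [← differentiableOn_univ]
          exact (Complex.differentiableOn_dslope univ_mem).2 hF.diff.differentiableOn
        exact h1.comp (by fun_prop)
      · simp only [add_zero, dslope_same]
        exact hF.simple w hw
      · intro z
        have h2 := sub_smul_dslope F w (w + z)
        rw [(hF.zero w).2 hw, sub_zero, add_sub_cancel_left, smul_eq_mul] at h2
        rw [← h2, norm_mul, if_pos hw, mul_pow]
    · refine ⟨fun z => F (w + z), hF.diff.comp (by fun_prop), ?_, ?_⟩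
      · simp only [add_zero]
        intro h
        exact hw ((hF.zero w).1 h)
      · intro z
        rw [if_neg hw]
        simp
  obtain ⟨r, hr, hne⟩ : ∃ r : ℝ, 0 < r ∧ ∀ z ∈ ball (0 : ℂ) r, K z ≠ 0 := by
    have := hKd.continuous.continuousAt.eventually_ne (x := (0 : ℂ)) hK0
    obtain ⟨r, hr, h⟩ := Metric.eventually_nhds_iff_ball.1 this
    exact ⟨r, hr, h⟩
  obtain ⟨L, hL, hexp⟩ := GPhi_log isOpen_ball (convex_ball 0 r) (mem_ball_self hr)
    hKd.differentiableOn hne
  refine ⟨r, hr, fun z => L z + (π / (2 * a * b) : ℝ) * z ^ 2 +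
    (2 * π * w.im / (a * b) - π / a : ℝ) * (I * z) +
    (-(π / (a * b)) * w.im ^ 2 + π / a * w.im : ℝ), ?_, ?_⟩
  · apply DifferentiableOn.add_const
    apply DifferentiableOn.add
    · apply DifferentiableOn.add hL
      fun_prop
    · fun_prop
  · intro z hz
    have hre : (L z + (π / (2 * a * b) : ℝ) * z ^ 2 +
        (2 * π * w.im / (a * b) - π / a : ℝ) * (I * z) +
        (-(π / (a * b)) * w.im ^ 2 + π / a * w.im : ℝ)).re =
        (L z).re + π / (2 * a * b) * (z.re ^ 2 - z.im ^ 2) -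
        (2 * π * w.im / (a * b) - π / a) * z.im +
        (-(π / (a * b)) * w.im ^ 2 + π / a * w.im) := by
      have e2 : (((π / (2 * a * b) : ℝ) : ℂ) * z ^ 2).re =
          π / (2 * a * b) * (z.re ^ 2 - z.im ^ 2) := by
        rw [re_ofReal_mul]; congr 1; simp [pow_two]
      have e3 : (((2 * π * w.im / (a * b) - π / a : ℝ) : ℂ) * (I * z)).re =
          -((2 * π * w.im / (a * b) - π / a) * z.im) := by
        rw [re_ofReal_mul]; simp
      rw [add_re, add_re, add_re, e2, e3, ofReal_re]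
      ring
    have hn2 : ‖z‖ ^ 2 = z.re ^ 2 + z.im ^ 2 := by
      rw [← normSq_eq_norm_sq, normSq_apply]; ring
    have hKz : ‖K z‖ ^ 2 = Real.exp (2 * (L z).re) := by
      rw [hexp z hz, norm_exp, ← Real.exp_nat_mul]; norm_num
    unfold Sf
    rw [hKF z, hKz, mul_assoc, ← Real.exp_add]
    congr 2
    rw [hre, hn2, add_im]
    field_simp
    ring

open Classical in
/-- G6. -/
theorem pr_GHw (h1 : S_GSf) : S_GHw := by
  intro a b F m p n hF hD
  obtain ⟨hSc, hS0, hSz, C, hC⟩ := h1 a b F hF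
  refine ⟨⟨?_, ?_, ?_, ?_, ?_⟩, ?_⟩
  · unfold hw
    apply continuous_finsetProd
    intro l _
    exact (hSc.comp (by fun_prop)).pow _
  · intro z
    have h := hF.per
    constructor
    · unfold hw
      apply Finset.prod_congr rfl
      intro l _
      rw [show z + (a : ℂ) - p l = (z - p l) + a by ring, (h (z - p l)).1]
    · unfold hw
      apply Finset.prod_congr rfl
      intro l _
      rw [show z + (b : ℂ) * I - p l = (z - p l) + b * I by ring, (h (z - p l)).2]
  · intro z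
    exact Finset.prod_nonneg fun l _ => pow_nonneg (hS0 _) _
  · refine ⟨∏ l, C ^ n l, fun z => ?_⟩
    exact Finset.prod_le_prod (fun l _ => pow_nonneg (hS0 _) _)
      fun l _ => pow_le_pow_left₀ (hS0 _) (hC _) _
  · intro z hz
    exact Finset.prod_pos fun l _ => pow_pos
      (lt_of_le_of_ne (hS0 _) fun h => hz l ((hSz _).1 h.symm)) _
  · intro q
    have key : ∀ s : Finset (Fin m), ∃ r0 : ℝ, 0 < r0 ∧ ∃ g : ℂ → ℂ,
        DifferentiableOn ℂ g (ball 0 r0) ∧ ∀ z ∈ ball (0 : ℂ) r0,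
        ∏ l ∈ s, (Sf a b F (q + z - p l)) ^ (n l) =
          ‖z‖ ^ (2 * ∑ l ∈ s, (if Lat a b (q - p l) then n l else 0)) *
            Real.exp (2 * (g z).re - π * ((∑ l ∈ s, n l : ℕ) : ℝ) / (a * b) * ‖z‖ ^ 2) := by
      intro s
      induction s using Finset.induction_on with
      | empty => exact ⟨1, one_pos, fun _ => 0, differentiableOn_const _, fun z _ => by simp⟩
      | insert l s hl ih =>
        obtain ⟨r1, hr1, g1, hg1, h1⟩ := ih
        obtain ⟨r2, hr2, g2, hg2, h2⟩ := GHw_loc hF (q - p l)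
        refine ⟨min r1 r2, lt_min hr1 hr2, fun z => g1 z + n l * g2 z, ?_, ?_⟩
        · exact (hg1.mono (ball_subset_ball (min_le_left _ _))).add
            ((differentiableOn_const _).mul (hg2.mono (ball_subset_ball (min_le_right _ _))))
        · intro z hz
          rw [Finset.prod_insert hl, Finset.sum_insert hl, Finset.sum_insert hl,
            h1 z (ball_subset_ball (min_le_left _ _) hz),
            show q + z - p l = (q - p l) + z by ring,
            h2 z (ball_subset_ball (min_le_right _ _) hz), mul_pow, ← pow_mul,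
            ← Real.exp_nat_mul]
          have e1 : 2 * (if Lat a b (q - p l) then 1 else 0) * n l =
              2 * (if Lat a b (q - p l) then n l else 0) := by
            split_ifs <;> ring
          rw [e1, mul_mul_mul_comm, ← pow_add, ← Real.exp_add, ← mul_add]
          congr 2
          have e2 : (g1 z + (n l : ℂ) * g2 z).re = (g1 z).re + n l * (g2 z).re := by
            rw [add_re]; congr 1
            rw [show ((n l : ℕ) : ℂ) = ((n l : ℝ) : ℂ) by push_cast; rfl, re_ofReal_mul]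
          rw [e2]
          push_cast
          ring
    obtain ⟨r0, hr0, g, hg, h⟩ := key Finset.univ
    refine ⟨r0, hr0, g, hg, fun z hz => ?_⟩
    unfold hw nq Nv
    exact h z hz

end Pool.Agent.Vx

end
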