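import Pool.Agent.Work.MP_afe918_an.Bd.B01
import Pool.Agent.Work.MP_afe918_an.Bd.B05
import Pool.Agent.Work.MP_afe918_an.Bd.B06
import Pool.Agent.Work.MP_afe918_an.Bd.B02

/-! Bundle of small proof modules (one section per former module). -/

section

/-!
# MP_afe918_an, item Vhw: the weight is admissible
-/

set_option autoImplicit false

open Complex Set Filter Topology MeasureTheory Metric
open scoped Real ContDiff

namespace Pool.Agent.Vx

theorem V_hw_lat_countable (a b : ℝ) : {z : ℂ | Lat a b z}.Countable := by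
  have : {z : ℂ | Lat a b z} ⊆ Set.range (fun q : ℤ × ℤ => (q.1 * a + q.2 * b * I : ℂ)) := by
    rintro z ⟨m, k, h⟩
    exact ⟨(m, k), h.symm⟩
  exact (Set.countable_range _).mono this

theorem pr_V_hw (hG : V_G) (htr : V_tr) : V_hw := by
  intro a b F hF m p n
  have ha := hF.apos
  have hb := hF.bpos
  obtain ⟨hSc, hS0, hSz, hGp, hGe, -⟩ := hG a b F hF
  have hcont : Continuous (hw a b F p n) := by
    unfold hw
    refine continuous_finsetProd _ fun l _ => ?_
    exact (hSc.comp (continuous_id.sub continuous_const)).pow _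
  have hper : Per a b (hw a b F p n) := by
    intro z
    unfold hw
    constructor
    · refine Finset.prod_congr rfl fun l _ => ?_
      rw [show z + a - p l = (z - p l) + a by ring, (hF.per (z - p l)).1]
    · refine Finset.prod_congr rfl fun l _ => ?_
      rw [show z + b * I - p l = (z - p l) + b * I by ring, (hF.per (z - p l)).2]
  have hnn : ∀ z, 0 ≤ hw a b F p n z := by
    intro z
    unfold hw
    exact Finset.prod_nonneg fun l _ => pow_nonneg (hS0 _) _
  have hpos : ∀ z, (∀ l, ¬ Lat a b (z - p l)) → 0 < hw a b F p n z := by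
    intro z hz
    unfold hw
    refine Finset.prod_pos fun l _ => pow_pos ?_ _
    exact lt_of_le_of_ne (hS0 _) (fun h => hz l ((hSz _).mp h.symm))
  have hnull0 : ∀ᵐ z : ℂ, ∀ l, ¬ Lat a b (z - p l) := by
    rw [ae_all_iff]
    intro l
    have hc : {z : ℂ | Lat a b (z - p l)}.Countable := by
      have : {z : ℂ | Lat a b (z - p l)} = (fun z => z - p l) ⁻¹' {z | Lat a b z} := rfl
      rw [this]
      exact (V_hw_lat_countable a b).preimage (sub_left_injective)
    have h0 := hc.measure_zero volume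
    rw [ae_iff]
    simpa using h0
  refine ⟨hcont, hper, hnn, ?_, ?_, ?_⟩
  · filter_upwards [hnull0] with z hz
    exact hpos z hz
  · -- integrability of the logarithm
    have hint : IntegrableOn (fun z => ∑ l, (n l : ℝ) * (-(4 * π) * Gr a b F (z - p l)))
        (rect a b 0) := by
      refine integrable_finsetSum _ fun l _ => ?_
      have h1 := ((htr a b ha hb).2.2 (Gr a b F) hGp hF.integ (-(p l))).1
      exact (h1.const_mul (-(4 * π))).const_mul (n l : ℝ)
    refine hint.congr ?_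
    have hnull : ∀ᵐ z : ℂ ∂(volume.restrict (rect a b 0)), ∀ l, ¬ Lat a b (z - p l) :=
      ae_restrict_of_ae hnull0
    filter_upwards [hnull] with z hz
    unfold hw
    rw [Real.log_prod]
    · refine Finset.sum_congr rfl fun l _ => ?_
      rw [Real.log_pow]
      unfold Gr
      field_simp
    · intro l _
      exact (pow_pos (lt_of_le_of_ne (hS0 _) (fun h => hz l ((hSz _).mp h.symm))) _).ne'
  · -- a horizontal line without zeros
    have hcnt : (⋃ l : Fin m, Set.range (fun k : ℤ => (p l).im + k * b)).Countable :=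
      Set.countable_iUnion fun l => Set.countable_range _
    obtain ⟨y0, hy0⟩ : ∃ y0 : ℝ, y0 ∉ (⋃ l : Fin m, Set.range (fun k : ℤ => (p l).im + k * b)) := by
      by_contra hcon
      have hall : ∀ y : ℝ, y ∈ (⋃ l : Fin m, Set.range (fun k : ℤ => (p l).im + k * b)) := by
        intro y
        by_contra h
        exact hcon ⟨y, h⟩
      have huniv : (⋃ l : Fin m, Set.range (fun k : ℤ => (p l).im + k * b)) = Set.univ :=
        Set.eq_univ_of_forall hall
      rw [huniv] at hcnt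
      exact Cardinal.not_countable_real hcnt
    have hline : ∀ z : ℂ, z.im = y0 → 0 < hw a b F p n z := by
      intro z hz
      refine hpos z fun l hl => hy0 ?_
      obtain ⟨m', k, h⟩ := hl
      rw [Set.mem_iUnion]
      refine ⟨l, k, ?_⟩
      have := congrArg Complex.im h
      simp at this
      show (p l).im + k * b = y0
      rw [← hz]
      linarith
    have hS : IsCompact (Icc (0 : ℝ) a ×ℂ ({y0} : Set ℝ)) := isCompact_Icc.reProdIm isCompact_singleton
    have hSne : (Icc (0 : ℝ) a ×ℂ ({y0} : Set ℝ)).Nonempty := by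
      refine ⟨⟨0, y0⟩, ?_⟩
      rw [Complex.mem_reProdIm]
      exact ⟨⟨le_refl _, ha.le⟩, rfl⟩
    obtain ⟨z1, hz1, hmin⟩ := hS.exists_isMinOn hSne hcont.continuousOn
    have hm0 : 0 < hw a b F p n z1 := by
      refine hline z1 ?_
      rw [Complex.mem_reProdIm] at hz1
      exact hz1.2
    have hU : IsOpen {z | hw a b F p n z1 / 2 < hw a b F p n z} :=
      isOpen_lt continuous_const hcont
    have hSU : (Icc (0 : ℝ) a ×ℂ ({y0} : Set ℝ)) ⊆ {z | hw a b F p n z1 / 2 < hw a b F p n z} := by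
      intro z hz
      have h1 : hw a b F p n z1 ≤ hw a b F p n z := hmin hz
      show hw a b F p n z1 / 2 < hw a b F p n z
      linarith
    obtain ⟨δ, hδ, hδU⟩ := hS.exists_thickening_subset_open hU hSU
    refine ⟨y0, δ / 2, hw a b F p n z1 / 2, by linarith, by linarith, fun z hz => ?_⟩
    set j : ℤ := ⌊z.re / a⌋ with hj
    set w : ℂ := ⟨z.re - j * a, z.im⟩ with hw'
    have hzw : w + j * a + (0 : ℤ) * b * I = z := by
      apply Complex.ext
      · simp [hw']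
      · simp [hw']
    rw [← hzw, GSf_per hper j 0 w]
    refine le_of_lt (hδU ?_)
    rw [Metric.mem_thickening_iff]
    refine ⟨⟨w.re, y0⟩, ?_, ?_⟩
    · rw [Complex.mem_reProdIm]
      have e1 : (j : ℝ) * a ≤ z.re := by
        rw [← le_div_iff₀ ha]
        exact Int.floor_le _
      have e2 : z.re < ((j : ℝ) + 1) * a := by
        rw [← div_lt_iff₀ ha]
        exact Int.lt_floor_add_one _
      refine ⟨⟨?_, ?_⟩, rfl⟩
      · show 0 ≤ z.re - j * a
        linarith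
      · show z.re - j * a ≤ a
        linarith
    · rw [Complex.dist_eq]
      have h1 : w - (⟨w.re, y0⟩ : ℂ) = ((z.im - y0 : ℝ) : ℂ) * I := by
        apply Complex.ext
        · simp
        · simp [hw']
      rw [h1, norm_mul, Complex.norm_I, mul_one, Complex.norm_real, Real.norm_eq_abs]
      linarith

end Pool.Agent.Vx

end

section

set_option autoImplicit false

open Complex Set Filter Topology MeasureTheory Metric
open scoped Real ContDiff

namespace Pool.Agent.Vx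

theorem V_mean_vol {a b : ℝ} (ha : 0 < a) (hb : 0 < b) :
    (volume : Measure ℂ).real (rect a b 0) = a * b := by
  have h : rect a b 0 = Complex.measurableEquivRealProd ⁻¹'
      (Ioo (-(a / 2)) (a / 2) ×ˢ Ioo (-(b / 2)) (b / 2)) := by
    ext z
    simp only [rect, mem_ofPred_eq, zero_re, zero_im, sub_zero, mem_preimage, mem_prod, mem_Ioo,
      abs_lt, Complex.measurableEquivRealProd_apply]
  rw [Measure.real, h, Complex.volume_preserving_equiv_real_prod.measure_preimage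
    (measurableSet_Ioo.prod measurableSet_Ioo).nullMeasurableSet, Measure.volume_eq_prod,
    Measure.prod_prod, Real.volume_Ioo, Real.volume_Ioo, ENNReal.toReal_mul,
    ENNReal.toReal_ofReal (by linarith), ENNReal.toReal_ofReal (by linarith)]
  ring

/-- the good set -/
def V_mean_P (a : ℝ) {k : ℕ} (τ θ : ℝ) (c : Pa k) (t : Fin k → ℝ) (x : ℝ) : Prop :=
  (∃ (j : Fin k) (n : ℤ), |x - t j - n * a| ≤ θ) ∧ τ ≤ Tc a c x

theorem V_mean_measP (a : ℝ) {k : ℕ} (τ θ : ℝ) (c : Pa k) (t : Fin k → ℝ) :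
    MeasurableSet {x | ¬ V_mean_P a τ θ c t x} := by
  have h1 : {x | ¬ V_mean_P a τ θ c t x} =
      ((⋃ (j : Fin k), ⋃ (n : ℤ), {x : ℝ | |x - t j - n * a| ≤ θ}) ∩ {x | τ ≤ Tc a c x})ᶜ := by
    ext x
    simp [V_mean_P]
  rw [h1]
  refine (MeasurableSet.inter ?_ ?_).compl
  · refine MeasurableSet.iUnion fun j => MeasurableSet.iUnion fun n => ?_
    exact (isClosed_le (by fun_prop) continuous_const).measurableSet
  · exact (isClosed_le continuous_const (V_lwl_Tc_cont a c)).measurableSet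

theorem V_mean_kp_le {a b y0 L : ℝ} (hL : 0 < L) (x : ℂ) (t : ℝ) : kp a b y0 L x t ≤ L ^ 2 := by
  unfold kp
  have h1 := V_k3_den_pos a b y0 L x t
  have h2 : 1 ≤ 1 + L ^ 2 * Dd a b y0 x t := by
    have := V_k3_Dd_nonneg a b y0 x t
    have : 0 ≤ L ^ 2 * Dd a b y0 x t := by positivity
    linarith
  have h3 : L / (1 + L ^ 2 * Dd a b y0 x t) ≤ L := div_le_self hL.le h2
  have h4 : 0 ≤ L / (1 + L ^ 2 * Dd a b y0 x t) := by positivity
  exact pow_le_pow_left₀ h4 h3 2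

theorem V_mean_kp_comp (hD : V_D) {a b y0 L : ℝ} (ha : 0 < a) (hb : 0 < b) (hL : 0 < L) (x : ℂ)
    (s t' : ℝ) (n : ℤ) (h : |s - t' - n * a| ≤ 1 / L) :
    kp a b y0 L x s ≤ 9 * kp a b y0 L x t' := by
  have h1 := (hD a b y0 ha hb).2.2.2 x s t' n L 1 hL one_pos le_rfl h
  have h2 := V_k3_den_pos a b y0 L x s
  have h3 := V_k3_den_pos a b y0 L x t'
  unfold kp
  have h4 : L / (1 + L ^ 2 * Dd a b y0 x s) ≤ 3 * (L / (1 + L ^ 2 * Dd a b y0 x t')) := by
    rw [← mul_div_assoc, div_le_div_iff₀ h2 h3]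
    nlinarith
  have h5 : 0 ≤ L / (1 + L ^ 2 * Dd a b y0 x s) := by positivity
  calc (L / (1 + L ^ 2 * Dd a b y0 x s)) ^ 2 ≤ (3 * (L / (1 + L ^ 2 * Dd a b y0 x t'))) ^ 2 :=
        pow_le_pow_left₀ h5 h4 2
    _ = 9 * (L / (1 + L ^ 2 * Dd a b y0 x t')) ^ 2 := by ring

/-- the mass of the bubble under the weight -/
theorem V_mean_si (hD : V_D) {a b y0 L τ θ ε β : ℝ} (ha : 0 < a) (hb : 0 < b) (hL : 0 < L)
    (hθ : θ ≤ 1 / L) {k : ℕ} (c : Pa k) (t : Fin k → ℝ) (hc : Conc a τ θ ε β c t) (x : ℂ) :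
    si a β c (kp a b y0 L x) ≤
      (9 * ∑ j, kp a b y0 L x (t j) + L ^ 2 * ε) * si a β c (fun _ => 1) := by
  classical
  set g : ℝ → ℝ := fun x => if V_mean_P a τ θ c t x then 0 else 1 with hg
  have hc' : si a β c g ≤ ε * si a β c (fun _ => 1) := by
    have h0 : si a β c g = si a β c (fun x => if (∃ (j : Fin k) (n : ℤ), |x - t j - n * a| ≤ θ) ∧
        τ ≤ Tc a c x then 0 else 1) := by
      congr 1
      funext x
      simp only [hg, V_mean_P]
      congr 1
    rw [h0]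
    unfold Conc at hc
    convert hc using 3
  set A : ℝ := 9 * ∑ j, kp a b y0 L x (t j) with hA
  have hA0 : 0 ≤ A := by
    have : 0 ≤ ∑ j, kp a b y0 L x (t j) := Finset.sum_nonneg fun j _ => V_k3_kp_nonneg _ _ _ _ _ _
    positivity
  have hpt : ∀ s, kp a b y0 L x s ≤ A + L ^ 2 * g s := by
    intro s
    by_cases hs : V_mean_P a τ θ c t s
    · obtain ⟨j, n, hn⟩ := hs.1
      have h1 := V_mean_kp_comp (y0 := y0) hD ha hb hL x s (t j) n (hn.trans hθ)
      have h2 : kp a b y0 L x (t j) ≤ ∑ j, kp a b y0 L x (t j) :=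
        Finset.single_le_sum (f := fun j => kp a b y0 L x (t j))
          (fun j _ => V_k3_kp_nonneg _ _ _ _ _ _) (Finset.mem_univ j)
      have h3 : g s = 0 := by simp only [hg]; rw [if_pos hs]
      rw [h3, hA]
      linarith
    · have h3 : g s = 1 := by simp only [hg]; rw [if_neg hs]
      have h4 := V_mean_kp_le (a := a) (b := b) (y0 := y0) hL x s
      rw [h3]
      linarith
  have hgi : IntegrableOn (fun s => g s * Real.exp (β * Tc a c s)) (Ioc 0 a) := by
    have h5 : (fun s => g s * Real.exp (β * Tc a c s)) =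
        indicator {x | ¬ V_mean_P a τ θ c t x} (fun s => Real.exp (β * Tc a c s)) := by
      funext s
      by_cases hs : V_mean_P a τ θ c t s
      · have h3 : g s = 0 := by simp only [hg]; rw [if_pos hs]
        rw [h3, indicator_of_notMem (by simpa using hs), zero_mul]
      · have h3 : g s = 1 := by simp only [hg]; rw [if_neg hs]
        rw [h3, indicator_of_mem (by simpa using hs), one_mul]
    rw [h5]
    have h6 := V_lwl_int (a := a) (β := β) c (continuous_const : Continuous fun _ : ℝ => (1 : ℝ))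
    simp only [one_mul] at h6
    exact Integrable.indicator h6 (V_mean_measP a τ θ c t)
  have h1i := V_lwl_int (a := a) (β := β) c (continuous_const : Continuous fun _ : ℝ => (1 : ℝ))
  have h7 : si a β c (kp a b y0 L x) ≤ A * si a β c (fun _ => 1) + L ^ 2 * si a β c g := by
    unfold si
    rw [← integral_const_mul, ← integral_const_mul, ← integral_add (h1i.const_mul A)
      (hgi.const_mul (L ^ 2))]
    apply integral_mono
    · exact V_lwl_int c (V_k3_kp_contt a b y0 L x)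
    · exact (h1i.const_mul A).add (hgi.const_mul (L ^ 2))
    · intro s
      show kp a b y0 L x s * Real.exp (β * Tc a c s) ≤
        A * (1 * Real.exp (β * Tc a c s)) + L ^ 2 * (g s * Real.exp (β * Tc a c s))
      have h8 := mul_le_mul_of_nonneg_right (hpt s) (Real.exp_pos (β * Tc a c s)).le
      linarith
  have h9 : L ^ 2 * si a β c g ≤ L ^ 2 * (ε * si a β c (fun _ => 1)) := by gcongr
  linarith

theorem V_mean_prod {ι : Type} [DecidableEq ι] (s : Finset ι) (q : ι → ℝ) (hq : ∀ i, 0 ≤ q i) :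
    1 + 9 * ∑ i ∈ s, q i ≤ 9 ^ s.card * ∏ i ∈ s, (1 + q i) := by
  induction s using Finset.induction_on with
  | empty => simp
  | insert i s hi ih =>
    rw [Finset.sum_insert hi, Finset.prod_insert hi, Finset.card_insert_of_notMem hi, pow_succ]
    have h1 : 0 ≤ ∑ i ∈ s, q i := Finset.sum_nonneg fun i _ => hq i
    set X := 9 ^ s.card * ∏ i ∈ s, (1 + q i) with hX
    have h2 : 9 ^ s.card * 9 * ((1 + q i) * ∏ i ∈ s, (1 + q i)) = 9 * (1 + q i) * X := by
      rw [hX]; ring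
    rw [h2]
    have h3 : 1 ≤ X := by linarith
    have h4 := hq i
    nlinarith [mul_nonneg h4 (by linarith : (0:ℝ) ≤ X - 1)]

theorem pr_V_mean (hD : V_D) (hk2 : V_k2) (hreg : V_reg) : V_mean := by
  intro a b y0 τ k ha hb
  obtain ⟨C2, hC2⟩ := hk2 a b y0 ha hb
  refine ⟨k * Real.log 9 * (a * b) + k * C2, ?_⟩
  intro L hL
  have hLpos : 0 < L := by linarith
  refine ⟨1 / L ^ 4, by positivity, ?_⟩
  intro θ β c t hθ hc
  have hS : 0 < si a β c (fun _ => 1) := V_lwl_si_pos ha c continuous_const fun _ => one_pos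
  have htf : Continuous (tf a b y0 L β c) := ((hreg a b y0 L β k ha hb hLpos).2.2.2 c).cont
  set q : Fin k → ℂ → ℝ := fun j x => 1 / (1 / L ^ 2 + Dd a b y0 x (t j)) ^ 2 with hq
  have hden : ∀ j x, 0 < 1 / L ^ 2 + Dd a b y0 x (t j) := by
    intro j x
    have := V_k3_Dd_nonneg a b y0 x (t j)
    positivity
  have hqc : ∀ j, Continuous (q j) := by
    intro j
    refine Continuous.div continuous_const ?_ fun x => (pow_pos (hden j x) 2).ne'
    exact (continuous_const.add (V_k3_Dd_cont a b y0 continuous_id continuous_const)).pow 2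
  have hq0 : ∀ j x, 0 ≤ q j x := by
    intro j x
    simp only [hq]
    positivity
  have hlc : ∀ j, Continuous (fun x => Real.log (1 + q j x)) := fun j =>
    (continuous_const.add (hqc j)).log fun x => ne_of_gt (by
      have := hq0 j x
      show (0 : ℝ) < 1 + q j x
      linarith)
  have hpt : ∀ x, tf a b y0 L β c x ≤
      (-2 * Real.log L + k * Real.log 9) + ∑ j, Real.log (1 + q j x) := by
    intro x
    have h1 := V_mean_si hD ha hb hLpos hθ c t hc (y0 := y0) x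
    have h2 : si a β c (kp a b y0 L x) / si a β c (fun _ => 1) ≤
        1 / L ^ 2 * (9 ^ k * ∏ j, (1 + q j x)) := by
      rw [div_le_iff₀ hS]
      refine h1.trans ?_
      apply mul_le_mul_of_nonneg_right _ hS.le
      have h3 : ∀ j, kp a b y0 L x (t j) = 1 / L ^ 2 * q j x := by
        intro j
        have h4 := hden j x
        have h5 := V_k3_den_pos a b y0 L x (t j)
        have h6 : 1 + L ^ 2 * Dd a b y0 x (t j) = L ^ 2 * (1 / L ^ 2 + Dd a b y0 x (t j)) := by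
          field_simp
        simp only [kp, hq]
        rw [h6]
        field_simp
      have h7 := V_mean_prod Finset.univ (fun j => q j x) fun j => hq0 j x
      rw [Finset.card_univ, Fintype.card_fin] at h7
      have h8 : 9 * ∑ j, kp a b y0 L x (t j) + L ^ 2 * (1 / L ^ 4) =
          1 / L ^ 2 * (1 + 9 * ∑ j, q j x) := by
        simp only [h3]
        rw [← Finset.mul_sum]
        field_simp
        ring
      rw [h8]
      gcongr
    have h9 : 0 < si a β c (kp a b y0 L x) / si a β c (fun _ => 1) :=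
      div_pos (V_lwl_si_pos ha c (V_k3_kp_contt a b y0 L x) fun t => V_lwl_kp_pos hLpos x t) hS
    have h10 : ∀ j, 0 < 1 + q j x := fun j => by have := hq0 j x; linarith
    have h11 : 0 < ∏ j, (1 + q j x) := Finset.prod_pos fun j _ => h10 j
    unfold tf
    refine (Real.log_le_log h9 h2).trans (le_of_eq ?_)
    rw [Real.log_mul (by positivity) (by positivity), Real.log_mul (by positivity) h11.ne',
      Real.log_prod (fun j _ => (h10 j).ne'), Real.log_pow, one_div, Real.log_inv, Real.log_pow]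
    push_cast
    ring
  have h12 : ti a b (tf a b y0 L β c) ≤
      ti a b (fun x => (-2 * Real.log L + k * Real.log 9) + ∑ j, Real.log (1 + q j x)) := by
    unfold ti
    apply integral_mono (V_k3_intRect htf)
    · exact V_k3_intRect (continuous_const.add (continuous_finsetSum _ fun j _ => hlc j))
    · exact hpt
  refine h12.trans ?_
  have h13 : ti a b (fun x => (-2 * Real.log L + k * Real.log 9) + ∑ j, Real.log (1 + q j x)) =
      (-2 * Real.log L + k * Real.log 9) * (a * b) +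
        ∑ j, ti a b (fun x => Real.log (1 + q j x)) := by
    unfold ti
    rw [integral_add (V_k3_intRect continuous_const)
      (V_k3_intRect (continuous_finsetSum _ fun j _ => hlc j)),
      integral_finsetSum _ fun j _ => V_k3_intRect (hlc j), setIntegral_const, V_mean_vol ha hb,
      smul_eq_mul]
    ring
  rw [h13]
  have h14 : ∑ j, ti a b (fun x => Real.log (1 + q j x)) ≤ k * C2 := by
    calc ∑ j, ti a b (fun x => Real.log (1 + q j x)) ≤ ∑ _j : Fin k, C2 :=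
          Finset.sum_le_sum fun j _ => (hC2 L (t j) hL).2.2
      _ = k * C2 := by simp
  linarith

end Pool.Agent.Vx

end

section

/-!
# MP_afe918_an, item WAlg: algebraic identity of the moments
-/

set_option autoImplicit false

open Complex Set Filter Topology MeasureTheory Metric
open scoped Real ContDiff ComplexConjugate

namespace Pool.Agent.Vx

theorem pr_WAlg : S_WAlg := by
  intro m0 m3 m4 sp sm g1 g2 hsp hsm m h0 h1 h2 h3 h4
  have hpi : (π : ℂ) ≠ 0 := by exact_mod_cast Real.pi_ne_zero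
  simp only [Finset.sum_range_succ, Finset.sum_range_zero, cf, h0, h1, h2, h3, h4]
  norm_num
  field_simp
  ring

end Pool.Agent.Vx

end

section

/-!
# MP_afe918_an, block W, item WAng: comparison of `E z` and `E (I z)`
-/

set_option autoImplicit false

open Complex Set Filter Topology MeasureTheory Metric
open scoped Real ContDiff ComplexConjugate

namespace Pool.Agent.Vx

theorem WAng_log {w t : ℂ} (hw : w ≠ 0) (h : ‖w‖ / 2 ≤ ‖w - t‖) :
    |Real.log ‖w - t‖ - Real.log ‖w‖| ≤ 2 * (‖t‖ / ‖w‖) := by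
  have hw' : 0 < ‖w‖ := norm_pos_iff.2 hw
  have hpos : 0 < ‖w - t‖ := by linarith
  rw [← Real.log_div hpos.ne' hw'.ne']
  set x := ‖w - t‖ / ‖w‖ with hx
  have hx0 : 0 < x := by positivity
  have hx2 : 1 / 2 ≤ x := by
    rw [hx, le_div_iff₀ hw']
    linarith
  have h1 : |x - 1| ≤ ‖t‖ / ‖w‖ := by
    have e : x - 1 = (‖w - t‖ - ‖w‖) / ‖w‖ := by
      rw [hx]
      field_simp
    rw [e, abs_div, abs_norm]
    refine div_le_div_of_nonneg_right ?_ hw'.le
    have h0 := abs_norm_sub_norm_le (w - t) w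
    have e2 : w - t - w = -t := by ring
    rwa [e2, norm_neg] at h0
  have h2 := Real.log_le_sub_one_of_pos hx0
  have h3 := Real.one_sub_inv_le_log_of_pos hx0
  have h4 : x⁻¹ - 1 ≤ 2 * |x - 1| := by
    have h6 : x⁻¹ ≤ 2 := by
      rw [inv_le_comm₀ hx0 two_pos]
      linarith
    have e : x⁻¹ - 1 = (1 - x) * x⁻¹ := by field_simp
    rw [e]
    have h5 : 1 - x ≤ |x - 1| := by
      rw [abs_sub_comm]
      exact le_abs_self _
    calc (1 - x) * x⁻¹ ≤ |x - 1| * x⁻¹ := mul_le_mul_of_nonneg_right h5 (inv_pos.2 hx0).le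
      _ ≤ |x - 1| * 2 := mul_le_mul_of_nonneg_left h6 (abs_nonneg _)
      _ = _ := mul_comm _ _
  rw [abs_le]
  constructor
  · linarith
  · have h7 := le_abs_self (x - 1)
    have h8 := abs_nonneg (x - 1)
    linarith

theorem WAng_near {w t : ℂ} (hwt : w ≠ t) (h : ‖w - t‖ < ‖w‖ / 2) :
    |Real.log ‖w - t‖ - Real.log ‖w‖| ≤ ‖w‖ * (1 / ‖w - t‖) := by
  have hpos : 0 < ‖w - t‖ := norm_pos_iff.2 (sub_ne_zero.2 hwt)
  have hw' : 0 < ‖w‖ := by linarith
  rw [abs_sub_comm, ← Real.log_div hw'.ne' hpos.ne', mul_one_div]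
  have h1 : 1 ≤ ‖w‖ / ‖w - t‖ := by
    rw [le_div_iff₀ hpos]
    linarith
  rw [abs_of_nonneg (Real.log_nonneg h1)]
  have := Real.log_le_sub_one_of_pos (by positivity : 0 < ‖w‖ / ‖w - t‖)
  linarith

theorem WAng_pot (hR : S_Riesz) {ρ K M1 : ℝ} {E : ℂ → ℝ} (hE : Continuous E)
    (hE0 : ∀ z, 0 ≤ E z) (hK : 0 ≤ K)
    (htail : ∀ z ∈ ball (0 : ℂ) ρ, 2 ≤ ‖z‖ → E z ≤ K / ‖z‖ ^ 6)
    (hM1 : ∫ z in ball (0 : ℂ) ρ, ‖z‖ * E z ≤ M1) {w : ℂ} (hw : 4 ≤ ‖w‖) (_hwρ : ‖w‖ ≤ ρ / 4) :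
    |pot ρ E w + 1 / (2 * π) * (Real.log ‖w‖ * ms ρ E)| ≤
      1 / (2 * π) * ((2 * M1 + 192 * π * K) / ‖w‖) := by
  have hπ := Real.pi_pos
  have hw0 : 0 < ‖w‖ := by linarith
  have hwne : w ≠ 0 := norm_pos_iff.1 hw0
  set g : ℂ → ℝ := fun t => 64 * K / ‖w‖ ^ 6 * ‖w‖ * (1 / ‖w - t‖) with hg
  have hc0 : 0 ≤ 64 * K / ‖w‖ ^ 6 * ‖w‖ := by positivity
  have hRz := hR w w (‖w‖ / 2) (by positivity)
  have hgint : Integrable ((ball w (‖w‖ / 2)).indicator g) := by
    rw [integrable_indicator_iff measurableSet_ball]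
    exact hRz.1.const_mul _
  have hg0 : ∀ t, 0 ≤ (ball w (‖w‖ / 2)).indicator g t := fun t =>
    indicator_nonneg (fun t _ => mul_nonneg hc0 (by positivity)) t
  have hint1 : IntegrableOn (fun t => 2 / ‖w‖ * (‖t‖ * E t)) (ball (0 : ℂ) ρ) :=
    ((continuous_const.mul (continuous_norm.mul hE)).continuousOn.integrableOn_compact
      (isCompact_closedBall _ _)).mono_set ball_subset_closedBall
  have hEint : IntegrableOn E (ball (0 : ℂ) ρ) :=
    (hE.continuousOn.integrableOn_compact (isCompact_closedBall _ _)).mono_set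
      ball_subset_closedBall
  set bb : ℂ → ℝ := fun t => 2 / ‖w‖ * (‖t‖ * E t) + (ball w (‖w‖ / 2)).indicator g t with hbb
  have hbint : IntegrableOn bb (ball (0 : ℂ) ρ) := hint1.add hgint.integrableOn
  set f : ℂ → ℝ := fun t => (Real.log ‖w - t‖ - Real.log ‖w‖) * E t with hf
  have hpt : ∀ t ∈ ball (0 : ℂ) ρ, w ≠ t → ‖f t‖ ≤ bb t := by
    intro t ht htw
    rw [hf, hbb]
    simp only
    rw [norm_mul, Real.norm_eq_abs, Real.norm_of_nonneg (hE0 t)]
    by_cases hcase : ‖w‖ / 2 ≤ ‖w - t‖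
    · have h1 := mul_le_mul_of_nonneg_right (WAng_log hwne hcase) (hE0 t)
      have h2 := hg0 t
      have e : 2 * (‖t‖ / ‖w‖) * E t = 2 / ‖w‖ * (‖t‖ * E t) := by ring
      linarith
    · push Not at hcase
      have hmem : t ∈ ball w (‖w‖ / 2) := by
        rw [mem_ball, dist_eq_norm, norm_sub_rev]
        exact hcase
      rw [indicator_of_mem hmem]
      have h1 := WAng_near htw hcase
      have ht2 : ‖w‖ / 2 ≤ ‖t‖ := by
        have := norm_sub_norm_le w t
        linarith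
      have h3 : E t ≤ 64 * K / ‖w‖ ^ 6 := by
        refine (htail t ht (by linarith)).trans ?_
        have h4 : (‖w‖ / 2) ^ 6 ≤ ‖t‖ ^ 6 := pow_le_pow_left₀ (by positivity) ht2 6
        calc K / ‖t‖ ^ 6 ≤ K / (‖w‖ / 2) ^ 6 :=
              div_le_div_of_nonneg_left hK (by positivity) h4
          _ = 64 * K / ‖w‖ ^ 6 := by
            rw [div_pow]
            field_simp
            norm_num
      have h5 : |Real.log ‖w - t‖ - Real.log ‖w‖| * E t ≤
          ‖w‖ * (1 / ‖w - t‖) * (64 * K / ‖w‖ ^ 6) :=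
        mul_le_mul h1 h3 (hE0 t) (by positivity)
      have h6 : 0 ≤ 2 / ‖w‖ * (‖t‖ * E t) :=
        mul_nonneg (by positivity) (mul_nonneg (norm_nonneg _) (hE0 t))
      have e : g t = ‖w‖ * (1 / ‖w - t‖) * (64 * K / ‖w‖ ^ 6) := by
        rw [hg]
        ring
      rw [e]
      linarith
  have hae : ∀ᵐ t ∂(volume.restrict (ball (0 : ℂ) ρ)), ‖f t‖ ≤ bb t := by
    have hne : ∀ᵐ t : ℂ, w ≠ t := by
      rw [ae_iff]
      have : {a : ℂ | ¬ w ≠ a} = {w} := by
        ext a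
        simp [eq_comm]
      rw [this]
      exact measure_singleton w
    filter_upwards [ae_restrict_mem measurableSet_ball, ae_restrict_of_ae hne] with t ht h1
    exact hpt t ht h1
  have hfint : IntegrableOn f (ball (0 : ℂ) ρ) := by
    refine Integrable.mono' hbint ?_ hae
    refine AEStronglyMeasurable.mul ?_ hE.aestronglyMeasurable
    exact ((Real.measurable_log.comp
      ((continuous_const.sub continuous_id).norm.measurable)).sub_const _).aestronglyMeasurable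
  have hnorm := norm_integral_le_of_norm_le hbint hae
  have hbval : ∫ t in ball (0 : ℂ) ρ, bb t ≤ (2 * M1 + 192 * π * K) / ‖w‖ := by
    have e1 : ∫ t in ball (0 : ℂ) ρ, bb t = (∫ t in ball (0 : ℂ) ρ, 2 / ‖w‖ * (‖t‖ * E t)) +
        ∫ t in ball (0 : ℂ) ρ, (ball w (‖w‖ / 2)).indicator g t :=
      integral_add hint1 hgint.integrableOn
    have e2 : ∫ t in ball (0 : ℂ) ρ, 2 / ‖w‖ * (‖t‖ * E t) ≤ 2 / ‖w‖ * M1 := by
      rw [integral_const_mul]
      exact mul_le_mul_of_nonneg_left hM1 (by positivity)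
    have e3 : ∫ t in ball (0 : ℂ) ρ, (ball w (‖w‖ / 2)).indicator g t ≤
        ∫ t, (ball w (‖w‖ / 2)).indicator g t :=
      setIntegral_le_integral hgint (Eventually.of_forall hg0)
    have e4 : ∫ t, (ball w (‖w‖ / 2)).indicator g t =
        64 * K / ‖w‖ ^ 6 * ‖w‖ * ∫ t in ball w (‖w‖ / 2), 1 / ‖w - t‖ := by
      rw [integral_indicator measurableSet_ball, hg, integral_const_mul]
    have e5 : 64 * K / ‖w‖ ^ 6 * ‖w‖ * ∫ t in ball w (‖w‖ / 2), 1 / ‖w - t‖ ≤
        64 * K / ‖w‖ ^ 6 * ‖w‖ * (6 * π * (‖w‖ / 2)) :=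
      mul_le_mul_of_nonneg_left hRz.2 hc0
    have e6 : 64 * K / ‖w‖ ^ 6 * ‖w‖ * (6 * π * (‖w‖ / 2)) ≤ 192 * π * K / ‖w‖ := by
      have e7 : 64 * K / ‖w‖ ^ 6 * ‖w‖ * (6 * π * (‖w‖ / 2)) =
          192 * π * K / ‖w‖ * (1 / ‖w‖ ^ 3) := by
        field_simp
        ring
      rw [e7]
      refine mul_le_of_le_one_right (by positivity) ?_
      rw [div_le_one₀ (by positivity)]
      exact one_le_pow₀ (by linarith)
    have e8 : (2 * M1 + 192 * π * K) / ‖w‖ = 2 / ‖w‖ * M1 + 192 * π * K / ‖w‖ := by ring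
    rw [e8]
    linarith
  have hsum : ∫ t in ball (0 : ℂ) ρ, Real.log ‖w - t‖ * E t =
      (∫ t in ball (0 : ℂ) ρ, f t) + Real.log ‖w‖ * ms ρ E := by
    have e1 : ∫ t in ball (0 : ℂ) ρ, Real.log ‖w - t‖ * E t =
        ∫ t in ball (0 : ℂ) ρ, (f t + Real.log ‖w‖ * E t) := by
      refine integral_congr_ae (Eventually.of_forall fun t => ?_)
      simp only [hf]
      ring
    have e2 : ∫ t in ball (0 : ℂ) ρ, (f t + Real.log ‖w‖ * E t) =
        (∫ t in ball (0 : ℂ) ρ, f t) + ∫ t in ball (0 : ℂ) ρ, Real.log ‖w‖ * E t :=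
      integral_add hfint (hEint.const_mul _)
    rw [e1, e2, integral_const_mul]
    rfl
  have hpot : pot ρ E w + 1 / (2 * π) * (Real.log ‖w‖ * ms ρ E) =
      -(1 / (2 * π)) * ∫ t in ball (0 : ℂ) ρ, f t := by
    unfold pot
    rw [hsum]
    ring
  rw [hpot, abs_mul, abs_neg, abs_of_pos (by positivity : 0 < 1 / (2 * π))]
  refine mul_le_mul_of_nonneg_left ?_ (by positivity)
  rw [Real.norm_eq_abs] at hnorm
  exact hnorm.trans hbval

theorem WAng_exp (x : ℝ) : |Real.exp x - 1| ≤ |x| * Real.exp |x| := by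
  have h1 : Real.exp x - 1 ≤ x * Real.exp x := by
    have h2 := Real.add_one_le_exp (-x)
    have h3 := mul_le_mul_of_nonneg_left h2 (Real.exp_pos x).le
    rw [← Real.exp_add, add_neg_cancel, Real.exp_zero] at h3
    linarith
  have h4 := Real.add_one_le_exp x
  have h5 : Real.exp x ≤ Real.exp |x| := Real.exp_le_exp.2 (le_abs_self x)
  have h6 : 1 ≤ Real.exp |x| := Real.one_le_exp (abs_nonneg x)
  rw [abs_le]
  constructor
  · have h7 : |x| ≤ |x| * Real.exp |x| := le_mul_of_one_le_right (abs_nonneg x) h6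
    have h8 := neg_abs_le x
    linarith
  · refine h1.trans ?_
    exact mul_le_mul (le_abs_self x) h5 (Real.exp_pos _).le (abs_nonneg x)

theorem pr_WAng (h1 : S_WM3) (_h2 : S_LogI) : S_WAng := by
  intro r H Λ R lam eta kap h E ht
  have hπ := Real.pi_pos
  obtain ⟨Ct, hCt⟩ := ht.tail
  obtain ⟨M, hM⟩ := h1 r H Λ R lam eta kap h E ht
  obtain ⟨K0, hK0⟩ := (Metric.isBounded_range_of_tendsto _ ht.k0).bddAbove
  have hK : ∀ j, kap j ≤ K0 := fun j => hK0 ⟨j, rfl⟩
  have hr := ht.pl.rpos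
  have hM0 : 0 ≤ M := by
    refine le_trans ?_ (hM 0).2.2.1
    exact integral_nonneg fun z => (ht.pl.loc 0).nonneg z
  have hH : 0 ≤ H := by
    have h2 := ht.pl.hH 0 0 (mem_ball_self (by have := W_rad ht.pl 0; linarith))
    have h3 : 0 ≤ H * R 0 := (norm_nonneg _).trans h2
    exact nonneg_of_mul_nonneg_left h3 (ht.pl.Rpos 0)
  have hKpos : 0 ≤ K0 := (ht.kpos 0).le.trans (hK 0)
  set X := 4 * H + 1 / π * (4 * M + 192 * π * (|Ct| * K0)) with hX
  have hX0 : 0 ≤ X := by positivity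
  set Y := r / 4 + 1 / 4 with hY
  refine ⟨|Ct| * (X * Real.exp (X * Y) + 4), Eventually.of_forall fun j z hz2 hz4 => ?_⟩
  have hRj := ht.pl.Rpos j
  have hrad := W_rad ht.pl j
  have hz0 : 0 < ‖z‖ := by linarith
  have hnI : ‖I * z‖ = ‖z‖ := by rw [norm_mul, Complex.norm_I, one_mul]
  have hzρ' : ‖z‖ ≤ (r / R j) / 4 := by
    refine hz4.trans (le_of_eq ?_)
    field_simp
  have hzρ : ‖z‖ < r / R j := by linarith
  have hmem : z ∈ ball (0 : ℂ) (r / R j) := by simpa using hzρ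
  have hmemI : I * z ∈ ball (0 : ℂ) (r / R j) := by
    rw [mem_ball_zero_iff, hnI]
    exact hzρ
  have hE0 := (ht.pl.loc j).nonneg
  have hEc := (ht.pl.loc j).cont
  have htail : ∀ t ∈ ball (0 : ℂ) (r / R j), 2 ≤ ‖t‖ → E j t ≤ |Ct| * kap j / ‖t‖ ^ 6 := by
    intro t ht1 ht2
    refine (hCt j t ht1 ht2).trans ?_
    refine div_le_div_of_nonneg_right ?_ (by positivity)
    exact mul_le_mul_of_nonneg_right (le_abs_self _) (ht.kpos j).le
  have hEz := htail z hmem hz2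
  have hEI := htail (I * z) hmemI (by rw [hnI]; exact hz2)
  rw [hnI] at hEI
  set D := R j * ‖z‖ + 1 / ‖z‖ with hD
  have hD0 : 0 ≤ D := by positivity
  set T := |Ct| * kap j / ‖z‖ ^ 6 with hT
  have hT0 : 0 ≤ T := (hE0 z).trans hEz
  have hgoal : |Ct| * (X * Real.exp (X * Y) + 4) * kap j / ‖z‖ ^ 6 * D =
      T * (X * Real.exp (X * Y) * D) + T * (4 * D) := by
    rw [hT]
    ring
  rw [hgoal]
  have hp1 : 0 ≤ T * (X * Real.exp (X * Y) * D) := by positivity
  have hp2 : 0 ≤ T * (4 * D) := by positivity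
  rcases lt_or_ge ‖z‖ 4 with hlt | hge
  · have h3 : 1 ≤ 4 * D := by
      have h4 : 1 / 4 ≤ 1 / ‖z‖ := one_div_le_one_div_of_le hz0 hlt.le
      have h5 : 0 ≤ R j * ‖z‖ := by positivity
      linarith
    have h6 : |E j z - E j (I * z)| ≤ T := by
      rw [abs_le]
      constructor
      · have := hE0 z
        linarith
      · have := hE0 (I * z)
        linarith
    have h7 : T ≤ T * (4 * D) := le_mul_of_one_le_right hT0 h3
    linarith
  · -- the case of large `z`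
    have hRz := pr_Riesz
    have hint : ∀ n : ℕ, IntegrableOn (fun z => ‖z‖ ^ n * E j z) (ball (0 : ℂ) (r / R j)) :=
      fun n => (((continuous_norm.pow n).mul hEc).continuousOn.integrableOn_compact
        (isCompact_closedBall _ _)).mono_set ball_subset_closedBall
    have hM1 : ∫ z in ball (0 : ℂ) (r / R j), ‖z‖ * E j z ≤ 2 * M := by
      have h3 : ∫ z in ball (0 : ℂ) (r / R j), ‖z‖ * E j z ≤
          ∫ z in ball (0 : ℂ) (r / R j), (‖z‖ ^ 0 * E j z + ‖z‖ ^ 2 * E j z) := by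
        have hi1 := hint 1
        simp only [pow_one] at hi1
        refine integral_mono hi1 ((hint 0).add (hint 2)) fun z => ?_
        have h4 : ‖z‖ ≤ 1 + ‖z‖ ^ 2 := by nlinarith [sq_nonneg (‖z‖ - 1), norm_nonneg z]
        have h5 := mul_le_mul_of_nonneg_right h4 (hE0 z)
        simp only [pow_zero]
        linarith
      have h4 : ∫ z in ball (0 : ℂ) (r / R j), (‖z‖ ^ 0 * E j z + ‖z‖ ^ 2 * E j z) =
          (∫ z in ball (0 : ℂ) (r / R j), ‖z‖ ^ 0 * E j z) +
            ∫ z in ball (0 : ℂ) (r / R j), ‖z‖ ^ 2 * E j z := integral_add (hint 0) (hint 2)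
      have h5 : ∫ z in ball (0 : ℂ) (r / R j), ‖z‖ ^ 0 * E j z = ms (r / R j) (E j) := by
        simp only [pow_zero, one_mul]
        rfl
      have h6 := (hM j).2.1
      have h7 := (hM j).2.2.1
      linarith
    have hKj : 0 ≤ |Ct| * kap j := mul_nonneg (abs_nonneg _) (ht.kpos j).le
    have hP1 := WAng_pot hRz hEc hE0 hKj htail hM1 hge hzρ'
    have hP2 := WAng_pot hRz hEc hE0 hKj htail hM1 (w := I * z) (by rw [hnI]; exact hge)
      (by rw [hnI]; exact hzρ')
    rw [hnI] at hP2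
    have hdiff : |pot (r / R j) (E j) z - pot (r / R j) (E j) (I * z)| ≤
        1 / π * (4 * M + 192 * π * (|Ct| * K0)) * (1 / ‖z‖) := by
      have h3 : pot (r / R j) (E j) z - pot (r / R j) (E j) (I * z) =
          (pot (r / R j) (E j) z + 1 / (2 * π) * (Real.log ‖z‖ * ms (r / R j) (E j))) -
          (pot (r / R j) (E j) (I * z) +
            1 / (2 * π) * (Real.log ‖z‖ * ms (r / R j) (E j))) := by ring
      rw [h3]
      refine (abs_sub _ _).trans ((add_le_add hP1 hP2).trans ?_)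
      have h4 : |Ct| * kap j ≤ |Ct| * K0 := mul_le_mul_of_nonneg_left (hK j) (abs_nonneg _)
      have h5 : 1 / (2 * π) * ((2 * (2 * M) + 192 * π * (|Ct| * kap j)) / ‖z‖) +
          1 / (2 * π) * ((2 * (2 * M) + 192 * π * (|Ct| * kap j)) / ‖z‖) =
          1 / π * (4 * M + 192 * π * (|Ct| * kap j)) * (1 / ‖z‖) := by
        field_simp
        ring
      rw [h5]
      gcongr
    have hhd : ‖h j z - h j (I * z)‖ ≤ H * R j * (2 * ‖z‖) := by
      have h3 := Convex.norm_image_sub_le_of_norm_deriv_le (𝕜 := ℂ) (f := h j) (C := H * R j)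
        (s := ball (0 : ℂ) (r / R j)) (x := I * z) (y := z)
        (fun x hx => (ht.pl.loc j).an.differentiableAt (isOpen_ball.mem_nhds hx))
        (ht.pl.hH j) (convex_ball _ _) hmemI hmem
      refine h3.trans ?_
      refine mul_le_mul_of_nonneg_left ?_ (by positivity)
      refine (norm_sub_le _ _).trans ?_
      rw [hnI]
      linarith
    set x := 2 * (h j z).re - 2 * (h j (I * z)).re +
      (pot (r / R j) (E j) z - pot (r / R j) (E j) (I * z)) with hx
    have hxle : |x| ≤ X * D := by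
      have h3 : |(h j z).re - (h j (I * z)).re| ≤ H * R j * (2 * ‖z‖) := by
        rw [← Complex.sub_re]
        exact (Complex.abs_re_le_norm _).trans hhd
      have h4 : |x| ≤ 2 * |(h j z).re - (h j (I * z)).re| +
          |pot (r / R j) (E j) z - pot (r / R j) (E j) (I * z)| := by
        rw [hx]
        refine (abs_add_le _ _).trans (le_of_eq ?_)
        congr 1
        rw [← mul_sub, abs_mul, abs_two]
      have h5 : X * D = 4 * H * (R j * ‖z‖) + 4 * H * (1 / ‖z‖) +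
          1 / π * (4 * M + 192 * π * (|Ct| * K0)) * (R j * ‖z‖) +
          1 / π * (4 * M + 192 * π * (|Ct| * K0)) * (1 / ‖z‖) := by
        rw [hX, hD]
        ring
      have h6 : 0 ≤ 4 * H * (1 / ‖z‖) := by positivity
      have h7 : 0 ≤ 1 / π * (4 * M + 192 * π * (|Ct| * K0)) * (R j * ‖z‖) := by positivity
      rw [h5]
      linarith
    have hDY : D ≤ Y := by
      have h3 : R j * ‖z‖ ≤ r / 4 := by
        have h4 := mul_le_mul_of_nonneg_left hz4 hRj.le
        have h5 : R j * (r / (4 * R j)) = r / 4 := by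
          field_simp
        linarith
      have h6 : 1 / ‖z‖ ≤ 1 / 4 := one_div_le_one_div_of_le (by norm_num) hge
      linarith
    have hrep := (ht.pl.loc j).rep z hmem
    have hrepI := (ht.pl.loc j).rep (I * z) hmemI
    rw [hnI] at hrepI
    have hEx : E j z = E j (I * z) * Real.exp x := by
      rw [hrep, hrepI, mul_assoc, ← Real.exp_add]
      congr 2
      rw [hx]
      ring
    have h3 : |E j z - E j (I * z)| = E j (I * z) * |Real.exp x - 1| := by
      rw [hEx, ← mul_sub_one, abs_mul, abs_of_nonneg (hE0 _)]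
    have h4 : |Real.exp x - 1| ≤ X * Real.exp (X * Y) * D := by
      refine (WAng_exp x).trans ?_
      have h5 : Real.exp |x| ≤ Real.exp (X * Y) :=
        Real.exp_le_exp.2 (hxle.trans (mul_le_mul_of_nonneg_left hDY hX0))
      calc |x| * Real.exp |x| ≤ X * D * Real.exp (X * Y) :=
            mul_le_mul hxle h5 (Real.exp_pos _).le (mul_nonneg hX0 hD0)
        _ = _ := by ring
    have h5 : E j (I * z) * |Real.exp x - 1| ≤ T * (X * Real.exp (X * Y) * D) :=
      mul_le_mul hEI h4 (abs_nonneg _) hT0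
    rw [h3]
    linarith

end Pool.Agent.Vx

end

section

/-!
# MP_afe918_an, block W: recentering at `±1` gives a regular blow-up sequence (helper66)
-/

set_option autoImplicit false

open Complex Set Filter Topology MeasureTheory Metric
open scoped Real ContDiff ComplexConjugate

namespace Pool.Agent.Vx

theorem WBU_nq {q : ℂ} (hq : q = 1 ∨ q = -1) : ‖q‖ = 1 := by
  rcases hq with rfl | rfl <;> simp

theorem WBU_off {q w : ℂ} (hq : q = 1 ∨ q = -1) {s : ℝ} (hs : s ≤ 1) (hw : ‖w‖ ≤ 1)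
    (hsw : s ≤ ‖w‖) : s ≤ ‖q + w - 1‖ ∧ s ≤ ‖q + w + 1‖ := by
  rcases hq with rfl | rfl
  · have h := norm_sub_norm_le (2 : ℂ) (-w)
    have e1 : (1 : ℂ) + w - 1 = w := by ring
    have e2 : (1 : ℂ) + w + 1 = 2 - -w := by ring
    rw [e1, e2]
    rw [norm_neg] at h
    have h3 : ‖(2 : ℂ)‖ = 2 := by simp
    rw [h3] at h
    exact ⟨hsw, by linarith⟩
  · have h := norm_sub_norm_le (2 : ℂ) w
    have e1 : (-1 : ℂ) + w - 1 = -(2 - w) := by ring
    have e2 : (-1 : ℂ) + w + 1 = w := by ring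
    rw [e1, e2, norm_neg]
    have h3 : ‖(2 : ℂ)‖ = 2 := by simp
    rw [h3] at h
    exact ⟨by linarith, hsw⟩

theorem WBU_riesz (h2 : S_Riesz) (E : ℂ → ℝ) (hE0 : ∀ z, 0 ≤ E z)
    (S : Set ℂ) (hS : MeasurableSet S) (hSi : IntegrableOn E S) (z : ℂ) (C : ℝ) (hC0 : 0 ≤ C)
    (hC : ∀ y ∈ S, ‖z - y‖ < 1 / 4 → E y ≤ C) :
    ‖∫ y in S, (E y : ℂ) / (z - y)‖ ≤ C * (6 * π * (1 / 4)) + 4 * ∫ y in S, E y := by
  obtain ⟨i1, i2⟩ := h2 z z (1 / 4) (by norm_num)
  have j1 : Integrable ((ball z (1 / 4)).indicator fun y => C * (1 / ‖z - y‖)) := by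
    rw [integrable_indicator_iff measurableSet_ball]
    exact i1.const_mul C
  have j2 : IntegrableOn (fun y => 4 * E y) S := hSi.const_mul 4
  have n0 : ∀ y, 0 ≤ (ball z (1 / 4)).indicator (fun y => C * (1 / ‖z - y‖)) y := by
    intro y
    apply indicator_nonneg
    intro y _
    positivity
  have k1 : ‖∫ y in S, (E y : ℂ) / (z - y)‖ ≤
      ∫ y in S, ((ball z (1 / 4)).indicator (fun y => C * (1 / ‖z - y‖)) y + 4 * E y) := by
    apply norm_integral_le_of_norm_le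
    · exact j1.integrableOn.add j2
    · refine (ae_restrict_mem hS).mono fun y hy => ?_
      rw [norm_div, Complex.norm_real, Real.norm_of_nonneg (hE0 y)]
      by_cases hb : ‖z - y‖ < 1 / 4
      · have hm : y ∈ ball z (1 / 4) := by
          rw [mem_ball, dist_comm, dist_eq_norm]; exact hb
        rw [indicator_of_mem hm]
        have a1 : E y / ‖z - y‖ ≤ C * (1 / ‖z - y‖) := by
          rw [div_eq_mul_one_div]
          exact mul_le_mul_of_nonneg_right (hC y hy hb) (by positivity)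
        have a2 := hE0 y
        linarith
      · push Not at hb
        have a1 : E y / ‖z - y‖ ≤ 4 * E y := by
          rw [div_le_iff₀ (by linarith)]
          have := mul_le_mul_of_nonneg_left hb (hE0 y)
          nlinarith
        have a2 := n0 y
        linarith
  refine k1.trans ?_
  rw [integral_add j1.integrableOn j2, integral_const_mul]
  have k2 : ∫ y in S, (ball z (1 / 4)).indicator (fun y => C * (1 / ‖z - y‖)) y ≤
      C * (6 * π * (1 / 4)) := by
    calc ∫ y in S, (ball z (1 / 4)).indicator (fun y => C * (1 / ‖z - y‖)) y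
        ≤ ∫ y, (ball z (1 / 4)).indicator (fun y => C * (1 / ‖z - y‖)) y :=
          setIntegral_le_integral j1 (ae_of_all _ n0)
      _ = C * ∫ y in ball z (1 / 4), 1 / ‖z - y‖ := by
          rw [integral_indicator measurableSet_ball, integral_const_mul]
      _ ≤ C * (6 * π * (1 / 4)) := mul_le_mul_of_nonneg_left i2 hC0
  linarith

theorem WBU_pot (h3 : S_LogI) : ∃ L : ℝ, 0 ≤ L ∧ ∀ (F : ℂ → ℝ) (C M : ℝ), Continuous F →
    (∀ z, 0 ≤ F z) → 0 ≤ C → (∀ t ∈ ball (1 / 2 : ℂ) (1 / 4), F t ≤ C) → ms (3 / 4) F ≤ M →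
    |pot (3 / 4) F (1 / 2)| ≤ L * C + 2 * M := by
  obtain ⟨i1, -⟩ := h3 (1 / 2) (1 / 2) (1 / 4) (by norm_num)
  have i2 : IntegrableOn (fun y => |Real.log ‖(1 / 2 : ℂ) - y‖|) (ball (1 / 2) (1 / 4)) := i1.abs
  refine ⟨∫ y in ball (1 / 2 : ℂ) (1 / 4), |Real.log ‖(1 / 2 : ℂ) - y‖|,
    integral_nonneg fun y => abs_nonneg _, ?_⟩
  intro F C M hF hF0 hC0 hC hM
  have j0 : IntegrableOn F (ball 0 (3 / 4)) :=
    (hF.continuousOn.integrableOn_compact (isCompact_closedBall 0 (3 / 4))).mono_set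
      ball_subset_closedBall
  have j1 : Integrable ((ball (1 / 2 : ℂ) (1 / 4)).indicator
      fun y => C * |Real.log ‖(1 / 2 : ℂ) - y‖|) := by
    rw [integrable_indicator_iff measurableSet_ball]
    exact i2.const_mul C
  have j2 : IntegrableOn (fun y => 2 * F y) (ball 0 (3 / 4)) := j0.const_mul 2
  have n0 : ∀ y, 0 ≤ (ball (1 / 2 : ℂ) (1 / 4)).indicator
      (fun y => C * |Real.log ‖(1 / 2 : ℂ) - y‖|) y := by
    intro y
    apply indicator_nonneg
    intro y _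
    positivity
  have k1 : ‖∫ y in ball (0 : ℂ) (3 / 4), Real.log ‖(1 / 2 : ℂ) - y‖ * F y‖ ≤
      ∫ y in ball (0 : ℂ) (3 / 4), ((ball (1 / 2 : ℂ) (1 / 4)).indicator
        (fun y => C * |Real.log ‖(1 / 2 : ℂ) - y‖|) y + 2 * F y) := by
    apply norm_integral_le_of_norm_le
    · exact j1.integrableOn.add j2
    · refine (ae_restrict_mem measurableSet_ball).mono fun y hy => ?_
      rw [Real.norm_eq_abs, abs_mul, abs_of_nonneg (hF0 y)]
      by_cases hb : ‖(1 / 2 : ℂ) - y‖ < 1 / 4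
      · have hm : y ∈ ball (1 / 2 : ℂ) (1 / 4) := by
          rw [mem_ball, dist_comm, dist_eq_norm]; exact hb
        rw [indicator_of_mem hm]
        have a1 : |Real.log ‖(1 / 2 : ℂ) - y‖| * F y ≤ C * |Real.log ‖(1 / 2 : ℂ) - y‖| := by
          rw [mul_comm C]
          exact mul_le_mul_of_nonneg_left (hC y hm) (abs_nonneg _)
        have a2 := hF0 y
        linarith
      · push Not at hb
        have b1 : ‖(1 / 2 : ℂ) - y‖ ≤ 4 := by
          have hy2 : ‖y‖ < 3 / 4 := by simpa using hy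
          have := norm_sub_le (1 / 2 : ℂ) y
          have e : ‖(1 / 2 : ℂ)‖ = 1 / 2 := by simp
          rw [e] at this
          linarith
        have b2 : |Real.log ‖(1 / 2 : ℂ) - y‖| ≤ 2 := by
          have hl4 : Real.log 4 ≤ 2 := by
            have : (4 : ℝ) = 2 ^ 2 := by norm_num
            rw [this, Real.log_pow]
            have := Real.log_two_lt_d9
            push_cast
            linarith
          rw [abs_le]
          constructor
          · have := Real.log_le_log (by norm_num) hb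
            have e : Real.log (1 / 4) = - Real.log 4 := by
              rw [one_div, Real.log_inv]
            rw [e] at this
            linarith
          · have := Real.log_le_log (by linarith) b1
            linarith
        have a1 := mul_le_mul_of_nonneg_right b2 (hF0 y)
        have a2 := n0 y
        linarith
  rw [integral_add j1.integrableOn j2, integral_const_mul] at k1
  have k2 : ∫ y in ball (0 : ℂ) (3 / 4), (ball (1 / 2 : ℂ) (1 / 4)).indicator
      (fun y => C * |Real.log ‖(1 / 2 : ℂ) - y‖|) y ≤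
      C * ∫ y in ball (1 / 2 : ℂ) (1 / 4), |Real.log ‖(1 / 2 : ℂ) - y‖| := by
    calc ∫ y in ball (0 : ℂ) (3 / 4), (ball (1 / 2 : ℂ) (1 / 4)).indicator
          (fun y => C * |Real.log ‖(1 / 2 : ℂ) - y‖|) y
        ≤ ∫ y, (ball (1 / 2 : ℂ) (1 / 4)).indicator
          (fun y => C * |Real.log ‖(1 / 2 : ℂ) - y‖|) y :=
          setIntegral_le_integral j1 (ae_of_all _ n0)
      _ = C * ∫ y in ball (1 / 2 : ℂ) (1 / 4), |Real.log ‖(1 / 2 : ℂ) - y‖| := by
          rw [integral_indicator measurableSet_ball, integral_const_mul]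
  unfold pot
  rw [abs_mul]
  unfold ms at hM
  rw [Real.norm_eq_abs] at k1
  have p1 : |-(1 / (2 * π))| ≤ 1 := by
    rw [abs_neg, abs_of_pos (by positivity)]
    rw [div_le_one (by positivity)]
    linarith [Real.pi_gt_three]
  calc |-(1 / (2 * π))| * |∫ y in ball (0 : ℂ) (3 / 4), Real.log ‖(1 / 2 : ℂ) - y‖ * F y|
      ≤ 1 * |∫ y in ball (0 : ℂ) (3 / 4), Real.log ‖(1 / 2 : ℂ) - y‖ * F y| :=
        mul_le_mul_of_nonneg_right p1 (abs_nonneg _)
    _ ≤ _ := by
        rw [one_mul, mul_comm _ C]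
        linarith

theorem WBU_shift (f : ℂ → ℝ) (q : ℂ) (ρ : ℝ) :
    ∫ w in ball (0 : ℂ) ρ, f (q + w) = ∫ z in ball q ρ, f z := by
  have h := (measurePreserving_add_left (volume : Measure ℂ) q).setIntegral_preimage_emb
    (measurableEmbedding_addLeft q) f (ball q ρ)
  rw [← h]
  congr 1
  congr 1
  ext w
  simp [dist_eq_norm]

theorem WBU_mv {g : ℂ → ℂ} {H : ℝ} (hg : DifferentiableOn ℂ g (ball 0 (3 / 4)))
    (hH : ∀ z ∈ ball (0 : ℂ) (3 / 4), ‖deriv g z‖ ≤ H) :
    |2 * (g (1 / 2)).re - 2 * (g 0).re| ≤ H := by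
  have h := (convex_ball (0 : ℂ) (3 / 4)).norm_image_sub_le_of_norm_deriv_le (f := g) (C := H)
    (x := 0) (y := 1 / 2)
    (fun x hx => hg.differentiableAt (isOpen_ball.mem_nhds hx)) hH
    (mem_ball_self (by norm_num)) (by rw [mem_ball, dist_eq_norm]; simp; norm_num)
  have e : ‖(1 / 2 : ℂ) - 0‖ = 1 / 2 := by simp
  rw [e] at h
  have h2 := Complex.abs_re_le_norm (g (1 / 2) - g 0)
  rw [Complex.sub_re] at h2
  have h3 : 2 * (g (1 / 2)).re - 2 * (g 0).re = 2 * ((g (1 / 2)).re - (g 0).re) := by ring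
  rw [h3, abs_mul, abs_of_pos (by norm_num : (0 : ℝ) < 2)]
  linarith

theorem pr_WBU (h1 : S_Rec1) (h2 : S_Riesz) (h3 : S_LogI) : S_WBU := by
  intro r H Λ R lam eta kap h E hp q hq
  have hpl := hp.pw.pl
  have hnq := WBU_nq hq
  obtain ⟨M, hM0, hM⟩ := W_mass hpl
  obtain ⟨K, hK⟩ := (Metric.isBounded_range_of_tendsto _ hp.k0).bddAbove
  have hK' : ∀ j, kap j ≤ K := fun j => hK ⟨j, rfl⟩
  obtain ⟨C1, hC1⟩ := hp.upc (1 / 4) (by norm_num)
  obtain ⟨c0, hc0, hlow⟩ := hp.lowc (1 / 4) (by norm_num)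
  obtain ⟨L, hL0, hL⟩ := WBU_pot h3
  have hrad := fun j => W_rad hpl j
  have hcont : ∀ j, Continuous (E j) := fun j => (hpl.loc j).cont
  have hnn : ∀ j z, 0 ≤ E j z := fun j => (hpl.loc j).nonneg
  have hRr : ∀ j, R j ≤ r / 8 := fun j => by
    have := hpl.small j
    linarith
  have hΛ0 : 0 ≤ Λ := (hpl.lamb 0).1.trans (hpl.lamb 0).2
  -- bound for E
  have hK0 : 0 ≤ K := (hp.kpos 0).le.trans (hK' 0)
  have hEb : ∀ j, ∀ z ∈ ball (0 : ℂ) 4, 1 / 4 ≤ ‖z - 1‖ → 1 / 4 ≤ ‖z + 1‖ →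
      E j z ≤ |C1| * kap j := fun j z hz a b => (hC1 j z hz a b).trans
        (mul_le_mul_of_nonneg_right (le_abs_self _) (hp.kpos j).le)
  have hEb2 : ∀ j, ∀ z ∈ ball (0 : ℂ) 4, 1 / 4 ≤ ‖z - 1‖ → 1 / 4 ≤ ‖z + 1‖ →
      E j z ≤ |C1| * K := fun j z hz a b => (hEb j z hz a b).trans
        (mul_le_mul_of_nonneg_left (hK' j) (abs_nonneg _))
  have hint : ∀ j (c : ℂ) (ρ : ℝ), IntegrableOn (E j) (ball c ρ) := fun j c ρ =>
    ((hcont j).continuousOn.integrableOn_compact (isCompact_closedBall c ρ)).mono_set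
      ball_subset_closedBall
  -- the functions g
  have hex := fun j => h1 (r / R j) 1 (lam j * R j ^ 2) (h j) (E j) q (3 / 4) (hpl.loc j)
    (by norm_num) (by rw [hnq]; norm_num) (by rw [hnq]; linarith [hrad j])
  choose g hg1 _ hg3 using hex
  have hLam : ∀ j, lam j * R j ^ 2 ≤ Λ * (r / 8) ^ 2 := fun j =>
    mul_le_mul (hpl.lamb j).2 (pow_le_pow_left₀ (hpl.Rpos j).le (hRr j) 2) (sq_nonneg _) hΛ0
  have hLam0 : ∀ j, 0 ≤ lam j * R j ^ 2 := fun j => mul_nonneg (hpl.lamb j).1 (sq_nonneg _)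
  -- mass in the ball of radius 3/4
  have hms : ∀ j, ms (3 / 4) (fun w => E j (q + w)) ≤ M := by
    intro j
    unfold ms
    rw [WBU_shift]
    refine le_trans ?_ (hM j)
    unfold ms
    apply setIntegral_mono_set (hint j _ _) (ae_of_all _ (hnn j))
    apply LE.le.eventuallyLE
    intro z hz
    change z ∈ ball q (3 / 4) at hz
    rw [mem_ball, dist_eq_norm] at hz
    rw [mem_ball_zero_iff]
    have := norm_le_norm_sub_add z q
    have := hrad j
    linarith
  set H' : ℝ := |H| * (r / 8) + 4 + Λ * (r / 8) ^ 2 / 4 +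
    1 / (4 * π) * (|C1| * K * (6 * π * (1 / 4)) + 4 * M) with hH'
  have hH : ∀ j, ∀ w ∈ ball (0 : ℂ) (3 / 4), ‖deriv (g j) w‖ ≤ H' := by
    intro j w hw
    rw [mem_ball_zero_iff] at hw
    rw [hg3 j w (by rw [mem_ball_zero_iff]; exact hw)]
    have hqw : ‖q + w‖ ≤ 7 / 4 := by
      have := norm_add_le q w
      linarith
    have hqw2 : 1 / 4 ≤ ‖q + w‖ := by
      have := norm_sub_norm_le q (-w)
      rw [norm_neg, sub_neg_eq_add] at this
      linarith
    have t1 : ‖deriv (h j) (q + w)‖ ≤ |H| * (r / 8) := by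
      refine (hpl.hH j (q + w) ?_).trans ?_
      · rw [mem_ball_zero_iff]; linarith [hrad j]
      · exact mul_le_mul (le_abs_self _) (hRr j) (hpl.Rpos j).le (abs_nonneg _)
    have t2 : ‖((1 : ℕ) : ℂ) / (q + w)‖ ≤ 4 := by
      rw [norm_div, div_le_iff₀ (by linarith)]
      simp
      linarith
    have t3 : ‖((lam j * R j ^ 2 : ℝ) : ℂ) / 4 * conj q‖ ≤ Λ * (r / 8) ^ 2 / 4 := by
      rw [norm_mul, norm_div, Complex.norm_conj, hnq, mul_one, Complex.norm_real,
        Real.norm_of_nonneg (hLam0 j)]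
      have : ‖(4 : ℂ)‖ = 4 := by simp
      rw [this]
      linarith [hLam j]
    have t4 : ‖(1 : ℂ) / (4 * π) * ∫ y in ball (0 : ℂ) (r / R j) \ ball q (3 / 4),
        (E j y : ℂ) / (q + w - y)‖ ≤
        1 / (4 * π) * (|C1| * K * (6 * π * (1 / 4)) + 4 * M) := by
      rw [norm_mul]
      have e : ‖(1 : ℂ) / (4 * π)‖ = 1 / (4 * π) := by
        rw [norm_div, norm_mul, Complex.norm_real, Real.norm_of_nonneg Real.pi_pos.le]
        simp
      rw [e]
      apply mul_le_mul_of_nonneg_left _ (by positivity)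
      refine (WBU_riesz h2 (E j) (hnn j) _ (measurableSet_ball.diff measurableSet_ball)
        ((hint j _ _).mono_set sdiff_subset) (q + w) (|C1| * K) (by positivity) ?_).trans ?_
      · intro y hy hyw
        have hy1 : 3 / 4 ≤ ‖y - q‖ := by
          have := hy.2
          rw [mem_ball, dist_eq_norm] at this
          push Not at this
          exact this
        have hy2 : ‖y - q‖ ≤ 1 := by
          have e : y - q = w - (q + w - y) := by ring
          rw [e]
          have := norm_sub_le w (q + w - y)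
          linarith
        have e : y = q + (y - q) := by ring
        obtain ⟨o1, o2⟩ := WBU_off hq (s := 1 / 4) (by norm_num) hy2 (by linarith)
        rw [← e] at o1 o2
        refine hEb2 j y ?_ o1 o2
        rw [mem_ball_zero_iff]
        have := norm_le_norm_sub_add y q
        linarith
      · have : ∫ y in ball (0 : ℂ) (r / R j) \ ball q (3 / 4), E j y ≤ M := by
          refine le_trans ?_ (hM j)
          unfold ms
          exact setIntegral_mono_set (hint j _ _) (ae_of_all _ (hnn j))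
            (LE.le.eventuallyLE sdiff_subset)
        linarith
    calc _ ≤ ‖deriv (h j) (q + w) + ((1 : ℕ) : ℂ) / (q + w) -
          ((lam j * R j ^ 2 : ℝ) : ℂ) / 4 * conj q‖ + _ := norm_sub_le _ _
      _ ≤ (‖deriv (h j) (q + w) + ((1 : ℕ) : ℂ) / (q + w)‖ +
          ‖((lam j * R j ^ 2 : ℝ) : ℂ) / 4 * conj q‖) + _ := by
          gcongr
          exact norm_sub_le _ _
      _ ≤ ((‖deriv (h j) (q + w)‖ + ‖((1 : ℕ) : ℂ) / (q + w)‖) +
          ‖((lam j * R j ^ 2 : ℝ) : ℂ) / 4 * conj q‖) + _ := by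
          gcongr
          exact norm_add_le _ _
      _ ≤ H' := by
          rw [hH']
          gcongr
  -- the potential at 1/2
  set P : ℝ := L * (|C1| * K) + 2 * M with hP
  have hpot : ∀ j, |pot (3 / 4) (fun w => E j (q + w)) (1 / 2)| ≤ P := by
    intro j
    apply hL (fun w => E j (q + w)) _ _ ((hcont j).comp (continuous_const.add continuous_id))
      (fun z => hnn j _) (by positivity) ?_ (hms j)
    intro t ht
    rw [mem_ball, dist_eq_norm] at ht
    have e : ‖(1 / 2 : ℂ)‖ = 1 / 2 := by simp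
    have b1 : ‖t‖ ≤ 3 / 4 := by
      have := norm_le_norm_sub_add t (1 / 2)
      linarith
    have b2 : 1 / 4 ≤ ‖t‖ := by
      have := norm_sub_norm_le (1 / 2 : ℂ) t
      rw [norm_sub_rev] at this
      linarith
    obtain ⟨o1, o2⟩ := WBU_off hq (s := 1 / 4) (by norm_num) (by linarith) b2
    refine hEb2 j _ ?_ o1 o2
    rw [mem_ball_zero_iff]
    have := norm_add_le q t
    linarith
  have hE12 : ∀ j, E j (q + 1 / 2) = Real.exp (2 * (g j (1 / 2)).re -
      lam j * R j ^ 2 / 4 * (1 / 2) ^ 2 + pot (3 / 4) (fun w => E j (q + w)) (1 / 2)) := by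
    intro j
    have := (hg1 j).rep (1 / 2) (by rw [mem_ball_zero_iff]; simp; norm_num)
    simp only [mul_zero, pow_zero, one_mul] at this
    rw [this]
    have e : ‖(1 / 2 : ℂ)‖ = 1 / 2 := by simp
    rw [e]
  have hUp : ∀ j, E j (q + 1 / 2) ≤ et (g j) * Real.exp (H' + P) := by
    intro j
    rw [hE12 j]
    unfold et
    rw [← Real.exp_add]
    apply Real.exp_le_exp.2
    have a1 := (abs_le.1 (WBU_mv (hg1 j).an (hH j))).2
    have a2 := (abs_le.1 (hpot j)).2
    have a3 := hLam0 j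
    nlinarith
  have hLo : ∀ j, et (g j) ≤ E j (q + 1 / 2) * Real.exp (H' + P + Λ * (r / 8) ^ 2) := by
    intro j
    rw [hE12 j]
    unfold et
    rw [← Real.exp_add]
    apply Real.exp_le_exp.2
    have a1 := (abs_le.1 (WBU_mv (hg1 j).an (hH j))).1
    have a2 := (abs_le.1 (hpot j)).1
    have a3 := hLam j
    have a4 := hLam0 j
    nlinarith
  have hoff12 : 1 / 4 ≤ ‖q + 1 / 2 - 1‖ ∧ 1 / 4 ≤ ‖q + 1 / 2 + 1‖ := by
    have e : ‖(1 / 2 : ℂ)‖ = 1 / 2 := by simp
    exact WBU_off hq (by norm_num) (by rw [e]; norm_num) (by rw [e]; norm_num)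
  have hb12 : q + 1 / 2 ∈ ball (0 : ℂ) 4 := by
    rw [mem_ball_zero_iff]
    have e : ‖(1 / 2 : ℂ)‖ = 1 / 2 := by simp
    have := norm_add_le q (1 / 2)
    linarith
  have hn12 : 1 / 2 ≤ ‖q + 1 / 2‖ := by
    have e : ‖(1 / 2 : ℂ)‖ = 1 / 2 := by simp
    have := norm_sub_norm_le q (-(1 / 2))
    rw [norm_neg, sub_neg_eq_add] at this
    linarith
  -- lower bound for et
  set c : ℝ := c0 * (1 / 4) * Real.exp (-(H' + P)) with hc
  have hcpos : 0 < c := by positivity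
  have hlast : ∀ᶠ j in atTop, c * kap j ≤ et (g j) := by
    filter_upwards [hlow] with j hj
    have a1 := hj _ hb12 hoff12.1 hoff12.2
    have a2 := hUp j
    have a3 : c0 * (1 / 4) * kap j ≤ et (g j) * Real.exp (H' + P) := by
      refine le_trans ?_ (a1.trans a2)
      have : (1 / 4 : ℝ) ≤ ‖q + 1 / 2‖ ^ 2 := by nlinarith
      have := hp.kpos j
      gcongr
    calc c * kap j = (c0 * (1 / 4) * kap j) * Real.exp (-(H' + P)) := by rw [hc]; ring
      _ ≤ (et (g j) * Real.exp (H' + P)) * Real.exp (-(H' + P)) :=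
          mul_le_mul_of_nonneg_right a3 (Real.exp_pos _).le
      _ = et (g j) := by rw [mul_assoc, ← Real.exp_add]; simp
  have hetpos : ∀ j, 0 < et (g j) := fun j => Real.exp_pos _
  refine ⟨H', Λ * (r / 8) ^ 2, c, g, hcpos, ?_, hlast⟩
  refine ⟨hg1, hLam, hH, ?_, ?_, ?_⟩
  · -- out
    intro s hs
    apply W_evall (fun j C => ∀ z ∈ ball (0 : ℂ) (3 / 4), s ≤ ‖z‖ → E j (q + z) ≤ C * et (g j))
    · intro j C C' hCC hj z hz hsz
      exact (hj z hz hsz).trans (mul_le_mul_of_nonneg_right hCC (hetpos j).le)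
    · intro j
      obtain ⟨C, hC⟩ := W_bdd (fun w => E j (q + w))
        ((hcont j).comp (continuous_const.add continuous_id)) (3 / 4) (et (g j)) (hetpos j)
      exact ⟨C, fun z hz _ => hC z (ball_subset_closedBall hz)⟩
    · obtain ⟨C2, hC2⟩ := hp.upc (min s 1) (lt_min hs one_pos)
      refine ⟨|C2| / c, ?_⟩
      filter_upwards [hlast] with j hj z hz hsz
      rw [mem_ball_zero_iff] at hz
      obtain ⟨o1, o2⟩ := WBU_off hq (min_le_right s 1) (by linarith)
        ((min_le_left s 1).trans hsz)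
      have b : q + z ∈ ball (0 : ℂ) 4 := by
        rw [mem_ball_zero_iff]
        have := norm_add_le q z
        linarith
      have a1 := hC2 j _ b o1 o2
      calc E j (q + z) ≤ C2 * kap j := a1
        _ ≤ |C2| * kap j := mul_le_mul_of_nonneg_right (le_abs_self _) (hp.kpos j).le
        _ = |C2| / c * (c * kap j) := by field_simp
        _ ≤ |C2| / c * et (g j) := by gcongr
  · -- small
    have t1 : Tendsto (fun j => |C1| * kap j * Real.exp (H' + P + Λ * (r / 8) ^ 2)) atTop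
        (𝓝 0) := by
      have := (hp.k0.const_mul |C1|).mul_const (Real.exp (H' + P + Λ * (r / 8) ^ 2))
      simpa using this
    refine squeeze_zero (fun j => (hetpos j).le) (fun j => ?_) t1
    refine (hLo j).trans ?_
    exact mul_le_mul_of_nonneg_right (hEb j _ hb12 hoff12.1 hoff12.2) (Real.exp_pos _).le
  · -- mass
    have hhalf : Tendsto (fun j => ∫ z in ball q (1 / 2), E j z) atTop (𝓝 (8 * π)) := by
      rcases hq with rfl | rfl
      · exact hp.pw.two1 (1 / 2) (by norm_num) le_rfl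
      · exact hp.pw.two2 (1 / 2) (by norm_num) le_rfl
    have hsplit : ∀ j, ms (3 / 4) (fun w => E j (q + w)) =
        (∫ z in ball q (1 / 2), E j z) + ∫ z in ball q (3 / 4) \ ball q (1 / 2), E j z := by
      intro j
      unfold ms
      rw [WBU_shift]
      have hsub : ball q (1 / 2) ⊆ ball q (3 / 4) := ball_subset_ball (by norm_num)
      rw [setIntegral_sdiff measurableSet_ball (hint j _ _) hsub]
      ring
    have hann : Tendsto (fun j => ∫ z in ball q (3 / 4) \ ball q (1 / 2), E j z) atTop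
        (𝓝 0) := by
      have t1 : Tendsto (fun j => |C1| * kap j *
          (volume : Measure ℂ).real (ball q (3 / 4) \ ball q (1 / 2))) atTop (𝓝 0) := by
        have := (hp.k0.const_mul |C1|).mul_const
          ((volume : Measure ℂ).real (ball q (3 / 4) \ ball q (1 / 2)))
        simpa using this
      refine squeeze_zero (fun j => setIntegral_nonneg
        (measurableSet_ball.diff measurableSet_ball) fun z _ => hnn j z) (fun j => ?_) t1
      have hfin : (volume : Measure ℂ) (ball q (3 / 4) \ ball q (1 / 2)) < ⊤ :=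
        (measure_mono sdiff_subset).trans_lt measure_ball_lt_top
      have := norm_setIntegral_le_of_norm_le_const (μ := (volume : Measure ℂ)) (f := E j)
        (C := |C1| * kap j) hfin (fun z hz => ?_)
      · rw [Real.norm_of_nonneg (setIntegral_nonneg
          (measurableSet_ball.diff measurableSet_ball) fun z _ => hnn j z)] at this
        exact this
      · rw [Real.norm_of_nonneg (hnn j z)]
        have z1 : ‖z - q‖ < 3 / 4 := by
          have := hz.1
          rwa [mem_ball, dist_eq_norm] at this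
        have z2 : 1 / 2 ≤ ‖z - q‖ := by
          have := hz.2
          rw [mem_ball, dist_eq_norm] at this
          push Not at this
          exact this
        have e : z = q + (z - q) := by ring
        obtain ⟨o1, o2⟩ := WBU_off hq (s := 1 / 4) (by norm_num) (by linarith)
          (by linarith : 1 / 4 ≤ ‖z - q‖)
        rw [← e] at o1 o2
        refine hEb j z ?_ o1 o2
        rw [mem_ball_zero_iff]
        have := norm_le_norm_sub_add z q
        linarith
    have := hhalf.add hann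
    simp only [add_zero] at this
    have e : 8 * π * (1 + ((0 : ℕ) : ℝ)) = 8 * π := by simp
    rw [e]
    exact this.congr fun j => (hsplit j).symm

end Pool.Agent.Vx

end

section

/-!
# MP_afe918_an, item WBal: balance of forces
-/

set_option autoImplicit false

open Complex Set Filter Topology MeasureTheory Metric
open scoped Real ContDiff ComplexConjugate

namespace Pool.Agent.Vx

theorem WBal_int {f : ℂ → ℝ} (hf : Continuous f) (q : ℂ) (s : ℝ) :
    IntegrableOn f (ball q s) :=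
  (hf.continuousOn.integrableOn_compact (isCompact_closedBall q s)).mono_set ball_subset_closedBall

/-- The indicator with values in `ℂ`. -/
noncomputable def WBal_c (U : Set ℂ) (z : ℂ) : ℂ := U.indicator (fun _ => (1 : ℂ)) z

/-- The indicator with values in `ℝ`. -/
noncomputable def WBal_r (U : Set ℂ) (z : ℂ) : ℝ := U.indicator (fun _ => (1 : ℝ)) z

theorem WBal_r_mem {U : Set ℂ} {z : ℂ} (h : z ∈ U) : WBal_r U z = 1 := by
  simp [WBal_r, h]

theorem WBal_r_not {U : Set ℂ} {z : ℂ} (h : z ∉ U) : WBal_r U z = 0 := by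
  simp [WBal_r, h]

theorem WBal_c_mem {U : Set ℂ} {z : ℂ} (h : z ∈ U) : WBal_c U z = 1 := by
  simp [WBal_c, h]

theorem WBal_c_not {U : Set ℂ} {z : ℂ} (h : z ∉ U) : WBal_c U z = 0 := by
  simp [WBal_c, h]

theorem WBal_r_nonneg (U : Set ℂ) (z : ℂ) : 0 ≤ WBal_r U z := by
  by_cases h : z ∈ U
  · rw [WBal_r_mem h]; norm_num
  · rw [WBal_r_not h]

theorem WBal_r_le (U : Set ℂ) (z : ℂ) : WBal_r U z ≤ 1 := by
  by_cases h : z ∈ U
  · rw [WBal_r_mem h]
  · rw [WBal_r_not h]; norm_num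

theorem WBal_c_norm (U : Set ℂ) (z : ℂ) : ‖WBal_c U z‖ ≤ 1 := by
  by_cases h : z ∈ U
  · rw [WBal_c_mem h]; simp
  · rw [WBal_c_not h]; simp

theorem WBal_rE (U : Set ℂ) (E : ℂ → ℝ) (z : ℂ) : WBal_r U z * E z = U.indicator E z := by
  by_cases h : z ∈ U
  · rw [WBal_r_mem h, indicator_of_mem h, one_mul]
  · rw [WBal_r_not h, indicator_of_notMem h, zero_mul]

theorem WBal_cr (U : Set ℂ) (z : ℂ) : WBal_c U z = (WBal_r U z : ℂ) := by
  by_cases h : z ∈ U
  · rw [WBal_r_mem h, WBal_c_mem h]; simp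
  · rw [WBal_r_not h, WBal_c_not h]; simp

theorem WBal_rint {T : ℝ} {U : Set ℂ} (hU : MeasurableSet U) (sU : U ⊆ ball (0 : ℂ) T)
    (E : ℂ → ℝ) : ∫ z in ball (0 : ℂ) T, WBal_r U z * E z = ∫ z in U, E z := by
  simp_rw [WBal_rE]
  rw [setIntegral_indicator hU, Set.inter_eq_right.mpr sU]

theorem WBal_rintegrable {T : ℝ} {U : Set ℂ} (hU : MeasurableSet U) {E : ℂ → ℝ}
    (hE : Continuous E) : Integrable (fun z => WBal_r U z * E z)
      (volume.restrict (ball (0 : ℂ) T)) := by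
  simp_rw [WBal_rE]
  exact (WBal_int hE 0 T).indicator hU

theorem WBal_sgl (T : ℝ) (E : ℂ → ℝ) (hE : Continuous E) (h0 : ∀ z, 0 ≤ E z) (F : ℂ → ℂ)
    (hF : Measurable F) (U V : Set ℂ) (hU : MeasurableSet U) (hV : MeasurableSet V)
    (sU : U ⊆ ball 0 T) (sV : V ⊆ ball 0 T) (c : ℂ) (K δ M : ℝ) (hK : 0 ≤ K) (hδ : 0 ≤ δ)
    (hM : ms T E ≤ M)
    (hb : ∀ z ∈ ball (0 : ℂ) T, ‖F z - c * WBal_c U z‖ ≤ K * WBal_r V z + δ) :
    ‖(∫ z in ball (0 : ℂ) T, F z * (E z : ℂ)) - c * ((∫ z in U, E z : ℝ) : ℂ)‖ ≤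
      K * (∫ z in V, E z) + δ * M := by
  set μ : Measure ℂ := volume.restrict (ball (0 : ℂ) T) with hμ
  have hEi : Integrable E μ := WBal_int hE 0 T
  have hFb : ∀ z ∈ ball (0 : ℂ) T, ‖F z‖ ≤ ‖c‖ + K + δ := by
    intro z hz
    have h1 := hb z hz
    have h2 : ‖c * WBal_c U z‖ ≤ ‖c‖ := by
      rw [norm_mul]
      exact mul_le_of_le_one_right (norm_nonneg _) (WBal_c_norm U z)
    have h3 : K * WBal_r V z ≤ K := mul_le_of_le_one_right hK (WBal_r_le V z)
    calc ‖F z‖ = ‖(F z - c * WBal_c U z) + c * WBal_c U z‖ := by congr 1; ring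
      _ ≤ ‖F z - c * WBal_c U z‖ + ‖c * WBal_c U z‖ := norm_add_le _ _
      _ ≤ _ := by linarith
  have hFi : Integrable (fun z => F z * (E z : ℂ)) μ := by
    refine Integrable.mono' (hEi.const_mul (‖c‖ + K + δ)) ?_ ?_
    · exact (hF.mul (Complex.measurable_ofReal.comp hE.measurable)).aestronglyMeasurable
    · refine (ae_restrict_mem measurableSet_ball).mono fun z hz => ?_
      rw [norm_mul, Complex.norm_real, Real.norm_eq_abs, abs_of_nonneg (h0 z)]
      exact mul_le_mul_of_nonneg_right (hFb z hz) (h0 z)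
  have hUi : Integrable (fun z => WBal_r U z * E z) μ := WBal_rintegrable hU hE
  have hVi : Integrable (fun z => WBal_r V z * E z) μ := WBal_rintegrable hV hE
  have hUc : Integrable (fun z => c * ((WBal_r U z * E z : ℝ) : ℂ)) μ := hUi.ofReal.const_mul c
  have e1 : c * ((∫ z in U, E z : ℝ) : ℂ) = ∫ z, c * ((WBal_r U z * E z : ℝ) : ℂ) ∂μ := by
    rw [integral_const_mul, integral_complex_ofReal, WBal_rint hU sU]
  rw [e1, ← integral_sub hFi hUc]
  have e2 : K * (∫ z in V, E z) + δ * ms T E =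
      ∫ z in ball (0 : ℂ) T, (K * (WBal_r V z * E z) + δ * E z) := by
    rw [integral_add (hVi.const_mul K) (hEi.const_mul δ), integral_const_mul, integral_const_mul,
      WBal_rint hV sV]
    rfl
  refine le_trans ?_ (add_le_add le_rfl (mul_le_mul_of_nonneg_left hM hδ))
  rw [e2]
  refine norm_integral_le_of_norm_le ((hVi.const_mul K).add (hEi.const_mul δ)) ?_
  refine (ae_restrict_mem measurableSet_ball).mono fun z hz => ?_
  have e3 : F z * (E z : ℂ) - c * ((WBal_r U z * E z : ℝ) : ℂ) =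
      (F z - c * WBal_c U z) * (E z : ℂ) := by
    rw [WBal_cr]
    push_cast
    ring
  rw [e3, norm_mul, Complex.norm_real, Real.norm_eq_abs, abs_of_nonneg (h0 z)]
  have := mul_le_mul_of_nonneg_right (hb z hz) (h0 z)
  linarith

theorem WBal_dbl (T : ℝ) (E : ℂ → ℝ) (hE : Continuous E) (h0 : ∀ z, 0 ≤ E z)
    (k : ℂ → ℂ → ℂ) (hk : Measurable (fun p : ℂ × ℂ => k p.1 p.2)) (U U' V : Set ℂ)
    (hU : MeasurableSet U) (hU' : MeasurableSet U') (hV : MeasurableSet V)
    (sU : U ⊆ ball 0 T) (sU' : U' ⊆ ball 0 T) (sV : V ⊆ ball 0 T) (c : ℂ) (L δ M : ℝ)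
    (hL : 0 ≤ L) (hδ : 0 ≤ δ) (hM : ms T E ≤ M)
    (hb : ∀ z ∈ ball (0 : ℂ) T, ∀ y ∈ ball (0 : ℂ) T,
      ‖k z y - c * (WBal_c U z * WBal_c U' y + WBal_c U' z * WBal_c U y)‖ ≤
        L * (WBal_r V z + WBal_r V y) + δ) :
    ‖(∫ z in ball (0 : ℂ) T, ∫ y in ball (0 : ℂ) T, k z y * (E z : ℂ) * (E y : ℂ)) -
      c * (2 * ((∫ z in U, E z : ℝ) : ℂ) * ((∫ z in U', E z : ℝ) : ℂ))‖ ≤
      2 * L * (∫ z in V, E z) * M + δ * M ^ 2 := by
  set μ : Measure ℂ := volume.restrict (ball (0 : ℂ) T) with hμ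
  have hEi : Integrable E μ := WBal_int hE 0 T
  have hms : 0 ≤ ms T E := setIntegral_nonneg measurableSet_ball fun z _ => h0 z
  have hM0 : 0 ≤ M := hms.trans hM
  have hUi : Integrable (fun z => WBal_r U z * E z) μ := WBal_rintegrable hU hE
  have hUi' : Integrable (fun z => WBal_r U' z * E z) μ := WBal_rintegrable hU' hE
  have hVi : Integrable (fun z => WBal_r V z * E z) μ := WBal_rintegrable hV hE
  have hprod : μ.prod μ = (volume.prod volume).restrict (ball (0 : ℂ) T ×ˢ ball (0 : ℂ) T) :=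
    Measure.prod_restrict _ _
  have hEE : Integrable (fun p : ℂ × ℂ => E p.1 * E p.2) (μ.prod μ) := hEi.mul_prod hEi
  have hae : ∀ᵐ p ∂(μ.prod μ), p.1 ∈ ball (0 : ℂ) T ∧ p.2 ∈ ball (0 : ℂ) T := by
    rw [hprod]
    exact (ae_restrict_mem (measurableSet_ball.prod measurableSet_ball)).mono fun p hp =>
      ⟨hp.1, hp.2⟩
  have hkb : ∀ z ∈ ball (0 : ℂ) T, ∀ y ∈ ball (0 : ℂ) T, ‖k z y‖ ≤ 2 * ‖c‖ + 2 * L + δ := by
    intro z hz y hy
    have h1 := hb z hz y hy
    have h2 : ‖c * (WBal_c U z * WBal_c U' y + WBal_c U' z * WBal_c U y)‖ ≤ 2 * ‖c‖ := by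
      rw [norm_mul, mul_comm]
      refine mul_le_mul_of_nonneg_right ?_ (norm_nonneg _)
      have a1 : ‖WBal_c U z * WBal_c U' y‖ ≤ 1 := by
        rw [norm_mul]
        exact mul_le_one₀ (WBal_c_norm _ _) (norm_nonneg _) (WBal_c_norm _ _)
      have a2 : ‖WBal_c U' z * WBal_c U y‖ ≤ 1 := by
        rw [norm_mul]
        exact mul_le_one₀ (WBal_c_norm _ _) (norm_nonneg _) (WBal_c_norm _ _)
      exact (norm_add_le _ _).trans (by linarith)
    have h3 : L * (WBal_r V z + WBal_r V y) ≤ 2 * L := by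
      have := WBal_r_le V z
      have := WBal_r_le V y
      nlinarith
    calc ‖k z y‖ = ‖(k z y - c * (WBal_c U z * WBal_c U' y + WBal_c U' z * WBal_c U y)) +
          c * (WBal_c U z * WBal_c U' y + WBal_c U' z * WBal_c U y)‖ := by congr 1; ring
      _ ≤ _ := norm_add_le _ _
      _ ≤ _ := by linarith
  have hfi : Integrable (fun p : ℂ × ℂ => k p.1 p.2 * (E p.1 : ℂ) * (E p.2 : ℂ)) (μ.prod μ) := by
    refine Integrable.mono' (hEE.const_mul (2 * ‖c‖ + 2 * L + δ)) ?_ ?_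
    · exact ((hk.mul (Complex.measurable_ofReal.comp (hE.measurable.comp measurable_fst))).mul
        (Complex.measurable_ofReal.comp (hE.measurable.comp measurable_snd))).aestronglyMeasurable
    · refine hae.mono fun p hp => ?_
      rw [norm_mul, norm_mul, Complex.norm_real, Real.norm_eq_abs, abs_of_nonneg (h0 _),
        Complex.norm_real, Real.norm_eq_abs, abs_of_nonneg (h0 _), mul_assoc]
      exact mul_le_mul_of_nonneg_right (hkb _ hp.1 _ hp.2) (mul_nonneg (h0 _) (h0 _))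
  have i1 : (∫ z in ball (0 : ℂ) T, ∫ y in ball (0 : ℂ) T, k z y * (E z : ℂ) * (E y : ℂ)) =
      ∫ p, k p.1 p.2 * (E p.1 : ℂ) * (E p.2 : ℂ) ∂(μ.prod μ) := by
    rw [integral_prod _ hfi]
  have hg0 : Integrable (fun p : ℂ × ℂ => (WBal_r U p.1 * E p.1) * (WBal_r U' p.2 * E p.2) +
      (WBal_r U' p.1 * E p.1) * (WBal_r U p.2 * E p.2)) (μ.prod μ) :=
    (hUi.mul_prod hUi').add (hUi'.mul_prod hUi)
  have i2 : c * (2 * ((∫ z in U, E z : ℝ) : ℂ) * ((∫ z in U', E z : ℝ) : ℂ)) =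
      ∫ p, c * (((WBal_r U p.1 * E p.1) * (WBal_r U' p.2 * E p.2) +
      (WBal_r U' p.1 * E p.1) * (WBal_r U p.2 * E p.2) : ℝ) : ℂ) ∂(μ.prod μ) := by
    rw [integral_const_mul, integral_complex_ofReal,
      integral_add (hUi.mul_prod hUi') (hUi'.mul_prod hUi),
      integral_prod_mul (fun z => WBal_r U z * E z) (fun z => WBal_r U' z * E z),
      integral_prod_mul (fun z => WBal_r U' z * E z) (fun z => WBal_r U z * E z),
      WBal_rint hU sU, WBal_rint hU' sU']
    push_cast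
    ring
  have hgc : Integrable (fun p : ℂ × ℂ => c * (((WBal_r U p.1 * E p.1) *
      (WBal_r U' p.2 * E p.2) + (WBal_r U' p.1 * E p.1) * (WBal_r U p.2 * E p.2) : ℝ) : ℂ))
      (μ.prod μ) := hg0.ofReal.const_mul c
  have hg1 : Integrable (fun p : ℂ × ℂ => L * ((WBal_r V p.1 * E p.1) * E p.2 +
      E p.1 * (WBal_r V p.2 * E p.2))) (μ.prod μ) :=
    ((hVi.mul_prod hEi).add (hEi.mul_prod hVi)).const_mul L
  have hgi : Integrable (fun p : ℂ × ℂ => L * ((WBal_r V p.1 * E p.1) * E p.2 +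
      E p.1 * (WBal_r V p.2 * E p.2)) + δ * (E p.1 * E p.2)) (μ.prod μ) :=
    hg1.add (hEE.const_mul δ)
  have i3 : ∫ p, (L * ((WBal_r V p.1 * E p.1) * E p.2 +
      E p.1 * (WBal_r V p.2 * E p.2)) + δ * (E p.1 * E p.2)) ∂(μ.prod μ) =
      2 * L * (∫ z in V, E z) * ms T E + δ * ms T E ^ 2 := by
    rw [integral_add hg1 (hEE.const_mul δ), integral_const_mul, integral_const_mul,
      integral_add (hVi.mul_prod hEi) (hEi.mul_prod hVi),
      integral_prod_mul (fun z => WBal_r V z * E z) E,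
      integral_prod_mul E (fun z => WBal_r V z * E z), integral_prod_mul E E,
      WBal_rint hV sV]
    have : ∫ z, E z ∂μ = ms T E := rfl
    rw [this]
    ring
  have hV0 : 0 ≤ ∫ z in V, E z := setIntegral_nonneg hV fun z _ => h0 z
  calc _ = ‖∫ p, (k p.1 p.2 * (E p.1 : ℂ) * (E p.2 : ℂ) -
        c * (((WBal_r U p.1 * E p.1) * (WBal_r U' p.2 * E p.2) +
      (WBal_r U' p.1 * E p.1) * (WBal_r U p.2 * E p.2) : ℝ) : ℂ)) ∂(μ.prod μ)‖ := by
        rw [i1, i2, integral_sub hfi hgc]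
    _ ≤ ∫ p, (L * ((WBal_r V p.1 * E p.1) * E p.2 +
      E p.1 * (WBal_r V p.2 * E p.2)) + δ * (E p.1 * E p.2)) ∂(μ.prod μ) := by
        refine norm_integral_le_of_norm_le hgi ?_
        refine hae.mono fun p hp => ?_
        have e3 : k p.1 p.2 * (E p.1 : ℂ) * (E p.2 : ℂ) -
            c * (((WBal_r U p.1 * E p.1) * (WBal_r U' p.2 * E p.2) +
            (WBal_r U' p.1 * E p.1) * (WBal_r U p.2 * E p.2) : ℝ) : ℂ) =
            (k p.1 p.2 - c * (WBal_c U p.1 * WBal_c U' p.2 + WBal_c U' p.1 * WBal_c U p.2)) *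
              (E p.1 : ℂ) * (E p.2 : ℂ) := by
          simp only [WBal_cr]
          push_cast
          ring
        rw [e3, norm_mul, norm_mul, Complex.norm_real, Real.norm_eq_abs, abs_of_nonneg (h0 _),
          Complex.norm_real, Real.norm_eq_abs, abs_of_nonneg (h0 _), mul_assoc]
        have := mul_le_mul_of_nonneg_right (hb _ hp.1 _ hp.2) (mul_nonneg (h0 p.1) (h0 p.2))
        linarith
    _ = 2 * L * (∫ z in V, E z) * ms T E + δ * ms T E ^ 2 := i3
    _ ≤ _ := by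
        refine add_le_add (mul_le_mul_of_nonneg_left hM (by positivity)) ?_
        exact mul_le_mul_of_nonneg_left (pow_le_pow_left₀ hms hM 2) hδ

/-- The cut-off vector field. -/
noncomputable def WBal_psi (χ : ℂ → ℝ) (q z : ℂ) : ℂ := ((χ (z - q) : ℝ) : ℂ)

theorem WBal_fd {χ : ℂ → ℝ} (hχ : ContDiff ℝ ∞ χ) (q z : ℂ) :
    HasFDerivAt (WBal_psi χ q) (Complex.ofRealCLM.comp (fderiv ℝ χ (z - q))) z := by
  have h1 : HasFDerivAt χ (fderiv ℝ χ (z - q)) (z - q) :=
    ((hχ.differentiable (by simp)) (z - q)).hasFDerivAt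
  have h2 : HasFDerivAt (fun z : ℂ => z - q) (ContinuousLinearMap.id ℝ ℂ) z :=
    (hasFDerivAt_id z).sub_const q
  have h3 : HasFDerivAt (fun z : ℂ => χ (z - q)) (fderiv ℝ χ (z - q)) z := by
    have := h1.comp z h2
    rw [ContinuousLinearMap.comp_id] at this
    exact this
  exact (Complex.ofRealCLM.hasFDerivAt (x := χ (z - q))).comp z h3

theorem WBal_dz {χ : ℂ → ℝ} (hχ : ContDiff ℝ ∞ χ) (q z : ℂ) :
    ‖dz (WBal_psi χ q) z‖ ≤ ‖fderiv ℝ χ (z - q)‖ := by
  unfold dz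
  rw [(WBal_fd hχ q z).fderiv]
  simp only [ContinuousLinearMap.comp_apply, Complex.ofRealCLM_apply]
  have h1 : ‖((fderiv ℝ χ (z - q) 1 : ℝ) : ℂ)‖ ≤ ‖fderiv ℝ χ (z - q)‖ := by
    rw [Complex.norm_real]
    have := (fderiv ℝ χ (z - q)).le_opNorm 1
    simpa using this
  have h2 : ‖I * ((fderiv ℝ χ (z - q) I : ℝ) : ℂ)‖ ≤ ‖fderiv ℝ χ (z - q)‖ := by
    rw [norm_mul, Complex.norm_I, one_mul, Complex.norm_real]
    have := (fderiv ℝ χ (z - q)).le_opNorm I
    simpa using this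
  have h3 : ‖(2 : ℂ)‖ = 2 := by simp
  rw [norm_div, h3, div_le_iff₀ (by norm_num)]
  exact (norm_sub_le _ _).trans (by linarith)

/-- The integrand. -/
noncomputable def WBal_F (χ : ℂ → ℝ) (q : ℂ) (h : ℂ → ℂ) (lam : ℝ) (z : ℂ) : ℂ :=
  dz (WBal_psi χ q) z + WBal_psi χ q z * (((1 : ℕ) : ℂ) / z + deriv h z -
    (lam : ℂ) / 4 * conj z)

theorem WBal_F_meas {χ : ℂ → ℝ} (hχ : ContDiff ℝ ∞ χ) (q : ℂ) (h : ℂ → ℂ) (lam : ℝ) :
    Measurable (WBal_F χ q h lam) := by
  have hpsi : Measurable (WBal_psi χ q) := by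
    have : Continuous (WBal_psi χ q) :=
      Complex.continuous_ofReal.comp (hχ.continuous.comp (continuous_id.sub continuous_const))
    exact this.measurable
  have hdz : Measurable (dz (WBal_psi χ q)) := by
    unfold dz
    exact ((measurable_fderiv_apply_const ℝ (WBal_psi χ q) 1).sub
      (measurable_const.mul (measurable_fderiv_apply_const ℝ (WBal_psi χ q) I))).div_const 2
  have hd : Measurable (deriv h) := measurable_deriv h
  have hc : Measurable (fun z : ℂ => conj z) := Complex.continuous_conj.measurable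
  unfold WBal_F
  exact hdz.add (hpsi.mul (((measurable_const.div measurable_id).add hd).sub
    (measurable_const.mul hc)))

theorem WBal_inv1 {q q' z y : ℂ} {s : ℝ} (hd : 0 < ‖q - q'‖) (hz : ‖z - q‖ < s)
    (hy : ‖y - q'‖ < s) (hs : 4 * s ≤ ‖q - q'‖) :
    ‖1 / (z - y) - 1 / (q - q')‖ ≤ 4 * s / ‖q - q'‖ ^ 2 := by
  have h1 : ‖q - q'‖ ≤ ‖z - y‖ + 2 * s := by
    calc ‖q - q'‖ = ‖(z - y) - (z - q) + (y - q')‖ := by congr 1; ring
      _ ≤ ‖(z - y) - (z - q)‖ + ‖y - q'‖ := norm_add_le _ _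
      _ ≤ ‖z - y‖ + ‖z - q‖ + ‖y - q'‖ := by linarith [norm_sub_le (z - y) (z - q)]
      _ ≤ _ := by linarith
  have h2 : ‖q - q'‖ / 2 ≤ ‖z - y‖ := by linarith
  have h3 : 0 < ‖z - y‖ := by linarith
  have h4 : z - y ≠ 0 := norm_pos_iff.mp h3
  have h5 : q - q' ≠ 0 := norm_pos_iff.mp hd
  have h6 : 1 / (z - y) - 1 / (q - q') = ((y - q') - (z - q)) / ((z - y) * (q - q')) := by
    field_simp
    ring
  rw [h6, norm_div, norm_mul]
  have h7 : ‖(y - q') - (z - q)‖ ≤ 2 * s := (norm_sub_le _ _).trans (by linarith)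
  have hs0 : 0 ≤ 2 * s := (norm_nonneg _).trans h7
  calc ‖(y - q') - (z - q)‖ / (‖z - y‖ * ‖q - q'‖) ≤
        2 * s / (‖q - q'‖ / 2 * ‖q - q'‖) := by
        refine div_le_div₀ hs0 h7 (by positivity) ?_
        exact mul_le_mul_of_nonneg_right h2 hd.le
    _ = _ := by field_simp; ring

theorem WBal_inv2 {q z y : ℂ} {s S : ℝ} (hz : ‖z - q‖ < s) (hs : s ≤ ‖q‖) (hy : S ≤ ‖y‖)
    (hS : 2 * ‖q‖ < S) : ‖1 / (z - y)‖ ≤ 1 / (S - 2 * ‖q‖) := by
  rw [norm_div, norm_one]
  refine one_div_le_one_div_of_le (by linarith) ?_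
  have h1 : ‖y‖ ≤ ‖z - y‖ + ‖z‖ := by
    calc ‖y‖ = ‖z - (z - y)‖ := by congr 1; ring
      _ ≤ ‖z‖ + ‖z - y‖ := norm_sub_le _ _
      _ = _ := add_comm _ _
  have h2 : ‖z‖ ≤ ‖z - q‖ + ‖q‖ := by
    calc ‖z‖ = ‖(z - q) + q‖ := by congr 1; ring
      _ ≤ _ := norm_add_le _ _
  linarith

theorem WBal_inv3 {q z : ℂ} {s : ℝ} (hq : 0 < ‖q‖) (hz : ‖z - q‖ < s) (hs : 2 * s ≤ ‖q‖) :
    ‖1 / z - 1 / q‖ ≤ 2 * s / ‖q‖ ^ 2 := by
  have h1 : ‖q‖ ≤ ‖z‖ + ‖z - q‖ := by
    calc ‖q‖ = ‖z - (z - q)‖ := by congr 1; ring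
      _ ≤ _ := norm_sub_le _ _
  have h2 : ‖q‖ / 2 ≤ ‖z‖ := by linarith
  have h3 : 0 < ‖z‖ := by linarith
  have h4 : z ≠ 0 := norm_pos_iff.mp h3
  have h5 : q ≠ 0 := norm_pos_iff.mp hq
  have h6 : 1 / z - 1 / q = -(z - q) / (z * q) := by
    field_simp
    ring
  rw [h6, norm_div, norm_mul, norm_neg]
  have hs0 : 0 ≤ s := (norm_nonneg _).trans hz.le
  calc ‖z - q‖ / (‖z‖ * ‖q‖) ≤ s / (‖q‖ / 2 * ‖q‖) := by
        refine div_le_div₀ hs0 hz.le (by positivity) ?_
        exact mul_le_mul_of_nonneg_right h2 hq.le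
    _ = _ := by field_simp

section

variable {χ : ℂ → ℝ} {q q' : ℂ} {σ s S K : ℝ}

theorem WBal_psi_one (h1 : ∀ z, ‖z‖ ≤ σ → χ z = 1) {z : ℂ} (hz : ‖z - q‖ < σ) :
    WBal_psi χ q z = 1 := by
  unfold WBal_psi
  rw [h1 _ hz.le]
  simp

theorem WBal_psi_zero (h2 : ∀ z, 3 / 2 * σ ≤ ‖z‖ → χ z = 0) {z : ℂ}
    (hz : 3 / 2 * σ ≤ ‖z - q‖) : WBal_psi χ q z = 0 := by
  unfold WBal_psi
  rw [h2 _ hz]
  simp

theorem WBal_dz_one (hχ : ContDiff ℝ ∞ χ) (h1 : ∀ z, ‖z‖ ≤ σ → χ z = 1) {z : ℂ}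
    (hz : ‖z - q‖ < σ) : dz (WBal_psi χ q) z = 0 := by
  have h3 : χ =ᶠ[𝓝 (z - q)] fun _ => 1 := by
    have : {w : ℂ | ‖w‖ < σ} ∈ 𝓝 (z - q) := (isOpen_lt continuous_norm continuous_const).mem_nhds hz
    filter_upwards [this] with w hw
    exact h1 w (le_of_lt hw)
  have h4 : fderiv ℝ χ (z - q) = 0 := by
    rw [h3.fderiv_eq]
    simp
  have h5 := WBal_dz hχ q z
  rw [h4, norm_zero] at h5
  exact norm_le_zero_iff.mp h5

theorem WBal_dz_zero (hχ : ContDiff ℝ ∞ χ) (h2 : ∀ z, 3 / 2 * σ ≤ ‖z‖ → χ z = 0) {z : ℂ}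
    (hz : 3 / 2 * σ < ‖z - q‖) : dz (WBal_psi χ q) z = 0 := by
  have h3 : χ =ᶠ[𝓝 (z - q)] fun _ => 0 := by
    have : {w : ℂ | 3 / 2 * σ < ‖w‖} ∈ 𝓝 (z - q) :=
      (isOpen_lt continuous_const continuous_norm).mem_nhds hz
    filter_upwards [this] with w hw
    exact h2 w (le_of_lt hw)
  have h4 : fderiv ℝ χ (z - q) = 0 := by
    rw [h3.fderiv_eq]
    simp
  have h5 := WBal_dz hχ q z
  rw [h4, norm_zero] at h5
  exact norm_le_zero_iff.mp h5

theorem WBal_Fb (hχ : ContDiff ℝ ∞ χ) (h01 : ∀ z, 0 ≤ χ z ∧ χ z ≤ 1)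
    (h1 : ∀ z, ‖z‖ ≤ σ → χ z = 1) (h2 : ∀ z, 3 / 2 * σ ≤ ‖z‖ → χ z = 0)
    (h3 : ∀ z, ‖fderiv ℝ χ z‖ ≤ K / σ) (hσ : 0 < σ) (hq : 0 < ‖q‖) (hσq : 8 * σ ≤ ‖q‖)
    (hσd : 8 * σ ≤ ‖q - q'‖) (hs : 0 < s) (hsσ : s ≤ σ) (hS : 2 * ‖q‖ < S) (T : ℝ) (h : ℂ → ℂ)
    (lam Hr Lr : ℝ) (hder : ∀ z ∈ ball (0 : ℂ) T, ‖deriv h z‖ ≤ Hr) (hlam : 0 ≤ lam)
    (hlam' : lam ≤ Lr) (hHr : 0 ≤ Hr) :
    ∀ z ∈ ball (0 : ℂ) T, ‖WBal_F χ q h lam z - 1 / q * WBal_c (ball q s) z‖ ≤
      (K / σ + (2 / ‖q‖ + Hr + Lr * (2 * ‖q‖))) *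
        WBal_r (ball 0 S \ (ball q s ∪ ball q' s)) z +
      (2 * s / ‖q‖ ^ 2 + Hr + Lr * (2 * ‖q‖)) := by
  intro z hz
  have hLr : 0 ≤ Lr := hlam.trans hlam'
  have hKσ : 0 ≤ K / σ := (norm_nonneg _).trans (h3 0)
  have hδ : 0 ≤ 2 * s / ‖q‖ ^ 2 + Hr + Lr * (2 * ‖q‖) := by positivity
  have hK1 : 0 ≤ K / σ + (2 / ‖q‖ + Hr + Lr * (2 * ‖q‖)) := by positivity
  have hconj : ‖z‖ ≤ 2 * ‖q‖ → ‖(lam : ℂ) / 4 * conj z‖ ≤ Lr * (2 * ‖q‖) := by
    intro hz2
    rw [norm_mul, norm_div, Complex.norm_real, RCLike.norm_conj, Real.norm_eq_abs,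
      abs_of_nonneg hlam]
    have h10 : ‖(4 : ℂ)‖ = 4 := by simp
    rw [h10]
    refine mul_le_mul ?_ hz2 (norm_nonneg _) hLr
    linarith
  have hzn : ‖z‖ ≤ ‖z - q‖ + ‖q‖ := by
    calc ‖z‖ = ‖(z - q) + q‖ := by congr 1; ring
      _ ≤ _ := norm_add_le _ _
  have hqn : ‖q‖ ≤ ‖z‖ + ‖z - q‖ := by
    calc ‖q‖ = ‖z - (z - q)‖ := by congr 1; ring
      _ ≤ _ := norm_sub_le _ _
  by_cases hU : z ∈ ball q s
  · have hzq : ‖z - q‖ < s := by rwa [mem_ball, dist_eq_norm] at hU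
    rw [WBal_c_mem hU, WBal_r_not (fun hV => hV.2 (Or.inl hU)), mul_zero, zero_add, mul_one]
    unfold WBal_F
    rw [WBal_psi_one h1 (hzq.trans_le hsσ), WBal_dz_one hχ h1 (hzq.trans_le hsσ), zero_add,
      one_mul]
    have b1 := WBal_inv3 hq hzq (by linarith)
    have b2 := hder z hz
    have b3 := hconj (by linarith)
    calc ‖((1 : ℕ) : ℂ) / z + deriv h z - (lam : ℂ) / 4 * conj z - 1 / q‖ =
          ‖(1 / z - 1 / q) + deriv h z - (lam : ℂ) / 4 * conj z‖ := by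
          congr 1
          push_cast
          ring
      _ ≤ ‖(1 / z - 1 / q) + deriv h z‖ + ‖(lam : ℂ) / 4 * conj z‖ := norm_sub_le _ _
      _ ≤ ‖1 / z - 1 / q‖ + ‖deriv h z‖ + ‖(lam : ℂ) / 4 * conj z‖ :=
          add_le_add (norm_add_le _ _) le_rfl
      _ ≤ _ := by linarith
  · rw [WBal_c_not hU, mul_zero, sub_zero]
    by_cases hfar : 3 / 2 * σ < ‖z - q‖
    · unfold WBal_F
      rw [WBal_psi_zero h2 hfar.le, WBal_dz_zero hχ h2 hfar]
      simp only [zero_mul, add_zero, norm_zero]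
      have := mul_nonneg hK1 (WBal_r_nonneg (ball 0 S \ (ball q s ∪ ball q' s)) z)
      linarith
    · have hnear : ‖z - q‖ ≤ 3 / 2 * σ := not_lt.mp hfar
      have hV : z ∈ ball 0 S \ (ball q s ∪ ball q' s) := by
        refine ⟨?_, ?_⟩
        · rw [mem_ball, dist_zero_right]
          linarith
        · rintro (hu | hu)
          · exact hU hu
          · rw [mem_ball, dist_eq_norm] at hu
            have : ‖q - q'‖ ≤ ‖z - q'‖ + ‖z - q‖ := by
              calc ‖q - q'‖ = ‖(z - q') - (z - q)‖ := by congr 1; ring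
                _ ≤ _ := norm_sub_le _ _
            linarith
      rw [WBal_r_mem hV, mul_one]
      have b0 : ‖dz (WBal_psi χ q) z‖ ≤ K / σ := (WBal_dz hχ q z).trans (h3 _)
      have b1 : ‖((1 : ℕ) : ℂ) / z‖ ≤ 2 / ‖q‖ := by
        rw [Nat.cast_one, norm_div, norm_one]
        have h6 : ‖q‖ / 2 ≤ ‖z‖ := by linarith
        calc 1 / ‖z‖ ≤ 1 / (‖q‖ / 2) := one_div_le_one_div_of_le (by positivity) h6
          _ = 2 / ‖q‖ := by field_simp
      have b2 := hder z hz
      have b3 := hconj (by linarith)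
      have b4 : ‖WBal_psi χ q z‖ ≤ 1 := by
        unfold WBal_psi
        rw [Complex.norm_real, Real.norm_eq_abs, abs_of_nonneg (h01 _).1]
        exact (h01 _).2
      have b5 : ‖((1 : ℕ) : ℂ) / z + deriv h z - (lam : ℂ) / 4 * conj z‖ ≤
          2 / ‖q‖ + Hr + Lr * (2 * ‖q‖) := by
        refine (norm_sub_le _ _).trans (add_le_add ?_ b3)
        exact (norm_add_le _ _).trans (add_le_add b1 b2)
      unfold WBal_F
      calc _ ≤ ‖dz (WBal_psi χ q) z‖ + ‖WBal_psi χ q z * (((1 : ℕ) : ℂ) / z + deriv h z -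
            (lam : ℂ) / 4 * conj z)‖ := norm_add_le _ _
        _ ≤ K / σ + 1 * (2 / ‖q‖ + Hr + Lr * (2 * ‖q‖)) := by
            refine add_le_add b0 ?_
            rw [norm_mul]
            exact mul_le_mul b4 b5 (norm_nonneg _) zero_le_one
        _ ≤ _ := by linarith

theorem WBal_kb (h1 : ∀ z, ‖z‖ ≤ σ → χ z = 1)
    (h2 : ∀ z, 3 / 2 * σ ≤ ‖z‖ → χ z = 0) (h4 : ∀ z y, |χ z - χ y| ≤ K / σ * ‖z - y‖)
    (hKσ : 0 ≤ K / σ) (hσ : 0 < σ) (hσq : 8 * σ ≤ ‖q‖) (hd : 0 < ‖q - q'‖)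
    (hσd : 8 * σ ≤ ‖q - q'‖) (hs : 0 < s) (hsσ : s ≤ σ) (hS : 2 * ‖q‖ + ‖q - q'‖ < S) :
    ∀ z y : ℂ, ‖(WBal_psi χ q z - WBal_psi χ q y) / (z - y) -
        1 / (q - q') * (WBal_c (ball q s) z * WBal_c (ball q' s) y +
          WBal_c (ball q' s) z * WBal_c (ball q s) y)‖ ≤
      (K / σ + 2 * ‖1 / (q - q')‖) * (WBal_r (ball 0 S \ (ball q s ∪ ball q' s)) z +
        WBal_r (ball 0 S \ (ball q s ∪ ball q' s)) y) +
      (4 * s / ‖q - q'‖ ^ 2 + 1 / (S - 2 * ‖q‖)) := by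
  intro z y
  have hS' : 0 < S - 2 * ‖q‖ := by linarith
  have hδ1 : 0 ≤ 4 * s / ‖q - q'‖ ^ 2 := by positivity
  have hδ2 : 0 ≤ 1 / (S - 2 * ‖q‖) := by positivity
  have hL : 0 ≤ K / σ + 2 * ‖1 / (q - q')‖ := by positivity
  have hq' : ‖q'‖ ≤ ‖q‖ + ‖q - q'‖ := by
    calc ‖q'‖ = ‖q - (q - q')‖ := by congr 1; ring
      _ ≤ _ := norm_sub_le _ _
  -- the trivial bound
  have hk0 : ‖(WBal_psi χ q z - WBal_psi χ q y) / (z - y)‖ ≤ K / σ := by
    by_cases hzy : z - y = 0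
    · rw [hzy, div_zero, norm_zero]
      exact hKσ
    · rw [norm_div, div_le_iff₀ (norm_pos_iff.mpr hzy)]
      unfold WBal_psi
      rw [← Complex.ofReal_sub, Complex.norm_real, Real.norm_eq_abs]
      have := h4 (z - q) (y - q)
      rw [sub_sub_sub_cancel_right] at this
      exact this
  have htriv : ‖(WBal_psi χ q z - WBal_psi χ q y) / (z - y) -
        1 / (q - q') * (WBal_c (ball q s) z * WBal_c (ball q' s) y +
          WBal_c (ball q' s) z * WBal_c (ball q s) y)‖ ≤ K / σ + 2 * ‖1 / (q - q')‖ := by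
    refine (norm_sub_le _ _).trans (add_le_add hk0 ?_)
    rw [norm_mul, mul_comm]
    refine mul_le_mul_of_nonneg_right ?_ (norm_nonneg _)
    have a1 : ‖WBal_c (ball q s) z * WBal_c (ball q' s) y‖ ≤ 1 := by
      rw [norm_mul]
      exact mul_le_one₀ (WBal_c_norm _ _) (norm_nonneg _) (WBal_c_norm _ _)
    have a2 : ‖WBal_c (ball q' s) z * WBal_c (ball q s) y‖ ≤ 1 := by
      rw [norm_mul]
      exact mul_le_one₀ (WBal_c_norm _ _) (norm_nonneg _) (WBal_c_norm _ _)
    exact (norm_add_le _ _).trans (by linarith)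
  by_cases hVz : z ∈ ball 0 S \ (ball q s ∪ ball q' s)
  · rw [WBal_r_mem hVz]
    have := WBal_r_nonneg (ball 0 S \ (ball q s ∪ ball q' s)) y
    nlinarith
  by_cases hVy : y ∈ ball 0 S \ (ball q s ∪ ball q' s)
  · rw [WBal_r_mem hVy]
    have := WBal_r_nonneg (ball 0 S \ (ball q s ∪ ball q' s)) z
    nlinarith
  rw [WBal_r_not hVz, WBal_r_not hVy, add_zero, mul_zero, zero_add]
  -- the three classes
  have hcl : ∀ w : ℂ, w ∉ ball 0 S \ (ball q s ∪ ball q' s) →
      (‖w - q‖ < s ∧ WBal_psi χ q w = 1 ∧ WBal_c (ball q s) w = 1 ∧ WBal_c (ball q' s) w = 0) ∨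
      (‖w - q'‖ < s ∧ WBal_psi χ q w = 0 ∧ WBal_c (ball q s) w = 0 ∧
        WBal_c (ball q' s) w = 1) ∨
      (S ≤ ‖w‖ ∧ WBal_psi χ q w = 0 ∧ WBal_c (ball q s) w = 0 ∧ WBal_c (ball q' s) w = 0) := by
    intro w hw
    have htri : ‖q - q'‖ ≤ ‖w - q'‖ + ‖w - q‖ := by
      calc ‖q - q'‖ = ‖(w - q') - (w - q)‖ := by congr 1; ring
        _ ≤ _ := norm_sub_le _ _
    by_cases hwU : w ∈ ball q s
    · left
      have h5 : ‖w - q‖ < s := by rwa [mem_ball, dist_eq_norm] at hwU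
      refine ⟨h5, WBal_psi_one h1 (h5.trans_le hsσ), WBal_c_mem hwU, WBal_c_not ?_⟩
      rw [mem_ball, dist_eq_norm, not_lt]
      linarith
    by_cases hwU' : w ∈ ball q' s
    · right; left
      have h5 : ‖w - q'‖ < s := by rwa [mem_ball, dist_eq_norm] at hwU'
      refine ⟨h5, WBal_psi_zero h2 ?_, WBal_c_not hwU, WBal_c_mem hwU'⟩
      linarith
    · right; right
      have h5 : S ≤ ‖w‖ := by
        by_contra h6
        apply hw
        refine ⟨?_, ?_⟩
        · rw [mem_ball, dist_zero_right]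
          exact not_le.mp h6
        · rintro (h7 | h7)
          · exact hwU h7
          · exact hwU' h7
      refine ⟨h5, WBal_psi_zero h2 ?_, WBal_c_not hwU, WBal_c_not hwU'⟩
      have h6 : ‖w‖ ≤ ‖w - q‖ + ‖q‖ := by
        calc ‖w‖ = ‖(w - q) + q‖ := by congr 1; ring
          _ ≤ _ := norm_add_le _ _
      linarith
  have h4s : 4 * s ≤ ‖q - q'‖ := by linarith
  have hsq : s ≤ ‖q‖ := by linarith
  have h2S : 2 * ‖q‖ < S := by linarith
  rcases hcl z hVz with ⟨z1, z2, z3, z4⟩ | ⟨z1, z2, z3, z4⟩ | ⟨z1, z2, z3, z4⟩ <;>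
    rcases hcl y hVy with ⟨y1, y2, y3, y4⟩ | ⟨y1, y2, y3, y4⟩ | ⟨y1, y2, y3, y4⟩ <;>
    rw [z2, z3, z4, y2, y3, y4]
  · simp only [sub_self, zero_div, mul_zero, zero_mul, add_zero, norm_zero]
    linarith
  · have := WBal_inv1 hd z1 y1 h4s
    simp only [sub_zero, mul_one, mul_zero, add_zero]
    linarith
  · have := WBal_inv2 z1 hsq y1 h2S
    simp only [sub_zero, mul_one, mul_zero, add_zero]
    linarith
  · have h5 := WBal_inv1 hd y1 z1 h4s
    have h6 : (0 - 1) / (z - y) - 1 / (q - q') * (0 * 0 + 1 * 1) =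
        1 / (y - z) - 1 / (q - q') := by
      rw [← neg_sub y z, div_neg]
      ring
    rw [h6]
    linarith
  · simp only [sub_self, zero_div, mul_zero, zero_mul, add_zero, norm_zero, mul_one, one_mul]
    linarith
  · simp only [sub_self, zero_div, mul_zero, zero_mul, add_zero, norm_zero, mul_one, one_mul]
    linarith
  · have h5 := WBal_inv2 y1 hsq z1 h2S
    have h6 : (0 - 1) / (z - y) - 1 / (q - q') * (0 * 0 + 0 * 1) = 1 / (y - z) := by
      rw [← neg_sub y z, div_neg]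
      ring
    rw [h6]
    linarith
  · simp only [sub_self, zero_div, mul_zero, zero_mul, add_zero, norm_zero, mul_one, one_mul]
    linarith
  · simp only [sub_self, zero_div, mul_zero, zero_mul, add_zero, norm_zero, mul_one, one_mul]
    linarith

end

theorem WBal_step (h1 : S_Id) {K : ℝ} (hK : ∀ s : ℝ, 0 < s → ∃ χ : ℂ → ℝ, ContDiff ℝ ∞ χ ∧
      (∀ z, 0 ≤ χ z ∧ χ z ≤ 1) ∧ (∀ z, ‖z‖ ≤ s → χ z = 1) ∧ (∀ z, 3 / 2 * s ≤ ‖z‖ → χ z = 0) ∧
      (∀ z, ‖fderiv ℝ χ z‖ ≤ K / s) ∧ ∀ z y, |χ z - χ y| ≤ K / s * ‖z - y‖)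
    {r H Λ : ℝ} {R lam eta : ℕ → ℝ} {h : ℕ → ℂ → ℂ} {E : ℕ → ℂ → ℝ}
    (hp : PL r H Λ R lam eta h E) {M : ℝ} (hM : ∀ j, ms (r / R j) (E j) ≤ M)
    {q q' : ℂ} {m m' s0 : ℝ} (hq : 0 < ‖q‖) (hd : 0 < ‖q - q'‖)
    (hU : ∀ s, 0 < s → s ≤ s0 → Tendsto (fun j => ∫ z in ball q s, E j z) atTop (𝓝 m))
    (hU' : ∀ s, 0 < s → s ≤ s0 → Tendsto (fun j => ∫ z in ball q' s, E j z) atTop (𝓝 m'))
    (hV : ∀ s S, 0 < s → Tendsto (fun j => ∫ z in ball 0 S \ (ball q s ∪ ball q' s), E j z)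
      atTop (𝓝 0)) {σ s S : ℝ} (hσ : 0 < σ) (hσq : 8 * σ ≤ ‖q‖) (hσd : 8 * σ ≤ ‖q - q'‖)
    (hs : 0 < s) (hsσ : s ≤ σ) (hs0 : s ≤ s0) (hS : 2 * ‖q‖ + ‖q - q'‖ < S) :
    ‖1 / q * (m : ℂ) - 1 / (8 * π) * (1 / (q - q') * (2 * (m : ℂ) * (m' : ℂ)))‖ ≤
      2 * s / ‖q‖ ^ 2 * M +
        1 / (8 * π) * ((4 * s / ‖q - q'‖ ^ 2 + 1 / (S - 2 * ‖q‖)) * M ^ 2) := by
  obtain ⟨χ, hχ, h01, hχ1, hχ2, hχ3, hχ4⟩ := hK σ hσ
  have hKσ : 0 ≤ K / σ := (norm_nonneg _).trans (hχ3 0)
  have hE0 : ∀ j z, 0 ≤ E j z := fun j z => (hp.loc j).nonneg z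
  have hEc : ∀ j, Continuous (E j) := fun j => (hp.loc j).cont
  have hΛ0 : 0 ≤ Λ := (hp.lamb 0).1.trans (hp.lamb 0).2
  have hq' : ‖q'‖ ≤ ‖q‖ + ‖q - q'‖ := by
    calc ‖q'‖ = ‖q - (q - q')‖ := by congr 1; ring
      _ ≤ _ := norm_sub_le _ _
  set mU : ℕ → ℝ := fun j => ∫ z in ball q s, E j z with hmU
  set mU' : ℕ → ℝ := fun j => ∫ z in ball q' s, E j z with hmU'
  set mV : ℕ → ℝ := fun j => ∫ z in ball 0 S \ (ball q s ∪ ball q' s), E j z with hmV
  have tU : Tendsto mU atTop (𝓝 m) := hU s hs hs0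
  have tU' : Tendsto mU' atTop (𝓝 m') := hU' s hs hs0
  have tV : Tendsto mV atTop (𝓝 0) := hV s S hs
  set L : ℝ := K / σ + 2 * ‖1 / (q - q')‖ with hL
  set δ' : ℝ := 4 * s / ‖q - q'‖ ^ 2 + 1 / (S - 2 * ‖q‖) with hδ'
  have hL0 : 0 ≤ L := by positivity
  have hSq : 0 < S - 2 * ‖q‖ := by linarith
  have hδ0 : 0 ≤ δ' := by positivity
  have hbound : ∀ᶠ j in atTop,
      ‖1 / q * (m : ℂ) - 1 / (8 * π) * (1 / (q - q') * (2 * (m : ℂ) * (m' : ℂ)))‖ ≤
      ‖1 / q‖ * |m - mU j| + ((K / σ + (2 / ‖q‖ + |H| * R j + Λ * R j ^ 2 * (2 * ‖q‖))) * mV j +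
        (2 * s / ‖q‖ ^ 2 + |H| * R j + Λ * R j ^ 2 * (2 * ‖q‖)) * M) +
      1 / (8 * π) * (2 * L * mV j * M + δ' * M ^ 2) +
      1 / (8 * π) * (‖1 / (q - q') * 2‖ * |mU j * mU' j - m * m'|) := by
    filter_upwards [(W_radT hp).eventually_ge_atTop (S + 2 * ‖q‖ + 2 * ‖q - q'‖)] with j hj
    set T : ℝ := r / R j with hT
    have hRj := hp.Rpos j
    have sU : ball q s ⊆ ball (0 : ℂ) T := by
      intro z hz
      rw [mem_ball, dist_eq_norm] at hz
      rw [mem_ball, dist_zero_right]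
      have : ‖z‖ ≤ ‖z - q‖ + ‖q‖ := by
        calc ‖z‖ = ‖(z - q) + q‖ := by congr 1; ring
          _ ≤ _ := norm_add_le _ _
      linarith
    have sU' : ball q' s ⊆ ball (0 : ℂ) T := by
      intro z hz
      rw [mem_ball, dist_eq_norm] at hz
      rw [mem_ball, dist_zero_right]
      have : ‖z‖ ≤ ‖z - q'‖ + ‖q'‖ := by
        calc ‖z‖ = ‖(z - q') + q'‖ := by congr 1; ring
          _ ≤ _ := norm_add_le _ _
      linarith
    have sV : ball 0 S \ (ball q s ∪ ball q' s) ⊆ ball (0 : ℂ) T := by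
      intro z hz
      have := hz.1
      rw [mem_ball, dist_zero_right] at this ⊢
      linarith
    have mUm : MeasurableSet (ball q s) := measurableSet_ball
    have mUm' : MeasurableSet (ball q' s) := measurableSet_ball
    have mVm : MeasurableSet (ball 0 S \ (ball q s ∪ ball q' s)) :=
      measurableSet_ball.diff (mUm.union mUm')
    have hlam0 : 0 ≤ lam j * R j ^ 2 := mul_nonneg (hp.lamb j).1 (sq_nonneg _)
    have hlam1 : lam j * R j ^ 2 ≤ Λ * R j ^ 2 :=
      mul_le_mul_of_nonneg_right (hp.lamb j).2 (sq_nonneg _)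
    have hHr : 0 ≤ |H| * R j := mul_nonneg (abs_nonneg _) hRj.le
    have hder : ∀ z ∈ ball (0 : ℂ) T, ‖deriv (h j) z‖ ≤ |H| * R j := fun z hz =>
      (hp.hH j z hz).trans (mul_le_mul_of_nonneg_right (le_abs_self H) hRj.le)
    have hΛR : 0 ≤ Λ * R j ^ 2 := hlam0.trans hlam1
    -- the single integral
    have hA := WBal_sgl T (E j) (hEc j) (hE0 j) (WBal_F χ q (h j) (lam j * R j ^ 2))
      (WBal_F_meas hχ q (h j) _) (ball q s) (ball 0 S \ (ball q s ∪ ball q' s)) mUm mVm sU sV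
      (1 / q) (K / σ + (2 / ‖q‖ + |H| * R j + Λ * R j ^ 2 * (2 * ‖q‖)))
      (2 * s / ‖q‖ ^ 2 + |H| * R j + Λ * R j ^ 2 * (2 * ‖q‖)) M (by positivity) (by positivity)
      (hM j) (WBal_Fb (K := K) hχ h01 hχ1 hχ2 hχ3 hσ hq hσq hσd hs hsσ (by linarith) T (h j) _
        (|H| * R j) (Λ * R j ^ 2) hder hlam0 hlam1 hHr)
    -- the double integral
    have hpsim : Measurable (WBal_psi χ q) := by
      have : Continuous (WBal_psi χ q) :=
        Complex.continuous_ofReal.comp (hχ.continuous.comp (continuous_id.sub continuous_const))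
      exact this.measurable
    have hkm : Measurable (fun p : ℂ × ℂ => (WBal_psi χ q p.1 - WBal_psi χ q p.2) /
        (p.1 - p.2)) :=
      ((hpsim.comp measurable_fst).sub (hpsim.comp measurable_snd)).div
        (measurable_fst.sub measurable_snd)
    have hB := WBal_dbl T (E j) (hEc j) (hE0 j)
      (fun z y => (WBal_psi χ q z - WBal_psi χ q y) / (z - y)) hkm (ball q s) (ball q' s)
      (ball 0 S \ (ball q s ∪ ball q' s)) mUm mUm' mVm sU sU' sV (1 / (q - q')) L δ' M hL0 hδ0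
      (hM j) (fun z _ y _ => WBal_kb (K := K) hχ1 hχ2 hχ4 hKσ hσ hσq hd hσd hs hsσ hS z y)
    -- the identity
    have hψc : ContDiff ℝ 1 (WBal_psi χ q) := by
      have h5 : ContDiff ℝ 1 (fun z : ℂ => χ (z - q)) :=
        (hχ.of_le (by exact_mod_cast le_top)).comp (contDiff_id.sub contDiff_const)
      exact Complex.ofRealCLM.contDiff.comp h5
    have hid := h1 T 1 (lam j * R j ^ 2) (h j) (E j) (hp.loc j) (WBal_psi χ q) hψc
      ⟨2 * ‖q‖, by linarith, fun z hz => WBal_psi_zero hχ2 (by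
        have : ‖z‖ ≤ ‖z - q‖ + ‖q‖ := by
          calc ‖z‖ = ‖(z - q) + q‖ := by congr 1; ring
            _ ≤ _ := norm_add_le _ _
        linarith)⟩
    have hid' : (∫ z in ball (0 : ℂ) T, WBal_F χ q (h j) (lam j * R j ^ 2) z * (E j z : ℂ)) =
        1 / (8 * π) * ∫ z in ball (0 : ℂ) T, ∫ y in ball (0 : ℂ) T,
          (WBal_psi χ q z - WBal_psi χ q y) / (z - y) * (E j z : ℂ) * (E j y : ℂ) := hid
    set A : ℂ := ∫ z in ball (0 : ℂ) T, WBal_F χ q (h j) (lam j * R j ^ 2) z * (E j z : ℂ)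
      with hAdef
    set B : ℂ := ∫ z in ball (0 : ℂ) T, ∫ y in ball (0 : ℂ) T,
          (WBal_psi χ q z - WBal_psi χ q y) / (z - y) * (E j z : ℂ) * (E j y : ℂ) with hBdef
    have h8 : ‖(1 / (8 * π) : ℂ)‖ = 1 / (8 * π) := by
      have : (1 / (8 * π) : ℂ) = ((1 / (8 * π) : ℝ) : ℂ) := by push_cast; ring
      rw [this, Complex.norm_real, Real.norm_eq_abs, abs_of_pos (by positivity)]
    have hX : 1 / q * (m : ℂ) - 1 / (8 * π) * (1 / (q - q') * (2 * (m : ℂ) * (m' : ℂ))) =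
        1 / q * ((m - mU j : ℝ) : ℂ) - (A - 1 / q * (mU j : ℂ)) +
        1 / (8 * π) * (B - 1 / (q - q') * (2 * (mU j : ℂ) * (mU' j : ℂ))) +
        1 / (8 * π) * (1 / (q - q') * 2 * ((mU j * mU' j - m * m' : ℝ) : ℂ)) := by
      rw [hid']
      push_cast
      ring
    rw [hX]
    have n1 : ‖1 / q * ((m - mU j : ℝ) : ℂ)‖ = ‖1 / q‖ * |m - mU j| := by
      rw [norm_mul, Complex.norm_real, Real.norm_eq_abs]
    have n3 : ‖(1 / (8 * π) : ℂ) * (B - 1 / (q - q') * (2 * (mU j : ℂ) * (mU' j : ℂ)))‖ ≤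
        1 / (8 * π) * (2 * L * mV j * M + δ' * M ^ 2) := by
      rw [norm_mul, h8]
      exact mul_le_mul_of_nonneg_left hB (by positivity)
    have n4 : ‖(1 / (8 * π) : ℂ) * (1 / (q - q') * 2 * ((mU j * mU' j - m * m' : ℝ) : ℂ))‖ =
        1 / (8 * π) * (‖1 / (q - q') * 2‖ * |mU j * mU' j - m * m'|) := by
      rw [norm_mul, h8, norm_mul, Complex.norm_real, Real.norm_eq_abs]
    refine (norm_add_le _ _).trans (add_le_add ?_ n4.le)
    refine (norm_add_le _ _).trans (add_le_add ?_ n3)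
    refine (norm_sub_le _ _).trans (add_le_add n1.le hA)
  have hlim : Tendsto (fun j => ‖1 / q‖ * |m - mU j| +
      ((K / σ + (2 / ‖q‖ + |H| * R j + Λ * R j ^ 2 * (2 * ‖q‖))) * mV j +
        (2 * s / ‖q‖ ^ 2 + |H| * R j + Λ * R j ^ 2 * (2 * ‖q‖)) * M) +
      1 / (8 * π) * (2 * L * mV j * M + δ' * M ^ 2) +
      1 / (8 * π) * (‖1 / (q - q') * 2‖ * |mU j * mU' j - m * m'|)) atTop
      (𝓝 (‖1 / q‖ * |m - m| +
      ((K / σ + (2 / ‖q‖ + |H| * 0 + Λ * 0 ^ 2 * (2 * ‖q‖))) * 0 +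
        (2 * s / ‖q‖ ^ 2 + |H| * 0 + Λ * 0 ^ 2 * (2 * ‖q‖)) * M) +
      1 / (8 * π) * (2 * L * 0 * M + δ' * M ^ 2) +
      1 / (8 * π) * (‖1 / (q - q') * 2‖ * |m * m' - m * m'|))) := by
    have cst : ∀ x : ℝ, Tendsto (fun _ : ℕ => x) atTop (𝓝 x) := fun x => tendsto_const_nhds
    have tR := hp.R0
    have tA : Tendsto (fun j => Λ * R j ^ 2 * (2 * ‖q‖)) atTop (𝓝 (Λ * 0 ^ 2 * (2 * ‖q‖))) :=
      ((cst Λ).mul (tR.pow 2)).mul (cst _)
    have tB : Tendsto (fun j => |H| * R j) atTop (𝓝 (|H| * 0)) := (cst _).mul tR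
    exact (((((cst _).mul ((cst m).sub tU).abs)).add
      ((((cst _).add (((cst _).add tB).add tA)).mul tV).add
        ((((cst _).add tB).add tA).mul (cst M)))).add
      ((cst _).mul ((((cst _).mul tV).mul (cst M)).add (cst _)))).add
      ((cst _).mul ((cst _).mul (((tU.mul tU').sub (cst _)).abs)))
  refine (ge_of_tendsto hlim hbound).trans (le_of_eq ?_)
  simp only [sub_self, abs_zero, mul_zero, zero_mul, add_zero, zero_add, ne_eq,
    OfNat.ofNat_ne_zero, not_false_eq_true, zero_pow]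

theorem pr_WBal (h1 : S_Id) (h2 : S_Cut) : S_WBal := by
  intro r H Λ R lam eta h E hp q q' m m' s0 hq hqq hm hs0 hU hU' hV
  obtain ⟨K, hK0, hK⟩ := h2
  obtain ⟨M, hM0, hM⟩ := W_mass hp
  have hqn : 0 < ‖q‖ := norm_pos_iff.mpr hq
  have hdd : q - q' ≠ 0 := sub_ne_zero.mpr (Ne.symm hqq)
  have hd : 0 < ‖q - q'‖ := norm_pos_iff.mpr hdd
  set σ : ℝ := min ‖q‖ ‖q - q'‖ / 8 with hσdef
  have hσ : 0 < σ := by
    have := lt_min hqn hd
    positivity
  have hσq : 8 * σ ≤ ‖q‖ := by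
    have := min_le_left ‖q‖ ‖q - q'‖
    rw [hσdef]
    linarith
  have hσd : 8 * σ ≤ ‖q - q'‖ := by
    have := min_le_right ‖q‖ ‖q - q'‖
    rw [hσdef]
    linarith
  set s1 : ℝ := min σ s0 with hs1
  have hs1p : 0 < s1 := lt_min hσ hs0
  have hall : ∀ n : ℕ,
      ‖1 / q * (m : ℂ) - 1 / (8 * π) * (1 / (q - q') * (2 * (m : ℂ) * (m' : ℂ)))‖ ≤
      2 * (s1 * (1 / ((n : ℝ) + 1))) / ‖q‖ ^ 2 * M +
        1 / (8 * π) * ((4 * (s1 * (1 / ((n : ℝ) + 1))) / ‖q - q'‖ ^ 2 +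
          1 / ((2 * ‖q‖ + ‖q - q'‖ + ((n : ℝ) + 1)) - 2 * ‖q‖)) * M ^ 2) := by
    intro n
    have hn : 0 < 1 / ((n : ℝ) + 1) := by positivity
    have hn1 : 1 / ((n : ℝ) + 1) ≤ 1 := by
      rw [div_le_one (by positivity)]
      linarith [Nat.cast_nonneg (α := ℝ) n]
    have hle : s1 * (1 / ((n : ℝ) + 1)) ≤ s1 := mul_le_of_le_one_right hs1p.le hn1
    exact WBal_step h1 hK hp hM hqn hd hU hU' hV hσ hσq hσd (mul_pos hs1p hn)
      (hle.trans (min_le_left _ _)) (hle.trans (min_le_right _ _))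
      (by linarith [Nat.cast_nonneg (α := ℝ) n])
  have t1 : Tendsto (fun n : ℕ => 1 / ((n : ℝ) + 1)) atTop (𝓝 0) :=
    tendsto_one_div_add_atTop_nhds_zero_nat
  have t2 : Tendsto (fun n : ℕ => 1 / ((2 * ‖q‖ + ‖q - q'‖ + ((n : ℝ) + 1)) - 2 * ‖q‖)) atTop
      (𝓝 0) := by
    refine squeeze_zero (fun n => by
      have : 0 < (2 * ‖q‖ + ‖q - q'‖ + ((n : ℝ) + 1)) - 2 * ‖q‖ := by
        linarith [Nat.cast_nonneg (α := ℝ) n]
      positivity) (fun n => ?_) t1
    refine one_div_le_one_div_of_le (by positivity) ?_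
    linarith
  have hlim : Tendsto (fun n : ℕ => 2 * (s1 * (1 / ((n : ℝ) + 1))) / ‖q‖ ^ 2 * M +
        1 / (8 * π) * ((4 * (s1 * (1 / ((n : ℝ) + 1))) / ‖q - q'‖ ^ 2 +
          1 / ((2 * ‖q‖ + ‖q - q'‖ + ((n : ℝ) + 1)) - 2 * ‖q‖)) * M ^ 2)) atTop
      (𝓝 (2 * (s1 * 0) / ‖q‖ ^ 2 * M +
        1 / (8 * π) * ((4 * (s1 * 0) / ‖q - q'‖ ^ 2 + 0) * M ^ 2))) := by
    have cst : ∀ x : ℝ, Tendsto (fun _ : ℕ => x) atTop (𝓝 x) := fun x => tendsto_const_nhds
    exact ((((cst 2).mul ((cst s1).mul t1)).div_const _).mul (cst M)).add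
      ((cst _).mul (((((cst 4).mul ((cst s1).mul t1)).div_const _).add t2).mul (cst _)))
  have hzero := ge_of_tendsto' hlim hall
  simp only [mul_zero, zero_div, zero_mul, add_zero] at hzero
  have hX := norm_le_zero_iff.mp hzero
  have hmc : (m : ℂ) ≠ 0 := by exact_mod_cast hm.ne'
  have hpi : (π : ℂ) ≠ 0 := by exact_mod_cast Real.pi_ne_zero
  have h5 : 1 / q * (m : ℂ) = ((m' / (4 * π) : ℝ) : ℂ) / (q - q') * (m : ℂ) := by
    rw [sub_eq_zero.mp hX]
    push_cast
    field_simp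
    ring
  exact mul_right_cancel₀ hmc h5

end Pool.Agent.Vx

end

section

/-!
# MP_afe918_an, block W, item WCf: the size of the coefficients of `f`
-/

set_option autoImplicit false

open Complex Set Filter Topology MeasureTheory Metric
open scoped Real ContDiff ComplexConjugate

namespace Pool.Agent.Vx

theorem pr_WCf (h1 : S_WTay) : S_WCf := by
  intro r H Λ R lam eta kap h E sp sm hT hM
  have hp := hT.pl
  have hr := hp.rpos
  obtain ⟨C1', hC1'⟩ := h1 r H Λ R lam eta h E hp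
  obtain ⟨Cs', hCs'⟩ := hM.S
  set C1 : ℝ := |C1'| with hC1d
  set Cs : ℝ := |Cs'| with hCsd
  have hC10 : 0 ≤ C1 := abs_nonneg _
  have hCs0 : 0 ≤ Cs := abs_nonneg _
  set C2 : ℝ := (C1 ^ 2 + C1) / 2 with hC2d
  have hC20 : 0 ≤ C2 := by positivity
  have hprod : Tendsto (fun j => ‖sp j * sm j‖) atTop (𝓝 1) := by
    have h3 := (hM.p1.mul hM.p2).norm
    simpa using h3
  have hlow : ∀ᶠ j in atTop, 1 / 2 ≤ ‖sp j * sm j‖ :=
    hprod.eventually (eventually_ge_nhds (by norm_num))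
  have hupp : ∀ᶠ j in atTop, ‖sp j * sm j‖ ≤ 2 :=
    hprod.eventually (eventually_le_nhds (by norm_num))
  set K3 : ℝ := 2 * (1 + Cs * C1 * r ^ 2 + 2 * (C2 * r ^ 2)) with hK3
  set K4 : ℝ := 2 * (C1 + Cs * C2 * r ^ 2) with hK4
  have hK30 : 0 ≤ K3 := by positivity
  have hK40 : 0 ≤ K4 := by positivity
  refine ⟨3 * r ^ 2 + (C1 + 2 * Cs) * (9 * r / 4) * r ^ 2 + K3 * (27 * r ^ 2 / 16) +
    K4 * (81 * r ^ 3 / 64) + 2 * C2 * (243 * r ^ 4 / 256), ?_⟩
  filter_upwards [hlow, hupp, hCs'] with j hl hu hs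
  have hR := hp.Rpos j
  have hRr : R j ≤ r := by
    have := hp.small j
    linarith
  set ρ : ℝ := r / (4 * R j) with hρ
  have hρpos : 0 < ρ := by positivity
  obtain ⟨hd1, hd2, -⟩ := hC1' j
  have hg1 : ‖gg1 (h j)‖ ≤ C1 * R j := by
    unfold gg1
    rw [norm_neg]
    exact hd1.trans (by have := le_abs_self C1'; gcongr)
  have hd2' : ‖deriv (deriv (h j)) 0‖ ≤ C1 * R j ^ 2 :=
    hd2.trans (by have := le_abs_self C1'; gcongr)
  have hd1' : ‖deriv (h j) 0‖ ≤ C1 * R j := hd1.trans (by have := le_abs_self C1'; gcongr)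
  have hg2 : ‖gg2 (h j)‖ ≤ C2 * R j ^ 2 := by
    unfold gg2
    rw [norm_div]
    have h4 : ‖(2 : ℂ)‖ = 2 := by simp
    rw [h4]
    have h5 : ‖deriv (h j) 0 ^ 2 - deriv (deriv (h j)) 0‖ ≤ (C1 * R j) ^ 2 + C1 * R j ^ 2 := by
      refine (norm_sub_le _ _).trans (add_le_add ?_ hd2')
      rw [norm_pow]
      gcongr
    calc ‖deriv (h j) 0 ^ 2 - deriv (deriv (h j)) 0‖ / 2 ≤
        ((C1 * R j) ^ 2 + C1 * R j ^ 2) / 2 := by gcongr
      _ = C2 * R j ^ 2 := by rw [hC2d]; ring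
  have hs' : ‖sp j + sm j‖ ≤ Cs * R j := hs.trans (by have := le_abs_self Cs'; gcongr)
  set g1 := gg1 (h j)
  set g2 := gg2 (h j)
  have hpm : 0 < ‖sp j * sm j‖ := by linarith
  have hdiv : ∀ (x : ℂ) (B : ℝ), ‖x‖ ≤ B → ‖x / (sp j * sm j)‖ ≤ 2 * B := by
    intro x B hx
    rw [norm_div, div_le_iff₀ hpm]
    have := norm_nonneg x
    nlinarith
  have hR2 : R j ^ 2 ≤ r ^ 2 := by gcongr
  -- the four coefficients
  have c2 : ‖g1 - (sp j + sm j) / (sp j * sm j)‖ ≤ (C1 + 2 * Cs) * R j := by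
    refine (norm_sub_le _ _).trans ?_
    have h5 := hdiv _ _ hs'
    linarith
  have c3 : ‖(1 - (sp j + sm j) * g1 + sp j * sm j * g2) / (sp j * sm j)‖ ≤ K3 := by
    refine (hdiv _ _ (show _ ≤ 1 + Cs * C1 * r ^ 2 + 2 * (C2 * r ^ 2) from ?_)).trans
      (le_of_eq hK3.symm)
    refine (norm_add_le _ _).trans (add_le_add ((norm_sub_le _ _).trans (add_le_add ?_ ?_)) ?_)
    · simp
    · rw [norm_mul]
      calc ‖sp j + sm j‖ * ‖g1‖ ≤ (Cs * R j) * (C1 * R j) := by gcongr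
        _ = Cs * C1 * R j ^ 2 := by ring
        _ ≤ Cs * C1 * r ^ 2 := by gcongr
    · rw [norm_mul]
      calc ‖sp j * sm j‖ * ‖g2‖ ≤ 2 * (C2 * R j ^ 2) := by gcongr
        _ ≤ 2 * (C2 * r ^ 2) := by gcongr
  have c4 : ‖(g1 - (sp j + sm j) * g2) / (sp j * sm j)‖ ≤ K4 * R j := by
    refine (hdiv _ _ (show _ ≤ (C1 + Cs * C2 * r ^ 2) * R j from ?_)).trans
      (le_of_eq (by rw [hK4]; ring))
    refine (norm_sub_le _ _).trans ?_
    rw [norm_mul]
    calc ‖g1‖ + ‖sp j + sm j‖ * ‖g2‖ ≤ C1 * R j + (Cs * R j) * (C2 * R j ^ 2) := by gcongr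
      _ = (C1 + Cs * C2 * R j ^ 2) * R j := by ring
      _ ≤ (C1 + Cs * C2 * r ^ 2) * R j := by gcongr
  have c5 : ‖g2 / (sp j * sm j)‖ ≤ 2 * C2 * R j ^ 2 := by
    refine (hdiv _ _ hg2).trans (le_of_eq (by ring))
  have hCt : ∀ x : ℝ, 0 ≤ x → x ≤ 3 * r ^ 2 + (C1 + 2 * Cs) * (9 * r / 4) * r ^ 2 +
      K3 * (27 * r ^ 2 / 16) + K4 * (81 * r ^ 3 / 64) + 2 * C2 * (243 * r ^ 4 / 256) →
      x / R j ^ 2 * ρ ≤ (3 * r ^ 2 + (C1 + 2 * Cs) * (9 * r / 4) * r ^ 2 +
      K3 * (27 * r ^ 2 / 16) + K4 * (81 * r ^ 3 / 64) + 2 * C2 * (243 * r ^ 4 / 256)) /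
      R j ^ 2 * ρ := by
    intro x _ hx
    gcongr
  have p1 : 0 ≤ 3 * r ^ 2 := by positivity
  have p2 : 0 ≤ (C1 + 2 * Cs) * (9 * r / 4) * r ^ 2 := by positivity
  have p3 : 0 ≤ K3 * (27 * r ^ 2 / 16) := by positivity
  have p4 : 0 ≤ K4 * (81 * r ^ 3 / 64) := by positivity
  have p5 : 0 ≤ 2 * C2 * (243 * r ^ 4 / 256) := by positivity
  intro i hi
  interval_cases i
  · simp only [cf]
    simp
    positivity
  · refine le_trans ?_ (hCt (3 * r ^ 2) p1 (by linarith))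
    simp only [cf, if_true, norm_one, one_mul, pow_one]
    rw [div_mul_eq_mul_div, le_div_iff₀ (by positivity)]
    nlinarith
  · refine le_trans ?_ (hCt _ p2 (by linarith))
    simp only [cf, if_true, if_neg (show ¬ (2 = 1) by norm_num)]
    calc ‖g1 - (sp j + sm j) / (sp j * sm j)‖ * (3 * ρ) ^ 2 ≤ (C1 + 2 * Cs) * R j * (3 * ρ) ^ 2 := by
          gcongr
      _ = (C1 + 2 * Cs) * (9 * r / 4) * R j ^ 2 / R j ^ 2 * ρ := by
          rw [hρ]; field_simp; ring
      _ ≤ (C1 + 2 * Cs) * (9 * r / 4) * r ^ 2 / R j ^ 2 * ρ := by gcongr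
  · refine le_trans ?_ (hCt _ p3 (by linarith))
    simp only [cf, if_true, if_neg (show ¬ (3 = 1) by norm_num),
      if_neg (show ¬ (3 = 2) by norm_num)]
    calc ‖(1 - (sp j + sm j) * g1 + sp j * sm j * g2) / (sp j * sm j)‖ * (3 * ρ) ^ 3 ≤
        K3 * (3 * ρ) ^ 3 := by gcongr
      _ = K3 * (27 * r ^ 2 / 16) / R j ^ 2 * ρ := by
          rw [hρ]; field_simp; ring
  · refine le_trans ?_ (hCt _ p4 (by linarith))
    simp only [cf, if_true, if_neg (show ¬ (4 = 1) by norm_num),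
      if_neg (show ¬ (4 = 2) by norm_num), if_neg (show ¬ (4 = 3) by norm_num)]
    calc ‖(g1 - (sp j + sm j) * g2) / (sp j * sm j)‖ * (3 * ρ) ^ 4 ≤
        K4 * R j * (3 * ρ) ^ 4 := by gcongr
      _ = K4 * (81 * r ^ 3 / 64) / R j ^ 2 * ρ := by
          rw [hρ]; field_simp; ring
  · refine le_trans ?_ (hCt _ p5 (by linarith))
    simp only [cf, if_true, if_neg (show ¬ (5 = 1) by norm_num),
      if_neg (show ¬ (5 = 2) by norm_num), if_neg (show ¬ (5 = 3) by norm_num),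
      if_neg (show ¬ (5 = 4) by norm_num)]
    calc ‖g2 / (sp j * sm j)‖ * (3 * ρ) ^ 5 ≤ 2 * C2 * R j ^ 2 * (3 * ρ) ^ 5 := by gcongr
      _ = 2 * C2 * (243 * r ^ 4 / 256) / R j ^ 2 * ρ := by
          rw [hρ]; field_simp; ring

end Pool.Agent.Vx

end

section

/-!
# MP_afe918_an, item WCmp: Harnack inequality off `±1`
-/

set_option autoImplicit false

open Complex Set Filter Topology MeasureTheory Metric
open scoped Real ContDiff ComplexConjugate

namespace Pool.Agent.Vx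

theorem WCmp_log {z z' y : ℂ} {s : ℝ} (hs : 0 < s) (hzz : ‖z' - z‖ ≤ 10)
    (hy : s / 2 ≤ ‖z - y‖) :
    Real.log ‖z' - y‖ - Real.log ‖z - y‖ ≤ Real.log (1 + 20 / s) := by
  have h0 : 0 < ‖z - y‖ := lt_of_lt_of_le (by positivity) hy
  have h1 : 0 < 1 + 20 / s := by positivity
  rcases eq_or_lt_of_le (norm_nonneg (z' - y)) with h | h
  · rw [← h, Real.log_zero, zero_sub, ← Real.log_inv]
    refine Real.log_le_log (inv_pos.2 h0) ?_
    have h2 : ‖z - y‖⁻¹ ≤ (s / 2)⁻¹ := inv_anti₀ (by positivity) hy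
    have h3 : (s / 2)⁻¹ = 2 / s := by rw [inv_div]
    have h4 : 2 / s ≤ 20 / s := div_le_div_of_nonneg_right (by norm_num) hs.le
    linarith
  · rw [← Real.log_div h.ne' h0.ne']
    refine Real.log_le_log (div_pos h h0) ?_
    rw [div_le_iff₀ h0]
    have h2 : ‖z' - y‖ ≤ ‖z' - z‖ + ‖z - y‖ := by
      have := norm_add_le (z' - z) (z - y)
      rwa [sub_add_sub_cancel] at this
    have h3 : 10 ≤ 20 / s * ‖z - y‖ := by
      have h4 : 20 / s * (s / 2) = 10 := by
        field_simp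
        norm_num
      rw [← h4]
      exact mul_le_mul_of_nonneg_left hy (by positivity)
    nlinarith

theorem WCmp_log2 {z z' y : ℂ} {s : ℝ} (hs : s ≤ 1 / 2) (hzz : ‖z' - z‖ ≤ 10)
    (hy : ‖z - y‖ < s / 2) :
    Real.log ‖z' - y‖ - Real.log ‖z - y‖ ≤ Real.log 11 + |Real.log ‖z - y‖| := by
  have h1 : Real.log ‖z' - y‖ ≤ Real.log 11 := by
    have h2 : ‖z' - y‖ ≤ ‖z' - z‖ + ‖z - y‖ := by
      have := norm_add_le (z' - z) (z - y)
      rwa [sub_add_sub_cancel] at this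
    rcases eq_or_lt_of_le (norm_nonneg (z' - y)) with h | h
    · rw [← h, Real.log_zero]
      exact Real.log_nonneg (by norm_num)
    · exact Real.log_le_log h (by linarith)
  have h3 := neg_abs_le (Real.log ‖z - y‖)
  linarith

theorem WCmp_int (h2 : S_LogI) {ρ : ℝ} (hρ : 0 < ρ) {E : ℂ → ℝ} (hE : Continuous E) (z : ℂ) :
    IntegrableOn (fun y => Real.log ‖z - y‖ * E y) (ball 0 ρ) := by
  obtain ⟨B, hB⟩ := (isCompact_closedBall (0 : ℂ) ρ).exists_bound_of_continuousOn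
    hE.continuousOn
  have h3 := (h2 0 z ρ hρ).1
  refine Integrable.mono' (h3.abs.mul_const B)
    (h3.aestronglyMeasurable.mul hE.aestronglyMeasurable) ?_
  filter_upwards [ae_restrict_mem measurableSet_ball] with y hy
  rw [Real.norm_eq_abs, abs_mul]
  exact mul_le_mul_of_nonneg_left (hB y (ball_subset_closedBall hy)) (abs_nonneg _)

theorem WCmp_ind (h2 : S_LogI) (C1 : ℝ) (z : ℂ) :
    Integrable ((ball z 1).indicator fun y => (Real.log 11 + |Real.log ‖z - y‖|) * C1) ∧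
    ∫ y, (ball z 1).indicator (fun y => (Real.log 11 + |Real.log ‖z - y‖|) * C1) y =
      ∫ y in ball (0 : ℂ) 1, (Real.log 11 + |Real.log ‖y‖|) * C1 := by
  have h3 := (h2 z z 1 one_pos).1
  have hfin : volume (ball z 1) ≠ ⊤ := measure_ball_lt_top.ne
  constructor
  · refine (integrable_indicator_iff measurableSet_ball).2 ?_
    exact ((integrableOn_const hfin (by simp)).add h3.abs).mul_const C1
  · rw [← integral_indicator measurableSet_ball, ← integral_sub_left_eq_self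
      ((ball (0 : ℂ) 1).indicator fun y => (Real.log 11 + |Real.log ‖y‖|) * C1) volume z]
    refine integral_congr_ae (Eventually.of_forall fun y => ?_)
    show (ball z 1).indicator (fun y => (Real.log 11 + |Real.log ‖z - y‖|) * C1) y =
      (ball (0 : ℂ) 1).indicator (fun y => (Real.log 11 + |Real.log ‖y‖|) * C1) (z - y)
    by_cases hy : y ∈ ball z 1
    · have hy' : z - y ∈ ball (0 : ℂ) 1 := by
        rw [mem_ball_zero_iff]
        rw [mem_ball, dist_comm, dist_eq_norm] at hy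
        exact hy
      rw [indicator_of_mem hy, indicator_of_mem hy']
    · have hy' : z - y ∉ ball (0 : ℂ) 1 := by
        rw [mem_ball_zero_iff]
        rw [mem_ball, dist_comm, dist_eq_norm] at hy
        exact hy
      rw [indicator_of_notMem hy, indicator_of_notMem hy']

theorem WCmp_pot (h2 : S_LogI) {ρ : ℝ} (hρ : 0 < ρ) {E : ℂ → ℝ} (hE : Continuous E)
    (hE0 : ∀ y, 0 ≤ E y) {z z' : ℂ} {s C1 : ℝ} (hs : 0 < s) (hs2 : s ≤ 1 / 2) (hC1 : 0 ≤ C1)
    (hzz : ‖z' - z‖ ≤ 10) (hz : ∀ y, ‖z - y‖ < s / 2 → E y ≤ C1) :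
    pot ρ E z - pot ρ E z' ≤ 1 / (2 * π) * (Real.log (1 + 20 / s) * ms ρ E +
      ∫ y in ball (0 : ℂ) 1, (Real.log 11 + |Real.log ‖y‖|) * C1) := by
  obtain ⟨hi1, hi2⟩ := WCmp_ind h2 C1 z
  have hl : 0 ≤ Real.log (1 + 20 / s) := Real.log_nonneg (by
    have : 0 < 20 / s := by positivity
    linarith)
  have hl11 : 0 ≤ Real.log 11 := Real.log_nonneg (by norm_num)
  have hEi : IntegrableOn E (ball 0 ρ) :=
    (hE.continuousOn.integrableOn_compact (isCompact_closedBall (0 : ℂ) ρ)).mono_set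
      ball_subset_closedBall
  have e : pot ρ E z - pot ρ E z' = 1 / (2 * π) *
      ∫ y in ball (0 : ℂ) ρ, (Real.log ‖z' - y‖ * E y - Real.log ‖z - y‖ * E y) := by
    rw [integral_sub (WCmp_int h2 hρ hE z') (WCmp_int h2 hρ hE z)]
    unfold pot
    ring
  rw [e]
  refine mul_le_mul_of_nonneg_left ?_ (by positivity)
  rw [← hi2]
  have hnn : ∀ y, 0 ≤ (ball z 1).indicator
      (fun y => (Real.log 11 + |Real.log ‖z - y‖|) * C1) y := fun y =>
    indicator_nonneg (fun y _ => mul_nonneg (add_nonneg hl11 (abs_nonneg _)) hC1) y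
  calc ∫ y in ball (0 : ℂ) ρ, (Real.log ‖z' - y‖ * E y - Real.log ‖z - y‖ * E y)
      ≤ ∫ y in ball (0 : ℂ) ρ, (Real.log (1 + 20 / s) * E y +
          (ball z 1).indicator (fun y => (Real.log 11 + |Real.log ‖z - y‖|) * C1) y) := by
        refine integral_mono ((WCmp_int h2 hρ hE z').sub (WCmp_int h2 hρ hE z))
          ((hEi.const_mul _).add hi1.integrableOn) fun y => ?_
        show Real.log ‖z' - y‖ * E y - Real.log ‖z - y‖ * E y ≤ Real.log (1 + 20 / s) * E y +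
          (ball z 1).indicator (fun y => (Real.log 11 + |Real.log ‖z - y‖|) * C1) y
        rw [← sub_mul]
        rcases le_or_gt (s / 2) ‖z - y‖ with h | h
        · have h3 := mul_le_mul_of_nonneg_right (WCmp_log hs hzz h) (hE0 y)
          linarith [hnn y]
        · have hy : y ∈ ball z 1 := by
            rw [mem_ball, dist_comm, dist_eq_norm]
            linarith
          rw [indicator_of_mem hy]
          have h3 := mul_le_mul_of_nonneg_right (WCmp_log2 hs2 hzz h) (hE0 y)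
          have h4 : (Real.log 11 + |Real.log ‖z - y‖|) * E y ≤
              (Real.log 11 + |Real.log ‖z - y‖|) * C1 :=
            mul_le_mul_of_nonneg_left (hz y h) (add_nonneg hl11 (abs_nonneg _))
          have h5 := mul_nonneg hl (hE0 y)
          linarith
    _ = Real.log (1 + 20 / s) * ms ρ E + ∫ y in ball (0 : ℂ) ρ,
          (ball z 1).indicator (fun y => (Real.log 11 + |Real.log ‖z - y‖|) * C1) y := by
        rw [integral_add (hEi.const_mul _) hi1.integrableOn, integral_const_mul]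
        rfl
    _ ≤ _ := by
        refine add_le_add le_rfl ?_
        exact setIntegral_le_integral hi1 (Eventually.of_forall hnn)

theorem pr_WCmp (h1 : S_WUB) (h2 : S_LogI) : S_WCmp := by
  intro r H Λ R lam eta h E hPW s hs
  set s' : ℝ := min s (1 / 2) with hs'
  have hs0 : 0 < s' := lt_min hs (by norm_num)
  have hs1 : s' ≤ 1 / 2 := min_le_right _ _
  have hss : s' ≤ s := min_le_left _ _
  obtain ⟨-, C0, hC0⟩ := h1 r H Λ R lam eta h E hPW (s' / 2) (by positivity) (by linarith)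
  have hp := hPW.pl
  obtain ⟨M, hM0, hM⟩ := W_mass hp
  set C1 : ℝ := max C0 0 with hC1
  have hC10 : 0 ≤ C1 := le_max_right _ _
  set V : ℝ := ∫ y in ball (0 : ℂ) 1, (Real.log 11 + |Real.log ‖y‖|) * C1 with hV
  set K : ℝ := 2 * (|H| * (r / 8) * 10) + |Λ| * (r / 8) ^ 2 / 4 * 25 +
    1 / (2 * π) * (Real.log (1 + 20 / s') * M + V) with hK
  refine ⟨Real.exp K, Real.exp_pos _, ?_⟩
  filter_upwards [hC0] with j hj z hz z' hz' hz1 hz2 hz1' hz2'
  have hρ := W_rad hp j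
  have hR := hp.Rpos j
  have hR8 : R j ≤ r / 8 := by linarith [hp.small j]
  have hloc := hp.loc j
  rw [mem_ball_zero_iff] at hz hz'
  have hzρ : z ∈ ball (0 : ℂ) (r / R j) := by rw [mem_ball_zero_iff]; linarith
  have hzρ' : z' ∈ ball (0 : ℂ) (r / R j) := by rw [mem_ball_zero_iff]; linarith
  have hzz : ‖z' - z‖ ≤ 10 := (norm_sub_le _ _).trans (by linarith)
  have hl : 0 ≤ Real.log (1 + 20 / s') := Real.log_nonneg (by
    have : 0 < 20 / s' := by positivity
    linarith)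
  -- the potential
  have hpot : pot (r / R j) (E j) z - pot (r / R j) (E j) z' ≤
      1 / (2 * π) * (Real.log (1 + 20 / s') * M + V) := by
    refine (WCmp_pot h2 (by linarith : (0 : ℝ) < r / R j) hloc.cont hloc.nonneg hs0 hs1 hC10 hzz
      fun y hy => ?_).trans ?_
    · refine le_trans (hj y ?_ ?_ ?_) (le_max_left _ _)
      · rw [mem_ball_zero_iff]
        have h3 : ‖y‖ ≤ ‖z‖ + ‖z - y‖ := by
          have := norm_sub_le z (z - y)
          rwa [sub_sub_cancel] at this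
        linarith
      · have h3 : ‖z - 1‖ ≤ ‖z - y‖ + ‖y - 1‖ := by
          have := norm_add_le (z - y) (y - 1)
          rwa [sub_add_sub_cancel] at this
        linarith
      · have h3 : ‖z + 1‖ ≤ ‖z - y‖ + ‖y + 1‖ := by
          have := norm_add_le (z - y) (y + 1)
          rwa [show z - y + (y + 1) = z + 1 by ring] at this
        linarith
    · refine mul_le_mul_of_nonneg_left ?_ (by positivity)
      have := mul_le_mul_of_nonneg_left (hM j) hl
      linarith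
  -- the holomorphic part
  have hhol : 2 * (h j z).re - 2 * (h j z').re ≤ 2 * (|H| * (r / 8) * 10) := by
    have h3 := Convex.norm_image_sub_le_of_norm_deriv_le (f := h j) (C := H * R j)
      (fun x hx => (hloc.an.differentiableAt (isOpen_ball.mem_nhds hx))) (hp.hH j)
      (convex_ball (0 : ℂ) (r / R j)) hzρ' hzρ
    have h4 : (h j z - h j z').re ≤ ‖h j z - h j z'‖ := Complex.re_le_norm _
    have h5 : H * R j * ‖z - z'‖ ≤ |H| * (r / 8) * 10 := by
      have h6 : H * R j ≤ |H| * (r / 8) :=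
        mul_le_mul (le_abs_self H) hR8 hR.le (abs_nonneg _)
      have h7 : 0 ≤ |H| * (r / 8) := mul_nonneg (abs_nonneg _) (by linarith)
      have h8 : ‖z - z'‖ ≤ 10 := by rwa [norm_sub_rev]
      calc H * R j * ‖z - z'‖ ≤ |H| * (r / 8) * ‖z - z'‖ :=
            mul_le_mul_of_nonneg_right h6 (norm_nonneg _)
        _ ≤ _ := mul_le_mul_of_nonneg_left h8 h7
    rw [Complex.sub_re] at h4
    linarith
  have hlam : -(lam j * R j ^ 2 / 4 * ‖z‖ ^ 2) + lam j * R j ^ 2 / 4 * ‖z'‖ ^ 2 ≤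
      |Λ| * (r / 8) ^ 2 / 4 * 25 := by
    obtain ⟨hl0, hl1⟩ := hp.lamb j
    have h3 : lam j * R j ^ 2 / 4 ≤ |Λ| * (r / 8) ^ 2 / 4 := by
      have h4 : R j ^ 2 ≤ (r / 8) ^ 2 := pow_le_pow_left₀ hR.le hR8 2
      have h5 : lam j ≤ |Λ| := hl1.trans (le_abs_self _)
      have h6 := mul_le_mul h5 h4 (sq_nonneg _) (abs_nonneg _)
      linarith
    have h7 : 0 ≤ lam j * R j ^ 2 / 4 := by positivity
    have h8 : ‖z'‖ ^ 2 ≤ 25 := by nlinarith [norm_nonneg z']
    have h9 : lam j * R j ^ 2 / 4 * ‖z'‖ ^ 2 ≤ |Λ| * (r / 8) ^ 2 / 4 * 25 :=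
      mul_le_mul h3 h8 (sq_nonneg _) (h7.trans h3)
    have h10 : 0 ≤ lam j * R j ^ 2 / 4 * ‖z‖ ^ 2 := by positivity
    linarith
  rw [hloc.rep z hzρ, hloc.rep z' hzρ']
  have hexp : Real.exp (2 * (h j z).re - lam j * R j ^ 2 / 4 * ‖z‖ ^ 2 +
      pot (r / R j) (E j) z) ≤ Real.exp K * Real.exp (2 * (h j z').re -
      lam j * R j ^ 2 / 4 * ‖z'‖ ^ 2 + pot (r / R j) (E j) z') := by
    rw [← Real.exp_add]
    refine Real.exp_le_exp.2 ?_
    rw [hK]
    linarith
  have h3 : 0 ≤ ‖z'‖ ^ 2 * ‖z‖ ^ 2 := by positivity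
  have h4 := mul_le_mul_of_nonneg_left hexp h3
  simp only [Nat.mul_one]
  calc _ = ‖z'‖ ^ 2 * ‖z‖ ^ 2 * Real.exp (2 * (h j z).re - lam j * R j ^ 2 / 4 * ‖z‖ ^ 2 +
      pot (r / R j) (E j) z) := by ring
    _ ≤ _ := h4
    _ = _ := by ring

end Pool.Agent.Vx

end

section

/-!
# MP_afe918_an, block W: the missing mass is `O(R²)` (helper87)
-/

set_option autoImplicit false

open Complex Set Filter Topology MeasureTheory Metric
open scoped Real ContDiff ComplexConjugate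

namespace Pool.Agent.Vx

theorem WD_int {E : ℂ → ℝ} (hE : Continuous E) {F : ℂ → ℂ} {s : ℝ}
    (hF : ContinuousOn F (closedBall 0 s)) :
    IntegrableOn (fun z => F z * (E z : ℂ)) (ball 0 s) := by
  have h1 : ContinuousOn (fun z => F z * (E z : ℂ)) (closedBall 0 s) :=
    hF.mul (Complex.continuous_ofReal.comp hE).continuousOn
  exact (h1.integrableOn_compact (isCompact_closedBall 0 s)).mono_set ball_subset_closedBall

theorem WD_intR {E : ℂ → ℝ} (hE : Continuous E) {F : ℂ → ℝ} {s : ℝ} (hF : Continuous F) :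
    IntegrableOn (fun z => F z * E z) (ball 0 s) := by
  have h1 : ContinuousOn (fun z => F z * E z) (closedBall 0 s) := (hF.mul hE).continuousOn
  exact (h1.integrableOn_compact (isCompact_closedBall 0 s)).mono_set ball_subset_closedBall

theorem WD_one {E : ℂ → ℝ} (s : ℝ) : mo s E (fun z => z ^ 0) = (ms s E : ℂ) := by
  unfold mo ms
  simp only [pow_zero, one_mul]
  exact integral_ofReal

theorem WD_mo {ρ s lam : ℝ} {h : ℂ → ℂ} {E : ℂ → ℝ} (L : Loc ρ 1 lam h E) (hsρ : s < ρ) (h1 : ℂ)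
    (B : ℝ) (hB : ∀ z : ℂ, ‖z‖ ≤ s → ‖(z + h1 * z ^ 2) * deriv h z - h1 * z -
      (z + h1 * z ^ 2) * ((lam : ℂ) / 4 * conj z)‖ ≤ B * ‖z‖ ^ 2) :
    ‖mo s E (fun z => (1 + 2 * h1 * z) +
        (z + h1 * z ^ 2) * (1 / z + deriv h z - (lam : ℂ) / 4 * conj z)) -
      (2 * (ms s E : ℂ) + 4 * h1 * mo s E (fun z => z ^ 1))‖ ≤
      B * ∫ z in ball (0 : ℂ) s, ‖z‖ ^ 2 * E z := by
  have hsub : closedBall (0 : ℂ) s ⊆ ball 0 ρ := closedBall_subset_ball hsρ
  have hder : ContinuousOn (deriv h) (closedBall (0 : ℂ) s) :=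
    ((L.an.deriv isOpen_ball).continuousOn).mono hsub
  set F : ℂ → ℂ := fun z => (2 + 3 * h1 * z) + (z + h1 * z ^ 2) * deriv h z -
    (z + h1 * z ^ 2) * ((lam : ℂ) / 4 * conj z) with hF
  have hFc : ContinuousOn F (closedBall (0 : ℂ) s) := by
    rw [hF]
    have hcj : Continuous (fun z : ℂ => conj z) := Complex.continuous_conj
    refine ContinuousOn.sub (ContinuousOn.add (by fun_prop) (ContinuousOn.mul (by fun_prop) hder))
      (Continuous.continuousOn (by fun_prop))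
  have e1 : mo s E (fun z => (1 + 2 * h1 * z) +
        (z + h1 * z ^ 2) * (1 / z + deriv h z - (lam : ℂ) / 4 * conj z)) = mo s E F := by
    unfold mo
    refine integral_congr_ae ?_
    have h0 : ∀ᵐ z ∂(volume.restrict (ball (0 : ℂ) s)), z ≠ 0 := by
      refine ae_restrict_of_ae ?_
      rw [ae_iff]
      simp
    filter_upwards [h0] with z hz
    have : (z + h1 * z ^ 2) * (1 / z) = 1 + h1 * z := by
      field_simp
    rw [hF]
    simp only
    congr 1
    linear_combination this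
  have e2 : ((ms s E : ℝ) : ℂ) = ∫ z in ball (0 : ℂ) s, (E z : ℂ) := by
    unfold ms
    exact integral_ofReal.symm
  have e3 : mo s E F - (2 * (ms s E : ℂ) + 4 * h1 * mo s E (fun z => z ^ 1)) =
      ∫ z in ball (0 : ℂ) s, (F z - 2 - 4 * h1 * z) * (E z : ℂ) := by
    have i1 : IntegrableOn (fun z => F z * (E z : ℂ)) (ball 0 s) := WD_int L.cont hFc
    have i2 : IntegrableOn (fun z => (1 : ℂ) * (E z : ℂ)) (ball 0 s) :=
      WD_int L.cont (F := fun _ => 1) continuousOn_const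
    have i3 : IntegrableOn (fun z => z ^ 1 * (E z : ℂ)) (ball 0 s) :=
      WD_int L.cont (F := fun z => z ^ 1) (continuous_id.pow 1).continuousOn
    have e4 : (∫ z in ball (0 : ℂ) s, (F z - 2 - 4 * h1 * z) * (E z : ℂ)) =
        ∫ z in ball (0 : ℂ) s, (F z * (E z : ℂ) - (2 * ((1 : ℂ) * (E z : ℂ)) +
          4 * h1 * (z ^ 1 * (E z : ℂ)))) := by
      congr 1
      funext z
      ring
    have i6 : Integrable (fun z : ℂ => 2 * ((1 : ℂ) * (E z : ℂ)) + 4 * h1 * (z ^ 1 * (E z : ℂ)))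
        (volume.restrict (ball 0 s)) := (i2.const_mul 2).add (i3.const_mul (4 * h1))
    have e5 : (∫ z in ball (0 : ℂ) s, 4 * h1 * (z ^ 1 * (E z : ℂ))) =
        4 * h1 * ∫ z in ball (0 : ℂ) s, z ^ 1 * (E z : ℂ) := integral_const_mul _ _
    have e6 : (∫ z in ball (0 : ℂ) s, 2 * ((1 : ℂ) * (E z : ℂ))) =
        2 * ∫ z in ball (0 : ℂ) s, (1 : ℂ) * (E z : ℂ) := integral_const_mul _ _
    rw [e4, integral_sub i1 i6, integral_add (i2.const_mul 2) (i3.const_mul (4 * h1)),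
      e5, e6, e2]
    unfold mo
    simp only [one_mul]
  rw [e1, e3]
  have i5 : IntegrableOn (fun z : ℂ => ‖z‖ ^ 2 * E z) (ball (0 : ℂ) s) :=
    WD_intR L.cont (F := fun z => ‖z‖ ^ 2) (by fun_prop)
  calc ‖∫ z in ball (0 : ℂ) s, (F z - 2 - 4 * h1 * z) * (E z : ℂ)‖ ≤
      ∫ z in ball (0 : ℂ) s, B * (‖z‖ ^ 2 * E z) := by
        refine norm_integral_le_of_norm_le (i5.const_mul B) ?_
        filter_upwards [ae_restrict_mem measurableSet_ball] with z hz
        have hz' : ‖z‖ ≤ s := (mem_ball_zero_iff.1 hz).le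
        rw [norm_mul, Complex.norm_real, Real.norm_eq_abs, abs_of_nonneg (L.nonneg z)]
        have h2 := hB z hz'
        have h3 : F z - 2 - 4 * h1 * z = (z + h1 * z ^ 2) * deriv h z - h1 * z -
            (z + h1 * z ^ 2) * ((lam : ℂ) / 4 * conj z) := by
          rw [hF]; ring
        rw [h3]
        calc _ ≤ (B * ‖z‖ ^ 2) * E z := mul_le_mul_of_nonneg_right h2 (L.nonneg z)
          _ = _ := by ring
    _ = B * ∫ z in ball (0 : ℂ) s, ‖z‖ ^ 2 * E z := integral_const_mul _ _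

/-- The algebra: the bracket is bounded below. -/
theorem WD_alg {m0 K : ℝ} {h1 m1 X : ℂ} (hm : 12 * π ≤ m0) (hh : ‖h1‖ * ‖m1‖ ≤ 2 * π)
    (hX : X = (16 * π - m0) * (m0 / (8 * π) + h1 * m1 / (4 * π))) (hK : ‖X‖ ≤ K) :
    |16 * π - m0| ≤ K := by
  have hpi := Real.pi_pos
  have h2 : 1 ≤ ‖(m0 / (8 * π) + h1 * m1 / (4 * π) : ℂ)‖ := by
    have h3 : ‖(m0 / (8 * π) : ℂ)‖ = m0 / (8 * π) := by
      have : (m0 / (8 * π) : ℂ) = ((m0 / (8 * π) : ℝ) : ℂ) := by push_cast; ring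
      rw [this, Complex.norm_real, Real.norm_eq_abs, abs_of_nonneg]
      have : 0 ≤ m0 := by nlinarith
      positivity
    have h4 : ‖(h1 * m1 / (4 * π) : ℂ)‖ ≤ 1 / 2 := by
      have h5 : ‖(4 * π : ℂ)‖ = 4 * π := by
        have : (4 * π : ℂ) = ((4 * π : ℝ) : ℂ) := by push_cast; ring
        rw [this, Complex.norm_real, Real.norm_eq_abs, abs_of_pos (by positivity)]
      rw [norm_div, norm_mul, h5, div_le_iff₀ (by positivity)]
      linarith
    have h6 : 3 / 2 ≤ m0 / (8 * π) := by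
      rw [le_div_iff₀ (by positivity)]
      linarith
    have h7 := norm_sub_le (m0 / (8 * π) + h1 * m1 / (4 * π) : ℂ) (h1 * m1 / (4 * π))
    rw [add_sub_cancel_right, h3] at h7
    linarith
  rw [hX, norm_mul] at hK
  have h3 : ‖(16 * π - m0 : ℂ)‖ = |16 * π - m0| := by
    have : (16 * π - m0 : ℂ) = ((16 * π - m0 : ℝ) : ℂ) := by push_cast; ring
    rw [this, Complex.norm_real, Real.norm_eq_abs]
  rw [h3] at hK
  have h4 : 0 ≤ |16 * π - m0| := abs_nonneg _
  nlinarith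

theorem WD_vol (ρ : ℝ) (hρ : 0 ≤ ρ) : volume.real (ball (0 : ℂ) ρ) = π * ρ ^ 2 := by
  rw [Measure.real, Complex.volume_ball, ENNReal.toReal_mul, ENNReal.toReal_pow,
    ENNReal.toReal_ofReal hρ]
  simp
  ring

theorem WD_out {E : ℂ → ℝ} (hE : Continuous E) (h0 : ∀ z, 0 ≤ E z) {s ρ c : ℝ} (hs : 0 ≤ s)
    (hsρ : s ≤ ρ) (hc : 0 ≤ c) (hb : ∀ z ∈ ball (0 : ℂ) ρ, s ≤ ‖z‖ → E z ≤ c) :
    ms s E ≤ ms ρ E ∧ ms ρ E - ms s E ≤ c * (π * ρ ^ 2) := by
  have i1 : ∀ t, IntegrableOn E (ball (0 : ℂ) t) := fun t =>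
    (hE.continuousOn.integrableOn_compact (isCompact_closedBall 0 t)).mono_set
      ball_subset_closedBall
  have hsub : ball (0 : ℂ) s ⊆ ball 0 ρ := ball_subset_ball hsρ
  have h1 : ∫ z in ball (0 : ℂ) ρ \ ball 0 s, E z = ms ρ E - ms s E := by
    rw [setIntegral_sdiff measurableSet_ball (i1 ρ) hsub]
    rfl
  constructor
  · have : 0 ≤ ∫ z in ball (0 : ℂ) ρ \ ball 0 s, E z := integral_nonneg fun z => h0 z
    linarith
  · rw [← h1]
    have h2 : ‖∫ z in ball (0 : ℂ) ρ \ ball 0 s, E z‖ ≤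
        c * volume.real (ball (0 : ℂ) ρ \ ball 0 s) := by
      refine norm_setIntegral_le_of_norm_le_const ?_ ?_
      · exact (measure_mono sdiff_subset).trans_lt measure_ball_lt_top
      · intro z hz
        rw [Real.norm_eq_abs, abs_of_nonneg (h0 z)]
        refine hb z hz.1 ?_
        have := hz.2
        rw [mem_ball_zero_iff, not_lt] at this
        exact this
    have h3 : volume.real (ball (0 : ℂ) ρ \ ball 0 s) ≤ π * ρ ^ 2 := by
      rw [← WD_vol ρ (hs.trans hsρ)]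
      exact measureReal_mono sdiff_subset measure_ball_lt_top.ne
    calc _ ≤ ‖∫ z in ball (0 : ℂ) ρ \ ball 0 s, E z‖ := le_abs_self _
      _ ≤ _ := h2.trans (mul_le_mul_of_nonneg_left h3 hc)

/-- the pointwise bound -/
theorem WD_pt {CT R r Λ lam : ℝ} {h : ℂ → ℂ} {z : ℂ} (hCT : 0 ≤ CT) (hR : 0 < R)
    (hl0 : 0 ≤ lam) (hl : lam ≤ Λ) (hz : R * ‖z‖ ≤ r / 4) (h1 : ‖deriv h 0‖ ≤ CT * R)
    (h2 : ‖deriv h z - deriv h 0‖ ≤ CT * R ^ 2 * ‖z‖) :
    ‖(z + deriv h 0 * z ^ 2) * deriv h z - deriv h 0 * z -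
      (z + deriv h 0 * z ^ 2) * (((lam * R ^ 2 : ℝ) : ℂ) / 4 * conj z)‖ ≤
    (CT + CT ^ 2 * (r / 4) + CT ^ 2 + (1 + CT * (r / 4)) * (Λ / 4)) * R ^ 2 * ‖z‖ ^ 2 := by
  have e : (z + deriv h 0 * z ^ 2) * deriv h z - deriv h 0 * z -
      (z + deriv h 0 * z ^ 2) * (((lam * R ^ 2 : ℝ) : ℂ) / 4 * conj z) =
      z * (deriv h z - deriv h 0) + deriv h 0 * z ^ 2 * (deriv h z - deriv h 0) +
      deriv h 0 ^ 2 * z ^ 2 -
      (z + deriv h 0 * z ^ 2) * (((lam * R ^ 2 : ℝ) : ℂ) / 4 * conj z) := by ring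
  rw [e]
  have hn : 0 ≤ ‖z‖ := norm_nonneg z
  have hΛ : 0 ≤ Λ := hl0.trans hl
  have n1 : ‖z * (deriv h z - deriv h 0)‖ ≤ CT * R ^ 2 * ‖z‖ ^ 2 := by
    rw [norm_mul]
    calc _ ≤ ‖z‖ * (CT * R ^ 2 * ‖z‖) := by gcongr
      _ = _ := by ring
  have n2 : ‖deriv h 0 * z ^ 2 * (deriv h z - deriv h 0)‖ ≤ CT ^ 2 * (r / 4) * R ^ 2 * ‖z‖ ^ 2 := by
    rw [norm_mul, norm_mul, norm_pow]
    calc _ ≤ (CT * R) * ‖z‖ ^ 2 * (CT * R ^ 2 * ‖z‖) := by gcongr
      _ = CT ^ 2 * (R * ‖z‖) * R ^ 2 * ‖z‖ ^ 2 := by ring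
      _ ≤ _ := by gcongr
  have n3 : ‖deriv h 0 ^ 2 * z ^ 2‖ ≤ CT ^ 2 * R ^ 2 * ‖z‖ ^ 2 := by
    rw [norm_mul, norm_pow, norm_pow]
    calc _ ≤ (CT * R) ^ 2 * ‖z‖ ^ 2 := by gcongr
      _ = _ := by ring
  have n4 : ‖(z + deriv h 0 * z ^ 2) * (((lam * R ^ 2 : ℝ) : ℂ) / 4 * conj z)‖ ≤
      (1 + CT * (r / 4)) * (Λ / 4) * R ^ 2 * ‖z‖ ^ 2 := by
    have m1 : ‖z + deriv h 0 * z ^ 2‖ ≤ ‖z‖ + CT * R * ‖z‖ ^ 2 := by
      refine (norm_add_le _ _).trans ?_
      rw [norm_mul, norm_pow]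
      gcongr
    have m2 : ‖(((lam * R ^ 2 : ℝ) : ℂ) / 4 * conj z)‖ ≤ Λ * R ^ 2 / 4 * ‖z‖ := by
      rw [norm_mul, norm_div, Complex.norm_real, Real.norm_eq_abs, abs_of_nonneg (by positivity),
        RCLike.norm_conj]
      have : ‖(4 : ℂ)‖ = 4 := by simp
      rw [this]
      gcongr
    rw [norm_mul]
    calc _ ≤ (‖z‖ + CT * R * ‖z‖ ^ 2) * (Λ * R ^ 2 / 4 * ‖z‖) := by gcongr
      _ = (1 + CT * (R * ‖z‖)) * (Λ / 4) * R ^ 2 * ‖z‖ ^ 2 := by ring
      _ ≤ _ := by gcongr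
  calc _ ≤ ‖z * (deriv h z - deriv h 0)‖ + ‖deriv h 0 * z ^ 2 * (deriv h z - deriv h 0)‖ +
        ‖deriv h 0 ^ 2 * z ^ 2‖ +
        ‖(z + deriv h 0 * z ^ 2) * (((lam * R ^ 2 : ℝ) : ℂ) / 4 * conj z)‖ := by
        refine (norm_sub_le _ _).trans ?_
        gcongr
        exact norm_add₃_le
    _ ≤ _ := by
        refine (add_le_add (add_le_add (add_le_add n1 n2) n3) n4).trans (le_of_eq ?_)
        ring

/-- the coefficients -/
noncomputable def WD_c (h1 : ℂ) (i : ℕ) : ℂ := if i = 1 then 1 else if i = 2 then h1 else 0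

theorem WD_sum (E : ℂ → ℝ) (s : ℝ) (h1 : ℂ) :
    (∑ i ∈ Finset.range 6, WD_c h1 i * ∑ k ∈ Finset.range i,
      mo s E (fun z => z ^ k) * mo s E (fun z => z ^ (i - 1 - k))) =
      mo s E (fun z => z ^ 0) * mo s E (fun z => z ^ 0) +
        h1 * (2 * (mo s E (fun z => z ^ 0) * mo s E (fun z => z ^ 1))) := by
  simp [Finset.sum_range_succ, WD_c]
  left
  ring

theorem WD_fun (h1 z w : ℂ) :
    (∑ i ∈ Finset.range 6, WD_c h1 i * i * z ^ (i - 1)) +
      (∑ i ∈ Finset.range 6, WD_c h1 i * z ^ i) * w =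
      (1 + 2 * h1 * z) + (z + h1 * z ^ 2) * w := by
  simp [Finset.sum_range_succ, WD_c]
  left
  ring

theorem pr_WD (h1 : S_WRI) (h2 : S_WTay) (h3 : S_WMom) (h4 : S_WTail1) (h5 : S_WKap) :
    S_WD := by
  intro r H Λ R lam eta h E hw
  have hp := hw.pl
  have hr := hp.rpos
  have hpi := Real.pi_pos
  obtain ⟨K, hK⟩ := h1 r H Λ R lam eta h E hp
  obtain ⟨CT, hCT⟩ := h2 r H Λ R lam eta h E hp
  obtain ⟨CM, hCM⟩ := h3 r H Λ R lam eta h E hw
  obtain ⟨Ct, hCt⟩ := h4 r H Λ R lam eta h E hw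
  obtain ⟨hk, hk0, -, -⟩ := h5 r H Λ R lam eta h E hw
  obtain ⟨Co, hCo⟩ := hp.out (r / 4) (by linarith)
  obtain ⟨M, hM0, hM⟩ := W_mass hp
  have hΛ : 0 ≤ Λ := (hp.lamb 0).1.trans (hp.lamb 0).2
  have hCT0 : 0 ≤ CT := by
    have e1 := (norm_nonneg _).trans (hCT 0).1
    exact nonneg_of_mul_nonneg_left e1 (hp.Rpos 0)
  obtain ⟨C1, hC1⟩ : ∃ C1, C1 = CT + CT ^ 2 * (r / 4) + CT ^ 2 + (1 + CT * (r / 4)) * (Λ / 4) :=
    ⟨_, rfl⟩
  have hC10 : 0 ≤ C1 := by rw [hC1]; positivity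
  obtain ⟨A, hA⟩ : ∃ A, A = 3 + 9 * CT * r / 4 := ⟨_, rfl⟩
  have hA0 : 0 ≤ A := by rw [hA]; positivity
  -- `eta ≤ |Ct| R²`
  have heta : ∀ᶠ j in atTop, eta j ≤ |Ct| * R j ^ 2 := by
    have g1 : ∀ᶠ j in atTop, E j (2 * I) < 1 := hk0.eventually_lt_const one_pos
    have g2 : ∀ᶠ j in atTop, R j < 1 := hp.R0.eventually_lt_const one_pos
    filter_upwards [hCt, g1, g2] with j h6 h7 h8
    have hR := hp.Rpos j
    calc eta j ≤ Ct * E j (2 * I) * R j ^ 3 := h6.2
      _ ≤ |Ct| * 1 * R j ^ 2 := by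
          have h9 : R j ^ 3 ≤ R j ^ 2 := pow_le_pow_of_le_one hR.le h8.le (by norm_num)
          have h10 : Ct * E j (2 * I) ≤ |Ct| * 1 := by
            calc Ct * E j (2 * I) ≤ |Ct| * E j (2 * I) :=
                  mul_le_mul_of_nonneg_right (le_abs_self _) (hk j).le
              _ ≤ _ := mul_le_mul_of_nonneg_left h7.le (abs_nonneg _)
          calc Ct * E j (2 * I) * R j ^ 3 ≤ (|Ct| * 1) * R j ^ 3 :=
                mul_le_mul_of_nonneg_right h10 (by positivity)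
            _ ≤ _ := mul_le_mul_of_nonneg_left h9 (by positivity)
      _ = _ := by ring
  have hR2 : Tendsto (fun j => R j ^ 2) atTop (𝓝 0) := by
    have := hp.R0.pow 2
    simpa using this
  -- mass outside
  have hdiff : ∀ j, ms (r / (4 * R j)) (E j) ≤ ms (r / R j) (E j) ∧
      ms (r / R j) (E j) - ms (r / (4 * R j)) (E j) ≤ |Co| * π * r ^ 2 * eta j := by
    intro j
    have hR := hp.Rpos j
    have e1 : r / (4 * R j) ≤ r / R j := by
      apply div_le_div_of_nonneg_left hr.le hR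
      linarith
    have e2 := WD_out (hp.loc j).cont (hp.loc j).nonneg (s := r / (4 * R j)) (ρ := r / R j)
      (c := |Co| * R j ^ 2 * eta j) (by positivity) e1
      (by have := hp.etapos j; positivity) (by
        intro z hz hz2
        have h6 : r / 4 / R j ≤ ‖z‖ := by
          rw [div_div]
          exact hz2
        refine (hCo j z hz h6).trans ?_
        have := hp.etapos j
        have h7 := le_abs_self Co
        gcongr)
    refine ⟨e2.1, e2.2.trans (le_of_eq ?_)⟩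
    field_simp
  have hm0 : ∀ᶠ j in atTop, 12 * π ≤ ms (r / (4 * R j)) (E j) := by
    have g1 : ∀ᶠ j in atTop, 14 * π < ms (r / R j) (E j) :=
      hp.mass.eventually_const_lt (by linarith)
    have g2 : Tendsto (fun j => |Co| * π * r ^ 2 * (|Ct| * R j ^ 2)) atTop (𝓝 0) := by
      have := (hR2.const_mul |Ct|).const_mul (|Co| * π * r ^ 2)
      simpa using this
    have g3 : ∀ᶠ j in atTop, |Co| * π * r ^ 2 * (|Ct| * R j ^ 2) < 2 * π :=
      g2.eventually_lt_const (by linarith)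
    filter_upwards [g1, g3, heta] with j h6 h7 h8
    have h9 := (hdiff j).2
    have h10 : |Co| * π * r ^ 2 * eta j ≤ |Co| * π * r ^ 2 * (|Ct| * R j ^ 2) := by
      gcongr
    linarith
  have hh1 : ∀ᶠ j in atTop, CT * R j * (M + |CM|) < 2 * π := by
    have g2 : Tendsto (fun j => CT * R j * (M + |CM|)) atTop (𝓝 0) := by
      have := (hp.R0.const_mul CT).mul_const (M + |CM|)
      simpa using this
    exact g2.eventually_lt_const (by linarith)
  refine ⟨C1 * |CM| + |K| * A * |Ct| + |Co| * π * r ^ 2 * |Ct|, ?_⟩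
  filter_upwards [hK, hCM, heta, hm0, hh1] with j k1 k2 k3 k4 k5
  have hR := hp.Rpos j
  have L := hp.loc j
  obtain ⟨t1, -, t3⟩ := hCT j
  set s := r / (4 * R j) with hs
  have hs0 : 0 < s := by rw [hs]; positivity
  have hsρ : s < r / R j := by
    rw [hs]
    apply div_lt_div_of_pos_left hr hR
    linarith
  have hRs : R j * s = r / 4 := by
    rw [hs]; field_simp
  -- second moment on the small ball
  have hmom : ∫ z in ball (0 : ℂ) s, ‖z‖ ^ 2 * E j z ≤ |CM| := by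
    refine le_trans ?_ (k2.trans (le_abs_self _))
    refine setIntegral_mono_set ?_ ?_ ?_
    · exact WD_intR L.cont (F := fun z => ‖z‖ ^ 2) (by fun_prop)
    · exact Eventually.of_forall fun z => mul_nonneg (by positivity) (L.nonneg z)
    · exact (ball_subset_ball hsρ.le).eventuallyLE
  -- first moment
  have hm1 : ‖mo s (E j) (fun z => z ^ 1)‖ ≤ M + |CM| := by
    unfold mo
    have i1 : IntegrableOn (E j) (ball (0 : ℂ) s) :=
      (L.cont.continuousOn.integrableOn_compact (isCompact_closedBall 0 s)).mono_set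
        ball_subset_closedBall
    have i2 : IntegrableOn (fun z : ℂ => ‖z‖ ^ 2 * E j z) (ball (0 : ℂ) s) :=
      WD_intR L.cont (F := fun z => ‖z‖ ^ 2) (by fun_prop)
    calc ‖∫ z in ball (0 : ℂ) s, z ^ 1 * (E j z : ℂ)‖ ≤
        ∫ z in ball (0 : ℂ) s, (E j z + ‖z‖ ^ 2 * E j z) := by
          refine norm_integral_le_of_norm_le (i1.add i2) (Eventually.of_forall fun z => ?_)
          rw [norm_mul, pow_one, Complex.norm_real, Real.norm_eq_abs, abs_of_nonneg (L.nonneg z)]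
          have e1 := L.nonneg z
          have e2 : ‖z‖ ≤ 1 + ‖z‖ ^ 2 := by nlinarith [norm_nonneg z, sq_nonneg (‖z‖ - 1)]
          nlinarith
      _ = ms s (E j) + ∫ z in ball (0 : ℂ) s, ‖z‖ ^ 2 * E j z := integral_add i1 i2
      _ ≤ M + |CM| := add_le_add ((hdiff j).1.trans (hM j)) hmom
  -- the identity
  have q1 := k1 A (WD_c (deriv (h j) 0)) (by
    intro i hi
    interval_cases i
    · simp [WD_c]; positivity
    · simp only [WD_c, if_true, norm_one, one_mul, pow_one]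
      rw [hA]
      have : 0 ≤ 9 * CT * r / 4 * s := by positivity
      nlinarith
    · have e1 : WD_c (deriv (h j) 0) 2 = deriv (h j) 0 := by simp [WD_c]
      rw [e1]
      calc ‖deriv (h j) 0‖ * (3 * s) ^ 2 ≤ (CT * R j) * (3 * s) ^ 2 := by gcongr
        _ = 9 * CT * (R j * s) * s := by ring
        _ = 9 * CT * r / 4 * s := by rw [hRs]; ring
        _ ≤ A * s := by
            rw [hA]
            have : 0 ≤ 3 * s := by positivity
            nlinarith
    · simp [WD_c]; positivity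
    · simp [WD_c]; positivity
    · simp [WD_c]; positivity)
  rw [WD_sum] at q1
  simp only [WD_fun] at q1
  have q2 := WD_mo L hsρ (deriv (h j) 0) (C1 * R j ^ 2) (by
    intro z hz
    have hz2 : R j * ‖z‖ ≤ r / 4 := by
      rw [← hRs]
      exact mul_le_mul_of_nonneg_left hz hR.le
    have := WD_pt hCT0 hR (hp.lamb j).1 (hp.lamb j).2 hz2 t1 (t3 z hz).1
    rw [hC1]
    exact this)
  rw [WD_one] at q1
  -- conclusion
  set X : ℂ := (16 * π - (ms s (E j) : ℂ)) * ((ms s (E j) : ℂ) / (8 * π) +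
    deriv (h j) 0 * mo s (E j) (fun z => z ^ 1) / (4 * π)) with hX
  have hpi' : (π : ℂ) ≠ 0 := by exact_mod_cast hpi.ne'
  have hXe : X = (2 * (ms s (E j) : ℂ) + 4 * deriv (h j) 0 * mo s (E j) (fun z => z ^ 1)) -
      1 / (8 * π) * ((ms s (E j) : ℂ) * (ms s (E j) : ℂ) +
        deriv (h j) 0 * (2 * ((ms s (E j) : ℂ) * mo s (E j) (fun z => z ^ 1)))) := by
    rw [hX]
    field_simp
    ring
  have hXn : ‖X‖ ≤ K * A * eta j + C1 * R j ^ 2 * |CM| := by
    have e1 := norm_sub_le_norm_sub_add_norm_sub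
      (2 * (ms s (E j) : ℂ) + 4 * deriv (h j) 0 * mo s (E j) (fun z => z ^ 1))
      (mo s (E j) (fun z => (1 + 2 * deriv (h j) 0 * z) +
        (z + deriv (h j) 0 * z ^ 2) * (1 / z + deriv (h j) z -
          ((lam j * R j ^ 2 : ℝ) : ℂ) / 4 * conj z)))
      (1 / (8 * π) * ((ms s (E j) : ℂ) * (ms s (E j) : ℂ) +
        deriv (h j) 0 * (2 * ((ms s (E j) : ℂ) * mo s (E j) (fun z => z ^ 1)))))
    rw [← hXe] at e1
    rw [norm_sub_rev] at q2
    have e2 : C1 * R j ^ 2 * ∫ z in ball (0 : ℂ) s, ‖z‖ ^ 2 * E j z ≤ C1 * R j ^ 2 * |CM| := by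
      gcongr
    linarith
  have hfin := WD_alg (K := K * A * eta j + C1 * R j ^ 2 * |CM|) (m0 := ms s (E j))
    (h1 := deriv (h j) 0) (m1 := mo s (E j) (fun z => z ^ 1)) k4 (by
      calc ‖deriv (h j) 0‖ * ‖mo s (E j) (fun z => z ^ 1)‖ ≤ (CT * R j) * (M + |CM|) := by
            gcongr
        _ ≤ 2 * π := k5.le) hX hXn
  have hd := hdiff j
  have he := hp.etapos j
  have f1 : K * A * eta j ≤ |K| * A * (|Ct| * R j ^ 2) := by
    calc K * A * eta j ≤ |K| * A * eta j := by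
          have := le_abs_self K
          gcongr
      _ ≤ _ := by gcongr
  have f2 : |Co| * π * r ^ 2 * eta j ≤ |Co| * π * r ^ 2 * (|Ct| * R j ^ 2) := by gcongr
  have f3 := abs_le.1 hfin
  rw [abs_le]
  have f4 : (C1 * |CM| + |K| * A * |Ct| + |Co| * π * r ^ 2 * |Ct|) * R j ^ 2 =
      C1 * R j ^ 2 * |CM| + |K| * A * (|Ct| * R j ^ 2) +
        |Co| * π * r ^ 2 * (|Ct| * R j ^ 2) := by ring
  have f5 : 0 ≤ |Co| * π * r ^ 2 * (|Ct| * R j ^ 2) := by positivity
  rw [f4]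
  constructor
  · linarith [hd.1, hd.2, f3.1, f3.2]
  · linarith [hd.1, hd.2, f3.1, f3.2]

end Pool.Agent.Vx

end

section

/-!
# MP_afe918_an, item WEta: the density near the outer boundary in terms of `eta`
-/

set_option autoImplicit false

open Complex Set Filter Topology MeasureTheory Metric
open scoped Real ContDiff ComplexConjugate

namespace Pool.Agent.Vx

theorem WEta_pot (ρ : ℝ) (hρ : 8 < ρ) (E : ℂ → ℝ) (hE : Continuous E) (h0 : ∀ z, 0 ≤ E z)
    (z : ℂ) (hz : ‖z‖ = ρ / 8) :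
    -(1 / (2 * π)) * (Real.log (9 * ρ / 8) * ms ρ E) ≤ pot ρ E z := by
  have hπ : 0 < 1 / (2 * π) := by positivity
  have hlog : 0 < Real.log (9 * ρ / 8) := Real.log_pos (by linarith)
  have hEint : IntegrableOn E (ball 0 ρ) :=
    (hE.continuousOn.integrableOn_compact (isCompact_closedBall (0 : ℂ) ρ)).mono_set
      ball_subset_closedBall
  have hms : 0 ≤ ms ρ E := setIntegral_nonneg measurableSet_ball fun y _ => h0 y
  have key : ∫ y in ball (0 : ℂ) ρ, Real.log ‖z - y‖ * E y ≤ Real.log (9 * ρ / 8) * ms ρ E := by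
    by_cases hint : IntegrableOn (fun y => Real.log ‖z - y‖ * E y) (ball (0 : ℂ) ρ)
    · unfold ms
      rw [← integral_const_mul]
      refine setIntegral_mono_on hint (hEint.const_mul _) measurableSet_ball fun y hy => ?_
      apply mul_le_mul_of_nonneg_right _ (h0 y)
      rcases eq_or_ne z y with h | h
      · rw [h, sub_self, norm_zero, Real.log_zero]
        exact hlog.le
      · apply Real.log_le_log (norm_pos_iff.2 (sub_ne_zero.2 h))
        have hy' : ‖y‖ < ρ := by simpa using hy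
        calc ‖z - y‖ ≤ ‖z‖ + ‖y‖ := norm_sub_le _ _
          _ ≤ ρ / 8 + ρ := by rw [hz]; linarith
          _ = 9 * ρ / 8 := by ring
    · rw [integral_undef hint]
      positivity
  unfold pot
  nlinarith [mul_le_mul_of_nonneg_left key hπ.le]

theorem WEta_h (ρ K : ℝ) (h : ℂ → ℂ) (hd : DifferentiableOn ℂ h (ball 0 ρ))
    (hK : ∀ z ∈ ball (0 : ℂ) ρ, ‖deriv h z‖ ≤ K) (z : ℂ) (hz : z ∈ ball (0 : ℂ) ρ) :
    (h 0).re - K * ‖z‖ ≤ (h z).re := by
  have h0 : (0 : ℂ) ∈ ball (0 : ℂ) ρ := by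
    simp only [mem_ball, dist_self]
    have : ‖z‖ < ρ := by simpa using hz
    exact lt_of_le_of_lt (norm_nonneg z) this
  have h1 := Convex.norm_image_sub_le_of_norm_deriv_le (𝕜 := ℂ) (f := h) (C := K)
    (s := ball (0 : ℂ) ρ) (fun x hx => hd.differentiableAt (isOpen_ball.mem_nhds hx)) hK
    (convex_ball _ _) h0 hz
  rw [sub_zero] at h1
  have h2 : |(h z - h 0).re| ≤ K * ‖z‖ := le_trans (abs_re_le_norm _) h1
  rw [sub_re, abs_le] at h2
  linarith [h2.1]

theorem pr_WEta : S_WEta := by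
  intro r H Λ R lam eta h E hp
  obtain ⟨M, hM0, hM⟩ := W_mass hp
  refine ⟨(r / 8) ^ 2 * Real.exp (-(H * r / 4) - Λ * r ^ 2 / 256 -
    M / (2 * π) * |Real.log (9 * r / 8)|), ?_, ?_⟩
  · have := hp.rpos
    positivity
  · refine Eventually.of_forall fun j z hz => ?_
    have hR := hp.Rpos j
    have hr := hp.rpos
    have hρ := W_rad hp j
    have hL := hp.loc j
    have hlamj := hp.lamb j
    have hz8 : ‖z‖ = (r / R j) / 8 := by rw [hz]; field_simp
    have hzb : z ∈ ball (0 : ℂ) (r / R j) := by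
      rw [mem_ball, dist_zero_right, hz8]
      linarith
    have hms0 : 0 ≤ ms (r / R j) (E j) :=
      setIntegral_nonneg measurableSet_ball fun y _ => hL.nonneg y
    have hpot := WEta_pot (r / R j) hρ (E j) hL.cont hL.nonneg z hz8
    have hh := WEta_h (r / R j) (H * R j) (h j) hL.an (hp.hH j) z hzb
    have hrep := hL.rep z hzb
    have hmM := hM j
    set m := ms (r / R j) (E j) with hm
    have heta := hp.etaeq j
    rw [← hm] at heta
    unfold et at heta
    rw [Real.rpow_def_of_pos hR] at heta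
    have hHz : H * R j * ‖z‖ = H * r / 8 := by rw [hz]; field_simp
    have hlz : lam j * R j ^ 2 / 4 * ‖z‖ ^ 2 = lam j * r ^ 2 / 256 := by
      rw [hz]; field_simp; ring
    have hlog : Real.log (9 * (r / R j) / 8) = Real.log (9 * r / 8) - Real.log (R j) := by
      rw [← Real.log_div (by positivity) hR.ne']
      congr 1
      field_simp
    rw [hlog] at hpot
    have hlamr : lam j * r ^ 2 / 256 ≤ Λ * r ^ 2 / 256 := by
      have : lam j * r ^ 2 ≤ Λ * r ^ 2 := mul_le_mul_of_nonneg_right hlamj.2 (sq_nonneg r)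
      linarith
    have habs : m / (2 * π) * Real.log (9 * r / 8) ≤ M / (2 * π) * |Real.log (9 * r / 8)| := by
      have h1 : m / (2 * π) ≤ M / (2 * π) := by gcongr
      have h2 : 0 ≤ m / (2 * π) := by positivity
      calc m / (2 * π) * Real.log (9 * r / 8) ≤ m / (2 * π) * |Real.log (9 * r / 8)| :=
            mul_le_mul_of_nonneg_left (le_abs_self _) h2
        _ ≤ M / (2 * π) * |Real.log (9 * r / 8)| :=
            mul_le_mul_of_nonneg_right h1 (abs_nonneg _)
    have hexp : 2 * (h j 0).re - H * r / 4 - Λ * r ^ 2 / 256 - M / (2 * π) * |Real.log (9 * r / 8)|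
        + m / (2 * π) * Real.log (R j) ≤
        2 * (h j z).re - lam j * R j ^ 2 / 4 * ‖z‖ ^ 2 + pot (r / R j) (E j) z := by
      have e1 : -(1 / (2 * π)) * ((Real.log (9 * r / 8) - Real.log (R j)) * m) =
          -(m / (2 * π) * Real.log (9 * r / 8)) + m / (2 * π) * Real.log (R j) := by ring
      rw [e1] at hpot
      rw [hlz]
      rw [hHz] at hh
      linarith
    rw [hrep]
    have hfin : (r / 8) ^ 2 * Real.exp (-(H * r / 4) - Λ * r ^ 2 / 256 -
        M / (2 * π) * |Real.log (9 * r / 8)|) * R j ^ 2 * eta j =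
        ‖z‖ ^ (2 * 1) * Real.exp (2 * (h j 0).re - H * r / 4 - Λ * r ^ 2 / 256 -
        M / (2 * π) * |Real.log (9 * r / 8)| + m / (2 * π) * Real.log (R j)) := by
      have e2 : Real.exp (2 * (h j 0).re - H * r / 4 - Λ * r ^ 2 / 256 -
          M / (2 * π) * |Real.log (9 * r / 8)| + m / (2 * π) * Real.log (R j)) =
          Real.exp (2 * (h j 0).re) * (Real.exp (-(H * r / 4) - Λ * r ^ 2 / 256 -
          M / (2 * π) * |Real.log (9 * r / 8)|) * Real.exp (m / (2 * π) * Real.log (R j))) := by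
        rw [← Real.exp_add, ← Real.exp_add]
        congr 1
        ring
      have e3 : Real.exp (Real.log (R j) * ((16 * π - m) / (2 * π) - 4)) *
          Real.exp (m / (2 * π) * Real.log (R j)) = R j ^ 4 := by
        rw [← Real.exp_add]
        have e4 : Real.log (R j) * ((16 * π - m) / (2 * π) - 4) +
            m / (2 * π) * Real.log (R j) = (4 : ℕ) * Real.log (R j) := by
          have : π ≠ 0 := Real.pi_ne_zero
          field_simp
          push_cast
          ring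
        rw [e4, Real.exp_nat_mul, Real.exp_log hR]
      rw [e2, heta]
      have e5 : eta j * Real.exp (Real.log (R j) * ((16 * π - m) / (2 * π) - 4)) *
          (Real.exp (-(H * r / 4) - Λ * r ^ 2 / 256 -
          M / (2 * π) * |Real.log (9 * r / 8)|) * Real.exp (m / (2 * π) * Real.log (R j))) =
          eta j * Real.exp (-(H * r / 4) - Λ * r ^ 2 / 256 -
          M / (2 * π) * |Real.log (9 * r / 8)|) *
          (Real.exp (Real.log (R j) * ((16 * π - m) / (2 * π) - 4)) *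
          Real.exp (m / (2 * π) * Real.log (R j))) := by ring
      have e6 : (r / (8 * R j)) ^ (2 * 1) = r ^ 2 / (64 * R j ^ 2) := by
        rw [mul_one, div_pow, mul_pow]
        norm_num
      rw [e5, e3, hz, e6]
      field_simp
      ring
    rw [hfin]
    gcongr

end Pool.Agent.Vx

end
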