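import Pool.Agent.Work.MP_afe918_an.Bd.B06
import Pool.Agent.Work.MP_afe918_an.Bd.B05
import Pool.Agent.Work.MP_afe918_an.Bd.B01

/-! Bundle of small proof modules (one section per former module). -/

section

/-!
# MP_afe918_an: final assembly from the blocks
-/

set_option autoImplicit false

open Complex Set Filter Topology MeasureTheory Metric
open scoped Real ContDiff ComplexConjugate

namespace Pool.Agent.Vx

/-- Block V (PART A). -/
def S_Exist : Prop := ∀ (a b : ℝ) (F : ℂ → ℂ) (m : ℕ) (p : Fin m → ℂ) (n : Fin m → ℕ),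
  IsTheta a b F → Dist a b p → (∀ l, 0 < n l) → ∀ (k : ℕ) (s1 s2 : ℝ), 0 < s1 →
  8 * π * k < s1 → s1 < s2 → s2 < 8 * π * (k + 1) →
  ∃ ρ : ℝ, s1 ≤ ρ ∧ ρ ≤ s2 ∧ ∃ (v : ℂ → ℝ) (c : ℝ), IntSol a b F p n ρ v c

theorem main_of_blocks (hT : S_ThetaEx) (hV : S_Exist) (hG : S_Closed) (hR : S_Reg)
    (hN : S_Nec) (a b mW e : ℝ) (ha : 0 < a) (hb : 0 < b) (hm : 0 < mW) (he : 0 < e) (m : ℕ)
    (p : Fin m → ℂ) (n : Fin m → ℕ) (hn : ∀ l, 0 < n l) (hp : Dist a b p) :
    (∃ u, IsSol a b mW e p n u) ↔ mW ^ 2 < 2 * π * Nv n / (a * b) := by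
  constructor
  · rintro ⟨u, hu⟩
    exact hN a b mW e m p n u ha hb he hp hu
  · intro h
    obtain ⟨F, hF⟩ := hT a b ha hb
    have hab : 0 < a * b := mul_pos ha hb
    set ρ0 : ℝ := 4 * π * Nv n - 2 * mW ^ 2 * (a * b) with hρ0
    have h1 : 0 < ρ0 := by
      rw [lt_div_iff₀ hab] at h
      rw [hρ0]; linarith
    have h2 : ρ0 < 4 * π * Nv n := by
      rw [hρ0]
      have : 0 < 2 * mW ^ 2 * (a * b) := by positivity
      linarith
    have key : ∃ (v : ℂ → ℝ) (c : ℝ), IntSol a b F p n ρ0 v c := by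
      apply hG a b F m p n ρ0 hF hp h1 h2
      intro ε hε
      -- choose k with 8πk ≤ ρ0 < 8π(k+1)
      have h8 : (0 : ℝ) < 8 * π := by positivity
      set k : ℕ := ⌊ρ0 / (8 * π)⌋₊ with hk
      have hk1 : 8 * π * k ≤ ρ0 := by
        have := Nat.floor_le (div_nonneg h1.le h8.le)
        rw [← hk, le_div_iff₀ h8] at this
        linarith
      have hk2 : ρ0 < 8 * π * (k + 1) := by
        have := Nat.lt_floor_add_one (ρ0 / (8 * π))
        rw [← hk, div_lt_iff₀ h8] at this
        linarith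
      set δ : ℝ := min ε (8 * π * (k + 1) - ρ0) with hδ
      have hδ0 : 0 < δ := lt_min hε (by linarith)
      have hδ1 : δ ≤ ε := min_le_left _ _
      have hδ2 : δ ≤ 8 * π * (k + 1) - ρ0 := min_le_right _ _
      obtain ⟨ρ, hr1, hr2, v, c, hv⟩ := hV a b F m p n hF hp hn k (ρ0 + δ / 3) (ρ0 + δ / 2)
        (by linarith) (by linarith) (by linarith) (by linarith)
      exact ⟨ρ, by linarith, by linarith, v, c, hv⟩
    obtain ⟨v, c, hv⟩ := key
    exact hR a b mW e F m p n v c hF hp he hv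

end Pool.Agent.Vx

end

section

/-!
# MP_afe918_an, item Nec: necessity of the condition
-/

set_option autoImplicit false

open Complex Set Filter Topology MeasureTheory Metric
open scoped Real ContDiff

namespace Pool.Agent.Vx

theorem Nec_per {α : Type} {a b : ℝ} {f : ℂ → α} (h : Per a b f) {w : ℂ} (hw : Lat a b w)
    (z : ℂ) : f (z + w) = f z := by
  obtain ⟨m, k, rfl⟩ := hw
  have h1 : Function.Periodic f (a : ℂ) := fun z => (h z).1
  have h2 : Function.Periodic f ((b : ℂ) * I) := fun z => (h z).2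
  have h3 : Function.Periodic f (m * (a : ℂ)) := h1.int_mul m
  have h4 : Function.Periodic f (k * ((b : ℂ) * I)) := h2.int_mul k
  have h5 := (h3.add_period h4) z
  rw [show (m : ℂ) * a + k * b * I = m * a + k * (b * I) by ring]
  exact h5

theorem Nec_loc {a b mW e : ℝ} {m : ℕ} {p : Fin m → ℂ} {n : Fin m → ℕ} {u : ℂ → ℝ}
    (hu : IsSol a b mW e p n u) (z : ℂ) : ∃ C : ℝ, ∀ᶠ w in 𝓝[≠] z, Real.exp (u w) ≤ C := by
  by_cases hz : ∀ l, ¬ Lat a b (z - p l)
  · have hc : ContinuousAt (fun w => Real.exp (u w)) z :=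
      Real.continuous_exp.continuousAt.comp (hu.smooth z hz).continuousAt
    refine ⟨Real.exp (u z) + 1, ?_⟩
    have h1 : ∀ᶠ w in 𝓝 z, Real.exp (u w) < Real.exp (u z) + 1 :=
      hc.eventually_lt_const (lt_add_one _)
    exact (h1.filter_mono nhdsWithin_le_nhds).mono fun w hw => hw.le
  · push Not at hz
    obtain ⟨l, hl⟩ := hz
    obtain ⟨U, hU, hev⟩ := hu.sing l
    have hb : ∃ C : ℝ, ∀ᶠ w in 𝓝[≠] (p l), Real.exp (u w) ≤ C := by
      have hc : ContinuousAt (fun w => ‖w - p l‖ ^ (2 * n l) * Real.exp (U w)) (p l) :=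
        (((continuous_id.sub continuous_const).norm.pow _).continuousAt).mul
          (Real.continuous_exp.continuousAt.comp hU.continuousAt)
      refine ⟨‖p l - p l‖ ^ (2 * n l) * Real.exp (U (p l)) + 1, ?_⟩
      have h0 : ∀ᶠ w in 𝓝 (p l), ‖w - p l‖ ^ (2 * n l) * Real.exp (U w) <
          ‖p l - p l‖ ^ (2 * n l) * Real.exp (U (p l)) + 1 :=
        hc.eventually_lt_const (lt_add_one _)
      filter_upwards [hev, h0.filter_mono nhdsWithin_le_nhds, self_mem_nhdsWithin] with w h1 h2 h3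
      have hpos : 0 < ‖w - p l‖ := norm_pos_iff.2 (sub_ne_zero.2 h3)
      have h4 : Real.exp (2 * n l * Real.log ‖w - p l‖) = ‖w - p l‖ ^ (2 * n l) := by
        rw [show (2 : ℝ) * n l * Real.log ‖w - p l‖ =
          ((2 * n l : ℕ) : ℝ) * Real.log ‖w - p l‖ by push_cast; ring, Real.exp_nat_mul,
          Real.exp_log hpos]
      rw [h1, Real.exp_add, h4]
      exact h2.le
    obtain ⟨C, hC⟩ := hb
    refine ⟨C, ?_⟩
    have ht : Tendsto (fun w : ℂ => w - (z - p l)) (𝓝[≠] z) (𝓝[≠] (p l)) := by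
      refine tendsto_nhdsWithin_iff.2 ⟨?_, ?_⟩
      · have h5 : Tendsto (fun w : ℂ => w - (z - p l)) (𝓝 z) (𝓝 (z - (z - p l))) :=
          tendsto_id.sub tendsto_const_nhds
        rw [sub_sub_cancel] at h5
        exact h5.mono_left nhdsWithin_le_nhds
      · filter_upwards [self_mem_nhdsWithin] with w hw h
        apply hw
        have h6 : w - (z - p l) = p l := h
        have h7 : w = z := by linear_combination h6
        exact h7
    filter_upwards [ht.eventually hC] with w hw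
    have h8 := Nec_per hu.per hl (w - (z - p l))
    rw [sub_add_cancel] at h8
    rwa [h8]

theorem Nec_bdd {a b mW e : ℝ} {m : ℕ} {p : Fin m → ℂ} {n : Fin m → ℕ} {u : ℂ → ℝ}
    (hu : IsSol a b mW e p n u) (K : Set ℂ) (hK : IsCompact K) :
    ∃ (C : ℝ) (F : Set ℂ), F.Finite ∧ ∀ w ∈ K, w ∉ F → Real.exp (u w) ≤ C := by
  refine hK.induction_on (p := fun S => ∃ (C : ℝ) (F : Set ℂ), F.Finite ∧
    ∀ w ∈ S, w ∉ F → Real.exp (u w) ≤ C) ?_ ?_ ?_ ?_
  · exact ⟨0, ∅, finite_empty, fun w hw => absurd hw (notMem_empty w)⟩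
  · rintro s t hst ⟨C, F, hF, h⟩
    exact ⟨C, F, hF, fun w hw => h w (hst hw)⟩
  · rintro s t ⟨C, F, hF, h⟩ ⟨C', F', hF', h'⟩
    refine ⟨max C C', F ∪ F', hF.union hF', fun w hw hwF => ?_⟩
    rw [mem_union, not_or] at hwF
    rcases hw with hw | hw
    · exact (h w hw hwF.1).trans (le_max_left _ _)
    · exact (h' w hw hwF.2).trans (le_max_right _ _)
  · intro x _
    obtain ⟨C, hC⟩ := Nec_loc hu x
    rw [eventually_nhdsWithin_iff] at hC
    refine ⟨_, mem_nhdsWithin_of_mem_nhds hC, C, {x}, finite_singleton x, fun w hw hwx => ?_⟩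
    exact hw hwx

theorem Nec_cell {a b : ℝ} (ha : 0 < a) : volume (cell a b) = ENNReal.ofReal (a * b) := by
  have h1 : cell a b = Complex.measurableEquivRealProd ⁻¹' (Ico 0 a ×ˢ Ico 0 b) := by
    ext z
    simp only [cell, mem_ofPred_eq, mem_preimage, mem_prod, mem_Ico,
      Complex.measurableEquivRealProd_apply]
    tauto
  rw [h1, Complex.volume_preserving_equiv_real_prod.measure_preimage_equiv,
    Measure.volume_eq_prod, Measure.prod_prod, Real.volume_Ico, Real.volume_Ico, sub_zero,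
    sub_zero, ENNReal.ofReal_mul ha.le]

theorem Nec_meas (a b : ℝ) : MeasurableSet (cell a b) := by
  unfold cell
  have h1 := measurableSet_le (measurable_const (a := (0 : ℝ))) Complex.measurable_re
  have h2 := measurableSet_lt Complex.measurable_re (measurable_const (a := a))
  have h3 := measurableSet_le (measurable_const (a := (0 : ℝ))) Complex.measurable_im
  have h4 := measurableSet_lt Complex.measurable_im (measurable_const (a := b))
  exact h1.inter (h2.inter (h3.inter h4))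

theorem Nec_aesm {a b mW e : ℝ} {m : ℕ} {p : Fin m → ℂ} {n : Fin m → ℕ} {u : ℂ → ℝ}
    (hu : IsSol a b mW e p n u) : AEStronglyMeasurable (fun z => Real.exp (u z)) volume := by
  set W : Set ℂ := {z | ∀ l, ¬ Lat a b (z - p l)} with hW
  have hcount : Wᶜ.Countable := by
    have h1 : Wᶜ ⊆ ⋃ l : Fin m, range (fun q : ℤ × ℤ => p l + (q.1 * a + q.2 * b * I)) := by
      intro z hz
      rw [hW, mem_compl_iff, mem_ofPred_eq] at hz
      push Not at hz
      obtain ⟨l, j, k, hjk⟩ := hz
      refine mem_iUnion.2 ⟨l, (j, k), ?_⟩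
      simp only
      rw [← hjk]
      ring
    exact (countable_iUnion fun l => countable_range _).mono h1
  have hWm : MeasurableSet W := by
    rw [← compl_compl W]
    exact hcount.measurableSet.compl
  have hcont : ContinuousOn (fun z => Real.exp (u z)) W := by
    intro z hz
    exact (Real.continuous_exp.continuousAt.comp (hu.smooth z hz).continuousAt).continuousWithinAt
  have h2 : (volume : Measure ℂ).restrict W = volume := by
    refine Measure.restrict_eq_self_of_ae_mem ?_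
    have h3 : volume Wᶜ = 0 := hcount.measure_zero _
    exact mem_ae_iff.2 h3
  rw [← h2]
  exact hcont.aestronglyMeasurable hWm

theorem pr_Nec (_h1 : S_Ti) : S_Nec := by
  intro a b mW e m p n u ha hb he hD hu
  have hvol := Nec_cell (b := b) ha
  have hms := Nec_meas a b
  have hK : IsCompact (Icc 0 a ×ℂ Icc 0 b) := isCompact_Icc.reProdIm isCompact_Icc
  have hsub : cell a b ⊆ Icc 0 a ×ℂ Icc 0 b := by
    rintro z ⟨h1, h2, h3, h4⟩
    exact ⟨⟨h1, h2.le⟩, ⟨h3, h4.le⟩⟩
  obtain ⟨C, F, hF, hCF⟩ := Nec_bdd hu _ hK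
  have hfin : volume (cell a b) < ⊤ := by
    rw [hvol]
    exact ENNReal.ofReal_lt_top
  have hint : IntegrableOn (fun z => Real.exp (u z)) (cell a b) := by
    refine Measure.integrableOn_of_bounded (M := C) hfin.ne (Nec_aesm hu) ?_
    have h1 : ∀ᵐ z ∂(volume : Measure ℂ), z ∉ F := by
      rw [ae_iff]
      simp only [not_not]
      exact hF.countable.measure_zero _
    filter_upwards [ae_restrict_mem hms, ae_restrict_of_ae h1] with z hz hzF
    rw [Real.norm_of_nonneg (Real.exp_pos _).le]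
    exact hCF z (hsub hz) hzF
  have hone := hu.eq (fun _ => 1) contDiff_const fun z => ⟨rfl, rfl⟩
  have hlap : Laplacian.laplacian (fun _ : ℂ => (1 : ℝ)) = fun _ => 0 :=
    InnerProductSpace.laplacian_const
  have hpos : 0 < ∫ z in cell a b, Real.exp (u z) := by
    rw [setIntegral_pos_iff_support_of_nonneg_ae
      (Eventually.of_forall fun z => (Real.exp_pos _).le) hint]
    have : Function.support (fun z => Real.exp (u z)) = univ := by
      ext z
      simp [(Real.exp_pos (u z)).ne']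
    rw [this, univ_inter, hvol]
    exact ENNReal.ofReal_pos.2 (by positivity)
  rw [hlap] at hone
  simp only [mul_zero, integral_zero, mul_one] at hone
  have hconst : IntegrableOn (fun _ : ℂ => -2 * mW ^ 2) (cell a b) :=
    integrableOn_const hfin.ne
  have h6 : ∫ z in cell a b, 4 * e ^ 2 * Real.exp (u z) =
      4 * e ^ 2 * ∫ z in cell a b, Real.exp (u z) := integral_const_mul _ _
  rw [integral_sub hconst (hint.const_mul _), h6, setIntegral_const, Measure.real,
    hvol, ENNReal.toReal_ofReal (by positivity), smul_eq_mul] at hone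
  have hN : ((Nv n : ℕ) : ℝ) = ∑ l, (n l : ℝ) := by
    simp [Nv]
  rw [← hN] at hone
  rw [lt_div_iff₀ (by positivity)]
  have h5 : 0 < 4 * e ^ 2 * ∫ z in cell a b, Real.exp (u z) := by positivity
  nlinarith [h5, hone]

end Pool.Agent.Vx

end

section

/-!
# MP_afe918_an, item R1: the potential is smoother than the density
-/

set_option autoImplicit false

open Complex Set Filter Topology MeasureTheory Metric
open scoped Real ContDiff ComplexConjugate Convolution

namespace Pool.Agent.Vx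

namespace ItR1

lemma inv_li (h3 : S_Riesz) : LocallyIntegrable (fun t : ℂ => t⁻¹) := by
  intro x
  refine ⟨ball 0 (‖x‖ + 1), isOpen_ball.mem_nhds (by simp), ?_⟩
  have h := (h3 0 0 (‖x‖ + 1) (by positivity)).1
  refine Integrable.mono' h measurable_inv.aestronglyMeasurable ?_
  exact Eventually.of_forall fun y => by simp

/-- The potential of a compactly supported `C^k` density is `C^(k+1)`. -/
lemma pot_cs (h1 : S_PotD) (h3 : S_Riesz) (r s : ℝ) (g : ℂ → ℝ) (k : ℕ) (hr : 0 < r)
    (hsr : s < r) (hg : ContDiff ℝ k g) (hgs : ∀ y, s < ‖y‖ → g y = 0) :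
    ContDiff ℝ ((k : WithTop ℕ∞) + 1) (pot r g) := by
  have hc : Continuous g := hg.continuous
  obtain ⟨hd, -⟩ := h1 r g hr hc
  have hfd : fderiv ℝ (pot r g) = fun z =>
      (2 : ℝ) • Complex.reCLM.comp (ContinuousLinearMap.mul ℝ ℂ (dpot r g z)) := by
    funext z
    exact (hd z).fderiv
  rw [contDiff_succ_iff_fderiv]
  refine ⟨fun z => (hd z).differentiableAt, fun h => ?_, ?_⟩
  · exact absurd h (by simp)
  rw [hfd]
  have hcs : HasCompactSupport (fun y => (g y : ℂ)) := by
    refine HasCompactSupport.of_support_subset_isCompact (isCompact_closedBall (0 : ℂ) s) ?_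
    intro y hy
    by_contra hy2
    apply hy
    have : s < ‖y‖ := by simpa using hy2
    simp [hgs y this]
  have hconv : dpot r g = fun z => -(1 / (4 * (π : ℂ))) *
      ((fun t : ℂ => t⁻¹) ⋆[ContinuousLinearMap.mul ℝ ℂ, volume] (fun y => (g y : ℂ))) z := by
    funext z
    unfold dpot
    congr 1
    rw [setIntegral_eq_integral_of_forall_compl_eq_zero]
    · rw [convolution_def, ← integral_sub_left_eq_self (fun y => (g y : ℂ) / (z - y)) volume z]
      refine integral_congr_ae (Eventually.of_forall fun t => ?_)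
      simp only [sub_sub_cancel, ContinuousLinearMap.mul_apply']
      rw [div_eq_inv_mul]
    · intro y hy
      have : r ≤ ‖y‖ := by simpa using hy
      rw [hgs y (by linarith)]
      simp
  have hgc : ContDiff ℝ k (fun y => (g y : ℂ)) := Complex.ofRealCLM.contDiff.comp hg
  have hdp : ContDiff ℝ k (dpot r g) := by
    rw [hconv]
    exact contDiff_const.mul
      (hcs.contDiff_convolution_right (n := (k : ℕ∞)) (ContinuousLinearMap.mul ℝ ℂ)
        (inv_li h3) hgc)
  have e : (fun z => (2 : ℝ) • Complex.reCLM.comp (ContinuousLinearMap.mul ℝ ℂ (dpot r g z))) =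
      fun z => (2 : ℝ) • ((ContinuousLinearMap.compL ℝ ℂ ℂ ℝ Complex.reCLM)
        (ContinuousLinearMap.mul ℝ ℂ (dpot r g z))) := by
    funext z
    rfl
  rw [e]
  have h5 : ContDiff ℝ k (fun z => (ContinuousLinearMap.compL ℝ ℂ ℂ ℝ Complex.reCLM)
      (ContinuousLinearMap.mul ℝ ℂ (dpot r g z))) :=
    (ContinuousLinearMap.compL ℝ ℂ ℂ ℝ Complex.reCLM).contDiff.comp
      ((ContinuousLinearMap.mul ℝ ℂ).contDiff.comp hdp)
  exact h5.const_smul (2 : ℝ)

end ItR1

/-- R1: the potential is smoother than the density. -/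
theorem pr_R1 (h1 : S_PotD) (h2 : S_LogI) (h3 : S_Riesz) (h4 : S_Far) : S_R1 := by
  intro r E k hr hE hk
  obtain ⟨u, hu, hku⟩ := hk.contDiffOn (m := k) le_rfl (fun h => absurd h (by simp))
  obtain ⟨s0, hs0, hs0u⟩ := Metric.mem_nhds_iff.1 hu
  set s : ℝ := min s0 r with hs
  have hspos : 0 < s := lt_min hs0 hr
  have hsr : s ≤ r := min_le_right _ _
  have hss0 : s ≤ s0 := min_le_left _ _
  let χ : ContDiffBump (0 : ℂ) := ⟨s / 4, s / 2, by positivity, by linarith⟩
  have hχc : ContDiff ℝ k (χ : ℂ → ℝ) := χ.contDiff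
  have hχ0 : ∀ y : ℂ, s / 2 ≤ ‖y‖ → χ y = 0 := fun y hy => χ.zero_of_le_dist (by simpa using hy)
  have hχ1 : ∀ y : ℂ, ‖y‖ ≤ s / 4 → χ y = 1 := fun y hy =>
    χ.one_of_mem_closedBall (by simpa using hy)
  -- the smooth part
  have hg : ContDiff ℝ k (fun y => χ y * E y) := by
    rw [contDiff_iff_contDiffAt]
    intro x
    by_cases hx : ‖x‖ < s
    · refine hχc.contDiffAt.mul ?_
      exact (hku.mono hs0u).contDiffAt (isOpen_ball.mem_nhds (by
        simp only [mem_ball, dist_zero_right]; linarith))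
    · have hx2 : s / 2 < ‖x‖ := by
        rw [not_lt] at hx
        linarith
      refine (contDiffAt_const (c := (0 : ℝ))).congr_of_eventuallyEq ?_
      have : ∀ᶠ y : ℂ in 𝓝 x, s / 2 < ‖y‖ := continuous_norm.continuousAt.eventually_const_lt hx2
      filter_upwards [this] with y hy
      rw [hχ0 y hy.le, zero_mul]
  have hpg : ContDiff ℝ ((k : WithTop ℕ∞) + 1) (pot r (fun y => χ y * E y)) := by
    refine ItR1.pot_cs h1 h3 r (s / 2) _ k hr (by linarith) hg ?_
    intro y hy
    rw [hχ0 y hy.le, zero_mul]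
  -- the far part
  set E' : ℂ → ℝ := fun y => (1 - χ y) * E y with hE'
  have hE'c : Continuous E' := (continuous_const.sub χ.continuous).mul hE
  obtain ⟨G, hG, hG2, -⟩ := h4 0 (s / 4) r (ball 0 r \ ball 0 (s / 4)) E' (by positivity) hE'c
    (measurableSet_ball.diff measurableSet_ball) sdiff_subset disjoint_sdiff_left
  have hpE' : ∀ z ∈ ball (0 : ℂ) (s / 4), pot r E' z = 2 * (G z).re := by
    intro z hz
    rw [hG2 z hz]
    unfold pot
    congr 1
    simp only [zero_add]
    refine setIntegral_eq_of_subset_of_forall_sdiff_eq_zero measurableSet_ball sdiff_subset ?_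
    intro y hy
    have : ‖y‖ < s / 4 := by
      by_contra hc
      apply hy.2
      refine ⟨hy.1, ?_⟩
      simpa using hc
    rw [hE']
    simp [hχ1 y this.le]
  have hpfar : ContDiffAt ℝ ((k : WithTop ℕ∞) + 1) (pot r E') 0 := by
    have hb : ball (0 : ℂ) (s / 4) ∈ 𝓝 (0 : ℂ) := ball_mem_nhds _ (by positivity)
    have h5 : ContDiffAt ℂ ((k : WithTop ℕ∞) + 1) G 0 :=
      (hG.contDiffOn isOpen_ball).contDiffAt hb
    have h6 : ContDiffAt ℝ ((k : WithTop ℕ∞) + 1) (fun z => 2 * (G z).re) 0 :=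
      contDiffAt_const.mul (Complex.reCLM.contDiff.contDiffAt.comp 0 (h5.restrict_scalars ℝ))
    refine h6.congr_of_eventuallyEq ?_
    filter_upwards [hb] with z hz using hpE' z hz
  -- the sum
  have hsum : pot r E = fun z => pot r (fun y => χ y * E y) z + pot r E' z := by
    funext z
    have hint : ∀ f : ℂ → ℝ, Continuous f →
        IntegrableOn (fun y => Real.log ‖z - y‖ * f y) (ball (0 : ℂ) r) := by
      intro f hf
      obtain ⟨C, hC⟩ := (isCompact_closedBall (0 : ℂ) r).exists_bound_of_continuousOn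
        hf.continuousOn
      refine Integrable.mul_bdd (c := C) (h2 0 z r hr).1 hf.aestronglyMeasurable ?_
      rw [ae_restrict_iff' measurableSet_ball]
      exact Eventually.of_forall fun y hy => hC y (ball_subset_closedBall hy)
    unfold pot
    rw [← mul_add, ← integral_add (hint _ hg.continuous) (hint _ hE'c)]
    congr 1
    refine integral_congr_ae (Eventually.of_forall fun y => ?_)
    simp only [hE']
    ring
  rw [hsum]
  exact hpg.contDiffAt.add hpfar

end Pool.Agent.Vx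

end

section

/-!
# MP_afe918_an: smoothness of the weight and of the solution (item R2)
-/

set_option autoImplicit false

open Complex Set Filter Topology MeasureTheory Metric
open scoped Real ContDiff ComplexConjugate

namespace Pool.Agent.Vx

theorem R2_Sf {a b : ℝ} {F : ℂ → ℂ} (hF : IsTheta a b F) : ContDiff ℝ ∞ (Sf a b F) := by
  have h1 : ContDiff ℝ ∞ F := (hF.diff.contDiff (n := ∞)).restrict_scalars ℝ
  have h2 : ContDiff ℝ ∞ (fun z : ℂ => z.im) := Complex.imCLM.contDiff
  unfold Sf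
  apply ContDiff.mul (h1.norm_sq ℝ)
  apply Real.contDiff_exp.comp
  exact (contDiff_const.mul (h2.pow 2)).add (contDiff_const.mul h2)

theorem R2_hw {a b : ℝ} {F : ℂ → ℂ} {m : ℕ} (p : Fin m → ℂ) (n : Fin m → ℕ)
    (hF : IsTheta a b F) : ContDiff ℝ ∞ (hw a b F p n) := by
  unfold hw
  apply contDiff_prod
  intro l _
  apply ContDiff.pow
  exact (R2_Sf hF).comp (contDiff_id.sub contDiff_const)

theorem R2_re {h : ℂ → ℂ} {r : ℝ} (hr : 0 < r) (hh : DifferentiableOn ℂ h (ball 0 r)) :
    ContDiffAt ℝ ∞ (fun z => (h z).re) 0 := by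
  have h1 : ContDiffAt ℂ ∞ h 0 :=
    (hh.contDiffOn isOpen_ball).contDiffAt (ball_mem_nhds 0 hr)
  have h2 : ContDiffAt ℝ ∞ h 0 := h1.restrict_scalars ℝ
  exact Complex.reCLM.contDiff.contDiffAt.comp 0 h2

theorem pr_R2 (h1 : S_LocRep) (h2 : S_GHw) (h3 : S_R1) : S_R2 := by
  intro a b F m p n ρ v c hF hD hρ0 hρ1 hsol
  have ha := hF.apos
  have hb := hF.bpos
  have hab : 0 < a * b := mul_pos ha hb
  have hhw := R2_hw p n hF
  refine ⟨hhw, ?_⟩
  rw [contDiff_infty]
  intro k
  induction k with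
  | zero => exact contDiff_zero.mpr hsol.cont
  | succ k ih =>
    rw [contDiff_iff_contDiffAt]
    intro q
    -- the two local representations
    obtain ⟨r0, hr0, hrep⟩ := h1 a b F m p n hF hD q
    obtain ⟨r1, hr1, g, hg, hrep1⟩ := (h2 a b F m p n hF hD).2 q
    set r := min r0 r1 with hr
    have hrp : 0 < r := lt_min hr0 hr1
    obtain ⟨C, hC⟩ := hrep r hrp (min_le_left _ _)
    obtain ⟨h, hloc, -⟩ := hC ρ v c hρ0 hρ1 hsol
    set e := fun z => dE a b F p n v (q + z) with he
    have htr : ContDiff ℝ k (fun z : ℂ => q + z) := contDiff_const.add contDiff_id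
    have hek : ContDiffAt ℝ k e 0 := by
      have h4 : ContDiff ℝ k (hw a b F p n) := hhw.of_le (by exact_mod_cast le_top)
      have h5 : ContDiff ℝ k (dE a b F p n v) := h4.mul (Real.contDiff_exp.comp ih)
      exact (h5.comp htr).contDiffAt
    have hpot : ContDiffAt ℝ (k + 1) (pot r e) 0 := h3 r e k hrp hloc.cont hek
    -- the right side
    set R : ℂ → ℝ := fun z => 2 * (h z).re - 2 * (g z).re +
      (π * Nv n / (a * b) - (4 * π * Nv n - ρ) / (a * b) / 4) * ‖z‖ ^ 2 + pot r e z with hR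
    have hle : ((k : WithTop ℕ∞) + 1) ≤ ∞ := by exact_mod_cast le_top
    have hRd : ContDiffAt ℝ (k + 1) R 0 := by
      have h6 : ContDiffAt ℝ (k + 1) (fun z => (h z).re) 0 :=
        (R2_re hrp hloc.an).of_le hle
      have h7 : ContDiffAt ℝ (k + 1) (fun z => (g z).re) 0 := (R2_re hr1 hg).of_le hle
      have h8 : ContDiffAt ℝ (k + 1) (fun z : ℂ => ‖z‖ ^ 2) 0 :=
        (contDiff_norm_sq ℝ).contDiffAt
      exact (((contDiffAt_const.mul h6).sub (contDiffAt_const.mul h7)).add
        (contDiffAt_const.mul h8)).add hpot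
    have hne : ∀ z ∈ ball (0 : ℂ) r, z ≠ 0 → v (q + z) = R z := by
      intro z hz hz0
      have h4 := hloc.rep z hz
      have h5 := hrep1 z (ball_subset_ball (min_le_right _ _) hz)
      simp only [he, dE] at h4
      rw [h5, mul_assoc] at h4
      have hzn : (0 : ℝ) < ‖z‖ ^ (2 * nq a b p n q) := pow_pos (norm_pos_iff.mpr hz0) _
      have h6 := mul_left_cancel₀ hzn.ne' h4
      rw [← Real.exp_add] at h6
      have h7 := Real.exp_injective h6
      simp only [hR, he, dE]
      have h8 : (π * Nv n / (a * b) - (4 * π * Nv n - ρ) / (a * b) / 4) * ‖z‖ ^ 2 =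
        π * Nv n / (a * b) * ‖z‖ ^ 2 - (4 * π * Nv n - ρ) / (a * b) / 4 * ‖z‖ ^ 2 := by ring
      rw [h8]
      linarith
    have hvc : ContinuousAt (fun z => v (q + z)) 0 :=
      (hsol.cont.comp (continuous_const.add continuous_id)).continuousAt
    have hRc : ContinuousAt R 0 := hRd.continuousAt
    have hev : (fun z => v (q + z)) =ᶠ[𝓝[≠] 0] R := by
      filter_upwards [self_mem_nhdsWithin,
        mem_nhdsWithin_of_mem_nhds (ball_mem_nhds (0 : ℂ) hrp)] with z hz0 hz
      exact hne z hz hz0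
    have h0 : v (q + 0) = R 0 := by
      have h4 : Tendsto (fun z => v (q + z)) (𝓝[≠] 0) (𝓝 (v (q + 0))) :=
        hvc.tendsto.mono_left nhdsWithin_le_nhds
      have h5 : Tendsto R (𝓝[≠] 0) (𝓝 (R 0)) := hRc.tendsto.mono_left nhdsWithin_le_nhds
      exact tendsto_nhds_unique h4 (h5.congr' hev.symm)
    have hall : (fun z => v (q + z)) =ᶠ[𝓝 0] R := by
      filter_upwards [ball_mem_nhds (0 : ℂ) hrp] with z hz
      by_cases hz0 : z = 0
      · rw [hz0]; exact h0
      · exact hne z hz hz0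
    have hvq : ContDiffAt ℝ (k + 1) (fun z => v (q + z)) 0 := hRd.congr_of_eventuallyEq hall
    have hfin : ContDiffAt ℝ (k + 1) ((fun z => v (q + z)) ∘ (fun y : ℂ => y - q)) q := by
      apply ContDiffAt.comp
      · rw [sub_self]; exact hvq
      · exact (contDiff_id.sub contDiff_const).contDiffAt
    have heq : ((fun z => v (q + z)) ∘ (fun y : ℂ => y - q)) = v := by
      funext y
      simp
    rw [heq] at hfin
    exact_mod_cast hfin

end Pool.Agent.Vx

end

section

/-!
# MP_afe918_an, items R3, R5, R6: integrals of continuous functions over the torus (helper61)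
-/

set_option autoImplicit false

open Complex Set Filter Topology MeasureTheory Metric
open scoped Real ContDiff ComplexConjugate

namespace Pool.Agent.Vx

variable {E : Type*} [NormedAddCommGroup E] [NormedSpace ℝ E]

omit [NormedSpace ℝ E] in
/-- Continuous functions are integrable over period rectangles. -/
theorem R3_int (a b : ℝ) (q : ℂ) {f : ℂ → E} (hf : Continuous f) :
    IntegrableOn f (rect a b q) := by
  have hsub : rect a b q ⊆ Icc (q.re - a / 2) (q.re + a / 2) ×ℂ
      Icc (q.im - b / 2) (q.im + b / 2) := by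
    intro z hz
    have h1 := abs_lt.1 hz.1
    have h2 := abs_lt.1 hz.2
    exact ⟨⟨by linarith, by linarith⟩, ⟨by linarith, by linarith⟩⟩
  exact (hf.continuousOn.integrableOn_compact (isCompact_Icc.reProdIm isCompact_Icc)).mono_set hsub

/-- The rectangle as a product of intervals. -/
theorem R3_pre (a b : ℝ) : rect a b 0 =
    Complex.measurableEquivRealProd ⁻¹' (Ioo (-(a / 2)) (a / 2) ×ˢ Ioo (-(b / 2)) (b / 2)) := by
  ext z
  simp only [rect, mem_ofPred_eq, Complex.zero_re, sub_zero, Complex.zero_im, mem_preimage,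
    mem_prod, Complex.measurableEquivRealProd_apply, mem_Ioo, abs_lt]

/-- The integral as an integral over a product. -/
theorem R3_prod (a b : ℝ) (f : ℂ → E) : ∫ z in rect a b 0, f z =
    ∫ p in Ioo (-(a / 2)) (a / 2) ×ˢ Ioo (-(b / 2)) (b / 2), f (p.1 + p.2 * I) := by
  have h := Complex.volume_preserving_equiv_real_prod.setIntegral_preimage_emb
    Complex.measurableEquivRealProd.measurableEmbedding
    (fun p : ℝ × ℝ => f (p.1 + p.2 * I))
    (Ioo (-(a / 2)) (a / 2) ×ˢ Ioo (-(b / 2)) (b / 2))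
  rw [← R3_pre] at h
  rw [← h]
  refine integral_congr_ae (Filter.Eventually.of_forall fun z => ?_)
  simp only [Complex.measurableEquivRealProd_apply, Complex.re_add_im]

omit [NormedSpace ℝ E] in
theorem R3_intp (a b : ℝ) {f : ℂ → E} (hf : Continuous f) :
    IntegrableOn (fun p : ℝ × ℝ => f (p.1 + p.2 * I))
      (Ioo (-(a / 2)) (a / 2) ×ˢ Ioo (-(b / 2)) (b / 2)) := by
  have hc : Continuous (fun p : ℝ × ℝ => f (p.1 + p.2 * I)) := hf.comp (by fun_prop)
  refine (hc.continuousOn.integrableOn_compact (isCompact_Icc.prod isCompact_Icc)).mono_set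
    (prod_mono Ioo_subset_Icc_self Ioo_subset_Icc_self)

/-- Fubini, `x` outside. -/
theorem R3_xy [CompleteSpace E] {a b : ℝ} (ha : 0 < a) (hb : 0 < b) {f : ℂ → E}
    (hf : Continuous f) : ∫ z in rect a b 0, f z =
    ∫ x in (-(a / 2))..(a / 2), ∫ y in (-(b / 2))..(b / 2), f (x + y * I) := by
  rw [R3_prod, Measure.volume_eq_prod, setIntegral_prod _ (by
    rw [← Measure.volume_eq_prod]; exact R3_intp a b hf),
    intervalIntegral.integral_of_le (by linarith), integral_Ioc_eq_integral_Ioo]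
  refine integral_congr_ae (Filter.Eventually.of_forall fun x => ?_)
  dsimp only
  rw [intervalIntegral.integral_of_le (by linarith), integral_Ioc_eq_integral_Ioo]

/-- Fubini, `y` outside. -/
theorem R3_yx [CompleteSpace E] {a b : ℝ} (ha : 0 < a) (hb : 0 < b) {f : ℂ → E}
    (hf : Continuous f) : ∫ z in rect a b 0, f z =
    ∫ y in (-(b / 2))..(b / 2), ∫ x in (-(a / 2))..(a / 2), f (x + y * I) := by
  rw [R3_prod, Measure.volume_eq_prod, ← setIntegral_prod_swap, setIntegral_prod _ (by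
    have := (R3_intp a b hf).swap
    rw [← Measure.volume_eq_prod]
    exact this),
    intervalIntegral.integral_of_le (by linarith), integral_Ioc_eq_integral_Ioo]
  refine integral_congr_ae (Filter.Eventually.of_forall fun x => ?_)
  dsimp only
  rw [intervalIntegral.integral_of_le (by linarith), integral_Ioc_eq_integral_Ioo]
  rfl

end Pool.Agent.Vx

end

section

/-!
# MP_afe918_an, item R4: convolution with the Green function
-/

set_option autoImplicit false

open Complex Set Filter Topology MeasureTheory Metric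
open scoped Real ContDiff ComplexConjugate

namespace Pool.Agent.Vx

theorem R4_trans (h2 : S_Ti) (a b : ℝ) (f : ℂ → ℝ) (ha : 0 < a) (hb : 0 < b) (hf : Per a b f)
    (x : ℂ) :
    (IntegrableOn (fun w => f (w + x)) (rect a b 0) ↔ IntegrableOn f (rect a b 0)) ∧
    ti a b (fun w => f (w + x)) = ti a b f := by
  have h := h2 a b f ha hb hf x
  have hs := GTr_shift a b f x
  exact ⟨hs.1.symm.trans h.1, hs.2.symm.trans h.2.1⟩

theorem R4_per_int {a b : ℝ} {f : ℂ → ℝ} (h : Per a b f) (m k : ℤ) (z : ℂ) :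
    f (z + m * a + k * b * I) = f z := by
  have h1 : Function.Periodic f (a : ℂ) := fun z => (h z).1
  have h2 : Function.Periodic f ((b : ℂ) * I) := fun z => (h z).2
  rw [mul_assoc]
  exact (h2.int_mul k (z + m * a)).trans (h1.int_mul m z)

theorem R4_bdd {a b : ℝ} (ha : 0 < a) (hb : 0 < b) {f : ℂ → ℝ} (hf : Continuous f)
    (hp : Per a b f) : ∃ C, ∀ z, ‖f z‖ ≤ C := by
  have hK : IsCompact (Icc (0 : ℝ) a ×ℂ Icc (0 : ℝ) b) := isCompact_Icc.reProdIm isCompact_Icc
  obtain ⟨C, hC⟩ := hK.bddAbove_image hf.norm.continuousOn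
  refine ⟨C, fun z => ?_⟩
  set m : ℤ := ⌊z.re / a⌋ with hm
  set k : ℤ := ⌊z.im / b⌋ with hk
  set w : ℂ := ⟨z.re - m * a, z.im - k * b⟩ with hw
  have hz : w + m * a + k * b * I = z := by
    apply Complex.ext
    · simp [hw]
    · simp [hw]
  rw [← hz, R4_per_int hp m k w]
  refine hC ⟨w, ?_, rfl⟩
  rw [Complex.mem_reProdIm]
  have e1 : (m : ℝ) * a ≤ z.re := by
    rw [← le_div_iff₀ ha]
    exact Int.floor_le _
  have e2 : z.re < ((m : ℝ) + 1) * a := by
    rw [← div_lt_iff₀ ha]
    exact Int.lt_floor_add_one _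
  have e3 : (k : ℝ) * b ≤ z.im := by
    rw [← le_div_iff₀ hb]
    exact Int.floor_le _
  have e4 : z.im < ((k : ℝ) + 1) * b := by
    rw [← div_lt_iff₀ hb]
    exact Int.lt_floor_add_one _
  refine ⟨⟨?_, ?_⟩, ⟨?_, ?_⟩⟩
  · simp only [hw]; linarith
  · simp only [hw]; linarith
  · simp only [hw]; linarith
  · simp only [hw]; linarith

theorem R4_rect_fin (a b : ℝ) : volume (rect a b 0) < ⊤ := by
  refine lt_of_le_of_lt (measure_mono (t := ball (0 : ℂ) ((a + b) / 2)) fun z hz => ?_)
    measure_ball_lt_top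
  have := GTr_rect_sub a b z hz
  simpa using this

/-- odd functions have integral zero over the centred rectangle -/
theorem R4_odd (a b : ℝ) (f : ℂ → ℝ) (hf : ∀ z, f (-z) = -f z) : ti a b f = 0 := by
  have e : (fun w : ℂ => -w) ⁻¹' (rect a b 0) = rect a b 0 := by
    ext w; simp [rect]
  have mp : MeasurePreserving (fun w : ℂ => -w) volume volume :=
    Measure.measurePreserving_neg (volume : Measure ℂ)
  have me : MeasurableEmbedding (fun w : ℂ => -w) := (MeasurableEquiv.neg ℂ).measurableEmbedding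
  have h1 : ∫ z in rect a b 0, f (-z) = ∫ z in rect a b 0, f z := by
    have := mp.setIntegral_preimage_emb me f (rect a b 0)
    rwa [e] at this
  have h2 : ∫ z in rect a b 0, f (-z) = - ∫ z in rect a b 0, f z := by
    rw [← integral_neg]
    exact integral_congr_ae (ae_of_all _ fun z => hf z)
  have h3 : ti a b f = ∫ z in rect a b 0, f z := rfl
  rw [h3]
  linarith

theorem R4_ph_add (a b : ℝ) (ξ : ℤ × ℤ) (z w : ℂ) : ph a b ξ (z + w) = ph a b ξ z + ph a b ξ w := by
  simp only [ph, add_re, add_im]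
  ring

theorem R4_ph_neg (a b : ℝ) (ξ : ℤ × ℤ) (z : ℂ) : ph a b ξ (-z) = - ph a b ξ z := by
  simp only [ph, neg_re, neg_im]
  ring

theorem R4_ph_cont (a b : ℝ) (ξ : ℤ × ℤ) : Continuous (ph a b ξ) := by
  unfold ph
  have h1 : Continuous Complex.re := Complex.continuous_re
  have h2 : Continuous Complex.im := Complex.continuous_im
  fun_prop

theorem R4_md_cont (a b : ℝ) (i : (ℤ × ℤ) × Bool) : Continuous (md a b i) := by
  have h := R4_ph_cont a b i.1
  unfold md
  split_ifs
  · exact Real.continuous_sin.comp h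
  · exact Real.continuous_cos.comp h

theorem R4_md_per {a b : ℝ} (ha : 0 < a) (hb : 0 < b) (i : (ℤ × ℤ) × Bool) :
    Per a b (md a b i) := by
  intro z
  have h1 : ph a b i.1 (z + a) = ph a b i.1 z + i.1.1 * (2 * π) := by
    simp only [ph, add_re, add_im, ofReal_re, ofReal_im]
    field_simp
    ring
  have h2 : ph a b i.1 (z + b * I) = ph a b i.1 z + i.1.2 * (2 * π) := by
    simp only [ph, add_re, add_im, mul_re, mul_im, ofReal_re, ofReal_im, I_re, I_im]
    field_simp
    ring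
  unfold md
  rw [h1, h2]
  split_ifs
  · exact ⟨Real.sin_add_int_mul_two_pi _ _, Real.sin_add_int_mul_two_pi _ _⟩
  · exact ⟨Real.cos_add_int_mul_two_pi _ _, Real.cos_add_int_mul_two_pi _ _⟩

/-- Basic facts on the Green function. -/
structure R4_Facts (a b : ℝ) (G : ℂ → ℝ) : Prop where
  apos : 0 < a
  bpos : 0 < b
  per : Per a b G
  even : ∀ z, G (-z) = G z
  meas : Measurable G
  integ : IntegrableOn G (rect a b 0)

theorem R4_facts (h1 : S_GGr) (h4 : S_GSf) {a b : ℝ} {F : ℂ → ℂ} (hT : IsTheta a b F) :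
    R4_Facts a b (Gr a b F) := by
  obtain ⟨hper, heven, -, -, -⟩ := h1 a b F hT
  obtain ⟨hc, -, -, -⟩ := h4 a b F hT
  refine ⟨hT.apos, hT.bpos, hper, heven, ?_, hT.integ⟩
  unfold Gr
  exact (Real.measurable_log.comp hc.measurable).const_mul _

section

variable {a b : ℝ} {G : ℂ → ℝ}

theorem R4_sym (h : R4_Facts a b G) (x y : ℂ) : G (x - y) = G (y - x) := by
  rw [← h.even, neg_sub]

theorem R4_int (h2 : S_Ti) (h : R4_Facts a b G) (x : ℂ) :
    IntegrableOn (fun y => G (x - y)) (rect a b 0) := by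
  have h3 := ((R4_trans h2 a b G h.apos h.bpos h.per (-x)).1).2 h.integ
  refine h3.congr_fun (fun y _ => ?_) (GTr_rect_meas a b 0)
  show G (y + -x) = G (x - y)
  rw [R4_sym h, sub_eq_add_neg]

theorem R4_abs (h2 : S_Ti) (h : R4_Facts a b G) (x : ℂ) :
    ∫ y in rect a b 0, ‖G (x - y)‖ = ti a b (fun y => ‖G y‖) := by
  have hp : Per a b (fun y => ‖G y‖) := fun z => by
    simp only [(h.per z).1, (h.per z).2, and_self]
  rw [← (R4_trans h2 a b _ h.apos h.bpos hp (-x)).2, ti]
  refine integral_congr_ae (ae_of_all _ fun y => ?_)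
  show ‖G (x - y)‖ = ‖G (y + -x)‖
  rw [R4_sym h, sub_eq_add_neg]

theorem R4_prod (h2 : S_Ti) (h : R4_Facts a b G) :
    Integrable (fun p : ℂ × ℂ => G (p.1 - p.2))
      (((volume : Measure ℂ).restrict (rect a b 0)).prod ((volume : Measure ℂ).restrict (rect a b 0))) := by
  have hm : Measurable (fun p : ℂ × ℂ => G (p.1 - p.2)) :=
    h.meas.comp (measurable_fst.sub measurable_snd)
  have : IsFiniteMeasure ((volume : Measure ℂ).restrict (rect a b 0)) := ⟨by
    rw [Measure.restrict_apply_univ]; exact R4_rect_fin a b⟩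
  rw [integrable_prod_iff hm.aestronglyMeasurable]
  refine ⟨ae_of_all _ fun x => R4_int h2 h x, ?_⟩
  have h3 : (fun x : ℂ => ∫ y in rect a b 0, ‖G (x - y)‖) = fun _ => ti a b (fun y => ‖G y‖) := by
    funext x
    exact R4_abs h2 h x
  show Integrable (fun x : ℂ => ∫ y in rect a b 0, ‖G (x - y)‖) _
  rw [h3]
  exact integrable_const _

/-- Convolution. -/
noncomputable def R4_c (a b : ℝ) (G g : ℂ → ℝ) (x : ℂ) : ℝ := ti a b (fun y => G (x - y) * g y)

theorem R4_intm (h2 : S_Ti) (h : R4_Facts a b G) {g : ℂ → ℝ} (hg : Continuous g)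
    (hp : Per a b g) (x : ℂ) : IntegrableOn (fun y => G (x - y) * g y) (rect a b 0) := by
  obtain ⟨C, hC⟩ := R4_bdd h.apos h.bpos hg hp
  exact (R4_int h2 h x).mul_bdd hg.aestronglyMeasurable (ae_of_all _ hC)

theorem R4_swap (h2 : S_Ti) (h : R4_Facts a b G) {g g' : ℂ → ℝ} (hg : Continuous g)
    (hp : Per a b g) (hg' : Continuous g') (hp' : Per a b g') :
    ti a b (fun z => R4_c a b G g z * g' z) = ti a b (fun z => g z * R4_c a b G g' z) := by
  obtain ⟨C, hC⟩ := R4_bdd h.apos h.bpos hg hp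
  obtain ⟨C', hC'⟩ := R4_bdd h.apos h.bpos hg' hp'
  set μ : Measure ℂ := (volume : Measure ℂ).restrict (rect a b 0) with hμ
  have hI : Integrable (fun p : ℂ × ℂ => G (p.1 - p.2) * (g p.2 * g' p.1)) (μ.prod μ) := by
    refine (R4_prod h2 h).mul_bdd (c := C * C') ?_ (ae_of_all _ fun p => ?_)
    · exact ((hg.comp continuous_snd).mul (hg'.comp continuous_fst)).aestronglyMeasurable
    · rw [norm_mul]
      exact mul_le_mul (hC _) (hC' _) (norm_nonneg _) (le_trans (norm_nonneg _) (hC 0))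
  have h3 : ti a b (fun z => R4_c a b G g z * g' z) =
      ∫ x, ∫ y, G (x - y) * (g y * g' x) ∂μ ∂μ := by
    refine integral_congr_ae (ae_of_all _ fun x => ?_)
    show (∫ y, G (x - y) * g y ∂μ) * g' x = _
    rw [← integral_mul_const]
    refine integral_congr_ae (ae_of_all _ fun y => ?_)
    show G (x - y) * g y * g' x = G (x - y) * (g y * g' x)
    ring
  have h4 : ti a b (fun z => g z * R4_c a b G g' z) =
      ∫ y, ∫ x, G (x - y) * (g y * g' x) ∂μ ∂μ := by
    refine integral_congr_ae (ae_of_all _ fun y => ?_)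
    show g y * (∫ x, G (y - x) * g' x ∂μ) = _
    rw [← integral_const_mul]
    refine integral_congr_ae (ae_of_all _ fun x => ?_)
    show g y * (G (y - x) * g' x) = G (x - y) * (g y * g' x)
    rw [R4_sym h x y]
    ring
  rw [h3, h4]
  exact integral_integral_swap hI

theorem R4_one (h2 : S_Ti) (h : R4_Facts a b G) (hm : ti a b G = 0) (x : ℂ) :
    R4_c a b G (fun _ => 1) x = 0 := by
  have h3 := (R4_trans h2 a b G h.apos h.bpos h.per (-x)).2
  rw [hm] at h3
  rw [← h3]
  refine integral_congr_ae (ae_of_all _ fun y => ?_)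
  show G (x - y) * 1 = G (y + -x)
  rw [R4_sym h, sub_eq_add_neg, mul_one]

theorem R4_shift (h2 : S_Ti) (h : R4_Facts a b G) {g : ℂ → ℝ} (hp : Per a b g) (x : ℂ) :
    R4_c a b G g x = ti a b (fun t => G t * g (t + x)) := by
  have hper : Per a b (fun y => G (x - y) * g y) := by
    intro z
    have h3 : G (x - (z + a)) = G (x - z) := by
      have := (h.per (x - (z + a))).1
      rw [← this]
      congr 1
      ring
    have h4 : G (x - (z + b * I)) = G (x - z) := by
      have := (h.per (x - (z + b * I))).2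
      rw [← this]
      congr 1
      ring
    simp only [h3, h4, (hp z).1, (hp z).2, and_self]
  have h3 := (R4_trans h2 a b _ h.apos h.bpos hper x).2
  rw [R4_c, ← h3]
  refine integral_congr_ae (ae_of_all _ fun t => ?_)
  show G (x - (t + x)) * g (t + x) = G t * g (t + x)
  rw [show x - (t + x) = -t by ring, h.even]

theorem R4_cos (h2 : S_Ti) (h : R4_Facts a b G) (ξ : ℤ × ℤ) (hξ : ξ ≠ 0)
    (hf : ∀ ξ : ℤ × ℤ, ξ ≠ 0 → ti a b (fun z => G z * Real.cos (ph a b ξ z)) = 1 / nu a b ξ)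
    (t : Bool) (x : ℂ) : R4_c a b G (md a b (ξ, t)) x = 1 / nu a b ξ * md a b (ξ, t) x := by
  have hsin : ti a b (fun z => G z * Real.sin (ph a b ξ z)) = 0 := by
    refine R4_odd a b _ fun z => ?_
    rw [h.even, R4_ph_neg, Real.sin_neg]
    ring
  have hcos := hf ξ hξ
  have hcI : IntegrableOn (fun z => G z * Real.cos (ph a b ξ z)) (rect a b 0) :=
    h.integ.mul_bdd (c := 1) (Real.continuous_cos.comp (R4_ph_cont a b ξ)).aestronglyMeasurable
      (ae_of_all _ fun z => Real.abs_cos_le_one _)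
  have hsI : IntegrableOn (fun z => G z * Real.sin (ph a b ξ z)) (rect a b 0) :=
    h.integ.mul_bdd (c := 1) (Real.continuous_sin.comp (R4_ph_cont a b ξ)).aestronglyMeasurable
      (ae_of_all _ fun z => Real.abs_sin_le_one _)
  rw [R4_shift h2 h (R4_md_per h.apos h.bpos _)]
  cases t with
  | false =>
    have e : (fun t => G t * md a b (ξ, false) (t + x)) = fun t =>
        Real.cos (ph a b ξ x) * (G t * Real.cos (ph a b ξ t)) -
        Real.sin (ph a b ξ x) * (G t * Real.sin (ph a b ξ t)) := by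
      funext t
      simp only [md, R4_ph_add, Real.cos_add]
      ring_nf
      simp
      ring
    rw [e, ti, integral_sub (hcI.const_mul _) (hsI.const_mul _), integral_const_mul,
      integral_const_mul]
    change Real.cos (ph a b ξ x) * ti a b (fun z => G z * Real.cos (ph a b ξ z)) -
      Real.sin (ph a b ξ x) * ti a b (fun z => G z * Real.sin (ph a b ξ z)) = _
    rw [hcos, hsin]
    simp [md]
    ring
  | true =>
    have e : (fun t => G t * md a b (ξ, true) (t + x)) = fun t =>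
        Real.cos (ph a b ξ x) * (G t * Real.sin (ph a b ξ t)) +
        Real.sin (ph a b ξ x) * (G t * Real.cos (ph a b ξ t)) := by
      funext t
      simp only [md, R4_ph_add, Real.sin_add]
      ring_nf
      simp
      ring
    rw [e, ti, integral_add (hsI.const_mul _) (hcI.const_mul _), integral_const_mul,
      integral_const_mul]
    change Real.cos (ph a b ξ x) * ti a b (fun z => G z * Real.sin (ph a b ξ z)) +
      Real.sin (ph a b ξ x) * ti a b (fun z => G z * Real.cos (ph a b ξ z)) = _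
    rw [hcos, hsin]
    simp [md]
    ring

end

theorem pr_R4 (h1 : S_GGr) (h2 : S_GTr) (h3 : S_Ti) (h4 : S_GSf) : S_R4 := by
  intro a b F g g' hT hg hp hg' hp'
  have h := R4_facts h1 h4 hT
  have hc : ∀ (g : ℂ → ℝ), cG a b F g = R4_c a b (Gr a b F) g := fun g => rfl
  obtain ⟨C, hC⟩ := R4_bdd h.apos h.bpos hg hp
  have hC0 : 0 ≤ C := le_trans (norm_nonneg _) (hC 0)
  refine ⟨?_, ?_, ?_, ?_, ?_⟩
  · rw [Metric.continuous_iff]
    intro x ε hε
    obtain ⟨δ, hδ, hδ'⟩ := h2 a b F hT (ε / (2 * (C + 1))) (by positivity)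
    refine ⟨δ, hδ, fun x' hx' => ?_⟩
    rw [dist_eq_norm] at hx'
    obtain ⟨hI, hle⟩ := hδ' x' x hx'
    rw [Real.dist_eq]
    have e : cG a b F g x' - cG a b F g x =
        ∫ y in rect a b 0, (Gr a b F (x' - y) - Gr a b F (x - y)) * g y := by
      rw [cG, cG, ti, ti, ← integral_sub (R4_intm h3 h hg hp x') (R4_intm h3 h hg hp x)]
      exact integral_congr_ae (ae_of_all _ fun y => by
        show _ - _ = _
        ring)
    rw [e]
    calc |∫ y in rect a b 0, (Gr a b F (x' - y) - Gr a b F (x - y)) * g y|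
        ≤ ∫ y in rect a b 0, |Gr a b F (x' - y) - Gr a b F (x - y)| * C := by
          rw [← Real.norm_eq_abs]
          refine norm_integral_le_of_norm_le (hI.mul_const C) (ae_of_all _ fun y => ?_)
          rw [norm_mul, Real.norm_eq_abs]
          exact mul_le_mul_of_nonneg_left (hC y) (abs_nonneg _)
      _ = C * ti a b (fun y => |Gr a b F (x' - y) - Gr a b F (x - y)|) := by
          rw [integral_mul_const, mul_comm]
          rfl
      _ ≤ C * (ε / (2 * (C + 1))) := mul_le_mul_of_nonneg_left hle hC0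
      _ < ε := by
          rw [mul_div_assoc', div_lt_iff₀ (by positivity)]
          nlinarith
  · intro z
    have e1 : ∀ y, Gr a b F (z + a - y) = Gr a b F (z - y) := by
      intro y
      rw [show z + a - y = (z - y) + a by ring]
      exact (h.per _).1
    have e2 : ∀ y, Gr a b F (z + b * I - y) = Gr a b F (z - y) := by
      intro y
      rw [show z + b * I - y = (z - y) + b * I by ring]
      exact (h.per _).2
    simp only [cG, e1, e2, and_self]
  · have h5 := R4_swap h3 h hg hp (g' := fun _ => (1 : ℝ)) continuous_const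
      (fun z => ⟨rfl, rfl⟩)
    have h6 : R4_c a b (Gr a b F) (fun _ => (1 : ℝ)) = fun _ => 0 := by
      funext x
      exact R4_one h3 h hT.mean x
    rw [h6] at h5
    simp only [mul_one, mul_zero] at h5
    rw [hc, show R4_c a b (Gr a b F) g = fun z => R4_c a b (Gr a b F) g z from rfl, h5]
    simp [ti]
  · intro ξ t hξ
    rw [hc, R4_swap h3 h hg hp (R4_md_cont a b _) (R4_md_per h.apos h.bpos _)]
    have h6 : R4_c a b (Gr a b F) (md a b (ξ, t)) = fun x => 1 / nu a b ξ * md a b (ξ, t) x := by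
      funext x
      exact R4_cos h3 h ξ hξ hT.fcos t x
    rw [h6]
    show (∫ z in rect a b 0, g z * (1 / nu a b ξ * md a b (ξ, t) z)) =
      1 / nu a b ξ * ∫ z in rect a b 0, g z * md a b (ξ, t) z
    rw [← integral_const_mul]
    refine integral_congr_ae (ae_of_all _ fun z => ?_)
    show g z * (1 / nu a b ξ * md a b (ξ, t) z) = 1 / nu a b ξ * (g z * md a b (ξ, t) z)
    ring
  · exact R4_swap h3 h hg hp hg' hp'

end Pool.Agent.Vx

end

section

/-!
# MP_afe918_an, item Reg (R7): solutions of the integral equation solve the vortex equation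
-/

set_option autoImplicit false

open Complex Set Filter Topology MeasureTheory Metric
open scoped Real ContDiff ComplexConjugate

namespace Pool.Agent.Vx

theorem Reg_rect_sub (a b : ℝ) : rect a b 0 ⊆ closedBall (0 : ℂ) ((a + b) / 2) := by
  intro z hz
  have h1 : |z.re| < a / 2 := by simpa using hz.1
  have h2 : |z.im| < b / 2 := by simpa using hz.2
  rw [mem_closedBall_zero_iff]
  have := Complex.norm_le_abs_re_add_abs_im z
  linarith

theorem Reg_int_cont (a b : ℝ) {f : ℂ → ℝ} (hf : Continuous f) : IntegrableOn f (rect a b 0) :=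
  (hf.continuousOn.integrableOn_compact (isCompact_closedBall 0 ((a + b) / 2))).mono_set
    (Reg_rect_sub a b)

theorem Reg_int_Gr {a b : ℝ} {F : ℂ → ℂ} (hG : ∀ T : ℝ, IntegrableOn (Gr a b F) (ball 0 T))
    (q : ℂ) {f : ℂ → ℝ} (hf : Continuous f) :
    IntegrableOn (fun z => Gr a b F (z - q) * f z) (rect a b 0) := by
  have h1 : IntegrableOn (fun z => Gr a b F (z - q)) (closedBall (0 : ℂ) ((a + b) / 2)) := by
    have h2 : IntegrableOn (Gr a b F ∘ fun z : ℂ => z - q)
        ((fun z : ℂ => z - q) ⁻¹' ball 0 ((a + b) / 2 + ‖q‖ + 1)) := by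
      rw [(measurePreserving_sub_right volume q).integrableOn_comp_preimage
        (MeasurableEquiv.subRight q).measurableEmbedding]
      exact hG _
    refine IntegrableOn.mono_set h2 fun z hz => ?_
    rw [mem_preimage, mem_ball_zero_iff]
    rw [mem_closedBall_zero_iff] at hz
    have := norm_sub_le z q
    linarith
  exact (h1.mul_continuousOn hf.continuousOn (isCompact_closedBall _ _)).mono_set
    (Reg_rect_sub a b)

theorem Reg_ti_sub {a b : ℝ} {f g : ℂ → ℝ} (hf : IntegrableOn f (rect a b 0))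
    (hg : IntegrableOn g (rect a b 0)) : ti a b (fun z => f z - g z) = ti a b f - ti a b g :=
  integral_sub hf hg

theorem Reg_ti_add {a b : ℝ} {f g : ℂ → ℝ} (hf : IntegrableOn f (rect a b 0))
    (hg : IntegrableOn g (rect a b 0)) : ti a b (fun z => f z + g z) = ti a b f + ti a b g :=
  integral_add hf hg

theorem Reg_ti_mul {a b : ℝ} (c : ℝ) (f : ℂ → ℝ) : ti a b (fun z => c * f z) = c * ti a b f :=
  integral_const_mul c f

theorem Reg_ti_neg {a b : ℝ} (f : ℂ → ℝ) : ti a b (fun z => -f z) = -ti a b f :=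
  integral_neg f

theorem Reg_ti_congr {a b : ℝ} {f g : ℂ → ℝ} (h : ∀ z, f z = g z) : ti a b f = ti a b g := by
  rw [funext h]

theorem Reg_ti_ae {a b : ℝ} {f g : ℂ → ℝ} (h : ∀ᵐ z : ℂ, f z = g z) : ti a b f = ti a b g :=
  integral_congr_ae (ae_restrict_of_ae h)

theorem Reg_ti_sum {a b : ℝ} {m : ℕ} {f : Fin m → ℂ → ℝ}
    (hf : ∀ l, IntegrableOn (f l) (rect a b 0)) :
    ti a b (fun z => ∑ l, f l z) = ∑ l, ti a b (f l) :=
  integral_finset_sum _ fun l _ => hf l

theorem Reg_nq {m : ℕ} {a b : ℝ} {p : Fin m → ℂ} (n : Fin m → ℕ) (hd : Dist a b p) (l : Fin m) :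
    nq a b p n (p l) = n l := by
  unfold nq
  rw [Finset.sum_eq_single l]
  · rw [if_pos]
    exact ⟨0, 0, by simp⟩
  · intro l' _ hl'
    rw [if_neg]
    exact hd l l' (Ne.symm hl')
  · intro h
    exact absurd (Finset.mem_univ l) h

theorem Reg_null {m : ℕ} (a b : ℝ) (p : Fin m → ℂ) :
    ∀ᵐ z : ℂ, ∀ l, ¬ Lat a b (z - p l) := by
  have h1 : ({z : ℂ | ∃ l, Lat a b (z - p l)} : Set ℂ).Countable := by
    have h2 : ({z : ℂ | ∃ l, Lat a b (z - p l)} : Set ℂ) ⊆
        ⋃ l : Fin m, Set.range fun mk : ℤ × ℤ => p l + (mk.1 * a + mk.2 * b * I) := by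
      rintro z ⟨l, i, j, hij⟩
      refine Set.mem_iUnion.mpr ⟨l, (i, j), ?_⟩
      show p l + ((i : ℂ) * a + (j : ℂ) * b * I) = z
      rw [← hij]
      ring
    exact (Set.countable_iUnion fun l => Set.countable_range _).mono h2
  have h3 := h1.measure_zero volume
  rw [measure_eq_zero_iff_ae_notMem] at h3
  filter_upwards [h3] with z hz l hl
  exact hz ⟨l, hl⟩

/-- the singular part -/
theorem Reg_sing {m : ℕ} {a b : ℝ} {F : ℂ → ℂ} {p : Fin m → ℂ} {n : Fin m → ℕ} {v : ℂ → ℝ}
    (K : ℝ) (hv : ContDiff ℝ ∞ v) (l : Fin m) {r0 : ℝ} (hr0 : 0 < r0) {g : ℂ → ℂ} (N : ℝ)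
    (hg : DifferentiableOn ℂ g (ball 0 r0))
    (hrep : ∀ z ∈ ball (0 : ℂ) r0, hw a b F p n (p l + z) =
      ‖z‖ ^ (2 * n l) * Real.exp (2 * (g z).re - N * ‖z‖ ^ 2)) :
    ∃ U : ℂ → ℝ, ContDiffAt ℝ ∞ U (p l) ∧
    ∀ᶠ z in 𝓝[≠] (p l), Real.log (hw a b F p n z) + v z - K =
      2 * n l * Real.log ‖z - p l‖ + U z := by
  refine ⟨fun z => 2 * (g (z - p l)).re - N * ‖z - p l‖ ^ 2 + v z - K, ?_, ?_⟩
  · have h1 : ContDiffAt ℂ ∞ g 0 :=
      (hg.contDiffOn isOpen_ball).contDiffAt (ball_mem_nhds 0 hr0)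
    have h2 : ContDiffAt ℝ ∞ g ((fun z : ℂ => z - p l) (p l)) := by
      have : (fun z : ℂ => z - p l) (p l) = 0 := sub_self _
      rw [this]
      exact h1.restrict_scalars ℝ
    have h3 : ContDiffAt ℝ ∞ (fun z : ℂ => z - p l) (p l) := contDiffAt_id.sub contDiffAt_const
    have h4 : ContDiffAt ℝ ∞ (fun z : ℂ => g (z - p l)) (p l) :=
      ContDiffAt.comp (f := fun z : ℂ => z - p l) (p l) h2 h3
    have h5 : ContDiffAt ℝ ∞ (fun z : ℂ => (g (z - p l)).re) (p l) :=
      (Complex.reCLM.contDiff.contDiffAt).comp (p l) h4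
    have h6 : ContDiffAt ℝ ∞ (fun z : ℂ => ‖z - p l‖ ^ 2) (p l) := h3.norm_sq ℝ
    exact (((contDiffAt_const.mul h5).sub (contDiffAt_const.mul h6)).add hv.contDiffAt).sub
      contDiffAt_const
  · have h1 : ∀ᶠ z in 𝓝[≠] (p l), z ∈ ball (p l) r0 :=
      nhdsWithin_le_nhds (ball_mem_nhds _ hr0)
    filter_upwards [h1, self_mem_nhdsWithin] with z hz hz2
    have hz3 : z - p l ≠ 0 := sub_ne_zero.mpr hz2
    have hz4 : z - p l ∈ ball (0 : ℂ) r0 := by
      rw [mem_ball_zero_iff, ← dist_eq_norm]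
      exact hz
    have h2 := hrep (z - p l) hz4
    rw [add_sub_cancel] at h2
    have h3 : ‖z - p l‖ ^ (2 * n l) ≠ 0 := pow_ne_zero _ (norm_ne_zero_iff.mpr hz3)
    rw [h2, Real.log_mul h3 (Real.exp_pos _).ne', Real.log_pow, Real.log_exp]
    push_cast
    ring

theorem Reg_log {m : ℕ} {a b : ℝ} {F : ℂ → ℂ} {p : Fin m → ℂ} {n : Fin m → ℕ}
    (hSf : ∀ z, Sf a b F z = 0 ↔ Lat a b z) {z : ℂ} (hz : ∀ l, ¬ Lat a b (z - p l)) :
    Real.log (hw a b F p n z) = ∑ l, (-(4 * π) * n l) * Gr a b F (z - p l) := by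
  unfold hw
  rw [Real.log_prod]
  · refine Finset.sum_congr rfl fun l _ => ?_
    rw [Real.log_pow, Gr]
    have := Real.pi_pos
    field_simp
  · intro l _
    exact pow_ne_zero _ fun h => hz l ((hSf _).mp h)

theorem pr_Reg (h1 : S_R2) (h2 : S_R3) (h3 : S_R4) (h4 : S_R6) (h5 : S_GHw) (h6 : S_GGr)
    (h7 : S_GSf) (h8 : S_Ti) : S_Reg := by
  intro a b mW e F m p n v c hθ hd he hs
  have ha := hθ.apos
  have hb := hθ.bpos
  obtain ⟨⟨hwc, hwper, hw0, _, hwpos⟩, hwloc⟩ := h5 a b F m p n hθ hd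
  obtain ⟨_, hGe, _, _, hGi⟩ := h6 a b F hθ
  obtain ⟨_, _, hSf0, _⟩ := h7 a b F hθ
  have hE0 : ∀ z, 0 ≤ dE a b F p n v z := fun z => mul_nonneg (hw0 z) (Real.exp_pos _).le
  have hEc : Continuous (dE a b F p n v) := hwc.mul (Real.continuous_exp.comp hs.cont)
  have hEp : Per a b (dE a b F p n v) := by
    intro z
    unfold dE
    rw [(hwper z).1, (hwper z).2, (hs.per z).1, (hs.per z).2]
    exact ⟨rfl, rfl⟩
  have hab : 0 < a * b := mul_pos ha hb
  have hρ0 : 0 ≤ 4 * π * Nv n - 2 * mW ^ 2 * (a * b) := by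
    rw [← hs.mass]
    exact integral_nonneg hE0
  have hρ1 : 4 * π * Nv n - 2 * mW ^ 2 * (a * b) ≤ 4 * π * Nv n := by
    have : 0 ≤ mW ^ 2 * (a * b) := by positivity
    linarith
  obtain ⟨hws, hvs⟩ := h1 a b F m p n _ v c hθ hd hρ0 hρ1 hs
  have hK : (0 : ℝ) < 4 * e ^ 2 := by positivity
  refine ⟨fun z => Real.log (hw a b F p n z) + v z - Real.log (4 * e ^ 2), ?_, ?_, ?_, ?_⟩
  · intro z
    simp only [(hwper z).1, (hwper z).2, (hs.per z).1, (hs.per z).2, and_self]
  · intro z hz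
    exact ((hws.contDiffAt.log (hwpos z hz).ne').add hvs.contDiffAt).sub contDiffAt_const
  · intro l
    obtain ⟨r0, hr0, g, hg, hrep⟩ := hwloc (p l)
    rw [Reg_nq n hd l] at hrep
    exact Reg_sing (Real.log (4 * e ^ 2)) hvs l hr0 _ hg hrep
  · intro φ hφ hφp
    obtain ⟨hψc, hψp, hψ0, _⟩ := h2 a b φ ha hb hφ hφp
    set ψ : ℂ → ℝ := Laplacian.laplacian φ with hψ
    have hcell : ∀ f : ℂ → ℝ, Per a b f → ∫ z in cell a b, f z = ti a b f :=
      fun f hf => (h8 a b f ha hb hf 0).2.2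
    rw [hcell (fun z => (Real.log (hw a b F p n z) + v z - Real.log (4 * e ^ 2)) * ψ z)
      (fun z => by simp only [(hwper z).1, (hwper z).2, (hs.per z).1, (hs.per z).2,
        (hψp z).1, (hψp z).2, and_self]),
      hcell (fun z => (-2 * mW ^ 2 - 4 * e ^ 2 *
        Real.exp (Real.log (hw a b F p n z) + v z - Real.log (4 * e ^ 2))) * φ z)
      (fun z => by simp only [(hwper z).1, (hwper z).2, (hs.per z).1, (hs.per z).2,
        (hφp z).1, (hφp z).2, and_self])]
    have hae := Reg_null a b p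
    have hφc : Continuous φ := hφ.continuous
    -- the right side
    have hR : ti a b (fun z => (-2 * mW ^ 2 - 4 * e ^ 2 *
        Real.exp (Real.log (hw a b F p n z) + v z - Real.log (4 * e ^ 2))) * φ z) =
        -2 * mW ^ 2 * ti a b φ - ti a b (fun z => dE a b F p n v z * φ z) := by
      have e1 : ti a b (fun z => (-2 * mW ^ 2 - 4 * e ^ 2 *
          Real.exp (Real.log (hw a b F p n z) + v z - Real.log (4 * e ^ 2))) * φ z) =
          ti a b (fun z => -2 * mW ^ 2 * φ z - dE a b F p n v z * φ z) := by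
        refine Reg_ti_ae ?_
        filter_upwards [hae] with z hz
        have hp := hwpos z hz
        have e2 : 4 * e ^ 2 * Real.exp (Real.log (hw a b F p n z) + v z - Real.log (4 * e ^ 2)) =
            dE a b F p n v z := by
          rw [Real.exp_sub, Real.exp_add, Real.exp_log hp, Real.exp_log hK, dE]
          field_simp
        rw [e2]
        ring
      rw [e1, Reg_ti_sub (f := fun z => -2 * mW ^ 2 * φ z)
        (g := fun z => dE a b F p n v z * φ z) (Reg_int_cont a b (continuous_const.mul hφc))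
        (Reg_int_cont a b (hEc.mul hφc)), Reg_ti_mul]
    -- the left side
    have hcG : ∀ l, ti a b (fun z => Gr a b F (z - p l) * ψ z) =
        -φ (p l) + 1 / (a * b) * ti a b φ := by
      intro l
      rw [← h4 a b F φ hθ hφ hφp (p l), cG]
      refine Reg_ti_congr fun y => ?_
      have : p l - y = -(y - p l) := by ring
      rw [this, hGe]
    have hL1 : ti a b (fun z =>
        (Real.log (hw a b F p n z) + v z - Real.log (4 * e ^ 2)) * ψ z) =
        (∑ l, (-(4 * π) * n l) * ti a b (fun z => Gr a b F (z - p l) * ψ z)) +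
          ti a b (fun z => v z * ψ z) - Real.log (4 * e ^ 2) * ti a b ψ := by
      have e1 : ti a b (fun z =>
          (Real.log (hw a b F p n z) + v z - Real.log (4 * e ^ 2)) * ψ z) =
          ti a b (fun z => (∑ l, (-(4 * π) * n l) * (Gr a b F (z - p l) * ψ z)) + v z * ψ z -
            Real.log (4 * e ^ 2) * ψ z) := by
        refine Reg_ti_ae ?_
        filter_upwards [hae] with z hz
        rw [Reg_log hSf0 hz, sub_mul, add_mul, Finset.sum_mul]
        congr 2
        refine Finset.sum_congr rfl fun l _ => ?_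
        ring
      have i1 : ∀ l, IntegrableOn (fun z => (-(4 * π) * n l) * (Gr a b F (z - p l) * ψ z))
          (rect a b 0) := fun l => (Reg_int_Gr hGi (p l) hψc).const_mul _
      have i2 : IntegrableOn (fun z => ∑ l, (-(4 * π) * n l) * (Gr a b F (z - p l) * ψ z))
          (rect a b 0) := integrable_finset_sum _ fun l _ => i1 l
      have i3 : IntegrableOn (fun z => v z * ψ z) (rect a b 0) :=
        Reg_int_cont a b (hs.cont.mul hψc)
      have i4 : IntegrableOn (fun z => Real.log (4 * e ^ 2) * ψ z) (rect a b 0) :=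
        Reg_int_cont a b (continuous_const.mul hψc)
      have i5 : IntegrableOn (fun z => (∑ l, (-(4 * π) * n l) * (Gr a b F (z - p l) * ψ z)) +
          v z * ψ z) (rect a b 0) := i2.add i3
      rw [e1, Reg_ti_sub i5 i4, Reg_ti_add i2 i3, Reg_ti_sum i1, Reg_ti_mul]
      congr 2
      refine Finset.sum_congr rfl fun l _ => ?_
      exact Reg_ti_mul _ _
    obtain ⟨hcc, _, _, _, hsym⟩ := h3 a b F (dE a b F p n v) ψ hθ hEc hEp hψc hψp
    have hL2 : ti a b (fun z => v z * ψ z) =
        -ti a b (fun z => dE a b F p n v z * φ z) +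
          1 / (a * b) * ti a b φ * (4 * π * Nv n - 2 * mW ^ 2 * (a * b)) := by
      have e1 : ti a b (fun z => v z * ψ z) =
          ti a b (fun z => c * ψ z + cG a b F (dE a b F p n v) z * ψ z) := by
        refine Reg_ti_congr fun z => ?_
        rw [hs.eq z, add_mul]
        rfl
      have e2 : ti a b (fun z => c * ψ z + cG a b F (dE a b F p n v) z * ψ z) =
          c * ti a b ψ + ti a b (fun z => cG a b F (dE a b F p n v) z * ψ z) := by
        rw [Reg_ti_add (f := fun z => c * ψ z)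
          (g := fun z => cG a b F (dE a b F p n v) z * ψ z)
          (Reg_int_cont a b (continuous_const.mul hψc)) (Reg_int_cont a b (hcc.mul hψc)),
          Reg_ti_mul]
      have e3 : ti a b (fun z => dE a b F p n v z * cG a b F ψ z) =
          ti a b (fun z => -(dE a b F p n v z * φ z) +
            1 / (a * b) * ti a b φ * dE a b F p n v z) := by
        refine Reg_ti_congr fun z => ?_
        rw [h4 a b F φ hθ hφ hφp z]
        ring
      have e4 : ti a b (fun z => -(dE a b F p n v z * φ z) +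
            1 / (a * b) * ti a b φ * dE a b F p n v z) =
          -ti a b (fun z => dE a b F p n v z * φ z) +
            1 / (a * b) * ti a b φ * ti a b (dE a b F p n v) := by
        have i1 : IntegrableOn (fun z => -(dE a b F p n v z * φ z)) (rect a b 0) :=
          (Reg_int_cont a b (hEc.mul hφc)).neg
        have i2 : IntegrableOn (fun z => 1 / (a * b) * ti a b φ * dE a b F p n v z)
            (rect a b 0) := Reg_int_cont a b (continuous_const.mul hEc)
        rw [Reg_ti_add i1 i2, Reg_ti_neg, Reg_ti_mul]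
      rw [e1, e2, hψ0, mul_zero, zero_add, hsym, e3, e4, hs.mass]
    rw [hR, hL1, hψ0, mul_zero, sub_zero, hL2]
    have hsum : ∑ l, (-(4 * π) * n l) * ti a b (fun z => Gr a b F (z - p l) * ψ z) =
        4 * π * ∑ l, n l * φ (p l) - 4 * π * Nv n * (1 / (a * b) * ti a b φ) := by
      have e1 : (Nv n : ℝ) = ∑ l, (n l : ℝ) := by
        unfold Nv
        push_cast
        rfl
      rw [e1, Finset.mul_sum, Finset.mul_sum, Finset.sum_mul, ← Finset.sum_sub_distrib]
      refine Finset.sum_congr rfl fun l _ => ?_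
      rw [hcG l]
      ring
    rw [hsum]
    field_simp
    ring

end Pool.Agent.Vx

end

section

/-!
# MP_afe918_an, item TExt: concentration set on the torus
-/

set_option autoImplicit false

open Complex Set Filter Topology MeasureTheory Metric
open scoped Real ContDiff ComplexConjugate

namespace Pool.Agent.Vx

theorem TExt_intOn {f : ℂ → ℝ} (hf : Continuous f) (q : ℂ) (s : ℝ) :
    IntegrableOn f (ball q s) :=
  (hf.continuousOn.integrableOn_compact (isCompact_closedBall q s)).mono_set ball_subset_closedBall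

theorem TExt_intRect {f : ℂ → ℝ} (a b : ℝ) (hf : Continuous f) (q : ℂ) :
    IntegrableOn f (rect a b q) := by
  have : rect a b q ⊆ closedBall q (a / 2 + b / 2) := by
    intro z hz
    simp only [rect, mem_ofPred_eq] at hz
    rw [mem_closedBall, dist_eq_norm]
    refine (Complex.norm_le_abs_re_add_abs_im _).trans ?_
    rw [Complex.sub_re, Complex.sub_im]
    linarith [hz.1, hz.2]
  exact (hf.continuousOn.integrableOn_compact (isCompact_closedBall _ _)).mono_set this

/-- A lattice period. -/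
theorem TExt_per {f : ℂ → ℝ} {a b : ℝ} (hf : Per a b f) {t : ℂ} (ht : Lat a b t) (z : ℂ) :
    f (z + t) = f z := by
  obtain ⟨m, k, rfl⟩ := ht
  have h1 : Function.Periodic f (a : ℂ) := fun z => (hf z).1
  have h2 : Function.Periodic f (b * I : ℂ) := fun z => (hf z).2
  have h3 : Function.Periodic f ((m : ℂ) * a) := h1.int_mul m
  have h4 : Function.Periodic f ((k : ℂ) * (b * I)) := h2.int_mul k
  have h5 := h3.add_period h4
  have h6 := h5 z
  rw [← h6]
  congr 1
  ring

theorem TExt_ball (f : ℂ → ℝ) (x : ℂ) (s : ℝ) :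
    ∫ z in ball x s, f z = ∫ z in ball (0 : ℂ) s, f (x + z) := by
  have h1 : MeasurePreserving (fun z : ℂ => x + z) volume volume :=
    measurePreserving_add_left volume x
  have h2 : MeasurableEmbedding (fun z : ℂ => x + z) := measurableEmbedding_addLeft x
  have h3 : (fun z : ℂ => x + z) ⁻¹' (ball x s) = ball 0 s := by
    ext z
    simp [mem_ball, dist_eq_norm]
  rw [← h3, h1.setIntegral_preimage_emb h2]

theorem TExt_ball_tr {f : ℂ → ℝ} {a b : ℝ} (hf : Per a b f) {t : ℂ} (ht : Lat a b t) (x : ℂ)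
    (s : ℝ) : ∫ z in ball (x + t) s, f z = ∫ z in ball x s, f z := by
  rw [TExt_ball, TExt_ball f x s]
  refine integral_congr_ae (Eventually.of_forall fun z => ?_)
  have := TExt_per hf ht (x + z)
  show f (x + t + z) = f (x + z)
  rw [← this]
  congr 1
  ring

theorem TExt_cell_norm {a b : ℝ} {q : ℂ} (hq : q ∈ cell a b) : ‖q‖ < a + b := by
  simp only [cell, mem_ofPred_eq] at hq
  obtain ⟨h1, h2, h3, h4⟩ := hq
  refine (Complex.norm_le_abs_re_add_abs_im q).trans_lt ?_
  rw [abs_of_nonneg h1, abs_of_nonneg h3]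
  linarith

theorem TExt_red {a b : ℝ} (ha : 0 < a) (hb : 0 < b) (x : ℂ) :
    ∃ t, Lat a b t ∧ x + t ∈ cell a b := by
  refine ⟨(-⌊x.re / a⌋ : ℤ) * a + (-⌊x.im / b⌋ : ℤ) * b * I, ⟨_, _, rfl⟩, ?_⟩
  have e1 := Int.floor_le (x.re / a)
  have e2 := Int.lt_floor_add_one (x.re / a)
  have e3 := Int.floor_le (x.im / b)
  have e4 := Int.lt_floor_add_one (x.im / b)
  rw [le_div_iff₀ ha] at e1
  rw [div_lt_iff₀ ha] at e2
  rw [le_div_iff₀ hb] at e3
  rw [div_lt_iff₀ hb] at e4
  simp only [cell, mem_ofPred_eq]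
  have r1 : (x + (((-⌊x.re / a⌋ : ℤ) : ℂ) * a + ((-⌊x.im / b⌋ : ℤ) : ℂ) * b * I)).re
      = x.re - ⌊x.re / a⌋ * a := by
    simp
    ring
  have r2 : (x + (((-⌊x.re / a⌋ : ℤ) : ℂ) * a + ((-⌊x.im / b⌋ : ℤ) : ℂ) * b * I)).im
      = x.im - ⌊x.im / b⌋ * b := by
    simp
    ring
  rw [r1, r2]
  refine ⟨?_, ?_, ?_, ?_⟩ <;> linarith

theorem TExt_cell_inj {a b : ℝ} (ha : 0 < a) (hb : 0 < b) {q q' : ℂ} (hq : q ∈ cell a b)
    (hq' : q' ∈ cell a b) (h : Lat a b (q - q')) : q = q' := by
  simp only [cell, mem_ofPred_eq] at hq hq'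
  obtain ⟨m, k, h⟩ := h
  have h1 : q.re - q'.re = m * a := by
    have := congrArg Complex.re h
    simpa using this
  have h2 : q.im - q'.im = k * b := by
    have := congrArg Complex.im h
    simpa using this
  have m0 : m = 0 := by
    have u1 : (m : ℝ) * a < 1 * a := by linarith [hq.2.1, hq'.1]
    have u2 : (-1 : ℝ) * a < m * a := by linarith [hq'.2.1, hq.1]
    have u3 := lt_of_mul_lt_mul_right u1 ha.le
    have u4 := lt_of_mul_lt_mul_right u2 ha.le
    have u5 : m < 1 := by exact_mod_cast u3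
    have u6 : -1 < m := by exact_mod_cast u4
    omega
  have k0 : k = 0 := by
    have u1 : (k : ℝ) * b < 1 * b := by linarith [hq.2.2.2, hq'.2.2.1]
    have u2 : (-1 : ℝ) * b < k * b := by linarith [hq'.2.2.2, hq.2.2.1]
    have u3 := lt_of_mul_lt_mul_right u1 hb.le
    have u4 := lt_of_mul_lt_mul_right u2 hb.le
    have u5 : k < 1 := by exact_mod_cast u3
    have u6 : -1 < k := by exact_mod_cast u4
    omega
  subst m0 k0
  have : q - q' = 0 := by rw [h]; simp
  exact sub_eq_zero.mp this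

/-- The measures. -/
noncomputable def TExt_mu (T : ℝ) (f : ℂ → ℝ) : Measure ℂ :=
  (volume.restrict (ball (0 : ℂ) T)).withDensity (fun z => ENNReal.ofReal (f z))

theorem TExt_mu_ball {T : ℝ} {f : ℂ → ℝ} (hf : Continuous f) (h0 : ∀ z, 0 ≤ f z) {q : ℂ} {s : ℝ}
    (hq : ball q s ⊆ ball 0 T) : TExt_mu T f (ball q s) = ENNReal.ofReal (∫ z in ball q s, f z) := by
  unfold TExt_mu
  rw [withDensity_apply _ measurableSet_ball, Measure.restrict_restrict measurableSet_ball,
    Set.inter_eq_left.mpr hq,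
    ofReal_integral_eq_lintegral_ofReal (TExt_intOn hf q s) (Eventually.of_forall h0)]

theorem TExt_cover (a b T : ℝ) (ha : 0 < a) (hb : 0 < b) :
    ∃ t : Finset ℂ, ball (0 : ℂ) T ⊆ ⋃ x ∈ t, rect a b x := by
  obtain ⟨t, -, ht⟩ := (isCompact_closedBall (0 : ℂ) T).elim_nhds_subcover (fun x => rect a b x)
    (fun x _ => (cUp_rect_open a b x).mem_nhds (by
      simp only [rect, mem_ofPred_eq, sub_self, abs_zero]
      exact ⟨by linarith, by linarith⟩))
  exact ⟨t, ball_subset_closedBall.trans ht⟩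

theorem TExt_mass (h2 : S_Ti) {a b M0 T : ℝ} (ha : 0 < a) (hb : 0 < b) {f : ℂ → ℝ}
    (hf : Continuous f) (h0 : ∀ z, 0 ≤ f z) (hp : Per a b f) (hM : ti a b f ≤ M0) {t : Finset ℂ}
    (ht : ball (0 : ℂ) T ⊆ ⋃ x ∈ t, rect a b x) :
    TExt_mu T f univ ≤ ENNReal.ofReal (t.card * M0) := by
  unfold TExt_mu
  rw [withDensity_apply _ MeasurableSet.univ, Measure.restrict_univ]
  calc ∫⁻ z in ball (0 : ℂ) T, ENNReal.ofReal (f z)
      ≤ ∫⁻ z in ⋃ x ∈ t, rect a b x, ENNReal.ofReal (f z) := lintegral_mono_set ht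
    _ ≤ ∑ x ∈ t, ∫⁻ z in rect a b x, ENNReal.ofReal (f z) := by
        have h := measure_biUnion_finset_le
          (μ := (volume : Measure ℂ).withDensity (fun z => ENNReal.ofReal (f z))) t
          (fun x => rect a b x)
        rw [withDensity_apply _ (Finset.measurableSet_biUnion t fun x _ => cUp_rect_meas a b x)]
          at h
        refine h.trans (le_of_eq (Finset.sum_congr rfl fun x _ => ?_))
        rw [withDensity_apply _ (cUp_rect_meas a b x)]
    _ = ∑ x ∈ t, ENNReal.ofReal (ti a b f) := by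
        refine Finset.sum_congr rfl fun x _ => ?_
        rw [← ofReal_integral_eq_lintegral_ofReal (TExt_intRect a b hf x)
          (Eventually.of_forall h0), (h2 a b f ha hb hp x).2.1]
    _ ≤ ∑ x ∈ t, ENNReal.ofReal M0 := Finset.sum_le_sum fun x _ => ENNReal.ofReal_le_ofReal hM
    _ = ENNReal.ofReal (t.card * M0) := by
        rw [Finset.sum_const, nsmul_eq_mul, ENNReal.ofReal_mul (by positivity),
          ENNReal.ofReal_natCast]

open Classical in
theorem pr_TExt (h1 : S_Ext) (h2 : S_Ti) : S_TExt := by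
  intro a b M0 E ha hb hc h0 hp hM
  set T : ℝ := a + b + 1 with hT
  obtain ⟨t, ht⟩ := TExt_cover a b T ha hb
  have hM0 : 0 ≤ M0 := by
    refine le_trans ?_ (hM 0)
    exact setIntegral_nonneg (cUp_rect_meas a b 0) fun z _ => h0 0 z
  obtain ⟨φ, Q0, hφ, -, hQ1, hQ2⟩ := h1 (fun j => TExt_mu T (E j)) (t.card * M0) (by positivity)
    (fun j => TExt_mass h2 ha hb (hc j) (h0 j) (hp j) (hM j) ht)
  have hsub : ∀ q ∈ cell a b, ∀ s : ℝ, s ≤ 1 → ball q s ⊆ ball 0 T := by
    intro q hq s hs z hz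
    rw [mem_ball, dist_zero_right]
    rw [mem_ball, dist_eq_norm] at hz
    have h3 := TExt_cell_norm hq
    calc ‖z‖ = ‖(z - q) + q‖ := by congr 1; ring
      _ ≤ ‖z - q‖ + ‖q‖ := norm_add_le _ _
      _ < T := by linarith
  refine ⟨φ, Q0.filter (fun q => q ∈ cell a b), hφ, ?_, ?_, ?_⟩
  · intro q hq s hs
    rw [Finset.mem_filter] at hq
    have hs' : 0 < min s 1 := lt_min hs one_pos
    filter_upwards [hQ1 q hq.1 (min s 1) hs'] with j hj
    rw [TExt_mu_ball (hc _) (h0 _) (hsub q hq.2 _ (min_le_right _ _))] at hj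
    have h3 : (1 : ℝ) ≤ ∫ z in ball q (min s 1), E (φ j) z := by
      have := ENNReal.one_le_ofReal.mp hj
      exact this
    refine h3.trans ?_
    exact setIntegral_mono_set (TExt_intOn (hc _) q s) (Eventually.of_forall (h0 _))
      (LE.le.eventuallyLE (ball_subset_ball (min_le_left _ _)))
  · intro x hx
    obtain ⟨τ, hτ, hxτ⟩ := TExt_red ha hb x
    have hnot : x + τ ∉ Q0 := by
      intro hmem
      apply hx (x + τ) (Finset.mem_filter.mpr ⟨hmem, hxτ⟩)
      obtain ⟨m, k, h⟩ := hτ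
      refine ⟨-m, -k, ?_⟩
      rw [h]
      push_cast
      ring
    obtain ⟨s, hs, hev⟩ := hQ2 (x + τ) hnot
    refine ⟨min s 1, lt_min hs one_pos, ?_⟩
    filter_upwards [hev] with j hj
    have h3 : TExt_mu T (E (φ j)) (ball (x + τ) (min s 1)) ≤ 1 :=
      (measure_mono (ball_subset_ball (min_le_left _ _))).trans hj
    rw [TExt_mu_ball (hc _) (h0 _) (hsub _ hxτ _ (min_le_right _ _)), TExt_ball_tr (hp _) hτ] at h3
    exact ENNReal.ofReal_le_one.mp h3
  · intro q hq q' hq' hne hL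
    rw [Finset.mem_filter] at hq hq'
    exact hne (TExt_cell_inj ha hb hq.2 hq'.2 hL)

end Pool.Agent.Vx

end

section

/-!
# MP_afe918_an, item Tadd: zeros, periodicity and symmetry of the additive theta function
-/

set_option autoImplicit false

open Complex Set Filter Topology MeasureTheory Metric
open scoped Real ContDiff ComplexConjugate

namespace Pool.Agent.Vx

/-- The exponential. -/
noncomputable def Tadd_e (a : ℝ) (z : ℂ) : ℂ := Complex.exp (2 * π * I * z / a)

/-- The nome. -/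
noncomputable def Tadd_Q (a b : ℝ) : ℝ := Real.exp (-(2 * π * b / a))

theorem Tadd_thA (a b : ℝ) (z : ℂ) : thA a b z = thP (Tadd_Q a b) (Tadd_e a z) := rfl

theorem Tadd_e_ne (a : ℝ) (z : ℂ) : Tadd_e a z ≠ 0 := Complex.exp_ne_zero _

theorem Tadd_e_deriv (a : ℝ) (z : ℂ) :
    HasDerivAt (Tadd_e a) (Tadd_e a z * (2 * π * I / a)) z := by
  have h1 : HasDerivAt (fun z : ℂ => 2 * π * I * z / a) (2 * π * I / a) z := by
    have := ((hasDerivAt_id z).const_mul (2 * π * I : ℂ)).div_const (a : ℂ)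
    simpa using this
  exact h1.cexp

theorem Tadd_Q_zpow (a b : ℝ) (k : ℤ) :
    ((Tadd_Q a b : ℝ) : ℂ) ^ k = Complex.exp (-(2 * π * b / a) * k) := by
  unfold Tadd_Q
  rw [Complex.ofReal_exp, ← Complex.exp_int_mul]
  congr 1
  push_cast
  ring

theorem Tadd_lat {a : ℝ} (b : ℝ) (ha : 0 < a) (z : ℂ) (k : ℤ) :
    Tadd_e a z = ((Tadd_Q a b : ℝ) : ℂ) ^ k ↔ ∃ m : ℤ, z = m * a + k * b * I := by
  have ha' : (a : ℂ) ≠ 0 := by exact_mod_cast ha.ne'
  have hpi : (2 * π * I : ℂ) ≠ 0 := Complex.two_pi_I_ne_zero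
  rw [Tadd_Q_zpow]
  unfold Tadd_e
  rw [Complex.exp_eq_exp_iff_exists_int]
  refine exists_congr fun m => ?_
  have hI : (I : ℂ) * I = -1 := Complex.I_mul_I
  have e1 : (-(2 * π * b / a) * k + m * (2 * π * I) : ℂ) =
      2 * π * I * (m * a + k * b * I) / a := by
    field_simp
    linear_combination (-(k : ℂ) * b) * hI
  rw [e1]
  constructor
  · intro h
    have h2 : 2 * π * I * z = 2 * π * I * (m * a + k * b * I) := by
      have := congrArg (fun w => w * (a : ℂ)) h
      simp only [div_mul_cancel₀ _ ha'] at this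
      exact this
    exact mul_left_cancel₀ hpi h2
  · intro h
    rw [h]

theorem Tadd_Qpos (a b : ℝ) : 0 < Tadd_Q a b := Real.exp_pos _

theorem Tadd_Qlt {a b : ℝ} (ha : 0 < a) (hb : 0 < b) : Tadd_Q a b < 1 := by
  unfold Tadd_Q
  rw [Real.exp_lt_one_iff, neg_lt_zero]
  positivity

theorem Tadd_e_norm (a : ℝ) (z : ℂ) : ‖Tadd_e a z‖ = Real.exp (-(2 * π / a * z.im)) := by
  unfold Tadd_e
  rw [Complex.norm_exp]
  congr 1
  rw [Complex.div_ofReal_re]
  simp
  ring

theorem Tadd_e_add_a {a : ℝ} (ha : 0 < a) (z : ℂ) : Tadd_e a (z + a) = Tadd_e a z := by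
  have ha' : (a : ℂ) ≠ 0 := by exact_mod_cast ha.ne'
  unfold Tadd_e
  have : (2 * π * I * (z + a) / a : ℂ) = 2 * π * I * z / a + 2 * π * I := by
    field_simp
  rw [this, Complex.exp_periodic]

theorem Tadd_e_add_b {a : ℝ} (b : ℝ) (ha : 0 < a) (z : ℂ) :
    Tadd_e a (z + b * I) = (Tadd_Q a b : ℝ) * Tadd_e a z := by
  have ha' : (a : ℂ) ≠ 0 := by exact_mod_cast ha.ne'
  unfold Tadd_e Tadd_Q
  rw [Complex.ofReal_exp, ← Complex.exp_add]
  congr 1
  have hI : (I : ℂ) * I = -1 := Complex.I_mul_I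
  push_cast
  field_simp
  linear_combination (b : ℂ) * hI

theorem Tadd_e_neg (a : ℝ) (z : ℂ) : Tadd_e a (-z) = (Tadd_e a z)⁻¹ := by
  unfold Tadd_e
  rw [← Complex.exp_neg]
  congr 1
  ring

theorem pr_Tadd (h1 : S_Tprod) : S_Tadd := by
  intro a b ha hb
  obtain ⟨hd, hz, hs, hq, hi⟩ := h1 (Tadd_Q a b) (Tadd_Qpos a b) (Tadd_Qlt ha hb)
  have hdat : ∀ z, DifferentiableAt ℂ (thP (Tadd_Q a b)) (Tadd_e a z) := fun z =>
    hd.differentiableAt (isOpen_compl_singleton.mem_nhds (Tadd_e_ne a z))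
  have hder : ∀ z, HasDerivAt (thA a b)
      (deriv (thP (Tadd_Q a b)) (Tadd_e a z) * (Tadd_e a z * (2 * π * I / a))) z := by
    intro z
    exact (hdat z).hasDerivAt.comp z (Tadd_e_deriv a z)
  refine ⟨fun z => (hder z).differentiableAt, ?_, ?_, ?_, ?_⟩
  · intro z
    rw [Tadd_thA, hz _ (Tadd_e_ne a z)]
    constructor
    · rintro ⟨k, hk⟩
      obtain ⟨m, hm⟩ := (Tadd_lat b ha z k).mp hk
      exact ⟨m, k, hm⟩
    · rintro ⟨m, k, hm⟩
      exact ⟨k, (Tadd_lat b ha z k).mpr ⟨m, hm⟩⟩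
  · rintro z ⟨m, k, hm⟩
    rw [(hder z).deriv]
    have hk := (Tadd_lat b ha z k).mpr ⟨m, hm⟩
    refine mul_ne_zero ?_ (mul_ne_zero (Tadd_e_ne a z) ?_)
    · rw [hk]
      exact hs k
    · exact div_ne_zero Complex.two_pi_I_ne_zero (by exact_mod_cast ha.ne')
  · intro z
    constructor
    · unfold Sf
      rw [Tadd_thA, Tadd_thA, Tadd_e_add_a ha]
      simp
    · unfold Sf
      rw [Tadd_thA, Tadd_thA, Tadd_e_add_b b ha, hq _ (Tadd_e_ne a z), norm_mul, norm_neg,
        norm_inv, Tadd_e_norm, mul_pow, ← Real.exp_neg, ← Real.exp_nat_mul]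
      have him : (z + b * I).im = z.im + b := by simp
      rw [him]
      have e1 : Real.exp ((2 : ℕ) * - -(2 * π / a * z.im)) *
          Real.exp (-(2 * π / (a * b)) * (z.im + b) ^ 2 + 2 * π / a * (z.im + b)) =
          Real.exp (-(2 * π / (a * b)) * z.im ^ 2 + 2 * π / a * z.im) := by
        rw [← Real.exp_add]
        congr 1
        field_simp
        push_cast
        ring
      rw [← e1]
      ring
  · intro z
    unfold Sf
    rw [Tadd_thA, Tadd_thA, Tadd_e_neg, hi _ (Tadd_e_ne a z), norm_mul, norm_neg,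
      norm_inv, Tadd_e_norm, mul_pow, ← Real.exp_neg, ← Real.exp_nat_mul]
    have him : (-z).im = -z.im := by simp
    rw [him]
    have e1 : Real.exp ((2 : ℕ) * - -(2 * π / a * z.im)) *
        Real.exp (-(2 * π / (a * b)) * (-z.im) ^ 2 + 2 * π / a * (-z.im)) =
        Real.exp (-(2 * π / (a * b)) * z.im ^ 2 + 2 * π / a * z.im) := by
      rw [← Real.exp_add]
      congr 1
      push_cast
      ring
    rw [← e1]
    ring

end Pool.Agent.Vx

end

section

/-!
# MP_afe918_an, item Tfou (helper19): Fourier coefficients of the Green function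
-/

set_option autoImplicit false

open Complex Set Filter Topology MeasureTheory Metric
open scoped Real ContDiff ComplexConjugate

namespace Pool.Agent.Vx

/-! ### One-variable integrals -/

lemma Tfou_cos {a : ℝ} (ha : 0 < a) (n : ℤ) (θ : ℝ) :
    ∫ x in (0 : ℝ)..a, Real.cos (2 * π * n * x / a + θ) =
      if n = 0 then a * Real.cos θ else 0 := by
  split_ifs with h
  · subst h; simp
  · have hn : (2 * π * n / a : ℝ) ≠ 0 := by
      have : (n : ℝ) ≠ 0 := by exact_mod_cast h
      have := Real.pi_ne_zero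
      positivity
    have e : ∀ x : ℝ, Real.cos (2 * π * n * x / a + θ) = Real.cos ((2 * π * n / a) * x + θ) := by
      intro x
      congr 1
      ring
    simp only [e]
    rw [intervalIntegral.integral_comp_mul_add (fun x => Real.cos x) hn, integral_cos]
    have e1 : 2 * π * n / a * a + θ = θ + n * (2 * π) := by
      field_simp
      ring
    rw [e1, Real.sin_add_int_mul_two_pi]
    simp

lemma Tfou_orth {a : ℝ} (ha : 0 < a) (l n : ℤ) (θ : ℝ) :
    ∫ x in (0 : ℝ)..a, Real.cos (2 * π * l * x / a) * Real.cos (2 * π * n * x / a + θ) =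
      (if l + n = 0 then a / 2 * Real.cos θ else 0) +
        if l - n = 0 then a / 2 * Real.cos θ else 0 := by
  have e : ∀ x : ℝ, Real.cos (2 * π * l * x / a) * Real.cos (2 * π * n * x / a + θ) =
      1 / 2 * Real.cos (2 * π * (l + n : ℤ) * x / a + θ) +
        1 / 2 * Real.cos (2 * π * (l - n : ℤ) * x / a + -θ) := by
    intro x
    have e1 : 2 * π * (l + n : ℤ) * x / a + θ =
        2 * π * l * x / a + (2 * π * n * x / a + θ) := by push_cast; ring
    have e2 : 2 * π * (l - n : ℤ) * x / a + -θ =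
        2 * π * l * x / a - (2 * π * n * x / a + θ) := by push_cast; ring
    rw [e1, e2, Real.cos_add (2 * π * l * x / a), Real.cos_sub (2 * π * l * x / a)]
    ring
  simp only [e]
  rw [intervalIntegral.integral_add, intervalIntegral.integral_const_mul,
    intervalIntegral.integral_const_mul, Tfou_cos ha, Tfou_cos ha, Real.cos_neg]
  · split_ifs <;> ring
  · exact (by fun_prop : Continuous _).intervalIntegrable _ _
  · exact (by fun_prop : Continuous _).intervalIntegrable _ _

lemma Tfou_exp1 {b κ m : ℝ} (hκ : 0 < κ) (hs : Real.sin (m * b) = 0) (hc : Real.cos (m * b) = 1) :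
    ∫ y in (0 : ℝ)..b, Real.exp (-κ * y) * Real.cos (m * y) =
      κ * (1 - Real.exp (-κ * b)) / (κ ^ 2 + m ^ 2) := by
  have hD : κ ^ 2 + m ^ 2 ≠ 0 := by positivity
  have hd : ∀ y ∈ uIcc 0 b, HasDerivAt (fun y => Real.exp (-κ * y) *
      (-κ * Real.cos (m * y) + m * Real.sin (m * y)) / (κ ^ 2 + m ^ 2))
      (Real.exp (-κ * y) * Real.cos (m * y)) y := by
    intro y _
    have h1 : HasDerivAt (fun y => Real.exp (-κ * y)) (Real.exp (-κ * y) * (-κ)) y := by
      have := ((hasDerivAt_id y).const_mul (-κ)).exp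
      simpa using this
    have h2 : HasDerivAt (fun y => Real.cos (m * y)) (-Real.sin (m * y) * m) y := by
      have := ((hasDerivAt_id y).const_mul m).cos
      simpa using this
    have h3 : HasDerivAt (fun y => Real.sin (m * y)) (Real.cos (m * y) * m) y := by
      have := ((hasDerivAt_id y).const_mul m).sin
      simpa using this
    have h4 := (h1.mul ((h2.const_mul (-κ)).add (h3.const_mul m))).div_const (κ ^ 2 + m ^ 2)
    refine h4.congr_deriv ?_
    simp only [Pi.add_apply]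
    field_simp
    ring
  rw [intervalIntegral.integral_eq_sub_of_hasDerivAt hd
    ((by fun_prop : Continuous _).intervalIntegrable _ _), hs, hc]
  simp only [mul_zero, Real.exp_zero, Real.cos_zero, Real.sin_zero]
  ring

lemma Tfou_exp2 {b κ m : ℝ} (hκ : 0 < κ) (hs : Real.sin (m * b) = 0) (hc : Real.cos (m * b) = 1) :
    ∫ y in (0 : ℝ)..b, Real.exp (-κ * (b - y)) * Real.cos (m * y) =
      κ * (1 - Real.exp (-κ * b)) / (κ ^ 2 + m ^ 2) := by
  have hD : κ ^ 2 + m ^ 2 ≠ 0 := by positivity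
  have hd : ∀ y ∈ uIcc 0 b, HasDerivAt (fun y => Real.exp (-κ * (b - y)) *
      (κ * Real.cos (m * y) + m * Real.sin (m * y)) / (κ ^ 2 + m ^ 2))
      (Real.exp (-κ * (b - y)) * Real.cos (m * y)) y := by
    intro y _
    have h1 : HasDerivAt (fun y => Real.exp (-κ * (b - y))) (Real.exp (-κ * (b - y)) * κ) y := by
      have := (((hasDerivAt_id y).const_sub b).const_mul (-κ)).exp
      simpa using this
    have h2 : HasDerivAt (fun y => Real.cos (m * y)) (-Real.sin (m * y) * m) y := by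
      have := ((hasDerivAt_id y).const_mul m).cos
      simpa using this
    have h3 : HasDerivAt (fun y => Real.sin (m * y)) (Real.cos (m * y) * m) y := by
      have := ((hasDerivAt_id y).const_mul m).sin
      simpa using this
    have h4 := (h1.mul ((h2.const_mul κ).add (h3.const_mul m))).div_const (κ ^ 2 + m ^ 2)
    refine h4.congr_deriv ?_
    simp only [Pi.add_apply]
    field_simp
    ring
  rw [intervalIntegral.integral_eq_sub_of_hasDerivAt hd
    ((by fun_prop : Continuous _).intervalIntegrable _ _), hs, hc]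
  simp only [mul_zero, sub_self, sub_zero, Real.exp_zero, Real.cos_zero, Real.sin_zero]
  ring

lemma Tfou_poly {b m : ℝ} (hb : 0 < b) (hm : m ≠ 0) (hs : Real.sin (m * b) = 0)
    (hc : Real.cos (m * b) = 1) :
    ∫ y in (0 : ℝ)..b, (y ^ 2 / (2 * b) - y / 2) * Real.cos (m * y) = 1 / m ^ 2 := by
  have hd : ∀ y ∈ uIcc 0 b, HasDerivAt (fun y => (y ^ 2 / (2 * b) - y / 2 - 1 / (b * m ^ 2)) / m *
      Real.sin (m * y) + (y / b - 1 / 2) / m ^ 2 * Real.cos (m * y))
      ((y ^ 2 / (2 * b) - y / 2) * Real.cos (m * y)) y := by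
    intro y _
    have h2 : HasDerivAt (fun y => Real.cos (m * y)) (-Real.sin (m * y) * m) y := by
      have := ((hasDerivAt_id y).const_mul m).cos
      simpa using this
    have h3 : HasDerivAt (fun y => Real.sin (m * y)) (Real.cos (m * y) * m) y := by
      have := ((hasDerivAt_id y).const_mul m).sin
      simpa using this
    have h5 : HasDerivAt (fun y : ℝ => (y ^ 2 / (2 * b) - y / 2 - 1 / (b * m ^ 2)) / m)
        ((2 * y / (2 * b) - 1 / 2) / m) y := by
      have := (((((hasDerivAt_id y).pow 2).div_const (2 * b)).sub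
        ((hasDerivAt_id y).div_const 2)).sub_const (1 / (b * m ^ 2))).div_const m
      simpa using this
    have h6 : HasDerivAt (fun y : ℝ => (y / b - 1 / 2) / m ^ 2) (1 / b / m ^ 2) y := by
      have := ((((hasDerivAt_id y).div_const b)).sub_const (1 / 2)).div_const (m ^ 2)
      simpa using this
    refine ((h5.mul h3).add (h6.mul h2)).congr_deriv ?_
    field_simp
    ring
  rw [intervalIntegral.integral_eq_sub_of_hasDerivAt hd
    ((by fun_prop : Continuous _).intervalIntegrable _ _), hs, hc]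
  simp only [mul_zero, Real.cos_zero, Real.sin_zero]
  field_simp
  ring

/-! ### The Fourier series on horizontal lines -/

/-- The coefficients. -/
noncomputable def Tfou_c (a b : ℝ) (k : ℕ) (y : ℝ) : ℝ :=
  (Real.exp (-(2 * π * (k + 1) / a) * y) + Real.exp (-(2 * π * (k + 1) / a) * (b - y))) /
    ((k + 1) * (1 - Real.exp (-(2 * π * (k + 1) / a) * b)))

lemma Tfou_norm {a x y : ℝ} :
    ‖Complex.exp (2 * π * I * (x + y * I) / a)‖ = Real.exp (-(2 * π / a) * y) := by
  rw [Complex.norm_exp]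
  congr 1
  have : (2 * π * I * (x + y * I) / a : ℂ) =
      ((-(2 * π / a) * y : ℝ) : ℂ) + ((2 * π / a * x : ℝ) : ℂ) * I := by
    push_cast
    linear_combination (2 * π * y / a : ℂ) * I_sq
  rw [this]
  simp

lemma Tfou_ser (h2 : S_Tlog) {a b : ℝ} (ha : 0 < a) (hb : 0 < b) {y : ℝ} (hy0 : 0 < y)
    (hyb : y < b) (x : ℝ) :
    HasSum (fun k : ℕ => Tfou_c a b k y * Real.cos (2 * π * ((k : ℤ) + 1 : ℤ) * x / a))
      (-Real.log ‖thA a b (x + y * I)‖) := by
  have hQ1 : Real.exp (-(2 * π * b / a)) < 1 := by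
    rw [Real.exp_lt_one_iff]
    have := Real.pi_pos
    have : 0 < 2 * π * b / a := by positivity
    linarith
  have h := h2 (Real.exp (-(2 * π * b / a))) (Real.exp_pos _) hQ1
    (Complex.exp (2 * π * I * (x + y * I) / a)) (by
      rw [Tfou_norm, Real.exp_lt_exp]
      have : 2 * π / a * y < 2 * π / a * b :=
        mul_lt_mul_of_pos_left hyb (by have := Real.pi_pos; positivity)
      have e : 2 * π * b / a = 2 * π / a * b := by ring
      rw [e]
      linarith) (by
      rw [Tfou_norm, Real.exp_lt_one_iff]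
      have : 0 < 2 * π / a * y := by have := Real.pi_pos; positivity
      linarith)
  have e0 : thP (Real.exp (-(2 * π * b / a))) (Complex.exp (2 * π * I * (x + y * I) / a)) =
      thA a b (x + y * I) := rfl
  rw [e0] at h
  convert h using 1
  funext k
  set κ : ℝ := 2 * π * (k + 1) / a with hκ
  have hk1 : ((k : ℝ) + 1) ≠ 0 := by positivity
  have hw : Complex.exp (2 * π * I * (x + y * I) / a) ^ (k + 1) =
      Complex.exp (((-κ * y : ℝ) : ℂ) + ((κ * x : ℝ) : ℂ) * I) := by
    rw [← Complex.exp_nat_mul]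
    congr 1
    simp only [hκ]
    push_cast
    linear_combination (2 * π * (k + 1) * y / a : ℂ) * I_sq
  have hq : ((Real.exp (-(2 * π * b / a)) : ℝ) : ℂ) /
      Complex.exp (2 * π * I * (x + y * I) / a) =
      Complex.exp (-(2 * π * b / a) - 2 * π * I * (x + y * I) / a) := by
    rw [Complex.exp_sub, Complex.ofReal_exp]
    push_cast
    rfl
  have hqw : (((Real.exp (-(2 * π * b / a)) : ℝ) : ℂ) /
      Complex.exp (2 * π * I * (x + y * I) / a)) ^ (k + 1) =
      Complex.exp (((-κ * (b - y) : ℝ) : ℂ) + ((-(κ * x) : ℝ) : ℂ) * I) := by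
    rw [hq, ← Complex.exp_nat_mul]
    congr 1
    simp only [hκ]
    push_cast
    linear_combination (-(2 * π * (k + 1) * y / a) : ℂ) * I_sq
  have hQk : (Real.exp (-(2 * π * b / a)) : ℝ) ^ (k + 1) = Real.exp (-κ * b) := by
    rw [← Real.exp_nat_mul]
    congr 1
    simp only [hκ]
    push_cast
    ring
  have hden : ((k : ℂ) + 1) * (1 - ((Real.exp (-(2 * π * b / a)) : ℝ) : ℂ) ^ (k + 1)) =
      (((k + 1) * (1 - Real.exp (-κ * b)) : ℝ) : ℂ) := by
    rw [← hQk]
    push_cast
    ring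
  rw [hden, hw, hqw, Complex.div_ofReal_re, Complex.add_re, Complex.exp_re, Complex.exp_re]
  have e1 : (((-κ * y : ℝ) : ℂ) + ((κ * x : ℝ) : ℂ) * I).re = -κ * y := by simp
  have e2 : (((-κ * y : ℝ) : ℂ) + ((κ * x : ℝ) : ℂ) * I).im = κ * x := by simp
  have e3 : (((-κ * (b - y) : ℝ) : ℂ) + ((-(κ * x) : ℝ) : ℂ) * I).re = -κ * (b - y) := by simp
  have e4 : (((-κ * (b - y) : ℝ) : ℂ) + ((-(κ * x) : ℝ) : ℂ) * I).im = -(κ * x) := by simp
  rw [e1, e2, e3, e4, Real.cos_neg, Tfou_c]
  have e5 : 2 * π * (((k : ℤ) + 1 : ℤ) : ℝ) * x / a = κ * x := by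
    simp only [hκ]
    push_cast
    ring
  rw [e5]
  ring

lemma Tfou_csum (h2 : S_Tlog) {a b : ℝ} (ha : 0 < a) (hb : 0 < b) {y : ℝ} (hy0 : 0 < y)
    (hyb : y < b) : Summable (fun k : ℕ => Tfou_c a b k y) := by
  have h := (Tfou_ser h2 ha hb hy0 hyb 0).summable
  simpa using h

lemma Tfou_c_nonneg {a b : ℝ} (ha : 0 < a) (hb : 0 < b) (k : ℕ) (y : ℝ) :
    0 ≤ Tfou_c a b k y := by
  have hpi := Real.pi_pos
  have h1 : Real.exp (-(2 * π * (k + 1) / a) * b) ≤ 1 := by
    rw [Real.exp_le_one_iff]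
    have : 0 ≤ (2 * π * (k + 1) / a) * b := by positivity
    linarith
  have h2 : 0 ≤ 1 - Real.exp (-(2 * π * (k + 1) / a) * b) := by linarith
  unfold Tfou_c
  positivity

/-- The value of the Green function. -/
lemma Tfou_Gr (h3 : S_Tadd) {a b : ℝ} (ha : 0 < a) (hb : 0 < b) {y : ℝ} (hy0 : 0 < y)
    (hyb : y < b) (x : ℝ) :
    Gr a b (thA a b) (x + y * I) = 1 / (2 * π) * -Real.log ‖thA a b (x + y * I)‖ +
      (y ^ 2 / (2 * a * b) - y / (2 * a)) := by
  have hne : thA a b (x + y * I) ≠ 0 := by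
    intro h
    obtain ⟨m, k, hmk⟩ := ((h3 a b ha hb).2.1 _).1 h
    have him := congrArg Complex.im hmk
    simp at him
    have h1 : (0 : ℝ) < k * b := by rw [← him]; exact hy0
    have h2 : (k : ℝ) * b < 1 * b := by rw [← him, one_mul]; exact hyb
    have h3 : (0 : ℝ) < k := (mul_pos_iff_of_pos_right hb).1 h1
    have h4 : (k : ℝ) < 1 := lt_of_mul_lt_mul_right h2 hb.le
    have h5 : 0 < k := by exact_mod_cast h3
    have h6 : k < 1 := by exact_mod_cast h4
    omega
  have hpi := Real.pi_ne_zero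
  have hn : ‖thA a b (x + y * I)‖ ≠ 0 := norm_ne_zero_iff.2 hne
  rw [Gr, Sf, Real.log_mul (by positivity) (Real.exp_ne_zero _), Real.log_exp, Real.log_pow]
  have him : ((x : ℂ) + y * I).im = y := by simp
  rw [him]
  push_cast
  field_simp
  ring

/-- The integral over a horizontal segment. -/
lemma Tfou_inner (h2 : S_Tlog) (h3 : S_Tadd) {a b : ℝ} (ha : 0 < a) (hb : 0 < b) {y : ℝ}
    (hy0 : 0 < y) (hyb : y < b) (ξ : ℤ × ℤ) :
    ∫ x in (0 : ℝ)..a, Gr a b (thA a b) (x + y * I) * Real.cos (ph a b ξ (x + y * I)) =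
      if ξ.1 = 0 then a * (y ^ 2 / (2 * a * b) - y / (2 * a)) * Real.cos (2 * π * ξ.2 / b * y)
      else a / (4 * π) * Tfou_c a b (ξ.1.natAbs - 1) y * Real.cos (2 * π * ξ.2 / b * y) := by
  set θ : ℝ := 2 * π * ξ.2 / b * y with hθ
  set P : ℝ := y ^ 2 / (2 * a * b) - y / (2 * a) with hP
  set S : ℝ → ℝ := fun x => -Real.log ‖thA a b (x + y * I)‖ with hS
  have hser := Tfou_ser h2 ha hb hy0 hyb
  have hcs := Tfou_csum h2 ha hb hy0 hyb
  have hph : ∀ x : ℝ, ph a b ξ (x + y * I) = 2 * π * ξ.1 * x / a + θ := by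
    intro x
    simp only [ph, hθ]
    simp
    ring
  have hSc : Continuous S := by
    have : S = fun x => ∑' k : ℕ, Tfou_c a b k y *
        Real.cos (2 * π * ((k : ℤ) + 1 : ℤ) * x / a) := by
      funext x
      exact (hser x).tsum_eq.symm
    rw [this]
    refine continuous_tsum (fun k => by fun_prop) hcs (fun k x => ?_)
    rw [norm_mul, Real.norm_eq_abs, abs_of_nonneg (Tfou_c_nonneg ha hb k y)]
    exact mul_le_of_le_one_right (Tfou_c_nonneg ha hb k y) (Real.abs_cos_le_one _)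
  have hsum : HasSum (fun k : ℕ => ∫ x in (0 : ℝ)..a, Tfou_c a b k y *
      (Real.cos (2 * π * ((k : ℤ) + 1 : ℤ) * x / a) * Real.cos (2 * π * ξ.1 * x / a + θ)))
      (∫ x in (0 : ℝ)..a, S x * Real.cos (2 * π * ξ.1 * x / a + θ)) := by
    refine intervalIntegral.hasSum_integral_of_dominated_convergence
      (fun k _ => Tfou_c a b k y) (fun k => ?_) (fun k => ?_) ?_ ?_ ?_
    · exact (by fun_prop : Continuous _).aestronglyMeasurable
    · refine Eventually.of_forall fun x _ => ?_
      rw [norm_mul, norm_mul, Real.norm_eq_abs, Real.norm_eq_abs, Real.norm_eq_abs,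
        abs_of_nonneg (Tfou_c_nonneg ha hb k y)]
      refine mul_le_of_le_one_right (Tfou_c_nonneg ha hb k y) ?_
      exact mul_le_one₀ (Real.abs_cos_le_one _) (abs_nonneg _) (Real.abs_cos_le_one _)
    · exact Eventually.of_forall fun x _ => hcs
    · exact intervalIntegrable_const
    · refine Eventually.of_forall fun x _ => ?_
      have := (hser x).mul_right (Real.cos (2 * π * ξ.1 * x / a + θ))
      simpa only [mul_assoc] using this
  have hterm : ∀ k : ℕ, ∫ x in (0 : ℝ)..a, Tfou_c a b k y *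
      (Real.cos (2 * π * ((k : ℤ) + 1 : ℤ) * x / a) * Real.cos (2 * π * ξ.1 * x / a + θ)) =
      Tfou_c a b k y * ((if ((k : ℤ) + 1) + ξ.1 = 0 then a / 2 * Real.cos θ else 0) +
        if ((k : ℤ) + 1) - ξ.1 = 0 then a / 2 * Real.cos θ else 0) := by
    intro k
    rw [intervalIntegral.integral_const_mul, Tfou_orth ha]
  simp only [hterm] at hsum
  have hval : ∫ x in (0 : ℝ)..a, S x * Real.cos (2 * π * ξ.1 * x / a + θ) =
      if ξ.1 = 0 then 0 else a / 2 * Tfou_c a b (ξ.1.natAbs - 1) y * Real.cos θ := by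
    refine hsum.unique ?_
    split_ifs with h0
    · have : ∀ k : ℕ, Tfou_c a b k y * ((if ((k : ℤ) + 1) + ξ.1 = 0 then a / 2 * Real.cos θ
          else 0) + if ((k : ℤ) + 1) - ξ.1 = 0 then a / 2 * Real.cos θ else 0) = 0 := by
        intro k
        rw [if_neg (by omega), if_neg (by omega)]
        ring
      simp only [this]
      exact hasSum_zero
    · have h1 : Tfou_c a b (ξ.1.natAbs - 1) y *
          ((if (((ξ.1.natAbs - 1 : ℕ) : ℤ) + 1) + ξ.1 = 0 then a / 2 * Real.cos θ else 0) +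
          if (((ξ.1.natAbs - 1 : ℕ) : ℤ) + 1) - ξ.1 = 0 then a / 2 * Real.cos θ else 0) =
          a / 2 * Tfou_c a b (ξ.1.natAbs - 1) y * Real.cos θ := by
        rcases lt_or_gt_of_ne h0 with h | h
        · rw [if_pos (by omega), if_neg (by omega)]
          ring
        · rw [if_neg (by omega), if_pos (by omega)]
          ring
      rw [← h1]
      refine hasSum_single (ξ.1.natAbs - 1) (fun k hk => ?_)
      rw [if_neg (by omega), if_neg (by omega)]
      ring
  have e : ∀ x : ℝ, Gr a b (thA a b) (x + y * I) * Real.cos (ph a b ξ (x + y * I)) =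
      1 / (2 * π) * (S x * Real.cos (2 * π * ξ.1 * x / a + θ)) +
        P * Real.cos (2 * π * ξ.1 * x / a + θ) := by
    intro x
    rw [Tfou_Gr h3 ha hb hy0 hyb, hph]
    simp only [hS, hP]
    ring
  simp only [e]
  rw [intervalIntegral.integral_add, intervalIntegral.integral_const_mul,
    intervalIntegral.integral_const_mul, hval, Tfou_cos ha]
  · split_ifs with h0
    · ring
    · ring
  · exact (by fun_prop : Continuous _).intervalIntegrable _ _
  · exact (by fun_prop : Continuous _).intervalIntegrable _ _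

theorem pr_Tfou (h1 : S_Tprod) (h2 : S_Tlog) (h3 : S_Tadd) (h4 : S_Tint) (h5 : S_Ti) :
    S_Tfou := by
  intro a b ha hb ξ hξ
  have hpi := Real.pi_pos
  set f : ℂ → ℝ := fun z => Gr a b (thA a b) z * Real.cos (ph a b ξ z) with hf
  have hGp : Per a b (Gr a b (thA a b)) := by
    intro z
    have := (h3 a b ha hb).2.2.2.1 z
    simp only [Gr, this.1, this.2, and_self]
  have hcp : Per a b (fun z => Real.cos (ph a b ξ z)) := by
    intro z
    constructor
    · have : ph a b ξ (z + a) = ph a b ξ z + ξ.1 * (2 * π) := by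
        simp only [ph]
        simp
        field_simp
        ring
      simp only [this, Real.cos_add_int_mul_two_pi]
    · have : ph a b ξ (z + b * I) = ph a b ξ z + ξ.2 * (2 * π) := by
        simp only [ph]
        simp
        field_simp
        ring
      simp only [this, Real.cos_add_int_mul_two_pi]
  have hfp : Per a b f := by
    intro z
    have hA := hGp z
    have hB := hcp z
    simp only at hB
    simp only [hf, hA.1, hA.2, hB.1, hB.2, and_self]
  set q : ℂ := ((a / 2 : ℝ) : ℂ) + ((b / 2 : ℝ) : ℂ) * I with hq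
  have hqre : q.re = a / 2 := by simp [hq]
  have hqim : q.im = b / 2 := by simp [hq]
  have hcm : Continuous (fun z => Real.cos (ph a b ξ z)) := by
    simp only [ph]
    fun_prop
  have hfint : IntegrableOn f (rect a b q) := by
    refine ((h5 a b f ha hb hfp q).1).2 ?_
    have := Integrable.bdd_mul (c := 1) (h4 a b ha hb) hcm.aestronglyMeasurable
      (Eventually.of_forall fun z => Real.abs_cos_le_one _)
    refine this.congr (Eventually.of_forall fun z => ?_)
    simp only [hf]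
    ring
  rw [← (h5 a b f ha hb hfp q).2.1]
  set e := Complex.measurableEquivRealProd with he
  set g : ℝ × ℝ → ℝ := fun p => f (p.1 + p.2 * I) with hg
  have hge : ∀ z, g (e z) = f z := by
    intro z
    simp [hg, he, Complex.measurableEquivRealProd_apply]
  have hrect : rect a b q = e ⁻¹' (Ioo 0 a ×ˢ Ioo 0 b) := by
    ext z
    simp only [rect, hqre, hqim, mem_ofPred_eq, mem_preimage, he,
      Complex.measurableEquivRealProd_apply, mem_prod, mem_Ioo, abs_lt]
    constructor
    · rintro ⟨⟨u1, u2⟩, u3, u4⟩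
      refine ⟨⟨?_, ?_⟩, ?_, ?_⟩ <;> linarith
    · rintro ⟨⟨u1, u2⟩, u3, u4⟩
      refine ⟨⟨?_, ?_⟩, ?_, ?_⟩ <;> linarith
  have hgint : IntegrableOn g (Ioo 0 a ×ˢ Ioo 0 b) := by
    have := (Complex.volume_preserving_equiv_real_prod.integrableOn_comp_preimage
      e.measurableEmbedding (f := g) (s := Ioo 0 a ×ˢ Ioo 0 b)).1
    refine this ?_
    rw [← hrect]
    have e1 : g ∘ e = f := funext hge
    rw [e1]
    exact hfint
  have hint : ∫ z in rect a b q, f z = ∫ p in Ioo 0 a ×ˢ Ioo 0 b, g p := by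
    rw [← Complex.volume_preserving_equiv_real_prod.setIntegral_preimage_emb
      e.measurableEmbedding g (Ioo 0 a ×ˢ Ioo 0 b), ← hrect]
    refine integral_congr_ae (Eventually.of_forall fun z => ?_)
    exact (hge z).symm
  have hfub : ∫ p in Ioo 0 a ×ˢ Ioo 0 b, g p =
      ∫ y in Ioo 0 b, ∫ x in Ioo 0 a, g (x, y) := by
    rw [Measure.volume_eq_prod, ← Measure.prod_restrict]
    refine integral_prod_symm g ?_
    rw [Measure.prod_restrict, ← Measure.volume_eq_prod]
    exact hgint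
  rw [hint, hfub]
  have hinner : ∀ y ∈ Ioo 0 b, ∫ x in Ioo 0 a, g (x, y) =
      if ξ.1 = 0 then a * (y ^ 2 / (2 * a * b) - y / (2 * a)) * Real.cos (2 * π * ξ.2 / b * y)
      else a / (4 * π) * Tfou_c a b (ξ.1.natAbs - 1) y * Real.cos (2 * π * ξ.2 / b * y) := by
    intro y hy
    rw [← Tfou_inner h2 h3 ha hb hy.1 hy.2 ξ, intervalIntegral.integral_of_le ha.le,
      integral_Ioc_eq_integral_Ioo]
  rw [setIntegral_congr_fun measurableSet_Ioo hinner, ← integral_Ioc_eq_integral_Ioo,
    ← intervalIntegral.integral_of_le hb.le]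
  set m : ℝ := 2 * π * ξ.2 / b with hm
  have hmb : m * b = ξ.2 * (2 * π) := by
    simp only [hm]
    field_simp
  have hs : Real.sin (m * b) = 0 := by
    have := Real.sin_add_int_mul_two_pi 0 ξ.2
    rw [hmb]
    simpa using this
  have hc : Real.cos (m * b) = 1 := by
    have := Real.cos_add_int_mul_two_pi 0 ξ.2
    rw [hmb]
    simpa using this
  by_cases h0 : ξ.1 = 0
  · simp only [h0, if_true]
    have h20 : ξ.2 ≠ 0 := by
      intro h
      exact hξ (Prod.ext h0 h)
    have h20' : (ξ.2 : ℝ) ≠ 0 := by exact_mod_cast h20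
    have hm0 : m ≠ 0 := by
      simp only [hm]
      positivity
    have e1 : ∀ y : ℝ, a * (y ^ 2 / (2 * a * b) - y / (2 * a)) * Real.cos (m * y) =
        (y ^ 2 / (2 * b) - y / 2) * Real.cos (m * y) := by
      intro y
      congr 1
      field_simp
    simp only [e1]
    rw [Tfou_poly hb hm0 hs hc, nu, h0]
    simp only [hm]
    field_simp
    simp
    ring
  · simp only [h0, if_false]
    set j : ℕ := ξ.1.natAbs - 1 with hj
    set κ : ℝ := 2 * π * (j + 1) / a with hκ
    have hκ0 : 0 < κ := by positivity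
    have hE1 : Real.exp (-κ * b) < 1 := by
      rw [Real.exp_lt_one_iff]
      have : 0 < κ * b := by positivity
      linarith
    have hE : 1 - Real.exp (-κ * b) ≠ 0 := by linarith
    have hj1 : ((j : ℝ) + 1) ≠ 0 := by positivity
    have hj2 : ((j : ℝ) + 1) ^ 2 = (ξ.1 : ℝ) ^ 2 := by
      have h1 : (j : ℤ) + 1 = |ξ.1| := by
        rw [Int.abs_eq_natAbs]
        omega
      have h2 : ((j : ℝ) + 1) = |(ξ.1 : ℝ)| := by exact_mod_cast h1
      rw [h2, sq_abs]
    have e1 : ∀ y : ℝ, a / (4 * π) * Tfou_c a b j y * Real.cos (m * y) =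
        a / (4 * π) / ((j + 1) * (1 - Real.exp (-κ * b))) *
          (Real.exp (-κ * y) * Real.cos (m * y)) +
        a / (4 * π) / ((j + 1) * (1 - Real.exp (-κ * b))) *
          (Real.exp (-κ * (b - y)) * Real.cos (m * y)) := by
      intro y
      simp only [Tfou_c, ← hκ]
      ring
    simp only [e1]
    rw [intervalIntegral.integral_add, intervalIntegral.integral_const_mul,
      intervalIntegral.integral_const_mul, Tfou_exp1 hκ0 hs hc, Tfou_exp2 hκ0 hs hc]
    · have hnu : nu a b ξ = κ ^ 2 + m ^ 2 := by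
        have hk2 : κ ^ 2 = (2 * π) ^ 2 * (ξ.1 : ℝ) ^ 2 / a ^ 2 := by
          rw [← hj2]
          simp only [hκ]
          ring
        rw [nu, hk2]
        simp only [hm]
        ring
      have hpos : κ ^ 2 + m ^ 2 ≠ 0 := by positivity
      rw [hnu]
      have hκj : a / (4 * π) / (j + 1) * (2 * κ) = 1 := by
        simp only [hκ]
        field_simp
        norm_num
      generalize Real.exp (-κ * b) = Ex at hE ⊢
      field_simp
      field_simp at hκj
      linarith
    · exact (by fun_prop : Continuous _).intervalIntegrable _ _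
    · exact (by fun_prop : Continuous _).intervalIntegrable _ _

end Pool.Agent.Vx

end

section

/-!
# MP_afe918_an, item ThetaEx (T6): existence of a normalised theta function
-/

set_option autoImplicit false

open Complex Set Filter Topology MeasureTheory Metric
open scoped Real ContDiff ComplexConjugate

namespace Pool.Agent.Vx

theorem ThetaEx_rect_meas (a b : ℝ) (q : ℂ) : MeasurableSet (rect a b q) := by
  have h1 : MeasurableSet {z : ℂ | |z.re - q.re| < a / 2} :=
    (isOpen_lt (by fun_prop) continuous_const).measurableSet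
  have h2 : MeasurableSet {z : ℂ | |z.im - q.im| < b / 2} :=
    (isOpen_lt (by fun_prop) continuous_const).measurableSet
  exact h1.inter h2

theorem ThetaEx_vol (a b : ℝ) (ha : 0 < a) (hb : 0 < b) :
    volume (rect a b 0) = ENNReal.ofReal (a * b) := by
  have h : rect a b 0 = Complex.measurableEquivRealProd ⁻¹'
      (Ioo (-(a / 2)) (a / 2) ×ˢ Ioo (-(b / 2)) (b / 2)) := by
    ext z
    simp only [rect, mem_ofPred_eq, mem_preimage, mem_prod, mem_Ioo, abs_lt,
      Complex.measurableEquivRealProd_apply, Complex.zero_re, Complex.zero_im, sub_zero]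
  rw [h, Complex.volume_preserving_equiv_real_prod.measure_preimage
    (measurableSet_Ioo.prod measurableSet_Ioo).nullMeasurableSet, Measure.volume_eq_prod,
    Measure.prod_prod, Real.volume_Ioo, Real.volume_Ioo, ← ENNReal.ofReal_mul (by linarith)]
  congr 1
  ring

theorem ThetaEx_cont (a b : ℝ) (ξ : ℤ × ℤ) : Continuous (fun z => Real.cos (ph a b ξ z)) := by
  unfold ph
  fun_prop

theorem ThetaEx_ph_add (a b : ℝ) (ξ : ℤ × ℤ) (z w : ℂ) :
    ph a b ξ (z + w) = ph a b ξ z + ph a b ξ w := by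
  unfold ph
  rw [Complex.add_re, Complex.add_im]
  ring

theorem ThetaEx_per (a b : ℝ) (ha : 0 < a) (hb : 0 < b) (ξ : ℤ × ℤ) :
    Per a b (fun z => Real.cos (ph a b ξ z)) := by
  intro z
  have h1 : ph a b ξ (a : ℂ) = ξ.1 * (2 * π) := by
    unfold ph
    simp only [Complex.ofReal_re, Complex.ofReal_im]
    field_simp
    ring
  have h2 : ph a b ξ ((b : ℂ) * I) = ξ.2 * (2 * π) := by
    unfold ph
    have e1 : ((b : ℂ) * I).re = 0 := by simp
    have e2 : ((b : ℂ) * I).im = b := by simp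
    rw [e1, e2]
    field_simp
    ring
  constructor
  · show Real.cos (ph a b ξ (z + a)) = Real.cos (ph a b ξ z)
    rw [ThetaEx_ph_add, h1, Real.cos_add_int_mul_two_pi]
  · show Real.cos (ph a b ξ (z + b * I)) = Real.cos (ph a b ξ z)
    rw [ThetaEx_ph_add, h2, Real.cos_add_int_mul_two_pi]

theorem ThetaEx_shift (a b : ℝ) (f : ℂ → ℝ) (q : ℂ) :
    ∫ z in rect a b q, f z = ∫ z in rect a b 0, f (z + q) := by
  have h : rect a b 0 = (fun z => z + q) ⁻¹' rect a b q := by
    ext z
    simp [rect]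
  rw [h]
  exact ((measurePreserving_add_right (volume : Measure ℂ) q).setIntegral_preimage_emb
    (MeasurableEquiv.addRight q).measurableEmbedding f (rect a b q)).symm

theorem ThetaEx_cos0 (a b : ℝ) (ha : 0 < a) (hb : 0 < b) (ξ : ℤ × ℤ) (hξ : ξ ≠ 0) :
    ti a b (fun z => Real.cos (ph a b ξ z)) = 0 := by
  obtain ⟨q, hq⟩ : ∃ q : ℂ, ph a b ξ q = π := by
    by_cases h1 : ξ.1 = 0
    · have h2 : ξ.2 ≠ 0 := fun h2 => hξ (Prod.ext h1 h2)
      have h2' : (ξ.2 : ℝ) ≠ 0 := by exact_mod_cast h2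
      refine ⟨((b / (2 * ξ.2) : ℝ) : ℂ) * I, ?_⟩
      unfold ph
      have e1 : (((b / (2 * ξ.2) : ℝ) : ℂ) * I).re = 0 := by
        rw [Complex.re_ofReal_mul, Complex.I_re, mul_zero]
      have e2 : (((b / (2 * ξ.2) : ℝ) : ℂ) * I).im = b / (2 * ξ.2) := by
        rw [Complex.im_ofReal_mul, Complex.I_im, mul_one]
      rw [e1, e2]
      field_simp
      ring
    · have h1' : (ξ.1 : ℝ) ≠ 0 := by exact_mod_cast h1
      refine ⟨((a / (2 * ξ.1) : ℝ) : ℂ), ?_⟩
      unfold ph
      rw [Complex.ofReal_re, Complex.ofReal_im]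
      field_simp
      ring
  have h1 := ((pr_Ti a b _ ha hb (ThetaEx_per a b ha hb ξ) q).2).1
  rw [ThetaEx_shift] at h1
  have h2 : ∀ z, Real.cos (ph a b ξ (z + q)) = -Real.cos (ph a b ξ z) := by
    intro z
    rw [ThetaEx_ph_add, hq, Real.cos_add_pi]
  simp only [h2] at h1
  rw [integral_neg] at h1
  unfold ti at h1 ⊢
  linarith

theorem ThetaEx_lat (a b : ℝ) (ha : 0 < a) (hb : 0 < b) (z : ℂ) (hz : z ∈ rect a b 0)
    (hL : Lat a b z) : z = 0 := by
  obtain ⟨m, k, rfl⟩ := hL
  obtain ⟨h1, h2⟩ := hz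
  have e1 : ((m : ℂ) * a + k * b * I).re = m * a := by simp
  have e2 : ((m : ℂ) * a + k * b * I).im = k * b := by simp
  rw [e1] at h1
  rw [e2] at h2
  simp only [Complex.zero_re, Complex.zero_im, sub_zero, abs_mul, abs_of_pos ha,
    abs_of_pos hb] at h1 h2
  have h3 : |(m : ℝ)| < 1 := by
    by_contra h
    push Not at h
    nlinarith
  have h4 : |(k : ℝ)| < 1 := by
    by_contra h
    push Not at h
    nlinarith
  have h5 : m = 0 := Int.abs_lt_one_iff.1 (by exact_mod_cast h3)
  have h6 : k = 0 := Int.abs_lt_one_iff.1 (by exact_mod_cast h4)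
  subst h5 h6
  simp

theorem pr_ThetaEx (h1 : S_Tadd) (h2 : S_Tint) (h3 : S_Tfou) : S_ThetaEx := by
  intro a b ha hb
  obtain ⟨hd, hz, hs, hp, he⟩ := h1 a b ha hb
  have hi := h2 a b ha hb
  have hf := h3 a b ha hb
  have hab : 0 < a * b := mul_pos ha hb
  set c : ℝ := ti a b (Gr a b (thA a b)) / (a * b) with hc
  set t : ℝ := Real.exp (2 * π * c) with ht
  have htpos : 0 < t := Real.exp_pos _
  have htC : (t : ℂ) ≠ 0 := by exact_mod_cast htpos.ne'
  have hlog : Real.log (t ^ 2) = 4 * π * c := by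
    rw [Real.log_pow, ht, Real.log_exp]
    push_cast
    ring
  have hSf : ∀ z, Sf a b (fun z => (t : ℂ) * thA a b z) z = t ^ 2 * Sf a b (thA a b) z := by
    intro z
    unfold Sf
    rw [norm_mul, Complex.norm_real, Real.norm_eq_abs, abs_of_pos htpos]
    ring
  have hSne : ∀ z, ¬ Lat a b z → Sf a b (thA a b) z ≠ 0 := by
    intro z hL
    unfold Sf
    have h4 : thA a b z ≠ 0 := fun h => hL ((hz z).1 h)
    positivity
  have hGr : ∀ z, ¬ Lat a b z → Gr a b (fun z => (t : ℂ) * thA a b z) z =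
      Gr a b (thA a b) z - c := by
    intro z hL
    unfold Gr
    rw [hSf, Real.log_mul (by positivity) (hSne z hL), hlog]
    field_simp
    ring
  have hae : ∀ᵐ z ∂(volume.restrict (rect a b 0)),
      Gr a b (fun z => (t : ℂ) * thA a b z) z = Gr a b (thA a b) z - c := by
    have h5 : ∀ᵐ z ∂(volume.restrict (rect a b 0)), z ≠ (0 : ℂ) :=
      ae_restrict_of_ae (Measure.ae_ne volume 0)
    filter_upwards [h5, ae_restrict_mem (ThetaEx_rect_meas a b 0)] with z hz0 hzr
    exact hGr z fun hL => hz0 (ThetaEx_lat a b ha hb z hzr hL)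
  have hvol : volume (rect a b 0) = ENNReal.ofReal (a * b) := ThetaEx_vol a b ha hb
  have hfin : IsFiniteMeasure (volume.restrict (rect a b 0)) := by
    constructor
    rw [Measure.restrict_apply_univ, hvol]
    exact ENNReal.ofReal_lt_top
  have hcosI : ∀ ξ : ℤ × ℤ, IntegrableOn (fun z => Real.cos (ph a b ξ z)) (rect a b 0) := by
    intro ξ
    refine Integrable.of_bound (C := 1) (ThetaEx_cont a b ξ).aestronglyMeasurable ?_
    exact Filter.Eventually.of_forall fun z => by
      rw [Real.norm_eq_abs]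
      exact Real.abs_cos_le_one _
  have hGcos : ∀ ξ : ℤ × ℤ, IntegrableOn (fun z => Gr a b (thA a b) z *
      Real.cos (ph a b ξ z)) (rect a b 0) := by
    intro ξ
    refine Integrable.mul_bdd (c := 1) hi (ThetaEx_cont a b ξ).aestronglyMeasurable ?_
    exact Filter.Eventually.of_forall fun z => by
      rw [Real.norm_eq_abs]
      exact Real.abs_cos_le_one _
  refine ⟨fun z => (t : ℂ) * thA a b z, ⟨ha, hb, hd.const_mul _, fun z => ?_, fun z hL => ?_,
    fun z => ⟨?_, ?_⟩, fun z => ?_, ?_, ?_, fun ξ hξ => ?_⟩⟩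
  · rw [mul_eq_zero, hz]
    simp [htC]
  · rw [deriv_const_mul _ (hd z)]
    exact mul_ne_zero htC (hs z hL)
  · rw [hSf, hSf, (hp z).1]
  · rw [hSf, hSf, (hp z).2]
  · rw [hSf, hSf, he]
  · refine Integrable.congr (hi.sub (integrable_const c)) ?_
    filter_upwards [hae] with z hz
    rw [hz]
    rfl
  · unfold ti
    rw [integral_congr_ae hae, integral_sub hi (integrable_const c), integral_const,
      measureReal_restrict_apply_univ, Measure.real, hvol, ENNReal.toReal_ofReal hab.le,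
      smul_eq_mul, hc]
    unfold ti
    field_simp
    ring
  · have h6 : ti a b (fun z => Gr a b (fun z => (t : ℂ) * thA a b z) z *
        Real.cos (ph a b ξ z)) = ∫ z in rect a b 0, (Gr a b (thA a b) z *
        Real.cos (ph a b ξ z) - c * Real.cos (ph a b ξ z)) := by
      unfold ti
      refine integral_congr_ae ?_
      filter_upwards [hae] with z hz
      rw [hz]
      ring
    rw [h6, integral_sub (hGcos ξ) ((hcosI ξ).const_mul c), integral_const_mul]
    have h7 := ThetaEx_cos0 a b ha hb ξ hξ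
    have h8 := hf ξ hξ
    unfold ti at h7 h8
    rw [h7, h8]
    ring

end Pool.Agent.Vx

end

section

/-!
# MP_afe918_an, item Tint: local integrability of the Green function
-/

set_option autoImplicit false

open Complex Set Filter Topology MeasureTheory Metric
open scoped Real ContDiff ComplexConjugate

namespace Pool.Agent.Vx

/-- The closed period rectangle. -/
def Tint_C (a b : ℝ) : Set ℂ := {z | |z.re| ≤ a / 2 ∧ |z.im| ≤ b / 2}

theorem Tint_C_compact (a b : ℝ) : IsCompact (Tint_C a b) := by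
  refine Metric.isCompact_of_isClosed_isBounded ?_ ?_
  · have e1 : IsClosed {z : ℂ | |z.re| ≤ a / 2} :=
      isClosed_le (Complex.continuous_re.abs) continuous_const
    have e2 : IsClosed {z : ℂ | |z.im| ≤ b / 2} :=
      isClosed_le (Complex.continuous_im.abs) continuous_const
    exact e1.inter e2
  · refine (Metric.isBounded_closedBall (x := (0 : ℂ)) (r := a / 2 + b / 2)).subset ?_
    intro z hz
    rw [mem_closedBall, dist_zero_right]
    exact (Complex.norm_le_abs_re_add_abs_im z).trans (add_le_add hz.1 hz.2)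

theorem Tint_rect_sub (a b : ℝ) : rect a b 0 ⊆ Tint_C a b := by
  intro z hz
  simp only [rect, mem_ofPred_eq, Complex.zero_re, Complex.zero_im, sub_zero] at hz
  exact ⟨hz.1.le, hz.2.le⟩

theorem Tint_rect_ball (a b : ℝ) : rect a b 0 ⊆ ball (0 : ℂ) (a / 2 + b / 2) := by
  intro z hz
  simp only [rect, mem_ofPred_eq, Complex.zero_re, Complex.zero_im, sub_zero] at hz
  rw [mem_ball, dist_zero_right]
  exact (Complex.norm_le_abs_re_add_abs_im z).trans_lt (add_lt_add hz.1 hz.2)

theorem Tint_rect_meas (a b : ℝ) : MeasurableSet (rect a b 0) := by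
  have e1 : IsOpen {z : ℂ | |z.re - (0 : ℂ).re| < a / 2} :=
    isOpen_lt ((Complex.continuous_re.sub continuous_const).abs) continuous_const
  have e2 : IsOpen {z : ℂ | |z.im - (0 : ℂ).im| < b / 2} :=
    isOpen_lt ((Complex.continuous_im.sub continuous_const).abs) continuous_const
  exact (e1.inter e2).measurableSet

theorem Tint_lat {a b : ℝ} (ha : 0 < a) (hb : 0 < b) {z : ℂ} (hz : z ∈ Tint_C a b)
    (h : Lat a b z) : z = 0 := by
  obtain ⟨m, k, h⟩ := h
  have h1 : z.re = m * a := by rw [h]; simp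
  have h2 : z.im = k * b := by rw [h]; simp
  have h3 := hz.1
  have h4 := hz.2
  rw [h1, abs_mul, abs_of_pos ha] at h3
  rw [h2, abs_mul, abs_of_pos hb] at h4
  have m0 : m = 0 := by
    by_contra hne
    have : (1 : ℝ) ≤ |(m : ℝ)| := by
      have := Int.one_le_abs hne
      exact_mod_cast this
    nlinarith
  have k0 : k = 0 := by
    by_contra hne
    have : (1 : ℝ) ≤ |(k : ℝ)| := by
      have := Int.one_le_abs hne
      exact_mod_cast this
    nlinarith
  rw [h, m0, k0]
  simp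

theorem pr_Tint (h1 : S_Tadd) (h2 : S_LogI) : S_Tint := by
  intro a b ha hb
  obtain ⟨hd, hz, hs, -, -⟩ := h1 a b ha hb
  set F := thA a b with hF
  have hK : Continuous (dslope F 0) := by
    have hc : ContinuousOn (dslope F 0) univ := by
      rw [continuousOn_dslope univ_mem]
      exact ⟨hd.continuous.continuousOn, hd 0⟩
    exact continuousOn_univ.mp hc
  have hLat0 : Lat a b 0 := ⟨0, 0, by simp⟩
  have hKne : ∀ z ∈ Tint_C a b, dslope F 0 z ≠ 0 := by
    intro z hzC
    by_cases h0 : z = 0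
    · rw [h0, dslope_same]
      exact hs 0 hLat0
    · rw [dslope_of_ne _ h0, slope_def_field]
      have hF0 : F 0 = 0 := (hz 0).mpr hLat0
      rw [hF0, sub_zero, sub_zero]
      refine div_ne_zero ?_ h0
      intro hFz
      exact h0 (Tint_lat ha hb hzC ((hz z).mp hFz))
  set g : ℂ → ℝ := fun z => 2 * Real.log ‖dslope F 0 z‖ +
    (-(2 * π / (a * b)) * z.im ^ 2 + 2 * π / a * z.im) with hg
  have hgc : ContinuousOn g (Tint_C a b) := by
    refine ContinuousOn.add ?_ ?_
    · refine ContinuousOn.mul continuousOn_const ?_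
      refine ContinuousOn.log hK.norm.continuousOn ?_
      intro z hz'
      exact norm_ne_zero_iff.mpr (hKne z hz')
    · refine Continuous.continuousOn ?_
      fun_prop
  have hgi : IntegrableOn g (rect a b 0) :=
    (hgc.integrableOn_compact (Tint_C_compact a b)).mono_set (Tint_rect_sub a b)
  have hli : IntegrableOn (fun y : ℂ => Real.log ‖0 - y‖) (rect a b 0) :=
    ((h2 0 0 (a / 2 + b / 2) (by positivity)).1).mono_set (Tint_rect_ball a b)
  have hsum : IntegrableOn (fun z => -(1 / (4 * π)) * (2 * Real.log ‖0 - z‖ + g z))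
      (rect a b 0) := ((hli.const_mul 2).add hgi).const_mul _
  refine hsum.congr ?_
  have hne : ∀ᵐ z ∂(volume.restrict (rect a b 0)), z ≠ (0 : ℂ) := by
    refine ae_restrict_of_ae ?_
    exact (measure_eq_zero_iff_ae_notMem.mp (measure_singleton (0 : ℂ)))
  filter_upwards [hne, ae_restrict_mem (Tint_rect_meas a b)] with z h0 hzr
  have hFz : F z ≠ 0 := by
    intro h
    exact h0 (Tint_lat ha hb (Tint_rect_sub a b hzr) ((hz z).mp h))
  have hF0 : F 0 = 0 := (hz 0).mpr hLat0
  have e1 : dslope F 0 z = F z / z := by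
    rw [dslope_of_ne _ h0, slope_def_field, hF0, sub_zero, sub_zero]
  unfold Gr Sf
  rw [Real.log_mul (by positivity) (Real.exp_pos _).ne', Real.log_exp, Real.log_pow]
  rw [hg]
  simp only
  rw [e1, norm_div, Real.log_div (norm_ne_zero_iff.mpr hFz) (norm_ne_zero_iff.mpr h0), zero_sub,
    norm_neg]
  push_cast
  ring

end Pool.Agent.Vx

end

section

/-!
# MP_afe918_an, item Tlog: the logarithm of the multiplicative theta function (helper81)
-/

set_option autoImplicit false

open Complex Set Filter Topology MeasureTheory Metric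
open scoped Real ContDiff ComplexConjugate

namespace Pool.Agent.Vx

/-- The double series of the logarithm. -/
noncomputable def Tlog_f (Q : ℝ) (x : ℂ) (p : ℕ × ℕ) : ℂ :=
  ((Q : ℂ) ^ p.1 * x) ^ (p.2 + 1) / (p.2 + 1)

lemma Tlog_norm {Q : ℝ} (h0 : 0 < Q) (h1 : Q < 1) {x : ℂ} (hx : ‖x‖ < 1) (n : ℕ) :
    ‖(Q : ℂ) ^ n * x‖ < 1 := by
  rw [norm_mul, norm_pow, Complex.norm_real, Real.norm_eq_abs, abs_of_pos h0]
  have : Q ^ n ≤ 1 := pow_le_one₀ h0.le h1.le
  nlinarith [norm_nonneg x]

lemma Tlog_summable {Q : ℝ} (h0 : 0 < Q) (h1 : Q < 1) {x : ℂ} (hx : ‖x‖ < 1) :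
    Summable (Tlog_f Q x) := by
  have s1 : Summable (fun n : ℕ => Q ^ n) := summable_geometric_of_lt_one h0.le h1
  have s2 : Summable (fun k : ℕ => ‖x‖ ^ k) := summable_geometric_of_lt_one (norm_nonneg x) hx
  have s3 : Summable (fun p : ℕ × ℕ => Q ^ p.1 * ‖x‖ ^ p.2) :=
    s1.mul_of_nonneg s2 (fun n => pow_nonneg h0.le n) (fun k => pow_nonneg (norm_nonneg x) k)
  refine Summable.of_norm_bounded s3 (fun p => ?_)
  obtain ⟨n, k⟩ := p
  unfold Tlog_f
  dsimp only
  have hk : ‖((k : ℂ) + 1)‖ = k + 1 := by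
    have : ((k : ℂ) + 1) = ((k + 1 : ℝ) : ℂ) := by push_cast; ring
    rw [this, Complex.norm_real, Real.norm_eq_abs, abs_of_pos (by positivity)]
  have hxn : 0 ≤ ‖x‖ := norm_nonneg x
  rw [norm_div, hk, norm_pow, norm_mul, norm_pow, Complex.norm_real, Real.norm_eq_abs,
    abs_of_pos h0, mul_pow]
  have e1 : (Q ^ n) ^ (k + 1) ≤ Q ^ n := by
    calc (Q ^ n) ^ (k + 1) = Q ^ n * (Q ^ n) ^ k := by ring
      _ ≤ Q ^ n * 1 := by
          apply mul_le_mul_of_nonneg_left _ (pow_nonneg h0.le n)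
          exact pow_le_one₀ (pow_nonneg h0.le n) (pow_le_one₀ h0.le h1.le)
      _ = Q ^ n := mul_one _
  have e2 : ‖x‖ ^ (k + 1) ≤ ‖x‖ ^ k := pow_le_pow_of_le_one hxn hx.le (Nat.le_succ k)
  have e3 : (Q ^ n) ^ (k + 1) * ‖x‖ ^ (k + 1) ≤ Q ^ n * ‖x‖ ^ k :=
    mul_le_mul e1 e2 (by positivity) (by positivity)
  refine (div_le_self (by positivity) ?_).trans e3
  have : (0:ℝ) ≤ k := Nat.cast_nonneg k
  linarith

lemma Tlog_row {Q : ℝ} (h0 : 0 < Q) (h1 : Q < 1) {x : ℂ} (hx : ‖x‖ < 1) (n : ℕ) :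
    HasSum (fun k => Tlog_f Q x (n, k)) (-Complex.log (1 - (Q : ℂ) ^ n * x)) := by
  have h := Complex.hasSum_taylorSeries_neg_log (Tlog_norm h0 h1 hx n)
  rw [← hasSum_nat_add_iff' 1] at h
  simpa [Tlog_f] using h

lemma Tlog_col {Q : ℝ} (h0 : 0 < Q) (h1 : Q < 1) (x : ℂ) (k : ℕ) :
    HasSum (fun n => Tlog_f Q x (n, k)) (x ^ (k + 1) / ((k + 1) * (1 - (Q : ℂ) ^ (k + 1)))) := by
  have hq : ‖(Q : ℂ) ^ (k + 1)‖ < 1 := by
    rw [norm_pow, Complex.norm_real, Real.norm_eq_abs, abs_of_pos h0]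
    exact pow_lt_one₀ h0.le h1 (Nat.succ_ne_zero k)
  have hne : (1 : ℂ) - (Q : ℂ) ^ (k + 1) ≠ 0 := by
    intro h
    have : (Q : ℂ) ^ (k + 1) = 1 := (sub_eq_zero.1 h).symm
    rw [this] at hq
    simp at hq
  have h := (hasSum_geometric_of_norm_lt_one hq).mul_left (x ^ (k + 1) / (k + 1))
  have e1 : x ^ (k + 1) / ((k : ℂ) + 1) * (1 - (Q : ℂ) ^ (k + 1))⁻¹ =
      x ^ (k + 1) / ((k + 1) * (1 - (Q : ℂ) ^ (k + 1))) := by
    have : (k : ℂ) + 1 ≠ 0 := Nat.cast_add_one_ne_zero k
    field_simp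
  rw [e1] at h
  have e2 : (fun n : ℕ => Tlog_f Q x (n, k)) =
      fun n : ℕ => x ^ (k + 1) / ((k : ℂ) + 1) * ((Q : ℂ) ^ (k + 1)) ^ n := by
    funext n
    simp only [Tlog_f]
    rw [mul_pow, ← pow_mul, ← pow_mul, mul_comm n (k + 1)]
    ring
  rw [e2]
  exact h

lemma Tlog_ne {Q : ℝ} (h0 : 0 < Q) (h1 : Q < 1) {x : ℂ} (hx : ‖x‖ < 1) (n : ℕ) :
    (1 : ℂ) - (Q : ℂ) ^ n * x ≠ 0 := by
  intro h
  have h2 := Tlog_norm h0 h1 hx n
  rw [← sub_eq_zero.1 h] at h2
  simp at h2

/-- The logarithm of `∏ (1 - Q^n x)`. -/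
lemma Tlog_poch {Q : ℝ} (h0 : 0 < Q) (h1 : Q < 1) {x : ℂ} (hx : ‖x‖ < 1) :
    Multipliable (fun n : ℕ => (1 : ℂ) - (Q : ℂ) ^ n * x) ∧
    (∏' n : ℕ, ((1 : ℂ) - (Q : ℂ) ^ n * x)) ≠ 0 ∧
    HasSum (fun k : ℕ => (x ^ (k + 1) / ((k + 1) * (1 - (Q : ℂ) ^ (k + 1)))).re)
      (-Real.log ‖∏' n : ℕ, ((1 : ℂ) - (Q : ℂ) ^ n * x)‖) := by
  have hs := (Tlog_summable h0 h1 hx).hasSum
  have hrow := hs.prod_fiberwise (Tlog_row h0 h1 hx)
  have hs' : HasSum (fun p : ℕ × ℕ => Tlog_f Q x (p.2, p.1)) (∑' p, Tlog_f Q x p) :=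
    (Equiv.prodComm ℕ ℕ).hasSum_iff.2 hs
  have hcol := hs'.prod_fiberwise (Tlog_col h0 h1 x)
  have hlog : HasSum (fun n : ℕ => Complex.log (1 - (Q : ℂ) ^ n * x)) (-∑' p, Tlog_f Q x p) := by
    simpa using hrow.neg
  have hprod := Complex.hasProd_of_hasSum_log (Tlog_ne h0 h1 hx) hlog
  refine ⟨hprod.multipliable, ?_, ?_⟩
  · rw [hprod.tprod_eq]; exact Complex.exp_ne_zero _
  · rw [hprod.tprod_eq, Complex.norm_exp, Real.log_exp, Complex.neg_re, neg_neg]
    exact Complex.hasSum_re hcol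

theorem Tlog_main : S_Tlog := by
  intro Q h0 h1 w hw1 hw2
  have hw0 : 0 < ‖w‖ := h0.trans hw1
  have hwne : w ≠ 0 := norm_pos_iff.1 hw0
  have hu : ‖(Q : ℂ) / w‖ < 1 := by
    rw [norm_div, Complex.norm_real, Real.norm_eq_abs, abs_of_pos h0, div_lt_one hw0]
    exact hw1
  obtain ⟨mw, nw, sw⟩ := Tlog_poch h0 h1 hw2
  obtain ⟨mu, nu', su⟩ := Tlog_poch h0 h1 hu
  have hQw : ‖(Q : ℂ) * w‖ < 1 := by
    have := Tlog_norm h0 h1 hw2 1
    rwa [pow_one] at this
  obtain ⟨mQw, -, -⟩ := Tlog_poch h0 h1 hQw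
  have e1 : (fun n : ℕ => (1 : ℂ) - (Q : ℂ) ^ n * (Q * w)) =
      fun n : ℕ => (1 : ℂ) - (Q : ℂ) ^ (n + 1) * w := by
    funext n; ring
  have e2 : (fun n : ℕ => (1 : ℂ) - (Q : ℂ) ^ n * (Q / w)) =
      fun n : ℕ => (1 : ℂ) - (Q : ℂ) ^ (n + 1) / w := by
    funext n; ring
  rw [e1] at mQw
  have hth : thP Q w = (∏' n : ℕ, ((1 : ℂ) - (Q : ℂ) ^ n * w)) *
      ∏' n : ℕ, ((1 : ℂ) - (Q : ℂ) ^ n * (Q / w)) := by
    unfold thP
    have mu' := mu
    rw [e2] at mu'
    rw [mQw.tprod_mul mu']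
    have e3 := tprod_eq_zero_mul' (f := fun n : ℕ => (1 : ℂ) - (Q : ℂ) ^ n * w) mQw
    rw [pow_zero, one_mul] at e3
    rw [e3, e2]
    ring
  rw [hth, norm_mul, Real.log_mul (norm_ne_zero_iff.2 nw) (norm_ne_zero_iff.2 nu'), neg_add]
  have e4 := sw.add su
  have e5 : (fun k : ℕ => ((w ^ (k + 1) + ((Q : ℂ) / w) ^ (k + 1)) /
      (((k : ℂ) + 1) * (1 - (Q : ℂ) ^ (k + 1)))).re) = fun k : ℕ =>
      (w ^ (k + 1) / (((k : ℂ) + 1) * (1 - (Q : ℂ) ^ (k + 1)))).re +
      (((Q : ℂ) / w) ^ (k + 1) / (((k : ℂ) + 1) * (1 - (Q : ℂ) ^ (k + 1)))).re := by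
    funext k
    rw [← Complex.add_re, ← add_div]
  rw [e5]
  exact e4

theorem pr_Tlog (_h1 : S_Tprod) : S_Tlog := Tlog_main

end Pool.Agent.Vx

end

section

/-!
# MP_afe918_an, item Tprod: the infinite product for the theta function
-/

set_option autoImplicit false

open Complex Set Filter Topology MeasureTheory Metric
open scoped Real

namespace Pool.Agent.Vx

/-- `∏_{n ≥ 1} (1 - Q^n w)`. -/
noncomputable def Tprod_E (Q : ℝ) (w : ℂ) : ℂ := ∏' n : ℕ, (1 - (Q : ℂ) ^ (n + 1) * w)

theorem Tprod_norm {Q : ℝ} (h0 : 0 < Q) (n : ℕ) (w : ℂ) :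
    ‖-((Q : ℂ) ^ (n + 1) * w)‖ = Q ^ (n + 1) * ‖w‖ := by
  rw [norm_neg, norm_mul, norm_pow, Complex.norm_real, Real.norm_eq_abs, abs_of_pos h0]

theorem Tprod_sum {Q : ℝ} (h0 : 0 < Q) (h1 : Q < 1) (C : ℝ) :
    Summable fun n : ℕ => Q ^ (n + 1) * C :=
  ((summable_nat_add_iff 1).2 (summable_geometric_of_lt_one h0.le h1)).mul_right C

theorem Tprod_sumN {Q : ℝ} (h0 : 0 < Q) (h1 : Q < 1) (w : ℂ) :
    Summable fun n : ℕ => ‖-((Q : ℂ) ^ (n + 1) * w)‖ := by
  simp_rw [Tprod_norm h0]
  exact Tprod_sum h0 h1 _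

theorem Tprod_mult {Q : ℝ} (h0 : 0 < Q) (h1 : Q < 1) (w : ℂ) :
    Multipliable fun n : ℕ => 1 - (Q : ℂ) ^ (n + 1) * w := by
  have h := multipliable_one_add_of_summable (f := fun n : ℕ => -((Q : ℂ) ^ (n + 1) * w))
    (Tprod_sumN h0 h1 w)
  simpa [← sub_eq_add_neg] using h

theorem Tprod_diff {Q : ℝ} (h0 : 0 < Q) (h1 : Q < 1) : Differentiable ℂ (Tprod_E Q) := by
  intro w
  have h2 : HasProdLocallyUniformlyOn (fun (n : ℕ) (x : ℂ) => 1 + -((Q : ℂ) ^ (n + 1) * x))
      (fun x => ∏' n : ℕ, (1 + -((Q : ℂ) ^ (n + 1) * x))) (ball (0 : ℂ) (‖w‖ + 1)) := by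
    refine Summable.hasProdLocallyUniformlyOn_nat_one_add isOpen_ball
      (Tprod_sum h0 h1 (‖w‖ + 1)) (Eventually.of_forall fun n x hx => ?_)
      (fun n => by fun_prop)
    rw [Tprod_norm h0]
    have h3 : ‖x‖ < ‖w‖ + 1 := by simpa using hx
    have h4 : 0 < Q ^ (n + 1) := by positivity
    nlinarith
  have h3 : DifferentiableOn ℂ (fun x => ∏' n : ℕ, (1 + -((Q : ℂ) ^ (n + 1) * x)))
      (ball (0 : ℂ) (‖w‖ + 1)) :=
    h2.differentiableOn (.of_forall fun _ => by
      simpa [Finset.prod_fn] using DifferentiableOn.finsetProd (fun _ _ => by fun_prop)) isOpen_ball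
  have h4 : (fun x => ∏' n : ℕ, (1 + -((Q : ℂ) ^ (n + 1) * x))) = Tprod_E Q := by
    funext x
    simp [Tprod_E, sub_eq_add_neg]
  rw [h4] at h3
  exact h3.differentiableAt (isOpen_ball.mem_nhds (by simp))

theorem Tprod_rec {Q : ℝ} (h0 : 0 < Q) (h1 : Q < 1) (w : ℂ) :
    Tprod_E Q w = (1 - Q * w) * Tprod_E Q (Q * w) := by
  unfold Tprod_E
  have h2 : Multipliable fun n : ℕ => 1 - (Q : ℂ) ^ (n + 1 + 1) * w := by
    have h := Tprod_mult h0 h1 (Q * w)
    refine h.congr fun n => ?_
    ring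
  rw [tprod_eq_zero_mul' h2]
  congr 1
  · simp
  · refine tprod_congr fun n => ?_
    ring

theorem Tprod_zero {Q : ℝ} (h0 : 0 < Q) (h1 : Q < 1) (w : ℂ) :
    Tprod_E Q w = 0 ↔ ∃ n : ℕ, (Q : ℂ) ^ (n + 1) * w = 1 := by
  constructor
  · intro h
    by_contra hne
    push Not at hne
    have h2 := tprod_one_add_ne_zero_of_summable (f := fun n : ℕ => -((Q : ℂ) ^ (n + 1) * w))
      (fun n h3 => hne n (by linear_combination -h3)) (Tprod_sumN h0 h1 w)
    apply h2
    simpa [Tprod_E, sub_eq_add_neg] using h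
  · rintro ⟨n, hn⟩
    have key : ∀ (n : ℕ) (w : ℂ), (Q : ℂ) ^ (n + 1) * w = 1 → Tprod_E Q w = 0 := by
      intro n
      induction n with
      | zero =>
        intro w hw
        rw [Tprod_rec h0 h1, show (1 : ℂ) - Q * w = 0 by
          rw [zero_add, pow_one] at hw
          rw [hw, sub_self], zero_mul]
      | succ n ih =>
        intro w hw
        rw [Tprod_rec h0 h1, ih (Q * w) (by rw [← hw]; ring), mul_zero]
    exact key n w hn

theorem Tprod_eq {Q : ℝ} (h0 : 0 < Q) (h1 : Q < 1) (w : ℂ) :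
    thP Q w = (1 - w) * (Tprod_E Q w * Tprod_E Q w⁻¹) := by
  unfold thP Tprod_E
  simp_rw [div_eq_mul_inv]
  rw [(Tprod_mult h0 h1 w).tprod_mul (Tprod_mult h0 h1 w⁻¹)]

theorem Tprod_fe {Q : ℝ} (h0 : 0 < Q) (h1 : Q < 1) (w : ℂ) (hw : w ≠ 0) :
    thP Q (Q * w) = -w⁻¹ * thP Q w := by
  have hQ : (Q : ℂ) ≠ 0 := by exact_mod_cast h0.ne'
  rw [Tprod_eq h0 h1, Tprod_eq h0 h1 w, Tprod_rec h0 h1 w, Tprod_rec h0 h1 (Q * w)⁻¹]
  have h2 : (Q : ℂ) * (Q * w)⁻¹ = w⁻¹ := by field_simp
  rw [h2]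
  have h3 : (1 : ℂ) - w⁻¹ = -w⁻¹ * (1 - w) := by field_simp; ring
  rw [h3]
  ring

theorem pr_Tprod : S_Tprod := by
  intro Q h0 h1
  have hQ : (Q : ℂ) ≠ 0 := by exact_mod_cast h0.ne'
  have hfun : thP Q = fun w => (1 - w) * (Tprod_E Q w * Tprod_E Q w⁻¹) :=
    funext (Tprod_eq h0 h1)
  have hd : Differentiable ℂ (Tprod_E Q) := Tprod_diff h0 h1
  have hdiff : ∀ w : ℂ, w ≠ 0 → DifferentiableAt ℂ (thP Q) w := by
    intro w hw
    rw [hfun]
    have h2 : DifferentiableAt ℂ (fun w : ℂ => Tprod_E Q w⁻¹) w :=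
      (hd w⁻¹).comp w (differentiableAt_inv hw)
    exact ((differentiableAt_const _).sub differentiableAt_id).mul ((hd w).mul h2)
  have hzero : ∀ w : ℂ, w ≠ 0 → (thP Q w = 0 ↔ ∃ k : ℤ, w = (Q : ℂ) ^ k) := by
    intro w hw
    rw [Tprod_eq h0 h1, mul_eq_zero, mul_eq_zero, Tprod_zero h0 h1, Tprod_zero h0 h1]
    constructor
    · rintro (h | ⟨n, hn⟩ | ⟨n, hn⟩)
      · exact ⟨0, by rw [zpow_zero]; linear_combination -h⟩
      · refine ⟨-((n + 1 : ℕ) : ℤ), ?_⟩
        rw [zpow_neg, zpow_natCast]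
        exact eq_inv_of_mul_eq_one_right hn
      · refine ⟨((n + 1 : ℕ) : ℤ), ?_⟩
        rw [zpow_natCast]
        exact (eq_of_mul_inv_eq_one hn).symm
    · rintro ⟨k, hk⟩
      obtain ⟨n, rfl | rfl⟩ := k.eq_nat_or_neg
      · rcases n with _ | n
        · left
          rw [hk]
          simp
        · right; right
          refine ⟨n, ?_⟩
          rw [hk, zpow_natCast]
          exact mul_inv_cancel₀ (pow_ne_zero _ hQ)
      · rcases n with _ | n
        · left
          rw [hk]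
          simp
        · right; left
          refine ⟨n, ?_⟩
          rw [hk, zpow_neg, zpow_natCast]
          exact mul_inv_cancel₀ (pow_ne_zero _ hQ)
  refine ⟨fun w hw => (hdiff w hw).differentiableWithinAt, hzero, ?_, Tprod_fe h0 h1, ?_⟩
  · -- simple zeros
    have hstep : ∀ w : ℂ, w ≠ 0 → thP Q w = 0 →
        Q * deriv (thP Q) (Q * w) = -w⁻¹ * deriv (thP Q) w := by
      intro w hw hz
      have h2 : HasDerivAt (fun x => thP Q (Q * x)) (deriv (thP Q) (Q * w) * (Q * 1)) w :=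
        HasDerivAt.comp w (hdiff (Q * w) (mul_ne_zero hQ hw)).hasDerivAt
          ((hasDerivAt_id w).const_mul (Q : ℂ))
      have h3 : HasDerivAt (fun x => -x⁻¹ * thP Q x)
          (-(-(w ^ 2)⁻¹) * thP Q w + -w⁻¹ * deriv (thP Q) w) w :=
        (hasDerivAt_inv hw).neg.mul (hdiff w hw).hasDerivAt
      have h4 : (fun x => thP Q (Q * x)) =ᶠ[𝓝 w] fun x => -x⁻¹ * thP Q x := by
        filter_upwards [isOpen_ne.mem_nhds hw] with x hx
        exact Tprod_fe h0 h1 x hx
      have h5 := h2.unique (h3.congr_of_eventuallyEq h4)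
      rw [hz] at h5
      linear_combination h5
    have hbase : deriv (thP Q) 1 ≠ 0 := by
      have h2 : DifferentiableAt ℂ (fun w : ℂ => Tprod_E Q w * Tprod_E Q w⁻¹) 1 :=
        (hd 1).mul ((hd (1 : ℂ)⁻¹).comp (1 : ℂ) (differentiableAt_inv one_ne_zero))
      have h3 : HasDerivAt (fun w : ℂ => (1 - w) * (Tprod_E Q w * Tprod_E Q w⁻¹))
          (-1 * (Tprod_E Q 1 * Tprod_E Q (1 : ℂ)⁻¹) + (1 - 1) *
            deriv (fun w : ℂ => Tprod_E Q w * Tprod_E Q w⁻¹) 1) 1 :=
        ((hasDerivAt_id (1 : ℂ)).const_sub 1).mul h2.hasDerivAt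
      rw [hfun, h3.deriv]
      have h4 : Tprod_E Q 1 ≠ 0 := by
        rw [Ne, Tprod_zero h0 h1]
        rintro ⟨n, hn⟩
        rw [mul_one] at hn
        have h5 : Q ^ (n + 1) = 1 := by exact_mod_cast hn
        have h6 : Q ^ (n + 1) < 1 := pow_lt_one₀ h0.le h1 (Nat.succ_ne_zero n)
        exact absurd h5 h6.ne
      simp [h4]
    have hk0 : ∀ k : ℤ, (Q : ℂ) ^ k ≠ 0 := fun k => zpow_ne_zero k hQ
    have hz : ∀ k : ℤ, thP Q ((Q : ℂ) ^ k) = 0 := fun k => (hzero _ (hk0 k)).2 ⟨k, rfl⟩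
    have hsucc : ∀ k : ℤ, (Q : ℂ) * (Q : ℂ) ^ k = (Q : ℂ) ^ (k + 1) := fun k => by
      rw [zpow_add₀ hQ, zpow_one, mul_comm]
    intro k
    induction k using Int.induction_on with
    | zero => simpa using hbase
    | succ k ih =>
      have h2 := hstep _ (hk0 k) (hz k)
      rw [hsucc] at h2
      intro h3
      rw [h3, mul_zero] at h2
      exact mul_ne_zero (neg_ne_zero.2 (inv_ne_zero (hk0 k))) ih h2.symm
    | pred k ih =>
      have h2 := hstep _ (hk0 (-(k : ℤ) - 1)) (hz (-(k : ℤ) - 1))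
      rw [hsucc, sub_add_cancel] at h2
      intro h3
      rw [h3, mul_zero] at h2
      exact mul_ne_zero hQ ih h2
  · intro w hw
    rw [Tprod_eq h0 h1, Tprod_eq h0 h1 w, inv_inv]
    have h3 : (1 : ℂ) - w⁻¹ = -w⁻¹ * (1 - w) := by field_simp; ring
    rw [h3]
    ring

end Pool.Agent.Vx

end

section

/-!
# MP_afe918_an, block V, item V_cov: covering of the near-maximum set by `k` arcs
-/

set_option autoImplicit false

open Complex Set Filter Topology MeasureTheory Metric
open scoped Real ContDiff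

namespace Pool.Agent.Vx

theorem V_cov_greedy {k : ℕ} (S : ℝ → Prop) (R : ℝ → ℝ → Prop) (hR : ∀ x y, R x y → R y x)
    (h : ∀ t : Fin k → ℝ, ∃ x, S x ∧ ∀ j, R x (t j)) (m : ℕ) (hm : m ≤ k + 1) :
    ∃ x : Fin m → ℝ, (∀ i, S (x i)) ∧ ∀ i i', i ≠ i' → R (x i) (x i') := by
  induction m with
  | zero => exact ⟨Fin.elim0, fun i => i.elim0, fun i => i.elim0⟩
  | succ m ih =>
    obtain ⟨x, hx1, hx2⟩ := ih (by omega)
    obtain ⟨y, hy1, hy2⟩ := h fun j => if h : (j : ℕ) < m then x ⟨j, h⟩ else 0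
    have hy3 : ∀ i : Fin m, R y (x i) := by
      intro i
      have := hy2 ⟨i, by omega⟩
      simpa using this
    refine ⟨Fin.cons y x, ?_, ?_⟩
    · intro i
      refine Fin.cases ?_ (fun i => ?_) i
      · simpa using hy1
      · simpa using hx1 i
    · intro i i'
      refine Fin.cases ?_ (fun i => ?_) i
      · refine Fin.cases ?_ (fun i' => ?_) i'
        · intro h; exact absurd rfl h
        · intro _
          simpa using hy3 i'
      · refine Fin.cases ?_ (fun i' => ?_) i'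
        · intro _
          simpa using hR _ _ (hy3 i)
        · intro h
          have h' : i ≠ i' := fun e => h (by rw [e])
          simpa using hx2 i i' h'

theorem V_cov_jcont (a : ℝ) (k : ℕ) : Continuous (fun q : Pa k × ℝ => Tc a q.1 q.2) := by
  unfold Tc
  refine continuous_finsetSum _ fun i _ => Continuous.mul ?_ ?_
  · fun_prop
  · exact (V_max_cont a i).comp continuous_snd

/-- the polynomial -/
noncomputable def V_cov_P {k : ℕ} (c : Pa k) (M : ℝ) : Polynomial ℂ :=
  Polynomial.C (M : ℂ) * Polynomial.X ^ k -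
    ∑ l : Fin k, (Polynomial.C (((c (l, false) : ℝ) - (c (l, true) : ℝ) * I) / 2 : ℂ) *
        Polynomial.X ^ (k + (l + 1)) +
      Polynomial.C (((c (l, false) : ℝ) + (c (l, true) : ℝ) * I) / 2 : ℂ) *
        Polynomial.X ^ (k - (l + 1)))

/-- the point of the unit circle -/
noncomputable def V_cov_z (a : ℝ) (x : ℝ) : ℂ := Complex.exp (2 * π * x / a * I)

theorem V_cov_eval (a : ℝ) {k : ℕ} (c : Pa k) (M : ℝ) (x : ℝ) :
    (V_cov_P c M).eval (V_cov_z a x) = V_cov_z a x ^ k * ((M - Tc a c x : ℝ) : ℂ) := by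
  set z := V_cov_z a x with hz
  have hz0 : z ≠ 0 := Complex.exp_ne_zero _
  have hpow : ∀ m : ℕ, z ^ m = Complex.exp (((m : ℝ) * (2 * π * x / a) : ℝ) * I) := by
    intro m
    rw [hz, V_cov_z, ← Complex.exp_nat_mul]
    congr 1
    push_cast
    ring
  have hinv : ∀ m : ℕ, m ≤ k → z ^ (k - m) =
      z ^ k * Complex.exp (-(((m : ℝ) * (2 * π * x / a) : ℝ) * I)) := by
    intro m hm
    rw [Complex.exp_neg, ← hpow m, ← div_eq_mul_inv, eq_div_iff (pow_ne_zero _ hz0), ← pow_add,
      Nat.sub_add_cancel hm]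
  have hT : ((Tc a c x : ℝ) : ℂ) = ∑ l : Fin k,
      ((c (l, false) : ℂ) * Complex.cos (((l + 1 : ℕ) : ℝ) * (2 * π * x / a) : ℝ) +
        (c (l, true) : ℂ) * Complex.sin (((l + 1 : ℕ) : ℝ) * (2 * π * x / a) : ℝ)) := by
    unfold Tc
    rw [Fintype.sum_prod_type]
    push_cast
    refine Finset.sum_congr rfl fun l _ => ?_
    rw [Fintype.sum_bool]
    simp only [cm, if_true, Bool.false_eq_true, if_false]
    push_cast
    have e : (2 * (π : ℂ) * ((l : ℕ) + 1) * x / a) = ((l : ℕ) + 1) * (2 * π * x / a) := by ring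
    rw [e]
    ring
  unfold V_cov_P
  rw [Polynomial.eval_sub, Polynomial.eval_finsetSum]
  simp only [Polynomial.eval_add, Polynomial.eval_mul, Polynomial.eval_C, Polynomial.eval_pow,
    Polynomial.eval_X]
  have hsum : ∑ l : Fin k, ((((c (l, false) : ℝ) : ℂ) - (c (l, true) : ℝ) * I) / 2 *
        z ^ (k + ((l : ℕ) + 1)) +
      (((c (l, false) : ℝ) : ℂ) + (c (l, true) : ℝ) * I) / 2 * z ^ (k - ((l : ℕ) + 1))) =
      z ^ k * ((Tc a c x : ℝ) : ℂ) := by
    rw [hT, Finset.mul_sum]
    refine Finset.sum_congr rfl fun l _ => ?_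
    rw [hinv (l + 1) (by omega), pow_add, hpow (l + 1)]
    set θ : ℝ := ((l + 1 : ℕ) : ℝ) * (2 * π * x / a) with hθ
    have h1 : Complex.exp (θ * I) = Complex.cos θ + Complex.sin θ * I := Complex.exp_mul_I _
    have h2 : Complex.exp (-(θ * I)) = Complex.cos θ - Complex.sin θ * I := by
      rw [show -((θ : ℂ) * I) = (-θ : ℂ) * I by ring, Complex.exp_mul_I, Complex.cos_neg,
        Complex.sin_neg]
      ring
    rw [h1, h2]
    linear_combination (-(z ^ k) * (c (l, true) : ℂ) * Complex.sin θ) * Complex.I_sq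
  rw [hsum]
  push_cast
  ring

theorem V_cov_deriv (a : ℝ) (ha : 0 < a) {k : ℕ} (c : Pa k) (x₀ : ℝ)
    (hM : ∀ y, Tc a c y ≤ Tc a c x₀) :
    (V_cov_P c (Tc a c x₀)).derivative.eval (V_cov_z a x₀) = 0 := by
  have hTd : DifferentiableAt ℝ (Tc a c) x₀ := by
    have h1 : Tc a c = fun x => ∑ i, c i * cm a i x := rfl
    rw [h1]
    refine DifferentiableAt.fun_sum fun i _ => DifferentiableAt.const_mul ?_ _
    unfold cm
    split_ifs
    · fun_prop
    · fun_prop
  have hT0 : HasDerivAt (Tc a c) 0 x₀ := by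
    have h1 : IsLocalMax (Tc a c) x₀ := Eventually.of_forall hM
    have h2 := hTd.hasDerivAt
    rwa [h1.hasDerivAt_eq_zero h2] at h2
  have hζ : HasDerivAt (V_cov_z a) (V_cov_z a x₀ * (2 * π / a * I)) x₀ := by
    unfold V_cov_z
    have h1 : HasDerivAt (fun x : ℝ => (2 * π * x / a * I : ℂ)) (2 * π / a * I) x₀ := by
      have h2 : HasDerivAt (fun x : ℝ => (x : ℂ)) 1 x₀ := Complex.ofRealCLM.hasDerivAt
      have h3 := h2.mul_const (2 * π / a * I : ℂ)
      rw [one_mul] at h3
      refine h3.congr_of_eventuallyEq (Eventually.of_forall fun x => ?_)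
      change (2 * π * x / a * I : ℂ) = (x : ℂ) * (2 * π / a * I)
      ring
    exact h1.cexp
  have h1 : HasDerivAt (fun x => (V_cov_P c (Tc a c x₀)).eval (V_cov_z a x))
      ((V_cov_z a x₀ * (2 * π / a * I)) • (V_cov_P c (Tc a c x₀)).derivative.eval (V_cov_z a x₀))
      x₀ := by
    have h2 := (V_cov_P c (Tc a c x₀)).hasDerivAt (V_cov_z a x₀)
    exact h2.scomp x₀ hζ
  have h3 : HasDerivAt (fun x => (V_cov_P c (Tc a c x₀)).eval (V_cov_z a x)) 0 x₀ := by
    have h4 : (fun x => (V_cov_P c (Tc a c x₀)).eval (V_cov_z a x)) =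
        fun x => V_cov_z a x ^ k * ((Tc a c x₀ - Tc a c x : ℝ) : ℂ) := by
      funext x
      exact V_cov_eval a c _ x
    rw [h4]
    have h5 : HasDerivAt (fun x => Tc a c x₀ - Tc a c x) (0 - 0) x₀ :=
      (hasDerivAt_const x₀ _).sub hT0
    have h6 := (hζ.fun_pow k).mul h5.ofReal_comp
    refine h6.congr_deriv ?_
    simp
  have h7 := h1.unique h3
  rw [smul_eq_mul] at h7
  have h8 : V_cov_z a x₀ * (2 * π / a * I) ≠ 0 := by
    have h9 : V_cov_z a x₀ ≠ 0 := Complex.exp_ne_zero _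
    have h10 : (π : ℂ) ≠ 0 := by exact_mod_cast Real.pi_ne_zero
    have h11 : (a : ℂ) ≠ 0 := by exact_mod_cast ha.ne'
    have h12 := Complex.I_ne_zero
    exact mul_ne_zero h9 (mul_ne_zero (div_ne_zero (mul_ne_zero two_ne_zero h10) h11) h12)
  exact (mul_eq_zero.1 h7).resolve_left h8

theorem V_cov_deg {k : ℕ} (c : Pa k) (M : ℝ) : (V_cov_P c M).natDegree ≤ 2 * k := by
  unfold V_cov_P
  refine (Polynomial.natDegree_sub_le _ _).trans (max_le ?_ ?_)
  · exact (Polynomial.natDegree_C_mul_X_pow_le _ _).trans (by omega)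
  · refine Polynomial.natDegree_sum_le_of_forall_le _ _ fun l _ => ?_
    refine Polynomial.natDegree_add_le_of_degree_le ?_ ?_
    · exact (Polynomial.natDegree_C_mul_X_pow_le _ _).trans (by omega)
    · exact (Polynomial.natDegree_C_mul_X_pow_le _ _).trans (by omega)

theorem V_cov_zero {k : ℕ} (c : Pa k) (M : ℝ) (h : V_cov_P c M = 0) : c = 0 := by
  have h1 : ∀ l : Fin k, c (l, false) = 0 ∧ c (l, true) = 0 := by
    intro l
    have h2 : (V_cov_P c M).coeff (k + (l + 1)) = 0 := by rw [h]; simp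
    unfold V_cov_P at h2
    rw [Polynomial.coeff_sub, Polynomial.coeff_C_mul, Polynomial.coeff_X_pow,
      if_neg (by omega), mul_zero, zero_sub, Polynomial.finsetSum_coeff, neg_eq_zero,
      Finset.sum_eq_single l] at h2
    · rw [Polynomial.coeff_add, Polynomial.coeff_C_mul, Polynomial.coeff_X_pow,
        Polynomial.coeff_C_mul, Polynomial.coeff_X_pow, if_pos rfl, if_neg (by omega)] at h2
      rw [mul_one, mul_zero, add_zero, div_eq_zero_iff] at h2
      have h3 := h2.resolve_right two_ne_zero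
      have h4 := congrArg Complex.re h3
      have h5 := congrArg Complex.im h3
      simp at h4 h5
      exact ⟨h4, h5⟩
    · intro l' _ hl'
      have h6 : (l' : ℕ) ≠ l := fun e => hl' (Fin.ext e)
      rw [Polynomial.coeff_add, Polynomial.coeff_C_mul, Polynomial.coeff_X_pow,
        Polynomial.coeff_C_mul, Polynomial.coeff_X_pow, if_neg (by omega), if_neg (by omega)]
      simp
    · intro h6
      exact absurd (Finset.mem_univ l) h6
  ext i
  obtain ⟨l, s⟩ := i
  cases s
  · exact (h1 l).1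
  · exact (h1 l).2

theorem V_cov_zne (a : ℝ) (ha : 0 < a) (x y : ℝ) (h : ∀ n : ℤ, x - y - n * a ≠ 0) :
    V_cov_z a x ≠ V_cov_z a y := by
  intro he
  unfold V_cov_z at he
  rw [Complex.exp_eq_exp_iff_exists_int] at he
  obtain ⟨n, hn⟩ := he
  have h1 : (a : ℂ) ≠ 0 := by exact_mod_cast ha.ne'
  have h2 : (π : ℂ) ≠ 0 := by exact_mod_cast Real.pi_ne_zero
  have h3 : (x : ℂ) = y + n * a := by
    have h4 : (2 * π * I : ℂ) ≠ 0 := mul_ne_zero (mul_ne_zero two_ne_zero h2) Complex.I_ne_zero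
    have h5 : (x - y - n * a : ℂ) * (2 * π * I) = 0 := by
      field_simp at hn
      linear_combination (2 * π * I) * hn
    have h6 := (mul_eq_zero.1 h5).resolve_right h4
    linear_combination h6
  have h7 : x = y + n * a := by exact_mod_cast h3
  exact h n (by rw [h7]; ring)

theorem V_cov_final (a : ℝ) (ha : 0 < a) {k : ℕ} (c : Pa k) (x : Fin (k + 1) → ℝ)
    (hmax : ∀ i y, Tc a c y ≤ Tc a c (x i))
    (hsep : ∀ i i', i ≠ i' → ∀ n : ℤ, x i - x i' - n * a ≠ 0) : c = 0 := by
  set M : ℝ := Tc a c (x 0) with hM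
  have hMi : ∀ i, Tc a c (x i) = M := fun i => le_antisymm (hmax 0 _) (hmax i _)
  by_contra hc
  have hP : V_cov_P c M ≠ 0 := fun h => hc (V_cov_zero c M h)
  have hdvd : ∀ i, (Polynomial.X - Polynomial.C (V_cov_z a (x i))) ^ 2 ∣ V_cov_P c M := by
    intro i
    have h1 : (V_cov_P c M).IsRoot (V_cov_z a (x i)) := by
      rw [Polynomial.IsRoot.def, V_cov_eval, hMi i]
      simp
    have h2 : (V_cov_P c M).derivative.IsRoot (V_cov_z a (x i)) := by
      rw [Polynomial.IsRoot.def]
      have := V_cov_deriv a ha c (x i) (hmax i)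
      rwa [hMi i] at this
    have h3 := (Polynomial.one_lt_rootMultiplicity_iff_isRoot hP).2 ⟨h1, h2⟩
    exact (pow_dvd_pow _ h3).trans (Polynomial.pow_rootMultiplicity_dvd _ _)
  have hprod : ∏ i : Fin (k + 1), (Polynomial.X - Polynomial.C (V_cov_z a (x i))) ^ 2 ∣
      V_cov_P c M := by
    refine Finset.prod_dvd_of_coprime ?_ fun i _ => hdvd i
    intro i _ i' _ hii'
    refine IsCoprime.pow ?_
    exact Polynomial.isCoprime_X_sub_C_of_isUnit_sub
      (sub_ne_zero.2 (V_cov_zne a ha _ _ (hsep i i' hii'))).isUnit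
  have h4 := Polynomial.natDegree_le_of_dvd hprod hP
  have h5 : (∏ i : Fin (k + 1), (Polynomial.X - Polynomial.C (V_cov_z a (x i))) ^ 2).natDegree =
      2 * (k + 1) := by
    rw [Polynomial.natDegree_prod_of_monic]
    · simp
      ring
    · intro i _
      exact (Polynomial.monic_X_sub_C _).pow 2
  have h6 := V_cov_deg c M
  omega

theorem pr_V_cov : V_cov := by
  intro a k θ ha hθ
  by_contra hcon
  push Not at hcon
  have hseq : ∀ j : ℕ, ∃ q : Pa k × (Fin (k + 1) → ℝ), ‖q.1‖ = 1 ∧ (∀ i, q.2 i ∈ Icc 0 a) ∧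
      (∀ i y, Tc a q.1 y ≤ Tc a q.1 (q.2 i) + 1 / ((j : ℝ) + 1)) ∧
      ∀ i i', i ≠ i' → ∀ n : ℤ, θ < |q.2 i - q.2 i' - n * a| := by
    intro j
    obtain ⟨c, hc, hcc⟩ := hcon (1 / ((j : ℝ) + 1)) (by positivity)
    obtain ⟨x, hx1, hx2⟩ := V_cov_greedy (k := k)
      (fun x => x ∈ Icc 0 a ∧ ∀ y, Tc a c y ≤ Tc a c x + 1 / ((j : ℝ) + 1))
      (fun x y => ∀ n : ℤ, θ < |x - y - n * a|)
      (fun x y h n => by
        have := h (-n)
        rw [← abs_neg]
        push_cast at this
        convert this using 2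
        ring)
      (fun t => by
        obtain ⟨x, hx1, hx2⟩ := hcc t
        obtain ⟨n, hn⟩ := V_cnc_red a ha x
        refine ⟨x + n * a, ⟨hn, fun y => ?_⟩, fun i m => ?_⟩
        · rw [V_cnc_T_per a ha]
          exact hx1 y
        · have h1 := hx2 i (m - n)
          push_cast at h1
          have h2 : x + n * a - t i - m * a = x - t i - ((m : ℝ) - n) * a := by ring
          change θ < |x + n * a - t i - m * a|
          rw [h2]
          exact h1)
      (k + 1) le_rfl
    exact ⟨(c, x), hc, fun i => (hx1 i).1, fun i => (hx1 i).2, hx2⟩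
  choose q hq1 hq2 hq3 hq4 using hseq
  have hK : IsCompact (sphere (0 : Pa k) 1 ×ˢ (Set.univ.pi fun _ : Fin (k + 1) => Icc (0 : ℝ) a)) :=
    (isCompact_sphere _ _).prod (isCompact_univ_pi fun _ => isCompact_Icc)
  obtain ⟨⟨c, x⟩, hcx, φ, hφ, hlim⟩ := hK.tendsto_subseq (x := q) fun j => by
    refine ⟨?_, fun i _ => hq2 j i⟩
    simp [hq1 j]
  have hc : ‖c‖ = 1 := by simpa using hcx.1
  have hlimc : Tendsto (fun j => (q (φ j)).1) atTop (𝓝 c) := (continuous_fst.tendsto _).comp hlim
  have hlimx : ∀ i, Tendsto (fun j => (q (φ j)).2 i) atTop (𝓝 (x i)) := fun i =>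
    (((continuous_apply i).comp continuous_snd).tendsto _).comp hlim
  have hjc := V_cov_jcont a k
  have hmax : ∀ i y, Tc a c y ≤ Tc a c (x i) := by
    intro i y
    have h1 : Tendsto (fun j => Tc a (q (φ j)).1 y) atTop (𝓝 (Tc a c y)) :=
      (hjc.tendsto (c, y)).comp (hlimc.prodMk_nhds tendsto_const_nhds)
    have h2 : Tendsto (fun j => Tc a (q (φ j)).1 ((q (φ j)).2 i) + 1 / ((φ j : ℝ) + 1)) atTop
        (𝓝 (Tc a c (x i) + 0)) := by
      refine Tendsto.add ((hjc.tendsto (c, x i)).comp (hlimc.prodMk_nhds (hlimx i))) ?_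
      exact tendsto_one_div_add_atTop_nhds_zero_nat.comp hφ.tendsto_atTop
    rw [add_zero] at h2
    exact le_of_tendsto_of_tendsto' h1 h2 fun j => hq3 (φ j) i y
  have hsep : ∀ i i', i ≠ i' → ∀ n : ℤ, x i - x i' - n * a ≠ 0 := by
    intro i i' hii' n h0
    have h1 : Tendsto (fun j => |(q (φ j)).2 i - (q (φ j)).2 i' - n * a|) atTop
        (𝓝 |x i - x i' - n * a|) :=
      (((hlimx i).sub (hlimx i')).sub_const _).abs
    have h2 : θ ≤ |x i - x i' - n * a| := ge_of_tendsto' h1 fun j => (hq4 (φ j) i i' hii' n).le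
    rw [h0, abs_zero] at h2
    linarith
  have h0 := V_cov_final a ha c x hmax hsep
  rw [h0, norm_zero] at hc
  exact zero_ne_one hc

end Pool.Agent.Vx

end

section

/-! # MP_afe918_an, item Vgib: Gibbs inequality for the Green function -/

set_option autoImplicit false

open Complex Set Filter Topology MeasureTheory Metric
open scoped Real ContDiff

namespace Pool.Agent.Vx

theorem V_gib_bint (a b : ℝ) (ha : 0 < a) (hb : 0 < b) {f : ℂ → ℝ} (hf : Measurable f) {M : ℝ}
    (hM : ∀ z, |f z| ≤ M) : IntegrableOn f (rect a b 0) := by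
  have hfin : volume (rect a b 0) ≠ ⊤ := by
    rw [VG_rect_vol a b ha hb]
    exact ENNReal.ofReal_ne_top
  have : IsFiniteMeasure (volume.restrict (rect a b 0)) := ⟨by
    rw [Measure.restrict_apply_univ]
    exact lt_top_iff_ne_top.2 hfin⟩
  exact Integrable.of_bound hf.aestronglyMeasurable M (Eventually.of_forall fun z => hM z)

theorem V_gib_lat (a b : ℝ) (x : ℂ) : ∀ᵐ y : ℂ, ¬ Lat a b (x - y) := by
  have hc : {z : ℂ | Lat a b z}.Countable := by
    have : {z : ℂ | Lat a b z} ⊆ Set.range (fun q : ℤ × ℤ => (q.1 * a + q.2 * b * I : ℂ)) := by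
      rintro z ⟨m, k, h⟩
      exact ⟨(m, k), h.symm⟩
    exact (Set.countable_range _).mono this
  have hc2 : {y : ℂ | Lat a b (x - y)}.Countable := by
    have : {y : ℂ | Lat a b (x - y)} = (fun y => x - y) ⁻¹' {z | Lat a b z} := rfl
    rw [this]
    exact hc.preimage (sub_right_injective)
  have h0 := hc2.measure_zero volume
  rw [ae_iff]
  simpa using h0

theorem pr_V_gib (hG : V_G) (htr : V_tr) (hconv : V_conv) (hexp : V_exp) : V_gib := by
  intro a b F hF ε hε hε1 g hg hg0 hg1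
  have ha := hF.apos
  have hb := hF.bpos
  obtain ⟨hSc, hS0, hSz, hGp, hGe, -⟩ := hG a b F hF
  obtain ⟨hexpi, hexpp⟩ := hexp a b F hF ε hε hε1
  obtain ⟨hci, hcc, hcp, hcbm⟩ := hconv a b F hF g hg
  obtain ⟨-, -, htr3⟩ := htr a b ha hb
  obtain ⟨M, hM⟩ := hg.bdd
  obtain ⟨M', hM'⟩ := hcbm.bdd
  set Z : ℝ := ti a b (fun z => Sf a b F z ^ (-(1 - ε))) with hZ
  -- integrability of `g log g`
  have hgl : ∃ C, ∀ z, |g z * Real.log (g z)| ≤ C := by
    obtain ⟨C, hC⟩ := (isCompact_Icc (a := (0 : ℝ)) (b := M)).bddAbove_image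
      (Real.continuous_mul_log.abs.continuousOn)
    refine ⟨C, fun z => hC ⟨g z, ⟨hg0 z, (le_abs_self _).trans (hM z)⟩, rfl⟩⟩
  obtain ⟨C, hC⟩ := hgl
  have hglm : Measurable (fun z => g z * Real.log (g z)) :=
    hg.meas.mul (Real.measurable_log.comp hg.meas)
  have hgli : IntegrableOn (fun z => g z * Real.log (g z)) (rect a b 0) :=
    V_gib_bint a b ha hb hglm hC
  have hgi : IntegrableOn g (rect a b 0) := V_gib_bint a b ha hb hg.meas hM
  -- the shifted exponential
  have hE : ∀ x : ℂ, IntegrableOn (fun y => Sf a b F (x - y) ^ (-(1 - ε))) (rect a b 0) ∧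
      ti a b (fun y => Sf a b F (x - y) ^ (-(1 - ε))) = Z := by
    intro x
    have hper : Per a b (fun z => Sf a b F z ^ (-(1 - ε))) := fun z => by
      constructor
      · show Sf a b F (z + a) ^ (-(1 - ε)) = Sf a b F z ^ (-(1 - ε))
        rw [(hF.per z).1]
      · show Sf a b F (z + b * I) ^ (-(1 - ε)) = Sf a b F z ^ (-(1 - ε))
        rw [(hF.per z).2]
    have h1 := htr3 _ hper hexpi (-x)
    have h2 : (fun z => Sf a b F (z + -x) ^ (-(1 - ε))) =
        fun y => Sf a b F (x - y) ^ (-(1 - ε)) := by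
      funext y
      rw [show x - y = -(y + -x) by ring, hF.even]
    rw [h2] at h1
    exact h1
  have key : ∀ x : ℂ, 4 * π * (1 - ε) * gg a b F g x ≤
      ti a b (fun z => g z * Real.log (g z)) + Real.log Z := by
    intro x
    obtain ⟨hE1, hE2⟩ := hE x
    have hpt : ∀ᵐ y : ℂ ∂(volume.restrict (rect a b 0)),
        4 * π * (1 - ε) * (Gr a b F (x - y) * g y) ≤
          g y * Real.log (g y) + Real.log Z * g y + (1 / Z) * Sf a b F (x - y) ^ (-(1 - ε)) -
            g y := by
      refine (ae_restrict_of_ae (V_gib_lat a b x)).mono fun y hy => ?_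
      have hSp : 0 < Sf a b F (x - y) :=
        lt_of_le_of_ne (hS0 _) fun h => hy ((hSz _).1 h.symm)
      set S := Sf a b F (x - y) with hS
      have hEp : 0 < S ^ (-(1 - ε)) := Real.rpow_pos_of_pos hSp _
      have hφ : 4 * π * (1 - ε) * (Gr a b F (x - y) * g y) = Real.log (S ^ (-(1 - ε))) * g y := by
        rw [Real.log_rpow hSp, Gr, ← hS]
        have hpi := Real.pi_pos.ne'
        field_simp
      rw [hφ]
      rcases (hg0 y).eq_or_lt with h | h
      · rw [← h]
        have : 0 ≤ 1 / Z * S ^ (-(1 - ε)) := by positivity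
        simpa using this
      · have h1 := Real.log_le_sub_one_of_pos (x := S ^ (-(1 - ε)) / (Z * g y)) (by positivity)
        rw [Real.log_div hEp.ne' (by positivity), Real.log_mul hexpp.ne' h.ne'] at h1
        have h2 := mul_le_mul_of_nonneg_left h1 h.le
        have h3 : g y * (S ^ (-(1 - ε)) / (Z * g y) - 1) = 1 / Z * S ^ (-(1 - ε)) - g y := by
          field_simp
        rw [h3] at h2
        linarith
    have hi1 : IntegrableOn (fun y => 4 * π * (1 - ε) * (Gr a b F (x - y) * g y)) (rect a b 0) :=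
      (hci x).const_mul _
    have hi2 : IntegrableOn (fun y => g y * Real.log (g y) + Real.log Z * g y) (rect a b 0) :=
      hgli.add (hgi.const_mul _)
    have hi3 : IntegrableOn (fun y => g y * Real.log (g y) + Real.log Z * g y +
        (1 / Z) * Sf a b F (x - y) ^ (-(1 - ε))) (rect a b 0) := hi2.add (hE1.const_mul _)
    have h4 := integral_mono_ae hi1 (hi3.sub hgi) hpt
    have h5 : ∫ y in rect a b 0, 4 * π * (1 - ε) * (Gr a b F (x - y) * g y) =
        4 * π * (1 - ε) * gg a b F g x := by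
      rw [integral_const_mul]
      rfl
    have h6 : ∫ y in rect a b 0, (g y * Real.log (g y) + Real.log Z * g y +
        (1 / Z) * Sf a b F (x - y) ^ (-(1 - ε)) - g y) =
        ti a b (fun z => g z * Real.log (g z)) + Real.log Z * 1 + 1 / Z * Z - 1 := by
      have e1 : ∫ y in rect a b 0, g y = 1 := hg1
      have e2 : ∫ y in rect a b 0, Sf a b F (x - y) ^ (-(1 - ε)) = Z := hE2
      have s1 := integral_sub hi3 hgi
      have s2 := integral_add hi2 (hE1.const_mul (1 / Z))
      have s3 := integral_add hgli (hgi.const_mul (Real.log Z))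
      rw [s1, s2, s3, integral_const_mul, integral_const_mul, e1, e2]
      rfl
    have h7 : ∫ y in rect a b 0, 4 * π * (1 - ε) * (Gr a b F (x - y) * g y) ≤
        ∫ y in rect a b 0, (g y * Real.log (g y) + Real.log Z * g y +
        (1 / Z) * Sf a b F (x - y) ^ (-(1 - ε)) - g y) := h4
    rw [h5, h6] at h7
    have h8 : 1 / Z * Z = 1 := by
      rw [one_div, inv_mul_cancel₀ hexpp.ne']
    linarith
  have hL : IntegrableOn (fun x => 4 * π * (1 - ε) * (g x * gg a b F g x)) (rect a b 0) := by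
    refine (V_gib_bint a b ha hb (M := M * M') (hg.meas.mul hcbm.meas) fun z => ?_).const_mul _
    rw [Pi.mul_apply, abs_mul]
    exact mul_le_mul (hM z) (hM' z) (abs_nonneg _) ((abs_nonneg _).trans (hM z))
  have hR : IntegrableOn (fun x => (ti a b (fun z => g z * Real.log (g z)) + Real.log Z) * g x)
      (rect a b 0) := hgi.const_mul _
  have h9 := setIntegral_mono hL hR (fun x => by
    have := mul_le_mul_of_nonneg_left (key x) (hg0 x)
    show 4 * π * (1 - ε) * (g x * gg a b F g x) ≤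
      (ti a b (fun z => g z * Real.log (g z)) + Real.log Z) * g x
    linarith)
  rw [integral_const_mul, integral_const_mul] at h9
  have e1 : ∫ y in rect a b 0, g y = 1 := hg1
  rw [e1, mul_one] at h9
  exact h9

end Pool.Agent.Vx

end
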