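import Pool.Agent.Work.MP_afe918_an.Bd.B06
import Pool.Agent.Work.MP_afe918_an.Bd.B02
import Pool.Agent.Work.MP_afe918_an.Bd.B07
import Pool.Agent.Work.MP_afe918_an.Bd.B01

/-! Bundle of small proof modules (one section per former module). -/

section

/-!
# MP_afe918_an, block W, item WS1: the first moment is `O(R)`
-/

set_option autoImplicit false

open Complex Set Filter Topology MeasureTheory Metric
open scoped Real ContDiff ComplexConjugate

namespace Pool.Agent.Vx

theorem WS1_mo_le (s : ℝ) (E : ℂ → ℝ) (hE : ∀ z, 0 ≤ E z) (f : ℂ → ℂ) :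
    ‖mo s E f‖ ≤ ∫ z in ball (0 : ℂ) s, ‖f z‖ * E z := by
  unfold mo
  refine (norm_integral_le_integral_norm _).trans (le_of_eq ?_)
  refine integral_congr_ae (Eventually.of_forall fun z => ?_)
  simp only [norm_mul, Complex.norm_real, Real.norm_eq_abs, abs_of_nonneg (hE z)]

theorem WS1_intc (s : ℝ) (f : ℂ → ℝ) (hf : Continuous f) : IntegrableOn f (ball (0 : ℂ) s) :=
  (hf.continuousOn.integrableOn_compact (isCompact_closedBall (0 : ℂ) s)).mono_set
    ball_subset_closedBall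

theorem WS1_intcC (s : ℝ) (f : ℂ → ℂ) (hf : Continuous f) : IntegrableOn f (ball (0 : ℂ) s) :=
  (hf.continuousOn.integrableOn_compact (isCompact_closedBall (0 : ℂ) s)).mono_set
    ball_subset_closedBall

/-- integrability with a bounded measurable factor -/
theorem WS1_intb (s : ℝ) (g : ℂ → ℂ) (hg : Measurable g) (B : ℝ)
    (hB : ∀ z ∈ ball (0 : ℂ) s, ‖g z‖ ≤ B) (f : ℂ → ℂ) (hf : Continuous f) :
    IntegrableOn (fun z => g z * f z) (ball (0 : ℂ) s) := by
  refine Integrable.bdd_mul (c := B) (WS1_intcC s f hf) hg.aestronglyMeasurable ?_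
  exact (ae_restrict_iff' measurableSet_ball).2 (Eventually.of_forall hB)

theorem pr_WS1 (h1 : S_WRI) (h2 : S_WM3) : S_WS1 := by
  intro r H Λ R lam eta kap h E hT
  have hp := hT.pl
  have hr := hp.rpos
  obtain ⟨K, hK⟩ := h1 r H Λ R lam eta h E hp
  obtain ⟨C3, hC3⟩ := h2 r H Λ R lam eta kap h E hT
  obtain ⟨Ce, hCe⟩ := hT.eta
  obtain ⟨Co, hCo⟩ := hp.out (r / 4) (by positivity)
  obtain ⟨Kb, hKb⟩ := (Metric.isBounded_range_of_tendsto _ hT.k0).bddAbove
  have hkb : ∀ j, kap j ≤ Kb := fun j => hKb ⟨j, rfl⟩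
  have hRr : ∀ j, R j ≤ r := fun j => by
    have := hp.small j
    have := hp.Rpos j
    linarith
  -- eta tends to zero
  have heta0 : Tendsto eta atTop (𝓝 0) := by
    refine squeeze_zero (fun j => (hp.etapos j).le) hCe ?_
    have h3 := (hT.k0.const_mul Ce).mul (hp.R0.pow 4)
    simpa using h3
  -- the mass in the ball of radius r/(4R)
  have hmass : Tendsto (fun j => ms (r / (4 * R j)) (E j)) atTop (𝓝 (16 * π)) := by
    have h3 : ∀ j, |ms (r / R j) (E j) - ms (r / (4 * R j)) (E j)| ≤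
        (|Co| * eta j) * (π * r ^ 2) := by
      intro j
      have hR := hp.Rpos j
      have hEc := (hp.loc j).cont
      have hE0 := (hp.loc j).nonneg
      have hle : r / (4 * R j) ≤ r / R j := by
        apply div_le_div_of_nonneg_left hr.le hR
        linarith
      have hsub : ball (0 : ℂ) (r / (4 * R j)) ⊆ ball 0 (r / R j) := ball_subset_ball hle
      have h4 : ms (r / R j) (E j) - ms (r / (4 * R j)) (E j) =
          ∫ z in ball (0 : ℂ) (r / R j) \ ball 0 (r / (4 * R j)), E j z := by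
        unfold ms
        rw [setIntegral_sdiff measurableSet_ball (WS1_intc _ _ hEc) hsub]
      rw [h4, abs_of_nonneg (setIntegral_nonneg (measurableSet_ball.diff measurableSet_ball)
        fun z _ => hE0 z)]
      have h5 : ∫ z in ball (0 : ℂ) (r / R j) \ ball 0 (r / (4 * R j)), E j z ≤
          ∫ z in ball (0 : ℂ) (r / R j) \ ball 0 (r / (4 * R j)), |Co| * R j ^ 2 * eta j := by
        refine setIntegral_mono_on ((WS1_intc _ _ hEc).mono_set sdiff_subset) ?_
          (measurableSet_ball.diff measurableSet_ball) fun z hz => ?_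
        · refine IntegrableOn.mono_set ?_ sdiff_subset
          exact WS1_intc _ _ continuous_const
        · have h6 := hCo j z hz.1 (by
            have h7 := hz.2
            rw [mem_ball_zero_iff, not_lt] at h7
            have h8 : r / 4 / R j = r / (4 * R j) := by rw [div_div]
            rw [h8]
            exact h7)
          refine h6.trans ?_
          have h7 := le_abs_self Co
          have h8 := hp.etapos j
          gcongr
      refine h5.trans ?_
      have h6 : ∫ z in ball (0 : ℂ) (r / R j) \ ball 0 (r / (4 * R j)), |Co| * R j ^ 2 * eta j ≤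
          ∫ z in ball (0 : ℂ) (r / R j), |Co| * R j ^ 2 * eta j := by
        refine setIntegral_mono_set (WS1_intc _ _ continuous_const) ?_
          sdiff_subset.eventuallyLE
        have h8 := hp.etapos j
        exact Eventually.of_forall fun z => by positivity
      refine h6.trans (le_of_eq ?_)
      rw [setIntegral_const, smul_eq_mul]
      have h7 : volume.real (ball (0 : ℂ) (r / R j)) = π * (r / R j) ^ 2 := by
        rw [Measure.real, Complex.volume_ball]
        have h9 : (0 : ℝ) ≤ r / R j := by positivity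
        rw [ENNReal.toReal_mul, ENNReal.toReal_pow, ENNReal.toReal_ofReal h9]
        simp
        ring
      rw [h7]
      field_simp
    have h4 : Tendsto (fun j => ms (r / R j) (E j) - ms (r / (4 * R j)) (E j)) atTop (𝓝 0) := by
      rw [tendsto_zero_iff_norm_tendsto_zero]
      refine squeeze_zero (fun j => norm_nonneg _) h3 ?_
      have h5 := (heta0.const_mul |Co|).mul_const (π * r ^ 2)
      simpa using h5
    have h5 := hp.mass.sub h4
    simpa using h5
  have hm : ∀ᶠ j in atTop, 7 / 2 ≤ ms (r / (4 * R j)) (E j) / (4 * π) := by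
    have hpi := Real.pi_pos
    have h3 : Tendsto (fun j => ms (r / (4 * R j)) (E j) / (4 * π)) atTop (𝓝 4) := by
      have h4 := hmass.div_const (4 * π)
      have h5 : 16 * π / (4 * π) = 4 := by field_simp; norm_num
      rwa [h5] at h4
    exact h3.eventually (eventually_ge_nhds (by norm_num))
  refine ⟨2 * (|K| * (9 * (r / 4)) * (|Ce| * |Kb| * r ^ 2) + H * C3 + Λ * r / 4 * C3), ?_⟩
  filter_upwards [hK, hm] with j hKj hmj
  have hR := hp.Rpos j
  have hEc := (hp.loc j).cont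
  have hE0 := (hp.loc j).nonneg
  set ρ : ℝ := r / (4 * R j) with hρ
  have hρpos : 0 < ρ := by positivity
  have hρle : ρ ≤ r / R j := by
    apply div_le_div_of_nonneg_left hr.le hR
    linarith
  have hsub : ball (0 : ℂ) ρ ⊆ ball 0 (r / R j) := ball_subset_ball hρle
  have hH0 : 0 ≤ H := by
    have h3 := hp.hH j 0 (mem_ball_self (by positivity))
    have h4 := norm_nonneg (deriv (h j) 0)
    by_contra hneg
    push Not at hneg
    nlinarith
  obtain ⟨hc3, hc2, -, -⟩ := hC3 j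
  have hC30 : 0 ≤ C3 := le_trans (setIntegral_nonneg measurableSet_ball fun z _ => by
    have := hE0 z
    positivity) hc3
  -- the Pohozaev identity
  have hc := hKj (9 * ρ) (fun i => if i = 2 then 1 else 0) (by
    intro i _
    split_ifs with hi
    · subst hi
      rw [norm_one]
      nlinarith
    · rw [norm_zero, zero_mul]
      positivity)
  have e1 : ∀ z : ℂ, (∑ i ∈ Finset.range 6, (if i = 2 then (1 : ℂ) else 0) * i * z ^ (i - 1)) =
      2 * z := by
    intro z
    simp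
  have e2 : ∀ z : ℂ, (∑ i ∈ Finset.range 6, (if i = 2 then (1 : ℂ) else 0) * z ^ i) = z ^ 2 := by
    intro z
    simp
  have e3 : ∑ i ∈ Finset.range 6, (if i = 2 then (1 : ℂ) else 0) * ∑ k ∈ Finset.range i,
      mo ρ (E j) (fun z => z ^ k) * mo ρ (E j) (fun z => z ^ (i - 1 - k)) =
      2 * (mo ρ (E j) (fun z => z ^ 0) * mo ρ (E j) (fun z => z ^ 1)) := by
    simp [Finset.sum_range_succ]
    ring
  rw [e3] at hc
  simp only [e1, e2] at hc
  have hm0 : mo ρ (E j) (fun z => z ^ 0) = (ms ρ (E j) : ℂ) := by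
    unfold mo ms
    simp only [pow_zero, one_mul]
    exact integral_ofReal
  have hm1 : mo ρ (E j) (fun z => z ^ 1) = mo ρ (E j) (fun z => z) := by
    simp only [pow_one]
  rw [hm0, hm1] at hc
  set m1 : ℂ := mo ρ (E j) (fun z => z) with hm1d
  set lm : ℝ := lam j * R j ^ 2 with hlm
  have hdm : Measurable (deriv (h j)) := measurable_deriv _
  have hdb : ∀ z ∈ ball (0 : ℂ) ρ, ‖deriv (h j) z‖ ≤ H * R j := fun z hz => hp.hH j z (hsub hz)
  have i1 : IntegrableOn (fun z => 3 * (z * (E j z : ℂ))) (ball (0 : ℂ) ρ) :=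
    WS1_intcC _ _ (by fun_prop)
  have i2 : IntegrableOn (fun z => deriv (h j) z * (z ^ 2 * (E j z : ℂ))) (ball (0 : ℂ) ρ) :=
    WS1_intb ρ _ hdm _ hdb _ (by fun_prop)
  have i3 : IntegrableOn (fun z => (lm : ℂ) / 4 * (z ^ 2 * conj z * (E j z : ℂ)))
      (ball (0 : ℂ) ρ) := WS1_intcC _ _ (by fun_prop)
  have hsplit : mo ρ (E j) (fun z => 2 * z + z ^ 2 * (1 / z + deriv (h j) z - (lm : ℂ) / 4 * conj z)) =
      3 * m1 + mo ρ (E j) (fun z => z ^ 2 * deriv (h j) z) -
        (lm : ℂ) / 4 * mo ρ (E j) (fun z => z ^ 2 * conj z) := by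
    have e4 : ∀ z : ℂ, (2 * z + z ^ 2 * (1 / z + deriv (h j) z - (lm : ℂ) / 4 * conj z)) *
        (E j z : ℂ) = (3 * (z * (E j z : ℂ)) + deriv (h j) z * (z ^ 2 * (E j z : ℂ))) -
          (lm : ℂ) / 4 * (z ^ 2 * conj z * (E j z : ℂ)) := by
      intro z
      by_cases hz : z = 0
      · subst hz; simp
      · field_simp
        ring
    rw [hm1d]
    unfold mo
    have i12 : IntegrableOn (fun z => 3 * (z * (E j z : ℂ)) +
        deriv (h j) z * (z ^ 2 * (E j z : ℂ))) (ball (0 : ℂ) ρ) := i1.add i2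
    rw [integral_congr_ae (Eventually.of_forall e4), integral_sub i12 i3,
      integral_add i1 i2, integral_const_mul, integral_const_mul]
    congr 2
    refine integral_congr_ae (Eventually.of_forall fun z => ?_)
    simp only
    ring
  have hc' : ‖mo ρ (E j) (fun z => 2 * z + z ^ 2 * (1 / z + deriv (h j) z - (lm : ℂ) / 4 * conj z)) -
      1 / (8 * π) * (2 * ((ms ρ (E j) : ℂ) * m1))‖ ≤ K * (9 * ρ) * eta j := by
    convert hc using 3
  rw [hsplit] at hc'
  -- the bounds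
  have b1 : ‖mo ρ (E j) (fun z => z ^ 2 * deriv (h j) z)‖ ≤ H * C3 * R j := by
    refine (WS1_mo_le _ _ hE0 _).trans ?_
    have h3 : ∫ z in ball (0 : ℂ) ρ, ‖z ^ 2 * deriv (h j) z‖ * E j z ≤
        ∫ z in ball (0 : ℂ) ρ, H * R j * (‖z‖ ^ 2 * E j z) := by
      refine integral_mono_of_nonneg (Eventually.of_forall fun z => ?_)
        (WS1_intc _ _ (by fun_prop)) ?_
      · have := hE0 z
        simp only [Pi.zero_apply]
        positivity
      · refine (ae_restrict_iff' measurableSet_ball).2 (Eventually.of_forall fun z hz => ?_)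
        simp only [norm_mul, norm_pow]
        have h4 := hdb z hz
        have h5 := hE0 z
        calc ‖z‖ ^ 2 * ‖deriv (h j) z‖ * E j z ≤ ‖z‖ ^ 2 * (H * R j) * E j z := by gcongr
          _ = _ := by ring
    refine h3.trans ?_
    rw [integral_const_mul]
    have h4 : ∫ z in ball (0 : ℂ) ρ, ‖z‖ ^ 2 * E j z ≤ C3 := by
      refine le_trans (setIntegral_mono_set (WS1_intc _ _ (by fun_prop)) ?_
        hsub.eventuallyLE) hc2
      refine Eventually.of_forall fun z => ?_
      have := hE0 z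
      simp only [Pi.zero_apply]
      positivity
    calc H * R j * ∫ z in ball (0 : ℂ) ρ, ‖z‖ ^ 2 * E j z ≤ H * R j * C3 := by gcongr
      _ = _ := by ring
  have b2 : ‖mo ρ (E j) (fun z => z ^ 2 * conj z)‖ ≤ C3 := by
    refine (WS1_mo_le _ _ hE0 _).trans ?_
    have h3 : ∀ z : ℂ, ‖z ^ 2 * conj z‖ * E j z = ‖z‖ ^ 3 * E j z := by
      intro z
      rw [norm_mul, norm_pow, RCLike.norm_conj]
      ring
    rw [integral_congr_ae (Eventually.of_forall h3)]
    refine le_trans (setIntegral_mono_set (WS1_intc _ _ (by fun_prop)) ?_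
      hsub.eventuallyLE) hc3
    refine Eventually.of_forall fun z => ?_
    have := hE0 z
    simp only [Pi.zero_apply]
    positivity
  have b3 : K * (9 * ρ) * eta j ≤ |K| * (9 * (r / 4)) * (|Ce| * |Kb| * r ^ 2) * R j := by
    have h3 : eta j ≤ |Ce| * |Kb| * R j ^ 4 := by
      refine (hCe j).trans ?_
      have h4 := le_abs_self Ce
      have h5 := (hkb j).trans (le_abs_self Kb)
      have h6 := (hT.kpos j).le
      gcongr
    have h4 := le_abs_self K
    have h5 := (hp.etapos j).le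
    have h6 : R j ^ 2 ≤ r ^ 2 := by
      have := hRr j
      gcongr
    calc K * (9 * ρ) * eta j ≤ |K| * (9 * ρ) * (|Ce| * |Kb| * R j ^ 4) := by gcongr
      _ = |K| * (9 * (r / 4)) * (|Ce| * |Kb| * R j ^ 2) * R j := by
          rw [hρ]; field_simp
      _ ≤ |K| * (9 * (r / 4)) * (|Ce| * |Kb| * r ^ 2) * R j := by gcongr
  have b4 : ‖(lm : ℂ) / 4 * mo ρ (E j) (fun z => z ^ 2 * conj z)‖ ≤ Λ * r / 4 * C3 * R j := by
    rw [norm_mul, norm_div, Complex.norm_real, Real.norm_eq_abs]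
    obtain ⟨hl0, hl1⟩ := hp.lamb j
    have h3 : |lm| ≤ Λ * r * R j := by
      rw [abs_of_nonneg (by positivity), hlm]
      have := hRr j
      have hΛ : 0 ≤ Λ := hl0.trans hl1
      calc lam j * R j ^ 2 = lam j * R j * R j := by ring
        _ ≤ Λ * r * R j := by gcongr
    have h4 : ‖(4 : ℂ)‖ = 4 := by simp
    rw [h4]
    calc |lm| / 4 * ‖mo ρ (E j) (fun z => z ^ 2 * conj z)‖ ≤ Λ * r * R j / 4 * C3 := by
          have : 0 ≤ Λ * r * R j := (abs_nonneg _).trans h3
          gcongr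
      _ = _ := by ring
  -- conclusion
  have hpi : (π : ℂ) ≠ 0 := by exact_mod_cast Real.pi_ne_zero
  have e5 : ((3 - ms ρ (E j) / (4 * π) : ℝ) : ℂ) * m1 =
      (3 * m1 + mo ρ (E j) (fun z => z ^ 2 * deriv (h j) z) -
        (lm : ℂ) / 4 * mo ρ (E j) (fun z => z ^ 2 * conj z) -
          1 / (8 * π) * (2 * ((ms ρ (E j) : ℂ) * m1))) -
        mo ρ (E j) (fun z => z ^ 2 * deriv (h j) z) +
        (lm : ℂ) / 4 * mo ρ (E j) (fun z => z ^ 2 * conj z) := by
    push_cast
    field_simp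
    ring
  have e6 : ‖((3 - ms ρ (E j) / (4 * π) : ℝ) : ℂ) * m1‖ ≤
      |K| * (9 * (r / 4)) * (|Ce| * |Kb| * r ^ 2) * R j + H * C3 * R j +
        Λ * r / 4 * C3 * R j := by
    rw [e5]
    refine (norm_add_le _ _).trans (add_le_add ((norm_sub_le _ _).trans (add_le_add ?_ b1)) b4)
    exact hc'.trans b3
  rw [norm_mul, Complex.norm_real, Real.norm_eq_abs] at e6
  have e7 : 1 / 2 ≤ |3 - ms ρ (E j) / (4 * π)| := by
    rw [abs_of_nonpos (by linarith)]
    linarith
  have e8 : 1 / 2 * ‖m1‖ ≤ |3 - ms ρ (E j) / (4 * π)| * ‖m1‖ := by gcongr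
  nlinarith
end Pool.Agent.Vx

end

section

/-!
# MP_afe918_an, block W: scale invariant bound away from the bubbles
-/

set_option autoImplicit false

open Complex Set Filter Topology MeasureTheory Metric
open scoped Real ContDiff ComplexConjugate

namespace Pool.Agent.Vx

theorem WScale_ms (f : ℂ → ℝ) (q : ℂ) (s : ℝ) :
    ms s (fun w => f (q + w)) = ∫ z in ball q s, f z := by
  have h := (measurePreserving_add_left (volume : Measure ℂ) q).setIntegral_preimage_emb
    (MeasurableEquiv.addLeft q).measurableEmbedding f (ball q s)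
  have e : (fun x => q + x) ⁻¹' ball q s = ball (0 : ℂ) s := by
    ext x; simp [dist_eq_norm]
  rw [e] at h
  exact h

theorem pr_WScale (h1 : S_WUB) (h2 : S_Rec1) (h3 : S_Small) : S_WScale := by
  intro r H Λ R lam eta h E hp
  obtain ⟨M, hM0, hM⟩ := W_mass hp.pl
  have hr := hp.pl.rpos
  have hH0 : 0 ≤ H := by
    have hR := hp.pl.Rpos 0
    have h0 : (0 : ℂ) ∈ ball (0 : ℂ) (r / R 0) := by
      simp; positivity
    have := (norm_nonneg _).trans (hp.pl.hH 0 0 h0)
    exact nonneg_of_mul_nonneg_left this hR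
  have hΛ0 : 0 ≤ Λ := (hp.pl.lamb 0).1.trans (hp.pl.lamb 0).2
  obtain ⟨C, hC⟩ := h3 0 (Λ * r ^ 2 + H * r + 1 + Λ * r ^ 2 + M)
  refine ⟨16 * C, ?_⟩
  have hT := (h1 r H Λ R lam eta h E hp (1 / 2) (by norm_num) le_rfl).1
  filter_upwards [hT.eventually_lt_const (show (0 : ℝ) < 1 by norm_num)] with j hj z hz2 hzr t ht
  have hR := hp.pl.Rpos j
  have hL := hp.pl.loc j
  have hE := hL.cont
  have hEn := hL.nonneg
  obtain ⟨hl0, hl1⟩ := hp.pl.lamb j
  have hz0 : 0 < ‖z‖ := by linarith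
  set ρ : ℝ := ‖z‖ / 4 with hρ
  have hρ0 : 0 < ρ := by positivity
  have hzR : ‖z‖ * R j ≤ r / 4 := by
    have : r / (4 * R j) * R j = r / 4 := by field_simp
    rw [← this]; exact mul_le_mul_of_nonneg_right hzr hR.le
  have hrR : 4 * ‖z‖ ≤ r / R j := by
    rw [le_div_iff₀ hR]; linarith
  have hrR0 : 0 < r / R j := by positivity
  obtain ⟨g, hg, -, hd⟩ := h2 (r / R j) 1 (lam j * R j ^ 2) (h j) (E j) z ρ hL hρ0
    (by rw [hρ]; linarith) (by rw [hρ]; linarith)
  -- the mass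
  have hsub : ball z ρ ⊆ ball 0 (r / R j) \ (ball 1 (1 / 2) ∪ ball (-1) (1 / 2)) := by
    intro y hy
    rw [mem_ball, dist_eq_norm] at hy
    have a1 : ‖y‖ ≤ ‖z‖ + ‖y - z‖ := by
      have : y = z + (y - z) := by ring
      nth_rewrite 1 [this]; exact norm_add_le _ _
    have a2 : ‖z‖ ≤ ‖y‖ + ‖y - z‖ := by
      have : z = y - (y - z) := by ring
      nth_rewrite 1 [this]; exact norm_sub_le _ _
    refine ⟨?_, ?_⟩
    · rw [mem_ball_zero_iff]; linarith
    · rintro (hy1 | hy1)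
      · rw [mem_ball, dist_eq_norm] at hy1
        have : ‖y‖ ≤ ‖y - 1‖ + 1 := by
          have e : y = (y - 1) + 1 := by ring
          nth_rewrite 1 [e]
          exact (norm_add_le _ _).trans (by simp)
        linarith
      · rw [mem_ball, dist_eq_norm] at hy1
        have : ‖y‖ ≤ ‖y - -1‖ + 1 := by
          have e : y = (y - -1) + -1 := by ring
          nth_rewrite 1 [e]
          exact (norm_add_le _ _).trans (by simp)
        linarith
  have hint : IntegrableOn (E j) (ball 0 (r / R j)) :=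
    (hE.continuousOn.integrableOn_compact (isCompact_closedBall 0 (r / R j))).mono_set
      ball_subset_closedBall
  have hmass : ms ρ (fun w => E j (z + w)) ≤ 1 := by
    rw [WScale_ms]
    refine le_trans ?_ hj.le
    exact setIntegral_mono_set (hint.mono_set sdiff_subset)
      (Eventually.of_forall fun y => hEn y) hsub.eventuallyLE
  -- the derivative
  have hder : ∀ w ∈ ball (0 : ℂ) (ρ / 2), ‖deriv g w‖ * ρ ≤
      Λ * r ^ 2 + H * r + 1 + Λ * r ^ 2 + M := by
    intro w hw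
    rw [mem_ball_zero_iff] at hw
    have hw' : w ∈ ball (0 : ℂ) ρ := by rw [mem_ball_zero_iff]; linarith
    rw [hd w hw']
    have b1 : ‖deriv (h j) (z + w)‖ ≤ H * R j := by
      apply hp.pl.hH j
      rw [mem_ball_zero_iff]
      have := norm_add_le z w
      linarith
    have b2 : ‖((1 : ℕ) : ℂ) / (z + w)‖ ≤ 1 / ρ := by
      have : ‖z‖ ≤ ‖z + w‖ + ‖w‖ := by
        have e : z = (z + w) - w := by ring
        nth_rewrite 1 [e]; exact norm_sub_le _ _
      rw [norm_div]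
      simp only [Nat.cast_one, norm_one]
      apply one_div_le_one_div_of_le hρ0
      linarith
    have b3 : ‖((lam j * R j ^ 2 : ℝ) : ℂ) / 4 * conj z‖ ≤ Λ * R j ^ 2 * ρ := by
      rw [norm_mul, norm_div, Complex.norm_real, RCLike.norm_conj, Real.norm_of_nonneg (by positivity)]
      rw [hρ]
      have : ‖(4 : ℂ)‖ = 4 := by simp
      rw [this]
      have : lam j * R j ^ 2 ≤ Λ * R j ^ 2 := by gcongr
      nlinarith
    have b4 : ‖∫ y in ball (0 : ℂ) (r / R j) \ ball z ρ, (E j y : ℂ) / (z + w - y)‖ ≤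
        2 / ρ * M := by
      have c1 : ‖∫ y in ball (0 : ℂ) (r / R j) \ ball z ρ, (E j y : ℂ) / (z + w - y)‖ ≤
          ∫ y in ball (0 : ℂ) (r / R j) \ ball z ρ, 2 / ρ * E j y := by
        apply norm_integral_le_of_norm_le ((hint.mono_set sdiff_subset).const_mul _)
        refine (ae_restrict_iff' (measurableSet_ball.diff measurableSet_ball)).2
          (Eventually.of_forall fun y hy => ?_)
        have hy2 : ρ ≤ ‖y - z‖ := by
          have := hy.2
          rw [mem_ball, dist_eq_norm, not_lt] at this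
          exact this
        have : ‖y - z‖ ≤ ‖z + w - y‖ + ‖w‖ := by
          have e : y - z = w - (z + w - y) := by ring
          rw [e]; exact (norm_sub_le _ _).trans (by linarith)
        have h5 : ρ / 2 ≤ ‖z + w - y‖ := by linarith
        rw [norm_div, Complex.norm_real, Real.norm_of_nonneg (hEn y)]
        rw [div_le_iff₀ (by linarith)]
        have h6 : 1 ≤ 2 / ρ * ‖z + w - y‖ := by
          rw [div_mul_eq_mul_div, le_div_iff₀ hρ0]; linarith
        have := mul_le_mul_of_nonneg_left h6 (hEn y)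
        linarith
      refine c1.trans ?_
      rw [integral_const_mul]
      have c2 : ∫ y in ball (0 : ℂ) (r / R j) \ ball z ρ, E j y ≤ M := by
        refine le_trans ?_ (hM j)
        exact setIntegral_mono_set hint (Eventually.of_forall fun y => hEn y)
          (sdiff_subset : _ ⊆ ball (0 : ℂ) (r / R j)).eventuallyLE
      gcongr
    have b5 : ‖(1 : ℂ) / (4 * π)‖ ≤ 1 / 2 := by
      have : ((1 : ℂ) / (4 * π)) = ((1 / (4 * π) : ℝ) : ℂ) := by push_cast; ring
      rw [this, Complex.norm_real, Real.norm_of_nonneg (by positivity)]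
      rw [div_le_div_iff₀ (by positivity) (by norm_num)]
      linarith [Real.pi_gt_three]
    have b6 : ‖(1 : ℂ) / (4 * π) * ∫ y in ball (0 : ℂ) (r / R j) \ ball z ρ,
        (E j y : ℂ) / (z + w - y)‖ ≤ 1 / 2 * (2 / ρ * M) := by
      rw [norm_mul]
      exact mul_le_mul b5 b4 (norm_nonneg _) (by norm_num)
    have b7 : ‖deriv (h j) (z + w) + ((1 : ℕ) : ℂ) / (z + w) -
        ((lam j * R j ^ 2 : ℝ) : ℂ) / 4 * conj z -
        1 / (4 * π) * ∫ y in ball (0 : ℂ) (r / R j) \ ball z ρ, (E j y : ℂ) / (z + w - y)‖ ≤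
        H * R j + 1 / ρ + Λ * R j ^ 2 * ρ + 1 / 2 * (2 / ρ * M) :=
      (norm_sub_le _ _).trans (add_le_add ((norm_sub_le _ _).trans
        (add_le_add ((norm_add_le _ _).trans (add_le_add b1 b2)) b3)) b6)
    have b8 := mul_le_mul_of_nonneg_right b7 hρ0.le
    refine b8.trans ?_
    have hρR : ρ * R j ≤ r := by rw [hρ]; linarith
    have hρR0 : 0 ≤ ρ * R j := by positivity
    have e1 : (H * R j + 1 / ρ + Λ * R j ^ 2 * ρ + 1 / 2 * (2 / ρ * M)) * ρ =
        H * (ρ * R j) + 1 + Λ * (ρ * R j) ^ 2 + M := by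
      field_simp
    rw [e1]
    have e2 : (ρ * R j) ^ 2 ≤ r ^ 2 := by gcongr
    have e3 := mul_le_mul_of_nonneg_left e2 hΛ0
    have e4 := mul_le_mul_of_nonneg_left hρR hH0
    have e5 : 0 ≤ Λ * r ^ 2 := by positivity
    linarith
  have hlam : lam j * R j ^ 2 * ρ ^ 2 ≤ Λ * r ^ 2 + H * r + 1 + Λ * r ^ 2 + M := by
    have hρR : ρ * R j ≤ r := by rw [hρ]; linarith
    have hρR0 : 0 ≤ ρ * R j := by positivity
    have e2 : (ρ * R j) ^ 2 ≤ r ^ 2 := by gcongr
    have e3 : lam j * (ρ * R j) ^ 2 ≤ Λ * r ^ 2 := mul_le_mul hl1 e2 (by positivity) hΛ0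
    have e4 : 0 ≤ H * r := by positivity
    have e5 : 0 ≤ Λ * r ^ 2 := by positivity
    have e6 : lam j * R j ^ 2 * ρ ^ 2 = lam j * (ρ * R j) ^ 2 := by ring
    linarith
  have hmem : t - z ∈ ball (0 : ℂ) (ρ / 4) := by
    rw [mem_ball, dist_eq_norm] at ht
    rw [mem_ball_zero_iff, hρ]
    linarith
  have hfin := (hC ρ (lam j * R j ^ 2) g (fun w => E j (z + w)) hg hlam hder hmass (t - z) hmem).2
  have e : z + (t - z) = t := by ring
  simp only [e] at hfin
  have e7 : ‖z‖ ^ 2 = 16 * ρ ^ 2 := by rw [hρ]; ring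
  rw [e7]
  linarith

end Pool.Agent.Vx

end

section

/-! MP_afe918_an, block W, item WTB: all properties of two bubbles. -/

set_option autoImplicit false

open Complex Set Filter Topology MeasureTheory Metric
open scoped Real ContDiff ComplexConjugate

namespace Pool.Agent.Vx

theorem WTB_tr {F : Type} [NormedAddCommGroup F] [NormedSpace ℝ F] (q : ℂ) (ρ : ℝ) (f : ℂ → F) :
    ∫ y in ball q ρ, f y = ∫ y in ball (0 : ℂ) ρ, f (q + y) := by
  have h := (measurePreserving_add_left (volume : Measure ℂ) q).setIntegral_preimage_emb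
    (measurableEmbedding_addLeft q) f (ball q ρ)
  rw [← h]
  congr 1
  congr 1
  ext y
  simp [mem_ball, dist_eq_norm]

theorem WTB_int {F : Type} [NormedAddCommGroup F] [NormedSpace ℝ F] (ρ : ℝ) (f : ℂ → F)
    (hf : Continuous f) : IntegrableOn f (ball (0 : ℂ) ρ) :=
  (hf.continuousOn.integrableOn_compact (isCompact_closedBall _ _)).mono_set ball_subset_closedBall

theorem WTB_q (h1 : S_WBU) (h2 : S_n0) (h3 : S_A) (h4 : S_BUf) {r H Λ : ℝ}
    {R lam eta kap : ℕ → ℝ} {h : ℕ → ℂ → ℂ} {E : ℕ → ℂ → ℝ}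
    (hp : PX r H Λ R lam eta kap h E) (q : ℂ) (hq : q = 1 ∨ q = -1) :
    Tendsto (fun j => bc q (E j)) atTop (𝓝 q) ∧
    Tendsto (fun j => (8 * π - bm q (E j)) / ba q (E j)) atTop (𝓝 0) ∧
    Tendsto (fun j => ba q (E j) / kap j) atTop atTop ∧
    Tendsto (fun j => ba q (E j)) atTop (𝓝 0) ∧
    Tendsto (fun j => (∫ z in ball q (1 / 4), (z - bc q (E j)) ^ 2 * (E j z : ℂ)) /
      (ba q (E j) : ℂ)) atTop (𝓝 0) := by
  obtain ⟨H', Λ', c, g, hc, hB, hcg⟩ := h1 r H Λ R lam eta kap h E hp q hq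
  obtain ⟨b, hb⟩ : ∃ b : ℕ → ℂ, ∀ j, b j = mo (1 / 4) (fun w => E j (q + w)) (fun z => z) /
    ms (1 / 4) (fun w => E j (q + w)) := ⟨_, fun j => rfl⟩
  obtain ⟨hb0, hd, hq2⟩ := h2 (3 / 4) H' Λ' _ g _ hB (1 / 4) (by norm_num) (by norm_num) b hb
  obtain ⟨hm, -, -, hA0, -⟩ := h4 (3 / 4) 0 H' Λ' _ g _ hB b hb0 (1 / 4) (by norm_num)
    (by norm_num)
  have hAe := h3 (3 / 4) 0 H' Λ' _ g _ hB b hb0 (1 / 4) (by norm_num) (by norm_num)
  have hcont : ∀ j, Continuous (E j) := fun j => (hp.pw.pl.loc j).cont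
  have hnn : ∀ j z, 0 ≤ E j z := fun j => (hp.pw.pl.loc j).nonneg
  have hbm : ∀ j, bm q (E j) = ms (1 / 4) (fun w => E j (q + w)) := fun j => WTB_tr q _ _
  have hmpos : ∀ᶠ j in atTop, 0 < ms (1 / 4) (fun w => E j (q + w)) := by
    refine hm.eventually_const_lt ?_
    have := Real.pi_pos
    push_cast
    positivity
  have hbc : ∀ᶠ j in atTop, bc q (E j) = q + b j := by
    filter_upwards [hmpos] with j hj
    have hne : ((ms (1 / 4) (fun w => E j (q + w)) : ℝ) : ℂ) ≠ 0 := by exact_mod_cast hj.ne'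
    have e1 : ∫ z in ball q (1 / 4), z * (E j z : ℂ) =
        q * (ms (1 / 4) (fun w => E j (q + w)) : ℂ) +
          mo (1 / 4) (fun w => E j (q + w)) (fun z => z) := by
      have hEc := hcont j
      rw [WTB_tr]
      have e2 : ∀ y : ℂ, (q + y) * (E j (q + y) : ℂ) =
          q * ((E j (q + y) : ℝ) : ℂ) + y * ((E j (q + y) : ℝ) : ℂ) := fun y => by ring
      simp_rw [e2]
      rw [integral_add (WTB_int _ _ (by fun_prop)) (WTB_int _ _ (by fun_prop)),
        integral_const_mul, integral_complex_ofReal]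
      rfl
    show (∫ z in ball q (1 / 4), z * (E j z : ℂ)) / (bm q (E j) : ℂ) = q + b j
    rw [e1, hbm, hb j]
    field_simp
  have hba : ∀ᶠ j in atTop, ba q (E j) = ∫ z in ball (0 : ℂ) (1 / 4), ‖z - b j‖ ^ 2 * E j (q + z) := by
    filter_upwards [hbc] with j hj
    show ∫ z in ball q (1 / 4), ‖z - bc q (E j)‖ ^ 2 * E j z = _
    rw [hj, WTB_tr]
    refine setIntegral_congr_fun measurableSet_ball fun y _ => ?_
    show ‖q + y - (q + b j)‖ ^ 2 * E j (q + y) = _
    rw [show q + y - (q + b j) = y - b j by ring]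
  have hlam : Tendsto (fun j => lam j * R j ^ 2 / 4) atTop (𝓝 0) := by
    have e1 : Tendsto (fun j => Λ * R j ^ 2 / 4) atTop (𝓝 0) := by
      have := ((hp.pw.pl.R0.pow 2).const_mul Λ).div_const 4
      simpa using this
    refine squeeze_zero (fun j => ?_) (fun j => ?_) e1
    · have := (hp.pw.pl.lamb j).1
      positivity
    · have e2 := (hp.pw.pl.lamb j).2
      have e3 : 0 ≤ R j ^ 2 := sq_nonneg _
      have := mul_le_mul_of_nonneg_right e2 e3
      linarith
  refine ⟨?_, ?_, ?_, ?_, ?_⟩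
  · have e1 : Tendsto (fun j => q + b j) atTop (𝓝 q) := by simpa using hb0.const_add q
    exact e1.congr' (hbc.mono fun j hj => hj.symm)
  · have e1 := hd.add hlam
    simp only [sub_add_cancel, add_zero] at e1
    refine e1.congr' ?_
    filter_upwards [hba] with j hj
    rw [hj, hbm]
  · have e1 : Tendsto (fun j => c * ((∫ z in ball (0 : ℂ) (1 / 4), ‖z - b j‖ ^ 2 * E j (q + z)) /
        et (g j))) atTop atTop := hAe.const_mul_atTop hc
    refine tendsto_atTop_mono' _ ?_ e1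
    filter_upwards [hba, hcg] with j hj hcj
    rw [hj]
    have e2 : 0 ≤ ∫ z in ball (0 : ℂ) (1 / 4), ‖z - b j‖ ^ 2 * E j (q + z) :=
      setIntegral_nonneg measurableSet_ball fun z _ => mul_nonneg (sq_nonneg _) (hnn _ _)
    have e3 : 0 < et (g j) := Real.exp_pos _
    have hk := hp.kpos j
    rw [← mul_div_assoc, div_le_div_iff₀ e3 hk]
    calc c * (∫ z in ball (0 : ℂ) (1 / 4), ‖z - b j‖ ^ 2 * E j (q + z)) * kap j =
          (∫ z in ball (0 : ℂ) (1 / 4), ‖z - b j‖ ^ 2 * E j (q + z)) * (c * kap j) := by ring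
      _ ≤ _ := mul_le_mul_of_nonneg_left hcj e2
  · exact hA0.congr' (hba.mono fun j hj => hj.symm)
  · refine hq2.congr' ?_
    filter_upwards [hba, hbc] with j hj hj2
    have e1 : mo (1 / 4) (fun w => E j (q + w)) (fun z => (z - b j) ^ 2) =
        ∫ z in ball q (1 / 4), (z - bc q (E j)) ^ 2 * (E j z : ℂ) := by
      rw [hj2, WTB_tr]
      unfold mo
      refine setIntegral_congr_fun (measurableSet_ball (x := (0 : ℂ)) (ε := 1 / 4)) fun y _ => ?_
      show (y - b j) ^ 2 * (E j (q + y) : ℂ) = (q + y - (q + b j)) ^ 2 * (E j (q + y) : ℂ)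
      rw [show q + y - (q + b j) = y - b j by ring]
    rw [← e1, hj]

theorem pr_WTB (h1 : S_WBU) (h2 : S_n0) (h3 : S_A) (h4 : S_BUf) : S_WTB := by
  intro r H Λ R lam eta kap h E hp
  obtain ⟨a1, a2, a3, a4, a5⟩ := WTB_q h1 h2 h3 h4 hp 1 (Or.inl rfl)
  obtain ⟨c1, c2, c3, c4, c5⟩ := WTB_q h1 h2 h3 h4 hp (-1) (Or.inr rfl)
  exact
    { pl := hp.pw.pl
      kpos := hp.kpos
      k0 := hp.k0
      comp := hp.upc
      tail := hp.tail
      eta := hp.eta
      dd := hp.dd
      b1 := a1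
      b2 := c1
      m1 := a2
      m2 := c2
      a1 := a3
      a2 := c3
      a10 := a4
      a20 := c4
      q1 := a5
      q2 := c5 }

end Pool.Agent.Vx

end

section

/-!
# MP_afe918_an, block W: the mass of two bubbles, final step (helper86)
-/

set_option autoImplicit false

open Complex Set Filter Topology MeasureTheory Metric
open scoped Real ContDiff ComplexConjugate

namespace Pool.Agent.Vx

theorem TBfin_ba0 (c : ℂ) (E : ℂ → ℝ) (hE : ∀ z, 0 ≤ E z) : 0 ≤ ba c E := by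
  unfold ba
  exact integral_nonneg fun z => mul_nonneg (by positivity) (hE z)

theorem TBfin_mo0 (s : ℝ) (E : ℂ → ℝ) : mo s E (fun z => z ^ 0) = (ms s E : ℂ) := by
  unfold mo ms
  simp only [pow_zero, one_mul]
  exact integral_ofReal

/-- division step -/
theorem TBfin_div (d w : ℕ → ℂ) (l : ℕ → ℝ) (Λ : ℝ) (hl : ∀ j, |l j| ≤ Λ)
    (h : Tendsto (fun j => 2 * d j * w j - (l j : ℂ) / 2) atTop (𝓝 0))
    (hw : Tendsto w atTop (𝓝 1)) : Tendsto (fun j => d j - (l j : ℂ) / 4) atTop (𝓝 0) := by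
  have h1 : Tendsto (fun j => (w j)⁻¹) atTop (𝓝 1) := by
    simpa using hw.inv₀ one_ne_zero
  have h2 : Tendsto (fun j => (2 * d j * w j - (l j : ℂ) / 2) * (w j)⁻¹ / 2) atTop (𝓝 0) := by
    simpa using (h.mul h1).div_const 2
  have h3 : Tendsto (fun j => (l j : ℂ) * ((w j)⁻¹ - 1) / 4) atTop (𝓝 0) := by
    have h4 : Tendsto (fun j => (w j)⁻¹ - 1) atTop (𝓝 0) := by
      simpa using h1.sub_const 1
    have h5 : Tendsto (fun j => (l j : ℂ) * ((w j)⁻¹ - 1)) atTop (𝓝 0) := by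
      rw [tendsto_zero_iff_norm_tendsto_zero] at h4 ⊢
      refine squeeze_zero (fun j => norm_nonneg _) (fun j => ?_) (by simpa using h4.const_mul Λ)
      rw [norm_mul, Complex.norm_real, Real.norm_eq_abs]
      exact mul_le_mul_of_nonneg_right (hl j) (norm_nonneg _)
    simpa using h5.div_const 4
  have h6 := h2.add h3
  rw [add_zero] at h6
  refine h6.congr' ?_
  filter_upwards [hw.eventually_ne one_ne_zero] with j hj
  field_simp
  ring

theorem pr_TBfin (hRI : S_WRI) (hCf : S_WCf) (hInt : S_WInt) (hAlg : S_WAlg) (hQf : S_WQf)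
    (hLam : S_WLam) (hExp : S_WExp) (hMatch : S_WMatch) (hM3 : S_WM3) (hTay : S_WTay) :
    S_TBfin := by
  intro r H Λ R lam eta kap h E hT
  have hPL := hT.pl
  obtain ⟨sp, sm, hM⟩ := hMatch r H Λ R lam eta kap h E hT
  obtain ⟨K, hK⟩ := hRI r H Λ R lam eta h E hPL
  obtain ⟨C1, hC1⟩ := hCf r H Λ R lam eta kap h E sp sm hT hM
  have hq := hQf r H Λ R lam eta kap h E sp sm hT hM
  have hL := hLam r H Λ R lam eta kap h E sp sm hT hM
  obtain ⟨hE1, hE2⟩ := hExp r H Λ R lam eta kap h E hT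
  obtain ⟨C3, hC3⟩ := hM3 r H Λ R lam eta kap h E hT
  obtain ⟨C4, hC4⟩ := hTay r H Λ R lam eta h E hPL
  obtain ⟨C5, hC5⟩ := hT.eta
  obtain ⟨C6, hC6⟩ := hM.S
  set At : ℕ → ℝ := fun j => ba 1 (E j) + ba (-1) (E j) with hAt
  have hEnn : ∀ j z, 0 ≤ E j z := fun j => (hPL.loc j).nonneg
  have hb1 : ∀ᶠ j in atTop, 0 < ba 1 (E j) := by
    filter_upwards [hT.a1.eventually_gt_atTop 0] with j hj
    by_contra hc
    have h0 : ba 1 (E j) ≤ 0 := not_lt.1 hc
    exact absurd (div_nonpos_of_nonpos_of_nonneg h0 (hT.kpos j).le) (not_le.2 hj)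
  have hAtpos : ∀ᶠ j in atTop, 0 < At j := by
    filter_upwards [hb1] with j hj
    exact add_pos_of_pos_of_nonneg hj (TBfin_ba0 _ _ (hEnn j))
  have hAt0 : Tendsto At atTop (𝓝 0) := by
    simpa using hT.a10.add hT.a20
  have hkA : Tendsto (fun j => kap j / At j) atTop (𝓝 0) := by
    have h1 : Tendsto (fun j => (ba 1 (E j) / kap j)⁻¹) atTop (𝓝 0) :=
      tendsto_inv_atTop_zero.comp hT.a1
    refine squeeze_zero' ?_ ?_ h1
    · filter_upwards [hAtpos] with j hj
      exact div_nonneg (hT.kpos j).le hj.le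
    · filter_upwards [hb1] with j hj
      rw [inv_div]
      exact div_le_div_of_nonneg_left (hT.kpos j).le hj
        (le_add_of_nonneg_right (TBfin_ba0 _ _ (hEnn j)))
  have hR0 := hPL.R0
  have hRpos := hPL.Rpos
  -- the moments
  set m : ℕ → ℕ → ℂ := fun j k => mo (r / (4 * R j)) (E j) (fun z => z ^ k) with hm
  set g1 : ℕ → ℂ := fun j => gg1 (h j) with hg1
  set g2 : ℕ → ℂ := fun j => gg2 (h j) with hg2
  have hg1b : ∀ j, ‖g1 j‖ ≤ |C4| * R j := by
    intro j
    simp only [hg1, gg1, norm_neg]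
    exact le_trans (hC4 j).1 (mul_le_mul_of_nonneg_right (le_abs_self _) (hRpos j).le)
  have hg2b : ∀ j, ‖g2 j‖ ≤ (C4 ^ 2 + |C4|) * R j ^ 2 := by
    intro j
    simp only [hg2, gg2]
    rw [norm_div]
    have h2 : ‖(2 : ℂ)‖ = 2 := by simp
    rw [h2]
    have h3 : ‖deriv (h j) 0 ^ 2 - deriv (deriv (h j)) 0‖ ≤ C4 ^ 2 * R j ^ 2 + |C4| * R j ^ 2 := by
      refine le_trans (norm_sub_le _ _) (add_le_add ?_ ?_)
      · rw [norm_pow, ← mul_pow]
        exact pow_le_pow_left₀ (norm_nonneg _) (hC4 j).1 2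
      · exact le_trans (hC4 j).2.1
          (mul_le_mul_of_nonneg_right (le_abs_self _) (by positivity))
    have h4 : 0 ≤ C4 ^ 2 * R j ^ 2 + |C4| * R j ^ 2 := by positivity
    linarith
  have hg10 : Tendsto g1 atTop (𝓝 0) := by
    rw [tendsto_zero_iff_norm_tendsto_zero]
    exact squeeze_zero (fun j => norm_nonneg _) hg1b (by simpa using hR0.const_mul |C4|)
  have hg20 : Tendsto g2 atTop (𝓝 0) := by
    rw [tendsto_zero_iff_norm_tendsto_zero]
    exact squeeze_zero (fun j => norm_nonneg _) hg2b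
      (by simpa using (hR0.pow 2).const_mul (C4 ^ 2 + |C4|))
  have hS0 : Tendsto (fun j => sp j + sm j) atTop (𝓝 0) := by
    simpa using hM.p1.add hM.p2
  have hP : Tendsto (fun j => sp j * sm j) atTop (𝓝 (-1)) := by
    simpa using hM.p1.mul hM.p2
  have hPne : ∀ᶠ j in atTop, sp j * sm j ≠ 0 := hP.eventually_ne (by simp)
  have hPinv : Tendsto (fun j => (sp j * sm j)⁻¹) atTop (𝓝 (-1)) := by
    have := hP.inv₀ (by simp)
    simpa using this
  -- the third moment
  set d3 : ℕ → ℂ := fun j => m j 3 - 8 * π * (sp j ^ 3 + sm j ^ 3) with hd3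
  set d4 : ℕ → ℂ := fun j => m j 4 - 8 * π * (sp j ^ 4 + sm j ^ 4) with hd4
  have hAtC : Tendsto (fun j => ((At j : ℝ) : ℂ)) atTop (𝓝 0) := by
    have := (Complex.continuous_ofReal.tendsto 0).comp hAt0
    rw [Complex.ofReal_zero] at this
    exact this
  have hd3A : Tendsto (fun j => d3 j / ((At j : ℝ) : ℂ)) atTop (𝓝 0) := by
    have h1 := hE1 3 (by norm_num) (by norm_num)
    have h2 : Tendsto (fun j => (sp j - bc 1 (E j)) / ((At j : ℝ) : ℂ) *
        (sp j ^ 2 + sp j * bc 1 (E j) + bc 1 (E j) ^ 2)) atTop (𝓝 0) := by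
      have := hM.p.mul (((hM.p1.pow 2).add (hM.p1.mul hT.b1)).add (hT.b1.pow 2))
      rw [zero_mul] at this
      exact this
    have h3 : Tendsto (fun j => (sm j - bc (-1) (E j)) / ((At j : ℝ) : ℂ) *
        (sm j ^ 2 + sm j * bc (-1) (E j) + bc (-1) (E j) ^ 2)) atTop (𝓝 0) := by
      have := hM.m.mul (((hM.p2.pow 2).add (hM.p2.mul hT.b2)).add (hT.b2.pow 2))
      rw [zero_mul] at this
      exact this
    have h4 := h1.sub ((h2.add h3).const_mul (8 * π : ℂ))
    simp only [add_zero, mul_zero, sub_zero] at h4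
    refine h4.congr fun j => ?_
    simp only [hd3, hm, hAt]
    ring
  have hd30 : Tendsto d3 atTop (𝓝 0) := by
    have h1 := hd3A.mul hAtC
    rw [zero_mul] at h1
    refine h1.congr' ?_
    filter_upwards [hAtpos] with j hj
    exact div_mul_cancel₀ _ (by exact_mod_cast hj.ne')
  have hm4 : ∀ j, ‖m j 4‖ * R j ≤ C3 := by
    intro j
    have h1 : ‖m j 4‖ ≤ ∫ z in ball (0 : ℂ) (r / (4 * R j)), ‖z‖ ^ 4 * E j z := by
      simp only [hm]
      unfold mo
      refine le_trans (norm_integral_le_integral_norm _) (le_of_eq ?_)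
      refine integral_congr_ae (Eventually.of_forall fun z => ?_)
      simp only [norm_mul, norm_pow, Complex.norm_real, Real.norm_eq_abs, abs_of_nonneg (hEnn j z)]
    calc ‖m j 4‖ * R j ≤ (∫ z in ball (0 : ℂ) (r / (4 * R j)), ‖z‖ ^ 4 * E j z) * R j :=
          mul_le_mul_of_nonneg_right h1 (hRpos j).le
      _ ≤ C3 := by
          rw [mul_comm]
          exact (hC3 j).2.2.2
  have hg2d4 : Tendsto (fun j => g2 j * d4 j) atTop (𝓝 0) := by
    have h1 : Tendsto (fun j => g2 j * m j 4) atTop (𝓝 0) := by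
      rw [tendsto_zero_iff_norm_tendsto_zero]
      refine squeeze_zero (fun j => norm_nonneg _) (fun j => ?_)
        (by simpa using hR0.const_mul ((C4 ^ 2 + |C4|) * C3))
      rw [norm_mul]
      calc ‖g2 j‖ * ‖m j 4‖ ≤ ((C4 ^ 2 + |C4|) * R j ^ 2) * ‖m j 4‖ :=
            mul_le_mul_of_nonneg_right (hg2b j) (norm_nonneg _)
        _ = ((C4 ^ 2 + |C4|) * R j) * (‖m j 4‖ * R j) := by ring
        _ ≤ ((C4 ^ 2 + |C4|) * R j) * C3 :=
            mul_le_mul_of_nonneg_left (hm4 j) (mul_nonneg (by positivity) (hRpos j).le)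
        _ = (C4 ^ 2 + |C4|) * C3 * R j := by ring
    have h2 : Tendsto (fun j => g2 j * (8 * π * (sp j ^ 4 + sm j ^ 4))) atTop (𝓝 0) := by
      have := hg20.mul (((hM.p1.pow 4).add (hM.p2.pow 4)).const_mul (8 * π : ℂ))
      simpa using this
    have h3 := h1.sub h2
    rw [sub_zero] at h3
    refine h3.congr fun j => ?_
    simp only [hd4]
    ring
  -- the defect
  have hXpos : ∀ᶠ j in atTop, 0 < R j ^ 2 * At j := by
    filter_upwards [hAtpos] with j hj
    exact mul_pos (pow_pos (hRpos j) 2) hj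
  have hX0 : Tendsto (fun j => R j ^ 2 * At j) atTop (𝓝 0) := by
    have := (hR0.pow 2).mul hAt0
    simpa using this
  have hms : Tendsto (fun j => ms (r / (4 * R j)) (E j)) atTop (𝓝 (16 * π)) := by
    have h1 := hE2.mul hX0
    rw [zero_mul] at h1
    have h2 : Tendsto (fun j => ms (r / R j) (E j) - ms (r / (4 * R j)) (E j)) atTop (𝓝 0) := by
      refine h1.congr' ?_
      filter_upwards [hXpos] with j hj
      exact div_mul_cancel₀ _ hj.ne'
    have h3 := hPL.mass.sub h2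
    rw [sub_zero] at h3
    refine h3.congr fun j => ?_
    ring
  set D : ℕ → ℂ := fun j => 16 * π - m j 0 with hD
  have hDr : ∀ j, D j = ((16 * π - ms (r / (4 * R j)) (E j) : ℝ) : ℂ) := by
    intro j
    simp only [hD, hm]
    rw [TBfin_mo0]
    push_cast
    ring
  have hD0 : Tendsto D atTop (𝓝 0) := by
    have h1 : Tendsto (fun j => 16 * π - ms (r / (4 * R j)) (E j)) atTop (𝓝 0) := by
      have := hms.const_sub (16 * π)
      simpa using this
    have h2 := (Complex.continuous_ofReal.tendsto 0).comp h1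
    rw [Complex.ofReal_zero] at h2
    refine h2.congr fun j => ?_
    exact (hDr j).symm
  set F : ℕ → ℂ := fun j => (g1 j - (sp j + sm j) * g2 j) / (sp j * sm j) * d3 j +
    g2 j / (sp j * sm j) * d4 j with hF
  have hF0 : Tendsto F atTop (𝓝 0) := by
    have h1 := ((hg10.sub (hS0.mul hg20)).mul hPinv).mul hd30
    have h2 := hg2d4.mul hPinv
    have h3 := h1.add h2
    simp only [mul_zero, zero_mul, add_zero] at h3
    refine h3.congr fun j => ?_
    simp only [hF]
    rw [div_eq_mul_inv, div_eq_mul_inv]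
    ring
  set w : ℕ → ℂ := fun j => 1 + D j / (16 * π) - F j / (8 * π) with hw
  have hw1 : Tendsto w atTop (𝓝 1) := by
    have := ((hD0.div_const (16 * π : ℂ)).const_add 1).sub (hF0.div_const (8 * π : ℂ))
    simpa using this
  -- the Pohozaev identity
  set c : ℕ → ℕ → ℂ := fun j => cf (sp j) (sm j) (g1 j) (g2 j) with hc
  set ex : ℕ → ℂ := fun j =>
    mo (r / (4 * R j)) (E j) (fun z => (∑ i ∈ Finset.range 6, c j i * i * z ^ (i - 1)) +
      (∑ i ∈ Finset.range 6, c j i * z ^ i) *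
        (1 / z + deriv (h j) z - (lam j * R j ^ 2 : ℝ) / 4 * conj z)) -
    1 / (8 * π) * ∑ i ∈ Finset.range 6, c j i * ∑ k ∈ Finset.range i,
      mo (r / (4 * R j)) (E j) (fun z => z ^ k) *
        mo (r / (4 * R j)) (E j) (fun z => z ^ (i - 1 - k)) with hex
  have hexb : ∀ᶠ j in atTop, ‖ex j‖ ≤ K * (C1 / R j ^ 2) * eta j := by
    filter_upwards [hK, hC1] with j h1 h2
    exact h1 (C1 / R j ^ 2) (c j) h2
  set Q : ℕ → ℂ := fun j => mo (r / (4 * R j)) (E j)
    (qf (sp j) (sm j) (gg1 (h j)) (gg2 (h j)) (h j)) with hQ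
  set L : ℕ → ℂ := fun j => mo (r / (4 * R j)) (E j)
    (fun z => vf (sp j) (sm j) (gg1 (h j)) (gg2 (h j)) z * conj z) with hLd
  have hid : ∀ᶠ j in atTop, ex j = -2 * D j - (sp j + sm j) * g2 j / (sp j * sm j) * d3 j -
      1 / (8 * π) * (D j ^ 2 - 2 * D j * F j) + Q j -
        ((lam j * R j ^ 2 : ℝ) : ℂ) / 4 * L j := by
    filter_upwards [hPne, hM.m1, hM.m2] with j hj h1 h2
    have hsp : sp j ≠ 0 := left_ne_zero_of_mul hj
    have hsm : sm j ≠ 0 := right_ne_zero_of_mul hj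
    have hs0 : 0 < r / (4 * R j) := div_pos hPL.rpos (by linarith [hRpos j])
    have hs1 : r / (4 * R j) < r / R j :=
      div_lt_div_of_pos_left hPL.rpos (hRpos j) (by linarith [hRpos j])
    have h3 := hInt (r / R j) (r / (4 * R j)) (lam j * R j ^ 2) (h j) (E j) (hPL.loc j) hs0 hs1
      (sp j) (sm j) (g1 j) (g2 j) hsp hsm
    have h4 := hAlg (m j 0) (m j 3) (m j 4) (sp j) (sm j) (g1 j) (g2 j) hsp hsm (m j) rfl
      (by simp only [hm, pow_one]; exact h1) h2 rfl rfl
    have h5 : ex j = mo (r / (4 * R j)) (E j)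
        (fun z => (∑ i ∈ Finset.range 6, c j i * i * z ^ (i - 1)) +
      (∑ i ∈ Finset.range 6, c j i * z ^ i) *
        (1 / z + deriv (h j) z - (lam j * R j ^ 2 : ℝ) / 4 * conj z)) -
    1 / (8 * π) * ∑ i ∈ Finset.range 6, c j i * ∑ k ∈ Finset.range i,
      m j k * m j (i - 1 - k) := rfl
    rw [h5]
    have h6 : mo (r / (4 * R j)) (E j)
        (fun z => (∑ i ∈ Finset.range 6, c j i * i * z ^ (i - 1)) +
      (∑ i ∈ Finset.range 6, c j i * z ^ i) *
        (1 / z + deriv (h j) z - (lam j * R j ^ 2 : ℝ) / 4 * conj z)) =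
      (∑ i ∈ Finset.range 6, c j i * (i + 1) * m j (i - 1)) -
    (sp j * sm j * g1 j * m j 1 +
      (2 * g2 j * (sp j * sm j) - (sp j + sm j) * g1 j) * m j 2 +
      (g1 j - 2 * g2 j * (sp j + sm j)) * m j 3 +
      2 * g2 j * m j 4) / (sp j * sm j) + Q j - ((lam j * R j ^ 2 : ℝ) : ℂ) / 4 * L j := h3
    rw [h6]
    linear_combination h4
  have hmain : ∀ᶠ j in atTop, 2 * (D j / ((R j ^ 2 * At j : ℝ) : ℂ)) * w j - (lam j : ℂ) / 2 =
      -(ex j / ((R j ^ 2 * At j : ℝ) : ℂ)) -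
        ((sp j + sm j) * g2 j / ((R j ^ 2 : ℝ) : ℂ)) * (sp j * sm j)⁻¹ *
          (d3 j / ((At j : ℝ) : ℂ)) +
        Q j / ((R j ^ 2 * At j : ℝ) : ℂ) -
        (lam j : ℂ) / 4 * (L j / ((At j : ℝ) : ℂ) + 2) := by
    filter_upwards [hid, hAtpos, hPne] with j h1 h2 h3
    have hR : (R j : ℂ) ≠ 0 := by exact_mod_cast (hRpos j).ne'
    have hA : ((At j : ℝ) : ℂ) ≠ 0 := by exact_mod_cast h2.ne'
    have hpi : (π : ℂ) ≠ 0 := by exact_mod_cast Real.pi_ne_zero
    rw [h1]
    simp only [hw]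
    push_cast
    generalize hAt' : ((At j : ℝ) : ℂ) = a at *
    generalize sp j + sm j = Sg at *
    generalize sp j * sm j = Pp at *
    field_simp
    ring
  -- the error terms
  have t1 : Tendsto (fun j => ex j / ((R j ^ 2 * At j : ℝ) : ℂ)) atTop (𝓝 0) := by
    rw [tendsto_zero_iff_norm_tendsto_zero]
    refine squeeze_zero' (Eventually.of_forall fun j => norm_nonneg _) ?_
      (by simpa using hkA.const_mul (|K| * |C1| * |C5|))
    filter_upwards [hexb, hAtpos] with j h1 h2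
    have hR := hRpos j
    have h3 : eta j ≤ |C5| * kap j * R j ^ 4 := by
      refine le_trans (hC5 j) ?_
      have := mul_le_mul_of_nonneg_right (le_abs_self C5) (hT.kpos j).le
      exact mul_le_mul_of_nonneg_right this (by positivity)
    have h4 : K * (C1 / R j ^ 2) * eta j ≤ |K| * |C1| * |C5| * kap j * R j ^ 2 := by
      have e1 : K * (C1 / R j ^ 2) ≤ |K| * |C1| / R j ^ 2 := by
        rw [← mul_div_assoc]
        refine div_le_div_of_nonneg_right ?_ (by positivity)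
        rw [← abs_mul]
        exact le_abs_self _
      calc K * (C1 / R j ^ 2) * eta j ≤ |K| * |C1| / R j ^ 2 * eta j :=
            mul_le_mul_of_nonneg_right e1 (hPL.etapos j).le
        _ ≤ |K| * |C1| / R j ^ 2 * (|C5| * kap j * R j ^ 4) :=
            mul_le_mul_of_nonneg_left h3 (by positivity)
        _ = |K| * |C1| * |C5| * kap j * R j ^ 2 := by
            field_simp
    rw [norm_div, Complex.norm_real, Real.norm_eq_abs,
      abs_of_pos (mul_pos (pow_pos hR 2) h2), div_le_iff₀ (mul_pos (pow_pos hR 2) h2)]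
    refine le_trans (le_trans h1 h4) (le_of_eq ?_)
    field_simp
  have t2 : Tendsto (fun j => ((sp j + sm j) * g2 j / ((R j ^ 2 : ℝ) : ℂ)) *
      (sp j * sm j)⁻¹ * (d3 j / ((At j : ℝ) : ℂ))) atTop (𝓝 0) := by
    have h1 : Tendsto (fun j => (sp j + sm j) * g2 j / ((R j ^ 2 : ℝ) : ℂ)) atTop (𝓝 0) := by
      rw [tendsto_zero_iff_norm_tendsto_zero]
      refine squeeze_zero' (Eventually.of_forall fun j => norm_nonneg _) ?_
        (by simpa using hR0.const_mul (|C6| * (C4 ^ 2 + |C4|)))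
      filter_upwards [hC6] with j h1
      have hR := hRpos j
      rw [norm_div, norm_mul, Complex.norm_real, Real.norm_eq_abs, abs_of_pos (pow_pos hR 2),
        div_le_iff₀ (pow_pos hR 2)]
      calc ‖sp j + sm j‖ * ‖g2 j‖ ≤ (|C6| * R j) * ((C4 ^ 2 + |C4|) * R j ^ 2) :=
            mul_le_mul (le_trans h1 (mul_le_mul_of_nonneg_right (le_abs_self _) hR.le))
              (hg2b j) (norm_nonneg _) (by positivity)
        _ = |C6| * (C4 ^ 2 + |C4|) * R j * R j ^ 2 := by ring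
    have h2 := (h1.mul hPinv).mul hd3A
    simp only [zero_mul] at h2
    exact h2
  have t4 : Tendsto (fun j => (lam j : ℂ) / 4 * (L j / ((At j : ℝ) : ℂ) + 2)) atTop (𝓝 0) := by
    have h1 : Tendsto (fun j => L j / ((At j : ℝ) : ℂ) + 2) atTop (𝓝 0) := by
      have := hL.add_const 2
      rw [show (-2 : ℂ) + 2 = 0 by ring] at this
      exact this
    rw [tendsto_zero_iff_norm_tendsto_zero] at h1 ⊢
    refine squeeze_zero (fun j => norm_nonneg _) (fun j => ?_) (by simpa using h1.const_mul (Λ / 4))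
    rw [norm_mul, norm_div, Complex.norm_real, Real.norm_eq_abs, abs_of_nonneg (hPL.lamb j).1]
    have h4 : ‖(4 : ℂ)‖ = 4 := by simp
    rw [h4]
    refine mul_le_mul_of_nonneg_right ?_ (norm_nonneg _)
    linarith [(hPL.lamb j).2]
  have hlim : Tendsto (fun j => 2 * (D j / ((R j ^ 2 * At j : ℝ) : ℂ)) * w j - (lam j : ℂ) / 2)
      atTop (𝓝 0) := by
    have h1 := ((t1.neg.sub t2).add hq).sub t4
    simp only [neg_zero, sub_zero, add_zero] at h1
    refine h1.congr' ?_
    filter_upwards [hmain] with j hj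
    rw [hj]
  have hfin := TBfin_div (fun j => D j / ((R j ^ 2 * At j : ℝ) : ℂ)) w lam Λ
    (fun j => by rw [abs_of_nonneg (hPL.lamb j).1]; exact (hPL.lamb j).2) hlim hw1
  have hre := (Complex.continuous_re.tendsto 0).comp hfin
  rw [Complex.zero_re] at hre
  have h1 := hre.sub hE2
  rw [sub_zero] at h1
  refine h1.congr fun j => ?_
  simp only [Function.comp_apply]
  rw [hDr j]
  have h2 : (((16 * π - ms (r / (4 * R j)) (E j) : ℝ) : ℂ) / ((R j ^ 2 * At j : ℝ) : ℂ) -
      (lam j : ℂ) / 4).re = (16 * π - ms (r / (4 * R j)) (E j)) / (R j ^ 2 * At j) - lam j / 4 := by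
    rw [← Complex.ofReal_div, show (lam j : ℂ) / 4 = ((lam j / 4 : ℝ) : ℂ) by push_cast; ring,
      ← Complex.ofReal_sub, Complex.ofReal_re]
  rw [h2]
  simp only [hAt]
  ring

end Pool.Agent.Vx

end

section

/-!
# MP_afe918_an, item WTail1: crude tail (helper49)
-/

set_option autoImplicit false

open Complex Set Filter Topology MeasureTheory Metric
open scoped Real ContDiff ComplexConjugate

namespace Pool.Agent.Vx

/-- Integrability of the logarithmic kernel against a continuous density. -/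
theorem WTail1_int (h5 : S_LogI) {ρ : ℝ} (hρ : 0 < ρ) {E : ℂ → ℝ} (hE : Continuous E) (z : ℂ) :
    IntegrableOn (fun y => Real.log ‖z - y‖ * E y) (ball (0 : ℂ) ρ) := by
  have h1 : IntegrableOn (fun y => Real.log ‖z - y‖) (closedBall (0 : ℂ) ρ) :=
    ((h5 0 z (ρ + 1) (by linarith)).1).mono_set (closedBall_subset_ball (by linarith))
  exact (h1.mul_continuousOn hE.continuousOn (isCompact_closedBall _ _)).mono_set
    ball_subset_closedBall

/-- Pointwise lower bound of the difference of the kernels. -/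
theorem WTail1_pt {z t : ℂ} (hz : 2 ≤ ‖z‖) (htz : t ≠ z) :
    (ball (1 : ℂ) (1 / 2) ∪ ball (-1) (1 / 2)).indicator (fun _ => Real.log ‖z‖) t
      - Real.log 48 - (ball z (‖z‖ / 16)).indicator (fun y => 3 * ‖z‖ * (1 / ‖z - y‖)) t
      ≤ Real.log ‖z - t‖ - Real.log ‖2 * I - t‖ := by
  have hzt : 0 < ‖z - t‖ := norm_pos_iff.2 (sub_ne_zero.2 (Ne.symm htz))
  have h2I : ‖(2 * I : ℂ)‖ = 2 := by simp
  have hC0 : 0 ≤ (ball z (‖z‖ / 16)).indicator (fun y => 3 * ‖z‖ * (1 / ‖z - y‖)) t :=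
    indicator_nonneg (fun y _ => by positivity) t
  have hlz : 0 < Real.log ‖z‖ := Real.log_pos (by linarith)
  have hup : ‖2 * I - t‖ ≤ 2 + ‖t‖ := by
    calc ‖2 * I - t‖ ≤ ‖(2 * I : ℂ)‖ + ‖t‖ := norm_sub_le _ _
      _ = 2 + ‖t‖ := by rw [h2I]
  have hlo : ‖z‖ - ‖t‖ ≤ ‖z - t‖ := norm_sub_norm_le z t
  have hlo2 : ‖t‖ - ‖z‖ ≤ ‖z - t‖ := by
    rw [norm_sub_rev]
    exact norm_sub_norm_le t z
  by_cases hA : t ∈ ball (1 : ℂ) (1 / 2) ∪ ball (-1) (1 / 2)
  · rw [indicator_of_mem hA]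
    have htn : ‖t‖ ≤ 3 / 2 := by
      rcases hA with h | h
      · rw [mem_ball, dist_eq_norm] at h
        have h1 : ‖t‖ ≤ ‖t - 1‖ + ‖(1 : ℂ)‖ := by
          calc ‖t‖ = ‖(t - 1) + 1‖ := by ring_nf
            _ ≤ _ := norm_add_le _ _
        rw [norm_one] at h1
        linarith
      · rw [mem_ball, dist_eq_norm] at h
        have h1 : ‖t‖ ≤ ‖t - (-1)‖ + ‖(-1 : ℂ)‖ := by
          calc ‖t‖ = ‖(t - (-1)) + (-1)‖ := by ring_nf
            _ ≤ _ := norm_add_le _ _
        rw [norm_neg, norm_one] at h1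
        linarith
    have h1 : ‖z‖ / 4 ≤ ‖z - t‖ := by linarith
    have h2 : ‖2 * I - t‖ ≤ 4 := by linarith
    have h3 : 0 < ‖2 * I - t‖ := by
      have : ‖(2 * I : ℂ)‖ - ‖t‖ ≤ ‖2 * I - t‖ := norm_sub_norm_le _ _
      rw [h2I] at this
      linarith
    have h4 : Real.log ‖z - t‖ ≥ Real.log ‖z‖ - Real.log 4 := by
      rw [← Real.log_div (by linarith) (by norm_num)]
      exact Real.log_le_log (by linarith) h1
    have h5 : Real.log ‖2 * I - t‖ ≤ Real.log 4 := Real.log_le_log h3 h2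
    have h6 : Real.log 4 + Real.log 4 ≤ Real.log 48 := by
      rw [← Real.log_mul (by norm_num) (by norm_num)]
      exact Real.log_le_log (by norm_num) (by norm_num)
    linarith
  · rw [indicator_of_notMem hA]
    by_cases hB : t ∈ ball z (‖z‖ / 16)
    · rw [indicator_of_mem hB]
      rw [mem_ball, dist_eq_norm] at hB
      have h1 : ‖t‖ ≤ 17 / 16 * ‖z‖ := by
        have : ‖t‖ ≤ ‖t - z‖ + ‖z‖ := by
          calc ‖t‖ = ‖(t - z) + z‖ := by ring_nf
            _ ≤ _ := norm_add_le _ _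
        linarith
      have h2 : ‖2 * I - t‖ ≤ 3 * ‖z‖ := by linarith
      have h3 : Real.log ‖2 * I - t‖ ≤ Real.log (3 * ‖z‖) := by
        rcases eq_or_lt_of_le (norm_nonneg (2 * I - t)) with h | h
        · rw [← h, Real.log_zero]
          exact Real.log_nonneg (by linarith)
        · exact Real.log_le_log h h2
      have h4 : Real.log (3 * ‖z‖) - Real.log ‖z - t‖ ≤ 3 * ‖z‖ * (1 / ‖z - t‖) := by
        rw [← Real.log_div (by positivity) hzt.ne']
        have h5 : 0 < 3 * ‖z‖ / ‖z - t‖ := by positivity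
        have h6 := Real.log_le_sub_one_of_pos h5
        rw [mul_one_div]
        linarith
      have h7 : 0 ≤ Real.log 48 := Real.log_nonneg (by norm_num)
      linarith
    · rw [indicator_of_notMem hB]
      rw [mem_ball, dist_eq_norm, not_lt, norm_sub_rev] at hB
      have h1 : ‖2 * I - t‖ ≤ 48 * ‖z - t‖ := by
        rcases le_total ‖t‖ (2 * ‖z‖) with h | h
        · linarith
        · linarith
      have h2 : Real.log ‖2 * I - t‖ ≤ Real.log (48 * ‖z - t‖) := by
        rcases eq_or_lt_of_le (norm_nonneg (2 * I - t)) with h | h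
        · rw [← h, Real.log_zero]
          exact Real.log_nonneg (by linarith)
        · exact Real.log_le_log h h1
      rw [Real.log_mul (by norm_num) hzt.ne'] at h2
      linarith

/-- Lower bound of the integral of the difference of the kernels. -/
theorem WTail1_J (h5 : S_LogI) {ρ M C1 : ℝ} (hρ : 8 < ρ) {E : ℂ → ℝ} (hE : Continuous E)
    (hE0 : ∀ z, 0 ≤ E z) (hM : ms ρ E ≤ M) (hA : 14 * π ≤ (∫ y in ball (1 : ℂ) (1 / 2), E y) +
      ∫ y in ball (-1 : ℂ) (1 / 2), E y) {z : ℂ} (hz : 2 ≤ ‖z‖) (hzρ : ‖z‖ ≤ ρ / 4)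
    (hC0 : 0 ≤ C1) (hC : ∀ t ∈ ball z (‖z‖ / 16), ‖z‖ ^ 2 * E t ≤ C1) :
    14 * π * Real.log ‖z‖ - (Real.log 48 * M + 2 * π * C1) ≤
      (∫ y in ball (0 : ℂ) ρ, Real.log ‖z - y‖ * E y) -
        ∫ y in ball (0 : ℂ) ρ, Real.log ‖2 * I - y‖ * E y := by
  have hρ0 : 0 < ρ := by linarith
  have hlz : 0 < Real.log ‖z‖ := Real.log_pos (by linarith)
  have hz0 : 0 < ‖z‖ := by linarith
  have hEi : ∀ (c : ℂ) (s : ℝ), IntegrableOn E (ball c s) := fun c s =>
    (hE.continuousOn.integrableOn_compact (isCompact_closedBall c s)).mono_set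
      ball_subset_closedBall
  set A : Set ℂ := ball (1 : ℂ) (1 / 2) ∪ ball (-1) (1 / 2) with hAdef
  set B : Set ℂ := ball z (‖z‖ / 16) with hBdef
  have hAm : MeasurableSet A := measurableSet_ball.union measurableSet_ball
  have hBm : MeasurableSet B := measurableSet_ball
  have hAs : A ⊆ ball (0 : ℂ) ρ := by
    rintro t (h | h)
    · rw [mem_ball, dist_eq_norm] at h
      rw [mem_ball_zero_iff]
      have h1 : ‖t‖ ≤ ‖t - 1‖ + ‖(1 : ℂ)‖ := by
        calc ‖t‖ = ‖(t - 1) + 1‖ := by ring_nf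
          _ ≤ _ := norm_add_le _ _
      rw [norm_one] at h1
      linarith
    · rw [mem_ball, dist_eq_norm] at h
      rw [mem_ball_zero_iff]
      have h1 : ‖t‖ ≤ ‖t - (-1)‖ + ‖(-1 : ℂ)‖ := by
        calc ‖t‖ = ‖(t - (-1)) + (-1)‖ := by ring_nf
          _ ≤ _ := norm_add_le _ _
      rw [norm_neg, norm_one] at h1
      linarith
  have hBs : B ⊆ ball (0 : ℂ) ρ := by
    intro t h
    rw [hBdef, mem_ball, dist_eq_norm] at h
    rw [mem_ball_zero_iff]
    have h1 : ‖t‖ ≤ ‖t - z‖ + ‖z‖ := by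
      calc ‖t‖ = ‖(t - z) + z‖ := by ring_nf
        _ ≤ _ := norm_add_le _ _
    linarith
  -- the three integrals
  have hk : IntegrableOn (fun y => 3 * ‖z‖ * (1 / ‖z - y‖) * E y) B := by
    have h1 : IntegrableOn (fun y => 1 / ‖z - y‖) (closedBall z (‖z‖ / 16)) :=
      ((pr_Riesz z z (‖z‖ / 16 + 1) (by positivity)).1).mono_set
        (closedBall_subset_ball (by linarith))
    have h2 : IntegrableOn (fun y => 3 * ‖z‖ * (1 / ‖z - y‖)) (closedBall z (‖z‖ / 16)) :=
      h1.const_mul _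
    exact (h2.mul_continuousOn hE.continuousOn (isCompact_closedBall _ _)).mono_set
      ball_subset_closedBall
  have i1 : IntegrableOn (fun y => A.indicator (fun _ => Real.log ‖z‖) y * E y)
      (ball (0 : ℂ) ρ) := by
    have : (fun y => A.indicator (fun _ => Real.log ‖z‖) y * E y) =
        A.indicator (fun y => Real.log ‖z‖ * E y) := by
      ext y
      by_cases h : y ∈ A
      · rw [indicator_of_mem h, indicator_of_mem h]
      · rw [indicator_of_notMem h, indicator_of_notMem h, zero_mul]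
    rw [this]
    exact ((hEi 0 ρ).const_mul _).indicator hAm
  have i2 : IntegrableOn (fun y => Real.log 48 * E y) (ball (0 : ℂ) ρ) := (hEi 0 ρ).const_mul _
  have e3 : (fun y => B.indicator (fun y => 3 * ‖z‖ * (1 / ‖z - y‖)) y * E y) =
      B.indicator (fun y => 3 * ‖z‖ * (1 / ‖z - y‖) * E y) := by
    ext y
    by_cases h : y ∈ B
    · rw [indicator_of_mem h, indicator_of_mem h]
    · rw [indicator_of_notMem h, indicator_of_notMem h, zero_mul]
  have i3 : IntegrableOn (fun y => B.indicator (fun y => 3 * ‖z‖ * (1 / ‖z - y‖)) y * E y)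
      (ball (0 : ℂ) ρ) := by
    rw [e3]
    exact ((integrable_indicator_iff hBm).2 hk).integrableOn
  have v1 : ∫ y in ball (0 : ℂ) ρ, A.indicator (fun _ => Real.log ‖z‖) y * E y =
      Real.log ‖z‖ * ((∫ y in ball (1 : ℂ) (1 / 2), E y) + ∫ y in ball (-1 : ℂ) (1 / 2), E y) := by
    have : (fun y => A.indicator (fun _ => Real.log ‖z‖) y * E y) =
        A.indicator (fun y => Real.log ‖z‖ * E y) := by
      ext y
      by_cases h : y ∈ A
      · rw [indicator_of_mem h, indicator_of_mem h]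
      · rw [indicator_of_notMem h, indicator_of_notMem h, zero_mul]
    rw [this, setIntegral_indicator hAm, inter_eq_self_of_subset_right hAs, integral_const_mul]
    congr 1
    have hd : Disjoint (ball (1 : ℂ) (1 / 2)) (ball (-1) (1 / 2)) := by
      apply ball_disjoint_ball
      rw [dist_eq_norm]
      have : ‖(1 : ℂ) - (-1)‖ = 2 := by
        rw [sub_neg_eq_add]
        norm_num
      rw [this]
      norm_num
    rw [hAdef, setIntegral_union hd measurableSet_ball (hEi _ _) (hEi _ _)]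
  have v2 : ∫ y in ball (0 : ℂ) ρ, Real.log 48 * E y = Real.log 48 * ms ρ E := by
    rw [integral_const_mul]
    rfl
  have v3 : ∫ y in ball (0 : ℂ) ρ, B.indicator (fun y => 3 * ‖z‖ * (1 / ‖z - y‖)) y * E y ≤
      2 * π * C1 := by
    rw [e3, setIntegral_indicator hBm, inter_eq_self_of_subset_right hBs]
    have h1 : ∫ y in B, 3 * ‖z‖ * (1 / ‖z - y‖) * E y ≤
        ∫ y in B, 3 * C1 / ‖z‖ * (1 / ‖z - y‖) := by
      apply setIntegral_mono_on hk _ hBm
      · intro y hy
        have h2 := hC y hy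
        have h3 : E y ≤ C1 / ‖z‖ ^ 2 := by
          rw [le_div_iff₀ (by positivity)]
          linarith
        calc 3 * ‖z‖ * (1 / ‖z - y‖) * E y ≤ 3 * ‖z‖ * (1 / ‖z - y‖) * (C1 / ‖z‖ ^ 2) := by
              gcongr
          _ = 3 * C1 / ‖z‖ * (1 / ‖z - y‖) := by
              rw [show ‖z‖ ^ 2 = ‖z‖ * ‖z‖ by ring]
              field_simp
      · exact ((pr_Riesz z z (‖z‖ / 16) (by positivity)).1).const_mul _
    refine h1.trans ?_
    rw [integral_const_mul]
    have h4 := (pr_Riesz z z (‖z‖ / 16) (by positivity)).2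
    calc 3 * C1 / ‖z‖ * ∫ y in B, 1 / ‖z - y‖ ≤ 3 * C1 / ‖z‖ * (6 * π * (‖z‖ / 16)) := by
          gcongr
      _ = 18 / 16 * π * C1 := by
          field_simp
          ring
      _ ≤ 2 * π * C1 := by
          have := Real.pi_pos
          gcongr
          norm_num
  have i0z := WTail1_int h5 hρ0 hE z
  have i0I := WTail1_int h5 hρ0 hE (2 * I)
  have hmain : ∫ y in ball (0 : ℂ) ρ, ((A.indicator (fun _ => Real.log ‖z‖) y * E y -
      Real.log 48 * E y) - B.indicator (fun y => 3 * ‖z‖ * (1 / ‖z - y‖)) y * E y) ≤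
      ∫ y in ball (0 : ℂ) ρ, (Real.log ‖z - y‖ * E y - Real.log ‖2 * I - y‖ * E y) := by
    apply integral_mono_ae ((i1.sub i2).sub i3) (i0z.sub i0I)
    apply ae_restrict_of_ae
    have h0 : ∀ᵐ y : ℂ, y ≠ z := by
      rw [ae_iff]
      simp
    filter_upwards [h0] with y hy
    have := mul_le_mul_of_nonneg_right (WTail1_pt hz hy) (hE0 y)
    simp only [sub_mul] at this
    exact this
  have q1 : ∫ y in ball (0 : ℂ) ρ, ((A.indicator (fun _ => Real.log ‖z‖) y * E y -
      Real.log 48 * E y) - B.indicator (fun y => 3 * ‖z‖ * (1 / ‖z - y‖)) y * E y) =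
      (∫ y in ball (0 : ℂ) ρ, (A.indicator (fun _ => Real.log ‖z‖) y * E y -
        Real.log 48 * E y)) -
      ∫ y in ball (0 : ℂ) ρ, B.indicator (fun y => 3 * ‖z‖ * (1 / ‖z - y‖)) y * E y :=
    integral_sub (i1.sub i2) i3
  rw [q1, integral_sub i1 i2, integral_sub i0z i0I, v1, v2] at hmain
  have h48 : 0 ≤ Real.log 48 := Real.log_nonneg (by norm_num)
  have h7 : Real.log 48 * ms ρ E ≤ Real.log 48 * M := by gcongr
  have h8 : 14 * π * Real.log ‖z‖ ≤ Real.log ‖z‖ *
      ((∫ y in ball (1 : ℂ) (1 / 2), E y) + ∫ y in ball (-1 : ℂ) (1 / 2), E y) := by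
    rw [mul_comm]
    gcongr
  linarith

/-- The comparison of `E z` and `E (2i)`. -/
theorem WTail1_loc {ρ lam Q K : ℝ} {h : ℂ → ℂ} {E : ℂ → ℝ} (hρ : 8 < ρ) (hl : Loc ρ 1 lam h E)
    {z : ℂ} (hz : 2 ≤ ‖z‖) (hzρ : ‖z‖ < ρ) (hh : ‖h z - h (2 * I)‖ ≤ Q)
    (hJ : 14 * π * Real.log ‖z‖ - K ≤
      (∫ y in ball (0 : ℂ) ρ, Real.log ‖z - y‖ * E y) -
        ∫ y in ball (0 : ℂ) ρ, Real.log ‖2 * I - y‖ * E y) :
    E z ≤ Real.exp (2 * Q + K / (2 * π)) * E (2 * I) / ‖z‖ ^ 5 := by
  have h2I : ‖(2 * I : ℂ)‖ = 2 := by simp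
  have hz0 : 0 < ‖z‖ := by linarith
  have hπ := Real.pi_pos
  have r1 := hl.rep z (mem_ball_zero_iff.2 hzρ)
  have r2 := hl.rep (2 * I) (by rw [mem_ball_zero_iff, h2I]; linarith)
  rw [h2I] at r2
  have hre : (h z).re ≤ (h (2 * I)).re + Q := by
    have : (h z - h (2 * I)).re ≤ Q := (Complex.re_le_norm _).trans hh
    rw [Complex.sub_re] at this
    linarith
  have hpot : pot ρ E z ≤ pot ρ E (2 * I) - 7 * Real.log ‖z‖ + K / (2 * π) := by
    unfold pot
    have e1 : K / (2 * π) = 1 / (2 * π) * K := by ring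
    have e2 : 7 * Real.log ‖z‖ = 1 / (2 * π) * (14 * π * Real.log ‖z‖) := by
      field_simp
      ring
    have := mul_le_mul_of_nonneg_left hJ (show 0 ≤ 1 / (2 * π) by positivity)
    rw [mul_sub, mul_sub] at this
    rw [e1, e2]
    linarith
  have hlam : lam / 4 * 2 ^ 2 ≤ lam / 4 * ‖z‖ ^ 2 := by
    have := hl.lam0
    gcongr
  have hexp : Real.exp (2 * (h z).re - lam / 4 * ‖z‖ ^ 2 + pot ρ E z) ≤
      Real.exp (2 * (h (2 * I)).re - lam / 4 * 2 ^ 2 + pot ρ E (2 * I)) *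
        Real.exp (2 * Q + K / (2 * π)) * (1 / ‖z‖ ^ 7) := by
    have e3 : 1 / ‖z‖ ^ 7 = Real.exp (-(7 * Real.log ‖z‖)) := by
      rw [Real.exp_neg, show (7 : ℝ) * Real.log ‖z‖ = Real.log (‖z‖ ^ 7) by
        rw [Real.log_pow]; norm_num, Real.exp_log (by positivity), one_div]
    rw [e3, ← Real.exp_add, ← Real.exp_add]
    apply Real.exp_le_exp.2
    linarith
  rw [r1, r2]
  have e4 : Real.exp (2 * Q + K / (2 * π)) *
      (2 ^ (2 * 1) * Real.exp (2 * (h (2 * I)).re - lam / 4 * 2 ^ 2 + pot ρ E (2 * I))) /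
        ‖z‖ ^ 5 = 4 * (‖z‖ ^ (2 * 1) *
      (Real.exp (2 * (h (2 * I)).re - lam / 4 * 2 ^ 2 + pot ρ E (2 * I)) *
        Real.exp (2 * Q + K / (2 * π)) * (1 / ‖z‖ ^ 7))) := by
    have : ‖z‖ ^ (2 * 1) * (1 / ‖z‖ ^ 7) = 1 / ‖z‖ ^ 5 := by
      rw [mul_one_div, div_eq_div_iff (by positivity) (by positivity)]
      ring
    calc _ = 4 * (Real.exp (2 * (h (2 * I)).re - lam / 4 * 2 ^ 2 + pot ρ E (2 * I)) *
        Real.exp (2 * Q + K / (2 * π)) * (1 / ‖z‖ ^ 5)) := by ring
      _ = _ := by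
        rw [← this]
        ring
  rw [e4]
  have h9 : 0 ≤ ‖z‖ ^ (2 * 1) *
      (Real.exp (2 * (h (2 * I)).re - lam / 4 * 2 ^ 2 + pot ρ E (2 * I)) *
        Real.exp (2 * Q + K / (2 * π)) * (1 / ‖z‖ ^ 7)) := by positivity
  have h10 := mul_le_mul_of_nonneg_left hexp (show 0 ≤ ‖z‖ ^ (2 * 1) by positivity)
  linarith

theorem pr_WTail1 (h1 : S_WScale) (h2 : S_WEta) (h3 : S_WKap) (_h4 : S_WUB) (h5 : S_LogI) :
    S_WTail1 := by
  intro r H Λ R lam eta h E hp
  have pl := hp.pl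
  have hr := pl.rpos
  obtain ⟨M, hM0, hM⟩ := W_mass pl
  obtain ⟨C0, hC0⟩ := h1 r H Λ R lam eta h E hp
  obtain ⟨c, hc, hEta⟩ := h2 r H Λ R lam eta h E pl
  obtain ⟨hk, -⟩ := h3 r H Λ R lam eta h E hp
  obtain ⟨C3, hC3⟩ := pl.out (r / 4) (by positivity)
  set C1 : ℝ := max C0 0 with hC1
  set CI : ℝ := Real.exp (2 * (H * r / 2) + (Real.log 48 * M + 2 * π * C1) / (2 * π)) with hCI
  have hCI0 : 0 < CI := Real.exp_pos _
  set C2 : ℝ := CI * 8 ^ 5 / (c * r ^ 5) with hC2
  have hC20 : 0 < C2 := by positivity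
  set C3' : ℝ := max C3 0 with hC3'
  have hC30 : 0 ≤ C3' := le_max_right _ _
  refine ⟨max (max CI C2) (C3' * C2 * r ^ 5), ?_⟩
  have hT := W_radT pl
  have ev1 : ∀ᶠ j in atTop, 14 * π ≤ (∫ y in ball (1 : ℂ) (1 / 2), E j y) +
      ∫ y in ball (-1 : ℂ) (1 / 2), E j y := by
    have t := (hp.two1 (1 / 2) (by norm_num) le_rfl).add (hp.two2 (1 / 2) (by norm_num) le_rfl)
    have hlt : 14 * π < 8 * π + 8 * π := by
      have := Real.pi_pos
      linarith
    filter_upwards [t.eventually_const_lt hlt] with j hj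
    exact hj.le
  have ev2 : ∀ᶠ j in atTop, 16 ≤ r / R j := hT.eventually_ge_atTop 16
  filter_upwards [hC0, hEta, ev1, ev2] with j hjC hjE hj1 hj2
  have hRj := pl.Rpos j
  have hρ := W_rad pl j
  have hl := pl.loc j
  have hκ := hk j
  -- Region I
  have reg1 : ∀ z : ℂ, 2 ≤ ‖z‖ → ‖z‖ ≤ r / (4 * R j) → E j z ≤ CI * E j (2 * I) / ‖z‖ ^ 5 := by
    intro z hz hz4
    have e4 : r / (4 * R j) = r / R j / 4 := by
      rw [div_div, mul_comm]
    have hz4' : ‖z‖ ≤ r / R j / 4 := by rwa [← e4]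
    have hzρ : ‖z‖ < r / R j := by linarith
    have hJ := WTail1_J h5 hρ hl.cont hl.nonneg (hM j) hj1 hz hz4' (C1 := C1) (le_max_right _ _)
      (fun t ht => (hjC z hz hz4 t ht).trans (le_max_left _ _))
    have h2I : ‖(2 * I : ℂ)‖ = 2 := by simp
    have hh : ‖h j z - h j (2 * I)‖ ≤ H * r / 2 := by
      have hHR : 0 ≤ H * R j := (norm_nonneg _).trans
        (pl.hH j 0 (mem_ball_self (by linarith)))
      have hmv : ‖h j z - h j (2 * I)‖ ≤ H * R j * ‖z - 2 * I‖ := by
        apply Convex.norm_image_sub_le_of_norm_deriv_le (s := ball (0 : ℂ) (r / R j))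
        · intro x hx
          exact hl.an.differentiableAt (isOpen_ball.mem_nhds hx)
        · exact fun x hx => pl.hH j x hx
        · exact convex_ball _ _
        · rw [mem_ball_zero_iff, h2I]
          linarith
        · rw [mem_ball_zero_iff]
          exact hzρ
      have h6 : ‖z - 2 * I‖ ≤ 2 * ‖z‖ := by
        calc ‖z - 2 * I‖ ≤ ‖z‖ + ‖(2 * I : ℂ)‖ := norm_sub_le _ _
          _ ≤ 2 * ‖z‖ := by rw [h2I]; linarith
      calc ‖h j z - h j (2 * I)‖ ≤ H * R j * ‖z - 2 * I‖ := hmv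
        _ ≤ H * R j * (2 * (r / R j / 4)) := by
            apply mul_le_mul_of_nonneg_left _ hHR
            linarith
        _ = H * r / 2 := by
            field_simp
            ring
    exact WTail1_loc hρ hl hz hzρ hh hJ
  -- eta
  have heta : eta j ≤ C2 * E j (2 * I) * R j ^ 3 := by
    set z0 : ℂ := ((r / (8 * R j) : ℝ) : ℂ) with hz0
    have hn : ‖z0‖ = r / (8 * R j) := by
      rw [hz0, Complex.norm_real, Real.norm_of_nonneg (by positivity)]
    have e8 : r / (8 * R j) = r / R j / 8 := by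
      rw [div_div, mul_comm]
    have e4 : r / (4 * R j) = r / R j / 4 := by
      rw [div_div, mul_comm]
    have a1 := hjE z0 hn
    have a2 := reg1 z0 (by rw [hn, e8]; linarith) (by rw [hn, e8, e4]; linarith)
    rw [hn] at a2
    have a3 : c * R j ^ 2 * eta j ≤ CI * E j (2 * I) / (r / (8 * R j)) ^ 5 := a1.trans a2
    have a4 : CI * E j (2 * I) / (r / (8 * R j)) ^ 5 =
        (c * R j ^ 2) * (C2 * E j (2 * I) * R j ^ 3) := by
      rw [hC2]
      field_simp
    rw [a4] at a3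
    have hpos : 0 < c * R j ^ 2 := by positivity
    exact le_of_mul_le_mul_left (by linarith) hpos
  constructor
  · intro z hzb hz
    rw [mem_ball_zero_iff] at hzb
    have hz0 : 0 < ‖z‖ := by linarith
    rcases le_or_gt ‖z‖ (r / (4 * R j)) with h6 | h6
    · refine (reg1 z hz h6).trans ?_
      gcongr
      exact (le_max_left _ _).trans (le_max_left _ _)
    · have b1 := hC3 j z (mem_ball_zero_iff.2 hzb) (by
        have : r / 4 / R j = r / (4 * R j) := by rw [div_div]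
        rw [this]
        exact h6.le)
      have b2 : E j z ≤ C3' * R j ^ 2 * eta j := by
        refine b1.trans ?_
        have := (pl.etapos j).le
        gcongr
        exact le_max_left _ _
      have b3 : E j z ≤ C3' * R j ^ 2 * (C2 * E j (2 * I) * R j ^ 3) := by
        refine b2.trans ?_
        gcongr
      have b4 : R j ^ 5 ≤ r ^ 5 / ‖z‖ ^ 5 := by
        rw [← div_pow]
        apply pow_le_pow_left₀ hRj.le
        rw [le_div_iff₀ hz0]
        rw [lt_div_iff₀ hRj] at hzb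
        linarith
      calc E j z ≤ C3' * R j ^ 2 * (C2 * E j (2 * I) * R j ^ 3) := b3
        _ = C3' * C2 * E j (2 * I) * R j ^ 5 := by ring
        _ ≤ C3' * C2 * E j (2 * I) * (r ^ 5 / ‖z‖ ^ 5) := by gcongr
        _ = (C3' * C2 * r ^ 5) * E j (2 * I) / ‖z‖ ^ 5 := by ring
        _ ≤ _ := by
          gcongr
          exact le_max_right _ _
  · refine heta.trans ?_
    gcongr
    exact (le_max_right _ _).trans (le_max_left _ _)

end Pool.Agent.Vx

end

section

/-!
# MP_afe918_an, item WTail2: sharp tail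
-/

set_option autoImplicit false

open Complex Set Filter Topology MeasureTheory Metric
open scoped Real ContDiff ComplexConjugate

namespace Pool.Agent.Vx

theorem WTail2_log (a b : ℝ) (ha : 0 ≤ a) (hb : 1 / 8 ≤ b) (hab : a ≤ 33 * b) :
    Real.log a - Real.log b ≤ 48 := by
  have hb0 : 0 < b := by linarith
  rcases ha.eq_or_lt with h | h
  · rw [← h, Real.log_zero, zero_sub, ← Real.log_inv]
    have h1 : Real.log b⁻¹ ≤ b⁻¹ := Real.log_le_self (by positivity)
    have h2 : b⁻¹ ≤ 8 := by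
      rw [inv_le_comm₀ hb0 (by norm_num)]
      linarith
    linarith
  · rw [← Real.log_div h.ne' hb0.ne']
    have h1 : Real.log (a / b) ≤ a / b := Real.log_le_self (by positivity)
    have h2 : a / b ≤ 33 := by
      rw [div_le_iff₀ hb0]
      exact hab
    linarith

theorem WTail2_A (z t : ℂ) (hz : 2 ≤ ‖z‖) (ht : ‖t‖ < ‖z‖ / 2) :
    Real.log ‖z‖ - (4 + ‖t‖ ^ 2) ≤ Real.log ‖z - t‖ - Real.log ‖2 * I - t‖ := by
  have h1 : ‖z‖ / 2 ≤ ‖z - t‖ := by
    have := norm_sub_norm_le z t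
    linarith
  have h2 : Real.log (‖z‖ / 2) ≤ Real.log ‖z - t‖ := Real.log_le_log (by linarith) h1
  have h3 : Real.log (‖z‖ / 2) = Real.log ‖z‖ - Real.log 2 :=
    Real.log_div (by linarith) (by norm_num)
  have h4 : Real.log 2 ≤ 1 := by
    have := Real.log_le_sub_one_of_pos (show (0 : ℝ) < 2 by norm_num)
    linarith
  have h5 : Real.log ‖2 * I - t‖ ≤ ‖2 * I - t‖ := Real.log_le_self (norm_nonneg _)
  have h6 : ‖2 * I - t‖ ≤ 2 + ‖t‖ := by
    refine (norm_sub_le _ _).trans ?_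
    simp
  have h7 : ‖t‖ ≤ 1 + ‖t‖ ^ 2 := by nlinarith [sq_nonneg (‖t‖ - 1), norm_nonneg t]
  linarith

theorem WTail2_B (z t : ℂ) (hz : 2 ≤ ‖z‖) (ht : ‖z‖ / 16 ≤ ‖z - t‖) :
    -48 ≤ Real.log ‖z - t‖ - Real.log ‖2 * I - t‖ := by
  have h6 : ‖2 * I - t‖ ≤ 33 * ‖z - t‖ := by
    have e : 2 * I - t = (2 * I - z) + (z - t) := by ring
    have h1 : ‖2 * I - z‖ ≤ 2 + ‖z‖ := by
      refine (norm_sub_le _ _).trans ?_
      simp
    rw [e]
    refine (norm_add_le _ _).trans ?_
    linarith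
  have := WTail2_log ‖2 * I - t‖ ‖z - t‖ (norm_nonneg _) (by linarith) h6
  linarith

theorem WTail2_C (z t : ℂ) (hz : 2 ≤ ‖z‖) (ht : ‖z - t‖ < ‖z‖ / 16) (hne : t ≠ z) :
    -48 - ‖z‖ / 16 * (1 / ‖z - t‖) ≤ Real.log ‖z - t‖ - Real.log ‖2 * I - t‖ := by
  have hpos : 0 < ‖z - t‖ := norm_pos_iff.2 (sub_ne_zero.2 hne.symm)
  have h6 : ‖2 * I - t‖ ≤ 33 * (‖z‖ / 16) := by
    have e : 2 * I - t = (2 * I - z) + (z - t) := by ring
    have h1 : ‖2 * I - z‖ ≤ 2 + ‖z‖ := by
      refine (norm_sub_le _ _).trans ?_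
      simp
    rw [e]
    refine (norm_add_le _ _).trans ?_
    linarith
  have h7 := WTail2_log ‖2 * I - t‖ (‖z‖ / 16) (norm_nonneg _) (by linarith) h6
  have h8 : Real.log (‖z‖ / 16) - Real.log ‖z - t‖ ≤ ‖z‖ / 16 * (1 / ‖z - t‖) := by
    rw [← Real.log_div (by linarith) hpos.ne', mul_one_div]
    exact Real.log_le_self (by positivity)
  linarith

theorem WTail2_logInt (h7 : S_LogI) {ρ : ℝ} (hρ : 0 < ρ) {E : ℂ → ℝ} (hE : Continuous E) (z : ℂ) :
    IntegrableOn (fun t => Real.log ‖z - t‖ * E t) (ball 0 ρ) := by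
  obtain ⟨C, hC⟩ := (isCompact_closedBall (0 : ℂ) ρ).exists_bound_of_continuousOn hE.continuousOn
  refine Integrable.mul_bdd (c := C) ((h7 0 z ρ hρ).1) hE.aestronglyMeasurable ?_
  filter_upwards [ae_restrict_mem measurableSet_ball] with t ht
  exact hC t (ball_subset_closedBall ht)

theorem WTail2_cint {ρ : ℝ} {f : ℂ → ℝ} (hf : Continuous f) : IntegrableOn f (ball 0 ρ) :=
  (hf.continuousOn.integrableOn_compact (isCompact_closedBall (0 : ℂ) ρ)).mono_set
    ball_subset_closedBall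

/-- the mass outside a ball in terms of the second moment -/
theorem WTail2_mass {ρ s : ℝ} {E : ℂ → ℝ} (hE : Continuous E) (hE0 : ∀ z, 0 ≤ E z) (hs : 0 < s)
    (hsρ : s ≤ ρ) : ms ρ E ≤ ms s E + 1 / s ^ 2 * ∫ t in ball (0 : ℂ) ρ, ‖t‖ ^ 2 * E t := by
  have hsub : ball (0 : ℂ) s ⊆ ball 0 ρ := ball_subset_ball hsρ
  have h1 : ms ρ E = ms s E + ∫ t in ball (0 : ℂ) ρ \ ball 0 s, E t := by
    unfold ms
    have := setIntegral_union (μ := volume) (f := E) (s := ball (0 : ℂ) s)
      (t := ball (0 : ℂ) ρ \ ball 0 s) disjoint_sdiff_right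
      (measurableSet_ball.diff measurableSet_ball) (WTail2_cint hE)
      ((WTail2_cint hE).mono_set sdiff_subset)
    rw [union_sdiff_cancel hsub] at this
    exact this
  rw [h1, ← integral_const_mul]
  have hc : Continuous (fun t : ℂ => 1 / s ^ 2 * (‖t‖ ^ 2 * E t)) := by fun_prop
  have h2 : ∫ t in ball (0 : ℂ) ρ \ ball 0 s, E t ≤
      ∫ t in ball (0 : ℂ) ρ \ ball 0 s, 1 / s ^ 2 * (‖t‖ ^ 2 * E t) := by
    refine setIntegral_mono_on ((WTail2_cint hE).mono_set sdiff_subset)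
      ((WTail2_cint hc).mono_set sdiff_subset)
      (measurableSet_ball.diff measurableSet_ball) fun t ht => ?_
    have h3 : s ≤ ‖t‖ := by
      by_contra hcon
      exact ht.2 (by simpa using hcon)
    have h4 : 1 ≤ 1 / s ^ 2 * ‖t‖ ^ 2 := by
      rw [one_div, ← div_eq_inv_mul, one_le_div (by positivity)]
      exact pow_le_pow_left₀ hs.le h3 2
    calc E t = 1 * E t := by ring
      _ ≤ (1 / s ^ 2 * ‖t‖ ^ 2) * E t := mul_le_mul_of_nonneg_right h4 (hE0 t)
      _ = _ := by ring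
  have h5 : ∫ t in ball (0 : ℂ) ρ \ ball 0 s, 1 / s ^ 2 * (‖t‖ ^ 2 * E t) ≤
      ∫ t in ball (0 : ℂ) ρ, 1 / s ^ 2 * (‖t‖ ^ 2 * E t) := by
    refine setIntegral_mono_set (WTail2_cint hc) (ae_of_all _ fun t => ?_)
      (Eventually.of_forall sdiff_subset)
    have := hE0 t
    positivity
  linarith

/-- the main estimate -/
theorem WTail2_J (h7 : S_LogI) {ρ : ℝ} {E : ℂ → ℝ} (hE : Continuous E)
    (hE0 : ∀ z, 0 ≤ E z) (z : ℂ) (hz : 2 ≤ ‖z‖) (hzρ : ‖z‖ ≤ ρ / 4) (C1 D1 S2 M : ℝ)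
    (hC1 : 0 ≤ C1) (hD1 : 0 ≤ D1)
    (h1 : ∀ t ∈ ball z (‖z‖ / 16), ‖z‖ ^ 2 * E t ≤ C1)
    (h2 : ∫ t in ball (0 : ℂ) ρ, ‖t‖ ^ 2 * E t ≤ S2) (h3 : 16 * π - ms ρ E ≤ D1)
    (h4 : ms ρ E ≤ M) :
    16 * π * Real.log ‖z‖ - (D1 * ‖z‖ ^ 2 + 5 * S2 + 52 * M + 6 * π / 256 * C1) ≤
      ∫ t in ball (0 : ℂ) ρ, (Real.log ‖z - t‖ * E t - Real.log ‖2 * I - t‖ * E t) := by
  have hz0 : 0 < ‖z‖ := by linarith
  have hρ : 0 < ρ := by linarith
  have hL : 0 ≤ Real.log ‖z‖ := Real.log_nonneg (by linarith)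
  have hL2 : Real.log ‖z‖ ≤ ‖z‖ ^ 2 := by
    have := Real.log_le_self hz0.le
    nlinarith
  have hfI : IntegrableOn (fun t => Real.log ‖z - t‖ * E t - Real.log ‖2 * I - t‖ * E t)
      (ball 0 ρ) := (WTail2_logInt h7 hρ hE z).sub (WTail2_logInt h7 hρ hE (2 * I))
  have hsub1 : ball (0 : ℂ) (‖z‖ / 2) ⊆ ball 0 ρ := ball_subset_ball (by linarith)
  have hsub2 : ball z (‖z‖ / 16) ⊆ ball 0 ρ := by
    intro t ht
    rw [mem_ball, dist_eq_norm] at ht
    rw [mem_ball_zero_iff]
    have h5 : ‖t‖ ≤ ‖t - z‖ + ‖z‖ := by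
      have := norm_add_le (t - z) z
      simpa using this
    linarith
  obtain ⟨hR1, hR2⟩ := pr_Riesz z z (‖z‖ / 16) (by linarith)
  -- the four parts of the lower bound
  have hg1 : IntegrableOn ((ball (0 : ℂ) (‖z‖ / 2)).indicator fun t => Real.log ‖z‖ * E t)
      (ball 0 ρ) := (WTail2_cint (continuous_const.mul hE)).indicator measurableSet_ball
  have hg2 : IntegrableOn (fun t : ℂ => (52 + ‖t‖ ^ 2) * E t) (ball 0 ρ) :=
    WTail2_cint (by fun_prop)
  have hg3 : IntegrableOn ((ball z (‖z‖ / 16)).indicator fun t =>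
      C1 / (16 * ‖z‖) * (1 / ‖z - t‖)) (ball 0 ρ) := by
    rw [integrableOn_indicator_iff measurableSet_ball]
    have hR1' : IntegrableOn (fun t => C1 / (16 * ‖z‖) * (1 / ‖z - t‖)) (ball z (‖z‖ / 16)) :=
      hR1.const_mul _
    exact hR1'.mono_set inter_subset_left
  have hmono : ∫ t in ball (0 : ℂ) ρ, ((ball (0 : ℂ) (‖z‖ / 2)).indicator
        (fun t => Real.log ‖z‖ * E t) t - (52 + ‖t‖ ^ 2) * E t -
        (ball z (‖z‖ / 16)).indicator (fun t => C1 / (16 * ‖z‖) * (1 / ‖z - t‖)) t) ≤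
      ∫ t in ball (0 : ℂ) ρ, (Real.log ‖z - t‖ * E t - Real.log ‖2 * I - t‖ * E t) := by
    refine integral_mono_ae ((hg1.sub hg2).sub hg3) hfI ?_
    have hne : ∀ᵐ t ∂(volume.restrict (ball (0 : ℂ) ρ)), t ≠ z :=
      ae_restrict_of_ae (Measure.ae_ne volume z)
    filter_upwards [hne] with t htz
    have hEt := hE0 t
    have ht2 : 0 ≤ ‖t‖ ^ 2 * E t := by positivity
    have e : Real.log ‖z - t‖ * E t - Real.log ‖2 * I - t‖ * E t =
        (Real.log ‖z - t‖ - Real.log ‖2 * I - t‖) * E t := by ring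
    show _ ≤ Real.log ‖z - t‖ * E t - Real.log ‖2 * I - t‖ * E t
    rw [e]
    by_cases hA : ‖t‖ < ‖z‖ / 2
    · have h5 := mul_le_mul_of_nonneg_right (WTail2_A z t hz hA) hEt
      have h6 : t ∈ ball (0 : ℂ) (‖z‖ / 2) := by simpa using hA
      have h8 : 0 ≤ (ball z (‖z‖ / 16)).indicator (fun t => C1 / (16 * ‖z‖) * (1 / ‖z - t‖)) t :=
        indicator_nonneg (fun x _ => by positivity) t
      rw [indicator_of_mem h6]
      nlinarith
    · have h6 : t ∉ ball (0 : ℂ) (‖z‖ / 2) := by simpa using hA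
      rw [indicator_of_notMem h6]
      by_cases hC : ‖z - t‖ < ‖z‖ / 16
      · have h5 := WTail2_C z t hz hC htz
        have h9 : t ∈ ball z (‖z‖ / 16) := by
          rw [mem_ball, dist_eq_norm, norm_sub_rev]
          exact hC
        rw [indicator_of_mem h9]
        have h10 := h1 t h9
        have h11 : ‖z‖ / 16 * (1 / ‖z - t‖) * E t ≤ C1 / (16 * ‖z‖) * (1 / ‖z - t‖) := by
          have h12 : ‖z‖ / 16 * E t ≤ C1 / (16 * ‖z‖) := by
            rw [le_div_iff₀ (by positivity)]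
            nlinarith
          calc ‖z‖ / 16 * (1 / ‖z - t‖) * E t = ‖z‖ / 16 * E t * (1 / ‖z - t‖) := by ring
            _ ≤ _ := mul_le_mul_of_nonneg_right h12 (by positivity)
        have h13 := mul_le_mul_of_nonneg_right h5 hEt
        nlinarith
      · have h5 := mul_le_mul_of_nonneg_right (WTail2_B z t hz (not_lt.1 hC)) hEt
        have h8 : 0 ≤ (ball z (‖z‖ / 16)).indicator
            (fun t => C1 / (16 * ‖z‖) * (1 / ‖z - t‖)) t :=
          indicator_nonneg (fun x _ => by positivity) t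
        nlinarith
  refine le_trans ?_ hmono
  have a1 : ∫ t in ball (0 : ℂ) ρ, ((ball (0 : ℂ) (‖z‖ / 2)).indicator
        (fun t => Real.log ‖z‖ * E t) t - (52 + ‖t‖ ^ 2) * E t -
        (ball z (‖z‖ / 16)).indicator (fun t => C1 / (16 * ‖z‖) * (1 / ‖z - t‖)) t) =
      (∫ t in ball (0 : ℂ) ρ, ((ball (0 : ℂ) (‖z‖ / 2)).indicator
        (fun t => Real.log ‖z‖ * E t) t - (52 + ‖t‖ ^ 2) * E t)) -
      ∫ t in ball (0 : ℂ) ρ, (ball z (‖z‖ / 16)).indicator
        (fun t => C1 / (16 * ‖z‖) * (1 / ‖z - t‖)) t := integral_sub (hg1.sub hg2) hg3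
  have a2 : ∫ t in ball (0 : ℂ) ρ, ((ball (0 : ℂ) (‖z‖ / 2)).indicator
        (fun t => Real.log ‖z‖ * E t) t - (52 + ‖t‖ ^ 2) * E t) =
      (∫ t in ball (0 : ℂ) ρ, (ball (0 : ℂ) (‖z‖ / 2)).indicator
        (fun t => Real.log ‖z‖ * E t) t) - ∫ t in ball (0 : ℂ) ρ, (52 + ‖t‖ ^ 2) * E t :=
    integral_sub hg1 hg2
  rw [a1, a2]
  have i1 : ∫ t in ball (0 : ℂ) ρ, (ball (0 : ℂ) (‖z‖ / 2)).indicator
      (fun t => Real.log ‖z‖ * E t) t = Real.log ‖z‖ * ms (‖z‖ / 2) E := by
    rw [setIntegral_indicator measurableSet_ball, inter_eq_self_of_subset_right hsub1,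
      integral_const_mul]
    rfl
  have i2 : ∫ t in ball (0 : ℂ) ρ, (52 + ‖t‖ ^ 2) * E t =
      52 * ms ρ E + ∫ t in ball (0 : ℂ) ρ, ‖t‖ ^ 2 * E t := by
    have e : ∀ t : ℂ, (52 + ‖t‖ ^ 2) * E t = 52 * E t + ‖t‖ ^ 2 * E t := fun t => by ring
    simp only [e]
    rw [integral_add (WTail2_cint (by fun_prop)) (WTail2_cint (by fun_prop)), integral_const_mul]
    rfl
  have i3 : ∫ t in ball (0 : ℂ) ρ, (ball z (‖z‖ / 16)).indicator
      (fun t => C1 / (16 * ‖z‖) * (1 / ‖z - t‖)) t ≤ 6 * π / 256 * C1 := by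
    rw [setIntegral_indicator measurableSet_ball, inter_eq_self_of_subset_right hsub2,
      integral_const_mul]
    calc C1 / (16 * ‖z‖) * ∫ t in ball z (‖z‖ / 16), 1 / ‖z - t‖
        ≤ C1 / (16 * ‖z‖) * (6 * π * (‖z‖ / 16)) :=
          mul_le_mul_of_nonneg_left hR2 (by positivity)
      _ = 6 * π / 256 * C1 := by field_simp; ring
  rw [i1, i2]
  have hmass := WTail2_mass hE hE0 (show 0 < ‖z‖ / 2 by linarith) (show ‖z‖ / 2 ≤ ρ by linarith)
  have h8 : 1 / (‖z‖ / 2) ^ 2 * ∫ t in ball (0 : ℂ) ρ, ‖t‖ ^ 2 * E t ≤ 4 / ‖z‖ ^ 2 * S2 := by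
    rw [show 1 / (‖z‖ / 2) ^ 2 = 4 / ‖z‖ ^ 2 by field_simp; norm_num]
    exact mul_le_mul_of_nonneg_left h2 (by positivity)
  have hS2 : 0 ≤ S2 := le_trans (integral_nonneg fun t => by
    have := hE0 t
    positivity) h2
  have h9 : 16 * π - D1 - 4 / ‖z‖ ^ 2 * S2 ≤ ms (‖z‖ / 2) E := by linarith
  have h10 := mul_le_mul_of_nonneg_left h9 hL
  have h11 : Real.log ‖z‖ * D1 ≤ D1 * ‖z‖ ^ 2 := by nlinarith
  have h12 : Real.log ‖z‖ * (4 / ‖z‖ ^ 2 * S2) ≤ 4 * S2 := by
    calc Real.log ‖z‖ * (4 / ‖z‖ ^ 2 * S2) ≤ ‖z‖ ^ 2 * (4 / ‖z‖ ^ 2 * S2) :=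
          mul_le_mul_of_nonneg_right hL2 (by positivity)
      _ = 4 * S2 := by field_simp
  linarith

theorem pr_WTail2 (h2 : S_WD) (h3 : S_WMom) (h4 : S_WEta) (h5 : S_WKap) (h6 : S_WScale)
    (h7 : S_LogI) : S_WTail2 := by
  intro r H Λ R lam eta h E hp
  obtain ⟨CD, hCD⟩ := h2 r H Λ R lam eta h E hp
  obtain ⟨CM, hCM⟩ := h3 r H Λ R lam eta h E hp
  obtain ⟨cE, hcE, hEta⟩ := h4 r H Λ R lam eta h E hp.pl
  obtain ⟨hk, -⟩ := h5 r H Λ R lam eta h E hp
  obtain ⟨CS, hCS⟩ := h6 r H Λ R lam eta h E hp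
  have hr := hp.pl.rpos
  obtain ⟨Co, hCo⟩ := hp.pl.out (r / 4) (by linarith)
  obtain ⟨M, hM0, hM⟩ := W_mass hp.pl
  set K1 : ℝ := |CD| * r ^ 2 + 5 * |CM| + 52 * M + 6 * π / 256 * |CS| with hK1
  set C1 : ℝ := Real.exp (H * r + K1 / (2 * π)) with hC1
  set C2 : ℝ := C1 * 8 ^ 6 / (cE * r ^ 6) with hC2
  have hC1p : 0 < C1 := Real.exp_pos _
  have hC2p : 0 < C2 := by positivity
  refine ⟨C1 + |Co| * C2 * r ^ 6 + C2, ?_⟩
  have hR16 : ∀ᶠ j in atTop, 16 ≤ r / R j := (W_radT hp.pl).eventually_ge_atTop 16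
  filter_upwards [hCD, hCM, hEta, hCS, hR16] with j hD hMj hEj hSj hR
  have hRp := hp.pl.Rpos j
  have hloc := hp.pl.loc j
  have hκ := hk j
  have hH := hp.pl.hH j
  obtain ⟨hl0, -⟩ := hp.pl.lamb j
  have hE := hloc.cont
  have hE0 := hloc.nonneg
  have hρ : 0 < r / R j := by positivity
  have e4 : r / (4 * R j) = r / R j / 4 := by
    field_simp
  have e8 : r / (8 * R j) = r / R j / 8 := by
    field_simp
  have hHR : 0 ≤ H * R j := le_trans (norm_nonneg _) (hH 0 (mem_ball_self hρ))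
  have hH0 : 0 ≤ H := by
    by_contra hcon
    push Not at hcon
    nlinarith
  have hRr : R j * (r / R j) = r := by field_simp
  -- the main region
  have main : ∀ z : ℂ, 2 ≤ ‖z‖ → ‖z‖ ≤ r / (4 * R j) →
      E j z ≤ C1 * E j (2 * I) / ‖z‖ ^ 6 := by
    intro z hz hz4
    have hz0 : 0 < ‖z‖ := by linarith
    have hz4' : ‖z‖ ≤ r / R j / 4 := by rw [← e4]; exact hz4
    have hRz : R j * ‖z‖ ≤ r / 4 := by
      have := mul_le_mul_of_nonneg_left hz4' hRp.le
      rw [mul_div_assoc', hRr] at this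
      exact this
    have hJ := WTail2_J h7 hE hE0 z hz hz4' |CS| (|CD| * R j ^ 2) |CM| M (abs_nonneg _)
      (by positivity) (fun t ht => (hSj z hz hz4 t ht).trans (le_abs_self _))
      (hMj.trans (le_abs_self _))
      (by
        refine (le_abs_self _).trans (hD.trans ?_)
        exact mul_le_mul_of_nonneg_right (le_abs_self _) (by positivity)) (hM j)
    have hJ' : 16 * π * Real.log ‖z‖ - K1 ≤
        ∫ t in ball (0 : ℂ) (r / R j), (Real.log ‖z - t‖ * E j t -
          Real.log ‖2 * I - t‖ * E j t) := by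
      refine le_trans ?_ hJ
      have h8 : |CD| * R j ^ 2 * ‖z‖ ^ 2 ≤ |CD| * r ^ 2 := by
        have h9 : (R j * ‖z‖) ^ 2 ≤ r ^ 2 := pow_le_pow_left₀ (by positivity) (by linarith) 2
        calc |CD| * R j ^ 2 * ‖z‖ ^ 2 = |CD| * (R j * ‖z‖) ^ 2 := by ring
          _ ≤ _ := mul_le_mul_of_nonneg_left h9 (abs_nonneg _)
      rw [hK1]
      linarith
    have hzb : z ∈ ball (0 : ℂ) (r / R j) := by
      rw [mem_ball_zero_iff]
      linarith
    have h2I : ‖(2 * I : ℂ)‖ = 2 := by simp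
    have hib : (2 * I : ℂ) ∈ ball (0 : ℂ) (r / R j) := by
      rw [mem_ball_zero_iff, h2I]
      linarith
    have r1 := hloc.rep z hzb
    have r2 := hloc.rep (2 * I) hib
    have hpot : pot (r / R j) (E j) z - pot (r / R j) (E j) (2 * I) =
        -(1 / (2 * π)) * ∫ t in ball (0 : ℂ) (r / R j), (Real.log ‖z - t‖ * E j t -
          Real.log ‖2 * I - t‖ * E j t) := by
      unfold pot
      rw [integral_sub (WTail2_logInt h7 hρ hE z) (WTail2_logInt h7 hρ hE (2 * I))]
      ring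
    have hdiff : 2 * (h j z).re - 2 * (h j (2 * I)).re ≤ H * r := by
      have h8 : ‖h j z - h j (2 * I)‖ ≤ H * R j * ‖z - 2 * I‖ :=
        Convex.norm_image_sub_le_of_norm_deriv_le (𝕜 := ℂ) (s := ball (0 : ℂ) (r / R j))
          (fun x hx => (hloc.an x hx).differentiableAt (isOpen_ball.mem_nhds hx))
          hH (convex_ball _ _) hib hzb
      have h9 : ‖z - 2 * I‖ ≤ 2 * ‖z‖ := by
        refine (norm_sub_le _ _).trans ?_
        rw [h2I]
        linarith
      have h10 : (h j z).re - (h j (2 * I)).re ≤ ‖h j z - h j (2 * I)‖ := by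
        rw [← Complex.sub_re]
        exact Complex.re_le_norm _
      have h11 : H * R j * ‖z - 2 * I‖ ≤ H * R j * (2 * ‖z‖) :=
        mul_le_mul_of_nonneg_left h9 hHR
      have h12 : H * R j * (2 * ‖z‖) = 2 * H * (R j * ‖z‖) := by ring
      have h13 : 2 * H * (R j * ‖z‖) ≤ 2 * H * (r / 4) :=
        mul_le_mul_of_nonneg_left hRz (by linarith)
      linarith
    have hlam : -(lam j * R j ^ 2) / 4 * ‖z‖ ^ 2 + (lam j * R j ^ 2) / 4 * ‖(2 * I : ℂ)‖ ^ 2 ≤
        0 := by
      rw [h2I]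
      have h8 : 0 ≤ lam j * R j ^ 2 := by positivity
      have h9 : (4 : ℝ) ≤ ‖z‖ ^ 2 := by nlinarith
      nlinarith
    have hexp : 2 * (h j z).re - lam j * R j ^ 2 / 4 * ‖z‖ ^ 2 + pot (r / R j) (E j) z ≤
        (2 * (h j (2 * I)).re - lam j * R j ^ 2 / 4 * ‖(2 * I : ℂ)‖ ^ 2 +
          pot (r / R j) (E j) (2 * I)) + (H * r + K1 / (2 * π)) + -(8 * Real.log ‖z‖) := by
      have h8 : -(1 / (2 * π)) * ∫ t in ball (0 : ℂ) (r / R j), (Real.log ‖z - t‖ * E j t -
          Real.log ‖2 * I - t‖ * E j t) ≤ -(8 * Real.log ‖z‖) + K1 / (2 * π) := by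
        have h9 := mul_le_mul_of_nonneg_left hJ' (show 0 ≤ 1 / (2 * π) by positivity)
        have h10 : 1 / (2 * π) * (16 * π * Real.log ‖z‖ - K1) =
            8 * Real.log ‖z‖ - K1 / (2 * π) := by
          field_simp
          ring
        rw [h10] at h9
        linarith
      linarith
    have e1 : Real.exp (-(8 * Real.log ‖z‖)) = 1 / ‖z‖ ^ 8 := by
      rw [Real.exp_neg, show (8 : ℝ) * Real.log ‖z‖ = Real.log (‖z‖ ^ 8) by
        rw [Real.log_pow]; norm_num, Real.exp_log (by positivity), one_div]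
    have hE2 : Real.exp (2 * (h j (2 * I)).re - lam j * R j ^ 2 / 4 * ‖(2 * I : ℂ)‖ ^ 2 +
          pot (r / R j) (E j) (2 * I)) = E j (2 * I) / 4 := by
      rw [r2, h2I]
      norm_num
    calc E j z = ‖z‖ ^ (2 * 1) * Real.exp (2 * (h j z).re - lam j * R j ^ 2 / 4 * ‖z‖ ^ 2 +
          pot (r / R j) (E j) z) := r1
      _ ≤ ‖z‖ ^ (2 * 1) * Real.exp ((2 * (h j (2 * I)).re -
          lam j * R j ^ 2 / 4 * ‖(2 * I : ℂ)‖ ^ 2 + pot (r / R j) (E j) (2 * I)) +
          (H * r + K1 / (2 * π)) + -(8 * Real.log ‖z‖)) :=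
          mul_le_mul_of_nonneg_left (Real.exp_le_exp.2 hexp) (by positivity)
      _ = ‖z‖ ^ 2 * (E j (2 * I) / 4 * C1 * (1 / ‖z‖ ^ 8)) := by
          rw [Real.exp_add, Real.exp_add, e1, hE2, ← hC1, mul_one]
      _ ≤ ‖z‖ ^ 2 * (E j (2 * I) * C1 * (1 / ‖z‖ ^ 8)) := by
          have h8 : E j (2 * I) / 4 ≤ E j (2 * I) := by linarith
          gcongr
      _ = C1 * E j (2 * I) / ‖z‖ ^ 6 := by
          field_simp
  -- the bound for eta
  have heta : eta j ≤ C2 * E j (2 * I) * R j ^ 4 := by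
    have hn : ‖((r / (8 * R j) : ℝ) : ℂ)‖ = r / (8 * R j) := by
      rw [Complex.norm_real, Real.norm_eq_abs, abs_of_pos (by positivity)]
    have h8 := hEj ((r / (8 * R j) : ℝ) : ℂ) hn
    have h9 := main ((r / (8 * R j) : ℝ) : ℂ) (by rw [hn, e8]; linarith)
      (by rw [hn, e8, e4]; linarith)
    rw [hn] at h9
    have h10 : cE * R j ^ 2 * eta j ≤ C1 * E j (2 * I) / (r / (8 * R j)) ^ 6 := h8.trans h9
    have h11 : C1 * E j (2 * I) / (r / (8 * R j)) ^ 6 =
        cE * R j ^ 2 * (C2 * E j (2 * I) * R j ^ 4) := by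
      rw [hC2]
      field_simp
    rw [h11] at h10
    exact le_of_mul_le_mul_left h10 (by positivity)
  refine ⟨fun z hz hz2 => ?_, ?_⟩
  · have hz0 : 0 < ‖z‖ := by linarith
    rw [mem_ball_zero_iff] at hz
    rcases le_or_gt ‖z‖ (r / (4 * R j)) with h8 | h8
    · refine (main z hz2 h8).trans ?_
      rw [div_le_div_iff_of_pos_right (by positivity)]
      refine mul_le_mul_of_nonneg_right ?_ hκ.le
      have : 0 ≤ |Co| * C2 * r ^ 6 := by positivity
      linarith
    · have h9 := hCo j z (by rw [mem_ball_zero_iff]; exact hz) (by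
        rw [show r / 4 / R j = r / (4 * R j) by field_simp]
        exact h8.le)
      have h10 : E j z ≤ |Co| * R j ^ 2 * (C2 * E j (2 * I) * R j ^ 4) := by
        refine h9.trans ?_
        have h11 : Co * R j ^ 2 * eta j ≤ |Co| * R j ^ 2 * eta j := by
          have := (hp.pl.etapos j).le
          gcongr
          exact le_abs_self _
        refine h11.trans ?_
        exact mul_le_mul_of_nonneg_left heta (by positivity)
      have h12 : (R j * ‖z‖) ^ 6 ≤ r ^ 6 := by
        refine pow_le_pow_left₀ (by positivity) ?_ 6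
        have := mul_le_mul_of_nonneg_left hz.le hRp.le
        rwa [hRr] at this
      rw [le_div_iff₀ (by positivity)]
      calc E j z * ‖z‖ ^ 6 ≤ |Co| * R j ^ 2 * (C2 * E j (2 * I) * R j ^ 4) * ‖z‖ ^ 6 :=
            mul_le_mul_of_nonneg_right h10 (by positivity)
        _ = |Co| * C2 * (R j * ‖z‖) ^ 6 * E j (2 * I) := by ring
        _ ≤ |Co| * C2 * r ^ 6 * E j (2 * I) := by gcongr
        _ ≤ (C1 + |Co| * C2 * r ^ 6 + C2) * E j (2 * I) :=
            mul_le_mul_of_nonneg_right (by linarith) hκ.le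
  · refine heta.trans ?_
    have : 0 ≤ |Co| * C2 * r ^ 6 := by positivity
    gcongr
    linarith

end Pool.Agent.Vx

end

section

/-!
# MP_afe918_an, block W, W16: Taylor expansion of the holomorphic part (helper85)
-/

set_option autoImplicit false

open Complex Set Filter Topology MeasureTheory Metric
open scoped Real ContDiff ComplexConjugate

namespace Pool.Agent.Vx

/-- Cauchy estimates with explicit constants. -/
theorem WTay_cauchy (r H : ℝ) (hr : 0 < r) (hH : 0 ≤ H) (h : ℂ → ℂ)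
    (hd : DifferentiableOn ℂ h (ball 0 r)) (hb : ∀ z ∈ ball (0 : ℂ) r, ‖deriv h z‖ ≤ H) :
    ‖deriv (deriv h) 0‖ ≤ 2 * H / r ∧
    (∀ z ∈ ball (0 : ℂ) r, ‖deriv h z - deriv h 0‖ ≤ 2 * H / r * ‖z‖) ∧
    ∀ z ∈ ball (0 : ℂ) r, ‖deriv h z - deriv h 0 - deriv (deriv h) 0 * z‖ ≤
      2 * (2 * H / r) / r * ‖z‖ ^ 2 := by
  set C1 : ℝ := 2 * H / r with hC1
  set C2 : ℝ := 2 * C1 / r with hC2
  have hC1' : 0 ≤ C1 := by positivity
  have hC2' : 0 ≤ C2 := by positivity
  have h0 : (0 : ℂ) ∈ ball (0 : ℂ) r := mem_ball_self hr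
  have hg : DifferentiableOn ℂ (deriv h) (ball 0 r) := hd.deriv isOpen_ball
  set g := deriv h with hgdef
  have hm : MapsTo g (ball 0 r) (closedBall (g 0) (2 * H)) := by
    intro z hz
    rw [mem_closedBall, dist_eq_norm]
    calc ‖g z - g 0‖ ≤ ‖g z‖ + ‖g 0‖ := norm_sub_le _ _
      _ ≤ 2 * H := by linarith [hb z hz, hb 0 h0]
  have hs1 : ∀ z ∈ ball (0 : ℂ) r, ‖dslope g 0 z‖ ≤ C1 := fun z hz =>
    norm_dslope_le_div_of_mapsTo_ball hg hm hz
  have hg1 : DifferentiableOn ℂ (dslope g 0) (ball 0 r) :=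
    (differentiableOn_dslope (ball_mem_nhds _ hr)).2 hg
  have hm1 : MapsTo (dslope g 0) (ball 0 r) (closedBall (dslope g 0 0) (2 * C1)) := by
    intro z hz
    rw [mem_closedBall, dist_eq_norm]
    calc ‖dslope g 0 z - dslope g 0 0‖ ≤ ‖dslope g 0 z‖ + ‖dslope g 0 0‖ := norm_sub_le _ _
      _ ≤ 2 * C1 := by linarith [hs1 z hz, hs1 0 h0]
  have hs2 : ∀ z ∈ ball (0 : ℂ) r, ‖dslope (dslope g 0) 0 z‖ ≤ C2 := fun z hz =>
    norm_dslope_le_div_of_mapsTo_ball hg1 hm1 hz
  have e1 : ∀ z : ℂ, g z - g 0 = z * dslope g 0 z := by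
    intro z
    have := sub_smul_dslope g 0 z
    simpa using this.symm
  have e2 : ∀ z : ℂ, dslope g 0 z - deriv g 0 = z * dslope (dslope g 0) 0 z := by
    intro z
    have := sub_smul_dslope (dslope g 0) 0 z
    rw [dslope_same] at this
    simpa using this.symm
  refine ⟨?_, fun z hz => ?_, fun z hz => ?_⟩
  · have := hs1 0 h0
    rwa [dslope_same] at this
  · rw [e1 z, norm_mul, mul_comm]
    exact mul_le_mul_of_nonneg_right (hs1 z hz) (norm_nonneg _)
  · have : g z - g 0 - deriv g 0 * z = z * (z * dslope (dslope g 0) 0 z) := by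
      rw [e1 z, ← e2 z]; ring
    rw [this, norm_mul, norm_mul, ← mul_assoc, ← pow_two, mul_comm]
    exact mul_le_mul_of_nonneg_right (hs2 z hz) (by positivity)

theorem pr_WTay : S_WTay := by
  intro r H Λ R lam eta h E hp
  have hr := hp.rpos
  have hH : 0 ≤ H := by
    have h1 := hp.hH 0 0 (mem_ball_self (div_pos hr (hp.Rpos 0)))
    have h2 : 0 ≤ H * R 0 := (norm_nonneg _).trans h1
    exact nonneg_of_mul_nonneg_left h2 (hp.Rpos 0)
  refine ⟨H + 2 * H / r + 4 * H / r ^ 2, fun j => ?_⟩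
  have hR := hp.Rpos j
  have hρ : 0 < r / R j := div_pos hr hR
  have hHR : 0 ≤ H * R j := by positivity
  obtain ⟨a1, a2, a3⟩ := WTay_cauchy (r / R j) (H * R j) hρ hHR (h j) (hp.loc j).an (hp.hH j)
  have hA : 0 ≤ 2 * H / r := by positivity
  have hB : 0 ≤ 4 * H / r ^ 2 := by positivity
  have k1 : 2 * (H * R j) / (r / R j) = 2 * H / r * R j ^ 2 := by
    field_simp
  have k2 : 2 * (2 * (H * R j) / (r / R j)) / (r / R j) = 4 * H / r ^ 2 * R j ^ 3 := by
    field_simp
    ring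
  rw [k1] at a1 a2
  rw [k2] at a3
  have m0 : H * R j ≤ (H + 2 * H / r + 4 * H / r ^ 2) * R j :=
    mul_le_mul_of_nonneg_right (by linarith) hR.le
  have m1 : 2 * H / r * R j ^ 2 ≤ (H + 2 * H / r + 4 * H / r ^ 2) * R j ^ 2 :=
    mul_le_mul_of_nonneg_right (by linarith) (by positivity)
  have m2 : 4 * H / r ^ 2 * R j ^ 3 ≤ (H + 2 * H / r + 4 * H / r ^ 2) * R j ^ 3 :=
    mul_le_mul_of_nonneg_right (by linarith) (by positivity)
  refine ⟨(hp.hH j 0 (mem_ball_self hρ)).trans m0, a1.trans m1, fun z hz => ?_⟩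
  have hz' : z ∈ ball (0 : ℂ) (r / R j) := by
    rw [mem_ball_zero_iff]
    refine lt_of_le_of_lt hz ?_
    rw [div_lt_div_iff₀ (by positivity) hR]
    nlinarith [mul_pos hr hR]
  exact ⟨(a2 z hz').trans (mul_le_mul_of_nonneg_right m1 (norm_nonneg _)),
    (a3 z hz').trans (mul_le_mul_of_nonneg_right m2 (by positivity))⟩

end Pool.Agent.Vx

end

section

/-!
# MP_afe918_an, block W, item WThird (helper78): third moments at the bubbles
-/

set_option autoImplicit false

open Complex Set Filter Topology MeasureTheory Metric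
open scoped Real ContDiff ComplexConjugate

namespace Pool.Agent.Vx

/-- The core estimate: `q` is `1` or `-1`. -/
lemma WThird_core (E : ℕ → ℂ → ℝ) (kap : ℕ → ℝ) (q : ℂ) (hq1 : ‖q‖ = 1)
    (hE : ∀ j, Continuous (E j)) (hE0 : ∀ j z, 0 ≤ E j z) (hk : ∀ j, 0 < kap j)
    (hcomp : ∀ s, 0 < s → ∃ C, ∀ j, ∀ z ∈ ball (0 : ℂ) 4, s ≤ ‖z - q‖ → s ≤ ‖z + q‖ →
      E j z ≤ C * kap j)
    (hb : Tendsto (fun j => bc q (E j)) atTop (𝓝 q))
    (ha : Tendsto (fun j => ba q (E j) / kap j) atTop atTop) :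
    Tendsto (fun j => (∫ z in ball q (1 / 4), ‖z - bc q (E j)‖ ^ 3 * E j z) / ba q (E j)) atTop
      (𝓝 0) := by
  rw [Metric.tendsto_atTop]
  intro ε hε
  set e : ℝ := min (ε / 2) (1 / 8) with he
  have he0 : 0 < e := lt_min (by linarith) (by norm_num)
  have he1 : e ≤ ε / 2 := min_le_left _ _
  have he2 : e ≤ 1 / 8 := min_le_right _ _
  obtain ⟨C, hC⟩ := hcomp (e / 2) (by linarith)
  set V : ℝ := volume.real (ball q (1 / 4)) with hV
  have hV0 : 0 ≤ V := measureReal_nonneg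
  have h1 : ∀ᶠ j in atTop, ‖bc q (E j) - q‖ < e / 2 := by
    have := (Metric.tendsto_nhds.1 hb) (e / 2) (by linarith)
    simpa [dist_eq_norm] using this
  have h2 : ∀ᶠ j in atTop, 2 * (max C 0 * V) / ε + 1 ≤ ba q (E j) / kap j :=
    ha.eventually_ge_atTop _
  obtain ⟨N, hN⟩ := eventually_atTop.1 (h1.and h2)
  refine ⟨N, fun j hj => ?_⟩
  obtain ⟨hj1, hj2⟩ := hN j hj
  have hkj := hk j
  rw [le_div_iff₀ hkj] at hj2
  have hC0 : 0 ≤ max C 0 := le_max_right _ _
  have hba : 0 < ba q (E j) := by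
    have : 0 < (2 * (max C 0 * V) / ε + 1) * kap j := by positivity
    linarith
  have hint : ∀ f : ℂ → ℝ, Continuous f → IntegrableOn f (ball q (1 / 4)) := fun f hf =>
    (hf.continuousOn.integrableOn_compact (isCompact_closedBall q (1 / 4))).mono_set
      ball_subset_closedBall
  have hEj := hE j
  have hle : ∫ z in ball q (1 / 4), ‖z - bc q (E j)‖ ^ 3 * E j z ≤
      ∫ z in ball q (1 / 4), (e * (‖z - bc q (E j)‖ ^ 2 * E j z) + max C 0 * kap j) := by
    refine setIntegral_mono_on (hint _ (by fun_prop)) (hint _ (by fun_prop)) measurableSet_ball ?_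
    intro z hz
    rw [mem_ball, dist_eq_norm] at hz
    have hE0z := hE0 j z
    rcases le_or_gt ‖z - bc q (E j)‖ e with hze | hze
    · have : ‖z - bc q (E j)‖ ^ 3 * E j z ≤ e * (‖z - bc q (E j)‖ ^ 2 * E j z) := by
        have : ‖z - bc q (E j)‖ ^ 3 * E j z =
          ‖z - bc q (E j)‖ * (‖z - bc q (E j)‖ ^ 2 * E j z) := by ring
        rw [this]
        gcongr
      have : 0 ≤ max C 0 * kap j := by positivity
      linarith
    · have hzq : e / 2 ≤ ‖z - q‖ := by
        have := norm_sub_le_norm_sub_add_norm_sub z q (bc q (E j))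
        rw [norm_sub_rev q] at this
        linarith
      have hzq' : e / 2 ≤ ‖z + q‖ := by
        have h3 : ‖(2 : ℂ) * q‖ ≤ ‖z + q‖ + ‖z - q‖ := by
          have : (2 : ℂ) * q = (z + q) - (z - q) := by ring
          rw [this]
          exact norm_sub_le _ _
        rw [norm_mul, hq1] at h3
        norm_num at h3
        linarith
      have hz4 : z ∈ ball (0 : ℂ) 4 := by
        rw [mem_ball, dist_zero_right]
        have : ‖z‖ ≤ ‖z - q‖ + ‖q‖ := by
          have h3 := norm_add_le (z - q) q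
          rwa [sub_add_cancel] at h3
        linarith
      have hEz := hC j z hz4 hzq hzq'
      have hEz' : E j z ≤ max C 0 * kap j :=
        hEz.trans (mul_le_mul_of_nonneg_right (le_max_left _ _) hkj.le)
      have hn : ‖z - bc q (E j)‖ ≤ 1 := by
        have := norm_sub_le_norm_sub_add_norm_sub z q (bc q (E j))
        rw [norm_sub_rev q] at this
        linarith
      have hn3 : ‖z - bc q (E j)‖ ^ 3 ≤ 1 := pow_le_one₀ (norm_nonneg _) hn
      have : ‖z - bc q (E j)‖ ^ 3 * E j z ≤ 1 * (max C 0 * kap j) :=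
        mul_le_mul hn3 hEz' hE0z zero_le_one
      have h4 : 0 ≤ e * (‖z - bc q (E j)‖ ^ 2 * E j z) := by positivity
      linarith
  have hcalc : ∫ z in ball q (1 / 4), (e * (‖z - bc q (E j)‖ ^ 2 * E j z) + max C 0 * kap j) =
      e * ba q (E j) + max C 0 * kap j * V := by
    have : IsFiniteMeasure (volume.restrict (ball q (1 / 4))) :=
      ⟨by rw [Measure.restrict_apply_univ]; exact measure_ball_lt_top⟩
    rw [integral_add ((hint _ (by fun_prop)).const_mul e) (integrable_const _),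
      integral_const_mul]
    unfold ba
    rw [setIntegral_const, smul_eq_mul, ← hV]
    ring
  have hnn : 0 ≤ ∫ z in ball q (1 / 4), ‖z - bc q (E j)‖ ^ 3 * E j z :=
    integral_nonneg fun z => mul_nonneg (by positivity) (hE0 j z)
  rw [Real.dist_eq, sub_zero, abs_of_nonneg (div_nonneg hnn hba.le), div_lt_iff₀ hba]
  rw [hcalc] at hle
  have h5 : max C 0 * kap j * V < ε / 2 * ba q (E j) := by
    have h6 : ε / 2 * ((2 * (max C 0 * V) / ε + 1) * kap j) ≤ ε / 2 * ba q (E j) :=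
      mul_le_mul_of_nonneg_left hj2 (by linarith)
    have h7 : ε / 2 * ((2 * (max C 0 * V) / ε + 1) * kap j) =
        max C 0 * kap j * V + ε / 2 * kap j := by
      field_simp
    have h8 : 0 < ε / 2 * kap j := by positivity
    linarith
  have h9 : e * ba q (E j) ≤ ε / 2 * ba q (E j) := mul_le_mul_of_nonneg_right he1 hba.le
  linarith

theorem pr_WThird : S_WThird := by
  intro r H Λ R lam eta kap h E hT q hq
  have hE : ∀ j, Continuous (E j) := fun j => (hT.pl.loc j).cont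
  have hE0 : ∀ j z, 0 ≤ E j z := fun j => (hT.pl.loc j).nonneg
  rcases hq with rfl | rfl
  · exact WThird_core E kap 1 (by simp) hE hE0 hT.kpos hT.comp hT.b1 hT.a1
  · refine WThird_core E kap (-1) (by simp) hE hE0 hT.kpos ?_ hT.b2 hT.a2
    intro s hs
    obtain ⟨C, hC⟩ := hT.comp s hs
    refine ⟨C, fun j z hz h1 h2 => hC j z hz ?_ ?_⟩
    · simpa [sub_eq_add_neg] using h2
    · simpa using h1

end Pool.Agent.Vx

end

section

/-!
# MP_afe918_an, item WTwo: exactly two bubbles, at 1 and -1 (helper43)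
-/

set_option autoImplicit false

open Complex Set Filter Topology MeasureTheory Metric
open scoped Real ContDiff ComplexConjugate

namespace Pool.Agent.Vx

theorem WTwo_int {E : ℂ → ℝ} (hc : Continuous E) {A : Set ℂ} (hA : Bornology.IsBounded A) :
    IntegrableOn E A := by
  obtain ⟨ρ, hρ⟩ := hA.subset_closedBall 0
  exact (hc.continuousOn.integrableOn_compact (isCompact_closedBall 0 ρ)).mono_set hρ

theorem WTwo_mono {E : ℂ → ℝ} (hc : Continuous E) (hn : ∀ z, 0 ≤ E z) {A B : Set ℂ}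
    (hB : Bornology.IsBounded B) (h : A ⊆ B) : ∫ z in A, E z ≤ ∫ z in B, E z :=
  setIntegral_mono_set (WTwo_int hc hB) (ae_of_all _ hn) (LE.le.eventuallyLE h)

theorem WTwo_union {E : ℂ → ℝ} (hc : Continuous E) (hn : ∀ z, 0 ≤ E z) {A B : Set ℂ}
    (hA : Bornology.IsBounded A) (hB : Bornology.IsBounded B) :
    ∫ z in A ∪ B, E z ≤ (∫ z in A, E z) + ∫ z in B, E z := by
  have hA' : Integrable E (volume.restrict A) := WTwo_int hc hA
  have hB' : Integrable E (volume.restrict B) := WTwo_int hc hB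
  rw [← integral_add_measure hA' hB']
  exact integral_mono_measure (Measure.restrict_union_le A B) (ae_of_all _ hn)
    (hA'.add_measure hB')

theorem WTwo_disj {E : ℂ → ℝ} (hc : Continuous E) (hn : ∀ z, 0 ≤ E z) {A B C : Set ℂ}
    (hC : Bornology.IsBounded C) (mB : MeasurableSet B) (hAC : A ⊆ C) (hBC : B ⊆ C)
    (hd : Disjoint A B) : (∫ z in A, E z) + (∫ z in B, E z) ≤ ∫ z in C, E z := by
  rw [← setIntegral_union hd mB (WTwo_int hc (hC.subset hAC)) (WTwo_int hc (hC.subset hBC))]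
  exact WTwo_mono hc hn hC (union_subset hAC hBC)

theorem WTwo_nonneg {E : ℂ → ℝ} (hn : ∀ z, 0 ≤ E z) (A : Set ℂ) : 0 ≤ ∫ z in A, E z :=
  integral_nonneg hn

section

variable {r H Λ : ℝ} {R lam eta : ℕ → ℝ} {h : ℕ → ℂ → ℂ} {E : ℕ → ℂ → ℝ}

theorem WTwo_in (hp : PL r H Λ R lam eta h E) (q : ℂ) (s : ℝ) :
    ∀ᶠ j in atTop, ball q s ⊆ ball (0 : ℂ) (r / R j) := by
  filter_upwards [(W_radT hp).eventually_ge_atTop (s + dist q 0)] with j hj
  exact ball_subset_ball' hj

/-- The extraction of the concentration set. -/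
theorem WTwo_ext (h1 : S_Ext) (hp : PL r H Λ R lam eta h E) :
    ∃ (φ : ℕ → ℕ) (Q : Finset ℂ), StrictMono φ ∧
      (∀ q ∈ Q, ∀ s, 0 < s → ∀ᶠ j in atTop, 1 ≤ ∫ z in ball q s, E (φ j) z) ∧
      (∀ x, x ∉ Q → ∃ s, 0 < s ∧ ∀ᶠ j in atTop, ∫ z in ball x s, E (φ j) z ≤ 1) := by
  obtain ⟨M, hM0, hM⟩ := W_mass hp
  set μ : ℕ → Measure ℂ := fun j =>
    (volume.withDensity (fun z => ENNReal.ofReal (E j z))).restrict (ball 0 (r / R j)) with hμ
  have hval : ∀ j (A : Set ℂ), MeasurableSet A → Bornology.IsBounded A →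
      (volume.withDensity (fun z => ENNReal.ofReal (E j z))) A =
        ENNReal.ofReal (∫ z in A, E j z) := by
    intro j A hA hb
    rw [withDensity_apply _ hA, ofReal_integral_eq_lintegral_ofReal (WTwo_int (hp.loc j).cont hb)
      (ae_of_all _ (hp.loc j).nonneg)]
  have hμu : ∀ j, μ j univ ≤ ENNReal.ofReal M := by
    intro j
    simp only [hμ]
    rw [Measure.restrict_apply MeasurableSet.univ, univ_inter, hval j _ measurableSet_ball
      isBounded_ball]
    exact ENNReal.ofReal_le_ofReal (hM j)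
  have hμb : ∀ (q : ℂ) (s : ℝ), ∀ᶠ j in atTop, μ j (ball q s) =
      ENNReal.ofReal (∫ z in ball q s, E j z) := by
    intro q s
    filter_upwards [WTwo_in hp q s] with j hj
    simp only [hμ]
    rw [Measure.restrict_apply measurableSet_ball, inter_eq_left.2 hj,
      hval j _ measurableSet_ball isBounded_ball]
  obtain ⟨φ, Q, hφ, -, hQ1, hQ2⟩ := h1 μ M hM0 hμu
  refine ⟨φ, Q, hφ, fun q hq s hs => ?_, fun x hx => ?_⟩
  · filter_upwards [hQ1 q hq s hs, hφ.tendsto_atTop.eventually (hμb q s)] with j hj1 hj2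
    rw [hj2, ← ENNReal.ofReal_one] at hj1
    exact (ENNReal.ofReal_le_ofReal_iff (WTwo_nonneg (hp.loc _).nonneg _)).1 hj1
  · obtain ⟨s, hs, hs2⟩ := hQ2 x hx
    refine ⟨s, hs, ?_⟩
    filter_upwards [hs2, hφ.tendsto_atTop.eventually (hμb x s)] with j hj1 hj2
    rw [hj2, ← ENNReal.ofReal_one] at hj1
    exact (ENNReal.ofReal_le_ofReal_iff (zero_le_one)).1 hj1

/-- The mass of a compact set disjoint from the concentration set tends to 0. -/
theorem WTwo_cpt (h3 : S_WVan) (hp : PL r H Λ R lam eta h E) {Q : Finset ℂ}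
    (hQ : ∀ x, x ∉ Q → ∃ s, 0 < s ∧ ∀ᶠ j in atTop, ∫ z in ball x s, E j z ≤ 1)
    {K : Set ℂ} (hK : IsCompact K) (hKQ : ∀ q ∈ Q, q ∉ K) :
    Tendsto (fun j => ∫ z in K, E j z) atTop (𝓝 0) := by
  have hloc : ∀ x ∈ K, ∃ s, 0 < s ∧ Tendsto (fun j => ∫ z in ball x s, E j z) atTop (𝓝 0) := by
    intro x hx
    obtain ⟨s, hs, hs1⟩ := hQ x (fun hxQ => hKQ x hxQ hx)
    obtain ⟨t, ht, hts, htx⟩ : ∃ t, 0 < t ∧ t ≤ s ∧ (x = 0 ∨ t ≤ ‖x‖) := by
      rcases eq_or_ne x 0 with hx0 | hx0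
      · exact ⟨s, hs, le_rfl, Or.inl hx0⟩
      · exact ⟨min s ‖x‖, lt_min hs (norm_pos_iff.2 hx0), min_le_left _ _,
          Or.inr (min_le_right _ _)⟩
    refine ⟨t / 4, by positivity, h3 r H Λ R lam eta h E hp x t ht htx ?_⟩
    filter_upwards [hs1] with j hj
    exact le_trans (WTwo_mono (hp.loc j).cont (hp.loc j).nonneg isBounded_ball
      (ball_subset_ball hts)) hj
  have key : ∃ B : Set ℂ, Bornology.IsBounded B ∧ K ⊆ B ∧
      Tendsto (fun j => ∫ z in B, E j z) atTop (𝓝 0) := by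
    refine IsCompact.induction_on (p := fun A => ∃ B : Set ℂ, Bornology.IsBounded B ∧ A ⊆ B ∧
      Tendsto (fun j => ∫ z in B, E j z) atTop (𝓝 0)) hK ?_ ?_ ?_ ?_
    · exact ⟨∅, Bornology.isBounded_empty, subset_rfl, by simp⟩
    · rintro s t hst ⟨B, hB, htB, hlim⟩
      exact ⟨B, hB, hst.trans htB, hlim⟩
    · rintro s t ⟨B, hB, hsB, hl⟩ ⟨C, hC, htC, hl'⟩
      refine ⟨B ∪ C, hB.union hC, union_subset_union hsB htC, ?_⟩
      have := hl.add hl'
      rw [add_zero] at this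
      exact squeeze_zero (fun j => WTwo_nonneg (hp.loc j).nonneg _)
        (fun j => WTwo_union (hp.loc j).cont (hp.loc j).nonneg hB hC) this
    · intro x hx
      obtain ⟨s, hs, hlim⟩ := hloc x hx
      exact ⟨ball x s, mem_nhdsWithin_of_mem_nhds (ball_mem_nhds x hs),
        ball x s, isBounded_ball, subset_rfl, hlim⟩
  obtain ⟨B, hB, hKB, hlim⟩ := key
  exact squeeze_zero (fun j => WTwo_nonneg (hp.loc j).nonneg _)
    (fun j => WTwo_mono (hp.loc j).cont (hp.loc j).nonneg hB hKB) hlim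

/-- The mass of any bounded set away from the concentration set tends to 0. -/
theorem WTwo_off (h3 : S_WVan) (hp : PL r H Λ R lam eta h E) {Q : Finset ℂ}
    (hQ : ∀ x, x ∉ Q → ∃ s, 0 < s ∧ ∀ᶠ j in atTop, ∫ z in ball x s, E j z ≤ 1)
    {A : Set ℂ} (hA : Bornology.IsBounded A) (s : ℝ) (hs : 0 < s)
    (hAQ : ∀ z ∈ A, ∀ q ∈ Q, s ≤ dist z q) :
    Tendsto (fun j => ∫ z in A, E j z) atTop (𝓝 0) := by
  obtain ⟨ρ, hρ⟩ := hA.subset_closedBall 0
  have hcl : IsClosed {z : ℂ | ∀ q ∈ Q, s ≤ dist z q} := by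
    have : {z : ℂ | ∀ q ∈ Q, s ≤ dist z q} = ⋂ q ∈ Q, {z : ℂ | s ≤ dist z q} := by
      ext z; simp
    rw [this]
    exact isClosed_biInter fun q _ => isClosed_le continuous_const (continuous_id.dist
      continuous_const)
  have hK := (isCompact_closedBall (0 : ℂ) ρ).inter_right hcl
  have hlim := WTwo_cpt h3 hp hQ hK (fun q hq hqK => by
    have := hqK.2 q hq
    rw [dist_self] at this
    linarith)
  exact squeeze_zero (fun j => WTwo_nonneg (hp.loc j).nonneg _)
    (fun j => WTwo_mono (hp.loc j).cont (hp.loc j).nonneg hK.isBounded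
      (fun z hz => ⟨hρ hz, hAQ z hz⟩)) hlim

/-- Two points with mass at least `8π` each have mass exactly `8π` each. -/
theorem WTwo_pair (hp : PL r H Λ R lam eta h E) {q q' : ℂ}
    (hq : ∀ s, 0 < s → ∀ ε, 0 < ε → ∀ᶠ j in atTop, 8 * π - ε ≤ ∫ z in ball q s, E j z)
    (hq' : ∀ s, 0 < s → ∀ ε, 0 < ε → ∀ᶠ j in atTop, 8 * π - ε ≤ ∫ z in ball q' s, E j z)
    {s : ℝ} (hs : 0 < s) (hd : 2 * s ≤ dist q q') :
    Tendsto (fun j => ∫ z in ball q s, E j z) atTop (𝓝 (8 * π)) := by
  rw [Metric.tendsto_atTop']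
  intro ε hε
  have hm : ∀ᶠ j in atTop, ms (r / R j) (E j) < 16 * π + ε / 2 :=
    hp.mass.eventually_lt_const (by linarith)
  have hall := ((((hq s hs (ε / 4) (by positivity)).and (hq' s hs (ε / 4) (by positivity))).and
    hm).and (WTwo_in hp q s)).and (WTwo_in hp q' s)
  obtain ⟨N, hN⟩ := eventually_atTop.1 hall
  refine ⟨N, fun j hj => ?_⟩
  obtain ⟨⟨⟨⟨h1, h2⟩, h3⟩, h4⟩, h5⟩ := hN j hj.le
  have hdis : Disjoint (ball q s) (ball q' s) := ball_disjoint_ball (by linarith)
  have := WTwo_disj (hp.loc j).cont (hp.loc j).nonneg isBounded_ball measurableSet_ball h4 h5 hdis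
  rw [Real.dist_eq, abs_lt]
  unfold ms at h3
  constructor <;> linarith

/-- The concentration set has at most two points. -/
theorem WTwo_card (hp : PL r H Λ R lam eta h E) {Q : Finset ℂ}
    (hlow : ∀ q ∈ Q, ∀ s, 0 < s → ∀ ε, 0 < ε → ∀ᶠ j in atTop,
      8 * π - ε ≤ ∫ z in ball q s, E j z) : Q.card ≤ 2 := by
  by_contra hc
  push Not at hc
  obtain ⟨a, b, c, ha, hb, hc', hab, hac, hbc⟩ := Finset.two_lt_card_iff.1 hc
  have hab' := dist_pos.2 hab
  have hac' := dist_pos.2 hac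
  have hbc' := dist_pos.2 hbc
  obtain ⟨s, hs, hs1, hs2, hs3⟩ : ∃ s, 0 < s ∧ s + s ≤ dist a b ∧ s + s ≤ dist a c ∧
      s + s ≤ dist b c := by
    refine ⟨min (dist a b) (min (dist a c) (dist b c)) / 2, by positivity, ?_, ?_, ?_⟩
    · have := min_le_left (dist a b) (min (dist a c) (dist b c))
      linarith
    · have := (min_le_right (dist a b) (min (dist a c) (dist b c))).trans (min_le_left _ _)
      linarith
    · have := (min_le_right (dist a b) (min (dist a c) (dist b c))).trans (min_le_right _ _)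
      linarith
  have hm : ∀ᶠ j in atTop, ms (r / R j) (E j) < 16 * π + 1 :=
    hp.mass.eventually_lt_const (by linarith)
  obtain ⟨j, hj1, hj2, hj3, hj4, hj5, hj6, hj7⟩ := ((hlow a ha s hs 1 one_pos).and
    ((hlow b hb s hs 1 one_pos).and ((hlow c hc' s hs 1 one_pos).and
      (hm.and ((WTwo_in hp a s).and ((WTwo_in hp b s).and (WTwo_in hp c s))))))).exists
  have e1 := WTwo_disj (hp.loc j).cont (hp.loc j).nonneg
    (isBounded_ball.union isBounded_ball) measurableSet_ball subset_union_left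
    subset_union_right (ball_disjoint_ball hs1)
  have e2 := WTwo_disj (hp.loc j).cont (hp.loc j).nonneg isBounded_ball measurableSet_ball
    (union_subset hj5 hj6) hj7
    (Disjoint.union_left (ball_disjoint_ball hs2) (ball_disjoint_ball hs3))
  unfold ms at hj4
  have := Real.pi_gt_three
  linarith

/-- A single concentration point is impossible. -/
theorem WTwo_single (h2 : S_WSub) (h3 : S_WVan) (h6 : S_WBal)
    (hp : PL r H Λ R lam eta h E) {Q : Finset ℂ}
    (hQ2 : ∀ x, x ∉ Q → ∃ s, 0 < s ∧ ∀ᶠ j in atTop, ∫ z in ball x s, E j z ≤ 1)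
    {q : ℂ} (hq0 : q ≠ 0) (hQ : ∀ x ∈ Q, x = q)
    (hlow : ∀ s, 0 < s → ∀ ε, 0 < ε → ∀ᶠ j in atTop,
      8 * π - ε ≤ ∫ z in ball q s, E j z) : False := by
  obtain ⟨M, hM0, hM⟩ := W_mass hp
  have hfr : ∃ᶠ j in atTop, (∫ z in ball q 1, E j z) ∈ Icc 0 M := by
    refine Eventually.frequently ?_
    filter_upwards [WTwo_in hp q 1] with j hj
    exact ⟨WTwo_nonneg (hp.loc j).nonneg _, le_trans
      (WTwo_mono (hp.loc j).cont (hp.loc j).nonneg isBounded_ball hj) (hM j)⟩
  obtain ⟨m, -, ψ, hψ, hm⟩ := isCompact_Icc.tendsto_subseq' hfr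
  have hmpos : 0 < m := by
    have := ge_of_tendsto hm (hψ.tendsto_atTop.eventually (hlow 1 one_pos 1 one_pos))
    have := Real.pi_gt_three
    linarith
  have hp' := h2 r H Λ R lam eta h E ψ hp hψ
  have hA : ∀ s, 0 < s → s ≤ 1 →
      Tendsto (fun j => ∫ z in ball q s, E (ψ j) z) atTop (𝓝 m) := by
    intro s hs hs1
    have hoff : Tendsto (fun j => ∫ z in ball q 1 \ ball q s, E j z) atTop (𝓝 0) := by
      refine WTwo_off h3 hp hQ2 (isBounded_ball.subset sdiff_subset) s hs ?_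
      intro z hz x hx
      rw [hQ x hx]
      exact not_lt.1 hz.2
    have := hm.sub (hoff.comp hψ.tendsto_atTop)
    rw [sub_zero] at this
    refine this.congr fun j => ?_
    have hc := (hp.loc (ψ j)).cont
    simp only [Function.comp]
    rw [setIntegral_sdiff measurableSet_ball (WTwo_int hc isBounded_ball) (ball_subset_ball hs1)]
    ring
  have hB : ∀ s, 0 < s → s ≤ 1 →
      Tendsto (fun j => ∫ z in ball (q + 2) s, E (ψ j) z) atTop (𝓝 0) := by
    intro s hs hs1
    refine (WTwo_off h3 hp hQ2 (A := ball (q + 2) s) isBounded_ball 1 one_pos ?_).comp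
      hψ.tendsto_atTop
    intro z hz x hx
    rw [hQ x hx]
    have e1 : dist (q + 2) q = 2 := by
      rw [dist_eq_norm]; simp
    have e2 := dist_triangle (q + 2) z q
    rw [mem_ball, dist_comm] at hz
    linarith
  have hC : ∀ s S, 0 < s → Tendsto (fun j => ∫ z in ball 0 S \ (ball q s ∪ ball (q + 2) s),
      E (ψ j) z) atTop (𝓝 0) := by
    intro s S hs
    refine (WTwo_off h3 hp hQ2 (A := ball 0 S \ (ball q s ∪ ball (q + 2) s))
      (isBounded_ball.subset sdiff_subset) s hs ?_).comp hψ.tendsto_atTop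
    intro z hz x hx
    rw [hQ x hx]
    exact not_lt.1 fun hh => hz.2 (Or.inl hh)
  have hbal := h6 _ _ _ _ _ _ _ _ hp' q (q + 2) m 0 1 hq0 (by simp) hmpos one_pos hA hB hC
  simp at hbal
  exact hq0 hbal

/-- Both concentration points are real. -/
theorem WTwo_real (hp : PL r H Λ R lam eta h E) {q : ℂ}
    (hlow : ∀ s, 0 < s → ∀ ε, 0 < ε → ∀ᶠ j in atTop,
      8 * π - ε ≤ ∫ z in ball q s, E j z) : q.im = 0 := by
  by_contra him
  have hpos : 0 < |q.im| := abs_pos.2 him
  set s : ℝ := |q.im| / 2 with hs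
  have hspos : 0 < s := by positivity
  set c : ℝ := (s / (‖q‖ + s)) ^ 2 with hc
  have hcpos : 0 < c := by positivity
  have hcz : ∀ z ∈ ball q s, c ≤ (z.im / ‖z‖) ^ 2 := by
    intro z hz
    rw [mem_ball, dist_eq_norm] at hz
    have h1 : |z.im - q.im| ≤ ‖z - q‖ := by
      have := Complex.abs_im_le_norm (z - q)
      rwa [Complex.sub_im] at this
    have h2 : s ≤ |z.im| := by
      have := abs_sub_abs_le_abs_sub q.im z.im
      rw [abs_sub_comm] at this
      have e : |q.im| = 2 * s := by rw [hs]; ring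
      linarith
    have h3 : ‖z‖ ≤ ‖q‖ + s := by
      have := norm_add_le (z - q) q
      rw [sub_add_cancel] at this
      linarith
    have hz0 : 0 < ‖z‖ := lt_of_lt_of_le (lt_of_lt_of_le hspos h2) (Complex.abs_im_le_norm z)
    rw [hc, ← sq_abs (z.im / ‖z‖), abs_div, abs_of_pos hz0]
    refine pow_le_pow_left₀ (by positivity) ?_ 2
    exact div_le_div₀ (abs_nonneg _) h2 hz0 h3
  have hint : ∀ j, IntegrableOn (fun z : ℂ => (z.im / ‖z‖) ^ 2 * E j z) (ball 0 (r / R j)) := by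
    intro j
    refine Integrable.mono' (WTwo_int (hp.loc j).cont isBounded_ball) ?_ ?_
    · exact (((Complex.measurable_im.div measurable_norm).pow_const 2).mul
        (hp.loc j).cont.measurable).aestronglyMeasurable
    · refine ae_of_all _ fun z => ?_
      have hE := (hp.loc j).nonneg z
      rw [Real.norm_eq_abs, abs_mul, abs_of_nonneg hE, abs_of_nonneg (sq_nonneg _)]
      refine mul_le_of_le_one_left hE ?_
      rw [← sq_abs, abs_div, abs_of_nonneg (norm_nonneg z)]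
      exact pow_le_one₀ (by positivity) (div_le_one_of_le₀ (Complex.abs_im_le_norm z)
        (norm_nonneg z))
  have hang := hp.ang.eventually_lt_const (u := c * (8 * π - 1)) (by
    have := Real.pi_gt_three
    have : 0 < 8 * π - 1 := by linarith
    positivity)
  obtain ⟨j, hj1, hj2, hj3⟩ := (hang.and ((hlow s hspos 1 one_pos).and (WTwo_in hp q s))).exists
  have e1 : c * ∫ z in ball q s, E j z ≤ ∫ z in ball q s, (z.im / ‖z‖) ^ 2 * E j z := by
    rw [← integral_const_mul]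
    refine setIntegral_mono_on ((WTwo_int (hp.loc j).cont isBounded_ball).const_mul c)
      ((hint j).mono_set hj3) measurableSet_ball fun z hz => ?_
    exact mul_le_mul_of_nonneg_right (hcz z hz) ((hp.loc j).nonneg z)
  have e2 : ∫ z in ball q s, (z.im / ‖z‖) ^ 2 * E j z ≤
      ∫ z in ball (0 : ℂ) (r / R j), (z.im / ‖z‖) ^ 2 * E j z :=
    setIntegral_mono_set (hint j) (ae_of_all _ fun z =>
      mul_nonneg (sq_nonneg _) ((hp.loc j).nonneg z)) (LE.le.eventuallyLE hj3)
  have e3 := mul_le_mul_of_nonneg_left hj2 hcpos.le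
  linarith

/-- The concentration set is `{1, -1}`. -/
theorem WTwo_core (h2 : S_WSub) (h3 : S_WVan) (h4 : S_WNo0) (h5 : S_WQ) (h6 : S_WBal)
    (hp : PL r H Λ R lam eta h E) {Q : Finset ℂ}
    (hQ1 : ∀ q ∈ Q, ∀ s, 0 < s → ∀ᶠ j in atTop, 1 ≤ ∫ z in ball q s, E j z)
    (hQ2 : ∀ x, x ∉ Q → ∃ s, 0 < s ∧ ∀ᶠ j in atTop, ∫ z in ball x s, E j z ≤ 1) :
    ∀ s, 0 < s → s ≤ 1 / 2 →
      Tendsto (fun j => ∫ z in ball (1 : ℂ) s, E j z) atTop (𝓝 (8 * π)) ∧
      Tendsto (fun j => ∫ z in ball (-1 : ℂ) s, E j z) atTop (𝓝 (8 * π)) := by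
  have h0 : ∀ q ∈ Q, q ≠ 0 := by
    rintro q hq rfl
    exact h4 r H Λ R lam eta h E hp (fun s hs => hQ1 0 hq s hs)
  have hlow : ∀ q ∈ Q, ∀ s, 0 < s → ∀ ε, 0 < ε → ∀ᶠ j in atTop,
      8 * π - ε ≤ ∫ z in ball q s, E j z :=
    fun q hq => h5 r H Λ R lam eta h E hp q (h0 q hq) (hQ1 q hq)
  have hex : ∃ q ∈ Q, ‖q‖ ≤ 1 := by
    by_contra hne
    push Not at hne
    have hlim := WTwo_cpt h3 hp hQ2 (isCompact_closedBall (0 : ℂ) 1) (fun q hq hqK => by
      have := hne q hq
      rw [mem_closedBall_zero_iff] at hqK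
      linarith)
    have hge : ∀ j, 8 * π ≤ ∫ z in closedBall (0 : ℂ) 1, E j z := fun j => by
      rw [← hp.half j]
      exact WTwo_mono (hp.loc j).cont (hp.loc j).nonneg isBounded_closedBall
        ball_subset_closedBall
    have := ge_of_tendsto' hlim hge
    linarith [Real.pi_pos]
  have hcard := WTwo_card hp hlow
  obtain ⟨q, hq, hq1⟩ := hex
  by_cases hone : ∀ x ∈ Q, x = q
  · exact (WTwo_single h2 h3 h6 hp hQ2 (h0 q hq) hone (hlow q hq)).elim
  push Not at hone
  obtain ⟨q', hq', hne⟩ := hone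
  have hQeq : ∀ x ∈ Q, x = q ∨ x = q' := by
    intro x hx
    by_contra hxx
    push Not at hxx
    have := Finset.two_lt_card_iff.2 ⟨q, q', x, hq, hq', hx, hne.symm, hxx.1.symm, hxx.2.symm⟩
    omega
  have hd : 0 < dist q q' := dist_pos.2 hne.symm
  have hbal := h6 _ _ _ _ _ _ _ _ hp q q' (8 * π) (8 * π) (dist q q' / 2) (h0 q hq) hne
    (by positivity) (by positivity)
    (fun s hs hs1 => WTwo_pair hp (hlow q hq) (hlow q' hq') hs (by linarith))
    (fun s hs hs1 => WTwo_pair hp (hlow q' hq') (hlow q hq) hs (by rw [dist_comm]; linarith))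
    (fun s S hs => WTwo_off h3 hp hQ2 (A := ball 0 S \ (ball q s ∪ ball q' s))
      (isBounded_ball.subset sdiff_subset) s hs (fun z hz x hx => by
        rcases hQeq x hx with rfl | rfl
        · exact not_lt.1 fun hh => hz.2 (Or.inl hh)
        · exact not_lt.1 fun hh => hz.2 (Or.inr hh)))
  have hqq : q' = -q := by
    have e : (8 * π / (4 * π) : ℝ) = 2 := by
      have := Real.pi_ne_zero
      field_simp
      norm_num
    rw [e] at hbal
    have hsub : q - q' ≠ 0 := sub_ne_zero.2 hne.symm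
    have := h0 q hq
    field_simp at hbal
    push_cast at hbal
    linear_combination -hbal
  have hqn : 0 < ‖q‖ := norm_pos_iff.2 (h0 q hq)
  have hdd : dist q q' = 2 * ‖q‖ := by
    rw [hqq, dist_eq_norm, sub_neg_eq_add, ← two_mul, norm_mul]; simp
  have hnorm : ‖q‖ = 1 := by
    by_contra hn
    have hlt : ‖q‖ < 1 := lt_of_le_of_ne hq1 hn
    obtain ⟨s, hs, hs1, hs2⟩ : ∃ s, 0 < s ∧ s + ‖q‖ ≤ 1 ∧ s ≤ ‖q‖ := by
      refine ⟨min (1 - ‖q‖) ‖q‖, lt_min (by linarith) hqn, ?_, min_le_right _ _⟩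
      have := min_le_left (1 - ‖q‖) ‖q‖
      linarith
    obtain ⟨j, hj1, hj2⟩ := ((hlow q hq s hs 1 one_pos).and (hlow q' hq' s hs 1 one_pos)).exists
    have e1 := WTwo_disj (A := ball q s) (B := ball q' s) (C := ball 0 1) (hp.loc j).cont
      (hp.loc j).nonneg isBounded_ball measurableSet_ball
      (ball_subset_ball' (by rw [dist_zero_right]; exact hs1))
      (ball_subset_ball' (by rw [dist_zero_right, hqq, norm_neg]; exact hs1))
      (ball_disjoint_ball (by linarith))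
    have e2 := hp.half j
    unfold ms at e2
    have := Real.pi_gt_three
    linarith
  have him := WTwo_real hp (hlow q hq)
  have hre : q.re = 1 ∨ q.re = -1 := by
    have e : q = (q.re : ℂ) := by
      apply Complex.ext <;> simp [him]
    rw [e, Complex.norm_real, Real.norm_eq_abs] at hnorm
    exact eq_or_eq_neg_of_abs_eq hnorm
  intro s hs hs2
  have hds : 2 * s ≤ dist q q' := by rw [hdd, hnorm]; linarith
  have hT1 := WTwo_pair hp (hlow q hq) (hlow q' hq') hs hds
  have hT2 := WTwo_pair hp (hlow q' hq') (hlow q hq) hs (by rw [dist_comm]; exact hds)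
  rcases hre with hre | hre
  · have e1 : q = 1 := by apply Complex.ext <;> simp [him, hre]
    have e2 : q' = -1 := by rw [hqq, e1]
    rw [e1] at hT1
    rw [e2] at hT2
    exact ⟨hT1, hT2⟩
  · have e1 : q = -1 := by apply Complex.ext <;> simp [him, hre]
    have e2 : q' = 1 := by rw [hqq, e1, neg_neg]
    rw [e1] at hT1
    rw [e2] at hT2
    exact ⟨hT2, hT1⟩

/-- A point with the limits, from subsequences. -/
theorem WTwo_lim (h1 : S_Ext) (h2 : S_WSub) (h3 : S_WVan) (h4 : S_WNo0) (h5 : S_WQ)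
    (h6 : S_WBal) (hp : PL r H Λ R lam eta h E) (c : ℂ) (hc : c = 1 ∨ c = -1) (s : ℝ)
    (hs : 0 < s) (hs2 : s ≤ 1 / 2) :
    Tendsto (fun j => ∫ z in ball c s, E j z) atTop (𝓝 (8 * π)) := by
  by_contra hnot
  rw [Metric.tendsto_nhds] at hnot
  push Not at hnot
  obtain ⟨ε, hε, hfr⟩ := hnot
  obtain ⟨φ, hφ, hφ2⟩ := extraction_of_frequently_atTop hfr
  have hp1 := h2 r H Λ R lam eta h E φ hp hφ
  obtain ⟨ψ, Q, hψ, hQ1, hQ2⟩ := WTwo_ext h1 hp1
  have hp2 := h2 _ _ _ _ _ _ _ _ ψ hp1 hψ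
  have hlim := WTwo_core h2 h3 h4 h5 h6 hp2 hQ1 hQ2 s hs hs2
  have hlim' : Tendsto (fun j => ∫ z in ball c s, E (φ (ψ j)) z) atTop (𝓝 (8 * π)) := by
    rcases hc with rfl | rfl
    · exact hlim.1
    · exact hlim.2
  rw [Metric.tendsto_nhds] at hlim'
  obtain ⟨j, hj⟩ := (hlim' ε hε).exists
  exact absurd hj (not_lt.2 (hφ2 (ψ j)))

end

theorem pr_WTwo (h1 : S_Ext) (h2 : S_WSub) (h3 : S_WVan) (h4 : S_WNo0) (h5 : S_WQ)
    (h6 : S_WBal) : S_WTwo := by
  intro r H Λ R lam eta h E hp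
  exact
    { pl := hp
      two1 := fun s hs hs2 => WTwo_lim h1 h2 h3 h4 h5 h6 hp 1 (Or.inl rfl) s hs hs2
      two2 := fun s hs hs2 => WTwo_lim h1 h2 h3 h4 h5 h6 hp (-1) (Or.inr rfl) s hs hs2 }

end Pool.Agent.Vx

end

section

/-!
# MP_afe918_an, block W: the mass vanishes locally (`S_WVan`)
-/

set_option autoImplicit false

open Complex Set Filter Topology MeasureTheory Metric
open scoped Real ContDiff

namespace Pool.Agent.Vx

theorem WVan_int {E : ℂ → ℝ} (hE : Continuous E) (x : ℂ) (ρ : ℝ) : IntegrableOn E (ball x ρ) :=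
  (hE.continuousOn.integrableOn_compact (isCompact_closedBall x ρ)).mono_set
    ball_subset_closedBall

theorem WVan_int2 {E : ℂ → ℝ} (hE : Continuous E) (x : ℂ) (ρ : ℝ) :
    IntegrableOn (fun z => (z.im / ‖z‖) ^ 2 * E z) (ball x ρ) := by
  refine Integrable.mono (WVan_int hE x ρ) ?_ (Eventually.of_forall fun z => ?_)
  · apply Measurable.aestronglyMeasurable
    exact ((Complex.measurable_im.div measurable_norm).pow_const 2).mul hE.measurable
  · rw [norm_mul]
    have h1 : ‖(z.im / ‖z‖) ^ 2‖ ≤ 1 := by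
      rw [norm_pow, norm_div, norm_norm]
      apply pow_le_one₀ (by positivity)
      rcases eq_or_ne z 0 with rfl | hz
      · simp
      · rw [div_le_one (norm_pos_iff.2 hz)]
        exact Complex.abs_im_le_norm z
    exact mul_le_of_le_one_left (norm_nonneg _) h1

theorem WVan_vol (L e : ℝ) (hL : 0 ≤ L) :
    MeasurableSet {z : ℂ | |z.re| ≤ L ∧ |z.im| ≤ e * L} ∧
    volume {z : ℂ | |z.re| ≤ L ∧ |z.im| ≤ e * L} = ENNReal.ofReal (4 * e * L ^ 2) := by
  have h1 : {z : ℂ | |z.re| ≤ L ∧ |z.im| ≤ e * L} =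
      Complex.measurableEquivRealProd ⁻¹' (Icc (-L) L ×ˢ Icc (-(e * L)) (e * L)) := by
    ext z
    simp only [abs_le, mem_preimage, mem_prod, mem_Icc]
    rfl
  have h2 : MeasurableSet (Icc (-L) L ×ˢ Icc (-(e * L)) (e * L) : Set (ℝ × ℝ)) :=
    measurableSet_Icc.prod measurableSet_Icc
  refine ⟨?_, ?_⟩
  · rw [h1]
    exact Complex.measurableEquivRealProd.measurable h2
  · rw [h1, Complex.volume_preserving_equiv_real_prod.measure_preimage h2.nullMeasurableSet,
      Measure.volume_eq_prod, Measure.prod_prod, Real.volume_Icc, Real.volume_Icc,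
      ← ENNReal.ofReal_mul (by linarith)]
    congr 1
    ring

theorem pr_WVan (h1 : S_WLoc) : S_WVan := by
  intro r H Λ R lam eta h E hp x s hs hx hsm
  obtain ⟨C0, hC0⟩ := h1 r H Λ R lam eta h E hp x s hs hx hsm
  obtain ⟨C, hCdef⟩ : ∃ C : ℝ, C = max C0 0 := ⟨_, rfl⟩
  have hC00 : 0 ≤ C := by rw [hCdef]; exact le_max_right _ _
  have hC : ∀ᶠ j in atTop, ∀ z ∈ ball x (s / 4), E j z ≤ C := by
    filter_upwards [hC0] with j hj z hz
    rw [hCdef]
    exact (hj z hz).trans (le_max_left _ _)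
  obtain ⟨L, hL⟩ : ∃ L : ℝ, L = ‖x‖ + s := ⟨_, rfl⟩
  have hL0 : 0 < L := by rw [hL]; positivity
  -- the basic inequality
  have key : ∀ e : ℝ, 0 < e → ∀ j, (∀ z ∈ ball x (s / 4), E j z ≤ C) → L < r / R j →
      ∫ z in ball x (s / 4), E j z ≤ C * (4 * e * L ^ 2) +
        (e ^ 2)⁻¹ * ∫ z in ball (0 : ℂ) (r / R j), (z.im / ‖z‖) ^ 2 * E j z := by
    intro e he j hj hLr
    have hEc := (hp.loc j).cont
    have hE0 := (hp.loc j).nonneg
    obtain ⟨hTm, hTv⟩ := WVan_vol L e hL0.le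
    set T : Set ℂ := {z : ℂ | |z.re| ≤ L ∧ |z.im| ≤ e * L} with hT
    have hsub : ball x (s / 4) ⊆ ball (0 : ℂ) (r / R j) := by
      intro z hz
      rw [mem_ball_zero_iff]
      have h2 : ‖z - x‖ < s / 4 := by rwa [mem_ball, dist_eq_norm] at hz
      have h3 : ‖z‖ ≤ ‖z - x‖ + ‖x‖ := by simpa using norm_add_le (z - x) x
      rw [hL] at hLr
      linarith
    have hTi : IntegrableOn (T.indicator fun _ => C) (ball x (s / 4)) := by
      have : Integrable (T.indicator fun _ : ℂ => C) := by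
        rw [integrable_indicator_iff hTm]
        refine integrableOn_const ?_
        rw [hTv]
        exact ENNReal.ofReal_ne_top
      exact this.integrableOn
    have hI2 := WVan_int2 hEc x (s / 4)
    have hmono : ∫ z in ball x (s / 4), E j z ≤
        ∫ z in ball x (s / 4), (T.indicator (fun _ => C) z +
          (e ^ 2)⁻¹ * ((z.im / ‖z‖) ^ 2 * E j z)) := by
      refine setIntegral_mono_on (WVan_int hEc x (s / 4)) (hTi.add (hI2.const_mul _))
        measurableSet_ball ?_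
      intro z hz
      have h2 : ‖z - x‖ < s / 4 := by rwa [mem_ball, dist_eq_norm] at hz
      have h3 : ‖z‖ ≤ ‖z - x‖ + ‖x‖ := by simpa using norm_add_le (z - x) x
      have h4 : ‖z‖ ≤ L := by rw [hL]; linarith
      rcases le_or_gt |z.im| (e * ‖z‖) with h5 | h5
      · have hzT : z ∈ T := by
          refine ⟨(Complex.abs_re_le_norm z).trans h4, h5.trans ?_⟩
          exact mul_le_mul_of_nonneg_left h4 he.le
        rw [indicator_of_mem hzT]
        have h6 := hj z hz
        have h7 : 0 ≤ (e ^ 2)⁻¹ * ((z.im / ‖z‖) ^ 2 * E j z) := by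
          have := hE0 z
          positivity
        linarith
      · have hz0 : 0 < ‖z‖ := by
          by_contra hcon
          have : z = 0 := by
            rw [← norm_eq_zero]
            exact le_antisymm (not_lt.1 hcon) (norm_nonneg _)
          rw [this] at h5
          simp at h5
        have h6 : e ^ 2 ≤ (z.im / ‖z‖) ^ 2 := by
          rw [← sq_abs (z.im / ‖z‖)]
          apply pow_le_pow_left₀ he.le
          rw [abs_div, abs_norm, le_div_iff₀ hz0]
          exact h5.le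
        have h7 : 0 ≤ T.indicator (fun _ => C) z := indicator_nonneg (fun _ _ => hC00) _
        have h8 : E j z ≤ (e ^ 2)⁻¹ * ((z.im / ‖z‖) ^ 2 * E j z) := by
          have h9 := mul_le_mul_of_nonneg_right h6 (hE0 z)
          rw [← div_eq_inv_mul, le_div_iff₀ (by positivity)]
          linarith
        linarith
    rw [integral_add hTi (hI2.const_mul _), integral_const_mul] at hmono
    refine hmono.trans (add_le_add ?_ ?_)
    · have h2 : ∫ z in ball x (s / 4), T.indicator (fun _ => C) z ≤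
          ∫ z, T.indicator (fun _ => C) z := by
        refine setIntegral_le_integral ?_ ?_
        · rw [integrable_indicator_iff hTm]
          refine integrableOn_const ?_
          rw [hTv]
          exact ENNReal.ofReal_ne_top
        · exact Eventually.of_forall fun z => indicator_nonneg (fun _ _ => hC00) _
      refine h2.trans ?_
      rw [integral_indicator hTm, setIntegral_const, Measure.real, hTv,
        ENNReal.toReal_ofReal (by positivity), smul_eq_mul]
      linarith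
    · refine mul_le_mul_of_nonneg_left ?_ (by positivity)
      refine setIntegral_mono_set (WVan_int2 hEc 0 (r / R j)) ?_ hsub.eventuallyLE
      exact Eventually.of_forall fun z => mul_nonneg (sq_nonneg _) (hE0 z)
  rw [Metric.tendsto_atTop']
  intro ε hε
  obtain ⟨e, he0, he⟩ : ∃ e : ℝ, 0 < e ∧ C * (4 * e * L ^ 2) < ε / 2 := by
    refine ⟨ε / (2 * (4 * C * L ^ 2 + 1)), by positivity, ?_⟩
    have h2 : 0 < 4 * C * L ^ 2 + 1 := by positivity
    have h3 : C * (4 * (ε / (2 * (4 * C * L ^ 2 + 1))) * L ^ 2) =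
        (4 * C * L ^ 2) / (4 * C * L ^ 2 + 1) * (ε / 2) := by
      field_simp
    rw [h3]
    have h4 : (4 * C * L ^ 2) / (4 * C * L ^ 2 + 1) < 1 := by
      rw [div_lt_one h2]; linarith
    nlinarith
  have hang := hp.ang.const_mul ((e ^ 2)⁻¹)
  rw [mul_zero] at hang
  have hang2 := hang.eventually (gt_mem_nhds (show (0 : ℝ) < ε / 2 by positivity))
  have hrad := (W_radT hp).eventually_gt_atTop L
  obtain ⟨N, hN⟩ := eventually_atTop.1 ((hC.and hang2).and hrad)
  refine ⟨N, fun j hj => ?_⟩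
  obtain ⟨⟨h2, h3⟩, h4⟩ := hN j hj.le
  have h5 := key e he0 j h2 h4
  have h6 : 0 ≤ ∫ z in ball x (s / 4), E j z :=
    setIntegral_nonneg measurableSet_ball fun z _ => (hp.loc j).nonneg z
  rw [Real.dist_eq, sub_zero, abs_of_nonneg h6]
  linarith

end Pool.Agent.Vx

end

section

/-!
# MP_afe918_an, item R3: integration by parts on the torus (helper61)
-/

set_option autoImplicit false

open Complex Set Filter Topology MeasureTheory Metric
open scoped Real ContDiff ComplexConjugate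

namespace Pool.Agent.Vx

/-- The integral of an `x`-derivative is zero. -/
theorem R3_dx {a b : ℝ} (ha : 0 < a) (hb : 0 < b) {g : ℂ → ℝ} (hg : ContDiff ℝ 1 g)
    (hp : Per a b g) : ti a b (fun z => fderiv ℝ g z 1) = 0 := by
  have hc : Continuous (fun z => fderiv ℝ g z 1) :=
    (hg.continuous_fderiv one_ne_zero).clm_apply continuous_const
  unfold ti
  rw [R3_yx ha hb hc]
  have h0 : ∀ y : ℝ, ∫ x in (-(a / 2))..(a / 2), fderiv ℝ g (x + y * I) 1 = 0 := by
    intro y
    have h1 : ∀ x : ℝ, HasDerivAt (fun x : ℝ => g (x + y * I)) (fderiv ℝ g (x + y * I) 1) x := by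
      intro x
      have h2 : HasDerivAt (fun x : ℝ => (x : ℂ) + y * I) 1 x := by
        simpa using (HasDerivAt.ofReal_comp (hasDerivAt_id x)).add_const ((y : ℂ) * I)
      exact ((hg.differentiable one_ne_zero) _).hasFDerivAt.comp_hasDerivAt x h2
    rw [intervalIntegral.integral_eq_sub_of_hasDerivAt (fun x _ => h1 x)
      ((hc.comp (by fun_prop : Continuous fun x : ℝ => (x : ℂ) + y * I)).intervalIntegrable _ _)]
    have h3 := (hp (((-(a / 2) : ℝ) : ℂ) + y * I)).1
    rw [← h3, sub_eq_zero]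
    congr 1
    push_cast
    ring
  simp only [h0]
  simp

/-- The integral of a `y`-derivative is zero. -/
theorem R3_dy {a b : ℝ} (ha : 0 < a) (hb : 0 < b) {g : ℂ → ℝ} (hg : ContDiff ℝ 1 g)
    (hp : Per a b g) : ti a b (fun z => fderiv ℝ g z I) = 0 := by
  have hc : Continuous (fun z => fderiv ℝ g z I) :=
    (hg.continuous_fderiv one_ne_zero).clm_apply continuous_const
  unfold ti
  rw [R3_xy ha hb hc]
  have h0 : ∀ x : ℝ, ∫ y in (-(b / 2))..(b / 2), fderiv ℝ g (x + y * I) I = 0 := by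
    intro x
    have h1 : ∀ y : ℝ, HasDerivAt (fun y : ℝ => g (x + y * I)) (fderiv ℝ g (x + y * I) I) y := by
      intro y
      have h2 : HasDerivAt (fun y : ℝ => (x : ℂ) + y * I) I y := by
        simpa using ((HasDerivAt.ofReal_comp (hasDerivAt_id y)).mul_const I).const_add (x : ℂ)
      exact ((hg.differentiable one_ne_zero) _).hasFDerivAt.comp_hasDerivAt y h2
    rw [intervalIntegral.integral_eq_sub_of_hasDerivAt (fun y _ => h1 y)
      ((hc.comp (by fun_prop : Continuous fun y : ℝ => (x : ℂ) + y * I)).intervalIntegrable _ _)]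
    have h3 := (hp ((x : ℂ) + ((-(b / 2) : ℝ) : ℂ) * I)).2
    rw [← h3, sub_eq_zero]
    congr 1
    push_cast
    ring
  simp only [h0]
  simp

/-- Derivatives of periodic functions are periodic. -/
theorem R3_per {a b : ℝ} {g : ℂ → ℝ} (hp : Per a b g) (v : ℂ) :
    Per a b (fun z => fderiv ℝ g z v) := by
  intro z
  constructor
  · have h : (fun w => g (w + a)) = g := funext fun w => (hp w).1
    have h2 := fderiv_comp_add_right (𝕜 := ℝ) (f := g) (x := z) (a : ℂ)
    rw [h] at h2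
    dsimp only
    rw [h2]
  · have h : (fun w => g (w + b * I)) = g := funext fun w => (hp w).2
    have h2 := fderiv_comp_add_right (𝕜 := ℝ) (f := g) (x := z) ((b : ℂ) * I)
    rw [h] at h2
    dsimp only
    rw [h2]

theorem R3_smooth {g : ℂ → ℝ} (hg : ContDiff ℝ ∞ g) (v : ℂ) :
    ContDiff ℝ ∞ (fun z => fderiv ℝ g z v) :=
  (hg.fderiv_right (m := ∞) (by simp)).clm_apply contDiff_const

/-- The Laplacian as a sum of second derivatives. -/
theorem R3_lap {g : ℂ → ℝ} (hg : ContDiff ℝ ∞ g) (z : ℂ) : Laplacian.laplacian g z =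
    fderiv ℝ (fun w => fderiv ℝ g w 1) z 1 + fderiv ℝ (fun w => fderiv ℝ g w I) z I := by
  have hd : DifferentiableAt ℝ (fderiv ℝ g) z :=
    ((hg.fderiv_right (m := ∞) (by simp)).differentiable (by simp)) z
  have h : ∀ v : ℂ, fderiv ℝ (fun w => fderiv ℝ g w v) z v = fderiv ℝ (fderiv ℝ g) z v v := by
    intro v
    rw [fderiv_clm_apply hd (differentiableAt_const v)]
    simp
  rw [h, h, InnerProductSpace.laplacian_eq_iteratedFDeriv_complexPlane]
  simp only [iteratedFDeriv_two_apply]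
  simp

/-- Green's formula in one direction. -/
theorem R3_green {a b : ℝ} {φ ψ : ℂ → ℝ} (hφ : ContDiff ℝ ∞ φ) (hψ : ContDiff ℝ ∞ ψ) (v : ℂ)
    (h0 : ti a b (fun z => fderiv ℝ
      (fun w => fderiv ℝ φ w v * ψ w - φ w * fderiv ℝ ψ w v) z v) = 0) :
    ti a b (fun z => fderiv ℝ (fun w => fderiv ℝ φ w v) z v * ψ z) =
      ti a b (fun z => φ z * fderiv ℝ (fun w => fderiv ℝ ψ w v) z v) := by
  have e : ∀ z, fderiv ℝ (fun w => fderiv ℝ φ w v * ψ w - φ w * fderiv ℝ ψ w v) z v =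
      fderiv ℝ (fun w => fderiv ℝ φ w v) z v * ψ z -
        φ z * fderiv ℝ (fun w => fderiv ℝ ψ w v) z v := by
    intro z
    have d1 : DifferentiableAt ℝ (fun w => fderiv ℝ φ w v) z :=
      (R3_smooth hφ v).differentiable (by simp) z
    have d2 : DifferentiableAt ℝ (fun w => fderiv ℝ ψ w v) z :=
      (R3_smooth hψ v).differentiable (by simp) z
    have d3 : DifferentiableAt ℝ φ z := hφ.differentiable (by simp) z
    have d4 : DifferentiableAt ℝ ψ z := hψ.differentiable (by simp) z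
    have d5 : DifferentiableAt ℝ (fun w => fderiv ℝ φ w v * ψ w) z := d1.mul d4
    have d6 : DifferentiableAt ℝ (fun w => φ w * fderiv ℝ ψ w v) z := d3.mul d2
    rw [fderiv_fun_sub d5 d6, fderiv_fun_mul d1 d4, fderiv_fun_mul d3 d2]
    simp only [sub_apply, add_apply, smul_apply, smul_eq_mul]
    ring
  simp only [e] at h0
  unfold ti at h0 ⊢
  rw [integral_sub] at h0
  · linarith
  · exact R3_int a b 0 ((((R3_smooth (R3_smooth hφ v) v).continuous)).mul hψ.continuous)
  · exact R3_int a b 0 (hφ.continuous.mul (((R3_smooth (R3_smooth hψ v) v).continuous)))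

theorem R3_perMul {a b : ℝ} {f g : ℂ → ℝ} (hf : Per a b f) (hg : Per a b g) :
    Per a b (fun z => f z * g z) := fun z =>
  ⟨by dsimp only; rw [(hf z).1, (hg z).1], by dsimp only; rw [(hf z).2, (hg z).2]⟩

theorem R3_perSub {a b : ℝ} {f g : ℂ → ℝ} (hf : Per a b f) (hg : Per a b g) :
    Per a b (fun z => f z - g z) := fun z =>
  ⟨by dsimp only; rw [(hf z).1, (hg z).1], by dsimp only; rw [(hf z).2, (hg z).2]⟩

theorem R3_perAdd {a b : ℝ} {f g : ℂ → ℝ} (hf : Per a b f) (hg : Per a b g) :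
    Per a b (fun z => f z + g z) := fun z =>
  ⟨by dsimp only; rw [(hf z).1, (hg z).1], by dsimp only; rw [(hf z).2, (hg z).2]⟩

/-- Green's formula on the torus. -/
theorem R3_sym {a b : ℝ} (ha : 0 < a) (hb : 0 < b) {φ ψ : ℂ → ℝ} (hφ : ContDiff ℝ ∞ φ)
    (hψ : ContDiff ℝ ∞ ψ) (pφ : Per a b φ) (pψ : Per a b ψ) :
    ti a b (fun z => Laplacian.laplacian φ z * ψ z) =
      ti a b (fun z => φ z * Laplacian.laplacian ψ z) := by
  have hs : ∀ v : ℂ, ContDiff ℝ 1 (fun w => fderiv ℝ φ w v * ψ w - φ w * fderiv ℝ ψ w v) :=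
    fun v => ((((R3_smooth hφ v).mul hψ).sub (hφ.mul (R3_smooth hψ v))).of_le (by simp))
  have hp : ∀ v : ℂ, Per a b (fun w => fderiv ℝ φ w v * ψ w - φ w * fderiv ℝ ψ w v) :=
    fun v => R3_perSub (R3_perMul (R3_per pφ v) pψ) (R3_perMul pφ (R3_per pψ v))
  have g1 := R3_green (a := a) (b := b) hφ hψ 1 (R3_dx ha hb (hs 1) (hp 1))
  have g2 := R3_green (a := a) (b := b) hφ hψ I (R3_dy ha hb (hs I) (hp I))
  simp only [R3_lap hφ, R3_lap hψ, add_mul, mul_add]
  have c1 : ∀ v : ℂ, Continuous (fun z => fderiv ℝ (fun w => fderiv ℝ φ w v) z v) := fun v =>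
    (R3_smooth (R3_smooth hφ v) v).continuous
  have c2 : ∀ v : ℂ, Continuous (fun z => fderiv ℝ (fun w => fderiv ℝ ψ w v) z v) := fun v =>
    (R3_smooth (R3_smooth hψ v) v).continuous
  have i1 : ∀ v : ℂ, IntegrableOn (fun z => fderiv ℝ (fun w => fderiv ℝ φ w v) z v * ψ z)
      (rect a b 0) := fun v => R3_int a b 0 ((c1 v).mul hψ.continuous)
  have i2 : ∀ v : ℂ, IntegrableOn (fun z => φ z * fderiv ℝ (fun w => fderiv ℝ ψ w v) z v)
      (rect a b 0) := fun v => R3_int a b 0 (hφ.continuous.mul (c2 v))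
  simp only [ti] at g1 g2 ⊢
  rw [integral_add (i1 1) (i1 I), integral_add (i2 1) (i2 I), g1, g2]

/-- The linear form of the phase. -/
noncomputable def R3_L (a b : ℝ) (ξ : ℤ × ℤ) : ℂ →L[ℝ] ℝ :=
  (2 * π * ξ.1 / a) • reCLM + (2 * π * ξ.2 / b) • imCLM

theorem R3_L_apply (a b : ℝ) (ξ : ℤ × ℤ) (z : ℂ) : R3_L a b ξ z = ph a b ξ z := by
  simp only [R3_L, ph, add_apply, smul_apply, reCLM_apply, imCLM_apply, smul_eq_mul]
  ring

theorem R3_mdSmooth (a b : ℝ) (i : (ℤ × ℤ) × Bool) : ContDiff ℝ ∞ (md a b i) := by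
  have h : ContDiff ℝ ∞ (fun z => ph a b i.1 z) := by
    simp only [← R3_L_apply]
    exact (R3_L a b i.1).contDiff
  unfold md
  split_ifs
  · exact Real.contDiff_sin.comp h
  · exact Real.contDiff_cos.comp h

theorem R3_mdPer {a b : ℝ} (ha : a ≠ 0) (hb : b ≠ 0) (i : (ℤ × ℤ) × Bool) :
    Per a b (md a b i) := by
  intro z
  have h1 : ph a b i.1 (z + a) = ph a b i.1 z + i.1.1 * (2 * π) := by
    unfold ph
    simp only [add_re, ofReal_re, add_im, ofReal_im]
    field_simp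
    ring
  have h2 : ph a b i.1 (z + b * I) = ph a b i.1 z + i.1.2 * (2 * π) := by
    unfold ph
    simp
    field_simp
    ring
  unfold md
  rw [h1, h2]
  constructor
  · split_ifs
    · exact Real.sin_add_int_mul_two_pi _ _
    · exact Real.cos_add_int_mul_two_pi _ _
  · split_ifs
    · exact Real.sin_add_int_mul_two_pi _ _
    · exact Real.cos_add_int_mul_two_pi _ _

/-- The Laplacian of a Fourier mode. -/
theorem R3_mdLap (a b : ℝ) (ξ : ℤ × ℤ) (t : Bool) (z : ℂ) :
    Laplacian.laplacian (md a b (ξ, t)) z = -nu a b ξ * md a b (ξ, t) z := by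
  rw [R3_lap (R3_mdSmooth a b (ξ, t))]
  have hL : ∀ z, HasFDerivAt (fun z => ph a b ξ z) (R3_L a b ξ) z := by
    intro z
    simp only [← R3_L_apply]
    exact (R3_L a b ξ).hasFDerivAt
  have e : ∀ v : ℂ, ∀ z, fderiv ℝ (fun w => fderiv ℝ (md a b (ξ, t)) w v) z v =
      -(R3_L a b ξ v) ^ 2 * md a b (ξ, t) z := by
    intro v z
    cases t with
    | false =>
      have h1 : ∀ w, HasFDerivAt (md a b (ξ, false)) (-Real.sin (ph a b ξ w) • R3_L a b ξ) w := by
        intro w
        have h5 : md a b (ξ, false) = fun x => Real.cos (ph a b ξ x) := by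
          funext x; simp [md]
        rw [h5]
        exact (hL w).cos
      have h2 : (fun w => fderiv ℝ (md a b (ξ, false)) w v) =
          fun w => -Real.sin (ph a b ξ w) * R3_L a b ξ v := by
        funext w
        rw [(h1 w).fderiv]
        simp
      have h3 : HasFDerivAt (fun w => -Real.sin (ph a b ξ w) * R3_L a b ξ v)
          ((R3_L a b ξ v) • (-(Real.cos (ph a b ξ z) • R3_L a b ξ))) z :=
        ((hL z).sin.neg).mul_const _
      rw [h2, h3.fderiv]
      simp [md]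
      ring
    | true =>
      have h1 : ∀ w, HasFDerivAt (md a b (ξ, true)) (Real.cos (ph a b ξ w) • R3_L a b ξ) w := by
        intro w
        have h5 : md a b (ξ, true) = fun x => Real.sin (ph a b ξ x) := by
          funext x; simp [md]
        rw [h5]
        exact (hL w).sin
      have h2 : (fun w => fderiv ℝ (md a b (ξ, true)) w v) =
          fun w => Real.cos (ph a b ξ w) * R3_L a b ξ v := by
        funext w
        rw [(h1 w).fderiv]
        simp
      have h3 : HasFDerivAt (fun w => Real.cos (ph a b ξ w) * R3_L a b ξ v)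
          ((R3_L a b ξ v) • (-Real.sin (ph a b ξ z) • R3_L a b ξ)) z :=
        (hL z).cos.mul_const _
      rw [h2, h3.fderiv]
      simp [md]
      ring
  rw [e, e]
  have h1 : R3_L a b ξ 1 = 2 * π * ξ.1 / a := by simp [R3_L]
  have h2 : R3_L a b ξ I = 2 * π * ξ.2 / b := by simp [R3_L]
  rw [h1, h2]
  unfold nu
  ring

/-- R3. -/
theorem pr_R3 (_h1 : S_Ti) : S_R3 := by
  intro a b φ ha hb hφ hp
  have hc : ∀ v : ℂ, Continuous (fun z => fderiv ℝ (fun w => fderiv ℝ φ w v) z v) := fun v =>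
    (R3_smooth (R3_smooth hφ v) v).continuous
  have hf : Laplacian.laplacian φ = fun z => fderiv ℝ (fun w => fderiv ℝ φ w 1) z 1 +
      fderiv ℝ (fun w => fderiv ℝ φ w I) z I := funext fun z => R3_lap hφ z
  refine ⟨?_, ?_, ?_, ?_⟩
  · rw [hf]
    exact (hc 1).add (hc I)
  · rw [hf]
    exact R3_perAdd (R3_per (R3_per hp 1) 1) (R3_per (R3_per hp I) I)
  · have h := R3_sym ha hb hφ (ψ := fun _ => 1) contDiff_const hp (fun z => ⟨rfl, rfl⟩)
    have h2 : ∀ z, Laplacian.laplacian (fun _ : ℂ => (1 : ℝ)) z = 0 := by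
      intro z
      rw [R3_lap contDiff_const]
      simp
    simp only [h2, mul_one, mul_zero] at h
    rw [show ti a b (Laplacian.laplacian φ) = ti a b (fun z => Laplacian.laplacian φ z) from rfl, h]
    simp [ti]
  · intro ξ t
    rw [R3_sym ha hb hφ (R3_mdSmooth a b (ξ, t)) hp (R3_mdPer ha.ne' hb.ne' (ξ, t))]
    unfold ti
    rw [← integral_const_mul]
    refine integral_congr_ae (Filter.Eventually.of_forall fun z => ?_)
    dsimp only
    rw [R3_mdLap]
    ring

end Pool.Agent.Vx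

end

section

/-!
# MP_afe918_an, item Vgfou: Fourier coefficients of the convolution with the Green function
-/

set_option autoImplicit false

open Complex Set Filter Topology MeasureTheory Metric
open scoped Real ContDiff

namespace Pool.Agent.Vx

theorem V_gfou_facts (hG : V_G) {a b : ℝ} {F : ℂ → ℂ} (hT : IsTheta a b F) :
    R4_Facts a b (Gr a b F) := by
  obtain ⟨hc, -, -, hper, heven, -⟩ := hG a b F hT
  refine ⟨hT.apos, hT.bpos, hper, heven, ?_, hT.integ⟩
  unfold Gr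
  exact (Real.measurable_log.comp hc.measurable).const_mul _

theorem V_gfou_swap {a b : ℝ} {G : ℂ → ℝ} (h : R4_Facts a b G) {g g' : ℂ → ℝ} (hg : BM a b g)
    (hg' : BM a b g') :
    ti a b (fun z => g' z * R4_c a b G g z) = ti a b (fun z => g z * R4_c a b G g' z) := by
  obtain ⟨C, hC⟩ := hg.bdd
  obtain ⟨C', hC'⟩ := hg'.bdd
  set μ : Measure ℂ := (volume : Measure ℂ).restrict (rect a b 0) with hμ
  have hI : Integrable (fun p : ℂ × ℂ => G (p.1 - p.2) * (g p.2 * g' p.1)) (μ.prod μ) := by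
    refine (R4_prod pr_Ti h).mul_bdd (c := C * C') ?_ (ae_of_all _ fun p => ?_)
    · exact ((hg.meas.comp measurable_snd).mul (hg'.meas.comp measurable_fst)).aestronglyMeasurable
    · rw [norm_mul, Real.norm_eq_abs, Real.norm_eq_abs]
      exact mul_le_mul (hC _) (hC' _) (abs_nonneg _) (le_trans (abs_nonneg _) (hC 0))
  have h3 : ti a b (fun z => g' z * R4_c a b G g z) =
      ∫ x, ∫ y, G (x - y) * (g y * g' x) ∂μ ∂μ := by
    refine integral_congr_ae (ae_of_all _ fun x => ?_)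
    show g' x * (∫ y, G (x - y) * g y ∂μ) = _
    rw [← integral_const_mul]
    refine integral_congr_ae (ae_of_all _ fun y => ?_)
    show g' x * (G (x - y) * g y) = G (x - y) * (g y * g' x)
    ring
  have h4 : ti a b (fun z => g z * R4_c a b G g' z) =
      ∫ y, ∫ x, G (x - y) * (g y * g' x) ∂μ ∂μ := by
    refine integral_congr_ae (ae_of_all _ fun y => ?_)
    show g y * (∫ x, G (y - x) * g' x ∂μ) = _
    rw [← integral_const_mul]
    refine integral_congr_ae (ae_of_all _ fun x => ?_)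
    show g y * (G (y - x) * g' x) = G (x - y) * (g y * g' x)
    rw [R4_sym h x y]
    ring
  rw [h3, h4]
  exact integral_integral_swap hI

theorem V_gfou_md {a b : ℝ} (ha : 0 < a) (hb : 0 < b) (i : (ℤ × ℤ) × Bool) :
    BM a b (md a b i) := by
  refine ⟨(R4_md_cont a b i).measurable, R4_md_per ha hb i, 1, fun z => ?_⟩
  unfold md
  split_ifs
  · exact Real.abs_sin_le_one _
  · exact Real.abs_cos_le_one _

theorem pr_V_gfou (hG : V_G) : V_gfou := by
  intro a b F hT g hg
  have h := V_gfou_facts hG hT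
  have hc : ∀ (g : ℂ → ℝ), gg a b F g = R4_c a b (Gr a b F) g := fun g => rfl
  refine ⟨?_, fun f hf => ?_, fun ξ s hξ => ?_⟩
  · have h1 : BM a b (fun _ => (1 : ℝ)) := ⟨measurable_const, fun z => ⟨rfl, rfl⟩, 1, by simp⟩
    have h5 := V_gfou_swap h hg h1
    have h6 : R4_c a b (Gr a b F) (fun _ => (1 : ℝ)) = fun _ => 0 := by
      funext x
      exact R4_one pr_Ti h hT.mean x
    rw [h6] at h5
    simp only [one_mul, mul_zero] at h5
    rw [hc, show R4_c a b (Gr a b F) g = fun z => R4_c a b (Gr a b F) g z from rfl, h5]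
    simp [ti]
  · rw [hc, hc]
    exact V_gfou_swap h hg hf
  · have h5 := V_gfou_swap h hg (V_gfou_md h.apos h.bpos (ξ, s))
    have h6 : R4_c a b (Gr a b F) (md a b (ξ, s)) = fun x => 1 / nu a b ξ * md a b (ξ, s) x := by
      funext x
      exact R4_cos pr_Ti h ξ hξ hT.fcos s x
    rw [h6] at h5
    have h7 : ti a b (fun z => gg a b F g z * md a b (ξ, s) z) =
        ti a b (fun z => md a b (ξ, s) z * R4_c a b (Gr a b F) g z) := by
      refine integral_congr_ae (ae_of_all _ fun z => ?_)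
      show gg a b F g z * md a b (ξ, s) z = md a b (ξ, s) z * R4_c a b (Gr a b F) g z
      rw [hc, mul_comm]
    rw [h7, h5]
    show (∫ z in rect a b 0, g z * (1 / nu a b ξ * md a b (ξ, s) z)) =
      1 / nu a b ξ * ∫ z in rect a b 0, g z * md a b (ξ, s) z
    rw [← integral_const_mul]
    refine integral_congr_ae (ae_of_all _ fun z => ?_)
    show g z * (1 / nu a b ξ * md a b (ξ, s) z) = 1 / nu a b ξ * (g z * md a b (ξ, s) z)
    ring

end Pool.Agent.Vx

end

section

/-!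
# MP_afe918_an, block W, item WLam: the `lam` term
-/

set_option autoImplicit false

open Complex Set Filter Topology MeasureTheory Metric
open scoped Real ContDiff ComplexConjugate

namespace Pool.Agent.Vx

theorem WLam_vfc (sp sm g1 g2 : ℂ) : Continuous (vf sp sm g1 g2) := by
  unfold vf
  fun_prop

theorem WLam_split (f : ℂ → ℂ) (hf : Continuous f) (ρ : ℝ) (hρ : 2 ≤ ρ) :
    ∫ z in ball (0 : ℂ) ρ, f z = (∫ z in ball (1 : ℂ) (1 / 4), f z) +
      (∫ z in ball (-1 : ℂ) (1 / 4), f z) +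
      (∫ z in ball (0 : ℂ) 2 \ (ball 1 (1 / 4) ∪ ball (-1) (1 / 4)), f z) +
      ∫ z in ball (0 : ℂ) ρ \ ball 0 2, f z := by
  have hi : ∀ s, IntegrableOn f (ball (0 : ℂ) s) := fun s => WS1_intcC s f hf
  have s1 : ball (1 : ℂ) (1 / 4) ⊆ ball 0 2 := by
    intro z hz
    rw [mem_ball_iff_norm] at hz
    rw [mem_ball_zero_iff]
    have h3 : ‖z‖ ≤ ‖z - 1‖ + ‖(1 : ℂ)‖ := by
      have := norm_add_le (z - 1) 1
      simpa using this
    rw [norm_one] at h3
    linarith
  have s2 : ball (-1 : ℂ) (1 / 4) ⊆ ball 0 2 := by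
    intro z hz
    rw [mem_ball_iff_norm] at hz
    rw [mem_ball_zero_iff]
    have h3 : ‖z‖ ≤ ‖z - (-1)‖ + ‖(-1 : ℂ)‖ := by
      have := norm_add_le (z - (-1)) (-1)
      simpa using this
    rw [norm_neg, norm_one] at h3
    linarith
  have hdisj : Disjoint (ball (1 : ℂ) (1 / 4)) (ball (-1) (1 / 4)) := by
    refine ball_disjoint_ball ?_
    rw [dist_eq_norm]
    norm_num
  have e1 : ∫ z in ball (0 : ℂ) ρ \ ball 0 2, f z =
      (∫ z in ball (0 : ℂ) ρ, f z) - ∫ z in ball (0 : ℂ) 2, f z :=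
    setIntegral_sdiff measurableSet_ball (hi ρ) (ball_subset_ball hρ)
  have e2 : ∫ z in ball (0 : ℂ) 2 \ (ball 1 (1 / 4) ∪ ball (-1) (1 / 4)), f z =
      (∫ z in ball (0 : ℂ) 2, f z) - ∫ z in ball (1 : ℂ) (1 / 4) ∪ ball (-1) (1 / 4), f z :=
    setIntegral_sdiff (measurableSet_ball.union measurableSet_ball) (hi 2) (union_subset s1 s2)
  have e3 : ∫ z in ball (1 : ℂ) (1 / 4) ∪ ball (-1) (1 / 4), f z =
      (∫ z in ball (1 : ℂ) (1 / 4), f z) + ∫ z in ball (-1 : ℂ) (1 / 4), f z :=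
    setIntegral_union hdisj measurableSet_ball ((hi 2).mono_set s1) ((hi 2).mono_set s2)
  rw [e1, e2, e3]
  ring

theorem pr_WLam (h1 : S_WLamT) (h2 : S_WLamN) (h3 : S_WTay) : S_WLam := by
  intro r H Λ R lam eta kap h E sp sm hT hM
  have hp := hT.pl
  have hr := hp.rpos
  obtain ⟨Ct, hCt⟩ := h1 r H Λ R lam eta kap h E sp sm hT hM
  obtain ⟨hN1, hN2⟩ := h2 r H Λ R lam eta kap h E sp sm hT hM
  obtain ⟨C1', hC1'⟩ := h3 r H Λ R lam eta h E hp
  obtain ⟨Cc, hCc⟩ := hT.comp (1 / 4) (by norm_num)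
  -- bounds for the coefficients
  set C1 : ℝ := |C1'| with hC1d
  have hC10 : 0 ≤ C1 := abs_nonneg _
  have hprod : Tendsto (fun j => ‖sp j * sm j‖) atTop (𝓝 1) := by
    have h4 := (hM.p1.mul hM.p2).norm
    simpa using h4
  have hlow : ∀ᶠ j in atTop, 1 / 2 ≤ ‖sp j * sm j‖ :=
    hprod.eventually (eventually_ge_nhds (by norm_num))
  have hspb : ∀ᶠ j in atTop, ‖sp j‖ ≤ 2 := by
    have h4 := hM.p1.norm
    rw [norm_one] at h4
    exact h4.eventually (eventually_le_nhds (by norm_num))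
  have hsmb : ∀ᶠ j in atTop, ‖sm j‖ ≤ 2 := by
    have h4 := hM.p2.norm
    rw [norm_neg, norm_one] at h4
    exact h4.eventually (eventually_le_nhds (by norm_num))
  set G : ℝ := 1 + C1 * r * 2 + ((C1 * r) ^ 2 + C1 * r ^ 2) / 2 * 2 ^ 2 with hG
  have hG0 : 0 ≤ G := by positivity
  set V : ℝ := 2 * (2 * (2 + 2) * (2 + 2) * G) * 2 with hV
  have hV0 : 0 ≤ V := by positivity
  -- the rest
  have hrest : ∀ᶠ j in atTop, ‖∫ z in ball (0 : ℂ) 2 \ (ball 1 (1 / 4) ∪ ball (-1) (1 / 4)),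
      vf (sp j) (sm j) (gg1 (h j)) (gg2 (h j)) z * conj z * (E j z : ℂ)‖ ≤
        V * |Cc| * (volume.real (ball (0 : ℂ) 2)) * kap j := by
    filter_upwards [hlow, hspb, hsmb] with j hl hs1 hs2
    have hR := hp.Rpos j
    have hRr : R j ≤ r := by
      have := hp.small j
      linarith
    have hk := hT.kpos j
    have hE0 := (hp.loc j).nonneg
    obtain ⟨hd1, hd2, -⟩ := hC1' j
    have hd1' : ‖deriv (h j) 0‖ ≤ C1 * r := by
      refine hd1.trans ?_
      have := le_abs_self C1'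
      gcongr
    have hd2' : ‖deriv (deriv (h j)) 0‖ ≤ C1 * r ^ 2 := by
      refine hd2.trans ?_
      have := le_abs_self C1'
      gcongr
    have hg1 : ‖gg1 (h j)‖ ≤ C1 * r := by
      unfold gg1
      rw [norm_neg]
      exact hd1'
    have hg2 : ‖gg2 (h j)‖ ≤ ((C1 * r) ^ 2 + C1 * r ^ 2) / 2 := by
      unfold gg2
      rw [norm_div]
      have h4 : ‖(2 : ℂ)‖ = 2 := by simp
      rw [h4]
      have h5 : ‖deriv (h j) 0 ^ 2 - deriv (deriv (h j)) 0‖ ≤ (C1 * r) ^ 2 + C1 * r ^ 2 := by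
        refine (norm_sub_le _ _).trans (add_le_add ?_ hd2')
        rw [norm_pow]
        gcongr
      gcongr
    have hb : ∀ z ∈ ball (0 : ℂ) 2 \ (ball 1 (1 / 4) ∪ ball (-1) (1 / 4)),
        ‖vf (sp j) (sm j) (gg1 (h j)) (gg2 (h j)) z * conj z * (E j z : ℂ)‖ ≤
          V * |Cc| * kap j := by
      intro z hz
      have hz2 : ‖z‖ ≤ 2 := (mem_ball_zero_iff.1 hz.1).le
      have hz1 : 1 / 4 ≤ ‖z - 1‖ := by
        by_contra hlt
        push Not at hlt
        exact hz.2 (Or.inl (mem_ball_iff_norm.2 hlt))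
      have hzm : 1 / 4 ≤ ‖z + 1‖ := by
        by_contra hlt
        push Not at hlt
        refine hz.2 (Or.inr (mem_ball_iff_norm.2 ?_))
        rwa [sub_neg_eq_add]
      have hEz : E j z ≤ |Cc| * kap j := by
        refine (hCc j z (mem_ball_zero_iff.2 (by linarith)) hz1 hzm).trans ?_
        have := le_abs_self Cc
        gcongr
      have hg : ‖1 + gg1 (h j) * z + gg2 (h j) * z ^ 2‖ ≤ G := by
        refine (norm_add_le _ _).trans (add_le_add ((norm_add_le _ _).trans (add_le_add ?_ ?_)) ?_)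
        · simp
        · rw [norm_mul]
          gcongr
        · rw [norm_mul, norm_pow]
          gcongr
      have hvf : ‖vf (sp j) (sm j) (gg1 (h j)) (gg2 (h j)) z‖ ≤ 2 * (2 * (2 + 2) * (2 + 2) * G) := by
        unfold vf
        rw [norm_div, div_le_iff₀ (by linarith)]
        have h5 : ‖z * (z - sp j) * (z - sm j) * (1 + gg1 (h j) * z + gg2 (h j) * z ^ 2)‖ ≤
            2 * (2 + 2) * (2 + 2) * G := by
          rw [norm_mul, norm_mul, norm_mul]
          have h6 : ‖z - sp j‖ ≤ 2 + 2 := (norm_sub_le _ _).trans (add_le_add hz2 hs1)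
          have h7 : ‖z - sm j‖ ≤ 2 + 2 := (norm_sub_le _ _).trans (add_le_add hz2 hs2)
          gcongr
        have h8 : 0 ≤ 2 * (2 + 2) * (2 + 2) * G := by positivity
        nlinarith
      rw [norm_mul, norm_mul, RCLike.norm_conj, Complex.norm_real, Real.norm_eq_abs,
        abs_of_nonneg (hE0 z)]
      calc ‖vf (sp j) (sm j) (gg1 (h j)) (gg2 (h j)) z‖ * ‖z‖ * E j z ≤
          2 * (2 * (2 + 2) * (2 + 2) * G) * 2 * (|Cc| * kap j) := by
            have := hE0 z
            gcongr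
        _ = V * |Cc| * kap j := by rw [hV]; ring
    refine (norm_setIntegral_le_of_norm_le_const ?_ hb).trans ?_
    · exact lt_of_le_of_lt (measure_mono sdiff_subset) measure_ball_lt_top
    · have h5 : volume.real (ball (0 : ℂ) 2 \ (ball 1 (1 / 4) ∪ ball (-1) (1 / 4))) ≤
          volume.real (ball (0 : ℂ) 2) :=
        measureReal_mono sdiff_subset measure_ball_lt_top.ne
      calc V * |Cc| * kap j * volume.real (ball (0 : ℂ) 2 \ (ball 1 (1 / 4) ∪ ball (-1) (1 / 4)))
          ≤ V * |Cc| * kap j * volume.real (ball (0 : ℂ) 2) := by gcongr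
        _ = _ := by ring
  -- kap / At tends to zero
  have hA2 : ∀ᶠ j in atTop, 0 < ba (-1) (E j) := by
    filter_upwards [hT.a2.eventually_gt_atTop 0] with j hj
    have := hT.kpos j
    by_contra hneg
    push Not at hneg
    have := div_nonpos_of_nonpos_of_nonneg hneg this.le
    linarith
  have hA1 : ∀ᶠ j in atTop, 0 < ba 1 (E j) := by
    filter_upwards [hT.a1.eventually_gt_atTop 0] with j hj
    have := hT.kpos j
    by_contra hneg
    push Not at hneg
    have := div_nonpos_of_nonpos_of_nonneg hneg this.le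
    linarith
  have hk0 : Tendsto (fun j => kap j / (ba 1 (E j) + ba (-1) (E j))) atTop (𝓝 0) := by
    have h4 : Tendsto (fun j => (ba 1 (E j) + ba (-1) (E j)) / kap j) atTop atTop := by
      refine tendsto_atTop_mono' _ ?_ hT.a1
      filter_upwards [hA2] with j hj
      have := hT.kpos j
      gcongr
      linarith
    have h5 := h4.inv_tendsto_atTop
    refine h5.congr fun j => ?_
    simp only [Pi.inv_apply, inv_div]
  -- the sum
  have hsum : Tendsto (fun j => ((∫ z in ball (0 : ℂ) 2 \ (ball 1 (1 / 4) ∪ ball (-1) (1 / 4)),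
      vf (sp j) (sm j) (gg1 (h j)) (gg2 (h j)) z * conj z * (E j z : ℂ)) +
      ∫ z in ball (0 : ℂ) (r / (4 * R j)) \ ball 0 2,
        vf (sp j) (sm j) (gg1 (h j)) (gg2 (h j)) z * conj z * (E j z : ℂ)) /
      ((ba 1 (E j) + ba (-1) (E j) : ℝ) : ℂ)) atTop (𝓝 0) := by
    rw [tendsto_zero_iff_norm_tendsto_zero]
    have h6 := hk0.const_mul (V * |Cc| * (volume.real (ball (0 : ℂ) 2)) + |Ct|)
    rw [mul_zero] at h6
    refine squeeze_zero' (Eventually.of_forall fun j => norm_nonneg _) ?_ h6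
    filter_upwards [hrest, hCt, hA1, hA2] with j h7 h8 h9 h10
    have hA : 0 < ba 1 (E j) + ba (-1) (E j) := by linarith
    rw [norm_div, Complex.norm_real, Real.norm_eq_abs, abs_of_pos hA]
    have hk := hT.kpos j
    have h11 : ‖(∫ z in ball (0 : ℂ) 2 \ (ball 1 (1 / 4) ∪ ball (-1) (1 / 4)),
      vf (sp j) (sm j) (gg1 (h j)) (gg2 (h j)) z * conj z * (E j z : ℂ)) +
      ∫ z in ball (0 : ℂ) (r / (4 * R j)) \ ball 0 2,
        vf (sp j) (sm j) (gg1 (h j)) (gg2 (h j)) z * conj z * (E j z : ℂ)‖ ≤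
        (V * |Cc| * (volume.real (ball (0 : ℂ) 2)) + |Ct|) * kap j := by
      refine (norm_add_le _ _).trans ?_
      have h12 : Ct * kap j ≤ |Ct| * kap j := by
        have := le_abs_self Ct
        gcongr
      linarith
    rw [← mul_div_assoc]
    gcongr
  have htot := ((hN1.add hN2).add hsum).add (tendsto_const_nhds (x := (-2 : ℂ)))
  simp only [add_zero, zero_add] at htot
  refine htot.congr' ?_
  filter_upwards [hA1, hA2] with j h9 h10
  have hA : ((ba 1 (E j) + ba (-1) (E j) : ℝ) : ℂ) ≠ 0 := by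
    have : (ba 1 (E j) + ba (-1) (E j) : ℝ) ≠ 0 := by linarith
    exact_mod_cast this
  have hρ : 2 ≤ r / (4 * R j) := by
    have h11 := W_rad hp j
    have hR := hp.Rpos j
    rw [le_div_iff₀ (by positivity)]
    rw [lt_div_iff₀ hR] at h11
    linarith
  have hs := WLam_split (fun z => vf (sp j) (sm j) (gg1 (h j)) (gg2 (h j)) z * conj z *
    (E j z : ℂ)) (by
      have h12 := WLam_vfc (sp j) (sm j) (gg1 (h j)) (gg2 (h j))
      have h13 := (hp.loc j).cont
      fun_prop) _ hρ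
  unfold mo
  rw [hs]
  push_cast at hA ⊢
  field_simp
  ring

end Pool.Agent.Vx

end
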