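import Pool.Agent.Work.MP_afe918_an.Bd.B10

/-! Bundle of small proof modules (one section per former module). -/

section

/-!
# MP_afe918_an, item R5: uniqueness of Fourier coefficients (helper61)
-/

set_option autoImplicit false

open Complex Set Filter Topology MeasureTheory Metric
open scoped Real ContDiff ComplexConjugate

namespace Pool.Agent.Vx

/-- One-dimensional uniqueness: a continuous `T`-periodic function whose Fourier coefficients
vanish is zero. -/
theorem R5_one {T : ℝ} (hT : 0 < T) {f : ℝ → ℂ} (hf : Continuous f)
    (hp : Function.Periodic f T)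
    (h : ∀ j : ℤ, ∫ x in (-(T / 2))..(T / 2), f x * exp (-(2 * π * I * j * x / T)) = 0) (x : ℝ) :
    f x = 0 := by
  have : Fact (0 < T) := ⟨hT⟩
  let g : C(AddCircle T, ℂ) := ⟨hp.lift, continuous_coinduced_dom.mpr hf⟩
  have hc : fourierCoeff g = 0 := by
    funext n
    rw [fourierCoeff_eq_intervalIntegral (g : AddCircle T → ℂ) n (-(T / 2))]
    have e : -(T / 2) + T = T / 2 := by ring
    rw [e, Pi.zero_apply]
    have h1 := h n
    have h2 : ∫ x in (-(T / 2))..(T / 2), @fourier T (-n) x • g x =
        ∫ x in (-(T / 2))..(T / 2), f x * exp (-(2 * π * I * n * x / T)) := by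
      apply intervalIntegral.integral_congr
      intro x _
      have h3 : g (x : AddCircle T) = f x := rfl
      dsimp only
      rw [h3, fourier_coe_apply, smul_eq_mul, mul_comm]
      congr 2
      push_cast
      ring
    rw [h2, h1, smul_zero]
  have hs : Summable (fourierCoeff g) := by rw [hc]; exact summable_zero
  have := has_pointwise_sum_fourier_series_of_summable hs (x : AddCircle T)
  rw [hc] at this
  simp only [Pi.zero_apply, zero_smul] at this
  exact (this.unique hasSum_zero)

/-- R5. -/
theorem pr_R5 (_h1 : S_Ti) : S_R5 := by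
  intro a b f ha hb hf hp h0 hx z
  -- the complex Fourier coefficients vanish
  have hm : ∀ ξ : ℤ × ℤ, ∀ t : Bool, ti a b (fun z => f z * md a b (ξ, t) z) = 0 := by
    intro ξ t
    by_cases hξ : ξ = 0
    · subst hξ
      cases t with
      | false =>
        have : (fun z => f z * md a b ((0 : ℤ × ℤ), false) z) = f := by
          funext z; simp [md, ph]
        rw [this]; exact h0
      | true =>
        have : (fun z => f z * md a b ((0 : ℤ × ℤ), true) z) = fun _ => 0 := by
          funext z; simp [md, ph]
        rw [this]; simp [ti]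
    · exact hx ξ t hξ
  have hE : ∀ j k : ℤ, ∫ z in rect a b 0, (f z : ℂ) * exp (-(2 * π * I * j * z.re / a)) *
      exp (-(2 * π * I * k * z.im / b)) = 0 := by
    intro j k
    have e : ∀ z : ℂ, (f z : ℂ) * exp (-(2 * π * I * j * z.re / a)) *
        exp (-(2 * π * I * k * z.im / b)) =
        ((f z * md a b ((j, k), false) z : ℝ) : ℂ) -
          I * ((f z * md a b ((j, k), true) z : ℝ) : ℂ) := by
      intro z
      have e1 : exp (-(2 * π * I * j * z.re / a)) * exp (-(2 * π * I * k * z.im / b)) =
          exp (((-ph a b (j, k) z : ℝ) : ℂ) * I) := by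
        rw [← exp_add]
        congr 1
        unfold ph
        push_cast
        ring
      rw [mul_assoc, e1, exp_mul_I, ← ofReal_cos, ← ofReal_sin, Real.cos_neg, Real.sin_neg]
      simp only [md, if_true, Bool.false_eq_true, if_false]
      push_cast
      ring
    simp only [e]
    have c1 : ∀ t : Bool, Continuous (fun z => f z * md a b ((j, k), t) z) := fun t =>
      hf.mul (R3_mdSmooth a b ((j, k), t)).continuous
    rw [integral_sub, integral_const_mul, integral_complex_ofReal, integral_complex_ofReal]
    · have h1 := hm (j, k) false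
      have h2 := hm (j, k) true
      unfold ti at h1 h2
      rw [h1, h2]
      simp
    · exact (R3_int a b 0 (c1 false)).ofReal
    · exact ((R3_int a b 0 (c1 true)).ofReal).const_mul I
  -- the coefficients in the `x`-direction
  have hfc : Continuous (fun z : ℂ => (f z : ℂ)) := continuous_ofReal.comp hf
  have hG : ∀ j : ℤ, ∀ y : ℝ, ∫ x in (-(a / 2))..(a / 2),
      (f (x + y * I) : ℂ) * exp (-(2 * π * I * j * x / a)) = 0 := by
    intro j
    have hcont : Continuous (fun y : ℝ => ∫ x in (-(a / 2))..(a / 2),
      (f (x + y * I) : ℂ) * exp (-(2 * π * I * j * x / a))) := by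
      apply intervalIntegral.continuous_parametric_intervalIntegral_of_continuous'
      apply Continuous.mul
      · exact hfc.comp (by fun_prop)
      · fun_prop
    intro y
    refine R5_one hb hcont ?_ ?_ y
    · intro y
      apply intervalIntegral.integral_congr
      intro x _
      dsimp only
      have := (hp ((x : ℂ) + y * I)).2
      rw [show (x : ℂ) + ((y + b : ℝ) : ℂ) * I = x + y * I + b * I by push_cast; ring, this]
    · intro k
      have h1 := hE j k
      have hcc : Continuous (fun z : ℂ => (f z : ℂ) * exp (-(2 * π * I * j * z.re / a)) *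
          exp (-(2 * π * I * k * z.im / b))) := by
        apply Continuous.mul
        · apply Continuous.mul hfc
          have : Continuous (fun z : ℂ => (z.re : ℂ)) := continuous_ofReal.comp continuous_re
          fun_prop
        · have : Continuous (fun z : ℂ => (z.im : ℂ)) := continuous_ofReal.comp continuous_im
          fun_prop
      rw [R3_yx ha hb hcc] at h1
      rw [← h1]
      apply intervalIntegral.integral_congr
      intro y _
      dsimp only
      rw [← intervalIntegral.integral_mul_const]
      apply intervalIntegral.integral_congr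
      intro x _
      simp
  -- conclusion
  have hz : (f z : ℂ) = 0 := by
    have h2 := R5_one ha (f := fun x : ℝ => (f (x + z.im * I) : ℂ)) (hfc.comp (by fun_prop)) ?_ ?_
      z.re
    · simpa using h2
    · intro x
      dsimp only
      have := (hp ((x : ℂ) + z.im * I)).1
      rw [show ((x + a : ℝ) : ℂ) + z.im * I = x + z.im * I + a by push_cast; ring, this]
    · intro j
      exact hG j z.im
  exact_mod_cast hz

end Pool.Agent.Vx

end

section

/-!
# MP_afe918_an, item R6: the Green function inverts the Laplacian (helper61)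
-/

set_option autoImplicit false

open Complex Set Filter Topology MeasureTheory Metric
open scoped Real ContDiff ComplexConjugate

namespace Pool.Agent.Vx

/-- The area of the torus. -/
theorem R6_one {a b : ℝ} (ha : 0 < a) (hb : 0 < b) : ti a b (fun _ => 1) = a * b := by
  unfold ti
  rw [R3_xy ha hb continuous_const]
  simp only [intervalIntegral.integral_const, smul_eq_mul, mul_one]
  ring

theorem R6_nu {a b : ℝ} (ha : 0 < a) (hb : 0 < b) {ξ : ℤ × ℤ} (h : ξ ≠ 0) : 0 < nu a b ξ := by
  have h0 : 0 < ((ξ.1 : ℝ) / a) ^ 2 + ((ξ.2 : ℝ) / b) ^ 2 := by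
    by_cases h1 : ξ.1 = 0
    · have h2 : ξ.2 ≠ 0 := fun h2 => h (Prod.ext h1 h2)
      have h3 : (ξ.2 : ℝ) / b ≠ 0 := div_ne_zero (by exact_mod_cast h2) hb.ne'
      positivity
    · have h3 : (ξ.1 : ℝ) / a ≠ 0 := div_ne_zero (by exact_mod_cast h1) ha.ne'
      positivity
  unfold nu
  positivity

/-- R6. -/
theorem pr_R6 (h1 : S_R3) (h2 : S_R4) (h3 : S_R5) : S_R6 := by
  intro a b F φ hF hφ hp x
  have ha := hF.apos
  have hb := hF.bpos
  obtain ⟨lc, lp, l0, lx⟩ := h1 a b φ ha hb hφ hp
  obtain ⟨gc, gp, g0, gx, -⟩ := h2 a b F (Laplacian.laplacian φ) φ hF lc lp hφ.continuous hp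
  set M : ℝ := 1 / (a * b) * ti a b φ with hM
  have hdc : Continuous (fun z => cG a b F (Laplacian.laplacian φ) z + φ z - M) :=
    (gc.add hφ.continuous).sub continuous_const
  have key := h3 a b (fun z => cG a b F (Laplacian.laplacian φ) z + φ z - M) ha hb hdc
    (R3_perSub (R3_perAdd gp hp) (fun z => ⟨rfl, rfl⟩)) ?_ ?_ x
  · linarith
  · have e : ti a b (fun z => cG a b F (Laplacian.laplacian φ) z + φ z - M) =
        ti a b (cG a b F (Laplacian.laplacian φ)) + ti a b φ - M * ti a b (fun _ => 1) := by
      unfold ti
      have i1 := R3_int a b 0 gc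
      have i2 := R3_int a b 0 hφ.continuous
      have i3 : IntegrableOn (fun _ : ℂ => M) (rect a b 0) := R3_int a b 0 continuous_const
      have i4 : IntegrableOn (fun z => cG a b F (Laplacian.laplacian φ) z + φ z) (rect a b 0) :=
        i1.add i2
      rw [integral_sub i4 i3, integral_add i1 i2, ← integral_const_mul]
      simp
    rw [e, g0, R6_one ha hb, hM]
    field_simp
    ring
  · intro ξ t hξ
    have hmc := (R3_mdSmooth a b (ξ, t)).continuous
    have hm0 : ti a b (fun z => md a b (ξ, t) z) = 0 := by
      obtain ⟨-, -, -, lx1⟩ := h1 a b (fun _ => 1) ha hb contDiff_const (fun z => ⟨rfl, rfl⟩)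
      have h5 := lx1 ξ t
      have h6 : ∀ z, Laplacian.laplacian (fun _ : ℂ => (1 : ℝ)) z = 0 := by
        intro z
        rw [R3_lap contDiff_const]
        simp
      simp only [h6, zero_mul, one_mul] at h5
      have h7 : ti a b (fun _ => (0 : ℝ)) = 0 := by simp [ti]
      rw [h7] at h5
      have h8 := (R6_nu ha hb hξ).ne'
      rcases mul_eq_zero.1 h5.symm with h9 | h9
      · exact absurd (neg_eq_zero.1 h9) h8
      · exact h9
    have e : ti a b (fun z => (cG a b F (Laplacian.laplacian φ) z + φ z - M) * md a b (ξ, t) z) =
        ti a b (fun z => cG a b F (Laplacian.laplacian φ) z * md a b (ξ, t) z) +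
          ti a b (fun z => φ z * md a b (ξ, t) z) - M * ti a b (fun z => md a b (ξ, t) z) := by
      unfold ti
      have i1 : IntegrableOn (fun z => cG a b F (Laplacian.laplacian φ) z * md a b (ξ, t) z)
        (rect a b 0) := R3_int a b 0 (gc.mul hmc)
      have i2 : IntegrableOn (fun z => φ z * md a b (ξ, t) z) (rect a b 0) :=
        R3_int a b 0 (hφ.continuous.mul hmc)
      have i3 : IntegrableOn (fun z => M * md a b (ξ, t) z) (rect a b 0) :=
        R3_int a b 0 (continuous_const.mul hmc)
      have i4 : IntegrableOn (fun z => cG a b F (Laplacian.laplacian φ) z * md a b (ξ, t) z +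
        φ z * md a b (ξ, t) z) (rect a b 0) := i1.add i2
      simp only [sub_mul, add_mul]
      rw [integral_sub i4 i3, integral_add i1 i2, integral_const_mul]
    rw [e, gx ξ t hξ, lx ξ t, hm0]
    have h8 := (R6_nu ha hb hξ).ne'
    field_simp
    ring

end Pool.Agent.Vx

end
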