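import Pool.Agent.Work.MP_afe918_an.Bd.B06
import Pool.Agent.Work.MP_afe918_an.Bd.B02

/-! Bundle of small proof modules (one section per former module). -/

section

/-!
# MP_afe918_an, item WExp (helper19): expansion of the moments
-/

set_option autoImplicit false

open Complex Set Filter Topology MeasureTheory Metric
open scoped Real ContDiff ComplexConjugate

namespace Pool.Agent.Vx

lemma WExp_int {f : ℂ → ℂ} (hf : Continuous f) (q : ℂ) (s : ℝ) : IntegrableOn f (ball q s) :=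
  (hf.continuousOn.integrableOn_compact (isCompact_closedBall q s)).mono_set
    ball_subset_closedBall

lemma WExp_intR {f : ℂ → ℝ} (hf : Continuous f) (q : ℂ) (s : ℝ) : IntegrableOn f (ball q s) :=
  (hf.continuousOn.integrableOn_compact (isCompact_closedBall q s)).mono_set
    ball_subset_closedBall

lemma WExp_near (q : ℂ) (E : ℕ → ℂ → ℝ) (hEc : ∀ j, Continuous (E j)) (hE0 : ∀ j z, 0 ≤ E j z)
    (l : ℂ) (hb : Tendsto (fun j => bc q (E j)) atTop (𝓝 l))
    (hm : Tendsto (fun j => (8 * π - bm q (E j)) / ba q (E j)) atTop (𝓝 0))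
    (ha0 : Tendsto (fun j => ba q (E j)) atTop (𝓝 0))
    (hapos : ∀ᶠ j in atTop, 0 < ba q (E j))
    (hq : Tendsto (fun j => (∫ z in ball q (1 / 4), (z - bc q (E j)) ^ 2 * (E j z : ℂ)) /
      (ba q (E j) : ℂ)) atTop (𝓝 0))
    (ht : Tendsto (fun j => (∫ z in ball q (1 / 4), ‖z - bc q (E j)‖ ^ 3 * E j z) / ba q (E j))
      atTop (𝓝 0)) (k : ℕ) (c1 c2 c3 : ℕ → ℂ)
    (hc : ∀ j z, z ^ k = bc q (E j) ^ k + c1 j * (z - bc q (E j)) +
      c2 j * (z - bc q (E j)) ^ 2 + c3 j * (z - bc q (E j)) ^ 3) (l2 l3 : ℂ)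
    (hc2 : Tendsto c2 atTop (𝓝 l2)) (hc3 : Tendsto c3 atTop (𝓝 l3)) :
    Tendsto (fun j => ((∫ z in ball q (1 / 4), z ^ k * (E j z : ℂ)) -
      8 * π * bc q (E j) ^ k) / (ba q (E j) : ℂ)) atTop (𝓝 0) := by
  -- the mass
  have hbm : Tendsto (fun j => bm q (E j)) atTop (𝓝 (8 * π)) := by
    have h1 : Tendsto (fun j => 8 * π - (8 * π - bm q (E j)) / ba q (E j) * ba q (E j)) atTop
        (𝓝 (8 * π - 0 * 0)) := tendsto_const_nhds.sub (hm.mul ha0)
    rw [mul_zero, sub_zero] at h1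
    refine h1.congr' ?_
    filter_upwards [hapos] with j hj
    field_simp
    ring
  have hbm0 : ∀ᶠ j in atTop, bm q (E j) ≠ 0 := by
    have : ∀ᶠ j in atTop, 0 < bm q (E j) :=
      hbm.eventually (lt_mem_nhds (by have := Real.pi_pos; positivity))
    exact this.mono fun j hj => hj.ne'
  -- the cubic term
  have hT : Tendsto (fun j => (∫ z in ball q (1 / 4), (z - bc q (E j)) ^ 3 * (E j z : ℂ)) /
      (ba q (E j) : ℂ)) atTop (𝓝 0) := by
    rw [tendsto_zero_iff_norm_tendsto_zero]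
    refine squeeze_zero' (Eventually.of_forall fun j => norm_nonneg _) ?_ ht
    filter_upwards [hapos] with j hj
    rw [norm_div, Complex.norm_real, Real.norm_eq_abs, abs_of_pos hj]
    refine div_le_div_of_nonneg_right ?_ hj.le
    refine (norm_integral_le_integral_norm _).trans_eq ?_
    refine integral_congr_ae (Eventually.of_forall fun z => ?_)
    simp only [norm_mul, norm_pow, Complex.norm_real, Real.norm_eq_abs, abs_of_nonneg (hE0 j z)]
  have hmC : Tendsto (fun j => (((8 * π - bm q (E j)) / ba q (E j) : ℝ) : ℂ)) atTop (𝓝 0) := by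
    have := (Complex.continuous_ofReal.tendsto (0 : ℝ)).comp hm
    rw [Complex.ofReal_zero] at this
    exact this
  have hlim : Tendsto (fun j => -(bc q (E j) ^ k) * (((8 * π - bm q (E j)) / ba q (E j) : ℝ) : ℂ) +
      c2 j * ((∫ z in ball q (1 / 4), (z - bc q (E j)) ^ 2 * (E j z : ℂ)) / (ba q (E j) : ℂ)) +
      c3 j * ((∫ z in ball q (1 / 4), (z - bc q (E j)) ^ 3 * (E j z : ℂ)) / (ba q (E j) : ℂ)))
      atTop (𝓝 (-(l ^ k) * 0 + l2 * 0 + l3 * 0)) :=
    (((hb.pow k).neg.mul hmC).add (hc2.mul hq)).add (hc3.mul hT)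
  simp only [mul_zero, add_zero] at hlim
  refine hlim.congr' ?_
  filter_upwards [hapos, hbm0] with j hj hj0
  have hEcj : Continuous (fun z => (E j z : ℂ)) := Complex.continuous_ofReal.comp (hEc j)
  set b := bc q (E j) with hbdef
  have i0 : IntegrableOn (fun z => (E j z : ℂ)) (ball q (1 / 4)) := WExp_int hEcj _ _
  have i1 : IntegrableOn (fun z => (z - b) * (E j z : ℂ)) (ball q (1 / 4)) :=
    WExp_int ((by fun_prop : Continuous (fun z : ℂ => z - b)).mul hEcj) _ _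
  have i2 : IntegrableOn (fun z => (z - b) ^ 2 * (E j z : ℂ)) (ball q (1 / 4)) :=
    WExp_int ((by fun_prop : Continuous (fun z : ℂ => (z - b) ^ 2)).mul hEcj) _ _
  have i3 : IntegrableOn (fun z => (z - b) ^ 3 * (E j z : ℂ)) (ball q (1 / 4)) :=
    WExp_int ((by fun_prop : Continuous (fun z : ℂ => (z - b) ^ 3)).mul hEcj) _ _
  have iz : IntegrableOn (fun z => z * (E j z : ℂ)) (ball q (1 / 4)) :=
    WExp_int (continuous_id.mul hEcj) _ _
  have hM : ∫ z in ball q (1 / 4), (E j z : ℂ) = (bm q (E j) : ℂ) := by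
    rw [bm]
    exact integral_complex_ofReal
  have hz1 : ∫ z in ball q (1 / 4), (z - b) * (E j z : ℂ) = 0 := by
    have e : ∀ z : ℂ, (z - b) * (E j z : ℂ) = z * (E j z : ℂ) - b * (E j z : ℂ) :=
      fun z => by ring
    simp only [e]
    rw [integral_sub iz (i0.const_mul b), integral_const_mul, hM, hbdef, bc]
    have : (bm q (E j) : ℂ) ≠ 0 := by exact_mod_cast hj0
    field_simp
    ring
  have hI : ∫ z in ball q (1 / 4), z ^ k * (E j z : ℂ) = b ^ k * (bm q (E j) : ℂ) +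
      c2 j * (∫ z in ball q (1 / 4), (z - b) ^ 2 * (E j z : ℂ)) +
      c3 j * (∫ z in ball q (1 / 4), (z - b) ^ 3 * (E j z : ℂ)) := by
    have e : ∀ z : ℂ, z ^ k * (E j z : ℂ) = b ^ k * (E j z : ℂ) + c1 j * ((z - b) * (E j z : ℂ)) +
        c2 j * ((z - b) ^ 2 * (E j z : ℂ)) + c3 j * ((z - b) ^ 3 * (E j z : ℂ)) := by
      intro z
      rw [hc j z]
      ring
    simp only [e]
    have j1 : IntegrableOn (fun z => b ^ k * (E j z : ℂ) + c1 j * ((z - b) * (E j z : ℂ)))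
        (ball q (1 / 4)) := (i0.const_mul _).add (i1.const_mul _)
    have j2 : IntegrableOn (fun z => b ^ k * (E j z : ℂ) + c1 j * ((z - b) * (E j z : ℂ)) +
        c2 j * ((z - b) ^ 2 * (E j z : ℂ))) (ball q (1 / 4)) := j1.add (i2.const_mul _)
    rw [integral_add j2 (i3.const_mul _), integral_add j1 (i2.const_mul _),
      integral_add (i0.const_mul _) (i1.const_mul _), integral_const_mul, integral_const_mul,
      integral_const_mul, integral_const_mul, hM, hz1]
    ring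
  rw [hI]
  have ha : (ba q (E j) : ℂ) ≠ 0 := by exact_mod_cast hj.ne'
  push_cast
  field_simp
  ring

lemma WExp_decay : Integrable (fun z : ℂ => ((1 + ‖z‖) ^ 3)⁻¹) := by
  have h := integrable_one_add_norm (E := ℂ) (μ := volume) (r := 3) (by
    rw [Complex.finrank_real_complex]; norm_num)
  refine h.congr (Eventually.of_forall fun z => ?_)
  have h0 : 0 ≤ 1 + ‖z‖ := by positivity
  simp only
  rw [Real.rpow_neg h0]
  norm_cast

lemma WExp_rest {r H Λ : ℝ} {R lam eta kap : ℕ → ℝ} {h : ℕ → ℂ → ℂ} {E : ℕ → ℂ → ℝ}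
    (hT : TB r H Λ R lam eta kap h E) : ∃ C, ∀ j, ∀ k ≤ 3,
    ‖mo (r / (4 * R j)) (E j) (fun z => z ^ k) -
      ((∫ z in ball (1 : ℂ) (1 / 4), z ^ k * (E j z : ℂ)) +
        ∫ z in ball (-1 : ℂ) (1 / 4), z ^ k * (E j z : ℂ))‖ ≤ C * kap j := by
  have hp := hT.pl
  obtain ⟨C1, hC1⟩ := hT.comp (1 / 4) (by norm_num)
  obtain ⟨C2, hC2⟩ := hT.tail
  set K : ℝ := 216 * |C1| + 27 / 8 * |C2| with hK
  have hK0 : 0 ≤ K := by positivity
  refine ⟨K * ∫ z : ℂ, ((1 + ‖z‖) ^ 3)⁻¹, fun j k hk => ?_⟩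
  have hkap := hT.kpos j
  have hRj := hp.Rpos j
  have hE0 := (hp.loc j).nonneg
  have hEc := (hp.loc j).cont
  have hrad := W_rad hp j
  have hrad4 : 2 < r / (4 * R j) := by
    have : r / (4 * R j) = r / R j / 4 := by
      field_simp
    rw [this]
    linarith
  set ρ := r / (4 * R j) with hρ
  set f : ℂ → ℂ := fun z => z ^ k * (E j z : ℂ) with hf
  have hfc : Continuous f := by
    have : Continuous (fun z => (E j z : ℂ)) := Complex.continuous_ofReal.comp hEc
    exact (by fun_prop : Continuous (fun z : ℂ => z ^ k)).mul this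
  have hd : Disjoint (ball (1 : ℂ) (1 / 4)) (ball (-1 : ℂ) (1 / 4)) := by
    apply ball_disjoint_ball
    rw [dist_eq_norm]
    have : (1 : ℂ) - -1 = ((2 : ℝ) : ℂ) := by push_cast; ring
    rw [this, Complex.norm_real]
    norm_num
  have hsub : ball (1 : ℂ) (1 / 4) ∪ ball (-1 : ℂ) (1 / 4) ⊆ ball 0 ρ := by
    refine union_subset ?_ ?_
    · apply ball_subset_ball'
      simp
      linarith
    · apply ball_subset_ball'
      simp
      linarith
  have hrest : mo ρ (E j) (fun z => z ^ k) -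
      ((∫ z in ball (1 : ℂ) (1 / 4), z ^ k * (E j z : ℂ)) +
        ∫ z in ball (-1 : ℂ) (1 / 4), z ^ k * (E j z : ℂ)) =
      ∫ z in ball 0 ρ \ (ball (1 : ℂ) (1 / 4) ∪ ball (-1 : ℂ) (1 / 4)), f z := by
    rw [setIntegral_sdiff (measurableSet_ball.union measurableSet_ball) (WExp_int hfc _ _) hsub,
      setIntegral_union hd measurableSet_ball (WExp_int hfc _ _) (WExp_int hfc _ _)]
    rfl
  rw [hrest]
  have hρR : ρ ≤ r / R j := by
    rw [hρ]
    refine div_le_div_of_nonneg_left hp.rpos.le hRj ?_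
    linarith
  have hbd : ∀ z ∈ ball 0 ρ \ (ball (1 : ℂ) (1 / 4) ∪ ball (-1 : ℂ) (1 / 4)),
      ‖f z‖ ≤ K * kap j * ((1 + ‖z‖) ^ 3)⁻¹ := by
    rintro z ⟨hz, hz'⟩
    have hz1 : 1 / 4 ≤ ‖z - 1‖ := by
      by_contra hcon
      exact hz' (Or.inl (by rw [mem_ball, dist_eq_norm]; linarith))
    have hz2 : 1 / 4 ≤ ‖z + 1‖ := by
      by_contra hcon
      refine hz' (Or.inr ?_)
      rw [mem_ball, dist_eq_norm, sub_neg_eq_add]
      linarith
    have hpos : 0 < (1 + ‖z‖) ^ 3 := by positivity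
    simp only [hf, norm_mul, norm_pow, Complex.norm_real, Real.norm_eq_abs,
      abs_of_nonneg (hE0 z)]
    rw [← div_eq_mul_inv, le_div_iff₀ hpos]
    have hn0 := norm_nonneg z
    rcases lt_or_ge ‖z‖ 2 with hlt | hge
    · have h1 : E j z ≤ |C1| * kap j := by
        refine (hC1 j z (by rw [mem_ball_zero_iff]; linarith) hz1 hz2).trans ?_
        exact mul_le_mul_of_nonneg_right (le_abs_self _) hkap.le
      have h2 : ‖z‖ ^ k ≤ 8 := by
        calc ‖z‖ ^ k ≤ 2 ^ k := pow_le_pow_left₀ hn0 hlt.le k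
          _ ≤ 2 ^ 3 := pow_le_pow_right₀ (by norm_num) hk
          _ = 8 := by norm_num
      have h3 : (1 + ‖z‖) ^ 3 ≤ 27 := by
        calc (1 + ‖z‖) ^ 3 ≤ 3 ^ 3 := pow_le_pow_left₀ (by positivity) (by linarith) 3
          _ = 27 := by norm_num
      calc ‖z‖ ^ k * E j z * (1 + ‖z‖) ^ 3 ≤ 8 * (|C1| * kap j) * 27 := by
            refine mul_le_mul (mul_le_mul h2 h1 (hE0 z) (by norm_num)) h3 hpos.le (by positivity)
        _ = 216 * |C1| * kap j := by ring
        _ ≤ K * kap j := by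
            refine mul_le_mul_of_nonneg_right ?_ hkap.le
            rw [hK]
            have := abs_nonneg C2
            linarith
    · have hzp : 0 < ‖z‖ := by linarith
      have h1 : E j z ≤ |C2| * kap j / ‖z‖ ^ 6 := by
        refine (hC2 j z (ball_subset_ball hρR hz) hge).trans ?_
        refine div_le_div_of_nonneg_right ?_ (by positivity)
        exact mul_le_mul_of_nonneg_right (le_abs_self _) hkap.le
      have h2 : ‖z‖ ^ k ≤ ‖z‖ ^ 3 := pow_le_pow_right₀ (by linarith) hk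
      have h3 : (1 + ‖z‖) ^ 3 ≤ 27 / 8 * ‖z‖ ^ 3 := by
        calc (1 + ‖z‖) ^ 3 ≤ (3 / 2 * ‖z‖) ^ 3 :=
              pow_le_pow_left₀ (by positivity) (by linarith) 3
          _ = 27 / 8 * ‖z‖ ^ 3 := by ring
      calc ‖z‖ ^ k * E j z * (1 + ‖z‖) ^ 3 ≤
          ‖z‖ ^ 3 * (|C2| * kap j / ‖z‖ ^ 6) * (27 / 8 * ‖z‖ ^ 3) := by
            refine mul_le_mul (mul_le_mul h2 h1 (hE0 z) (by positivity)) h3 hpos.le
              (by positivity)
        _ = 27 / 8 * |C2| * kap j := by field_simp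
        _ ≤ K * kap j := by
            refine mul_le_mul_of_nonneg_right ?_ hkap.le
            rw [hK]
            have := abs_nonneg C1
            linarith
  have hint : Integrable (fun z : ℂ => K * kap j * ((1 + ‖z‖) ^ 3)⁻¹) :=
    WExp_decay.const_mul _
  calc ‖∫ z in ball 0 ρ \ (ball (1 : ℂ) (1 / 4) ∪ ball (-1 : ℂ) (1 / 4)), f z‖ ≤
      ∫ z in ball 0 ρ \ (ball (1 : ℂ) (1 / 4) ∪ ball (-1 : ℂ) (1 / 4)),
        K * kap j * ((1 + ‖z‖) ^ 3)⁻¹ := by
        refine norm_integral_le_of_norm_le hint.integrableOn ?_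
        exact (ae_restrict_mem (measurableSet_ball.diff
          (measurableSet_ball.union measurableSet_ball))).mono hbd
    _ ≤ ∫ z : ℂ, K * kap j * ((1 + ‖z‖) ^ 3)⁻¹ := by
        refine setIntegral_le_integral hint (Eventually.of_forall fun z => ?_)
        have : 0 ≤ K * kap j * ((1 + ‖z‖) ^ 3)⁻¹ := by positivity
        exact this
    _ = K * (∫ z : ℂ, ((1 + ‖z‖) ^ 3)⁻¹) * kap j := by
        rw [integral_const_mul]
        ring

theorem pr_WExp (h1 : S_WThird) : S_WExp := by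
  intro r H Λ R lam eta kap h E hT
  have hp := hT.pl
  have hEc : ∀ j, Continuous (E j) := fun j => (hp.loc j).cont
  have hE0 : ∀ j z, 0 ≤ E j z := fun j z => (hp.loc j).nonneg z
  have hba0 : ∀ (q : ℂ) j, 0 ≤ ba q (E j) := by
    intro q j
    refine integral_nonneg fun z => ?_
    have := hE0 j z
    positivity
  have hp1 : ∀ᶠ j in atTop, 0 < ba 1 (E j) := by
    filter_upwards [hT.a1.eventually_gt_atTop 0] with j hj
    by_contra hcon
    have : ba 1 (E j) = 0 := le_antisymm (not_lt.1 hcon) (hba0 _ j)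
    rw [this, zero_div] at hj
    exact lt_irrefl _ hj
  have hp2 : ∀ᶠ j in atTop, 0 < ba (-1) (E j) := by
    filter_upwards [hT.a2.eventually_gt_atTop 0] with j hj
    by_contra hcon
    have : ba (-1) (E j) = 0 := le_antisymm (not_lt.1 hcon) (hba0 _ j)
    rw [this, zero_div] at hj
    exact lt_irrefl _ hj
  set At : ℕ → ℝ := fun j => ba 1 (E j) + ba (-1) (E j) with hAt
  have hAt0 : ∀ᶠ j in atTop, 0 < At j := by
    filter_upwards [hp1, hp2] with j h1 h2
    exact add_pos h1 h2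
  -- kap / At → 0
  have hkA : Tendsto (fun j => kap j / At j) atTop (𝓝 0) := by
    have hinv : Tendsto (fun j => (ba 1 (E j) / kap j)⁻¹) atTop (𝓝 0) :=
      tendsto_inv_atTop_zero.comp hT.a1
    refine squeeze_zero' ?_ ?_ hinv
    · filter_upwards [hAt0] with j hj
      exact div_nonneg (hT.kpos j).le hj.le
    · filter_upwards [hp1] with j hj
      rw [inv_div]
      refine div_le_div_of_nonneg_left (hT.kpos j).le hj ?_
      have := hba0 (-1) j
      simp only [hAt]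
      linarith
  -- comparison
  have hcmp : ∀ (X : ℕ → ℂ) (q : ℂ), (q = 1 ∨ q = -1) →
      Tendsto (fun j => X j / (ba q (E j) : ℂ)) atTop (𝓝 0) →
      Tendsto (fun j => X j / ((At j : ℝ) : ℂ)) atTop (𝓝 0) := by
    intro X q hq hX
    rw [tendsto_zero_iff_norm_tendsto_zero] at hX ⊢
    refine squeeze_zero' (Eventually.of_forall fun j => norm_nonneg _) ?_ hX
    filter_upwards [hp1, hp2] with j h1 h2
    have hqj : 0 < ba q (E j) := by
      rcases hq with rfl | rfl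
      · exact h1
      · exact h2
    have hle : ba q (E j) ≤ At j := by
      rcases hq with rfl | rfl
      · simp only [hAt]; linarith
      · simp only [hAt]; linarith
    rw [norm_div, norm_div, Complex.norm_real, Complex.norm_real, Real.norm_eq_abs,
      Real.norm_eq_abs, abs_of_pos hqj, abs_of_pos (hqj.trans_le hle)]
    exact div_le_div_of_nonneg_left (norm_nonneg _) hqj hle
  have hthird := h1 r H Λ R lam eta kap h E hT
  constructor
  · intro k hk1 hk3
    have hnear : ∀ q : ℂ, (q = 1 ∨ q = -1) →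
        Tendsto (fun j => ((∫ z in ball q (1 / 4), z ^ k * (E j z : ℂ)) -
          8 * π * bc q (E j) ^ k) / (ba q (E j) : ℂ)) atTop (𝓝 0) := by
      intro q hq
      have hb : Tendsto (fun j => bc q (E j)) atTop (𝓝 q) := by
        rcases hq with rfl | rfl
        · exact hT.b1
        · exact hT.b2
      have hm : Tendsto (fun j => (8 * π - bm q (E j)) / ba q (E j)) atTop (𝓝 0) := by
        rcases hq with rfl | rfl
        · exact hT.m1
        · exact hT.m2
      have ha0 : Tendsto (fun j => ba q (E j)) atTop (𝓝 0) := by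
        rcases hq with rfl | rfl
        · exact hT.a10
        · exact hT.a20
      have hap : ∀ᶠ j in atTop, 0 < ba q (E j) := by
        rcases hq with rfl | rfl
        · exact hp1
        · exact hp2
      have hqq : Tendsto (fun j => (∫ z in ball q (1 / 4), (z - bc q (E j)) ^ 2 * (E j z : ℂ)) /
          (ba q (E j) : ℂ)) atTop (𝓝 0) := by
        rcases hq with rfl | rfl
        · exact hT.q1
        · exact hT.q2
      have key := WExp_near q E hEc hE0 q hb hm ha0 hap hqq (hthird q hq) k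
      obtain rfl | rfl | rfl : k = 1 ∨ k = 2 ∨ k = 3 := by omega
      · exact key (fun _ => 1) (fun _ => 0) (fun _ => 0) (fun j z => by ring) 0 0
          tendsto_const_nhds tendsto_const_nhds
      · exact key (fun j => 2 * bc q (E j)) (fun _ => 1) (fun _ => 0) (fun j z => by ring) 1 0
          tendsto_const_nhds tendsto_const_nhds
      · exact key (fun j => 3 * bc q (E j) ^ 2) (fun j => 3 * bc q (E j)) (fun _ => 1)
          (fun j z => by ring) (3 * q) 1 (hb.const_mul 3) tendsto_const_nhds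
    obtain ⟨C, hC⟩ := WExp_rest hT
    have hrest : Tendsto (fun j => (mo (r / (4 * R j)) (E j) (fun z => z ^ k) -
        ((∫ z in ball (1 : ℂ) (1 / 4), z ^ k * (E j z : ℂ)) +
        ∫ z in ball (-1 : ℂ) (1 / 4), z ^ k * (E j z : ℂ))) / ((At j : ℝ) : ℂ)) atTop (𝓝 0) := by
      rw [tendsto_zero_iff_norm_tendsto_zero]
      have hlim : Tendsto (fun j => C * (kap j / At j)) atTop (𝓝 0) := by
        simpa using hkA.const_mul C
      refine squeeze_zero' (Eventually.of_forall fun j => norm_nonneg _) ?_ hlim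
      filter_upwards [hAt0] with j hj
      rw [norm_div, Complex.norm_real, Real.norm_eq_abs, abs_of_pos hj, ← mul_div_assoc]
      exact div_le_div_of_nonneg_right (hC j k hk3) hj.le
    have h3 := (hrest.add (hcmp _ 1 (Or.inl rfl) (hnear 1 (Or.inl rfl)))).add
      (hcmp _ (-1) (Or.inr rfl) (hnear (-1) (Or.inr rfl)))
    rw [add_zero, add_zero] at h3
    refine h3.congr (fun j => ?_)
    rw [← add_div, ← add_div]
    congr 1
    ring
  · obtain ⟨C1, hC1⟩ := hp.out (r / 4) (by have := hp.rpos; positivity)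
    obtain ⟨C2, hC2⟩ := hT.eta
    have hlim : Tendsto (fun j => |C1| * |C2| * π * r ^ 2 * (R j ^ 2 * (kap j / At j))) atTop
        (𝓝 0) := by
      have := ((hp.R0.pow 2).mul hkA).const_mul (|C1| * |C2| * π * r ^ 2)
      simpa using this
    have hms : ∀ j, 0 ≤ ms (r / R j) (E j) - ms (r / (4 * R j)) (E j) ∧
        ms (r / R j) (E j) - ms (r / (4 * R j)) (E j) ≤
          |C1| * |C2| * π * r ^ 2 * kap j * R j ^ 4 := by
      intro j
      have hRj := hp.Rpos j
      have hr := hp.rpos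
      have hkap := hT.kpos j
      have hsub : ball (0 : ℂ) (r / (4 * R j)) ⊆ ball 0 (r / R j) := by
        apply ball_subset_ball
        refine div_le_div_of_nonneg_left hr.le hRj ?_
        linarith
      have e : ms (r / R j) (E j) - ms (r / (4 * R j)) (E j) =
          ∫ z in ball (0 : ℂ) (r / R j) \ ball 0 (r / (4 * R j)), E j z := by
        rw [setIntegral_sdiff measurableSet_ball (WExp_intR (hEc j) _ _) hsub]
        rfl
      rw [e]
      refine ⟨integral_nonneg fun z => hE0 j z, ?_⟩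
      have hfin : volume (ball (0 : ℂ) (r / R j) \ ball 0 (r / (4 * R j))) < ⊤ :=
        (measure_mono sdiff_subset).trans_lt measure_ball_lt_top
      have hvol : volume.real (ball (0 : ℂ) (r / R j) \ ball 0 (r / (4 * R j))) ≤
          π * (r / R j) ^ 2 := by
        calc volume.real (ball (0 : ℂ) (r / R j) \ ball 0 (r / (4 * R j))) ≤
            volume.real (ball (0 : ℂ) (r / R j)) :=
              measureReal_mono sdiff_subset measure_ball_lt_top.ne
          _ = π * (r / R j) ^ 2 := by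
              rw [measureReal_def, Complex.volume_ball, ENNReal.toReal_mul, ENNReal.toReal_pow,
                ENNReal.toReal_ofReal (by positivity)]
              simp [mul_comm]
      have hle : ∀ z ∈ ball (0 : ℂ) (r / R j) \ ball 0 (r / (4 * R j)),
          ‖E j z‖ ≤ |C1| * R j ^ 2 * (|C2| * kap j * R j ^ 4) := by
        rintro z ⟨hz, hz'⟩
        rw [Real.norm_eq_abs, abs_of_nonneg (hE0 j z)]
        have hz4 : r / 4 / R j ≤ ‖z‖ := by
          rw [mem_ball_zero_iff, not_lt] at hz'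
          rwa [div_div]
        have h5 := hC1 j z hz hz4
        have h6 := hC2 j
        have h7 : eta j ≤ |C2| * kap j * R j ^ 4 := by
          refine h6.trans ?_
          exact mul_le_mul_of_nonneg_right
            (mul_le_mul_of_nonneg_right (le_abs_self _) hkap.le) (by positivity)
        calc E j z ≤ C1 * R j ^ 2 * eta j := h5
          _ ≤ |C1| * R j ^ 2 * eta j := by
              have := (hp.etapos j).le
              exact mul_le_mul_of_nonneg_right
                (mul_le_mul_of_nonneg_right (le_abs_self _) (by positivity)) this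
          _ ≤ |C1| * R j ^ 2 * (|C2| * kap j * R j ^ 4) :=
              mul_le_mul_of_nonneg_left h7 (by positivity)
      calc ∫ z in ball (0 : ℂ) (r / R j) \ ball 0 (r / (4 * R j)), E j z ≤
          ‖∫ z in ball (0 : ℂ) (r / R j) \ ball 0 (r / (4 * R j)), E j z‖ := le_abs_self _
        _ ≤ |C1| * R j ^ 2 * (|C2| * kap j * R j ^ 4) *
            volume.real (ball (0 : ℂ) (r / R j) \ ball 0 (r / (4 * R j))) :=
            norm_setIntegral_le_of_norm_le_const hfin hle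
        _ ≤ |C1| * R j ^ 2 * (|C2| * kap j * R j ^ 4) * (π * (r / R j) ^ 2) :=
            mul_le_mul_of_nonneg_left hvol (by positivity)
        _ = |C1| * |C2| * π * r ^ 2 * kap j * R j ^ 4 := by
            field_simp
    refine squeeze_zero' ?_ ?_ hlim
    · filter_upwards [hAt0] with j hj
      exact div_nonneg (hms j).1 (by have := hp.Rpos j; positivity)
    · filter_upwards [hAt0] with j hj
      have hRj := hp.Rpos j
      have hj' : 0 < ba 1 (E j) + ba (-1) (E j) := hj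
      rw [div_le_iff₀ (by positivity)]
      refine (hms j).2.trans (le_of_eq ?_)
      simp only [hAt]
      field_simp

end Pool.Agent.Vx

end

section

/-!
# MP_afe918_an, block W, item WInt: the left hand side of the Pohozaev identity for `f`
-/

set_option autoImplicit false

open Complex Set Filter Topology MeasureTheory Metric
open scoped Real ContDiff ComplexConjugate

namespace Pool.Agent.Vx

/-- Integrability against the density. -/
theorem WInt_int {ρ s lam : ℝ} {h : ℂ → ℂ} {E : ℂ → ℝ} (hl : Loc ρ 1 lam h E)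
    {f : ℂ → ℂ} (hf : ContinuousOn f (closedBall 0 s)) :
    IntegrableOn (fun z => f z * (E z : ℂ)) (ball 0 s) := by
  have hc : ContinuousOn (fun z => f z * (E z : ℂ)) (closedBall 0 s) :=
    hf.mul (Complex.continuous_ofReal.comp hl.cont).continuousOn
  exact (hc.integrableOn_compact (isCompact_closedBall _ _)).mono_set ball_subset_closedBall

theorem WInt_add {s : ℝ} {E : ℂ → ℝ} {f g : ℂ → ℂ}
    (hf : IntegrableOn (fun z => f z * (E z : ℂ)) (ball 0 s))
    (hg : IntegrableOn (fun z => g z * (E z : ℂ)) (ball 0 s)) :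
    mo s E (fun z => f z + g z) = mo s E f + mo s E g := by
  unfold mo
  rw [← integral_add hf hg]
  simp only [add_mul]

theorem WInt_sub {s : ℝ} {E : ℂ → ℝ} {f g : ℂ → ℂ}
    (hf : IntegrableOn (fun z => f z * (E z : ℂ)) (ball 0 s))
    (hg : IntegrableOn (fun z => g z * (E z : ℂ)) (ball 0 s)) :
    mo s E (fun z => f z - g z) = mo s E f - mo s E g := by
  unfold mo
  rw [← integral_sub hf hg]
  simp only [sub_mul]

theorem WInt_mul (s : ℝ) (E : ℂ → ℝ) (c : ℂ) (f : ℂ → ℂ) :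
    mo s E (fun z => c * f z) = c * mo s E f := by
  unfold mo
  rw [← integral_const_mul]
  simp only [mul_assoc]

theorem WInt_sum {s : ℝ} {E : ℂ → ℝ} (n : ℕ) {f : ℕ → ℂ → ℂ}
    (hf : ∀ i, IntegrableOn (fun z => f i z * (E z : ℂ)) (ball 0 s)) :
    mo s E (fun z => ∑ i ∈ Finset.range n, f i z) = ∑ i ∈ Finset.range n, mo s E (f i) := by
  unfold mo
  rw [← integral_finsetSum _ fun i _ => hf i]
  simp only [Finset.sum_mul]

/-- The pointwise identity. -/
theorem WInt_alg (sp sm g1 g2 z H L : ℂ) (hp : sp ≠ 0) (hm : sm ≠ 0) (hz : z ≠ 0) :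
    (∑ i ∈ Finset.range 6, cf sp sm g1 g2 i * i * z ^ (i - 1)) +
      (∑ i ∈ Finset.range 6, cf sp sm g1 g2 i * z ^ i) * (1 / z + H - L) =
    ((∑ i ∈ Finset.range 6, cf sp sm g1 g2 i * (i + 1) * z ^ (i - 1)) -
      (sp * sm)⁻¹ * (sp * sm * g1 * z ^ 1 + (2 * g2 * (sp * sm) - (sp + sm) * g1) * z ^ 2 +
        (g1 - 2 * g2 * (sp + sm)) * z ^ 3 + 2 * g2 * z ^ 4) +
      z * (z - sp) * (z - sm) * ((g1 + 2 * g2 * z) + H * (1 + g1 * z + g2 * z ^ 2)) /
        (sp * sm)) - L * vf sp sm g1 g2 z := by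
  simp only [Finset.sum_range_succ, Finset.sum_range_zero, cf, vf]
  norm_num
  field_simp
  ring

theorem WInt_iadd {s : ℝ} {E : ℂ → ℝ} {f g : ℂ → ℂ}
    (hf : IntegrableOn (fun z => f z * (E z : ℂ)) (ball 0 s))
    (hg : IntegrableOn (fun z => g z * (E z : ℂ)) (ball 0 s)) :
    IntegrableOn (fun z => (f z + g z) * (E z : ℂ)) (ball 0 s) :=
  (Integrable.add hf hg).congr (ae_of_all _ fun z => by
    show f z * (E z : ℂ) + g z * (E z : ℂ) = _
    ring)

theorem WInt_isub {s : ℝ} {E : ℂ → ℝ} {f g : ℂ → ℂ}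
    (hf : IntegrableOn (fun z => f z * (E z : ℂ)) (ball 0 s))
    (hg : IntegrableOn (fun z => g z * (E z : ℂ)) (ball 0 s)) :
    IntegrableOn (fun z => (f z - g z) * (E z : ℂ)) (ball 0 s) :=
  (Integrable.sub hf hg).congr (ae_of_all _ fun z => by
    show f z * (E z : ℂ) - g z * (E z : ℂ) = _
    ring)

theorem WInt_imul {s : ℝ} {E : ℂ → ℝ} {f : ℂ → ℂ} (c : ℂ)
    (hf : IntegrableOn (fun z => f z * (E z : ℂ)) (ball 0 s)) :
    IntegrableOn (fun z => (c * f z) * (E z : ℂ)) (ball 0 s) :=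
  (Integrable.const_mul hf c).congr (ae_of_all _ fun z => by
    show c * (f z * (E z : ℂ)) = _
    ring)

/-- Linearity, applied to the decomposition. -/
theorem WInt_lin {s : ℝ} {E : ℂ → ℝ} {f1 f2 f3 f4 : ℂ → ℂ} (c d : ℂ)
    (h1 : IntegrableOn (fun z => f1 z * (E z : ℂ)) (ball 0 s))
    (h2 : IntegrableOn (fun z => f2 z * (E z : ℂ)) (ball 0 s))
    (h3 : IntegrableOn (fun z => f3 z * (E z : ℂ)) (ball 0 s))
    (h4 : IntegrableOn (fun z => f4 z * (E z : ℂ)) (ball 0 s)) :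
    mo s E (fun z => f1 z - c * f2 z + f3 z - d * f4 z) =
      mo s E f1 - c * mo s E f2 + mo s E f3 - d * mo s E f4 := by
  have h2' : IntegrableOn (fun z => c * f2 z * (E z : ℂ)) (ball 0 s) := WInt_imul c h2
  have h4' : IntegrableOn (fun z => d * f4 z * (E z : ℂ)) (ball 0 s) := WInt_imul d h4
  have h12 : IntegrableOn (fun z => (f1 z - c * f2 z) * (E z : ℂ)) (ball 0 s) :=
    WInt_isub (f := f1) (g := fun z => c * f2 z) h1 h2'
  have h123 : IntegrableOn (fun z => (f1 z - c * f2 z + f3 z) * (E z : ℂ)) (ball 0 s) :=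
    WInt_iadd (f := fun z => f1 z - c * f2 z) (g := f3) h12 h3
  have e1 := WInt_sub (f := fun z => f1 z - c * f2 z + f3 z) (g := fun z => d * f4 z) h123 h4'
  have e2 := WInt_add (f := fun z => f1 z - c * f2 z) (g := f3) h12 h3
  have e3 := WInt_sub (f := f1) (g := fun z => c * f2 z) h1 h2'
  rw [e1, e2, e3, WInt_mul s E c f2, WInt_mul s E d f4]

theorem WInt_poly {s : ℝ} {E : ℂ → ℝ} (a1 a2 a3 a4 : ℂ)
    (hcp : ∀ (c : ℂ) (k : ℕ), IntegrableOn (fun z => c * z ^ k * (E z : ℂ)) (ball 0 s)) :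
    mo s E (fun z => a1 * z ^ 1 + a2 * z ^ 2 + a3 * z ^ 3 + a4 * z ^ 4) =
      a1 * mo s E (fun z => z ^ 1) + a2 * mo s E (fun z => z ^ 2) +
        a3 * mo s E (fun z => z ^ 3) + a4 * mo s E (fun z => z ^ 4) := by
  have h12 : IntegrableOn (fun z => (a1 * z ^ 1 + a2 * z ^ 2) * (E z : ℂ)) (ball 0 s) :=
    WInt_iadd (f := fun z => a1 * z ^ 1) (g := fun z => a2 * z ^ 2) (hcp a1 1) (hcp a2 2)
  have h123 : IntegrableOn (fun z => (a1 * z ^ 1 + a2 * z ^ 2 + a3 * z ^ 3) * (E z : ℂ))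
      (ball 0 s) :=
    WInt_iadd (f := fun z => a1 * z ^ 1 + a2 * z ^ 2) (g := fun z => a3 * z ^ 3) h12 (hcp a3 3)
  have e1 := WInt_add (f := fun z => a1 * z ^ 1 + a2 * z ^ 2 + a3 * z ^ 3)
    (g := fun z => a4 * z ^ 4) h123 (hcp a4 4)
  have e2 := WInt_add (f := fun z => a1 * z ^ 1 + a2 * z ^ 2)
    (g := fun z => a3 * z ^ 3) h12 (hcp a3 3)
  have e3 := WInt_add (f := fun z => a1 * z ^ 1)
    (g := fun z => a2 * z ^ 2) (hcp a1 1) (hcp a2 2)
  rw [e1, e2, e3, WInt_mul s E a1 (fun z => z ^ 1), WInt_mul s E a2 (fun z => z ^ 2),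
    WInt_mul s E a3 (fun z => z ^ 3), WInt_mul s E a4 (fun z => z ^ 4)]

theorem pr_WInt : S_WInt := by
  intro ρ s lam h E hl hs hsρ sp sm g1 g2 hp hm
  have hh : ContinuousOn (deriv h) (closedBall 0 s) := by
    have h1 : DifferentiableOn ℂ (deriv h) (ball 0 ρ) := hl.an.deriv isOpen_ball
    exact h1.continuousOn.mono (closedBall_subset_ball hsρ)
  have hcp : ∀ (c : ℂ) (k : ℕ), IntegrableOn (fun z => c * z ^ k * (E z : ℂ)) (ball 0 s) :=
    fun c k => WInt_int hl (f := fun z => c * z ^ k) (by fun_prop)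
  have hq : IntegrableOn (fun z => qf sp sm g1 g2 h z * (E z : ℂ)) (ball 0 s) := by
    refine WInt_int hl ?_
    unfold qf
    fun_prop (disch := assumption)
  have hv : IntegrableOn (fun z => (vf sp sm g1 g2 z * conj z) * (E z : ℂ)) (ball 0 s) := by
    refine WInt_int hl (f := fun z => vf sp sm g1 g2 z * conj z) ?_
    unfold vf
    fun_prop
  have hf1 : IntegrableOn (fun z => (∑ i ∈ Finset.range 6, cf sp sm g1 g2 i * (i + 1) *
      z ^ (i - 1)) * (E z : ℂ)) (ball 0 s) :=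
    WInt_int hl (f := fun z => ∑ i ∈ Finset.range 6, cf sp sm g1 g2 i * (i + 1) * z ^ (i - 1))
      (by fun_prop)
  have hf2 : IntegrableOn (fun z => (sp * sm * g1 * z ^ 1 + (2 * g2 * (sp * sm) -
      (sp + sm) * g1) * z ^ 2 + (g1 - 2 * g2 * (sp + sm)) * z ^ 3 + 2 * g2 * z ^ 4) *
      (E z : ℂ)) (ball 0 s) :=
    WInt_int hl (f := fun z => sp * sm * g1 * z ^ 1 + (2 * g2 * (sp * sm) -
      (sp + sm) * g1) * z ^ 2 + (g1 - 2 * g2 * (sp + sm)) * z ^ 3 + 2 * g2 * z ^ 4)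
      (by fun_prop)
  have e1 : mo s E (fun z => (∑ i ∈ Finset.range 6, cf sp sm g1 g2 i * i * z ^ (i - 1)) +
      (∑ i ∈ Finset.range 6, cf sp sm g1 g2 i * z ^ i) *
        (1 / z + deriv h z - (lam : ℝ) / 4 * conj z)) =
      mo s E (fun z => (∑ i ∈ Finset.range 6, cf sp sm g1 g2 i * (i + 1) * z ^ (i - 1)) -
      (sp * sm)⁻¹ * (sp * sm * g1 * z ^ 1 + (2 * g2 * (sp * sm) - (sp + sm) * g1) * z ^ 2 +
        (g1 - 2 * g2 * (sp + sm)) * z ^ 3 + 2 * g2 * z ^ 4) +
      qf sp sm g1 g2 h z - ((lam : ℝ) / 4 : ℂ) * (vf sp sm g1 g2 z * conj z)) := by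
    unfold mo
    refine setIntegral_congr_ae measurableSet_ball ?_
    have hne : ∀ᵐ z : ℂ, z ≠ 0 := by
      rw [ae_iff]
      simp
    filter_upwards [hne] with z hz _
    have e2 := WInt_alg sp sm g1 g2 z (deriv h z) ((lam : ℝ) / 4 * conj z) hp hm hz
    have e3 : ((lam : ℝ) / 4 * conj z : ℂ) * vf sp sm g1 g2 z =
        ((lam : ℝ) / 4 : ℂ) * (vf sp sm g1 g2 z * conj z) := by
      generalize vf sp sm g1 g2 z = x
      generalize (conj z : ℂ) = y
      ring
    rw [e3] at e2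
    exact congrArg (fun x => x * (E z : ℂ)) e2
  have e4 : mo s E (fun z => ∑ i ∈ Finset.range 6, cf sp sm g1 g2 i * (i + 1) * z ^ (i - 1)) =
      ∑ i ∈ Finset.range 6, cf sp sm g1 g2 i * (i + 1) * mo s E (fun z => z ^ (i - 1)) := by
    rw [WInt_sum 6 (f := fun i z => cf sp sm g1 g2 i * (i + 1) * z ^ (i - 1))
      (fun i => hcp _ _)]
    exact Finset.sum_congr rfl fun i _ => WInt_mul s E _ _
  rw [e1, WInt_lin (sp * sm)⁻¹ ((lam : ℝ) / 4 : ℂ) hf1 hf2 hq hv, e4, WInt_poly _ _ _ _ hcp]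
  generalize (∑ i ∈ Finset.range 6, cf sp sm g1 g2 i * (i + 1) * mo s E (fun z => z ^ (i - 1)))
    = x
  generalize mo s E (qf sp sm g1 g2 h) = y
  generalize mo s E (fun z => vf sp sm g1 g2 z * conj z) = t
  rw [div_eq_inv_mul _ (sp * sm)]

end Pool.Agent.Vx

end

section

/-!
# MP_afe918_an, item WKap: the height `kap = E (2i)` (helper61)
-/

set_option autoImplicit false

open Complex Set Filter Topology MeasureTheory Metric
open scoped Real ContDiff ComplexConjugate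

namespace Pool.Agent.Vx

theorem WKap_n1 : 2 ≤ ‖2 * I - 1‖ := by
  have h : |(2 * I - 1).im| ≤ ‖2 * I - 1‖ := abs_im_le_norm _
  simpa using h

theorem WKap_n2 : 2 ≤ ‖2 * I + 1‖ := by
  have h : |(2 * I + 1).im| ≤ ‖2 * I + 1‖ := abs_im_le_norm _
  simpa using h

theorem WKap_n0 : ‖2 * I‖ = 2 := by simp

theorem pr_WKap (h1 : S_WCmp) (h2 : S_WUB) : S_WKap := by
  intro r H Λ R lam eta h E hp
  have hpl := hp.pl
  have hm5 : 2 * I ∈ ball (0 : ℂ) 5 := by
    rw [mem_ball_zero_iff, WKap_n0]; norm_num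
  have hpos : ∀ j, 0 < E j (2 * I) := by
    intro j
    have h3 := (hpl.loc j).rep (2 * I) (by
      rw [mem_ball_zero_iff, WKap_n0]; linarith [W_rad hpl j])
    rw [h3, WKap_n0]
    positivity
  have up : ∀ s, 0 < s → ∃ C, ∀ᶠ j in atTop, ∀ z ∈ ball (0 : ℂ) 5, s ≤ ‖z - 1‖ → s ≤ ‖z + 1‖ →
      E j z ≤ C * E j (2 * I) := by
    intro s hs
    obtain ⟨C, hC0, hC⟩ := h1 r H Λ R lam eta h E hp (min s 1) (lt_min hs one_pos)
    refine ⟨25 * C / 4, ?_⟩
    filter_upwards [hC] with j hj z hz hz1 hz2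
    have h3 := hj z hz (2 * I) hm5 ((min_le_left _ _).trans hz1) ((min_le_left _ _).trans hz2)
      ((min_le_right _ _).trans (le_trans (by norm_num) WKap_n1))
      ((min_le_right _ _).trans (le_trans (by norm_num) WKap_n2))
    rw [WKap_n0] at h3
    have hz5 : ‖z‖ ^ 2 ≤ 25 := by
      have : ‖z‖ < 5 := mem_ball_zero_iff.1 hz
      nlinarith [norm_nonneg z]
    have h4 : C * ‖z‖ ^ 2 * E j (2 * I) ≤ C * 25 * E j (2 * I) := by
      have := (hpos j).le
      gcongr
    linarith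
  have lo : ∀ s, 0 < s → ∃ c, 0 < c ∧ ∀ᶠ j in atTop, ∀ z ∈ ball (0 : ℂ) 5, s ≤ ‖z - 1‖ →
      s ≤ ‖z + 1‖ → c * ‖z‖ ^ 2 * E j (2 * I) ≤ E j z := by
    intro s hs
    obtain ⟨C, hC0, hC⟩ := h1 r H Λ R lam eta h E hp (min s 1) (lt_min hs one_pos)
    refine ⟨1 / (4 * C), by positivity, ?_⟩
    filter_upwards [hC] with j hj z hz hz1 hz2
    have h3 := hj (2 * I) hm5 z hz
      ((min_le_right _ _).trans (le_trans (by norm_num) WKap_n1))
      ((min_le_right _ _).trans (le_trans (by norm_num) WKap_n2))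
      ((min_le_left _ _).trans hz1) ((min_le_left _ _).trans hz2)
    rw [WKap_n0] at h3
    calc 1 / (4 * C) * ‖z‖ ^ 2 * E j (2 * I) = (‖z‖ ^ 2 * E j (2 * I)) / (4 * C) := by ring
      _ ≤ (C * 2 ^ 2 * E j z) / (4 * C) := by gcongr
      _ = E j z := by field_simp; norm_num; ring
  refine ⟨hpos, ?_, up, lo⟩
  obtain ⟨c, hc0, hc⟩ := lo (1 / 2) (by norm_num)
  obtain ⟨hI, -⟩ := h2 r H Λ R lam eta h E hp (1 / 2) (by norm_num) le_rfl
  -- the small ball
  have hB : ∀ z ∈ ball (2 * I) (1 / 2), 1 ≤ ‖z‖ ∧ ‖z‖ < 5 ∧ 1 / 2 ≤ ‖z - 1‖ ∧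
      1 / 2 ≤ ‖z + 1‖ := by
    intro z hz
    rw [mem_ball, dist_eq_norm] at hz
    have e1 : ‖2 * I‖ ≤ ‖z - 2 * I‖ + ‖z‖ := by
      have := norm_sub_le (z) (z - 2 * I)
      have e : z - (z - 2 * I) = 2 * I := by ring
      rw [e] at this; linarith
    have e2 : ‖z‖ ≤ ‖z - 2 * I‖ + ‖2 * I‖ := by
      have := norm_add_le (z - 2 * I) (2 * I)
      simpa using this
    have e3 : ‖2 * I - 1‖ ≤ ‖z - 2 * I‖ + ‖z - 1‖ := by
      have := norm_sub_le (z - 1) (z - 2 * I)
      have e : z - 1 - (z - 2 * I) = 2 * I - 1 := by ring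
      rw [e] at this; linarith
    have e4 : ‖2 * I + 1‖ ≤ ‖z - 2 * I‖ + ‖z + 1‖ := by
      have := norm_sub_le (z + 1) (z - 2 * I)
      have e : z + 1 - (z - 2 * I) = 2 * I + 1 := by ring
      rw [e] at this; linarith
    have := WKap_n1
    have := WKap_n2
    rw [WKap_n0] at e1 e2
    refine ⟨by linarith, by linarith, by linarith, by linarith⟩
  set A : ℝ := volume.real (ball (2 * I) (1 / 2)) with hA
  have hApos : 0 < A :=
    ENNReal.toReal_pos (measure_ball_pos volume _ (by norm_num)).ne' measure_ball_lt_top.ne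
  have hle : ∀ᶠ j in atTop, E j (2 * I) ≤ 1 / (c * A) *
      ∫ z in ball 0 (r / R j) \ (ball 1 (1 / 2) ∪ ball (-1) (1 / 2)), E j z := by
    filter_upwards [hc] with j hj
    have hEc := (hpl.loc j).cont
    have hE0 := (hpl.loc j).nonneg
    have g1 : (c * E j (2 * I)) * A ≤ ∫ z in ball (2 * I) (1 / 2), E j z := by
      rw [mul_comm, ← smul_eq_mul]
      apply setIntegral_ge_of_const_le measurableSet_ball measure_ball_lt_top.ne
      · intro z hz
        obtain ⟨b1, b2, b3, b4⟩ := hB z hz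
        refine le_trans ?_ (hj z (mem_ball_zero_iff.2 b2) b3 b4)
        have b5 : (1 : ℝ) ≤ ‖z‖ ^ 2 := one_le_pow₀ b1
        have b6 : 0 ≤ c * E j (2 * I) := mul_nonneg hc0.le (hpos j).le
        nlinarith
      · exact (hEc.continuousOn.integrableOn_compact (isCompact_closedBall _ _)).mono_set
          ball_subset_closedBall
    have g2 : ∫ z in ball (2 * I) (1 / 2), E j z ≤
        ∫ z in ball 0 (r / R j) \ (ball 1 (1 / 2) ∪ ball (-1) (1 / 2)), E j z := by
      apply setIntegral_mono_set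
      · exact (hEc.continuousOn.integrableOn_compact (isCompact_closedBall 0 (r / R j))).mono_set
          (sdiff_subset.trans ball_subset_closedBall)
      · exact Eventually.of_forall fun z => hE0 z
      · apply Eventually.of_forall
        intro z hz
        obtain ⟨b1, b2, b3, b4⟩ := hB z hz
        refine ⟨mem_ball_zero_iff.2 (b2.trans ?_), ?_⟩
        · linarith [W_rad hpl j]
        · rintro (h | h)
          · rw [mem_ball, dist_eq_norm] at h; linarith
          · rw [mem_ball, dist_eq_norm, sub_neg_eq_add] at h; linarith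
    calc E j (2 * I) = 1 / (c * A) * ((c * E j (2 * I)) * A) := by field_simp
      _ ≤ _ := by
        apply mul_le_mul_of_nonneg_left (g1.trans g2)
        positivity
  have hlim : Tendsto (fun j => 1 / (c * A) *
      ∫ z in ball 0 (r / R j) \ (ball 1 (1 / 2) ∪ ball (-1) (1 / 2)), E j z) atTop (𝓝 0) := by
    simpa using hI.const_mul (1 / (c * A))
  exact tendsto_of_tendsto_of_tendsto_of_le_of_le' tendsto_const_nhds hlim
    (Eventually.of_forall fun j => (hpos j).le) hle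

end Pool.Agent.Vx

end

section

/-!
# MP_afe918_an, block W: the `lam` term near the bubbles (helper73)
-/

set_option autoImplicit false

open Complex Set Filter Topology MeasureTheory Metric
open scoped Real ContDiff ComplexConjugate

namespace Pool.Agent.Vx

/-- Integrability on the small ball. -/
theorem WLamN_int {q : ℂ} {F : ℂ → ℂ} (hF : Continuous F) {E : ℂ → ℝ} (hE : Continuous E) :
    IntegrableOn (fun z => F z * (E z : ℂ)) (ball q (1 / 4)) := by
  have h1 : Continuous (fun z => F z * (E z : ℂ)) := by fun_prop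
  exact (h1.continuousOn.integrableOn_compact (isCompact_closedBall q (1 / 4))).mono_set
    ball_subset_closedBall

theorem WLamN_intR {q : ℂ} {F : ℂ → ℝ} (hF : Continuous F) {E : ℂ → ℝ} (hE : Continuous E) :
    IntegrableOn (fun z => F z * E z) (ball q (1 / 4)) := by
  have h1 : Continuous (fun z => F z * E z) := by fun_prop
  exact (h1.continuousOn.integrableOn_compact (isCompact_closedBall q (1 / 4))).mono_set
    ball_subset_closedBall

/-- Splitting of the integral. -/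
theorem WLamN_split {μ : Measure ℂ} {f1 f2 f3 f4 f5 : ℂ → ℂ} (h1 : Integrable f1 μ)
    (h2 : Integrable f2 μ) (h3 : Integrable f3 μ) (h4 : Integrable f4 μ) (h5 : Integrable f5 μ) :
    ∫ z, (f1 z + f2 z + f3 z + f4 z + f5 z) ∂μ =
      ∫ z, f1 z ∂μ + ∫ z, f2 z ∂μ + ∫ z, f3 z ∂μ + ∫ z, f4 z ∂μ + ∫ z, f5 z ∂μ := by
  have a1 : Integrable (fun z => f1 z + f2 z) μ := h1.add h2
  have a2 : Integrable (fun z => f1 z + f2 z + f3 z) μ := a1.add h3
  have a3 : Integrable (fun z => f1 z + f2 z + f3 z + f4 z) μ := a2.add h4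
  rw [integral_add a3 h5, integral_add a2 h4, integral_add a1 h3, integral_add h1 h2]

/-- The first moment. -/
theorem WLamN_mom {q : ℂ} {E : ℂ → ℝ} (hm : bm q E ≠ 0) :
    ∫ z in ball q (1 / 4), z * (E z : ℂ) = bc q E * (bm q E : ℂ) := by
  unfold bc
  rw [div_mul_cancel₀]
  exact_mod_cast hm

/-- The zeroth moment. -/
theorem WLamN_mass {q : ℂ} {E : ℂ → ℝ} :
    ∫ z in ball q (1 / 4), (E z : ℂ) = (bm q E : ℂ) := by
  unfold bm
  exact integral_ofReal

/-- The first central moment vanishes. -/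
theorem WLamN_cen {q : ℂ} {E : ℂ → ℝ} (hE : Continuous E) (hm : bm q E ≠ 0) :
    ∫ z in ball q (1 / 4), (z - bc q E) * (E z : ℂ) = 0 := by
  have h1 : ∀ z : ℂ, (z - bc q E) * (E z : ℂ) = z * (E z : ℂ) - bc q E * (E z : ℂ) := by
    intro z; ring
  simp_rw [h1]
  have i1 : IntegrableOn (fun z : ℂ => z * (E z : ℂ)) (ball q (1 / 4)) :=
    WLamN_int continuous_id hE
  have i2 : IntegrableOn (fun z : ℂ => bc q E * (E z : ℂ)) (ball q (1 / 4)) :=
    WLamN_int continuous_const hE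
  rw [integral_sub i1 i2, WLamN_mom hm, integral_const_mul, WLamN_mass, sub_self]

/-- The conjugate moment. -/
theorem WLamN_conj {q : ℂ} {E : ℂ → ℝ} (hm : bm q E ≠ 0) :
    ∫ z in ball q (1 / 4), conj z * (E z : ℂ) = conj (bc q E) * (bm q E : ℂ) := by
  have h1 : ∀ z : ℂ, conj z * (E z : ℂ) = conj (z * (E z : ℂ)) := by
    intro z; simp
  simp_rw [h1]
  rw [integral_conj, WLamN_mom hm]
  simp

/-- The second central moment. -/
theorem WLamN_sec {q : ℂ} {E : ℂ → ℝ} :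
    ∫ z in ball q (1 / 4), (((‖z - bc q E‖ ^ 2 : ℝ) : ℂ)) * (E z : ℂ) = (ba q E : ℂ) := by
  have h1 : ∀ z : ℂ, (((‖z - bc q E‖ ^ 2 : ℝ) : ℂ)) * (E z : ℂ) =
      ((‖z - bc q E‖ ^ 2 * E z : ℝ) : ℂ) := by
    intro z; push_cast; ring
  simp_rw [h1]
  unfold ba
  exact integral_ofReal

/-- The value of `f'`. -/
noncomputable def WLamN_d (s s' g1 g2 b : ℂ) : ℂ :=
  1 + 2 * ((g1 - (s + s') / (s * s'))) * b + 3 * ((1 - (s + s') * g1 + s * s' * g2) / (s * s')) * b ^ 2 +
    4 * ((g1 - (s + s') * g2) / (s * s')) * b ^ 3 + 5 * (g2 / (s * s')) * b ^ 4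

/-- The value of `f''/2`. -/
noncomputable def WLamN_e (s s' g1 g2 b : ℂ) : ℂ :=
  ((g1 - (s + s') / (s * s'))) + 3 * ((1 - (s + s') * g1 + s * s' * g2) / (s * s')) * b +
    6 * ((g1 - (s + s') * g2) / (s * s')) * b ^ 2 + 10 * (g2 / (s * s')) * b ^ 3

/-- The remainder. -/
noncomputable def WLamN_r (s s' g1 g2 b z : ℂ) : ℂ :=
  ((1 - (s + s') * g1 + s * s' * g2) / (s * s')) +
    ((g1 - (s + s') * g2) / (s * s')) * (3 * b + z) +
    (g2 / (s * s')) * (6 * b ^ 2 + 3 * b * z + z ^ 2)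

theorem WLamN_taylor {s s' : ℂ} (g1 g2 b z : ℂ) (hs : s ≠ 0) (hs' : s' ≠ 0) :
    vf s s' g1 g2 z = vf s s' g1 g2 b + WLamN_d s s' g1 g2 b * (z - b) +
      WLamN_e s s' g1 g2 b * (z - b) ^ 2 + WLamN_r s s' g1 g2 b z * (z - b) ^ 3 := by
  unfold vf WLamN_d WLamN_e WLamN_r
  field_simp
  ring

/-- The expansion of the integral. -/
theorem WLamN_exp {q : ℂ} {E : ℂ → ℝ} (hE : Continuous E) (hm : bm q E ≠ 0) {s s' : ℂ}
    (g1 g2 : ℂ) (hs : s ≠ 0) (hs' : s' ≠ 0) :
    ∫ z in ball q (1 / 4), vf s s' g1 g2 z * conj z * (E z : ℂ) =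
      vf s s' g1 g2 (bc q E) * (conj (bc q E) * (bm q E : ℂ)) +
      WLamN_d s s' g1 g2 (bc q E) * (ba q E : ℂ) +
      WLamN_e s s' g1 g2 (bc q E) * conj (bc q E) *
        (∫ z in ball q (1 / 4), (z - bc q E) ^ 2 * (E z : ℂ)) +
      ∫ z in ball q (1 / 4), ((WLamN_e s s' g1 g2 (bc q E) * conj (z - bc q E) * (z - bc q E) ^ 2 +
        WLamN_r s s' g1 g2 (bc q E) z * conj z * (z - bc q E) ^ 3)) * (E z : ℂ) := by
  set b := bc q E with hb
  have hr : Continuous (fun z => WLamN_r s s' g1 g2 b z) := by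
    unfold WLamN_r; fun_prop
  have h1 : ∀ z : ℂ, vf s s' g1 g2 z * conj z * (E z : ℂ) =
      vf s s' g1 g2 b * (conj z * (E z : ℂ)) +
      WLamN_d s s' g1 g2 b * conj b * ((z - b) * (E z : ℂ)) +
      WLamN_d s s' g1 g2 b * (((‖z - b‖ ^ 2 : ℝ) : ℂ) * (E z : ℂ)) +
      WLamN_e s s' g1 g2 b * conj b * ((z - b) ^ 2 * (E z : ℂ)) +
      ((WLamN_e s s' g1 g2 b * conj (z - b) * (z - b) ^ 2 +
        WLamN_r s s' g1 g2 b z * conj z * (z - b) ^ 3)) * (E z : ℂ) := by
    intro z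
    have h2 : ((‖z - b‖ ^ 2 : ℝ) : ℂ) = (z - b) * conj (z - b) := by
      rw [Complex.mul_conj, Complex.normSq_eq_norm_sq]
    rw [h2, WLamN_taylor g1 g2 b z hs hs']
    have h3 : conj z = conj b + conj (z - b) := by simp
    rw [h3]
    ring
  have hc1 : Continuous (fun z : ℂ => conj z) := Complex.continuous_conj
  have hc2 : Continuous (fun z : ℂ => z - b) := by fun_prop
  have hc3 : Continuous (fun z : ℂ => ((‖z - b‖ ^ 2 : ℝ) : ℂ)) := by fun_prop
  have hc4 : Continuous (fun z : ℂ => (z - b) ^ 2) := by fun_prop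
  have hc5 : Continuous (fun z : ℂ => (WLamN_e s s' g1 g2 b * conj (z - b) * (z - b) ^ 2 +
        WLamN_r s s' g1 g2 b z * conj z * (z - b) ^ 3)) := by fun_prop
  have i1 := (WLamN_int (q := q) hc1 hE).const_mul (vf s s' g1 g2 b)
  have i2 := (WLamN_int (q := q) hc2 hE).const_mul (WLamN_d s s' g1 g2 b * conj b)
  have i3 := (WLamN_int (q := q) hc3 hE).const_mul (WLamN_d s s' g1 g2 b)
  have i4 := (WLamN_int (q := q) hc4 hE).const_mul (WLamN_e s s' g1 g2 b * conj b)
  have i5 := (WLamN_int (q := q) hc5 hE)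
  simp_rw [h1]
  rw [WLamN_split i1 i2 i3 i4 i5, integral_const_mul, integral_const_mul,
    integral_const_mul, integral_const_mul, WLamN_conj hm, WLamN_cen hE hm, WLamN_sec]
  ring

/-- The bound for the remainder. -/
theorem WLamN_rem {q : ℂ} {E : ℂ → ℝ} (hE : Continuous E) (hE0 : ∀ z, 0 ≤ E z) (b e : ℂ)
    {r : ℂ → ℂ} {K1 K2 : ℝ} (hK1 : ‖e‖ ≤ K1)
    (hK2 : ∀ z ∈ ball q (1 / 4), ‖r z * conj z‖ ≤ K2) :
    ‖∫ z in ball q (1 / 4), ((e * conj (z - b) * (z - b) ^ 2 +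
        r z * conj z * (z - b) ^ 3)) * (E z : ℂ)‖ ≤
      (K1 + K2) * ∫ z in ball q (1 / 4), ‖z - b‖ ^ 3 * E z := by
  rw [← integral_const_mul]
  have hc : Continuous (fun z : ℂ => ‖z - b‖ ^ 3) := by fun_prop
  refine norm_integral_le_of_norm_le ((WLamN_intR hc hE).const_mul _) ?_
  filter_upwards [ae_restrict_mem measurableSet_ball] with z hz
  rw [norm_mul, Complex.norm_real, Real.norm_of_nonneg (hE0 z), ← mul_assoc]
  refine mul_le_mul_of_nonneg_right ?_ (hE0 z)
  refine (norm_add_le _ _).trans ?_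
  rw [add_mul]
  refine add_le_add ?_ ?_
  · rw [norm_mul, norm_mul, norm_pow, RCLike.norm_conj, mul_assoc]
    have h1 : ‖z - b‖ * ‖z - b‖ ^ 2 = ‖z - b‖ ^ 3 := by ring
    rw [h1]
    exact mul_le_mul_of_nonneg_right hK1 (by positivity)
  · rw [norm_mul, norm_pow]
    exact mul_le_mul_of_nonneg_right (hK2 z hz) (by positivity)

/-- The general statement near `q = ±1`. -/
theorem WLamN_gen {q : ℂ} (hq : q ^ 2 = 1) {E : ℕ → ℂ → ℝ} (hE : ∀ j, Continuous (E j))
    (hE0 : ∀ j z, 0 ≤ E j z) {s s' g1 g2 : ℕ → ℂ} {At : ℕ → ℝ}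
    (hs : Tendsto s atTop (𝓝 q)) (hs' : Tendsto s' atTop (𝓝 (-q)))
    (hg1 : Tendsto g1 atTop (𝓝 0)) (hg2 : Tendsto g2 atTop (𝓝 0))
    (hb : Tendsto (fun j => bc q (E j)) atTop (𝓝 q))
    (hm : Tendsto (fun j => bm q (E j)) atTop (𝓝 (8 * π)))
    (hpos : ∀ᶠ j in atTop, 0 < ba q (E j)) (hle : ∀ᶠ j in atTop, ba q (E j) ≤ At j)
    (hp : Tendsto (fun j => (s j - bc q (E j)) / (At j : ℂ)) atTop (𝓝 0))
    (hq2 : Tendsto (fun j => (∫ z in ball q (1 / 4), (z - bc q (E j)) ^ 2 * (E j z : ℂ)) /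
      (ba q (E j) : ℂ)) atTop (𝓝 0))
    (h3 : Tendsto (fun j => (∫ z in ball q (1 / 4), ‖z - bc q (E j)‖ ^ 3 * E j z) / ba q (E j))
      atTop (𝓝 0)) :
    Tendsto (fun j => ((∫ z in ball q (1 / 4),
      vf (s j) (s' j) (g1 j) (g2 j) z * conj z * (E j z : ℂ)) + 2 * (ba q (E j) : ℂ)) /
        (At j : ℂ)) atTop (𝓝 0) := by
  have hq0 : q ≠ 0 := by
    rintro rfl
    norm_num at hq
  have hqn : ‖q‖ = 1 := by
    have h := congrArg norm hq
    rw [norm_pow, norm_one] at h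
    exact (pow_eq_one_iff_of_nonneg (norm_nonneg q) (by norm_num)).1 h
  have hss : Tendsto (fun j => s j * s' j) atTop (𝓝 (-1)) := by
    have h := hs.mul hs'
    have h2 : q * -q = -1 := by rw [mul_neg, ← sq, hq]
    rwa [h2] at h
  have hsa : Tendsto (fun j => s j + s' j) atTop (𝓝 0) := by
    have h := hs.add hs'
    rwa [add_neg_cancel] at h
  have hdiv : ∀ {u : ℕ → ℂ} {l : ℂ}, Tendsto u atTop (𝓝 l) →
      Tendsto (fun j => u j / (s j * s' j)) atTop (𝓝 (l / -1)) := by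
    intro u l hu
    exact hu.div hss (by norm_num)
  have hc2 : Tendsto (fun j => g1 j - (s j + s' j) / (s j * s' j)) atTop (𝓝 0) := by
    have h := hg1.sub (hdiv hsa)
    simpa using h
  have hc3 : Tendsto (fun j => (1 - (s j + s' j) * g1 j + s j * s' j * g2 j) / (s j * s' j)) atTop
      (𝓝 (-1)) := by
    have h := hdiv (((tendsto_const_nhds (x := (1 : ℂ))).sub (hsa.mul hg1)).add (hss.mul hg2))
    simpa using h
  have hc4 : Tendsto (fun j => (g1 j - (s j + s' j) * g2 j) / (s j * s' j)) atTop (𝓝 0) := by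
    have h := hdiv (hg1.sub (hsa.mul hg2))
    simpa using h
  have hc5 : Tendsto (fun j => g2 j / (s j * s' j)) atTop (𝓝 0) := by
    have h := hdiv hg2
    simpa using h
  have hd : Tendsto (fun j => WLamN_d (s j) (s' j) (g1 j) (g2 j) (bc q (E j))) atTop
      (𝓝 (-2)) := by
    unfold WLamN_d
    have h := (((((tendsto_const_nhds (x := (1 : ℂ))).add ((hc2.const_mul 2).mul hb)).add
      ((hc3.const_mul 3).mul (hb.pow 2))).add ((hc4.const_mul 4).mul (hb.pow 3))).add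
      ((hc5.const_mul 5).mul (hb.pow 4)))
    have h2 : (1 : ℂ) + 2 * 0 * q + 3 * -1 * q ^ 2 + 4 * 0 * q ^ 3 + 5 * 0 * q ^ 4 = -2 := by
      rw [hq]; ring
    rwa [h2] at h
  have he : Tendsto (fun j => WLamN_e (s j) (s' j) (g1 j) (g2 j) (bc q (E j))) atTop
      (𝓝 (-3 * q)) := by
    unfold WLamN_e
    have h := ((hc2.add ((hc3.const_mul 3).mul hb)).add ((hc4.const_mul 6).mul (hb.pow 2))).add
      ((hc5.const_mul 10).mul (hb.pow 3))
    have h2 : (0 : ℂ) + 3 * -1 * q + 6 * 0 * q ^ 2 + 10 * 0 * q ^ 3 = -3 * q := by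
      ring
    rwa [h2] at h
  have hG : Tendsto (fun j => bc q (E j) * (bc q (E j) - s' j) *
      (1 + g1 j * bc q (E j) + g2 j * bc q (E j) ^ 2) / (s j * s' j)) atTop
      (𝓝 (q * (q - -q) * (1 + 0 * q + 0 * q ^ 2) / -1)) :=
    hdiv ((hb.mul (hb.sub hs')).mul (((tendsto_const_nhds (x := (1 : ℂ))).add (hg1.mul hb)).add
      (hg2.mul (hb.pow 2))))
  have hbc : Tendsto (fun j => conj (bc q (E j))) atTop (𝓝 (conj q)) :=
    (Complex.continuous_conj.tendsto q).comp hb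
  have hmc : Tendsto (fun j => (bm q (E j) : ℂ)) atTop (𝓝 ((8 * π : ℝ) : ℂ)) :=
    (Complex.continuous_ofReal.tendsto _).comp hm
  have T1 : Tendsto (fun j => vf (s j) (s' j) (g1 j) (g2 j) (bc q (E j)) *
      (conj (bc q (E j)) * (bm q (E j) : ℂ)) / (At j : ℂ)) atTop (𝓝 0) := by
    have h := ((hp.neg.mul hG).mul (hbc.mul hmc))
    rw [neg_zero, zero_mul, zero_mul] at h
    refine h.congr fun j => ?_
    unfold vf
    ring
  have T2 : Tendsto (fun j => WLamN_d (s j) (s' j) (g1 j) (g2 j) (bc q (E j)) + 2) atTop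
      (𝓝 0) := by
    have h := hd.add_const 2
    simpa using h
  have T3 : Tendsto (fun j => WLamN_e (s j) (s' j) (g1 j) (g2 j) (bc q (E j)) *
      conj (bc q (E j)) * ((∫ z in ball q (1 / 4), (z - bc q (E j)) ^ 2 * (E j z : ℂ)) /
      (ba q (E j) : ℂ))) atTop (𝓝 0) := by
    have h := (he.mul hbc).mul hq2
    rwa [mul_zero] at h
  have T4 : Tendsto (fun j => (∫ z in ball q (1 / 4),
      ((WLamN_e (s j) (s' j) (g1 j) (g2 j) (bc q (E j)) * conj (z - bc q (E j)) *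
        (z - bc q (E j)) ^ 2 + WLamN_r (s j) (s' j) (g1 j) (g2 j) (bc q (E j)) z * conj z *
        (z - bc q (E j)) ^ 3)) * (E j z : ℂ)) / (ba q (E j) : ℂ)) atTop (𝓝 0) := by
    have hbig : Tendsto (fun j => (4 + 100) * ((∫ z in ball q (1 / 4),
        ‖z - bc q (E j)‖ ^ 3 * E j z) / ba q (E j))) atTop (𝓝 0) := by
      have h := h3.const_mul (4 + 100)
      rwa [mul_zero] at h
    refine squeeze_zero_norm' ?_ hbig
    have e1 : ∀ᶠ j in atTop, ‖WLamN_e (s j) (s' j) (g1 j) (g2 j) (bc q (E j))‖ < 4 := by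
      refine he.norm.eventually (gt_mem_nhds ?_)
      rw [norm_mul, hqn]
      norm_num
    have e2 : ∀ᶠ j in atTop, ‖bc q (E j)‖ < 2 := by
      refine hb.norm.eventually (gt_mem_nhds ?_)
      rw [hqn]
      norm_num
    have e3 : ∀ᶠ j in atTop, ‖(1 - (s j + s' j) * g1 j + s j * s' j * g2 j) / (s j * s' j)‖ < 2 :=
      hc3.norm.eventually (gt_mem_nhds (by norm_num))
    have e4 : ∀ᶠ j in atTop, ‖(g1 j - (s j + s' j) * g2 j) / (s j * s' j)‖ < 1 :=
      hc4.norm.eventually (gt_mem_nhds (by norm_num))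
    have e5 : ∀ᶠ j in atTop, ‖g2 j / (s j * s' j)‖ < 1 :=
      hc5.norm.eventually (gt_mem_nhds (by norm_num))
    filter_upwards [e1, e2, e3, e4, e5, hpos] with j f1 f2 f3 f4 f5 f6
    rw [norm_div, Complex.norm_real, Real.norm_of_nonneg f6.le, ← mul_div_assoc]
    refine div_le_div_of_nonneg_right ?_ f6.le
    refine WLamN_rem (hE j) (hE0 j) (bc q (E j)) _ f1.le ?_
    intro z hz
    have hz2 : ‖z‖ ≤ 2 := by
      have h := norm_add_le (z - q) q
      rw [sub_add_cancel, hqn] at h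
      have h' : ‖z - q‖ < 1 / 4 := by simpa [dist_eq_norm] using hz
      linarith
    rw [norm_mul, RCLike.norm_conj]
    have hr : ‖WLamN_r (s j) (s' j) (g1 j) (g2 j) (bc q (E j)) z‖ ≤ 50 := by
      unfold WLamN_r
      refine (norm_add_le _ _).trans ?_
      have g1' := norm_add_le ((1 - (s j + s' j) * g1 j + s j * s' j * g2 j) / (s j * s' j))
        ((g1 j - (s j + s' j) * g2 j) / (s j * s' j) * (3 * bc q (E j) + z))
      have g2' : ‖(g1 j - (s j + s' j) * g2 j) / (s j * s' j) * (3 * bc q (E j) + z)‖ ≤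
          1 * (3 * 2 + 2) := by
        rw [norm_mul]
        refine mul_le_mul f4.le ?_ (norm_nonneg _) (by norm_num)
        refine (norm_add_le _ _).trans (add_le_add ?_ hz2)
        rw [norm_mul]
        refine mul_le_mul (by norm_num) f2.le (norm_nonneg _) (by norm_num)
      have g3' : ‖g2 j / (s j * s' j) * (6 * bc q (E j) ^ 2 + 3 * bc q (E j) * z + z ^ 2)‖ ≤
          1 * (6 * 2 ^ 2 + 3 * 2 * 2 + 2 ^ 2) := by
        rw [norm_mul]
        refine mul_le_mul f5.le ?_ (norm_nonneg _) (by norm_num)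
        refine (norm_add_le _ _).trans (add_le_add ((norm_add_le _ _).trans (add_le_add ?_ ?_)) ?_)
        · rw [norm_mul, norm_pow]
          exact mul_le_mul (by norm_num) (pow_le_pow_left₀ (norm_nonneg _) f2.le 2)
            (by positivity) (by norm_num)
        · rw [norm_mul, norm_mul]
          exact mul_le_mul (mul_le_mul (by norm_num) f2.le (norm_nonneg _) (by norm_num)) hz2
            (norm_nonneg _) (by norm_num)
        · rw [norm_pow]
          exact pow_le_pow_left₀ (norm_nonneg _) hz2 2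
      linarith
    calc ‖WLamN_r (s j) (s' j) (g1 j) (g2 j) (bc q (E j)) z‖ * ‖z‖ ≤ 50 * 2 :=
          mul_le_mul hr hz2 (norm_nonneg _) (by norm_num)
      _ = 100 := by norm_num
  have T5 : Tendsto (fun j => ((WLamN_d (s j) (s' j) (g1 j) (g2 j) (bc q (E j)) + 2) +
      WLamN_e (s j) (s' j) (g1 j) (g2 j) (bc q (E j)) *
      conj (bc q (E j)) * ((∫ z in ball q (1 / 4), (z - bc q (E j)) ^ 2 * (E j z : ℂ)) /
      (ba q (E j) : ℂ)) + (∫ z in ball q (1 / 4),
      ((WLamN_e (s j) (s' j) (g1 j) (g2 j) (bc q (E j)) * conj (z - bc q (E j)) *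
        (z - bc q (E j)) ^ 2 + WLamN_r (s j) (s' j) (g1 j) (g2 j) (bc q (E j)) z * conj z *
        (z - bc q (E j)) ^ 3)) * (E j z : ℂ)) / (ba q (E j) : ℂ)) *
      ((ba q (E j) : ℂ) / (At j : ℂ))) atTop (𝓝 0) := by
    have h := (T2.add T3).add T4
    rw [add_zero, add_zero] at h
    have hn := h.norm
    rw [norm_zero] at hn
    refine squeeze_zero_norm' ?_ hn
    filter_upwards [hpos, hle] with j f6 f7
    rw [norm_mul]
    have h7 : ‖(ba q (E j) : ℂ) / (At j : ℂ)‖ ≤ 1 := by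
      rw [norm_div, Complex.norm_real, Complex.norm_real, Real.norm_of_nonneg f6.le,
        Real.norm_of_nonneg (f6.le.trans f7)]
      exact div_le_one_of_le₀ f7 (f6.le.trans f7)
    exact mul_le_of_le_one_right (norm_nonneg _) h7
  have T6 := T1.add T5
  rw [add_zero] at T6
  refine T6.congr' ?_
  have e1 : ∀ᶠ j in atTop, s j ≠ 0 := hs.eventually_ne hq0
  have e2 : ∀ᶠ j in atTop, s' j ≠ 0 := hs'.eventually_ne (neg_ne_zero.2 hq0)
  have e3 : ∀ᶠ j in atTop, bm q (E j) ≠ 0 := hm.eventually_ne (by positivity)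
  filter_upwards [e1, e2, e3, hpos, hle] with j f1 f2 f3 f6 f7
  rw [WLamN_exp (hE j) f3 (g1 j) (g2 j) f1 f2]
  have hA : (At j : ℂ) ≠ 0 := by
    exact_mod_cast (f6.trans_le f7).ne'
  have hB : (ba q (E j) : ℂ) ≠ 0 := by
    exact_mod_cast f6.ne'
  field_simp
  ring

theorem pr_WLamN (h1 : S_WTay) (h2 : S_WThird) : S_WLamN := by
  intro r H Λ R lam eta kap h E sp sm hT hM
  have hE : ∀ j, Continuous (E j) := fun j => (hT.pl.loc j).cont
  have hE0 : ∀ j z, 0 ≤ E j z := fun j => (hT.pl.loc j).nonneg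
  obtain ⟨C, hC⟩ := h1 r H Λ R lam eta h E hT.pl
  have hg1 : Tendsto (fun j => gg1 (h j)) atTop (𝓝 0) := by
    refine squeeze_zero_norm (fun j => ?_) (a := fun j => C * R j) ?_
    · unfold gg1
      rw [norm_neg]
      exact (hC j).1
    · simpa using hT.pl.R0.const_mul C
  have hg2 : Tendsto (fun j => gg2 (h j)) atTop (𝓝 0) := by
    refine squeeze_zero_norm (fun j => ?_) (a := fun j => (C * R j) ^ 2 + C * R j ^ 2) ?_
    · unfold gg2
      rw [norm_div]
      have a1 : ‖deriv (h j) 0 ^ 2 - deriv (deriv (h j)) 0‖ ≤ (C * R j) ^ 2 + C * R j ^ 2 := by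
        refine (norm_sub_le _ _).trans (add_le_add ?_ (hC j).2.1)
        rw [norm_pow]
        exact pow_le_pow_left₀ (norm_nonneg _) (hC j).1 2
      have a2 : ‖(2 : ℂ)‖ = 2 := by norm_num
      rw [a2]
      have a3 := norm_nonneg (deriv (h j) 0 ^ 2 - deriv (deriv (h j)) 0)
      linarith
    · have h3 := ((hT.pl.R0.const_mul C).pow 2).add ((hT.pl.R0.pow 2).const_mul C)
      simpa using h3
  have hba0 : ∀ (q : ℂ) j, 0 ≤ ba q (E j) := by
    intro q j
    unfold ba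
    exact integral_nonneg fun z => mul_nonneg (by positivity) (hE0 j z)
  have hp1 : ∀ᶠ j in atTop, 0 < ba 1 (E j) := by
    filter_upwards [hT.a1.eventually_gt_atTop 0] with j hj
    exact (div_pos_iff_of_pos_right (hT.kpos j)).1 hj
  have hp2 : ∀ᶠ j in atTop, 0 < ba (-1) (E j) := by
    filter_upwards [hT.a2.eventually_gt_atTop 0] with j hj
    exact (div_pos_iff_of_pos_right (hT.kpos j)).1 hj
  have hm : ∀ q : ℂ, (∀ᶠ j in atTop, 0 < ba q (E j)) →
      Tendsto (fun j => (8 * π - bm q (E j)) / ba q (E j)) atTop (𝓝 0) →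
      Tendsto (fun j => ba q (E j)) atTop (𝓝 0) →
      Tendsto (fun j => bm q (E j)) atTop (𝓝 (8 * π)) := by
    intro q a1 a2 a3
    have a4 := (tendsto_const_nhds (x := 8 * π)).sub (a2.mul a3)
    rw [mul_zero, sub_zero] at a4
    refine a4.congr' ?_
    filter_upwards [a1] with j hj
    rw [div_mul_cancel₀ _ hj.ne']
    ring
  constructor
  · exact WLamN_gen (by norm_num) hE hE0 hM.p1 hM.p2 hg1 hg2 hT.b1 (hm 1 hp1 hT.m1 hT.a10) hp1
      (Eventually.of_forall fun j => by linarith [hba0 (-1) j]) hM.p hT.q1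
      (h2 r H Λ R lam eta kap h E hT 1 (Or.inl rfl))
  · have hsw : ∀ j z, vf (sp j) (sm j) (gg1 (h j)) (gg2 (h j)) z =
        vf (sm j) (sp j) (gg1 (h j)) (gg2 (h j)) z := by
      intro j z
      unfold vf
      ring
    simp_rw [hsw]
    exact WLamN_gen (by norm_num) hE hE0 hM.p2 (by simpa using hM.p1) hg1 hg2 hT.b2
      (hm (-1) hp2 hT.m2 hT.a20) hp2
      (Eventually.of_forall fun j => by linarith [hba0 1 j]) hM.m hT.q2
      (h2 r H Λ R lam eta kap h E hT (-1) (Or.inr rfl))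

end Pool.Agent.Vx

end

section

/-!
# MP_afe918_an, item WLamT: the `lam` term, tail
-/

set_option autoImplicit false

open Complex Set Filter Topology MeasureTheory Metric
open scoped Real ContDiff ComplexConjugate

namespace Pool.Agent.Vx

theorem WLamT_set (s : ℝ) : ball (0 : ℂ) s \ ball 0 2 = {z : ℂ | 2 ≤ ‖z‖ ∧ ‖z‖ < s} := by
  ext z
  simp only [Set.mem_sdiff, mem_ball, dist_zero_right, not_lt, mem_ofPred_eq]
  exact and_comm

/-- Radial integrals over an annulus. -/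
theorem WLamT_rad (g : ℝ → ℝ) (s : ℝ) (hts : 2 < s) :
    (∫ z in ball (0 : ℂ) s \ ball 0 2, g ‖z‖) = 2 * π * ∫ y in (2 : ℝ)..s, y * g y := by
  rw [WLamT_set]
  have hm : MeasurableSet {z : ℂ | 2 ≤ ‖z‖ ∧ ‖z‖ < s} := by measurability
  rw [← integral_indicator hm]
  have e1 : (fun z : ℂ => indicator {z : ℂ | 2 ≤ ‖z‖ ∧ ‖z‖ < s} (fun z => g ‖z‖) z) =
      fun z : ℂ => (indicator (Ico 2 s) g) ‖z‖ := by
    funext z
    by_cases hz : 2 ≤ ‖z‖ ∧ ‖z‖ < s
    · rw [indicator_of_mem (show z ∈ {z : ℂ | 2 ≤ ‖z‖ ∧ ‖z‖ < s} from hz),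
        indicator_of_mem (show ‖z‖ ∈ Ico 2 s from hz)]
    · rw [indicator_of_notMem (show z ∉ {z : ℂ | 2 ≤ ‖z‖ ∧ ‖z‖ < s} from hz),
        indicator_of_notMem (show ‖z‖ ∉ Ico 2 s from hz)]
  rw [e1, integral_fun_norm_addHaar, Complex.finrank_real_complex]
  have e2 : (∫ y in Ioi (0 : ℝ), y ^ (2 - 1) • indicator (Ico 2 s) g y) =
      ∫ y in (2 : ℝ)..s, y * g y := by
    have e3 : (fun y : ℝ => y ^ (2 - 1) • indicator (Ico 2 s) g y) =
        indicator (Ico 2 s) (fun y : ℝ => y * g y) := by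
      funext y
      by_cases hy : y ∈ Ico 2 s
      · rw [indicator_of_mem hy, indicator_of_mem hy]
        simp only [smul_eq_mul, show 2 - 1 = 1 from rfl, pow_one]
      · rw [indicator_of_notMem hy, indicator_of_notMem hy]
        simp
    rw [e3, setIntegral_indicator measurableSet_Ico]
    have e4 : Ioi (0 : ℝ) ∩ Ico 2 s = Ico 2 s := by
      apply inter_eq_right.2
      intro y hy
      exact lt_of_lt_of_le two_pos hy.1
    rw [e4, integral_Ico_eq_integral_Ioo, ← integral_Ioc_eq_integral_Ioo,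
      ← intervalIntegral.integral_of_le hts.le]
  rw [e2]
  simp [Measure.real, Complex.volume_ball]
  ring

theorem WLamT_g_int (R s : ℝ) :
    IntegrableOn (fun z : ℂ => (‖z‖ ^ 3)⁻¹ + R * ‖z‖⁻¹ + R ^ 2) (ball (0 : ℂ) s \ ball 0 2) := by
  have hK : IsCompact (closedBall (0 : ℂ) s ∩ {z : ℂ | 2 ≤ ‖z‖}) :=
    (isCompact_closedBall 0 s).inter_right (isClosed_le continuous_const continuous_norm)
  refine (ContinuousOn.integrableOn_compact hK ?_).mono_set ?_
  · have h0 : ∀ z ∈ closedBall (0 : ℂ) s ∩ {z : ℂ | 2 ≤ ‖z‖}, ‖z‖ ≠ 0 := by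
      rintro z ⟨-, hz⟩
      have hz' : 2 ≤ ‖z‖ := hz
      linarith
    refine ((ContinuousOn.inv₀ (by fun_prop) fun z hz => pow_ne_zero 3 (h0 z hz)).add
      (continuousOn_const.mul (ContinuousOn.inv₀ (by fun_prop) h0))).add continuousOn_const
  · rw [WLamT_set]
    rintro z ⟨h1, h2⟩
    exact ⟨by rw [mem_closedBall, dist_zero_right]; exact h2.le, h1⟩

theorem WLamT_int (R s : ℝ) (hR : 0 < R) (hts : 2 < s) :
    ∫ z in ball (0 : ℂ) s \ ball 0 2, ((‖z‖ ^ 3)⁻¹ + R * ‖z‖⁻¹ + R ^ 2) ≤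
      2 * π * (1 / 2 + R * s + R ^ 2 * s ^ 2) := by
  have h1 := WLamT_rad (fun y => (y ^ 3)⁻¹ + R * y⁻¹ + R ^ 2) s hts
  rw [h1]
  refine mul_le_mul_of_nonneg_left ?_ (by positivity)
  have h2 : ∫ y in (2 : ℝ)..s, y * ((y ^ 3)⁻¹ + R * y⁻¹ + R ^ 2) =
      (-s⁻¹ + R * s + R ^ 2 * (s ^ 2 / 2)) - (-(2 : ℝ)⁻¹ + R * 2 + R ^ 2 * ((2 : ℝ) ^ 2 / 2)) := by
    apply intervalIntegral.integral_eq_sub_of_hasDerivAt
      (f := fun y : ℝ => -y⁻¹ + R * y + R ^ 2 * (y ^ 2 / 2))
    · intro y hy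
      rw [uIcc_of_le hts.le] at hy
      have hy0 : y ≠ 0 := by
        have := hy.1
        intro h
        linarith
      have h3 : HasDerivAt (fun y : ℝ => -y⁻¹ + R * y + R ^ 2 * (y ^ 2 / 2))
          (-(-(y ^ 2)⁻¹) + R * 1 + R ^ 2 * ((2 : ℕ) * y ^ (2 - 1) / 2)) y :=
        (((hasDerivAt_inv hy0).neg).add ((hasDerivAt_id y).const_mul R)).add
          (((hasDerivAt_pow 2 y).div_const 2).const_mul (R ^ 2))
      refine h3.congr_deriv ?_
      have e1 : y * (y ^ 3)⁻¹ = (y ^ 2)⁻¹ := by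
        field_simp
      have e2 : y * y⁻¹ = 1 := mul_inv_cancel₀ hy0
      have e3 : y * ((y ^ 3)⁻¹ + R * y⁻¹ + R ^ 2) = y * (y ^ 3)⁻¹ + R * (y * y⁻¹) + R ^ 2 * y := by
        ring
      rw [e3, e1, e2]
      norm_num
    · apply ContinuousOn.intervalIntegrable
      rw [uIcc_of_le hts.le]
      have h0 : ∀ y ∈ Icc (2 : ℝ) s, y ≠ 0 := fun y hy h => by
        have := hy.1
        linarith
      refine continuousOn_id.mul ?_
      exact ((ContinuousOn.inv₀ (by fun_prop) fun z hz => pow_ne_zero 3 (h0 z hz)).add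
        (continuousOn_const.mul (ContinuousOn.inv₀ (by fun_prop) h0))).add continuousOn_const
  rw [h2]
  have h4 : 0 < s⁻¹ := by positivity
  have h5 : 0 ≤ R ^ 2 * s ^ 2 := by positivity
  have h6 : 0 ≤ R ^ 2 := by positivity
  linarith

theorem WLamT_cont_int {f : ℂ → ℂ} (hf : Continuous f) (s : ℝ) :
    IntegrableOn f (ball (0 : ℂ) s \ ball 0 2) := by
  refine (hf.continuousOn.integrableOn_compact (isCompact_closedBall (0 : ℂ) s)).mono_set ?_
  exact Set.sdiff_subset.trans ball_subset_closedBall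

theorem WLamT_rot (E : ℂ → ℝ) (hE : Continuous E) (s : ℝ) :
    2 * ∫ z in ball (0 : ℂ) s \ ball 0 2, z ^ 3 * conj z * (E z : ℂ) =
      ∫ z in ball (0 : ℂ) s \ ball 0 2, z ^ 3 * conj z * ((E z - E (I * z) : ℝ) : ℂ) := by
  set c : Circle := ⟨I, by simp [Submonoid.unitSphere]⟩ with hc
  have hcI : ∀ z, rotation c z = I * z := fun z => rotation_apply c z
  have h1 : MeasurePreserving (rotation c : ℂ → ℂ) := (rotation c).measurePreserving
  have h2 : MeasurableEmbedding (rotation c : ℂ → ℂ) :=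
    (rotation c).toHomeomorph.measurableEmbedding
  have h4 : (rotation c : ℂ → ℂ) ⁻¹' (ball (0 : ℂ) s \ ball 0 2) = ball (0 : ℂ) s \ ball 0 2 := by
    ext z
    simp only [Set.mem_preimage, Set.mem_sdiff, mem_ball, dist_zero_right, hcI, norm_mul,
      Complex.norm_I, one_mul]
  have h5 := h1.setIntegral_preimage_emb h2 (fun z => z ^ 3 * conj z * (E z : ℂ))
    (ball (0 : ℂ) s \ ball 0 2)
  rw [h4] at h5
  have h6 : (fun z : ℂ => rotation c z ^ 3 * conj (rotation c z) * (E (rotation c z) : ℂ)) =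
      fun z => -(z ^ 3 * conj z * (E (I * z) : ℂ)) := by
    funext z
    rw [hcI, map_mul, Complex.conj_I]
    have h7 : (I * z) ^ 3 * (-I * conj z) = -(z ^ 3 * conj z) * (I ^ 2 * I ^ 2) := by ring
    rw [h7, I_sq]
    ring
  rw [h6, integral_neg] at h5
  have h8 : (fun z : ℂ => z ^ 3 * conj z * ((E z - E (I * z) : ℝ) : ℂ)) =
      fun z => z ^ 3 * conj z * (E z : ℂ) - z ^ 3 * conj z * (E (I * z) : ℂ) := by
    funext z
    push_cast
    ring
  have hcz : Continuous fun z : ℂ => z ^ 3 * conj z :=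
    (continuous_pow 3).mul Complex.continuous_conj
  have hi1 : IntegrableOn (fun z : ℂ => z ^ 3 * conj z * (E z : ℂ)) (ball (0 : ℂ) s \ ball 0 2) :=
    WLamT_cont_int (hcz.mul (Complex.continuous_ofReal.comp hE)) s
  have hi2 : IntegrableOn (fun z : ℂ => z ^ 3 * conj z * (E (I * z) : ℂ))
      (ball (0 : ℂ) s \ ball 0 2) :=
    WLamT_cont_int (hcz.mul (Complex.continuous_ofReal.comp
      (hE.comp (continuous_const.mul continuous_id)))) s
  rw [h8, integral_sub hi1 hi2]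
  have h9 : ∫ z in ball (0 : ℂ) s \ ball 0 2, z ^ 3 * conj z * (E (I * z) : ℂ) =
      -∫ z in ball (0 : ℂ) s \ ball 0 2, z ^ 3 * conj z * (E z : ℂ) := by
    rw [← h5, neg_neg]
  rw [h9]
  ring

theorem WLamT_vf (sp sm g1 g2 z : ℂ) (h : sp * sm ≠ 0) : vf sp sm g1 g2 z =
    (z + (g1 - (sp + sm) / (sp * sm)) * z ^ 2 + (g1 - (sp + sm) * g2) / (sp * sm) * z ^ 4 +
      g2 / (sp * sm) * z ^ 5) + (1 - (sp + sm) * g1 + sp * sm * g2) / (sp * sm) * z ^ 3 := by
  obtain ⟨h1, h2⟩ := mul_ne_zero_iff.1 h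
  unfold vf
  field_simp
  ring

theorem WLamT_one (R K kap s : ℝ) (sp sm g1 g2 : ℂ) (E : ℂ → ℝ) (hR : 0 < R) (hR1 : R ≤ 1)
    (hK : 1 ≤ K) (hk : 0 ≤ kap) (hs : 2 < s) (hE : Continuous E) (h0 : sp * sm ≠ 0)
    (h2 : ‖g1 - (sp + sm) / (sp * sm)‖ ≤ K * R)
    (h3 : ‖(1 - (sp + sm) * g1 + sp * sm * g2) / (sp * sm)‖ ≤ K)
    (h4 : ‖(g1 - (sp + sm) * g2) / (sp * sm)‖ ≤ K * R) (h5 : ‖g2 / (sp * sm)‖ ≤ K * R ^ 2)
    (hEb : ∀ z : ℂ, 2 ≤ ‖z‖ → ‖z‖ < s → |E z| ≤ K * kap / ‖z‖ ^ 6)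
    (hA : ∀ z : ℂ, 2 ≤ ‖z‖ → ‖z‖ < s →
      |E z - E (I * z)| ≤ K * kap / ‖z‖ ^ 6 * (R * ‖z‖ + 1 / ‖z‖)) :
    ‖∫ z in ball (0 : ℂ) s \ ball 0 2, vf sp sm g1 g2 z * conj z * (E z : ℂ)‖ ≤
      (4 * K ^ 2) * kap * (2 * π * (1 / 2 + R * s + R ^ 2 * s ^ 2)) := by
  set c2 := g1 - (sp + sm) / (sp * sm) with hc2
  set c3 := (1 - (sp + sm) * g1 + sp * sm * g2) / (sp * sm) with hc3
  set c4 := (g1 - (sp + sm) * g2) / (sp * sm) with hc4
  set c5 := g2 / (sp * sm) with hc5
  set A := ball (0 : ℂ) s \ ball 0 2 with hAd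
  have hEC : Continuous fun z : ℂ => (E z : ℂ) := Complex.continuous_ofReal.comp hE
  have hcz : Continuous fun z : ℂ => z ^ 3 * conj z :=
    (continuous_pow 3).mul Complex.continuous_conj
  have e1 : (fun z : ℂ => vf sp sm g1 g2 z * conj z * (E z : ℂ)) = fun z =>
      (z + c2 * z ^ 2 + c4 * z ^ 4 + c5 * z ^ 5) * conj z * (E z : ℂ) +
        c3 * (z ^ 3 * conj z * (E z : ℂ)) := by
    funext z
    rw [WLamT_vf sp sm g1 g2 z h0]
    ring
  have hu : Continuous fun z : ℂ => (z + c2 * z ^ 2 + c4 * z ^ 4 + c5 * z ^ 5) * conj z *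
      (E z : ℂ) := by
    refine Continuous.mul (Continuous.mul ?_ Complex.continuous_conj) hEC
    fun_prop
  have hi1 := WLamT_cont_int hu s
  have hi2 : IntegrableOn (fun z : ℂ => c3 * (z ^ 3 * conj z * (E z : ℂ)))
      (ball (0 : ℂ) s \ ball 0 2) :=
    WLamT_cont_int (continuous_const.mul (hcz.mul hEC)) s
  have hgi := WLamT_g_int R s
  have hg := WLamT_int R s hR hs
  have hAm : MeasurableSet A := by
    rw [hAd]
    exact measurableSet_ball.diff measurableSet_ball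
  set G : ℝ := ∫ z in A, ((‖z‖ ^ 3)⁻¹ + R * ‖z‖⁻¹ + R ^ 2) with hG
  have hmem : ∀ z ∈ A, 2 ≤ ‖z‖ ∧ ‖z‖ < s := fun z hz => by
    rw [hAd, WLamT_set] at hz
    exact hz
  have b1 : ‖∫ z in A, (z + c2 * z ^ 2 + c4 * z ^ 4 + c5 * z ^ 5) * conj z * (E z : ℂ)‖ ≤
      2 * K ^ 2 * kap * G := by
    rw [hG, ← integral_const_mul]
    refine norm_integral_le_of_norm_le (hgi.const_mul _) ?_
    rw [ae_restrict_iff' hAm]
    refine Eventually.of_forall fun z hz => ?_
    obtain ⟨hz2, hzs⟩ := hmem z hz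
    have hz0 : 0 < ‖z‖ := by linarith
    set x := ‖z‖ with hx
    have n1 : ‖z + c2 * z ^ 2 + c4 * z ^ 4 + c5 * z ^ 5‖ ≤
        x + K * R * x ^ 2 + K * R * x ^ 4 + K * R ^ 2 * x ^ 5 := by
      refine (norm_add_le _ _).trans (add_le_add ((norm_add_le _ _).trans (add_le_add
        ((norm_add_le _ _).trans (add_le_add le_rfl ?_)) ?_)) ?_)
      · rw [norm_mul, norm_pow]
        exact mul_le_mul_of_nonneg_right h2 (by positivity)
      · rw [norm_mul, norm_pow]
        exact mul_le_mul_of_nonneg_right h4 (by positivity)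
      · rw [norm_mul, norm_pow]
        exact mul_le_mul_of_nonneg_right h5 (by positivity)
    have n2 : ‖(E z : ℂ)‖ ≤ K * kap / x ^ 6 := by
      rw [Complex.norm_real, Real.norm_eq_abs]
      exact hEb z hz2 hzs
    rw [norm_mul, norm_mul, RCLike.norm_conj, ← hx]
    calc ‖z + c2 * z ^ 2 + c4 * z ^ 4 + c5 * z ^ 5‖ * x * ‖(E z : ℂ)‖
        ≤ (x + K * R * x ^ 2 + K * R * x ^ 4 + K * R ^ 2 * x ^ 5) * x * (K * kap / x ^ 6) := by
          apply mul_le_mul (mul_le_mul_of_nonneg_right n1 hz0.le) n2 (norm_nonneg _)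
          positivity
      _ = K * kap * ((x ^ 4)⁻¹ + K * R * (x ^ 3)⁻¹ + K * R * x⁻¹ + K * R ^ 2) := by
          field_simp
      _ ≤ 2 * K ^ 2 * kap * ((x ^ 3)⁻¹ + R * x⁻¹ + R ^ 2) := by
          have hx1 : 1 ≤ x := by linarith
          have p1 : (x ^ 4)⁻¹ ≤ (x ^ 3)⁻¹ :=
            inv_anti₀ (by positivity) (pow_le_pow_right₀ hx1 (by norm_num))
          have p3 : 0 ≤ (x ^ 3)⁻¹ := by positivity
          have p2 : K * R * (x ^ 3)⁻¹ ≤ K * (x ^ 3)⁻¹ := by
            have := mul_le_mul_of_nonneg_right hR1 (mul_nonneg (by linarith : 0 ≤ K) p3)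
            linarith
          have p4 : (x ^ 4)⁻¹ ≤ K * (x ^ 3)⁻¹ := p1.trans (le_mul_of_one_le_left p3 hK)
          have p5 : 0 ≤ K * (R * x⁻¹) := by positivity
          have p6 : 0 ≤ K * R ^ 2 := by positivity
          have p7 : (x ^ 4)⁻¹ + K * R * (x ^ 3)⁻¹ + K * R * x⁻¹ + K * R ^ 2 ≤
              2 * K * ((x ^ 3)⁻¹ + R * x⁻¹ + R ^ 2) := by linarith
          calc K * kap * ((x ^ 4)⁻¹ + K * R * (x ^ 3)⁻¹ + K * R * x⁻¹ + K * R ^ 2)
              ≤ K * kap * (2 * K * ((x ^ 3)⁻¹ + R * x⁻¹ + R ^ 2)) :=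
                mul_le_mul_of_nonneg_left p7 (by positivity)
            _ = _ := by ring
  have b2 : ‖∫ z in A, z ^ 3 * conj z * (E z : ℂ)‖ ≤ K * kap * G := by
    have r1 := WLamT_rot E hE s
    have r2 : ‖∫ z in A, z ^ 3 * conj z * ((E z - E (I * z) : ℝ) : ℂ)‖ ≤ K * kap * G := by
      rw [hG, ← integral_const_mul]
      refine norm_integral_le_of_norm_le (hgi.const_mul _) ?_
      rw [ae_restrict_iff' hAm]
      refine Eventually.of_forall fun z hz => ?_
      obtain ⟨hz2, hzs⟩ := hmem z hz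
      have hz0 : 0 < ‖z‖ := by linarith
      set x := ‖z‖ with hx
      rw [norm_mul, norm_mul, norm_pow, RCLike.norm_conj, Complex.norm_real, Real.norm_eq_abs,
        ← hx]
      calc x ^ 3 * x * |E z - E (I * z)| ≤
          x ^ 3 * x * (K * kap / x ^ 6 * (R * x + 1 / x)) :=
            mul_le_mul_of_nonneg_left (hA z hz2 hzs) (by positivity)
        _ = K * kap * ((x ^ 3)⁻¹ + R * x⁻¹) := by
            field_simp
            ring
        _ ≤ K * kap * ((x ^ 3)⁻¹ + R * x⁻¹ + R ^ 2) := by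
            refine mul_le_mul_of_nonneg_left ?_ (by positivity)
            have : 0 ≤ R ^ 2 := by positivity
            linarith
    rw [← r1, norm_mul] at r2
    have r3 : ‖(2 : ℂ)‖ = 2 := by simp
    rw [r3] at r2
    have := norm_nonneg (∫ z in A, z ^ 3 * conj z * (E z : ℂ))
    linarith
  have hG0 : 0 ≤ G := by
    rw [hG]
    refine setIntegral_nonneg hAm fun z _ => by positivity
  rw [e1, integral_add hi1 hi2, integral_const_mul]
  refine (norm_add_le _ _).trans ?_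
  rw [norm_mul]
  have b3 : ‖c3‖ * ‖∫ z in A, z ^ 3 * conj z * (E z : ℂ)‖ ≤ K * (K * kap * G) :=
    mul_le_mul h3 b2 (norm_nonneg _) (by linarith)
  have b4 : K ^ 2 * kap * G ≤ K ^ 2 * kap * (2 * π * (1 / 2 + R * s + R ^ 2 * s ^ 2)) :=
    mul_le_mul_of_nonneg_left hg (by positivity)
  have b5 : 0 ≤ K ^ 2 * kap * G := by positivity
  have b6 : 0 ≤ K ^ 2 * kap * (2 * π * (1 / 2 + R * s + R ^ 2 * s ^ 2)) := b5.trans b4
  nlinarith [b1, b3, b4, b5, b6]

theorem WLamT_coef (C R : ℝ) (sp sm d1 d2 : ℂ) (hC : 1 ≤ C) (hR : 0 < R) (hR1 : R ≤ 1)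
    (hP : 1 / 2 ≤ ‖sp * sm‖) (hS : ‖sp + sm‖ ≤ C * R) (h1 : ‖d1‖ ≤ C * R) (h2 : ‖d2‖ ≤ C * R ^ 2) :
    ‖-d1 - (sp + sm) / (sp * sm)‖ ≤ 16 * C ^ 3 * R ∧
    ‖(1 - (sp + sm) * (-d1) + sp * sm * ((d1 ^ 2 - d2) / 2)) / (sp * sm)‖ ≤ 16 * C ^ 3 ∧
    ‖(-d1 - (sp + sm) * ((d1 ^ 2 - d2) / 2)) / (sp * sm)‖ ≤ 16 * C ^ 3 * R ∧
    ‖(d1 ^ 2 - d2) / 2 / (sp * sm)‖ ≤ 16 * C ^ 3 * R ^ 2 := by
  have hP0 : 0 < ‖sp * sm‖ := by linarith
  have hP1 : sp * sm ≠ 0 := norm_pos_iff.1 hP0
  have hinv : ‖sp * sm‖⁻¹ ≤ 2 := by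
    rw [inv_le_comm₀ hP0 two_pos]
    linarith
  have hdiv : ∀ (z : ℂ) (B : ℝ), ‖z‖ ≤ B → ‖z / (sp * sm)‖ ≤ 2 * B := by
    intro z B hz
    rw [norm_div, div_eq_mul_inv]
    have := mul_le_mul hz hinv (inv_nonneg.2 hP0.le) ((norm_nonneg z).trans hz)
    linarith
  have hC2 : C ≤ C ^ 2 := by nlinarith
  have hC3 : C ^ 2 ≤ C ^ 3 := by nlinarith [sq_nonneg C]
  have hC30 : 1 ≤ C ^ 3 := by linarith
  have hg2 : ‖(d1 ^ 2 - d2) / 2‖ ≤ C ^ 2 * R ^ 2 := by
    rw [norm_div]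
    have e1 : ‖d1 ^ 2 - d2‖ ≤ C ^ 2 * R ^ 2 + C * R ^ 2 := by
      refine (norm_sub_le _ _).trans (add_le_add ?_ h2)
      rw [norm_pow, ← mul_pow]
      exact pow_le_pow_left₀ (norm_nonneg _) h1 2
    have e2 : ‖(2 : ℂ)‖ = 2 := by simp
    rw [e2]
    have : C * R ^ 2 ≤ C ^ 2 * R ^ 2 := mul_le_mul_of_nonneg_right hC2 (by positivity)
    linarith
  have hR2 : R ^ 2 ≤ R := by nlinarith
  have hR20 : R ^ 2 ≤ 1 := by linarith
  have hSg : ‖(sp + sm) * ((d1 ^ 2 - d2) / 2)‖ ≤ C ^ 3 * R := by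
    rw [norm_mul]
    calc ‖sp + sm‖ * ‖(d1 ^ 2 - d2) / 2‖ ≤ C * R * (C ^ 2 * R ^ 2) :=
          mul_le_mul hS hg2 (norm_nonneg _) (by positivity)
      _ = C ^ 3 * R * R ^ 2 := by ring
      _ ≤ C ^ 3 * R * 1 := mul_le_mul_of_nonneg_left hR20 (by positivity)
      _ = C ^ 3 * R := mul_one _
  have hCR : C * R ≤ C ^ 3 * R := mul_le_mul_of_nonneg_right (by linarith) hR.le
  refine ⟨?_, ?_, ?_, ?_⟩
  · have e1 := hdiv _ _ hS
    have e2 := norm_sub_le (-d1) ((sp + sm) / (sp * sm))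
    rw [norm_neg] at e2
    have : 0 ≤ C ^ 3 * R := by positivity
    linarith
  · have e0 : (1 - (sp + sm) * (-d1) + sp * sm * ((d1 ^ 2 - d2) / 2)) / (sp * sm) =
        (1 + (sp + sm) * d1) / (sp * sm) + (d1 ^ 2 - d2) / 2 := by
      obtain ⟨hsp, hsm⟩ := mul_ne_zero_iff.1 hP1
      field_simp
      ring
    rw [e0]
    clear e0
    have e1 : ‖1 + (sp + sm) * d1‖ ≤ 1 + C ^ 2 := by
      refine (norm_add_le _ _).trans ?_
      rw [norm_one, norm_mul]
      have e2 : ‖sp + sm‖ * ‖d1‖ ≤ C * R * (C * R) :=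
        mul_le_mul hS h1 (norm_nonneg _) (by positivity)
      have e3 : C * R * (C * R) = C ^ 2 * R ^ 2 := by ring
      have e4 : C ^ 2 * R ^ 2 ≤ C ^ 2 * 1 := mul_le_mul_of_nonneg_left hR20 (by positivity)
      linarith
    have e5 := hdiv _ _ e1
    have e6 := norm_add_le ((1 + (sp + sm) * d1) / (sp * sm)) ((d1 ^ 2 - d2) / 2)
    have e7 : C ^ 2 * R ^ 2 ≤ C ^ 2 * 1 := mul_le_mul_of_nonneg_left hR20 (by positivity)
    linarith
  · have e1 : ‖-d1 - (sp + sm) * ((d1 ^ 2 - d2) / 2)‖ ≤ C * R + C ^ 3 * R := by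
      refine (norm_sub_le _ _).trans (add_le_add ?_ hSg)
      rwa [norm_neg]
    have e5 := hdiv _ _ e1
    have : 0 ≤ C ^ 3 * R := by positivity
    linarith
  · have e5 := hdiv _ _ hg2
    have e6 : C ^ 2 * R ^ 2 ≤ C ^ 3 * R ^ 2 := mul_le_mul_of_nonneg_right hC3 (by positivity)
    have : 0 ≤ C ^ 3 * R ^ 2 := by positivity
    linarith

theorem pr_WLamT (h1 : S_WAng) (h2 : S_WTay) : S_WLamT := by
  intro r H Λ R lam eta kap h E sp sm hT hM
  have hp := hT.pl
  obtain ⟨C1, hC1⟩ := h1 r H Λ R lam eta kap h E hT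
  obtain ⟨C2, hC2⟩ := h2 r H Λ R lam eta h E hp
  obtain ⟨C3, hC3⟩ := hM.S
  obtain ⟨C4, hC4⟩ := hT.tail
  set C : ℝ := 1 + |C1| + |C2| + |C3| + |C4| with hC
  have a1 := abs_nonneg C1
  have a2 := abs_nonneg C2
  have a3 := abs_nonneg C3
  have a4 := abs_nonneg C4
  have hCge : 1 ≤ C := by linarith
  have hC1' : C1 ≤ C := by linarith [le_abs_self C1]
  have hC2' : C2 ≤ C := by linarith [le_abs_self C2]
  have hC3' : C3 ≤ C := by linarith [le_abs_self C3]
  have hC4' : C4 ≤ C := by linarith [le_abs_self C4]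
  set K : ℝ := 16 * C ^ 3 with hK
  have hCK : C ≤ K := by
    have : C ≤ C ^ 3 := by nlinarith [sq_nonneg C, sq_nonneg (C - 1)]
    have : 0 ≤ C ^ 3 := by positivity
    linarith
  have hK1 : 1 ≤ K := by linarith
  have hP : Tendsto (fun j => ‖sp j * sm j‖) atTop (𝓝 1) := by
    have := (hM.p1.mul hM.p2).norm
    simpa using this
  have hPe : ∀ᶠ j in atTop, 1 / 2 < ‖sp j * sm j‖ := hP.eventually_const_lt (by norm_num)
  have hRe : ∀ᶠ j in atTop, R j < 1 := hp.R0.eventually_lt_const one_pos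
  refine ⟨4 * K ^ 2 * (2 * π * (1 / 2 + r / 4 + (r / 4) ^ 2)), ?_⟩
  filter_upwards [hC1, hC3, hPe, hRe] with j j1 j3 jP jR
  have hRj := hp.Rpos j
  have hkj := hT.kpos j
  have hs : 2 < r / (4 * R j) := by
    have := W_rad hp j
    rw [lt_div_iff₀ hRj] at this
    rw [lt_div_iff₀ (by positivity)]
    linarith
  have hsr : r / (4 * R j) ≤ r / R j := by
    apply div_le_div_of_nonneg_left hp.rpos.le hRj
    linarith
  obtain ⟨t1, t2, -⟩ := hC2 j
  have hL := hp.loc j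
  have hcoef := WLamT_coef C (R j) (sp j) (sm j) (deriv (h j) 0) (deriv (deriv (h j)) 0) hCge hRj
    jR.le jP.le (j3.trans (mul_le_mul_of_nonneg_right hC3' hRj.le))
    (t1.trans (mul_le_mul_of_nonneg_right hC2' hRj.le))
    (t2.trans (mul_le_mul_of_nonneg_right hC2' (by positivity)))
  obtain ⟨k2, k3, k4, k5⟩ := hcoef
  have hP0 : sp j * sm j ≠ 0 := by
    intro h0
    rw [h0, norm_zero] at jP
    linarith
  have key := WLamT_one (R j) K (kap j) (r / (4 * R j)) (sp j) (sm j) (gg1 (h j)) (gg2 (h j)) (E j)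
    hRj jR.le hK1 hkj.le hs hL.cont hP0 k2 k3 k4 k5
    (fun z hz1 hz2 => by
      rw [abs_of_nonneg (hL.nonneg z)]
      refine (hC4 j z (by rw [mem_ball, dist_zero_right]; linarith) hz1).trans ?_
      have hz0 : 0 < ‖z‖ := by linarith
      refine div_le_div_of_nonneg_right ?_ (by positivity)
      exact mul_le_mul_of_nonneg_right (hC4'.trans hCK) hkj.le)
    (fun z hz1 hz2 => by
      refine (j1 z hz1 hz2.le).trans ?_
      have hz0 : 0 < ‖z‖ := by linarith
      refine mul_le_mul_of_nonneg_right ?_ (by positivity)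
      refine div_le_div_of_nonneg_right ?_ (by positivity)
      exact mul_le_mul_of_nonneg_right (hC1'.trans hCK) hkj.le)
  refine key.trans (le_of_eq ?_)
  have e1 : R j * (r / (4 * R j)) = r / 4 := by
    field_simp
  have e2 : R j ^ 2 * (r / (4 * R j)) ^ 2 = (r / 4) ^ 2 := by
    rw [← mul_pow, e1]
  rw [e1, e2]
  ring

end Pool.Agent.Vx

end

section

/-!
# MP_afe918_an, item WLoc: local bound where the mass is small (helper81)
-/

set_option autoImplicit false

open Complex Set Filter Topology MeasureTheory Metric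
open scoped Real ContDiff ComplexConjugate

namespace Pool.Agent.Vx

lemma WLoc_int {E : ℂ → ℝ} (hc : Continuous E) (hn : ∀ z, 0 ≤ E z) {ρ M s : ℝ} (hs : 0 < s)
    (hM : ms ρ E ≤ M) {S : Set ℂ} (hS : MeasurableSet S) (hSb : S ⊆ ball 0 ρ) (p : ℂ)
    (hp : ∀ y ∈ S, s / 2 ≤ ‖p - y‖) : ‖∫ y in S, (E y : ℂ) / (p - y)‖ ≤ 2 / s * M := by
  have hE : IntegrableOn E (ball 0 ρ) :=
    (hc.continuousOn.integrableOn_compact (isCompact_closedBall 0 ρ)).mono_set
      ball_subset_closedBall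
  have h1 : ‖∫ y in S, (E y : ℂ) / (p - y)‖ ≤ ∫ y in S, 2 / s * E y := by
    apply norm_integral_le_of_norm_le ((hE.mono_set hSb).const_mul _)
    rw [ae_restrict_iff' hS]
    refine Eventually.of_forall fun y hy => ?_
    have h3 := hp y hy
    rw [norm_div, Complex.norm_real, Real.norm_eq_abs, abs_of_nonneg (hn y),
      div_le_iff₀ (by linarith)]
    have h2 : 1 ≤ 2 / s * ‖p - y‖ := by
      rw [div_mul_eq_mul_div, le_div_iff₀ hs]; linarith
    nlinarith [hn y]
  refine h1.trans ?_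
  rw [integral_const_mul]
  apply mul_le_mul_of_nonneg_left _ (by positivity)
  exact (setIntegral_mono_set hE (Eventually.of_forall fun z => hn z)
    hSb.eventuallyLE).trans hM

lemma WLoc_c4 {t : ℂ} {K : ℝ} (h : ‖t‖ ≤ K) : ‖1 / (4 * (π : ℂ)) * t‖ ≤ K := by
  rw [norm_mul]
  have h1 : ‖1 / (4 * (π : ℂ))‖ ≤ 1 := by
    rw [norm_div, norm_one, norm_mul, Complex.norm_real, Real.norm_eq_abs,
      abs_of_pos Real.pi_pos]
    have h4 : ‖(4:ℂ)‖ = 4 := by norm_num
    rw [h4, div_le_one (by positivity)]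
    linarith [Real.pi_gt_three]
  calc ‖1 / (4 * (π : ℂ))‖ * ‖t‖ ≤ 1 * ‖t‖ := mul_le_mul_of_nonneg_right h1 (norm_nonneg _)
    _ ≤ K := by rw [one_mul]; exact h

theorem pr_WLoc (h1 : S_Small) (h2 : S_Rec0) (h3 : S_Rec1) (_h4 : S_Riesz) : S_WLoc := by
  intro r H Λ R lam eta h E hp x s hs hx hmass
  obtain ⟨M, hM0, hM⟩ := W_mass hp
  have hr := hp.rpos
  have hRr : ∀ j, R j ≤ r / 8 := fun j => by have := hp.small j; linarith
  have hH0 : 0 ≤ H := by
    have h5 := hp.hH 0 0 (mem_ball_self (by have := W_rad hp 0; linarith))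
    have h6 := hp.Rpos 0
    have h7 : 0 ≤ H * R 0 := (norm_nonneg _).trans h5
    exact nonneg_of_mul_nonneg_left h7 h6
  have hΛ0 : 0 ≤ Λ := (hp.lamb 0).1.trans (hp.lamb 0).2
  have hlamR : ∀ j, lam j * R j ^ 2 ≤ Λ * (r / 8) ^ 2 := fun j =>
    mul_le_mul (hp.lamb j).2 (pow_le_pow_left₀ (hp.Rpos j).le (hRr j) 2) (by positivity) hΛ0
  have hlamR0 : ∀ j, 0 ≤ lam j * R j ^ 2 := fun j =>
    mul_nonneg (hp.lamb j).1 (sq_nonneg _)
  have hHR : ∀ j, H * R j ≤ H * (r / 8) := fun j => mul_le_mul_of_nonneg_left (hRr j) hH0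
  obtain ⟨C1, hC1⟩ : ∃ C1 : ℝ, C1 = H * (r / 8) + 2 / s + Λ * (r / 8) ^ 2 * ‖x‖ + 2 / s * M :=
    ⟨_, rfl⟩
  obtain ⟨H0, hH0def⟩ : ∃ H0 : ℝ, H0 = C1 * s + Λ * (r / 8) ^ 2 * s ^ 2 := ⟨_, rfl⟩
  have hC1n : 0 ≤ C1 := by rw [hC1]; positivity
  have hlam2 : ∀ j, lam j * R j ^ 2 * s ^ 2 ≤ H0 := fun j => by
    rw [hH0def]
    have := mul_le_mul_of_nonneg_right (hlamR j) (sq_nonneg s)
    have h5 : 0 ≤ C1 * s := by positivity
    linarith
  have hC1s : C1 * s ≤ H0 := by
    rw [hH0def]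
    have : 0 ≤ Λ * (r / 8) ^ 2 * s ^ 2 := by positivity
    linarith
  have hrad := (W_radT hp).eventually_ge_atTop (‖x‖ + s)
  by_cases hx0 : x = 0
  · subst hx0
    obtain ⟨C, hC⟩ := h1 1 H0
    refine ⟨C / s ^ 2, ?_⟩
    filter_upwards [hrad, hmass] with j hj hmj
    rw [norm_zero, zero_add] at hj
    obtain ⟨g, hg1, -, hg3⟩ := h2 (r / R j) 1 (lam j * R j ^ 2) (h j) (E j) s (hp.loc j) hs hj
    have hE := (hp.loc j).cont
    have hEn := (hp.loc j).nonneg
    have hder : ∀ w ∈ ball (0:ℂ) (s / 2), ‖deriv g w‖ * s ≤ H0 := by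
      intro w hw
      have hw' : ‖w‖ < s / 2 := by simpa using hw
      have hws : w ∈ ball (0:ℂ) s := ball_subset_ball (by linarith) hw
      rw [hg3 w hws]
      have e1 := hp.hH j w (ball_subset_ball hj hws)
      have e2 : ‖∫ y in ball (0 : ℂ) (r / R j) \ ball 0 s, (E j y : ℂ) / (w - y)‖ ≤ 2 / s * M := by
        apply WLoc_int hE hEn hs (hM j) (measurableSet_ball.diff measurableSet_ball)
          sdiff_subset
        intro y hy
        have hy' : s ≤ ‖y‖ := by simpa using hy.2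
        have := norm_sub_norm_le y w
        rw [norm_sub_rev] at this
        linarith
      have e3 := WLoc_c4 e2
      have e4 : ‖deriv (h j) w - 1 / (4 * (π : ℂ)) *
          ∫ y in ball (0 : ℂ) (r / R j) \ ball 0 s, (E j y : ℂ) / (w - y)‖ ≤ C1 := by
        refine (norm_sub_le _ _).trans ?_
        have e5 := hHR j
        rw [hC1]
        have e6 : 0 ≤ 2 / s := by positivity
        have e7 : 0 ≤ Λ * (r / 8) ^ 2 * ‖(0:ℂ)‖ := by positivity
        linarith
      exact (mul_le_mul_of_nonneg_right e4 hs.le).trans hC1s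
    have hfin := hC s (lam j * R j ^ 2) g (E j) hg1 (hlam2 j) hder hmj
    intro z hz
    have := (hfin z hz).2
    rw [le_div_iff₀ (by positivity)]
    linarith
  · have hsx : s ≤ ‖x‖ := hx.resolve_left hx0
    obtain ⟨C, hC⟩ := h1 0 H0
    refine ⟨C / s ^ 2, ?_⟩
    filter_upwards [hrad, hmass] with j hj hmj
    obtain ⟨g, hg1, -, hg3⟩ := h3 (r / R j) 1 (lam j * R j ^ 2) (h j) (E j) x s (hp.loc j) hs hsx hj
    have hE := (hp.loc j).cont
    have hEn := (hp.loc j).nonneg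
    have hder : ∀ w ∈ ball (0:ℂ) (s / 2), ‖deriv g w‖ * s ≤ H0 := by
      intro w hw
      have hw' : ‖w‖ < s / 2 := by simpa using hw
      have hws : w ∈ ball (0:ℂ) s := ball_subset_ball (by linarith) hw
      rw [hg3 w hws]
      have e1 := hp.hH j (x + w) (by
        rw [mem_ball_zero_iff]
        have := norm_add_le x w
        linarith)
      have e2 : ‖∫ y in ball (0 : ℂ) (r / R j) \ ball x s, (E j y : ℂ) / (x + w - y)‖ ≤
          2 / s * M := by
        apply WLoc_int hE hEn hs (hM j) (measurableSet_ball.diff measurableSet_ball)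
          sdiff_subset
        intro y hy
        have hy' : s ≤ ‖y - x‖ := by
          have := hy.2
          rw [mem_ball, dist_eq_norm, not_lt] at this
          exact this
        have h5 : ‖y - x‖ ≤ ‖x + w - y‖ + ‖w‖ := by
          have := norm_sub_le w (x + w - y)
          have e : w - (x + w - y) = y - x := by ring
          rw [e] at this
          linarith
        linarith
      have e3 := WLoc_c4 e2
      have e8 : ‖((1 : ℕ) : ℂ) / (x + w)‖ ≤ 2 / s := by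
        rw [Nat.cast_one, norm_div, norm_one]
        have h5 : s / 2 ≤ ‖x + w‖ := by
          have := norm_sub_norm_le x (-w)
          rw [sub_neg_eq_add, norm_neg] at this
          linarith
        rw [div_le_div_iff₀ (by linarith) hs]
        linarith
      have e9 : ‖((lam j * R j ^ 2 : ℝ) : ℂ) / 4 * conj x‖ ≤ Λ * (r / 8) ^ 2 * ‖x‖ := by
        rw [norm_mul, norm_div, Complex.norm_real, Real.norm_eq_abs, abs_of_nonneg (hlamR0 j),
          Complex.norm_conj]
        have h4 : ‖(4:ℂ)‖ = 4 := by norm_num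
        rw [h4]
        apply mul_le_mul_of_nonneg_right _ (norm_nonneg _)
        have := hlamR j
        have := hlamR0 j
        linarith
      have e4 : ‖deriv (h j) (x + w) + ((1 : ℕ) : ℂ) / (x + w) -
          ((lam j * R j ^ 2 : ℝ) : ℂ) / 4 * conj x - 1 / (4 * (π : ℂ)) *
          ∫ y in ball (0 : ℂ) (r / R j) \ ball x s, (E j y : ℂ) / (x + w - y)‖ ≤ C1 := by
        refine (norm_sub_le _ _).trans ?_
        refine (add_le_add_left (norm_sub_le _ _) _).trans ?_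
        refine (add_le_add_left (add_le_add_left (norm_add_le _ _) _) _).trans ?_
        have e5 := hHR j
        rw [hC1]
        linarith
      exact (mul_le_mul_of_nonneg_right e4 hs.le).trans hC1s
    have hmj' : ms s (fun w => E j (x + w)) ≤ 1 := by
      have e1 : ms s (fun w => E j (x + w)) = ∫ z in ball x s, E j z := by
        unfold ms
        have h5 := (measurePreserving_add_left (volume : Measure ℂ) x).setIntegral_preimage_emb
          (measurableEmbedding_addLeft x) (E j) (ball x s)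
        rw [← h5]
        congr 2
        ext w
        simp [dist_eq_norm]
      rw [e1]
      exact hmj
    have hfin := hC s (lam j * R j ^ 2) g _ hg1 (hlam2 j) hder hmj'
    intro z hz
    have hz' : z - x ∈ ball (0:ℂ) (s / 4) := by
      rw [mem_ball_zero_iff, ← dist_eq_norm]; exact hz
    have h5 := (hfin (z - x) hz').2
    rw [add_sub_cancel] at h5
    rw [le_div_iff₀ (by positivity)]
    linarith

end Pool.Agent.Vx

end

section

/-! MP_afe918_an, block W, item WM3: moments bounded. -/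

set_option autoImplicit false

open Complex Set Filter Topology MeasureTheory Metric
open scoped Real ContDiff ComplexConjugate

namespace Pool.Agent.Vx

theorem WM3_int (ρ : ℝ) (f : ℂ → ℝ) (hf : Continuous f) : IntegrableOn f (ball (0 : ℂ) ρ) :=
  (hf.continuousOn.integrableOn_compact (isCompact_closedBall _ _)).mono_set ball_subset_closedBall

theorem WM3_one : Integrable (fun z : ℂ => (1 + ‖z‖) ^ (-(3 : ℝ))) :=
  integrable_one_add_norm (by rw [Complex.finrank_real_complex]; norm_num)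

theorem WM3_pt (t : ℝ) (ht : 2 ≤ t) : t ^ 3 / t ^ 6 ≤ 27 / 8 * (1 + t) ^ (-(3 : ℝ)) := by
  have h0 : 0 < t := by linarith
  have h1 : (1 + t) ^ (-(3 : ℝ)) = ((1 + t) ^ 3)⁻¹ := by
    rw [Real.rpow_neg (by linarith)]
    norm_num
  rw [h1]
  have h2 : t ^ 3 / t ^ 6 = (t ^ 3)⁻¹ := by field_simp
  rw [h2, ← div_eq_mul_inv, inv_eq_one_div, div_le_div_iff₀ (by positivity) (by positivity)]
  have h3 : 1 + t ≤ 3 / 2 * t := by linarith
  have h4 : (1 + t) ^ 3 ≤ (3 / 2 * t) ^ 3 := pow_le_pow_left₀ (by linarith) h3 3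
  nlinarith [h4]

theorem pr_WM3 : S_WM3 := by
  intro r H Λ R lam eta kap h E hT
  obtain ⟨M, hM0, hM⟩ := W_mass hT.pl
  obtain ⟨C, hC⟩ := hT.tail
  obtain ⟨K, hK⟩ := (Metric.isBounded_range_of_tendsto _ hT.k0).bddAbove
  have hK' : ∀ j, kap j ≤ K := fun j => hK ⟨j, rfl⟩
  have hK0 : 0 ≤ K := (hT.kpos 0).le.trans (hK' 0)
  let J : ℝ := ∫ z : ℂ, (1 + ‖z‖) ^ (-(3 : ℝ))
  have hJ0 : 0 ≤ J := integral_nonneg fun z => by positivity
  let T : ℝ := 8 * M + |C| * K * (27 / 8) * J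
  have hT0 : 0 ≤ T := by positivity
  have h3 : ∀ j, ∫ z in ball (0 : ℂ) (r / R j), ‖z‖ ^ 3 * E j z ≤ T := by
    intro j
    have hE := (hT.pl.loc j).cont
    have hE0 := (hT.pl.loc j).nonneg
    have e1 : ∫ z in ball (0 : ℂ) (r / R j), ‖z‖ ^ 3 * E j z ≤
        ∫ z in ball (0 : ℂ) (r / R j), (8 * E j z +
          |C| * K * (27 / 8) * (1 + ‖z‖) ^ (-(3 : ℝ))) := by
      refine setIntegral_mono_on (WM3_int _ _ (by fun_prop))
        ((WM3_int _ _ (by fun_prop)).add (WM3_one.const_mul _).integrableOn) measurableSet_ball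
        fun z hz => ?_
      have hp : 0 ≤ |C| * K * (27 / 8) * (1 + ‖z‖) ^ (-(3 : ℝ)) := by positivity
      rcases lt_or_ge ‖z‖ 2 with hz2 | hz2
      · have e2 : ‖z‖ ^ 3 ≤ 8 := by
          calc ‖z‖ ^ 3 ≤ 2 ^ 3 := pow_le_pow_left₀ (norm_nonneg _) hz2.le 3
            _ = 8 := by norm_num
        have e3 : ‖z‖ ^ 3 * E j z ≤ 8 * E j z := mul_le_mul_of_nonneg_right e2 (hE0 z)
        linarith
      · have e2 := hC j z hz hz2
        have hzp : 0 < ‖z‖ := by linarith
        have e3 : E j z ≤ |C| * K / ‖z‖ ^ 6 := by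
          refine e2.trans (div_le_div_of_nonneg_right ?_ (by positivity))
          exact mul_le_mul (le_abs_self C) (hK' j) (hT.kpos j).le (abs_nonneg _)
        have e4 : ‖z‖ ^ 3 * E j z ≤ |C| * K * (‖z‖ ^ 3 / ‖z‖ ^ 6) := by
          calc ‖z‖ ^ 3 * E j z ≤ ‖z‖ ^ 3 * (|C| * K / ‖z‖ ^ 6) :=
                mul_le_mul_of_nonneg_left e3 (by positivity)
            _ = _ := by ring
        have e5 := mul_le_mul_of_nonneg_left (WM3_pt ‖z‖ hz2)
          (show (0 : ℝ) ≤ |C| * K by positivity)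
        have e6 := hE0 z
        linarith
    rw [integral_add (WM3_int _ _ (by fun_prop)) (WM3_one.const_mul _).integrableOn,
      integral_const_mul, integral_const_mul] at e1
    have e7 : ∫ z in ball (0 : ℂ) (r / R j), (1 + ‖z‖) ^ (-(3 : ℝ)) ≤ J :=
      setIntegral_le_integral WM3_one (Eventually.of_forall fun z => by positivity)
    have e8 : ∫ z in ball (0 : ℂ) (r / R j), E j z ≤ M := hM j
    have e9 : |C| * K * (27 / 8) * ∫ z in ball (0 : ℂ) (r / R j), (1 + ‖z‖) ^ (-(3 : ℝ)) ≤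
        |C| * K * (27 / 8) * J := mul_le_mul_of_nonneg_left e7 (by positivity)
    show _ ≤ 8 * M + |C| * K * (27 / 8) * J
    linarith
  have h2 : ∀ j, ∫ z in ball (0 : ℂ) (r / R j), ‖z‖ ^ 2 * E j z ≤ M + T := by
    intro j
    have hE := (hT.pl.loc j).cont
    have hE0 := (hT.pl.loc j).nonneg
    have e1 : ∫ z in ball (0 : ℂ) (r / R j), ‖z‖ ^ 2 * E j z ≤
        ∫ z in ball (0 : ℂ) (r / R j), (E j z + ‖z‖ ^ 3 * E j z) := by
      refine setIntegral_mono_on (WM3_int _ _ (by fun_prop)) (WM3_int _ _ (by fun_prop))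
        measurableSet_ball fun z hz => ?_
      have e2 : ‖z‖ ^ 2 ≤ 1 + ‖z‖ ^ 3 := by
        have := norm_nonneg z
        nlinarith [sq_nonneg (‖z‖ - 1), mul_nonneg this (sq_nonneg (‖z‖ - 1))]
      have e3 := mul_le_mul_of_nonneg_right e2 (hE0 z)
      linarith
    rw [integral_add (WM3_int _ _ hE) (WM3_int _ _ (by fun_prop))] at e1
    have e8 : ∫ z in ball (0 : ℂ) (r / R j), E j z ≤ M := hM j
    linarith [h3 j]
  refine ⟨T + (M + T) + M + r / 4 * T, fun j => ⟨?_, ?_, ?_, ?_⟩⟩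
  · have := h3 j
    have hr := hT.pl.rpos
    have : 0 ≤ r / 4 * T := by positivity
    linarith [h3 j]
  · have hr := hT.pl.rpos
    have : 0 ≤ r / 4 * T := by positivity
    linarith [h2 j]
  · have hr := hT.pl.rpos
    have : 0 ≤ r / 4 * T := by positivity
    linarith [hM j]
  · have hr := hT.pl.rpos
    have hR := hT.pl.Rpos j
    have hE := (hT.pl.loc j).cont
    have hE0 := (hT.pl.loc j).nonneg
    have e1 : R j * ∫ z in ball (0 : ℂ) (r / (4 * R j)), ‖z‖ ^ 4 * E j z ≤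
        r / 4 * ∫ z in ball (0 : ℂ) (r / (4 * R j)), ‖z‖ ^ 3 * E j z := by
      rw [← integral_const_mul, ← integral_const_mul]
      refine setIntegral_mono_on (WM3_int _ _ (by fun_prop)) (WM3_int _ _ (by fun_prop))
        measurableSet_ball fun z hz => ?_
      rw [mem_ball, dist_zero_right, lt_div_iff₀ (by positivity)] at hz
      have e2 : R j * ‖z‖ ≤ r / 4 := by linarith
      have e3 : 0 ≤ ‖z‖ ^ 3 * E j z := mul_nonneg (by positivity) (hE0 z)
      have e4 := mul_le_mul_of_nonneg_right e2 e3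
      calc R j * (‖z‖ ^ 4 * E j z) = R j * ‖z‖ * (‖z‖ ^ 3 * E j z) := by ring
        _ ≤ _ := e4
    have e5 : ∫ z in ball (0 : ℂ) (r / (4 * R j)), ‖z‖ ^ 3 * E j z ≤
        ∫ z in ball (0 : ℂ) (r / R j), ‖z‖ ^ 3 * E j z := by
      refine setIntegral_mono_set (WM3_int _ _ (by fun_prop))
        (Eventually.of_forall fun z => mul_nonneg (by positivity) (hE0 z)) ?_
      refine (ball_subset_ball ?_).eventuallyLE
      refine div_le_div_of_nonneg_left hr.le hR (by linarith)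
    have e6 : r / 4 * ∫ z in ball (0 : ℂ) (r / (4 * R j)), ‖z‖ ^ 3 * E j z ≤ r / 4 * T :=
      mul_le_mul_of_nonneg_left (e5.trans (h3 j)) (by positivity)
    linarith

end Pool.Agent.Vx

end

section

/-! MP_afe918_an, block W, item WMatch: matched points. -/

set_option autoImplicit false

open Complex Set Filter Topology MeasureTheory Metric
open scoped Real ContDiff ComplexConjugate

namespace Pool.Agent.Vx

/-- A square root which is continuous at 4 and equal to 2 there. -/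
noncomputable def WMatch_sq (d : ℂ) : ℂ := Complex.exp (Complex.log d / 2)

theorem WMatch_sq_sq (d : ℂ) (hd : d ≠ 0) : WMatch_sq d ^ 2 = d := by
  unfold WMatch_sq
  rw [← Complex.exp_nat_mul]
  push_cast
  rw [mul_div_cancel₀ _ (two_ne_zero), Complex.exp_log hd]

theorem WMatch_sq_t : Tendsto WMatch_sq (𝓝 4) (𝓝 2) := by
  have h1 : ContinuousAt WMatch_sq 4 := by
    unfold WMatch_sq
    have h2 : ContinuousAt Complex.log 4 := by
      refine continuousAt_clog ?_
      left; norm_num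
    exact Complex.continuous_exp.continuousAt.comp (h2.div_const 2)
  have h3 : WMatch_sq 4 = 2 := by
    unfold WMatch_sq
    have h4 : Complex.log 4 = ((Real.log 4 : ℝ) : ℂ) := by
      rw [Complex.ofReal_log (by norm_num)]; norm_num
    rw [h4]
    have h5 : ((Real.log 4 : ℝ) : ℂ) / 2 = ((Real.log 2 : ℝ) : ℂ) := by
      rw [show (4 : ℝ) = 2 ^ 2 by norm_num, Real.log_pow]
      push_cast
      ring
    rw [h5, ← Complex.ofReal_exp, Real.exp_log (by norm_num)]
    norm_num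
  have h6 := h1.tendsto
  rwa [h3] at h6

theorem pr_WMatch (h1 : S_WExp) (h2 : S_WS1) : S_WMatch := by
  intro r H Λ R lam eta kap h E hT
  obtain ⟨hE, -⟩ := h1 r H Λ R lam eta kap h E hT
  obtain ⟨C, hC⟩ := h2 r H Λ R lam eta kap h E hT
  have hpi : (π : ℂ) ≠ 0 := by exact_mod_cast Real.pi_ne_zero
  -- notation
  obtain ⟨A, hA⟩ : ∃ A : ℕ → ℝ, ∀ j, A j = ba 1 (E j) + ba (-1) (E j) := ⟨_, fun j => rfl⟩
  obtain ⟨P, hP⟩ : ∃ P : ℕ → ℂ, ∀ j, P j = bc 1 (E j) := ⟨_, fun j => rfl⟩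
  obtain ⟨Q, hQ⟩ : ∃ Q : ℕ → ℂ, ∀ j, Q j = bc (-1) (E j) := ⟨_, fun j => rfl⟩
  obtain ⟨S, hS⟩ : ∃ S : ℕ → ℂ, ∀ j, S j = mo (r / (4 * R j)) (E j) (fun z => z) / (8 * π) :=
    ⟨_, fun j => rfl⟩
  obtain ⟨T, hT2⟩ : ∃ T : ℕ → ℂ, ∀ j, T j = mo (r / (4 * R j)) (E j) (fun z => z ^ 2) / (8 * π) :=
    ⟨_, fun j => rfl⟩
  have hPt : Tendsto P atTop (𝓝 1) := by
    have : P = fun j => bc 1 (E j) := funext hP
    rw [this]; exact hT.b1
  have hQt : Tendsto Q atTop (𝓝 (-1)) := by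
    have : Q = fun j => bc (-1) (E j) := funext hQ
    rw [this]; exact hT.b2
  have hAt : Tendsto A atTop (𝓝 0) := by
    have : A = fun j => ba 1 (E j) + ba (-1) (E j) := funext hA
    rw [this]; simpa using hT.a10.add hT.a20
  have hApos : ∀ᶠ j in atTop, 0 < A j := by
    filter_upwards [hT.a1.eventually_gt_atTop 0, hT.a2.eventually_gt_atTop 0] with j e1 e2
    have hk := hT.kpos j
    rw [hA]
    have e3 : 0 < ba 1 (E j) := by
      rcases div_pos_iff.mp e1 with h | h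
      · exact h.1
      · linarith [h.2]
    have e4 : 0 < ba (-1) (E j) := by
      rcases div_pos_iff.mp e2 with h | h
      · exact h.1
      · linarith [h.2]
    linarith
  have hAC : Tendsto (fun j => ((A j : ℝ) : ℂ)) atTop (𝓝 0) := by
    have e0 := (Complex.continuous_ofReal.tendsto 0).comp hAt
    rw [Complex.ofReal_zero] at e0
    exact e0
  have hAne : ∀ᶠ j in atTop, ((A j : ℝ) : ℂ) ≠ 0 := by
    filter_upwards [hApos] with j hj
    exact_mod_cast hj.ne'
  have hS1 : Tendsto (fun j => (S j - (P j + Q j)) / (A j : ℂ)) atTop (𝓝 0) := by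
    have e1 := (hE 1 le_rfl (by norm_num)).div_const (8 * π : ℂ)
    rw [zero_div] at e1
    refine e1.congr fun j => ?_
    rw [hS, hP, hQ, hA]
    simp only [pow_one]
    rw [div_right_comm, sub_div, mul_div_cancel_left₀ _ (by simp)]
  have hT1 : Tendsto (fun j => (T j - (P j ^ 2 + Q j ^ 2)) / (A j : ℂ)) atTop (𝓝 0) := by
    have e1 := (hE 2 (by norm_num) (by norm_num)).div_const (8 * π : ℂ)
    rw [zero_div] at e1
    refine e1.congr fun j => ?_
    rw [hT2, hP, hQ, hA]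
    rw [div_right_comm, sub_div, mul_div_cancel_left₀ _ (by simp)]
  have hSt : Tendsto S atTop (𝓝 0) := by
    have e1 := (hS1.mul hAC).add (hPt.add hQt)
    simp only [mul_zero, zero_add, add_neg_cancel] at e1
    refine e1.congr' ?_
    filter_upwards [hAne] with j hj
    rw [div_mul_cancel₀ _ hj]; ring
  -- the discriminant
  obtain ⟨D, hD⟩ : ∃ D : ℕ → ℂ, ∀ j, D j = 2 * T j - S j ^ 2 := ⟨_, fun j => rfl⟩
  have hD1 : Tendsto (fun j => (D j - (P j - Q j) ^ 2) / (A j : ℂ)) atTop (𝓝 0) := by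
    have e1 := (hT1.const_mul 2).sub (hS1.mul (hSt.add (hPt.add hQt)))
    simp only [mul_zero, zero_mul, sub_zero] at e1
    refine e1.congr fun j => ?_
    rw [hD]; ring
  have hDt : Tendsto D atTop (𝓝 4) := by
    have e1 := (hD1.mul hAC).add ((hPt.sub hQt).pow 2)
    have e2 : (0 : ℂ) * 0 + (1 - -1) ^ 2 = 4 := by norm_num
    rw [e2] at e1
    refine e1.congr' ?_
    filter_upwards [hAne] with j hj
    rw [div_mul_cancel₀ _ hj]; ring
  obtain ⟨W, hW⟩ : ∃ W : ℕ → ℂ, ∀ j, W j = WMatch_sq (D j) := ⟨_, fun j => rfl⟩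
  have hWt : Tendsto W atTop (𝓝 2) := by
    have : W = fun j => WMatch_sq (D j) := funext hW
    rw [this]; exact WMatch_sq_t.comp hDt
  have hDne : ∀ᶠ j in atTop, D j ≠ 0 := hDt.eventually_ne (by norm_num)
  have hW2 : ∀ᶠ j in atTop, W j ^ 2 = D j := by
    filter_upwards [hDne] with j hj
    rw [hW, WMatch_sq_sq _ hj]
  have hden : Tendsto (fun j => W j + (P j - Q j)) atTop (𝓝 4) := by
    have e1 := hWt.add (hPt.sub hQt)
    have e2 : (2 : ℂ) + (1 - -1) = 4 := by norm_num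
    rwa [e2] at e1
  have hdne : ∀ᶠ j in atTop, W j + (P j - Q j) ≠ 0 := hden.eventually_ne (by norm_num)
  have hW3 : Tendsto (fun j => (W j - (P j - Q j)) / (A j : ℂ)) atTop (𝓝 0) := by
    have e1 := hD1.mul (hden.inv₀ (by norm_num))
    rw [zero_mul] at e1
    refine e1.congr' ?_
    filter_upwards [hW2, hdne] with j e2 e3
    rw [← e2]
    have e4 : W j ^ 2 - (P j - Q j) ^ 2 = (W j - (P j - Q j)) * (W j + (P j - Q j)) := by ring
    rw [e4]
    field_simp
  refine ⟨fun j => (S j + W j) / 2, fun j => (S j - W j) / 2, ?_⟩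
  have hm1 : ∀ j, mo (r / (4 * R j)) (E j) (fun z => z) = 8 * π * S j := by
    intro j; rw [hS]; field_simp
  refine ⟨?_, ?_, ?_, ?_, ?_, ?_, ?_⟩
  · refine Eventually.of_forall fun j => ?_
    rw [hm1]
    show 8 * π * S j = 8 * π * ((S j + W j) / 2 + (S j - W j) / 2)
    ring
  · filter_upwards [hW2] with j hj
    show _ = 8 * π * (((S j + W j) / 2) ^ 2 + ((S j - W j) / 2) ^ 2)
    have e1 : ((S j + W j) / 2) ^ 2 + ((S j - W j) / 2) ^ 2 = (S j ^ 2 + W j ^ 2) / 2 := by ring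
    rw [e1, hj, hD, hT2]
    field_simp
    ring
  · have e1 := (hS1.add hW3).div_const 2
    simp only [add_zero, zero_div] at e1
    refine e1.congr fun j => ?_
    rw [← hP, ← hA]
    ring
  · have e1 := (hS1.sub hW3).div_const 2
    simp only [sub_zero, zero_div] at e1
    refine e1.congr fun j => ?_
    rw [← hQ, ← hA]
    ring
  · have e1 := (hSt.add hWt).div_const 2
    have e2 : ((0 : ℂ) + 2) / 2 = 1 := by norm_num
    rwa [e2] at e1
  · have e1 := (hSt.sub hWt).div_const 2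
    have e2 : ((0 : ℂ) - 2) / 2 = -1 := by norm_num
    rwa [e2] at e1
  · refine ⟨C / (8 * π), ?_⟩
    filter_upwards [hC] with j hj
    have e1 : (S j + W j) / 2 + (S j - W j) / 2 = S j := by ring
    show ‖(S j + W j) / 2 + (S j - W j) / 2‖ ≤ C / (8 * π) * R j
    rw [e1]
    rw [hm1, norm_mul] at hj
    have e2 : ‖(8 * π : ℂ)‖ = 8 * π := by
      rw [norm_mul, Complex.norm_real, Real.norm_of_nonneg Real.pi_pos.le]
      norm_num
    rw [e2] at hj
    rw [div_mul_eq_mul_div, le_div_iff₀ (by positivity)]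
    linarith

end Pool.Agent.Vx

end

section

/-!
# MP_afe918_an, item WMom: the second moment is bounded (helper81)
-/

set_option autoImplicit false

open Complex Set Filter Topology MeasureTheory Metric
open scoped Real ContDiff ComplexConjugate

namespace Pool.Agent.Vx

lemma WMom_int : Integrable (fun z : ℂ => (1 + ‖z‖) ^ (-(3:ℝ))) := by
  apply integrable_one_add_norm
  rw [Complex.finrank_real_complex]
  norm_num

lemma WMom_pt {e k C t : ℝ} (he : 0 ≤ e) (hk : 0 ≤ k) (hk1 : k ≤ 1) (ht : 0 ≤ t)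
    (h : 2 ≤ t → e ≤ C * k / t ^ 5) :
    t ^ 2 * e ≤ 4 * e + 8 * |C| * (1 + t) ^ (-(3:ℝ)) := by
  have h0 : 0 ≤ 8 * |C| * (1 + t) ^ (-(3:ℝ)) := by positivity
  rcases lt_or_ge t 2 with h2 | h2
  · have : t ^ 2 ≤ 4 := by nlinarith
    nlinarith
  · have h3 := h h2
    have htp : 0 < t := by linarith
    have h4 : (1 + t) ^ (-(3:ℝ)) = 1 / (1 + t) ^ 3 := by
      rw [Real.rpow_neg (by linarith), one_div]
      norm_num
    have h5 : t ^ 2 * e ≤ |C| / t ^ 3 := by
      calc t ^ 2 * e ≤ t ^ 2 * (C * k / t ^ 5) := mul_le_mul_of_nonneg_left h3 (by positivity)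
        _ = C * k / t ^ 3 := by field_simp
        _ ≤ |C| / t ^ 3 := by
            apply div_le_div_of_nonneg_right _ (by positivity)
            calc C * k ≤ |C| * k := mul_le_mul_of_nonneg_right (le_abs_self C) hk
              _ ≤ |C| * 1 := mul_le_mul_of_nonneg_left hk1 (abs_nonneg C)
              _ = |C| := mul_one _
    have h6 : |C| / t ^ 3 ≤ 8 * |C| * (1 / (1 + t) ^ 3) := by
      rw [mul_one_div, div_le_div_iff₀ (by positivity) (by positivity)]
      have h7 : (1 + t) ^ 3 ≤ (2 * t) ^ 3 := pow_le_pow_left₀ (by linarith) (by linarith) 3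
      have h8 : (2 * t) ^ 3 = 8 * t ^ 3 := by ring
      rw [h8] at h7
      have := mul_le_mul_of_nonneg_left h7 (abs_nonneg C)
      linarith
    rw [h4]
    linarith

theorem pr_WMom (h1 : S_WTail1) (h2 : S_WKap) : S_WMom := by
  intro r H Λ R lam eta h E hw
  obtain ⟨C, hC⟩ := h1 r H Λ R lam eta h E hw
  obtain ⟨hk1, hk2, -⟩ := h2 r H Λ R lam eta h E hw
  obtain ⟨M, hM0, hM⟩ := W_mass hw.pl
  refine ⟨4 * M + 8 * |C| * ∫ z : ℂ, (1 + ‖z‖) ^ (-(3:ℝ)), ?_⟩
  filter_upwards [hC, hk2.eventually_le_const one_pos] with j hj hkj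
  have hE := (hw.pl.loc j).cont
  have hEn := (hw.pl.loc j).nonneg
  have hi : ∀ f : ℂ → ℝ, Continuous f → IntegrableOn f (ball 0 (r / R j)) := fun f hf =>
    (hf.continuousOn.integrableOn_compact (isCompact_closedBall 0 _)).mono_set
      ball_subset_closedBall
  have hi1 : IntegrableOn (fun z => 4 * E j z) (ball 0 (r / R j)) := (hi _ hE).const_mul 4
  have hi2 : IntegrableOn (fun z : ℂ => 8 * |C| * (1 + ‖z‖) ^ (-(3:ℝ))) (ball 0 (r / R j)) :=
    (WMom_int.const_mul _).integrableOn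
  have hle : ∫ z in ball (0 : ℂ) (r / R j), ‖z‖ ^ 2 * E j z ≤
      ∫ z in ball (0 : ℂ) (r / R j), (4 * E j z + 8 * |C| * (1 + ‖z‖) ^ (-(3:ℝ))) := by
    apply setIntegral_mono_on (hi _ (by fun_prop)) (hi1.add hi2) measurableSet_ball
    intro z hz
    exact WMom_pt (hEn z) (hk1 j).le hkj (norm_nonneg z) (fun h2 => hj.1 z hz h2)
  refine hle.trans ?_
  rw [integral_add hi1 hi2, integral_const_mul, integral_const_mul]
  have h3 : ∫ z in ball (0 : ℂ) (r / R j), E j z ≤ M := hM j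
  have h4 : ∫ z in ball (0 : ℂ) (r / R j), (1 + ‖z‖) ^ (-(3:ℝ)) ≤
      ∫ z : ℂ, (1 + ‖z‖) ^ (-(3:ℝ)) := by
    apply setIntegral_le_integral WMom_int
    exact Eventually.of_forall fun z => by positivity
  have h5 := mul_le_mul_of_nonneg_left h4 (by positivity : 0 ≤ 8 * |C|)
  linarith

end Pool.Agent.Vx

end

section

/-!
# MP_afe918_an, item WNo0: no concentration at the vortex
-/

set_option autoImplicit false

open Complex Set Filter Topology MeasureTheory Metric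
open scoped Real ContDiff ComplexConjugate

namespace Pool.Agent.Vx

theorem WNo0_int {f : ℂ → ℝ} (hf : Continuous f) (s : ℝ) : IntegrableOn f (ball (0 : ℂ) s) :=
  (hf.continuousOn.integrableOn_compact (isCompact_closedBall (0 : ℂ) s)).mono_set
    ball_subset_closedBall

theorem WNo0_est {E : ℂ → ℝ} (hE : Continuous E) (h0 : ∀ z, 0 ≤ E z) (s : ℝ) (w : ℂ)
    (hw : w ∈ ball (0 : ℂ) 1) :
    ‖∫ y in ball (0 : ℂ) s \ ball 0 2, (E y : ℂ) / (w - y)‖ ≤ ms s E := by
  have hi : IntegrableOn E (ball (0 : ℂ) s \ ball 0 2) := (WNo0_int hE s).mono_set diff_subset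
  have h1 : ‖∫ y in ball (0 : ℂ) s \ ball 0 2, (E y : ℂ) / (w - y)‖ ≤
      ∫ y in ball (0 : ℂ) s \ ball 0 2, E y := by
    refine norm_integral_le_of_norm_le hi ?_
    refine (ae_restrict_iff' (measurableSet_ball.diff measurableSet_ball)).2
      (Eventually.of_forall fun y hy => ?_)
    have h2 : ‖w‖ < 1 := by simpa using hw
    have h3 : 2 ≤ ‖y‖ := by simpa using hy.2
    have h4 : 1 ≤ ‖w - y‖ := by
      have h5 : ‖y‖ ≤ ‖w‖ + ‖w - y‖ := by
        calc ‖y‖ = ‖w - (w - y)‖ := by ring_nf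
          _ ≤ ‖w‖ + ‖w - y‖ := norm_sub_le _ _
      linarith
    rw [norm_div, Complex.norm_real, Real.norm_eq_abs, abs_of_nonneg (h0 y)]
    exact div_le_self (h0 y) h4
  refine h1.trans ?_
  unfold ms
  exact setIntegral_mono_set (WNo0_int hE s) (Eventually.of_forall h0)
    (Eventually.of_forall fun _ hx => hx.1)

theorem pr_WNo0 (h1 : S_Rec0) (h2 : S_Quant) : S_WNo0 := by
  intro r H Λ R lam eta h E hp hcon
  obtain ⟨M, hM0, hM⟩ := W_mass hp
  have hH : 0 ≤ H := by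
    have h3 := hp.hH 0 0 (mem_ball_self (div_pos hp.rpos (hp.Rpos 0)))
    have h4 : 0 ≤ H * R 0 := (norm_nonneg _).trans h3
    by_contra h5
    push Not at h5
    nlinarith [hp.Rpos 0]
  have hg : ∀ j, ∃ g : ℂ → ℂ, Loc 2 1 (lam j * R j ^ 2) g (E j) ∧
      ∀ w ∈ ball (0 : ℂ) (2 / 2), ‖deriv g w‖ ≤ H * r / 8 + M := by
    intro j
    have hrad := W_rad hp j
    obtain ⟨g, hg1, -, hg3⟩ := h1 (r / R j) 1 (lam j * R j ^ 2) (h j) (E j) 2 (hp.loc j)
      two_pos (by linarith)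
    refine ⟨g, hg1, fun w hw => ?_⟩
    have hw1 : w ∈ ball (0 : ℂ) 1 := by simpa using hw
    have hw' : ‖w‖ < 1 := by simpa using hw1
    rw [hg3 w (by simp only [mem_ball, dist_zero_right]; linarith)]
    have h3 : ‖deriv (h j) w‖ ≤ H * r / 8 := by
      have h4 := hp.hH j w (by simp only [mem_ball, dist_zero_right]; linarith)
      have h5 := hp.small j
      nlinarith
    have h4 := WNo0_est hg1.cont hg1.nonneg (r / R j) w hw1
    have h5 : ‖(1 / (4 * π) : ℂ)‖ ≤ 1 := by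
      rw [norm_div, norm_mul, norm_one, Complex.norm_real, Real.norm_eq_abs,
        abs_of_pos Real.pi_pos]
      rw [div_le_one (by norm_num; positivity)]
      norm_num
      linarith [Real.pi_gt_three]
    calc ‖deriv (h j) w - 1 / (4 * π) *
          ∫ y in ball (0 : ℂ) (r / R j) \ ball 0 2, (E j y : ℂ) / (w - y)‖
        ≤ ‖deriv (h j) w‖ + ‖(1 / (4 * π) : ℂ) *
          ∫ y in ball (0 : ℂ) (r / R j) \ ball 0 2, (E j y : ℂ) / (w - y)‖ := norm_sub_le _ _
      _ ≤ H * r / 8 + M := by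
          refine add_le_add h3 ?_
          rw [norm_mul]
          calc ‖(1 / (4 * π) : ℂ)‖ *
                ‖∫ y in ball (0 : ℂ) (r / R j) \ ball 0 2, (E j y : ℂ) / (w - y)‖
              ≤ 1 * M := mul_le_mul h5 (h4.trans (hM j)) (norm_nonneg _) zero_le_one
            _ = M := one_mul M
  choose g hg1 hg2 using hg
  have h3 := h2 2 (H * r / 8 + M) (Λ * (r / 8) ^ 2) M 1 (fun j => lam j * R j ^ 2) g E hg1
    (fun j => ?_) hg2 (fun j => ?_) hcon 1 one_pos (4 * π) (by positivity)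
  · obtain ⟨j, hj⟩ := h3.exists
    rw [hp.half j] at hj
    push_cast at hj
    nlinarith [Real.pi_pos]
  · have h4 := hp.small j
    have h5 := hp.Rpos j
    refine mul_le_mul (hp.lamb j).2 (pow_le_pow_left₀ h5.le (by linarith) 2) (by positivity)
      ((hp.lamb j).1.trans (hp.lamb j).2)
  · refine le_trans ?_ (hM j)
    unfold ms
    have hrad := W_rad hp j
    exact setIntegral_mono_set (WNo0_int (hg1 j).cont _) (Eventually.of_forall (hg1 j).nonneg)
      (Eventually.of_forall fun _ hx => ball_subset_ball (by linarith) hx)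

end Pool.Agent.Vx

end

section

/-!
# MP_afe918_an, item PLTB: a rescaled sequence consists of two bubbles
-/

set_option autoImplicit false

namespace Pool.Agent.Vx

theorem pr_PLTB (h1 : S_WPX) (h2 : S_WTB) : S_PLTB := by
  intro r H Λ R lam eta h E hPL
  obtain ⟨φ, kap, hφ, hPX⟩ := h1 r H Λ R lam eta h E hPL
  exact ⟨φ, kap, hφ, h2 _ _ _ _ _ _ _ _ _ hPX⟩

end Pool.Agent.Vx

end

section

/-!
# MP_afe918_an, block W, item WPX: all estimates along a subsequence
-/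

set_option autoImplicit false

open Complex Set Filter Topology MeasureTheory Metric
open scoped Real ContDiff ComplexConjugate

namespace Pool.Agent.Vx

theorem pr_WPX' (h1 : S_WTwo) (h3 : S_WKap) (h4 : S_WTail2) (h5 : S_WD) : S_WPX := by
  intro r H Λ R lam eta h E hp
  have hw := h1 _ _ _ _ _ _ _ _ hp
  obtain ⟨k1, k2, k3, k4⟩ := h3 _ _ _ _ _ _ _ _ hw
  have hc := fun j => (hp.loc j).cont
  have h8 := fun j => W_rad hp j
  refine ⟨id, fun j => E j (2 * I), strictMono_id, ?_⟩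
  refine
    { pw := hw
      kpos := k1
      k0 := k2
      upc := fun s hs => ?_
      lowc := fun s hs => ?_
      tail := ?_
      eta := ?_
      dd := ?_ }
  · refine W_evall (fun j C => ∀ z ∈ ball (0 : ℂ) 4, s ≤ ‖z - 1‖ → s ≤ ‖z + 1‖ →
      E j z ≤ C * E j (2 * I)) ?_ ?_ ?_
    · intro j C C' hC hj z hz a1 a2
      refine (hj z hz a1 a2).trans ?_
      have := k1 j
      gcongr
    · intro j
      obtain ⟨C, hC⟩ := W_bdd (E j) (hc j) 4 _ (k1 j)
      exact ⟨C, fun z hz _ _ => hC z (ball_subset_closedBall hz)⟩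
    · obtain ⟨C, hC⟩ := k3 s hs
      refine ⟨C, hC.mono fun j hj z hz => hj z ?_⟩
      exact ball_subset_ball (by norm_num) hz
  · obtain ⟨c, hc0, hC⟩ := k4 s hs
    refine ⟨c, hc0, hC.mono fun j hj z hz => hj z ?_⟩
    exact ball_subset_ball (by norm_num) hz
  · refine W_evall (fun j C => ∀ z ∈ ball (0 : ℂ) (r / R j), 2 ≤ ‖z‖ →
      E j z ≤ C * E j (2 * I) / ‖z‖ ^ 6) ?_ ?_ ?_
    · intro j C C' hC hj z hz a1
      refine (hj z hz a1).trans ?_
      have := k1 j
      gcongr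
    · intro j
      obtain ⟨C, hC⟩ := W_bdd (E j) (hc j) (r / R j) _ (k1 j)
      refine ⟨C * (r / R j) ^ 6, fun z hz hz2 => ?_⟩
      have hz0 : 0 < ‖z‖ := by linarith
      rw [le_div_iff₀ (by positivity)]
      have e1 := hC z (ball_subset_closedBall hz)
      have e2 : 0 ≤ E j z := (hp.loc j).nonneg z
      have e3 : ‖z‖ ≤ r / R j := by
        have := mem_ball_zero_iff.1 hz
        exact this.le
      calc E j z * ‖z‖ ^ 6 ≤ E j z * (r / R j) ^ 6 := by gcongr
        _ ≤ (C * E j (2 * I)) * (r / R j) ^ 6 := by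
            have : 0 ≤ r / R j := by linarith [h8 j]
            gcongr
        _ = C * (r / R j) ^ 6 * E j (2 * I) := by ring
    · obtain ⟨C, hC⟩ := h4 _ _ _ _ _ _ _ _ hw
      exact ⟨C, hC.mono fun j hj => hj.1⟩
  · refine W_evall (fun j C => eta j ≤ C * E j (2 * I) * R j ^ 4) ?_ ?_ ?_
    · intro j C C' hC hj
      refine hj.trans ?_
      have := k1 j
      have := hp.Rpos j
      gcongr
    · intro j
      refine ⟨eta j / (E j (2 * I) * R j ^ 4), le_of_eq ?_⟩
      have := k1 j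
      have := hp.Rpos j
      field_simp
    · obtain ⟨C, hC⟩ := h4 _ _ _ _ _ _ _ _ hw
      exact ⟨C, hC.mono fun j hj => hj.2⟩
  · refine W_evall (fun j C => |16 * π - ms (r / R j) (E j)| ≤ C * R j ^ 2) ?_ ?_ ?_
    · intro j C C' hC hj
      refine hj.trans ?_
      gcongr
    · intro j
      refine ⟨|16 * π - ms (r / R j) (E j)| / R j ^ 2, le_of_eq ?_⟩
      have := hp.Rpos j
      field_simp
    · exact h5 _ _ _ _ _ _ _ _ hw

theorem pr_WPX (h1 : S_WTwo) (_h2 : S_WUB) (h3 : S_WKap) (h4 : S_WTail2) (h5 : S_WD) : S_WPX :=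
  pr_WPX' h1 h3 h4 h5

end Pool.Agent.Vx

end

section

/-!
# MP_afe918_an, item WQ: a concentration point carries at least `8π`
-/

set_option autoImplicit false

open Complex Set Filter Topology MeasureTheory Metric
open scoped Real ContDiff ComplexConjugate

namespace Pool.Agent.Vx

theorem WQ_ball (f : ℂ → ℝ) (x : ℂ) (s : ℝ) :
    ∫ z in ball x s, f z = ms s (fun z => f (x + z)) := by
  have h1 : MeasurePreserving (fun z : ℂ => x + z) volume volume :=
    measurePreserving_add_left volume x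
  have h2 : MeasurableEmbedding (fun z : ℂ => x + z) := measurableEmbedding_addLeft x
  have h3 : (fun z : ℂ => x + z) ⁻¹' (ball x s) = ball 0 s := by
    ext z
    simp [mem_ball, dist_eq_norm]
  unfold ms
  rw [← h3, h1.setIntegral_preimage_emb h2]

theorem WQ_int {f : ℂ → ℝ} (hf : Continuous f) (q : ℂ) (s : ℝ) :
    IntegrableOn f (ball q s) :=
  (hf.continuousOn.integrableOn_compact (isCompact_closedBall q s)).mono_set ball_subset_closedBall

theorem pr_WQ (h1 : S_Rec1) (h2 : S_Quant) : S_WQ := by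
  intro r H Λ R lam eta h E hp q hq hc s hs ε hε
  obtain ⟨M, hM0, hM⟩ := W_mass hp
  have hqn : 0 < ‖q‖ := norm_pos_iff.mpr hq
  set ρ : ℝ := min ‖q‖ 1 with hρ
  have hρ0 : 0 < ρ := lt_min hqn one_pos
  have hρq : ρ ≤ ‖q‖ := min_le_left _ _
  obtain ⟨j0, hj0⟩ := eventually_atTop.1 ((W_radT hp).eventually_ge_atTop (‖q‖ + ρ))
  have hrec : ∀ j, ∃ g : ℂ → ℂ, Loc ρ 0 (lam (j + j0) * R (j + j0) ^ 2) g
      (fun w => E (j + j0) (q + w)) ∧ ∀ w ∈ ball (0 : ℂ) ρ, deriv g w =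
      deriv (h (j + j0)) (q + w) + ((1 : ℕ) : ℂ) / (q + w) -
        (lam (j + j0) * R (j + j0) ^ 2 : ℝ) / 4 * conj q -
      1 / (4 * π) * ∫ y in ball (0 : ℂ) (r / R (j + j0)) \ ball q ρ,
        (E (j + j0) y : ℂ) / (q + w - y) := by
    intro j
    obtain ⟨g, hg1, -, hg2⟩ := h1 (r / R (j + j0)) 1 (lam (j + j0) * R (j + j0) ^ 2) (h (j + j0))
      (E (j + j0)) q ρ (hp.loc _) hρ0 hρq (hj0 _ (Nat.le_add_left _ _))
    refine ⟨g, hg1, ?_⟩
    intro w hw
    rw [hg2 w hw]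
  choose g hgL hgd using hrec
  have hE0 : ∀ j z, 0 ≤ E j z := fun j z => (hp.loc j).nonneg z
  have hEc : ∀ j, Continuous (E j) := fun j => (hp.loc j).cont
  have hR8 : ∀ j, R j ≤ r / 8 := fun j => by linarith [hp.small j]
  have hΛ0 : 0 ≤ Λ := (hp.lamb 0).1.trans (hp.lamb 0).2
  have hr8 : 0 ≤ r / 8 := by linarith [hp.rpos]
  have hlam : ∀ j, lam j * R j ^ 2 ≤ Λ * (r / 8) ^ 2 := by
    intro j
    have := hp.Rpos j
    exact mul_le_mul (hp.lamb j).2 (pow_le_pow_left₀ this.le (hR8 j) 2) (by positivity) hΛ0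
  have hq1 := h2 ρ (|H| * (r / 8) + 2 / ‖q‖ + Λ * (r / 8) ^ 2 * ‖q‖ + 2 / ρ * M)
    (Λ * (r / 8) ^ 2) M 0 (fun j => lam (j + j0) * R (j + j0) ^ 2) g
    (fun j w => E (j + j0) (q + w)) hgL (fun j => hlam _) ?_ ?_ ?_ s hs ε hε
  · obtain ⟨J, hJ⟩ := eventually_atTop.1 hq1
    refine eventually_atTop.2 ⟨J + j0, fun j hj => ?_⟩
    have hj1 := hJ (j - j0) (by omega)
    have e1 : j - j0 + j0 = j := by omega
    simp only [e1] at hj1
    rw [WQ_ball]
    simpa using hj1
  · intro j w hw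
    have hw' : ‖w‖ < ρ / 2 := by simpa using hw
    have hwρ : w ∈ ball (0 : ℂ) ρ := by
      rw [mem_ball, dist_zero_right]
      linarith
    rw [hgd j w hwρ]
    have b1 : ‖deriv (h (j + j0)) (q + w)‖ ≤ |H| * (r / 8) := by
      have hmem : q + w ∈ ball (0 : ℂ) (r / R (j + j0)) := by
        rw [mem_ball, dist_zero_right]
        have h3 := hj0 (j + j0) (Nat.le_add_left _ _)
        have h4 := norm_add_le q w
        linarith
      refine (hp.hH _ _ hmem).trans ?_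
      have h5 := (hp.Rpos (j + j0)).le
      exact mul_le_mul (le_abs_self H) (hR8 _) h5 (abs_nonneg _)
    have b2 : ‖((1 : ℕ) : ℂ) / (q + w)‖ ≤ 2 / ‖q‖ := by
      rw [Nat.cast_one, norm_div, norm_one]
      have h6 : ‖q‖ / 2 ≤ ‖q + w‖ := by
        have h7 : ‖q‖ ≤ ‖q + w‖ + ‖w‖ := by
          calc ‖q‖ = ‖(q + w) - w‖ := by congr 1; ring
            _ ≤ _ := norm_sub_le _ _
        linarith
      calc 1 / ‖q + w‖ ≤ 1 / (‖q‖ / 2) := one_div_le_one_div_of_le (by positivity) h6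
        _ = 2 / ‖q‖ := by field_simp
    have b3 : ‖((lam (j + j0) * R (j + j0) ^ 2 : ℝ) : ℂ) / 4 * conj q‖ ≤
        Λ * (r / 8) ^ 2 * ‖q‖ := by
      rw [norm_mul, norm_div, Complex.norm_real, RCLike.norm_conj, Real.norm_eq_abs,
        abs_of_nonneg (mul_nonneg (hp.lamb _).1 (sq_nonneg _))]
      have h8 := hlam (j + j0)
      have h9 : 0 ≤ lam (j + j0) * R (j + j0) ^ 2 := mul_nonneg (hp.lamb _).1 (sq_nonneg _)
      have h10 : ‖(4 : ℂ)‖ = 4 := by simp
      rw [h10]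
      refine mul_le_mul_of_nonneg_right ?_ hqn.le
      linarith
    have b4 : ‖(1 / (4 * π) : ℂ) * ∫ y in ball (0 : ℂ) (r / R (j + j0)) \ ball q ρ,
        (E (j + j0) y : ℂ) / (q + w - y)‖ ≤ 2 / ρ * M := by
      have c1 : ‖∫ y in ball (0 : ℂ) (r / R (j + j0)) \ ball q ρ,
          (E (j + j0) y : ℂ) / (q + w - y)‖ ≤
          ∫ y in ball (0 : ℂ) (r / R (j + j0)) \ ball q ρ, 2 / ρ * E (j + j0) y := by
        refine norm_integral_le_of_norm_le ?_ ?_
        · exact ((WQ_int (hEc _) 0 _).mono_set Set.sdiff_subset).const_mul _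
        · refine (ae_restrict_mem (measurableSet_ball.diff measurableSet_ball)).mono ?_
          intro y hy
          have hy2 : ρ ≤ ‖y - q‖ := by
            have := hy.2
            rw [mem_ball, dist_eq_norm, not_lt] at this
            exact this
          have h11 : ρ / 2 ≤ ‖q + w - y‖ := by
            have h12 : ‖y - q‖ ≤ ‖q + w - y‖ + ‖w‖ := by
              calc ‖y - q‖ = ‖w - (q + w - y)‖ := by congr 1; ring
                _ ≤ ‖w‖ + ‖q + w - y‖ := norm_sub_le _ _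
                _ = _ := add_comm _ _
            linarith
          rw [norm_div, Complex.norm_real, Real.norm_eq_abs, abs_of_nonneg (hE0 _ _)]
          calc E (j + j0) y / ‖q + w - y‖ ≤ E (j + j0) y / (ρ / 2) :=
                div_le_div_of_nonneg_left (hE0 _ _) (by positivity) h11
            _ = 2 / ρ * E (j + j0) y := by field_simp
      have c2 : ∫ y in ball (0 : ℂ) (r / R (j + j0)) \ ball q ρ, 2 / ρ * E (j + j0) y ≤
          2 / ρ * M := by
        rw [integral_const_mul]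
        refine mul_le_mul_of_nonneg_left ?_ (by positivity)
        refine le_trans ?_ (hM (j + j0))
        exact setIntegral_mono_set (WQ_int (hEc _) 0 _) (Eventually.of_forall (hE0 _))
          (LE.le.eventuallyLE Set.sdiff_subset)
      have c3 : ‖(1 / (4 * π) : ℂ)‖ ≤ 1 := by
        have : (1 / (4 * π) : ℂ) = ((1 / (4 * π) : ℝ) : ℂ) := by push_cast; ring
        rw [this, Complex.norm_real, Real.norm_eq_abs, abs_of_pos (by positivity)]
        rw [div_le_one (by positivity)]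
        linarith [Real.pi_gt_three]
      rw [norm_mul]
      calc _ ≤ 1 * (2 / ρ * M) := mul_le_mul c3 (c1.trans c2) (norm_nonneg _) zero_le_one
        _ = _ := one_mul _
    calc _ ≤ ‖deriv (h (j + j0)) (q + w)‖ + ‖((1 : ℕ) : ℂ) / (q + w)‖ +
          ‖((lam (j + j0) * R (j + j0) ^ 2 : ℝ) : ℂ) / 4 * conj q‖ +
          ‖(1 / (4 * π) : ℂ) * ∫ y in ball (0 : ℂ) (r / R (j + j0)) \ ball q ρ,
            (E (j + j0) y : ℂ) / (q + w - y)‖ := by
          refine (norm_sub_le _ _).trans (add_le_add ?_ le_rfl)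
          refine (norm_sub_le _ _).trans (add_le_add ?_ le_rfl)
          exact norm_add_le _ _
      _ ≤ _ := by linarith
  · intro j
    rw [← WQ_ball]
    refine le_trans ?_ (hM (j + j0))
    refine setIntegral_mono_set (WQ_int (hEc _) 0 _) (Eventually.of_forall (hE0 _))
      (LE.le.eventuallyLE ?_)
    intro z hz
    rw [mem_ball, dist_zero_right]
    rw [mem_ball, dist_eq_norm] at hz
    have h3 := hj0 (j + j0) (Nat.le_add_left _ _)
    calc ‖z‖ = ‖(z - q) + q‖ := by congr 1; ring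
      _ ≤ ‖z - q‖ + ‖q‖ := norm_add_le _ _
      _ < _ := by linarith
  · intro t ht
    obtain ⟨J, hJ⟩ := eventually_atTop.1 (hc t ht)
    refine eventually_atTop.2 ⟨J, fun j hj => ?_⟩
    rw [← WQ_ball]
    exact hJ _ (by omega)

end Pool.Agent.Vx

end

section

/-!
# MP_afe918_an, item WQf: the term with `g' + h' g` is negligible (helper34)
-/

set_option autoImplicit false

open Complex Set Filter Topology MeasureTheory Metric
open scoped Real ContDiff ComplexConjugate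

namespace Pool.Agent.Vx

theorem WQf_int {f : ℂ → ℂ} {c : ℂ} {s : ℝ} (hf : ContinuousOn f (closedBall c s)) :
    IntegrableOn f (ball c s) :=
  (hf.integrableOn_compact (isCompact_closedBall c s)).mono_set ball_subset_closedBall

theorem WQf_intR {f : ℂ → ℝ} {c : ℂ} {s : ℝ} (hf : ContinuousOn f (closedBall c s)) :
    IntegrableOn f (ball c s) :=
  (hf.integrableOn_compact (isCompact_closedBall c s)).mono_set ball_subset_closedBall

/-- Integral near a bubble. -/
theorem WQf_near (c s : ℂ) (E : ℂ → ℝ) (hE : Continuous E) (h0 : ∀ z, 0 ≤ E z) (u : ℂ → ℂ)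
    (L : ℝ) (hL : 0 ≤ L) (hu : ContinuousOn u (closedBall c (1 / 4))) (hb : bm c E ≠ 0)
    (h1 : ‖u s‖ ≤ L) (h2 : ∀ z ∈ ball c (1 / 4), ‖u z - u s‖ ≤ L * ‖z - s‖) :
    ‖∫ z in ball c (1 / 4), (z - s) * u z * (E z : ℂ)‖ ≤
      L * (bm c E * ‖bc c E - s‖ + 2 * ba c E + 2 * bm c E * ‖bc c E - s‖ ^ 2) := by
  have hEc : Continuous fun z => (E z : ℂ) := Complex.continuous_ofReal.comp hE
  have hb' : (bm c E : ℂ) ≠ 0 := by exact_mod_cast hb
  have hb0 : 0 ≤ bm c E := integral_nonneg fun z => h0 z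
  have i1 : IntegrableOn (fun z => z * (E z : ℂ)) (ball c (1 / 4)) :=
    WQf_int (continuous_id.mul hEc).continuousOn
  have i2 : IntegrableOn (fun z => s * (E z : ℂ)) (ball c (1 / 4)) :=
    WQf_int (continuous_const.mul hEc).continuousOn
  have i3 : IntegrableOn (fun z => (z - s) * (E z : ℂ)) (ball c (1 / 4)) :=
    WQf_int ((continuous_id.sub continuous_const).mul hEc).continuousOn
  have e1 : ∫ z in ball c (1 / 4), (z - s) * (E z : ℂ) = bm c E * (bc c E - s) := by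
    have : ∫ z in ball c (1 / 4), (z - s) * (E z : ℂ) =
        (∫ z in ball c (1 / 4), z * (E z : ℂ)) - ∫ z in ball c (1 / 4), s * (E z : ℂ) := by
      rw [← integral_sub i1 i2]
      congr 1
      funext z
      ring
    rw [this, integral_const_mul, integral_complex_ofReal]
    unfold bc
    rw [mul_sub, mul_div_cancel₀ _ hb']
    unfold bm
    ring
  have e2 : ∫ z in ball c (1 / 4), (z - s) * u z * (E z : ℂ) =
      u s * (bm c E * (bc c E - s)) + ∫ z in ball c (1 / 4), (z - s) * (u z - u s) * (E z : ℂ) := by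
    rw [← e1, ← integral_const_mul, ← integral_add (i3.const_mul _) ?_]
    · congr 1
      funext z
      ring
    · apply WQf_int
      exact (((continuous_id.sub continuous_const).continuousOn).mul
        (hu.sub continuousOn_const)).mul hEc.continuousOn
  rw [e2]
  have n1 : ‖u s * (bm c E * (bc c E - s))‖ ≤ L * (bm c E * ‖bc c E - s‖) := by
    rw [norm_mul, norm_mul, Complex.norm_real, Real.norm_eq_abs, abs_of_nonneg hb0]
    exact mul_le_mul_of_nonneg_right h1 (by positivity)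
  have j1 : IntegrableOn (fun z => ‖z - bc c E‖ ^ 2 * E z) (ball c (1 / 4)) :=
    WQf_intR (((continuous_id.sub continuous_const).norm.pow 2).mul hE).continuousOn
  have j2 : IntegrableOn (fun z => E z) (ball c (1 / 4)) := WQf_intR hE.continuousOn
  have n2 : ‖∫ z in ball c (1 / 4), (z - s) * (u z - u s) * (E z : ℂ)‖ ≤
      L * (2 * ba c E + 2 * bm c E * ‖bc c E - s‖ ^ 2) := by
    have e3 : L * (2 * ba c E + 2 * bm c E * ‖bc c E - s‖ ^ 2) =
        ∫ z in ball c (1 / 4), (L * 2 * (‖z - bc c E‖ ^ 2 * E z) +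
          L * 2 * ‖bc c E - s‖ ^ 2 * E z) := by
      rw [integral_add (j1.const_mul _) (j2.const_mul _), integral_const_mul, integral_const_mul]
      unfold ba bm
      ring
    rw [e3]
    apply norm_integral_le_of_norm_le ((j1.const_mul _).add (j2.const_mul _))
    rw [ae_restrict_iff' measurableSet_ball]
    refine Eventually.of_forall fun z hz => ?_
    rw [norm_mul, norm_mul, Complex.norm_real, Real.norm_eq_abs, abs_of_nonneg (h0 z)]
    have t1 : ‖z - s‖ ≤ ‖z - bc c E‖ + ‖bc c E - s‖ := by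
      have : z - s = (z - bc c E) + (bc c E - s) := by ring
      rw [this]
      exact norm_add_le _ _
    have t2 : ‖z - s‖ ^ 2 ≤ 2 * ‖z - bc c E‖ ^ 2 + 2 * ‖bc c E - s‖ ^ 2 := by
      have := norm_nonneg (z - s)
      nlinarith [sq_nonneg (‖z - bc c E‖ - ‖bc c E - s‖)]
    have t3 : ‖z - s‖ * ‖u z - u s‖ ≤ L * ‖z - s‖ ^ 2 := by
      have := mul_le_mul_of_nonneg_left (h2 z hz) (norm_nonneg (z - s))
      nlinarith
    calc ‖z - s‖ * ‖u z - u s‖ * E z ≤ L * ‖z - s‖ ^ 2 * E z :=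
          mul_le_mul_of_nonneg_right t3 (h0 z)
      _ ≤ L * (2 * ‖z - bc c E‖ ^ 2 + 2 * ‖bc c E - s‖ ^ 2) * E z :=
          mul_le_mul_of_nonneg_right (mul_le_mul_of_nonneg_left t2 hL) (h0 z)
      _ = _ := by simp only [Pi.add_apply]; ring
  calc _ ≤ ‖u s * (bm c E * (bc c E - s))‖ +
        ‖∫ z in ball c (1 / 4), (z - s) * (u z - u s) * (E z : ℂ)‖ := norm_add_le _ _
    _ ≤ L * (bm c E * ‖bc c E - s‖) + L * (2 * ba c E + 2 * bm c E * ‖bc c E - s‖ ^ 2) :=
        add_le_add n1 n2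
    _ = _ := by ring

/-- The function `g' + h' g` vanishes to second order, with a cubic factor `R ^ 3`. -/
theorem WQf_phi (C R t : ℝ) (h1 h2 d z : ℂ) (hC : 0 ≤ C) (hR : 0 < R) (hρ : R * ‖z‖ ≤ t)
    (b1 : ‖h1‖ ≤ C * R) (b2 : ‖h2‖ ≤ C * R ^ 2) (b3 : ‖d - h1 - h2 * z‖ ≤ C * R ^ 3 * ‖z‖ ^ 2) :
    ‖(-h1 + 2 * ((h1 ^ 2 - h2) / 2) * z) + d * (1 + -h1 * z + (h1 ^ 2 - h2) / 2 * z ^ 2)‖ ≤
      (C * (C ^ 2 + C) + C * (C ^ 2 + C) * t + C + C * C * t + C * (C ^ 2 + C) * t ^ 2 + C * C) *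
        R ^ 3 * ‖z‖ ^ 2 := by
  have e : (-h1 + 2 * ((h1 ^ 2 - h2) / 2) * z) + d * (1 + -h1 * z + (h1 ^ 2 - h2) / 2 * z ^ 2) =
      z ^ 2 * (h1 * ((h1 ^ 2 - h2) / 2)) - z ^ 2 * (h1 * h2) + z ^ 3 * (h2 * ((h1 ^ 2 - h2) / 2)) +
        (d - h1 - h2 * z) * (1 + -h1 * z + (h1 ^ 2 - h2) / 2 * z ^ 2) := by ring
  have a0 : ‖(h1 ^ 2 - h2) / 2‖ ≤ (C ^ 2 + C) * R ^ 2 := by
    rw [norm_div, Complex.norm_ofNat]
    have : ‖h1 ^ 2 - h2‖ ≤ (C * R) ^ 2 + C * R ^ 2 := by
      refine le_trans (norm_sub_le _ _) (add_le_add ?_ b2)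
      rw [norm_pow]
      exact pow_le_pow_left₀ (norm_nonneg _) b1 2
    have h3 : 0 ≤ ‖h1 ^ 2 - h2‖ := norm_nonneg _
    nlinarith
  have hz := norm_nonneg z
  have n1 : ‖z ^ 2 * (h1 * ((h1 ^ 2 - h2) / 2))‖ ≤ ‖z‖ ^ 2 * (C * R * ((C ^ 2 + C) * R ^ 2)) := by
    rw [norm_mul, norm_mul, norm_pow]
    gcongr
  have n2 : ‖z ^ 2 * (h1 * h2)‖ ≤ ‖z‖ ^ 2 * (C * R * (C * R ^ 2)) := by
    rw [norm_mul, norm_mul, norm_pow]
    gcongr
  have n3 : ‖z ^ 3 * (h2 * ((h1 ^ 2 - h2) / 2))‖ ≤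
      ‖z‖ ^ 2 * (C * (C ^ 2 + C) * R ^ 3 * t) := by
    rw [norm_mul, norm_mul, norm_pow]
    calc ‖z‖ ^ 3 * (‖h2‖ * ‖(h1 ^ 2 - h2) / 2‖) ≤
          ‖z‖ ^ 3 * (C * R ^ 2 * ((C ^ 2 + C) * R ^ 2)) := by gcongr
      _ = ‖z‖ ^ 2 * (C * (C ^ 2 + C) * R ^ 3 * (R * ‖z‖)) := by ring
      _ ≤ _ := by gcongr
  have n4 : ‖1 + -h1 * z + (h1 ^ 2 - h2) / 2 * z ^ 2‖ ≤ 1 + C * t + (C ^ 2 + C) * t ^ 2 := by
    refine le_trans (norm_add_le _ _) (add_le_add (le_trans (norm_add_le _ _)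
      (add_le_add (by simp) ?_)) ?_)
    · rw [norm_mul, norm_neg]
      calc ‖h1‖ * ‖z‖ ≤ C * R * ‖z‖ := by gcongr
        _ = C * (R * ‖z‖) := by ring
        _ ≤ _ := by gcongr
    · rw [norm_mul, norm_pow]
      calc ‖(h1 ^ 2 - h2) / 2‖ * ‖z‖ ^ 2 ≤ (C ^ 2 + C) * R ^ 2 * ‖z‖ ^ 2 := by gcongr
        _ = (C ^ 2 + C) * (R * ‖z‖) ^ 2 := by ring
        _ ≤ _ := by gcongr
  have n5 : ‖(d - h1 - h2 * z) * (1 + -h1 * z + (h1 ^ 2 - h2) / 2 * z ^ 2)‖ ≤
      C * R ^ 3 * ‖z‖ ^ 2 * (1 + C * t + (C ^ 2 + C) * t ^ 2) := by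
    rw [norm_mul]
    gcongr
  rw [e]
  calc _ ≤ ‖z ^ 2 * (h1 * ((h1 ^ 2 - h2) / 2))‖ + ‖z ^ 2 * (h1 * h2)‖ +
        ‖z ^ 3 * (h2 * ((h1 ^ 2 - h2) / 2))‖ +
        ‖(d - h1 - h2 * z) * (1 + -h1 * z + (h1 ^ 2 - h2) / 2 * z ^ 2)‖ := by
        refine le_trans (norm_add_le _ _) (add_le_add (le_trans (norm_add_le _ _)
          (add_le_add (norm_sub_le _ _) le_rfl)) le_rfl)
    _ ≤ ‖z‖ ^ 2 * (C * R * ((C ^ 2 + C) * R ^ 2)) + ‖z‖ ^ 2 * (C * R * (C * R ^ 2)) +
        ‖z‖ ^ 2 * (C * (C ^ 2 + C) * R ^ 3 * t) +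
        C * R ^ 3 * ‖z‖ ^ 2 * (1 + C * t + (C ^ 2 + C) * t ^ 2) :=
        add_le_add (add_le_add (add_le_add n1 n2) n3) n5
    _ = _ := by ring

theorem WQf_lip (u : ℂ → ℂ) (c : ℂ) (L : ℝ) (hd : DifferentiableOn ℂ u (ball c (1 / 2)))
    (hb : ∀ z ∈ ball c (1 / 2), ‖u z‖ ≤ L) :
    ∀ z ∈ ball c (1 / 4), ∀ s ∈ ball c (1 / 4), ‖u z - u s‖ ≤ 4 * L * ‖z - s‖ := by
  intro z hz s hs
  have hd1 : ∀ x ∈ ball c (1 / 4), closedBall x (1 / 4) ⊆ ball c (1 / 2) := by
    intro x hx y hy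
    rw [mem_ball] at hx ⊢
    rw [mem_closedBall] at hy
    linarith [dist_triangle y x c]
  refine Convex.norm_image_sub_le_of_norm_deriv_le (s := ball c (1 / 4)) ?_ ?_
    (convex_ball _ _) hs hz
  · intro x hx
    exact (hd x (hd1 x hx (mem_closedBall_self (by norm_num)))).differentiableAt
      (isOpen_ball.mem_nhds (hd1 x hx (mem_closedBall_self (by norm_num))))
  · intro x hx
    have h1 : ‖deriv u x‖ ≤ L / (1 / 4) := by
      apply Complex.norm_deriv_le_of_forall_mem_sphere_norm_le (by norm_num)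
      · refine (hd.mono ?_).diffContOnCl_ball (U := closedBall x (1 / 4)) subset_rfl
        exact hd1 x hx
      · intro y hy
        exact hb y (hd1 x hx (sphere_subset_closedBall hy))
    linarith

/-- The third factor. -/
noncomputable def WQf_U (sp sm g1 g2 : ℂ) (h : ℂ → ℂ) (z : ℂ) : ℂ :=
  z * ((g1 + 2 * g2 * z) + deriv h z * (1 + g1 * z + g2 * z ^ 2)) / (sp * sm)

theorem WQf_one (r K R kap C : ℝ) (h : ℂ → ℂ) (E : ℂ → ℝ) (sp sm g1 g2 : ℂ)
    (hR : 0 < R) (hsmall : 8 * R < r) (hk : 0 < kap) (hK : 0 ≤ K) (hC : 0 ≤ C)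
    (han : DifferentiableOn ℂ h (ball 0 (r / R)))
    (hE : Continuous E) (h0 : ∀ z, 0 ≤ E z)
    (hphi : ∀ z, ‖z‖ ≤ r / (4 * R) →
      ‖(g1 + 2 * g2 * z) + deriv h z * (1 + g1 * z + g2 * z ^ 2)‖ ≤ K * R ^ 3 * ‖z‖ ^ 2)
    (tail : ∀ z ∈ ball (0 : ℂ) (r / R), 2 ≤ ‖z‖ → E z ≤ C * kap / ‖z‖ ^ 6)
    (comp : ∀ z ∈ ball (0 : ℂ) 4, 1 / 4 ≤ ‖z - 1‖ → 1 / 4 ≤ ‖z + 1‖ → E z ≤ C * kap)
    (hsp : ‖sp - 1‖ < 1 / 4) (hsm : ‖sm + 1‖ < 1 / 4)
    (b1 : bm 1 E ≠ 0) (b2 : bm (-1) E ≠ 0) :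
    ‖mo (r / (4 * R)) E (qf sp sm g1 g2 h)‖ ≤
      80 * K * R ^ 3 * (bm 1 E * ‖bc 1 E - sp‖ + 2 * ba 1 E + 2 * bm 1 E * ‖bc 1 E - sp‖ ^ 2) +
      80 * K * R ^ 3 * (bm (-1) E * ‖bc (-1) E - sm‖ + 2 * ba (-1) E +
        2 * bm (-1) E * ‖bc (-1) E - sm‖ ^ 2) +
      512 * K * C * (6 * π * (r / 4)) * R ^ 2 * kap := by
  have hrpos : 0 < r := by linarith
  have hEc : Continuous fun z => (E z : ℂ) := Complex.continuous_ofReal.comp hE
  have hρ2 : 2 ≤ r / (4 * R) := by
    rw [le_div_iff₀ (by positivity)]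
    linarith
  have hρlt : r / (4 * R) < r / R := by
    apply div_lt_div_of_pos_left hrpos hR
    linarith
  have hsub : closedBall (0 : ℂ) (r / (4 * R)) ⊆ ball 0 (r / R) :=
    closedBall_subset_ball hρlt
  have hdd : DifferentiableOn ℂ (deriv h) (ball 0 (r / R)) := han.deriv isOpen_ball
  have nsp : 3 / 4 ≤ ‖sp‖ ∧ ‖sp‖ ≤ 5 / 4 := by
    constructor
    · have : ‖(1 : ℂ)‖ ≤ ‖sp‖ + ‖sp - 1‖ := by
        have h1 : (1 : ℂ) = sp - (sp - 1) := by ring
        calc ‖(1 : ℂ)‖ = ‖sp - (sp - 1)‖ := by rw [← h1]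
          _ ≤ _ := norm_sub_le _ _
      rw [norm_one] at this
      linarith
    · have : ‖sp‖ ≤ ‖sp - 1‖ + ‖(1 : ℂ)‖ := by
        calc ‖sp‖ = ‖(sp - 1) + 1‖ := by rw [sub_add_cancel]
          _ ≤ _ := norm_add_le _ _
      rw [norm_one] at this
      linarith
  have nsm : 3 / 4 ≤ ‖sm‖ ∧ ‖sm‖ ≤ 5 / 4 := by
    constructor
    · have : ‖(1 : ℂ)‖ ≤ ‖sm + 1‖ + ‖sm‖ := by
        have h1 : (1 : ℂ) = (sm + 1) - sm := by ring
        calc ‖(1 : ℂ)‖ = ‖(sm + 1) - sm‖ := by rw [← h1]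
          _ ≤ _ := norm_sub_le _ _
      rw [norm_one] at this
      linarith
    · have : ‖sm‖ ≤ ‖sm + 1‖ + ‖(1 : ℂ)‖ := by
        calc ‖sm‖ = ‖(sm + 1) - 1‖ := by rw [add_sub_cancel_right]
          _ ≤ _ := norm_sub_le _ _
      rw [norm_one] at this
      linarith
  have nss : 1 / 2 ≤ ‖sp * sm‖ := by
    rw [norm_mul]
    nlinarith [nsp.1, nsm.1]
  have hU : ∀ z, ‖z‖ ≤ r / (4 * R) → ‖WQf_U sp sm g1 g2 h z‖ ≤ 2 * K * R ^ 3 * ‖z‖ ^ 3 := by
    intro z hz
    unfold WQf_U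
    rw [norm_div, norm_mul, div_le_iff₀ (by linarith)]
    have t1 := hphi z hz
    have t2 : 0 ≤ K * R ^ 3 * ‖z‖ ^ 3 := by positivity
    calc _ ≤ ‖z‖ * (K * R ^ 3 * ‖z‖ ^ 2) := by gcongr
      _ = K * R ^ 3 * ‖z‖ ^ 3 := by ring
      _ ≤ 2 * K * R ^ 3 * ‖z‖ ^ 3 * ‖sp * sm‖ := by nlinarith
  have hUd : DifferentiableOn ℂ (WQf_U sp sm g1 g2 h) (ball 0 (r / R)) := by
    unfold WQf_U
    fun_prop
  have hU1 : ∀ z s : ℂ, ‖s‖ ≤ 5 / 4 → ‖z‖ ≤ 3 / 2 →
      ‖(z - s) * WQf_U sp sm g1 g2 h z‖ ≤ 20 * K * R ^ 3 := by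
    intro z s hs hz
    rw [norm_mul]
    have t1 := hU z (by linarith)
    have t2 : ‖z - s‖ ≤ 11 / 4 := by linarith [norm_sub_le z s]
    have t3 : ‖z‖ ^ 3 ≤ (3 / 2) ^ 3 := pow_le_pow_left₀ (norm_nonneg _) hz 3
    have t4 : 0 ≤ K * R ^ 3 := by positivity
    calc _ ≤ 11 / 4 * (2 * K * R ^ 3 * ‖z‖ ^ 3) := by gcongr
      _ ≤ 11 / 4 * (2 * K * R ^ 3 * (3 / 2) ^ 3) := by gcongr
      _ ≤ _ := by nlinarith
  have hb32 : ∀ c : ℂ, ‖c‖ = 1 → ∀ z ∈ ball c (1 / 2), ‖z‖ ≤ 3 / 2 := by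
    intro c hc z hz
    rw [mem_ball, dist_eq_norm] at hz
    have : ‖z‖ ≤ ‖z - c‖ + ‖c‖ := by
      calc ‖z‖ = ‖(z - c) + c‖ := by rw [sub_add_cancel]
        _ ≤ _ := norm_add_le _ _
    linarith
  have hnear : ∀ c s s' : ℂ, ‖c‖ = 1 → ‖s - c‖ < 1 / 4 → ‖s'‖ ≤ 5 / 4 → bm c E ≠ 0 →
      ‖∫ z in ball c (1 / 4), (z - s) * ((z - s') * WQf_U sp sm g1 g2 h z) * (E z : ℂ)‖ ≤
      80 * K * R ^ 3 * (bm c E * ‖bc c E - s‖ + 2 * ba c E + 2 * bm c E * ‖bc c E - s‖ ^ 2) := by
    intro c s s' hc hs hs' hb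
    have hsub2 : ball c (1 / 2) ⊆ ball 0 (r / R) := by
      intro z hz
      have := hb32 c hc z hz
      rw [mem_ball_zero_iff]
      linarith
    have hd2 : DifferentiableOn ℂ (fun z => (z - s') * WQf_U sp sm g1 g2 h z) (ball 0 (r / R)) :=
      ((differentiableOn_id).sub (differentiableOn_const _)).mul hUd
    have hlip := WQf_lip (fun z => (z - s') * WQf_U sp sm g1 g2 h z) c (20 * K * R ^ 3)
      (hd2.mono hsub2) (fun z hz => hU1 z s' hs' (hb32 c hc z hz))
    have hsb : s ∈ ball c (1 / 4) := by rw [mem_ball, dist_eq_norm]; exact hs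
    have hsb2 : s ∈ ball c (1 / 2) := ball_subset_ball (by norm_num) hsb
    refine WQf_near c s E hE h0 (fun z => (z - s') * WQf_U sp sm g1 g2 h z) (80 * K * R ^ 3)
      (by positivity) ?_ hb ?_ ?_
    · exact (hd2.mono (subset_trans (closedBall_subset_ball (by norm_num)) hsub2)).continuousOn
    · refine le_trans (hU1 s s' hs' (hb32 c hc s hsb2)) ?_
      have : 0 ≤ K * R ^ 3 := by positivity
      nlinarith
    · intro z hz
      refine le_trans (hlip z hz s hsb) (le_of_eq ?_)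
      ring
  have n1 := hnear 1 sp sm norm_one hsp nsm.2 b1
  have n2 := hnear (-1) sm sp (by rw [norm_neg, norm_one]) (by rw [sub_neg_eq_add]; exact hsm)
    nsp.2 b2
  have e1 : ∀ z, qf sp sm g1 g2 h z = (z - sp) * ((z - sm) * WQf_U sp sm g1 g2 h z) := by
    intro z
    unfold qf WQf_U
    ring
  have e2 : ∀ z, qf sp sm g1 g2 h z = (z - sm) * ((z - sp) * WQf_U sp sm g1 g2 h z) := by
    intro z
    unfold qf WQf_U
    ring
  have n1' : ‖∫ z in ball 1 (1 / 4), qf sp sm g1 g2 h z * (E z : ℂ)‖ ≤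
      80 * K * R ^ 3 * (bm 1 E * ‖bc 1 E - sp‖ + 2 * ba 1 E +
        2 * bm 1 E * ‖bc 1 E - sp‖ ^ 2) := by
    simp_rw [e1]
    exact n1
  have n2' : ‖∫ z in ball (-1) (1 / 4), qf sp sm g1 g2 h z * (E z : ℂ)‖ ≤
      80 * K * R ^ 3 * (bm (-1) E * ‖bc (-1) E - sm‖ + 2 * ba (-1) E +
        2 * bm (-1) E * ‖bc (-1) E - sm‖ ^ 2) := by
    simp_rw [e2]
    exact n2
  have hqc : ContinuousOn (fun z => qf sp sm g1 g2 h z * (E z : ℂ))
      (closedBall 0 (r / (4 * R))) := by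
    refine ContinuousOn.mul ?_ hEc.continuousOn
    have : DifferentiableOn ℂ (qf sp sm g1 g2 h) (ball 0 (r / R)) := by
      unfold qf
      fun_prop
    exact (this.mono hsub).continuousOn
  have hqi := WQf_int hqc
  have hs1 : ball (1 : ℂ) (1 / 4) ⊆ ball 0 (r / (4 * R)) := by
    intro z hz
    have := hb32 1 norm_one z (ball_subset_ball (by norm_num) hz)
    rw [mem_ball_zero_iff]
    linarith
  have hs2 : ball (-1 : ℂ) (1 / 4) ⊆ ball 0 (r / (4 * R)) := by
    intro z hz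
    have := hb32 (-1) (by rw [norm_neg, norm_one]) z (ball_subset_ball (by norm_num) hz)
    rw [mem_ball_zero_iff]
    linarith
  have hdis : Disjoint (ball (1 : ℂ) (1 / 4)) (ball (-1) (1 / 4)) := by
    apply ball_disjoint_ball
    rw [dist_eq_norm]
    norm_num
  have hsplit : mo (r / (4 * R)) E (qf sp sm g1 g2 h) =
      (∫ z in ball 1 (1 / 4), qf sp sm g1 g2 h z * (E z : ℂ)) +
      (∫ z in ball (-1) (1 / 4), qf sp sm g1 g2 h z * (E z : ℂ)) +
      ∫ z in ball 0 (r / (4 * R)) \ (ball 1 (1 / 4) ∪ ball (-1) (1 / 4)),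
        qf sp sm g1 g2 h z * (E z : ℂ) := by
    unfold mo
    rw [setIntegral_sdiff (measurableSet_ball.union measurableSet_ball) hqi
      (union_subset hs1 hs2), setIntegral_union hdis measurableSet_ball (hqi.mono_set hs1)
      (hqi.mono_set hs2)]
    ring
  have hrz := pr_Riesz 0 0 (r / (4 * R)) (by positivity)
  have n3 : ‖∫ z in ball 0 (r / (4 * R)) \ (ball 1 (1 / 4) ∪ ball (-1) (1 / 4)),
        qf sp sm g1 g2 h z * (E z : ℂ)‖ ≤ 512 * K * C * (6 * π * (r / 4)) * R ^ 2 * kap := by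
    have hpt : ∀ z ∈ ball (0 : ℂ) (r / (4 * R)) \ (ball 1 (1 / 4) ∪ ball (-1) (1 / 4)),
        ‖qf sp sm g1 g2 h z * (E z : ℂ)‖ ≤ 512 * K * C * R ^ 3 * kap * (1 / ‖0 - z‖) := by
      intro z hz
      obtain ⟨hz1, hz2⟩ := hz
      rw [mem_union, not_or] at hz2
      have hzb : ‖z‖ < r / (4 * R) := by rwa [mem_ball_zero_iff] at hz1
      rw [zero_sub, norm_neg, e1, norm_mul, norm_mul, norm_mul, Complex.norm_real,
        Real.norm_eq_abs, abs_of_nonneg (h0 z)]
      have tU := hU z hzb.le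
      have hz0 := norm_nonneg z
      have tE := h0 z
      have tp : ‖z - sp‖ ≤ ‖z‖ + 5 / 4 := by linarith [norm_sub_le z sp, nsp.2]
      have tm : ‖z - sm‖ ≤ ‖z‖ + 5 / 4 := by linarith [norm_sub_le z sm, nsm.2]
      have tK : 0 ≤ K * R ^ 3 := by positivity
      rcases le_or_gt 2 ‖z‖ with hz3 | hz3
      · have hzpos : 0 < ‖z‖ := by linarith
        have t1 := tail z (hsub (mem_closedBall_zero_iff.2 hzb.le)) hz3
        calc ‖z - sp‖ * (‖z - sm‖ * ‖WQf_U sp sm g1 g2 h z‖) * E z ≤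
              (2 * ‖z‖) * ((2 * ‖z‖) * (2 * K * R ^ 3 * ‖z‖ ^ 3)) * (C * kap / ‖z‖ ^ 6) := by
              gcongr
              · linarith
              · linarith
          _ = 8 * (K * R ^ 3) * (C * kap) * (1 / ‖z‖) := by
              field_simp
              ring
          _ ≤ 512 * (K * R ^ 3) * (C * kap) * (1 / ‖z‖) := by
              gcongr
              norm_num
          _ = _ := by ring
      · have t1 : E z ≤ C * kap := by
          apply comp z (by rw [mem_ball_zero_iff]; linarith)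
          · have := hz2.1
            rw [mem_ball, dist_eq_norm, not_lt] at this
            exact this
          · have := hz2.2
            rw [mem_ball, dist_eq_norm, not_lt, sub_neg_eq_add] at this
            exact this
        rcases eq_or_lt_of_le hz0 with hz4 | hz4
        · have : z = 0 := by rw [← norm_eq_zero]; exact hz4.symm
          subst this
          have : WQf_U sp sm g1 g2 h 0 = 0 := by
            unfold WQf_U
            simp
          rw [this]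
          simp
        · calc ‖z - sp‖ * (‖z - sm‖ * ‖WQf_U sp sm g1 g2 h z‖) * E z ≤
                4 * (4 * (2 * K * R ^ 3 * ‖z‖ ^ 3)) * (C * kap) := by
                gcongr
                · linarith
                · linarith
            _ = 32 * (K * R ^ 3) * (C * kap) * (‖z‖ ^ 4) * (1 / ‖z‖) := by
                field_simp
                ring
            _ ≤ 32 * (K * R ^ 3) * (C * kap) * (2 ^ 4) * (1 / ‖z‖) := by
                gcongr
            _ = _ := by ring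
    have hint : IntegrableOn (fun z : ℂ => 512 * K * C * R ^ 3 * kap * (1 / ‖0 - z‖))
        (ball 0 (r / (4 * R))) := hrz.1.const_mul _
    calc _ ≤ ∫ z in ball (0 : ℂ) (r / (4 * R)) \ (ball 1 (1 / 4) ∪ ball (-1) (1 / 4)),
          512 * K * C * R ^ 3 * kap * (1 / ‖0 - z‖) := by
          apply norm_integral_le_of_norm_le (hint.mono_set sdiff_subset)
          rw [ae_restrict_iff' (measurableSet_ball.diff
            (measurableSet_ball.union measurableSet_ball))]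
          exact Eventually.of_forall hpt
      _ ≤ ∫ z in ball (0 : ℂ) (r / (4 * R)), 512 * K * C * R ^ 3 * kap * (1 / ‖0 - z‖) := by
          apply setIntegral_mono_set hint
          · exact Eventually.of_forall fun z => by positivity
          · exact Eventually.of_forall sdiff_subset
      _ = 512 * K * C * R ^ 3 * kap * ∫ z in ball (0 : ℂ) (r / (4 * R)), 1 / ‖0 - z‖ :=
          integral_const_mul _ _
      _ ≤ 512 * K * C * R ^ 3 * kap * (6 * π * (r / (4 * R))) := by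
          gcongr
          exact hrz.2
      _ = _ := by
          field_simp
  rw [hsplit]
  exact le_trans (norm_add₃_le) (add_le_add (add_le_add n1' n2') n3)

theorem WQf_ev {c : ℂ} {E : ℕ → ℂ → ℝ} {kap : ℕ → ℝ} (hk : ∀ j, 0 < kap j)
    (m1 : Tendsto (fun j => (8 * π - bm c (E j)) / ba c (E j)) atTop (𝓝 0))
    (a1 : Tendsto (fun j => ba c (E j) / kap j) atTop atTop)
    (a10 : Tendsto (fun j => ba c (E j)) atTop (𝓝 0)) :
    ∀ᶠ j in atTop, 0 < ba c (E j) ∧ ba c (E j) ≤ 1 / 2 ∧ bm c (E j) ≠ 0 ∧ 0 ≤ bm c (E j) ∧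
      bm c (E j) ≤ 30 := by
  have k1 : ∀ᶠ j in atTop, 0 < ba c (E j) / kap j := a1.eventually_gt_atTop 0
  have k2 : ∀ᶠ j in atTop, ba c (E j) < 1 / 2 := a10.eventually_lt_const (by norm_num)
  have k3 : ∀ᶠ j in atTop, (8 * π - bm c (E j)) / ba c (E j) < 1 :=
    m1.eventually_lt_const (by norm_num)
  have k4 : ∀ᶠ j in atTop, -1 < (8 * π - bm c (E j)) / ba c (E j) :=
    m1.eventually_const_lt (by norm_num)
  filter_upwards [k1, k2, k3, k4] with j h1 h2 h3 h4
  have hb : 0 < ba c (E j) := by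
    rcases (div_pos_iff.1 h1) with h | h
    · exact h.1
    · exact absurd (hk j) (not_lt.2 h.2.le)
  rw [div_lt_one hb] at h3
  rw [lt_div_iff₀ hb] at h4
  have hpi := Real.pi_gt_three
  have hpi2 := Real.pi_lt_d2
  refine ⟨hb, h2.le, ?_, ?_, ?_⟩
  · intro h
    rw [h] at h3
    linarith
  · linarith
  · linarith

theorem pr_WQf (h1 : S_WTay) (h2 : S_WM3) : S_WQf := by
  intro r H Λ R lam eta kap h E sp sm ht hm
  have _ := h2
  have hp := ht.pl
  have hr := hp.rpos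
  obtain ⟨C, hC⟩ := h1 r H Λ R lam eta h E hp
  have hC0 : 0 ≤ C := by
    have t1 := (hC 0).1
    have t2 := hp.Rpos 0
    have t3 := norm_nonneg (deriv (h 0) 0)
    by_contra hneg
    push Not at hneg
    nlinarith
  obtain ⟨Ct, hCt⟩ := ht.tail
  obtain ⟨Cc, hCc⟩ := ht.comp (1 / 4) (by norm_num)
  set D := max (max Ct Cc) 0 with hD
  have hD0 : 0 ≤ D := le_max_right _ _
  have hDt : Ct ≤ D := le_trans (le_max_left _ _) (le_max_left _ _)
  have hDc : Cc ≤ D := le_trans (le_max_right _ _) (le_max_left _ _)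
  set K := C * (C ^ 2 + C) + C * (C ^ 2 + C) * (r / 4) + C + C * C * (r / 4) +
    C * (C ^ 2 + C) * (r / 4) ^ 2 + C * C with hK
  have hK0 : 0 ≤ K := by positivity
  have e1 := WQf_ev ht.kpos ht.m1 ht.a1 ht.a10
  have e2 := WQf_ev ht.kpos ht.m2 ht.a2 ht.a20
  have e3 : ∀ᶠ j in atTop, ‖sp j - 1‖ < 1 / 4 := by
    have := hm.p1.eventually (ball_mem_nhds (1 : ℂ) (by norm_num : (0 : ℝ) < 1 / 4))
    filter_upwards [this] with j hj
    rwa [← dist_eq_norm]
  have e4 : ∀ᶠ j in atTop, ‖sm j + 1‖ < 1 / 4 := by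
    have := hm.p2.eventually (ball_mem_nhds (-1 : ℂ) (by norm_num : (0 : ℝ) < 1 / 4))
    filter_upwards [this] with j hj
    rw [← sub_neg_eq_add]
    rwa [← dist_eq_norm]
  have e5 := hm.p.eventually (ball_mem_nhds (0 : ℂ) (by norm_num : (0 : ℝ) < 1))
  have e6 := hm.m.eventually (ball_mem_nhds (0 : ℂ) (by norm_num : (0 : ℝ) < 1))
  have hg : Tendsto (fun j => 14720 * K * R j +
      512 * K * D * (6 * π * (r / 4)) * (ba 1 (E j) / kap j)⁻¹) atTop (𝓝 0) := by
    have t1 := hp.R0.const_mul (14720 * K)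
    have t2 := (ht.a1.inv_tendsto_atTop).const_mul (512 * K * D * (6 * π * (r / 4)))
    have t3 := t1.add t2
    rw [mul_zero, mul_zero, add_zero] at t3
    exact t3
  refine squeeze_zero_norm' ?_ hg
  filter_upwards [e1, e2, e3, e4, e5, e6] with j f1 f2 f3 f4 f5 f6
  have hR := hp.Rpos j
  have hk := ht.kpos j
  have hA : 0 < ba 1 (E j) + ba (-1) (E j) := by linarith [f1.1, f2.1]
  have hA1 : ba 1 (E j) + ba (-1) (E j) ≤ 1 := by linarith [f1.2.1, f2.2.1]
  set A := ba 1 (E j) + ba (-1) (E j) with hAdef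
  have g1 : ‖bc 1 (E j) - sp j‖ ≤ A := by
    rw [dist_zero_right, norm_div, Complex.norm_real, Real.norm_eq_abs, abs_of_pos hA,
      div_lt_one hA] at f5
    rw [norm_sub_rev]
    exact f5.le
  have g2 : ‖bc (-1) (E j) - sm j‖ ≤ A := by
    rw [dist_zero_right, norm_div, Complex.norm_real, Real.norm_eq_abs, abs_of_pos hA,
      div_lt_one hA] at f6
    rw [norm_sub_rev]
    exact f6.le
  have hphi : ∀ z, ‖z‖ ≤ r / (4 * R j) →
      ‖(gg1 (h j) + 2 * gg2 (h j) * z) + deriv (h j) z *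
        (1 + gg1 (h j) * z + gg2 (h j) * z ^ 2)‖ ≤ K * R j ^ 3 * ‖z‖ ^ 2 := by
    intro z hz
    unfold gg1 gg2
    refine WQf_phi C (R j) (r / 4) (deriv (h j) 0) (deriv (deriv (h j)) 0) (deriv (h j) z) z hC0
      hR ?_ (hC j).1 (hC j).2.1 ((hC j).2.2 z hz).2
    rw [le_div_iff₀ (by positivity)] at hz
    linarith
  have main := WQf_one r K (R j) (kap j) D (h j) (E j) (sp j) (sm j) (gg1 (h j)) (gg2 (h j))
    hR (hp.small j) hk hK0 hD0 (hp.loc j).an (hp.loc j).cont (hp.loc j).nonneg hphi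
    (fun z hz hz2 => le_trans (hCt j z hz hz2) (by gcongr))
    (fun z hz h3 h4 => le_trans (hCc j z hz h3 h4) (by gcongr)) f3 f4 f1.2.2.1 f2.2.2.1
  have hKR : 0 ≤ K * R j ^ 3 := by positivity
  have q1 : bm 1 (E j) * ‖bc 1 (E j) - sp j‖ + 2 * ba 1 (E j) +
      2 * bm 1 (E j) * ‖bc 1 (E j) - sp j‖ ^ 2 ≤ 92 * A := by
    have t1 : bm 1 (E j) * ‖bc 1 (E j) - sp j‖ ≤ 30 * A :=
      mul_le_mul f1.2.2.2.2 g1 (norm_nonneg _) (by norm_num)
    have t2 : ‖bc 1 (E j) - sp j‖ ^ 2 ≤ A := by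
      have := norm_nonneg (bc 1 (E j) - sp j)
      nlinarith
    have t3 : bm 1 (E j) * ‖bc 1 (E j) - sp j‖ ^ 2 ≤ 30 * A :=
      mul_le_mul f1.2.2.2.2 t2 (by positivity) (by norm_num)
    have := f2.1
    linarith
  have q2 : bm (-1) (E j) * ‖bc (-1) (E j) - sm j‖ + 2 * ba (-1) (E j) +
      2 * bm (-1) (E j) * ‖bc (-1) (E j) - sm j‖ ^ 2 ≤ 92 * A := by
    have t1 : bm (-1) (E j) * ‖bc (-1) (E j) - sm j‖ ≤ 30 * A :=
      mul_le_mul f2.2.2.2.2 g2 (norm_nonneg _) (by norm_num)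
    have t2 : ‖bc (-1) (E j) - sm j‖ ^ 2 ≤ A := by
      have := norm_nonneg (bc (-1) (E j) - sm j)
      nlinarith
    have t3 : bm (-1) (E j) * ‖bc (-1) (E j) - sm j‖ ^ 2 ≤ 30 * A :=
      mul_le_mul f2.2.2.2.2 t2 (by positivity) (by norm_num)
    have := f1.1
    linarith
  rw [norm_div, Complex.norm_real, Real.norm_eq_abs, abs_of_pos (by positivity)]
  rw [div_le_iff₀ (by positivity)]
  refine le_trans main ?_
  have w1 : 80 * K * R j ^ 3 * (bm 1 (E j) * ‖bc 1 (E j) - sp j‖ + 2 * ba 1 (E j) +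
      2 * bm 1 (E j) * ‖bc 1 (E j) - sp j‖ ^ 2) ≤ 80 * K * R j ^ 3 * (92 * A) := by gcongr
  have w2 : 80 * K * R j ^ 3 * (bm (-1) (E j) * ‖bc (-1) (E j) - sm j‖ + 2 * ba (-1) (E j) +
      2 * bm (-1) (E j) * ‖bc (-1) (E j) - sm j‖ ^ 2) ≤ 80 * K * R j ^ 3 * (92 * A) := by gcongr
  have w3 : 512 * K * D * (6 * π * (r / 4)) * R j ^ 2 * kap j ≤
      512 * K * D * (6 * π * (r / 4)) * (ba 1 (E j) / kap j)⁻¹ * (R j ^ 2 * A) := by
    have hA2 : ba 1 (E j) ≤ A := by linarith [f2.1]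
    have hb := f1.1
    rw [inv_div]
    calc 512 * K * D * (6 * π * (r / 4)) * R j ^ 2 * kap j =
          512 * K * D * (6 * π * (r / 4)) * (kap j / ba 1 (E j)) * (R j ^ 2 * ba 1 (E j)) := by
          field_simp
      _ ≤ _ := by gcongr
  calc _ ≤ 80 * K * R j ^ 3 * (92 * A) + 80 * K * R j ^ 3 * (92 * A) +
        512 * K * D * (6 * π * (r / 4)) * (ba 1 (E j) / kap j)⁻¹ * (R j ^ 2 * A) :=
        add_le_add (add_le_add w1 w2) w3
    _ = _ := by ring

end Pool.Agent.Vx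

end

section

/-!
# MP_afe918_an, item WRI: Pohozaev identity with error `eta` (helper61)
-/

set_option autoImplicit false

open Complex Set Filter Topology MeasureTheory Metric
open scoped Real ContDiff ComplexConjugate

namespace Pool.Agent.Vx

theorem pr_WRI (h1 : S_RIp) : S_WRI := by
  intro r H Λ R lam eta h E hp
  obtain ⟨K, hK0, hK⟩ := h1
  obtain ⟨M, hM0, hM⟩ := W_mass hp
  obtain ⟨C, hC⟩ := hp.out (r / 4) (by linarith [hp.rpos])
  set H1 : ℝ := max (H * r) (Λ * r ^ 2) with hH1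
  have hr := hp.rpos
  have hΛ : 0 ≤ Λ := (hp.lamb 0).1.trans (hp.lamb 0).2
  have hH10 : 0 ≤ H1 := le_trans (by positivity) (le_max_right _ _)
  refine ⟨K * (1 + 1 + H1 + M * 4) * C * r ^ 2 / 16, Eventually.of_forall fun j A c hc => ?_⟩
  have hR := hp.Rpos j
  have hs : 0 < r / (4 * R j) := by positivity
  have key := hK (r / R j) (r / (4 * R j)) (lam j * R j ^ 2) A (C * R j ^ 2 * eta j) H1 M 4 1 (h j)
    (E j) 0 c hs ?_ ?_ (hp.loc j) hH10 ?_ ?_ (hM j) ?_ (by simpa using hs.le) hc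
  · have e : K * (1 + ((1 : ℕ) : ℝ) + H1 + M * 4) * A * (C * R j ^ 2 * eta j) *
        (r / (4 * R j)) ^ 2 = K * (1 + 1 + H1 + M * 4) * C * r ^ 2 / 16 * A * eta j := by
      push_cast
      field_simp
      ring
    rw [e] at key
    simpa only [sub_zero, Nat.cast_one] using key
  · rw [le_div_iff₀ hR]
    field_simp
    norm_num
  · apply le_of_eq
    field_simp
  · refine le_trans ?_ (le_max_right _ _)
    have e : lam j * R j ^ 2 * (r / R j) ^ 2 = lam j * r ^ 2 := by field_simp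
    rw [e]
    exact mul_le_mul_of_nonneg_right (hp.lamb j).2 (by positivity)
  · intro z hz
    refine le_trans ?_ (le_max_left _ _)
    calc ‖deriv (h j) z‖ * (r / R j) ≤ H * R j * (r / R j) :=
          mul_le_mul_of_nonneg_right (hp.hH j z hz) (by positivity)
      _ = H * r := by field_simp
  · intro z hz hz2
    apply hC j z hz
    refine le_trans (le_of_eq ?_) hz2
    field_simp

end Pool.Agent.Vx

end

section

/-!
# MP_afe918_an, block W: the rest of the mass; local bound off `±1` (item WUB)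
-/

set_option autoImplicit false

open Complex Set Filter Topology MeasureTheory Metric
open scoped Real ContDiff ComplexConjugate

namespace Pool.Agent.Vx

theorem WUB_int {E : ℂ → ℝ} (hE : Continuous E) (c : ℂ) (s : ℝ) : IntegrableOn E (ball c s) :=
  (hE.continuousOn.integrableOn_compact (isCompact_closedBall c s)).mono_set ball_subset_closedBall

theorem WUB_dist : dist (1 : ℂ) (-1) = 2 := by
  rw [dist_eq_norm]
  norm_num

theorem WUB_disj {s : ℝ} (hs : s ≤ 1 / 2) : Disjoint (ball (1 : ℂ) s) (ball (-1) s) :=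
  ball_disjoint_ball (by rw [WUB_dist]; linarith)

theorem WUB_sub {s ρ : ℝ} (hs : s ≤ 1 / 2) (hρ : 8 < ρ) :
    ball (1 : ℂ) s ∪ ball (-1) s ⊆ ball 0 ρ := by
  refine union_subset (ball_subset_ball' ?_) (ball_subset_ball' ?_)
  · rw [dist_zero_right, norm_one]
    linarith
  · rw [dist_zero_right, norm_neg, norm_one]
    linarith

theorem WUB_first {r H Λ : ℝ} {R lam eta : ℕ → ℝ} {h : ℕ → ℂ → ℂ} {E : ℕ → ℂ → ℝ}
    (hp : PW r H Λ R lam eta h E) {s : ℝ} (hs0 : 0 < s) (hs : s ≤ 1 / 2) :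
    Tendsto (fun j => ∫ z in ball 0 (r / R j) \ (ball 1 s ∪ ball (-1) s), E j z) atTop (𝓝 0) := by
  have h1 : ∀ j, ∫ z in ball 0 (r / R j) \ (ball 1 s ∪ ball (-1) s), E j z =
      ms (r / R j) (E j) - ((∫ z in ball (1 : ℂ) s, E j z) + ∫ z in ball (-1 : ℂ) s, E j z) := by
    intro j
    have hc := (hp.pl.loc j).cont
    rw [setIntegral_sdiff (measurableSet_ball.union measurableSet_ball) (WUB_int hc 0 _)
      (WUB_sub hs (W_rad hp.pl j)), setIntegral_union (WUB_disj hs) measurableSet_ball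
      (WUB_int hc 1 _) (WUB_int hc (-1) _), ms]
  simp only [h1]
  have h2 := hp.pl.mass.sub ((hp.two1 s hs0 hs).add (hp.two2 s hs0 hs))
  have h3 : 16 * π - (8 * π + 8 * π) = 0 := by ring
  rwa [h3] at h2

theorem pr_WUB (h1 : S_WLoc) : S_WUB := by
  intro r H Λ R lam eta h E hp s hs0 hs
  refine ⟨WUB_first hp hs0 hs, ?_⟩
  set K : Set ℂ := {z | z ∈ closedBall (0 : ℂ) 6 ∧ s ≤ ‖z - 1‖ ∧ s ≤ ‖z + 1‖} with hK
  have hKc : IsCompact K := by
    have h2 : IsClosed {z : ℂ | s ≤ ‖z - 1‖ ∧ s ≤ ‖z + 1‖} := by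
      have h3 : IsClosed {z : ℂ | s ≤ ‖z - 1‖} := isClosed_le continuous_const (by fun_prop)
      have h4 : IsClosed {z : ℂ | s ≤ ‖z + 1‖} := isClosed_le continuous_const (by fun_prop)
      exact h3.inter h4
    exact (isCompact_closedBall (0 : ℂ) 6).inter_right h2
  have hsm : ∀ᶠ j in atTop, ∫ z in ball 0 (r / R j) \ (ball 1 (s / 2) ∪ ball (-1) (s / 2)),
      E j z ≤ 1 :=
    ((WUB_first hp (half_pos hs0) (by linarith)).eventually (gt_mem_nhds one_pos)).mono
      fun j hj => hj.le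
  have key : ∃ C, ∀ᶠ j in atTop, ∀ z ∈ K, E j z ≤ C := by
    refine hKc.induction_on (p := fun S => ∃ C, ∀ᶠ j in atTop, ∀ z ∈ S, E j z ≤ C) ?_ ?_ ?_ ?_
    · exact ⟨0, Eventually.of_forall fun j z hz => absurd hz (notMem_empty z)⟩
    · rintro S S' hSS ⟨C, hC⟩
      exact ⟨C, hC.mono fun j hj z hz => hj z (hSS hz)⟩
    · rintro S S' ⟨C, hC⟩ ⟨C', hC'⟩
      refine ⟨max C C', (hC.and hC').mono fun j hj z hz => ?_⟩
      rcases hz with hz | hz
      · exact (hj.1 z hz).trans (le_max_left _ _)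
      · exact (hj.2 z hz).trans (le_max_right _ _)
    · intro x hx
      have hx6 : ‖x‖ ≤ 6 := by simpa using hx.1
      obtain ⟨σ, hσ0, hσ1, hσ2⟩ : ∃ σ : ℝ, 0 < σ ∧ σ ≤ s / 2 ∧ (x = 0 ∨ σ ≤ ‖x‖) := by
        by_cases h0 : x = 0
        · exact ⟨s / 2, half_pos hs0, le_rfl, Or.inl h0⟩
        · exact ⟨min (s / 2) ‖x‖, lt_min (half_pos hs0) (norm_pos_iff.2 h0), min_le_left _ _,
            Or.inr (min_le_right _ _)⟩
      have hsub : ∀ j, ball x σ ⊆ ball 0 (r / R j) \ (ball 1 (s / 2) ∪ ball (-1) (s / 2)) := by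
        intro j z hz
        have h8 := W_rad hp.pl j
        have hd1 : Disjoint (ball x σ) (ball (1 : ℂ) (s / 2)) := by
          refine ball_disjoint_ball ?_
          rw [dist_eq_norm]
          linarith [hx.2.1]
        have hd2 : Disjoint (ball x σ) (ball (-1 : ℂ) (s / 2)) := by
          refine ball_disjoint_ball ?_
          rw [dist_eq_norm, sub_neg_eq_add]
          linarith [hx.2.2]
        refine ⟨ball_subset_ball' ?_ hz, fun hz' => ?_⟩
        · rw [dist_zero_right]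
          linarith
        · rcases hz' with hz' | hz'
          · exact disjoint_left.1 hd1 hz hz'
          · exact disjoint_left.1 hd2 hz hz'
      obtain ⟨C, hC⟩ := h1 r H Λ R lam eta h E hp.pl x σ hσ0 hσ2 (by
        refine hsm.mono fun j hj => le_trans ?_ hj
        have hc := (hp.pl.loc j).cont
        exact setIntegral_mono_set ((WUB_int hc 0 _).mono_set sdiff_subset)
          (Eventually.of_forall fun z => (hp.pl.loc j).nonneg z)
          (Eventually.of_forall (hsub j)))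
      exact ⟨ball x (σ / 4), mem_nhdsWithin_of_mem_nhds (ball_mem_nhds x (by linarith)), C, hC⟩
  obtain ⟨C, hC⟩ := key
  exact ⟨C, hC.mono fun j hj z hz hz1 hz2 => hj z ⟨ball_subset_closedBall hz, hz1, hz2⟩⟩

end Pool.Agent.Vx

end
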